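import Mathlib
import Pool.Agent.H196R3.LIg

/-!
# Linear forms in nearly orthogonal unimodular vectors: large geometric means, small mean squares
-/

set_option autoImplicit false

open Finset Polynomial Module IntermediateField

namespace Pool.Agent.V11316.LM

open Pool.Agent.H388SL Pool.Agent.H196R3.LI

/-- a linear form with coefficients `c_j e ^ (r_j)` -/
lemma base {k : ℕ} (hk : 0 < k) (c : Fin k → ℝ) (r : Fin k → ℝ) (u : Fin k → ℂ)
    (hu : ∀ j, ‖u j‖ = 1) (j0 : Fin k) : ∃ (ρ : ℝ) (b : ℂ),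
    ∑ j, ((c j : ℝ) : ℂ) * ((Real.exp (r j) : ℝ) : ℂ) * u j =
      ((Real.exp ρ : ℝ) : ℂ) * (∑ j, ((c j : ℝ) : ℂ) * u j - b) ∧
    ‖b‖ ^ 2 ≤ (∑ j, (c j) ^ 2) * ∑ j, ∑ l, |r j - r l| ∧ ‖b‖ ^ 2 ≤ k * ∑ j, (c j) ^ 2 ∧
    r j0 ≤ ρ ∧ ρ ≤ r j0 + ∑ j, ∑ l, |r j - r l| := by
  classical
  have : Nonempty (Fin k) := ⟨⟨0, hk⟩⟩
  obtain ⟨m0, -, hm⟩ := Finset.exists_max_image (Finset.univ : Finset (Fin k)) r Finset.univ_nonempty
  have hm' : ∀ j, 0 ≤ r m0 - r j := fun j => sub_nonneg.mpr (hm j (Finset.mem_univ j))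
  obtain ⟨w, hw⟩ : ∃ w : Fin k → ℝ, ∀ j, w j = 1 - Real.exp (-(r m0 - r j)) := ⟨_, fun _ => rfl⟩
  have hw0 : ∀ j, 0 ≤ w j := by
    intro j
    rw [hw]
    have : Real.exp (-(r m0 - r j)) ≤ 1 := Real.exp_le_one_iff.mpr (by linarith [hm' j])
    linarith
  have hw1 : ∀ j, w j ≤ 1 := by
    intro j
    rw [hw]
    have : 0 < Real.exp (-(r m0 - r j)) := Real.exp_pos _
    linarith
  have hw2 : ∀ j, w j ≤ r m0 - r j := by
    intro j
    rw [hw]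
    have := Real.add_one_le_exp (-(r m0 - r j))
    linarith
  have h4 : ‖∑ j, ((c j : ℝ) : ℂ) * ((w j : ℝ) : ℂ) * u j‖ ≤ ∑ j, |c j| * w j := by
    refine (norm_sum_le _ _).trans (le_of_eq ?_)
    refine Finset.sum_congr rfl fun j _ => ?_
    rw [norm_mul, norm_mul, hu, mul_one, Complex.norm_real, Complex.norm_real, Real.norm_eq_abs,
      Real.norm_eq_abs]
    congr 1
    exact abs_of_nonneg (hw0 j)
  have h5 : (∑ j, |c j| * w j) ^ 2 ≤ (∑ j, (c j) ^ 2) * ∑ j, (w j) ^ 2 := by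
    have := Finset.sum_mul_sq_le_sq_mul_sq (Finset.univ : Finset (Fin k)) (fun j => |c j|) w
    simpa only [sq_abs] using this
  have hb : ‖∑ j, ((c j : ℝ) : ℂ) * ((w j : ℝ) : ℂ) * u j‖ ^ 2 ≤ (∑ j, (c j) ^ 2) * ∑ j, (w j) ^ 2 :=
    (pow_le_pow_left₀ (norm_nonneg _) h4 2).trans h5
  have hc0 : 0 ≤ ∑ j, (c j) ^ 2 := Finset.sum_nonneg fun _ _ => sq_nonneg _
  have hRm : ∀ j, |r j - r m0| ≤ ∑ l, |r j - r l| := fun j =>
    Finset.single_le_sum (f := fun l => |r j - r l|) (fun l _ => abs_nonneg _) (Finset.mem_univ m0)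
  refine ⟨r m0, ∑ j, ((c j : ℝ) : ℂ) * ((w j : ℝ) : ℂ) * u j, ?_, ?_, ?_, ?_, ?_⟩
  · rw [← Finset.sum_sub_distrib, Finset.mul_sum]
    refine Finset.sum_congr rfl fun j _ => ?_
    have h1 : Real.exp (r j) = Real.exp (r m0) * (1 - w j) := by
      rw [hw]
      simp only [sub_sub_cancel]
      rw [← Real.exp_add]; congr 1; ring
    rw [h1]
    push_cast
    ring
  · refine hb.trans (mul_le_mul_of_nonneg_left ?_ hc0)
    refine Finset.sum_le_sum fun j _ => ?_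
    have h7 : (w j) ^ 2 ≤ r m0 - r j := by nlinarith [hw0 j, hw1 j, hw2 j]
    have h9 : r m0 - r j ≤ |r j - r m0| := by
      rw [abs_sub_comm]; exact le_abs_self _
    linarith [hRm j]
  · refine hb.trans ?_
    rw [mul_comm]
    apply mul_le_mul_of_nonneg_right _ hc0
    calc ∑ j, (w j) ^ 2 ≤ ∑ _j : Fin k, (1 : ℝ) := by
          refine Finset.sum_le_sum fun j _ => ?_
          nlinarith [hw0 j, hw1 j]
      _ = k := by simp
  · exact sub_nonneg.1 (hm' j0)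
  · have h10 : |r j0 - r m0| ≤ ∑ j, ∑ l, |r j - r l| :=
      (hRm j0).trans (Finset.single_le_sum (f := fun j => ∑ l, |r j - r l|)
        (fun j _ => Finset.sum_nonneg fun _ _ => abs_nonneg _) (Finset.mem_univ j0))
    have h11 : r m0 - r j0 ≤ |r j0 - r m0| := by
      rw [abs_sub_comm]; exact le_abs_self _
    linarith

/-- the mean square of a linear form in nearly orthogonal unimodular vectors -/
lemma off {k : ℕ} {S : Type*} [Fintype S] [Nonempty S] (c : Fin k → ℝ) (u : Fin k → S → ℂ)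
    (hu : ∀ j s, ‖u j s‖ = 1) (hC0 : 0 < ∑ j, (c j) ^ 2) {δ : ℝ} (hδ : 0 < δ) :
    |∑ s, ‖∑ j, ((c j : ℝ) : ℂ) * u j s‖ ^ 2 - Fintype.card S * ∑ j, (c j) ^ 2| ≤
      (∑ j, (c j) ^ 2) * (δ * Fintype.card S + 1 / (4 * δ * Fintype.card S) *
        ∑ j, ∑ l ∈ Finset.univ.erase j, ‖∑ s, u j s * starRingEnd ℂ (u l s)‖ ^ 2) := by
  classical
  have hd0 : (0:ℝ) < Fintype.card S := by exact_mod_cast Fintype.card_pos
  obtain ⟨d, hd⟩ : ∃ d : ℝ, d = Fintype.card S := ⟨_, rfl⟩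
  obtain ⟨C, hC⟩ : ∃ C : ℝ, C = ∑ j, (c j) ^ 2 := ⟨_, rfl⟩
  obtain ⟨G, hG⟩ : ∃ G : Fin k → Fin k → ℂ, ∀ j l, G j l = ∑ s, u j s * starRingEnd ℂ (u l s) :=
    ⟨_, fun _ _ => rfl⟩
  have e1 : ∑ s, ‖∑ j, ((c j : ℝ) : ℂ) * u j s‖ ^ 2 = ∑ j, ∑ l, (c j * c l) * (G j l).re := by
    have h4 : ∀ s, ‖∑ j, ((c j : ℝ) : ℂ) * u j s‖ ^ 2 =
        ∑ j, ∑ l, (c j * c l) * (u j s * starRingEnd ℂ (u l s)).re := by
      intro s
      have h2 : ((‖∑ j, ((c j : ℝ) : ℂ) * u j s‖ ^ 2 : ℝ) : ℂ) =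
          ∑ j, ∑ l, ((c j * c l : ℝ) : ℂ) * (u j s * starRingEnd ℂ (u l s)) := by
        rw [← Complex.normSq_eq_norm_sq, ← Complex.mul_conj, map_sum, Finset.sum_mul_sum]
        refine Finset.sum_congr rfl fun j _ => Finset.sum_congr rfl fun l _ => ?_
        rw [map_mul, Complex.conj_ofReal]
        push_cast; ring
      have h3 := congrArg Complex.re h2
      rw [Complex.ofReal_re, Complex.re_sum] at h3
      rw [h3]
      refine Finset.sum_congr rfl fun j _ => ?_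
      rw [Complex.re_sum]
      refine Finset.sum_congr rfl fun l _ => ?_
      rw [Complex.re_ofReal_mul]
    rw [Finset.sum_congr rfl (fun s _ => h4 s), Finset.sum_comm]
    refine Finset.sum_congr rfl fun j _ => ?_
    rw [Finset.sum_comm]
    refine Finset.sum_congr rfl fun l _ => ?_
    rw [hG, Complex.re_sum, Finset.mul_sum]
  have ediag : ∀ j, (G j j).re = d := by
    intro j
    have h1 : ∀ s, u j s * starRingEnd ℂ (u j s) = 1 := by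
      intro s
      rw [Complex.mul_conj, Complex.normSq_eq_norm_sq, hu]
      simp
    rw [hG]
    simp only [h1]
    simp [hd]
  have h1 : ∑ j, ∑ l, (c j * c l) * (G j l).re = d * C +
      ∑ j, ∑ l ∈ Finset.univ.erase j, (c j * c l) * (G j l).re := by
    have h2 : ∀ j, ∑ l, (c j * c l) * (G j l).re = (c j * c j) * d +
        ∑ l ∈ Finset.univ.erase j, (c j * c l) * (G j l).re := by
      intro j
      rw [← Finset.add_sum_erase _ _ (Finset.mem_univ j), ediag]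
    rw [Finset.sum_congr rfl (fun j _ => h2 j), Finset.sum_add_distrib]
    congr 1
    rw [← Finset.sum_mul, mul_comm, hC]
    congr 1
    refine Finset.sum_congr rfl fun j _ => by ring
  have hC1 : 0 < C := by rw [hC]; exact hC0
  have hd1 : 0 < d := by rw [hd]; exact hd0
  rw [← hC, ← hd]
  have hrw : ∑ s, ‖∑ j, ((c j : ℝ) : ℂ) * u j s‖ ^ 2 - d * C =
      ∑ j, ∑ l ∈ Finset.univ.erase j, (c j * c l) * (G j l).re := by
    rw [e1, h1]; ring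
  rw [hrw]
  have h3 : ∀ j l, |(c j * c l) * (G j l).re| ≤
      δ * d / C * (c j ^ 2 * c l ^ 2) + C / (4 * δ * d) * ‖G j l‖ ^ 2 := by
    intro j l
    have h4 : |(G j l).re| ≤ ‖G j l‖ := Complex.abs_re_le_norm _
    have h5 : |(c j * c l) * (G j l).re| ≤ |c j * c l| * ‖G j l‖ := by
      rw [abs_mul]; exact mul_le_mul_of_nonneg_left h4 (abs_nonneg _)
    refine h5.trans ?_
    have h9 : δ * d / C * (c j ^ 2 * c l ^ 2) + C / (4 * δ * d) * ‖G j l‖ ^ 2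
        - |c j * c l| * ‖G j l‖ = (2 * δ * d * |c j * c l| - C * ‖G j l‖) ^ 2 / (4 * δ * d * C) := by
      have : c j ^ 2 * c l ^ 2 = |c j * c l| ^ 2 := by rw [sq_abs]; ring
      rw [this]
      field_simp; ring
    have h10 : 0 ≤ (2 * δ * d * |c j * c l| - C * ‖G j l‖) ^ 2 / (4 * δ * d * C) := by positivity
    linarith
  have h5 : ∑ j, ∑ l ∈ Finset.univ.erase j, (c j ^ 2 * c l ^ 2) ≤ C ^ 2 := by
    have h6 : C ^ 2 = ∑ j, ∑ l, (c j ^ 2 * c l ^ 2) := by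
      rw [pow_two]
      nth_rewrite 1 [hC]
      rw [hC, Finset.sum_mul_sum]
    rw [h6]
    refine Finset.sum_le_sum fun j _ => ?_
    exact Finset.sum_le_sum_of_subset_of_nonneg (Finset.erase_subset _ _)
      (fun _ _ _ => by positivity)
  calc |∑ j, ∑ l ∈ Finset.univ.erase j, (c j * c l) * (G j l).re|
      ≤ ∑ j, |∑ l ∈ Finset.univ.erase j, (c j * c l) * (G j l).re| := Finset.abs_sum_le_sum_abs _ _
    _ ≤ ∑ j, ∑ l ∈ Finset.univ.erase j, |(c j * c l) * (G j l).re| :=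
        Finset.sum_le_sum fun j _ => Finset.abs_sum_le_sum_abs _ _
    _ ≤ ∑ j, ∑ l ∈ Finset.univ.erase j,
          (δ * d / C * (c j ^ 2 * c l ^ 2) + C / (4 * δ * d) * ‖G j l‖ ^ 2) :=
        Finset.sum_le_sum fun j _ => Finset.sum_le_sum fun l _ => h3 j l
    _ = δ * d / C * ∑ j, ∑ l ∈ Finset.univ.erase j, (c j ^ 2 * c l ^ 2) +
          C / (4 * δ * d) * ∑ j, ∑ l ∈ Finset.univ.erase j, ‖G j l‖ ^ 2 := by
        simp only [Finset.mul_sum, ← Finset.sum_add_distrib]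
    _ ≤ δ * d / C * C ^ 2 + C / (4 * δ * d) * ∑ j, ∑ l ∈ Finset.univ.erase j, ‖G j l‖ ^ 2 := by
        apply add_le_add_left
        exact mul_le_mul_of_nonneg_left h5 (by positivity)
    _ = C * (δ * d + 1 / (4 * δ * d) * ∑ j, ∑ l ∈ Finset.univ.erase j, ‖G j l‖ ^ 2) := by
        field_simp
    _ = _ := by simp only [hG]

/-- a linear form with a large geometric mean -/
lemma gramA {k : ℕ} (hk : 0 < k) {S : Type*} [Fintype S] [Nonempty S]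
    (c : Fin k → ℝ) (r : Fin k → S → ℝ) (u : Fin k → S → ℂ) (hu : ∀ j s, ‖u j s‖ = 1)
    (j0 : Fin k) (hr0 : ∑ s, r j0 s = 0) {ε : ℝ} (hε : 0 < ε) (hε1 : ε ≤ 1)
    (hC0 : 0 < ∑ j, (c j) ^ 2)
    (hne : ∀ s, ∑ j, ((c j : ℝ) : ℂ) * ((Real.exp (r j s) : ℝ) : ℂ) * u j s ≠ 0)
    (hlog : Fintype.card S * Real.log ((1 + ε) * ∑ j, (c j) ^ 2) ≤
      2 * ∑ s, Real.log ‖∑ j, ((c j : ℝ) : ℂ) * ((Real.exp (r j s) : ℝ) : ℂ) * u j s‖) :
    ε ^ 2 * (Fintype.card S : ℝ) ^ 2 ≤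
      8 * ∑ j, ∑ l ∈ Finset.univ.erase j, ‖∑ s, u j s * starRingEnd ℂ (u l s)‖ ^ 2
        + 36 * Fintype.card S * ∑ s, ∑ j, ∑ l, |r j s - r l s| := by
  classical
  have hd0 : (0:ℝ) < Fintype.card S := by exact_mod_cast Fintype.card_pos
  have hoff := off c u hu hC0 (δ := ε / 4) (by positivity)
  obtain ⟨d, hd⟩ : ∃ d : ℝ, d = Fintype.card S := ⟨_, rfl⟩
  obtain ⟨C, hC⟩ : ∃ C : ℝ, C = ∑ j, (c j) ^ 2 := ⟨_, rfl⟩
  obtain ⟨E, hE⟩ : ∃ E : ℝ, E = ∑ j, ∑ l ∈ Finset.univ.erase j,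
    ‖∑ s, u j s * starRingEnd ℂ (u l s)‖ ^ 2 := ⟨_, rfl⟩
  obtain ⟨Rs, hRs⟩ : ∃ Rs : S → ℝ, ∀ s, Rs s = ∑ j, ∑ l, |r j s - r l s| := ⟨_, fun _ => rfl⟩
  obtain ⟨W, hW⟩ : ∃ W : S → ℂ, ∀ s, W s = ∑ j, ((c j : ℝ) : ℂ) * ((Real.exp (r j s) : ℝ) : ℂ) * u j s :=
    ⟨_, fun _ => rfl⟩
  obtain ⟨v, hv⟩ : ∃ v : S → ℂ, ∀ s, v s = ∑ j, ((c j : ℝ) : ℂ) * u j s := ⟨_, fun _ => rfl⟩
  simp only [← hW] at hne hlog
  simp only [← hv] at hoff
  simp only [← hRs]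
  rw [← hC] at hC0 hlog hoff
  rw [← hE] at hoff ⊢
  rw [← hd] at hd0 hlog hoff ⊢
  obtain ⟨R, hR⟩ : ∃ R : ℝ, R = ∑ s, Rs s := ⟨_, rfl⟩
  rw [← hR]
  have hE0 : 0 ≤ E := by
    rw [hE]
    exact Finset.sum_nonneg fun _ _ => Finset.sum_nonneg fun _ _ => by positivity
  have hRs0 : ∀ s, 0 ≤ Rs s := by
    intro s
    rw [hRs]
    exact Finset.sum_nonneg fun _ _ => Finset.sum_nonneg fun _ _ => abs_nonneg _
  have hR0 : 0 ≤ R := by rw [hR]; exact Finset.sum_nonneg fun s _ => hRs0 s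
  obtain ⟨Y, hY⟩ : ∃ Y : S → ℝ, ∀ s, Y s = (1 + ε / 4) * ‖v s‖ ^ 2 + (1 + 4 / ε) * (C * Rs s) :=
    ⟨_, fun _ => rfl⟩
  have hpt : ∀ s, ‖W s‖ ^ 2 ≤ Real.exp (2 * (r j0 s + Rs s)) * Y s := by
    intro s
    obtain ⟨ρ, b, h1, h2, _, h3, h4⟩ := base hk c (fun j => r j s) (fun j => u j s) (fun j => hu j s) j0
    rw [← hW, ← hv] at h1
    rw [← hC, ← hRs] at h2
    rw [← hRs] at h4
    rw [h1, norm_mul, mul_pow, Complex.norm_real, Real.norm_eq_abs, abs_of_pos (Real.exp_pos _),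
      ← Real.exp_nat_mul]
    have h5 : Real.exp (((2:ℕ):ℝ) * ρ) ≤ Real.exp (2 * (r j0 s + Rs s)) := by
      apply Real.exp_le_exp.mpr
      push_cast
      linarith
    have h6 : ‖v s - b‖ ^ 2 ≤ Y s := by
      have h7 := norm_sub_le (v s) b
      have h8 : ‖v s - b‖ ^ 2 ≤ (‖v s‖ + ‖b‖) ^ 2 := pow_le_pow_left₀ (norm_nonneg _) h7 2
      have h9 : (‖v s‖ + ‖b‖) ^ 2 ≤ (1 + ε / 4) * ‖v s‖ ^ 2 + (1 + 4 / ε) * ‖b‖ ^ 2 := by
        have h10 : (1 + ε / 4) * ‖v s‖ ^ 2 + (1 + 4 / ε) * ‖b‖ ^ 2 - (‖v s‖ + ‖b‖) ^ 2 =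
            (ε * ‖v s‖ - 4 * ‖b‖) ^ 2 / (4 * ε) := by
          field_simp
          ring
        have h11 : 0 ≤ (ε * ‖v s‖ - 4 * ‖b‖) ^ 2 / (4 * ε) := by positivity
        linarith
      have h12 : (1 + 4 / ε) * ‖b‖ ^ 2 ≤ (1 + 4 / ε) * (C * Rs s) :=
        mul_le_mul_of_nonneg_left h2 (by positivity)
      rw [hY]
      linarith
    exact mul_le_mul h5 h6 (sq_nonneg _) (Real.exp_pos _).le
  have hWpos : ∀ s, 0 < ‖W s‖ := fun s => norm_pos_iff.mpr (hne s)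
  have hYpos : ∀ s, 0 < Y s := by
    intro s
    have h1 : 0 < Real.exp (2 * (r j0 s + Rs s)) * Y s :=
      lt_of_lt_of_le (by have := hWpos s; positivity) (hpt s)
    exact pos_of_mul_pos_right h1 (Real.exp_pos _).le
  have hlogY : ∀ s, 2 * Real.log ‖W s‖ - 2 * r j0 s - 2 * Rs s ≤ Real.log (Y s) := by
    intro s
    have h1 := Real.log_le_log (by have := hWpos s; positivity) (hpt s)
    rw [Real.log_mul (Real.exp_pos _).ne' (hYpos s).ne', Real.log_exp, Real.log_pow] at h1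
    push_cast at h1
    linarith
  have hsumlog : d * Real.log ((1 + ε) * C) - 2 * R ≤ ∑ s, Real.log (Y s) := by
    have h1 := Finset.sum_le_sum fun (s : S) (_ : s ∈ Finset.univ) => hlogY s
    rw [Finset.sum_sub_distrib, Finset.sum_sub_distrib, ← Finset.mul_sum, ← Finset.mul_sum,
      ← Finset.mul_sum, hr0, ← hR] at h1
    linarith
  have ham := amgm Y hYpos
  rw [← hd] at ham
  have hQ : 0 < (1 + ε) * C := by positivity
  have h1 : (1 + ε) * C * (d - 2 * R) ≤ ∑ s, Y s := by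
    have h2 : Real.log ((1 + ε) * C) - 2 * R / d ≤ (∑ s, Real.log (Y s)) / d := by
      rw [le_div_iff₀ hd0]
      have e : (Real.log ((1 + ε) * C) - 2 * R / d) * d = d * Real.log ((1 + ε) * C) - 2 * R := by
        field_simp
      rw [e]; exact hsumlog
    have h3 : (1 + ε) * C * (1 - 2 * R / d) ≤ Real.exp ((∑ s, Real.log (Y s)) / d) := by
      calc (1 + ε) * C * (1 - 2 * R / d) ≤ (1 + ε) * C * Real.exp (- (2 * R / d)) := by
            apply mul_le_mul_of_nonneg_left _ hQ.le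
            have := Real.add_one_le_exp (- (2 * R / d))
            linarith
        _ = Real.exp (Real.log ((1 + ε) * C) - 2 * R / d) := by
            rw [sub_eq_add_neg, Real.exp_add, Real.exp_log hQ]
        _ ≤ _ := Real.exp_le_exp.mpr h2
    calc (1 + ε) * C * (d - 2 * R) = d * ((1 + ε) * C * (1 - 2 * R / d)) := by field_simp
      _ ≤ d * Real.exp ((∑ s, Real.log (Y s)) / d) := mul_le_mul_of_nonneg_left h3 hd0.le
      _ ≤ _ := ham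
  have hYsum : ∑ s, Y s = (1 + ε / 4) * ∑ s, ‖v s‖ ^ 2 + (1 + 4 / ε) * (C * R) := by
    simp only [hY]
    rw [Finset.sum_add_distrib, ← Finset.mul_sum, ← Finset.mul_sum, ← Finset.mul_sum, ← hR]
  have h2 : ∑ s, ‖v s‖ ^ 2 ≤ d * C + C * (ε / 4 * d + 1 / (4 * (ε / 4) * d) * E) := by
    have := (abs_le.1 hoff).2
    linarith
  -- divide by `C`
  have h3 : C * ((1 + ε) * (d - 2 * R)) ≤
      C * ((1 + ε / 4) * (d + (ε / 4 * d + 1 / (4 * (ε / 4) * d) * E)) + (1 + 4 / ε) * R) := by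
    have h4 := mul_le_mul_of_nonneg_left h2 (show 0 ≤ 1 + ε / 4 by positivity)
    rw [hYsum] at h1
    nlinarith
  have h4 := le_of_mul_le_mul_left h3 hC0
  have h5 : 1 / (4 * (ε / 4) * d) * E = E / (ε * d) := by
    field_simp
  rw [h5] at h4
  obtain ⟨F, hF⟩ : ∃ F : ℝ, F = E / (ε * d) := ⟨_, rfl⟩
  rw [← hF] at h4
  have hF0 : 0 ≤ F := by rw [hF]; positivity
  have hEF : E = ε * d * F := by rw [hF]; field_simp
  rw [hEF]
  -- `ε d / 4 ≤ (5/4) F + (9/ε) R`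
  have h6 : ε / 4 * d ≤ 5 / 4 * F + 9 / ε * R := by
    have h7 : (1 + 4 / ε) * R + (1 + ε) * (2 * R) ≤ 9 / ε * R := by
      have h8 : 1 + 4 / ε + (1 + ε) * 2 ≤ 9 / ε := by
        rw [le_div_iff₀ hε]
        have : (1 + 4 / ε + (1 + ε) * 2) * ε = ε + 4 + 2 * ε + 2 * ε ^ 2 := by
          field_simp
          ring
        rw [this]
        nlinarith
      have := mul_le_mul_of_nonneg_right h8 hR0
      linarith
    have h9 : (1 + ε / 4) * F ≤ 5 / 4 * F := mul_le_mul_of_nonneg_right (by linarith) hF0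
    have h10 : (1 + ε / 4) * (d + ε / 4 * d) ≤ d + 3 / 4 * ε * d := by
      nlinarith [mul_nonneg hε.le hd0.le]
    nlinarith
  have h7 := mul_le_mul_of_nonneg_left h6 (show 0 ≤ 4 * ε * d by positivity)
  have h8 : 4 * ε * d * (5 / 4 * F + 9 / ε * R) = 5 * (ε * d * F) + 36 * d * R := by
    field_simp
    ring
  rw [h8] at h7
  have h9 : 0 ≤ ε * d * F := by positivity
  nlinarith

/-- a linear form with a small mean square -/
lemma gramC {k : ℕ} (hk : 0 < k) {S : Type*} [Fintype S] [Nonempty S]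
    (c : Fin k → ℝ) (r : Fin k → S → ℝ) (u : Fin k → S → ℂ) (hu : ∀ j s, ‖u j s‖ = 1)
    (j0 : Fin k) {ε : ℝ} (hε : 0 < ε) (hε1 : ε ≤ 1)
    (hC0 : 0 < ∑ j, (c j) ^ 2)
    (hms : ∑ s, ‖∑ j, ((c j : ℝ) : ℂ) * ((Real.exp (r j s) : ℝ) : ℂ) * u j s‖ ^ 2 ≤
      (1 - ε) * (Fintype.card S * ∑ j, (c j) ^ 2)) :
    ε ^ 2 * (Fintype.card S : ℝ) ^ 2 ≤
      2 * ∑ j, ∑ l ∈ Finset.univ.erase j, ‖∑ s, u j s * starRingEnd ℂ (u l s)‖ ^ 2
        + 8 * Fintype.card S * ∑ s, ∑ j, ∑ l, |r j s - r l s|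
        + 16 * k * Fintype.card S * ∑ s, |r j0 s| := by
  classical
  have hd0 : (0:ℝ) < Fintype.card S := by exact_mod_cast Fintype.card_pos
  have hoff := off c u hu hC0 (δ := ε / 4) (by positivity)
  obtain ⟨d, hd⟩ : ∃ d : ℝ, d = Fintype.card S := ⟨_, rfl⟩
  obtain ⟨C, hC⟩ : ∃ C : ℝ, C = ∑ j, (c j) ^ 2 := ⟨_, rfl⟩
  obtain ⟨E, hE⟩ : ∃ E : ℝ, E = ∑ j, ∑ l ∈ Finset.univ.erase j,
    ‖∑ s, u j s * starRingEnd ℂ (u l s)‖ ^ 2 := ⟨_, rfl⟩
  obtain ⟨Rs, hRs⟩ : ∃ Rs : S → ℝ, ∀ s, Rs s = ∑ j, ∑ l, |r j s - r l s| := ⟨_, fun _ => rfl⟩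
  obtain ⟨W, hW⟩ : ∃ W : S → ℂ, ∀ s, W s = ∑ j, ((c j : ℝ) : ℂ) * ((Real.exp (r j s) : ℝ) : ℂ) * u j s :=
    ⟨_, fun _ => rfl⟩
  obtain ⟨v, hv⟩ : ∃ v : S → ℂ, ∀ s, v s = ∑ j, ((c j : ℝ) : ℂ) * u j s := ⟨_, fun _ => rfl⟩
  simp only [← hW] at hms
  simp only [← hv] at hoff
  simp only [← hRs]
  rw [← hC] at hC0 hms hoff
  rw [← hE] at hoff ⊢
  rw [← hd] at hd0 hms hoff ⊢
  obtain ⟨R, hR⟩ : ∃ R : ℝ, R = ∑ s, Rs s := ⟨_, rfl⟩
  obtain ⟨H, hH⟩ : ∃ H : ℝ, H = ∑ s, |r j0 s| := ⟨_, rfl⟩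
  rw [← hR, ← hH]
  have hE0 : 0 ≤ E := by
    rw [hE]
    exact Finset.sum_nonneg fun _ _ => Finset.sum_nonneg fun _ _ => by positivity
  have hRs0 : ∀ s, 0 ≤ Rs s := by
    intro s
    rw [hRs]
    exact Finset.sum_nonneg fun _ _ => Finset.sum_nonneg fun _ _ => abs_nonneg _
  have hR0 : 0 ≤ R := by rw [hR]; exact Finset.sum_nonneg fun s _ => hRs0 s
  have hH0 : 0 ≤ H := by rw [hH]; exact Finset.sum_nonneg fun s _ => abs_nonneg _
  have hk0 : (0 : ℝ) ≤ k := Nat.cast_nonneg k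
  have hpt : ∀ s, (1 - ε / 4) * ‖v s‖ ^ 2 - 4 / ε * (C * Rs s) - 8 * (k * C) * |r j0 s| ≤ ‖W s‖ ^ 2 := by
    intro s
    obtain ⟨ρ, b, h1, h2, h2', h3, h4⟩ := base hk c (fun j => r j s) (fun j => u j s) (fun j => hu j s) j0
    rw [← hW, ← hv] at h1
    rw [← hC, ← hRs] at h2
    rw [← hC] at h2'
    rw [h1, norm_mul, mul_pow, Complex.norm_real, Real.norm_eq_abs, abs_of_pos (Real.exp_pos _),
      ← Real.exp_nat_mul]
    have hv2 : ‖v s‖ ^ 2 ≤ k * C := by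
      have h5 : ‖v s‖ ≤ ∑ j, |c j| * 1 := by
        rw [hv]
        refine (norm_sum_le _ _).trans (le_of_eq ?_)
        refine Finset.sum_congr rfl fun j _ => ?_
        rw [norm_mul, hu, Complex.norm_real, Real.norm_eq_abs]
      have h6 : (∑ j, |c j| * 1) ^ 2 ≤ (∑ j, (c j) ^ 2) * ∑ _j : Fin k, (1 : ℝ) ^ 2 := by
        have := Finset.sum_mul_sq_le_sq_mul_sq (Finset.univ : Finset (Fin k)) (fun j => |c j|)
          (fun _ => (1 : ℝ))
        simpa only [sq_abs] using this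
      have h7 : ∑ _j : Fin k, (1 : ℝ) ^ 2 = k := by simp
      rw [h7, ← hC] at h6
      calc ‖v s‖ ^ 2 ≤ (∑ j, |c j| * 1) ^ 2 := pow_le_pow_left₀ (norm_nonneg _) h5 2
        _ ≤ C * k := h6
        _ = k * C := mul_comm _ _
    obtain ⟨P, hP⟩ : ∃ P : ℝ, P = ‖v s - b‖ ^ 2 := ⟨_, rfl⟩
    rw [← hP]
    have hP0 : 0 ≤ P := by rw [hP]; positivity
    have hPup : P ≤ 4 * (k * C) := by
      have h7 := norm_sub_le (v s) b
      have h8 : P ≤ (‖v s‖ + ‖b‖) ^ 2 := by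
        rw [hP]
        exact pow_le_pow_left₀ (norm_nonneg _) h7 2
      nlinarith [sq_nonneg (‖v s‖ - ‖b‖)]
    have hPlow : (1 - ε / 4) * ‖v s‖ ^ 2 - 4 / ε * (C * Rs s) ≤ P := by
      have h7 := norm_sub_norm_le (v s) b
      have h8 : (‖v s‖ - ‖b‖) ^ 2 ≤ P := by
        rw [hP]
        have h9 := abs_norm_sub_norm_le (v s) b
        rw [← sq_abs (‖v s‖ - ‖b‖)]
        exact pow_le_pow_left₀ (abs_nonneg _) h9 2
      have h10 : (1 - ε / 4) * ‖v s‖ ^ 2 - 4 / ε * ‖b‖ ^ 2 ≤ (‖v s‖ - ‖b‖) ^ 2 := by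
        have h11 : (‖v s‖ - ‖b‖) ^ 2 - ((1 - ε / 4) * ‖v s‖ ^ 2 - 4 / ε * ‖b‖ ^ 2) =
            (ε * ‖v s‖ - 4 * ‖b‖) ^ 2 / (4 * ε) + ‖b‖ ^ 2 := by
          field_simp
          ring
        have h12 : 0 ≤ (ε * ‖v s‖ - 4 * ‖b‖) ^ 2 / (4 * ε) := by positivity
        nlinarith [sq_nonneg ‖b‖]
      have h12 : 4 / ε * ‖b‖ ^ 2 ≤ 4 / ε * (C * Rs s) :=
        mul_le_mul_of_nonneg_left h2 (by positivity)
      linarith
    have h5 : 1 + 2 * r j0 s ≤ Real.exp (((2:ℕ):ℝ) * ρ) := by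
      have h6 := Real.add_one_le_exp (((2:ℕ):ℝ) * ρ)
      push_cast at h6 ⊢
      linarith
    have h6 : (1 + 2 * r j0 s) * P ≤ Real.exp (((2:ℕ):ℝ) * ρ) * P :=
      mul_le_mul_of_nonneg_right h5 hP0
    have h7 : - (8 * (k * C) * |r j0 s|) ≤ 2 * r j0 s * P := by
      have h8 : |2 * r j0 s * P| ≤ 8 * (k * C) * |r j0 s| := by
        rw [abs_mul, abs_mul, abs_of_nonneg hP0, abs_of_pos (by norm_num : (0:ℝ) < 2)]
        nlinarith [abs_nonneg (r j0 s)]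
      linarith [neg_abs_le (2 * r j0 s * P)]
    have h8 : (1 + 2 * r j0 s) * P = P + 2 * r j0 s * P := by ring
    rw [h8] at h6
    refine le_trans ?_ h6
    linarith
  have hsum := Finset.sum_le_sum fun (s : S) (_ : s ∈ Finset.univ) => hpt s
  rw [Finset.sum_sub_distrib, Finset.sum_sub_distrib, ← Finset.mul_sum, ← Finset.mul_sum,
    ← Finset.mul_sum, ← Finset.mul_sum, ← hR, ← hH] at hsum
  have h2 : d * C - C * (ε / 4 * d + 1 / (4 * (ε / 4) * d) * E) ≤ ∑ s, ‖v s‖ ^ 2 := by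
    have := (abs_le.1 hoff).1
    linarith
  have h3 : C * ((1 - ε / 4) * (d - (ε / 4 * d + 1 / (4 * (ε / 4) * d) * E)) - 4 / ε * R - 8 * k * H) ≤
      C * ((1 - ε) * d) := by
    have h4 := mul_le_mul_of_nonneg_left h2 (show 0 ≤ 1 - ε / 4 by linarith)
    nlinarith
  have h4 := le_of_mul_le_mul_left h3 hC0
  have h5 : 1 / (4 * (ε / 4) * d) * E = E / (ε * d) := by
    field_simp
  rw [h5] at h4
  obtain ⟨F, hF⟩ : ∃ F : ℝ, F = E / (ε * d) := ⟨_, rfl⟩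
  rw [← hF] at h4
  have hF0 : 0 ≤ F := by rw [hF]; positivity
  have hEF : E = ε * d * F := by rw [hF]; field_simp
  rw [hEF]
  have h6 : ε / 2 * d ≤ F + 4 / ε * R + 8 * k * H := by
    have h9 : (1 - ε / 4) * F ≤ F := by nlinarith
    have h10 : (1 - ε / 2) * d ≤ (1 - ε / 4) * (d - ε / 4 * d) := by
      nlinarith [mul_nonneg (sq_nonneg ε) hd0.le]
    nlinarith
  have h7 := mul_le_mul_of_nonneg_left h6 (show 0 ≤ 2 * ε * d by positivity)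
  have h8 : 2 * ε * d * (F + 4 / ε * R + 8 * k * H) =
      2 * (ε * d * F) + 8 * d * R + 16 * ε * (k * d * H) := by
    field_simp
    ring
  rw [h8] at h7
  have h9 : 0 ≤ k * d * H := by positivity
  nlinarith

end Pool.Agent.V11316.LM
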