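import Mathlib
import Pool.Agent.V11316.LM1

/-!
# Units of small mutual height: norms and mean squares of their linear combinations
-/

set_option autoImplicit false

open Finset Polynomial Module IntermediateField

namespace Pool.Agent.V11316.LM

open Pool.Agent.H388SL Pool.Agent.H196R3.LI

lemma gram_bound {c0 : ℝ} (hc0 : 0 < c0)
    (hdob : ∀ (K : Type) [Field K] [NumberField K] (α : K), IsIntegral ℤ α →
      α ≠ 0 → (∀ n : ℕ, 0 < n → α ^ n ≠ 1) → CInj α →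
      c0 / (Real.log (2 * finrank ℚ K)) ^ 3 ≤ lam α)
    {K : Type} [Field K] [NumberField K] {k : ℕ} (γ : Fin k → K) (h0 : ∀ i, γ i ≠ 0)
    (hint : ∀ i j, IsIntegral ℤ (γ i / γ j))
    (hroot : ∀ i j, i ≠ j → ∀ m : ℕ, 0 < m → (γ i / γ j) ^ m ≠ 1)
    (hk1 : (1 : ℝ) ≤ k) {L : ℝ} (hL : 1 ≤ L) :
    ∑ j, ∑ l ∈ Finset.univ.erase j, ‖∑ σ : K →ₐ[ℚ] ℂ, uu (γ j) σ * starRingEnd ℂ (uu (γ l) σ)‖ ^ 2 ≤
      (9 + 2 ^ 19 * (Real.log (2 * (L * k))) ^ 4 / c0) *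
        (finrank ℚ K * ∑ i, ∑ j ∈ Finset.univ.erase i, lam (γ i / γ j)) +
        (finrank ℚ K : ℝ) ^ 2 / (16 * L ^ 2) := by
  classical
  have hne : ∀ i j, γ i / γ j ≠ 0 := fun i j => div_ne_zero (h0 i) (h0 j)
  have hinv : ∀ i j, IsIntegral ℤ (γ i / γ j)⁻¹ := by
    intro i j
    rw [inv_div]; exact hint j i
  have hLk : 1 ≤ L * k := by nlinarith
  obtain ⟨B, hB⟩ : ∃ B : ℝ, B = 9 + 2 ^ 19 * (Real.log (2 * (L * k))) ^ 4 / c0 := ⟨_, rfl⟩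
  obtain ⟨d, hd⟩ : ∃ d : ℝ, d = (finrank ℚ K : ℝ) := ⟨_, rfl⟩
  have e1 : ∀ j l, ∑ σ : K →ₐ[ℚ] ℂ, uu (γ j) σ * starRingEnd ℂ (uu (γ l) σ) =
      ∑ σ : K →ₐ[ℚ] ℂ, uu (γ j / γ l) σ := by
    intro j l
    refine Finset.sum_congr rfl fun σ _ => ?_
    have h1 : starRingEnd ℂ (uu (γ l) σ) = (uu (γ l) σ)⁻¹ := by
      rw [Complex.inv_def, Complex.normSq_eq_norm_sq, norm_uu (h0 l) σ]
      simp
    rw [h1]
    have hl : σ (γ l) ≠ 0 := (map_ne_zero σ).mpr (h0 l)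
    have hj : σ (γ j) ≠ 0 := (map_ne_zero σ).mpr (h0 j)
    have hl' : (‖σ (γ l)‖ : ℂ) ≠ 0 := by exact_mod_cast norm_ne_zero_iff.mpr hl
    have hj' : (‖σ (γ j)‖ : ℂ) ≠ 0 := by exact_mod_cast norm_ne_zero_iff.mpr hj
    rw [uu, uu, uu, map_div₀, norm_div]
    push_cast
    field_simp
  simp only [e1]
  rw [← hB, ← hd]
  have h2 : ∀ j, ∀ l ∈ Finset.univ.erase j, ‖∑ σ : K →ₐ[ℚ] ℂ, uu (γ j / γ l) σ‖ ^ 2 ≤
      B * (d * lam (γ j / γ l)) + d ^ 2 / (16 * (L * k) ^ 2) := by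
    intro j l hl
    have hjl : j ≠ l := (Finset.ne_of_mem_erase hl).symm
    rw [hB, hd]
    exact pair_bound hc0 hdob (hint j l) (hinv j l) (hne j l) (hroot j l hjl) hLk
  calc ∑ j, ∑ l ∈ Finset.univ.erase j, ‖∑ σ : K →ₐ[ℚ] ℂ, uu (γ j / γ l) σ‖ ^ 2
      ≤ ∑ j, ∑ l ∈ Finset.univ.erase j, (B * (d * lam (γ j / γ l)) + d ^ 2 / (16 * (L * k) ^ 2)) :=
        Finset.sum_le_sum fun j _ => Finset.sum_le_sum fun l hl => h2 j l hl
    _ = B * (d * ∑ i, ∑ j ∈ Finset.univ.erase i, lam (γ i / γ j)) +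
        ∑ j : Fin k, ∑ l ∈ Finset.univ.erase j, d ^ 2 / (16 * (L * k) ^ 2) := by
        simp only [Finset.sum_add_distrib, Finset.mul_sum]
    _ ≤ B * (d * ∑ i, ∑ j ∈ Finset.univ.erase i, lam (γ i / γ j)) +
        ∑ j : Fin k, ∑ l : Fin k, d ^ 2 / (16 * (L * k) ^ 2) := by
        apply add_le_add_right
        refine Finset.sum_le_sum fun j _ => ?_
        exact Finset.sum_le_sum_of_subset_of_nonneg (Finset.subset_univ _)
          (fun _ _ _ => by positivity)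
    _ = B * (d * ∑ i, ∑ j ∈ Finset.univ.erase i, lam (γ i / γ j)) + d ^ 2 / (16 * L ^ 2) := by
        congr 1
        simp only [Finset.sum_const, Finset.card_univ, Fintype.card_fin, nsmul_eq_mul]
        have hk0 : (k : ℝ) ≠ 0 := by linarith
        have hL0 : L ≠ 0 := by linarith
        field_simp

lemma log_split {L k : ℝ} (hL : 1 ≤ L) (hk : 1 ≤ k) :
    0 ≤ Real.log (2 * (L * k)) ∧
    Real.log (2 * (L * k)) ≤ (1 + Real.log L / Real.log 2) * Real.log (2 * k) := by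
  have hlog2 : 0 < Real.log 2 := Real.log_pos (by norm_num)
  have h1 : Real.log (2 * (L * k)) = Real.log L + Real.log (2 * k) := by
    rw [show 2 * (L * k) = L * (2 * k) by ring, Real.log_mul (by linarith) (by linarith)]
  have h2 : Real.log 2 ≤ Real.log (2 * k) := Real.log_le_log (by norm_num) (by linarith)
  have h3 : 0 ≤ Real.log L := Real.log_nonneg hL
  rw [h1]
  refine ⟨by linarith, ?_⟩
  have h4 : Real.log L ≤ Real.log L / Real.log 2 * Real.log (2 * k) := by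
    rw [div_mul_eq_mul_div, le_div_iff₀ hlog2]
    exact mul_le_mul_of_nonneg_left h2 h3
  linarith

lemma coeff_bound {c0 L k : ℝ} (hc0 : 0 < c0) (hL : 1 ≤ L) (hk : 1 ≤ k) :
    9 + 2 ^ 19 * (Real.log (2 * (L * k))) ^ 4 / c0 ≤
      (9 / Real.log 2 ^ 4 + 2 ^ 19 * (1 + Real.log L / Real.log 2) ^ 4 / c0) * Real.log (2 * k) ^ 4 := by
  have hlog2 : 0 < Real.log 2 := Real.log_pos (by norm_num)
  have hy2 : Real.log 2 ≤ Real.log (2 * k) := Real.log_le_log (by norm_num) (by linarith)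
  obtain ⟨h1, h2⟩ := log_split hL hk
  have h3 : (9 : ℝ) ≤ 9 / Real.log 2 ^ 4 * Real.log (2 * k) ^ 4 := by
    rw [div_mul_eq_mul_div, le_div_iff₀ (by positivity)]
    have : Real.log 2 ^ 4 ≤ Real.log (2 * k) ^ 4 := pow_le_pow_left₀ hlog2.le hy2 4
    linarith
  have h4 : (Real.log (2 * (L * k))) ^ 4 ≤ ((1 + Real.log L / Real.log 2) * Real.log (2 * k)) ^ 4 :=
    pow_le_pow_left₀ h1 h2 4
  have h5 : 2 ^ 19 * (Real.log (2 * (L * k))) ^ 4 / c0 ≤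
      2 ^ 19 * (1 + Real.log L / Real.log 2) ^ 4 / c0 * Real.log (2 * k) ^ 4 := by
    rw [mul_pow] at h4
    calc 2 ^ 19 * (Real.log (2 * (L * k))) ^ 4 / c0
        ≤ 2 ^ 19 * ((1 + Real.log L / Real.log 2) ^ 4 * Real.log (2 * k) ^ 4) / c0 := by gcongr
      _ = _ := by ring
  linarith

/-- the sum over the conjugates of the logarithmic differences -/
lemma sum_diff {K : Type} [Field K] [NumberField K] {k : ℕ} (γ : Fin k → K) (h0 : ∀ i, γ i ≠ 0)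
    (hint : ∀ i j, IsIntegral ℤ (γ i / γ j)) :
    ∑ σ : K →ₐ[ℚ] ℂ, ∑ j, ∑ l, |Real.log ‖σ (γ j)‖ - Real.log ‖σ (γ l)‖| =
      2 * ∑ i, ∑ j ∈ Finset.univ.erase i, lam (γ i / γ j) := by
  classical
  have hne : ∀ i j, γ i / γ j ≠ 0 := fun i j => div_ne_zero (h0 i) (h0 j)
  have hinv : ∀ i j, IsIntegral ℤ (γ i / γ j)⁻¹ := by
    intro i j
    rw [inv_div]; exact hint j i
  rw [Finset.sum_comm, Finset.mul_sum]
  refine Finset.sum_congr rfl fun j _ => ?_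
  rw [Finset.sum_comm, Finset.mul_sum, ← Finset.add_sum_erase _ _ (Finset.mem_univ j)]
  have h1 : ∑ σ : K →ₐ[ℚ] ℂ, |Real.log ‖σ (γ j)‖ - Real.log ‖σ (γ j)‖| = 0 := by simp
  rw [h1, zero_add]
  refine Finset.sum_congr rfl fun l _ => ?_
  rw [← sum_abs_log (hne j l) (prod_unit (hint j l) (hinv j l) (hne j l))]
  refine Finset.sum_congr rfl fun σ _ => ?_
  have hl : σ (γ l) ≠ 0 := (map_ne_zero σ).mpr (h0 l)
  have hj : σ (γ j) ≠ 0 := (map_ne_zero σ).mpr (h0 j)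
  rw [map_div₀, norm_div, Real.log_div (norm_ne_zero_iff.mpr hj) (norm_ne_zero_iff.mpr hl)]

lemma form_eq {K : Type} [Field K] [NumberField K] {k : ℕ} (γ : Fin k → K) (h0 : ∀ i, γ i ≠ 0)
    (a : Fin k → ℚ) (σ : K →ₐ[ℚ] ℂ) :
    ∑ j, (((a j : ℝ) : ℝ) : ℂ) * ((Real.exp (Real.log ‖σ (γ j)‖) : ℝ) : ℂ) * uu (γ j) σ =
      σ (∑ i, (a i : K) * γ i) := by
  rw [map_sum]
  refine Finset.sum_congr rfl fun j _ => ?_
  rw [Real.exp_log (norm_pos_iff.mpr ((map_ne_zero σ).mpr (h0 j))), mul_assoc, ← sig_eq (h0 j) σ,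
    map_mul, map_ratCast]
  norm_cast

/-- **a linear combination with a large norm forces a large mutual height** -/
theorem unitsA (ε : ℝ) (hε : 0 < ε) (hε1 : ε ≤ 1) : ∃ c : ℝ, 0 < c ∧
    ∀ (K : Type) [Field K] [NumberField K] (k : ℕ)
    (γ : Fin k → K), (∀ i, γ i ≠ 0) → (∀ i, IsIntegral ℤ (γ i)) → (∀ i, IsIntegral ℤ (γ i)⁻¹) →
    (∀ i j, i ≠ j → ∀ m : ℕ, 0 < m → (γ i / γ j) ^ m ≠ 1) →
    ∀ (a : Fin k → ℚ), (∃ i, a i ≠ 0) → ∑ i, (a i : K) * γ i ≠ 0 →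
    (finrank ℚ K : ℝ) * Real.log ((1 + ε) * ∑ i, ((a i : ℚ) : ℝ) ^ 2) ≤
      2 * ∑ σ : K →ₐ[ℚ] ℂ, Real.log ‖σ (∑ i, (a i : K) * γ i)‖ →
    c * finrank ℚ K / (Real.log (2 * k)) ^ 4 ≤
      ∑ i, ∑ j ∈ Finset.univ.erase i, lam (γ i / γ j) := by
  classical
  obtain ⟨c0, hc0, hdob⟩ := dob
  have hlog2 : 0 < Real.log 2 := Real.log_pos (by norm_num)
  have hL : 1 ≤ 1 / ε := by rw [le_div_iff₀ hε]; linarith
  obtain ⟨A, hA⟩ : ∃ A : ℝ, A = 9 / Real.log 2 ^ 4 +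
    2 ^ 19 * (1 + Real.log (1 / ε) / Real.log 2) ^ 4 / c0 := ⟨_, rfl⟩
  have hA0 : 0 < A := by
    have : 0 ≤ Real.log (1 / ε) := Real.log_nonneg hL
    rw [hA]; positivity
  refine ⟨ε ^ 2 / (16 * A + 144 / Real.log 2 ^ 4), by positivity, ?_⟩
  intro K _ _ k γ h0 hi1 hi2 hroot a ha hβ hlog
  obtain ⟨i0, hi0⟩ := ha
  have hk0 : 0 < k := lt_of_le_of_lt (Nat.zero_le _) i0.isLt
  have hk1 : (1 : ℝ) ≤ k := by exact_mod_cast hk0
  have hint : ∀ i j, IsIntegral ℤ (γ i / γ j) := by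
    intro i j
    rw [div_eq_mul_inv]
    exact (hi1 i).mul (hi2 j)
  have hcard : Fintype.card (K →ₐ[ℚ] ℂ) = finrank ℚ K := AlgHom.card ℚ K ℂ
  have hd0 : (0:ℝ) < finrank ℚ K := by exact_mod_cast (finrank_pos : 0 < finrank ℚ K)
  haveI : Nonempty (K →ₐ[ℚ] ℂ) := by
    rw [← Fintype.card_pos_iff, hcard]
    exact finrank_pos
  have hC0 : 0 < ∑ i, ((a i : ℚ) : ℝ) ^ 2 :=
    Finset.sum_pos' (fun _ _ => sq_nonneg _) ⟨i0, Finset.mem_univ _, by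
      have : ((a i0 : ℚ) : ℝ) ≠ 0 := by exact_mod_cast hi0
      positivity⟩
  have hG := gramA hk0 (S := K →ₐ[ℚ] ℂ) (fun j => ((a j : ℚ) : ℝ)) (fun j σ => Real.log ‖σ (γ j)‖)
    (fun j σ => uu (γ j) σ) (fun j σ => norm_uu (h0 j) σ) i0 (by
      rw [← Real.log_prod (fun σ _ => norm_ne_zero_iff.mpr ((map_ne_zero σ).mpr (h0 i0))),
        prod_unit (hi1 i0) (hi2 i0) (h0 i0), Real.log_one]) hε hε1 hC0 (by
      intro σ
      have := form_eq γ h0 a σ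
      push_cast at this ⊢
      rw [this]
      exact (map_ne_zero σ).mpr hβ) (by
      rw [hcard]
      refine hlog.trans (le_of_eq ?_)
      congr 1
      refine Finset.sum_congr rfl fun σ _ => ?_
      have := form_eq γ h0 a σ
      push_cast at this ⊢
      rw [this])
  rw [hcard, sum_diff γ h0 hint] at hG
  have hE := gram_bound hc0 hdob γ h0 hint hroot hk1 hL
  have hB := coeff_bound hc0 hL hk1 (L := 1 / ε) (k := (k : ℝ))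
  rw [← hA] at hB
  obtain ⟨Λ, hΛ⟩ : ∃ Λ : ℝ, Λ = ∑ i, ∑ j ∈ Finset.univ.erase i, lam (γ i / γ j) := ⟨_, rfl⟩
  have hΛ0 : 0 ≤ Λ := by
    rw [hΛ]
    exact Finset.sum_nonneg fun _ _ => Finset.sum_nonneg fun _ _ => lam_nonneg _
  rw [← hΛ] at hG hE ⊢
  obtain ⟨d, hd⟩ : ∃ d : ℝ, d = (finrank ℚ K : ℝ) := ⟨_, rfl⟩
  rw [← hd] at hG hE hd0 ⊢
  obtain ⟨E, hEd⟩ : ∃ E : ℝ, E = ∑ j, ∑ l ∈ Finset.univ.erase j,
    ‖∑ σ : K →ₐ[ℚ] ℂ, uu (γ j) σ * starRingEnd ℂ (uu (γ l) σ)‖ ^ 2 := ⟨_, rfl⟩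
  rw [← hEd] at hG hE
  obtain ⟨B, hBd⟩ : ∃ B : ℝ, B = 9 + 2 ^ 19 * (Real.log (2 * (1 / ε * k))) ^ 4 / c0 := ⟨_, rfl⟩
  rw [← hBd] at hE hB
  obtain ⟨y, hy⟩ : ∃ y : ℝ, y = Real.log (2 * k) := ⟨_, rfl⟩
  rw [← hy] at hB ⊢
  have hy2 : Real.log 2 ≤ y := by rw [hy]; exact Real.log_le_log (by norm_num) (by linarith)
  have hy0 : 0 < y := by linarith
  have h1 : d ^ 2 / (16 * (1 / ε) ^ 2) = ε ^ 2 * d ^ 2 / 16 := by
    field_simp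
  rw [h1] at hE
  have h2 : d * (ε ^ 2 * d) ≤ d * ((16 * B + 144) * Λ) := by nlinarith
  have h3 := le_of_mul_le_mul_left h2 hd0
  have h4 : 16 * B + 144 ≤ (16 * A + 144 / Real.log 2 ^ 4) * y ^ 4 := by
    have h5 : (144:ℝ) ≤ 144 / Real.log 2 ^ 4 * y ^ 4 := by
      rw [div_mul_eq_mul_div, le_div_iff₀ (by positivity)]
      have : Real.log 2 ^ 4 ≤ y ^ 4 := pow_le_pow_left₀ hlog2.le hy2 4
      linarith
    linarith
  have h5 : ε ^ 2 * d ≤ (16 * A + 144 / Real.log 2 ^ 4) * y ^ 4 * Λ :=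
    h3.trans (mul_le_mul_of_nonneg_right h4 hΛ0)
  rw [div_le_iff₀ (by positivity), div_mul_eq_mul_div, div_le_iff₀ (by positivity)]
  linarith

/-- **a linear combination with a small mean square forces a large mutual height** -/
theorem unitsC (ε : ℝ) (hε : 0 < ε) (hε1 : ε ≤ 1) : ∃ c : ℝ, 0 < c ∧
    ∀ (K : Type) [Field K] [NumberField K] (k : ℕ)
    (γ : Fin k → K), (∀ i, γ i ≠ 0) → (∀ i, IsIntegral ℤ (γ i)) → (∀ i, IsIntegral ℤ (γ i)⁻¹) →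
    (∀ i j, i ≠ j → ∀ m : ℕ, 0 < m → (γ i / γ j) ^ m ≠ 1) →
    ∀ (a : Fin k → ℚ), (∃ i, a i ≠ 0) →
    ∑ σ : K →ₐ[ℚ] ℂ, ‖σ (∑ i, (a i : K) * γ i)‖ ^ 2 ≤
      (1 - ε) * (finrank ℚ K * ∑ i, ((a i : ℚ) : ℝ) ^ 2) → ∀ j0 : Fin k,
    c * finrank ℚ K / (Real.log (2 * k)) ^ 4 ≤
      ∑ i, ∑ j ∈ Finset.univ.erase i, lam (γ i / γ j) + k * lam (γ j0) := by
  classical
  obtain ⟨c0, hc0, hdob⟩ := dob
  have hlog2 : 0 < Real.log 2 := Real.log_pos (by norm_num)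
  have hL : 1 ≤ 1 / ε := by rw [le_div_iff₀ hε]; linarith
  obtain ⟨A, hA⟩ : ∃ A : ℝ, A = 9 / Real.log 2 ^ 4 +
    2 ^ 19 * (1 + Real.log (1 / ε) / Real.log 2) ^ 4 / c0 := ⟨_, rfl⟩
  have hA0 : 0 < A := by
    have : 0 ≤ Real.log (1 / ε) := Real.log_nonneg hL
    rw [hA]; positivity
  refine ⟨ε ^ 2 / (4 * A + 64 / Real.log 2 ^ 4), by positivity, ?_⟩
  intro K _ _ k γ h0 hi1 hi2 hroot a ha hms j0
  obtain ⟨i0, hi0⟩ := ha
  have hk0 : 0 < k := lt_of_le_of_lt (Nat.zero_le _) i0.isLt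
  have hk1 : (1 : ℝ) ≤ k := by exact_mod_cast hk0
  have hint : ∀ i j, IsIntegral ℤ (γ i / γ j) := by
    intro i j
    rw [div_eq_mul_inv]
    exact (hi1 i).mul (hi2 j)
  have hcard : Fintype.card (K →ₐ[ℚ] ℂ) = finrank ℚ K := AlgHom.card ℚ K ℂ
  have hd0 : (0:ℝ) < finrank ℚ K := by exact_mod_cast (finrank_pos : 0 < finrank ℚ K)
  haveI : Nonempty (K →ₐ[ℚ] ℂ) := by
    rw [← Fintype.card_pos_iff, hcard]
    exact finrank_pos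
  have hC0 : 0 < ∑ i, ((a i : ℚ) : ℝ) ^ 2 :=
    Finset.sum_pos' (fun _ _ => sq_nonneg _) ⟨i0, Finset.mem_univ _, by
      have : ((a i0 : ℚ) : ℝ) ≠ 0 := by exact_mod_cast hi0
      positivity⟩
  have hG := gramC hk0 (S := K →ₐ[ℚ] ℂ) (fun j => ((a j : ℚ) : ℝ)) (fun j σ => Real.log ‖σ (γ j)‖)
    (fun j σ => uu (γ j) σ) (fun j σ => norm_uu (h0 j) σ) j0 hε hε1 hC0 (by
      rw [hcard]
      refine le_trans (le_of_eq ?_) hms
      refine Finset.sum_congr rfl fun σ _ => ?_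
      have := form_eq γ h0 a σ
      push_cast at this ⊢
      rw [this])
  rw [hcard, sum_diff γ h0 hint, sum_abs_log (h0 j0) (prod_unit (hi1 j0) (hi2 j0) (h0 j0))] at hG
  have hE := gram_bound hc0 hdob γ h0 hint hroot hk1 hL
  have hB := coeff_bound hc0 hL hk1 (L := 1 / ε) (k := (k : ℝ))
  rw [← hA] at hB
  obtain ⟨Λ, hΛ⟩ : ∃ Λ : ℝ, Λ = ∑ i, ∑ j ∈ Finset.univ.erase i, lam (γ i / γ j) := ⟨_, rfl⟩
  have hΛ0 : 0 ≤ Λ := by
    rw [hΛ]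
    exact Finset.sum_nonneg fun _ _ => Finset.sum_nonneg fun _ _ => lam_nonneg _
  obtain ⟨m, hm⟩ : ∃ m : ℝ, m = k * lam (γ j0) := ⟨_, rfl⟩
  have hm0 : 0 ≤ m := by
    rw [hm]
    exact mul_nonneg (Nat.cast_nonneg _) (lam_nonneg _)
  rw [← hm]
  have hm' : 16 * (k : ℝ) * (finrank ℚ K : ℝ) * (2 * lam (γ j0)) = 32 * (finrank ℚ K * m) := by
    rw [hm]; ring
  rw [hm'] at hG
  rw [← hΛ] at hG hE ⊢
  obtain ⟨d, hd⟩ : ∃ d : ℝ, d = (finrank ℚ K : ℝ) := ⟨_, rfl⟩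
  rw [← hd] at hG hE hd0 ⊢
  obtain ⟨E, hEd⟩ : ∃ E : ℝ, E = ∑ j, ∑ l ∈ Finset.univ.erase j,
    ‖∑ σ : K →ₐ[ℚ] ℂ, uu (γ j) σ * starRingEnd ℂ (uu (γ l) σ)‖ ^ 2 := ⟨_, rfl⟩
  rw [← hEd] at hG hE
  obtain ⟨B, hBd⟩ : ∃ B : ℝ, B = 9 + 2 ^ 19 * (Real.log (2 * (1 / ε * k))) ^ 4 / c0 := ⟨_, rfl⟩
  rw [← hBd] at hE hB
  have hB0 : 0 ≤ B := by
    rw [hBd]
    positivity
  obtain ⟨y, hy⟩ : ∃ y : ℝ, y = Real.log (2 * k) := ⟨_, rfl⟩
  rw [← hy] at hB ⊢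
  have hy2 : Real.log 2 ≤ y := by rw [hy]; exact Real.log_le_log (by norm_num) (by linarith)
  have hy0 : 0 < y := by linarith
  have h1 : d ^ 2 / (16 * (1 / ε) ^ 2) = ε ^ 2 * d ^ 2 / 16 := by
    field_simp
  rw [h1] at hE
  have hdΛ : 0 ≤ d * Λ := by positivity
  have hdm : 0 ≤ d * m := by positivity
  have hBdm : 0 ≤ B * (d * m) := by positivity
  have hBdΛ : 0 ≤ B * (d * Λ) := by positivity
  have h2 : d * (ε ^ 2 * d) ≤ d * ((4 * B + 64) * (Λ + m)) := by nlinarith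
  have h3 := le_of_mul_le_mul_left h2 hd0
  have h4 : 4 * B + 64 ≤ (4 * A + 64 / Real.log 2 ^ 4) * y ^ 4 := by
    have h5 : (64:ℝ) ≤ 64 / Real.log 2 ^ 4 * y ^ 4 := by
      rw [div_mul_eq_mul_div, le_div_iff₀ (by positivity)]
      have : Real.log 2 ^ 4 ≤ y ^ 4 := pow_le_pow_left₀ hlog2.le hy2 4
      linarith
    linarith
  have h5 : ε ^ 2 * d ≤ (4 * A + 64 / Real.log 2 ^ 4) * y ^ 4 * (Λ + m) :=
    h3.trans (mul_le_mul_of_nonneg_right h4 (by positivity))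
  rw [div_le_iff₀ (by positivity), div_mul_eq_mul_div, div_le_iff₀ (by positivity)]
  linarith

end Pool.Agent.V11316.LM
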