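import Mathlib
import Pool.Agent.V11316.LM2

/-!
# Monomials in the roots of an integer polynomial of small Mahler measure
-/

set_option autoImplicit false

open Finset Polynomial Module IntermediateField

namespace Pool.Agent.V11316.LM

open Pool.Agent.H388SL Pool.Agent.H196R3.LI

/-- reduction to monic polynomials with constant term `± 1` -/
lemma reduction {f : ℤ[X]} (hf : Irreducible f) :
    2 ≤ MM f ∨ f.coeff 0 = 0 ∨
      ∃ p : ℤ[X], Irreducible p ∧ p.Monic ∧ |p.coeff 0| = 1 ∧ MM p = MM f ∧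
        p.natDegree = f.natDegree ∧ ∀ z : ℂ, aeval z p = 0 ↔ aeval z f = 0 := by
  by_cases h0 : f.coeff 0 = 0
  · exact Or.inr (Or.inl h0)
  by_cases hc : |f.coeff 0| = 1
  · by_cases hl : |f.leadingCoeff| = 1
    · refine Or.inr (Or.inr ?_)
      rcases (abs_eq (by norm_num : (0:ℤ) ≤ 1)).mp hl with h | h
      · exact ⟨f, hf, h, hc, rfl, rfl, fun z => Iff.rfl⟩
      · refine ⟨-f, by simpa using (irreducible_units_mul (-1 : ℤ[X]ˣ)).mpr hf, ?_, ?_, MM_neg f,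
          natDegree_neg f, ?_⟩
        · rw [Monic, leadingCoeff_neg, h]; norm_num
        · rw [coeff_neg, abs_neg]; exact hc
        · intro z
          rw [map_neg, neg_eq_zero]
    · left
      have h1 : 1 ≤ |f.leadingCoeff| := Int.one_le_abs (leadingCoeff_ne_zero.mpr hf.ne_zero)
      have h2 : 2 ≤ |f.leadingCoeff| := by omega
      have h3 := leadingCoeff_le_MM f
      have h4 : (2:ℝ) ≤ |(f.leadingCoeff : ℝ)| := by exact_mod_cast h2
      linarith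
  · left
    have h1 : 1 ≤ |f.coeff 0| := Int.one_le_abs h0
    have h2 : 2 ≤ |f.coeff 0| := by omega
    have h3 := coeff_zero_le_MM f
    have h4 : (2:ℝ) ≤ |(f.coeff 0 : ℝ)| := by exact_mod_cast h2
    linarith

/-- the number field generated by the roots, and the monomials in it -/
lemma setup {p : ℤ[X]} (hp : Irreducible p) (hm : p.Monic)
    (hc0 : |p.coeff 0| = 1) (S : Finset ℂ) (D : ℂ → ℕ)
    (hS : ∀ x ∈ S, ∃ l : List ℂ, l.length ≤ D x ∧ (∀ z ∈ l, aeval z p = 0 ∨ aeval z⁻¹ p = 0) ∧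
      x = l.prod)
    (htor : ∀ x ∈ S, ∀ y ∈ S, x ≠ y → ∀ m : ℕ, 0 < m → x ^ m ≠ y ^ m) :
    ∃ (K : IntermediateField ℚ ℂ) (_ : NumberField K) (γ : Fin S.card → K),
      (∀ i, γ i ≠ 0) ∧ (∀ i, IsIntegral ℤ (γ i)) ∧ (∀ i, IsIntegral ℤ (γ i)⁻¹) ∧
      (∀ i j, i ≠ j → ∀ m : ℕ, 0 < m → (γ i / γ j) ^ m ≠ 1) ∧
      (∀ g : ℂ → ℝ, ∑ i, g ((γ i : K) : ℂ) = ∑ x ∈ S, g x) ∧
      (∀ g : ℂ → ℂ, ∑ i, g ((γ i : K) : ℂ) = ∑ x ∈ S, g x) ∧
      (∀ x ∈ S, ∃ i, ((γ i : K) : ℂ) = x) ∧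
      (p.natDegree : ℝ) * ∑ i, ∑ j ∈ Finset.univ.erase i, lam (γ i / γ j) ≤
        2 * S.card * (∑ x ∈ S, (D x : ℝ)) * (finrank ℚ K * Real.log (MM p)) ∧
      (∀ i, (p.natDegree : ℝ) * lam (γ i) ≤ D ((γ i : K) : ℂ) * (finrank ℚ K * Real.log (MM p))) := by
  classical
  have hfin := splitting_finite hm
  have hnf : NumberField (adjoin ℚ {z : ℂ | aeval z p = 0}) :=
    { to_charZero := inferInstance, to_finiteDimensional := hfin }
  refine ⟨adjoin ℚ {z : ℂ | aeval z p = 0}, hnf, ?_⟩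
  obtain ⟨n, hn⟩ : ∃ n : ℝ, n = (p.natDegree : ℝ) := ⟨_, rfl⟩
  have hn0 : 0 ≤ n := by rw [hn]; exact Nat.cast_nonneg _
  obtain ⟨T, hT⟩ : ∃ T : ℝ, T = finrank ℚ (adjoin ℚ {z : ℂ | aeval z p = 0}) * Real.log (MM p) := ⟨_, rfl⟩
  have hlM : 0 ≤ Real.log (MM p) := Real.log_nonneg (one_le_MM hp.ne_zero)
  have hT0 : 0 ≤ T := by rw [hT]; positivity
  rw [← hn, ← hT]
  let e : S ≃ Fin S.card := S.equivFin
  have hch : ∀ x : S, ∃ y : (adjoin ℚ {z : ℂ | aeval z p = 0}), (y : ℂ) = x ∧ y ≠ 0 ∧ IsIntegral ℤ y ∧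
      IsIntegral ℤ y⁻¹ ∧ n * lam y ≤ D x * T := by
    rintro ⟨x, hx⟩
    obtain ⟨l, hl1, hl2, hl3⟩ := hS x hx
    obtain ⟨y, hy1, hy2, hy3, hy4, hy5⟩ := monomial_bound hp hm hc0 l hl2
    refine ⟨y, by rw [hy1, ← hl3], hy2, hy3, hy4, ?_⟩
    rw [← hn, ← hT] at hy5
    refine hy5.trans ?_
    have : (l.length : ℝ) ≤ D x := by exact_mod_cast hl1
    exact mul_le_mul_of_nonneg_right this hT0
  choose y hy1 hy2 hy3 hy4 hy5 using hch
  have htr : ∀ {M : Type} [AddCommMonoid M] (g : ℂ → M),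
      ∑ i : Fin S.card, g ((y (e.symm i) : _) : ℂ) = ∑ x ∈ S, g x := by
    intro M _ g
    rw [← Finset.sum_coe_sort S g]
    refine Fintype.sum_equiv e.symm _ _ (fun i => ?_)
    rw [hy1]
  have hpair : ∀ i j : Fin S.card, n * lam (y (e.symm i) / y (e.symm j)) ≤
      ((D (e.symm i) : ℝ) + D (e.symm j)) * T := by
    intro i j
    have h2 : lam (y (e.symm i) / y (e.symm j)) ≤ lam (y (e.symm i)) + lam (y (e.symm j)) := by
      rw [div_eq_mul_inv]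
      refine (lam_mul_le _ _).trans ?_
      rw [lam_inv (hy2 _) (prod_unit (hy3 _) (hy4 _) (hy2 _))]
    have h3 := mul_le_mul_of_nonneg_left h2 hn0
    have h4 : n * lam (y (e.symm i)) ≤ D (e.symm i) * T := hy5 _
    have h5 : n * lam (y (e.symm j)) ≤ D (e.symm j) * T := hy5 _
    linarith
  refine ⟨fun i => y (e.symm i), fun i => hy2 _, fun i => hy3 _, fun i => hy4 _, ?_, htr, htr, ?_, ?_, ?_⟩
  · intro i j hij m hm0 h
    have hij' : ((e.symm i : S) : ℂ) ≠ (e.symm j : S) := by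
      intro h2
      exact hij (e.symm.injective (Subtype.ext h2))
    apply htor _ (e.symm i).2 _ (e.symm j).2 hij' m hm0
    have h3 : (y (e.symm i)) ^ m = (y (e.symm j)) ^ m := by
      rw [div_pow, div_eq_one_iff_eq (pow_ne_zero m (hy2 _))] at h
      exact h
    have h4 := congrArg (fun w : (adjoin ℚ {z : ℂ | aeval z p = 0}) => (w : ℂ)) h3
    simp only [IntermediateField.coe_pow] at h4
    simp only [hy1] at h4
    exact h4
  · intro x hx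
    refine ⟨e ⟨x, hx⟩, ?_⟩
    simp only [Equiv.symm_apply_apply]
    exact hy1 ⟨x, hx⟩
  · have hΔ : ∑ i : Fin S.card, (D (e.symm i) : ℝ) = ∑ x ∈ S, (D x : ℝ) := by
      rw [← Finset.sum_coe_sort S (fun x => (D x : ℝ))]
      exact Fintype.sum_equiv e.symm _ _ (fun _ => rfl)
    calc n * ∑ i, ∑ j ∈ Finset.univ.erase i, lam (y (e.symm i) / y (e.symm j))
        = ∑ i, ∑ j ∈ Finset.univ.erase i, n * lam (y (e.symm i) / y (e.symm j)) := by
          simp only [Finset.mul_sum]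
      _ ≤ ∑ i : Fin S.card, ∑ j ∈ Finset.univ.erase i, ((D (e.symm i) : ℝ) + D (e.symm j)) * T :=
          Finset.sum_le_sum fun i _ => Finset.sum_le_sum fun j _ => hpair i j
      _ ≤ ∑ i : Fin S.card, ∑ j : Fin S.card, ((D (e.symm i) : ℝ) + D (e.symm j)) * T := by
          refine Finset.sum_le_sum fun i _ => ?_
          exact Finset.sum_le_sum_of_subset_of_nonneg (Finset.subset_univ _)
            (fun _ _ _ => by positivity)
      _ = 2 * S.card * (∑ x ∈ S, (D x : ℝ)) * T := by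
          simp only [← Finset.sum_mul, Finset.sum_add_distrib, Finset.sum_const, Finset.card_univ,
            Fintype.card_fin, nsmul_eq_mul, ← Finset.mul_sum, hΔ]
          ring
  · intro i
    have := hy5 (e.symm i)
    rw [← hy1 (e.symm i)] at this
    exact this

/-- sums over the embeddings and over the roots of the minimal polynomial -/
lemma sum_conj (K : IntermediateField ℚ ℂ) [NumberField K] (β : K) (F : ℂ → ℝ) :
    ((minpoly ℚ (β : ℂ)).natDegree : ℝ) * ∑ σ : K →ₐ[ℚ] ℂ, F (σ β) =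
      finrank ℚ K * (((minpoly ℚ (β : ℂ)).aroots ℂ).map F).sum := by
  classical
  have hint : IsIntegral ℚ β := Algebra.IsIntegral.isIntegral β
  have hmin : minpoly ℚ (β : ℂ) = minpoly ℚ β :=
    minpoly.algebraMap_eq (algebraMap K ℂ).injective β
  rw [hmin, sum_embeddings' β F, nsmul_eq_mul]
  have h1 : (finrank ℚ (adjoin ℚ {β}) : ℝ) * finrank (adjoin ℚ {β}) K = finrank ℚ K := by
    exact_mod_cast finrank_mul_finrank ℚ (adjoin ℚ {β}) K
  have h2 : (minpoly ℚ β).natDegree = finrank ℚ (adjoin ℚ {β}) := (adjoin.finrank hint).symm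
  have h3 : ∑ σ : (adjoin ℚ {β}) →ₐ[ℚ] ℂ, F (σ (AdjoinSimple.gen ℚ β)) =
      (((minpoly ℚ β).aroots ℂ).map F).sum := by
    have h4 := minpoly_map_eq (CInj_gen β)
    have h5 : minpoly ℚ (AdjoinSimple.gen ℚ β) = minpoly ℚ β := minpoly_gen ℚ β
    rw [h5] at h4
    have h6 : (∏ τ : (adjoin ℚ {β}) →ₐ[ℚ] ℂ, (X - C (τ (AdjoinSimple.gen ℚ β)))) =
        (((Finset.univ : Finset ((adjoin ℚ {β}) →ₐ[ℚ] ℂ)).val.map
          (fun τ => τ (AdjoinSimple.gen ℚ β))).map (fun a => X - C a)).prod := by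
      rw [Multiset.map_map]
      rfl
    rw [Polynomial.aroots_def, h4, h6, Polynomial.roots_multiset_prod_X_sub_C, Multiset.map_map]
    rfl
  rw [h3, h2, ← h1]
  ring

/-- the last step -/
lemma finish {c B n Δ M : ℝ} {k : ℕ} (hc : 0 < c) (hB : 0 < B) (hn : 0 ≤ n) (hΔ : 0 ≤ Δ) (hM : 1 ≤ M)
    (h : c * n / (Real.log (2 * k)) ^ 4 ≤ B * k * Δ * Real.log M) :
    Real.exp (c / B * n / (k * Δ * (Real.log (2 * k)) ^ 4)) ≤ M := by
  have hlM : 0 ≤ Real.log M := Real.log_nonneg hM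
  rw [← Real.le_log_iff_exp_le (by linarith)]
  rcases (mul_nonneg (Nat.cast_nonneg k) hΔ : (0:ℝ) ≤ k * Δ).lt_or_eq with hpos | hzero
  swap
  · rw [← hzero, zero_mul, div_zero]
    exact hlM
  have hk : (0:ℝ) < k := by
    rcases (Nat.cast_nonneg k : (0:ℝ) ≤ k).lt_or_eq with h6 | h6
    · exact h6
    · rw [← h6, zero_mul] at hpos
      exact absurd hpos (lt_irrefl _)
  have hk1 : (1:ℝ) ≤ k := by
    have : 0 < k := by exact_mod_cast hk
    exact_mod_cast this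
  have hlog : 0 < Real.log (2 * k) := Real.log_pos (by linarith)
  rw [div_le_iff₀ (by positivity)] at h ⊢
  rw [div_mul_eq_mul_div, div_le_iff₀ hB]
  calc c * n ≤ B * k * Δ * Real.log M * Real.log (2 * k) ^ 4 := h
    _ = _ := by ring

/-- the product of the conjugates -/
lemma prod_conj {β : ℂ} (hβ : IsIntegral ℚ β) :
    (((minpoly ℚ β).aroots ℂ).map (fun z => ‖z‖)).prod = |(((minpoly ℚ β).coeff 0 : ℚ) : ℝ)| := by
  have hm := minpoly.monic hβ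
  have hm' : ((minpoly ℚ β).map (algebraMap ℚ ℂ)).Monic := hm.map _
  have h1 := (IsAlgClosed.splits ((minpoly ℚ β).map (algebraMap ℚ ℂ))).coeff_zero_eq_prod_roots_of_monic hm'
  rw [coeff_map] at h1
  have h2 := congrArg norm h1
  rw [norm_mul, norm_pow, norm_neg, norm_one, one_pow, one_mul] at h2
  rw [Polynomial.aroots_def]
  have h3 : ‖(algebraMap ℚ ℂ) ((minpoly ℚ β).coeff 0)‖ = |(((minpoly ℚ β).coeff 0 : ℚ) : ℝ)| := by
    rw [eq_ratCast, ← Complex.ofReal_ratCast, Complex.norm_real, Real.norm_eq_abs]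
  rw [h3] at h2
  rw [h2]
  exact (map_multiset_prod (normHom : ℂ →*₀ ℝ) _).symm

/-- the polynomial form of `unitsA` -/
theorem polyA (ε : ℝ) (hε : 0 < ε) (hε1 : ε ≤ 1) : ∃ c : ℝ, 0 < c ∧
    ∀ p : ℤ[X], Irreducible p → p.Monic → |p.coeff 0| = 1 → ∀ (S : Finset ℂ) (D : ℂ → ℕ),
    (∀ x ∈ S, ∃ l : List ℂ, l.length ≤ D x ∧ (∀ z ∈ l, aeval z p = 0 ∨ aeval z⁻¹ p = 0) ∧
      x = l.prod) →
    (∀ x ∈ S, ∀ y ∈ S, x ≠ y → ∀ m : ℕ, 0 < m → x ^ m ≠ y ^ m) →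
    ∀ a : ℂ → ℚ, (∃ x ∈ S, a x ≠ 0) → ∀ β : ℂ, β = ∑ x ∈ S, (a x : ℂ) * x →
    ((1 + ε) * ∑ x ∈ S, ((a x : ℚ) : ℝ) ^ 2) ^ (minpoly ℚ β).natDegree ≤
      (((minpoly ℚ β).coeff 0 : ℚ) : ℝ) ^ 2 →
    Real.exp (c * p.natDegree / (S.card * (∑ x ∈ S, (D x : ℝ)) * (Real.log (2 * S.card)) ^ 4)) ≤
      MM p := by
  classical
  obtain ⟨c, hc, H⟩ := unitsA ε hε hε1
  refine ⟨c / 2, by positivity, ?_⟩
  intro p hp hm hc0 S D hS htor a ha β hβ hnorm
  obtain ⟨K, hK, γ, h0, hi1, hi2, hroot, htrR, htrC, hsurj, hsum, -⟩ := setup hp hm hc0 S D hS htor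
  obtain ⟨βK, hβK⟩ : ∃ βK : K, βK = ∑ i, (a ((γ i : K) : ℂ) : K) * γ i := ⟨_, rfl⟩
  have hcoe : (βK : ℂ) = β := by
    rw [hβ, ← htrC (fun x => (a x : ℂ) * x), hβK]
    push_cast
    rfl
  have hsq : ∑ i, ((a ((γ i : K) : ℂ) : ℚ) : ℝ) ^ 2 = ∑ x ∈ S, ((a x : ℚ) : ℝ) ^ 2 :=
    htrR (fun x => ((a x : ℚ) : ℝ) ^ 2)
  obtain ⟨C, hC⟩ : ∃ C : ℝ, C = ∑ x ∈ S, ((a x : ℚ) : ℝ) ^ 2 := ⟨_, rfl⟩
  rw [← hC] at hsq hnorm
  have hC0 : 0 < C := by
    obtain ⟨x, hx, hax⟩ := ha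
    rw [hC]
    refine Finset.sum_pos' (fun _ _ => sq_nonneg _) ⟨x, hx, ?_⟩
    have : ((a x : ℚ) : ℝ) ≠ 0 := by exact_mod_cast hax
    positivity
  have hβi : IsIntegral ℚ β := by
    rw [← hcoe]
    exact (Algebra.IsIntegral.isIntegral (R := ℚ) βK).map (IsScalarTower.toAlgHom ℚ K ℂ)
  have hβ0 : β ≠ 0 := by
    intro h
    rw [h, minpoly.zero, natDegree_X, coeff_X_zero, pow_one] at hnorm
    have : 0 < (1 + ε) * C := by positivity
    simp at hnorm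
    linarith
  have hβK0 : βK ≠ 0 := by
    intro h
    apply hβ0
    rw [← hcoe, h]
    rfl
  have hdeg : 0 < (minpoly ℚ β).natDegree := minpoly.natDegree_pos hβi
  have hlog : (finrank ℚ K : ℝ) * Real.log ((1 + ε) * C) ≤
      2 * ∑ σ : K →ₐ[ℚ] ℂ, Real.log ‖σ βK‖ := by
    have h1 := sum_conj K βK (fun z => Real.log ‖z‖)
    rw [hcoe] at h1
    have h2 : (((minpoly ℚ β).aroots ℂ).map (fun z => Real.log ‖z‖)).sum =
        Real.log |(((minpoly ℚ β).coeff 0 : ℚ) : ℝ)| := by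
      rw [← prod_conj hβi]
      have h3 : ∀ s : Multiset ℂ, (∀ z ∈ s, z ≠ 0) →
          (s.map (fun z => Real.log ‖z‖)).sum = Real.log ((s.map (fun z => ‖z‖)).prod) := by
        intro s
        induction s using Multiset.induction_on with
        | empty => intro _; simp
        | cons z s ih =>
          intro hz
          rw [Multiset.map_cons, Multiset.sum_cons, Multiset.map_cons, Multiset.prod_cons,
            Real.log_mul, ih (fun w hw => hz w (Multiset.mem_cons_of_mem hw))]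
          · exact norm_ne_zero_iff.2 (hz z (Multiset.mem_cons_self z s))
          · apply Multiset.prod_ne_zero
            intro h
            obtain ⟨w, hw, hw2⟩ := Multiset.mem_map.1 h
            exact hz w (Multiset.mem_cons_of_mem hw) (norm_eq_zero.1 hw2)
      apply h3
      intro z hz hz0
      have h4 := (Polynomial.mem_aroots.1 hz).2
      rw [hz0, ← Polynomial.coeff_zero_eq_aeval_zero'] at h4
      have h5 : (minpoly ℚ β).coeff 0 = 0 := by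
        have : (algebraMap ℚ ℂ) ((minpoly ℚ β).coeff 0) = 0 := h4
        exact (map_eq_zero _).1 this
      exact (minpoly.coeff_zero_ne_zero hβi hβ0) h5
    rw [h2] at h1
    have h6 : ((minpoly ℚ β).natDegree : ℝ) * Real.log ((1 + ε) * C) ≤
        2 * Real.log |(((minpoly ℚ β).coeff 0 : ℚ) : ℝ)| := by
      have h7 : 0 < ((1 + ε) * C) ^ (minpoly ℚ β).natDegree := by positivity
      have h8 := Real.log_le_log h7 hnorm
      rw [Real.log_pow, Real.log_pow] at h8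
      rw [Real.log_abs]
      exact_mod_cast h8
    have hm0 : (0 : ℝ) < ((minpoly ℚ β).natDegree : ℝ) := by exact_mod_cast hdeg
    have h9 : ((minpoly ℚ β).natDegree : ℝ) * ((finrank ℚ K : ℝ) * Real.log ((1 + ε) * C)) ≤
        ((minpoly ℚ β).natDegree : ℝ) * (2 * ∑ σ : K →ₐ[ℚ] ℂ, Real.log ‖σ βK‖) := by
      have h10 := mul_le_mul_of_nonneg_left h6 (Nat.cast_nonneg (finrank ℚ K) : (0:ℝ) ≤ _)
      nlinarith
    exact le_of_mul_le_mul_left h9 hm0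
  have h1 := H K S.card γ h0 hi1 hi2 hroot (fun i => a ((γ i : K) : ℂ)) (by
    obtain ⟨x, hx, hax⟩ := ha
    obtain ⟨i, hi⟩ := hsurj x hx
    exact ⟨i, by rw [hi]; exact hax⟩) (by rw [← hβK]; exact hβK0) (by
    rw [hsq, ← hβK]; exact hlog)
  have hd0 : (0:ℝ) < finrank ℚ K := by exact_mod_cast (finrank_pos : 0 < finrank ℚ K)
  apply finish hc (by norm_num) (Nat.cast_nonneg _)
    (Finset.sum_nonneg fun _ _ => Nat.cast_nonneg _) (one_le_MM hp.ne_zero)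
  have h2 := (mul_le_mul_of_nonneg_left h1 (Nat.cast_nonneg p.natDegree : (0:ℝ) ≤ _)).trans hsum
  have h3 : (finrank ℚ K : ℝ) * (c * p.natDegree / (Real.log (2 * S.card)) ^ 4) ≤
      finrank ℚ K * (2 * S.card * (∑ x ∈ S, (D x : ℝ)) * Real.log (MM p)) := by
    calc (finrank ℚ K : ℝ) * (c * p.natDegree / (Real.log (2 * S.card)) ^ 4)
        = p.natDegree * (c * finrank ℚ K / (Real.log (2 * S.card)) ^ 4) := by ring
      _ ≤ 2 * S.card * (∑ x ∈ S, (D x : ℝ)) * (finrank ℚ K * Real.log (MM p)) := h2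
      _ = _ := by ring
  exact le_of_mul_le_mul_left h3 hd0

/-- the polynomial form of `unitsC` -/
theorem polyC (ε : ℝ) (hε : 0 < ε) (hε1 : ε ≤ 1) : ∃ c : ℝ, 0 < c ∧
    ∀ p : ℤ[X], Irreducible p → p.Monic → |p.coeff 0| = 1 → ∀ (S : Finset ℂ) (D : ℂ → ℕ),
    (∀ x ∈ S, ∃ l : List ℂ, l.length ≤ D x ∧ (∀ z ∈ l, aeval z p = 0 ∨ aeval z⁻¹ p = 0) ∧
      x = l.prod) →
    (∀ x ∈ S, ∀ y ∈ S, x ≠ y → ∀ m : ℕ, 0 < m → x ^ m ≠ y ^ m) →
    ∀ a : ℂ → ℚ, (∃ x ∈ S, a x ≠ 0) → ∀ β : ℂ, β = ∑ x ∈ S, (a x : ℂ) * x →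
    (((minpoly ℚ β).aroots ℂ).map (fun z => ‖z‖ ^ 2)).sum ≤
      (1 - ε) * ((minpoly ℚ β).natDegree * ∑ x ∈ S, ((a x : ℚ) : ℝ) ^ 2) →
    Real.exp (c * p.natDegree / (S.card * (∑ x ∈ S, (D x : ℝ)) * (Real.log (2 * S.card)) ^ 4)) ≤
      MM p := by
  classical
  obtain ⟨c, hc, H⟩ := unitsC ε hε hε1
  refine ⟨c / 3, by positivity, ?_⟩
  intro p hp hm hc0 S D hS htor a ha β hβ hms
  obtain ⟨K, hK, γ, h0, hi1, hi2, hroot, htrR, htrC, hsurj, hsum, hlam⟩ := setup hp hm hc0 S D hS htor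
  obtain ⟨βK, hβK⟩ : ∃ βK : K, βK = ∑ i, (a ((γ i : K) : ℂ) : K) * γ i := ⟨_, rfl⟩
  have hcoe : (βK : ℂ) = β := by
    rw [hβ, ← htrC (fun x => (a x : ℂ) * x), hβK]
    push_cast
    rfl
  have hsq : ∑ i, ((a ((γ i : K) : ℂ) : ℚ) : ℝ) ^ 2 = ∑ x ∈ S, ((a x : ℚ) : ℝ) ^ 2 :=
    htrR (fun x => ((a x : ℚ) : ℝ) ^ 2)
  obtain ⟨C, hC⟩ : ∃ C : ℝ, C = ∑ x ∈ S, ((a x : ℚ) : ℝ) ^ 2 := ⟨_, rfl⟩
  rw [← hC] at hsq hms
  have hβi : IsIntegral ℚ β := by
    rw [← hcoe]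
    exact (Algebra.IsIntegral.isIntegral (R := ℚ) βK).map (IsScalarTower.toAlgHom ℚ K ℂ)
  have hdeg : 0 < (minpoly ℚ β).natDegree := minpoly.natDegree_pos hβi
  have hm0 : (0 : ℝ) < ((minpoly ℚ β).natDegree : ℝ) := by exact_mod_cast hdeg
  have hd0 : (0:ℝ) < finrank ℚ K := by exact_mod_cast (finrank_pos : 0 < finrank ℚ K)
  have hms' : ∑ σ : K →ₐ[ℚ] ℂ, ‖σ βK‖ ^ 2 ≤ (1 - ε) * (finrank ℚ K * C) := by
    have h1 := sum_conj K βK (fun z => ‖z‖ ^ 2)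
    rw [hcoe] at h1
    have h2 : ((minpoly ℚ β).natDegree : ℝ) * ∑ σ : K →ₐ[ℚ] ℂ, ‖σ βK‖ ^ 2 ≤
        ((minpoly ℚ β).natDegree : ℝ) * ((1 - ε) * (finrank ℚ K * C)) := by
      rw [h1]
      have h3 := mul_le_mul_of_nonneg_left hms hd0.le
      nlinarith
    exact le_of_mul_le_mul_left h2 hm0
  obtain ⟨x0, hx0, hax0⟩ := ha
  obtain ⟨i0, hi0⟩ := hsurj x0 hx0
  have : Nonempty (Fin S.card) := ⟨i0⟩
  obtain ⟨j0, -, hj0⟩ := Finset.exists_min_image (Finset.univ : Finset (Fin S.card))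
    (fun i => (D ((γ i : K) : ℂ) : ℝ)) Finset.univ_nonempty
  have hmin : (S.card : ℝ) * D ((γ j0 : K) : ℂ) ≤ ∑ x ∈ S, (D x : ℝ) := by
    rw [← htrR (fun x => (D x : ℝ))]
    calc (S.card : ℝ) * D ((γ j0 : K) : ℂ) = ∑ _i : Fin S.card, (D ((γ j0 : K) : ℂ) : ℝ) := by
          rw [Finset.sum_const, Finset.card_univ, Fintype.card_fin, nsmul_eq_mul]
      _ ≤ _ := Finset.sum_le_sum fun i _ => hj0 i (Finset.mem_univ i)
  have h1 := H K S.card γ h0 hi1 hi2 hroot (fun i => a ((γ i : K) : ℂ))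
    ⟨i0, by rw [hi0]; exact hax0⟩ (by rw [hsq, ← hβK]; exact hms') j0
  apply finish hc (by norm_num) (Nat.cast_nonneg _)
    (Finset.sum_nonneg fun _ _ => Nat.cast_nonneg _) (one_le_MM hp.ne_zero)
  have hk1 : (1 : ℝ) ≤ S.card := by
    have : 0 < S.card := lt_of_le_of_lt (Nat.zero_le _) i0.isLt
    exact_mod_cast this
  have hlM : 0 ≤ Real.log (MM p) := Real.log_nonneg (one_le_MM hp.ne_zero)
  obtain ⟨T, hT⟩ : ∃ T : ℝ, T = finrank ℚ K * Real.log (MM p) := ⟨_, rfl⟩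
  have hT0 : 0 ≤ T := by rw [hT]; positivity
  obtain ⟨Δ, hΔ⟩ : ∃ Δ : ℝ, Δ = ∑ x ∈ S, (D x : ℝ) := ⟨_, rfl⟩
  have hΔ0 : 0 ≤ Δ := by rw [hΔ]; exact Finset.sum_nonneg fun _ _ => Nat.cast_nonneg _
  have hlam' := hlam j0
  rw [← hT] at hsum hlam'
  rw [← hΔ] at hsum hmin ⊢
  have h4 : (p.natDegree : ℝ) * (S.card * lam (γ j0)) ≤ S.card * Δ * T := by
    have h5 : (S.card : ℝ) * (p.natDegree * lam (γ j0)) ≤ S.card * (D ((γ j0 : K) : ℂ) * T) :=
      mul_le_mul_of_nonneg_left hlam' (by linarith)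
    have h6 : (S.card : ℝ) * D ((γ j0 : K) : ℂ) * T ≤ Δ * T := mul_le_mul_of_nonneg_right hmin hT0
    have h7 : Δ * T ≤ S.card * (Δ * T) := by
      have : 0 ≤ Δ * T := by positivity
      nlinarith
    nlinarith
  have h2 : (p.natDegree : ℝ) * (c * finrank ℚ K / (Real.log (2 * S.card)) ^ 4) ≤
      3 * S.card * Δ * T := by
    have h5 := mul_le_mul_of_nonneg_left h1 (Nat.cast_nonneg p.natDegree : (0:ℝ) ≤ _)
    rw [mul_add] at h5
    linarith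
  have h3 : (finrank ℚ K : ℝ) * (c * p.natDegree / (Real.log (2 * S.card)) ^ 4) ≤
      finrank ℚ K * (3 * S.card * Δ * Real.log (MM p)) := by
    calc (finrank ℚ K : ℝ) * (c * p.natDegree / (Real.log (2 * S.card)) ^ 4)
        = p.natDegree * (c * finrank ℚ K / (Real.log (2 * S.card)) ^ 4) := by ring
      _ ≤ 3 * S.card * Δ * T := h2
      _ = _ := by rw [hT]; ring
  exact le_of_mul_le_mul_left h3 hd0

end Pool.Agent.V11316.LM
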