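import Mathlib
import Pool.Agent.TH10.RP.Final
import Pool.Agent.Y374.RP.Star2
import Pool.Agent.TH350.RC.Main

/-!
Sums with coefficients of elements of a set of natural numbers which is an additive basis of order two
with many representations; the regular indices of a prime.
-/

set_option autoImplicit false

namespace Pool.Agent.V11316.RG

open Finset

open Classical in
/-- solutions of `x + y + ∑ a_i z_i = N` in pairwise distinct elements of `A`, with `z_i` in `B_i` -/
noncomputable def Sol (A : ℕ → Prop) {k : ℕ} (a : Fin k → ℕ) (B : Fin k → ℕ → Prop) (N : ℕ) :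
    Finset (ℕ × ℕ × (Fin k → ℕ)) :=
  ((range (N + 1)) ×ˢ ((range (N + 1)) ×ˢ (Fintype.piFinset fun _ : Fin k => range (N + 1)))).filter
    (fun s => (A s.1 ∧ A s.2.1 ∧ ∀ i, A (s.2.2 i) ∧ B i (s.2.2 i)) ∧
      (s.1 ≠ s.2.1 ∧ Function.Injective s.2.2 ∧ ∀ i, s.2.2 i ≠ s.1 ∧ s.2.2 i ≠ s.2.1) ∧
      s.1 + s.2.1 + ∑ i, a i * s.2.2 i = N)

/-- the tuples with two equal entries at given places are few -/
theorem eq_count {k : ℕ} (B : Fin k → Finset ℕ) (b : ℕ) (hb : ∀ i, (B i).card = b) (i j : Fin k)
    (hij : i ≠ j) :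
    ((Fintype.piFinset B).filter (fun z => z i = z j)).card * b ≤ b ^ k := by
  classical
  have h1 : (((Fintype.piFinset B).filter (fun z => z i = z j)) ×ˢ (B j)).card ≤
      (Fintype.piFinset B).card := by
    refine card_le_card_of_injOn (fun s => Function.update s.1 j s.2) ?_ ?_
    · rintro ⟨z, y⟩ hz
      rw [coe_product, Set.mem_prod] at hz
      obtain ⟨h1, h2⟩ := hz
      simp only [mem_coe, mem_filter, Fintype.mem_piFinset] at h1 h2
      rw [mem_coe, Fintype.mem_piFinset]
      intro l
      by_cases hl : l = j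
      · subst hl
        simpa using h2
      · simp only [ne_eq, hl, not_false_eq_true, Function.update_of_ne]
        exact h1.1 l
    · rintro ⟨z, y⟩ hz ⟨z', y'⟩ hz' he
      rw [coe_product, Set.mem_prod] at hz hz'
      obtain ⟨h1, h2⟩ := hz
      obtain ⟨h1', h2'⟩ := hz'
      simp only [mem_coe, mem_filter, Fintype.mem_piFinset] at h1 h2 h1' h2'
      simp only at he
      have e1 : y = y' := by
        have := congrFun he j
        simpa using this
      have e2 : ∀ l, l ≠ j → z l = z' l := by
        intro l hl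
        have := congrFun he l
        simpa [hl] using this
      have e3 : z = z' := by
        funext l
        by_cases hl : l = j
        · subst hl
          rw [← h1.2, ← h1'.2]
          exact e2 i hij
        · exact e2 l hl
      rw [e1, e3]
  rw [card_product, hb j] at h1
  refine h1.trans (le_of_eq ?_)
  rw [Fintype.card_piFinset]
  simp [hb]

/-- most tuples have different entries -/
theorem inj_count {k : ℕ} (B : Fin k → Finset ℕ) (b : ℕ) (hb : ∀ i, (B i).card = b) (hb1 : 1 ≤ b)
    (hbk : 2 * k ^ 2 ≤ b) :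
    b ^ k ≤ 2 * ((Fintype.piFinset B).filter (fun z => Function.Injective z)).card := by
  classical
  set Z := (Fintype.piFinset B).filter (fun z => Function.Injective z) with hZ
  have hsub : Fintype.piFinset B ⊆ Z ∪ (((univ : Finset (Fin k)) ×ˢ (univ : Finset (Fin k))).filter
      (fun q => q.1 ≠ q.2)).biUnion
      (fun q => (Fintype.piFinset B).filter (fun z => z q.1 = z q.2)) := by
    intro z hz
    rw [mem_union]
    by_cases h : Function.Injective z
    · left
      rw [hZ, mem_filter]
      exact ⟨hz, h⟩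
    · right
      rw [Function.Injective] at h
      push Not at h
      obtain ⟨x, y, h1, h2⟩ := h
      rw [mem_biUnion]
      exact ⟨(x, y), by simp [h2], by simp [hz, h1]⟩
  have h1 := (card_le_card hsub).trans (card_union_le _ _)
  have h2 : (((((univ : Finset (Fin k)) ×ˢ (univ : Finset (Fin k))).filter
      (fun q => q.1 ≠ q.2)).biUnion
      (fun q => (Fintype.piFinset B).filter (fun z => z q.1 = z q.2))).card) * b ≤ k ^ 2 * b ^ k := by
    calc _ ≤ (∑ q ∈ (((univ : Finset (Fin k)) ×ˢ (univ : Finset (Fin k))).filter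
      (fun q => q.1 ≠ q.2)), ((Fintype.piFinset B).filter (fun z => z q.1 = z q.2)).card) * b :=
          Nat.mul_le_mul_right _ card_biUnion_le
      _ = ∑ q ∈ (((univ : Finset (Fin k)) ×ˢ (univ : Finset (Fin k))).filter
      (fun q => q.1 ≠ q.2)), ((Fintype.piFinset B).filter (fun z => z q.1 = z q.2)).card * b := by
          rw [sum_mul]
      _ ≤ ∑ q ∈ (((univ : Finset (Fin k)) ×ˢ (univ : Finset (Fin k))).filter
      (fun q => q.1 ≠ q.2)), b ^ k := by
          refine sum_le_sum fun q hq => ?_
          rw [mem_filter] at hq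
          exact eq_count B b hb q.1 q.2 hq.2
      _ ≤ k ^ 2 * b ^ k := by
          rw [sum_const, smul_eq_mul]
          refine Nat.mul_le_mul_right _ ?_
          refine (card_filter_le _ _).trans ?_
          simp [pow_two]
  have h3 : (Fintype.piFinset B).card = b ^ k := by
    rw [Fintype.card_piFinset]
    simp [hb]
  rw [h3] at h1
  set E := ((((univ : Finset (Fin k)) ×ˢ (univ : Finset (Fin k))).filter
      (fun q => q.1 ≠ q.2)).biUnion
      (fun q => (Fintype.piFinset B).filter (fun z => z q.1 = z q.2))).card with hE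
  have h4 : b ^ k * b ≤ Z.card * b + k ^ 2 * b ^ k := by
    calc b ^ k * b ≤ (Z.card + E) * b := Nat.mul_le_mul_right _ h1
      _ = Z.card * b + E * b := by ring
      _ ≤ _ := Nat.add_le_add_left h2 _
  have h5 : 2 * (k ^ 2 * b ^ k) ≤ b * b ^ k := by
    calc 2 * (k ^ 2 * b ^ k) = (2 * k ^ 2) * b ^ k := by ring
      _ ≤ b * b ^ k := Nat.mul_le_mul_right _ hbk
  have h6 : b ^ k * b ≤ (2 * Z.card) * b := by nlinarith
  exact Nat.le_of_mul_le_mul_right h6 hb1

/-- the counting lemma -/
theorem count_sol (A : ℕ → Prop) {k : ℕ} (a : Fin k → ℕ) (B : Fin k → ℕ → Prop)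
    (C : Fin k → Finset ℕ) (N b ρ : ℕ)
    (hC : ∀ i, ∀ m ∈ C i, A m ∧ B i m ∧ 2 * k * (a i * m) ≤ N)
    (ha : ∀ i, 1 ≤ a i)
    (hb : ∀ i, b ≤ (C i).card) (hb1 : 1 ≤ b) (hbk : 2 * k ^ 2 ≤ b)
    (hρ1 : 2 * (1 + 2 * k) ≤ ρ)
    (hρ : ∀ M, N ≤ 2 * M → M ≤ N → ∀ I : Finset ℕ,
      (∀ i, 0 < i → i < M → A i → A (M - i) → i ∈ I) → ρ ≤ I.card) :
    b ^ k * ρ ≤ 4 * (Sol A a B N).card := by
  classical
  choose C' hC' hC'b using fun i => exists_subset_card_eq (hb i)
  set Z := (Fintype.piFinset C').filter (fun z => Function.Injective z) with hZ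
  have hZc : b ^ k ≤ 2 * Z.card := inj_count C' b hC'b hb1 hbk
  have hsum : ∀ z ∈ Z, 2 * ∑ i, a i * z i ≤ N := by
    intro z hz
    rw [hZ, mem_filter, Fintype.mem_piFinset] at hz
    rcases Nat.eq_zero_or_pos k with h0 | h0
    · subst h0
      simp
    · have h1 : ∀ i, 2 * k * (a i * z i) ≤ N := fun i => (hC i _ (hC' i (hz.1 i))).2.2
      have h2 : ∑ i : Fin k, 2 * k * (a i * z i) ≤ ∑ _i : Fin k, N := sum_le_sum fun i _ => h1 i
      rw [← mul_sum, sum_const, card_univ, Fintype.card_fin, smul_eq_mul] at h2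
      have h3 : k * (2 * ∑ i : Fin k, a i * z i) ≤ k * N := by
        calc k * (2 * ∑ i : Fin k, a i * z i) = 2 * k * ∑ i : Fin k, a i * z i := by ring
          _ ≤ k * N := h2
      exact Nat.le_of_mul_le_mul_left h3 h0
  let M : (Fin k → ℕ) → ℕ := fun z => N - ∑ i, a i * z i
  let P : (Fin k → ℕ) → Finset ℕ := fun z =>
    (Ioo 0 (M z)).filter (fun i => A i ∧ A (M z - i) ∧ i ≠ M z - i ∧ ∀ l, z l ≠ i ∧ z l ≠ M z - i)
  have hP : ∀ z ∈ Z, ρ ≤ 2 * (P z).card := by
    intro z hz
    have hs := hsum z hz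
    have h1 : N ≤ 2 * M z := by simp only [M]; omega
    have h2 : M z ≤ N := by simp only [M]; omega
    have h3 := hρ (M z) h1 h2 (P z ∪ ({M z / 2} ∪ (univ.image z ∪ univ.image (fun l => M z - z l)))) (by
      intro i hi0 hiM hA hA'
      by_cases h : i ∈ P z
      · exact mem_union_left _ h
      · apply mem_union_right
        simp only [P, mem_filter, mem_Ioo, not_and, ne_eq, not_forall] at h
        by_cases hd : i = M z - i
        · apply mem_union_left
          rw [mem_singleton]
          omega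
        · apply mem_union_right
          have h4 := h ⟨hi0, hiM⟩ hA hA' hd
          obtain ⟨l, hl⟩ := h4
          by_cases hl1 : z l = i
          · apply mem_union_left
            exact mem_image.2 ⟨l, mem_univ _, hl1⟩
          · apply mem_union_right
            have h5 := hl hl1
            rw [not_not] at h5
            refine mem_image.2 ⟨l, mem_univ _, ?_⟩
            show M z - z l = i
            omega)
    have h4 : (P z ∪ ({M z / 2} ∪ (univ.image z ∪ univ.image (fun l => M z - z l)))).card ≤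
        (P z).card + (1 + (k + k)) := by
      refine (card_union_le _ _).trans (Nat.add_le_add_left ?_ _)
      refine (card_union_le _ _).trans (Nat.add_le_add (by simp) ?_)
      refine (card_union_le _ _).trans (Nat.add_le_add ?_ ?_)
      · exact card_image_le.trans (by simp)
      · exact card_image_le.trans (by simp)
    omega
  have hinj : (Z.sigma P).card ≤ (Sol A a B N).card := by
    refine card_le_card_of_injOn (fun s => (s.2, M s.1 - s.2, s.1)) ?_ ?_
    · rintro ⟨z, i⟩ hs
      rw [mem_coe, mem_sigma] at hs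
      obtain ⟨h1, h2⟩ := hs
      simp only at h1 h2
      have hs := hsum z h1
      rw [hZ, mem_filter, Fintype.mem_piFinset] at h1
      simp only [P, mem_filter, mem_Ioo] at h2
      rw [mem_coe]
      unfold Sol
      simp only [mem_filter, mem_product, mem_range, Fintype.mem_piFinset]
      obtain ⟨⟨h3, h4⟩, h5, h6, h7, h8⟩ := h2
      have hM : M z = N - ∑ i, a i * z i := rfl
      refine ⟨⟨by omega, by omega, fun l => ?_⟩, ⟨h5, h6, fun l => ?_⟩, ⟨h7, h1.2, h8⟩, by omega⟩
      · have h9 : a l * z l ≤ ∑ i, a i * z i := single_le_sum (f := fun i => a i * z i)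
          (fun _ _ => Nat.zero_le _) (mem_univ l)
        have h10 : 1 * z l ≤ a l * z l := Nat.mul_le_mul_right _ (ha l)
        omega
      · have h9 := hC l _ (hC' l (h1.1 l))
        exact ⟨h9.1, h9.2.1⟩
    · rintro ⟨z, i⟩ _ ⟨z', i'⟩ _ he
      simp only [Prod.mk.injEq] at he
      obtain ⟨h1, _, h3⟩ := he
      subst h3
      subst h1
      rfl
  rw [card_sigma] at hinj
  have h7 : Z.card * ρ ≤ 2 * ∑ z ∈ Z, (P z).card := by
    rw [mul_sum, ← smul_eq_mul, ← sum_const]
    exact sum_le_sum hP
  calc b ^ k * ρ ≤ (2 * Z.card) * ρ := Nat.mul_le_mul_right _ hZc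
    _ = 2 * (Z.card * ρ) := by ring
    _ ≤ 2 * (2 * ∑ z ∈ Z, (P z).card) := Nat.mul_le_mul_left _ h7
    _ = 4 * ∑ z ∈ Z, (P z).card := by ring
    _ ≤ 4 * (Sol A a B N).card := Nat.mul_le_mul_left _ hinj

end Pool.Agent.V11316.RG
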