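import Mathlib
import Pool.Agent.V11316.RG1
import Pool.Agent.H332R2.Window

/-!
Regular indices: the inputs for the counting lemma.
-/

set_option autoImplicit false

namespace Pool.Agent.V11316.RG

open Finset

/-- `m` is a regular index of `p` -/
def Reg (p m : ℕ) : Prop := 1 ≤ m ∧ ¬ ((p : ℤ) ∣ (bernoulli (2 * m)).num)

open Classical in
theorem star_reg (p : ℕ) (hp : p.Prime) (N V : ℕ) (hN2 : 2 ≤ N) (hN : 2 * N + 3 ≤ p)
    (hV : 2 * V < N) :
    2 * (N - V) ≤ (2 * ((Ioo V (N - V)).filter (fun i => Reg p i ∧ Reg p (N - i))).card + 1) *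
      (4 * V + 3 * ((Ioo V (N - V)).filter (fun i => Reg p i ∧ Reg p (N - i))).card + 1) := by
  have : Fact p.Prime := ⟨hp⟩
  have hccb : ∀ m, 2 * m + 3 ≤ p → (Pool.Agent.H332R2.cc p (2 * m) = 0 ↔
      (p : ℤ) ∣ (bernoulli (2 * m)).num) :=
    fun m hm => Pool.Agent.H332R2.cc_eq_zero_iff (by omega) (by omega)
  have h1 := Pool.Agent.Y374.RP.star p N V hN hN2 hV
  have h2 : Pool.Agent.Y374.RP.JJ p N V =
      (Ioo V (N - V)).filter (fun i => Reg p i ∧ Reg p (N - i)) := by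
    unfold Pool.Agent.Y374.RP.JJ
    refine filter_congr fun i hi => ?_
    rw [mem_Ioo] at hi
    unfold Reg
    rw [← hccb i (by omega), ← hccb (N - i) (by omega)]
    unfold Pool.Agent.TH350.SumReg.ww
    rw [mul_ne_zero_iff]
    constructor
    · rintro ⟨h3, h4⟩
      exact ⟨⟨by omega, h3⟩, ⟨by omega, h4⟩⟩
    · rintro ⟨⟨_, h3⟩, ⟨_, h4⟩⟩
      exact ⟨h3, h4⟩
  rw [h2] at h1
  exact h1

/-- the number of the representations as a sum of two -/
theorem two_reg (p : ℕ) (hp : p.Prime) (M : ℕ) (hM2 : 2 ≤ M) (hM : 2 * M + 3 ≤ p)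
    (I : Finset ℕ) (hI : ∀ i, 0 < i → i < M → Reg p i → Reg p (M - i) → i ∈ I) :
    M ≤ 6 * I.card ^ 2 := by
  classical
  have h1 := star_reg p hp M 0 hM2 hM (by omega)
  have h2 : ((Ioo 0 (M - 0)).filter (fun i => Reg p i ∧ Reg p (M - i))).card ≤ I.card := by
    refine card_le_card fun i hi => ?_
    rw [mem_filter, mem_Ioo] at hi
    exact hI i hi.1.1 (by omega) hi.2.1 hi.2.2
  have h0 : ∀ x : ℕ, 2 * M ≤ (2 * x + 1) * (4 * 0 + 3 * x + 1) → M ≤ 6 * x ^ 2 := by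
    intro x hx
    rcases Nat.eq_zero_or_pos x with h3 | h3
    · subst h3
      omega
    · nlinarith
  have h3 := h0 _ (by simpa using h1)
  refine h3.trans (Nat.mul_le_mul_left _ (Nat.pow_le_pow_left h2 2))

/-- the number of the regular indices -/
theorem num_reg (p : ℕ) (hp : p.Prime) (K : ℕ) (hK : 2 * K + 3 ≤ p) :
    (K : ℝ) ^ ((3 : ℝ) / 4) / 32 ≤
      (((Icc 1 K).filter (fun m : ℕ => ¬ ((p : ℤ) ∣ (bernoulli (2 * m)).num))).card : ℝ) := by
  have h1 := Pool.Agent.TH10.RP.count_main p hp K hK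
  set s := ((Icc 1 K).filter (fun m : ℕ => ¬ ((p : ℤ) ∣ (bernoulli (2 * m)).num))).card
  have h2 : (K : ℝ) ^ 3 ≤ 10 ^ 6 * (s : ℝ) ^ 4 := by exact_mod_cast h1
  have h3 : ((K : ℝ) ^ ((3 : ℝ) / 4) / 32) ^ 4 ≤ (s : ℝ) ^ 4 := by
    rw [div_pow]
    have h4 : ((K : ℝ) ^ ((3 : ℝ) / 4)) ^ 4 = (K : ℝ) ^ 3 := by
      rw [← Real.rpow_natCast, ← Real.rpow_mul (by positivity)]
      norm_num
    rw [h4, div_le_iff₀ (by positivity)]
    have h5 : 0 ≤ (s : ℝ) ^ 4 := by positivity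
    nlinarith
  exact le_of_pow_le_pow_left₀ (by norm_num) (by positivity) h3

/-- the number of the regular indices in a residue class -/
theorem num_cls (p d : ℕ) (hp : p.Prime) (hd : 1 ≤ d) (hpd : d ^ Nat.totient (2 * d) < p)
    (c : ℤ) (K : ℕ) (hK : 2 * K + 3 ≤ p) :
    (K : ℝ) ^ ((1 : ℝ) / 2) / 2 ^ (d - 1) - 2 ≤
      (((Icc 1 K).filter (fun m : ℕ => (m : ℤ) ≡ c [ZMOD d] ∧
        ¬ ((p : ℤ) ∣ (bernoulli (2 * m)).num))).card : ℝ) := by
  have h1 := Pool.Agent.TH350.RC.main p d hp hd hpd c K hK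
  set s := ((Icc 1 K).filter (fun m : ℕ => (m : ℤ) ≡ c [ZMOD d] ∧
        ¬ ((p : ℤ) ∣ (bernoulli (2 * m)).num))).card
  have h2 : (K : ℝ) ≤ 4 ^ (d - 1) * ((s : ℝ) + 2) ^ 2 := by exact_mod_cast h1.le
  have h3 : (K : ℝ) ^ ((1 : ℝ) / 2) ≤ 2 ^ (d - 1) * ((s : ℝ) + 2) := by
    rw [← Real.sqrt_eq_rpow, Real.sqrt_le_left (by positivity)]
    refine h2.trans (le_of_eq ?_)
    rw [mul_pow, ← pow_mul, mul_comm (d - 1) 2, pow_mul]
    norm_num
  have h4 : (0 : ℝ) < 2 ^ (d - 1) := by positivity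
  have h5 : (K : ℝ) ^ ((1 : ℝ) / 2) / 2 ^ (d - 1) ≤ (s : ℝ) + 2 := by
    rw [div_le_iff₀ h4]
    linarith
  linarith

/-- The general form: if the `z_i` come from sets with at least `β K ^ θ` elements up to `K`. -/
theorem general (k : ℕ) (a : Fin k → ℕ) (ha : ∀ i, 1 ≤ a i) (β θ : ℝ) (hβ : 0 < β) (hθ : 0 < θ)
    (L : ℕ) : ∃ c : ℝ, 0 < c ∧ ∃ N₀ : ℕ, ∀ p : ℕ, p.Prime → ∀ B : Fin k → ℕ → Prop,
      (∀ i, ∀ K : ℕ, L ≤ K → 2 * K + 3 ≤ p → ∃ C : Finset ℕ, β * (K : ℝ) ^ θ ≤ (C.card : ℝ) ∧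
        ∀ m ∈ C, m ≤ K ∧ Reg p m ∧ B i m) →
      ∀ N : ℕ, N₀ ≤ N → 2 * N + 3 ≤ p →
        c * (N : ℝ) ^ (k * θ + 1 / 2) ≤ ((Sol (Reg p) a B N).card : ℝ) := by
  classical
  set D : ℕ := 2 * (k + 1) * (1 + ∑ i, a i) with hD
  have hD1 : 1 ≤ D := by
    rw [hD]
    have : 0 < 2 * (k + 1) * (1 + ∑ i, a i) := by positivity
    omega
  have hDr : (0 : ℝ) < D := by exact_mod_cast hD1
  set γ : ℝ := β * (1 / (2 * (D : ℝ))) ^ θ with hγ
  have hγ0 : 0 < γ := by rw [hγ]; positivity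
  have ev1 : ∀ᶠ N : ℕ in Filter.atTop, 1 + 2 * (k : ℝ) ^ 2 ≤ γ * (N : ℝ) ^ θ :=
    ((tendsto_rpow_atTop hθ).comp tendsto_natCast_atTop_atTop).const_mul_atTop hγ0
      |>.eventually_ge_atTop _
  have ev2 : ∀ᶠ N : ℕ in Filter.atTop, 2 * (1 + 2 * (k : ℝ)) + 1 ≤ (1 / 4 : ℝ) * (N : ℝ) ^ (1 / 2 : ℝ) :=
    ((tendsto_rpow_atTop (show (0 : ℝ) < 1 / 2 by norm_num)).comp
      tendsto_natCast_atTop_atTop).const_mul_atTop (by norm_num)
      |>.eventually_ge_atTop _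
  obtain ⟨N1, h1⟩ := Filter.eventually_atTop.1 ev1
  obtain ⟨N2, h2⟩ := Filter.eventually_atTop.1 ev2
  refine ⟨γ ^ k * (1 / 4) / 4, by positivity, max (max N1 N2) (D * (L + 2) + 4), ?_⟩
  intro p hp B hB N hN hNp
  have hN1 := h1 N (le_trans (le_max_left _ _) (le_trans (le_max_left _ _) hN))
  have hN2 := h2 N (le_trans (le_max_right _ _) (le_trans (le_max_left _ _) hN))
  have hN3 : D * (L + 2) + 4 ≤ N := le_trans (le_max_right _ _) hN
  set K := N / D with hK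
  have hKL : L + 2 ≤ K := by
    rw [hK, Nat.le_div_iff_mul_le hD1, Nat.mul_comm]
    omega
  have hKN : K ≤ N := Nat.div_le_self _ _
  have hDK : D * K ≤ N := Nat.mul_div_le _ _
  have hKr : (1 / (2 * (D : ℝ))) * N ≤ K := by
    have h3 : N < D * (K + 1) := by
      rw [hK]
      exact Nat.lt_mul_div_succ _ hD1
    have h4 : (N : ℝ) < D * (K + 1) := by exact_mod_cast h3
    have h5 : (1 : ℝ) ≤ K := by exact_mod_cast (by omega : 1 ≤ K)
    rw [one_div, inv_mul_le_iff₀ (by positivity)]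
    nlinarith
  choose C hC1 hC2 using fun i => hB i K (by omega) (by omega)
  have hx : γ * (N : ℝ) ^ θ ≤ β * (K : ℝ) ^ θ := by
    rw [hγ, mul_assoc, ← Real.mul_rpow (by positivity) (by positivity)]
    refine mul_le_mul_of_nonneg_left ?_ hβ.le
    exact Real.rpow_le_rpow (by positivity) hKr hθ.le
  set x := γ * (N : ℝ) ^ θ with hxd
  set b := ⌈x⌉₊ with hb
  set y := (1 / 4 : ℝ) * (N : ℝ) ^ (1 / 2 : ℝ) with hy
  set ρ := ⌈y⌉₊ with hρ
  have hmain := count_sol (Reg p) a B C N b ρ (by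
      intro i m hm
      obtain ⟨h3, h4, h5⟩ := hC2 i m hm
      refine ⟨h4, h5, ?_⟩
      have h6 : a i ≤ ∑ j, a j := single_le_sum (f := a) (fun _ _ => Nat.zero_le _) (mem_univ i)
      calc 2 * k * (a i * m) ≤ 2 * (k + 1) * ((1 + ∑ j, a j) * K) := by gcongr <;> omega
        _ = D * K := by rw [hD]; ring
        _ ≤ N := hDK) ha (by
      intro i
      exact Nat.ceil_le.2 (hx.trans (hC1 i)))
    (by
      rw [hb, Nat.one_le_ceil_iff]
      nlinarith [sq_nonneg (k : ℝ)])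
    (by
      have h3 : ((2 * k ^ 2 : ℕ) : ℝ) ≤ (b : ℝ) := by
        push_cast
        refine le_trans ?_ (Nat.le_ceil x)
        linarith
      exact_mod_cast h3)
    (by
      have h3 : ((2 * (1 + 2 * k) : ℕ) : ℝ) ≤ (ρ : ℝ) := by
        push_cast
        refine le_trans ?_ (Nat.le_ceil y)
        linarith
      exact_mod_cast h3)
    (by
      intro M hM1 hM2 I hI
      have h3 := two_reg p hp M (by omega) (by omega) I hI
      rw [hρ, Nat.ceil_le]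
      have h4 : (N : ℝ) ≤ 16 * (I.card : ℝ) ^ 2 := by
        have : N ≤ 16 * I.card ^ 2 := by omega
        exact_mod_cast this
      rw [hy, ← Real.sqrt_eq_rpow]
      have h5 : Real.sqrt N ≤ 4 * (I.card : ℝ) := by
        rw [Real.sqrt_le_left (by positivity)]
        refine h4.trans (le_of_eq ?_)
        ring
      linarith)
  have h6 : x ^ k * y ≤ 4 * ((Sol (Reg p) a B N).card : ℝ) := by
    calc x ^ k * y ≤ (b : ℝ) ^ k * (ρ : ℝ) := by
          have hx0 : 0 ≤ x := by rw [hxd]; positivity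
          have hy0 : 0 ≤ y := by rw [hy]; positivity
          gcongr
          · exact Nat.le_ceil x
          · exact Nat.le_ceil y
      _ ≤ 4 * ((Sol (Reg p) a B N).card : ℝ) := by exact_mod_cast hmain
  have hNr : (0 : ℝ) < N := by
    have : 0 < N := by omega
    exact_mod_cast this
  have h7 : x ^ k * y = γ ^ k * (1 / 4) * (N : ℝ) ^ (k * θ + 1 / 2) := by
    rw [hxd, hy, mul_pow, ← Real.rpow_natCast ((N : ℝ) ^ θ) k, ← Real.rpow_mul hNr.le,
      Real.rpow_add hNr, mul_comm θ (k : ℝ)]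
    ring
  rw [h7] at h6
  linarith

end Pool.Agent.V11316.RG
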