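import Mathlib
import Pool.Agent.V11316.RG2

/-!
Sums of nearly equal regular indices, and sums with summands in prescribed short intervals.
-/

set_option autoImplicit false

namespace Pool.Agent.V11316.RG

open Finset

/-- every `M ≥ 2` is a sum of two regular indices which are at least `M / 3` -/
theorem split_reg (p : ℕ) (hp : p.Prime) (M : ℕ) (hM2 : 2 ≤ M) (hM : 2 * M + 3 ≤ p) :
    ∃ x y : ℕ, Reg p x ∧ Reg p y ∧ x + y = M ∧ M ≤ 3 * x ∧ M ≤ 3 * y := by
  classical
  have h1 := star_reg p hp M ((M - 1) / 3) hM2 hM (by omega)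
  have h2 : ((Ioo ((M - 1) / 3) (M - (M - 1) / 3)).filter
      (fun i => Reg p i ∧ Reg p (M - i))).Nonempty := by
    rw [← card_pos, Nat.pos_iff_ne_zero]
    intro h3
    rw [h3] at h1
    omega
  obtain ⟨i, hi⟩ := h2
  rw [mem_filter, mem_Ioo] at hi
  exact ⟨i, M - i, hi.2.1, hi.2.2, by omega, by omega, by omega⟩

/-- nearly equal summands -/
theorem nearly_equal (p : ℕ) (hp : p.Prime) (N : ℕ) (hN : 2 * N + 3 ≤ p) (h : ℕ) (h2 : 2 ≤ h)
    (hhN : h ≤ N) : ∃ s : Multiset ℕ, s.card = h ∧ s.sum = N ∧ (∀ x ∈ s, Reg p x) ∧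
      ∀ x ∈ s, ∀ y ∈ s, x ≤ 3 * y := by
  classical
  induction h, h2 using Nat.le_induction with
  | base =>
    obtain ⟨x, y, h3, h4, h5, h6, h7⟩ := split_reg p hp N hhN hN
    refine ⟨{x, y}, by simp, by simpa using h5, ?_, ?_⟩
    · intro z hz
      simp only [Multiset.insert_eq_cons, Multiset.mem_cons, Multiset.mem_singleton] at hz
      rcases hz with rfl | rfl
      · exact h3
      · exact h4
    · intro z hz w hw
      simp only [Multiset.insert_eq_cons, Multiset.mem_cons, Multiset.mem_singleton] at hz hw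
      rcases hz with rfl | rfl <;> rcases hw with rfl | rfl <;> omega
  | succ h h2 ih =>
    obtain ⟨s, hs1, hs2, hs3, hs4⟩ := ih (by omega)
    have hne : s ≠ 0 := by
      intro h0
      rw [h0] at hs1
      simp at hs1
      omega
    obtain ⟨M, hM, hmax⟩ : ∃ M ∈ s, ∀ x ∈ s, x ≤ M := by
      obtain ⟨M, hM, hmax⟩ := exists_max_image s.toFinset id (by
        obtain ⟨x, hx⟩ := Multiset.exists_mem_of_ne_zero hne
        exact ⟨x, by simpa using hx⟩)
      exact ⟨M, by simpa using hM, fun x hx => hmax x (by simpa using hx)⟩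
    have hM2 : 2 ≤ M := by
      by_contra hcon
      have h3 : s.sum ≤ s.card • 1 := Multiset.sum_le_card_nsmul s 1 (fun x hx => by
        have := hmax x hx
        omega)
      rw [smul_eq_mul] at h3
      omega
    have hMN : M ≤ N := by
      rw [← hs2]
      exact Multiset.single_le_sum (fun _ _ => Nat.zero_le _) M hM
    obtain ⟨x, y, h3, h4, h5, h6, h7⟩ := split_reg p hp M hM2 (by omega)
    have hcons : s = M ::ₘ s.erase M := (Multiset.cons_erase hM).symm
    refine ⟨x ::ₘ y ::ₘ s.erase M, ?_, ?_, ?_, ?_⟩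
    · rw [Multiset.card_cons, Multiset.card_cons]
      have := congrArg Multiset.card hcons
      rw [Multiset.card_cons] at this
      omega
    · rw [Multiset.sum_cons, Multiset.sum_cons]
      have := congrArg Multiset.sum hcons
      rw [Multiset.sum_cons] at this
      omega
    · intro z hz
      rw [Multiset.mem_cons, Multiset.mem_cons] at hz
      rcases hz with rfl | rfl | hz
      · exact h3
      · exact h4
      · exact hs3 z (Multiset.mem_of_mem_erase hz)
    · have hup : ∀ z ∈ x ::ₘ y ::ₘ s.erase M, z ≤ M := by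
        intro z hz
        rw [Multiset.mem_cons, Multiset.mem_cons] at hz
        rcases hz with rfl | rfl | hz
        · omega
        · omega
        · exact hmax z (Multiset.mem_of_mem_erase hz)
      have hlow : ∀ z ∈ x ::ₘ y ::ₘ s.erase M, M ≤ 3 * z := by
        intro z hz
        rw [Multiset.mem_cons, Multiset.mem_cons] at hz
        rcases hz with rfl | rfl | hz
        · exact h6
        · exact h7
        · exact hs4 M hM z (Multiset.mem_of_mem_erase hz)
      intro z hz w hw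
      exact (hup z hz).trans (hlow w hw)

/-- regular indices in short intervals -/
theorem run_reg (p : ℕ) (hp : p.Prime) (a r : ℕ) (hr : 1 ≤ r)
    (ha : 2 * a ≤ (r + 1) * (2 * r + 1)) (hpr : 2 * (a + r) + 3 ≤ p) :
    ∃ m : ℕ, a < m ∧ m ≤ a + r ∧ Reg p m := by
  have : Fact p.Prime := ⟨hp⟩
  rcases Nat.eq_zero_or_pos a with h0 | h0
  · refine ⟨1, by omega, by omega, le_rfl, ?_⟩
    have h2 : bernoulli (2 * 1) = 6⁻¹ := bernoulli_two
    rw [h2]
    have h3 : ((6 : ℚ)⁻¹).num = 1 := by norm_num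
    rw [h3]
    intro h
    have := Int.le_of_dvd (by norm_num) h
    have := hp.two_le
    omega
  · by_contra hcon
    push Not at hcon
    refine Pool.Agent.H332R2.no_window (p := p) (2 * a) r (r + 1) (by omega) (by omega) (by nlinarith)
      (by omega) (by omega) ?_
    intro k hk1 hk2
    rcases Nat.even_or_odd' k with ⟨m, hm | hm⟩
    · subst hm
      rw [Pool.Agent.H332R2.cc_eq_zero_iff (by omega) (by omega)]
      by_contra h5
      exact hcon m (by omega) (by omega) ⟨by omega, h5⟩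
    · have hb : bernoulli k = 0 := bernoulli_eq_zero_of_odd ⟨m, hm⟩ (by omega)
      unfold Pool.Agent.H332R2.cc
      rw [hb]
      simp

/-- all but two summands in prescribed short intervals -/
theorem prescribed (p : ℕ) (hp : p.Prime) (N : ℕ) (hN : 2 * N + 3 ≤ p) (k : ℕ) (u r : Fin k → ℕ)
    (hr : ∀ i, 1 ≤ r i) (hu : ∀ i, 2 * u i ≤ (r i + 1) * (2 * r i + 1))
    (hs : ∑ i, (u i + r i) + 2 ≤ N) :
    ∃ (z : Fin k → ℕ) (x y : ℕ), (∀ i, u i < z i ∧ z i ≤ u i + r i ∧ Reg p (z i)) ∧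
      Reg p x ∧ Reg p y ∧ x + y + ∑ i, z i = N ∧ x + y ≤ 3 * x ∧ x + y ≤ 3 * y := by
  have h1 : ∀ i, ∃ m : ℕ, u i < m ∧ m ≤ u i + r i ∧ Reg p m := by
    intro i
    have h2 : u i + r i ≤ ∑ i, (u i + r i) := single_le_sum (f := fun i => u i + r i)
      (fun _ _ => Nat.zero_le _) (mem_univ i)
    exact run_reg p hp (u i) (r i) (hr i) (hu i) (by omega)
  choose z hz1 hz2 hz3 using h1
  have h3 : ∑ i, z i ≤ ∑ i, (u i + r i) := sum_le_sum fun i _ => hz2 i
  obtain ⟨x, y, h4, h5, h6, h7, h8⟩ := split_reg p hp (N - ∑ i, z i) (by omega) (by omega)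
  exact ⟨z, x, y, fun i => ⟨hz1 i, hz2 i, hz3 i⟩, h4, h5, by omega, by omega, by omega⟩

/-- for a fixed number of summands the quotients are at most `2 + ε` -/
theorem almost_two (h : ℕ) (h2 : 2 ≤ h) (ε : ℝ) (hε : 0 < ε) : ∃ N₀ : ℕ, ∀ p : ℕ, p.Prime → ∀ N : ℕ,
    N₀ ≤ N → 2 * N + 3 ≤ p → ∃ s : Multiset ℕ, s.card = h ∧ s.sum = N ∧ (∀ x ∈ s, Reg p x) ∧
      ∀ x ∈ s, ∀ y ∈ s, (x : ℝ) ≤ (2 + ε) * y := by
  classical
  set T : ℕ := ⌈h * (3 + ε) / ε⌉₊ + 6 with hT
  have hT1 : h * (3 + ε) / ε ≤ (T : ℝ) := by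
    rw [hT]
    push_cast
    have := Nat.le_ceil (h * (3 + ε) / ε : ℝ)
    linarith
  have hTh : h + 6 ≤ T := by
    have h3 : (h : ℝ) ≤ h * (3 + ε) / ε := by
      rw [le_div_iff₀ hε]
      have : (0 : ℝ) ≤ h := by positivity
      nlinarith
    have h4 : (h : ℝ) ≤ (⌈h * (3 + ε) / ε⌉₊ : ℕ) := h3.trans (Nat.le_ceil _)
    have h5 : h ≤ ⌈h * (3 + ε) / ε⌉₊ := by exact_mod_cast h4
    omega
  refine ⟨h * T ^ 2, fun p hp N hN hNp => ?_⟩
  obtain ⟨k, rfl⟩ : ∃ k, h = k + 2 := ⟨h - 2, by omega⟩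
  set q := N / (k + 2) with hq
  have hqT : T ^ 2 ≤ q := by
    rw [hq, Nat.le_div_iff_mul_le (by omega), Nat.mul_comm]
    exact hN
  set t := Nat.sqrt q with ht
  have htT : T ≤ t := by
    rw [ht, Nat.le_sqrt']
    exact hqT
  have ht2 : t * t ≤ q := Nat.sqrt_le q
  have ht3 : q < (t + 1) * (t + 1) := Nat.lt_succ_sqrt q
  have hqN : (k + 2) * q ≤ N := Nat.mul_div_le _ _
  have hqN2 : N < (k + 2) * (q + 1) := Nat.lt_mul_div_succ _ (by omega)
  have hk : k + 8 ≤ t := by omega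
  have h6 : k * (t + 1) + 2 ≤ 2 * q := by nlinarith
  have h7 : 3 * (t + 1) ≤ q := by nlinarith
  have hsum : ∑ _i : Fin k, (q + (t + 1)) + 2 ≤ N := by
    rw [sum_const, card_univ, Fintype.card_fin, smul_eq_mul]
    nlinarith
  obtain ⟨z, x, y, hz, hx, hy, hxy, hx3, hy3⟩ := prescribed p hp N hNp k (fun _ => q)
    (fun _ => t + 1) (fun _ => by omega) (fun _ => by nlinarith) hsum
  have hzs1 : k * q ≤ ∑ i, z i := by
    calc k * q = ∑ _i : Fin k, q := by simp
      _ ≤ ∑ i, z i := sum_le_sum fun i _ => (hz i).1.le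
  have hzs2 : ∑ i, z i ≤ k * (q + (t + 1)) := by
    calc ∑ i, z i ≤ ∑ _i : Fin k, (q + (t + 1)) := sum_le_sum fun i _ => (hz i).2.1
      _ = k * (q + (t + 1)) := by simp
  have hup : x + y ≤ 2 * q + (k + 2) := by nlinarith
  have hlow : 2 * q ≤ x + y + k * (t + 1) := by nlinarith
  refine ⟨x ::ₘ y ::ₘ (univ : Finset (Fin k)).val.map z, ?_, ?_, ?_, ?_⟩
  · simp
  · rw [Multiset.sum_cons, Multiset.sum_cons]
    have e : ((univ : Finset (Fin k)).val.map z).sum = ∑ i, z i := rfl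
    rw [e]
    omega
  · intro w hw
    rw [Multiset.mem_cons, Multiset.mem_cons, Multiset.mem_map] at hw
    rcases hw with rfl | rfl | ⟨i, _, rfl⟩
    · exact hx
    · exact hy
    · exact (hz i).2.2
  · have hU : ∀ w ∈ x ::ₘ y ::ₘ (univ : Finset (Fin k)).val.map z, 3 * w ≤ 4 * q + 2 * (k + 2) := by
      intro w hw
      rw [Multiset.mem_cons, Multiset.mem_cons, Multiset.mem_map] at hw
      rcases hw with rfl | rfl | ⟨i, _, rfl⟩
      · omega
      · omega
      · have := (hz i).2.1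
        omega
    have hL : ∀ w ∈ x ::ₘ y ::ₘ (univ : Finset (Fin k)).val.map z,
        2 * q ≤ 3 * w + k * (t + 1) := by
      intro w hw
      rw [Multiset.mem_cons, Multiset.mem_cons, Multiset.mem_map] at hw
      rcases hw with rfl | rfl | ⟨i, _, rfl⟩
      · omega
      · omega
      · have := (hz i).1
        omega
    intro v hv w hw
    have h8 : (3 * v : ℝ) ≤ 4 * q + 2 * (k + 2) := by exact_mod_cast hU v hv
    have h9 : (2 * q : ℝ) ≤ 3 * w + k * (t + 1) := by exact_mod_cast hL w hw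
    have h10 : (T : ℝ) ≤ t := by exact_mod_cast htT
    have h11 : (t : ℝ) * t ≤ q := by exact_mod_cast ht2
    have h12 : ((k + 2 : ℕ) : ℝ) * (3 + ε) ≤ ε * t := by
      rw [div_le_iff₀ hε] at hT1
      nlinarith
    push_cast at h12
    have h13 : (1 : ℝ) ≤ t := by
      have : 1 ≤ t := by omega
      exact_mod_cast this
    have hk0 : (0 : ℝ) ≤ k := by positivity
    have h14 : 2 * ((k : ℝ) + 2) + (2 + ε) * (((k : ℝ) + 2) * (2 * t)) ≤ 2 * ε * q := by
      have h15 : (((k : ℝ) + 2) * (3 + ε)) * (2 * t) ≤ (ε * t) * (2 * t) :=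
        mul_le_mul_of_nonneg_right h12 (by linarith)
      have h16 : 2 * ((k : ℝ) + 2) ≤ 2 * ((k : ℝ) + 2) * t := by nlinarith
      have h17 : (ε * t) * (2 * t) ≤ 2 * ε * q := by nlinarith
      nlinarith
    have h18 : (k : ℝ) * (t + 1) ≤ ((k : ℝ) + 2) * (2 * t) := by nlinarith
    have h19 : (2 + ε) * (2 * q - (k : ℝ) * (t + 1)) ≤ (2 + ε) * (3 * w) :=
      mul_le_mul_of_nonneg_left (by linarith) (by linarith)
    have h20 : (2 + ε) * ((k : ℝ) * (t + 1)) ≤ (2 + ε) * (((k : ℝ) + 2) * (2 * t)) :=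
      mul_le_mul_of_nonneg_left h18 (by linarith)
    nlinarith

end Pool.Agent.V11316.RG
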