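import Mathlib

/-! # Squared symplectic and orthogonal contents over hook lengths

The product formula for the sums of squared symplectic / orthogonal contents over hooks. -/

namespace V11316.Z0

open YoungDiagram

/-- the hook length of the cell `u` (rows and columns are numbered from `0` in `YoungDiagram`) -/
def hook (μ : YoungDiagram) (u : ℕ × ℕ) : ℤ :=
  ((μ.rowLen u.1 : ℤ) - (u.2 + 1)) + ((μ.colLen u.2 : ℤ) - (u.1 + 1)) + 1

/-- the symplectic content of the cell `u` -/
def csp (μ : YoungDiagram) (u : ℕ × ℕ) : ℤ :=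
  if u.2 < u.1 then ((μ.rowLen u.1 : ℤ) - (u.1 + 1)) + ((μ.rowLen u.2 : ℤ) - (u.2 + 1)) + 2
  else -((μ.colLen u.1 : ℤ) - (u.1 + 1)) - ((μ.colLen u.2 : ℤ) - (u.2 + 1))

/-- the orthogonal content of the cell `u` -/
def cO (μ : YoungDiagram) (u : ℕ × ℕ) : ℤ :=
  if u.2 ≤ u.1 then ((μ.rowLen u.1 : ℤ) - (u.1 + 1)) + ((μ.rowLen u.2 : ℤ) - (u.2 + 1))
  else -((μ.colLen u.1 : ℤ) - (u.1 + 1)) - ((μ.colLen u.2 : ℤ) - (u.2 + 1)) - 2

/-- the sum over all Young diagrams with `n` cells of the product of `(c_sp(u) / h(u))²` -/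
noncomputable def Ssp (n : ℕ) : ℚ :=
  ∑ᶠ μ ∈ {μ : YoungDiagram | μ.card = n}, ∏ u ∈ μ.cells, ((csp μ u : ℚ) / (hook μ u : ℚ)) ^ 2

/-- the sum over all Young diagrams with `n` cells of the product of `(c_O(u) / h(u))²` -/
noncomputable def SO (n : ℕ) : ℚ :=
  ∑ᶠ μ ∈ {μ : YoungDiagram | μ.card = n}, ∏ u ∈ μ.cells, ((cO μ u : ℚ) / (hook μ u : ℚ)) ^ 2

/-- doubled distinct shapes -/
def Good (μ : YoungDiagram) : Prop := ∀ i, i < μ.rowLen i → μ.colLen i = μ.rowLen i + 1

lemma dual (μ : YoungDiagram) (i j : ℕ) : j < μ.rowLen i ↔ i < μ.colLen j := by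
  rw [← mem_iff_lt_rowLen, ← mem_iff_lt_colLen]

lemma hook_pos (μ : YoungDiagram) (u : ℕ × ℕ) (hu : u ∈ μ) : 0 < hook μ u := by
  obtain ⟨i, j⟩ := u
  have h1 := mem_iff_lt_rowLen.1 hu
  have h2 := mem_iff_lt_colLen.1 hu
  simp only [hook]
  omega

lemma good_sq (μ : YoungDiagram) (hg : Good μ) (u : ℕ × ℕ) (hu : u ∈ μ) :
    csp μ u = hook μ u ∨ csp μ u = -hook μ u := by
  obtain ⟨i, j⟩ := u
  have h1 := mem_iff_lt_rowLen.1 hu
  have h2 := mem_iff_lt_colLen.1 hu
  simp only [hook, csp]
  by_cases hij : j < i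
  · have h3 : j < μ.rowLen j := lt_of_lt_of_le h1 (μ.rowLen_anti j i hij.le)
    have h4 := hg j h3
    rw [if_pos hij]
    left; omega
  · have h3 : i < μ.rowLen i := by omega
    have h4 := hg i h3
    rw [if_neg hij]
    right; omega

/-- abstract combinatorial core: row lengths and column lengths of a shape -/
lemma core_row (R C : ℕ → ℕ) (hd : ∀ i j, j < R i ↔ i < C j) (hR : Antitone R) (hC : Antitone C)
    (i : ℕ) (hi : i < R i) (hmax : ∀ l, i < l → l < R l → C l = R l + 1) (hxy : C i ≤ R i) :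
    ∃ j, i ≤ j ∧ j < R i ∧ ((C i : ℤ) - (i + 1)) + ((C j : ℤ) - (j + 1)) = 0 := by
  have hCi : i < C i := (hd i i).1 hi
  by_cases hv : C i = i + 1
  · exact ⟨i, le_rfl, hi, by omega⟩
  -- v = C i - i - 1 > 0
  have hex : ∃ j : ℕ, C i + C j ≤ i + j + 2 := by
    refine ⟨C i + C 0, ?_⟩
    have := hC (Nat.zero_le (C i + C 0))
    omega
  classical
  obtain ⟨j, hj, hmin⟩ : ∃ j, C i + C j ≤ i + j + 2 ∧ ∀ m < j, ¬ (C i + C m ≤ i + m + 2) :=
    ⟨Nat.find hex, Nat.find_spec hex, fun m hm => Nat.find_min hex hm⟩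
  -- j is not in the Durfee square range
  have hjr : ¬ (j < R j) := by
    intro h
    have := (hd j j).1 h
    omega
  have hij : i < j := by
    by_contra hcon
    have hle : j ≤ i := by omega
    have h1 := hR hle
    omega
  rcases Nat.eq_or_lt_of_le hj with heq | hlt
  · refine ⟨j, hij.le, ?_, by omega⟩
    by_contra hcon
    have h2 : ¬ (i < C j) := fun h => hcon ((hd i j).2 h)
    omega
  · exfalso
    have h3 := hmin (j - 1) (by omega)
    -- l = j - v where v = C i - i - 1
    obtain ⟨l, hl⟩ : ∃ l : ℕ, l + C i = j + i + 1 := ⟨j + i + 1 - C i, by omega⟩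
    have h4 : l < C (j - 1) := by omega
    have h5 : ¬ (l < C j) := by omega
    have h6 := (hd l (j - 1)).2 h4
    have h7 : ¬ (j < R l) := fun h => h5 ((hd l j).1 h)
    have h8 : R l = j := by omega
    rcases lt_or_ge i l with hil | hil
    · have h9 := hmax l hil (by omega)
      have h10 := hC hil.le
      omega
    · have h10 := hR hil
      omega

lemma core_col (R C : ℕ → ℕ) (hd : ∀ i j, j < R i ↔ i < C j) (hR : Antitone R) (hC : Antitone C)
    (i : ℕ) (hi : i < R i) (hmax : ∀ l, i < l → l < R l → C l = R l + 1) (hxy : R i + 1 < C i) :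
    ∃ l, i < l ∧ l < C i ∧ ((R l : ℤ) - (l + 1)) + ((R i : ℤ) - (i + 1)) + 2 = 0 := by
  have hex : ∃ l : ℕ, R i + R l ≤ i + l := by
    refine ⟨R i + R 0, ?_⟩
    have := hR (Nat.zero_le (R i + R 0))
    omega
  classical
  obtain ⟨l, hl, hmin⟩ : ∃ l, R i + R l ≤ i + l ∧ ∀ m < l, ¬ (R i + R m ≤ i + m) :=
    ⟨Nat.find hex, Nat.find_spec hex, fun m hm => Nat.find_min hex hm⟩
  have hjr : ¬ (l < R l) := by
    intro h
    omega
  have hij : i < l := by
    by_contra hcon
    have hle : l ≤ i := by omega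
    have h1 := hR hle
    omega
  rcases Nat.eq_or_lt_of_le hl with heq | hlt
  · refine ⟨l, hij, ?_, by omega⟩
    by_contra hcon
    have h2 : ¬ (i < R l) := fun h => hcon ((hd l i).1 h)
    omega
  · exfalso
    have h3 := hmin (l - 1) (by omega)
    -- m = l - v - 1 where v = R i - i
    obtain ⟨m, hm⟩ : ∃ m : ℕ, m + R i + 1 = l + i := ⟨l + i - R i - 1, by omega⟩
    have h4 : m < R (l - 1) := by omega
    have h5 : ¬ (m < R l) := by omega
    have h6 := (hd (l - 1) m).1 h4
    have h7 : ¬ (l < C m) := fun h => h5 ((hd l m).2 h)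
    have h8 : C m = l := by omega
    rcases lt_or_ge i m with hil | hil
    · have h9 := hmax m hil ((hd m m).2 (by omega))
      have h10 := hR hil.le
      omega
    · have h10 := hC hil
      omega

lemma exists_zero (μ : YoungDiagram) (hg : ¬ Good μ) : ∃ u ∈ μ, csp μ u = 0 := by
  classical
  have hd := dual μ
  have hR : Antitone μ.rowLen := fun a b h => μ.rowLen_anti a b h
  have hC : Antitone μ.colLen := fun a b h => μ.colLen_anti a b h
  -- the largest bad index
  unfold Good at hg
  push Not at hg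
  obtain ⟨i, ⟨hi, hne⟩, hmax⟩ : ∃ i, (i < μ.rowLen i ∧ μ.colLen i ≠ μ.rowLen i + 1) ∧
      ∀ l, i < l → l < μ.rowLen l → μ.colLen l = μ.rowLen l + 1 := by
    let P : ℕ → Prop := fun i => i < μ.rowLen i ∧ μ.colLen i ≠ μ.rowLen i + 1
    obtain ⟨i0, hi0⟩ := hg
    have hb : ∀ m, P m → m ≤ μ.rowLen 0 := by
      intro m hm
      have := hR (Nat.zero_le m)
      have := hm.1
      omega
    refine ⟨Nat.findGreatest P (μ.rowLen 0), Nat.findGreatest_spec (P := P) (hb i0 hi0) hi0, ?_⟩
    intro l hl hlr
    by_contra hcon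
    have : l ≤ Nat.findGreatest P (μ.rowLen 0) := Nat.le_findGreatest (hb l ⟨hlr, hcon⟩) ⟨hlr, hcon⟩
    omega
  rcases Nat.lt_or_ge (μ.rowLen i + 1) (μ.colLen i) with h | h
  · obtain ⟨l, h1, h2, h3⟩ := core_col _ _ hd hR hC i hi hmax h
    refine ⟨(l, i), mem_iff_lt_colLen.2 h2, ?_⟩
    simp only [csp]
    rw [if_pos h1]
    omega
  · obtain ⟨j, h1, h2, h3⟩ := core_row _ _ hd hR hC i hi hmax (by omega)
    refine ⟨(i, j), mem_iff_lt_rowLen.2 h2, ?_⟩
    simp only [csp]
    rw [if_neg (by omega)]
    omega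

open Classical in
lemma prod_sp (μ : YoungDiagram) :
    ∏ u ∈ μ.cells, ((csp μ u : ℚ) / (hook μ u : ℚ)) ^ 2 = if Good μ then 1 else 0 := by
  split_ifs with hg
  · refine Finset.prod_eq_one fun u hu => ?_
    have hu' : u ∈ μ := (mem_cells u).1 hu
    have h1 := hook_pos μ u hu'
    have h2 : (hook μ u : ℚ) ≠ 0 := by exact_mod_cast h1.ne'
    rcases good_sq μ hg u hu' with h | h <;> rw [h]
    · rw [div_self h2, one_pow]
    · push_cast
      rw [neg_div, div_self h2]; norm_num
  · obtain ⟨u, hu, h0⟩ := exists_zero μ hg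
    refine Finset.prod_eq_zero ((mem_cells u).2 hu) ?_
    rw [h0]; simp

lemma cO_eq (μ : YoungDiagram) (u : ℕ × ℕ) : cO μ u = - csp μ.transpose u.swap := by
  obtain ⟨i, j⟩ := u
  simp only [cO, csp, Prod.swap, rowLen_transpose, colLen_transpose]
  split_ifs <;> omega

lemma hook_eq (μ : YoungDiagram) (u : ℕ × ℕ) : hook μ u = hook μ.transpose u.swap := by
  obtain ⟨i, j⟩ := u
  simp only [hook, Prod.swap, rowLen_transpose, colLen_transpose]
  omega

open Classical in
lemma prod_O (μ : YoungDiagram) :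
    ∏ u ∈ μ.cells, ((cO μ u : ℚ) / (hook μ u : ℚ)) ^ 2 = if Good μ.transpose then 1 else 0 := by
  rw [← prod_sp]
  refine Finset.prod_bij (fun u _ => u.swap) ?_ ?_ ?_ ?_
  · intro u hu
    rw [mem_cells] at hu ⊢
    rw [mem_transpose]; simpa using hu
  · intro a _ b _ h
    exact Prod.swap_injective h
  · intro b hb
    refine ⟨b.swap, ?_, by simp⟩
    rw [mem_cells] at hb ⊢
    exact mem_transpose.1 hb
  · intro u _
    rw [cO_eq, hook_eq]
    push_cast
    rw [neg_div, neg_sq]


lemma rowLen_le_card (μ : YoungDiagram) (i : ℕ) : μ.rowLen i ≤ μ.card := by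
  rw [rowLen_eq_card]
  exact Finset.card_le_card (Finset.filter_subset _ _)

lemma colLen_le_card (μ : YoungDiagram) (i : ℕ) : μ.colLen i ≤ μ.card := by
  rw [colLen_eq_card]
  exact Finset.card_le_card (Finset.filter_subset _ _)

lemma finite_card (n : ℕ) : {μ : YoungDiagram | μ.card = n}.Finite := by
  refine Set.Finite.of_finite_image (f := fun μ : YoungDiagram => μ.cells) ?_ ?_
  · refine Set.Finite.subset
      (Finset.finite_toSet ((Finset.range n ×ˢ Finset.range n).powerset)) ?_
    rintro _ ⟨μ, hμ, rfl⟩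
    simp only [Set.mem_ofPred_eq] at hμ
    simp only [Finset.coe_powerset, Set.mem_preimage, Set.mem_powerset_iff, Finset.coe_subset]
    intro ⟨i, j⟩ hu
    rw [mem_cells] at hu
    have h1 := mem_iff_lt_rowLen.1 hu
    have h2 := mem_iff_lt_colLen.1 hu
    have h3 := rowLen_le_card μ i
    have h4 := colLen_le_card μ j
    simp only [Finset.mem_product, Finset.mem_range]
    omega
  · intro μ _ ν _ h
    exact YoungDiagram.ext h

open Classical in
lemma sum_ind (n : ℕ) (P : YoungDiagram → Prop) :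
    (∑ᶠ μ ∈ {μ : YoungDiagram | μ.card = n}, (if P μ then (1 : ℚ) else 0))
      = ({μ : YoungDiagram | μ.card = n ∧ P μ}.ncard : ℚ) := by
  rw [finsum_mem_eq_finite_toFinset_sum _ (finite_card n), Finset.sum_boole]
  congr 1
  rw [← Set.ncard_coe_finset]
  congr 1
  ext μ
  simp

lemma Ssp_eq (n : ℕ) : Ssp n = ({μ : YoungDiagram | μ.card = n ∧ Good μ}.ncard : ℚ) := by
  unfold Ssp
  simp_rw [prod_sp]
  exact sum_ind n _

lemma card_transpose (μ : YoungDiagram) : μ.transpose.card = μ.card := by
  unfold YoungDiagram.card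
  refine Finset.card_bij (fun u _ => u.swap) ?_ ?_ ?_
  · intro u hu
    rw [mem_cells] at hu ⊢
    exact mem_transpose.1 hu
  · intro a _ b _ h
    exact Prod.swap_injective h
  · intro b hb
    refine ⟨b.swap, ?_, by simp⟩
    rw [mem_cells] at hb ⊢
    rw [mem_transpose]; simpa using hb

lemma SO_eq (n : ℕ) : SO n = ({μ : YoungDiagram | μ.card = n ∧ Good μ}.ncard : ℚ) := by
  unfold SO
  simp_rw [prod_O]
  rw [sum_ind n _]
  congr 1
  refine Set.ncard_congr (fun μ _ => μ.transpose) ?_ ?_ ?_
  · rintro μ ⟨h1, h2⟩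
    exact ⟨by rw [card_transpose]; exact h1, h2⟩
  · intro a b _ _ h
    exact transpose_eq_iff.1 h
  · rintro μ ⟨h1, h2⟩
    exact ⟨μ.transpose, ⟨by rw [card_transpose]; exact h1, by rwa [transpose_transpose]⟩,
      transpose_transpose μ⟩

/-- strictly decreasing until it vanishes -/
def Dist (x : ℕ → ℕ) : Prop := ∀ i, x (i + 1) < x i ∨ x (i + 1) = 0

lemma dist_step {x : ℕ → ℕ} (hx : Dist x) {i j : ℕ} (hij : i ≤ j) (hj : 0 < x j) :
    x j + j ≤ x i + i := by
  induction j, hij using Nat.le_induction with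
  | base => exact le_rfl
  | succ j hij ih =>
    have h1 := hx j
    have h2 := ih (by omega)
    omega

/-- the cells of the doubled distinct shape of `x` -/
def InShape (x : ℕ → ℕ) (i j : ℕ) : Prop := (i ≤ j ∧ j < x i + i) ∨ (j < i ∧ i ≤ x j + j)

instance (x : ℕ → ℕ) (i j : ℕ) : Decidable (InShape x i j) := by
  unfold InShape; infer_instance

/-- the doubled distinct shape -/
def shape (x : ℕ → ℕ) (hx : Dist x) : YoungDiagram where
  cells := (Finset.range (x 0 + 1) ×ˢ Finset.range (x 0 + 1)).filter fun u => InShape x u.1 u.2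
  isLowerSet := by
    rintro ⟨i, j⟩ ⟨i', j'⟩ hle hu
    have hi : i' ≤ i := hle.1
    have hj : j' ≤ j := hle.2
    simp only [Finset.coe_filter, Finset.mem_product, Finset.mem_range, Set.mem_ofPred_eq,
      InShape] at hu ⊢
    obtain ⟨⟨h1, h2⟩, h3⟩ := hu
    refine ⟨⟨by omega, by omega⟩, ?_⟩
    rcases h3 with ⟨h3, h4⟩ | ⟨h3, h4⟩
    · have h5 := dist_step hx hi (by omega)
      rcases le_or_gt i' j' with h | h
      · left; omega
      · right
        have h6 := dist_step hx (i := j') (j := i) (by omega) (by omega)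
        omega
    · have h5 := dist_step hx hj (by omega)
      rcases le_or_gt i' j' with h | h
      · left
        have h6 := dist_step hx (i := i') (j := j) (by omega) (by omega)
        omega
      · right; omega

lemma mem_shape (x : ℕ → ℕ) (hx : Dist x) (i j : ℕ) : (i, j) ∈ shape x hx ↔ InShape x i j := by
  rw [← mem_cells]
  simp only [shape, Finset.mem_filter, Finset.mem_product, Finset.mem_range]
  constructor
  · exact fun h => h.2
  · intro h
    refine ⟨?_, h⟩
    rcases h with ⟨h3, h4⟩ | ⟨h3, h4⟩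
    · have h5 := dist_step hx (Nat.zero_le i) (by omega)
      omega
    · have h5 := dist_step hx (Nat.zero_le j) (by omega)
      omega

lemma shape_row (x : ℕ → ℕ) (hx : Dist x) (i : ℕ) (hi : 0 < x i) :
    (shape x hx).rowLen i = x i + i := by
  have h1 : (i, x i + i - 1) ∈ shape x hx := by
    rw [mem_shape]; left; omega
  have h2 : ¬ (i, x i + i) ∈ shape x hx := by
    rw [mem_shape]; unfold InShape; omega
  rw [mem_iff_lt_rowLen] at h1 h2
  omega

lemma shape_row0 (x : ℕ → ℕ) (hx : Dist x) (i : ℕ) (hi : x i = 0) :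
    (shape x hx).rowLen i ≤ i := by
  have h2 : ¬ (i, i) ∈ shape x hx := by
    rw [mem_shape]; unfold InShape; omega
  rw [mem_iff_lt_rowLen] at h2
  omega

lemma shape_col (x : ℕ → ℕ) (hx : Dist x) (i : ℕ) (hi : 0 < x i) :
    (shape x hx).colLen i = x i + i + 1 := by
  have h1 : (x i + i, i) ∈ shape x hx := by
    rw [mem_shape]; right; omega
  have h2 : ¬ (x i + i + 1, i) ∈ shape x hx := by
    rw [mem_shape]; unfold InShape; omega
  rw [mem_iff_lt_colLen] at h1 h2
  omega

lemma shape_good (x : ℕ → ℕ) (hx : Dist x) : Good (shape x hx) := by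
  intro i hi
  have h0 : 0 < x i := by
    by_contra h
    have := shape_row0 x hx i (by omega)
    omega
  rw [shape_row x hx i h0, shape_col x hx i h0]

/-- the sequence of a shape -/
def seq (μ : YoungDiagram) (i : ℕ) : ℕ := μ.rowLen i - i

lemma seq_shape (x : ℕ → ℕ) (hx : Dist x) : seq (shape x hx) = x := by
  funext i
  unfold seq
  rcases Nat.eq_zero_or_pos (x i) with h | h
  · have := shape_row0 x hx i h
    omega
  · rw [shape_row x hx i h]; omega

lemma seq_dist (μ : YoungDiagram) : Dist (seq μ) := by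
  intro i
  have := μ.rowLen_anti i (i + 1) (by omega)
  unfold seq
  omega

lemma mem_good (μ : YoungDiagram) (hg : Good μ) (i j : ℕ) : (i, j) ∈ μ ↔ InShape (seq μ) i j := by
  unfold InShape seq
  rcases le_or_gt i j with h | h
  · rw [mem_iff_lt_rowLen]
    omega
  · rw [mem_iff_lt_colLen]
    by_cases hj : j < μ.rowLen j
    · have := hg j hj
      omega
    · have h2 : ¬ j < μ.colLen j := fun h' => hj ((dual μ j j).2 h')
      omega

lemma card_shape (μ : YoungDiagram) (x : ℕ → ℕ) (N : ℕ) (hN : ∀ i, N ≤ i → x i = 0)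
    (hμ : ∀ i j, (i, j) ∈ μ ↔ InShape x i j) : μ.card = 2 * ∑ i ∈ Finset.range N, x i := by
  classical
  set A : Finset (ℕ × ℕ) := ((Finset.range N).sigma fun i => Finset.Ico i (x i + i)).image
    (fun s : (Σ _ : ℕ, ℕ) => (s.1, s.2)) with hA
  set B : Finset (ℕ × ℕ) := ((Finset.range N).sigma fun j => Finset.Ioc j (x j + j)).image
    (fun s : (Σ _ : ℕ, ℕ) => (s.2, s.1)) with hB
  have hAc : A.card = ∑ i ∈ Finset.range N, x i := by
    rw [hA, Finset.card_image_of_injective _ (by rintro ⟨a, b⟩ ⟨c, d⟩ h; simp_all),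
      Finset.card_sigma]
    exact Finset.sum_congr rfl fun i _ => by rw [Nat.card_Ico]; omega
  have hBc : B.card = ∑ i ∈ Finset.range N, x i := by
    rw [hB, Finset.card_image_of_injective _ (by rintro ⟨a, b⟩ ⟨c, d⟩ h; simp_all),
      Finset.card_sigma]
    exact Finset.sum_congr rfl fun i _ => by rw [Nat.card_Ioc]; omega
  have hmemA : ∀ i j, (i, j) ∈ A ↔ (i ≤ j ∧ j < x i + i) := by
    intro i j
    simp only [hA, Finset.mem_image, Finset.mem_sigma, Finset.mem_range, Finset.mem_Ico,
      Prod.mk.injEq, Sigma.exists]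
    constructor
    · rintro ⟨a, b, ⟨_, h2, h3⟩, rfl, rfl⟩
      exact ⟨h2, h3⟩
    · intro h
      refine ⟨i, j, ⟨?_, h.1, h.2⟩, rfl, rfl⟩
      by_contra hc
      have := hN i (by omega)
      omega
  have hmemB : ∀ i j, (i, j) ∈ B ↔ (j < i ∧ i ≤ x j + j) := by
    intro i j
    simp only [hB, Finset.mem_image, Finset.mem_sigma, Finset.mem_range, Finset.mem_Ioc,
      Prod.mk.injEq, Sigma.exists]
    constructor
    · rintro ⟨a, b, ⟨_, h2, h3⟩, rfl, rfl⟩
      exact ⟨h2, h3⟩
    · intro h
      refine ⟨j, i, ⟨?_, h.1, h.2⟩, rfl, rfl⟩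
      by_contra hc
      have := hN j (by omega)
      omega
  have hdisj : Disjoint A B := by
    rw [Finset.disjoint_left]
    rintro ⟨i, j⟩ h1 h2
    rw [hmemA] at h1
    rw [hmemB] at h2
    omega
  have : μ.cells = A ∪ B := by
    ext ⟨i, j⟩
    rw [mem_cells, hμ, Finset.mem_union, hmemA, hmemB]
    rfl
  unfold YoungDiagram.card
  rw [this, Finset.card_union_of_disjoint hdisj, hAc, hBc]
  ring

/-- the sequences of distinct partitions of `k` -/
def X (k : ℕ) : Set (ℕ → ℕ) :=
  {x | Dist x ∧ (∀ i, 2 * k ≤ i → x i = 0) ∧ ∑ i ∈ Finset.range (2 * k), x i = k}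

lemma seq_zero (μ : YoungDiagram) (i : ℕ) (hi : μ.card ≤ i) : seq μ i = 0 := by
  have := rowLen_le_card μ i
  unfold seq
  omega

lemma ncard_good (k : ℕ) : {μ : YoungDiagram | μ.card = 2 * k ∧ Good μ}.ncard = (X k).ncard := by
  refine Set.ncard_congr (fun μ _ => seq μ) ?_ ?_ ?_
  · rintro μ ⟨h1, h2⟩
    have h3 : ∀ i, 2 * k ≤ i → seq μ i = 0 := fun i hi => seq_zero μ i (by omega)
    refine ⟨seq_dist μ, h3, ?_⟩
    have := card_shape μ (seq μ) (2 * k) h3 (mem_good μ h2)
    omega
  · rintro μ ν ⟨_, h2⟩ ⟨_, h4⟩ h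
    refine YoungDiagram.ext ?_
    ext ⟨i, j⟩
    rw [mem_cells, mem_cells, mem_good μ h2, mem_good ν h4, h]
  · rintro x ⟨h1, h2, h3⟩
    refine ⟨shape x h1, ⟨?_, shape_good x h1⟩, seq_shape x h1⟩
    rw [card_shape (shape x h1) x (2 * k) h2 (mem_shape x h1), h3]

lemma odd_empty (n : ℕ) (hn : ¬ Even n) : {μ : YoungDiagram | μ.card = n ∧ Good μ} = ∅ := by
  rw [Set.eq_empty_iff_forall_notMem]
  rintro μ ⟨h1, h2⟩
  have := card_shape μ (seq μ) μ.card (seq_zero μ) (mem_good μ h2)
  apply hn
  rw [← h1, this]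
  exact even_two_mul _

/-- the sequence of a list -/
def lseq (l : List ℕ) (i : ℕ) : ℕ := l.getD i 0

lemma sum_lseq (l : List ℕ) (N : ℕ) (hN : l.length ≤ N) :
    ∑ i ∈ Finset.range N, lseq l i = l.sum := by
  induction l generalizing N with
  | nil => simp [lseq]
  | cons a l ih =>
    obtain ⟨M, rfl⟩ : ∃ M, N = M + 1 := ⟨N - 1, by simp at hN; omega⟩
    rw [Finset.sum_range_succ', List.sum_cons]
    have := ih M (by simpa using hN)
    simp only [lseq, List.getD_cons_succ, List.getD_cons_zero] at this ⊢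
    rw [this]; ring

lemma parts_card_le {k : ℕ} (p : Nat.Partition k) : p.parts.card ≤ k := by
  have h : p.parts.card • 1 ≤ p.parts.sum :=
    Multiset.card_nsmul_le_sum (fun i hi => p.parts_pos hi)
  rw [p.parts_sum] at h
  simpa using h

lemma ncard_X (k : ℕ) : (X k).ncard = (Nat.Partition.distincts k).card := by
  rw [← Set.ncard_coe_finset]
  symm
  refine Set.ncard_congr (fun p _ => lseq (p.parts.sort (· ≥ ·))) ?_ ?_ ?_
  · intro p hp
    have hnd : p.parts.Nodup := by
      simpa [Nat.Partition.distincts] using hp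
    set l := p.parts.sort (· ≥ ·) with hl
    have hlen : l.length ≤ k := by
      rw [hl, Multiset.length_sort]; exact parts_card_le p
    have hzero : ∀ i, l.length ≤ i → lseq l i = 0 := by
      intro i hi
      exact List.getD_eq_default _ _ hi
    have hlnd : l.Nodup := by
      rw [← Multiset.coe_nodup, hl, Multiset.sort_eq]; exact hnd
    have hsort : l.Pairwise (· ≥ ·) := Multiset.pairwise_sort _ _
    refine ⟨?_, fun i hi => hzero i (by omega), ?_⟩
    · intro i
      by_cases hi : i + 1 < l.length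
      · left
        have h1 : lseq l (i + 1) = l[i + 1] := List.getD_eq_getElem _ _ hi
        have h2 : lseq l i = l[i] := List.getD_eq_getElem _ _ (by omega)
        rw [h1, h2]
        have h3 : l[i] ≥ l[i + 1] := List.pairwise_iff_getElem.1 hsort _ _ _ _ (by omega)
        have h4 : l[i] ≠ l[i + 1] := by
          intro h
          have := (List.Nodup.getElem_inj_iff hlnd).1 h
          omega
        omega
      · right
        exact hzero _ (by omega)
    · rw [sum_lseq l (2 * k) (by omega), ← Multiset.sum_coe, hl, Multiset.sort_eq]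
      exact p.parts_sum
  · intro p q _ _ h
    have key : ∀ (p q : Nat.Partition k), lseq (p.parts.sort (· ≥ ·)) = lseq (q.parts.sort (· ≥ ·)) →
        (p.parts.sort (· ≥ ·)).length ≤ (q.parts.sort (· ≥ ·)).length := by
      intro p q h
      by_contra hc
      push Not at hc
      have h1 := congrFun h (q.parts.sort (· ≥ ·)).length
      unfold lseq at h1
      rw [List.getD_eq_default _ _ le_rfl, List.getD_eq_getElem _ _ hc] at h1
      have h2 : (p.parts.sort (· ≥ ·))[(q.parts.sort (· ≥ ·)).length] ∈ p.parts := by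
        rw [← Multiset.mem_sort (r := (· ≥ ·))]
        exact List.getElem_mem _
      have := p.parts_pos h2
      omega
    have hlen := le_antisymm (key p q h) (key q p h.symm)
    have hl : p.parts.sort (· ≥ ·) = q.parts.sort (· ≥ ·) := by
      refine List.ext_getElem hlen ?_
      intro i h1 h2
      have := congrFun h i
      unfold lseq at this
      rwa [List.getD_eq_getElem _ _ h1, List.getD_eq_getElem _ _ h2] at this
    apply Nat.Partition.ext
    rw [← Multiset.sort_eq p.parts (· ≥ ·), hl, Multiset.sort_eq]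
  · rintro x ⟨h1, h2, h3⟩
    classical
    have hex : ∃ r, x r = 0 := ⟨2 * k, h2 _ le_rfl⟩
    obtain ⟨r, hr, hmin⟩ : ∃ r, x r = 0 ∧ ∀ m < r, x m ≠ 0 :=
      ⟨Nat.find hex, Nat.find_spec hex, fun m hm => Nat.find_min hex hm⟩
    have hr2 : r ≤ 2 * k := by
      by_contra hc
      exact hmin (2 * k) (by omega) (h2 _ le_rfl)
    have hzero : ∀ i, r ≤ i → x i = 0 := by
      intro i hi
      induction i, hi using Nat.le_induction with
      | base => exact hr
      | succ i _ ih =>
        have := h1 i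
        omega
    have hstrict : ∀ i j, i < j → j < r → x j < x i := by
      intro i j hij hj
      have := dist_step h1 hij.le (Nat.pos_of_ne_zero (hmin j hj))
      omega
    have hsum : ((List.range r).map x).sum = k := by
      rw [← h3, ← Finset.sum_range_add_sum_Ico _ hr2]
      rw [Finset.sum_eq_zero (s := Finset.Ico r (2 * k))
        (fun i hi => hzero i (Finset.mem_Ico.1 hi).1)]
      rw [Finset.sum_eq_multiset_sum, Finset.range_val, ← Multiset.coe_range, Multiset.map_coe,
        Multiset.sum_coe, add_zero]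
    refine ⟨⟨(((List.range r).map x : List ℕ) : Multiset ℕ), ?_, ?_⟩, ?_, ?_⟩
    · intro i hi
      rw [Multiset.mem_coe, List.mem_map] at hi
      obtain ⟨j, hj, rfl⟩ := hi
      exact Nat.pos_of_ne_zero (hmin j (List.mem_range.1 hj))
    · rw [Multiset.sum_coe]; exact hsum
    · simp only [Nat.Partition.distincts, Finset.coe_filter, Finset.mem_univ, true_and,
        Set.mem_ofPred_eq, Multiset.coe_nodup]
      refine List.Nodup.map_on ?_ List.nodup_range
      intro a ha b hb hab
      rw [List.mem_range] at ha hb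
      rcases lt_trichotomy a b with h | h | h
      · have := hstrict a b h hb; omega
      · exact h
      · have := hstrict b a h ha; omega
    · have hsorted : ((List.range r).map x).Pairwise (· ≥ ·) := by
        rw [List.pairwise_iff_getElem]
        intro i j hi hj hij
        simp only [List.length_map, List.length_range] at hi hj
        simp only [List.getElem_map, List.getElem_range]
        exact (hstrict i j hij hj).le
      have hs : Multiset.sort (((List.range r).map x : List ℕ) : Multiset ℕ) (· ≥ ·)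
          = (List.range r).map x := by
        refine List.Perm.eq_of_pairwise' (r := (· ≥ ·)) (Multiset.pairwise_sort _ _) hsorted ?_
        rw [← Multiset.coe_eq_coe, Multiset.sort_eq]
      show lseq _ = x
      rw [hs]
      funext i
      unfold lseq
      by_cases hi : i < r
      · rw [List.getD_eq_getElem _ _ (by simpa using hi)]
        simp
      · rw [List.getD_eq_default _ _ (by simpa using hi), hzero i (by omega)]

/-- doubling the parts -/
lemma card_two_mod_four (k : ℕ) :
    (Finset.univ.filter fun p : Nat.Partition (2 * k) => ∀ i ∈ p.parts, i % 4 = 2).card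
      = (Nat.Partition.odds k).card := by
  symm
  refine Finset.card_bij (fun p _ => (⟨p.parts.map (2 * ·), ?_, ?_⟩ : Nat.Partition (2 * k)))
    ?_ ?_ ?_
  · intro i hi
    obtain ⟨j, hj, rfl⟩ := Multiset.mem_map.1 hi
    have := p.parts_pos hj
    omega
  · rw [Multiset.sum_map_mul_left]
    simp [p.parts_sum]
  · intro p hp
    simp only [Nat.Partition.odds, Nat.Partition.restricted, Finset.mem_filter, Finset.mem_univ,
      true_and] at hp ⊢
    intro i hi
    obtain ⟨j, hj, rfl⟩ := Multiset.mem_map.1 hi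
    have := hp j hj
    rw [Nat.not_even_iff] at this
    omega
  · intro p _ q _ h
    apply Nat.Partition.ext
    have h' : p.parts.map (2 * ·) = q.parts.map (2 * ·) := congrArg Nat.Partition.parts h
    exact Multiset.map_injective (fun a b hab => by simpa using hab) h'
  · intro q hq
    simp only [Finset.mem_filter, Finset.mem_univ, true_and] at hq
    have hpar : (q.parts.map (· / 2)).map (2 * ·) = q.parts := by
      rw [Multiset.map_map]
      conv_rhs => rw [← Multiset.map_id q.parts]
      refine Multiset.map_congr rfl fun i hi => ?_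
      have := hq i hi
      simp only [Function.comp_apply, id_eq]
      omega
    refine ⟨⟨q.parts.map (· / 2), ?_, ?_⟩, ?_, ?_⟩
    · intro i hi
      obtain ⟨j, hj, rfl⟩ := Multiset.mem_map.1 hi
      have := hq j hj
      omega
    · have h1 : ((q.parts.map (· / 2)).map (2 * ·)).sum = 2 * k := by rw [hpar, q.parts_sum]
      rw [Multiset.sum_map_mul_left] at h1
      simp only [Multiset.map_id'] at h1
      omega
    · simp only [Nat.Partition.odds, Nat.Partition.restricted, Finset.mem_filter, Finset.mem_univ,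
        true_and]
      intro i hi
      obtain ⟨j, hj, rfl⟩ := Multiset.mem_map.1 hi
      have := hq j hj
      rw [Nat.not_even_iff]
      omega
    · exact Nat.Partition.ext hpar

lemma count (n : ℕ) : {μ : YoungDiagram | μ.card = n ∧ Good μ}.ncard
    = (Finset.univ.filter fun p : Nat.Partition n => ∀ i ∈ p.parts, i % 4 = 2).card := by
  by_cases hn : Even n
  · obtain ⟨k, hk⟩ := hn
    obtain rfl : n = 2 * k := by omega
    rw [ncard_good, ncard_X, card_two_mod_four, Nat.Partition.card_odds_eq_card_distincts]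
  · rw [odd_empty n hn, Set.ncard_empty]
    symm
    rw [Finset.card_eq_zero, Finset.filter_eq_empty_iff]
    intro p _ hp
    apply hn
    rw [← p.parts_sum]
    exact even_iff_two_dvd.2 (Multiset.dvd_sum fun i hi => by have := hp i hi; omega)

end V11316.Z0
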