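import Mathlib
import Pool.Agent.V11316.Z0

/-! Unsquared symplectic and orthogonal content sums at t = 0. -/

namespace V11316.Z1

open V11316.Z0 PowerSeries
open scoped PowerSeries.WithPiTopology

set_option autoImplicit false

/-- number of cells on or above the diagonal -/
def up (μ : YoungDiagram) : ℕ := (μ.cells.filter fun u => u.1 ≤ u.2).card

open Classical in
lemma prod_sp1 (μ : YoungDiagram) :
    ∏ u ∈ μ.cells, ((csp μ u : ℚ) / (hook μ u : ℚ)) = if Good μ then (-1) ^ (up μ) else 0 := by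
  split_ifs with hg
  · have h : ∀ u ∈ μ.cells, ((csp μ u : ℚ) / (hook μ u : ℚ)) = if u.1 ≤ u.2 then -1 else 1 := by
      rintro ⟨i, j⟩ hu
      have hu' : (i, j) ∈ μ := (YoungDiagram.mem_cells (i, j)).1 hu
      have h1 := hook_pos μ (i, j) hu'
      have h2 : (hook μ (i, j) : ℚ) ≠ 0 := by exact_mod_cast h1.ne'
      have e1 := YoungDiagram.mem_iff_lt_rowLen.1 hu'
      have e2 := YoungDiagram.mem_iff_lt_colLen.1 hu'
      by_cases hij : i ≤ j
      · have h3 : i < μ.rowLen i := by omega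
        have h4 := hg i h3
        have : csp μ (i, j) = - hook μ (i, j) := by
          simp only [csp, hook]
          rw [if_neg (by omega)]
          omega
        rw [this, if_pos hij]
        push_cast
        rw [neg_div, div_self h2]
      · have h3 : j < μ.rowLen j := lt_of_lt_of_le e1 (μ.rowLen_anti j i (by omega))
        have h4 := hg j h3
        have : csp μ (i, j) = hook μ (i, j) := by
          simp only [csp, hook]
          rw [if_pos (by omega)]
          omega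
        rw [this, if_neg hij, div_self h2]
    rw [Finset.prod_congr rfl h, Finset.prod_ite, Finset.prod_const, Finset.prod_const_one, mul_one]
    rfl
  · obtain ⟨u, hu, h0⟩ := exists_zero μ hg
    refine Finset.prod_eq_zero ((YoungDiagram.mem_cells u).2 hu) ?_
    rw [h0]; simp

lemma up_good (μ : YoungDiagram) (hg : Good μ) : μ.card = 2 * up μ := by
  have key : ((μ.cells.filter fun u => ¬ (u.1 ≤ u.2)).card) = up μ := by
    unfold up
    symm
    refine Finset.card_bij (fun u _ => (u.2 + 1, u.1)) ?_ ?_ ?_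
    · rintro ⟨i, j⟩ hu
      rw [Finset.mem_filter, YoungDiagram.mem_cells, mem_good μ hg] at hu ⊢
      obtain ⟨h1, h2⟩ := hu
      dsimp only at h2 ⊢
      unfold InShape at h1 ⊢
      omega
    · rintro ⟨i, j⟩ _ ⟨k, l⟩ _ h
      simp only [Prod.mk.injEq] at h ⊢
      omega
    · rintro ⟨i, j⟩ hu
      rw [Finset.mem_filter, YoungDiagram.mem_cells, mem_good μ hg] at hu
      obtain ⟨h1, h2⟩ := hu
      dsimp only at h2
      unfold InShape at h1
      refine ⟨(j, i - 1), ?_, ?_⟩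
      · rw [Finset.mem_filter, YoungDiagram.mem_cells, mem_good μ hg]
        dsimp only
        unfold InShape
        omega
      · dsimp only
        rw [Prod.mk.injEq]
        omega
  have h := Finset.card_filter_add_card_filter_not (s := μ.cells) (fun u : ℕ × ℕ => u.1 ≤ u.2)
  have e : μ.card = μ.cells.card := rfl
  rw [key] at h
  unfold up at h ⊢
  omega

/-- the sum over all Young diagrams with `n` cells of the product of `c_sp(u) / h(u)` -/
noncomputable def a (n : ℕ) : ℚ :=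
  ∑ᶠ μ ∈ {μ : YoungDiagram | μ.card = n}, ∏ u ∈ μ.cells, ((csp μ u : ℚ) / (hook μ u : ℚ))

/-- the sum over all Young diagrams with `n` cells of the product of `c_O(u) / h(u)` -/
noncomputable def b (n : ℕ) : ℚ :=
  ∑ᶠ μ ∈ {μ : YoungDiagram | μ.card = n}, ∏ u ∈ μ.cells, ((cO μ u : ℚ) / (hook μ u : ℚ))

open Classical in
lemma a_eq (n : ℕ) : a n = (-1) ^ (n / 2) *
    ((Finset.univ.filter fun p : Nat.Partition n => ∀ i ∈ p.parts, i % 4 = 2).card : ℚ) := by
  unfold a
  rw [← count, ← sum_ind n Good]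
  rw [mul_finsum_mem' _ _ ]
  · refine finsum_mem_congr rfl fun μ hμ => ?_
    rw [prod_sp1]
    split_ifs with hg
    · have := up_good μ hg
      have h2 : μ.card = n := hμ
      have : n / 2 = up μ := by omega
      rw [this, mul_one]
    · rw [mul_zero]
  · exact finite_card n

lemma prod_O1 (μ : YoungDiagram) :
    ∏ u ∈ μ.cells, ((cO μ u : ℚ) / (hook μ u : ℚ))
      = (-1) ^ μ.card * ∏ u ∈ μ.transpose.cells, ((csp μ.transpose u : ℚ) / (hook μ.transpose u : ℚ)) := by
  have h1 : ∏ u ∈ μ.cells, ((cO μ u : ℚ) / (hook μ u : ℚ))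
      = ∏ u ∈ μ.cells, ((-1) * ((csp μ.transpose u.swap : ℚ) / (hook μ.transpose u.swap : ℚ))) := by
    refine Finset.prod_congr rfl fun u _ => ?_
    rw [cO_eq, hook_eq]
    push_cast
    ring
  rw [h1, Finset.prod_mul_distrib, Finset.prod_const]
  congr 1
  refine Finset.prod_bij (fun u _ => u.swap) ?_ ?_ ?_ ?_
  · intro u hu
    rw [YoungDiagram.mem_cells] at hu ⊢
    rw [YoungDiagram.mem_transpose]; simpa using hu
  · intro a _ b _ h
    exact Prod.swap_injective h
  · intro b hb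
    refine ⟨b.swap, ?_, by simp⟩
    rw [YoungDiagram.mem_cells] at hb ⊢
    exact YoungDiagram.mem_transpose.1 hb
  · intro u _
    rfl

open Classical in
lemma b_eq (n : ℕ) : b n = a n := by
  have h1 : b n = (-1) ^ n * a n := by
    unfold a b
    rw [mul_finsum_mem' _ _ ]
    · refine finsum_mem_eq_of_bijOn YoungDiagram.transpose ?_ ?_
      · refine ⟨?_, ?_, ?_⟩
        · intro μ hμ
          show μ.transpose.card = n
          rw [card_transpose]; exact hμ
        · intro μ _ ν _ h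
          exact YoungDiagram.transpose_eq_iff.1 h
        · intro μ hμ
          refine ⟨μ.transpose, ?_, YoungDiagram.transpose_transpose μ⟩
          show μ.transpose.card = n
          rw [card_transpose]; exact hμ
      · intro μ hμ
        rw [prod_O1]
        have : μ.card = n := hμ
        rw [this]
    · exact finite_card n
  rw [h1]
  by_cases hn : Even n
  · rw [hn.neg_one_pow, one_mul]
  · have : a n = 0 := by
      rw [a_eq, ← count, odd_empty n hn]
      simp
    rw [this, mul_zero]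

/-- character -/
def f (i c : ℕ) : ℚ := if i % 4 = 2 then (-1) ^ c else 0

lemma coeff_f (n : ℕ) : (Nat.Partition.genFun f).coeff n = a n := by
  classical
  rw [Nat.Partition.coeff_genFun, a_eq]
  have h : ∀ p : Nat.Partition n, p.parts.toFinsupp.prod f
      = if (∀ i ∈ p.parts, i % 4 = 2) then (-1) ^ (n / 2) else 0 := by
    intro p
    unfold Finsupp.prod
    rw [Multiset.toFinsupp_support]
    split_ifs with hp
    · have h1 : ∀ i ∈ p.parts.toFinset, f i (Multiset.toFinsupp p.parts i) = (-1) ^ (p.parts.count i) := by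
        intro i hi
        unfold f
        rw [if_pos (hp i (Multiset.mem_toFinset.1 hi)), Multiset.toFinsupp_apply]
      rw [Finset.prod_congr rfl h1, Finset.prod_pow_eq_pow_sum, Multiset.toFinset_sum_count_eq]
      -- parity of the number of parts
      have h2 : ∀ s : Multiset ℕ, (∀ i ∈ s, i % 4 = 2) → s.sum % 2 = 0 ∧ (s.sum / 2) % 2 = s.card % 2 := by
        intro s
        induction s using Multiset.induction_on with
        | empty => intro _; simp
        | cons x s ih =>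
          intro hs
          have e1 := hs x (Multiset.mem_cons_self x s)
          have e2 := ih (fun i hi => hs i (Multiset.mem_cons_of_mem hi))
          rw [Multiset.sum_cons, Multiset.card_cons]
          omega
      have h3 := (h2 p.parts hp).2
      rw [p.parts_sum] at h3
      rw [neg_one_pow_eq_pow_mod_two, ← h3, ← neg_one_pow_eq_pow_mod_two]
    · push Not at hp
      obtain ⟨i, hi, hi2⟩ := hp
      refine Finset.prod_eq_zero (Multiset.mem_toFinset.2 hi) ?_
      unfold f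
      rw [if_neg hi2]
  rw [Finset.sum_congr rfl (fun p _ => h p), ← Finset.sum_filter, Finset.sum_const, nsmul_eq_mul,
    mul_comm]

/-- the geometric factor -/
lemma factor_mul (m : ℕ) (hm : (m + 1) % 4 = 2) :
    (1 + (X : ℚ⟦X⟧) ^ (m + 1)) * (1 + ∑' j, f (m + 1) (j + 1) • (X : ℚ⟦X⟧) ^ ((m + 1) * (j + 1))) = 1 := by
  have hs := Nat.Partition.summable_genFun_term f m
  have h1 : ∀ j : ℕ, f (m + 1) (j + 1) • (X : ℚ⟦X⟧) ^ ((m + 1) * (j + 1))
      = (-(X : ℚ⟦X⟧) ^ (m + 1)) ^ (j + 1) := by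
    intro j
    unfold f
    rw [if_pos hm, neg_pow ((X : ℚ⟦X⟧) ^ (m + 1)), ← pow_mul, PowerSeries.smul_eq_C_mul]
    congr 1
    simp
  have hs' : Summable fun j : ℕ => (-(X : ℚ⟦X⟧) ^ (m + 1)) ^ (j + 1) := by
    refine hs.congr fun j => h1 j
  rw [tsum_congr h1]
  have h2 : Summable fun j : ℕ => (-(X : ℚ⟦X⟧) ^ (m + 1)) ^ j := (summable_nat_add_iff 1).1 hs'
  have h3 : ∑' j : ℕ, (-(X : ℚ⟦X⟧) ^ (m + 1)) ^ j = 1 + ∑' j : ℕ, (-(X : ℚ⟦X⟧) ^ (m + 1)) ^ (j + 1) := by
    rw [h2.tsum_eq_zero_add, pow_zero]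
  have h4 : ∑' j : ℕ, (-(X : ℚ⟦X⟧) ^ (m + 1)) ^ (j + 1)
      = (-(X : ℚ⟦X⟧) ^ (m + 1)) * ∑' j : ℕ, (-(X : ℚ⟦X⟧) ^ (m + 1)) ^ j := by
    rw [← h2.tsum_mul_left]
    refine tsum_congr fun j => ?_
    rw [pow_succ']
  rw [h3] at h4
  set T := ∑' j : ℕ, (-(X : ℚ⟦X⟧) ^ (m + 1)) ^ (j + 1)
  have : (1 + (X : ℚ⟦X⟧) ^ (m + 1)) * (1 + T) = 1 + T + (X : ℚ⟦X⟧) ^ (m + 1) * (1 + T) := by ring
  rw [this]
  linear_combination (exp := 1) h4

open Classical in
lemma hasProd_all : HasProd (fun m : ℕ => if (m + 1) % 4 = 2 then (1 + (X : ℚ⟦X⟧) ^ (m + 1))⁻¹ else 1)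
    (Nat.Partition.genFun f) := by
  have h := Nat.Partition.hasProd_genFun f
  refine Eq.subst (motive := fun g => HasProd g (Nat.Partition.genFun f)) ?_ h
  funext m
  symm
  split_ifs with hm
  · have h1 := factor_mul m hm
    have hc : PowerSeries.constantCoeff (1 + (X : ℚ⟦X⟧) ^ (m + 1)) ≠ 0 := by simp
    exact (PowerSeries.inv_eq_iff_mul_eq_one hc).2 (by rw [mul_comm]; exact h1)
  · have : ∀ j : ℕ, f (m + 1) (j + 1) • (X : ℚ⟦X⟧) ^ ((m + 1) * (j + 1)) = 0 := by
      intro j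
      unfold f
      rw [if_neg hm, zero_smul]
    rw [tsum_congr this, tsum_zero, add_zero]

lemma hasProd_k : HasProd (fun k : ℕ => (1 + (X : ℚ⟦X⟧) ^ (4 * k + 2))⁻¹) (Nat.Partition.genFun f) := by
  have h := hasProd_all
  have hinj : Function.Injective (fun k : ℕ => 4 * k + 1) := by
    intro a b hab
    simpa using hab
  rw [← hinj.hasProd_iff] at h
  · convert h using 2 with k
    simp only [Function.comp_apply]
    rw [if_pos (by omega)]
  · intro x hx
    rw [if_neg]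
    intro hx2
    exact hx ⟨x / 4, by dsimp only; omega⟩

lemma inv_sub (m : ℕ) : (X : ℚ⟦X⟧) ^ (m + 1) ∣ (1 + (X : ℚ⟦X⟧) ^ (m + 1))⁻¹ - 1 := by
  have hc : PowerSeries.constantCoeff (1 + (X : ℚ⟦X⟧) ^ (m + 1)) ≠ 0 := by simp
  have h := PowerSeries.mul_inv_cancel _ hc
  refine ⟨-(1 + (X : ℚ⟦X⟧) ^ (m + 1))⁻¹, ?_⟩
  linear_combination h

lemma prod_inv_sub (n : ℕ) (t : Finset ℕ) (ht : ∀ k ∈ t, n < 4 * k + 2) :
    (X : ℚ⟦X⟧) ^ (n + 1) ∣ (∏ k ∈ t, (1 + (X : ℚ⟦X⟧) ^ (4 * k + 2))⁻¹) - 1 := by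
  classical
  induction t using Finset.induction_on with
  | empty => simp
  | insert k t hk ih =>
    rw [Finset.prod_insert hk]
    have h1 := ih (fun k hk => ht k (Finset.mem_insert_of_mem hk))
    have h2 : (X : ℚ⟦X⟧) ^ (n + 1) ∣ (1 + (X : ℚ⟦X⟧) ^ (4 * k + 2))⁻¹ - 1 :=
      (pow_dvd_pow _ (by have := ht k (Finset.mem_insert_self k t); omega)).trans (inv_sub (4 * k + 1))
    have : (1 + (X : ℚ⟦X⟧) ^ (4 * k + 2))⁻¹ * (∏ k ∈ t, (1 + (X : ℚ⟦X⟧) ^ (4 * k + 2))⁻¹) - 1
        = (1 + (X : ℚ⟦X⟧) ^ (4 * k + 2))⁻¹ * ((∏ k ∈ t, (1 + (X : ℚ⟦X⟧) ^ (4 * k + 2))⁻¹) - 1)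
          + ((1 + (X : ℚ⟦X⟧) ^ (4 * k + 2))⁻¹ - 1) := by ring
    rw [this]
    exact dvd_add (h1.mul_left _) h2

/-- the coefficient form -/
theorem coeff_prod (n K : ℕ) (hK : n < 4 * K + 2) :
    (∏ k ∈ Finset.range K, (1 + (X : ℚ⟦X⟧) ^ (4 * k + 2))⁻¹).coeff n = a n := by
  classical
  have h := hasProd_k
  rw [HasProd, WithPiTopology.tendsto_iff_coeff_tendsto] at h
  have h1 := h n
  rw [coeff_f] at h1
  refine tendsto_nhds_unique (tendsto_atTop_of_eventually_const (i₀ := Finset.range K) ?_) h1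
  intro s hs
  have hs' : Finset.range K ⊆ s := hs
  rw [← Finset.prod_sdiff hs']
  obtain ⟨g, hg⟩ := prod_inv_sub n (s \ Finset.range K) (by
    intro k hk
    rw [Finset.mem_sdiff, Finset.mem_range] at hk
    omega)
  have : (∏ k ∈ s \ Finset.range K, (1 + (X : ℚ⟦X⟧) ^ (4 * k + 2))⁻¹) = 1 + (X : ℚ⟦X⟧) ^ (n + 1) * g := by
    rw [← hg]; ring
  rw [this]
  have e : (1 + (X : ℚ⟦X⟧) ^ (n + 1) * g) * (∏ k ∈ Finset.range K, (1 + (X : ℚ⟦X⟧) ^ (4 * k + 2))⁻¹)
      = (∏ k ∈ Finset.range K, (1 + (X : ℚ⟦X⟧) ^ (4 * k + 2))⁻¹)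
        + (X : ℚ⟦X⟧) ^ (n + 1) * (g * ∏ k ∈ Finset.range K, (1 + (X : ℚ⟦X⟧) ^ (4 * k + 2))⁻¹) := by ring
  rw [e, map_add, PowerSeries.coeff_X_pow_mul', if_neg (by omega), add_zero]

end V11316.Z1
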