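import Pool.Agent.W301.SS.Count
import Pool.Agent.H373R2.T7.LamMaj
import Pool.Agent.Helper602.MK.J5b

/-! Exponential sums over the primes near rationals with small denominators. -/

set_option autoImplicit false

namespace Pool.Agent.V11316.AT
open Finset Filter
open Pool.Agent.W301.SS
open Pool.Agent.H807R2.Dav (ee dd norm_ee ee_add ee_int ee_eq dd_le dd_ge dd_nonneg dd_neg)

lemma ee_same (x : ℝ) : Pool.Agent.Helper602.MK.ee x = ee x := by
  unfold Pool.Agent.Helper602.MK.ee ee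
  congr 1
  ring

lemma card_divisors_le (k : ℕ) : k.divisors.card ≤ 2 * Nat.sqrt k := by
  classical
  rcases Nat.eq_zero_or_pos k with rfl | hk
  · simp
  have h1 : k.divisors ⊆ (Finset.Icc 1 (Nat.sqrt k)) ∪
      (Finset.Icc 1 (Nat.sqrt k)).image (fun d => k / d) := by
    intro d hd
    have hdk := Nat.dvd_of_mem_divisors hd
    have hd0 := Nat.pos_of_mem_divisors hd
    rw [Finset.mem_union]
    by_cases h : d ≤ Nat.sqrt k
    · left; rw [Finset.mem_Icc]; exact ⟨hd0, h⟩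
    · right
      rw [Finset.mem_image]
      refine ⟨k / d, ?_, Nat.div_div_self hdk hk.ne'⟩
      rw [Finset.mem_Icc]
      constructor
      · exact Nat.div_pos (Nat.le_of_dvd hk hdk) hd0
      · by_contra hcon
        push Not at h hcon
        have h2 : d * (k / d) = k := Nat.mul_div_cancel' hdk
        have h3 := Nat.lt_succ_sqrt k
        have h4 : (Nat.sqrt k + 1) * (Nat.sqrt k + 1) ≤ d * (k / d) := Nat.mul_le_mul h hcon
        rw [h2] at h4
        exact absurd h3 (not_lt.mpr h4)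
  calc k.divisors.card ≤ ((Finset.Icc 1 (Nat.sqrt k)) ∪
      (Finset.Icc 1 (Nat.sqrt k)).image (fun d => k / d)).card := Finset.card_le_card h1
    _ ≤ (Finset.Icc 1 (Nat.sqrt k)).card +
      ((Finset.Icc 1 (Nat.sqrt k)).image (fun d => k / d)).card := Finset.card_union_le _ _
    _ ≤ Nat.sqrt k + Nat.sqrt k := by
        apply add_le_add
        · simp
        · exact Finset.card_image_le.trans (by simp)
    _ = 2 * Nat.sqrt k := by ring

lemma sqrt_le_totient (k : ℕ) (hk : 1 ≤ k) : Real.sqrt k ≤ 2 * Nat.totient k := by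
  have h1 : k ≤ k.divisors.card * Nat.totient k := by
    calc k = ∑ e ∈ k.divisors, Nat.totient e := (Nat.sum_totient k).symm
      _ ≤ ∑ _e ∈ k.divisors, Nat.totient k := by
          apply Finset.sum_le_sum
          intro e he
          exact Nat.le_of_dvd (Nat.totient_pos.mpr (by omega))
            (Nat.totient_dvd_of_dvd (Nat.dvd_of_mem_divisors he))
      _ = k.divisors.card * Nat.totient k := by rw [Finset.sum_const, smul_eq_mul]
  have h2 := card_divisors_le k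
  have h3 : k ≤ 2 * Nat.sqrt k * Nat.totient k := h1.trans (Nat.mul_le_mul_right _ h2)
  have h4 : (k : ℝ) ≤ 2 * (Nat.sqrt k : ℝ) * Nat.totient k := by exact_mod_cast h3
  have h5 : (Nat.sqrt k : ℝ) ≤ Real.sqrt k := Real.nat_sqrt_le_real_sqrt
  have h6 : 0 < Real.sqrt k := Real.sqrt_pos.mpr (by exact_mod_cast (by omega : 0 < k))
  have h7 : Real.sqrt k * Real.sqrt k = k := Real.mul_self_sqrt (by positivity)
  have h8 : (0 : ℝ) ≤ Nat.totient k := by positivity
  have h9 : Real.sqrt k * Real.sqrt k ≤ Real.sqrt k * (2 * Nat.totient k) := by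
    rw [h7]
    refine h4.trans ?_
    nlinarith
  exact le_of_mul_le_mul_left h9 h6

/-- summation by parts, crude form -/
lemma parts {u v : ℕ → ℂ} {K δ : ℝ} {N : ℕ} (hK : 0 ≤ K)
    (hu : ∀ m ≤ N, ‖∑ n ∈ Finset.range m, u n‖ ≤ K) (hv : ∀ n, ‖v n‖ ≤ 1)
    (hv' : ∀ n, ‖v (n + 1) - v n‖ ≤ δ) :
    ‖∑ n ∈ Finset.range N, u n * v n‖ ≤ K * (1 + N * δ) := by
  have key : ∀ M : ℕ, ∑ n ∈ Finset.range M, u n * v n =
      (∑ n ∈ Finset.range M, u n) * v M -
        ∑ m ∈ Finset.range M, (∑ n ∈ Finset.range (m + 1), u n) * (v (m + 1) - v m) := by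
    intro M
    induction M with
    | zero => simp
    | succ M ih =>
      rw [Finset.sum_range_succ, ih, Finset.sum_range_succ _ M, Finset.sum_range_succ _ M]
      rw [Finset.sum_range_succ u M]
      ring
  rw [key N]
  refine (norm_sub_le _ _).trans ?_
  have h1 : ‖(∑ n ∈ Finset.range N, u n) * v N‖ ≤ K := by
    rw [norm_mul]
    calc _ ≤ K * 1 := mul_le_mul (hu N le_rfl) (hv N) (norm_nonneg _) hK
      _ = K := mul_one K
  have h2 : ‖∑ m ∈ Finset.range N, (∑ n ∈ Finset.range (m + 1), u n) * (v (m + 1) - v m)‖ ≤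
      N * (K * δ) := by
    calc _ ≤ ∑ m ∈ Finset.range N, K * δ := by
          refine norm_sum_le_of_le _ (fun m hm => ?_)
          rw [norm_mul]
          exact mul_le_mul (hu (m + 1) (Finset.mem_range.mp hm)) (hv' m) (norm_nonneg _) hK
      _ = N * (K * δ) := by rw [Finset.sum_const, Finset.card_range, nsmul_eq_mul]
  linarith

lemma ee_mod {q : ℕ} (hq : 1 ≤ q) (c n : ℕ) : ee ((n : ℝ) * ((c : ℝ) / q)) = ee ((c : ℝ) * (((n % q : ℕ) : ℝ) / q)) := by
  have hq0 : (q : ℝ) ≠ 0 := by positivity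
  obtain ⟨k, hk⟩ : ∃ k, k = n / q := ⟨_, rfl⟩
  obtain ⟨r, hr⟩ : ∃ r, r = n % q := ⟨_, rfl⟩
  have h0 : q * k + r = n := by rw [hk, hr]; exact Nat.div_add_mod n q
  have h1 : (n : ℝ) = q * (k : ℝ) + (r : ℝ) := by exact_mod_cast h0.symm
  rw [← hr]
  have h2 : (n : ℝ) * ((c : ℝ) / q) = (((k * c : ℕ) : ℤ) : ℝ) + (c : ℝ) * ((r : ℝ) / q) := by
    rw [h1]
    push_cast
    field_simp
  rw [h2, ee_add, ee_int, one_mul]

/-- sums over the residue classes -/
lemma rat {q : ℕ} (hq : 1 ≤ q) {c : ℕ} (hc : c.Coprime q) (y : ℕ) (E : ℝ)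
    (hE : ∀ a : ℕ, |∑ n ∈ (Icc 1 y).filter (fun n => n ≡ a [MOD q]), ArithmeticFunction.vonMangoldt n -
      (if a.Coprime q then (y : ℝ) / (Nat.totient q : ℝ) else 0)| ≤ E) :
    ‖∑ n ∈ Icc 1 y, ((ArithmeticFunction.vonMangoldt n : ℝ) : ℂ) * ee ((n : ℝ) * ((c : ℝ) / q)) -
      ((ArithmeticFunction.moebius q : ℤ) : ℂ) * (((y : ℝ) / (Nat.totient q : ℝ) : ℝ) : ℂ)‖ ≤ q * E := by
  classical
  have hram := Pool.Agent.Helper602.MK.N_J5b.ramanujan q c (by omega) hc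
  simp_rw [ee_same] at hram
  have h1 : ∑ n ∈ Icc 1 y, ((ArithmeticFunction.vonMangoldt n : ℝ) : ℂ) * ee ((n : ℝ) * ((c : ℝ) / q)) =
      ∑ a ∈ range q, ((∑ n ∈ (Icc 1 y).filter (fun n => n ≡ a [MOD q]), ArithmeticFunction.vonMangoldt n : ℝ) : ℂ) *
        ee ((c : ℝ) * ((a : ℝ) / q)) := by
    have hmap : ∀ n ∈ Icc 1 y, n % q ∈ range q := fun n _ => mem_range.mpr (Nat.mod_lt n hq)
    rw [← sum_fiberwise_of_maps_to hmap]
    apply sum_congr rfl
    intro a ha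
    rw [mem_range] at ha
    push_cast
    rw [sum_mul]
    have e : (Icc 1 y).filter (fun n => n % q = a) = (Icc 1 y).filter (fun n => n ≡ a [MOD q]) := by
      apply filter_congr
      intro n _
      unfold Nat.ModEq
      rw [Nat.mod_eq_of_lt ha]
    rw [e]
    apply sum_congr rfl
    intro n hn
    rw [mem_filter] at hn
    have h2 : n % q = a := by
      have := hn.2
      unfold Nat.ModEq at this
      rw [Nat.mod_eq_of_lt ha] at this
      exact this
    rw [ee_mod hq, h2]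
  have h2 : ((ArithmeticFunction.moebius q : ℤ) : ℂ) * (((y : ℝ) / (Nat.totient q : ℝ) : ℝ) : ℂ) =
      ∑ a ∈ range q, (((if a.Coprime q then (y : ℝ) / (Nat.totient q : ℝ) else 0 : ℝ)) : ℂ) * ee ((c : ℝ) * ((a : ℝ) / q)) := by
    rw [← hram, sum_filter, sum_mul]
    apply sum_congr rfl
    intro a _
    split_ifs
    · rw [mul_comm]
    · simp
  rw [h1, h2, ← sum_sub_distrib]
  refine (norm_sum_le _ _).trans ?_
  have h3 : ∀ a ∈ range q, ‖((∑ n ∈ (Icc 1 y).filter (fun n => n ≡ a [MOD q]), ArithmeticFunction.vonMangoldt n : ℝ) : ℂ) *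
        ee ((c : ℝ) * ((a : ℝ) / q)) - (((if a.Coprime q then (y : ℝ) / (Nat.totient q : ℝ) else 0 : ℝ)) : ℂ) * ee ((c : ℝ) * ((a : ℝ) / q))‖ ≤ E := by
    intro a _
    rw [← sub_mul, norm_mul, norm_ee, mul_one, ← Complex.ofReal_sub, Complex.norm_real, Real.norm_eq_abs]
    exact hE a
  refine (sum_le_sum h3).trans (le_of_eq ?_)
  rw [sum_const, card_range, nsmul_eq_mul]

/-- **major arcs** -/
lemma major {N q : ℕ} (hq : 1 ≤ q) {c : ℕ} (hc : c.Coprime q) (E : ℝ) (γ : ℝ)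
    (hE : ∀ y : ℕ, y ≤ N → ∀ a : ℕ, |∑ n ∈ (Icc 1 y).filter (fun n => n ≡ a [MOD q]), ArithmeticFunction.vonMangoldt n -
      (if a.Coprime q then (y : ℝ) / (Nat.totient q : ℝ) else 0)| ≤ E) :
    ‖SL N ((c : ℝ) / q + γ)‖ ≤ (q * E + 1) * (1 + ((N + 1 : ℕ) : ℝ) * (2 * Real.pi * |γ|)) + ((N + 1 : ℕ) : ℝ) / (Nat.totient q : ℝ) := by
  have hφ : (1 : ℝ) ≤ (Nat.totient q : ℝ) := by exact_mod_cast Nat.totient_pos.2 hq
  have hφ0 : (0 : ℝ) < (Nat.totient q : ℝ) := by linarith only [hφ]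
  have hE0 : 0 ≤ E := (abs_nonneg _).trans (hE 0 (Nat.zero_le _) 0)
  obtain ⟨κ, hκ⟩ : ∃ κ : ℂ, κ = ((ArithmeticFunction.moebius q : ℤ) : ℂ) * ((1 / (Nat.totient q : ℝ) : ℝ) : ℂ) := ⟨_, rfl⟩
  have hκn : ‖κ‖ ≤ 1 / (Nat.totient q : ℝ) := by
    rw [hκ, norm_mul, Complex.norm_real, Real.norm_of_nonneg (by positivity), Complex.norm_intCast]
    have : |((ArithmeticFunction.moebius q : ℤ) : ℝ)| ≤ 1 := by
      exact_mod_cast ArithmeticFunction.abs_moebius_le_one
    calc |((ArithmeticFunction.moebius q : ℤ) : ℝ)| * (1 / (Nat.totient q : ℝ)) ≤ 1 * (1 / (Nat.totient q : ℝ)) :=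
          mul_le_mul_of_nonneg_right this (by positivity)
      _ = _ := one_mul _
  have hκ1 : ‖κ‖ ≤ 1 := hκn.trans (by rw [div_le_one hφ0]; exact hφ)
  obtain ⟨u, hu⟩ : ∃ u : ℕ → ℂ, u = fun n : ℕ => ((ArithmeticFunction.vonMangoldt n : ℝ) : ℂ) * ee ((n : ℝ) * ((c : ℝ) / q)) - κ := ⟨_, rfl⟩
  obtain ⟨v, hv⟩ : ∃ v : ℕ → ℂ, v = fun n : ℕ => ee ((n : ℝ) * γ) := ⟨_, rfl⟩
  have hr : ∀ (j : ℕ) (f : ℕ → ℂ), f 0 = 0 → ∑ n ∈ range (j + 1), f n = ∑ n ∈ Icc 1 j, f n := by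
    intro j f hf
    have e1 : range (j + 1) = insert 0 (Icc 1 j) := by
      ext i
      rw [mem_range, mem_insert, mem_Icc]
      omega
    rw [e1, sum_insert (by rw [mem_Icc]; omega), hf, zero_add]
  have hpart := parts (u := u) (v := v) (K := q * E + 1) (δ := 2 * Real.pi * |γ|) (N := N + 1) (by positivity) (by
      intro m hm
      rcases m with _ | j
      · simp only [range_zero, sum_empty, norm_zero]
        positivity
      · rw [hu, sum_sub_distrib, hr j _ (by simp), sum_const, card_range, nsmul_eq_mul]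
        have h1 := rat hq hc j E (hE j (by omega))
        have e : ∑ n ∈ Icc 1 j, ((ArithmeticFunction.vonMangoldt n : ℝ) : ℂ) * ee ((n : ℝ) * ((c : ℝ) / q)) - ((j + 1 : ℕ) : ℂ) * κ =
            (∑ n ∈ Icc 1 j, ((ArithmeticFunction.vonMangoldt n : ℝ) : ℂ) * ee ((n : ℝ) * ((c : ℝ) / q)) -
              ((ArithmeticFunction.moebius q : ℤ) : ℂ) * (((j : ℝ) / (Nat.totient q : ℝ) : ℝ) : ℂ)) - κ := by
          rw [hκ]
          push_cast
          ring
        rw [e]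
        exact (norm_sub_le _ _).trans (add_le_add h1 hκ1)) (by
      intro n
      rw [hv]
      exact (norm_ee _).le) (by
      intro n
      rw [hv]
      have e : ee (((n + 1 : ℕ) : ℝ) * γ) - ee ((n : ℝ) * γ) = -(ee ((n : ℝ) * γ) * (1 - ee γ)) := by
        have : (((n + 1 : ℕ) : ℝ) * γ) = (n : ℝ) * γ + γ := by push_cast; ring
        rw [this, ee_add]; ring
      show ‖ee (((n + 1 : ℕ) : ℝ) * γ) - ee ((n : ℝ) * γ)‖ ≤ _
      rw [e, norm_neg, norm_mul, norm_ee, one_mul]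
      exact dd_le γ)
  have hS : SL N ((c : ℝ) / q + γ) = ∑ n ∈ range (N + 1), u n * v n + κ * ∑ n ∈ range (N + 1), v n := by
    unfold SL
    rw [← hr N (fun n => ((ArithmeticFunction.vonMangoldt n : ℝ) : ℂ) * ee ((n : ℝ) * ((c : ℝ) / q + γ))) (by simp),
      mul_sum, ← sum_add_distrib]
    apply sum_congr rfl
    intro n _
    rw [hu, hv]
    show _ = (((ArithmeticFunction.vonMangoldt n : ℝ) : ℂ) * ee ((n : ℝ) * ((c : ℝ) / q)) - κ) * ee ((n : ℝ) * γ) + κ * ee ((n : ℝ) * γ)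
    rw [mul_add, ee_add]
    ring
  rw [hS]
  refine (norm_add_le _ _).trans (add_le_add hpart ?_)
  rw [norm_mul]
  have h2 : ‖∑ n ∈ range (N + 1), v n‖ ≤ ((N + 1 : ℕ) : ℝ) := by
    refine (norm_sum_le _ _).trans ?_
    have : ∀ n ∈ range (N + 1), ‖v n‖ ≤ 1 := fun n _ => by rw [hv]; exact (norm_ee _).le
    refine (sum_le_sum this).trans (le_of_eq ?_)
    rw [sum_const, card_range, nsmul_eq_mul, mul_one]
  calc ‖κ‖ * ‖∑ n ∈ range (N + 1), v n‖ ≤ (1 / (Nat.totient q : ℝ)) * ((N + 1 : ℕ) : ℝ) :=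
        mul_le_mul hκn h2 (norm_nonneg _) (by positivity)
    _ = _ := by ring

end Pool.Agent.V11316.AT
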