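import Pool.Agent.V11316.AT2
import Pool.Agent.Helper112.Arith
import Pool.Agent.H343R2.Count

/-! The supremum over the frequencies, for errors down to a constant over the logarithm. -/

set_option autoImplicit false

namespace Pool.Agent.V11316.AT
open Finset Filter
open Pool.Agent.W301.SS
open Pool.Agent.H807R2.Dav (ee dd norm_ee ee_add ee_int ee_eq dd_le dd_ge dd_nonneg dd_neg ee_zero)

/-- **the supremum** over the frequencies -/
theorem sup_estR : ∃ Q R : ℝ, 698 ≤ Q ∧ 0 < R ∧ ∀ᶠ N : ℕ in atTop, ∀ ε : ℝ, 0 < ε → ε ≤ 1 → Q ≤ ε * Real.log N → ∀ H H1 : ℕ,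
    1 ≤ H → R ≤ ε * (H : ℝ) ^ (3 / 4 : ℝ) → H ≤ H1 →
    (H1 : ℝ) * Real.log N ^ 18 ≤ N → ∀ g β : ℝ, 0 < g → g ≤ 1 / 2 → (β = g ∨ β = -g) →
    ‖SP N (-β)‖ * ‖FK H β / H - FK H1 β / H1‖ ≤ ε * N := by
  obtain ⟨C, hC0, hvin⟩ := vinoP
  obtain ⟨N₁, hap⟩ := Pool.Agent.H373R2.T7.lam_ap 16 40
  obtain ⟨Q, hQ⟩ : ∃ Q, Q = 698 + 2304 * C := ⟨_, rfl⟩
  have hQ1 : 698 ≤ Q := by linarith only [hQ, hC0]
  obtain ⟨Cd, hCd, hdiv⟩ := Pool.Agent.Helper112.divisor_bound (1 / 4) (by norm_num)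
  refine ⟨Q, 24 * Cd, hQ1, by positivity, ?_⟩
  filter_upwards [ev_L (Q ^ 2), ev_log 24 1 1 one_pos, ev_log 2 48 (1 / 2) (by norm_num),
    ev_log 8 1 (1 / 5) (by norm_num), eventually_ge_atTop (max N₁ 2)] with N f1 f2 f3' f4 hN ε hε hεone hεℓ H H1 hH hRH hHH hH1N g β hg hg2 hβ
  have hN1 : N₁ ≤ N := (le_max_left _ _).trans hN
  have hN2 : 2 ≤ N := (le_max_right _ _).trans hN
  have hNr : (2 : ℝ) ≤ N := by exact_mod_cast hN2
  have hN0 : (0 : ℝ) < N := by linarith only [hNr]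
  have hH0 : (0 : ℝ) < H := by exact_mod_cast hH
  obtain ⟨ℓ, hℓ⟩ : ∃ ℓ, ℓ = Real.log N := ⟨_, rfl⟩
  rw [← hℓ] at f1 f2 f3' f4 hH1N hεℓ
  have hℓ2 : 2 ≤ ℓ := by nlinarith only [f1, hQ1]
  have hℓ0 : 0 < ℓ := by linarith only [hℓ2]
  have hℓ1 : 1 ≤ ℓ := by linarith only [hℓ2]
  have d0 : Q ≤ ε * ℓ := hεℓ
  have d1 : 26 ≤ ε * ℓ := by linarith only [d0, hQ1]
  have d2 : 2304 * C ≤ ε * ℓ := by linarith only [d0, hQ]
  have d3 : 672 ≤ ε * ℓ := by linarith only [d0, hQ1]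
  have f3 : 48 / ε * ℓ ^ 1 ≤ (N : ℝ) ^ (1 / 2 : ℝ) := by
    refine le_trans ?_ f3'
    rw [pow_one, div_mul_eq_mul_div, div_le_iff₀ hε]
    have : 1 ≤ ε * ℓ := by linarith only [d1]
    calc 48 * ℓ = 48 * ℓ * 1 := (mul_one _).symm
      _ ≤ 48 * ℓ * (ε * ℓ) := mul_le_mul_of_nonneg_left this (by positivity)
      _ = _ := by ring
  rw [one_mul, Real.rpow_one] at f2
  have hdd : 4 * g ≤ dd β := by
    have h1 := dd_ge hg.le (by linarith only [hg2] : g ≤ 1)
    have h2 : min g (1 - g) = g := min_eq_left (by linarith only [hg2])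
    rw [h2] at h1
    rcases hβ with h | h
    · rw [h]; exact h1
    · rw [h, dd_neg]; exact h1
  have habs : |β| = g := by
    rcases hβ with h | h
    · rw [h, abs_of_pos hg]
    · rw [h, abs_neg, abs_of_pos hg]
  have hSP : ‖SP N (-β)‖ = ‖SP N g‖ := by
    rcases hβ with h | h
    · rw [h, norm_SP_neg]
    · rw [h, neg_neg]
  rw [hSP]
  have hk := kernel_far hH hHH hg hdd
  have hk6 : ‖FK H β / H - FK H1 β / H1‖ ≤ 6 := by
    refine hk.trans ?_
    rw [div_le_iff₀ (by positivity)]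
    have : 0 ≤ (H : ℝ) * (4 * g) := by positivity
    linarith only [this]
  -- rational approximation
  obtain ⟨n, hn⟩ : ∃ n, n = ⌊(N : ℝ) / ℓ ^ 16⌋₊ := ⟨_, rfl⟩
  have hbig : 1 ≤ (N : ℝ) / ℓ ^ 16 := by
    rw [le_div_iff₀ (by positivity), one_mul]
    exact (pow_le_pow_right₀ hℓ1 (by norm_num)).trans f2
  have hn0 : 0 < n := by rw [hn]; exact Nat.floor_pos.2 hbig
  have hnle : (n : ℝ) ≤ N / ℓ ^ 16 := by rw [hn]; exact Nat.floor_le (by positivity)
  have hnlt : (N : ℝ) / ℓ ^ 16 < n + 1 := by rw [hn]; exact Nat.lt_floor_add_one _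
  obtain ⟨c, q, hq, hcop, hqn, hcq⟩ := dirichlet hg hn0
  have hqr : (1 : ℝ) ≤ q := by exact_mod_cast hq
  have hq0 : (0 : ℝ) < q := by linarith only [hqr]
  have hn1 : (0 : ℝ) < (n : ℝ) + 1 := by positivity
  have hnr : (1 : ℝ) ≤ n := by exact_mod_cast hn0
  have hinv : 1 / ((n : ℝ) + 1) ≤ ℓ ^ 16 / N := by
    rw [div_le_div_iff₀ hn1 hN0]
    rw [div_lt_iff₀ (by positivity)] at hnlt
    linarith only [hnlt]
  have hinv2 : 1 / (((n : ℝ) + 1) * q) ≤ ℓ ^ 16 / N := by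
    refine le_trans ?_ hinv
    apply one_div_le_one_div_of_le hn1
    nlinarith only [hn1, hqr]
  rcases Nat.eq_zero_or_pos c with hc0 | hc1
  · -- close to zero
    have hg3 : g ≤ ℓ ^ 16 / N := by
      rw [hc0] at hcq
      have : (((0 : ℕ) : ℝ)) / q = 0 := by simp
      rw [this, sub_zero, abs_of_pos hg] at hcq
      exact hcq.trans hinv2
    have h1 := kernel_near hH hHH hg.le habs
    have hpi := Real.pi_lt_d2
    have hpi0 := Real.pi_pos
    have h2 : (H1 : ℝ) * g ≤ 1 / ℓ := by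
      have h3 : (H1 : ℝ) * g ≤ (N / ℓ ^ 18) * (ℓ ^ 16 / N) := by
        apply mul_le_mul _ hg3 hg.le (by positivity)
        rw [le_div_iff₀ (by positivity)]
        exact hH1N
      have h4 : ((N : ℝ) / ℓ ^ 18) * (ℓ ^ 16 / N) = 1 / ℓ ^ 2 := by field_simp
      rw [h4] at h3
      refine h3.trans (one_div_le_one_div_of_le hℓ0 ?_)
      nlinarith only [hℓ1]
    have h5 : ‖FK H β / H - FK H1 β / H1‖ ≤ ε / 2 := by
      refine h1.trans ?_
      have h6 : 4 * Real.pi * ((H1 : ℝ) * g) ≤ 13 * (1 / ℓ) := by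
        apply mul_le_mul (by linarith only [hpi]) h2 (by positivity) (by norm_num)
      refine h6.trans ?_
      rw [mul_one_div, div_le_iff₀ hℓ0]
      linarith only [d1]
    calc ‖SP N g‖ * ‖FK H β / H - FK H1 β / H1‖ ≤ (2 * N) * (ε / 2) :=
          mul_le_mul (SP_le N g) h5 (norm_nonneg _) (by positivity)
      _ = ε * N := by ring
  -- the denominator is large
  have hcr : (1 : ℝ) ≤ c := by exact_mod_cast hc1
  have hgq : 1 / (2 * (q : ℝ)) ≤ g := by
    have h1 : 1 / (q : ℝ) ≤ c / q := div_le_div_of_nonneg_right hcr hq0.le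
    have h2 := neg_abs_le (g - (c : ℝ) / q)
    have h3 : 1 / (((n : ℝ) + 1) * q) ≤ 1 / (2 * q) := by
      apply one_div_le_one_div_of_le (by positivity)
      nlinarith only [hnr, hq0]
    have h4 : 1 / (2 * (q : ℝ)) = 1 / q - 1 / (2 * q) := by field_simp; ring
    linarith only [h1, h2, h3, h4, hcq]
  rcases le_or_gt (ℓ ^ 16) (q : ℝ) with hq16 | hq16
  · have hSPs : ‖SP N g‖ ≤ ε / 6 * N := by
      have h1 := hvin N q (by omega) hq (c : ℤ) (Nat.isCoprime_iff_coprime.2 hcop) g (by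
        push_cast
        refine hcq.trans ?_
        apply one_div_le_one_div_of_le (by positivity)
        have : (q : ℝ) ≤ n := by exact_mod_cast hqn
        nlinarith only [this, hq0])
      rw [← hℓ] at h1
      have h2 : VB N q ≤ 3 * (N / ℓ ^ 8) := by
        unfold VB
        have a1 : (N : ℝ) / √(q : ℝ) ≤ N / ℓ ^ 8 := by
          apply div_le_div_of_nonneg_left hN0.le (by positivity)
          apply Real.le_sqrt_of_sq_le
          rw [← pow_mul]
          exact hq16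
        have a2 : (N : ℝ) ^ (4 / 5 : ℝ) ≤ N / ℓ ^ 8 := by
          rw [le_div_iff₀ (by positivity)]
          rw [one_mul] at f4
          calc (N : ℝ) ^ (4 / 5 : ℝ) * ℓ ^ 8 ≤ (N : ℝ) ^ (4 / 5 : ℝ) * (N : ℝ) ^ (1 / 5 : ℝ) :=
                mul_le_mul_of_nonneg_left f4 (by positivity)
            _ = N := by rw [← Real.rpow_add hN0]; norm_num
        have a3 : √((N : ℝ) * q) ≤ N / ℓ ^ 8 := by
          apply Real.sqrt_le_iff.2
          refine ⟨by positivity, ?_⟩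
          have : (q : ℝ) ≤ N / ℓ ^ 16 := by
            have : (q : ℝ) ≤ n := by exact_mod_cast hqn
            exact this.trans hnle
          calc (N : ℝ) * q ≤ N * (N / ℓ ^ 16) := mul_le_mul_of_nonneg_left this hN0.le
            _ = (N / ℓ ^ 8) ^ 2 := by rw [div_pow, ← pow_mul]; ring
        linarith only [a1, a2, a3]
      have h3 : (1 + ℓ) ^ 7 ≤ 128 * ℓ ^ 7 := by
        calc (1 + ℓ) ^ 7 ≤ (2 * ℓ) ^ 7 := pow_le_pow_left₀ (by positivity) (by linarith only [hℓ1]) 7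
          _ = _ := by ring
      calc ‖SP N g‖ ≤ C * (1 + ℓ) ^ 7 * VB N q := h1
        _ ≤ C * (128 * ℓ ^ 7) * (3 * (N / ℓ ^ 8)) := by
            apply mul_le_mul (mul_le_mul_of_nonneg_left h3 hC0.le) h2 _ (by positivity)
            unfold VB; positivity
        _ = (384 * C / ℓ) * N := by field_simp; ring
        _ ≤ ε / 6 * N := by
            apply mul_le_mul_of_nonneg_right _ hN0.le
            rw [div_le_iff₀ hℓ0]
            linarith only [d2]
    calc ‖SP N g‖ * ‖FK H β / H - FK H1 β / H1‖ ≤ (ε / 6 * N) * 6 := mul_le_mul hSPs hk6 (norm_nonneg _) (by positivity)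
      _ = ε * N := by ring
  · -- major arcs
    have h1 := major (N := N) hq hcop (N / ℓ ^ 40) (g - (c : ℝ) / q) (fun y hy a => by
      rw [hℓ]
      exact hap N hN1 q hq (by rw [← hℓ]; exact hq16.le) a y hy)
    have e1 : (c : ℝ) / q + (g - (c : ℝ) / q) = g := by ring
    rw [e1] at h1
    have hφ0 : (0 : ℝ) < (Nat.totient q : ℝ) := by exact_mod_cast Nat.totient_pos.2 hq
    have hq4 : 0 < (q : ℝ) ^ (1 / 4 : ℝ) := Real.rpow_pos_of_pos hq0 _
    have hφq : (q : ℝ) ≤ Nat.totient q * (Cd * (q : ℝ) ^ (1 / 4 : ℝ)) := by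
      have g1 : (q : ℝ) ≤ (Nat.totient q : ℝ) * (q.divisors.card : ℝ) := by
        exact_mod_cast H343.phi_mul_card q hq
      exact g1.trans (mul_le_mul_of_nonneg_left (hdiv q hq) hφ0.le)
    have hkq : ‖FK H β / H - FK H1 β / H1‖ ≤ 6 * q / (q + 2 * H) := by
      refine hk.trans ?_
      rw [div_le_div_iff₀ (by positivity) (by positivity)]
      have g1 : 1 ≤ 2 * q * g := by
        rw [div_le_iff₀ (by positivity)] at hgq
        linarith only [hgq]
      have g2 : (H : ℝ) ≤ H * (2 * q * g) := le_mul_of_one_le_right hH0.le g1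
      linarith only [g2]
    have hprod : 2 * (N : ℝ) / (Nat.totient q : ℝ) * ‖FK H β / H - FK H1 β / H1‖ ≤ ε / 2 * N := by
      have g1 : (q : ℝ) ^ (1 / 4 : ℝ) * (H : ℝ) ^ (3 / 4 : ℝ) ≤ q + 2 * H := by
        have hT : (0 : ℝ) < q + 2 * H := by positivity
        calc (q : ℝ) ^ (1 / 4 : ℝ) * (H : ℝ) ^ (3 / 4 : ℝ) ≤ (q + 2 * H : ℝ) ^ (1 / 4 : ℝ) * (q + 2 * H : ℝ) ^ (3 / 4 : ℝ) := by
              apply mul_le_mul
              · exact Real.rpow_le_rpow hq0.le (by linarith only [hH0]) (by norm_num)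
              · exact Real.rpow_le_rpow hH0.le (by linarith only [hH0, hq0]) (by norm_num)
              · positivity
              · positivity
          _ = _ := by rw [← Real.rpow_add hT]; norm_num
      have g2 : 24 * Cd * (q : ℝ) ^ (1 / 4 : ℝ) ≤ ε * (q + 2 * H) := by
        calc 24 * Cd * (q : ℝ) ^ (1 / 4 : ℝ) ≤ ε * (H : ℝ) ^ (3 / 4 : ℝ) * (q : ℝ) ^ (1 / 4 : ℝ) :=
              mul_le_mul_of_nonneg_right hRH hq4.le
          _ = ε * ((q : ℝ) ^ (1 / 4 : ℝ) * (H : ℝ) ^ (3 / 4 : ℝ)) := by ring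
          _ ≤ _ := mul_le_mul_of_nonneg_left g1 hε.le
      have g3 : 2 / (Nat.totient q : ℝ) * (6 * q / (q + 2 * H)) ≤ ε / 2 := by
        rw [div_mul_div_comm, div_le_iff₀ (by positivity)]
        have g4 : 24 * (q : ℝ) ≤ Nat.totient q * (ε * (q + 2 * H)) := by
          calc 24 * (q : ℝ) ≤ 24 * (Nat.totient q * (Cd * (q : ℝ) ^ (1 / 4 : ℝ))) := by linarith only [hφq]
            _ = Nat.totient q * (24 * Cd * (q : ℝ) ^ (1 / 4 : ℝ)) := by ring
            _ ≤ _ := mul_le_mul_of_nonneg_left g2 hφ0.le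
        linarith only [g4]
      calc 2 * (N : ℝ) / (Nat.totient q : ℝ) * ‖FK H β / H - FK H1 β / H1‖ ≤ 2 * (N : ℝ) / (Nat.totient q : ℝ) * (6 * q / (q + 2 * H)) :=
            mul_le_mul_of_nonneg_left hkq (by positivity)
        _ = (2 / (Nat.totient q : ℝ) * (6 * q / (q + 2 * H))) * N := by ring
        _ ≤ _ := mul_le_mul_of_nonneg_right g3 hN0.le
    have b1 : ((N + 1 : ℕ) : ℝ) / (Nat.totient q : ℝ) ≤ 2 * (N : ℝ) / (Nat.totient q : ℝ) := by
      apply div_le_div_of_nonneg_right _ hφ0.le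
      push_cast; linarith only [hNr]
    have hγ : |g - (c : ℝ) / q| ≤ ℓ ^ 16 / N := hcq.trans hinv2
    have hpi := Real.pi_lt_d2
    have hpi0 := Real.pi_pos
    have b2 : (q : ℝ) * (N / ℓ ^ 40) + 1 ≤ 2 * (N / ℓ ^ 24) := by
      have g1 : (q : ℝ) * (N / ℓ ^ 40) ≤ N / ℓ ^ 24 := by
        calc (q : ℝ) * (N / ℓ ^ 40) ≤ ℓ ^ 16 * (N / ℓ ^ 40) := mul_le_mul_of_nonneg_right hq16.le (by positivity)
          _ = N / ℓ ^ 24 := by field_simp
      have g2 : 1 ≤ (N : ℝ) / ℓ ^ 24 := by rw [le_div_iff₀ (by positivity), one_mul]; exact f2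
      linarith only [g1, g2]
    have b3 : 1 + ((N + 1 : ℕ) : ℝ) * (2 * Real.pi * |g - (c : ℝ) / q|) ≤ 14 * ℓ ^ 16 := by
      have g1 : ((N + 1 : ℕ) : ℝ) ≤ 2 * N := by push_cast; linarith only [hNr]
      have g2 : ((N + 1 : ℕ) : ℝ) * (2 * Real.pi * |g - (c : ℝ) / q|) ≤ (2 * N) * (6.3 * (ℓ ^ 16 / N)) := by
        apply mul_le_mul g1 _ (by positivity) (by positivity)
        apply mul_le_mul (by linarith only [hpi]) hγ (abs_nonneg _) (by norm_num)
      have g3 : (2 * (N : ℝ)) * (6.3 * (ℓ ^ 16 / N)) = 12.6 * ℓ ^ 16 := by field_simp; ring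
      have g4 : 1 ≤ ℓ ^ 16 := one_le_pow₀ hℓ1
      linarith only [g2, g3, g4]
    have b4 : ((q : ℝ) * (N / ℓ ^ 40) + 1) * (1 + ((N + 1 : ℕ) : ℝ) * (2 * Real.pi * |g - (c : ℝ) / q|)) ≤ ε / 24 * N := by
      calc _ ≤ (2 * (N / ℓ ^ 24)) * (14 * ℓ ^ 16) := mul_le_mul b2 b3 (by positivity) (by positivity)
        _ = (28 / ℓ ^ 8) * N := by field_simp; ring
        _ ≤ ε / 24 * N := by
            apply mul_le_mul_of_nonneg_right _ hN0.le
            rw [div_le_iff₀ (by positivity)]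
            have g1 : ℓ ≤ ℓ ^ 8 := by
              calc ℓ = ℓ ^ 1 := (pow_one _).symm
                _ ≤ ℓ ^ 8 := pow_le_pow_right₀ hℓ1 (by norm_num)
            have g2 : ε / 24 * ℓ ≤ ε / 24 * ℓ ^ 8 := mul_le_mul_of_nonneg_left g1 (by positivity)
            linarith only [g2, d3]
    have b5 : ‖SL N g - SP N g‖ ≤ ε / 24 * N := by
      refine (SP_sub N (by omega) g).trans ?_
      rw [← hℓ]
      rw [pow_one, ← Real.sqrt_eq_rpow, div_mul_eq_mul_div, div_le_iff₀ hε] at f3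
      have g1 : √(N : ℝ) * √(N : ℝ) = N := Real.mul_self_sqrt hN0.le
      have g2 : 0 ≤ √(N : ℝ) := Real.sqrt_nonneg _
      have g3 := mul_le_mul_of_nonneg_left f3 g2
      have g4 : √(N : ℝ) * (√(N : ℝ) * ε) = ε * N := by rw [← mul_assoc, g1]; ring
      rw [g4] at g3
      linarith only [g3]
    have b6 : ‖SP N g‖ ≤ ‖SL N g‖ + ‖SL N g - SP N g‖ := by
      calc ‖SP N g‖ = ‖SL N g - (SL N g - SP N g)‖ := by rw [sub_sub_cancel]
        _ ≤ _ := norm_sub_le _ _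
    have b7 : ‖SP N g‖ ≤ 2 * (N : ℝ) / (Nat.totient q : ℝ) + ε / 12 * N := by linarith only [h1, b1, b4, b5, b6]
    calc ‖SP N g‖ * ‖FK H β / H - FK H1 β / H1‖ ≤ (2 * (N : ℝ) / (Nat.totient q : ℝ) + ε / 12 * N) * ‖FK H β / H - FK H1 β / H1‖ :=
          mul_le_mul_of_nonneg_right b7 (norm_nonneg _)
      _ = 2 * (N : ℝ) / (Nat.totient q : ℝ) * ‖FK H β / H - FK H1 β / H1‖ + ε / 12 * N * ‖FK H β / H - FK H1 β / H1‖ := by ring
      _ ≤ ε / 2 * N + ε / 12 * N * 6 := by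
          apply add_le_add hprod
          exact mul_le_mul_of_nonneg_left hk6 (by positivity)
      _ = ε * N := by ring

/-- all the frequencies `r / M` -/
theorem sup_freq : ∃ Q R : ℝ, 698 ≤ Q ∧ 0 < R ∧ ∀ᶠ N : ℕ in atTop, ∀ ε : ℝ, 0 < ε → ε ≤ 1 → Q ≤ ε * Real.log N → ∀ H H1 : ℕ,
    1 ≤ H → R ≤ ε * (H : ℝ) ^ (3 / 4 : ℝ) → H ≤ H1 → (H1 : ℝ) * Real.log N ^ 18 ≤ N → ∀ M : ℕ, ∀ r ∈ range M,
    ‖SP N (-((r : ℝ) / M))‖ * ‖FK H ((r : ℝ) / M) / H - FK H1 ((r : ℝ) / M) / H1‖ ≤ ε * N := by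
  obtain ⟨Q, R, hQ, hR, hev⟩ := sup_estR
  refine ⟨Q, R, hQ, hR, ?_⟩
  filter_upwards [hev, eventually_ge_atTop 1] with N hsup' hN1 ε hε hεone hεℓ H H1 hH hRH hHH hH1N M r hr
  have hsup := hsup' ε hε hεone hεℓ
  rw [mem_range] at hr
  have hM0 : (0 : ℝ) < (M : ℝ) := by
    have : 0 < M := by omega
    exact_mod_cast this
  rcases Nat.eq_zero_or_pos r with h0 | h0
  · subst h0
    have hH0 : (H : ℂ) ≠ 0 := by
      have : 0 < H := hH
      exact_mod_cast this.ne'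
    have hH10 : (H1 : ℂ) ≠ 0 := by
      have : 0 < H1 := by omega
      exact_mod_cast this.ne'
    have : FK H (((0 : ℕ) : ℝ) / (M : ℝ)) / H - FK H1 (((0 : ℕ) : ℝ) / (M : ℝ)) / H1 = 0 := by
      unfold FK
      simp [ee_zero, hH0, hH10]
    rw [this, norm_zero, mul_zero]
    positivity
  · rcases le_or_gt (2 * r) M with h | h
    · have hg : (0 : ℝ) < (r : ℝ) / (M : ℝ) := by
        have : (0 : ℝ) < r := by exact_mod_cast h0
        positivity
      have hg2 : (r : ℝ) / (M : ℝ) ≤ 1 / 2 := by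
        rw [div_le_div_iff₀ hM0 (by norm_num)]
        have : ((2 * r : ℕ) : ℝ) ≤ (M : ℝ) := by exact_mod_cast h
        push_cast at this ⊢
        linarith only [this]
      exact hsup H H1 hH hRH hHH hH1N _ _ hg hg2 (Or.inl rfl)
    · have hm1 : 1 ≤ M - r := by omega
      have hg : (0 : ℝ) < ((M - r : ℕ) : ℝ) / (M : ℝ) := by
        have : (0 : ℝ) < ((M - r : ℕ) : ℝ) := by exact_mod_cast hm1
        positivity
      have hg2 : ((M - r : ℕ) : ℝ) / (M : ℝ) ≤ 1 / 2 := by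
        rw [div_le_div_iff₀ hM0 (by norm_num)]
        have : ((2 * (M - r) : ℕ) : ℝ) ≤ (M : ℝ) := by exact_mod_cast (by omega : 2 * (M - r) ≤ M)
        rw [Nat.cast_mul] at this
        push_cast at this ⊢
        linarith only [this]
      have key := hsup H H1 hH hRH hHH hH1N _ _ hg hg2 (Or.inr rfl)
      have e0 : -(((M - r : ℕ) : ℝ) / (M : ℝ)) = (((r : ℝ) - (M : ℝ)) / (M : ℝ)) := by
        rw [Nat.cast_sub (by omega)]; ring
      rw [e0] at key
      have e1 : ∀ K : ℕ, FK K (((r : ℝ) - (M : ℝ)) / (M : ℝ)) = FK K ((r : ℝ) / (M : ℝ)) := by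
        intro K
        unfold FK
        apply sum_congr rfl
        intro i _
        have := ee_red (M := M) (by omega) r (i : ℤ)
        push_cast at this ⊢
        exact this
      have e2 : SP N (-(((r : ℝ) - (M : ℝ)) / (M : ℝ))) = SP N (-((r : ℝ) / (M : ℝ))) := by
        unfold SP
        apply sum_congr rfl
        intro i _
        have := ee_red (M := M) (by omega) r (-(i : ℤ))
        push_cast at this ⊢
        rw [mul_neg, mul_neg, ← neg_mul, ← neg_mul, this]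
      rw [e1, e1, e2] at key
      exact key

end Pool.Agent.V11316.AT
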