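import Pool.Agent.W301.SS.Core

/-! Parseval with weights modulo `M`; the additive energy of the squares. -/

set_option autoImplicit false

namespace Pool.Agent.V11316.AT
open Finset
open Pool.Agent.W301.SS
open Pool.Agent.H807R2.Dav (ee norm_ee ee_add ee_int ee_eq)

/-- Parseval for a weighted family of exponentials -/
lemma parsevalW {ι : Type} {M : ℕ} (hM : 1 ≤ M) (T : Finset ι) (w : ι → ℝ) (φ : ι → ℕ)
    (hφ : ∀ t ∈ T, φ t < M) :
    ∑ r ∈ range M, ‖∑ t ∈ T, ((w t : ℝ) : ℂ) * ee ((φ t : ℝ) * ((r : ℝ) / M))‖ ^ 2 =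
      M * ∑ t ∈ T, ∑ t' ∈ T, (if φ t = φ t' then w t * w t' else 0) := by
  have key : ((∑ r ∈ range M, ‖∑ t ∈ T, ((w t : ℝ) : ℂ) * ee ((φ t : ℝ) * ((r : ℝ) / M))‖ ^ 2 : ℝ) : ℂ) =
      ((M * ∑ t ∈ T, ∑ t' ∈ T, (if φ t = φ t' then w t * w t' else 0) : ℝ) : ℂ) := by
    push_cast
    have e1 : ∀ r ∈ range M, ((‖∑ t ∈ T, ((w t : ℝ) : ℂ) * ee ((φ t : ℝ) * ((r : ℝ) / M))‖ : ℂ)) ^ 2 =
        ∑ t ∈ T, ∑ t' ∈ T, ((w t : ℝ) : ℂ) * ((w t' : ℝ) : ℂ) * ee (((φ t : ℤ) - (φ t' : ℤ) : ℤ) * ((r : ℝ) / M)) := by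
      intro r _
      rw [← Complex.mul_conj']
      rw [map_sum, sum_mul_sum]
      apply sum_congr rfl
      intro a _
      apply sum_congr rfl
      intro b _
      rw [map_mul, star_ee, Complex.conj_ofReal]
      have : ee (((φ a : ℤ) - (φ b : ℤ) : ℤ) * ((r : ℝ) / M)) =
          ee ((φ a : ℝ) * ((r : ℝ) / M)) * ee (-((φ b : ℝ) * ((r : ℝ) / M))) := by
        rw [← ee_add]
        congr 1
        push_cast; ring
      rw [this]
      ring
    rw [sum_congr rfl e1, sum_comm, mul_sum]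
    apply sum_congr rfl
    intro a ha
    rw [sum_comm, mul_sum]
    apply sum_congr rfl
    intro b hb
    rw [← mul_sum, orth hM]
    have h1 := hφ a ha
    have h2 := hφ b hb
    by_cases h : φ a = φ b
    · rw [if_pos h, h, sub_self, if_pos (dvd_zero _)]
      push_cast
      ring
    · rw [if_neg h, if_neg, mul_zero, Complex.ofReal_zero, mul_zero]
      intro hd
      have h3 := Int.eq_zero_of_abs_lt_dvd hd (by rw [abs_lt]; constructor <;> omega)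
      apply h; omega
  exact_mod_cast key

/-- Fourth moment of the transform of a set -/
lemma fourth {M N : ℕ} (hNM : 2 * N < M) (S : Finset ℕ) (hS : ∀ s ∈ S, s ≤ N) :
    ∑ r ∈ range M, ‖FA S ((r : ℝ) / M)‖ ^ 4 =
      M * ((((S ×ˢ S) ×ˢ (S ×ˢ S)).filter (fun x => x.1.1 + x.1.2 = x.2.1 + x.2.2)).card : ℝ) := by
  have hM : 1 ≤ M := by omega
  have h := parsevalW hM (S ×ˢ S) (fun _ => 1) (fun x => x.1 + x.2) (fun t ht => by
    rw [mem_product] at ht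
    have := hS _ ht.1
    have := hS _ ht.2
    omega)
  have e1 : ∀ r ∈ range M, ‖FA S ((r : ℝ) / M)‖ ^ 4 =
      ‖∑ t ∈ S ×ˢ S, (((1 : ℝ) : ℝ) : ℂ) * ee (((t.1 + t.2 : ℕ) : ℝ) * ((r : ℝ) / M))‖ ^ 2 := by
    intro r _
    have : ∑ t ∈ S ×ˢ S, (((1 : ℝ) : ℝ) : ℂ) * ee (((t.1 + t.2 : ℕ) : ℝ) * ((r : ℝ) / M)) =
        FA S ((r : ℝ) / M) * FA S ((r : ℝ) / M) := by
      unfold FA
      rw [sum_mul_sum, sum_product]
      apply sum_congr rfl
      intro a _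
      apply sum_congr rfl
      intro b _
      rw [← ee_add, Complex.ofReal_one, one_mul]
      congr 1
      push_cast; ring
    rw [this, norm_mul]
    ring
  rw [sum_congr rfl e1, h]
  congr 1
  rw [card_filter]
  push_cast
  conv_rhs => rw [sum_product]
  apply sum_congr rfl
  intro a _
  apply sum_congr rfl
  intro b _
  simp

/-! ### The energy of the squares -/

/-- the quadruples of the parametrisation -/
def Qd (L : ℕ) : Finset ((ℕ × ℕ) × (ℕ × ℕ)) :=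
  ((Icc 1 L ×ˢ Icc 1 L) ×ˢ (Icc 1 L ×ˢ Icc 1 L)).filter
    (fun x => x.1.1 * x.2.1 ≤ L ∧ x.1.1 * x.2.2 ≤ L ∧ x.1.2 * x.2.1 ≤ L ∧ x.1.2 * x.2.2 ≤ L)

lemma card_Qd (L : ℕ) : ((Qd L).card : ℝ) ≤ 2 * (L : ℝ) ^ 2 * (1 + Real.log L) := by
  classical
  -- fibres over the pair (x, w)
  have h1 : (Qd L).card ≤ ∑ p ∈ Icc 1 L ×ˢ Icc 1 L, (L / max p.1 p.2) * (L / max p.1 p.2) := by
    have h2 : Qd L ⊆ (Icc 1 L ×ˢ Icc 1 L).biUnion (fun p =>
        (Icc 1 (L / max p.1 p.2) ×ˢ Icc 1 (L / max p.1 p.2)).image (fun q => (p, q))) := by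
      intro x hx
      unfold Qd at hx
      rw [mem_filter, mem_product, mem_product, mem_product] at hx
      obtain ⟨⟨⟨a1, a2⟩, ⟨a3, a4⟩⟩, b1, b2, b3, b4⟩ := hx
      rw [mem_Icc] at a1 a2 a3 a4
      rw [mem_biUnion]
      refine ⟨x.1, mem_product.2 ⟨mem_Icc.2 a1, mem_Icc.2 a2⟩, ?_⟩
      rw [mem_image]
      have hm : 0 < max x.1.1 x.1.2 := lt_max_of_lt_left (by omega)
      refine ⟨x.2, ?_, rfl⟩
      rw [mem_product, mem_Icc, mem_Icc]
      refine ⟨⟨a3.1, ?_⟩, ⟨a4.1, ?_⟩⟩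
      · rw [Nat.le_div_iff_mul_le hm]
        rcases max_choice x.1.1 x.1.2 with h | h
        · rw [h, mul_comm]; exact b1
        · rw [h, mul_comm]; exact b3
      · rw [Nat.le_div_iff_mul_le hm]
        rcases max_choice x.1.1 x.1.2 with h | h
        · rw [h, mul_comm]; exact b2
        · rw [h, mul_comm]; exact b4
    refine (card_le_card h2).trans (card_biUnion_le.trans (sum_le_sum fun p _ => ?_))
    refine card_image_le.trans ?_
    rw [card_product, Nat.card_Icc]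
    simp
  have h3 : ∀ p ∈ Icc 1 L ×ˢ Icc 1 L, (((L / max p.1 p.2) * (L / max p.1 p.2) : ℕ) : ℝ) ≤
      (if p.2 ≤ p.1 then (L : ℝ) ^ 2 / (p.1 : ℝ) ^ 2 else 0) + (if p.1 ≤ p.2 then (L : ℝ) ^ 2 / (p.2 : ℝ) ^ 2 else 0) := by
    intro p hp
    rw [mem_product, mem_Icc, mem_Icc] at hp
    have hm : 0 < max p.1 p.2 := lt_max_of_lt_left (by omega)
    have c1 : (((L / max p.1 p.2) : ℕ) : ℝ) ≤ (L : ℝ) / ((max p.1 p.2 : ℕ) : ℝ) := Nat.cast_div_le
    have c0 : (0 : ℝ) ≤ (((L / max p.1 p.2) : ℕ) : ℝ) := Nat.cast_nonneg _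
    have c2 : (((L / max p.1 p.2) * (L / max p.1 p.2) : ℕ) : ℝ) ≤ (L : ℝ) ^ 2 / ((max p.1 p.2 : ℕ) : ℝ) ^ 2 := by
      rw [Nat.cast_mul, ← div_pow, sq]
      exact mul_le_mul c1 c1 c0 (by positivity)
    refine c2.trans ?_
    rcases le_total p.1 p.2 with h | h
    · rw [max_eq_right h, if_pos h]
      have : 0 ≤ (if p.2 ≤ p.1 then (L : ℝ) ^ 2 / (p.1 : ℝ) ^ 2 else 0) := by split_ifs <;> positivity
      linarith only [this]
    · rw [max_eq_left h, if_pos h]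
      have : 0 ≤ (if p.1 ≤ p.2 then (L : ℝ) ^ 2 / (p.2 : ℝ) ^ 2 else 0) := by split_ifs <;> positivity
      linarith only [this]
  have hharm : ∑ x ∈ Icc 1 L, (1 : ℝ) / x ≤ 1 + Real.log L := by
    have := harmonic_le_one_add_log L
    have e : ((harmonic L : ℚ) : ℝ) = ∑ x ∈ Icc 1 L, (1 : ℝ) / x := by
      rw [harmonic_eq_sum_Icc]
      push_cast
      apply sum_congr rfl
      intro i _
      rw [one_div]
    rw [← e]
    exact this
  have h4 : ∑ p ∈ Icc 1 L ×ˢ Icc 1 L, (if p.2 ≤ p.1 then (L : ℝ) ^ 2 / (p.1 : ℝ) ^ 2 else 0) ≤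
      (L : ℝ) ^ 2 * ∑ x ∈ Icc 1 L, (1 : ℝ) / x := by
    rw [sum_product, mul_sum]
    apply sum_le_sum
    intro x hx
    rw [mem_Icc] at hx
    have hx0 : (0 : ℝ) < x := by exact_mod_cast (by omega : 0 < x)
    simp only
    rw [← sum_filter, sum_const, nsmul_eq_mul]
    have : ((((Icc 1 L).filter (fun y => y ≤ x)).card : ℕ) : ℝ) ≤ x := by
      have : ((Icc 1 L).filter (fun y => y ≤ x)).card ≤ x := by
        have h5 : (Icc 1 L).filter (fun y => y ≤ x) ⊆ Icc 1 x := by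
          intro y hy
          rw [mem_filter, mem_Icc] at hy
          rw [mem_Icc]; omega
        refine (card_le_card h5).trans ?_
        rw [Nat.card_Icc]; omega
      exact_mod_cast this
    calc _ ≤ (x : ℝ) * ((L : ℝ) ^ 2 / (x : ℝ) ^ 2) := mul_le_mul_of_nonneg_right this (by positivity)
      _ = _ := by field_simp
  have h5 : ∑ p ∈ Icc 1 L ×ˢ Icc 1 L, (if p.1 ≤ p.2 then (L : ℝ) ^ 2 / (p.2 : ℝ) ^ 2 else 0) ≤
      (L : ℝ) ^ 2 * ∑ x ∈ Icc 1 L, (1 : ℝ) / x := by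
    rw [sum_product_right, mul_sum]
    apply sum_le_sum
    intro x hx
    rw [mem_Icc] at hx
    have hx0 : (0 : ℝ) < x := by exact_mod_cast (by omega : 0 < x)
    simp only
    rw [← sum_filter, sum_const, nsmul_eq_mul]
    have : ((((Icc 1 L).filter (fun y => y ≤ x)).card : ℕ) : ℝ) ≤ x := by
      have : ((Icc 1 L).filter (fun y => y ≤ x)).card ≤ x := by
        have h5 : (Icc 1 L).filter (fun y => y ≤ x) ⊆ Icc 1 x := by
          intro y hy
          rw [mem_filter, mem_Icc] at hy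
          rw [mem_Icc]; omega
        refine (card_le_card h5).trans ?_
        rw [Nat.card_Icc]; omega
      exact_mod_cast this
    calc _ ≤ (x : ℝ) * ((L : ℝ) ^ 2 / (x : ℝ) ^ 2) := mul_le_mul_of_nonneg_right this (by positivity)
      _ = _ := by field_simp
  have h6 : ((Qd L).card : ℝ) ≤ ∑ p ∈ Icc 1 L ×ˢ Icc 1 L, (((L / max p.1 p.2) * (L / max p.1 p.2) : ℕ) : ℝ) := by
    exact_mod_cast h1
  have h7 := sum_le_sum h3
  rw [sum_add_distrib] at h7
  have h8 : (L : ℝ) ^ 2 * ∑ x ∈ Icc 1 L, (1 : ℝ) / x ≤ (L : ℝ) ^ 2 * (1 + Real.log L) :=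
    mul_le_mul_of_nonneg_left hharm (by positivity)
  linarith only [h6, h7, h4, h5, h8]

end Pool.Agent.V11316.AT
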