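import Pool.Agent.V11316.AT11

/-! The additive energy of the squares. -/

set_option autoImplicit false

namespace Pool.Agent.V11316.AT
open Finset

/-- the parametrisation -/
def par (p : (ℕ × ℕ) × (ℕ × ℕ)) : (ℕ × ℕ) × (ℕ × ℕ) :=
  ((Nat.gcd (p.1.1 - p.2.1) (p.2.2 - p.1.2),
    (p.1.1 + p.2.1) / ((p.2.2 - p.1.2) / Nat.gcd (p.1.1 - p.2.1) (p.2.2 - p.1.2))),
   ((p.1.1 - p.2.1) / Nat.gcd (p.1.1 - p.2.1) (p.2.2 - p.1.2),
    (p.2.2 - p.1.2) / Nat.gcd (p.1.1 - p.2.1) (p.2.2 - p.1.2)))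

lemma par_spec {a b c d : ℕ} (h : a ^ 2 + b ^ 2 = c ^ 2 + d ^ 2) (hca : c < a) :
    b < d ∧ a - c = (par ((a, b), (c, d))).1.1 * (par ((a, b), (c, d))).2.1 ∧
      d - b = (par ((a, b), (c, d))).1.1 * (par ((a, b), (c, d))).2.2 ∧
      a + c = (par ((a, b), (c, d))).1.2 * (par ((a, b), (c, d))).2.2 ∧
      b + d = (par ((a, b), (c, d))).1.2 * (par ((a, b), (c, d))).2.1 := by
  have hbd : b < d := by
    by_contra hcon
    rw [not_lt] at hcon
    have h1 : c ^ 2 < a ^ 2 := Nat.pow_lt_pow_left hca (by norm_num)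
    have h2 : d ^ 2 ≤ b ^ 2 := Nat.pow_le_pow_left hcon 2
    omega
  obtain ⟨u, hu⟩ : ∃ u, u = a - c := ⟨_, rfl⟩
  obtain ⟨u', hu'⟩ : ∃ u', u' = d - b := ⟨_, rfl⟩
  have ha : a = c + u := by omega
  have hd : d = b + u' := by omega
  have hu0 : 0 < u := by omega
  have hu'0 : 0 < u' := by omega
  have e1 : u * (2 * c + u) = u' * (2 * b + u') := by
    rw [ha, hd] at h
    have h3 : (c + u) ^ 2 + b ^ 2 = c ^ 2 + b ^ 2 + u * (2 * c + u) := by ring
    have h4 : c ^ 2 + (b + u') ^ 2 = c ^ 2 + b ^ 2 + u' * (2 * b + u') := by ring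
    omega
  obtain ⟨g, hg⟩ : ∃ g, g = Nat.gcd u u' := ⟨_, rfl⟩
  have hg0 : 0 < g := by rw [hg]; exact Nat.gcd_pos_of_pos_left _ hu0
  obtain ⟨y, hy⟩ : ∃ y, y = u / g := ⟨_, rfl⟩
  obtain ⟨z, hz⟩ : ∃ z, z = u' / g := ⟨_, rfl⟩
  have huy : u = g * y := by rw [hy]; exact (Nat.mul_div_cancel' (by rw [hg]; exact Nat.gcd_dvd_left _ _)).symm
  have huz : u' = g * z := by rw [hz]; exact (Nat.mul_div_cancel' (by rw [hg]; exact Nat.gcd_dvd_right _ _)).symm
  have hcop : Nat.Coprime y z := by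
    rw [hy, hz, hg]
    exact Nat.coprime_div_gcd_div_gcd (by rw [← hg]; exact hg0)
  have hz0 : 0 < z := by
    rcases Nat.eq_zero_or_pos z with h0 | h0
    · rw [h0, mul_zero] at huz; omega
    · exact h0
  have e2 : y * (2 * c + u) = z * (2 * b + u') := by
    apply Nat.eq_of_mul_eq_mul_left hg0
    calc g * (y * (2 * c + u)) = (g * y) * (2 * c + u) := by ring
      _ = u * (2 * c + u) := by rw [← huy]
      _ = u' * (2 * b + u') := e1
      _ = (g * z) * (2 * b + u') := by rw [← huz]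
      _ = _ := by ring
  have hdvd : z ∣ 2 * c + u := by
    apply Nat.Coprime.dvd_of_dvd_mul_left hcop.symm
    rw [e2]
    exact Dvd.intro _ rfl
  obtain ⟨w, hw⟩ := hdvd
  have e3 : 2 * b + u' = y * w := by
    apply Nat.eq_of_mul_eq_mul_left hz0
    rw [← e2, hw]
    ring
  have e4 : (a + c) / z = w := by
    have : a + c = z * w := by omega
    rw [this, Nat.mul_div_cancel_left _ hz0]
  have hp : par ((a, b), (c, d)) = ((g, w), (y, z)) := by
    unfold par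
    simp only
    rw [← hu, ← hu', ← hg, ← hy, ← hz, e4]
  rw [hp]
  simp only
  refine ⟨hbd, by omega, by omega, ?_, ?_⟩
  · rw [mul_comm]; omega
  · rw [mul_comm]; omega

/-- the solutions of `a² + b² = c² + d²` -/
def E4 (K : ℕ) : Finset ((ℕ × ℕ) × (ℕ × ℕ)) :=
  ((Icc 1 K ×ˢ Icc 1 K) ×ˢ (Icc 1 K ×ˢ Icc 1 K)).filter
    (fun p => p.1.1 ^ 2 + p.1.2 ^ 2 = p.2.1 ^ 2 + p.2.2 ^ 2)

lemma card_part (K : ℕ) : ((E4 K).filter (fun p => p.2.1 < p.1.1)).card ≤ (Qd (2 * K)).card := by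
  classical
  apply card_le_card_of_injOn par
  · intro p hp
    rw [mem_coe, mem_filter] at hp
    obtain ⟨hp1, hp2⟩ := hp
    unfold E4 at hp1
    rw [mem_filter, mem_product, mem_product, mem_product, mem_Icc, mem_Icc, mem_Icc, mem_Icc] at hp1
    obtain ⟨⟨⟨a1, a2⟩, a3, a4⟩, h⟩ := hp1
    obtain ⟨⟨a, b⟩, ⟨c, d⟩⟩ := p
    simp only at a1 a2 a3 a4 h hp2
    obtain ⟨b0, b1, b2, b3, b4⟩ := par_spec h hp2
    obtain ⟨x, hx⟩ : ∃ x, x = par ((a, b), (c, d)) := ⟨_, rfl⟩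
    rw [← hx] at b1 b2 b3 b4 ⊢
    obtain ⟨⟨g, w⟩, ⟨y, z⟩⟩ := x
    simp only at b1 b2 b3 b4
    have hg : 0 < g := Nat.pos_of_ne_zero (by rintro rfl; rw [zero_mul] at b1; omega)
    have hy : 0 < y := Nat.pos_of_ne_zero (by rintro rfl; rw [mul_zero] at b1; omega)
    have hz : 0 < z := Nat.pos_of_ne_zero (by rintro rfl; rw [mul_zero] at b2; omega)
    have hw : 0 < w := Nat.pos_of_ne_zero (by rintro rfl; rw [zero_mul] at b3; omega)
    have c1 : g ≤ g * y := Nat.le_mul_of_pos_right _ hy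
    have c2 : y ≤ g * y := Nat.le_mul_of_pos_left _ hg
    have c3 : z ≤ g * z := Nat.le_mul_of_pos_left _ hg
    have c4 : w ≤ w * z := Nat.le_mul_of_pos_right _ hz
    rw [mem_coe]
    unfold Qd
    rw [mem_filter, mem_product, mem_product, mem_product, mem_Icc, mem_Icc, mem_Icc, mem_Icc]
    simp only
    refine ⟨⟨⟨⟨by omega, by omega⟩, ⟨by omega, by omega⟩⟩, ⟨by omega, by omega⟩, ⟨by omega, by omega⟩⟩,
      by omega, by omega, by omega, by omega⟩
  · intro p hp q hq hpq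
    rw [mem_coe, mem_filter] at hp hq
    obtain ⟨hp1, hp2⟩ := hp
    obtain ⟨hq1, hq2⟩ := hq
    unfold E4 at hp1 hq1
    rw [mem_filter] at hp1 hq1
    obtain ⟨-, h⟩ := hp1
    obtain ⟨-, h'⟩ := hq1
    obtain ⟨⟨a, b⟩, ⟨c, d⟩⟩ := p
    obtain ⟨⟨a', b'⟩, ⟨c', d'⟩⟩ := q
    simp only at h h' hp2 hq2
    obtain ⟨b0, b1, b2, b3, b4⟩ := par_spec h hp2
    obtain ⟨b0', b1', b2', b3', b4'⟩ := par_spec h' hq2
    rw [← hpq] at b1' b2' b3' b4'
    have d1 : a = a' := by omega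
    have d2 : b = b' := by omega
    have d3 : c = c' := by omega
    have d4 : d = d' := by omega
    rw [d1, d2, d3, d4]

lemma card_E4 (K : ℕ) : (E4 K).card ≤ K ^ 2 + 2 * (Qd (2 * K)).card := by
  classical
  have h1 : E4 K ⊆ ((Icc 1 K ×ˢ Icc 1 K).image (fun x => (x, x))) ∪
      ((E4 K).filter (fun p => p.2.1 < p.1.1) ∪ ((E4 K).filter (fun p => p.2.1 < p.1.1)).image (fun p => (p.2, p.1))) := by
    intro p hp
    have hp' := hp
    unfold E4 at hp'
    rw [mem_filter, mem_product] at hp'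
    obtain ⟨⟨a1, a2⟩, h⟩ := hp'
    rw [mem_union, mem_union]
    rcases lt_trichotomy p.2.1 p.1.1 with hlt | heq | hgt
    · right; left
      exact mem_filter.2 ⟨hp, hlt⟩
    · left
      rw [mem_image]
      refine ⟨p.1, a1, ?_⟩
      have h2 : p.1.2 ^ 2 = p.2.2 ^ 2 := by rw [heq] at h; omega
      have h3 : p.1.2 = p.2.2 := Nat.pow_left_injective (n := 2) (by norm_num) h2
      exact Prod.ext rfl (Prod.ext heq.symm h3)
    · right; right
      rw [mem_image]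
      refine ⟨(p.2, p.1), mem_filter.2 ⟨?_, hgt⟩, rfl⟩
      unfold E4
      rw [mem_filter, mem_product]
      exact ⟨⟨a2, a1⟩, h.symm⟩
  refine (card_le_card h1).trans ((card_union_le _ _).trans ?_)
  have h2 : ((Icc 1 K ×ˢ Icc 1 K).image (fun x : ℕ × ℕ => (x, x))).card ≤ K ^ 2 := by
    refine card_image_le.trans ?_
    rw [card_product, Nat.card_Icc, sq]
    simp
  have h3 := card_part K
  have h4 : (((E4 K).filter (fun p => p.2.1 < p.1.1)).image (fun p => (p.2, p.1))).card ≤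
      ((E4 K).filter (fun p => p.2.1 < p.1.1)).card := card_image_le
  have h5 := card_union_le ((E4 K).filter (fun p => p.2.1 < p.1.1)) (((E4 K).filter (fun p => p.2.1 < p.1.1)).image (fun p => (p.2, p.1)))
  omega

/-- **The energy of a set of squares** -/
lemma energy (K : ℕ) (B : Finset ℕ) (hB : ∀ n ∈ B, 1 ≤ n ∧ n ≤ K) :
    ((((B.image (fun n => n ^ 2) ×ˢ B.image (fun n => n ^ 2)) ×ˢ (B.image (fun n => n ^ 2) ×ˢ B.image (fun n => n ^ 2))).filter
      (fun x => x.1.1 + x.1.2 = x.2.1 + x.2.2)).card : ℝ) ≤ 17 * (K : ℝ) ^ 2 * (1 + Real.log ((2 * K : ℕ) : ℝ)) := by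
  classical
  have h1 : ((B.image (fun n => n ^ 2) ×ˢ B.image (fun n => n ^ 2)) ×ˢ (B.image (fun n => n ^ 2) ×ˢ B.image (fun n => n ^ 2))).filter
      (fun x => x.1.1 + x.1.2 = x.2.1 + x.2.2) ⊆ (E4 K).image (fun p => ((p.1.1 ^ 2, p.1.2 ^ 2), (p.2.1 ^ 2, p.2.2 ^ 2))) := by
    intro x hx
    rw [mem_filter, mem_product, mem_product, mem_product, mem_image, mem_image, mem_image, mem_image] at hx
    obtain ⟨⟨⟨⟨a, ha, ha'⟩, ⟨b, hb, hb'⟩⟩, ⟨c, hc, hc'⟩, ⟨d, hd, hd'⟩⟩, h⟩ := hx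
    rw [mem_image]
    refine ⟨((a, b), (c, d)), ?_, Prod.ext (Prod.ext ha' hb') (Prod.ext hc' hd')⟩
    unfold E4
    rw [mem_filter, mem_product, mem_product, mem_product, mem_Icc, mem_Icc, mem_Icc, mem_Icc]
    refine ⟨⟨⟨hB a ha, hB b hb⟩, hB c hc, hB d hd⟩, ?_⟩
    simp only
    rw [ha', hb', hc', hd']
    exact h
  have h2 := (card_le_card h1).trans (card_image_le.trans (card_E4 K))
  have h3 := card_Qd (2 * K)
  have h4 : (((K ^ 2 + 2 * (Qd (2 * K)).card : ℕ)) : ℝ) ≤ 17 * (K : ℝ) ^ 2 * (1 + Real.log ((2 * K : ℕ) : ℝ)) := by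
    push_cast at h3 ⊢
    have h5 : 0 ≤ Real.log (2 * (K : ℝ)) := by
      have := Real.log_natCast_nonneg (2 * K)
      push_cast at this
      exact this
    have h6 : (K : ℝ) ^ 2 ≤ (K : ℝ) ^ 2 * (1 + Real.log (2 * (K : ℝ))) := by
      apply le_mul_of_one_le_right (by positivity)
      linarith only [h5]
    nlinarith only [h3, h6]
  refine le_trans ?_ h4
  exact_mod_cast h2

end Pool.Agent.V11316.AT
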