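import Pool.Agent.V11316.AT3
import Pool.Agent.V11316.AT10
import Pool.Agent.V11316.AT12

/-! The second moment of the windows on the Fourier side; sums over a dense set and a set of squares. -/

set_option autoImplicit false

namespace Pool.Agent.V11316.AT
open Finset Filter
open Pool.Agent.W301.SS
open Pool.Agent.Y851.PS
open Pool.Agent.Y851.PT
open Pool.Agent.V11316.TB
open Pool.Agent.H807R2.Dav (ee norm_ee ee_add ee_int ee_eq)

/-- the window sums -/
noncomputable def Vw (N H y : ℕ) : ℝ := ∑ t ∈ (Icc 1 N ×ˢ Ioc 0 H).filter (fun t => t.1 + (H - t.2) = y), om t.1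

lemma Vw_nonneg (N H y : ℕ) : 0 ≤ Vw N H y := sum_nonneg fun _ _ => om_nonneg _

lemma Vw_le (N H y : ℕ) : Vw N H y ≤ ∑ n ∈ (Ioc (y - H) y).filter (fun n => n ≤ N), om n := by
  classical
  unfold Vw
  have h1 : ∑ t ∈ (Icc 1 N ×ˢ Ioc 0 H).filter (fun t => t.1 + (H - t.2) = y), om t.1 =
      ∑ n ∈ ((Icc 1 N ×ˢ Ioc 0 H).filter (fun t => t.1 + (H - t.2) = y)).image Prod.fst, om n := by
    rw [sum_image]
    intro t ht t' ht' he
    rw [mem_coe, mem_filter, mem_product, mem_Ioc] at ht ht'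
    have h2 : t.2 = t'.2 := by omega
    exact Prod.ext he h2
  rw [h1]
  apply sum_le_sum_of_subset_of_nonneg
  · intro n hn
    rw [mem_image] at hn
    obtain ⟨t, ht, rfl⟩ := hn
    rw [mem_filter, mem_product, mem_Icc, mem_Ioc] at ht
    rw [mem_filter, mem_Ioc]
    omega
  · intro n _ _
    exact om_nonneg _

lemma fourier_window {N H M : ℕ} (hM : N + H < M) :
    ∑ r ∈ range M, (‖SP N (-((r : ℝ) / M))‖ * ‖FK H ((r : ℝ) / M)‖) ^ 2 = M * ∑ y ∈ range M, Vw N H y ^ 2 := by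
  classical
  have hM1 : 1 ≤ M := by omega
  have hφ : ∀ t ∈ Icc 1 N ×ˢ Ioc 0 H, t.1 + (H - t.2) < M := by
    intro t ht
    rw [mem_product, mem_Icc, mem_Ioc] at ht
    omega
  have h := parsevalW hM1 (Icc 1 N ×ˢ Ioc 0 H) (fun t => om t.1) (fun t => t.1 + (H - t.2)) hφ
  have e1 : ∀ r ∈ range M, (‖SP N (-((r : ℝ) / M))‖ * ‖FK H ((r : ℝ) / M)‖) ^ 2 =
      ‖∑ t ∈ Icc 1 N ×ˢ Ioc 0 H, ((om t.1 : ℝ) : ℂ) * ee (((t.1 + (H - t.2) : ℕ) : ℝ) * ((r : ℝ) / M))‖ ^ 2 := by
    intro r _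
    congr 1
    have e2 : ∑ t ∈ Icc 1 N ×ˢ Ioc 0 H, ((om t.1 : ℝ) : ℂ) * ee (((t.1 + (H - t.2) : ℕ) : ℝ) * ((r : ℝ) / M)) =
        ee ((H : ℝ) * ((r : ℝ) / M)) * (starRingEnd ℂ) (SP N (-((r : ℝ) / M)) * FK H ((r : ℝ) / M)) := by
      unfold SP FK
      rw [sum_mul_sum, map_sum, mul_sum, sum_product]
      apply sum_congr rfl
      intro n _
      rw [map_sum, mul_sum]
      apply sum_congr rfl
      intro h hh
      rw [mem_Ioc] at hh
      rw [map_mul, map_mul, star_ee, star_ee, Complex.conj_ofReal]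
      have e3 : ee (((n + (H - h) : ℕ) : ℝ) * ((r : ℝ) / M)) =
          ee ((H : ℝ) * ((r : ℝ) / M)) * (ee (-((n : ℝ) * (-((r : ℝ) / M)))) * ee (-((h : ℝ) * ((r : ℝ) / M)))) := by
        rw [← ee_add, ← ee_add]
        congr 1
        rw [Nat.cast_add, Nat.cast_sub hh.2]
        ring
      rw [e3]
      ring
    rw [e2, norm_mul, norm_ee, one_mul, RCLike.norm_conj, norm_mul]
  rw [sum_congr rfl e1, h]
  congr 1
  have e4 : ∀ t ∈ Icc 1 N ×ˢ Ioc 0 H, (∑ t' ∈ Icc 1 N ×ˢ Ioc 0 H,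
      (if t.1 + (H - t.2) = t'.1 + (H - t'.2) then om t.1 * om t'.1 else 0)) = om t.1 * Vw N H (t.1 + (H - t.2)) := by
    intro t _
    unfold Vw
    rw [sum_filter, mul_sum]
    apply sum_congr rfl
    intro t' _
    by_cases hc : t.1 + (H - t.2) = t'.1 + (H - t'.2)
    · rw [if_pos hc, if_pos hc.symm]
    · rw [if_neg hc, if_neg (fun hh => hc hh.symm), mul_zero]
  rw [sum_congr rfl e4]
  rw [← sum_fiberwise_of_maps_to (s := Icc 1 N ×ˢ Ioc 0 H) (t := range M) (g := fun t => t.1 + (H - t.2))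
    (fun t ht => mem_range.2 (hφ t ht))]
  apply sum_congr rfl
  intro y _
  rw [sq]
  conv_rhs => rw [show Vw N H y * Vw N H y = (∑ t ∈ (Icc 1 N ×ˢ Ioc 0 H).filter (fun t => t.1 + (H - t.2) = y), om t.1) * Vw N H y from rfl]
  rw [sum_mul]
  apply sum_congr rfl
  intro t ht
  rw [mem_filter] at ht
  rw [ht.2]

/-- the second moment -/
theorem secF (lam : ℝ) (hlam : 0 < lam) : ∃ C : ℝ, 1 ≤ C ∧ ∀ᶠ N : ℕ in atTop, ∀ H : ℕ, lam * Real.log N ≤ H → H ≤ N →
    ∀ M : ℕ, 2 * N < M → ∑ r ∈ range M, (‖SP N (-((r : ℝ) / M))‖ * ‖FK H ((r : ℝ) / M)‖) ^ 2 ≤ C * (M * (N * (H : ℝ) ^ 2)) := by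
  obtain ⟨m, hm, hev⟩ := mom_dense lam 1 hlam one_pos 1
  refine ⟨4 + 8 * m, by linarith only [hm], ?_⟩
  filter_upwards [hev, ev_L 1, eventually_ge_atTop 2] with N h1 h2 hN2 H hH1 hH2 M hM
  have hNr : (2 : ℝ) ≤ N := by exact_mod_cast hN2
  have hN0 : (0 : ℝ) < N := by linarith only [hNr]
  obtain ⟨ℓ, hℓ⟩ : ∃ ℓ, ℓ = Real.log N := ⟨_, rfl⟩
  have h1' := h1 (range (N + 1)) (fun c hc => by rw [mem_range] at hc; omega)
    (by rw [card_range]; push_cast; linarith only []) 0 (by omega) H hH1 hH2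
  rw [← hℓ] at h2 hH1
  have hℓ0 : 0 < ℓ := by linarith only [h2]
  have hHr : (H : ℝ) ≤ N := by exact_mod_cast hH2
  have hH0 : (0 : ℝ) < H := lt_of_lt_of_le (by positivity) hH1
  -- counts
  have h3 : ∑ c ∈ range (N + 1), (pn c H : ℝ) ^ 2 * (ℓ ^ 2 / (H : ℝ) ^ 2) ≤ m * (2 * N) := by
    refine le_trans (le_of_eq ?_) (h1'.trans ?_)
    · apply sum_congr rfl
      intro c _
      unfold AW
      rw [zero_add, ← hℓ, div_pow, mul_pow]
      ring
    · rw [card_range]
      apply mul_le_mul_of_nonneg_left _ (by linarith only [hm])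
      push_cast
      linarith only [hNr]
  have h4 : ∑ c ∈ range (N + 1), (pn c H : ℝ) ^ 2 * (4 * ℓ ^ 2) ≤ 8 * m * (N * (H : ℝ) ^ 2) := by
    have e : ∑ c ∈ range (N + 1), (pn c H : ℝ) ^ 2 * (4 * ℓ ^ 2) =
        (4 * (H : ℝ) ^ 2) * ∑ c ∈ range (N + 1), (pn c H : ℝ) ^ 2 * (ℓ ^ 2 / (H : ℝ) ^ 2) := by
      rw [mul_sum]
      apply sum_congr rfl
      intro c _
      field_simp
    rw [e]
    calc (4 * (H : ℝ) ^ 2) * ∑ c ∈ range (N + 1), (pn c H : ℝ) ^ 2 * (ℓ ^ 2 / (H : ℝ) ^ 2) ≤ (4 * (H : ℝ) ^ 2) * (m * (2 * N)) :=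
          mul_le_mul_of_nonneg_left h3 (by positivity)
      _ = _ := by ring
  rw [fourier_window (by omega)]
  have h5 : ∀ y ∈ range M, Vw N H y ^ 2 ≤ (if y < H then 4 * (H : ℝ) ^ 2 else 0) +
      (if H ≤ y ∧ y ≤ N + H then (pn (y - H) H : ℝ) ^ 2 * (4 * ℓ ^ 2) else 0) := by
    intro y _
    have hV0 := Vw_nonneg N H y
    have hV := Vw_le N H y
    have hlogom : ∀ n : ℕ, n ≤ N → om n ≤ (if n.Prime then 2 * ℓ else 0) := by
      intro n hn
      unfold om
      split_ifs with hp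
      · have : Real.log n ≤ ℓ := by
          rw [hℓ]
          apply Real.log_le_log
          · exact_mod_cast hp.pos
          · exact_mod_cast hn
        linarith only [this, hℓ0]
      · exact le_rfl
    by_cases hy : y < H
    · rw [if_pos hy, if_neg (by omega), add_zero]
      have g1 : Vw N H y ≤ 2 * H := by
        refine hV.trans ?_
        have g2 : ∑ n ∈ (Ioc (y - H) y).filter (fun n => n ≤ N), om n ≤ ∑ n ∈ Icc 1 H, om n := by
          apply sum_le_sum_of_subset_of_nonneg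
          · intro n hn
            rw [mem_filter, mem_Ioc] at hn
            rw [mem_Icc]; omega
          · intro n _ _
            exact om_nonneg _
        rw [sum_om] at g2
        have g3 := Chebyshev.theta_le_log4_mul_x (x := H) (Nat.cast_nonneg H)
        have g4 : Real.log 4 * H ≤ 2 * H := mul_le_mul_of_nonneg_right log4 (Nat.cast_nonneg H)
        linarith only [g2, g3, g4]
      calc Vw N H y ^ 2 ≤ (2 * H) ^ 2 := pow_le_pow_left₀ hV0 g1 2
        _ = _ := by ring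
    · rw [if_neg hy, zero_add]
      by_cases hy2 : H ≤ y ∧ y ≤ N + H
      · rw [if_pos hy2]
        have g1 : Vw N H y ≤ (pn (y - H) H : ℝ) * (2 * ℓ) := by
          refine hV.trans ?_
          have g2 : ∑ n ∈ (Ioc (y - H) y).filter (fun n => n ≤ N), om n ≤
              ∑ n ∈ (Ioc (y - H) y).filter (fun n => n ≤ N), (if n.Prime then 2 * ℓ else 0) := by
            apply sum_le_sum
            intro n hn
            rw [mem_filter] at hn
            exact hlogom n hn.2
          have g3 : ∑ n ∈ (Ioc (y - H) y).filter (fun n => n ≤ N), (if n.Prime then 2 * ℓ else 0) ≤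
              ∑ n ∈ Ioc (y - H) y, (if n.Prime then 2 * ℓ else 0) := by
            apply sum_le_sum_of_subset_of_nonneg (filter_subset _ _)
            intro n _ _
            split_ifs
            · linarith only [hℓ0]
            · exact le_rfl
          refine g2.trans (g3.trans (le_of_eq ?_))
          unfold pn
          rw [← sum_filter, sum_const, nsmul_eq_mul, show y - H + H = y by omega]
        calc Vw N H y ^ 2 ≤ ((pn (y - H) H : ℝ) * (2 * ℓ)) ^ 2 := pow_le_pow_left₀ hV0 g1 2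
          _ = _ := by ring
      · rw [if_neg hy2]
        have g1 : Vw N H y ≤ 0 := by
          refine hV.trans (le_of_eq ?_)
          apply sum_eq_zero
          intro n hn
          rw [mem_filter, mem_Ioc] at hn
          exfalso
          omega
        have g2 : Vw N H y = 0 := le_antisymm g1 hV0
        rw [g2]; simp
  have h6 := sum_le_sum h5
  rw [sum_add_distrib] at h6
  have h7 : ∑ y ∈ range M, (if y < H then 4 * (H : ℝ) ^ 2 else 0) ≤ 4 * (N * (H : ℝ) ^ 2) := by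
    rw [← sum_filter, sum_const, nsmul_eq_mul]
    have g1 : (((range M).filter (fun y => y < H)).card : ℝ) ≤ N := by
      have : ((range M).filter (fun y => y < H)).card ≤ H := by
        have g2 : (range M).filter (fun y => y < H) ⊆ range H := by
          intro y hy
          rw [mem_filter] at hy
          exact mem_range.2 hy.2
        refine (card_le_card g2).trans ?_
        rw [card_range]
      have : (((range M).filter (fun y => y < H)).card : ℝ) ≤ H := by exact_mod_cast this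
      linarith only [this, hHr]
    calc _ ≤ (N : ℝ) * (4 * (H : ℝ) ^ 2) := mul_le_mul_of_nonneg_right g1 (by positivity)
      _ = _ := by ring
  have h8 : ∑ y ∈ range M, (if H ≤ y ∧ y ≤ N + H then (pn (y - H) H : ℝ) ^ 2 * (4 * ℓ ^ 2) else 0) ≤
      ∑ c ∈ range (N + 1), (pn c H : ℝ) ^ 2 * (4 * ℓ ^ 2) := by
    classical
    rw [← sum_filter]
    have g1 : ∑ c ∈ range (N + 1), (pn c H : ℝ) ^ 2 * (4 * ℓ ^ 2) =
        ∑ y ∈ (range (N + 1)).image (fun c => c + H), (pn (y - H) H : ℝ) ^ 2 * (4 * ℓ ^ 2) := by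
      rw [sum_image]
      · apply sum_congr rfl
        intro c _
        rw [Nat.add_sub_cancel]
      · intro c _ c' _ he
        simp only at he
        omega
    rw [g1]
    apply sum_le_sum_of_subset_of_nonneg
    · intro y hy
      rw [mem_filter] at hy
      rw [mem_image]
      exact ⟨y - H, mem_range.2 (by omega), by omega⟩
    · intro y _ _
      positivity
  have h9 : ∑ y ∈ range M, Vw N H y ^ 2 ≤ (4 + 8 * m) * (N * (H : ℝ) ^ 2) := by linarith only [h6, h7, h8, h4]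
  calc (M : ℝ) * ∑ y ∈ range M, Vw N H y ^ 2 ≤ M * ((4 + 8 * m) * (N * (H : ℝ) ^ 2)) :=
        mul_le_mul_of_nonneg_left h9 (Nat.cast_nonneg _)
    _ = _ := by ring

end Pool.Agent.V11316.AT
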