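import Pool.Agent.V11316.AT13

/-! Sums over a dense set and a dense set of squares. -/

set_option autoImplicit false

namespace Pool.Agent.V11316.AT
open Finset Filter
open Pool.Agent.W301.SS
open Pool.Agent.Y851.PS
open Pool.Agent.Y851.PT
open Pool.Agent.V11316.TB
open Pool.Agent.H807R2.Dav (ee norm_ee ee_add ee_int ee_eq)

lemma holder (s : Finset ℕ) (G a b : ℕ → ℝ) (U V Z : ℝ) (hG0 : ∀ r ∈ s, 0 ≤ G r) (hG : ∀ r ∈ s, G r ≤ U) (hU : 0 ≤ U)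
    (hG2 : ∑ r ∈ s, G r ^ 2 ≤ V) (hb : ∑ r ∈ s, b r ^ 4 ≤ Z) (hV : 0 ≤ V) (hZ : 0 ≤ Z) :
    ∑ r ∈ s, G r * (a r * b r) ≤ √(∑ r ∈ s, a r ^ 2) * √(U * √(V * Z)) := by
  have h1 := Real.sum_mul_le_sqrt_mul_sqrt s a (fun r => G r * b r)
  have h2 := Real.sum_mul_le_sqrt_mul_sqrt s (fun r => G r ^ 2) (fun r => b r ^ 2)
  have h3 : ∑ r ∈ s, (G r ^ 2) ^ 2 ≤ U ^ 2 * V := by
    calc ∑ r ∈ s, (G r ^ 2) ^ 2 ≤ ∑ r ∈ s, U ^ 2 * G r ^ 2 := by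
          apply sum_le_sum
          intro r hr
          have h4 : G r ^ 2 ≤ U ^ 2 := pow_le_pow_left₀ (hG0 r hr) (hG r hr) 2
          rw [sq (G r ^ 2)]
          exact mul_le_mul_of_nonneg_right h4 (by positivity)
      _ = U ^ 2 * ∑ r ∈ s, G r ^ 2 := by rw [mul_sum]
      _ ≤ U ^ 2 * V := mul_le_mul_of_nonneg_left hG2 (by positivity)
  have h5 : ∑ r ∈ s, (b r ^ 2) ^ 2 ≤ Z := by
    refine le_trans (le_of_eq ?_) hb
    apply sum_congr rfl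
    intro r _
    ring
  have h6 : ∑ r ∈ s, (G r * b r) ^ 2 ≤ U * √(V * Z) := by
    have e : ∑ r ∈ s, (G r * b r) ^ 2 = ∑ r ∈ s, G r ^ 2 * b r ^ 2 := by
      apply sum_congr rfl
      intro r _
      ring
    rw [e]
    refine h2.trans ?_
    calc √(∑ r ∈ s, (G r ^ 2) ^ 2) * √(∑ r ∈ s, (b r ^ 2) ^ 2) ≤ √(U ^ 2 * V) * √Z :=
          mul_le_mul (Real.sqrt_le_sqrt h3) (Real.sqrt_le_sqrt h5) (Real.sqrt_nonneg _) (Real.sqrt_nonneg _)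
      _ = U * √(V * Z) := by
          rw [Real.sqrt_mul (by positivity), Real.sqrt_sq hU, Real.sqrt_mul hV]
          ring
  have h7 : ∑ r ∈ s, G r * (a r * b r) = ∑ r ∈ s, a r * (G r * b r) := by
    apply sum_congr rfl
    intro r _
    ring
  rw [h7]
  exact h1.trans (mul_le_mul_of_nonneg_left (Real.sqrt_le_sqrt h6) (Real.sqrt_nonneg _))

/-- two lengths, a set and a set of squares -/
theorem diff_sq (lam : ℝ) (hlam : 0 < lam) : ∃ Q R C : ℝ, 698 ≤ Q ∧ 0 < R ∧ 1 ≤ C ∧ ∀ᶠ N : ℕ in atTop, ∀ ε : ℝ, 0 < ε → ε ≤ 1 → Q ≤ ε * Real.log N →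
    ∀ A B : Finset ℕ, ∀ K H H1 : ℕ, 1 ≤ H → R ≤ ε * (H : ℝ) ^ (3 / 4 : ℝ) → lam * Real.log N ≤ H → H ≤ H1 → H1 ≤ N →
    (H1 : ℝ) * Real.log N ^ 18 ≤ N → (∀ a ∈ A, a ≤ N) → (∀ n ∈ B, 1 ≤ n ∧ n ≤ K) → K ^ 2 ≤ N →
    (∀ a ∈ A, ∀ b ∈ B.image (fun n => n ^ 2), a + b + H1 ≤ N) →
    |TT A (B.image (fun n => n ^ 2)) H / H - TT A (B.image (fun n => n ^ 2)) H1 / H1| ≤
      √(A.card : ℝ) * √(ε * N * √(C * N * (17 * (K : ℝ) ^ 2 * (1 + Real.log ((2 * K : ℕ) : ℝ))))) := by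
  obtain ⟨Q, R, hQ, hR, hsup⟩ := sup_freq
  obtain ⟨C, hC, hsec⟩ := secF lam hlam
  refine ⟨Q, R, 4 * C, hQ, hR, by linarith only [hC], ?_⟩
  filter_upwards [hsup, hsec, eventually_ge_atTop 1] with N h1 h2 hN1 ε hε hε1 hεQ A B K H H1 hHpos hRH hHL hHH hH1N hH18 hA hB hKN hAB
  obtain ⟨S, hS⟩ : ∃ S, S = B.image (fun n => n ^ 2) := ⟨_, rfl⟩
  have hSN : ∀ s ∈ S, s ≤ N := by
    intro s hs
    rw [hS, mem_image] at hs
    obtain ⟨n, hn, rfl⟩ := hs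
    exact (Nat.pow_le_pow_left (hB n hn).2 2).trans hKN
  have hen := energy K B hB
  rw [← hS] at hen hAB ⊢
  obtain ⟨M, hMdef⟩ : ∃ M, M = 2 * N + 1 := ⟨_, rfl⟩
  have hNM : N < M := by omega
  have hM : 1 ≤ M := by omega
  have hM0 : (0 : ℝ) < M := by exact_mod_cast hM
  have hH0' : (0 : ℝ) < H := by exact_mod_cast hHpos
  have hH10 : (0 : ℝ) < H1 := by exact_mod_cast (by omega : 0 < H1)
  have hfour := fourth (M := M) (N := N) (by omega) S hSN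
  have hE0 : 0 ≤ 17 * (K : ℝ) ^ 2 * (1 + Real.log ((2 * K : ℕ) : ℝ)) := (Nat.cast_nonneg _).trans hen
  obtain ⟨E, hE⟩ : ∃ E, E = 17 * (K : ℝ) ^ 2 * (1 + Real.log ((2 * K : ℕ) : ℝ)) := ⟨_, rfl⟩
  rw [← hE] at hen hE0 ⊢
  obtain ⟨G, hG⟩ : ∃ G : ℕ → ℝ, G = fun r : ℕ => ‖SP N (-((r : ℝ) / M))‖ * ‖FK H ((r : ℝ) / M) / H - FK H1 ((r : ℝ) / M) / H1‖ := ⟨_, rfl⟩
  have hGv : ∀ r, G r = ‖SP N (-((r : ℝ) / M))‖ * ‖FK H ((r : ℝ) / M) / H - FK H1 ((r : ℝ) / M) / H1‖ := by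
    intro r; rw [hG]
  have hGle : ∀ r ∈ range M, G r ≤ ε * N := by
    intro r hr
    rw [hGv]
    exact h1 ε hε hε1 hεQ H H1 hHpos hRH hHH hH18 M r hr
  have hG0 : ∀ r ∈ range M, 0 ≤ G r := by
    intro r _
    rw [hGv]
    positivity
  -- the second moment
  have hG2 : ∑ r ∈ range M, G r ^ 2 ≤ 4 * C * (M * N) := by
    have a1 := h2 H hHL (by omega) M (by omega)
    have a2 := h2 H1 (hHL.trans (by exact_mod_cast hHH)) hH1N M (by omega)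
    have a3 : ∀ r ∈ range M, G r ^ 2 ≤ 2 / (H : ℝ) ^ 2 * (‖SP N (-((r : ℝ) / M))‖ * ‖FK H ((r : ℝ) / M)‖) ^ 2 +
        2 / (H1 : ℝ) ^ 2 * (‖SP N (-((r : ℝ) / M))‖ * ‖FK H1 ((r : ℝ) / M)‖) ^ 2 := by
      intro r _
      have b1 : G r ≤ ‖SP N (-((r : ℝ) / M))‖ * ‖FK H ((r : ℝ) / M)‖ / H + ‖SP N (-((r : ℝ) / M))‖ * ‖FK H1 ((r : ℝ) / M)‖ / H1 := by
        rw [hGv]
        have b2 : ‖FK H ((r : ℝ) / M) / H - FK H1 ((r : ℝ) / M) / H1‖ ≤ ‖FK H ((r : ℝ) / M)‖ / H + ‖FK H1 ((r : ℝ) / M)‖ / H1 := by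
          refine (norm_sub_le _ _).trans (le_of_eq ?_)
          rw [norm_div, norm_div, Complex.norm_natCast, Complex.norm_natCast]
        calc _ ≤ ‖SP N (-((r : ℝ) / M))‖ * (‖FK H ((r : ℝ) / M)‖ / H + ‖FK H1 ((r : ℝ) / M)‖ / H1) :=
              mul_le_mul_of_nonneg_left b2 (norm_nonneg _)
          _ = _ := by ring
      have b3 : G r ^ 2 ≤ (‖SP N (-((r : ℝ) / M))‖ * ‖FK H ((r : ℝ) / M)‖ / H + ‖SP N (-((r : ℝ) / M))‖ * ‖FK H1 ((r : ℝ) / M)‖ / H1) ^ 2 :=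
        pow_le_pow_left₀ (by rw [hGv]; positivity) b1 2
      refine b3.trans ((add_sq_le).trans (le_of_eq ?_))
      rw [div_pow, div_pow]
      ring
    refine (sum_le_sum a3).trans ?_
    rw [sum_add_distrib, ← mul_sum, ← mul_sum]
    have c1 : 2 / (H : ℝ) ^ 2 * ∑ r ∈ range M, (‖SP N (-((r : ℝ) / M))‖ * ‖FK H ((r : ℝ) / M)‖) ^ 2 ≤ 2 * C * (M * N) := by
      calc _ ≤ 2 / (H : ℝ) ^ 2 * (C * (M * (N * (H : ℝ) ^ 2))) := mul_le_mul_of_nonneg_left a1 (by positivity)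
        _ = _ := by field_simp
    have c2 : 2 / (H1 : ℝ) ^ 2 * ∑ r ∈ range M, (‖SP N (-((r : ℝ) / M))‖ * ‖FK H1 ((r : ℝ) / M)‖) ^ 2 ≤ 2 * C * (M * N) := by
      calc _ ≤ 2 / (H1 : ℝ) ^ 2 * (C * (M * (N * (H1 : ℝ) ^ 2))) := mul_le_mul_of_nonneg_left a2 (by positivity)
        _ = _ := by field_simp
    linarith only [c1, c2]
  -- the Fourier expansion
  have f1 := TT_fourier hNM A S H (fun a ha b hb => by have := hAB a ha b hb; omega)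
  have f2 := TT_fourier hNM A S H1 hAB
  have f3 : (M : ℂ) * (((TT A S H / H - TT A S H1 / H1 : ℝ)) : ℂ) =
      ∑ r ∈ range M, SP N (-((r : ℝ) / M)) * (FA A ((r : ℝ) / M) * FA S ((r : ℝ) / M) *
        (FK H ((r : ℝ) / M) / H - FK H1 ((r : ℝ) / M) / H1)) := by
    push_cast
    rw [mul_sub, ← mul_div_assoc, ← mul_div_assoc, f1, f2, sum_div, sum_div, ← sum_sub_distrib]
    apply sum_congr rfl
    intro r _
    ring
  have f4 : (M : ℝ) * |TT A S H / H - TT A S H1 / H1| ≤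
      ∑ r ∈ range M, G r * (‖FA A ((r : ℝ) / M)‖ * ‖FA S ((r : ℝ) / M)‖) := by
    have f5 : (M : ℝ) * |TT A S H / H - TT A S H1 / H1| =
        ‖(M : ℂ) * (((TT A S H / H - TT A S H1 / H1 : ℝ)) : ℂ)‖ := by
      rw [norm_mul, Complex.norm_natCast, Complex.norm_real, Real.norm_eq_abs]
    rw [f5, f3]
    refine (norm_sum_le _ _).trans (sum_le_sum fun r hrm => ?_)
    rw [norm_mul, norm_mul, norm_mul, hGv]
    exact le_of_eq (by ring)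
  have f6 := holder (range M) G (fun r => ‖FA A ((r : ℝ) / M)‖) (fun r => ‖FA S ((r : ℝ) / M)‖) (ε * N) (4 * C * (M * N))
    (M * E) hG0 hGle (by positivity) hG2
    (by rw [hfour]; exact mul_le_mul_of_nonneg_left hen hM0.le) (by positivity) (by positivity)
  rw [parseval hM A (fun a ha => by have := hA a ha; omega)] at f6
  have f7 : √((M : ℝ) * A.card) * √(ε * N * √(4 * C * (M * N) * (M * E))) =
      M * (√(A.card : ℝ) * √(ε * N * √(4 * C * N * E))) := by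
    have e1 : √(4 * C * (M * N) * (M * E)) = M * √(4 * C * N * E) := by
      have e0 : 4 * C * (M * N) * (M * E) = (M : ℝ) ^ 2 * (4 * C * N * E) := by ring
      rw [e0, Real.sqrt_mul (by positivity), Real.sqrt_sq hM0.le]
    rw [e1]
    have e2 : ε * N * (M * √(4 * C * N * E)) = M * (ε * N * √(4 * C * N * E)) := by ring
    rw [e2, Real.sqrt_mul hM0.le, Real.sqrt_mul hM0.le]
    have e3 : √(M : ℝ) * √(M : ℝ) = M := Real.mul_self_sqrt hM0.le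
    calc √(M : ℝ) * √(A.card : ℝ) * (√(M : ℝ) * √(ε * N * √(4 * C * N * E))) =
          (√(M : ℝ) * √(M : ℝ)) * (√(A.card : ℝ) * √(ε * N * √(4 * C * N * E))) := by ring
      _ = _ := by rw [e3]
  rw [f7] at f6
  exact le_of_mul_le_mul_left (f4.trans f6) hM0

end Pool.Agent.V11316.AT
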