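import Pool.Agent.V11316.AT14

/-! Primes in windows above `a + n²`: sums over dense sets. -/

set_option autoImplicit false

namespace Pool.Agent.V11316.AT
open Finset Filter
open Pool.Agent.W301.SS
open Pool.Agent.Y851.PS
open Pool.Agent.Y851.PT
open Pool.Agent.V11316.TB

lemma card_sq (B : Finset ℕ) : (B.image (fun n => n ^ 2)).card = B.card := by
  apply card_image_of_injective
  intro a b h
  exact Nat.pow_left_injective (n := 2) (by norm_num) h

/-- Sums over pairs, weighted by `log p`. -/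
theorem theta_sq (lam δ η : ℝ) (hlam : 0 < lam) (hδ : 0 < δ) (hη : 0 < η) (hη1 : η ≤ 1) : ∀ᶠ N : ℕ in atTop,
    ∀ A B : Finset ℕ, (∀ a ∈ A, a ≤ N) → (∀ n ∈ B, 1 ≤ n ∧ n ^ 2 ≤ N) → δ * (N : ℝ) ≤ A.card → δ * √(N : ℝ) ≤ B.card →
    ∀ y : ℕ, lam * Real.log N ≤ y → y ≤ 2 * N →
      |TT A (B.image (fun n => n ^ 2)) y - (A.card : ℝ) * B.card * y| ≤ η * ((A.card : ℝ) * B.card * y) := by
  obtain ⟨Q, R, C, hQ, hR, hC, hev⟩ := diff_sq (lam / 2) (by positivity)
  obtain ⟨N₁, hN₁⟩ := eventually_atTop.1 hev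
  obtain ⟨D, hD⟩ : ∃ D, D = √(136 * C) := ⟨_, rfl⟩
  have hD0 : 0 < D := by rw [hD]; positivity
  have hD2 : D ^ 2 = 136 * C := by rw [hD]; exact Real.sq_sqrt (by positivity)
  obtain ⟨κ, hκ⟩ : ∃ κ, κ = min 1 (η ^ 2 * δ ^ 3 / (16 * D)) := ⟨_, rfl⟩
  have hκ0 : 0 < κ := by rw [hκ]; positivity
  have hκ1 : κ ≤ 1 := by rw [hκ]; exact min_le_left _ _
  have hκD : κ * D ≤ η ^ 2 * δ ^ 3 / 16 := by
    have h1 : κ ≤ η ^ 2 * δ ^ 3 / (16 * D) := by rw [hκ]; exact min_le_right _ _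
    calc κ * D ≤ η ^ 2 * δ ^ 3 / (16 * D) * D := mul_le_mul_of_nonneg_right h1 hD0.le
      _ = _ := by field_simp
  obtain ⟨R', hR'⟩ : ∃ R' : ℝ, R' = R / (κ * (lam / 2) ^ (3 / 4 : ℝ)) := ⟨_, rfl⟩
  have hl34 : 0 < (lam / 2) ^ (3 / 4 : ℝ) := Real.rpow_pos_of_pos (by positivity) _
  have hR'0 : 0 < R' := by rw [hR']; positivity
  filter_upwards [ev_L (16 / η + 262144 + (Q / κ) ^ 2 + R' ^ 4 + 1 / lam), ev_log 21 3 1 (by norm_num), pnt_unif 20,
    eventually_ge_atTop (max 16 N₁)] with N h1 h2 h4 hN16' A B hA hB hAc hBc y hy1 hy2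
  have hN16 : 16 ≤ N := (le_max_left _ _).trans hN16'
  have hN1 : N₁ ≤ 4 * N := by
    have := (le_max_right _ _).trans hN16'
    omega
  have hNr : (16 : ℝ) ≤ N := by exact_mod_cast hN16
  have hN0 : (0 : ℝ) < N := by linarith only [hNr]
  obtain ⟨ℓ, hℓ⟩ : ∃ ℓ, ℓ = Real.log N := ⟨_, rfl⟩
  rw [← hℓ] at h1 h2 h4 hy1
  have hc2 : 0 < 16 / η := by positivity
  have hc3 : 0 ≤ (Q / κ) ^ 2 := by positivity
  have hc4 : 0 ≤ R' ^ 4 := by positivity
  have hc5 : 0 ≤ 1 / lam := by positivity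
  have hℓ16 : 262144 ≤ ℓ := by linarith only [h1, hc2, hc3, hc4, hc5]
  have hℓ0 : 0 < ℓ := by linarith only [hℓ16]
  have hℓ1 : 1 ≤ ℓ := by linarith only [hℓ16]
  have hsℓ : 1 ≤ √ℓ := by rw [Real.one_le_sqrt]; exact hℓ1
  have hsℓ2 : √ℓ * √ℓ = ℓ := Real.mul_self_sqrt hℓ0.le
  rw [Real.rpow_one] at h2
  obtain ⟨S, hS⟩ : ∃ S, S = B.image (fun n => n ^ 2) := ⟨_, rfl⟩
  have hScard : S.card = B.card := by rw [hS]; exact card_sq B
  have hSN : ∀ s ∈ S, s ≤ N := by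
    intro s hs
    rw [hS, mem_image] at hs
    obtain ⟨n, hn, rfl⟩ := hs
    exact (hB n hn).2
  rw [← hS]
  obtain ⟨P, hP⟩ : ∃ P : ℝ, P = (A.card : ℝ) * B.card := ⟨_, rfl⟩
  rw [← hP]
  have hsN : 0 < √(N : ℝ) := Real.sqrt_pos.2 hN0
  have hA0 : (0 : ℝ) < A.card := lt_of_lt_of_le (by positivity) hAc
  have hB0 : (0 : ℝ) < B.card := lt_of_lt_of_le (by positivity) hBc
  have hP0 : 0 < P := by rw [hP]; positivity
  -- the long length
  obtain ⟨H1, hH1⟩ : ∃ H1 : ℕ, H1 = ⌊(N : ℝ) / ℓ ^ 19⌋₊ := ⟨_, rfl⟩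
  have hH1le : (H1 : ℝ) ≤ N / ℓ ^ 19 := by rw [hH1]; exact Nat.floor_le (by positivity)
  have hbig : 3 ≤ (N : ℝ) / ℓ ^ 19 := by
    rw [le_div_iff₀ (by positivity)]
    refine le_trans ?_ h2
    apply mul_le_mul_of_nonneg_left _ (by norm_num)
    exact pow_le_pow_right₀ hℓ1 (by norm_num)
  have hH1lt : (N : ℝ) / ℓ ^ 19 < H1 + 1 := by rw [hH1]; exact Nat.lt_floor_add_one _
  have hH1ge : (N : ℝ) / ℓ ^ 19 ≤ 2 * H1 := by linarith only [hH1lt, hbig]
  have hH1pos' : (0 : ℝ) < H1 := by linarith only [hH1lt, hbig]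
  have hH1pos : 1 ≤ H1 := by exact_mod_cast hH1pos'
  have hH1N : H1 ≤ N := by
    have : (H1 : ℝ) ≤ N := hH1le.trans (div_le_self hN0.le (one_le_pow₀ hℓ1))
    exact_mod_cast this
  -- prime number theorem for lengths at least `H1`
  have hlong : ∀ z : ℕ, H1 ≤ z → z ≤ 2 * N → |TT A S z - P * z| ≤ (η / 4) * (P * z) := by
    intro z hz1 hz2
    have a1 := TT_pnt A S N z hA hSN hz2 (N / ℓ ^ 20) h4
    rw [hScard, ← hP] at a1
    refine a1.trans ?_
    have hz : (H1 : ℝ) ≤ z := by exact_mod_cast hz1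
    have a2 : 2 * (N / ℓ ^ 20) ≤ (4 / ℓ) * z := by
      calc 2 * (N / ℓ ^ 20) = (2 / ℓ) * (N / ℓ ^ 19) := by field_simp
        _ ≤ (2 / ℓ) * (2 * H1) := by gcongr
        _ ≤ (2 / ℓ) * (2 * z) := by gcongr
        _ = _ := by ring
    have a3 : 4 / ℓ ≤ η / 4 := by
      rw [div_le_div_iff₀ hℓ0 (by norm_num)]
      have : 16 / η ≤ ℓ := by linarith only [h1, hc3, hc4, hc5]
      rw [div_le_iff₀ hη] at this
      linarith only [this]
    calc P * (2 * (N / ℓ ^ 20)) ≤ P * ((4 / ℓ) * z) := by gcongr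
      _ ≤ P * ((η / 4) * z) := by gcongr
      _ = _ := by ring
  rcases le_or_gt H1 y with hcase | hcase
  · refine (hlong y hcase hy2).trans ?_
    have : 0 ≤ P * (y : ℝ) := by positivity
    nlinarith only [this, hη]
  · -- short lengths
    obtain ⟨L, hL⟩ : ∃ L : ℝ, L = Real.log ((4 * N : ℕ) : ℝ) := ⟨_, rfl⟩
    have hL2 : L ≤ 2 * ℓ := by
      rw [hL]
      push_cast
      rw [Real.log_mul (by norm_num) (by linarith only [hNr]), ← hℓ]
      have := log4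
      linarith only [this, hℓ16]
    have hLℓ : ℓ ≤ L := by
      rw [hL, hℓ]
      apply Real.log_le_log hN0
      push_cast
      linarith only [hN0]
    have hL0 : 0 < L := by linarith only [hLℓ, hℓ0]
    have hsL0 : 0 < √L := Real.sqrt_pos.2 hL0
    have hsL2 : √L * √L = L := Real.mul_self_sqrt hL0.le
    have hsL1 : 1 ≤ √L := by rw [Real.one_le_sqrt]; linarith only [hLℓ, hℓ1]
    obtain ⟨ε, hε⟩ : ∃ ε, ε = κ / √L := ⟨_, rfl⟩
    have hε0 : 0 < ε := by rw [hε]; positivity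
    have hε1 : ε ≤ 1 := by
      rw [hε, div_le_one hsL0]
      linarith only [hκ1, hsL1]
    have hεL : ε * L = κ * √L := by
      rw [hε]
      calc κ / √L * L = κ / √L * (√L * √L) := by rw [hsL2]
        _ = κ * √L := by field_simp
    have hεQ : Q ≤ ε * L := by
      rw [hεL]
      have g1 : Q / κ ≤ √L := by
        apply Real.le_sqrt_of_sq_le
        linarith only [h1, hLℓ, hc2, hc4, hc5]
      rw [div_le_iff₀ hκ0] at g1
      linarith only [g1]
    have hLy : lam / 2 * L ≤ y := by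
      refine le_trans ?_ hy1
      have := mul_le_mul_of_nonneg_left hL2 hlam.le
      linarith only [this]
    have hy0 : (1 : ℝ) ≤ y := by
      refine le_trans ?_ hy1
      have g1 : 1 / lam ≤ ℓ := by linarith only [h1, hc2, hc3, hc4]
      rw [div_le_iff₀ hlam] at g1
      linarith only [g1]
    have hy1n : 1 ≤ y := by exact_mod_cast hy0
    have hRy : R ≤ ε * (y : ℝ) ^ (3 / 4 : ℝ) := by
      have g1 : (lam / 2 * L) ^ (3 / 4 : ℝ) ≤ (y : ℝ) ^ (3 / 4 : ℝ) := Real.rpow_le_rpow (by positivity) hLy (by norm_num)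
      rw [Real.mul_rpow (by positivity) hL0.le] at g1
      have g2 : R' ≤ L ^ (1 / 4 : ℝ) := by
        have g3 : R' ^ 4 ≤ L := by linarith only [h1, hLℓ, hc2, hc3, hc5]
        have g4 := Real.rpow_le_rpow (by positivity) g3 (show (0 : ℝ) ≤ 1 / 4 by norm_num)
        rw [← Real.rpow_natCast, ← Real.rpow_mul hR'0.le] at g4
        norm_num at g4
        exact g4
      have g5 : L ^ (3 / 4 : ℝ) = √L * L ^ (1 / 4 : ℝ) := by
        rw [Real.sqrt_eq_rpow, ← Real.rpow_add hL0]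
        norm_num
      have g6 : R = κ * (lam / 2) ^ (3 / 4 : ℝ) * R' := by
        rw [hR']
        field_simp
      calc R = κ * (lam / 2) ^ (3 / 4 : ℝ) * R' := g6
        _ ≤ κ * (lam / 2) ^ (3 / 4 : ℝ) * L ^ (1 / 4 : ℝ) := mul_le_mul_of_nonneg_left g2 (by positivity)
        _ = κ / √L * ((lam / 2) ^ (3 / 4 : ℝ) * L ^ (3 / 4 : ℝ)) := by rw [g5]; field_simp
        _ ≤ ε * (y : ℝ) ^ (3 / 4 : ℝ) := by
            rw [hε]
            exact mul_le_mul_of_nonneg_left g1 (by positivity)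
    have hyp : (0 : ℝ) < y := by linarith only [hy0]
    have hcond : (H1 : ℝ) * L ^ 18 ≤ ((4 * N : ℕ) : ℝ) := by
      calc (H1 : ℝ) * L ^ 18 ≤ (N / ℓ ^ 19) * (2 * ℓ) ^ 18 :=
            mul_le_mul hH1le (pow_le_pow_left₀ hL0.le hL2 18) (by positivity) (by positivity)
        _ = (262144 / ℓ) * N := by field_simp; norm_num
        _ ≤ 4 * N := by
            apply mul_le_mul_of_nonneg_right _ hN0.le
            rw [div_le_iff₀ hℓ0]
            linarith only [hℓ16]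
        _ = ((4 * N : ℕ) : ℝ) := by push_cast; ring
    obtain ⟨K, hK⟩ : ∃ K, K = Nat.sqrt N := ⟨_, rfl⟩
    have hKN : K ^ 2 ≤ N := by rw [hK, sq]; exact Nat.sqrt_le N
    have hK1 : 1 ≤ K := by rw [hK]; exact Nat.le_sqrt.2 (by omega)
    have hKle : K ≤ N := by rw [hK]; exact Nat.sqrt_le_self N
    have b1 := hN₁ (4 * N) hN1 ε hε0 hε1 (by rw [← hL]; exact hεQ) A B K y H1 hy1n hRy (by rw [← hL]; exact hLy)
      hcase.le (by omega) (by rw [← hL]; exact hcond) (fun a ha => by have := hA a ha; omega)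
      (fun n hn => ⟨(hB n hn).1, by rw [hK]; exact Nat.le_sqrt.2 (by have := (hB n hn).2; rw [sq] at this; exact this)⟩)
      (by omega) (fun a ha b hb => by rw [← hS] at hb; have := hA a ha; have := hSN b hb; omega)
    rw [← hS] at b1
    have b2 := hlong H1 le_rfl (by omega)
    -- the size of the bound
    have hKr : (K : ℝ) ^ 2 ≤ N := by exact_mod_cast hKN
    have c1 : Real.log ((2 * K : ℕ) : ℝ) ≤ L := by
      rw [hL]
      apply Real.log_le_log
      · exact_mod_cast (by omega : 0 < 2 * K)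
      · exact_mod_cast (by omega : 2 * K ≤ 4 * N)
    have c2 : 17 * (K : ℝ) ^ 2 * (1 + Real.log ((2 * K : ℕ) : ℝ)) ≤ 34 * (N * L) := by
      have g1 : 1 + Real.log ((2 * K : ℕ) : ℝ) ≤ 2 * L := by linarith only [c1, hLℓ, hℓ1]
      calc 17 * (K : ℝ) ^ 2 * (1 + Real.log ((2 * K : ℕ) : ℝ)) ≤ 17 * (N : ℝ) * (2 * L) := by
            apply mul_le_mul _ g1 _ (by positivity)
            · linarith only [hKr]
            · have := Real.log_natCast_nonneg (2 * K)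
              linarith only [this]
        _ = _ := by ring
    have c3 : √(C * ((4 * N : ℕ) : ℝ) * (17 * (K : ℝ) ^ 2 * (1 + Real.log ((2 * K : ℕ) : ℝ)))) ≤ N * D * √L := by
      apply Real.sqrt_le_iff.2
      refine ⟨by positivity, ?_⟩
      calc C * ((4 * N : ℕ) : ℝ) * (17 * (K : ℝ) ^ 2 * (1 + Real.log ((2 * K : ℕ) : ℝ))) ≤ C * ((4 * N : ℕ) : ℝ) * (34 * (N * L)) :=
            mul_le_mul_of_nonneg_left c2 (by positivity)
        _ = (136 * C) * ((N : ℝ) ^ 2 * (√L * √L)) := by rw [hsL2]; push_cast; ring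
        _ = _ := by rw [← hD2]; ring
    have c4 : ε * ((4 * N : ℕ) : ℝ) * √(C * ((4 * N : ℕ) : ℝ) * (17 * (K : ℝ) ^ 2 * (1 + Real.log ((2 * K : ℕ) : ℝ)))) ≤
        η ^ 2 * δ ^ 3 / 4 * (N : ℝ) ^ 2 := by
      calc _ ≤ ε * ((4 * N : ℕ) : ℝ) * (N * D * √L) := mul_le_mul_of_nonneg_left c3 (by positivity)
        _ = 4 * (N : ℝ) ^ 2 * D * (ε * √L) := by push_cast; ring
        _ = 4 * (N : ℝ) ^ 2 * (κ * D) := by
            have : ε * √L = κ := by rw [hε]; field_simp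
            rw [this]; ring
        _ ≤ 4 * (N : ℝ) ^ 2 * (η ^ 2 * δ ^ 3 / 16) := mul_le_mul_of_nonneg_left hκD (by positivity)
        _ = _ := by ring
    have c5 : δ ^ 3 * (N : ℝ) ^ 2 ≤ (A.card : ℝ) * (B.card : ℝ) ^ 2 := by
      have g1 : (δ * √(N : ℝ)) ^ 2 ≤ (B.card : ℝ) ^ 2 := pow_le_pow_left₀ (by positivity) hBc 2
      rw [mul_pow, Real.sq_sqrt hN0.le] at g1
      calc δ ^ 3 * (N : ℝ) ^ 2 = (δ * N) * (δ ^ 2 * N) := by ring
        _ ≤ _ := mul_le_mul hAc g1 (by positivity) (by positivity)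
    have b3 : |TT A S y / y - TT A S H1 / H1| ≤ (η / 2) * P := by
      refine b1.trans ?_
      rw [← Real.sqrt_mul (by positivity)]
      apply Real.sqrt_le_iff.2
      refine ⟨by positivity, ?_⟩
      calc (A.card : ℝ) * (ε * ((4 * N : ℕ) : ℝ) * √(C * ((4 * N : ℕ) : ℝ) * (17 * (K : ℝ) ^ 2 * (1 + Real.log ((2 * K : ℕ) : ℝ))))) ≤
            (A.card : ℝ) * (η ^ 2 * δ ^ 3 / 4 * (N : ℝ) ^ 2) := mul_le_mul_of_nonneg_left c4 hA0.le
        _ = (η ^ 2 / 4) * ((A.card : ℝ) * (δ ^ 3 * (N : ℝ) ^ 2)) := by ring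
        _ ≤ (η ^ 2 / 4) * ((A.card : ℝ) * ((A.card : ℝ) * (B.card : ℝ) ^ 2)) := by gcongr
        _ = _ := by rw [hP]; ring
    have b4 : |TT A S H1 / H1 - P| ≤ (η / 4) * P := by
      have e : TT A S H1 / H1 - P = (TT A S H1 - P * H1) / H1 := by field_simp
      rw [e, abs_div, abs_of_pos hH1pos', div_le_iff₀ hH1pos']
      linarith only [b2]
    have b5 : |TT A S y / y - P| ≤ η * P := by
      have := abs_sub_le (TT A S y / y) (TT A S H1 / H1) P
      have h0 : 0 ≤ η * P := by positivity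
      linarith only [this, b3, b4, h0]
    have e : TT A S y - P * y = (TT A S y / y - P) * y := by field_simp
    rw [e, abs_mul, abs_of_pos hyp]
    calc |TT A S y / y - P| * y ≤ (η * P) * y := by gcongr
      _ = _ := by ring

end Pool.Agent.V11316.AT
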