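import Pool.Agent.V11316.AT15

/-! Primes in windows above `a + n²`: counts, and exceptional translates. -/

set_option autoImplicit false

namespace Pool.Agent.V11316.AT
open Finset Filter
open Pool.Agent.W301.SS
open Pool.Agent.Y851.PS
open Pool.Agent.Y851.PT
open Pool.Agent.V11316.TB

lemma conv_up2 {A B : Finset ℕ} {X y : ℕ} (L : ℝ) (hL0 : 0 ≤ L) (hL : L ≤ Real.log (X : ℝ))
    (hX : 1 ≤ X) : L * PCs A B y ≤ TT A B y + L * ((X : ℝ) * B.card * y) := by
  classical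
  unfold PCs TT
  rw [mul_sum, ← sum_filter_add_sum_filter_not A (fun a => a < X),
    ← sum_filter_add_sum_filter_not A (fun a => a < X) (fun a => ∑ b ∈ B, ∑ h ∈ Ioc 0 y, om (a + b + h))]
  have h1 : ∑ a ∈ A.filter (fun a => a < X), L * ∑ b ∈ B, (pn (a + b) y : ℝ) ≤ L * ((X : ℝ) * B.card * y) := by
    have h2 : ∀ a ∈ A.filter (fun a => a < X), L * ∑ b ∈ B, (pn (a + b) y : ℝ) ≤ L * (B.card * y) := by
      intro a _
      apply mul_le_mul_of_nonneg_left _ hL0
      calc ∑ b ∈ B, (pn (a + b) y : ℝ) ≤ ∑ _b ∈ B, (y : ℝ) := by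
            apply sum_le_sum
            intro b _
            exact_mod_cast pn_le _ _
        _ = _ := by rw [sum_const, nsmul_eq_mul]
    refine (sum_le_sum h2).trans ?_
    rw [sum_const, nsmul_eq_mul]
    have h3 : ((A.filter (fun a => a < X)).card : ℝ) ≤ X := by
      have : (A.filter (fun a => a < X)).card ≤ X := by
        have h4 : A.filter (fun a => a < X) ⊆ range X := by
          intro a ha
          rw [mem_filter] at ha
          exact mem_range.2 ha.2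
        refine (card_le_card h4).trans ?_
        rw [card_range]
      exact_mod_cast this
    calc _ ≤ (X : ℝ) * (L * (B.card * y)) := mul_le_mul_of_nonneg_right h3 (by positivity)
      _ = _ := by ring
  have h2 : ∑ a ∈ A.filter (fun a => ¬ a < X), L * ∑ b ∈ B, (pn (a + b) y : ℝ) ≤
      ∑ a ∈ A.filter (fun a => ¬ a < X), ∑ b ∈ B, ∑ h ∈ Ioc 0 y, om (a + b + h) := by
    apply sum_le_sum
    intro a ha
    rw [mem_filter] at ha
    rw [mul_sum]
    apply sum_le_sum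
    intro b _
    rw [pn_eq, mul_sum]
    apply sum_le_sum
    intro h hh
    unfold om
    split_ifs with hp
    · rw [mul_one]
      refine hL.trans (Real.log_le_log ?_ ?_)
      · exact_mod_cast (by omega : 0 < X)
      · exact_mod_cast (by omega : X ≤ a + b + h)
    · rw [mul_zero]
  have h3 : 0 ≤ ∑ a ∈ A.filter (fun a => a < X), ∑ b ∈ B, ∑ h ∈ Ioc 0 y, om (a + b + h) :=
    sum_nonneg fun _ _ => sum_nonneg fun _ _ => sum_nonneg fun _ _ => om_nonneg _
  linarith only [h1, h2, h3]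

/-- **Sums over a dense set and a dense set of squares**: the number of primes. -/
theorem count_sq (lam δ η : ℝ) (hlam : 0 < lam) (hδ : 0 < δ) (hη : 0 < η) (hη1 : η ≤ 1) : ∀ᶠ N : ℕ in atTop,
    ∀ A B : Finset ℕ, (∀ a ∈ A, a ≤ N) → (∀ n ∈ B, 1 ≤ n ∧ n ^ 2 ≤ N) → δ * (N : ℝ) ≤ A.card → δ * √(N : ℝ) ≤ B.card →
    ∀ y : ℕ, lam * Real.log N ≤ y → y ≤ 2 * N →
      |PCs A (B.image (fun n => n ^ 2)) y * Real.log N - (A.card : ℝ) * B.card * y| ≤ η * ((A.card : ℝ) * B.card * y) := by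
  filter_upwards [theta_sq lam δ (η / 4) hlam hδ (by linarith only [hη]) (by linarith only [hη1]),
    ev_conv (η / 4) (by linarith only [hη]) (by linarith only [hη1]), ev_L 1,
    ev_log 2 ((4 / (η * δ)) ^ 2) (η / 4) (by linarith only [hη]), eventually_ge_atTop 16] with
    N h1 h2 h3 h4 hN16 A B hA hB hAc hBc y hy1 hy2
  obtain ⟨h5, X, hX1, hX2, hX3⟩ := h2
  have hNr : (16 : ℝ) ≤ N := by exact_mod_cast hN16
  have hN0 : (0 : ℝ) < N := by linarith only [hNr]
  have h6 := h1 A B hA hB hAc hBc y hy1 hy2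
  obtain ⟨ℓ, hℓ⟩ : ∃ ℓ, ℓ = Real.log N := ⟨_, rfl⟩
  obtain ⟨S, hS⟩ : ∃ S, S = B.image (fun n => n ^ 2) := ⟨_, rfl⟩
  have hScard : S.card = B.card := by rw [hS]; exact card_sq B
  have hSN : ∀ s ∈ S, s ≤ N := by
    intro s hs
    rw [hS, mem_image] at hs
    obtain ⟨n, hn, rfl⟩ := hs
    exact (hB n hn).2
  rw [← hS] at h6 ⊢
  obtain ⟨P, hP⟩ : ∃ P : ℝ, P = (A.card : ℝ) * B.card := ⟨_, rfl⟩
  rw [← hℓ] at h3 h4 h5 hX2 hX3 ⊢
  rw [← hP] at h6 ⊢
  have hℓ0 : 0 < ℓ := by linarith only [h3]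
  have hP0 : 0 ≤ P := by rw [hP]; positivity
  have h7 := conv_low hA hSN hy2 ((1 + η / 4) * ℓ) h5
  have h8 := conv_up2 (A := A) (B := S) (X := X) (y := y) ((1 - η / 4) * ℓ) (by nlinarith only [hη1, hℓ0]) hX2 hX1
  rw [hScard] at h8
  have hXr : (1 : ℝ) ≤ X := by exact_mod_cast hX1
  -- the small elements
  have hsmall : (1 - η / 4) * ℓ * X ≤ (η / 4) * (δ * N) := by
    have g1 : (ℓ * X) ^ 2 ≤ ((η * δ / 4) * N) ^ 2 := by
      have g2 : (X : ℝ) ^ 2 ≤ (N : ℝ) ^ (2 - η / 4) := by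
        have g3 : (1 - η / 4) * ℓ * (X : ℝ) ^ 2 ≤ η / 4 * (N : ℝ) ^ (2 - η / 4) := hX3
        have g4 : η / 4 ≤ (1 - η / 4) * ℓ := by nlinarith only [hη1, h3, hη]
        have g5 : η / 4 * (X : ℝ) ^ 2 ≤ η / 4 * (N : ℝ) ^ (2 - η / 4) :=
          (mul_le_mul_of_nonneg_right g4 (by positivity)).trans g3
        exact le_of_mul_le_mul_left g5 (by linarith only [hη])
      have g6 : ℓ ^ 2 ≤ (η * δ / 4) ^ 2 * (N : ℝ) ^ (η / 4) := by
        have g7 : ℓ ^ 2 = (η * δ / 4) ^ 2 * ((4 / (η * δ)) ^ 2 * ℓ ^ 2) := by field_simp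
        rw [g7]
        exact mul_le_mul_of_nonneg_left h4 (by positivity)
      have g8 : (N : ℝ) ^ (η / 4) * (N : ℝ) ^ (2 - η / 4) = (N : ℝ) ^ 2 := by
        rw [← Real.rpow_add hN0, show η / 4 + (2 - η / 4) = ((2 : ℕ) : ℝ) by push_cast; ring, Real.rpow_natCast]
      calc (ℓ * X) ^ 2 = ℓ ^ 2 * (X : ℝ) ^ 2 := by ring
        _ ≤ ((η * δ / 4) ^ 2 * (N : ℝ) ^ (η / 4)) * (N : ℝ) ^ (2 - η / 4) := mul_le_mul g6 g2 (by positivity) (by positivity)
        _ = (η * δ / 4) ^ 2 * ((N : ℝ) ^ (η / 4) * (N : ℝ) ^ (2 - η / 4)) := by ring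
        _ = _ := by rw [g8]; ring
    have g9 : ℓ * X ≤ (η * δ / 4) * N := (pow_le_pow_iff_left₀ (by positivity) (by positivity) (by norm_num)).1 g1
    have g10 : (1 - η / 4) * ℓ * X ≤ ℓ * X := by
      have : 0 ≤ η / 4 * (ℓ * X) := by positivity
      linarith only [this]
    linarith only [g9, g10]
  have h9 : (1 - η / 4) * ℓ * ((X : ℝ) * B.card * y) ≤ (η / 4) * (P * y) := by
    calc (1 - η / 4) * ℓ * ((X : ℝ) * B.card * y) = ((1 - η / 4) * ℓ * X) * (B.card * y) := by ring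
      _ ≤ ((η / 4) * (δ * N)) * (B.card * y) := mul_le_mul_of_nonneg_right hsmall (by positivity)
      _ ≤ ((η / 4) * A.card) * (B.card * y) := by
          apply mul_le_mul_of_nonneg_right _ (by positivity)
          exact mul_le_mul_of_nonneg_left hAc (by linarith only [hη])
      _ = _ := by rw [hP]; ring
  have hPy : 0 ≤ P * y := by positivity
  have hPC : 0 ≤ PCs A S y := by
    unfold PCs
    exact sum_nonneg fun _ _ => sum_nonneg fun _ _ => Nat.cast_nonneg _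
  rw [abs_le] at h6 ⊢
  obtain ⟨h61, h62⟩ := h6
  constructor
  · -- lower bound
    have b1 : (1 - η / 4) * (P * y) ≤ (1 + η / 4) * (PCs A S y * ℓ) := by
      calc (1 - η / 4) * (P * y) ≤ TT A S y := by linarith only [h61]
        _ ≤ _ := by linarith only [h7]
    have b2 : (1 - η) * (1 + η / 4) ≤ 1 - η / 4 := by nlinarith only [hη]
    have b3 : (1 + η / 4) * ((1 - η) * (P * y)) ≤ (1 + η / 4) * (PCs A S y * ℓ) := by
      refine le_trans ?_ b1
      calc (1 + η / 4) * ((1 - η) * (P * y)) = ((1 - η) * (1 + η / 4)) * (P * y) := by ring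
        _ ≤ _ := mul_le_mul_of_nonneg_right b2 hPy
    have b4 := le_of_mul_le_mul_left b3 (by linarith only [hη])
    linarith only [b4]
  · have b1 : (1 - η / 4) * (PCs A S y * ℓ) ≤ (1 + η / 2) * (P * y) := by
      calc (1 - η / 4) * (PCs A S y * ℓ) = (1 - η / 4) * ℓ * PCs A S y := by ring
        _ ≤ TT A S y + (1 - η / 4) * ℓ * ((X : ℝ) * B.card * y) := h8
        _ ≤ _ := by linarith only [h62, h9]
    have b2 : 1 + η / 2 ≤ (1 - η / 4) * (1 + η) := by nlinarith only [hη, hη1]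
    have b3 : (1 - η / 4) * (PCs A S y * ℓ) ≤ (1 - η / 4) * ((1 + η) * (P * y)) := by
      refine b1.trans ?_
      calc (1 + η / 2) * (P * y) ≤ ((1 - η / 4) * (1 + η)) * (P * y) :=
            mul_le_mul_of_nonneg_right b2 hPy
        _ = _ := by ring
    have b4 := le_of_mul_le_mul_left b3 (by linarith only [hη1])
    linarith only [b4]

lemma PCs_sq (A B : Finset ℕ) (y : ℕ) : PCs A (B.image (fun n => n ^ 2)) y = ∑ a ∈ A, ∑ n ∈ B, (pn (a + n ^ 2) y : ℝ) := by
  classical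
  unfold PCs
  apply sum_congr rfl
  intro a _
  rw [sum_image]
  intro n _ m _ h
  exact Nat.pow_left_injective (n := 2) (by norm_num) h

end Pool.Agent.V11316.AT
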