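import Pool.Agent.V11316.AT16

/-! Primes in windows above `n² + s` for almost all `s`. -/

set_option autoImplicit false

namespace Pool.Agent.V11316.AT
open Finset Filter
open Pool.Agent.W301.SS

/-- the sum over `n` -/
noncomputable def sq (B : Finset ℕ) (s y : ℕ) : ℝ := ∑ n ∈ B, (pn (n ^ 2 + s) y : ℝ)

/-- dense sets of `n` and of `s` -/
theorem trans_sq (lam δ η : ℝ) (hlam : 0 < lam) (hδ : 0 < δ) (hη : 0 < η) (hη1 : η ≤ 1) : ∀ᶠ X : ℕ in atTop,
    ∀ B : Finset ℕ, (∀ n ∈ B, 1 ≤ n ∧ n ≤ X) → δ * (X : ℝ) ≤ B.card →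
    ∀ A : Finset ℕ, (∀ s ∈ A, s ≤ X ^ 2) → δ * (X : ℝ) ^ 2 ≤ A.card → ∀ y : ℕ, lam * Real.log X ≤ y → y ≤ X ^ 2 →
      |(∑ s ∈ A, sq B s y) * (2 * Real.log X) - (A.card : ℝ) * B.card * y| ≤ η * ((A.card : ℝ) * B.card * y) := by
  obtain ⟨N₀, hN₀⟩ := eventually_atTop.1 (count_sq (lam / 2) δ η (by positivity) hδ hη hη1)
  filter_upwards [eventually_ge_atTop (max N₀ 1)] with X hX B hB hBc A hA hAc y hy1 hy2
  have hX1 : 1 ≤ X := (le_max_right _ _).trans hX
  have hXN : N₀ ≤ X ^ 2 := by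
    have h1 : N₀ ≤ X := (le_max_left _ _).trans hX
    have h2 : X ≤ X ^ 2 := Nat.le_self_pow (by norm_num) X
    omega
  have hlog : Real.log ((X ^ 2 : ℕ) : ℝ) = 2 * Real.log X := by
    push_cast
    rw [Real.log_pow]
    norm_num
  have hsqrt : √((X ^ 2 : ℕ) : ℝ) = X := by
    push_cast
    exact Real.sqrt_sq (Nat.cast_nonneg X)
  have h := hN₀ (X ^ 2) hXN A B hA (fun n hn => ⟨(hB n hn).1, Nat.pow_le_pow_left (hB n hn).2 2⟩)
    (by push_cast; exact hAc) (by rw [hsqrt]; exact hBc) y (by rw [hlog]; linarith only [hy1]) (by omega)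
  rw [hlog, PCs_sq] at h
  have e : ∑ a ∈ A, ∑ n ∈ B, (pn (a + n ^ 2) y : ℝ) = ∑ s ∈ A, sq B s y := by
    apply sum_congr rfl
    intro a _
    unfold sq
    apply sum_congr rfl
    intro n _
    rw [add_comm]
  rw [e] at h
  exact h

/-- the exceptional `s` -/
noncomputable def Exs (B : Finset ℕ) (X y : ℕ) (η : ℝ) : Finset ℕ := by
  classical
  exact (range (X ^ 2 + 1)).filter (fun s => η * (B.card * y) < |sq B s y * (2 * Real.log X) - B.card * y|)

theorem exc_sq (lam δ η : ℝ) (hlam : 0 < lam) (hδ : 0 < δ) (hη : 0 < η) (hη1 : η ≤ 1) : ∀ᶠ X : ℕ in atTop,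
    ∀ B : Finset ℕ, (∀ n ∈ B, 1 ≤ n ∧ n ≤ X) → δ * (X : ℝ) ≤ B.card → ∀ y : ℕ, lam * Real.log X ≤ y → y ≤ X ^ 2 →
      ((Exs B X y η).card : ℝ) ≤ δ * (X : ℝ) ^ 2 := by
  classical
  have hlogt : Tendsto (fun X : ℕ => Real.log (X : ℝ)) atTop atTop := Real.tendsto_log_atTop.comp tendsto_natCast_atTop_atTop
  filter_upwards [trans_sq lam (δ / 2) (η / 2) hlam (by positivity) (by positivity) (by linarith only [hη1, hη]),
    hlogt.eventually_gt_atTop 0, eventually_ge_atTop 1] with X h1 h2 hX1 B hB hBc y hy1 hy2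
  by_contra hcon
  rw [not_le] at hcon
  have hXr : (0 : ℝ) < X := by exact_mod_cast hX1
  have hB0 : (0 : ℝ) < B.card := lt_of_lt_of_le (by positivity) hBc
  have hy0 : (0 : ℝ) < y := lt_of_lt_of_le (by positivity) hy1
  have half : ∀ (t : ℝ), t = 1 ∨ t = -1 →
      (((range (X ^ 2 + 1)).filter (fun s => η * (B.card * y) < t * (sq B s y * (2 * Real.log X) - B.card * y))).card : ℝ) <
        δ / 2 * (X : ℝ) ^ 2 := by
    intro t ht
    by_contra hcon2
    rw [not_lt] at hcon2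
    obtain ⟨A, hA⟩ : ∃ A, A = (range (X ^ 2 + 1)).filter (fun s => η * (B.card * y) < t * (sq B s y * (2 * Real.log X) - B.card * y)) := ⟨_, rfl⟩
    rw [← hA] at hcon2
    have hA0 : (0 : ℝ) < A.card := lt_of_lt_of_le (by positivity) hcon2
    have h3 := h1 B hB (by linarith only [hBc, mul_pos hδ hXr]) A (fun s hs => by
      rw [hA, mem_filter, mem_range] at hs
      omega) hcon2 y hy1 hy2
    have h4 : (A.card : ℝ) * (η * (B.card * y)) ≤ t * ((∑ s ∈ A, sq B s y) * (2 * Real.log X) - (A.card : ℝ) * B.card * y) := by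
      have h5 : ∑ _s ∈ A, η * (B.card * y) ≤ ∑ s ∈ A, t * (sq B s y * (2 * Real.log X) - B.card * y) := by
        apply sum_le_sum
        intro s hs
        rw [hA, mem_filter] at hs
        exact hs.2.le
      rw [sum_const, nsmul_eq_mul, ← mul_sum, sum_sub_distrib, ← sum_mul, sum_const, nsmul_eq_mul] at h5
      refine h5.trans (le_of_eq ?_)
      ring
    have h6 : t * ((∑ s ∈ A, sq B s y) * (2 * Real.log X) - (A.card : ℝ) * B.card * y) ≤
        |(∑ s ∈ A, sq B s y) * (2 * Real.log X) - (A.card : ℝ) * B.card * y| := by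
      rcases ht with h | h
      · rw [h, one_mul]; exact le_abs_self _
      · rw [h, neg_one_mul]; exact neg_le_abs _
    have h7 : 0 < (A.card : ℝ) * B.card * y := by positivity
    have h8 := mul_pos hη h7
    linarith only [h3, h4, h6, h8]
  have h5 : (Exs B X y η).card ≤ ((range (X ^ 2 + 1)).filter (fun s => η * (B.card * y) < 1 * (sq B s y * (2 * Real.log X) - B.card * y))).card +
      ((range (X ^ 2 + 1)).filter (fun s => η * (B.card * y) < (-1) * (sq B s y * (2 * Real.log X) - B.card * y))).card := by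
    refine le_trans (card_le_card ?_) (card_union_le _ _)
    intro s hs
    unfold Exs at hs
    rw [mem_filter] at hs
    rw [mem_union, mem_filter, mem_filter]
    rcases lt_abs.1 hs.2 with h | h
    · left; exact ⟨hs.1, by rw [one_mul]; exact h⟩
    · right; exact ⟨hs.1, by rw [neg_one_mul]; exact h⟩
  have h6 := half 1 (Or.inl rfl)
  have h7 := half (-1) (Or.inr rfl)
  have h8 : ((Exs B X y η).card : ℝ) ≤ (((range (X ^ 2 + 1)).filter (fun s => η * (B.card * y) < 1 * (sq B s y * (2 * Real.log X) - B.card * y))).card : ℝ) +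
      (((range (X ^ 2 + 1)).filter (fun s => η * (B.card * y) < (-1) * (sq B s y * (2 * Real.log X) - B.card * y))).card : ℝ) := by
    exact_mod_cast h5
  linarith only [h6, h7, h8, hcon]

/-- the length `(log_2 n)²` -/
noncomputable def len (n : ℕ) : ℕ := ⌊Real.logb 2 n ^ 2⌋₊

/-- the sum over `n` of the numbers of primes in windows of length `(log_2 n)²` -/
noncomputable def sql (B : Finset ℕ) (s : ℕ) : ℝ := ∑ n ∈ B, (pn (n ^ 2 + s) (len n) : ℝ)

theorem len_sq (δ η : ℝ) (hδ : 0 < δ) (hη : 0 < η) (hη1 : η ≤ 1) : ∀ᶠ X : ℕ in atTop,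
    ∀ B : Finset ℕ, (∀ n ∈ B, 1 ≤ n ∧ n ≤ X) → δ * (X : ℝ) ≤ B.card →
      (((range (X ^ 2 + 1)).filter (fun s => ¬ |sql B s * (2 * Real.log X) - B.card * Real.logb 2 X ^ 2| ≤
        η * (B.card * Real.logb 2 X ^ 2))).card : ℝ) ≤ δ * (X : ℝ) ^ 2 := by
  classical
  have hlog2 : 0 < Real.log 2 := Real.log_pos (by norm_num)
  have tN : Tendsto (fun X : ℕ => (X : ℝ)) atTop atTop := tendsto_natCast_atTop_atTop
  have hlogt : Tendsto (fun X : ℕ => Real.log (X : ℝ)) atTop atTop := Real.tendsto_log_atTop.comp tN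
  obtain ⟨κ, hκ⟩ : ∃ κ, κ = δ * η / 8 := ⟨_, rfl⟩
  have hκ0 : 0 < κ := by rw [hκ]; positivity
  have hsmall := (Real.isLittleO_pow_log_id_atTop (n := 2)).bound (c := Real.log 2 ^ 2) (by positivity)
  have hsmall2 := tN.eventually hsmall
  filter_upwards [exc_sq 1 (δ / 2) (η / 4) one_pos (by positivity) (by positivity) (by linarith only [hη1, hη]),
    hlogt.eventually_ge_atTop (16 + 16 / η * |Real.log κ| + 16 / η), eventually_ge_atTop 2, hsmall2] with X h1 h2 hX2 h3 B hB hBc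
  have hXr : (2 : ℝ) ≤ X := by exact_mod_cast hX2
  have hX0 : (0 : ℝ) < X := by linarith only [hXr]
  obtain ⟨ℓ, hℓ⟩ : ∃ ℓ, ℓ = Real.log X := ⟨_, rfl⟩
  obtain ⟨Λ, hΛ⟩ : ∃ Λ, Λ = Real.logb 2 X ^ 2 := ⟨_, rfl⟩
  have hΛ2 : Λ = ℓ ^ 2 / Real.log 2 ^ 2 := by rw [hΛ, hℓ, Real.logb, div_pow]
  rw [← hℓ] at h2
  have hab : 0 ≤ 16 / η * |Real.log κ| := by positivity
  have hab2 : 0 < 16 / η := by positivity
  have hℓ16 : 16 ≤ ℓ := by linarith only [h2, hab, hab2]
  have hℓ0 : 0 < ℓ := by linarith only [hℓ16]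
  have hlog2' : Real.log 2 < 1 := by
    have := Real.log_two_lt_d9
    linarith only [this]
  have hΛℓ : ℓ ^ 2 ≤ Λ := by
    rw [hΛ2, le_div_iff₀ (by positivity)]
    have : Real.log 2 ^ 2 ≤ 1 := pow_le_one₀ hlog2.le hlog2'.le
    exact mul_le_of_le_one_right (by positivity) this
  have hℓℓ : 16 * ℓ ≤ ℓ ^ 2 := by nlinarith only [hℓ16]
  have hΛ0 : 0 < Λ := by linarith only [hΛℓ, hℓℓ, hℓ0]
  have hB0 : (0 : ℝ) < B.card := lt_of_lt_of_le (by positivity) hBc
  rw [← hΛ]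
  -- the long and the short length
  obtain ⟨Y, hY⟩ : ∃ Y : ℕ, Y = ⌊Λ⌋₊ := ⟨_, rfl⟩
  obtain ⟨Z, hZ⟩ : ∃ Z : ℕ, Z = ⌊(1 - η / 4) * Λ⌋₊ := ⟨_, rfl⟩
  have hYle : (Y : ℝ) ≤ Λ := by rw [hY]; exact Nat.floor_le hΛ0.le
  have hη4 : 0 ≤ 1 - η / 4 := by linarith only [hη1]
  have hZle : (Z : ℝ) ≤ (1 - η / 4) * Λ := by rw [hZ]; exact Nat.floor_le (by positivity)
  have hZlt : (1 - η / 4) * Λ < Z + 1 := by rw [hZ]; exact Nat.lt_floor_add_one _
  have hYlt : Λ < Y + 1 := by rw [hY]; exact Nat.lt_floor_add_one _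
  have hone : 1 ≤ η / 16 * Λ := by
    have g1 : 16 / η ≤ ℓ := by linarith only [h2, hab, hℓ16]
    rw [div_le_iff₀ hη] at g1
    have g2 : ℓ ≤ Λ := by linarith only [hΛℓ, hℓℓ, hℓ0]
    have g3 : η * ℓ ≤ η * Λ := mul_le_mul_of_nonneg_left g2 hη.le
    linarith only [g1, g3]
  have hYX : Y ≤ X ^ 2 := by
    have g1 : (Y : ℝ) ≤ X := by
      refine hYle.trans ?_
      rw [hΛ2, div_le_iff₀ (by positivity)]
      have g2 : ‖Real.log (X : ℝ) ^ 2‖ ≤ Real.log 2 ^ 2 * ‖id (X : ℝ)‖ := h3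
      rw [Real.norm_of_nonneg (by positivity), id, Real.norm_of_nonneg hX0.le, ← hℓ] at g2
      linarith only [g2]
    have g2 : Y ≤ X := by exact_mod_cast g1
    exact g2.trans (Nat.le_self_pow (by norm_num) X)
  have hZY : Z ≤ Y := by
    have g1 : (Z : ℝ) < Y + 1 := by
      have : (1 - η / 4) * Λ ≤ Λ := by
        have : 0 ≤ η / 4 * Λ := by positivity
        linarith only [this]
      linarith only [hZle, hYlt, this]
    have : Z < Y + 1 := by exact_mod_cast g1
    omega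
  have hZℓ : 1 * ℓ ≤ Z := by
    have g1 : 3 / 4 * Λ ≤ (1 - η / 4) * Λ := mul_le_mul_of_nonneg_right (by linarith only [hη1]) hΛ0.le
    linarith only [g1, hZlt, hΛℓ, hℓℓ, hℓ16]
  have hYℓ : 1 * ℓ ≤ Y := hZℓ.trans (by exact_mod_cast hZY)
  -- the large elements
  obtain ⟨B', hB'⟩ : ∃ B', B' = B.filter (fun n : ℕ => κ * X ≤ n) := ⟨_, rfl⟩
  have hB'sub : B' ⊆ B := by rw [hB']; exact filter_subset _ _
  have hBB' : (B.card : ℝ) ≤ B'.card + κ * X := by
    have g1 : B.card = (B.filter (fun n : ℕ => κ * X ≤ n)).card + (B.filter (fun n : ℕ => ¬ κ * X ≤ n)).card :=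
      (card_filter_add_card_filter_not _).symm
    have g2 : ((B.filter (fun n : ℕ => ¬ κ * X ≤ n)).card : ℝ) ≤ κ * X := by
      have g3 : B.filter (fun n : ℕ => ¬ κ * X ≤ n) ⊆ Icc 1 ⌊κ * X⌋₊ := by
        intro n hn
        rw [mem_filter, not_le] at hn
        rw [mem_Icc]
        exact ⟨(hB n hn.1).1, Nat.le_floor hn.2.le⟩
      have g4 := card_le_card g3
      rw [Nat.card_Icc, Nat.add_sub_cancel] at g4
      have g5 : ((B.filter (fun n : ℕ => ¬ κ * X ≤ n)).card : ℝ) ≤ (⌊κ * X⌋₊ : ℝ) := by exact_mod_cast g4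
      exact g5.trans (Nat.floor_le (by positivity))
    rw [← hB'] at g1
    have g6 : (B.card : ℝ) = (B'.card : ℝ) + ((B.filter (fun n : ℕ => ¬ κ * X ≤ n)).card : ℝ) := by exact_mod_cast g1
    linarith only [g6, g2]
  have hκB : κ * X ≤ η / 8 * B.card := by
    rw [hκ]
    calc δ * η / 8 * X = η / 8 * (δ * X) := by ring
      _ ≤ _ := mul_le_mul_of_nonneg_left hBc (by positivity)
  have hB'c : (1 - η / 8) * (B.card : ℝ) ≤ B'.card := by linarith only [hBB', hκB]
  have hB'δ : δ / 2 * (X : ℝ) ≤ B'.card := by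
    have g1 : 1 / 2 * (B.card : ℝ) ≤ (1 - η / 8) * (B.card : ℝ) := mul_le_mul_of_nonneg_right (by linarith only [hη1]) hB0.le
    linarith only [g1, hB'c, hBc]
  have e1 := h1 B hB (by linarith only [hBc, mul_pos hδ hX0]) Y (by rw [← hℓ]; exact hYℓ) hYX
  have e2 := h1 B' (fun n hn => hB n (hB'sub hn)) hB'δ Z (by rw [← hℓ]; exact hZℓ) (hZY.trans hYX)
  -- lengths of the windows
  have hlen1 : ∀ n ∈ B, len n ≤ Y := by
    intro n hn
    obtain ⟨n1, n2⟩ := hB n hn
    rw [hY, hΛ]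
    unfold len
    apply Nat.floor_le_floor
    have hn0 : (0 : ℝ) < n := by exact_mod_cast (by omega : 0 < n)
    apply pow_le_pow_left₀
    · exact Real.logb_nonneg (by norm_num) (by exact_mod_cast n1)
    · exact Real.logb_le_logb_of_le (by norm_num) hn0 (by exact_mod_cast n2)
  have hlen2 : ∀ n ∈ B', Z ≤ len n := by
    intro n hn
    rw [hB', mem_filter] at hn
    obtain ⟨n1, n2⟩ := hB n hn.1
    have hn0 : (0 : ℝ) < n := by exact_mod_cast (by omega : 0 < n)
    rw [hZ]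
    unfold len
    apply Nat.floor_le_floor
    have g1 : Real.log κ + ℓ ≤ Real.log n := by
      rw [hℓ, ← Real.log_mul hκ0.ne' hX0.ne']
      exact Real.log_le_log (by positivity) hn.2
    have g2 : (1 - η / 16) * ℓ ≤ Real.log n := by
      have g3 : |Real.log κ| ≤ η / 16 * ℓ := by
        have g4 : 16 / η * |Real.log κ| ≤ ℓ := by linarith only [h2, hab2]
        calc |Real.log κ| = η / 16 * (16 / η * |Real.log κ|) := by field_simp
          _ ≤ _ := mul_le_mul_of_nonneg_left g4 (by positivity)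
      have := neg_abs_le (Real.log κ)
      linarith only [this, g1, g3]
    have g5 : ((1 - η / 16) * ℓ) ^ 2 ≤ Real.log n ^ 2 := pow_le_pow_left₀ (mul_nonneg (by linarith only [hη1]) hℓ0.le) g2 2
    rw [Real.logb, div_pow, hΛ2, ← mul_div_assoc]
    apply div_le_div_of_nonneg_right _ (by positivity)
    refine le_trans ?_ g5
    rw [mul_pow]
    apply mul_le_mul_of_nonneg_right _ (by positivity)
    nlinarith only [hη]
  -- the exceptional set
  have hsub : (range (X ^ 2 + 1)).filter (fun s => ¬ |sql B s * (2 * Real.log X) - B.card * Λ| ≤ η * (B.card * Λ)) ⊆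
      Exs B X Y (η / 4) ∪ Exs B' X Z (η / 4) := by
    intro s hs
    rw [mem_filter] at hs
    by_contra hcon
    rw [mem_union, not_or] at hcon
    obtain ⟨c1, c2⟩ := hcon
    unfold Exs at c1 c2
    rw [mem_filter, not_and, not_lt] at c1 c2
    have d1 := abs_le.1 (c1 hs.1)
    have d2 := abs_le.1 (c2 hs.1)
    apply hs.2
    have u1 : sql B s ≤ sq B s Y := by
      unfold sql sq
      apply sum_le_sum
      intro n hn
      exact_mod_cast pn_mono (hlen1 n hn)
    have u2 : sq B' s Z ≤ sql B s := by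
      have u3 : sq B' s Z ≤ sql B' s := by
        unfold sql sq
        apply sum_le_sum
        intro n hn
        exact_mod_cast pn_mono (hlen2 n hn)
      refine u3.trans ?_
      unfold sql
      exact sum_le_sum_of_subset_of_nonneg hB'sub (fun _ _ _ => Nat.cast_nonneg _)
    rw [← hℓ] at d1 d2 ⊢
    have v1 := mul_le_mul_of_nonneg_right u1 (show 0 ≤ 2 * ℓ by positivity)
    have v2 := mul_le_mul_of_nonneg_right u2 (show 0 ≤ 2 * ℓ by positivity)
    have w1 : (B.card : ℝ) * Y ≤ B.card * Λ := mul_le_mul_of_nonneg_left hYle hB0.le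
    have w2 : η / 4 * ((B.card : ℝ) * Y) ≤ η / 4 * (B.card * Λ) := mul_le_mul_of_nonneg_left w1 (by positivity)
    have w3 : 0 ≤ η * (B.card * Λ) := by positivity
    rw [abs_le]
    constructor
    · -- lower bound
      have x1 : (1 - η / 4 - η / 16) * Λ ≤ Z := by linarith only [hZlt, hone]
      have x2 : (1 - η / 8) * (B.card : ℝ) * ((1 - η / 4 - η / 16) * Λ) ≤ (B'.card : ℝ) * Z := by
        apply mul_le_mul hB'c x1
        · exact mul_nonneg (by linarith only [hη1]) hΛ0.le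
        · positivity
      have x3 : (1 - η / 4) * ((1 - η / 8) * (B.card : ℝ) * ((1 - η / 4 - η / 16) * Λ)) ≤ (1 - η / 4) * ((B'.card : ℝ) * Z) :=
        mul_le_mul_of_nonneg_left x2 hη4
      have x4 : (1 - η) * (B.card * Λ) ≤ (1 - η / 4) * ((1 - η / 8) * (B.card : ℝ) * ((1 - η / 4 - η / 16) * Λ)) := by
        have x5 : 1 - η ≤ (1 - η / 4) * ((1 - η / 8) * (1 - η / 4 - η / 16)) := by nlinarith only [hη, hη1, mul_pos hη hη, mul_pos (mul_pos hη hη) hη]
        calc (1 - η) * (B.card * Λ) ≤ ((1 - η / 4) * ((1 - η / 8) * (1 - η / 4 - η / 16))) * (B.card * Λ) :=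
              mul_le_mul_of_nonneg_right x5 (by positivity)
          _ = _ := by ring
      linarith only [d2.1, v2, x3, x4]
    · linarith only [d1.2, v1, w1, w2, w3]
  have h6 : (((range (X ^ 2 + 1)).filter (fun s => ¬ |sql B s * (2 * Real.log X) - B.card * Λ| ≤ η * (B.card * Λ))).card : ℝ) ≤
      ((Exs B X Y (η / 4)).card : ℝ) + ((Exs B' X Z (η / 4)).card : ℝ) := by
    exact_mod_cast (card_le_card hsub).trans (card_union_le _ _)
  linarith only [h6, e1, e2]

end Pool.Agent.V11316.AT
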