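import Pool.Agent.V11316.AT9
import Pool.Agent.V11316.AT17

/-! Tables with entries `(f a)² + g c`, with arbitrary injective `f`, `g` which depend on the cell. -/

set_option autoImplicit false

namespace Pool.Agent.V11316.AT
open Finset Filter
open Pool.Agent.W301.SS
open Pool.Agent.Y851.PS
open Pool.Agent.Y851.PT
open Pool.Agent.V11316.TB

/-- the labels of the rows are injective with values in `[1, X]`, those of the columns are injective with values at most `X²`, and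
the length is between `λ log X` and `X²` -/
structure LabS (lam : ℝ) (X : ℕ) (A C : Finset ℕ) (q : Lb) : Prop where
  injA : Set.InjOn q.1 A
  injC : Set.InjOn q.2.1 C
  leA : ∀ a ∈ A, 1 ≤ q.1 a ∧ q.1 a ≤ X
  leC : ∀ c ∈ C, q.2.1 c ≤ X ^ 2
  len : lam * Real.log X ≤ q.2.2
  len' : q.2.2 ≤ X ^ 2

/-- the density of the window above `(f a)² + g c` -/
noncomputable def SW (X : ℕ) (q : Lb) (a c : ℕ) : ℝ := AW (X ^ 2) q.2.2 (q.1 a ^ 2) (q.2.1 c)

lemma SW_nonneg (X : ℕ) (q : Lb) (a c : ℕ) : 0 ≤ SW X q a c := AW_nonneg _ _ _ _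

lemma log_X2 (X : ℕ) : Real.log ((X ^ 2 : ℕ) : ℝ) = 2 * Real.log X := by
  push_cast
  rw [Real.log_pow]
  norm_num

/-- **The cut norm for the squares.** -/
theorem cut_squares (lam d ε : ℝ) (hlam : 0 < lam) (hd : 0 < d) (hε : 0 < ε) : ∀ᶠ X : ℕ in atTop,
    ∀ A C : Finset ℕ, (∀ a ∈ A, 1 ≤ a ∧ a ≤ X) → (∀ c ∈ C, c ≤ X ^ 2) → d * (X : ℝ) ≤ A.card → d * (X : ℝ) ^ 2 ≤ C.card →
    ∀ H : ℕ, lam * Real.log X ≤ H → H ≤ X ^ 2 → Cut A C (fun a c => AW (X ^ 2) H (a ^ 2) c) ε := by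
  have hη : 0 < min 1 (ε / 4) := lt_min one_pos (by linarith only [hε])
  have hlogt : Tendsto (fun X : ℕ => Real.log (X : ℝ)) atTop atTop := Real.tendsto_log_atTop.comp tendsto_natCast_atTop_atTop
  filter_upwards [trans_sq lam (d / 2) (min 1 (ε / 4)) hlam (by positivity) hη (min_le_left _ _),
    hlogt.eventually_gt_atTop 0] with X hX hl A C hA hC hAc hCc H hH1 hH2
  have hH0 : (0 : ℝ) < H := lt_of_lt_of_le (mul_pos hlam hl) hH1
  have key := cut_halves A C (fun a c => AW (X ^ 2) H (a ^ 2) c - 1) (ε / 4 * (A.card * C.card)) (by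
    intro A' hA' C' hC' h1 h2
    have h1r : (A.card : ℝ) ≤ 2 * A'.card := by exact_mod_cast h1
    have h2r : (C.card : ℝ) ≤ 2 * C'.card := by exact_mod_cast h2
    have h3 := hX A' (fun a ha => hA a (hA' ha)) (by linarith only [hAc, h1r]) C' (fun c hc => hC c (hC' hc))
      (by linarith only [hCc, h2r]) H hH1 hH2
    have e0 : ∑ s ∈ C', sq A' s H = ∑ a ∈ A', ∑ c ∈ C', (pn (a ^ 2 + c) H : ℝ) := by
      unfold sq
      exact sum_comm
    have e : ∑ a ∈ A', ∑ c ∈ C', (AW (X ^ 2) H (a ^ 2) c - 1) =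
        ((∑ s ∈ C', sq A' s H) * (2 * Real.log X) - (C'.card : ℝ) * A'.card * H) / H := by
      rw [e0]
      unfold AW
      rw [log_X2]
      simp_rw [sum_sub_distrib, sum_const, nsmul_eq_mul, ← sum_div, ← sum_mul]
      field_simp
    rw [e, abs_div, abs_of_pos hH0, div_le_iff₀ hH0]
    refine h3.trans ?_
    have g1 : (C'.card : ℝ) * A'.card ≤ C.card * A.card := by
      have := card_le_card hA'
      have := card_le_card hC'
      gcongr
    have g2 : 0 ≤ (C'.card : ℝ) * A'.card * H := by positivity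
    calc min 1 (ε / 4) * ((C'.card : ℝ) * A'.card * H) ≤ (ε / 4) * ((C'.card : ℝ) * A'.card * H) :=
          mul_le_mul_of_nonneg_right (min_le_right _ _) g2
      _ ≤ (ε / 4) * ((C.card : ℝ) * A.card * H) := by gcongr
      _ = _ := by ring)
  intro A' hA' C' hC'
  exact (key A' hA' C' hC').trans (le_of_eq (by ring))

lemma LabS.cut {lam d ε : ℝ} {X : ℕ} {A C : Finset ℕ} {q : Lb} (h : LabS lam X A C q) (hA : d * (X : ℝ) ≤ A.card)
    (hC : d * (X : ℝ) ^ 2 ≤ C.card)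
    (hcut : ∀ A C : Finset ℕ, (∀ a ∈ A, 1 ≤ a ∧ a ≤ X) → (∀ c ∈ C, c ≤ X ^ 2) → d * (X : ℝ) ≤ A.card →
      d * (X : ℝ) ^ 2 ≤ C.card → ∀ H : ℕ, lam * Real.log X ≤ H → H ≤ X ^ 2 → Cut A C (fun a c => AW (X ^ 2) H (a ^ 2) c) ε) :
    Cut A C (SW X q) ε := by
  have e1 : (A.image q.1).card = A.card := card_image_of_injOn h.injA
  have e2 : (C.image q.2.1).card = C.card := card_image_of_injOn h.injC
  have key := hcut (A.image q.1) (C.image q.2.1)
    (by intro a ha; rw [mem_image] at ha; obtain ⟨x, hx, rfl⟩ := ha; exact h.leA x hx)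
    (by intro a ha; rw [mem_image] at ha; obtain ⟨x, hx, rfl⟩ := ha; exact h.leC x hx)
    (by rw [e1]; exact hA) (by rw [e2]; exact hC) q.2.2 h.len h.len'
  intro A' hA' C' hC'
  have k2 := key (A'.image q.1) (image_subset_image hA') (C'.image q.2.1) (image_subset_image hC')
  rw [e1, e2] at k2
  have e3 : ∑ a ∈ A', ∑ c ∈ C', (SW X q a c - 1) =
      ∑ a ∈ A'.image q.1, ∑ c ∈ C'.image q.2.1, (AW (X ^ 2) q.2.2 (a ^ 2) c - 1) :=
    sum_img (h.injA.mono (by exact_mod_cast hA')) (h.injC.mono (by exact_mod_cast hC'))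
      (fun a c => AW (X ^ 2) q.2.2 (a ^ 2) c - 1)
  rw [e3]
  exact k2

/-- all moments up to `m₀` -/
theorem mom_squares (m₀ : ℕ) (lam d : ℝ) (hlam : 0 < lam) (hd : 0 < d) : ∃ M : ℝ, 1 ≤ M ∧ ∀ᶠ X : ℕ in atTop,
    ∀ A C : Finset ℕ, d * (X : ℝ) ^ 2 ≤ C.card → ∀ q : Lb, LabS lam X A C q → Mom m₀ A C (SW X q) M := by
  choose M hM hev using mom_dense (lam / 2) d (by positivity) hd
  have hsum : 0 ≤ ∑ m ∈ range m₀, M m := sum_nonneg fun m _ => zero_le_one.trans (hM m)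
  refine ⟨1 + ∑ m ∈ range m₀, M m, by linarith only [hsum], ?_⟩
  have hall := (eventually_all_finset (range m₀)).2 fun m _ => hev m
  obtain ⟨N₁, hN₁⟩ := eventually_atTop.1 hall
  filter_upwards [eventually_ge_atTop N₁] with X hX A C hC q hq
  have hXN : N₁ ≤ X ^ 2 := hX.trans (Nat.le_self_pow (by norm_num) X)
  intro m hm a ha
  have hCc : (0 : ℝ) ≤ C.card := Nat.cast_nonneg _
  rcases m with _ | m
  · simp only [pow_zero, sum_const, nsmul_eq_mul, mul_one]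
    have := mul_nonneg hsum hCc
    linarith only [this]
  · have e2 : (C.image q.2.1).card = C.card := card_image_of_injOn hq.injC
    have e3 : ∑ c ∈ C, SW X q a c ^ (m + 1) = ∑ c ∈ C.image q.2.1, AW (X ^ 2) q.2.2 (q.1 a ^ 2) c ^ (m + 1) := by
      rw [sum_image hq.injC]
      rfl
    rw [e3]
    refine (hN₁ (X ^ 2) hXN m (mem_range.2 (by omega)) (C.image q.2.1)
      (by intro c hc; rw [mem_image] at hc; obtain ⟨x, hx, rfl⟩ := hc; exact hq.leC x hx) (by rw [e2]; push_cast; exact hC)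
      (q.1 a ^ 2) (Nat.pow_le_pow_left (hq.leA a ha).2 2) q.2.2 (by rw [log_X2]; have := hq.len; linarith only [this]) hq.len').trans ?_
    rw [e2]
    apply mul_le_mul_of_nonneg_right _ hCc
    have := single_le_sum (f := M) (fun i _ => zero_le_one.trans (hM i)) (mem_range.2 (show m < m₀ by omega))
    linarith only [this]

open Classical in
/-- **patterns in tables** -/
theorem squares_table (r s k l : ℕ) (lam d δ η : ℝ) (hlam : 0 < lam) (hd : 0 < d) (hδ : 0 < δ) (hδ1 : δ ≤ 1) (hη : 0 < η) :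
    ∃ κ : ℝ, 0 < κ ∧ ∀ᶠ X : ℕ in atTop, ∀ A C : Finset ℕ, d * (X : ℝ) ≤ A.card → d * (X : ℝ) ^ 2 ≤ C.card →
    ∀ (σ : Fin r → Fin l → Bool × Lb) (τ : Fin k → Fin s → Bool × Lb) (υ : Fin k → Fin l → Bool × Lb),
    (∀ i j, LabS lam X A C (σ i j).2) → (∀ i j, LabS lam X A C (τ i j).2) → (∀ i j, LabS lam X A C (υ i j).2) →
    (((Fintype.piFinset (fun _ : Fin r => A) ×ˢ Fintype.piFinset (fun _ : Fin s => C)).filter (fun z => ¬
      (κ * ((A.card : ℝ) ^ k * (C.card : ℝ) ^ l) ≤ ((Comp δ σ τ υ A C (SW X) z.1 z.2).card : ℝ)))).card : ℝ) ≤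
      η * ((A.card : ℝ) ^ r * (C.card : ℝ) ^ s) := by
  obtain ⟨M, hM, hm⟩ := mom_squares 2 lam d hlam hd
  obtain ⟨κ, δ₂, hκ, hδ₂, ht⟩ := table ℕ ℕ r s k l M δ η hM hδ hδ1 hη
  refine ⟨κ, hκ, ?_⟩
  filter_upwards [cut_squares lam d δ₂ hlam hd hδ₂, hm] with X hcut hmom A C hA hC σ τ υ hσ hτ hυ
  refine ht {q : Lb // LabS lam X A C q} (fun i j => ((σ i j).1, ⟨(σ i j).2, hσ i j⟩)) (fun i j => ((τ i j).1, ⟨(τ i j).2, hτ i j⟩))
    (fun i j => ((υ i j).1, ⟨(υ i j).2, hυ i j⟩)) A C (fun q => SW X q.1) (fun q a _ c _ => SW_nonneg _ _ _ _)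
    (fun q => q.2.cut hA hC hcut) (fun q => ?_)
  have h1 : ∀ a ∈ A, ∑ c ∈ C, SW X q.1 a c ^ 2 ≤ M * C.card := fun a ha => hmom A C hC q.1 q.2 2 le_rfl a ha
  refine (sum_le_sum h1).trans (le_of_eq ?_)
  rw [sum_const, nsmul_eq_mul]
  ring

/-- the weight of a cell: the density of its window, or `1` -/
noncomputable def wS (X : ℕ) (o : Option Lb) (a c : ℕ) : ℝ := match o with
  | none => 1
  | some q => SW X q a c

open Classical in
/-- **the asymptotic formula in tables** -/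
theorem squares_asym (r s k l : ℕ) (lam d δ : ℝ) (hlam : 0 < lam) (hd : 0 < d) (hδ : 0 < δ) :
    ∀ᶠ X : ℕ in atTop, ∀ A C : Finset ℕ, d * (X : ℝ) ≤ A.card → d * (X : ℝ) ^ 2 ≤ C.card →
    ∀ (σ : Fin r → Fin l → Option Lb) (τ : Fin k → Fin s → Option Lb) (υ : Fin k → Fin l → Option Lb),
    (∀ i j, ∀ q ∈ σ i j, LabS lam X A C q) → (∀ i j, ∀ q ∈ τ i j, LabS lam X A C q) → (∀ i j, ∀ q ∈ υ i j, LabS lam X A C q) →
    (((Fintype.piFinset (fun _ : Fin r => A) ×ˢ Fintype.piFinset (fun _ : Fin s => C)).filter (fun z =>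
      δ * ((A.card : ℝ) ^ k * (C.card : ℝ) ^ l) <
      |∑ a' ∈ Fintype.piFinset (fun _ : Fin k => A), ∑ c' ∈ Fintype.piFinset (fun _ : Fin l => C), cells (wS X) σ τ υ z.1 z.2 a' c' -
        (A.card : ℝ) ^ k * (C.card : ℝ) ^ l|)).card : ℝ) ≤
      δ * ((A.card : ℝ) ^ r * (C.card : ℝ) ^ s) := by
  obtain ⟨M, hM, hm⟩ := mom_squares (4 * (r + k) + 3) lam d hlam hd
  obtain ⟨δ₂, hδ₂, ht⟩ := asym_good ℕ ℕ r s k l M δ hM hδ
  filter_upwards [cut_squares lam d δ₂ hlam hd hδ₂, hm] with X hcut hmom A C hA hC σ τ υ hσ hτ hυ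
  have hcard : (0 : ℝ) ≤ C.card := Nat.cast_nonneg _
  have hFam : Fam (4 * (r + k) + 3) A C (fun (o : {o : Option Lb // ∀ q ∈ o, LabS lam X A C q}) => wS X o.1) M δ₂ := by
    refine ⟨?_, ?_, ?_⟩
    · rintro ⟨o, ho⟩ a _ c _
      rcases o with _ | q
      · exact zero_le_one
      · exact SW_nonneg _ _ _ _
    · rintro ⟨o, ho⟩
      rcases o with _ | q
      · intro A' _ C' _
        simp only [wS, sub_self, sum_const_zero, abs_zero]
        positivity
      · exact (ho q rfl).cut hA hC hcut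
    · rintro ⟨o, ho⟩
      rcases o with _ | q
      · intro m _ a _
        simp only [wS, one_pow, sum_const, nsmul_eq_mul, mul_one]
        calc (C.card : ℝ) = 1 * C.card := (one_mul _).symm
          _ ≤ M * C.card := mul_le_mul_of_nonneg_right hM hcard
      · exact hmom A C hC q (ho q rfl)
  exact ht {o : Option Lb // ∀ q ∈ o, LabS lam X A C q} (fun i j => ⟨σ i j, hσ i j⟩) (fun i j => ⟨τ i j, hτ i j⟩)
    (fun i j => ⟨υ i j, hυ i j⟩) A C (fun o => wS X o.1) hFam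

end Pool.Agent.V11316.AT
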