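import Pool.Agent.V11316.AT18

/-! Patterns in tables with entries `n² + s`, for windows of length `(log_2 n)²`. -/

set_option autoImplicit false

namespace Pool.Agent.V11316.AT
open Finset Filter
open Pool.Agent.W301.SS
open Pool.Agent.Y851.PS
open Pool.Agent.Y851.PT
open Pool.Agent.V11316.TB

/-- the lengths `(log_2 n)²` for `κ X ≤ n ≤ X` -/
lemma len_facts (κ η : ℝ) (hκ0 : 0 < κ) (hη : 0 < η) (hη1 : η ≤ 1) : ∀ᶠ X : ℕ in atTop, ∃ Y Z : ℕ,
    Real.log X ≤ Z ∧ Z ≤ Y ∧ Y ≤ X ^ 2 ∧ (Y : ℝ) ≤ Real.logb 2 X ^ 2 ∧ (1 - η) * Real.logb 2 X ^ 2 ≤ Z ∧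
    (∀ n : ℕ, 1 ≤ n → n ≤ X → len n ≤ Y) ∧ ∀ n : ℕ, κ * X ≤ n → n ≤ X → Z ≤ len n := by
  have hlog2 : 0 < Real.log 2 := Real.log_pos (by norm_num)
  have tN : Tendsto (fun X : ℕ => (X : ℝ)) atTop atTop := tendsto_natCast_atTop_atTop
  have hlogt : Tendsto (fun X : ℕ => Real.log (X : ℝ)) atTop atTop := Real.tendsto_log_atTop.comp tN
  have hsmall := (Real.isLittleO_pow_log_id_atTop (n := 2)).bound (c := Real.log 2 ^ 2) (by positivity)
  have hsmall2 := tN.eventually hsmall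
  filter_upwards [hlogt.eventually_ge_atTop (16 + 16 / η * |Real.log κ| + 16 / η), eventually_ge_atTop 2, hsmall2] with X h2 hX2 h3
  have hXr : (2 : ℝ) ≤ X := by exact_mod_cast hX2
  have hX0 : (0 : ℝ) < X := by linarith only [hXr]
  obtain ⟨ℓ, hℓ⟩ : ∃ ℓ, ℓ = Real.log X := ⟨_, rfl⟩
  obtain ⟨Λ, hΛ⟩ : ∃ Λ, Λ = Real.logb 2 X ^ 2 := ⟨_, rfl⟩
  have hΛ2 : Λ = ℓ ^ 2 / Real.log 2 ^ 2 := by rw [hΛ, hℓ, Real.logb, div_pow]
  rw [← hℓ] at h2
  have hab : 0 ≤ 16 / η * |Real.log κ| := by positivity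
  have hab2 : 0 < 16 / η := by positivity
  have hℓ16 : 16 ≤ ℓ := by linarith only [h2, hab, hab2]
  have hℓ0 : 0 < ℓ := by linarith only [hℓ16]
  have hlog2' : Real.log 2 < 1 := by
    have := Real.log_two_lt_d9
    linarith only [this]
  have hΛℓ : ℓ ^ 2 ≤ Λ := by
    rw [hΛ2, le_div_iff₀ (by positivity)]
    have : Real.log 2 ^ 2 ≤ 1 := pow_le_one₀ hlog2.le hlog2'.le
    exact mul_le_of_le_one_right (by positivity) this
  have hℓℓ : 16 * ℓ ≤ ℓ ^ 2 := by nlinarith only [hℓ16]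
  have hΛ0 : 0 < Λ := by linarith only [hΛℓ, hℓℓ, hℓ0]
  obtain ⟨Y, hY⟩ : ∃ Y : ℕ, Y = ⌊Λ⌋₊ := ⟨_, rfl⟩
  obtain ⟨Z, hZ⟩ : ∃ Z : ℕ, Z = ⌊(1 - η / 4) * Λ⌋₊ := ⟨_, rfl⟩
  have hYle : (Y : ℝ) ≤ Λ := by rw [hY]; exact Nat.floor_le hΛ0.le
  have hη4 : 0 ≤ 1 - η / 4 := by linarith only [hη1]
  have hZle : (Z : ℝ) ≤ (1 - η / 4) * Λ := by rw [hZ]; exact Nat.floor_le (by positivity)
  have hZlt : (1 - η / 4) * Λ < Z + 1 := by rw [hZ]; exact Nat.lt_floor_add_one _
  have hYlt : Λ < Y + 1 := by rw [hY]; exact Nat.lt_floor_add_one _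
  have hone : 1 ≤ η / 16 * Λ := by
    have g1 : 16 / η ≤ ℓ := by linarith only [h2, hab, hℓ16]
    rw [div_le_iff₀ hη] at g1
    have g2 : ℓ ≤ Λ := by linarith only [hΛℓ, hℓℓ, hℓ0]
    have g3 : η * ℓ ≤ η * Λ := mul_le_mul_of_nonneg_left g2 hη.le
    linarith only [g1, g3]
  have hYX : Y ≤ X ^ 2 := by
    have g1 : (Y : ℝ) ≤ X := by
      refine hYle.trans ?_
      rw [hΛ2, div_le_iff₀ (by positivity)]
      have g2 : ‖Real.log (X : ℝ) ^ 2‖ ≤ Real.log 2 ^ 2 * ‖id (X : ℝ)‖ := h3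
      rw [Real.norm_of_nonneg (by positivity), id, Real.norm_of_nonneg hX0.le, ← hℓ] at g2
      linarith only [g2]
    have g2 : Y ≤ X := by exact_mod_cast g1
    exact g2.trans (Nat.le_self_pow (by norm_num) X)
  have hZY : Z ≤ Y := by
    have g1 : (Z : ℝ) < Y + 1 := by
      have : (1 - η / 4) * Λ ≤ Λ := by
        have : 0 ≤ η / 4 * Λ := by positivity
        linarith only [this]
      linarith only [hZle, hYlt, this]
    have : Z < Y + 1 := by exact_mod_cast g1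
    omega
  have hZℓ : ℓ ≤ Z := by
    have g1 : 3 / 4 * Λ ≤ (1 - η / 4) * Λ := mul_le_mul_of_nonneg_right (by linarith only [hη1]) hΛ0.le
    linarith only [g1, hZlt, hΛℓ, hℓℓ, hℓ16]
  rw [← hℓ, ← hΛ]
  refine ⟨Y, Z, hZℓ, hZY, hYX, hYle, ?_, fun n n1 n2 => ?_, fun n hn n2 => ?_⟩
  · have : 0 ≤ (η - η / 4 - η / 16) * Λ := mul_nonneg (by linarith only [hη]) hΛ0.le
    linarith only [hZlt, hone, this]
  · rw [hY, hΛ]
    unfold len
    apply Nat.floor_le_floor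
    have hn0 : (0 : ℝ) < n := by exact_mod_cast (by omega : 0 < n)
    apply pow_le_pow_left₀
    · exact Real.logb_nonneg (by norm_num) (by exact_mod_cast n1)
    · exact Real.logb_le_logb_of_le (by norm_num) hn0 (by exact_mod_cast n2)
  · rw [hZ]
    unfold len
    apply Nat.floor_le_floor
    have g1 : Real.log κ + ℓ ≤ Real.log n := by
      rw [hℓ, ← Real.log_mul hκ0.ne' hX0.ne']
      exact Real.log_le_log (by positivity) hn
    have g2 : (1 - η / 16) * ℓ ≤ Real.log n := by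
      have g3 : |Real.log κ| ≤ η / 16 * ℓ := by
        have g4 : 16 / η * |Real.log κ| ≤ ℓ := by linarith only [h2, hab2]
        calc |Real.log κ| = η / 16 * (16 / η * |Real.log κ|) := by field_simp
          _ ≤ _ := mul_le_mul_of_nonneg_left g4 (by positivity)
      have := neg_abs_le (Real.log κ)
      linarith only [this, g1, g3]
    have g5 : ((1 - η / 16) * ℓ) ^ 2 ≤ Real.log n ^ 2 := pow_le_pow_left₀ (mul_nonneg (by linarith only [hη1]) hℓ0.le) g2 2
    rw [Real.logb, div_pow, hΛ2, ← mul_div_assoc]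
    apply div_le_div_of_nonneg_right _ (by positivity)
    refine le_trans ?_ g5
    rw [mul_pow]
    apply mul_le_mul_of_nonneg_right _ (by positivity)
    nlinarith only [hη]

/-- the property of a cell: many primes, or not too many primes -/
def GS (δ E : ℝ) (b : Bool) (n s : ℕ) : Prop :=
  if b then (1 - δ) * E < (pn (n ^ 2 + s) (len n) : ℝ) else (pn (n ^ 2 + s) (len n) : ℝ) < (1 + δ) * E

open Classical in
/-- **patterns for the lengths `(log_2 n)²`** -/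
theorem pat_len (k l : ℕ) (d δ : ℝ) (hd : 0 < d) (hδ : 0 < δ) : ∃ κ : ℝ, 0 < κ ∧ ∀ᶠ X : ℕ in atTop,
    ∀ B : Finset ℕ, (∀ n ∈ B, 1 ≤ n ∧ n ≤ X) → d * (X : ℝ) ≤ B.card →
    ∀ A : Finset ℕ, (∀ s ∈ A, s ≤ X ^ 2) → d * (X : ℝ) ^ 2 ≤ A.card → ∀ υ : Fin k → Fin l → Bool,
      κ * ((B.card : ℝ) ^ k * (A.card : ℝ) ^ l) ≤
      (((Fintype.piFinset (fun _ : Fin k => B) ×ˢ Fintype.piFinset (fun _ : Fin l => A)).filter (fun w => ∀ i j,
        GS δ (Real.log X / (2 * Real.log 2 ^ 2)) (υ i j) (w.1 i) (w.2 j))).card : ℝ) := by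
  obtain ⟨η, hη⟩ : ∃ η, η = min 1 (δ / 2) := ⟨_, rfl⟩
  have hη0 : 0 < η := by rw [hη]; exact lt_min one_pos (by linarith only [hδ])
  have hη1 : η ≤ 1 := by rw [hη]; exact min_le_left _ _
  have hηδ : η ≤ δ / 2 := by rw [hη]; exact min_le_right _ _
  have hlog2 : 0 < Real.log 2 := Real.log_pos (by norm_num)
  have hlogt : Tendsto (fun X : ℕ => Real.log (X : ℝ)) atTop atTop := Real.tendsto_log_atTop.comp tendsto_natCast_atTop_atTop
  obtain ⟨κ, hκ, hev⟩ := squares_table 0 0 k l 1 (d / 2) η (1 / 2) one_pos (by positivity) hη0 hη1 (by norm_num)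
  refine ⟨κ * (1 / 2) ^ k, by positivity, ?_⟩
  filter_upwards [hev, len_facts (d / 2) η (by positivity) hη0 hη1, hlogt.eventually_gt_atTop 0, eventually_ge_atTop 1] with
    X h1 h2 hl hX1 B hB hBc A hA hAc υ
  obtain ⟨Y, Z, z1, zy, yx, yΛ, zΛ, len1, len2⟩ := h2
  have hXr : (0 : ℝ) < X := by exact_mod_cast hX1
  obtain ⟨B', hB'⟩ : ∃ B', B' = B.filter (fun n : ℕ => d / 2 * X ≤ n) := ⟨_, rfl⟩
  have hB'sub : B' ⊆ B := by rw [hB']; exact filter_subset _ _
  have hBB' : (B.card : ℝ) ≤ B'.card + d / 2 * X := by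
    have g1 : B.card = (B.filter (fun n : ℕ => d / 2 * X ≤ n)).card + (B.filter (fun n : ℕ => ¬ d / 2 * X ≤ n)).card :=
      (card_filter_add_card_filter_not _).symm
    have g2 : ((B.filter (fun n : ℕ => ¬ d / 2 * X ≤ n)).card : ℝ) ≤ d / 2 * X := by
      have g3 : B.filter (fun n : ℕ => ¬ d / 2 * X ≤ n) ⊆ Icc 1 ⌊d / 2 * X⌋₊ := by
        intro n hn
        rw [mem_filter, not_le] at hn
        rw [mem_Icc]
        exact ⟨(hB n hn.1).1, Nat.le_floor hn.2.le⟩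
      have g4 := card_le_card g3
      rw [Nat.card_Icc, Nat.add_sub_cancel] at g4
      have g5 : ((B.filter (fun n : ℕ => ¬ d / 2 * X ≤ n)).card : ℝ) ≤ (⌊d / 2 * X⌋₊ : ℝ) := by exact_mod_cast g4
      exact g5.trans (Nat.floor_le (by positivity))
    rw [← hB'] at g1
    have g6 : (B.card : ℝ) = (B'.card : ℝ) + ((B.filter (fun n : ℕ => ¬ d / 2 * X ≤ n)).card : ℝ) := by exact_mod_cast g1
    linarith only [g6, g2]
  have hhalf : 1 / 2 * (B.card : ℝ) ≤ B'.card := by linarith only [hBB', hBc]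
  have hdX : 0 ≤ d * (X : ℝ) ^ 2 := by positivity
  have hlen0 : ∀ H : ℕ, Real.log X ≤ H → H ≤ X ^ 2 → LabS 1 X B' A (id, id, H) := by
    intro H h3 h4
    exact ⟨Set.injOn_id _, Set.injOn_id _, fun n hn => hB n (hB'sub hn), hA, by rw [one_mul]; exact h3, h4⟩
  have hz2 : Real.log X ≤ Y := z1.trans (by exact_mod_cast zy)
  have hυ : ∀ i j, LabS 1 X B' A ((fun (i : Fin k) (j : Fin l) =>
      ((υ i j, (id, id, if υ i j then Z else Y)) : Bool × Lb)) i j).2 := by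
    intro i j
    simp only
    split_ifs
    · exact hlen0 Z z1 (zy.trans yx)
    · exact hlen0 Y hz2 yx
  have key := h1 B' A (by linarith only [hBB', hBc]) (by linarith only [hAc, hdX]) (fun i => i.elim0) (fun _ j => j.elim0)
    (fun i j => (υ i j, (id, id, if υ i j then Z else Y))) (fun i => i.elim0) (fun _ j => j.elim0) hυ
  rw [pow_zero, pow_zero, mul_one, mul_one] at key
  have hcard := lt_of_le_of_lt key (show (1 / 2 : ℝ) < ((1 : ℕ) : ℝ) by norm_num)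
  have hcard2 := Nat.lt_one_iff.1 (Nat.cast_lt.1 hcard)
  have hmem : ((fun i => i.elim0, fun j => j.elim0) : (Fin 0 → ℕ) × (Fin 0 → ℕ)) ∈
      Fintype.piFinset (fun _ : Fin 0 => B') ×ˢ Fintype.piFinset (fun _ : Fin 0 => A) := by
    rw [mem_product, Fintype.mem_piFinset, Fintype.mem_piFinset]
    exact ⟨fun i => i.elim0, fun j => j.elim0⟩
  have hno := not_not.1 (filter_eq_empty_iff.1 (card_eq_zero.1 hcard2) hmem)
  have hE : Real.logb 2 X ^ 2 / (2 * Real.log X) = Real.log X / (2 * Real.log 2 ^ 2) := by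
    rw [Real.logb]
    field_simp
  obtain ⟨E, hEd⟩ : ∃ E, E = Real.log X / (2 * Real.log 2 ^ 2) := ⟨_, rfl⟩
  have hE0 : 0 < E := by rw [hEd]; positivity
  rw [← hEd] at hE ⊢
  have hEΛ : Real.logb 2 X ^ 2 = E * (2 * Real.log X) := by rw [← hE]; field_simp
  refine le_trans ?_ (hno.trans (Nat.cast_le.2 (card_le_card ?_)))
  · have g1 : (1 / 2) ^ k * (B.card : ℝ) ^ k ≤ (B'.card : ℝ) ^ k := by
      rw [← mul_pow]
      exact pow_le_pow_left₀ (mul_nonneg (by norm_num) (Nat.cast_nonneg _)) hhalf k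
    calc κ * (1 / 2) ^ k * ((B.card : ℝ) ^ k * (A.card : ℝ) ^ l) = κ * (((1 / 2) ^ k * (B.card : ℝ) ^ k) * (A.card : ℝ) ^ l) := by ring
      _ ≤ κ * ((B'.card : ℝ) ^ k * (A.card : ℝ) ^ l) :=
          mul_le_mul_of_nonneg_left (mul_le_mul_of_nonneg_right g1 (pow_nonneg (Nat.cast_nonneg _) _)) hκ.le
  · intro w hw
    unfold Comp at hw
    rw [mem_filter] at hw ⊢
    obtain ⟨hw1, _, _, hw2⟩ := hw
    rw [mem_product, Fintype.mem_piFinset, Fintype.mem_piFinset] at hw1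
    refine ⟨?_, fun i j => ?_⟩
    · rw [mem_product, Fintype.mem_piFinset, Fintype.mem_piFinset]
      exact ⟨fun i => hB'sub (hw1.1 i), hw1.2⟩
    · have h3 := hw2 i j
      have hn := hw1.1 i
      rw [hB', mem_filter] at hn
      obtain ⟨n1, n2⟩ := hB _ hn.1
      have hZ0 : (0 : ℝ) < Z := lt_of_lt_of_le hl z1
      have hY0 : (0 : ℝ) < Y := lt_of_lt_of_le hl hz2
      unfold GS
      simp only at h3
      unfold Gd SW AW at h3
      rw [log_X2] at h3
      rcases hb : υ i j with _ | _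
      · rw [hb] at h3
        simp only [Bool.false_eq_true, if_false, id] at h3 ⊢
        rw [div_lt_iff₀ hY0] at h3
        have u1 : (pn (w.1 i ^ 2 + w.2 j) (len (w.1 i)) : ℝ) ≤ (pn (w.1 i ^ 2 + w.2 j) Y : ℝ) := by
          exact_mod_cast pn_mono (len1 _ n1 n2)
        have u2 : (pn (w.1 i ^ 2 + w.2 j) Y : ℝ) < (1 + η) * E := by
          have u3 : (1 + η) * (Y : ℝ) ≤ (1 + η) * (E * (2 * Real.log X)) := by
            rw [← hEΛ]
            exact mul_le_mul_of_nonneg_left yΛ (by linarith only [hη0])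
          have u4 : (pn (w.1 i ^ 2 + w.2 j) Y : ℝ) * (2 * Real.log X) < ((1 + η) * E) * (2 * Real.log X) := by
            linarith only [h3, u3]
          exact lt_of_mul_lt_mul_right u4 (by positivity)
        have u5 : (1 + η) * E ≤ (1 + δ) * E := mul_le_mul_of_nonneg_right (by linarith only [hηδ, hδ]) hE0.le
        linarith only [u1, u2, u5]
      · rw [hb] at h3
        simp only [if_true, id] at h3 ⊢
        rw [lt_div_iff₀ hZ0] at h3
        have u1 : (pn (w.1 i ^ 2 + w.2 j) Z : ℝ) ≤ (pn (w.1 i ^ 2 + w.2 j) (len (w.1 i)) : ℝ) := by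
          exact_mod_cast pn_mono (len2 _ hn.2 n2)
        have u2 : (1 - η) * ((1 - η) * E) < (pn (w.1 i ^ 2 + w.2 j) Z : ℝ) := by
          have u3 : (1 - η) * ((1 - η) * (E * (2 * Real.log X))) ≤ (1 - η) * Z := by
            rw [← hEΛ]
            exact mul_le_mul_of_nonneg_left zΛ (by linarith only [hη1])
          have u4 : ((1 - η) * ((1 - η) * E)) * (2 * Real.log X) < (pn (w.1 i ^ 2 + w.2 j) Z : ℝ) * (2 * Real.log X) := by
            linarith only [h3, u3]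
          exact lt_of_mul_lt_mul_right u4 (by positivity)
        have u5 : (1 - δ) * E ≤ (1 - η) * ((1 - η) * E) := by
          have u6 : 1 - δ ≤ (1 - η) * (1 - η) := by nlinarith only [hηδ, hη0]
          calc (1 - δ) * E ≤ ((1 - η) * (1 - η)) * E := mul_le_mul_of_nonneg_right u6 hE0.le
            _ = _ := by ring
        linarith only [u1, u2, u5]

end Pool.Agent.V11316.AT
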