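import Pool.Agent.V11316.AT19

/-! The asymptotic formula for tables with entries `n² + s`, for windows of length `(log_2 n)²`. -/

set_option autoImplicit false

namespace Pool.Agent.V11316.AT
open Finset Filter
open Pool.Agent.W301.SS
open Pool.Agent.Y851.PS
open Pool.Agent.Y851.PT
open Pool.Agent.V11316.TB

/-- the case without old rows and columns -/
theorem squares_asym0 (k l : ℕ) (lam d δ : ℝ) (hlam : 0 < lam) (hd : 0 < d) (hδ : 0 < δ) :
    ∀ᶠ X : ℕ in atTop, ∀ A C : Finset ℕ, d * (X : ℝ) ≤ A.card → d * (X : ℝ) ^ 2 ≤ C.card →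
    ∀ υ : Fin k → Fin l → Option Lb, (∀ i j, ∀ q ∈ υ i j, LabS lam X A C q) →
      |∑ a' ∈ Fintype.piFinset (fun _ : Fin k => A), ∑ c' ∈ Fintype.piFinset (fun _ : Fin l => C),
        ∏ i, ∏ j, wS X (υ i j) (a' i) (c' j) - (A.card : ℝ) ^ k * (C.card : ℝ) ^ l| ≤ δ * ((A.card : ℝ) ^ k * (C.card : ℝ) ^ l) := by
  classical
  have hδ2 : 0 < min δ (1 / 2) := lt_min hδ (by norm_num)
  filter_upwards [squares_asym 0 0 k l lam d (min δ (1 / 2)) hlam hd hδ2] with X h1 A C hA hC υ hυ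
  have g := h1 A C hA hC (fun i => i.elim0) (fun _ j => j.elim0) υ (fun i => i.elim0) (fun _ j => j.elim0) hυ
  rw [pow_zero, pow_zero, mul_one, mul_one] at g
  have hlt : (min δ (1 / 2 : ℝ)) < ((1 : ℕ) : ℝ) := lt_of_le_of_lt (min_le_right _ _) (by norm_num)
  have hcard2 := Nat.lt_one_iff.1 (Nat.cast_lt.1 (lt_of_le_of_lt g hlt))
  have hmem : ((fun i => i.elim0, fun j => j.elim0) : (Fin 0 → ℕ) × (Fin 0 → ℕ)) ∈
      Fintype.piFinset (fun _ : Fin 0 => A) ×ˢ Fintype.piFinset (fun _ : Fin 0 => C) := by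
    rw [mem_product, Fintype.mem_piFinset, Fintype.mem_piFinset]
    exact ⟨fun i => i.elim0, fun j => j.elim0⟩
  have hno := filter_eq_empty_iff.1 (card_eq_zero.1 hcard2) hmem
  rw [not_lt] at hno
  have hcells : ∀ (a' : Fin k → ℕ) (c' : Fin l → ℕ), V11316.TB.cells (wS X)
      (fun i : Fin 0 => (i.elim0 : Fin l → Option Lb))
      (fun (_ : Fin k) (j : Fin 0) => j.elim0) υ (fun i => i.elim0) (fun j => j.elim0) a' c' =
      ∏ i, ∏ j, wS X (υ i j) (a' i) (c' j) := by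
    intro a' c'
    unfold V11316.TB.cells
    simp only [univ_eq_empty, prod_empty, prod_const_one, one_mul]
  simp only [hcells] at hno
  exact hno.trans (mul_le_mul_of_nonneg_right (min_le_left _ _) (by positivity))

/-- the factor of a cell -/
noncomputable def FS (E : ℝ) (b : Bool) (n s : ℕ) : ℝ := if b then (pn (n ^ 2 + s) (len n) : ℝ) / E else 1

lemma FS_nonneg {E : ℝ} (hE : 0 ≤ E) (b : Bool) (n s : ℕ) : 0 ≤ FS E b n s := by
  unfold FS
  split_ifs
  · positivity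
  · exact zero_le_one

/-- **the asymptotic formula for the lengths `(log_2 n)²`** -/
theorem corr_len (k l : ℕ) (d δ : ℝ) (hd : 0 < d) (hδ : 0 < δ) : ∀ᶠ X : ℕ in atTop,
    ∀ B : Finset ℕ, (∀ n ∈ B, 1 ≤ n ∧ n ≤ X) → d * (X : ℝ) ≤ B.card →
    ∀ A : Finset ℕ, (∀ s ∈ A, s ≤ X ^ 2) → d * (X : ℝ) ^ 2 ≤ A.card → ∀ υ : Fin k → Fin l → Bool,
      |∑ a' ∈ Fintype.piFinset (fun _ : Fin k => B), ∑ c' ∈ Fintype.piFinset (fun _ : Fin l => A),
        ∏ i, ∏ j, FS (Real.log X / (2 * Real.log 2 ^ 2)) (υ i j) (a' i) (c' j) - (B.card : ℝ) ^ k * (A.card : ℝ) ^ l| ≤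
        δ * ((B.card : ℝ) ^ k * (A.card : ℝ) ^ l) := by
  classical
  obtain ⟨m, hm⟩ : ∃ m : ℕ, m = k * l + k + 1 := ⟨_, rfl⟩
  have hm0 : (1 : ℝ) ≤ m := by
    have : 1 ≤ m := by omega
    exact_mod_cast this
  have hm00 : (0 : ℝ) < m := by linarith only [hm0]
  obtain ⟨η, hη⟩ : ∃ η, η = min 1 (δ / m) := ⟨_, rfl⟩
  have hη0 : 0 < η := by rw [hη]; exact lt_min one_pos (by positivity)
  have hη1 : η ≤ 1 := by rw [hη]; exact min_le_left _ _
  have hηm : m * η ≤ δ := by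
    have : η ≤ δ / m := by rw [hη]; exact min_le_right _ _
    rw [le_div_iff₀ hm00] at this
    linarith only [this]
  have hηδ : η ≤ δ := by
    have : 1 * η ≤ m * η := mul_le_mul_of_nonneg_right hm0 hη0.le
    linarith only [this, hηm]
  have hlog2 : 0 < Real.log 2 := Real.log_pos (by norm_num)
  have hlogt : Tendsto (fun X : ℕ => Real.log (X : ℝ)) atTop atTop := Real.tendsto_log_atTop.comp tendsto_natCast_atTop_atTop
  have hdη : 0 < d * η / 2 := by positivity
  filter_upwards [squares_asym0 k l 1 d η one_pos hd hη0, squares_asym0 k l 1 (d / 2) η one_pos (by positivity) hη0,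
    len_facts (d * η / 2) η hdη hη0 hη1, hlogt.eventually_gt_atTop 0, eventually_ge_atTop 1] with
    X h1 h1' h2 hl hX1 B hB hBc A hA hAc υ
  obtain ⟨Y, Z, z1, zy, yx, yΛ, zΛ, len1, len2⟩ := h2
  have hXr : (0 : ℝ) < X := by exact_mod_cast hX1
  have hdX : 0 < d * (X : ℝ) := by positivity
  have hB0 : (0 : ℝ) < B.card := lt_of_lt_of_le hdX hBc
  have hA0 : (0 : ℝ) ≤ A.card := Nat.cast_nonneg _
  obtain ⟨B', hB'⟩ : ∃ B', B' = B.filter (fun n : ℕ => d * η / 2 * X ≤ n) := ⟨_, rfl⟩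
  have hB'sub : B' ⊆ B := by rw [hB']; exact filter_subset _ _
  have hBB' : (B.card : ℝ) ≤ B'.card + d * η / 2 * X := by
    have g1 : B.card = (B.filter (fun n : ℕ => d * η / 2 * X ≤ n)).card + (B.filter (fun n : ℕ => ¬ d * η / 2 * X ≤ n)).card :=
      (card_filter_add_card_filter_not _).symm
    have g2 : ((B.filter (fun n : ℕ => ¬ d * η / 2 * X ≤ n)).card : ℝ) ≤ d * η / 2 * X := by
      have g3 : B.filter (fun n : ℕ => ¬ d * η / 2 * X ≤ n) ⊆ Icc 1 ⌊d * η / 2 * X⌋₊ := by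
        intro n hn
        rw [mem_filter, not_le] at hn
        rw [mem_Icc]
        exact ⟨(hB n hn.1).1, Nat.le_floor hn.2.le⟩
      have g4 := card_le_card g3
      rw [Nat.card_Icc, Nat.add_sub_cancel] at g4
      have g5 : ((B.filter (fun n : ℕ => ¬ d * η / 2 * X ≤ n)).card : ℝ) ≤ (⌊d * η / 2 * X⌋₊ : ℝ) := by exact_mod_cast g4
      exact g5.trans (Nat.floor_le (mul_nonneg hdη.le hXr.le))
    rw [← hB'] at g1
    have g6 : (B.card : ℝ) = (B'.card : ℝ) + ((B.filter (fun n : ℕ => ¬ d * η / 2 * X ≤ n)).card : ℝ) := by exact_mod_cast g1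
    linarith only [g6, g2]
  have hηB : η * (d * X) ≤ η * B.card := mul_le_mul_of_nonneg_left hBc hη0.le
  have hηB1 : η * (B.card : ℝ) ≤ 1 * B.card := mul_le_mul_of_nonneg_right hη1 hB0.le
  have hB'1 : (1 - η) * (B.card : ℝ) ≤ B'.card := by
    have h0 : 0 ≤ η * (d * X) := mul_nonneg hη0.le hdX.le
    linarith only [hBB', hηB, h0]
  have hB'2 : d / 2 * (X : ℝ) ≤ B'.card := by linarith only [hBB', hηB, hηB1, hBc]
  have hdX2 : 0 ≤ d * (X : ℝ) ^ 2 := by positivity
  have hz2 : Real.log X ≤ Y := z1.trans (by exact_mod_cast zy)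
  have hZ0 : (0 : ℝ) < Z := lt_of_lt_of_le hl z1
  have hY0 : (0 : ℝ) < Y := lt_of_lt_of_le hl hz2
  -- the expected number
  obtain ⟨E, hEd⟩ : ∃ E, E = Real.log X / (2 * Real.log 2 ^ 2) := ⟨_, rfl⟩
  have hE0 : 0 < E := by rw [hEd]; positivity
  obtain ⟨Λ, hΛ⟩ : ∃ Λ, Λ = Real.logb 2 X ^ 2 := ⟨_, rfl⟩
  have hEΛ : Λ = E * (2 * Real.log X) := by
    rw [hΛ, hEd, Real.logb]
    field_simp
  rw [← hΛ] at yΛ zΛ
  rw [← hEd]
  have hΛ0 : 0 < Λ := by rw [hEΛ]; positivity
  obtain ⟨D, hD⟩ : ∃ D : ℝ, D = (B.card : ℝ) ^ k * (A.card : ℝ) ^ l := ⟨_, rfl⟩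
  have hD0 : 0 ≤ D := by rw [hD]; positivity
  -- upper bound
  have up := h1 B A hBc hAc (fun i j => if υ i j then some (id, id, Y) else none) (by
    intro i j q hq
    split_ifs at hq
    · rw [Option.mem_some] at hq
      subst hq
      exact ⟨Set.injOn_id _, Set.injOn_id _, hB, hA, by rw [one_mul]; exact hz2, yx⟩
    · simp at hq)
  have low := h1' B' A hB'2 (by linarith only [hAc, hdX2]) (fun i j => if υ i j then some (id, id, Z) else none) (by
    intro i j q hq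
    split_ifs at hq
    · rw [Option.mem_some] at hq
      subst hq
      exact ⟨Set.injOn_id _, Set.injOn_id _, fun n hn => hB n (hB'sub hn), hA, by rw [one_mul]; exact z1, zy.trans yx⟩
    · simp at hq)
  rw [← hD] at up ⊢
  have cell1 : ∀ (b : Bool) (n s : ℕ), 1 ≤ n → n ≤ X → FS E b n s ≤ wS X (if b then some (id, id, Y) else none) n s := by
    intro b n s n1 n2
    rcases b with _ | _
    · simp [FS, wS]
    · simp only [FS, wS, if_true, SW, AW, id, log_X2]
      have u1 : (pn (n ^ 2 + s) (len n) : ℝ) ≤ (pn (n ^ 2 + s) Y : ℝ) := by exact_mod_cast pn_mono (len1 _ n1 n2)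
      rw [div_le_div_iff₀ hE0 hY0]
      have u2 : (pn (n ^ 2 + s) (len n) : ℝ) * Y ≤ (pn (n ^ 2 + s) Y : ℝ) * Λ := mul_le_mul u1 yΛ hY0.le (Nat.cast_nonneg _)
      rw [hEΛ] at u2
      linarith only [u2]
  have cell2 : ∀ (b : Bool) (n s : ℕ), d * η / 2 * X ≤ n → n ≤ X →
      (1 - η) * wS X (if b then some (id, id, Z) else none) n s ≤ FS E b n s := by
    intro b n s n1 n2
    rcases b with _ | _
    · simp only [FS, wS, Bool.false_eq_true, if_false]
      linarith only [hη0]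
    · simp only [FS, wS, if_true, SW, AW, id, log_X2]
      have u1 : (pn (n ^ 2 + s) Z : ℝ) ≤ (pn (n ^ 2 + s) (len n) : ℝ) := by exact_mod_cast pn_mono (len2 _ n1 n2)
      rw [← mul_div_assoc, div_le_div_iff₀ hZ0 hE0]
      have u2 : (pn (n ^ 2 + s) Z : ℝ) * ((1 - η) * Λ) ≤ (pn (n ^ 2 + s) (len n) : ℝ) * Z :=
        mul_le_mul u1 zΛ (mul_nonneg (by linarith only [hη1]) hΛ0.le) (Nat.cast_nonneg _)
      rw [hEΛ] at u2
      linarith only [u2]
  have hwS : ∀ (H : ℕ) (b : Bool) (n s : ℕ), 0 ≤ wS X (if b then some (id, id, H) else none) n s := by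
    intro H b n s
    rcases b with _ | _
    · simp [wS]
    · simp only [wS, if_true]
      exact SW_nonneg _ _ _ _
  have f1 : ∑ a' ∈ Fintype.piFinset (fun _ : Fin k => B), ∑ c' ∈ Fintype.piFinset (fun _ : Fin l => A),
      ∏ i, ∏ j, FS E (υ i j) (a' i) (c' j) ≤ ∑ a' ∈ Fintype.piFinset (fun _ : Fin k => B), ∑ c' ∈ Fintype.piFinset (fun _ : Fin l => A),
      ∏ i, ∏ j, wS X (if υ i j then some (id, id, Y) else none) (a' i) (c' j) := by
    apply sum_le_sum
    intro a' ha'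
    apply sum_le_sum
    intro c' _
    rw [Fintype.mem_piFinset] at ha'
    apply Finset.prod_le_prod
    · intro i _
      exact prod_nonneg fun j _ => FS_nonneg hE0.le _ _ _
    · intro i _
      apply Finset.prod_le_prod
      · intro j _
        exact FS_nonneg hE0.le _ _ _
      · intro j _
        exact cell1 _ _ _ (hB _ (ha' i)).1 (hB _ (ha' i)).2
  have f2 : (1 - η) ^ (k * l) * (∑ a' ∈ Fintype.piFinset (fun _ : Fin k => B'), ∑ c' ∈ Fintype.piFinset (fun _ : Fin l => A),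
      ∏ i, ∏ j, wS X (if υ i j then some (id, id, Z) else none) (a' i) (c' j)) ≤
      ∑ a' ∈ Fintype.piFinset (fun _ : Fin k => B), ∑ c' ∈ Fintype.piFinset (fun _ : Fin l => A), ∏ i, ∏ j, FS E (υ i j) (a' i) (c' j) := by
    have g1 : ∑ a' ∈ Fintype.piFinset (fun _ : Fin k => B'), ∑ c' ∈ Fintype.piFinset (fun _ : Fin l => A),
        ∏ i, ∏ j, FS E (υ i j) (a' i) (c' j) ≤ ∑ a' ∈ Fintype.piFinset (fun _ : Fin k => B), ∑ c' ∈ Fintype.piFinset (fun _ : Fin l => A),
        ∏ i, ∏ j, FS E (υ i j) (a' i) (c' j) := by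
      apply sum_le_sum_of_subset_of_nonneg (Fintype.piFinset_subset _ _ fun _ => hB'sub)
      intro a' _ _
      exact sum_nonneg fun c' _ => prod_nonneg fun i _ => prod_nonneg fun j _ => FS_nonneg hE0.le _ _ _
    refine le_trans ?_ g1
    rw [mul_sum]
    apply sum_le_sum
    intro a' ha'
    rw [mul_sum]
    apply sum_le_sum
    intro c' _
    rw [Fintype.mem_piFinset] at ha'
    have g2 : (1 - η) ^ (k * l) * ∏ i, ∏ j, wS X (if υ i j then some (id, id, Z) else none) (a' i) (c' j) =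
        ∏ i : Fin k, ∏ j : Fin l, (1 - η) * wS X (if υ i j then some (id, id, Z) else none) (a' i) (c' j) := by
      simp_rw [prod_mul_distrib, prod_const, card_univ, Fintype.card_fin]
      rw [mul_comm k l, pow_mul]
    rw [g2]
    have hη' : 0 ≤ 1 - η := by linarith only [hη1]
    apply Finset.prod_le_prod
    · intro i _
      exact prod_nonneg fun j _ => mul_nonneg hη' (hwS _ _ _ _)
    · intro i _
      have hi := ha' i
      rw [hB', mem_filter] at hi
      apply Finset.prod_le_prod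
      · intro j _
        exact mul_nonneg hη' (hwS _ _ _ _)
      · intro j _
        exact cell2 _ _ _ hi.2 (hB _ hi.1).2
  rw [abs_le] at up low ⊢
  have hη' : 0 ≤ 1 - η := by linarith only [hη1]
  constructor
  · -- lower bound
    have g1 : (1 - η) ^ k * D ≤ (B'.card : ℝ) ^ k * (A.card : ℝ) ^ l := by
      have g2 : (1 - η) ^ k * (B.card : ℝ) ^ k ≤ (B'.card : ℝ) ^ k := by
        rw [← mul_pow]
        exact pow_le_pow_left₀ (mul_nonneg hη' hB0.le) hB'1 k
      rw [hD]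
      calc (1 - η) ^ k * ((B.card : ℝ) ^ k * (A.card : ℝ) ^ l) = ((1 - η) ^ k * (B.card : ℝ) ^ k) * (A.card : ℝ) ^ l := by ring
        _ ≤ _ := mul_le_mul_of_nonneg_right g2 (pow_nonneg hA0 _)
    have g3 : (1 - η) * ((1 - η) ^ k * D) ≤ (1 - η) * ((B'.card : ℝ) ^ k * (A.card : ℝ) ^ l) := mul_le_mul_of_nonneg_left g1 hη'
    have g4 := mul_le_mul_of_nonneg_left (g3.trans (show (1 - η) * ((B'.card : ℝ) ^ k * (A.card : ℝ) ^ l) ≤
      ∑ a' ∈ Fintype.piFinset (fun _ : Fin k => B'), ∑ c' ∈ Fintype.piFinset (fun _ : Fin l => A),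
        ∏ i, ∏ j, wS X (if υ i j then some (id, id, Z) else none) (a' i) (c' j) by linarith only [low.1]))
      (pow_nonneg hη' (k * l))
    have g5 : (1 - η) ^ (k * l) * ((1 - η) * ((1 - η) ^ k * D)) = (1 - η) ^ m * D := by
      rw [hm, pow_succ, pow_add]
      ring
    have g6 : 1 - m * η ≤ (1 - η) ^ m := by
      have := one_add_mul_le_pow (show (-2 : ℝ) ≤ -η by linarith only [hη1]) m
      rw [show (1 : ℝ) + -η = 1 - η by ring] at this
      linarith only [this]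
    have g7 : (1 - δ) * D ≤ (1 - η) ^ m * D := mul_le_mul_of_nonneg_right (by linarith only [g6, hηm]) hD0
    linarith only [g4, g5, g7, f2]
  · have g1 : η * D ≤ δ * D := mul_le_mul_of_nonneg_right hηδ hD0
    linarith only [up.2, f1, g1]

end Pool.Agent.V11316.AT
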