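import Pool.Agent.V11316.TM1

/-! The asymptotic formula for the new cells of a multiplication table. -/

set_option autoImplicit false

namespace Pool.Agent.V11316.TB
open Finset Filter
open Pool.Agent.Y851.PS
open Pool.Agent.Y851.PT

/-- products of numbers close to each other -/
lemma prod_close {κ : Type} (S : Finset κ) (x : κ → ℝ) (N T : ℝ) (hN0 : 0 ≤ N) (hNT : N ≤ T) (hx0 : ∀ i ∈ S, 0 ≤ x i)
    (hxT : ∀ i ∈ S, x i ≤ T) : |∏ i ∈ S, x i - N ^ S.card| * T ≤ T ^ S.card * ∑ i ∈ S, |x i - N| := by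
  classical
  have hT0 : 0 ≤ T := hN0.trans hNT
  induction S using Finset.induction_on with
  | empty => simp
  | insert a S ha ih =>
    have ih' := ih (fun i hi => hx0 i (mem_insert_of_mem hi)) (fun i hi => hxT i (mem_insert_of_mem hi))
    rw [prod_insert ha, sum_insert ha, card_insert_of_notMem ha]
    have e : x a * ∏ i ∈ S, x i - N ^ (S.card + 1) = x a * (∏ i ∈ S, x i - N ^ S.card) + (x a - N) * N ^ S.card := by ring
    rw [e]
    have h1 : |x a * (∏ i ∈ S, x i - N ^ S.card) + (x a - N) * N ^ S.card| ≤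
        T * |∏ i ∈ S, x i - N ^ S.card| + |x a - N| * T ^ S.card := by
      refine (abs_add_le _ _).trans (add_le_add ?_ ?_)
      · rw [abs_mul, abs_of_nonneg (hx0 a (mem_insert_self _ _))]
        exact mul_le_mul_of_nonneg_right (hxT a (mem_insert_self _ _)) (abs_nonneg _)
      · rw [abs_mul, abs_of_nonneg (pow_nonneg hN0 S.card)]
        exact mul_le_mul_of_nonneg_left (pow_le_pow_left₀ hN0 hNT _) (abs_nonneg _)
    have h2 := mul_le_mul_of_nonneg_right h1 hT0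
    have h3 := mul_le_mul_of_nonneg_left ih' hT0
    have e2 : (T * |∏ i ∈ S, x i - N ^ S.card| + |x a - N| * T ^ S.card) * T =
        T * (|∏ i ∈ S, x i - N ^ S.card| * T) + |x a - N| * T ^ (S.card + 1) := by ring
    have e3 : T ^ (S.card + 1) * (|x a - N| + ∑ i ∈ S, |x i - N|) =
        T * (T ^ S.card * ∑ i ∈ S, |x i - N|) + |x a - N| * T ^ (S.card + 1) := by ring
    rw [e2] at h2
    rw [e3]
    linarith only [h2, h3]

/-- products of the sums over the rows -/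
theorem rowprod (α β : Type) (m₀ s k : ℕ) (M δ : ℝ) (hM : 1 ≤ M) (hδ : 0 < δ) (hm₀ : 2 ≤ m₀) (hk : k + 1 ≤ m₀) :
    ∃ δ₂ : ℝ, 0 < δ₂ ∧
    ∀ (ι : Type) (e : Fin k → Fin s → ι) (A : Finset α) (C : Finset β) (W : ι → α → β → ℝ), Fam m₀ A C W M δ₂ →
    ∑ y ∈ Fintype.piFinset (fun _ : Fin s => C), |∏ i, ∑ a ∈ A, ∏ j, W (e i j) a (y j) - (A.card : ℝ) ^ k| ≤
      δ * ((A.card : ℝ) ^ k * (C.card : ℝ) ^ s) := by
  have hM0 : 0 < M := by linarith only [hM]
  obtain ⟨R, hR⟩ : ∃ R, R = 2 * k * M ^ s / δ + 1 := ⟨_, rfl⟩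
  have hR1 : 1 ≤ R := by
    have : 0 ≤ 2 * k * M ^ s / δ := by positivity
    linarith only [hR, this]
  have hR0 : 0 < R := by linarith only [hR1]
  have hMR : k * M ^ s / R ≤ δ / 2 := by
    rw [div_le_iff₀ hR0, hR]
    have : δ / 2 * (2 * k * M ^ s / δ + 1) = k * M ^ s + δ / 2 := by field_simp
    rw [this]; linarith only [hδ]
  obtain ⟨δ', hδ'⟩ : ∃ δ', δ' = δ / (2 * ((k + 1) * R ^ k)) := ⟨_, rfl⟩
  have hδ'0 : 0 < δ' := by rw [hδ']; positivity
  obtain ⟨δ₂, hδ₂, h⟩ := rowstar α β m₀ s M δ' hM hδ'0 hm₀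
  refine ⟨δ₂, hδ₂, fun ι e A C W hF => ?_⟩
  by_cases hA : A.card = 0
  · have hA' : A = ∅ := card_eq_zero.1 hA
    subst hA'
    rcases k with _ | k
    · simp only [univ_eq_empty, prod_empty, pow_zero, sub_self, abs_zero, sum_const_zero]
      positivity
    · simp
  have hN0 : (0 : ℝ) < A.card := by exact_mod_cast Nat.pos_of_ne_zero hA
  obtain ⟨N, hN⟩ : ∃ N : ℝ, N = A.card := ⟨_, rfl⟩
  have hK0 : (0 : ℝ) ≤ C.card := Nat.cast_nonneg _
  rw [← hN] at hN0 ⊢
  have hRN : 0 < R * N := mul_pos hR0 hN0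
  have hNRN : N ≤ R * N := by
    calc N = 1 * N := (one_mul N).symm
      _ ≤ R * N := mul_le_mul_of_nonneg_right hR1 hN0.le
  have key : ∀ y ∈ Fintype.piFinset (fun _ : Fin s => C), |∏ i, ∑ a ∈ A, ∏ j, W (e i j) a (y j) - N ^ k| * (R * N) ≤
      (R * N) ^ k * ∑ i, |∑ a ∈ A, ∏ j, W (e i j) a (y j) - N| + ∑ i, N ^ k * ∑ a ∈ A, (∏ j, W (e i j) a (y j)) ^ (k + 1) := by
    intro y hy
    rw [Fintype.mem_piFinset] at hy
    obtain ⟨g, hg⟩ : ∃ g : Fin k → ℝ, g = fun i => ∑ a ∈ A, ∏ j, W (e i j) a (y j) := ⟨_, rfl⟩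
    have hgi : ∀ i, ∑ a ∈ A, ∏ j, W (e i j) a (y j) = g i := fun i => by rw [hg]
    have hf0 : ∀ i, ∀ a ∈ A, 0 ≤ ∏ j, W (e i j) a (y j) := fun i a ha => prod_nonneg fun j _ => hF.nn _ a ha _ (hy j)
    have hg0 : ∀ i, 0 ≤ g i := fun i => by rw [hg]; exact sum_nonneg (hf0 i)
    have hpm : ∀ i, g i ^ (k + 1) ≤ N ^ k * ∑ a ∈ A, (∏ j, W (e i j) a (y j)) ^ (k + 1) := by
      intro i
      rw [hg, hN]
      exact pow_sum_le_card_mul_sum_pow (hf0 i) k
    simp_rw [hgi]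
    have hlast : 0 ≤ ∑ i, N ^ k * ∑ a ∈ A, (∏ j, W (e i j) a (y j)) ^ (k + 1) :=
      sum_nonneg fun i _ => (pow_nonneg (hg0 i) _).trans (hpm i)
    have hfirst : 0 ≤ (R * N) ^ k * ∑ i, |g i - N| := mul_nonneg (pow_nonneg hRN.le _) (sum_nonneg fun i _ => abs_nonneg _)
    by_cases hc : ∀ i, g i ≤ R * N
    · have h2 := prod_close univ g N (R * N) hN0.le hNRN (fun i _ => hg0 i) (fun i _ => hc i)
      rw [Finset.card_univ, Fintype.card_fin] at h2
      linarith only [h2, hlast]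
    · push Not at hc
      obtain ⟨i₁, hi₁⟩ := hc
      haveI : Nonempty (Fin k) := ⟨i₁⟩
      obtain ⟨i₀, hi₀⟩ := Finite.exists_max g
      have h1 : R * N < g i₀ := lt_of_lt_of_le hi₁ (hi₀ i₁)
      have h2 : ∏ i, g i ≤ g i₀ ^ k := by
        calc ∏ i, g i ≤ ∏ _i : Fin k, g i₀ := prod_le_prod (fun i _ => hg0 i) fun i _ => hi₀ i
          _ = g i₀ ^ k := by rw [prod_const, Finset.card_univ, Fintype.card_fin]
      have h3 : N ^ k ≤ g i₀ ^ k := pow_le_pow_left₀ hN0.le (hNRN.trans h1.le) k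
      have h4 : 0 ≤ ∏ i, g i := prod_nonneg fun i _ => hg0 i
      have h5 : 0 ≤ N ^ k := pow_nonneg hN0.le k
      have h6 : |∏ i, g i - N ^ k| ≤ g i₀ ^ k := by
        rw [abs_le]
        constructor
        · linarith only [h3, h4]
        · linarith only [h2, h5]
      have h7 : |∏ i, g i - N ^ k| * (R * N) ≤ g i₀ ^ (k + 1) := by
        rw [pow_succ]
        exact mul_le_mul h6 h1.le hRN.le (pow_nonneg (hg0 _) _)
      have h8 : N ^ k * ∑ a ∈ A, (∏ j, W (e i₀ j) a (y j)) ^ (k + 1) ≤ ∑ i, N ^ k * ∑ a ∈ A, (∏ j, W (e i j) a (y j)) ^ (k + 1) :=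
        single_le_sum (f := fun i => N ^ k * ∑ a ∈ A, (∏ j, W (e i j) a (y j)) ^ (k + 1))
          (fun i _ => (pow_nonneg (hg0 i) _).trans (hpm i)) (mem_univ i₀)
      linarith only [h7, hpm i₀, h8, hfirst]
  have hsum := sum_le_sum key
  rw [← sum_mul, sum_add_distrib, ← mul_sum] at hsum
  have h3 : ∑ y ∈ Fintype.piFinset (fun _ : Fin s => C), ∑ i, |∑ a ∈ A, ∏ j, W (e i j) a (y j) - N| ≤
      k * (δ' * (N * (C.card : ℝ) ^ s)) := by
    rw [sum_comm]
    have h4 : ∀ i ∈ (univ : Finset (Fin k)), ∑ y ∈ Fintype.piFinset (fun _ : Fin s => C), |∑ a ∈ A, ∏ j, W (e i j) a (y j) - N| ≤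
        δ' * (N * (C.card : ℝ) ^ s) := by
      intro i _
      rw [hN]
      exact h ι (e i) A C W hF
    refine (sum_le_sum h4).trans (le_of_eq ?_)
    rw [sum_const, nsmul_eq_mul, Finset.card_univ, Fintype.card_fin]
  have h4 : ∑ y ∈ Fintype.piFinset (fun _ : Fin s => C), ∑ i, N ^ k * ∑ a ∈ A, (∏ j, W (e i j) a (y j)) ^ (k + 1) ≤
      k * (N ^ k * (N * (M ^ s * (C.card : ℝ) ^ s))) := by
    rw [sum_comm]
    have h5 : ∀ i ∈ (univ : Finset (Fin k)), ∑ y ∈ Fintype.piFinset (fun _ : Fin s => C),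
        N ^ k * ∑ a ∈ A, (∏ j, W (e i j) a (y j)) ^ (k + 1) ≤ N ^ k * (N * (M ^ s * (C.card : ℝ) ^ s)) := by
      intro i _
      rw [← mul_sum]
      apply mul_le_mul_of_nonneg_left _ (by positivity)
      rw [hN]
      exact row_pow hM0.le hF s (k + 1) (e i) hk
    refine (sum_le_sum h5).trans (le_of_eq ?_)
    rw [sum_const, nsmul_eq_mul, Finset.card_univ, Fintype.card_fin]
  have h5 : (R * N) ^ k * (k * (δ' * (N * (C.card : ℝ) ^ s))) ≤ δ / 2 * (N ^ k * (C.card : ℝ) ^ s) * (R * N) := by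
    have e1 : (R * N) ^ k * (k * (δ' * (N * (C.card : ℝ) ^ s))) = (k * R ^ k * δ') * (N ^ k * (C.card : ℝ) ^ s) * N := by
      rw [mul_pow]; ring
    have e2 : k * R ^ k * δ' ≤ δ / 2 := by
      rw [hδ', ← mul_div_assoc, div_le_div_iff₀ (by positivity) (by norm_num)]
      have : 0 < R ^ k := by positivity
      nlinarith
    have e3 : δ / 2 * (N ^ k * (C.card : ℝ) ^ s) * N ≤ δ / 2 * (N ^ k * (C.card : ℝ) ^ s) * (R * N) :=
      mul_le_mul_of_nonneg_left hNRN (by positivity)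
    rw [e1]
    refine le_trans ?_ e3
    exact mul_le_mul_of_nonneg_right (mul_le_mul_of_nonneg_right e2 (by positivity)) hN0.le
  have h6 : k * (N ^ k * (N * (M ^ s * (C.card : ℝ) ^ s))) ≤ δ / 2 * (N ^ k * (C.card : ℝ) ^ s) * (R * N) := by
    have e1 : k * (N ^ k * (N * (M ^ s * (C.card : ℝ) ^ s))) = (k * M ^ s / R) * (N ^ k * (C.card : ℝ) ^ s) * (R * N) := by
      field_simp
    rw [e1]
    exact mul_le_mul_of_nonneg_right (mul_le_mul_of_nonneg_right hMR (by positivity)) hRN.le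
  have h7 : (∑ y ∈ Fintype.piFinset (fun _ : Fin s => C), |∏ i, ∑ a ∈ A, ∏ j, W (e i j) a (y j) - N ^ k|) * (R * N) ≤
      (δ * (N ^ k * (C.card : ℝ) ^ s)) * (R * N) := by
    have e1 : (δ * (N ^ k * (C.card : ℝ) ^ s)) * (R * N) = δ / 2 * (N ^ k * (C.card : ℝ) ^ s) * (R * N) +
        δ / 2 * (N ^ k * (C.card : ℝ) ^ s) * (R * N) := by ring
    rw [e1]
    exact hsum.trans (add_le_add ((mul_le_mul_of_nonneg_left h3 (by positivity)).trans h5) (h4.trans h6))
  exact le_of_mul_le_mul_right h7 hRN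

lemma sum_append {α : Type} (A : Finset α) (r k : ℕ) (f : (Fin (r + k) → α) → ℝ) :
    ∑ x ∈ Fintype.piFinset (fun _ : Fin (r + k) => A), f x =
      ∑ a ∈ Fintype.piFinset (fun _ : Fin r => A), ∑ a' ∈ Fintype.piFinset (fun _ : Fin k => A), f (Fin.append a a') := by
  rw [← sum_product']
  symm
  refine sum_bij' (fun p _ => Fin.append p.1 p.2) (fun x _ => (fun i => x (Fin.castAdd k i), fun i => x (Fin.natAdd r i)))
    ?_ ?_ ?_ ?_ ?_
  · intro p hp
    rw [mem_product, Fintype.mem_piFinset, Fintype.mem_piFinset] at hp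
    rw [Fintype.mem_piFinset]
    intro i
    refine Fin.addCases ?_ ?_ i
    · intro i'; rw [Fin.append_left]; exact hp.1 i'
    · intro i'; rw [Fin.append_right]; exact hp.2 i'
  · intro x hx
    rw [Fintype.mem_piFinset] at hx
    rw [mem_product, Fintype.mem_piFinset, Fintype.mem_piFinset]
    exact ⟨fun i => hx _, fun i => hx _⟩
  · intro p _
    ext i
    · simp
    · simp
  · intro x _
    exact Fin.append_castAdd_natAdd
  · intro p _
    rfl

/-- the product over the new cells -/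
def cells {α β ι : Type} {r s k l : ℕ} (W : ι → α → β → ℝ) (σ : Fin r → Fin l → ι) (τ : Fin k → Fin s → ι) (υ : Fin k → Fin l → ι)
    (a : Fin r → α) (c : Fin s → β) (a' : Fin k → α) (c' : Fin l → β) : ℝ :=
  (∏ i, ∏ j, W (σ i j) (a i) (c' j)) * (∏ i, ∏ j, W (τ i j) (a' i) (c j)) * ∏ i, ∏ j, W (υ i j) (a' i) (c' j)

/-- the sum over the new columns -/
lemma sum_cols {α β ι : Type} {r s k l : ℕ} (C : Finset β) (W : ι → α → β → ℝ) (σ : Fin r → Fin l → ι) (τ : Fin k → Fin s → ι)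
    (υ : Fin k → Fin l → ι) (a : Fin r → α) (c : Fin s → β) (a' : Fin k → α) :
    ∑ c' ∈ Fintype.piFinset (fun _ : Fin l => C), cells W σ τ υ a c a' c' =
      (∏ i, ∏ j, W (τ i j) (a' i) (c j)) *
        ∏ j, ∑ x ∈ C, ∏ i, W (Fin.append (fun i => σ i j) (fun i => υ i j) i) (Fin.append a a' i) x := by
  have h1 : ∀ c' : Fin l → β, cells W σ τ υ a c a' c' = (∏ i, ∏ j, W (τ i j) (a' i) (c j)) *
      ∏ j, ∏ i, W (Fin.append (fun i => σ i j) (fun i => υ i j) i) (Fin.append a a' i) (c' j) := by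
    intro c'
    unfold cells
    have h2 : ∏ j, ∏ i, W (Fin.append (fun i => σ i j) (fun i => υ i j) i) (Fin.append a a' i) (c' j) =
        (∏ i, ∏ j, W (σ i j) (a i) (c' j)) * ∏ i, ∏ j, W (υ i j) (a' i) (c' j) := by
      have h3 : ∀ j, ∏ i, W (Fin.append (fun i => σ i j) (fun i => υ i j) i) (Fin.append a a' i) (c' j) =
          (∏ i, W (σ i j) (a i) (c' j)) * ∏ i, W (υ i j) (a' i) (c' j) := by
        intro j
        rw [Fin.prod_univ_add]
        simp only [Fin.append_left, Fin.append_right]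
      simp_rw [h3]
      rw [prod_mul_distrib]
      congr 1
      · exact Finset.prod_comm
      · exact Finset.prod_comm
    rw [h2]; ring
  simp_rw [h1]
  rw [← mul_sum, sum_prod_piFinset C (fun j x => ∏ i, W (Fin.append (fun i => σ i j) (fun i => υ i j) i) (Fin.append a a' i) x)]

/-- **The asymptotic formula for the new cells.** -/
theorem asym (α β : Type) (r s k l : ℕ) (M δ : ℝ) (hM : 1 ≤ M) (hδ : 0 < δ) : ∃ δ₂ : ℝ, 0 < δ₂ ∧
    ∀ (ι : Type) (σ : Fin r → Fin l → ι) (τ : Fin k → Fin s → ι) (υ : Fin k → Fin l → ι) (A : Finset α) (C : Finset β)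
      (W : ι → α → β → ℝ), Fam (4 * (r + k) + 3) A C W M δ₂ →
    ∑ a ∈ Fintype.piFinset (fun _ : Fin r => A), ∑ c ∈ Fintype.piFinset (fun _ : Fin s => C),
      |∑ a' ∈ Fintype.piFinset (fun _ : Fin k => A), ∑ c' ∈ Fintype.piFinset (fun _ : Fin l => C), cells W σ τ υ a c a' c' -
        (A.card : ℝ) ^ k * (C.card : ℝ) ^ l| ≤
      δ * ((A.card : ℝ) ^ r * (C.card : ℝ) ^ s * ((A.card : ℝ) ^ k * (C.card : ℝ) ^ l)) := by
  have hM0 : 0 < M := by linarith only [hM]
  obtain ⟨B, hB⟩ : ∃ B : ℝ, B = 1 + ((r + k : ℕ) : ℝ) * M := ⟨_, rfl⟩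
  obtain ⟨B', hB'⟩ : ∃ B' : ℝ, B' = 1 + (k : ℝ) * M := ⟨_, rfl⟩
  have hB1 : 1 ≤ B := by
    have : 0 ≤ ((r + k : ℕ) : ℝ) * M := by positivity
    linarith only [hB, this]
  have hB'1 : 1 ≤ B' := by
    have : 0 ≤ (k : ℝ) * M := by positivity
    linarith only [hB', this]
  have hB0 : 0 < B := by linarith only [hB1]
  have hB'0 : 0 < B' := by linarith only [hB'1]
  obtain ⟨δ', hδ'⟩ : ∃ δ', δ' = δ / (2 * ((l + 1) * B ^ l * B' ^ s)) := ⟨_, rfl⟩
  have hδ'0 : 0 < δ' := by rw [hδ']; positivity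
  obtain ⟨δ₁, hδ₁, h1⟩ := colstar α β (4 * (r + k) + 3) (r + k) M δ' hM hδ'0 (by omega)
  obtain ⟨δ₃, hδ₃, h3⟩ := rowprod α β (4 * (r + k) + 3) s k M (δ / 2) hM (half_pos hδ) (by omega) (by omega)
  refine ⟨min δ₁ δ₃, lt_min hδ₁ hδ₃, fun ι σ τ υ A C W hF => ?_⟩
  have hF1 : Fam (4 * (r + k) + 3) A C W M δ₁ := hF.weaken (min_le_left _ _)
  have hF3 : Fam (4 * (r + k) + 3) A C W M δ₃ := hF.weaken (min_le_right _ _)
  have g1 := fun e => h1 ι e A C W hF1
  have g3 := h3 ι τ A C W hF3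
  obtain ⟨N, hN⟩ : ∃ N : ℝ, N = A.card := ⟨_, rfl⟩
  obtain ⟨K, hK⟩ : ∃ K : ℝ, K = C.card := ⟨_, rfl⟩
  have hN0 : 0 ≤ N := by rw [hN]; exact Nat.cast_nonneg _
  have hK0 : 0 ≤ K := by rw [hK]; exact Nat.cast_nonneg _
  simp_rw [← hN, ← hK] at g1
  rw [← hN, ← hK] at g3 ⊢
  -- the sums over the columns
  obtain ⟨q, hq⟩ : ∃ q : Fin l → (Fin (r + k) → α) → ℝ,
    q = fun j x => ∑ y ∈ C, ∏ i, W (Fin.append (fun i => σ i j) (fun i => υ i j) i) (x i) y := ⟨_, rfl⟩
  have g1' : ∑ x ∈ Fintype.piFinset (fun _ : Fin (r + k) => A), |∏ j, q j x - K ^ l| ≤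
      δ / 2 / B' ^ s * (N ^ (r + k) * K ^ l) := by
    rcases hK0.lt_or_eq with hKp | hKz
    · have hBK : 0 < B * K := mul_pos hB0 hKp
      have hKB : K ≤ B * K := by
        calc K = 1 * K := (one_mul K).symm
          _ ≤ B * K := mul_le_mul_of_nonneg_right hB1 hK0
      have hpt : ∀ x ∈ Fintype.piFinset (fun _ : Fin (r + k) => A), |∏ j, q j x - K ^ l| * (B * K) ≤
          (B * K) ^ l * ∑ j, |q j x - K| := by
        intro x hx
        rw [Fintype.mem_piFinset] at hx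
        have h4 := prod_close univ (fun j => q j x) K (B * K) hK0 hKB (fun j _ => by
          rw [hq]; exact sum_nonneg fun y hy => prod_nonneg fun i _ => hF.nn _ _ (hx i) y hy) (fun j _ => by
          have := row_prod hF (Fin.append (fun i => σ i j) (fun i => υ i j)) 1 (by omega) x hx
          simp only [pow_one] at this
          rw [hq, hB, hK]
          exact this)
        rw [Finset.card_univ, Fintype.card_fin] at h4
        exact h4
      have h4 := sum_le_sum hpt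
      rw [← sum_mul, ← mul_sum, sum_comm] at h4
      have h5 : ∑ j, ∑ x ∈ Fintype.piFinset (fun _ : Fin (r + k) => A), |q j x - K| ≤ l * (δ' * (N ^ (r + k) * K)) := by
        have h6 : ∀ j ∈ (univ : Finset (Fin l)), ∑ x ∈ Fintype.piFinset (fun _ : Fin (r + k) => A), |q j x - K| ≤ δ' * (N ^ (r + k) * K) := by
          intro j _
          rw [hq]
          exact g1 (Fin.append (fun i => σ i j) (fun i => υ i j))
        refine (sum_le_sum h6).trans (le_of_eq ?_)
        rw [sum_const, nsmul_eq_mul, Finset.card_univ, Fintype.card_fin]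
      have h6 : (B * K) ^ l * (l * (δ' * (N ^ (r + k) * K))) ≤ δ / 2 / B' ^ s * (N ^ (r + k) * K ^ l) * (B * K) := by
        have e1 : (B * K) ^ l * (l * (δ' * (N ^ (r + k) * K))) = (l * B ^ l * δ') * (N ^ (r + k) * K ^ l) * K := by
          rw [mul_pow]; ring
        have e2 : l * B ^ l * δ' ≤ δ / 2 / B' ^ s := by
          rw [hδ', ← mul_div_assoc, div_div, div_le_div_iff₀ (by positivity) (by positivity)]
          have h7 : 0 ≤ δ * B ^ l * B' ^ s := by positivity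
          have e3 : δ * (2 * ((l + 1) * B ^ l * B' ^ s)) - l * B ^ l * δ * (2 * B' ^ s) = 2 * (δ * B ^ l * B' ^ s) := by ring
          linarith only [h7, e3]
        rw [e1]
        calc (l * B ^ l * δ') * (N ^ (r + k) * K ^ l) * K ≤ δ / 2 / B' ^ s * (N ^ (r + k) * K ^ l) * K :=
              mul_le_mul_of_nonneg_right (mul_le_mul_of_nonneg_right e2 (by positivity)) hK0
          _ ≤ δ / 2 / B' ^ s * (N ^ (r + k) * K ^ l) * (B * K) := mul_le_mul_of_nonneg_left hKB (by positivity)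
      exact le_of_mul_le_mul_right (h4.trans ((mul_le_mul_of_nonneg_left h5 (by positivity)).trans h6)) hBK
    · -- no columns
      have hC : C = ∅ := by
        have : C.card = 0 := by
          have : (C.card : ℝ) = 0 := by rw [← hK, ← hKz]
          exact_mod_cast this
        exact card_eq_zero.1 this
      have hz : ∀ j x, q j x = 0 := by intro j x; rw [hq]; simp [hC]
      have hz2 : ∀ x : Fin (r + k) → α, |∏ j, q j x - K ^ l| = 0 := by
        intro x
        simp only [hz, ← hKz, prod_const, Finset.card_univ, Fintype.card_fin, sub_self, abs_zero]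
      simp only [hz2, sum_const_zero]
      positivity
  -- the pointwise estimate
  have key : ∀ a ∈ Fintype.piFinset (fun _ : Fin r => A), ∀ c ∈ Fintype.piFinset (fun _ : Fin s => C),
      |∑ a' ∈ Fintype.piFinset (fun _ : Fin k => A), ∑ c' ∈ Fintype.piFinset (fun _ : Fin l => C), cells W σ τ υ a c a' c' - N ^ k * K ^ l| ≤
      ∑ a' ∈ Fintype.piFinset (fun _ : Fin k => A), (∏ i, ∏ j, W (τ i j) (a' i) (c j)) * |∏ j, q j (Fin.append a a') - K ^ l| +
        K ^ l * |∏ i, ∑ x ∈ A, ∏ j, W (τ i j) x (c j) - N ^ k| := by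
    intro a ha c hc
    rw [Fintype.mem_piFinset] at hc
    have e1 : ∑ a' ∈ Fintype.piFinset (fun _ : Fin k => A), ∑ c' ∈ Fintype.piFinset (fun _ : Fin l => C), cells W σ τ υ a c a' c' =
        ∑ a' ∈ Fintype.piFinset (fun _ : Fin k => A), (∏ i, ∏ j, W (τ i j) (a' i) (c j)) * ∏ j, q j (Fin.append a a') := by
      apply sum_congr rfl
      intro a' _
      rw [sum_cols, hq]
    have e2 : ∑ a' ∈ Fintype.piFinset (fun _ : Fin k => A), (∏ i, ∏ j, W (τ i j) (a' i) (c j)) = ∏ i, ∑ x ∈ A, ∏ j, W (τ i j) x (c j) := by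
      rw [sum_prod_piFinset A (fun i x => ∏ j, W (τ i j) x (c j))]
    have e3 : ∑ a' ∈ Fintype.piFinset (fun _ : Fin k => A), ∑ c' ∈ Fintype.piFinset (fun _ : Fin l => C), cells W σ τ υ a c a' c' - N ^ k * K ^ l =
        ∑ a' ∈ Fintype.piFinset (fun _ : Fin k => A), (∏ i, ∏ j, W (τ i j) (a' i) (c j)) * (∏ j, q j (Fin.append a a') - K ^ l) +
        K ^ l * (∏ i, ∑ x ∈ A, ∏ j, W (τ i j) x (c j) - N ^ k) := by
      rw [e1, ← e2]
      have : ∑ a' ∈ Fintype.piFinset (fun _ : Fin k => A), (∏ i, ∏ j, W (τ i j) (a' i) (c j)) * (∏ j, q j (Fin.append a a') - K ^ l) =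
          ∑ a' ∈ Fintype.piFinset (fun _ : Fin k => A), (∏ i, ∏ j, W (τ i j) (a' i) (c j)) * ∏ j, q j (Fin.append a a') -
          K ^ l * ∑ a' ∈ Fintype.piFinset (fun _ : Fin k => A), (∏ i, ∏ j, W (τ i j) (a' i) (c j)) := by
        rw [mul_sum, ← sum_sub_distrib]
        exact sum_congr rfl fun a' _ => by ring
      rw [this]; ring
    rw [e3]
    refine (abs_add_le _ _).trans (add_le_add ?_ (le_of_eq ?_))
    · refine (abs_sum_le_sum_abs _ _).trans (sum_le_sum fun a' ha' => le_of_eq ?_)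
      rw [Fintype.mem_piFinset] at ha'
      rw [abs_mul, abs_of_nonneg (prod_nonneg fun i _ => prod_nonneg fun j _ => hF.nn _ _ (ha' i) _ (hc j))]
    · rw [abs_mul, abs_of_nonneg (pow_nonneg hK0 l)]
  refine (sum_le_sum fun a ha => sum_le_sum fun c hc => key a ha c hc).trans ?_
  simp_rw [sum_add_distrib]
  rw [sum_const, nsmul_eq_mul, card_pow_fin, ← mul_sum, ← hN]
  have p1 : ∑ a ∈ Fintype.piFinset (fun _ : Fin r => A), ∑ c ∈ Fintype.piFinset (fun _ : Fin s => C),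
      ∑ a' ∈ Fintype.piFinset (fun _ : Fin k => A), (∏ i, ∏ j, W (τ i j) (a' i) (c j)) * |∏ j, q j (Fin.append a a') - K ^ l| ≤
      (B' * K) ^ s * (δ / 2 / B' ^ s * (N ^ (r + k) * K ^ l)) := by
    have p2 : ∀ a ∈ Fintype.piFinset (fun _ : Fin r => A), ∑ c ∈ Fintype.piFinset (fun _ : Fin s => C),
        ∑ a' ∈ Fintype.piFinset (fun _ : Fin k => A), (∏ i, ∏ j, W (τ i j) (a' i) (c j)) * |∏ j, q j (Fin.append a a') - K ^ l| ≤
        ∑ a' ∈ Fintype.piFinset (fun _ : Fin k => A), (B' * K) ^ s * |∏ j, q j (Fin.append a a') - K ^ l| := by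
      intro a _
      rw [sum_comm]
      apply sum_le_sum
      intro a' ha'
      rw [Fintype.mem_piFinset] at ha'
      rw [← sum_mul]
      apply mul_le_mul_of_nonneg_right _ (abs_nonneg _)
      have e : ∀ c : Fin s → β, ∏ i, ∏ j, W (τ i j) (a' i) (c j) = ∏ j, ∏ i, W (τ i j) (a' i) (c j) := fun c => prod_comm
      simp_rw [e]
      rw [sum_prod_piFinset C (fun j x => ∏ i, W (τ i j) (a' i) x)]
      have p3 : ∏ j : Fin s, ∑ x ∈ C, ∏ i, W (τ i j) (a' i) x ≤ ∏ _j : Fin s, (B' * K) := by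
        apply prod_le_prod (fun j _ => sum_nonneg fun y hy => prod_nonneg fun i _ => hF.nn _ _ (ha' i) y hy)
        intro j _
        have := row_prod hF (fun i => τ i j) 1 (by omega) a' ha'
        simp only [pow_one] at this
        rw [hB', hK]
        exact this
      rw [prod_const, Finset.card_univ, Fintype.card_fin] at p3
      exact p3
    refine (sum_le_sum p2).trans ?_
    simp_rw [← mul_sum]
    rw [← sum_append A r k (fun x => |∏ j, q j x - K ^ l|)]
    exact mul_le_mul_of_nonneg_left g1' (by positivity)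
  have p3 : (B' * K) ^ s * (δ / 2 / B' ^ s * (N ^ (r + k) * K ^ l)) = δ / 2 * (N ^ r * K ^ s * (N ^ k * K ^ l)) := by
    rw [mul_pow, pow_add]
    first | (field_simp; done) | (field_simp; ring)
  have p4 : N ^ r * (K ^ l * ∑ y ∈ Fintype.piFinset (fun _ : Fin s => C), |∏ i, ∑ x ∈ A, ∏ j, W (τ i j) x (y j) - N ^ k|) ≤
      N ^ r * (K ^ l * (δ / 2 * (N ^ k * K ^ s))) := by
    apply mul_le_mul_of_nonneg_left _ (by positivity)
    exact mul_le_mul_of_nonneg_left g3 (by positivity)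
  have p5 : N ^ r * (K ^ l * (δ / 2 * (N ^ k * K ^ s))) = δ / 2 * (N ^ r * K ^ s * (N ^ k * K ^ l)) := by ring
  linarith only [p1, p3, p4, p5]

open Classical in
/-- the asymptotic formula for almost all roots -/
theorem asym_good (α β : Type) (r s k l : ℕ) (M δ : ℝ) (hM : 1 ≤ M) (hδ : 0 < δ) : ∃ δ₂ : ℝ, 0 < δ₂ ∧
    ∀ (ι : Type) (σ : Fin r → Fin l → ι) (τ : Fin k → Fin s → ι) (υ : Fin k → Fin l → ι) (A : Finset α) (C : Finset β)
      (W : ι → α → β → ℝ), Fam (4 * (r + k) + 3) A C W M δ₂ →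
    (((Fintype.piFinset (fun _ : Fin r => A) ×ˢ Fintype.piFinset (fun _ : Fin s => C)).filter (fun z =>
      δ * ((A.card : ℝ) ^ k * (C.card : ℝ) ^ l) <
      |∑ a' ∈ Fintype.piFinset (fun _ : Fin k => A), ∑ c' ∈ Fintype.piFinset (fun _ : Fin l => C), cells W σ τ υ z.1 z.2 a' c' -
        (A.card : ℝ) ^ k * (C.card : ℝ) ^ l|)).card : ℝ) ≤
      δ * ((A.card : ℝ) ^ r * (C.card : ℝ) ^ s) := by
  obtain ⟨δ₂, hδ₂, h⟩ := asym α β r s k l M (δ ^ 2) hM (by positivity)
  refine ⟨δ₂, hδ₂, fun ι σ τ υ A C W hF => ?_⟩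
  have h1 := h ι σ τ υ A C W hF
  rw [← sum_product'] at h1
  obtain ⟨T, hT⟩ : ∃ T : ℝ, T = (A.card : ℝ) ^ k * (C.card : ℝ) ^ l := ⟨_, rfl⟩
  have hT0 : 0 ≤ T := by rw [hT]; positivity
  rcases hT0.lt_or_eq with hTp | hTz
  · rw [← hT] at h1 ⊢
    have h2 := markov (Fintype.piFinset (fun _ : Fin r => A) ×ˢ Fintype.piFinset (fun _ : Fin s => C))
      (fun z => |∑ a' ∈ Fintype.piFinset (fun _ : Fin k => A), ∑ c' ∈ Fintype.piFinset (fun _ : Fin l => C), cells W σ τ υ z.1 z.2 a' c' - T|)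
      (fun _ _ => abs_nonneg _) _ (δ * T) (by positivity) h1
      (fun z => δ * T < |∑ a' ∈ Fintype.piFinset (fun _ : Fin k => A), ∑ c' ∈ Fintype.piFinset (fun _ : Fin l => C), cells W σ τ υ z.1 z.2 a' c' - T|)
      (fun z _ hz => hz.le)
    refine h2.trans (le_of_eq ?_)
    first | (field_simp; done) | (field_simp; ring)
  · -- degenerate cases
    have hz : ∀ z ∈ Fintype.piFinset (fun _ : Fin r => A) ×ˢ Fintype.piFinset (fun _ : Fin s => C),
        ∑ a' ∈ Fintype.piFinset (fun _ : Fin k => A), ∑ c' ∈ Fintype.piFinset (fun _ : Fin l => C), cells W σ τ υ z.1 z.2 a' c' = 0 := by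
      intro z _
      have h2 : (((Fintype.piFinset (fun _ : Fin k => A) ×ˢ Fintype.piFinset (fun _ : Fin l => C)).card : ℕ) : ℝ) = 0 := by
        rw [card_product]
        push_cast
        rw [card_pow_fin, card_pow_fin, ← hT, ← hTz]
      have h3 : Fintype.piFinset (fun _ : Fin k => A) ×ˢ Fintype.piFinset (fun _ : Fin l => C) = ∅ := by
        apply card_eq_zero.1
        exact_mod_cast h2
      rw [← sum_product', h3, sum_empty]
    rw [filter_false_of_mem]
    · simp only [card_empty, Nat.cast_zero]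
      positivity
    · intro z hz'
      rw [hz z hz', ← hT, ← hTz]
      simp

end Pool.Agent.V11316.TB
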