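import Pool.Agent.Y851.PT.P12
import Pool.Agent.TH882.U1

/-! Moments of the window counts of a row. -/

set_option autoImplicit false

namespace Pool.Agent.V11316.TB
open Finset Filter
open Pool.Agent.Y851.PS
open Pool.Agent.Y851.PT
open Pool.Agent.TH882.IX (pw)

/-- powers and binomial coefficients -/
lemma pow_choose (m t : ℕ) : (t : ℝ) ^ m ≤ (2 * m : ℝ) ^ m + 2 ^ m * m.factorial * (t.choose m : ℝ) := by
  by_cases h : t ≤ 2 * m
  · have h1 : (t : ℝ) ≤ 2 * m := by exact_mod_cast h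
    have h2 : (t : ℝ) ^ m ≤ (2 * m : ℝ) ^ m := pow_le_pow_left₀ (Nat.cast_nonneg _) h1 m
    have h3 : (0 : ℝ) ≤ 2 ^ m * m.factorial * (t.choose m : ℝ) := by positivity
    linarith only [h2, h3]
  · push Not at h
    have h1 : (t + 1 - m) ^ m ≤ t.descFactorial m := Nat.pow_sub_le_descFactorial t m
    have h2 : t.descFactorial m = m.factorial * t.choose m := Nat.descFactorial_eq_factorial_mul_choose t m
    have h3 : t ≤ 2 * (t + 1 - m) := by omega
    have h4 : t ^ m ≤ 2 ^ m * (m.factorial * t.choose m) := by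
      calc t ^ m ≤ (2 * (t + 1 - m)) ^ m := Nat.pow_le_pow_left h3 m
        _ = 2 ^ m * (t + 1 - m) ^ m := by rw [mul_pow]
        _ ≤ 2 ^ m * t.descFactorial m := Nat.mul_le_mul_left _ h1
        _ = _ := by rw [h2]
    have h5 : (t : ℝ) ^ m ≤ 2 ^ m * (m.factorial * (t.choose m : ℝ)) := by exact_mod_cast h4
    have h6 : (0 : ℝ) ≤ (2 * m : ℝ) ^ m := by positivity
    linarith only [h5, h6]

open Classical in
/-- the primes `p` with `n < p + Q ≤ n + J` -/
noncomputable def vw (Q n J : ℕ) : ℕ := ((Icc 1 (n + J)).filter (fun p => p.Prime ∧ n < p + Q ∧ p + Q ≤ n + J)).card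

lemma vw_mono {Q n J J' : ℕ} (h : J ≤ J') : vw Q n J ≤ vw Q n J' := by
  classical
  unfold vw
  apply card_le_card
  intro p hp
  rw [mem_filter, mem_Icc] at hp ⊢
  exact ⟨⟨hp.1.1, by omega⟩, hp.2.1, hp.2.2.1, by omega⟩

lemma vw_add (Q n J₁ J₂ : ℕ) : vw Q n (J₁ + J₂) ≤ vw Q n J₁ + vw Q (n + J₁) J₂ := by
  classical
  unfold vw
  refine le_trans (card_le_card ?_) (card_union_le _ _)
  intro p hp
  rw [mem_filter, mem_Icc] at hp
  rw [mem_union, mem_filter, mem_filter, mem_Icc, mem_Icc]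
  by_cases h : p + Q ≤ n + J₁
  · left
    exact ⟨⟨hp.1.1, by omega⟩, hp.2.1, hp.2.2.1, h⟩
  · right
    exact ⟨⟨hp.1.1, by omega⟩, hp.2.1, by omega, by omega⟩

lemma vw_zero (Q n : ℕ) : vw Q n 0 = 0 := by
  classical
  unfold vw
  rw [card_eq_zero, filter_eq_empty_iff]
  rintro p _ ⟨_, h2, h3⟩
  omega

lemma vw_mul (Q n J q : ℕ) : vw Q n (q * J) ≤ ∑ i ∈ range q, vw Q (n + i * J) J := by
  induction q with
  | zero => rw [zero_mul, vw_zero]; exact Nat.zero_le _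
  | succ q ih =>
    rw [sum_range_succ, add_mul, one_mul]
    exact (vw_add Q n (q * J) J).trans (Nat.add_le_add_right ih _)

lemma vw_le (Q n J : ℕ) : vw Q n J ≤ J := by
  classical
  unfold vw
  have h1 : ((Icc 1 (n + J)).filter (fun p => p.Prime ∧ n < p + Q ∧ p + Q ≤ n + J)).card ≤ (Ioc n (n + J)).card := by
    apply card_le_card_of_injOn (fun p => p + Q)
    · intro p hp
      have hp' := mem_filter.1 (mem_coe.1 hp)
      rw [mem_coe, mem_Ioc]
      exact ⟨hp'.2.2.1, hp'.2.2.2⟩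
    · intro p _ p' _ h
      simp only at h
      omega
  rw [Nat.card_Ioc] at h1
  omega

lemma vw_low {Q n J : ℕ} (h : n + J ≤ Q) : vw Q n J = 0 := by
  classical
  unfold vw
  rw [card_eq_zero, filter_eq_empty_iff]
  rintro p _ ⟨h1, h2, h3⟩
  have := h1.pos
  omega

lemma vw_shift (Q m J : ℕ) : vw Q (Q + m) J = pw m J := by
  classical
  unfold vw pw
  congr 1
  ext p
  rw [mem_filter, mem_filter, mem_Icc, mem_Ioc]
  constructor
  · rintro ⟨h1, h2, h3, h4⟩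
    exact ⟨by omega, h2⟩
  · rintro ⟨h1, h2⟩
    have := h2.pos
    exact ⟨by omega, h2, by omega, by omega⟩

/-- growth -/
lemma log_pow_le (k : ℕ) (A : ℝ) (hA : 0 ≤ A) : ∀ᶠ N : ℕ in atTop, A * (2 * Real.log (N : ℝ)) ^ k ≤ N := by
  have tN : Tendsto (fun N : ℕ => (N : ℝ)) atTop atTop := tendsto_natCast_atTop_atTop
  have h := ((Real.isLittleO_pow_log_id_atTop (n := k)).bound (show 0 < 1 / (A * 2 ^ k + 1) by positivity))
  filter_upwards [tN.eventually h, eventually_ge_atTop 1] with N hN hN1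
  have hN1' : (1 : ℝ) ≤ N := by exact_mod_cast hN1
  have hL0 : 0 ≤ Real.log (N : ℝ) := Real.log_nonneg hN1'
  rw [Real.norm_of_nonneg (by positivity), id, Real.norm_of_nonneg (by positivity)] at hN
  calc A * (2 * Real.log (N : ℝ)) ^ k = (A * 2 ^ k) * Real.log (N : ℝ) ^ k := by rw [mul_pow]; ring
    _ ≤ (A * 2 ^ k) * (1 / (A * 2 ^ k + 1) * N) := mul_le_mul_of_nonneg_left hN (by positivity)
    _ ≤ N := by
      have e : (A * 2 ^ k) * (1 / (A * 2 ^ k + 1) * N) = N - 1 / (A * 2 ^ k + 1) * N := by field_simp; ring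
      rw [e]
      have : 0 ≤ 1 / (A * 2 ^ k + 1) * (N : ℝ) := by positivity
      linarith only [this]

/-- **moments of the windows of logarithmic length** -/
theorem mom_log (m : ℕ) : ∃ K : ℝ, 0 < K ∧ ∃ N₀ : ℕ, ∀ N : ℕ, N₀ ≤ N → ∀ Q : ℕ,
    ∑ n ∈ range (Q + (N + 1)), (vw Q n ⌈Real.log N⌉₊ : ℝ) ^ (m + 1) ≤ K * N := by
  obtain ⟨D, hD, N₁, h1⟩ := Pool.Agent.TH882.IX.mom m 2
  have tN : Tendsto (fun N : ℕ => (N : ℝ)) atTop atTop := tendsto_natCast_atTop_atTop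
  have tL : Tendsto (fun N : ℕ => Real.log (N : ℝ)) atTop atTop := Real.tendsto_log_atTop.comp tN
  obtain ⟨N₂, h2⟩ := eventually_atTop.1 ((log_pow_le (m + 2) 1 zero_le_one).and ((log_pow_le (m + 1) 1 zero_le_one).and
    (tL.eventually_ge_atTop 2)))
  refine ⟨1 + 1 + ((2 * ((m + 1 : ℕ) : ℝ)) ^ (m + 1) + 2 ^ (m + 1) * (m + 1).factorial * (D * 2 ^ (m + 1))), by positivity,
    max (max N₁ N₂) 2, fun N hN Q => ?_⟩
  obtain ⟨g1, g2, g3⟩ := h2 N (((le_max_right _ _).trans (le_max_left _ _)).trans hN)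
  have hNN₁ : N₁ ≤ N := ((le_max_left _ _).trans (le_max_left _ _)).trans hN
  have hN2 : 2 ≤ N := (le_max_right _ _).trans hN
  have hL0 : 0 < Real.log (N : ℝ) := by linarith only [g3]
  obtain ⟨J, hJ⟩ : ∃ J, J = ⌈Real.log (N : ℝ)⌉₊ := ⟨_, rfl⟩
  rw [← hJ]
  have hJ1 : Real.log (N : ℝ) ≤ J := by rw [hJ]; exact Nat.le_ceil _
  have hJ2 : (J : ℝ) ≤ 2 * Real.log N := by
    rw [hJ]
    have := Nat.ceil_lt_add_one hL0.le
    linarith only [this, g3]
  have hJ0 : (0 : ℝ) ≤ J := Nat.cast_nonneg _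
  rw [one_mul] at g1 g2
  rw [sum_range_add]
  -- the first part
  have p1 : ∑ n ∈ range Q, (vw Q n J : ℝ) ^ (m + 1) ≤ N := by
    have e1 : ∑ n ∈ range Q, (vw Q n J : ℝ) ^ (m + 1) = ∑ n ∈ Ico (Q - J) Q, (vw Q n J : ℝ) ^ (m + 1) := by
      symm
      apply sum_subset
      · intro n hn
        rw [mem_Ico] at hn
        rw [mem_range]; exact hn.2
      · intro n hn hn2
        rw [mem_range] at hn
        rw [mem_Ico] at hn2
        rw [vw_low (by omega)]
        simp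
    rw [e1]
    have e2 : ∀ n ∈ Ico (Q - J) Q, (vw Q n J : ℝ) ^ (m + 1) ≤ (J : ℝ) ^ (m + 1) := fun n _ =>
      pow_le_pow_left₀ (Nat.cast_nonneg _) (Nat.cast_le.2 (vw_le Q n J)) _
    refine (sum_le_sum e2).trans ?_
    rw [sum_const, nsmul_eq_mul, Nat.card_Ico]
    have e3 : ((Q - (Q - J) : ℕ) : ℝ) ≤ J := by
      have : Q - (Q - J) ≤ J := by omega
      exact_mod_cast this
    calc ((Q - (Q - J) : ℕ) : ℝ) * (J : ℝ) ^ (m + 1) ≤ J * (J : ℝ) ^ (m + 1) := mul_le_mul_of_nonneg_right e3 (by positivity)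
      _ = (J : ℝ) ^ (m + 2) := by ring
      _ ≤ (2 * Real.log N) ^ (m + 2) := pow_le_pow_left₀ hJ0 hJ2 _
      _ ≤ N := g1
  -- the second part
  have p2 : ∑ j ∈ range (N + 1), (vw Q (Q + j) J : ℝ) ^ (m + 1) ≤ N + ∑ j ∈ Icc 1 N, (pw j J : ℝ) ^ (m + 1) := by
    have e1 : range (N + 1) = insert 0 (Icc 1 N) := by
      ext j
      rw [mem_range, mem_insert, mem_Icc]
      omega
    rw [e1, sum_insert (by rw [mem_Icc]; omega)]
    simp_rw [vw_shift]
    have e2 : (pw 0 J : ℝ) ^ (m + 1) ≤ N := by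
      rw [← vw_shift 0 0 J]
      calc (vw 0 (0 + 0) J : ℝ) ^ (m + 1) ≤ (J : ℝ) ^ (m + 1) := pow_le_pow_left₀ (Nat.cast_nonneg _) (Nat.cast_le.2 (vw_le _ _ J)) _
        _ ≤ (2 * Real.log N) ^ (m + 1) := pow_le_pow_left₀ hJ0 hJ2 _
        _ ≤ N := g2
    linarith only [e2]
  have p3 : ∑ j ∈ Icc 1 N, (pw j J : ℝ) ^ (m + 1) ≤
      ((2 * ((m + 1 : ℕ) : ℝ)) ^ (m + 1) + 2 ^ (m + 1) * (m + 1).factorial * (D * 2 ^ (m + 1))) * N := by
    refine (sum_le_sum fun j _ => pow_choose (m + 1) (pw j J)).trans ?_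
    rw [sum_add_distrib, sum_const, nsmul_eq_mul, Nat.card_Icc, ← mul_sum, Nat.add_sub_cancel]
    have e1 := h1 N hNN₁ J hJ1 (by
      refine hJ2.trans ?_
      nlinarith only [g3])
    have e2 : ((J : ℝ) / Real.log N) ^ (m + 1) ≤ 2 ^ (m + 1) := by
      apply pow_le_pow_left₀ (by positivity)
      rw [div_le_iff₀ hL0]
      exact hJ2
    have e3 : ∑ j ∈ Icc 1 N, (((pw j J).choose (m + 1) : ℕ) : ℝ) ≤ D * N * 2 ^ (m + 1) := by
      rw [← Nat.cast_sum]
      exact e1.trans (mul_le_mul_of_nonneg_left e2 (by positivity))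
    have e4 : 2 ^ (m + 1) * ((m + 1).factorial : ℝ) * ∑ j ∈ Icc 1 N, (((pw j J).choose (m + 1) : ℕ) : ℝ) ≤
        2 ^ (m + 1) * ((m + 1).factorial : ℝ) * (D * N * 2 ^ (m + 1)) := mul_le_mul_of_nonneg_left e3 (by positivity)
    refine (add_le_add le_rfl e4).trans (le_of_eq (by ring))
  have e : (1 + 1 + ((2 * ((m + 1 : ℕ) : ℝ)) ^ (m + 1) + 2 ^ (m + 1) * (m + 1).factorial * (D * 2 ^ (m + 1)))) * (N : ℝ) =
      N + N + ((2 * ((m + 1 : ℕ) : ℝ)) ^ (m + 1) + 2 ^ (m + 1) * (m + 1).factorial * (D * 2 ^ (m + 1))) * N := by ring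
  rw [e]
  linarith only [p1, p2, p3]

/-- integers in an interval -/
lemma card_int (y L : ℝ) (hy : 0 ≤ y) (hL : 0 ≤ L) (N : ℕ) (hN : y + L + 1 < N) :
    L ≤ (((range N).filter (fun n : ℕ => y ≤ n ∧ (n : ℝ) ≤ y + L + 1)).card : ℝ) := by
  have h1 : ((range (⌊L⌋₊ + 1)).image (fun i => ⌈y⌉₊ + i)) ⊆ (range N).filter (fun n : ℕ => y ≤ n ∧ (n : ℝ) ≤ y + L + 1) := by
    intro n hn
    obtain ⟨i, hi, rfl⟩ := mem_image.1 hn
    rw [mem_range] at hi
    have h2 : (i : ℝ) ≤ L := by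
      have h3 : (i : ℝ) ≤ ⌊L⌋₊ := by exact_mod_cast Nat.lt_succ_iff.1 hi
      exact h3.trans (Nat.floor_le hL)
    have h3 : y ≤ ⌈y⌉₊ := Nat.le_ceil y
    have h4 : (⌈y⌉₊ : ℝ) < y + 1 := Nat.ceil_lt_add_one hy
    have h5 : (0 : ℝ) ≤ i := Nat.cast_nonneg _
    rw [mem_filter, mem_range]
    push_cast
    refine ⟨?_, by linarith only [h3, h5], by linarith only [h2, h4]⟩
    have h6 : ((⌈y⌉₊ + i : ℕ) : ℝ) < N := by push_cast; linarith only [h2, h4, hN]
    exact_mod_cast h6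
  have h2 := card_le_card h1
  rw [card_image_of_injective _ (add_right_injective _), card_range] at h2
  have h3 := Nat.lt_floor_add_one L
  have h4 : ((⌊L⌋₊ + 1 : ℕ) : ℝ) ≤ (((range N).filter (fun n : ℕ => y ≤ n ∧ (n : ℝ) ≤ y + L + 1)).card : ℝ) := by exact_mod_cast h2
  push_cast at h4
  linarith only [h3, h4]

/-- **the window counts of a row** and the window counts of the integers -/
lemma row_windows {B H θ X : ℝ} {C : Finset ℝ} (h : SpH B H θ X C) (hX : 1 < X) (hH : 1 ≤ H) (hB : 0 ≤ B) {a : ℕ} (ha : 1 ≤ a)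
    (haX : (a : ℝ) ≤ X ^ θ) (m : ℕ) (Q N J' : ℕ) (hQ : 2 * H + 1 ≤ Q) (hJ' : 2 * H + 1 ≤ J') (hN : X + Q < N) :
    ∑ c ∈ C, ((PH H (a * c)).card : ℝ) ^ m ≤
      4 * B / a * X ^ (θ - 1) * C.card * ∑ n ∈ range N, (vw Q n J' : ℝ) ^ m := by
  classical
  have hX0 : 0 < X := by linarith only [hX]
  have hH0 : 0 < H := by linarith only [hH]
  have ha0 : (0 : ℝ) < a := by exact_mod_cast ha
  have hac : ∀ c ∈ C, 0 < (a : ℝ) * c ∧ (a : ℝ) * c ≤ X := by
    intro c hc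
    have hc0 := h.pos c hc
    refine ⟨mul_pos ha0 hc0, ?_⟩
    calc (a : ℝ) * c ≤ X ^ θ * X ^ (1 - θ) := mul_le_mul haX (h.le c hc) hc0.le (by positivity)
      _ = X := by
          rw [← Real.rpow_add hX0]
          have : θ + (1 - θ) = 1 := by ring
          rw [this, Real.rpow_one]
  have h1 : ∀ c ∈ C, H * ((PH H (a * c)).card : ℝ) ^ m ≤
      ∑ n ∈ range N, if (a * c - (2 * H + 1) + Q ≤ n ∧ (n : ℝ) ≤ a * c - (2 * H + 1) + Q + H + 1) then (vw Q n J' : ℝ) ^ m else 0 := by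
    intro c hc
    obtain ⟨hx0, hxX⟩ := hac c hc
    have h2 := card_int (a * c - (2 * H + 1) + Q) H (by linarith only [hx0, hQ]) hH0.le N (by linarith only [hxX, hN, hH0])
    rw [← sum_filter]
    have h3 : ∀ n ∈ (range N).filter (fun n : ℕ => a * c - (2 * H + 1) + Q ≤ n ∧ (n : ℝ) ≤ a * c - (2 * H + 1) + Q + H + 1),
        ((PH H (a * c)).card : ℝ) ^ m ≤ (vw Q n J' : ℝ) ^ m := by
      intro n hn
      obtain ⟨_, hn1, hn2⟩ := mem_filter.1 hn
      apply pow_le_pow_left₀ (Nat.cast_nonneg _)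
      apply Nat.cast_le.2
      unfold vw
      apply card_le_card
      intro p hp
      rw [mem_PH hx0.le] at hp
      obtain ⟨hp1, hp2, hp3⟩ := hp
      have e1 : n < p + Q := by
        have : (n : ℝ) < ((p + Q : ℕ) : ℝ) := by push_cast; linarith only [hp2, hn2]
        exact_mod_cast this
      have e2 : p + Q ≤ n + J' := by
        have : ((p + Q : ℕ) : ℝ) ≤ ((n + J' : ℕ) : ℝ) := by push_cast; linarith only [hp3, hn1, hJ']
        exact_mod_cast this
      rw [mem_filter, mem_Icc]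
      exact ⟨⟨hp1.one_lt.le, by omega⟩, hp1, e1, e2⟩
    calc H * ((PH H (a * c)).card : ℝ) ^ m ≤
        (((range N).filter (fun n : ℕ => a * c - (2 * H + 1) + Q ≤ n ∧ (n : ℝ) ≤ a * c - (2 * H + 1) + Q + H + 1)).card : ℝ) *
          ((PH H (a * c)).card : ℝ) ^ m := mul_le_mul_of_nonneg_right h2 (by positivity)
      _ ≤ _ := by
        rw [← nsmul_eq_mul, ← sum_const]
        exact sum_le_sum h3
  have h2 : H * ∑ c ∈ C, ((PH H (a * c)).card : ℝ) ^ m ≤
      ∑ n ∈ range N, (vw Q n J' : ℝ) ^ m * (4 * B * (H / a) * X ^ (θ - 1) * C.card) := by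
    rw [mul_sum]
    refine (sum_le_sum h1).trans ?_
    rw [sum_comm]
    apply sum_le_sum
    intro n _
    rw [← sum_filter, sum_const, nsmul_eq_mul, mul_comm]
    apply mul_le_mul_of_nonneg_left _ (by positivity)
    have hL : H / X ^ θ ≤ (H + 1) / a := by
      apply div_le_div₀ (by linarith only [hH0]) (by linarith only) ha0 haX
    have h3 := h.long hX hH0 hB ((n - Q + H) / a) ((H + 1) / a) hL
    have h4 : ((C.filter (fun c => a * c - (2 * H + 1) + Q ≤ n ∧ (n : ℝ) ≤ a * c - (2 * H + 1) + Q + H + 1)).card : ℝ) ≤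
        ((C.filter (fun c => (n - Q + H) / a ≤ c ∧ c ≤ (n - Q + H) / a + (H + 1) / a)).card : ℝ) := by
      apply Nat.cast_le.2
      apply card_le_card
      intro c hc
      rw [mem_filter] at hc ⊢
      obtain ⟨hcC, hc1, hc2⟩ := hc
      refine ⟨hcC, ?_, ?_⟩
      · rw [div_le_iff₀ ha0]
        linarith only [hc2]
      · rw [← add_div, le_div_iff₀ ha0]
        linarith only [hc1]
    refine h4.trans (h3.trans ?_)
    have h5 : (H + 1) / a ≤ 2 * (H / a) := by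
      rw [← mul_div_assoc]
      apply div_le_div_of_nonneg_right _ ha0.le
      linarith only [hH]
    calc 2 * B * ((H + 1) / a) * X ^ (θ - 1) * C.card ≤ 2 * B * (2 * (H / a)) * X ^ (θ - 1) * C.card := by
          apply mul_le_mul_of_nonneg_right _ (Nat.cast_nonneg _)
          apply mul_le_mul_of_nonneg_right _ (by positivity)
          apply mul_le_mul_of_nonneg_left h5 (by positivity)
      _ = _ := by ring
  rw [← sum_mul] at h2
  have h3 : (∑ n ∈ range N, (vw Q n J' : ℝ) ^ m) * (4 * B * (H / a) * X ^ (θ - 1) * C.card) =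
      H * (4 * B / a * X ^ (θ - 1) * C.card * ∑ n ∈ range N, (vw Q n J' : ℝ) ^ m) := by ring
  rw [h3] at h2
  exact le_of_mul_le_mul_left h2 hH0

lemma sum_shift (f : ℕ → ℝ) (hf : ∀ n, 0 ≤ f n) (t N R : ℕ) (h : t + N ≤ R) : ∑ n ∈ range N, f (n + t) ≤ ∑ n ∈ range R, f n := by
  have h1 : ∑ n ∈ range (t + N), f n = ∑ n ∈ range t, f n + ∑ n ∈ range N, f (t + n) := sum_range_add f t N
  have h2 : ∑ n ∈ range (t + N), f n ≤ ∑ n ∈ range R, f n :=
    sum_le_sum_of_subset_of_nonneg (range_subset_range.2 h) fun n _ _ => hf n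
  have h3 : 0 ≤ ∑ n ∈ range t, f n := sum_nonneg fun n _ => hf n
  have h4 : ∑ n ∈ range N, f (n + t) = ∑ n ∈ range N, f (t + n) := sum_congr rfl fun n _ => by rw [add_comm]
  linarith only [h1, h2, h3, h4]

/-- the moments of long windows -/
lemma long_windows (m Q N J J' R : ℕ) (hJ : 0 < J) (hR : N + (J' + J) ≤ R) :
    ∑ n ∈ range N, (vw Q n J' : ℝ) ^ (m + 1) ≤ ((J' : ℝ) / J + 1) ^ (m + 1) * ∑ n ∈ range R, (vw Q n J : ℝ) ^ (m + 1) := by
  obtain ⟨q, hq⟩ : ∃ q, q = J' / J + 1 := ⟨_, rfl⟩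
  have hq1 : J' ≤ q * J := by
    rw [hq, add_mul, one_mul]
    have := Nat.div_add_mod J' J
    have h2 := Nat.mod_lt J' hJ
    rw [mul_comm] at this
    omega
  have hq2 : q * J ≤ J' + J := by
    rw [hq, add_mul, one_mul]
    have := Nat.div_mul_le_self J' J
    omega
  have hJ0 : (0 : ℝ) < J := by exact_mod_cast hJ
  have hq3 : (q : ℝ) ≤ (J' : ℝ) / J + 1 := by
    rw [hq]; push_cast
    have := Nat.cast_div_le (α := ℝ) (m := J') (n := J)
    linarith only [this]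
  have hS : 0 ≤ ∑ n ∈ range R, (vw Q n J : ℝ) ^ (m + 1) := sum_nonneg fun n _ => by positivity
  have h1 : ∀ n ∈ range N, (vw Q n J' : ℝ) ^ (m + 1) ≤ (q : ℝ) ^ m * ∑ i ∈ range q, (vw Q (n + i * J) J : ℝ) ^ (m + 1) := by
    intro n _
    have h2 : (vw Q n J' : ℝ) ≤ ∑ i ∈ range q, (vw Q (n + i * J) J : ℝ) := by
      exact_mod_cast (vw_mono hq1).trans (vw_mul Q n J q)
    refine (pow_le_pow_left₀ (Nat.cast_nonneg _) h2 _).trans ?_
    have h3 := pow_sum_le_card_mul_sum_pow (s := range q) (f := fun i => (vw Q (n + i * J) J : ℝ)) (fun i _ => Nat.cast_nonneg _) m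
    rw [card_range] at h3
    exact h3
  refine (sum_le_sum h1).trans ?_
  rw [← mul_sum, sum_comm]
  have h2 : ∀ i ∈ range q, ∑ n ∈ range N, (vw Q (n + i * J) J : ℝ) ^ (m + 1) ≤ ∑ n ∈ range R, (vw Q n J : ℝ) ^ (m + 1) := by
    intro i hi
    rw [mem_range] at hi
    apply sum_shift (fun n => (vw Q n J : ℝ) ^ (m + 1)) (fun n => by positivity)
    have : i * J ≤ q * J := Nat.mul_le_mul_right J hi.le
    omega
  calc (q : ℝ) ^ m * ∑ i ∈ range q, ∑ n ∈ range N, (vw Q (n + i * J) J : ℝ) ^ (m + 1) ≤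
      (q : ℝ) ^ m * ∑ _i ∈ range q, ∑ n ∈ range R, (vw Q n J : ℝ) ^ (m + 1) :=
        mul_le_mul_of_nonneg_left (sum_le_sum h2) (by positivity)
    _ = (q : ℝ) ^ (m + 1) * ∑ n ∈ range R, (vw Q n J : ℝ) ^ (m + 1) := by
        rw [sum_const, nsmul_eq_mul, card_range]; ring
    _ ≤ _ := mul_le_mul_of_nonneg_right (pow_le_pow_left₀ (Nat.cast_nonneg _) hq3 _) hS

/-- **Moments of a row.** -/
theorem row_mom1 (lam β B : ℝ) (hlam : 0 < lam) (hβ : 0 < β) (hB : 1 ≤ B) (m : ℕ) : ∃ M : ℝ, 1 ≤ M ∧ ∀ᶠ X : ℝ in atTop,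
    ∀ H θ : ℝ, lam * Real.log X ≤ H → H ≤ X → ∀ C : Finset ℝ, SpH B H θ X C → ∀ a : ℕ, 1 ≤ a → β * X ^ θ ≤ a → (a : ℝ) ≤ X ^ θ →
    ∑ c ∈ C, ZH H (a * c) ^ (m + 1) ≤ M * C.card := by
  obtain ⟨K, hK, N₀, hmom⟩ := mom_log m
  obtain ⟨M, hM⟩ : ∃ M, M = 36 * B * K / β * (4 + 1 / lam) ^ (m + 1) + 1 := ⟨_, rfl⟩
  have hB0 : 0 < B := by linarith only [hB]
  have hM1 : 0 ≤ 36 * B * K / β * (4 + 1 / lam) ^ (m + 1) := by positivity
  refine ⟨M, by linarith only [hM, hM1], ?_⟩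
  have t1 := (Real.tendsto_log_atTop.const_mul_atTop hlam).eventually_ge_atTop 1
  have t2 := (Real.isLittleO_log_id_atTop).bound (show (0 : ℝ) < 1 / 4 by norm_num)
  have t3 : Tendsto (fun X : ℝ => 9 * X) atTop atTop := tendsto_id.const_mul_atTop (by norm_num)
  filter_upwards [t1, t3.eventually t2, eventually_ge_atTop 10, eventually_ge_atTop (N₀ : ℝ)] with X hX1 hX2 hX3 hX4
  intro H θ hH hHX C hC a ha haβ haX
  have hX0 : 0 < X := by linarith only [hX3]
  have hXone : 1 < X := by linarith only [hX3]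
  have hH1 : 1 ≤ H := hX1.trans hH
  have hH0 : 0 < H := by linarith only [hH1]
  have ha0 : (0 : ℝ) < a := by exact_mod_cast ha
  have hlogX : 0 < Real.log X := Real.log_pos hXone
  have hXθ : 0 < X ^ θ := by positivity
  -- the parameters
  obtain ⟨N', hN'⟩ : ∃ N', N' = ⌈8 * X⌉₊ := ⟨_, rfl⟩
  have hN'1 : 8 * X ≤ N' := by rw [hN']; exact Nat.le_ceil _
  have hN'2 : (N' : ℝ) ≤ 9 * X := by
    rw [hN']
    have := Nat.ceil_lt_add_one (show 0 ≤ 8 * X by positivity)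
    linarith only [this, hX3]
  have hN₀ : N₀ ≤ N' := by
    have : (N₀ : ℝ) ≤ N' := by linarith only [hX4, hN'1, hX0]
    exact_mod_cast this
  have hN'0 : (0 : ℝ) < N' := by linarith only [hN'1, hX0]
  obtain ⟨J, hJ⟩ : ∃ J, J = ⌈Real.log (N' : ℝ)⌉₊ := ⟨_, rfl⟩
  have hlogN' : Real.log X ≤ Real.log N' := Real.log_le_log hX0 (by linarith only [hN'1, hX0])
  have hJ1 : Real.log X ≤ J := by rw [hJ]; exact hlogN'.trans (Nat.le_ceil _)
  have hJr : (0 : ℝ) < J := lt_of_lt_of_le hlogX hJ1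
  have hJ0 : 0 < J := by exact_mod_cast hJr
  have hJ2 : (J : ℝ) ≤ 3 * X := by
    have h1 : Real.log N' ≤ Real.log (9 * X) := Real.log_le_log hN'0 hN'2
    have h2 : Real.log (9 * X) ≤ 1 / 4 * (9 * X) := by
      rw [Real.norm_of_nonneg (Real.log_nonneg (by linarith only [hX3])), id, Real.norm_of_nonneg (by positivity)] at hX2
      exact hX2
    have h3 := Nat.ceil_lt_add_one (show 0 ≤ Real.log (N' : ℝ) by linarith only [hlogN', hlogX])
    rw [← hJ] at h3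
    linarith only [h1, h2, h3, hX3]
  obtain ⟨Q, hQ⟩ : ∃ Q, Q = ⌈2 * H + 1⌉₊ := ⟨_, rfl⟩
  have hQ1 : 2 * H + 1 ≤ Q := by rw [hQ]; exact Nat.le_ceil _
  have hQ2 : (Q : ℝ) ≤ 2 * H + 2 := by
    rw [hQ]
    have := Nat.ceil_lt_add_one (show 0 ≤ 2 * H + 1 by positivity)
    linarith only [this]
  obtain ⟨N, hN⟩ : ∃ N, N = ⌈X⌉₊ + Q + 1 := ⟨_, rfl⟩
  have hN1 : X + Q < N := by
    rw [hN]; push_cast
    have := Nat.le_ceil X
    linarith only [this]
  have hR : N + (Q + J) ≤ Q + (N' + 1) := by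
    have h1 : ((N + (Q + J) : ℕ) : ℝ) ≤ ((Q + (N' + 1) : ℕ) : ℝ) := by
      rw [hN]; push_cast
      have := Nat.ceil_lt_add_one hX0.le
      linarith only [this, hQ2, hHX, hJ2, hN'1, hX3]
    exact_mod_cast h1
  -- the estimates
  have g1 := row_windows hC hXone hH1 hB0.le ha haX (m + 1) Q N Q hQ1 hQ1 hN1
  have g2 := long_windows m Q N J Q (Q + (N' + 1)) hJ0 hR
  have g3 := hmom N' hN₀ Q
  rw [← hJ] at g3
  have g4 : ((Q : ℝ) / J + 1) ≤ (4 + 1 / lam) * (H / Real.log X) := by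
    have h1 : (Q : ℝ) / J ≤ 4 * (H / Real.log X) := by
      rw [← mul_div_assoc]
      apply div_le_div₀ (by positivity) (by linarith only [hQ2, hH1]) hlogX hJ1
    have h2 : 1 ≤ 1 / lam * (H / Real.log X) := by
      rw [one_div, ← div_eq_inv_mul, div_div, le_div_iff₀ (by positivity)]
      linarith only [hH]
    linarith only [h1, h2]
  have g5 : ∑ n ∈ range N, (vw Q n Q : ℝ) ^ (m + 1) ≤ ((4 + 1 / lam) * (H / Real.log X)) ^ (m + 1) * (K * (9 * X)) := by
    refine g2.trans ?_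
    apply mul_le_mul (pow_le_pow_left₀ (by positivity) g4 _) _ (sum_nonneg fun n _ => by positivity) (by positivity)
    exact g3.trans (mul_le_mul_of_nonneg_left hN'2 hK.le)
  have hac : ∀ c ∈ C, 0 < (a : ℝ) * c ∧ (a : ℝ) * c ≤ X := by
    intro c hc
    have hc0 := hC.pos c hc
    refine ⟨mul_pos ha0 hc0, ?_⟩
    calc (a : ℝ) * c ≤ X ^ θ * X ^ (1 - θ) := mul_le_mul haX (hC.le c hc) hc0.le (by positivity)
      _ = X := by
          rw [← Real.rpow_add hX0]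
          have : θ + (1 - θ) = 1 := by ring
          rw [this, Real.rpow_one]
  have g6 : ∀ c ∈ C, ZH H (a * c) ^ (m + 1) ≤ (Real.log X / H) ^ (m + 1) * ((PH H (a * c)).card : ℝ) ^ (m + 1) := by
    intro c hc
    obtain ⟨hx0, hxX⟩ := hac c hc
    rw [← mul_pow]
    apply pow_le_pow_left₀ (ZH_nonneg hH0.le _)
    unfold ZH
    have h1 : Real.log (a * c) ≤ Real.log X := Real.log_le_log hx0 hxX
    calc ((PH H (a * c)).card : ℝ) * Real.log (a * c) / H ≤ ((PH H (a * c)).card : ℝ) * Real.log X / H := by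
          apply div_le_div_of_nonneg_right _ hH0.le
          exact mul_le_mul_of_nonneg_left h1 (Nat.cast_nonneg _)
      _ = _ := by ring
  refine (sum_le_sum g6).trans ?_
  rw [← mul_sum]
  have hCc : (0 : ℝ) ≤ C.card := Nat.cast_nonneg _
  have g7 : 4 * B / a * X ^ (θ - 1) ≤ 4 * B / β / X := by
    have h1 : X ^ (θ - 1) = X ^ θ / X := by rw [Real.rpow_sub hX0, Real.rpow_one]
    rw [h1, div_mul_div_comm, div_div, div_le_div_iff₀ (by positivity) (by positivity)]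
    have h2 : 4 * B * X * (β * X ^ θ) ≤ 4 * B * X * a := mul_le_mul_of_nonneg_left haβ (by positivity)
    calc 4 * B * X ^ θ * (β * X) = 4 * B * X * (β * X ^ θ) := by ring
      _ ≤ 4 * B * X * a := h2
      _ = 4 * B * (a * X) := by ring
  calc (Real.log X / H) ^ (m + 1) * ∑ c ∈ C, ((PH H (a * c)).card : ℝ) ^ (m + 1)
      ≤ (Real.log X / H) ^ (m + 1) * (4 * B / β / X * C.card * (((4 + 1 / lam) * (H / Real.log X)) ^ (m + 1) * (K * (9 * X)))) := by
        apply mul_le_mul_of_nonneg_left _ (by positivity)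
        refine g1.trans ?_
        apply mul_le_mul (mul_le_mul_of_nonneg_right g7 hCc) g5 (sum_nonneg fun n _ => by positivity) (by positivity)
    _ = 36 * B * K / β * (4 + 1 / lam) ^ (m + 1) * C.card * ((Real.log X / H) * (H / Real.log X)) ^ (m + 1) := by
        rw [mul_pow, mul_pow]
        field_simp
        ring
    _ = 36 * B * K / β * (4 + 1 / lam) ^ (m + 1) * C.card := by
        have : (Real.log X / H) * (H / Real.log X) = 1 := by field_simp
        rw [this, one_pow, mul_one]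
    _ ≤ M * C.card := by
        apply mul_le_mul_of_nonneg_right _ hCc
        linarith only [hM]

end Pool.Agent.V11316.TB
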