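import Pool.Agent.V11316.AT2
import Pool.Agent.V11316.TM2
import Pool.Agent.V11316.TM3

/-! Sums over pairs from dense sets: all lengths from a constant on; cut norm and moments. -/

set_option autoImplicit false

namespace Pool.Agent.V11316.AT
open Finset Filter
open Pool.Agent.W301.SS
open Pool.Agent.Y851.PS
open Pool.Agent.Y851.PT
open Pool.Agent.V11316.TB

/-- Sums over pairs, weighted by `log p`. -/
theorem theta_dense (δ ε : ℝ) (hδ : 0 < δ) (hε : 0 < ε) : ∃ H₀ : ℕ, 1 ≤ H₀ ∧ ∀ᶠ N : ℕ in atTop,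
    ∀ A B : Finset ℕ, (∀ a ∈ A, a ≤ N) → (∀ b ∈ B, b ≤ N) → δ * (N : ℝ) ^ 2 ≤ (A.card : ℝ) * B.card →
    ∀ y : ℕ, H₀ ≤ y → y ≤ 2 * N → |TT A B y - (A.card : ℝ) * B.card * y| ≤ ε * ((A.card : ℝ) * B.card * y) := by
  have hsδ : 0 < √δ := Real.sqrt_pos.2 hδ
  obtain ⟨H₀, hH₀, hcl⟩ := TT_close (ε * √δ / 8) (by positivity)
  obtain ⟨N₁, hN₁⟩ := eventually_atTop.1 hcl
  refine ⟨H₀, hH₀, ?_⟩
  filter_upwards [ev_L (16 / ε + 65536), ev_log 19 (H₀ + 2) 1 (by norm_num), pnt_unif 20,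
    eventually_ge_atTop (max 16 N₁)] with N h1 h2 h4 hN16' A B hA hB hAB y hy1 hy2
  have hN16 : 16 ≤ N := (le_max_left _ _).trans hN16'
  have hN1 : N₁ ≤ 4 * N := by
    have := (le_max_right _ _).trans hN16'
    omega
  have hNr : (16 : ℝ) ≤ N := by exact_mod_cast hN16
  have hN0 : (0 : ℝ) < N := by linarith only [hNr]
  obtain ⟨ℓ, hℓ⟩ : ∃ ℓ, ℓ = Real.log N := ⟨_, rfl⟩
  rw [← hℓ] at h1 h2 h4
  have hc2 : 0 < 16 / ε := by positivity
  have hℓ16 : 65536 ≤ ℓ := by linarith only [h1, hc2]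
  have hℓ0 : 0 < ℓ := by linarith only [hℓ16]
  have hℓ1 : 1 ≤ ℓ := by linarith only [hℓ16]
  rw [Real.rpow_one] at h2
  obtain ⟨P, hP⟩ : ∃ P : ℝ, P = (A.card : ℝ) * B.card := ⟨_, rfl⟩
  rw [← hP] at hAB ⊢
  have hP0 : 0 < P := lt_of_lt_of_le (by positivity) hAB
  -- the long length
  obtain ⟨H1, hH1⟩ : ∃ H1 : ℕ, H1 = ⌊(N : ℝ) / ℓ ^ 19⌋₊ := ⟨_, rfl⟩
  have hH1le : (H1 : ℝ) ≤ N / ℓ ^ 19 := by rw [hH1]; exact Nat.floor_le (by positivity)
  have hbig : (H₀ : ℝ) + 2 ≤ (N : ℝ) / ℓ ^ 19 := by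
    rw [le_div_iff₀ (by positivity)]
    exact h2
  have hH0r : (0 : ℝ) ≤ H₀ := Nat.cast_nonneg _
  have hH1lt : (N : ℝ) / ℓ ^ 19 < H1 + 1 := by rw [hH1]; exact Nat.lt_floor_add_one _
  have hH1ge : (N : ℝ) / ℓ ^ 19 ≤ 2 * H1 := by linarith only [hH1lt, hbig, hH0r]
  have hH1H0 : H₀ ≤ H1 := by
    have : (H₀ : ℝ) ≤ H1 := by linarith only [hH1lt, hbig]
    exact_mod_cast this
  have hH1pos : 1 ≤ H1 := hH₀.trans hH1H0
  have hH1N : H1 ≤ N := by
    have : (H1 : ℝ) ≤ N := hH1le.trans (div_le_self hN0.le (one_le_pow₀ hℓ1))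
    exact_mod_cast this
  have hH10 : (0 : ℝ) < H1 := by exact_mod_cast hH1pos
  -- prime number theorem for lengths at least `H1`
  have hlong : ∀ z : ℕ, H1 ≤ z → z ≤ 2 * N → |TT A B z - P * z| ≤ (ε / 4) * (P * z) := by
    intro z hz1 hz2
    have a1 := TT_pnt A B N z hA hB hz2 (N / ℓ ^ 20) h4
    rw [← hP] at a1
    refine a1.trans ?_
    have hz : (H1 : ℝ) ≤ z := by exact_mod_cast hz1
    have a2 : 2 * (N / ℓ ^ 20) ≤ (4 / ℓ) * z := by
      calc 2 * (N / ℓ ^ 20) = (2 / ℓ) * (N / ℓ ^ 19) := by field_simp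
        _ ≤ (2 / ℓ) * (2 * H1) := by gcongr
        _ ≤ (2 / ℓ) * (2 * z) := by gcongr
        _ = _ := by ring
    have a3 : 4 / ℓ ≤ ε / 4 := by
      rw [div_le_div_iff₀ hℓ0 (by norm_num)]
      have : 16 / ε ≤ ℓ := by linarith only [h1]
      rw [div_le_iff₀ hε] at this
      linarith only [this]
    calc P * (2 * (N / ℓ ^ 20)) ≤ P * ((4 / ℓ) * z) := by gcongr
      _ ≤ P * ((ε / 4) * z) := by gcongr
      _ = _ := by ring
  rcases le_or_gt H1 y with hcase | hcase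
  · refine (hlong y hcase hy2).trans ?_
    have : 0 ≤ P * (y : ℝ) := by positivity
    nlinarith only [this, hε]
  · -- short lengths
    have hy1n : 1 ≤ y := hH₀.trans hy1
    have hyp : (0 : ℝ) < y := by exact_mod_cast hy1n
    have hlog4 : Real.log ((4 * N : ℕ) : ℝ) ≤ 2 * ℓ := by
      push_cast
      rw [Real.log_mul (by norm_num) (by linarith only [hNr]), ← hℓ]
      have := log4
      linarith only [this, hℓ16]
    have hlog40 : 0 ≤ Real.log ((4 * N : ℕ) : ℝ) := Real.log_natCast_nonneg _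
    have hcond : (H1 : ℝ) * Real.log ((4 * N : ℕ) : ℝ) ^ 18 ≤ ((4 * N : ℕ) : ℝ) := by
      calc (H1 : ℝ) * Real.log ((4 * N : ℕ) : ℝ) ^ 18 ≤ (N / ℓ ^ 19) * (2 * ℓ) ^ 18 :=
            mul_le_mul hH1le (pow_le_pow_left₀ hlog40 hlog4 18) (by positivity) (by positivity)
        _ = (262144 / ℓ) * N := by field_simp; norm_num
        _ ≤ 4 * N := by
            apply mul_le_mul_of_nonneg_right _ hN0.le
            rw [div_le_iff₀ hℓ0]
            linarith only [hℓ16]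
        _ = ((4 * N : ℕ) : ℝ) := by push_cast; ring
    have b1 := hN₁ (4 * N) hN1 A B y H1 hy1 hcase.le hcond (fun a ha => by have := hA a ha; omega)
      (fun b hb => by have := hB b hb; omega) (fun a ha b hb => by have := hA a ha; have := hB b hb; omega)
    rw [← hP] at b1
    have b2 := hlong H1 le_rfl (by omega)
    have hsP0 : 0 < √P := Real.sqrt_pos.2 hP0
    have hsP : √δ * N ≤ √P := by
      apply Real.le_sqrt_of_sq_le
      rw [mul_pow, Real.sq_sqrt hδ.le]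
      exact hAB
    have b3 : |TT A B y / y - TT A B H1 / H1| ≤ (ε / 2) * P := by
      refine b1.trans ?_
      calc √P * (ε * √δ / 8 * ((4 * N : ℕ) : ℝ)) = (ε / 2) * (√P * (√δ * N)) := by push_cast; ring
        _ ≤ (ε / 2) * (√P * √P) := by gcongr
        _ = (ε / 2) * P := by rw [Real.mul_self_sqrt hP0.le]
    have b4 : |TT A B H1 / H1 - P| ≤ (ε / 4) * P := by
      have e : TT A B H1 / H1 - P = (TT A B H1 - P * H1) / H1 := by field_simp
      rw [e, abs_div, abs_of_pos hH10, div_le_iff₀ hH10]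
      linarith only [b2]
    have b5 : |TT A B y / y - P| ≤ ε * P := by
      have := abs_sub_le (TT A B y / y) (TT A B H1 / H1) P
      have h0 : 0 ≤ ε * P := by positivity
      linarith only [this, b3, b4, h0]
    have e : TT A B y - P * y = (TT A B y / y - P) * y := by field_simp
    rw [e, abs_mul, abs_of_pos hyp]
    calc |TT A B y / y - P| * y ≤ (ε * P) * y := by gcongr
      _ = _ := by ring

/-- Sums over pairs, for the number of primes. -/
theorem count_dense (δ ε : ℝ) (hδ : 0 < δ) (hε : 0 < ε) (hε1 : ε ≤ 1) : ∃ H₀ : ℕ, 1 ≤ H₀ ∧ ∀ᶠ N : ℕ in atTop,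
    ∀ A B : Finset ℕ, (∀ a ∈ A, a ≤ N) → (∀ b ∈ B, b ≤ N) → δ * (N : ℝ) ^ 2 ≤ (A.card : ℝ) * B.card →
    ∀ y : ℕ, H₀ ≤ y → y ≤ 2 * N →
    |PCs A B y * Real.log N - (A.card : ℝ) * B.card * y| ≤ ε * ((A.card : ℝ) * B.card * y) := by
  obtain ⟨H₀, hH₀, hK⟩ := theta_dense δ (ε / 4) hδ (by linarith only [hε])
  refine ⟨H₀, hH₀, ?_⟩
  have tN : Tendsto (fun N : ℕ => (N : ℝ)) atTop atTop := tendsto_natCast_atTop_atTop
  have tp : Tendsto (fun N : ℕ => (N : ℝ) ^ (ε / 4)) atTop atTop := (tendsto_rpow_atTop (by linarith only [hε])).comp tN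
  filter_upwards [hK, ev_conv (ε / 4) (by linarith only [hε]) (by linarith only [hε1]), ev_L 1,
    tp.eventually_ge_atTop (1 / δ), eventually_ge_atTop 16] with
    N h1 h2 h3 h4 hN16 A B hA hB hAB y hy1 hy2
  obtain ⟨h5, X, hX1, hX2, hX3⟩ := h2
  have hNr : (16 : ℝ) ≤ N := by exact_mod_cast hN16
  have hN0 : (0 : ℝ) < N := by linarith only [hNr]
  have h6 := h1 A B hA hB hAB y hy1 hy2
  obtain ⟨ℓ, hℓ⟩ : ∃ ℓ, ℓ = Real.log N := ⟨_, rfl⟩
  obtain ⟨P, hP⟩ : ∃ P : ℝ, P = (A.card : ℝ) * B.card := ⟨_, rfl⟩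
  rw [← hℓ] at h3 h5 hX2 hX3 ⊢
  rw [← hP] at h6 hAB ⊢
  have hℓ0 : 0 < ℓ := by linarith only [h3]
  have hP0 : 0 ≤ P := by rw [hP]; positivity
  have h7 := conv_low hA hB hy2 ((1 + ε / 4) * ℓ) h5
  have h8 := conv_up (A := A) (B := B) (X := X) (y := y) ((1 - ε / 4) * ℓ) (by nlinarith only [hε1, hℓ0]) hX2 hX1
  have hPN : (N : ℝ) ^ (2 - ε / 4) ≤ P := by
    have a1 : (N : ℝ) ^ 2 ≤ P * (N : ℝ) ^ (ε / 4) := by
      calc (N : ℝ) ^ 2 = (δ * (N : ℝ) ^ 2) * (1 / δ) := by field_simp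
        _ ≤ P * (N : ℝ) ^ (ε / 4) := mul_le_mul hAB h4 (by positivity) hP0
    rw [Real.rpow_sub hN0, div_le_iff₀ (by positivity)]
    rw [show (2 : ℝ) = ((2 : ℕ) : ℝ) by norm_num, Real.rpow_natCast]
    exact a1
  have h9 : (1 - ε / 4) * ℓ * ((X : ℝ) ^ 2 * y) ≤ (ε / 4) * (P * y) := by
    calc (1 - ε / 4) * ℓ * ((X : ℝ) ^ 2 * y) = ((1 - ε / 4) * ℓ * (X : ℝ) ^ 2) * y := by ring
      _ ≤ ((ε / 4) * (N : ℝ) ^ (2 - ε / 4)) * y := mul_le_mul_of_nonneg_right hX3 (Nat.cast_nonneg y)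
      _ ≤ ((ε / 4) * P) * y := by gcongr
      _ = _ := by ring
  have hPy : 0 ≤ P * y := by positivity
  have hPC : 0 ≤ PCs A B y := by
    unfold PCs
    exact sum_nonneg fun _ _ => sum_nonneg fun _ _ => Nat.cast_nonneg _
  rw [abs_le] at h6 ⊢
  obtain ⟨h61, h62⟩ := h6
  constructor
  · -- lower bound
    have b1 : (1 - ε / 4) * (P * y) ≤ (1 + ε / 4) * (PCs A B y * ℓ) := by
      calc (1 - ε / 4) * (P * y) ≤ TT A B y := by linarith only [h61]
        _ ≤ _ := by linarith only [h7]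
    have b2 : (1 - ε) * (1 + ε / 4) ≤ 1 - ε / 4 := by nlinarith only [hε]
    have b3 : (1 + ε / 4) * ((1 - ε) * (P * y)) ≤ (1 + ε / 4) * (PCs A B y * ℓ) := by
      refine le_trans ?_ b1
      calc (1 + ε / 4) * ((1 - ε) * (P * y)) = ((1 - ε) * (1 + ε / 4)) * (P * y) := by ring
        _ ≤ _ := mul_le_mul_of_nonneg_right b2 hPy
    have b4 := le_of_mul_le_mul_left b3 (by linarith only [hε])
    linarith only [b4]
  · have b1 : (1 - ε / 4) * (PCs A B y * ℓ) ≤ (1 + ε / 2) * (P * y) := by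
      calc (1 - ε / 4) * (PCs A B y * ℓ) = (1 - ε / 4) * ℓ * PCs A B y := by ring
        _ ≤ TT A B y + (1 - ε / 4) * ℓ * ((X : ℝ) ^ 2 * y) := h8
        _ ≤ _ := by linarith only [h62, h9]
    have b2 : 1 + ε / 2 ≤ (1 - ε / 4) * (1 + ε) := by nlinarith only [hε, hε1]
    have b3 : (1 - ε / 4) * (PCs A B y * ℓ) ≤ (1 - ε / 4) * ((1 + ε) * (P * y)) := by
      refine b1.trans ?_
      calc (1 + ε / 2) * (P * y) ≤ ((1 - ε / 4) * (1 + ε)) * (P * y) :=
            mul_le_mul_of_nonneg_right b2 hPy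
        _ = _ := by ring
    have b4 := le_of_mul_le_mul_left b3 (by linarith only [hε1])
    linarith only [b4]

/-- bounds for large subsets give bounds for all subsets -/
lemma cut_halves {α β : Type} [DecidableEq α] [DecidableEq β] (A : Finset α) (C : Finset β) (g : α → β → ℝ) (T : ℝ)
    (h : ∀ A' ⊆ A, ∀ C' ⊆ C, A.card ≤ 2 * A'.card → C.card ≤ 2 * C'.card → |∑ a ∈ A', ∑ c ∈ C', g a c| ≤ T) :
    ∀ A' ⊆ A, ∀ C' ⊆ C, |∑ a ∈ A', ∑ c ∈ C', g a c| ≤ 4 * T := by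
  have hT : 0 ≤ T := (abs_nonneg _).trans (h A (Subset.refl _) C (Subset.refl _) (by omega) (by omega))
  have h1 : ∀ A' ⊆ A, ∀ C' ⊆ C, C.card ≤ 2 * C'.card → |∑ a ∈ A', ∑ c ∈ C', g a c| ≤ 2 * T := by
    intro A' hA' C' hC' hc
    rcases le_or_gt A.card (2 * A'.card) with hh | hh
    · exact (h A' hA' C' hC' hh hc).trans (by linarith only [hT])
    · have e := sum_sdiff hA' (f := fun a => ∑ c ∈ C', g a c)
      have e1 := h A (Subset.refl _) C' hC' (by omega) hc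
      have e2 := h (A \ A') sdiff_subset C' hC' (by rw [card_sdiff_of_subset hA']; omega) hc
      have e3 : ∑ a ∈ A', ∑ c ∈ C', g a c = ∑ a ∈ A, ∑ c ∈ C', g a c - ∑ a ∈ A \ A', ∑ c ∈ C', g a c := by linarith only [e]
      rw [e3]
      exact (abs_sub _ _).trans (by linarith only [e1, e2])
  intro A' hA' C' hC'
  rcases le_or_gt C.card (2 * C'.card) with hh | hh
  · exact (h1 A' hA' C' hC' hh).trans (by linarith only [hT])
  · have e : ∑ a ∈ A', ∑ c ∈ C', g a c = ∑ a ∈ A', ∑ c ∈ C, g a c - ∑ a ∈ A', ∑ c ∈ C \ C', g a c := by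
      rw [← sum_sub_distrib]
      apply sum_congr rfl
      intro a _
      have := sum_sdiff hC' (f := fun c => g a c)
      linarith only [this]
    have e1 := h1 A' hA' C (Subset.refl _) (by omega)
    have e2 := h1 A' hA' (C \ C') sdiff_subset (by rw [card_sdiff_of_subset hC']; omega)
    rw [e]
    exact (abs_sub _ _).trans (by linarith only [e1, e2])

/-- the number of primes in `(a + c, a + c + H]` divided by `H / log N` -/
noncomputable def AW (N H a c : ℕ) : ℝ := (pn (a + c) H : ℝ) * Real.log N / H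

/-- **The cut norm.** -/
theorem cut_dense (lam δ ε : ℝ) (hlam : 0 < lam) (hδ : 0 < δ) (hε : 0 < ε) : ∀ᶠ N : ℕ in atTop,
    ∀ A C : Finset ℕ, (∀ a ∈ A, a ≤ N) → (∀ c ∈ C, c ≤ N) → δ * (N : ℝ) ≤ A.card → δ * (N : ℝ) ≤ C.card →
    ∀ H : ℕ, lam * Real.log N ≤ H → H ≤ N → Cut A C (AW N H) ε := by
  have hε1 : 0 < min 1 (ε / 4) := lt_min one_pos (by linarith only [hε])
  obtain ⟨H₀, hH₀, hev⟩ := count_dense (δ ^ 2 / 4) (min 1 (ε / 4)) (by positivity) hε1 (min_le_left _ _)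
  have tN : Tendsto (fun N : ℕ => (N : ℝ)) atTop atTop := tendsto_natCast_atTop_atTop
  have tL : Tendsto (fun N : ℕ => lam * Real.log (N : ℝ)) atTop atTop := (Real.tendsto_log_atTop.comp tN).const_mul_atTop hlam
  filter_upwards [hev, tL.eventually_ge_atTop (H₀ : ℝ)] with N hN hNl A C hA hC hAc hCc H hH1 hH2
  have hHH₀ : H₀ ≤ H := by exact_mod_cast hNl.trans hH1
  have hH0 : (0 : ℝ) < H := by
    have : 0 < H := by omega
    exact_mod_cast this
  have key := cut_halves A C (fun a c => AW N H a c - 1) (ε / 4 * (A.card * C.card)) (by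
    intro A' hA' C' hC' h1 h2
    have h1r : (A.card : ℝ) ≤ 2 * A'.card := by exact_mod_cast h1
    have h2r : (C.card : ℝ) ≤ 2 * C'.card := by exact_mod_cast h2
    have hd : δ ^ 2 / 4 * (N : ℝ) ^ 2 ≤ (A'.card : ℝ) * C'.card := by
      have g1 : δ * (N : ℝ) / 2 ≤ A'.card := by linarith only [hAc, h1r]
      have g2 : δ * (N : ℝ) / 2 ≤ C'.card := by linarith only [hCc, h2r]
      calc δ ^ 2 / 4 * (N : ℝ) ^ 2 = (δ * N / 2) * (δ * N / 2) := by ring
        _ ≤ (A'.card : ℝ) * C'.card := mul_le_mul g1 g2 (by positivity) (by positivity)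
    have h3 := hN A' C' (fun a ha => hA a (hA' ha)) (fun c hc => hC c (hC' hc)) hd H hHH₀ (by omega)
    have e : ∑ a ∈ A', ∑ c ∈ C', (AW N H a c - 1) = (PCs A' C' H * Real.log N - (A'.card : ℝ) * C'.card * H) / H := by
      unfold PCs AW
      simp_rw [sum_sub_distrib, sum_const, nsmul_eq_mul, ← sum_div, ← sum_mul]
      field_simp
    rw [e, abs_div, abs_of_pos hH0, div_le_iff₀ hH0]
    refine h3.trans ?_
    have g1 : (A'.card : ℝ) * C'.card ≤ A.card * C.card := by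
      have := card_le_card hA'
      have := card_le_card hC'
      gcongr
    have g2 : 0 ≤ (A'.card : ℝ) * C'.card * H := by positivity
    calc min 1 (ε / 4) * ((A'.card : ℝ) * C'.card * H) ≤ (ε / 4) * ((A'.card : ℝ) * C'.card * H) :=
          mul_le_mul_of_nonneg_right (min_le_right _ _) g2
      _ ≤ (ε / 4) * ((A.card : ℝ) * C.card * H) := by gcongr
      _ = _ := by ring)
  intro A' hA' C' hC'
  exact (key A' hA' C' hC').trans (le_of_eq (by ring))

/-- **Moments of the rows.** -/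
theorem mom_dense (lam δ : ℝ) (hlam : 0 < lam) (hδ : 0 < δ) (m : ℕ) : ∃ M : ℝ, 1 ≤ M ∧ ∀ᶠ N : ℕ in atTop,
    ∀ C : Finset ℕ, (∀ c ∈ C, c ≤ N) → δ * (N : ℝ) ≤ C.card → ∀ a : ℕ, a ≤ N →
    ∀ H : ℕ, lam * Real.log N ≤ H → H ≤ N → ∑ c ∈ C, AW N H a c ^ (m + 1) ≤ M * C.card := by
  obtain ⟨K, hK, N₀, hmom⟩ := mom_log m
  obtain ⟨M, hM⟩ : ∃ M, M = (1 + 1 / lam) ^ (m + 1) * (8 * K) / δ + 1 := ⟨_, rfl⟩
  have hM0 : 0 ≤ (1 + 1 / lam) ^ (m + 1) * (8 * K) / δ := by positivity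
  refine ⟨M, by linarith only [hM, hM0], ?_⟩
  have tN : Tendsto (fun N : ℕ => (N : ℝ)) atTop atTop := tendsto_natCast_atTop_atTop
  have tL : Tendsto (fun N : ℕ => lam * Real.log (N : ℝ)) atTop atTop := (Real.tendsto_log_atTop.comp tN).const_mul_atTop hlam
  have t8 : Tendsto (fun N : ℕ => 8 * (N : ℝ)) atTop atTop := tN.const_mul_atTop (by norm_num)
  have t2 := t8.eventually ((Real.isLittleO_log_id_atTop).bound (show (0 : ℝ) < 1 / 8 by norm_num))
  filter_upwards [tL.eventually_gt_atTop 0, t2, eventually_ge_atTop (max N₀ 16)] with N hNl hN8 hN' C hC hCc a ha H hH1 hH2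
  have hNN₀ : N₀ ≤ 8 * N := by
    have := (le_max_left _ _).trans hN'
    omega
  have hN16 : 16 ≤ N := (le_max_right _ _).trans hN'
  have hNr : (16 : ℝ) ≤ N := by exact_mod_cast hN16
  have hN0 : (0 : ℝ) < N := by linarith only [hNr]
  have hlog0 : 0 < Real.log N := Real.log_pos (by linarith only [hNr])
  have hH0 : (0 : ℝ) < H := lt_of_lt_of_le hNl hH1
  obtain ⟨J, hJ⟩ : ∃ J, J = ⌈Real.log ((8 * N : ℕ) : ℝ)⌉₊ := ⟨_, rfl⟩
  have hJ1 : Real.log N ≤ J := by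
    have h1 : Real.log N ≤ Real.log ((8 * N : ℕ) : ℝ) := Real.log_le_log hN0 (by push_cast; linarith only [hN0])
    rw [hJ]
    exact h1.trans (Nat.le_ceil _)
  have hJr : (0 : ℝ) < J := lt_of_lt_of_le hlog0 hJ1
  have hJ0 : 0 < J := by exact_mod_cast hJr
  have hJ2 : J ≤ 2 * N := by
    have h1 : Real.log ((8 * N : ℕ) : ℝ) ≤ N := by
      have h3 : 0 ≤ Real.log (8 * (N : ℝ)) := Real.log_nonneg (by linarith only [hNr])
      rw [Real.norm_of_nonneg h3, id, Real.norm_of_nonneg (by positivity)] at hN8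
      push_cast
      linarith only [hN8]
    have h2 := Nat.ceil_lt_add_one (show 0 ≤ Real.log ((8 * N : ℕ) : ℝ) from Real.log_natCast_nonneg _)
    rw [← hJ] at h2
    have h3 : (J : ℝ) ≤ ((2 * N : ℕ) : ℝ) := by push_cast; linarith only [h1, h2, hNr]
    exact_mod_cast h3
  have g1 := long_windows m 0 (2 * N + 1) J H (0 + (8 * N + 1)) hJ0 (by omega)
  have g2 := hmom (8 * N) hNN₀ 0
  rw [← hJ] at g2
  have hvw : ∀ n J : ℕ, vw 0 n J = pn n J := by
    intro n J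
    have := vw_shift 0 n J
    rw [zero_add] at this
    rw [this]
    rfl
  have g3 : ∑ c ∈ C, (pn (a + c) H : ℝ) ^ (m + 1) ≤ ∑ n ∈ range (2 * N + 1), (vw 0 n H : ℝ) ^ (m + 1) := by
    have e : ∑ c ∈ C, (pn (a + c) H : ℝ) ^ (m + 1) = ∑ n ∈ C.image (fun c => a + c), (vw 0 n H : ℝ) ^ (m + 1) := by
      rw [sum_image (fun x _ y _ h => by simpa using h)]
      apply sum_congr rfl
      intro c _
      rw [hvw]
    rw [e]
    apply sum_le_sum_of_subset_of_nonneg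
    · intro n hn
      rw [mem_image] at hn
      obtain ⟨c, hc, rfl⟩ := hn
      rw [mem_range]
      have := hC c hc
      omega
    · intro n _ _
      positivity
  have g4 : ((H : ℝ) / J + 1) ≤ (1 + 1 / lam) * (H / Real.log N) := by
    have h1 : (H : ℝ) / J ≤ H / Real.log N := div_le_div_of_nonneg_left hH0.le hlog0 hJ1
    have h2 : 1 ≤ 1 / lam * (H / Real.log N) := by
      rw [one_div, ← div_eq_inv_mul, div_div, le_div_iff₀ (by positivity)]
      linarith only [hH1]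
    linarith only [h1, h2]
  have g5 : ∑ c ∈ C, (pn (a + c) H : ℝ) ^ (m + 1) ≤ ((1 + 1 / lam) * (H / Real.log N)) ^ (m + 1) * (K * ((8 * N : ℕ) : ℝ)) := by
    refine g3.trans (g1.trans ?_)
    apply mul_le_mul (pow_le_pow_left₀ (by positivity) g4 _) g2 (sum_nonneg fun n _ => by positivity) (by positivity)
  have e1 : ∑ c ∈ C, AW N H a c ^ (m + 1) = (Real.log N / H) ^ (m + 1) * ∑ c ∈ C, (pn (a + c) H : ℝ) ^ (m + 1) := by
    unfold AW
    rw [mul_sum]
    apply sum_congr rfl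
    intro c _
    rw [mul_div_assoc, mul_pow, mul_comm]
  rw [e1]
  calc (Real.log N / H) ^ (m + 1) * ∑ c ∈ C, (pn (a + c) H : ℝ) ^ (m + 1) ≤
      (Real.log N / H) ^ (m + 1) * (((1 + 1 / lam) * (H / Real.log N)) ^ (m + 1) * (K * ((8 * N : ℕ) : ℝ))) := by gcongr
    _ = (1 + 1 / lam) ^ (m + 1) * (8 * K) * N := by
        rw [← mul_assoc, ← mul_pow]
        have : Real.log N / H * ((1 + 1 / lam) * (H / Real.log N)) = 1 + 1 / lam := by field_simp
        rw [this]; push_cast; ring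
    _ = (1 + 1 / lam) ^ (m + 1) * (8 * K) / δ * (δ * N) := by field_simp
    _ ≤ (1 + 1 / lam) ^ (m + 1) * (8 * K) / δ * C.card := by gcongr
    _ ≤ M * C.card := by
        apply mul_le_mul_of_nonneg_right _ (Nat.cast_nonneg _)
        linarith only [hM]

end Pool.Agent.V11316.AT
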