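import Pool.Agent.V11316.AT21
import Pool.Agent.V11316.AT3

/-! Sums over pairs from sparse sets. -/

set_option autoImplicit false

namespace Pool.Agent.V11316.AT
open Finset Filter
open Pool.Agent.W301.SS

/-- sums over pairs: two lengths -/
theorem TT_closeK (K : ℕ) (θ : ℝ) (hθ : 0 < θ) (hθ1 : θ < 1) : ∃ Q R : ℝ, 698 ≤ Q ∧ 0 < R ∧ ∀ᶠ N : ℕ in atTop, ∀ ε : ℝ, 0 < ε → ε ≤ 1 →
    Q ≤ ε * Real.log N ^ (K + 1) → ∀ A B : Finset ℕ, ∀ H H1 : ℕ, 1 ≤ H → R ≤ ε * (H : ℝ) ^ (1 - θ) → H ≤ H1 →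
    (H1 : ℝ) * Real.log N ^ (3 * K + 18) ≤ N → (∀ a ∈ A, a ≤ N) → (∀ b ∈ B, b ≤ N) → (∀ a ∈ A, ∀ b ∈ B, a + b + H1 ≤ N) →
    |TT A B H / H - TT A B H1 / H1| ≤ √((A.card : ℝ) * B.card) * (ε * N) := by
  obtain ⟨Q, R, hQ, hR, hev⟩ := sup_freqK K θ hθ hθ1
  refine ⟨Q, R, hQ, hR, ?_⟩
  filter_upwards [hev] with N hsup ε hε hε1 hQε A B H H1 hH hRH hHH hH1N hA hB hAB
  exact TT_diff (Nat.lt_succ_self N) A B (fun a ha => by have := hA a ha; omega)
    (fun b hb => by have := hB b hb; omega) H H1 hHH hAB (ε * N) (by positivity)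
    (fun r hr => hsup ε hε hε1 hQε H H1 hH hRH hHH hH1N N.succ r hr)

/-- Sums over pairs, weighted by `log p`. -/
theorem theta_sparse (K : ℕ) (τ ε : ℝ) (hτ : 1 < τ) (hε : 0 < ε) (hε1 : ε ≤ 1) : ∃ C : ℝ, 0 < C ∧ ∀ᶠ N : ℕ in atTop,
    ∀ A B : Finset ℕ, (∀ a ∈ A, a ≤ N) → (∀ b ∈ B, b ≤ N) → (N : ℝ) ^ 2 ≤ (A.card : ℝ) * B.card * Real.log N ^ K →
    ∀ y : ℕ, C * (N / √((A.card : ℝ) * B.card)) ^ τ ≤ y → y ≤ 2 * N →
      |TT A B y - (A.card : ℝ) * B.card * y| ≤ ε * ((A.card : ℝ) * B.card * y) := by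
  have hτ0 : 0 < τ := by linarith only [hτ]
  have hτinv : 1 / τ < 1 := by rw [div_lt_one hτ0]; exact hτ
  have hτinv0 : 0 < 1 / τ := by positivity
  obtain ⟨Q, R, hQ, hR, hcl⟩ := TT_closeK K (1 - 1 / τ) (by linarith only [hτinv]) (by linarith only [hτinv0])
  obtain ⟨N₁, hN₁⟩ := eventually_atTop.1 hcl
  refine ⟨(8 * R / ε) ^ τ, by positivity, ?_⟩
  filter_upwards [ev_L (16 / ε + 65536 + 2 ^ (3 * K + 18) + 16 * Q / ε), ev_log (3 * K + 19) 2 1 (by norm_num), pnt_unif (3 * K + 20),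
    eventually_ge_atTop (max 16 N₁)] with N h1 h2 h4 hN16' A B hA hB hAB y hy1 hy2
  have hN16 : 16 ≤ N := (le_max_left _ _).trans hN16'
  have hN1 : N₁ ≤ 4 * N := by
    have := (le_max_right _ _).trans hN16'
    omega
  have hNr : (16 : ℝ) ≤ N := by exact_mod_cast hN16
  have hN0 : (0 : ℝ) < N := by linarith only [hNr]
  obtain ⟨ℓ, hℓ⟩ : ∃ ℓ, ℓ = Real.log N := ⟨_, rfl⟩
  rw [← hℓ] at h1 h2 h4 hAB
  have hc2 : 0 < 16 / ε := by positivity
  have hc3 : (0 : ℝ) < 2 ^ (3 * K + 18) := by positivity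
  have hc4 : 0 < 16 * Q / ε := by
    have : 0 < Q := by linarith only [hQ]
    positivity
  have hℓ16 : 65536 ≤ ℓ := by linarith only [h1, hc2, hc3, hc4]
  have hℓ0 : 0 < ℓ := by linarith only [hℓ16]
  have hℓ1 : 1 ≤ ℓ := by linarith only [hℓ16]
  rw [Real.rpow_one] at h2
  obtain ⟨P, hP⟩ : ∃ P : ℝ, P = (A.card : ℝ) * B.card := ⟨_, rfl⟩
  rw [← hP] at hAB hy1 ⊢
  have hP0 : 0 < P := by
    have g1 : 0 < P * ℓ ^ K := lt_of_lt_of_le (by positivity) hAB
    by_contra hcon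
    rw [not_lt] at hcon
    have := mul_nonpos_of_nonpos_of_nonneg hcon (show 0 ≤ ℓ ^ K by positivity)
    linarith only [this, g1]
  have hsP0 : 0 < √P := Real.sqrt_pos.2 hP0
  -- the sets have at most `N + 1` elements
  have hAc : (A.card : ℝ) ≤ 2 * N := by
    have g1 : A ⊆ range (N + 1) := fun a ha => mem_range.2 (by have := hA a ha; omega)
    have g2 := card_le_card g1
    rw [card_range] at g2
    have g3 : (A.card : ℝ) ≤ ((N + 1 : ℕ) : ℝ) := by exact_mod_cast g2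
    push_cast at g3
    linarith only [g3, hNr]
  have hBc : (B.card : ℝ) ≤ 2 * N := by
    have g1 : B ⊆ range (N + 1) := fun a ha => mem_range.2 (by have := hB a ha; omega)
    have g2 := card_le_card g1
    rw [card_range] at g2
    have g3 : (B.card : ℝ) ≤ ((N + 1 : ℕ) : ℝ) := by exact_mod_cast g2
    push_cast at g3
    linarith only [g3, hNr]
  have hPle : √P ≤ 2 * N := by
    apply Real.sqrt_le_iff.2
    refine ⟨by positivity, ?_⟩
    rw [hP, sq]
    exact mul_le_mul hAc hBc (Nat.cast_nonneg _) (by positivity)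
  obtain ⟨D, hD⟩ : ∃ D : ℝ, D = N / √P := ⟨_, rfl⟩
  have hD0 : 0 < D := by rw [hD]; positivity
  rw [← hD] at hy1
  have hy3 : 8 * R / ε * D ≤ (y : ℝ) ^ (1 / τ) := by
    have g1 : 0 ≤ 8 * R / ε * D := by positivity
    have g2 : (8 * R / ε * D) ^ τ ≤ y := by rw [Real.mul_rpow (by positivity) hD0.le]; exact hy1
    have g3 := Real.rpow_le_rpow (by positivity) g2 hτinv0.le
    rw [← Real.rpow_mul g1, mul_one_div_cancel hτ0.ne', Real.rpow_one] at g3
    exact g3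
  have hyp : (0 : ℝ) < y := lt_of_lt_of_le (by positivity) hy1
  have hy1n : 1 ≤ y := by
    have : 0 < y := by exact_mod_cast hyp
    omega
  -- the long length
  obtain ⟨H1, hH1⟩ : ∃ H1 : ℕ, H1 = ⌊(N : ℝ) / ℓ ^ (3 * K + 19)⌋₊ := ⟨_, rfl⟩
  have hH1le : (H1 : ℝ) ≤ N / ℓ ^ (3 * K + 19) := by rw [hH1]; exact Nat.floor_le (by positivity)
  have hbig : (2 : ℝ) ≤ (N : ℝ) / ℓ ^ (3 * K + 19) := by
    rw [le_div_iff₀ (by positivity)]
    exact h2
  have hH1lt : (N : ℝ) / ℓ ^ (3 * K + 19) < H1 + 1 := by rw [hH1]; exact Nat.lt_floor_add_one _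
  have hH1ge : (N : ℝ) / ℓ ^ (3 * K + 19) ≤ 2 * H1 := by linarith only [hH1lt, hbig]
  have hH10 : (0 : ℝ) < H1 := by linarith only [hH1lt, hbig]
  have hH1N : H1 ≤ N := by
    have : (H1 : ℝ) ≤ N := hH1le.trans (div_le_self hN0.le (one_le_pow₀ hℓ1))
    exact_mod_cast this
  -- prime number theorem for lengths at least `H1`
  have hlong : ∀ z : ℕ, H1 ≤ z → z ≤ 2 * N → |TT A B z - P * z| ≤ (ε / 4) * (P * z) := by
    intro z hz1 hz2
    have a1 := TT_pnt A B N z hA hB hz2 (N / ℓ ^ (3 * K + 20)) h4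
    rw [← hP] at a1
    refine a1.trans ?_
    have hz : (H1 : ℝ) ≤ z := by exact_mod_cast hz1
    have a2 : 2 * (N / ℓ ^ (3 * K + 20)) ≤ (4 / ℓ) * z := by
      calc 2 * (N / ℓ ^ (3 * K + 20)) = (2 / ℓ) * (N / ℓ ^ (3 * K + 19)) := by
            rw [show 3 * K + 20 = (3 * K + 19) + 1 by ring, pow_succ ℓ (3 * K + 19)]
            field_simp
        _ ≤ (2 / ℓ) * (2 * H1) := by gcongr
        _ ≤ (2 / ℓ) * (2 * z) := by gcongr
        _ = _ := by ring
    have a3 : 4 / ℓ ≤ ε / 4 := by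
      rw [div_le_div_iff₀ hℓ0 (by norm_num)]
      have : 16 / ε ≤ ℓ := by linarith only [h1, hc3, hc4]
      rw [div_le_iff₀ hε] at this
      linarith only [this]
    calc P * (2 * (N / ℓ ^ (3 * K + 20))) ≤ P * ((4 / ℓ) * z) := by gcongr
      _ ≤ P * ((ε / 4) * z) := by gcongr
      _ = _ := by ring
  rcases le_or_gt H1 y with hcase | hcase
  · refine (hlong y hcase hy2).trans ?_
    have : 0 ≤ P * (y : ℝ) := by positivity
    nlinarith only [this, hε]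
  · -- short lengths
    have hlog4 : Real.log ((4 * N : ℕ) : ℝ) ≤ 2 * ℓ := by
      push_cast
      rw [Real.log_mul (by norm_num) (by linarith only [hNr]), ← hℓ]
      have := log4
      linarith only [this, hℓ16]
    have hlog4' : ℓ ≤ Real.log ((4 * N : ℕ) : ℝ) := by
      rw [hℓ]
      apply Real.log_le_log hN0
      push_cast
      linarith only [hN0]
    have hlog40 : 0 ≤ Real.log ((4 * N : ℕ) : ℝ) := Real.log_natCast_nonneg _
    have hcond : (H1 : ℝ) * Real.log ((4 * N : ℕ) : ℝ) ^ (3 * K + 18) ≤ ((4 * N : ℕ) : ℝ) := by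
      calc (H1 : ℝ) * Real.log ((4 * N : ℕ) : ℝ) ^ (3 * K + 18) ≤ (N / ℓ ^ (3 * K + 19)) * (2 * ℓ) ^ (3 * K + 18) :=
            mul_le_mul hH1le (pow_le_pow_left₀ hlog40 hlog4 _) (by positivity) (by positivity)
        _ = (2 ^ (3 * K + 18) / ℓ) * N := by
            rw [mul_pow, show 3 * K + 19 = (3 * K + 18) + 1 by ring, pow_succ ℓ (3 * K + 18)]
            field_simp
        _ ≤ 4 * N := by
            apply mul_le_mul_of_nonneg_right _ hN0.le
            rw [div_le_iff₀ hℓ0]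
            linarith only [h1, hc2, hc4, hℓ0]
        _ = ((4 * N : ℕ) : ℝ) := by push_cast; ring
    obtain ⟨ε', hε'⟩ : ∃ ε' : ℝ, ε' = ε / (8 * D) := ⟨_, rfl⟩
    have hε'0 : 0 < ε' := by rw [hε']; positivity
    have hDhalf : 1 / 2 ≤ D := by
      rw [hD, le_div_iff₀ hsP0]
      linarith only [hPle]
    have hε'1 : ε' ≤ 1 := by
      rw [hε', div_le_one (by positivity)]
      linarith only [hDhalf, hε1]
    have hDℓ : D ≤ 2 * ℓ ^ K := by
      have g1 : D * √P = N := by rw [hD]; field_simp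
      have g2 : D * N ≤ 2 * ℓ ^ K * N := by
        calc D * N = D * (D * √P) := by rw [g1]
          _ = (D * √P) * D := by ring
          _ = (N / √P) * N := by rw [g1, hD]; ring
          _ = N ^ 2 * √P / P := by
              have g3 : √P * √P = P := Real.mul_self_sqrt hP0.le
              rw [div_mul_eq_mul_div, div_eq_div_iff hsP0.ne' hP0.ne', ← g3]
              rw [g3]
              nlinarith only [g3]
          _ ≤ (P * ℓ ^ K) * √P / P := by gcongr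
          _ = ℓ ^ K * √P := by field_simp
          _ ≤ ℓ ^ K * (2 * N) := by gcongr
          _ = _ := by ring
      exact le_of_mul_le_mul_right g2 hN0
    have hQε : Q ≤ ε' * Real.log ((4 * N : ℕ) : ℝ) ^ (K + 1) := by
      have g1 : ℓ ^ (K + 1) ≤ Real.log ((4 * N : ℕ) : ℝ) ^ (K + 1) := pow_le_pow_left₀ hℓ0.le hlog4' _
      have g2 : Q ≤ ε' * ℓ ^ (K + 1) := by
        rw [hε', div_mul_eq_mul_div, le_div_iff₀ (by positivity)]
        have g3 : 16 * Q / ε ≤ ℓ := by linarith only [h1, hc2, hc3]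
        rw [div_le_iff₀ hε] at g3
        have hQ0 : 0 ≤ Q := by linarith only [hQ]
        calc Q * (8 * D) ≤ Q * (8 * (2 * ℓ ^ K)) := by gcongr
          _ = (16 * Q) * ℓ ^ K := by ring
          _ ≤ (ℓ * ε) * ℓ ^ K := by gcongr
          _ = ε * ℓ ^ (K + 1) := by rw [pow_succ]; ring
      exact g2.trans (mul_le_mul_of_nonneg_left g1 hε'0.le)
    have hRy : R ≤ ε' * (y : ℝ) ^ (1 - (1 - 1 / τ)) := by
      rw [sub_sub_cancel]
      calc R = ε' * (8 * R / ε * D) := by rw [hε']; field_simp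
        _ ≤ _ := mul_le_mul_of_nonneg_left hy3 hε'0.le
    have b1 := hN₁ (4 * N) hN1 ε' hε'0 hε'1 hQε A B y H1 hy1n hRy hcase.le hcond (fun a ha => by have := hA a ha; omega)
      (fun b hb => by have := hB b hb; omega) (fun a ha b hb => by have := hA a ha; have := hB b hb; omega)
    rw [← hP] at b1
    have b2 := hlong H1 le_rfl (by omega)
    have b3 : |TT A B y / y - TT A B H1 / H1| ≤ (ε / 2) * P := by
      refine b1.trans (le_of_eq ?_)
      have g1 : √P * √P = P := Real.mul_self_sqrt hP0.le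
      rw [hε', hD]
      push_cast
      field_simp
      nlinarith only [g1]
    have b4 : |TT A B H1 / H1 - P| ≤ (ε / 4) * P := by
      have e : TT A B H1 / H1 - P = (TT A B H1 - P * H1) / H1 := by field_simp
      rw [e, abs_div, abs_of_pos hH10, div_le_iff₀ hH10]
      linarith only [b2]
    have b5 : |TT A B y / y - P| ≤ ε * P := by
      have := abs_sub_le (TT A B y / y) (TT A B H1 / H1) P
      have h0 : 0 ≤ ε * P := by positivity
      linarith only [this, b3, b4, h0]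
    have e : TT A B y - P * y = (TT A B y / y - P) * y := by field_simp
    rw [e, abs_mul, abs_of_pos hyp]
    calc |TT A B y / y - P| * y ≤ (ε * P) * y := by gcongr
      _ = _ := by ring

/-- Sums over pairs, for the number of primes. -/
theorem count_sparse (K : ℕ) (τ ε : ℝ) (hτ : 1 < τ) (hε : 0 < ε) (hε1 : ε ≤ 1) : ∃ C : ℝ, 0 < C ∧ ∀ᶠ N : ℕ in atTop,
    ∀ A B : Finset ℕ, (∀ a ∈ A, a ≤ N) → (∀ b ∈ B, b ≤ N) → (N : ℝ) ^ 2 ≤ (A.card : ℝ) * B.card * Real.log N ^ K →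
    ∀ y : ℕ, C * (N / √((A.card : ℝ) * B.card)) ^ τ ≤ y → y ≤ 2 * N →
    |PCs A B y * Real.log N - (A.card : ℝ) * B.card * y| ≤ ε * ((A.card : ℝ) * B.card * y) := by
  obtain ⟨H₀, hH₀, hK⟩ := theta_sparse K τ (ε / 4) hτ (by linarith only [hε]) (by linarith only [hε1])
  refine ⟨H₀, hH₀, ?_⟩
  filter_upwards [hK, ev_conv (ε / 4) (by linarith only [hε]) (by linarith only [hε1]), ev_L 1,
    ev_log K 1 (ε / 4) (by linarith only [hε]), eventually_ge_atTop 16] with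
    N h1 h2 h3 h4 hN16 A B hA hB hAB y hy1 hy2
  obtain ⟨h5, X, hX1, hX2, hX3⟩ := h2
  have hNr : (16 : ℝ) ≤ N := by exact_mod_cast hN16
  have hN0 : (0 : ℝ) < N := by linarith only [hNr]
  have h6 := h1 A B hA hB hAB y hy1 hy2
  obtain ⟨ℓ, hℓ⟩ : ∃ ℓ, ℓ = Real.log N := ⟨_, rfl⟩
  obtain ⟨P, hP⟩ : ∃ P : ℝ, P = (A.card : ℝ) * B.card := ⟨_, rfl⟩
  rw [← hℓ] at h3 h4 h5 hX2 hX3 hAB ⊢
  rw [← hP] at h6 hAB ⊢
  have hℓ0 : 0 < ℓ := by linarith only [h3]
  have hP0 : 0 ≤ P := by rw [hP]; positivity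
  have h7 := conv_low hA hB hy2 ((1 + ε / 4) * ℓ) h5
  have h8 := conv_up (A := A) (B := B) (X := X) (y := y) ((1 - ε / 4) * ℓ) (by nlinarith only [hε1, hℓ0]) hX2 hX1
  have hPN : (N : ℝ) ^ (2 - ε / 4) ≤ P := by
    have a1 : (N : ℝ) ^ 2 ≤ P * (N : ℝ) ^ (ε / 4) := by
      refine hAB.trans (mul_le_mul_of_nonneg_left ?_ hP0)
      rw [one_mul] at h4
      exact h4
    rw [Real.rpow_sub hN0, div_le_iff₀ (by positivity)]
    rw [show (2 : ℝ) = ((2 : ℕ) : ℝ) by norm_num, Real.rpow_natCast]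
    exact a1
  have h9 : (1 - ε / 4) * ℓ * ((X : ℝ) ^ 2 * y) ≤ (ε / 4) * (P * y) := by
    calc (1 - ε / 4) * ℓ * ((X : ℝ) ^ 2 * y) = ((1 - ε / 4) * ℓ * (X : ℝ) ^ 2) * y := by ring
      _ ≤ ((ε / 4) * (N : ℝ) ^ (2 - ε / 4)) * y := mul_le_mul_of_nonneg_right hX3 (Nat.cast_nonneg y)
      _ ≤ ((ε / 4) * P) * y := by gcongr
      _ = _ := by ring
  have hPy : 0 ≤ P * y := by positivity
  have hPC : 0 ≤ PCs A B y := by
    unfold PCs
    exact sum_nonneg fun _ _ => sum_nonneg fun _ _ => Nat.cast_nonneg _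
  rw [abs_le] at h6 ⊢
  obtain ⟨h61, h62⟩ := h6
  constructor
  · -- lower bound
    have b1 : (1 - ε / 4) * (P * y) ≤ (1 + ε / 4) * (PCs A B y * ℓ) := by
      calc (1 - ε / 4) * (P * y) ≤ TT A B y := by linarith only [h61]
        _ ≤ _ := by linarith only [h7]
    have b2 : (1 - ε) * (1 + ε / 4) ≤ 1 - ε / 4 := by nlinarith only [hε]
    have b3 : (1 + ε / 4) * ((1 - ε) * (P * y)) ≤ (1 + ε / 4) * (PCs A B y * ℓ) := by
      refine le_trans ?_ b1
      calc (1 + ε / 4) * ((1 - ε) * (P * y)) = ((1 - ε) * (1 + ε / 4)) * (P * y) := by ring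
        _ ≤ _ := mul_le_mul_of_nonneg_right b2 hPy
    have b4 := le_of_mul_le_mul_left b3 (by linarith only [hε])
    linarith only [b4]
  · have b1 : (1 - ε / 4) * (PCs A B y * ℓ) ≤ (1 + ε / 2) * (P * y) := by
      calc (1 - ε / 4) * (PCs A B y * ℓ) = (1 - ε / 4) * ℓ * PCs A B y := by ring
        _ ≤ TT A B y + (1 - ε / 4) * ℓ * ((X : ℝ) ^ 2 * y) := h8
        _ ≤ _ := by linarith only [h62, h9]
    have b2 : 1 + ε / 2 ≤ (1 - ε / 4) * (1 + ε) := by nlinarith only [hε, hε1]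
    have b3 : (1 - ε / 4) * (PCs A B y * ℓ) ≤ (1 - ε / 4) * ((1 + ε) * (P * y)) := by
      refine b1.trans ?_
      calc (1 + ε / 2) * (P * y) ≤ ((1 - ε / 4) * (1 + ε)) * (P * y) :=
            mul_le_mul_of_nonneg_right b2 hPy
        _ = _ := by ring
    have b4 := le_of_mul_le_mul_left b3 (by linarith only [hε1])
    linarith only [b4]

end Pool.Agent.V11316.AT
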