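import Pool.Agent.V11316.AT7
import Pool.Agent.V11316.AT22
import Pool.Agent.W301.SS.Avg

/-! Almost all translates of a set, all lengths from a power of the logarithm on at once. -/

set_option autoImplicit false

namespace Pool.Agent.V11316.AT
open Finset Filter
open Pool.Agent.W301.SS

/-- the exceptional translates for one length -/
theorem exc_sparse (K : ℕ) (τ δ : ℝ) (hτ : 1 < τ) (hδ : 0 < δ) (hδ1 : δ ≤ 1) : ∃ C : ℝ, 0 < C ∧ ∀ᶠ N : ℕ in atTop,
    ∀ A : Finset ℕ, (∀ a ∈ A, a ≤ N) → ∀ T : ℝ, 0 < T → (N : ℝ) ^ 2 ≤ (A.card : ℝ) * T * Real.log N ^ K →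
      ∀ H : ℕ, C * (N / √((A.card : ℝ) * T)) ^ τ ≤ H → H ≤ 2 * N → ((Ex A N H δ).card : ℝ) ≤ T := by
  classical
  have hτ0 : 0 < τ := by linarith only [hτ]
  obtain ⟨C₁, hC₁, hev⟩ := count_sparse (K + 1) τ (δ / 2) hτ (by linarith only [hδ]) (by linarith only [hδ1])
  have h2τ : (1 : ℝ) ≤ 2 ^ τ := Real.one_le_rpow (by norm_num) hτ0.le
  refine ⟨2 ^ τ * C₁, by positivity, ?_⟩
  filter_upwards [hev, ev_L 2, eventually_ge_atTop 1] with N h1 hℓ2 hN1 A hA T hT hAT H hH1 hH2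
  have hNr : (0 : ℝ) < N := by exact_mod_cast hN1
  obtain ⟨ℓ, hℓ⟩ : ∃ ℓ, ℓ = Real.log N := ⟨_, rfl⟩
  rw [← hℓ] at h1 hℓ2 hAT
  have hℓ0 : 0 < ℓ := by linarith only [hℓ2]
  have hA0 : (0 : ℝ) < A.card := by
    rcases (Nat.cast_nonneg (α := ℝ) A.card).lt_or_eq with h0 | h0
    · exact h0
    · rw [← h0, zero_mul, zero_mul] at hAT
      have : (0 : ℝ) < N ^ 2 := by positivity
      linarith only [hAT, this]
  have hD0 : 0 < (N / √((A.card : ℝ) * T)) ^ τ := by positivity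
  have hH0 : (0 : ℝ) < H := lt_of_lt_of_le (by positivity) hH1
  have half : ∀ (s : ℝ), s = 1 ∨ s = -1 →
      (((Icc 1 N).filter (fun b => δ * (A.card * H) < s * (sc A b H * Real.log N - A.card * H))).card : ℝ) ≤ T / 2 := by
    intro s hs
    by_contra hcon
    rw [not_le] at hcon
    obtain ⟨B, hBdef⟩ : ∃ B, B = (Icc 1 N).filter (fun b => δ * (A.card * H) < s * (sc A b H * Real.log N - A.card * H)) := ⟨_, rfl⟩
    rw [← hBdef] at hcon
    have hB : ∀ b ∈ B, b ≤ N := by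
      intro b hb
      rw [hBdef, mem_filter, mem_Icc] at hb
      omega
    have hB0 : (0 : ℝ) < B.card := lt_of_le_of_lt (by positivity) hcon
    have hTB : T ≤ 2 * B.card := by linarith only [hcon]
    have g1 : (N : ℝ) ^ 2 ≤ (A.card : ℝ) * B.card * ℓ ^ (K + 1) := by
      calc (N : ℝ) ^ 2 ≤ (A.card : ℝ) * T * ℓ ^ K := hAT
        _ ≤ (A.card : ℝ) * (2 * B.card) * ℓ ^ K := by gcongr
        _ = (A.card : ℝ) * B.card * (2 * ℓ ^ K) := by ring
        _ ≤ (A.card : ℝ) * B.card * (ℓ * ℓ ^ K) := by gcongr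
        _ = _ := by rw [pow_succ]; ring
    have g2 : C₁ * (N / √((A.card : ℝ) * B.card)) ^ τ ≤ H := by
      refine le_trans ?_ hH1
      have g3 : √((A.card : ℝ) * T) ≤ 2 * √((A.card : ℝ) * B.card) := by
        apply Real.sqrt_le_iff.2
        refine ⟨by positivity, ?_⟩
        rw [mul_pow, Real.sq_sqrt (by positivity)]
        nlinarith only [mul_le_mul_of_nonneg_left hTB hA0.le, mul_pos hA0 hB0]
      have g4 : (N : ℝ) / √((A.card : ℝ) * B.card) ≤ 2 * (N / √((A.card : ℝ) * T)) := by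
        rw [← mul_div_assoc, div_le_div_iff₀ (by positivity) (by positivity)]
        calc (N : ℝ) * √((A.card : ℝ) * T) ≤ N * (2 * √((A.card : ℝ) * B.card)) := by gcongr
          _ = _ := by ring
      calc C₁ * (N / √((A.card : ℝ) * B.card)) ^ τ ≤ C₁ * (2 * (N / √((A.card : ℝ) * T))) ^ τ := by gcongr
        _ = 2 ^ τ * C₁ * (N / √((A.card : ℝ) * T)) ^ τ := by
            rw [Real.mul_rpow (by norm_num) (by positivity)]
            ring
    have h2 := h1 A B hA hB g1 H g2 hH2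
    rw [hℓ] at h2
    have e : PCs A B H * Real.log N - (A.card : ℝ) * B.card * H = ∑ b ∈ B, (sc A b H * Real.log N - A.card * H) := by
      have e1 : PCs A B H = ∑ b ∈ B, sc A b H := by
        unfold PCs sc
        rw [sum_comm]
      rw [e1, sum_sub_distrib, sum_const, nsmul_eq_mul, ← sum_mul]
      ring
    rw [e] at h2
    have h3 : (δ * (A.card * H)) * B.card ≤ s * ∑ b ∈ B, (sc A b H * Real.log N - A.card * H) := by
      rw [mul_sum]
      calc (δ * (A.card * H)) * B.card = ∑ _b ∈ B, (δ * (A.card * H)) := by rw [sum_const, nsmul_eq_mul, mul_comm]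
        _ ≤ _ := by
          apply sum_le_sum
          intro b hb
          rw [hBdef, mem_filter] at hb
          exact hb.2.le
    have h4 : s * ∑ b ∈ B, (sc A b H * Real.log N - A.card * H) ≤ |∑ b ∈ B, (sc A b H * Real.log N - A.card * H)| := by
      rcases hs with rfl | rfl
      · rw [one_mul]; exact le_abs_self _
      · rw [neg_one_mul]; exact neg_le_abs _
    have h5 : 0 < (δ * (A.card * H)) * B.card := by positivity
    have h6 : (δ * (A.card * H)) * B.card = 2 * (δ / 2 * ((A.card : ℝ) * B.card * H)) := by ring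
    linarith only [h2, h3, h4, h5, h6]
  have g1 := half 1 (Or.inl rfl)
  have g2 := half (-1) (Or.inr rfl)
  have hsub : Ex A N H δ ⊆
      (Icc 1 N).filter (fun b => δ * (A.card * H) < (1 : ℝ) * (sc A b H * Real.log N - A.card * H)) ∪
      (Icc 1 N).filter (fun b => δ * (A.card * H) < (-1 : ℝ) * (sc A b H * Real.log N - A.card * H)) := by
    intro b hb
    unfold Ex at hb
    rw [mem_filter] at hb
    rw [mem_union, mem_filter, mem_filter]
    rcases lt_abs.1 hb.2 with h | h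
    · exact Or.inl ⟨hb.1, by rw [one_mul]; exact h⟩
    · exact Or.inr ⟨hb.1, by rw [neg_one_mul]; exact h⟩
  have g3 : ((Ex A N H δ).card : ℝ) ≤
      (((Icc 1 N).filter (fun b => δ * (A.card * H) < (1 : ℝ) * (sc A b H * Real.log N - A.card * H))).card : ℝ) +
      (((Icc 1 N).filter (fun b => δ * (A.card * H) < (-1 : ℝ) * (sc A b H * Real.log N - A.card * H))).card : ℝ) := by
    exact_mod_cast (card_le_card hsub).trans (card_union_le _ _)
  linarith only [g1, g2, g3]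

/-- **All but few translates, all lengths up to `(log N) ^ K`.** -/
theorem short_sparse (α β κ δ : ℝ) (hα : 0 ≤ α) (hβ : 0 ≤ β) (hκ : (α + β) / 2 < κ) (hδ : 0 < δ) (hδ1 : δ ≤ 1 / 2) (K : ℕ) :
    ∃ γ : ℝ, 0 < γ ∧ γ ≤ 1 ∧ ∀ᶠ N : ℕ in atTop,
    ∀ A : Finset ℕ, (∀ a ∈ A, a ≤ N) → (N : ℝ) / Real.log N ^ α ≤ A.card →
    ∃ E : Finset ℕ, E ⊆ Icc 1 N ∧ (E.card : ℝ) ≤ 3 * (N / Real.log N ^ (β + γ)) ∧ ∀ b ∈ Icc 1 N, b ∉ E →
      ∀ y : ℝ, Real.log N ^ κ ≤ y → y ≤ Real.log N ^ K → y ≤ N →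
        (1 - 3 * δ) * (A.card * y) ≤ sc A b ⌊y⌋₊ * Real.log N ∧ sc A b ⌊y⌋₊ * Real.log N ≤ (1 + 3 * δ) * (A.card * y) := by
  classical
  obtain ⟨κ', hκ'⟩ : ∃ κ', κ' = (α + β) / 2 := ⟨_, rfl⟩
  have hκ'0 : 0 ≤ κ' := by rw [hκ']; linarith only [hα, hβ]
  rw [← hκ'] at hκ
  have hκ0 : 0 < κ := by linarith only [hκ, hκ'0]
  obtain ⟨g, hg⟩ : ∃ g, g = min (κ - κ') 1 := ⟨_, rfl⟩
  have hg0 : 0 < g := by rw [hg]; exact lt_min (by linarith only [hκ]) one_pos
  have hg1 : g ≤ 1 := by rw [hg]; exact min_le_right _ _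
  have hgκ : κ' + g ≤ κ := by
    have : g ≤ κ - κ' := by rw [hg]; exact min_le_left _ _
    linarith only [this]
  obtain ⟨τ, hτ⟩ : ∃ τ, τ = (κ' + 3 * g / 4) / (κ' + g / 2) := ⟨_, rfl⟩
  have hden : 0 < κ' + g / 2 := by linarith only [hκ'0, hg0]
  have hτ1 : 1 < τ := by rw [hτ, lt_div_iff₀ hden]; linarith only [hg0]
  have hτe : (κ' + g / 2) * τ = κ' + 3 * g / 4 := by rw [hτ]; field_simp
  have hτ0 : 0 < τ := by linarith only [hτ1]
  obtain ⟨L, hL⟩ : ∃ L : ℕ, α + β + g ≤ L := exists_nat_ge _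
  obtain ⟨C, hC, hexc⟩ := exc_sparse L τ δ hτ1 hδ (by linarith only [hδ1])
  obtain ⟨K', hK'⟩ : ∃ K' : ℕ, (K : ℝ) / (g / 2) ≤ K' := exists_nat_ge _
  obtain ⟨n₀, hn₀⟩ := eventually_atTop.1 (grid_growth 1 δ one_pos hδ K')
  have tL : Tendsto (fun N : ℕ => Real.log (N : ℝ)) atTop atTop := Real.tendsto_log_atTop.comp tendsto_natCast_atTop_atTop
  have t1 : Tendsto (fun N : ℕ => Real.log (N : ℝ) ^ (g / 2)) atTop atTop := (tendsto_rpow_atTop (by linarith only [hg0])).comp tL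
  have t2 : Tendsto (fun N : ℕ => Real.log (N : ℝ) ^ (g / 4)) atTop atTop := (tendsto_rpow_atTop (by linarith only [hg0])).comp tL
  have t3 : Tendsto (fun N : ℕ => Real.log (N : ℝ) ^ κ) atTop atTop := (tendsto_rpow_atTop hκ0).comp tL
  refine ⟨g / 2, by linarith only [hg0], by linarith only [hg1], ?_⟩
  filter_upwards [hexc, ev_L 1, t1.eventually_ge_atTop ((n₀ : ℝ) + 1), t2.eventually_ge_atTop (2 * C),
    t3.eventually_ge_atTop (2 + 1 / δ), eventually_ge_atTop 16] with N h1 hℓ1 h2 h3 h4 hN16 A hA hAc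
  have hNr : (16 : ℝ) ≤ N := by exact_mod_cast hN16
  have hN0 : (0 : ℝ) < N := by linarith only [hNr]
  obtain ⟨ℓ, hℓ⟩ : ∃ ℓ, ℓ = Real.log N := ⟨_, rfl⟩
  rw [← hℓ] at h1 hℓ1 h2 h3 h4 hAc ⊢
  have hℓ0 : 0 < ℓ := by linarith only [hℓ1]
  obtain ⟨s, hs⟩ : ∃ s, s = ℓ ^ (g / 2) := ⟨_, rfl⟩
  rw [← hs] at h2
  obtain ⟨x, hx⟩ : ∃ x, x = ℓ ^ κ := ⟨_, rfl⟩
  rw [← hx] at h4 ⊢
  obtain ⟨lam, hlam⟩ : ∃ lam, lam = x / ℓ := ⟨_, rfl⟩
  have hd1 : 0 < 1 / δ := by positivity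
  have hx0 : 0 < x := by linarith only [h4, hd1]
  have hlam0 : 0 < lam := by rw [hlam]; positivity
  have hlℓ' : lam * ℓ = x := by rw [hlam]; field_simp
  have hn00 : (0 : ℝ) ≤ n₀ := Nat.cast_nonneg _
  have hs1 : 1 ≤ s := by linarith only [h2, hn00]
  have hs0 : 0 < s := by linarith only [hs1]
  have hδx : 1 ≤ δ * x := by
    have : 1 / δ ≤ x := by linarith only [h4]
    rw [div_le_iff₀ hδ] at this
    linarith only [this]
  have hA0 : (0 : ℝ) < A.card := lt_of_lt_of_le (by positivity) hAc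
  -- the number of points of the grid
  obtain ⟨J, hJ⟩ : ∃ J, J = ⌈s⌉₊ := ⟨_, rfl⟩
  have hJ1 : s ≤ J := by rw [hJ]; exact Nat.le_ceil _
  have hJ2 : (J : ℝ) ≤ s + 1 := by
    have := Nat.ceil_lt_add_one hs0.le
    rw [← hJ] at this
    exact this.le
  have hJn : n₀ ≤ J := by
    have : (n₀ : ℝ) ≤ J := by linarith only [h2, hJ1]
    exact_mod_cast this
  have hJg : ℓ ^ K < lam * ℓ * (1 + δ) ^ J := by
    have g1 := hn₀ J hJn
    have g2 : ℓ ^ K ≤ s ^ K' := by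
      rw [hs, ← Real.rpow_natCast, ← Real.rpow_natCast, ← Real.rpow_mul hℓ0.le]
      apply Real.rpow_le_rpow_of_exponent_le hℓ1
      rw [div_le_iff₀ (by linarith only [hg0])] at hK'
      linarith only [hK']
    have g3 : s ^ K' ≤ (J : ℝ) ^ K' := pow_le_pow_left₀ hs0.le hJ1 _
    rw [hlℓ']
    have hx1 : 1 ≤ x := by linarith only [h4, hd1]
    calc ℓ ^ K ≤ (J : ℝ) ^ K' := g2.trans g3
      _ < 1 * (1 + δ) ^ J := g1
      _ ≤ x * (1 + δ) ^ J := mul_le_mul_of_nonneg_right hx1 (by positivity)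
  -- the exceptional set
  obtain ⟨T, hT⟩ : ∃ T, T = N / ℓ ^ (β + g) := ⟨_, rfl⟩
  have hT0 : 0 < T := by rw [hT]; positivity
  obtain ⟨E, hE⟩ : ∃ E, E = ((range (J + 1)).filter (fun j => fl lam δ ℓ j ≤ 2 * N)).biUnion (fun j => Ex A N (fl lam δ ℓ j) δ) := ⟨_, rfl⟩
  have hflo : ∀ j, (1 - δ) * (lam * ℓ * (1 + δ) ^ j) ≤ fl lam δ ℓ j ∧ (fl lam δ ℓ j : ℝ) ≤ lam * ℓ * (1 + δ) ^ j := by
    intro j
    have hp : 1 ≤ (1 + δ) ^ j := one_le_pow₀ (by linarith only [hδ])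
    have hxx : x ≤ lam * ℓ * (1 + δ) ^ j := by rw [hlℓ']; exact le_mul_of_one_le_right hx0.le hp
    constructor
    · have g1 := Nat.lt_floor_add_one (lam * ℓ * (1 + δ) ^ j)
      have g2 : 1 ≤ δ * (lam * ℓ * (1 + δ) ^ j) := hδx.trans (mul_le_mul_of_nonneg_left hxx hδ.le)
      unfold fl
      linarith only [g1, g2]
    · unfold fl
      exact Nat.floor_le (by positivity)
  have hfl1 : ∀ j, x / 2 ≤ fl lam δ ℓ j := by
    intro j
    have hp : 1 ≤ (1 + δ) ^ j := one_le_pow₀ (by linarith only [hδ])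
    have hxx : x ≤ lam * ℓ * (1 + δ) ^ j := by rw [hlℓ']; exact le_mul_of_one_le_right hx0.le hp
    have g1 := Nat.lt_floor_add_one (lam * ℓ * (1 + δ) ^ j)
    unfold fl
    linarith only [g1, hxx, h4, hd1]
  have hAT1 : (N : ℝ) ^ 2 ≤ ((A.card : ℝ) * T) * ℓ ^ (α + β + g) := by
    have e1 : ℓ ^ (α + β + g) = ℓ ^ α * ℓ ^ (β + g) := by rw [← Real.rpow_add hℓ0]; ring_nf
    have e2 : (N : ℝ) ≤ A.card * ℓ ^ α := by rwa [div_le_iff₀ (by positivity)] at hAc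
    calc (N : ℝ) ^ 2 = N * N := sq _
      _ ≤ (A.card * ℓ ^ α) * N := mul_le_mul_of_nonneg_right e2 hN0.le
      _ = ((A.card : ℝ) * T) * ℓ ^ (α + β + g) := by rw [e1, hT]; field_simp
  have hAT2 : (N : ℝ) ^ 2 ≤ (A.card : ℝ) * T * ℓ ^ L := by
    refine hAT1.trans (mul_le_mul_of_nonneg_left ?_ (by positivity))
    rw [← Real.rpow_natCast]
    exact Real.rpow_le_rpow_of_exponent_le hℓ1 hL
  have hDT : N / √((A.card : ℝ) * T) ≤ ℓ ^ (κ' + g / 2) := by
    rw [div_le_iff₀ (by positivity)]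
    have e1 : (ℓ ^ (κ' + g / 2) * √((A.card : ℝ) * T)) ^ 2 = ((A.card : ℝ) * T) * ℓ ^ (α + β + g) := by
      rw [mul_pow, Real.sq_sqrt (by positivity), ← Real.rpow_natCast, ← Real.rpow_mul hℓ0.le, hκ']
      rw [show ((α + β) / 2 + g / 2) * ((2 : ℕ) : ℝ) = α + β + g by push_cast; ring]
      ring
    rw [← e1] at hAT1
    exact le_of_sq_le_sq hAT1 (by positivity)
  have hlen : ∀ j, C * (N / √((A.card : ℝ) * T)) ^ τ ≤ fl lam δ ℓ j := by
    intro j
    refine le_trans ?_ (hfl1 j)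
    have e1 : (N / √((A.card : ℝ) * T)) ^ τ ≤ ℓ ^ (κ' + 3 * g / 4) := by
      rw [← hτe, Real.rpow_mul hℓ0.le]
      exact Real.rpow_le_rpow (by positivity) hDT hτ0.le
    have e2 : ℓ ^ (κ' + g) ≤ x := by rw [hx]; exact Real.rpow_le_rpow_of_exponent_le hℓ1 hgκ
    have e3 : 2 * C * ℓ ^ (κ' + 3 * g / 4) ≤ ℓ ^ (κ' + g) := by
      calc 2 * C * ℓ ^ (κ' + 3 * g / 4) ≤ ℓ ^ (g / 4) * ℓ ^ (κ' + 3 * g / 4) := mul_le_mul_of_nonneg_right h3 (by positivity)
        _ = ℓ ^ (κ' + g) := by rw [← Real.rpow_add hℓ0]; ring_nf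
    have e4 := mul_le_mul_of_nonneg_left e1 hC.le
    linarith only [e2, e3, e4]
  refine ⟨E, ?_, ?_, ?_⟩
  · rw [hE]
    intro b hb
    rw [mem_biUnion] at hb
    obtain ⟨j, _, hj⟩ := hb
    unfold Ex at hj
    exact (mem_filter.1 hj).1
  · have g1 : (E.card : ℝ) ≤ ∑ j ∈ (range (J + 1)).filter (fun j => fl lam δ ℓ j ≤ 2 * N), ((Ex A N (fl lam δ ℓ j) δ).card : ℝ) := by
      rw [hE]
      exact_mod_cast card_biUnion_le
    have g2 : ∀ j ∈ (range (J + 1)).filter (fun j => fl lam δ ℓ j ≤ 2 * N), ((Ex A N (fl lam δ ℓ j) δ).card : ℝ) ≤ T := by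
      intro j hj
      rw [mem_filter] at hj
      exact h1 A hA T hT0 hAT2 _ (hlen j) hj.2
    refine (g1.trans (sum_le_sum g2)).trans ?_
    rw [sum_const, nsmul_eq_mul]
    have g3 : ((((range (J + 1)).filter (fun j => fl lam δ ℓ j ≤ 2 * N)).card : ℕ) : ℝ) ≤ 3 * s := by
      have : ((range (J + 1)).filter (fun j => fl lam δ ℓ j ≤ 2 * N)).card ≤ J + 1 := by
        refine (card_filter_le _ _).trans ?_
        rw [card_range]
      have g4 : ((((range (J + 1)).filter (fun j => fl lam δ ℓ j ≤ 2 * N)).card : ℕ) : ℝ) ≤ (J + 1 : ℕ) := by exact_mod_cast this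
      push_cast at g4
      linarith only [g4, hJ2, hs1]
    calc _ ≤ (3 * s) * T := mul_le_mul_of_nonneg_right g3 hT0.le
      _ = 3 * (N / ℓ ^ (β + g / 2)) := by
          rw [hT, hs, show β + g = (β + g / 2) + g / 2 by ring, Real.rpow_add hℓ0 (β + g / 2) (g / 2)]
          field_simp
  · intro b hb hbE y hy1 hy2 hyN
    have hy1' : lam * ℓ ≤ y := by rw [hlℓ']; exact hy1
    obtain ⟨j, hjJ, hj1, hj2⟩ := grid hlam0 hδ hℓ0 hy1' (lt_of_le_of_lt hy2 hJg)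
    have hy0 : 0 < y := lt_of_lt_of_le hx0 hy1
    have hgood : ∀ i, i < J + 1 → (fl lam δ ℓ i : ℝ) ≤ 2 * N →
        |sc A b (fl lam δ ℓ i) * ℓ - A.card * (fl lam δ ℓ i)| ≤ δ * (A.card * (fl lam δ ℓ i)) := by
      intro i hi hfi
      by_contra hcon
      apply hbE
      rw [hE, mem_biUnion]
      refine ⟨i, mem_filter.2 ⟨mem_range.2 hi, by exact_mod_cast hfi⟩, ?_⟩
      unfold Ex
      rw [mem_filter, ← hℓ]
      exact ⟨hb, not_le.1 hcon⟩
    have hfj := hflo j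
    have hfj' := hflo (j + 1)
    have hstep : lam * ℓ * (1 + δ) ^ (j + 1) = (1 + δ) * (lam * ℓ * (1 + δ) ^ j) := by rw [pow_succ]; ring
    have hup : lam * ℓ * (1 + δ) ^ (j + 1) ≤ (1 + δ) * y := by
      rw [hstep]
      exact mul_le_mul_of_nonneg_left hj1 (by linarith only [hδ])
    have q1 := hgood j (by omega) (by linarith only [hfj.2, hj1, hyN, hN0])
    have q2 := hgood (j + 1) (by omega) (by
      have : (1 + δ) * y ≤ (3 / 2) * N := by
        apply mul_le_mul (by linarith only [hδ1]) hyN hy0.le (by norm_num)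
      linarith only [hfj'.2, hup, this, hN0])
    have m1 : sc A b (fl lam δ ℓ j) ≤ sc A b ⌊y⌋₊ := by
      unfold sc
      apply sum_le_sum
      intro a _
      exact_mod_cast pn_mono (Nat.floor_mono hj1)
    have m2 : sc A b ⌊y⌋₊ ≤ sc A b (fl lam δ ℓ (j + 1)) := by
      unfold sc
      apply sum_le_sum
      intro a _
      exact_mod_cast pn_mono (Nat.floor_mono hj2.le)
    rw [abs_le] at q1 q2
    have m1' := mul_le_mul_of_nonneg_right m1 hℓ0.le
    have m2' := mul_le_mul_of_nonneg_right m2 hℓ0.le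
    constructor
    · -- lower bound
      have r1 : (1 - δ) * (A.card * (fl lam δ ℓ j : ℝ)) ≤ sc A b ⌊y⌋₊ * ℓ := by linarith only [q1.1, m1']
      have r2 : (1 - 2 * δ) * y ≤ (fl lam δ ℓ j : ℝ) := by
        have s1 : y ≤ (1 + δ) * (lam * ℓ * (1 + δ) ^ j) := by rw [← hstep]; exact hj2.le
        have s2 : (1 - δ) * (lam * ℓ * (1 + δ) ^ j) ≤ fl lam δ ℓ j := hfj.1
        have s3 : 0 ≤ lam * ℓ * (1 + δ) ^ j := by positivity
        have s4 : (1 - 2 * δ) * y ≤ (1 - 2 * δ) * ((1 + δ) * (lam * ℓ * (1 + δ) ^ j)) :=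
          mul_le_mul_of_nonneg_left s1 (by linarith only [hδ1])
        have s5 : (1 - 2 * δ) * (1 + δ) ≤ 1 - δ := by nlinarith only [hδ]
        calc (1 - 2 * δ) * y ≤ (1 - 2 * δ) * ((1 + δ) * (lam * ℓ * (1 + δ) ^ j)) := s4
          _ = ((1 - 2 * δ) * (1 + δ)) * (lam * ℓ * (1 + δ) ^ j) := by ring
          _ ≤ (1 - δ) * (lam * ℓ * (1 + δ) ^ j) := mul_le_mul_of_nonneg_right s5 s3
          _ ≤ _ := s2
      have r3 : (1 - 3 * δ) * (A.card * y) ≤ (1 - δ) * (A.card * ((1 - 2 * δ) * y)) := by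
        have : 0 ≤ (A.card : ℝ) * y := mul_nonneg hA0.le hy0.le
        have s1 : 1 - 3 * δ ≤ (1 - δ) * (1 - 2 * δ) := by nlinarith only [hδ]
        calc (1 - 3 * δ) * (A.card * y) ≤ ((1 - δ) * (1 - 2 * δ)) * (A.card * y) := mul_le_mul_of_nonneg_right s1 this
          _ = _ := by ring
      have r4 : (1 - δ) * (A.card * ((1 - 2 * δ) * y)) ≤ (1 - δ) * (A.card * (fl lam δ ℓ j : ℝ)) :=
        mul_le_mul_of_nonneg_left (mul_le_mul_of_nonneg_left r2 hA0.le) (by linarith only [hδ1])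
      linarith only [r1, r3, r4]
    · have r1 : sc A b ⌊y⌋₊ * ℓ ≤ (1 + δ) * (A.card * (fl lam δ ℓ (j + 1) : ℝ)) := by linarith only [q2.2, m2']
      have r2 : (fl lam δ ℓ (j + 1) : ℝ) ≤ (1 + δ) * y := hfj'.2.trans hup
      have r3 : (1 + δ) * (A.card * (fl lam δ ℓ (j + 1) : ℝ)) ≤ (1 + δ) * (A.card * ((1 + δ) * y)) :=
        mul_le_mul_of_nonneg_left (mul_le_mul_of_nonneg_left r2 hA0.le) (by linarith only [hδ])
      have r4 : (1 + δ) * (A.card * ((1 + δ) * y)) ≤ (1 + 3 * δ) * (A.card * y) := by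
        have : 0 ≤ (A.card : ℝ) * y := mul_nonneg hA0.le hy0.le
        have s1 : (1 + δ) * (1 + δ) ≤ 1 + 3 * δ := by nlinarith only [hδ, hδ1]
        calc (1 + δ) * (A.card * ((1 + δ) * y)) = ((1 + δ) * (1 + δ)) * (A.card * y) := by ring
          _ ≤ _ := mul_le_mul_of_nonneg_right s1 this
      linarith only [r1, r3, r4]

end Pool.Agent.V11316.AT
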