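import Pool.Agent.V11316.AT23

/-! Almost all translates of a set, all lengths from a power of the logarithm to `N` at once. -/

set_option autoImplicit false

namespace Pool.Agent.V11316.AT
open Finset Filter
open Pool.Agent.W301.SS

/-- **Almost all translates, all lengths from `(log N) ^ κ` on at once.** -/
theorem uniform_sparse (α β κ ε : ℝ) (hα : 0 ≤ α) (hβ : 0 ≤ β) (hκ : (α + β) / 2 < κ) (hε : 0 < ε) (hε1 : ε ≤ 1) : ∀ᶠ N : ℕ in atTop,
    ∀ A : Finset ℕ, (∀ a ∈ A, a ≤ N) → (N : ℝ) / Real.log N ^ α ≤ A.card →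
    ∃ E : Finset ℕ, E ⊆ Icc 1 N ∧ (E.card : ℝ) ≤ (N : ℝ) / Real.log N ^ β ∧
      ∀ b ∈ Icc 1 N, b ∉ E → ∀ y : ℝ, Real.log N ^ κ ≤ y → y ≤ N →
        |(∑ a ∈ A, ((Nat.primeCounting ⌊((a + b : ℕ) : ℝ) + y⌋₊ : ℝ) - Nat.primeCounting (a + b)) /
          (y / Real.log ((a + b : ℕ) : ℝ))) / A.card - 1| ≤ ε := by
  classical
  obtain ⟨C, hC⟩ : ∃ C : ℕ, max α (β + 1) ≤ C := exists_nat_ge _
  have hCα : α ≤ C := (le_max_left _ _).trans hC
  have hCβ : β + 1 ≤ C := (le_max_right _ _).trans hC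
  obtain ⟨K, hK⟩ := avgVar ε hε hε1 C
  obtain ⟨γ, hγ0, hγ1, hev⟩ := short_sparse α β κ (ε / 16) hα hβ hκ (by linarith only [hε]) (by linarith only [hε1]) K
  have tL : Tendsto (fun N : ℕ => Real.log (N : ℝ)) atTop atTop := Real.tendsto_log_atTop.comp tendsto_natCast_atTop_atTop
  have tγ : Tendsto (fun N : ℕ => Real.log (N : ℝ) ^ γ) atTop atTop := (tendsto_rpow_atTop hγ0).comp tL
  filter_upwards [hK, hev, ev_L (16 / ε + 1), tγ.eventually_ge_atTop 4, eventually_ge_atTop 16] with N h1 h2 h3 h4 hN16 A hA hAc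
  have hNr : (16 : ℝ) ≤ N := by exact_mod_cast hN16
  have hN0 : (0 : ℝ) < N := by linarith only [hNr]
  obtain ⟨ℓ, hℓ⟩ : ∃ ℓ, ℓ = Real.log N := ⟨_, rfl⟩
  rw [← hℓ] at h1 h2 h3 h4 hAc ⊢
  have hc1 : 0 < 16 / ε := by positivity
  have hℓ1 : 1 ≤ ℓ := by linarith only [h3, hc1]
  have hℓ0 : 0 < ℓ := by linarith only [hℓ1]
  have hA0 : (0 : ℝ) < A.card := lt_of_lt_of_le (by positivity) hAc
  obtain ⟨E₁, hE₁1, hE₁2, hE₁3⟩ := h1 A hA (by
    have g1 : (N : ℝ) ≤ A.card * ℓ ^ α := by rwa [div_le_iff₀ (by positivity)] at hAc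
    refine g1.trans (mul_le_mul_of_nonneg_left ?_ hA0.le)
    rw [← Real.rpow_natCast]
    exact Real.rpow_le_rpow_of_exponent_le hℓ1 hCα)
  obtain ⟨E₂, hE₂1, hE₂2, hE₂3⟩ := h2 A hA hAc
  refine ⟨E₁ ∪ E₂, union_subset hE₁1 hE₂1, ?_, ?_⟩
  · have g1 : (((E₁ ∪ E₂).card : ℕ) : ℝ) ≤ E₁.card + E₂.card := by exact_mod_cast card_union_le _ _
    have g2 : (E₁.card : ℝ) ≤ N / ℓ ^ (β + γ) := by
      rw [le_div_iff₀ (by positivity)]
      refine le_trans (mul_le_mul_of_nonneg_left ?_ (Nat.cast_nonneg _)) hE₁2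
      rw [← Real.rpow_natCast]
      exact Real.rpow_le_rpow_of_exponent_le hℓ1 (by linarith only [hCβ, hγ1])
    have g4 : 4 * (N / ℓ ^ (β + γ)) ≤ N / ℓ ^ β := by
      rw [← mul_div_assoc, div_le_div_iff₀ (by positivity) (by positivity), Real.rpow_add hℓ0]
      calc 4 * (N : ℝ) * ℓ ^ β ≤ ℓ ^ γ * N * ℓ ^ β := by gcongr
        _ = N * (ℓ ^ β * ℓ ^ γ) := by ring
    linarith only [g1, g2, hE₂2, g4]
  · intro b hb hbE y hy1 hyN
    rw [mem_union, not_or] at hbE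
    obtain ⟨hbN, hlong, _⟩ := hE₁3 b hb hbE.1
    have hy0 : 0 < y := lt_of_lt_of_le (Real.rpow_pos_of_pos hℓ0 _) hy1
    rcases le_or_gt (ℓ ^ K) y with hyK | hyK
    · exact hlong y hyK hyN (fun _ => y) (fun _ _ => ⟨by nlinarith only [hy0, hε], le_rfl⟩)
    · obtain ⟨s1, s2⟩ := hE₂3 b hb hbE.2 y hy1 hyK.le hyN
      rw [mem_Icc] at hb
      have hbr : (b : ℝ) ≤ N := by exact_mod_cast hb.2
      -- logarithms
      have hlog : ∀ a ∈ A, (1 - ε / 8) * ℓ ≤ Real.log ((a + b : ℕ) : ℝ) ∧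
          Real.log ((a + b : ℕ) : ℝ) ≤ (1 + ε / 8) * ℓ := by
        intro a ha
        have ha1 : (a : ℝ) ≤ N := by exact_mod_cast hA a ha
        have ha0 : (0 : ℝ) ≤ a := Nat.cast_nonneg a
        constructor
        · rw [hℓ, ← Real.log_rpow hN0]
          apply Real.log_le_log (by positivity)
          push_cast; linarith only [hbN, ha0]
        · have hab : ((a + b : ℕ) : ℝ) ≤ 2 * N := by push_cast; linarith only [ha1, hbr]
          have hab0 : (0 : ℝ) < ((a + b : ℕ) : ℝ) := by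
            exact_mod_cast (by omega : 0 < a + b)
          have a1 := Real.log_le_log hab0 hab
          rw [Real.log_mul (by norm_num) hN0.ne', ← hℓ] at a1
          have a2 := Real.log_two_lt_d9
          have a3 : 2 ≤ ε / 8 * ℓ := by
            have : 16 / ε ≤ ℓ := by linarith only [h3]
            rw [div_le_iff₀ hε] at this
            linarith only [this]
          linarith only [a1, a2, a3]
      have hterm : ∀ a ∈ A, ((1 - ε / 8) * ℓ / y) * (pn (a + b) ⌊y⌋₊ : ℝ) ≤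
          ((Nat.primeCounting ⌊((a + b : ℕ) : ℝ) + y⌋₊ : ℝ) - Nat.primeCounting (a + b)) / (y / Real.log ((a + b : ℕ) : ℝ)) ∧
          ((Nat.primeCounting ⌊((a + b : ℕ) : ℝ) + y⌋₊ : ℝ) - Nat.primeCounting (a + b)) / (y / Real.log ((a + b : ℕ) : ℝ)) ≤
          ((1 + ε / 8) * ℓ / y) * (pn (a + b) ⌊y⌋₊ : ℝ) := by
        intro a ha
        obtain ⟨l1, l2⟩ := hlog a ha
        have hl0 : 0 < Real.log ((a + b : ℕ) : ℝ) := lt_of_lt_of_le (mul_pos (by linarith only [hε1]) hℓ0) l1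
        rw [pn_floor (a + b) y hy0.le]
        have e : (pn (a + b) ⌊y⌋₊ : ℝ) / (y / Real.log ((a + b : ℕ) : ℝ)) =
            (Real.log ((a + b : ℕ) : ℝ) / y) * (pn (a + b) ⌊y⌋₊ : ℝ) := by
          field_simp
        rw [e]
        have p2 : (0 : ℝ) ≤ pn (a + b) ⌊y⌋₊ := Nat.cast_nonneg _
        exact ⟨mul_le_mul_of_nonneg_right (div_le_div_of_nonneg_right l1 hy0.le) p2,
          mul_le_mul_of_nonneg_right (div_le_div_of_nonneg_right l2 hy0.le) p2⟩
      obtain ⟨S, hS⟩ : ∃ S, S = ∑ a ∈ A, ((Nat.primeCounting ⌊((a + b : ℕ) : ℝ) + y⌋₊ : ℝ) - Nat.primeCounting (a + b)) /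
          (y / Real.log ((a + b : ℕ) : ℝ)) := ⟨_, rfl⟩
      have hlow : ((1 - ε / 8) * ℓ / y) * sc A b ⌊y⌋₊ ≤ S := by
        rw [hS]
        unfold sc
        rw [mul_sum]
        exact sum_le_sum fun a ha => (hterm a ha).1
      have hupp : S ≤ ((1 + ε / 8) * ℓ / y) * sc A b ⌊y⌋₊ := by
        rw [hS]
        unfold sc
        rw [mul_sum]
        exact sum_le_sum fun a ha => (hterm a ha).2
      rw [← hS]
      have t1 : (1 - ε / 8) * ((1 - 3 * (ε / 16)) * A.card) ≤ S := by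
        refine le_trans ?_ hlow
        calc (1 - ε / 8) * ((1 - 3 * (ε / 16)) * A.card) = ((1 - ε / 8) / y) * ((1 - 3 * (ε / 16)) * (A.card * y)) := by field_simp
          _ ≤ ((1 - ε / 8) / y) * (sc A b ⌊y⌋₊ * ℓ) := by
              apply mul_le_mul_of_nonneg_left s1
              exact div_nonneg (by linarith only [hε1]) hy0.le
          _ = _ := by ring
      have t2 : S ≤ (1 + ε / 8) * ((1 + 3 * (ε / 16)) * A.card) := by
        refine hupp.trans ?_
        calc ((1 + ε / 8) * ℓ / y) * sc A b ⌊y⌋₊ = ((1 + ε / 8) / y) * (sc A b ⌊y⌋₊ * ℓ) := by ring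
          _ ≤ ((1 + ε / 8) / y) * ((1 + 3 * (ε / 16)) * (A.card * y)) := mul_le_mul_of_nonneg_left s2 (by positivity)
          _ = _ := by field_simp
      have e : S / A.card - 1 = (S - A.card) / A.card := by field_simp
      rw [e, abs_div, abs_of_pos hA0, div_le_iff₀ hA0, abs_le]
      have u1 : (1 - ε) * A.card ≤ (1 - ε / 8) * ((1 - 3 * (ε / 16)) * A.card) := by
        have : 1 - ε ≤ (1 - ε / 8) * (1 - 3 * (ε / 16)) := by nlinarith only [hε]
        calc (1 - ε) * A.card ≤ ((1 - ε / 8) * (1 - 3 * (ε / 16))) * A.card := mul_le_mul_of_nonneg_right this hA0.le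
          _ = _ := by ring
      have u2 : (1 + ε / 8) * ((1 + 3 * (ε / 16)) * A.card) ≤ (1 + ε) * A.card := by
        have : (1 + ε / 8) * (1 + 3 * (ε / 16)) ≤ 1 + ε := by nlinarith only [hε, hε1]
        calc (1 + ε / 8) * ((1 + 3 * (ε / 16)) * A.card) = ((1 + ε / 8) * (1 + 3 * (ε / 16))) * A.card := by ring
          _ ≤ _ := mul_le_mul_of_nonneg_right this hA0.le
      constructor
      · linarith only [t1, u1]
      · linarith only [t2, u2]

end Pool.Agent.V11316.AT
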