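import Pool.Agent.V11316.TB1

/-! Completions of multiplication tables. -/

set_option autoImplicit false

namespace Pool.Agent.V11316.TB
open Finset Filter
open Pool.Agent.Y851.PS
open Pool.Agent.Y851.PT

open Classical in
/-- the completions of a table by `k` rows and `l` columns such that the new entries follow a pattern -/
noncomputable def Comp {α β ι : Type} {r s k l : ℕ} (δ : ℝ) (σ : Fin r → Fin l → Bool × ι) (τ : Fin k → Fin s → Bool × ι)
    (υ : Fin k → Fin l → Bool × ι) (A : Finset α) (C : Finset β) (W : ι → α → β → ℝ) (a : Fin r → α) (c : Fin s → β) :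
    Finset ((Fin k → α) × (Fin l → β)) :=
  (Fintype.piFinset (fun _ : Fin k => A) ×ˢ Fintype.piFinset (fun _ : Fin l => C)).filter (fun w =>
    (∀ i j, Gd δ (σ i j).1 (W (σ i j).2 (a i) (w.2 j))) ∧ (∀ i j, Gd δ (τ i j).1 (W (τ i j).2 (w.1 i) (c j))) ∧
    ∀ i j, Gd δ (υ i j).1 (W (υ i j).2 (w.1 i) (w.2 j)))

lemma card_pow_fin {α : Type} (A : Finset α) (n : ℕ) :
    ((Fintype.piFinset (fun _ : Fin n => A)).card : ℝ) = (A.card : ℝ) ^ n := by
  rw [Fintype.card_piFinset, prod_const, Finset.card_univ, Fintype.card_fin]; push_cast; rfl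

lemma card_union_bad {ι γ : Type} [Fintype ι] (S : Finset γ) (P : ι → γ → Prop) [∀ i, DecidablePred (P i)]
    [DecidablePred (fun y => ∃ i, P i y)] (T : ℝ) (h : ∀ i, ((S.filter (P i)).card : ℝ) ≤ T) :
    ((S.filter (fun y => ∃ i, P i y)).card : ℝ) ≤ Fintype.card ι * T := by
  classical
  have h1 : S.filter (fun y => ∃ i, P i y) ⊆ (univ : Finset ι).biUnion (fun i => S.filter (P i)) := by
    intro y hy
    rw [mem_filter] at hy
    obtain ⟨hyS, i, hi⟩ := hy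
    rw [mem_biUnion]
    exact ⟨i, mem_univ _, mem_filter.2 ⟨hyS, hi⟩⟩
  have h2 : ((S.filter (fun y => ∃ i, P i y)).card : ℝ) ≤ ∑ i, ((S.filter (P i)).card : ℝ) := by
    exact_mod_cast (card_le_card h1).trans card_biUnion_le
  refine h2.trans ((sum_le_sum fun i _ => h i).trans (le_of_eq ?_))
  rw [sum_const, nsmul_eq_mul, Finset.card_univ]

lemma card_prod_filter {γ ε : Type} (S : Finset γ) (T : Finset ε) (P : γ × ε → Prop) [DecidablePred P] :
    (((S ×ˢ T).filter P).card : ℝ) = ∑ x ∈ S, ((T.filter (fun y => P (x, y))).card : ℝ) := by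
  have h1 : (((S ×ˢ T).filter P).card : ℝ) = ∑ z ∈ S ×ˢ T, (if P z then (1 : ℝ) else 0) := by
    rw [card_filter]; push_cast; rfl
  rw [h1, sum_product]
  apply sum_congr rfl
  intro x _
  rw [card_filter]; push_cast; rfl

open Classical in
/-- the count for fixed roots -/
theorem count_core {α β ι : Type} {r s k l : ℕ} {δ κ₁ κ₂ κ₃ η₃ : ℝ} (hκ₁ : 0 < κ₁) (hκ₂ : 0 < κ₂) (hκ₃ : 0 < κ₃)
    (hη₃ : l * η₃ ≤ κ₁ ^ k / 2) (σ : Fin r → Fin l → Bool × ι) (τ : Fin k → Fin s → Bool × ι)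
    (υ : Fin k → Fin l → Bool × ι) (A : Finset α) (C : Finset β) (W : ι → α → β → ℝ) (a : Fin r → α) (c : Fin s → β)
    (h1 : ∀ i, κ₁ * A.card ≤ ((A.filter (fun x => ∀ j, Gd δ (τ i j).1 (W (τ i j).2 x (c j)))).card : ℝ))
    (h2 : ∀ j, κ₂ * C.card ≤ ((C.filter (fun y => ∀ i, Gd δ (σ i j).1 (W (σ i j).2 (a i) y))).card : ℝ))
    (h3 : ∀ j, (((Fintype.piFinset (fun _ : Fin k => A)).filter (fun x => ¬
      (κ₃ * ((C.filter (fun y => ∀ i, Gd δ (σ i j).1 (W (σ i j).2 (a i) y))).card : ℝ) ≤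
        (((C.filter (fun y => ∀ i, Gd δ (σ i j).1 (W (σ i j).2 (a i) y))).filter (fun y => ∀ i, Gd δ (υ i j).1 (W (υ i j).2 (x i) y))).card : ℝ)))).card : ℝ) ≤
      η₃ * (A.card : ℝ) ^ k) :
    κ₁ ^ k / 2 * (κ₃ * κ₂) ^ l * ((A.card : ℝ) ^ k * (C.card : ℝ) ^ l) ≤ ((Comp δ σ τ υ A C W a c).card : ℝ) := by
  obtain ⟨D, hD⟩ : ∃ D : Fin l → Finset β, D = fun j => C.filter (fun y => ∀ i, Gd δ (σ i j).1 (W (σ i j).2 (a i) y)) := ⟨_, rfl⟩
  obtain ⟨B, hB⟩ : ∃ B : Fin k → Finset α, B = fun i => A.filter (fun x => ∀ j, Gd δ (τ i j).1 (W (τ i j).2 x (c j))) := ⟨_, rfl⟩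
  obtain ⟨F, hF⟩ : ∃ F : (Fin k → α) → Fin l → Finset β, F = fun x j => (D j).filter (fun y => ∀ i, Gd δ (υ i j).1 (W (υ i j).2 (x i) y)) := ⟨_, rfl⟩
  have h1' : ∀ i, κ₁ * A.card ≤ ((B i).card : ℝ) := by rw [hB]; exact h1
  have h2' : ∀ j, κ₂ * C.card ≤ ((D j).card : ℝ) := by rw [hD]; exact h2
  have h3' : ∀ j, (((Fintype.piFinset (fun _ : Fin k => A)).filter (fun x => ¬ (κ₃ * ((D j).card : ℝ) ≤ ((F x j).card : ℝ)))).card : ℝ) ≤
      η₃ * (A.card : ℝ) ^ k := by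
    rw [hF, hD]; exact h3
  -- the good tuples of rows
  obtain ⟨G, hG⟩ : ∃ G, G = (Fintype.piFinset B).filter (fun x => ∀ j, κ₃ * ((D j).card : ℝ) ≤ ((F x j).card : ℝ)) := ⟨_, rfl⟩
  have hBA : ∀ i, B i ⊆ A := fun i => by rw [hB]; exact filter_subset _ _
  have hG1 : κ₁ ^ k / 2 * (A.card : ℝ) ^ k ≤ (G.card : ℝ) := by
    have g1 : κ₁ ^ k * (A.card : ℝ) ^ k ≤ ((Fintype.piFinset B).card : ℝ) := by
      rw [Fintype.card_piFinset]
      push_cast
      calc κ₁ ^ k * (A.card : ℝ) ^ k = ∏ _i : Fin k, (κ₁ * A.card) := by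
            rw [prod_const, Finset.card_univ, Fintype.card_fin, mul_pow]
        _ ≤ ∏ i, ((B i).card : ℝ) := prod_le_prod (fun i _ => by positivity) fun i _ => h1' i
    have g2 : ((Fintype.piFinset B).card : ℝ) ≤ (G.card : ℝ) +
        ((((Fintype.piFinset (fun _ : Fin k => A)).filter (fun x => ∃ j, ¬ (κ₃ * ((D j).card : ℝ) ≤ ((F x j).card : ℝ)))).card : ℝ)) := by
      have : Fintype.piFinset B ⊆ G ∪ (Fintype.piFinset (fun _ : Fin k => A)).filter (fun x => ∃ j, ¬ (κ₃ * ((D j).card : ℝ) ≤ ((F x j).card : ℝ))) := by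
        intro x hx
        rw [mem_union, hG, mem_filter, mem_filter]
        by_cases hc : ∀ j, κ₃ * ((D j).card : ℝ) ≤ ((F x j).card : ℝ)
        · exact Or.inl ⟨hx, hc⟩
        · right
          push Not at hc
          refine ⟨?_, ?_⟩
          · rw [Fintype.mem_piFinset] at hx ⊢
            exact fun i => hBA i (hx i)
          · obtain ⟨j, hj⟩ := hc
            exact ⟨j, not_le.2 hj⟩
      exact_mod_cast (card_le_card this).trans (card_union_le _ _)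
    have g3 := card_union_bad (Fintype.piFinset (fun _ : Fin k => A)) (fun (j : Fin l) x => ¬ (κ₃ * ((D j).card : ℝ) ≤ ((F x j).card : ℝ)))
      (η₃ * (A.card : ℝ) ^ k) h3'
    rw [Fintype.card_fin] at g3
    have g4 : (l : ℝ) * (η₃ * (A.card : ℝ) ^ k) ≤ κ₁ ^ k / 2 * (A.card : ℝ) ^ k := by
      rw [← mul_assoc]
      exact mul_le_mul_of_nonneg_right hη₃ (by positivity)
    linarith only [g1, g2, g3, g4]
  -- the columns
  have hcol : ∀ x ∈ G, (κ₃ * κ₂) ^ l * (C.card : ℝ) ^ l ≤ ((Fintype.piFinset (F x)).card : ℝ) := by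
    intro x hx
    rw [hG, mem_filter] at hx
    rw [Fintype.card_piFinset]
    push_cast
    calc (κ₃ * κ₂) ^ l * (C.card : ℝ) ^ l = ∏ _j : Fin l, (κ₃ * (κ₂ * C.card)) := by
          rw [prod_const, Finset.card_univ, Fintype.card_fin, ← mul_pow]; ring
      _ ≤ ∏ j, ((F x j).card : ℝ) := by
          apply prod_le_prod (fun j _ => by positivity)
          intro j _
          exact (mul_le_mul_of_nonneg_left (h2' j) hκ₃.le).trans (hx.2 j)
  have hsum : (G.card : ℝ) * ((κ₃ * κ₂) ^ l * (C.card : ℝ) ^ l) ≤ ((Comp δ σ τ υ A C W a c).card : ℝ) := by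
    unfold Comp
    rw [card_prod_filter]
    have hGA : G ⊆ Fintype.piFinset (fun _ : Fin k => A) := by
      intro x hx
      rw [hG, mem_filter, Fintype.mem_piFinset] at hx
      rw [Fintype.mem_piFinset]
      exact fun i => hBA i (hx.1 i)
    calc (G.card : ℝ) * ((κ₃ * κ₂) ^ l * (C.card : ℝ) ^ l) = ∑ _x ∈ G, ((κ₃ * κ₂) ^ l * (C.card : ℝ) ^ l) := by
          rw [sum_const, nsmul_eq_mul]
      _ ≤ ∑ x ∈ G, ((Fintype.piFinset (F x)).card : ℝ) := sum_le_sum hcol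
      _ ≤ ∑ x ∈ G, (((Fintype.piFinset (fun _ : Fin l => C)).filter (fun y =>
            (∀ i j, Gd δ (σ i j).1 (W (σ i j).2 (a i) (y j))) ∧ (∀ i j, Gd δ (τ i j).1 (W (τ i j).2 (x i) (c j))) ∧
            ∀ i j, Gd δ (υ i j).1 (W (υ i j).2 (x i) (y j)))).card : ℝ) := by
          apply sum_le_sum
          intro x hx
          apply Nat.cast_le.2
          apply card_le_card
          intro y hy
          rw [Fintype.mem_piFinset] at hy
          rw [mem_filter, Fintype.mem_piFinset]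
          rw [hG, mem_filter, Fintype.mem_piFinset] at hx
          have hy' : ∀ j, (y j ∈ C ∧ ∀ i, Gd δ (σ i j).1 (W (σ i j).2 (a i) (y j))) ∧ ∀ i, Gd δ (υ i j).1 (W (υ i j).2 (x i) (y j)) := by
            intro j
            have := hy j
            rw [hF, hD] at this
            simpa only [mem_filter] using this
          refine ⟨fun j => (hy' j).1.1, fun i j => (hy' j).1.2 i, fun i j => ?_, fun i j => (hy' j).2 i⟩
          have := hx.1 i
          rw [hB, mem_filter] at this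
          exact this.2 j
      _ ≤ _ := sum_le_sum_of_subset_of_nonneg hGA fun x _ _ => Nat.cast_nonneg _
  refine le_trans (le_of_eq ?_) ((mul_le_mul_of_nonneg_right hG1 (by positivity)).trans hsum)
  ring

open Classical in
/-- **Completions of multiplication tables.** -/
theorem table (α β : Type) (r s k l : ℕ) (M δ η : ℝ) (hM : 1 ≤ M) (hδ : 0 < δ) (hδ1 : δ ≤ 1) (hη : 0 < η) :
    ∃ κ δ₂ : ℝ, 0 < κ ∧ 0 < δ₂ ∧
    ∀ (ι : Type) (σ : Fin r → Fin l → Bool × ι) (τ : Fin k → Fin s → Bool × ι) (υ : Fin k → Fin l → Bool × ι) (A : Finset α)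
      (C : Finset β) (W : ι → α → β → ℝ), (∀ i, ∀ a ∈ A, ∀ c ∈ C, 0 ≤ W i a c) → (∀ i, Cut A C (W i) δ₂) →
    (∀ i, ∑ a ∈ A, ∑ c ∈ C, W i a c ^ 2 ≤ M * (A.card * C.card)) →
    (((Fintype.piFinset (fun _ : Fin r => A) ×ˢ Fintype.piFinset (fun _ : Fin s => C)).filter (fun z => ¬
      (κ * ((A.card : ℝ) ^ k * (C.card : ℝ) ^ l) ≤ ((Comp δ σ τ υ A C W z.1 z.2).card : ℝ)))).card : ℝ) ≤
      η * ((A.card : ℝ) ^ r * (C.card : ℝ) ^ s) := by
  have hM0 : 0 < M := by linarith only [hM]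
  obtain ⟨κ₁, δ₁, hκ₁, hκ₁1, hδ₁, s1⟩ := star_good α β s M δ (η / (2 * (k + 1))) hM hδ hδ1 (by positivity)
  obtain ⟨κ₂, δ₂, hκ₂, hκ₂1, hδ₂, s2⟩ := star_good β α r M δ (η / (2 * (l + 1))) hM hδ hδ1 (by positivity)
  obtain ⟨κ₃, δ₃, hκ₃, hκ₃1, hδ₃, s3⟩ := star_good β α k (M / κ₂) δ (κ₁ ^ k / (2 * (l + 1)))
    (by rw [le_div_iff₀ hκ₂]; linarith only [hκ₂1, hM]) hδ hδ1 (by positivity)
  refine ⟨κ₁ ^ k / 2 * (κ₃ * κ₂) ^ l, min δ₁ (min δ₂ (δ₃ * κ₂)), by positivity, by positivity, ?_⟩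
  intro ι σ τ υ A C W hW hcut hM2
  have hAC : (0 : ℝ) ≤ (A.card : ℝ) * C.card := mul_nonneg (Nat.cast_nonneg _) (Nat.cast_nonneg _)
  have hcut1 : ∀ i, Cut A C (W i) δ₁ := fun i A' hA' C' hC' => (hcut i A' hA' C' hC').trans (mul_le_mul_of_nonneg_right (min_le_left _ _) hAC)
  have hcut2 : ∀ i, Cut A C (W i) δ₂ := fun i A' hA' C' hC' => (hcut i A' hA' C' hC').trans
    (mul_le_mul_of_nonneg_right ((min_le_right _ _).trans (min_le_left _ _)) hAC)
  have hcut3 : ∀ i, Cut A C (W i) (δ₃ * κ₂) := fun i A' hA' C' hC' => (hcut i A' hA' C' hC').trans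
    (mul_le_mul_of_nonneg_right ((min_le_right _ _).trans (min_le_right _ _)) hAC)
  -- the exceptional roots
  have b1 := card_union_bad (Fintype.piFinset (fun _ : Fin s => C)) (fun (i : Fin k) c => ¬
    (κ₁ * A.card ≤ ((A.filter (fun x => ∀ j, Gd δ (τ i j).1 (W (τ i j).2 x (c j)))).card : ℝ))) (η / (2 * (k + 1)) * (C.card : ℝ) ^ s)
    (fun i => s1 ι (τ i) A C W hW hcut1 hM2)
  have hM2' : ∀ i, ∑ c ∈ C, ∑ a ∈ A, W i a c ^ 2 ≤ M * (C.card * A.card) := by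
    intro i
    rw [sum_comm, mul_comm (C.card : ℝ)]; exact hM2 i
  have b2 := card_union_bad (Fintype.piFinset (fun _ : Fin r => A)) (fun (j : Fin l) a => ¬
    (κ₂ * C.card ≤ ((C.filter (fun y => ∀ i, Gd δ (σ i j).1 (W (σ i j).2 (a i) y))).card : ℝ))) (η / (2 * (l + 1)) * (A.card : ℝ) ^ r)
    (fun j => s2 ι (fun i => σ i j) C A (fun i c a => W i a c) (fun i c hc a ha => hW i a ha c hc) (fun i => (hcut2 i).swap) hM2')
  rw [Fintype.card_fin] at b1 b2
  obtain ⟨E1, hE1⟩ : ∃ E1, E1 = (Fintype.piFinset (fun _ : Fin s => C)).filter (fun c => ∃ i : Fin k, ¬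
    (κ₁ * A.card ≤ ((A.filter (fun x => ∀ j, Gd δ (τ i j).1 (W (τ i j).2 x (c j)))).card : ℝ))) := ⟨_, rfl⟩
  obtain ⟨E2, hE2⟩ : ∃ E2, E2 = (Fintype.piFinset (fun _ : Fin r => A)).filter (fun a => ∃ j : Fin l, ¬
    (κ₂ * C.card ≤ ((C.filter (fun y => ∀ i, Gd δ (σ i j).1 (W (σ i j).2 (a i) y))).card : ℝ))) := ⟨_, rfl⟩
  rw [← hE1] at b1
  rw [← hE2] at b2
  have hsub : (Fintype.piFinset (fun _ : Fin r => A) ×ˢ Fintype.piFinset (fun _ : Fin s => C)).filter (fun z => ¬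
      (κ₁ ^ k / 2 * (κ₃ * κ₂) ^ l * ((A.card : ℝ) ^ k * (C.card : ℝ) ^ l) ≤ ((Comp δ σ τ υ A C W z.1 z.2).card : ℝ))) ⊆
      (Fintype.piFinset (fun _ : Fin r => A) ×ˢ E1) ∪ (E2 ×ˢ Fintype.piFinset (fun _ : Fin s => C)) := by
    intro z hz
    rw [mem_filter, mem_product] at hz
    rw [mem_union, mem_product, mem_product]
    obtain ⟨⟨hz1, hz2⟩, hz3⟩ := hz
    by_contra hcon
    push Not at hcon
    have n1 : z.2 ∉ E1 := hcon.1 hz1
    have n2 : z.1 ∉ E2 := fun h => hcon.2 h hz2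
    rw [hE1, mem_filter] at n1
    rw [hE2, mem_filter] at n2
    have g1 : ∀ i, κ₁ * A.card ≤ ((A.filter (fun x => ∀ j, Gd δ (τ i j).1 (W (τ i j).2 x (z.2 j)))).card : ℝ) := by
      intro i
      by_contra hi
      exact n1 ⟨hz2, i, hi⟩
    have g2 : ∀ j, κ₂ * C.card ≤ ((C.filter (fun y => ∀ i, Gd δ (σ i j).1 (W (σ i j).2 (z.1 i) y))).card : ℝ) := by
      intro j
      by_contra hj
      exact n2 ⟨hz1, j, hj⟩
    apply hz3
    refine count_core (η₃ := κ₁ ^ k / (2 * (l + 1))) hκ₁ hκ₂ hκ₃ ?_ σ τ υ A C W z.1 z.2 g1 g2 (fun j => ?_)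
    · rw [← mul_div_assoc, div_le_div_iff₀ (by positivity) (by norm_num)]
      have : 0 < κ₁ ^ k := by positivity
      nlinarith
    · have hC'' : C.filter (fun y => ∀ i, Gd δ (σ i j).1 (W (σ i j).2 (z.1 i) y)) ⊆ C := filter_subset _ _
      refine s3 ι (fun i => υ i j) (C.filter (fun y => ∀ i, Gd δ (σ i j).1 (W (σ i j).2 (z.1 i) y))) A (fun i c a => W i a c)
        (fun i c hc a ha => hW i a ha c (hC'' hc)) (fun i => (cut_restrict hκ₂ hδ₃.le (hcut3 i) hC'' (g2 j)).swap) (fun i => ?_)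
      have := sq_restrict hκ₂ hM0.le (hM2 i) hC'' (g2 j)
      rw [sum_comm, mul_comm (((C.filter (fun y => ∀ i, Gd δ (σ i j).1 (W (σ i j).2 (z.1 i) y))).card : ℝ))]
      exact this
  have hcard : (((Fintype.piFinset (fun _ : Fin r => A) ×ˢ Fintype.piFinset (fun _ : Fin s => C)).filter (fun z => ¬
      (κ₁ ^ k / 2 * (κ₃ * κ₂) ^ l * ((A.card : ℝ) ^ k * (C.card : ℝ) ^ l) ≤ ((Comp δ σ τ υ A C W z.1 z.2).card : ℝ)))).card : ℝ) ≤
      (A.card : ℝ) ^ r * E1.card + E2.card * (C.card : ℝ) ^ s := by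
    have h1 := (card_le_card hsub).trans (card_union_le _ _)
    rw [card_product, card_product] at h1
    have h2 : ((((Fintype.piFinset (fun _ : Fin r => A) ×ˢ Fintype.piFinset (fun _ : Fin s => C)).filter (fun z => ¬
      (κ₁ ^ k / 2 * (κ₃ * κ₂) ^ l * ((A.card : ℝ) ^ k * (C.card : ℝ) ^ l) ≤ ((Comp δ σ τ υ A C W z.1 z.2).card : ℝ)))).card : ℝ)) ≤
      ((Fintype.piFinset (fun _ : Fin r => A)).card : ℝ) * E1.card + E2.card * ((Fintype.piFinset (fun _ : Fin s => C)).card : ℝ) := by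
      exact_mod_cast h1
    rw [card_pow_fin, card_pow_fin] at h2
    exact h2
  refine hcard.trans ?_
  have hAr : (0 : ℝ) ≤ (A.card : ℝ) ^ r := by positivity
  have hCs : (0 : ℝ) ≤ (C.card : ℝ) ^ s := by positivity
  have c1 : (A.card : ℝ) ^ r * E1.card ≤ η / 2 * ((A.card : ℝ) ^ r * (C.card : ℝ) ^ s) := by
    have e1 : (k : ℝ) * (η / (2 * (k + 1)) * (C.card : ℝ) ^ s) ≤ η / 2 * (C.card : ℝ) ^ s := by
      rw [← mul_assoc]
      apply mul_le_mul_of_nonneg_right _ hCs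
      rw [← mul_div_assoc, div_le_div_iff₀ (by positivity) (by norm_num)]
      nlinarith
    have := mul_le_mul_of_nonneg_left (b1.trans e1) hAr
    calc _ ≤ _ := this
      _ = _ := by ring
  have c2 : (E2.card : ℝ) * (C.card : ℝ) ^ s ≤ η / 2 * ((A.card : ℝ) ^ r * (C.card : ℝ) ^ s) := by
    have e1 : (l : ℝ) * (η / (2 * (l + 1)) * (A.card : ℝ) ^ r) ≤ η / 2 * (A.card : ℝ) ^ r := by
      rw [← mul_assoc]
      apply mul_le_mul_of_nonneg_right _ hAr
      rw [← mul_div_assoc, div_le_div_iff₀ (by positivity) (by norm_num)]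
      nlinarith
    have := mul_le_mul_of_nonneg_right (b2.trans e1) hCs
    calc _ ≤ _ := this
      _ = _ := by ring
  linarith only [c1, c2]

end Pool.Agent.V11316.TB
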