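import Pool.Agent.V11316.AT3
import Pool.Agent.V11316.TB2

/-! Addition tables: the application to primes. -/

set_option autoImplicit false

namespace Pool.Agent.V11316.AT
open Finset Filter
open Pool.Agent.W301.SS
open Pool.Agent.Y851.PS
open Pool.Agent.Y851.PT
open Pool.Agent.V11316.TB

/-- a set of at least `d N` integers in `[0, N]` -/
structure Dn (d : ℝ) (N : ℕ) (A : Finset ℕ) : Prop where
  le : ∀ a ∈ A, a ≤ N
  card : d * (N : ℝ) ≤ A.card

lemma AW_nonneg (N H a c : ℕ) : 0 ≤ AW N H a c := by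
  unfold AW
  have : 0 ≤ Real.log (N : ℝ) := Real.log_natCast_nonneg _
  positivity

/-- all moments up to `m₀` -/
theorem mom_all (m₀ : ℕ) (lam d : ℝ) (hlam : 0 < lam) (hd : 0 < d) : ∃ M : ℝ, 1 ≤ M ∧ ∀ᶠ N : ℕ in atTop,
    ∀ A C : Finset ℕ, Dn d N A → Dn d N C → ∀ H : ℕ, lam * Real.log N ≤ H → H ≤ N → Mom m₀ A C (AW N H) M := by
  choose M hM hev using mom_dense lam d hlam hd
  have hsum : 0 ≤ ∑ m ∈ range m₀, M m := sum_nonneg fun m _ => zero_le_one.trans (hM m)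
  refine ⟨1 + ∑ m ∈ range m₀, M m, by linarith only [hsum], ?_⟩
  have hall := (eventually_all_finset (range m₀)).2 fun m _ => hev m
  filter_upwards [hall] with N hN A C hA hC H hH1 hH2
  intro m hm a ha
  have hCc : (0 : ℝ) ≤ C.card := Nat.cast_nonneg _
  rcases m with _ | m
  · simp only [pow_zero, sum_const, nsmul_eq_mul, mul_one]
    have := mul_nonneg hsum hCc
    linarith only [this]
  · refine (hN m (mem_range.2 (by omega)) C hC.le hC.card a (hA.le a ha) H hH1 hH2).trans ?_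
    apply mul_le_mul_of_nonneg_right _ hCc
    have := single_le_sum (f := M) (fun i _ => zero_le_one.trans (hM i)) (mem_range.2 (show m < m₀ by omega))
    linarith only [this]

open Classical in
/-- **patterns in addition tables** -/
theorem sums_table (r s k l : ℕ) (lam d δ η : ℝ) (hlam : 0 < lam) (hd : 0 < d) (hδ : 0 < δ) (hδ1 : δ ≤ 1) (hη : 0 < η) :
    ∃ κ : ℝ, 0 < κ ∧ ∀ᶠ N : ℕ in atTop, ∀ A C : Finset ℕ, Dn d N A → Dn d N C →
    ∀ (σ : Fin r → Fin l → Bool × ℕ) (τ : Fin k → Fin s → Bool × ℕ) (υ : Fin k → Fin l → Bool × ℕ),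
    (∀ i j, lam * Real.log N ≤ (σ i j).2 ∧ (σ i j).2 ≤ N) → (∀ i j, lam * Real.log N ≤ (τ i j).2 ∧ (τ i j).2 ≤ N) →
    (∀ i j, lam * Real.log N ≤ (υ i j).2 ∧ (υ i j).2 ≤ N) →
    (((Fintype.piFinset (fun _ : Fin r => A) ×ˢ Fintype.piFinset (fun _ : Fin s => C)).filter (fun z => ¬
      (κ * ((A.card : ℝ) ^ k * (C.card : ℝ) ^ l) ≤ ((Comp δ σ τ υ A C (AW N) z.1 z.2).card : ℝ)))).card : ℝ) ≤
      η * ((A.card : ℝ) ^ r * (C.card : ℝ) ^ s) := by
  obtain ⟨M, hM, hm⟩ := mom_all 2 lam d hlam hd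
  obtain ⟨κ, δ₂, hκ, hδ₂, ht⟩ := table ℕ ℕ r s k l M δ η hM hδ hδ1 hη
  refine ⟨κ, hκ, ?_⟩
  filter_upwards [cut_dense lam d δ₂ hlam hd hδ₂, hm] with N hcut hmom A C hA hC σ τ υ hσ hτ hυ
  refine ht {H : ℕ // lam * Real.log N ≤ H ∧ H ≤ N} (fun i j => ((σ i j).1, ⟨(σ i j).2, hσ i j⟩)) (fun i j => ((τ i j).1, ⟨(τ i j).2, hτ i j⟩))
    (fun i j => ((υ i j).1, ⟨(υ i j).2, hυ i j⟩)) A C (fun H => AW N H.1) (fun H a _ c _ => AW_nonneg _ _ _ _)
    (fun H => hcut A C hA.le hC.le hA.card hC.card H.1 H.2.1 H.2.2) (fun H => ?_)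
  have h1 : ∀ a ∈ A, ∑ c ∈ C, AW N H.1 a c ^ 2 ≤ M * C.card := fun a ha => hmom A C hA hC H.1 H.2.1 H.2.2 2 le_rfl a ha
  refine (sum_le_sum h1).trans (le_of_eq ?_)
  rw [sum_const, nsmul_eq_mul]
  ring

/-- the weight of a cell: the density of a window of length `H`, or `1` -/
noncomputable def wA (N : ℕ) (o : Option ℕ) (a c : ℕ) : ℝ := match o with
  | none => 1
  | some H => AW N H a c

open Classical in
/-- **the asymptotic formula in addition tables** -/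
theorem sums_asym (r s k l : ℕ) (lam d δ : ℝ) (hlam : 0 < lam) (hd : 0 < d) (hδ : 0 < δ) :
    ∀ᶠ N : ℕ in atTop, ∀ A C : Finset ℕ, Dn d N A → Dn d N C →
    ∀ (σ : Fin r → Fin l → Option ℕ) (τ : Fin k → Fin s → Option ℕ) (υ : Fin k → Fin l → Option ℕ),
    (∀ i j, ∀ H ∈ σ i j, lam * Real.log N ≤ H ∧ H ≤ N) → (∀ i j, ∀ H ∈ τ i j, lam * Real.log N ≤ H ∧ H ≤ N) →
    (∀ i j, ∀ H ∈ υ i j, lam * Real.log N ≤ H ∧ H ≤ N) →
    (((Fintype.piFinset (fun _ : Fin r => A) ×ˢ Fintype.piFinset (fun _ : Fin s => C)).filter (fun z =>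
      δ * ((A.card : ℝ) ^ k * (C.card : ℝ) ^ l) <
      |∑ a' ∈ Fintype.piFinset (fun _ : Fin k => A), ∑ c' ∈ Fintype.piFinset (fun _ : Fin l => C), cells (wA N) σ τ υ z.1 z.2 a' c' -
        (A.card : ℝ) ^ k * (C.card : ℝ) ^ l|)).card : ℝ) ≤
      δ * ((A.card : ℝ) ^ r * (C.card : ℝ) ^ s) := by
  obtain ⟨M, hM, hm⟩ := mom_all (4 * (r + k) + 3) lam d hlam hd
  obtain ⟨δ₂, hδ₂, ht⟩ := asym_good ℕ ℕ r s k l M δ hM hδ
  filter_upwards [cut_dense lam d δ₂ hlam hd hδ₂, hm] with N hcut hmom A C hA hC σ τ υ hσ hτ hυ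
  have hcard : (0 : ℝ) ≤ C.card := Nat.cast_nonneg _
  have hFam : Fam (4 * (r + k) + 3) A C (fun (o : {o : Option ℕ // ∀ H ∈ o, lam * Real.log N ≤ H ∧ H ≤ N}) => wA N o.1) M δ₂ := by
    refine ⟨?_, ?_, ?_⟩
    · rintro ⟨o, ho⟩ a _ c _
      rcases o with _ | H
      · exact zero_le_one
      · exact AW_nonneg _ _ _ _
    · rintro ⟨o, ho⟩
      rcases o with _ | H
      · intro A' _ C' _
        simp only [wA, sub_self, sum_const_zero, abs_zero]
        positivity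
      · exact hcut A C hA.le hC.le hA.card hC.card H (ho H rfl).1 (ho H rfl).2
    · rintro ⟨o, ho⟩
      rcases o with _ | H
      · intro m _ a _
        simp only [wA, one_pow, sum_const, nsmul_eq_mul, mul_one]
        calc (C.card : ℝ) = 1 * C.card := (one_mul _).symm
          _ ≤ M * C.card := mul_le_mul_of_nonneg_right hM hcard
      · exact hmom A C hA hC H (ho H rfl).1 (ho H rfl).2
  exact ht {o : Option ℕ // ∀ H ∈ o, lam * Real.log N ≤ H ∧ H ≤ N} (fun i j => ⟨σ i j, hσ i j⟩) (fun i j => ⟨τ i j, hτ i j⟩)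
    (fun i j => ⟨υ i j, hυ i j⟩) A C (fun o => wA N o.1) hFam

/-- windows of logarithmic length -/
lemma short_sum {μ : ℝ} {N H a c : ℕ} (hμ : 0 < μ) (hμ1 : μ < 1) (hN : 0 < Real.log N) (hH : 0 < H) (hHl : (H : ℝ) ≤ μ * Real.log N) (b : Bool)
    (h : Gd (min 1 (1 / μ - 1)) b (AW N H a c)) : (∃ p : ℕ, p.Prime ∧ a + c < p ∧ p ≤ a + c + H) ↔ b = true := by
  have hmin : min 1 (1 / μ - 1) ≤ 1 := min_le_left _ _
  have hH0 : (0 : ℝ) < H := by exact_mod_cast hH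
  have hpn : (∃ p : ℕ, p.Prime ∧ a + c < p ∧ p ≤ a + c + H) ↔ 0 < pn (a + c) H := by
    unfold pn
    rw [card_pos]
    constructor
    · rintro ⟨p, h1, h2, h3⟩
      exact ⟨p, mem_filter.2 ⟨mem_Ioc.2 ⟨h2, h3⟩, h1⟩⟩
    · rintro ⟨p, hp⟩
      rw [mem_filter, mem_Ioc] at hp
      exact ⟨p, hp.2, hp.1.1, hp.1.2⟩
  rw [hpn]
  constructor
  · intro hpos
    by_contra hb
    unfold Gd at h
    rw [if_neg hb] at h
    have hc : (1 : ℝ) ≤ (pn (a + c) H : ℝ) := by exact_mod_cast hpos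
    have h3 : 1 / μ ≤ AW N H a c := by
      unfold AW
      rw [div_le_div_iff₀ hμ hH0]
      calc 1 * (H : ℝ) ≤ μ * Real.log N := by rw [one_mul]; exact hHl
        _ ≤ (pn (a + c) H : ℝ) * Real.log N * μ := by
            have : 0 < μ * Real.log N := mul_pos hμ hN
            nlinarith only [this, hc]
    have h5 := min_le_right (1 : ℝ) (1 / μ - 1)
    linarith only [h, h3, h5]
  · intro hb
    unfold Gd at h
    rw [if_pos hb] at h
    have h0 : 0 < AW N H a c := by linarith only [h, hmin]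
    by_contra hcon
    have : pn (a + c) H = 0 := by omega
    unfold AW at h0
    rw [this] at h0
    simp at h0

end Pool.Agent.V11316.AT
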