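import Pool.Agent.V11316.AT3
import Pool.Agent.V11316.AT5

/-! Sums over pairs from sets of density at least a small negative power of the logarithm; lengths from `λ log N` on. -/

set_option autoImplicit false

namespace Pool.Agent.V11316.AT
open Finset Filter
open Pool.Agent.W301.SS

/-- Sums over pairs, weighted by `log p`. -/
theorem theta_log (lam ε : ℝ) (hlam : 0 < lam) (hε : 0 < ε) (hε1 : ε ≤ 1) : ∀ᶠ N : ℕ in atTop, ∀ ρ : ℝ, 0 < ρ → ρ ^ 8 = Real.log N →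
    ∀ A B : Finset ℕ, (∀ a ∈ A, a ≤ N) → (∀ b ∈ B, b ≤ N) → (N : ℝ) ^ 2 ≤ (A.card : ℝ) * B.card * ρ ^ 2 →
    ∀ y : ℕ, lam * Real.log N ≤ y → y ≤ 2 * N → |TT A B y - (A.card : ℝ) * B.card * y| ≤ ε * ((A.card : ℝ) * B.card * y) := by
  obtain ⟨N₁, hN₁⟩ := eventually_atTop.1 TT_closeQ
  obtain ⟨K, hK⟩ : ∃ K : ℝ, K = 6 * (768 / ε) ^ 2 * (8 / ε) + 1 := ⟨_, rfl⟩
  have hK1 : 1 ≤ K := by
    have : 0 ≤ 6 * (768 / ε) ^ 2 * (8 / ε) := by positivity
    linarith only [hK, this]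
  filter_upwards [ev_L (16 / ε + 65536 + (8 / ε) ^ 8 + (K / lam) ^ 2 + 1), ev_log 20 (lam + 2) 1 (by norm_num), pnt_unif 20,
    eventually_ge_atTop (max 16 N₁)] with N h1 h2 h4 hN16' ρ hρ hρ8 A B hA hB hAB y hy1 hy2
  have hN16 : 16 ≤ N := (le_max_left _ _).trans hN16'
  have hN1 : N₁ ≤ 4 * N := by
    have := (le_max_right _ _).trans hN16'
    omega
  have hNr : (16 : ℝ) ≤ N := by exact_mod_cast hN16
  have hN0 : (0 : ℝ) < N := by linarith only [hNr]
  obtain ⟨ℓ, hℓ⟩ : ∃ ℓ, ℓ = Real.log N := ⟨_, rfl⟩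
  rw [← hℓ] at h1 h2 h4 hρ8 hy1
  have hc2 : 0 < 16 / ε := by positivity
  have hc3 : 0 < (8 / ε) ^ 8 := by positivity
  have hc4 : 0 < (K / lam) ^ 2 := by positivity
  have hℓ16 : 65536 ≤ ℓ := by linarith only [h1, hc2, hc3, hc4]
  have hℓ0 : 0 < ℓ := by linarith only [hℓ16]
  have hℓ1 : 1 ≤ ℓ := by linarith only [hℓ16]
  rw [Real.rpow_one] at h2
  have hρ1 : 1 ≤ ρ := by
    by_contra hcon
    rw [not_le] at hcon
    have : ρ ^ 8 < 1 := pow_lt_one₀ hρ.le hcon (by norm_num)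
    rw [hρ8] at this
    linarith only [this, hℓ1]
  obtain ⟨P, hP⟩ : ∃ P : ℝ, P = (A.card : ℝ) * B.card := ⟨_, rfl⟩
  rw [← hP] at hAB ⊢
  have hP0 : 0 < P := by
    by_contra hcon
    have h0 : P ≤ 0 := not_lt.1 hcon
    have h00 : P * ρ ^ 2 ≤ 0 := mul_nonpos_of_nonpos_of_nonneg h0 (by positivity)
    have h01 : 0 < (N : ℝ) ^ 2 := by positivity
    linarith only [h00, h01, hAB]
  -- the long length
  obtain ⟨H1, hH1⟩ : ∃ H1 : ℕ, H1 = ⌊(N : ℝ) / ℓ ^ 19⌋₊ := ⟨_, rfl⟩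
  have hH1le : (H1 : ℝ) ≤ N / ℓ ^ 19 := by rw [hH1]; exact Nat.floor_le (by positivity)
  have hbig : lam * ℓ + 2 ≤ (N : ℝ) / ℓ ^ 19 := by
    rw [le_div_iff₀ (by positivity)]
    calc (lam * ℓ + 2) * ℓ ^ 19 ≤ ((lam + 2) * ℓ) * ℓ ^ 19 := by
          apply mul_le_mul_of_nonneg_right _ (by positivity)
          nlinarith only [hℓ1]
      _ = (lam + 2) * ℓ ^ 20 := by ring
      _ ≤ N := h2
  have hlℓ : 0 < lam * ℓ := mul_pos hlam hℓ0
  have hH1lt : (N : ℝ) / ℓ ^ 19 < H1 + 1 := by rw [hH1]; exact Nat.lt_floor_add_one _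
  have hH1ge : (N : ℝ) / ℓ ^ 19 ≤ 2 * H1 := by linarith only [hH1lt, hbig, hlℓ]
  have hH10 : (0 : ℝ) < H1 := by linarith only [hH1lt, hbig, hlℓ]
  have hH1pos : 1 ≤ H1 := by exact_mod_cast hH10
  have hH1N : H1 ≤ N := by
    have : (H1 : ℝ) ≤ N := hH1le.trans (div_le_self hN0.le (one_le_pow₀ hℓ1))
    exact_mod_cast this
  -- prime number theorem for lengths at least `H1`
  have hlong : ∀ z : ℕ, H1 ≤ z → z ≤ 2 * N → |TT A B z - P * z| ≤ (ε / 4) * (P * z) := by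
    intro z hz1 hz2
    have a1 := TT_pnt A B N z hA hB hz2 (N / ℓ ^ 20) h4
    rw [← hP] at a1
    refine a1.trans ?_
    have hz : (H1 : ℝ) ≤ z := by exact_mod_cast hz1
    have a2 : 2 * (N / ℓ ^ 20) ≤ (4 / ℓ) * z := by
      calc 2 * (N / ℓ ^ 20) = (2 / ℓ) * (N / ℓ ^ 19) := by field_simp
        _ ≤ (2 / ℓ) * (2 * H1) := by gcongr
        _ ≤ (2 / ℓ) * (2 * z) := by gcongr
        _ = _ := by ring
    have a3 : 4 / ℓ ≤ ε / 4 := by
      rw [div_le_div_iff₀ hℓ0 (by norm_num)]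
      have : 16 / ε ≤ ℓ := by linarith only [h1, hc3, hc4]
      rw [div_le_iff₀ hε] at this
      linarith only [this]
    calc P * (2 * (N / ℓ ^ 20)) ≤ P * ((4 / ℓ) * z) := by gcongr
      _ ≤ P * ((ε / 4) * z) := by gcongr
      _ = _ := by ring
  rcases le_or_gt H1 y with hcase | hcase
  · refine (hlong y hcase hy2).trans ?_
    have : 0 ≤ P * (y : ℝ) := by positivity
    nlinarith only [this, hε]
  · -- short lengths
    have hyp : (0 : ℝ) < y := lt_of_lt_of_le hlℓ hy1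
    have hlog4 : Real.log ((4 * N : ℕ) : ℝ) ≤ 2 * ℓ := by
      push_cast
      rw [Real.log_mul (by norm_num) (by linarith only [hNr]), ← hℓ]
      have := log4
      linarith only [this, hℓ16]
    have hlog4' : ℓ ≤ Real.log ((4 * N : ℕ) : ℝ) := by
      rw [hℓ]
      apply Real.log_le_log hN0
      push_cast; linarith only [hN0]
    have hlog40 : 0 ≤ Real.log ((4 * N : ℕ) : ℝ) := Real.log_natCast_nonneg _
    have hcond : (H1 : ℝ) * Real.log ((4 * N : ℕ) : ℝ) ^ 18 ≤ ((4 * N : ℕ) : ℝ) := by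
      calc (H1 : ℝ) * Real.log ((4 * N : ℕ) : ℝ) ^ 18 ≤ (N / ℓ ^ 19) * (2 * ℓ) ^ 18 :=
            mul_le_mul hH1le (pow_le_pow_left₀ hlog40 hlog4 18) (by positivity) (by positivity)
        _ = (262144 / ℓ) * N := by field_simp; norm_num
        _ ≤ 4 * N := by
            apply mul_le_mul_of_nonneg_right _ hN0.le
            rw [div_le_iff₀ hℓ0]
            linarith only [hℓ16]
        _ = ((4 * N : ℕ) : ℝ) := by push_cast; ring
    -- the error
    obtain ⟨η, hη⟩ : ∃ η : ℝ, η = ε / (8 * ρ) := ⟨_, rfl⟩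
    have hη0 : 0 < η := by rw [hη]; positivity
    have hη1 : η ≤ 1 := by
      rw [hη, div_le_one (by positivity)]
      linarith only [hρ1, hε1]
    have hηℓ : 1 ≤ η ^ 4 * Real.log ((4 * N : ℕ) : ℝ) := by
      have e1 : η ^ 4 * ℓ = (ε / 8) ^ 4 * ρ ^ 4 := by
        rw [hη, ← hρ8]
        field_simp
      have e2 : (8 / ε) ^ 4 ≤ ρ ^ 4 := by
        have g1 : (8 / ε) ^ 8 ≤ ρ ^ 8 := by rw [hρ8]; linarith only [h1, hc2, hc4]
        have g2 : 8 / ε ≤ ρ := by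
          by_contra hcon
          rw [not_le] at hcon
          have := pow_lt_pow_left₀ hcon hρ.le (show 8 ≠ 0 by norm_num)
          linarith only [this, g1]
        exact pow_le_pow_left₀ (by positivity) g2 4
      have e3 : (ε / 8) ^ 4 * (8 / ε) ^ 4 = 1 := by
        rw [← mul_pow]
        have : ε / 8 * (8 / ε) = 1 := by field_simp
        rw [this, one_pow]
      calc 1 = (ε / 8) ^ 4 * (8 / ε) ^ 4 := e3.symm
        _ ≤ (ε / 8) ^ 4 * ρ ^ 4 := mul_le_mul_of_nonneg_left e2 (by positivity)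
        _ = η ^ 4 * ℓ := e1.symm
        _ ≤ _ := mul_le_mul_of_nonneg_left hlog4' (by positivity)
    have hyη : 6 * (96 / η) ^ 2 / η + 1 ≤ (y : ℝ) := by
      refine le_trans ?_ hy1
      have e1 : 6 * (96 / η) ^ 2 / η = (6 * (768 / ε) ^ 2 * (8 / ε)) * ρ ^ 3 := by
        rw [hη]
        field_simp
        norm_num
      have hρ3 : 1 ≤ ρ ^ 3 := one_le_pow₀ hρ1
      have e2 : 6 * (96 / η) ^ 2 / η + 1 ≤ K * ρ ^ 3 := by
        rw [e1, hK]
        linarith only [hρ3]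
      have e3 : K / lam ≤ ρ ^ 4 := by
        have g1 : (K / lam) ^ 2 ≤ (ρ ^ 4) ^ 2 := by
          rw [← pow_mul, hρ8]
          linarith only [h1, hc2, hc3]
        exact (pow_le_pow_iff_left₀ (by positivity) (by positivity) two_ne_zero).1 g1
      have e4 : ρ ^ 3 ≤ ρ ^ 4 := pow_le_pow_right₀ hρ1 (by norm_num)
      rw [div_le_iff₀ hlam] at e3
      calc 6 * (96 / η) ^ 2 / η + 1 ≤ K * ρ ^ 3 := e2
        _ ≤ (ρ ^ 4 * lam) * ρ ^ 4 := mul_le_mul e3 e4 (by positivity) (by positivity)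
        _ = lam * ρ ^ 8 := by ring
        _ = lam * ℓ := by rw [hρ8]
    have b1 := hN₁ (4 * N) hN1 η hη0 hη1 hηℓ A B y H1 hyη hcase.le hcond (fun a ha => by have := hA a ha; omega)
      (fun b hb => by have := hB b hb; omega) (fun a ha b hb => by have := hA a ha; have := hB b hb; omega)
    rw [← hP] at b1
    have b2 := hlong H1 le_rfl (by omega)
    have hsP0 : 0 < √P := Real.sqrt_pos.2 hP0
    have hsP : N / ρ ≤ √P := by
      apply Real.le_sqrt_of_sq_le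
      rw [div_pow, div_le_iff₀ (by positivity)]
      exact hAB
    have b3 : |TT A B y / y - TT A B H1 / H1| ≤ (ε / 2) * P := by
      refine b1.trans ?_
      calc √P * (η * ((4 * N : ℕ) : ℝ)) = (ε / 2) * (√P * (N / ρ)) := by
            rw [hη]; push_cast; field_simp; ring
        _ ≤ (ε / 2) * (√P * √P) := by gcongr
        _ = (ε / 2) * P := by rw [Real.mul_self_sqrt hP0.le]
    have b4 : |TT A B H1 / H1 - P| ≤ (ε / 4) * P := by
      have e : TT A B H1 / H1 - P = (TT A B H1 - P * H1) / H1 := by field_simp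
      rw [e, abs_div, abs_of_pos hH10, div_le_iff₀ hH10]
      linarith only [b2]
    have b5 : |TT A B y / y - P| ≤ ε * P := by
      have := abs_sub_le (TT A B y / y) (TT A B H1 / H1) P
      have h0 : 0 ≤ ε * P := by positivity
      linarith only [this, b3, b4, h0]
    have e : TT A B y - P * y = (TT A B y / y - P) * y := by field_simp
    rw [e, abs_mul, abs_of_pos hyp]
    calc |TT A B y / y - P| * y ≤ (ε * P) * y := by gcongr
      _ = _ := by ring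

/-- Sums over pairs, for the number of primes. -/
theorem count_log (lam ε : ℝ) (hlam : 0 < lam) (hε : 0 < ε) (hε1 : ε ≤ 1) : ∀ᶠ N : ℕ in atTop, ∀ ρ : ℝ, 0 < ρ → ρ ^ 8 = Real.log N →
    ∀ A B : Finset ℕ, (∀ a ∈ A, a ≤ N) → (∀ b ∈ B, b ≤ N) → (N : ℝ) ^ 2 ≤ (A.card : ℝ) * B.card * ρ ^ 2 →
    ∀ y : ℕ, lam * Real.log N ≤ y → y ≤ 2 * N →
    |PCs A B y * Real.log N - (A.card : ℝ) * B.card * y| ≤ ε * ((A.card : ℝ) * B.card * y) := by
  filter_upwards [theta_log lam (ε / 4) hlam (by linarith only [hε]) (by linarith only [hε1]),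
    ev_conv (ε / 4) (by linarith only [hε]) (by linarith only [hε1]), ev_L 1,
    ev_log 1 1 (ε / 4) (by linarith only [hε]), eventually_ge_atTop 16] with
    N h1 h2 h3 h4 hN16 ρ hρ hρ8 A B hA hB hAB y hy1 hy2
  obtain ⟨h5, X, hX1, hX2, hX3⟩ := h2
  have hNr : (16 : ℝ) ≤ N := by exact_mod_cast hN16
  have hN0 : (0 : ℝ) < N := by linarith only [hNr]
  have h6 := h1 ρ hρ hρ8 A B hA hB hAB y hy1 hy2
  obtain ⟨ℓ, hℓ⟩ : ∃ ℓ, ℓ = Real.log N := ⟨_, rfl⟩
  obtain ⟨P, hP⟩ : ∃ P : ℝ, P = (A.card : ℝ) * B.card := ⟨_, rfl⟩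
  rw [← hℓ] at h3 h4 h5 hX2 hX3 hρ8 ⊢
  rw [← hP] at h6 hAB ⊢
  rw [one_mul, pow_one] at h4
  have hℓ0 : 0 < ℓ := by linarith only [h3]
  have hP0 : 0 ≤ P := by rw [hP]; positivity
  have hρ1 : 1 ≤ ρ := by
    by_contra hcon
    rw [not_le] at hcon
    have : ρ ^ 8 < 1 := pow_lt_one₀ hρ.le hcon (by norm_num)
    rw [hρ8] at this
    linarith only [this, h3]
  have h7 := conv_low hA hB hy2 ((1 + ε / 4) * ℓ) h5
  have h8 := conv_up (A := A) (B := B) (X := X) (y := y) ((1 - ε / 4) * ℓ) (by nlinarith only [hε1, hℓ0]) hX2 hX1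
  have hPN : (N : ℝ) ^ (2 - ε / 4) ≤ P := by
    have a1 : (N : ℝ) ^ 2 ≤ P * (N : ℝ) ^ (ε / 4) := by
      refine hAB.trans (mul_le_mul_of_nonneg_left ?_ hP0)
      refine le_trans ?_ h4
      rw [← hρ8]
      exact pow_le_pow_right₀ hρ1 (by norm_num)
    rw [Real.rpow_sub hN0, div_le_iff₀ (by positivity)]
    rw [show (2 : ℝ) = ((2 : ℕ) : ℝ) by norm_num, Real.rpow_natCast]
    exact a1
  have h9 : (1 - ε / 4) * ℓ * ((X : ℝ) ^ 2 * y) ≤ (ε / 4) * (P * y) := by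
    calc (1 - ε / 4) * ℓ * ((X : ℝ) ^ 2 * y) = ((1 - ε / 4) * ℓ * (X : ℝ) ^ 2) * y := by ring
      _ ≤ ((ε / 4) * (N : ℝ) ^ (2 - ε / 4)) * y := mul_le_mul_of_nonneg_right hX3 (Nat.cast_nonneg y)
      _ ≤ ((ε / 4) * P) * y := by gcongr
      _ = _ := by ring
  have hPy : 0 ≤ P * y := by positivity
  have hPC : 0 ≤ PCs A B y := by
    unfold PCs
    exact sum_nonneg fun _ _ => sum_nonneg fun _ _ => Nat.cast_nonneg _
  rw [abs_le] at h6 ⊢
  obtain ⟨h61, h62⟩ := h6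
  constructor
  · -- lower bound
    have b1 : (1 - ε / 4) * (P * y) ≤ (1 + ε / 4) * (PCs A B y * ℓ) := by
      calc (1 - ε / 4) * (P * y) ≤ TT A B y := by linarith only [h61]
        _ ≤ _ := by linarith only [h7]
    have b2 : (1 - ε) * (1 + ε / 4) ≤ 1 - ε / 4 := by nlinarith only [hε]
    have b3 : (1 + ε / 4) * ((1 - ε) * (P * y)) ≤ (1 + ε / 4) * (PCs A B y * ℓ) := by
      refine le_trans ?_ b1
      calc (1 + ε / 4) * ((1 - ε) * (P * y)) = ((1 - ε) * (1 + ε / 4)) * (P * y) := by ring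
        _ ≤ _ := mul_le_mul_of_nonneg_right b2 hPy
    have b4 := le_of_mul_le_mul_left b3 (by linarith only [hε])
    linarith only [b4]
  · have b1 : (1 - ε / 4) * (PCs A B y * ℓ) ≤ (1 + ε / 2) * (P * y) := by
      calc (1 - ε / 4) * (PCs A B y * ℓ) = (1 - ε / 4) * ℓ * PCs A B y := by ring
        _ ≤ TT A B y + (1 - ε / 4) * ℓ * ((X : ℝ) ^ 2 * y) := h8
        _ ≤ _ := by linarith only [h62, h9]
    have b2 : 1 + ε / 2 ≤ (1 - ε / 4) * (1 + ε) := by nlinarith only [hε, hε1]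
    have b3 : (1 - ε / 4) * (PCs A B y * ℓ) ≤ (1 - ε / 4) * ((1 + ε) * (P * y)) := by
      refine b1.trans ?_
      calc (1 + ε / 2) * (P * y) ≤ ((1 - ε / 4) * (1 + ε)) * (P * y) :=
            mul_le_mul_of_nonneg_right b2 hPy
        _ = _ := by ring
    have b4 := le_of_mul_le_mul_left b3 (by linarith only [hε1])
    linarith only [b4]

end Pool.Agent.V11316.AT
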