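import Pool.Agent.V11316.AT6

/-! Almost all translates of a set, all lengths from `λ log N` to a power of the logarithm at once. -/

set_option autoImplicit false

namespace Pool.Agent.V11316.AT
open Finset Filter
open Pool.Agent.W301.SS

/-- the sum over a translate -/
noncomputable def sc (A : Finset ℕ) (b H : ℕ) : ℝ := ∑ a ∈ A, (pn (a + b) H : ℝ)

/-- the exceptional translates for one length -/
noncomputable def Ex (A : Finset ℕ) (N H : ℕ) (δ : ℝ) : Finset ℕ := by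
  classical
  exact (Icc 1 N).filter (fun b => δ * (A.card * H) < |sc A b H * Real.log N - A.card * H|)

lemma exc_card {N H : ℕ} {δ ρ : ℝ} (hδ : 0 < δ) (hρ : 0 < ρ) (hN : 0 < N) (hH : 0 < H) (A : Finset ℕ) (hAc : (N : ℝ) / ρ ≤ A.card)
    (hcount : ∀ B : Finset ℕ, (∀ b ∈ B, b ≤ N) → (N : ℝ) ^ 2 ≤ (A.card : ℝ) * B.card * ρ ^ 2 →
      |PCs A B H * Real.log N - (A.card : ℝ) * B.card * H| ≤ δ / 2 * ((A.card : ℝ) * B.card * H)) :
    ((Ex A N H δ).card : ℝ) ≤ 2 * (N / ρ) := by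
  classical
  have hNr : (0 : ℝ) < N := by exact_mod_cast hN
  have hHr : (0 : ℝ) < H := by exact_mod_cast hH
  have hA0 : (0 : ℝ) < A.card := lt_of_lt_of_le (by positivity) hAc
  have half : ∀ (s : ℝ), s = 1 ∨ s = -1 →
      (((Icc 1 N).filter (fun b => δ * (A.card * H) < s * (sc A b H * Real.log N - A.card * H))).card : ℝ) ≤ N / ρ := by
    intro s hs
    by_contra hcon
    rw [not_le] at hcon
    obtain ⟨B, hBdef⟩ : ∃ B, B = (Icc 1 N).filter (fun b => δ * (A.card * H) < s * (sc A b H * Real.log N - A.card * H)) := ⟨_, rfl⟩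
    rw [← hBdef] at hcon
    have hB : ∀ b ∈ B, b ≤ N := by
      intro b hb
      rw [hBdef, mem_filter, mem_Icc] at hb
      omega
    have hAB : (N : ℝ) ^ 2 ≤ (A.card : ℝ) * B.card * ρ ^ 2 := by
      calc (N : ℝ) ^ 2 = (N / ρ) * (N / ρ) * ρ ^ 2 := by field_simp
        _ ≤ (A.card : ℝ) * B.card * ρ ^ 2 := by
            apply mul_le_mul_of_nonneg_right _ (by positivity)
            exact mul_le_mul hAc hcon.le (by positivity) hA0.le
    have h2 := hcount B hB hAB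
    have hB0 : (0 : ℝ) < B.card := lt_of_le_of_lt (by positivity) hcon
    have e : PCs A B H * Real.log N - (A.card : ℝ) * B.card * H = ∑ b ∈ B, (sc A b H * Real.log N - A.card * H) := by
      have e1 : PCs A B H = ∑ b ∈ B, sc A b H := by
        unfold PCs sc
        rw [sum_comm]
      rw [e1, sum_sub_distrib, sum_const, nsmul_eq_mul, ← sum_mul]
      ring
    rw [e] at h2
    have h3 : (δ * (A.card * H)) * B.card ≤ s * ∑ b ∈ B, (sc A b H * Real.log N - A.card * H) := by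
      rw [mul_sum]
      calc (δ * (A.card * H)) * B.card = ∑ _b ∈ B, (δ * (A.card * H)) := by rw [sum_const, nsmul_eq_mul, mul_comm]
        _ ≤ _ := by
          apply sum_le_sum
          intro b hb
          rw [hBdef, mem_filter] at hb
          exact hb.2.le
    have h4 : s * ∑ b ∈ B, (sc A b H * Real.log N - A.card * H) ≤ |∑ b ∈ B, (sc A b H * Real.log N - A.card * H)| := by
      rcases hs with rfl | rfl
      · rw [one_mul]; exact le_abs_self _
      · rw [neg_one_mul]; exact neg_le_abs _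
    have h5 : 0 < (δ * (A.card * H)) * B.card := by positivity
    have h6 : (δ * (A.card * H)) * B.card = 2 * (δ / 2 * ((A.card : ℝ) * B.card * H)) := by ring
    linarith only [h2, h3, h4, h5, h6]
  have g1 := half 1 (Or.inl rfl)
  have g2 := half (-1) (Or.inr rfl)
  have hsub : Ex A N H δ ⊆
      (Icc 1 N).filter (fun b => δ * (A.card * H) < (1 : ℝ) * (sc A b H * Real.log N - A.card * H)) ∪
      (Icc 1 N).filter (fun b => δ * (A.card * H) < (-1 : ℝ) * (sc A b H * Real.log N - A.card * H)) := by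
    intro b hb
    unfold Ex at hb
    rw [mem_filter] at hb
    rw [mem_union, mem_filter, mem_filter]
    rcases lt_abs.1 hb.2 with h | h
    · exact Or.inl ⟨hb.1, by rw [one_mul]; exact h⟩
    · exact Or.inr ⟨hb.1, by rw [neg_one_mul]; exact h⟩
  have g3 : ((Ex A N H δ).card : ℝ) ≤
      (((Icc 1 N).filter (fun b => δ * (A.card * H) < (1 : ℝ) * (sc A b H * Real.log N - A.card * H))).card : ℝ) +
      (((Icc 1 N).filter (fun b => δ * (A.card * H) < (-1 : ℝ) * (sc A b H * Real.log N - A.card * H))).card : ℝ) := by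
    exact_mod_cast (card_le_card hsub).trans (card_union_le _ _)
  linarith only [g1, g2, g3]

/-- the lengths of the grid -/
noncomputable def fl (lam δ ℓ : ℝ) (j : ℕ) : ℕ := ⌊lam * ℓ * (1 + δ) ^ j⌋₊

/-- a real number between two points of the grid -/
lemma grid {lam δ ℓ y : ℝ} {J : ℕ} (hlam : 0 < lam) (hδ : 0 < δ) (hℓ : 0 < ℓ) (hy1 : lam * ℓ ≤ y) (hy2 : y < lam * ℓ * (1 + δ) ^ J) :
    ∃ j, j < J ∧ lam * ℓ * (1 + δ) ^ j ≤ y ∧ y < lam * ℓ * (1 + δ) ^ (j + 1) := by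
  classical
  have hex : ∃ n, y < lam * ℓ * (1 + δ) ^ n := ⟨J, hy2⟩
  obtain ⟨n, hn⟩ : ∃ n, n = Nat.find hex := ⟨_, rfl⟩
  have h1 : y < lam * ℓ * (1 + δ) ^ n := by rw [hn]; exact Nat.find_spec hex
  have h2 : n ≤ J := by rw [hn]; exact Nat.find_min' hex hy2
  have h3 : n ≠ 0 := by
    intro h0
    rw [h0, pow_zero, mul_one] at h1
    linarith only [h1, hy1]
  have h4 : ¬ (y < lam * ℓ * (1 + δ) ^ (n - 1)) := by
    have : n - 1 < Nat.find hex := by rw [← hn]; omega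
    exact Nat.find_min hex this
  refine ⟨n - 1, by omega, not_lt.1 h4, ?_⟩
  have : n - 1 + 1 = n := by omega
  rw [this]
  exact h1

/-- the growth of the grid -/
lemma grid_growth (lam δ : ℝ) (hlam : 0 < lam) (hδ : 0 < δ) (K : ℕ) : ∀ᶠ n : ℕ in atTop, (n : ℝ) ^ K < lam * (1 + δ) ^ n := by
  have h := tendsto_pow_const_div_const_pow_of_one_lt K (show (1 : ℝ) < 1 + δ by linarith only [hδ])
  filter_upwards [h.eventually (gt_mem_nhds hlam)] with n hn
  rwa [div_lt_iff₀ (by positivity)] at hn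

/-- **All but few translates, all lengths up to `(log N) ^ K`.** -/
theorem short_translates (lam δ : ℝ) (hlam : 0 < lam) (hδ : 0 < δ) (hδ1 : δ ≤ 1 / 2) (K : ℕ) : ∀ᶠ N : ℕ in atTop, ∀ τ : ℝ, 0 < τ →
    τ ^ 80 = Real.log N → ∀ A : Finset ℕ, (∀ a ∈ A, a ≤ N) → (N : ℝ) / τ ^ 10 ≤ A.card →
    ∃ E : Finset ℕ, E ⊆ Icc 1 N ∧ (E.card : ℝ) ≤ 6 * τ * (N / τ ^ 10) ∧ ∀ b ∈ Icc 1 N, b ∉ E →
      ∀ y : ℝ, lam * Real.log N ≤ y → y ≤ Real.log N ^ K → y ≤ N →
        (1 - 3 * δ) * (A.card * y) ≤ sc A b ⌊y⌋₊ * Real.log N ∧ sc A b ⌊y⌋₊ * Real.log N ≤ (1 + 3 * δ) * (A.card * y) := by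
  classical
  have tN : Tendsto (fun N : ℕ => (N : ℝ)) atTop atTop := tendsto_natCast_atTop_atTop
  have tL : Tendsto (fun N : ℕ => Real.log (N : ℝ)) atTop atTop := Real.tendsto_log_atTop.comp tN
  obtain ⟨n₀, hn₀⟩ := eventually_atTop.1 (grid_growth lam δ hlam hδ (80 * K))
  obtain ⟨M₀, hM₀⟩ : ∃ M₀ : ℝ, M₀ = ((n₀ : ℝ) + 1) ^ 80 := ⟨_, rfl⟩
  filter_upwards [count_log (lam / 2) (δ / 2) (by linarith only [hlam]) (by linarith only [hδ]) (by linarith only [hδ1]),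
    ev_L (M₀ + 2 / lam + 1 / (δ * lam) + 1), eventually_ge_atTop 16] with N h1 h2 hN16 τ hτ hτ80 A hA hAc
  have hNr : (16 : ℝ) ≤ N := by exact_mod_cast hN16
  have hN0 : (0 : ℝ) < N := by linarith only [hNr]
  obtain ⟨ℓ, hℓ⟩ : ∃ ℓ, ℓ = Real.log N := ⟨_, rfl⟩
  rw [← hℓ] at h1 h2 hτ80
  have hc1 : 0 < 2 / lam := by positivity
  have hc2 : 0 < 1 / (δ * lam) := by positivity
  have hc3 : 0 ≤ M₀ := by rw [hM₀]; positivity
  have hℓ1 : 1 ≤ ℓ := by linarith only [h2, hc1, hc2, hc3]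
  have hℓ0 : 0 < ℓ := by linarith only [hℓ1]
  have hlℓ : 0 < lam * ℓ := mul_pos hlam hℓ0
  have hlℓ2 : 2 ≤ lam * ℓ := by
    have : 2 / lam ≤ ℓ := by linarith only [h2, hc2, hc3]
    rw [div_le_iff₀ hlam] at this; linarith only [this]
  have hδℓ : 1 ≤ δ * (lam * ℓ) := by
    have : 1 / (δ * lam) ≤ ℓ := by linarith only [h2, hc1, hc3]
    rw [div_le_iff₀ (by positivity)] at this; linarith only [this]
  have hτn : (n₀ : ℝ) + 1 ≤ τ := by
    by_contra hcon
    rw [not_le] at hcon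
    have := pow_lt_pow_left₀ hcon hτ.le (show 80 ≠ 0 by norm_num)
    rw [← hM₀, hτ80] at this
    linarith only [this, h2, hc1, hc2]
  have hn00 : (0 : ℝ) ≤ n₀ := Nat.cast_nonneg _
  have hτ1 : 1 ≤ τ := by linarith only [hτn, hn00]
  -- the number of points of the grid
  obtain ⟨J, hJ⟩ : ∃ J, J = ⌈τ⌉₊ := ⟨_, rfl⟩
  have hJ1 : τ ≤ J := by rw [hJ]; exact Nat.le_ceil _
  have hJ2 : (J : ℝ) ≤ 2 * τ := by
    have := Nat.ceil_lt_add_one hτ.le
    rw [← hJ] at this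
    linarith only [this, hτ1]
  have hJn : n₀ ≤ J := by
    have : (n₀ : ℝ) ≤ J := by linarith only [hτn, hJ1]
    exact_mod_cast this
  have hJg : ℓ ^ K < lam * ℓ * (1 + δ) ^ J := by
    have g1 := hn₀ J hJn
    have g2 : ℓ ^ K ≤ (J : ℝ) ^ (80 * K) := by
      rw [← hτ80, ← pow_mul]
      exact pow_le_pow_left₀ hτ.le hJ1 _
    calc ℓ ^ K ≤ (J : ℝ) ^ (80 * K) := g2
      _ < lam * (1 + δ) ^ J := g1
      _ = lam * (1 + δ) ^ J * 1 := (mul_one _).symm
      _ ≤ lam * (1 + δ) ^ J * ℓ := mul_le_mul_of_nonneg_left hℓ1 (by positivity)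
      _ = _ := by ring
  -- the exceptional set
  obtain ⟨E, hE⟩ : ∃ E, E = ((range (J + 1)).filter (fun j => fl lam δ ℓ j ≤ 2 * N)).biUnion (fun j => Ex A N (fl lam δ ℓ j) δ) := ⟨_, rfl⟩
  have hflo : ∀ j, (1 - δ) * (lam * ℓ * (1 + δ) ^ j) ≤ fl lam δ ℓ j ∧ (fl lam δ ℓ j : ℝ) ≤ lam * ℓ * (1 + δ) ^ j := by
    intro j
    have hp : 1 ≤ (1 + δ) ^ j := one_le_pow₀ (by linarith only [hδ])
    have hx : lam * ℓ ≤ lam * ℓ * (1 + δ) ^ j := le_mul_of_one_le_right hlℓ.le hp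
    constructor
    · have g1 := Nat.lt_floor_add_one (lam * ℓ * (1 + δ) ^ j)
      have g2 : 1 ≤ δ * (lam * ℓ * (1 + δ) ^ j) := hδℓ.trans (mul_le_mul_of_nonneg_left hx hδ.le)
      unfold fl
      linarith only [g1, g2]
    · unfold fl
      exact Nat.floor_le (by positivity)
  have hfl1 : ∀ j, lam / 2 * ℓ ≤ fl lam δ ℓ j := by
    intro j
    have hp : 1 ≤ (1 + δ) ^ j := one_le_pow₀ (by linarith only [hδ])
    have hx : lam * ℓ ≤ lam * ℓ * (1 + δ) ^ j := le_mul_of_one_le_right hlℓ.le hp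
    have g1 := Nat.lt_floor_add_one (lam * ℓ * (1 + δ) ^ j)
    unfold fl
    linarith only [g1, hx, hlℓ2]
  have hfl0 : ∀ j, 0 < fl lam δ ℓ j := by
    intro j
    have : (0 : ℝ) < fl lam δ ℓ j := by linarith only [hfl1 j, hlℓ]
    exact_mod_cast this
  have hρ8 : (τ ^ 10) ^ 8 = ℓ := by rw [← pow_mul]; exact hτ80
  refine ⟨E, ?_, ?_, ?_⟩
  · rw [hE]
    intro b hb
    rw [mem_biUnion] at hb
    obtain ⟨j, _, hj⟩ := hb
    unfold Ex at hj
    exact (mem_filter.1 hj).1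
  · have g1 : (E.card : ℝ) ≤ ∑ j ∈ (range (J + 1)).filter (fun j => fl lam δ ℓ j ≤ 2 * N), ((Ex A N (fl lam δ ℓ j) δ).card : ℝ) := by
      rw [hE]
      exact_mod_cast card_biUnion_le
    have g2 : ∀ j ∈ (range (J + 1)).filter (fun j => fl lam δ ℓ j ≤ 2 * N), ((Ex A N (fl lam δ ℓ j) δ).card : ℝ) ≤ 2 * (N / τ ^ 10) := by
      intro j hj
      rw [mem_filter] at hj
      exact exc_card hδ (by positivity) (by omega) (hfl0 j) A hAc
        (fun B hB hAB => by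
          rw [← hℓ]
          exact h1 (τ ^ 10) (by positivity) hρ8 A B hA hB hAB _ (hfl1 j) hj.2)
    refine (g1.trans (sum_le_sum g2)).trans ?_
    rw [sum_const, nsmul_eq_mul]
    have g3 : ((((range (J + 1)).filter (fun j => fl lam δ ℓ j ≤ 2 * N)).card : ℕ) : ℝ) ≤ 2 * τ + 1 := by
      have : ((range (J + 1)).filter (fun j => fl lam δ ℓ j ≤ 2 * N)).card ≤ J + 1 := by
        refine (card_filter_le _ _).trans ?_
        rw [card_range]
      have g4 : ((((range (J + 1)).filter (fun j => fl lam δ ℓ j ≤ 2 * N)).card : ℕ) : ℝ) ≤ (J + 1 : ℕ) := by exact_mod_cast this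
      push_cast at g4
      linarith only [g4, hJ2]
    have g5 : 0 ≤ (N : ℝ) / τ ^ 10 := by positivity
    calc _ ≤ (2 * τ + 1) * (2 * (N / τ ^ 10)) := mul_le_mul_of_nonneg_right g3 (by positivity)
      _ = (4 * τ + 2) * (N / τ ^ 10) := by ring
      _ ≤ 6 * τ * (N / τ ^ 10) := mul_le_mul_of_nonneg_right (by linarith only [hτ1]) g5
  · intro b hb hbE y hy1 hy2 hyN
    rw [← hℓ] at hy1 hy2 ⊢
    obtain ⟨j, hjJ, hj1, hj2⟩ := grid hlam hδ hℓ0 hy1 (lt_of_le_of_lt hy2 hJg)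
    have hy0 : 0 < y := lt_of_lt_of_le hlℓ hy1
    have hA0 : (0 : ℝ) ≤ A.card := Nat.cast_nonneg _
    have hgood : ∀ i, i < J + 1 → (fl lam δ ℓ i : ℝ) ≤ 2 * N →
        |sc A b (fl lam δ ℓ i) * ℓ - A.card * (fl lam δ ℓ i)| ≤ δ * (A.card * (fl lam δ ℓ i)) := by
      intro i hi hfi
      by_contra hcon
      apply hbE
      rw [hE, mem_biUnion]
      refine ⟨i, mem_filter.2 ⟨mem_range.2 hi, by exact_mod_cast hfi⟩, ?_⟩
      unfold Ex
      rw [mem_filter, ← hℓ]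
      exact ⟨hb, not_le.1 hcon⟩
    have hfj := hflo j
    have hfj' := hflo (j + 1)
    have hstep : lam * ℓ * (1 + δ) ^ (j + 1) = (1 + δ) * (lam * ℓ * (1 + δ) ^ j) := by rw [pow_succ]; ring
    have hup : lam * ℓ * (1 + δ) ^ (j + 1) ≤ (1 + δ) * y := by
      rw [hstep]
      exact mul_le_mul_of_nonneg_left hj1 (by linarith only [hδ])
    have q1 := hgood j (by omega) (by linarith only [hfj.2, hj1, hyN, hN0])
    have q2 := hgood (j + 1) (by omega) (by
      have : (1 + δ) * y ≤ (3 / 2) * N := by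
        apply mul_le_mul (by linarith only [hδ1]) hyN hy0.le (by norm_num)
      linarith only [hfj'.2, hup, this, hN0])
    have m1 : sc A b (fl lam δ ℓ j) ≤ sc A b ⌊y⌋₊ := by
      unfold sc
      apply sum_le_sum
      intro a _
      exact_mod_cast pn_mono (Nat.floor_mono hj1)
    have m2 : sc A b ⌊y⌋₊ ≤ sc A b (fl lam δ ℓ (j + 1)) := by
      unfold sc
      apply sum_le_sum
      intro a _
      exact_mod_cast pn_mono (Nat.floor_mono hj2.le)
    rw [abs_le] at q1 q2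
    have m1' := mul_le_mul_of_nonneg_right m1 hℓ0.le
    have m2' := mul_le_mul_of_nonneg_right m2 hℓ0.le
    constructor
    · -- lower bound
      have r1 : (1 - δ) * (A.card * (fl lam δ ℓ j : ℝ)) ≤ sc A b ⌊y⌋₊ * ℓ := by linarith only [q1.1, m1']
      have r2 : (1 - 2 * δ) * y ≤ (fl lam δ ℓ j : ℝ) := by
        have s1 : y ≤ (1 + δ) * (lam * ℓ * (1 + δ) ^ j) := by rw [← hstep]; exact hj2.le
        have s2 : (1 - δ) * (lam * ℓ * (1 + δ) ^ j) ≤ fl lam δ ℓ j := hfj.1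
        have s3 : 0 ≤ lam * ℓ * (1 + δ) ^ j := by positivity
        have s4 : (1 - 2 * δ) * y ≤ (1 - 2 * δ) * ((1 + δ) * (lam * ℓ * (1 + δ) ^ j)) :=
          mul_le_mul_of_nonneg_left s1 (by linarith only [hδ1])
        have s5 : (1 - 2 * δ) * (1 + δ) ≤ 1 - δ := by nlinarith only [hδ]
        calc (1 - 2 * δ) * y ≤ (1 - 2 * δ) * ((1 + δ) * (lam * ℓ * (1 + δ) ^ j)) := s4
          _ = ((1 - 2 * δ) * (1 + δ)) * (lam * ℓ * (1 + δ) ^ j) := by ring
          _ ≤ (1 - δ) * (lam * ℓ * (1 + δ) ^ j) := mul_le_mul_of_nonneg_right s5 s3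
          _ ≤ _ := s2
      have r3 : (1 - 3 * δ) * (A.card * y) ≤ (1 - δ) * (A.card * ((1 - 2 * δ) * y)) := by
        have : 0 ≤ (A.card : ℝ) * y := mul_nonneg hA0 hy0.le
        have s1 : 1 - 3 * δ ≤ (1 - δ) * (1 - 2 * δ) := by nlinarith only [hδ]
        calc (1 - 3 * δ) * (A.card * y) ≤ ((1 - δ) * (1 - 2 * δ)) * (A.card * y) := mul_le_mul_of_nonneg_right s1 this
          _ = _ := by ring
      have r4 : (1 - δ) * (A.card * ((1 - 2 * δ) * y)) ≤ (1 - δ) * (A.card * (fl lam δ ℓ j : ℝ)) :=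
        mul_le_mul_of_nonneg_left (mul_le_mul_of_nonneg_left r2 hA0) (by linarith only [hδ1])
      linarith only [r1, r3, r4]
    · have r1 : sc A b ⌊y⌋₊ * ℓ ≤ (1 + δ) * (A.card * (fl lam δ ℓ (j + 1) : ℝ)) := by linarith only [q2.2, m2']
      have r2 : (fl lam δ ℓ (j + 1) : ℝ) ≤ (1 + δ) * y := hfj'.2.trans hup
      have r3 : (1 + δ) * (A.card * (fl lam δ ℓ (j + 1) : ℝ)) ≤ (1 + δ) * (A.card * ((1 + δ) * y)) :=
        mul_le_mul_of_nonneg_left (mul_le_mul_of_nonneg_left r2 hA0) (by linarith only [hδ])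
      have r4 : (1 + δ) * (A.card * ((1 + δ) * y)) ≤ (1 + 3 * δ) * (A.card * y) := by
        have : 0 ≤ (A.card : ℝ) * y := mul_nonneg hA0 hy0.le
        have s1 : (1 + δ) * (1 + δ) ≤ 1 + 3 * δ := by nlinarith only [hδ, hδ1]
        calc (1 + δ) * (A.card * ((1 + δ) * y)) = ((1 + δ) * (1 + δ)) * (A.card * y) := by ring
          _ ≤ _ := mul_le_mul_of_nonneg_right s1 this
      linarith only [r1, r3, r4]

end Pool.Agent.V11316.AT
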