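import Pool.Agent.V11316.AT4

/-! Tables whose cells have their own labels: the entries are `f a + g c` with arbitrary injective `f`, `g` which depend on the cell. -/

set_option autoImplicit false

namespace Pool.Agent.V11316.AT
open Finset Filter
open Pool.Agent.W301.SS
open Pool.Agent.Y851.PS
open Pool.Agent.Y851.PT
open Pool.Agent.V11316.TB

/-- the data of a cell: the labels of the rows and of the columns, and the length of the window -/
abbrev Lb := (ℕ → ℕ) × (ℕ → ℕ) × ℕ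

/-- the labels are injective and at most `N`, and the length is between `λ log N` and `N` -/
structure Lab (lam : ℝ) (N : ℕ) (A C : Finset ℕ) (q : Lb) : Prop where
  injA : Set.InjOn q.1 A
  injC : Set.InjOn q.2.1 C
  leA : ∀ a ∈ A, q.1 a ≤ N
  leC : ∀ c ∈ C, q.2.1 c ≤ N
  len : lam * Real.log N ≤ q.2.2
  len' : q.2.2 ≤ N

/-- the density of the window of a cell -/
noncomputable def BW (N : ℕ) (q : Lb) (a c : ℕ) : ℝ := AW N q.2.2 (q.1 a) (q.2.1 c)

lemma BW_nonneg (N : ℕ) (q : Lb) (a c : ℕ) : 0 ≤ BW N q a c := AW_nonneg _ _ _ _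

lemma sum_img {A C : Finset ℕ} {f g : ℕ → ℕ} (hf : Set.InjOn f A) (hg : Set.InjOn g C) (F : ℕ → ℕ → ℝ) :
    ∑ a ∈ A, ∑ c ∈ C, F (f a) (g c) = ∑ a ∈ A.image f, ∑ c ∈ C.image g, F a c := by
  rw [sum_image hf]
  apply sum_congr rfl
  intro a _
  rw [sum_image hg]

lemma Lab.cut {lam d ε : ℝ} {N : ℕ} {A C : Finset ℕ} {q : Lb} (h : Lab lam N A C q) (hA : d * (N : ℝ) ≤ A.card)
    (hC : d * (N : ℝ) ≤ C.card)
    (hcut : ∀ A C : Finset ℕ, (∀ a ∈ A, a ≤ N) → (∀ c ∈ C, c ≤ N) → d * (N : ℝ) ≤ A.card → d * (N : ℝ) ≤ C.card →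
      ∀ H : ℕ, lam * Real.log N ≤ H → H ≤ N → Cut A C (AW N H) ε) : Cut A C (BW N q) ε := by
  have e1 : (A.image q.1).card = A.card := card_image_of_injOn h.injA
  have e2 : (C.image q.2.1).card = C.card := card_image_of_injOn h.injC
  have key := hcut (A.image q.1) (C.image q.2.1)
    (by intro a ha; rw [mem_image] at ha; obtain ⟨x, hx, rfl⟩ := ha; exact h.leA x hx)
    (by intro a ha; rw [mem_image] at ha; obtain ⟨x, hx, rfl⟩ := ha; exact h.leC x hx)
    (by rw [e1]; exact hA) (by rw [e2]; exact hC) q.2.2 h.len h.len'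
  intro A' hA' C' hC'
  have k2 := key (A'.image q.1) (image_subset_image hA') (C'.image q.2.1) (image_subset_image hC')
  rw [e1, e2] at k2
  have e3 : ∑ a ∈ A', ∑ c ∈ C', (BW N q a c - 1) = ∑ a ∈ A'.image q.1, ∑ c ∈ C'.image q.2.1, (AW N q.2.2 a c - 1) :=
    sum_img (h.injA.mono (by exact_mod_cast hA')) (h.injC.mono (by exact_mod_cast hC')) (fun a c => AW N q.2.2 a c - 1)
  rw [e3]
  exact k2

/-- all moments up to `m₀` -/
theorem mom_lab (m₀ : ℕ) (lam d : ℝ) (hlam : 0 < lam) (hd : 0 < d) : ∃ M : ℝ, 1 ≤ M ∧ ∀ᶠ N : ℕ in atTop,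
    ∀ A C : Finset ℕ, d * (N : ℝ) ≤ C.card → ∀ q : Lb, Lab lam N A C q → Mom m₀ A C (BW N q) M := by
  choose M hM hev using mom_dense lam d hlam hd
  have hsum : 0 ≤ ∑ m ∈ range m₀, M m := sum_nonneg fun m _ => zero_le_one.trans (hM m)
  refine ⟨1 + ∑ m ∈ range m₀, M m, by linarith only [hsum], ?_⟩
  have hall := (eventually_all_finset (range m₀)).2 fun m _ => hev m
  filter_upwards [hall] with N hN A C hC q hq
  intro m hm a ha
  have hCc : (0 : ℝ) ≤ C.card := Nat.cast_nonneg _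
  rcases m with _ | m
  · simp only [pow_zero, sum_const, nsmul_eq_mul, mul_one]
    have := mul_nonneg hsum hCc
    linarith only [this]
  · have e2 : (C.image q.2.1).card = C.card := card_image_of_injOn hq.injC
    have e3 : ∑ c ∈ C, BW N q a c ^ (m + 1) = ∑ c ∈ C.image q.2.1, AW N q.2.2 (q.1 a) c ^ (m + 1) := by
      rw [sum_image hq.injC]
      rfl
    rw [e3]
    refine (hN m (mem_range.2 (by omega)) (C.image q.2.1)
      (by intro c hc; rw [mem_image] at hc; obtain ⟨x, hx, rfl⟩ := hc; exact hq.leC x hx) (by rw [e2]; exact hC)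
      (q.1 a) (hq.leA a ha) q.2.2 hq.len hq.len').trans ?_
    rw [e2]
    apply mul_le_mul_of_nonneg_right _ hCc
    have := single_le_sum (f := M) (fun i _ => zero_le_one.trans (hM i)) (mem_range.2 (show m < m₀ by omega))
    linarith only [this]

open Classical in
/-- **patterns in tables** -/
theorem labels_table (r s k l : ℕ) (lam d δ η : ℝ) (hlam : 0 < lam) (hd : 0 < d) (hδ : 0 < δ) (hδ1 : δ ≤ 1) (hη : 0 < η) :
    ∃ κ : ℝ, 0 < κ ∧ ∀ᶠ N : ℕ in atTop, ∀ A C : Finset ℕ, d * (N : ℝ) ≤ A.card → d * (N : ℝ) ≤ C.card →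
    ∀ (σ : Fin r → Fin l → Bool × Lb) (τ : Fin k → Fin s → Bool × Lb) (υ : Fin k → Fin l → Bool × Lb),
    (∀ i j, Lab lam N A C (σ i j).2) → (∀ i j, Lab lam N A C (τ i j).2) → (∀ i j, Lab lam N A C (υ i j).2) →
    (((Fintype.piFinset (fun _ : Fin r => A) ×ˢ Fintype.piFinset (fun _ : Fin s => C)).filter (fun z => ¬
      (κ * ((A.card : ℝ) ^ k * (C.card : ℝ) ^ l) ≤ ((Comp δ σ τ υ A C (BW N) z.1 z.2).card : ℝ)))).card : ℝ) ≤
      η * ((A.card : ℝ) ^ r * (C.card : ℝ) ^ s) := by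
  obtain ⟨M, hM, hm⟩ := mom_lab 2 lam d hlam hd
  obtain ⟨κ, δ₂, hκ, hδ₂, ht⟩ := table ℕ ℕ r s k l M δ η hM hδ hδ1 hη
  refine ⟨κ, hκ, ?_⟩
  filter_upwards [cut_dense lam d δ₂ hlam hd hδ₂, hm] with N hcut hmom A C hA hC σ τ υ hσ hτ hυ
  refine ht {q : Lb // Lab lam N A C q} (fun i j => ((σ i j).1, ⟨(σ i j).2, hσ i j⟩)) (fun i j => ((τ i j).1, ⟨(τ i j).2, hτ i j⟩))
    (fun i j => ((υ i j).1, ⟨(υ i j).2, hυ i j⟩)) A C (fun q => BW N q.1) (fun q a _ c _ => BW_nonneg _ _ _ _)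
    (fun q => q.2.cut hA hC hcut) (fun q => ?_)
  have h1 : ∀ a ∈ A, ∑ c ∈ C, BW N q.1 a c ^ 2 ≤ M * C.card := fun a ha => hmom A C hC q.1 q.2 2 le_rfl a ha
  refine (sum_le_sum h1).trans (le_of_eq ?_)
  rw [sum_const, nsmul_eq_mul]
  ring

/-- the weight of a cell: the density of its window, or `1` -/
noncomputable def wB (N : ℕ) (o : Option Lb) (a c : ℕ) : ℝ := match o with
  | none => 1
  | some q => BW N q a c

open Classical in
/-- **the asymptotic formula in tables** -/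
theorem labels_asym (r s k l : ℕ) (lam d δ : ℝ) (hlam : 0 < lam) (hd : 0 < d) (hδ : 0 < δ) :
    ∀ᶠ N : ℕ in atTop, ∀ A C : Finset ℕ, d * (N : ℝ) ≤ A.card → d * (N : ℝ) ≤ C.card →
    ∀ (σ : Fin r → Fin l → Option Lb) (τ : Fin k → Fin s → Option Lb) (υ : Fin k → Fin l → Option Lb),
    (∀ i j, ∀ q ∈ σ i j, Lab lam N A C q) → (∀ i j, ∀ q ∈ τ i j, Lab lam N A C q) → (∀ i j, ∀ q ∈ υ i j, Lab lam N A C q) →
    (((Fintype.piFinset (fun _ : Fin r => A) ×ˢ Fintype.piFinset (fun _ : Fin s => C)).filter (fun z =>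
      δ * ((A.card : ℝ) ^ k * (C.card : ℝ) ^ l) <
      |∑ a' ∈ Fintype.piFinset (fun _ : Fin k => A), ∑ c' ∈ Fintype.piFinset (fun _ : Fin l => C), cells (wB N) σ τ υ z.1 z.2 a' c' -
        (A.card : ℝ) ^ k * (C.card : ℝ) ^ l|)).card : ℝ) ≤
      δ * ((A.card : ℝ) ^ r * (C.card : ℝ) ^ s) := by
  obtain ⟨M, hM, hm⟩ := mom_lab (4 * (r + k) + 3) lam d hlam hd
  obtain ⟨δ₂, hδ₂, ht⟩ := asym_good ℕ ℕ r s k l M δ hM hδ
  filter_upwards [cut_dense lam d δ₂ hlam hd hδ₂, hm] with N hcut hmom A C hA hC σ τ υ hσ hτ hυ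
  have hcard : (0 : ℝ) ≤ C.card := Nat.cast_nonneg _
  have hFam : Fam (4 * (r + k) + 3) A C (fun (o : {o : Option Lb // ∀ q ∈ o, Lab lam N A C q}) => wB N o.1) M δ₂ := by
    refine ⟨?_, ?_, ?_⟩
    · rintro ⟨o, ho⟩ a _ c _
      rcases o with _ | q
      · exact zero_le_one
      · exact BW_nonneg _ _ _ _
    · rintro ⟨o, ho⟩
      rcases o with _ | q
      · intro A' _ C' _
        simp only [wB, sub_self, sum_const_zero, abs_zero]
        positivity
      · exact (ho q rfl).cut hA hC hcut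
    · rintro ⟨o, ho⟩
      rcases o with _ | q
      · intro m _ a _
        simp only [wB, one_pow, sum_const, nsmul_eq_mul, mul_one]
        calc (C.card : ℝ) = 1 * C.card := (one_mul _).symm
          _ ≤ M * C.card := mul_le_mul_of_nonneg_right hM hcard
      · exact hmom A C hC q (ho q rfl)
  exact ht {o : Option Lb // ∀ q ∈ o, Lab lam N A C q} (fun i j => ⟨σ i j, hσ i j⟩) (fun i j => ⟨τ i j, hτ i j⟩)
    (fun i j => ⟨υ i j, hυ i j⟩) A C (fun o => wB N o.1) hFam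

end Pool.Agent.V11316.AT
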