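import Mathlib

/-!
Maps from `ℤ^d` into a torsion-free-like abelian group with vanishing second (third) differences.
-/

open Finset

namespace V11316

variable {A : Type*} [AddCommGroup A]

/-- a map with vanishing second differences is affine: its linear part. -/
def linPart {M : Type*} [AddCommGroup M] (G : M → A)
    (h2 : ∀ c u v, G (c + u + v) - G (c + u) - G (c + v) + G c = 0) : M →+ A where
  toFun c := G c - G 0
  map_zero' := by simp
  map_add' u v := by
    have := h2 0 u v
    simp only [zero_add] at this
    have h3 : G (u + v) = G u + G v - G 0 := by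
      rw [← sub_eq_zero, ← this]; abel
    rw [h3]; abel

theorem affine_zero {d : ℕ} (htor : ∀ (a : A) (z : ℤ), z ≠ 0 → z • a = 0 → a = 0)
    (G : (Fin d → ℤ) → A)
    (h2 : ∀ c u v, G (c + u + v) - G (c + u) - G (c + v) + G c = 0)
    (r : Fin d → ℤ) {m : ℤ} (hm : m ≠ 0) (hr : ∑ i, r i = m)
    (hV : ∀ i, G (r - m • Pi.single i 1) = 0) : G 0 = 0 := by
  set L := linPart G h2 with hL
  have hL' : ∀ c, L c = G c - G 0 := fun c => rfl
  have e1 : ∀ i, L r - m • L (Pi.single i 1) = - G 0 := by
    intro i
    have := hL' (r - m • Pi.single i 1)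
    rw [hV i, map_sub, map_zsmul] at this
    rw [this]; abel
  have e2 : L r = ∑ i, r i • L (Pi.single i 1) := by
    have : r = ∑ i, r i • (Pi.single i 1 : Fin d → ℤ) := by
      funext j
      simp [Finset.sum_apply, Pi.single_apply]
    conv_lhs => rw [this]
    rw [map_sum]
    exact sum_congr rfl fun i _ => map_zsmul _ _ _
  have e3 : ∑ i, r i • (L r - m • L (Pi.single i 1)) = ∑ i, r i • (- G 0) :=
    sum_congr rfl fun i _ => by rw [e1]
  have e4 : m • L r - m • L r = m • (- G 0) := by
    rw [← sum_smul, hr] at e3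
    rw [← e3]
    simp only [smul_sub, sum_sub_distrib]
    rw [← sum_smul, hr]
    congr 1
    conv_lhs => rw [e2]
    rw [smul_sum]
    exact sum_congr rfl fun i _ => smul_comm _ _ _
  rw [sub_self] at e4
  have e5 : m • G 0 = 0 := by
    rw [smul_neg] at e4
    exact (neg_eq_zero.1 e4.symm)
  exact htor _ _ hm e5

end V11316
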