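import Mathlib

/-!
Functions on an abelian group with values in a subring `O` of a field `K`, all of whose mixed
differences of order `j ≤ m` are divisible by `ϖ ^ j`.
-/

open Finset

namespace V11316

variable {K : Type*} [Field K] {M : Type*} [AddCommGroup M]

/-- `An O ϖ m f`: `f` is `O`-valued and mixed differences of order `j ≤ m` are divisible by
`ϖ ^ j`. -/
def An (O : Subring K) (ϖ : K) : ℕ → (M → K) → Prop
  | 0, f => ∀ c, f c ∈ O
  | (m + 1), f => (∀ c, f c ∈ O) ∧
      ∀ v : M, ∃ g : M → K, An O ϖ m g ∧ ∀ c, f (c + v) - f c = ϖ * g c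

variable {O : Subring K} {ϖ : K} {m : ℕ} {f g : M → K}

theorem An.mem (h : An O ϖ m f) (c : M) : f c ∈ O := by
  cases m with
  | zero => exact h c
  | succ m => exact h.1 c

theorem An.pred : ∀ {m : ℕ} {f : M → K}, An O ϖ (m + 1) f → An O ϖ m f
  | 0, _, h => h.1
  | (m + 1), _, h => ⟨h.1, fun v => by
      obtain ⟨g, hg, hfg⟩ := h.2 v
      exact ⟨g, An.pred hg, hfg⟩⟩

theorem An.mono {m l : ℕ} (hl : l ≤ m) (h : An O ϖ m f) : An O ϖ l f := by
  induction hl with
  | refl => exact h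
  | step _ ih => exact ih (An.pred h)

theorem An.congr (h : An O ϖ m f) (hfg : ∀ c, f c = g c) : An O ϖ m g := by
  have : f = g := funext hfg
  rwa [← this]

theorem An.const : ∀ {m : ℕ} {a : K}, a ∈ O → An O ϖ m (fun _ : M => a)
  | 0, _, h => fun _ => h
  | (_ + 1), _, h => ⟨fun _ => h, fun _ => ⟨fun _ => 0, An.const (zero_mem _), fun _ => by simp⟩⟩

theorem An.add : ∀ {m : ℕ} {f g : M → K}, An O ϖ m f → An O ϖ m g →
    An O ϖ m (fun c => f c + g c)
  | 0, _, _, hf, hg => fun c => add_mem (hf c) (hg c)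
  | (_ + 1), _, _, hf, hg => ⟨fun c => add_mem (hf.1 c) (hg.1 c), fun v => by
      obtain ⟨f', hf', h1⟩ := hf.2 v
      obtain ⟨g', hg', h2⟩ := hg.2 v
      exact ⟨_, An.add hf' hg', fun c => by linear_combination h1 c + h2 c⟩⟩

theorem An.neg : ∀ {m : ℕ} {f : M → K}, An O ϖ m f → An O ϖ m (fun c => - f c)
  | 0, _, hf => fun c => neg_mem (hf c)
  | (_ + 1), _, hf => ⟨fun c => neg_mem (hf.1 c), fun v => by
      obtain ⟨f', hf', h1⟩ := hf.2 v
      exact ⟨_, An.neg hf', fun c => by linear_combination - h1 c⟩⟩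

theorem An.sub (hf : An O ϖ m f) (hg : An O ϖ m g) : An O ϖ m (fun c => f c - g c) :=
  (hf.add hg.neg).congr fun _ => by ring

theorem An.shift : ∀ {m : ℕ} {f : M → K} (w : M), An O ϖ m f → An O ϖ m (fun c => f (c + w))
  | 0, _, w, hf => fun c => hf (c + w)
  | (_ + 1), _, w, hf => ⟨fun c => hf.1 (c + w), fun v => by
      obtain ⟨f', hf', h1⟩ := hf.2 v
      refine ⟨_, An.shift w hf', fun c => ?_⟩
      beta_reduce
      rw [add_right_comm]
      exact h1 (c + w)⟩

theorem An.mul : ∀ {m : ℕ} {f g : M → K}, An O ϖ m f → An O ϖ m g →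
    An O ϖ m (fun c => f c * g c)
  | 0, _, _, hf, hg => fun c => mul_mem (hf c) (hg c)
  | (_ + 1), f, g, hf, hg => ⟨fun c => mul_mem (hf.1 c) (hg.1 c), fun v => by
      obtain ⟨f', hf', h1⟩ := hf.2 v
      obtain ⟨g', hg', h2⟩ := hg.2 v
      refine ⟨_, An.add (An.mul hf' (An.shift v (An.pred hg))) (An.mul (An.pred hf) hg'),
        fun c => ?_⟩
      linear_combination g (c + v) * h1 c + f c * h2 c⟩

theorem An.smul {a : K} (ha : a ∈ O) (hf : An O ϖ m f) : An O ϖ m (fun c => a * f c) :=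
  (An.const ha).mul hf

theorem An.pow (hf : An O ϖ m f) (k : ℕ) : An O ϖ m (fun c => f c ^ k) := by
  induction k with
  | zero => simpa using An.const (one_mem O)
  | succ k ih => exact (ih.mul hf).congr fun c => by rw [pow_succ]

theorem An.inv : ∀ {m : ℕ} {f : M → K}, An O ϖ m f → (∀ c, f c ≠ 0) → (∀ c, (f c)⁻¹ ∈ O) →
    An O ϖ m (fun c => (f c)⁻¹)
  | 0, _, _, _, h => h
  | (_ + 1), f, hf, h0, h => ⟨h, fun v => by
      obtain ⟨f', hf', h1⟩ := hf.2 v
      have hi := An.inv (An.pred hf) h0 h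
      refine ⟨_, (An.mul (An.mul hf' hi) (An.shift v hi)).neg, fun c => ?_⟩
      have hc := h0 c
      have hcv := h0 (c + v)
      have := h1 c
      field_simp
      linear_combination -this⟩

theorem An.sum {ι : Type*} (s : Finset ι) {F : ι → M → K} (h : ∀ i ∈ s, An O ϖ m (F i)) :
    An O ϖ m (fun c => ∑ i ∈ s, F i c) := by
  classical
  induction s using Finset.induction_on with
  | empty => simpa using An.const (zero_mem O)
  | insert a s ha ih =>
    have h1 := h a (mem_insert_self _ _)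
    have h2 := ih fun i hi => h i (mem_insert_of_mem hi)
    exact (h1.add h2).congr fun c => by rw [sum_insert ha]

theorem An.prod {ι : Type*} (s : Finset ι) {F : ι → M → K} (h : ∀ i ∈ s, An O ϖ m (F i)) :
    An O ϖ m (fun c => ∏ i ∈ s, F i c) := by
  classical
  induction s using Finset.induction_on with
  | empty => simpa using An.const (one_mem O)
  | insert a s ha ih =>
    have h1 := h a (mem_insert_self _ _)
    have h2 := ih fun i hi => h i (mem_insert_of_mem hi)
    exact (h1.mul h2).congr fun c => by rw [prod_insert ha]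

/-- `Q ^ (c)` for an additive `c` is in the class, when `Q - 1` is divisible by `ϖ`. -/
theorem An.zpow (Q : K) (hQ0 : Q ≠ 0) (hQ : ∀ e : ℤ, Q ^ e ∈ O)
    (hQ1 : ∀ e : ℤ, ∃ y ∈ O, Q ^ e - 1 = ϖ * y) (l : M →+ ℤ) :
    ∀ m : ℕ, An O ϖ m (fun c => Q ^ (l c))
  | 0 => fun c => hQ _
  | (m + 1) => ⟨fun c => hQ _, fun v => by
      obtain ⟨y, hy, hy1⟩ := hQ1 (l v)
      refine ⟨_, (An.const hy).mul (An.zpow Q hQ0 hQ hQ1 l m), fun c => ?_⟩
      beta_reduce
      rw [map_add, zpow_add₀ hQ0]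
      linear_combination Q ^ (l c) * hy1⟩

/-- Precomposition with an additive map. -/
theorem An.comp {N : Type*} [AddCommGroup N] (l : N →+ M) : ∀ {m : ℕ} {f : M → K},
    An O ϖ m f → An O ϖ m (fun c => f (l c))
  | 0, _, hf => fun c => hf (l c)
  | (_ + 1), _, hf => ⟨fun c => hf.1 (l c), fun v => by
      obtain ⟨f', hf', h1⟩ := hf.2 (l v)
      refine ⟨_, An.comp l hf', fun c => ?_⟩
      beta_reduce
      rw [map_add]
      exact h1 (l c)⟩

/-- second differences -/
theorem An.diff1 (h : An O ϖ (m + 1) f) (v : M) : ∃ g : M → K, An O ϖ m g ∧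
    ∀ c, f (c + v) - f c = ϖ * g c := h.2 v

/-- mixed second differences are divisible by `ϖ ^ 2`. -/
theorem An.diff2 (h : An O ϖ 2 f) (u v c : M) :
    ∃ y ∈ O, f (c + u + v) - f (c + u) - f (c + v) + f c = ϖ ^ 2 * y := by
  obtain ⟨g, hg, h1⟩ := h.2 v
  obtain ⟨g2, hg2, h2⟩ := hg.2 u
  refine ⟨g2 c, hg2 c, ?_⟩
  have e1 := h1 (c + u)
  have e2 := h1 c
  have e3 := h2 c
  linear_combination e1 - e2 + ϖ * e3

/-- mixed third differences are divisible by `ϖ ^ 3`. -/
theorem An.diff3 (h : An O ϖ 3 f) (u v w c : M) :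
    ∃ y ∈ O, f (c + u + v + w) - f (c + u + v) - f (c + u + w) - f (c + v + w)
      + f (c + u) + f (c + v) + f (c + w) - f c = ϖ ^ 3 * y := by
  obtain ⟨g, hg, h1⟩ := h.2 w
  obtain ⟨y, hy, h2⟩ := hg.diff2 u v c
  refine ⟨y, hy, ?_⟩
  have e1 := h1 (c + u + v)
  have e2 := h1 (c + u)
  have e3 := h1 (c + v)
  have e4 := h1 c
  linear_combination e1 - e2 - e3 + e4 + ϖ * h2

end V11316
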