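import Pool.Agent.V11316.Std2

/-!
The truncated `[4k+1]` sum with `q^{e_n(k)}`, `n ≡ 1 (mod 4)`.
-/

open Finset Polynomial

namespace V11316

open V11307.Q

noncomputable section

/-- the term over the common denominator, at `c = 0` -/
def U0 (n N k : ℕ) : RatFunc ℚ :=
  Un n N (q ^ (2 : ℤ)) (q ^ (4 : ℤ)) (q ^ (-1 : ℤ)) (fun _ : Option (Fin 2) => q ^ (2 : ℤ))
    (fun _ => q ^ (4 : ℤ)) (lS (ι := Fin 2)) k 0

theorem b125_nd {M : ℕ} (i : ℕ) (hi : i < 2 * M) : ¬ ((4 * M + 1 : ℕ) : ℤ) ∣ 4 * (i + 1) := by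
  intro h
  have hc : IsCoprime ((4 * M + 1 : ℕ) : ℤ) 4 := ⟨1, -M, by push_cast; ring⟩
  have h1 := hc.dvd_of_dvd_mul_left h
  have h2 := Int.le_of_dvd (by positivity) h1
  push_cast at h2
  omega

theorem b125_zero {M : ℕ} (hM : 0 < M) :
    GS (Fin 2) (4 * M + 1) (2 * M) (q ^ (2 : ℤ)) (q ^ (4 : ℤ)) (q ^ (-1 : ℤ)) ![-2, 1] = 0 := by
  refine Gn_zero (N := 2 * M) le_rfl (fun j => std_df_ne b125_nd _ j) (qz_ne _)
    (fun i => ?_) (fun i => ?_) (pairP (q ^ (4 : ℤ)) (q ^ (3 : ℤ)) (q ^ ((3 : ℤ) - 4 * M)) M) ?_ ?_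
  · rw [qd_pow]
    refine qz_ne_one ?_
    push_cast
    positivity
  · rw [qd_pow, ← zpow_add₀ q_ne]
    refine qz_ne_one ?_
    push_cast
    omega
  · refine lt_of_le_of_lt degree_le_natDegree ?_
    have h2 := lt_of_le_of_lt (pairP_natDegree (q ^ (4 : ℤ) : RatFunc ℚ) (q ^ (3 : ℤ))
      (q ^ ((3 : ℤ) - 4 * M)) M) (show M < 2 * M by omega)
    exact_mod_cast h2
  · intro k _
    rw [Fintype.prod_option, Fin.prod_univ_two]
    simp only [lS_none, lS_some, zpow_zero, Tk_one]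
    have m0 : (![-2, 1] : Fin 2 → ℤ) 0 = -2 := rfl
    have m1 : (![-2, 1] : Fin 2 → ℤ) 1 = 1 := rfl
    rw [m0, m1]
    have p1 := std_term (n := 4 * M + 1) (N := 2 * M) (α := 2) (d := 4) (c := -2)
      (by push_cast; ring) k
    have p2 := std_single (n := 4 * M + 1) (α := 2) (d := 4) (c := 1) (β0 := 3) (e := M)
      (by norm_num) (by push_cast; ring) (fun i => by omega) k
    rw [p1, p2]
    have e1 : (q ^ (-1 : ℤ) : RatFunc ℚ) ^ k * (q ^ ((2 : ℤ) + 4 * ((2 * M : ℕ) : ℤ))) ^ k *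
        (q ^ ((2 : ℤ) - 3)) ^ k = ((q ^ (4 : ℤ)) ^ (2 * M)) ^ k := by
      simp only [qz_pow, ← zpow_add₀ q_ne]
      congr 1
      push_cast
      ring
    rw [← e1]
    ring

theorem b125_hE (M : ℕ) : ∀ E : ℤ, 2 * E = -(((4 * M + 1 : ℕ) : ℤ) * 2 * (2 + (3 : ℕ) * ((2 * M : ℕ) : ℤ))) →
      (Even ((2 * M) * 3) ∧ ((4 * M + 1 : ℕ) : ℤ) ∣ E) ∨
        (Odd ((2 * M) * 3) ∧ ¬ ((4 * M + 1 : ℕ) : ℤ) ∣ E) := by
  intro E hE
  left
  refine ⟨⟨3 * M, by ring⟩, ⟨-(2 + 6 * M), ?_⟩⟩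
  push_cast at hE ⊢
  linarith

theorem b125_GS {M : ℕ} (hM : 0 < M) : I (4 * M + 1) 2
    (GS (Fin 2) (4 * M + 1) (2 * M) (q ^ (2 : ℤ)) (q ^ (4 : ℤ)) (q ^ (-1 : ℤ)) 0) := by
  obtain ⟨g, hg, h⟩ := GS_anti2 (ι := Fin 2) (n := 4 * M + 1) (L := 2 * M) (N := 2 * M) (r := 3)
    (α := 2) (β := 4) (ζ := -1) (s := 2) (m := 1) (by omega) le_rfl rfl (by push_cast; ring)
    (by norm_num) (b125_hE M)
  have h0 := b125_zero hM
  rw [h] at h0
  have h1 : g ![-2, 1] = 0 := (mul_eq_zero.1 h0).resolve_left (cyc_ne _)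
  obtain ⟨u, hu, hu1⟩ := hg.2 ![-2, 1]
  have h2 := hu1 0
  rw [zero_add, h1] at h2
  rw [h]
  refine ⟨-u 0, neg_mem (hu 0), ?_⟩
  linear_combination (-(cyc (4 * M + 1))) * h2

/-- insertion of the factor `Q^{k(N-k)}` -/
theorem b125_sum {M : ℕ} (hM : 0 < M) : I (4 * M + 1) 2
    (∑ k ∈ range (2 * M + 1), U0 (4 * M + 1) (2 * M) k *
      (q ^ (4 * M + 1)) ^ (k * (2 * M - k))) := by
  set n := 4 * M + 1 with hn
  have h1 := b125_GS hM
  have h2 : ∀ k ∈ range (2 * M + 1), I n 2 ((U0 n (2 * M) (2 * M - k) + U0 n (2 * M) k) *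
      ((q ^ n) ^ (k * (2 * M - k)) - 1)) := by
    intro k hk
    have hk' : k ≤ 2 * M := Nat.lt_succ_iff.1 (mem_range.1 hk)
    have e1 : I n 1 (U0 n (2 * M) (2 * M - k) + U0 n (2 * M) k) :=
      GS_rev2 (ι := Fin 2) (n := n) (L := 2 * M) (N := 2 * M) (k := k) (r := 3)
        (α := 2) (β := 4) (ζ := -1) (s := 2) (by omega) hk' le_rfl rfl (by rw [hn]; push_cast; ring)
        (by norm_num) (b125_hE M)
    have e2 : I n 1 ((q ^ n) ^ (k * (2 * M - k)) - 1 : RatFunc ℚ) := by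
      have h3 := (I_one_sub (n := n) (by omega)
        (e := (n : ℤ) * ((k * (2 * M - k) : ℕ) : ℤ)) (Dvd.intro _ rfl)).neg
      rw [neg_sub, zpow_mul, zpow_natCast, zpow_natCast] at h3
      exact h3
    exact e1.mul e2
  have h3 := I.sum h2
  have h4 : ∑ k ∈ range (2 * M + 1), (U0 n (2 * M) (2 * M - k) + U0 n (2 * M) k) *
      ((q ^ n) ^ (k * (2 * M - k)) - 1) =
      2 * ∑ k ∈ range (2 * M + 1), U0 n (2 * M) k * ((q ^ n) ^ (k * (2 * M - k)) - 1) := by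
    have e1 : ∑ k ∈ range (2 * M + 1), U0 n (2 * M) (2 * M - k) *
        ((q ^ n) ^ (k * (2 * M - k)) - 1) =
        ∑ k ∈ range (2 * M + 1), U0 n (2 * M) k * ((q ^ n) ^ (k * (2 * M - k)) - 1) := by
      rw [← sum_range_reflect (fun k => U0 n (2 * M) k * ((q ^ n) ^ (k * (2 * M - k)) - 1))]
      refine sum_congr rfl fun k hk => ?_
      have hk' : k ≤ 2 * M := Nat.lt_succ_iff.1 (mem_range.1 hk)
      rw [show 2 * M + 1 - 1 - k = 2 * M - k by omega,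
        show 2 * M - (2 * M - k) = k by omega, mul_comm (2 * M - k) k]
    rw [sum_congr rfl fun k _ => add_mul _ _ _, sum_add_distrib, e1]
    ring
  rw [h4] at h3
  have h5 := I.R_mul (half_mem (n := n)) h3
  rw [← mul_assoc, inv_mul_cancel₀ two_ne_zero, one_mul] at h5
  have h6 := h5.add h1
  refine (congrArg (I n 2) ?_).mp h6
  rw [GS, Gn, ← sum_add_distrib]
  refine sum_congr rfl fun k _ => ?_
  rw [U0]; ring

/-- the exponent `e_n(k)` -/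
def en (n k : ℕ) : ℤ := (k * ((n : ℤ) ^ 2 - 2 * n * k - n - 2)) / 4

theorem en_spec {M k : ℕ} (hk : k ≤ 2 * M) :
    2 * en (4 * M + 1) k = ((4 * M + 1 : ℕ) : ℤ) * ((k * (2 * M - k) : ℕ) : ℤ) - k := by
  have h1 : ((k * (2 * M - k) : ℕ) : ℤ) = k * (2 * M - k) := by
    rw [Nat.cast_mul, Nat.cast_sub hk]; push_cast; ring
  have h2 : (k : ℤ) * (((4 * M + 1 : ℕ) : ℤ) ^ 2 - 2 * ((4 * M + 1 : ℕ) : ℤ) * k -
      ((4 * M + 1 : ℕ) : ℤ) - 2) =
      2 * (((4 * M + 1 : ℕ) : ℤ) * (k * (2 * M - k)) - k) := by push_cast; ring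
  have h3 : Even (((4 * M + 1 : ℕ) : ℤ) * (k * (2 * M - k)) - k) := by
    have e1 : ((4 * M + 1 : ℕ) : ℤ) * (k * (2 * M - k)) - k =
        2 * (4 * M * (k * M) + M * k - 2 * M * (k * k)) - (k * (k + 1)) := by push_cast; ring
    rw [e1]
    exact (even_two_mul _).sub (Int.even_mul_succ_self k)
  obtain ⟨t, ht⟩ := h3
  rw [en, h2, h1, ht, show 2 * (t + t) = 4 * t by ring, Int.mul_ediv_cancel_left t (by norm_num)]
  ring

theorem b125_unit {M : ℕ} : ∀ i : ℕ, i < 2 * M →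
    ¬ ((4 * M + 1 : ℕ) : ℤ) ∣ 4 * (i + 1) := fun i hi => b125_nd i hi

/-- the sum of the question -/
def SB (n : ℕ) : RatFunc ℚ :=
  ∑ k ∈ range ((n - 1) / 2 + 1), (1 - q ^ (4 * k + 1)) / (1 - q) *
    (poch (q ^ 2) q k / poch (q ^ 2) (q ^ 2) k) ^ 3 * q ^ (en n k)

theorem sq_poch (B a : RatFunc ℚ) (k : ℕ) : sq (poch B a k) = poch (sq B) (sq a) k := by
  rw [poch, poch, map_prod]
  exact prod_congr rfl fun i _ => by rw [map_sub, map_one, map_mul, map_pow]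

theorem SB_cong {M : ℕ} (hM : 0 < M) : I (4 * M + 1) 2 (SB (4 * M + 1)) := by
  set n := 4 * M + 1 with hn
  have hn0 : 0 < n := by omega
  refine I_of_sq hn0 ⟨2 * M, by omega⟩ two_pos ?_
  have h1 := b125_sum hM
  rw [← hn] at h1
  -- the common denominator
  set D : RatFunc ℚ := ∏ j : Option (Fin 2), ∏ i ∈ range (2 * M),
    df n ((fun _ => q ^ (4 : ℤ)) j) (q ^ (4 : ℤ)) (lS (ι := Fin 2) j) i 0 with hD
  have hdf : ∀ (j : Option (Fin 2)) (i : ℕ), df n (q ^ (4 : ℤ)) (q ^ (4 : ℤ)) (lS (ι := Fin 2) j) i 0 =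
      1 - q ^ (4 : ℤ) * (q ^ (4 : ℤ)) ^ i := by
    intro j i; rw [df, map_zero, zpow_zero]
  have hne : ∀ j : Option (Fin 2), ∏ i ∈ range (2 * M),
      df n (q ^ (4 : ℤ)) (q ^ (4 : ℤ)) (lS (ι := Fin 2) j) i 0 ≠ 0 :=
    fun j => std_df_ne b125_nd _ j
  have hD0 : D ≠ 0 := prod_ne_zero_iff.2 fun j _ => hne j
  have hDi : D⁻¹ ∈ R n := by
    rw [hD, ← prod_inv_distrib]
    refine prod_mem fun j _ => ?_
    rw [← prod_inv_distrib]
    refine prod_mem fun i hi => ?_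
    rw [hdf]
    exact (std_unit hn0 b125_nd i (mem_range.1 hi)).2
  have hq2 : (1 - q ^ 2 : RatFunc ℚ) ≠ 0 := one_sub_ne two_pos
  have hq2i : (1 - q ^ 2 : RatFunc ℚ)⁻¹ ∈ R n := by
    refine inv_one_sub hn0 fun h => ?_
    have := Nat.le_of_dvd two_pos h
    omega
  have key : sq (SB n) = D⁻¹ * (1 - q ^ 2)⁻¹ * ∑ k ∈ range (2 * M + 1), U0 n (2 * M) k *
      (q ^ n) ^ (k * (2 * M - k)) := by
    rw [SB, map_sum, mul_sum, show (n - 1) / 2 + 1 = 2 * M + 1 by omega]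
    refine sum_congr rfl fun k hk => ?_
    have hk' : k ≤ 2 * M := Nat.lt_succ_iff.1 (mem_range.1 hk)
    have e1 : U0 n (2 * M) k = ((1 - q ^ (2 : ℤ) * (q ^ (4 : ℤ)) ^ (2 * k)) * (q ^ (-1 : ℤ)) ^ k *
        (poch (q ^ (4 : ℤ)) (q ^ (2 : ℤ)) k / poch (q ^ (4 : ℤ)) (q ^ (4 : ℤ)) k) ^ 3) * D := by
      rw [U0, Un_eq (fun j => hne j) hk']
      congr 2
      simp only [map_zero, zpow_zero, Tk_one, prod_const, card_univ, Fintype.card_option,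
        Fintype.card_fin]
    rw [e1, map_mul, map_mul, map_div₀, map_pow, map_div₀, sq_poch, sq_poch, map_zpow₀, map_sub,
      map_sub, map_one, map_pow, map_pow, sq_q]
    have e2 : (q ^ (2 : ℤ) : RatFunc ℚ) = q ^ 2 := by norm_cast
    have e3 : (q ^ (4 : ℤ) : RatFunc ℚ) = (q ^ 2) ^ 2 := by rw [← pow_mul]; norm_cast
    have e4 : ((q ^ 2 : RatFunc ℚ)) ^ (en n k) = (q ^ n) ^ (k * (2 * M - k)) * (q ^ (-1 : ℤ)) ^ k := by
      rw [← zpow_natCast q 2, ← zpow_mul, ← zpow_natCast q n, qz_pow, qz_pow, ← zpow_add₀ q_ne]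
      congr 1
      have := en_spec hk'
      rw [← hn] at this
      push_cast at this ⊢
      linear_combination this
    have e5 : (q ^ (2 : ℤ) : RatFunc ℚ) * (q ^ (4 : ℤ)) ^ (2 * k) = (q ^ 2) ^ (4 * k + 1) := by
      rw [e2, e3, ← pow_mul, ← pow_mul, ← pow_mul, ← pow_add]; congr 1; ring
    rw [e4, e5, e2, e3]
    field_simp
  rw [key]
  exact I.R_mul (mul_mem hDi hq2i) h1

end

end V11316
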