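import Pool.Agent.Y840.CT.LowF
import Pool.Agent.Y843.AC.Top

/-!
# Chen's theorem inside sifted sets: the exact order and the number of progressions
-/

set_option autoImplicit false

namespace Pool.Agent.V11316.CP

open Finset Filter
open Pool.Agent.Y843.HS (Pr VV Pr_mem Pr_prime VV_split Sv)
open Pool.Agent.Y843.HG (Z0)
open Pool.Agent.Y843.CH (hr hr_lt hr_eq_iff)
open Pool.Agent.Y840.CT (Rough SysF GoodF VF rho OmF OmH Z0_OmF card_Z0F VF_eq VF_mono VF_low OmH_le OmH_card genF)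
open Pool.Agent.Y843.AC (APs OK Av upa_all cnt_all conv_all aps_one)

/-- scales -/
theorem scale (t : ℕ) (ht : 1 ≤ t) (θ : ℝ) (hθ : 0 < θ) : ∃ X₀ : ℕ, ∀ X : ℕ, X₀ ≤ X → ∀ W : ℕ,
    θ * X ≤ W → (X : ℝ) ≤ ((⌊(W : ℝ) ^ (1 / (t : ℝ))⌋₊ : ℕ) : ℝ) ^ (4 * t) := by
  have ht0 : (0 : ℝ) < t := by exact_mod_cast ht
  have e1 : ∀ᶠ X : ℕ in atTop, 1 / θ ≤ (X : ℝ) ^ (1 / 2 : ℝ) :=
    ((tendsto_rpow_atTop (show (0 : ℝ) < 1 / 2 by norm_num)).comp
      tendsto_natCast_atTop_atTop).eventually (eventually_ge_atTop (1 / θ))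
  have e2 : ∀ᶠ X : ℕ in atTop, (2 : ℝ) ≤ (X : ℝ) ^ (1 / (4 * t : ℝ)) :=
    ((tendsto_rpow_atTop (show (0 : ℝ) < 1 / (4 * t) by positivity)).comp
      tendsto_natCast_atTop_atTop).eventually (eventually_ge_atTop 2)
  obtain ⟨X₀, h⟩ := eventually_atTop.1 (e1.and (e2.and (eventually_ge_atTop 1)))
  refine ⟨X₀, fun X hX W hW => ?_⟩
  obtain ⟨h1, h2, h3⟩ := h X hX
  have hX0 : (0 : ℝ) < X := by exact_mod_cast h3
  set u := (X : ℝ) ^ (1 / (4 * t : ℝ)) with hu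
  have hu0 : 0 < u := Real.rpow_pos_of_pos hX0 _
  have hu4 : u ^ (4 * t) = X := by
    rw [hu, ← Real.rpow_natCast, ← Real.rpow_mul hX0.le]
    have : (1 / (4 * t : ℝ)) * ((4 * t : ℕ) : ℝ) = 1 := by
      push_cast
      field_simp
    rw [this, Real.rpow_one]
  have hW1 : (X : ℝ) ^ (1 / 2 : ℝ) ≤ W := by
    refine le_trans ?_ hW
    have h4 : (X : ℝ) = (X : ℝ) ^ (1 / 2 : ℝ) * (X : ℝ) ^ (1 / 2 : ℝ) := by
      rw [← Real.rpow_add hX0]
      norm_num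
    have h5 : 1 ≤ θ * (X : ℝ) ^ (1 / 2 : ℝ) := by
      rw [div_le_iff₀ hθ] at h1
      linarith
    have h6 := Real.rpow_pos_of_pos hX0 (1 / 2 : ℝ)
    calc (X : ℝ) ^ (1 / 2 : ℝ) = 1 * (X : ℝ) ^ (1 / 2 : ℝ) := (one_mul _).symm
      _ ≤ (θ * (X : ℝ) ^ (1 / 2 : ℝ)) * (X : ℝ) ^ (1 / 2 : ℝ) := mul_le_mul_of_nonneg_right h5 h6.le
      _ = θ * ((X : ℝ) ^ (1 / 2 : ℝ) * (X : ℝ) ^ (1 / 2 : ℝ)) := by ring
      _ = θ * X := by rw [← h4]
  have hW2 : u ^ 2 ≤ (W : ℝ) ^ (1 / (t : ℝ)) := by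
    have h6 : ((X : ℝ) ^ (1 / 2 : ℝ)) ^ (1 / (t : ℝ)) ≤ (W : ℝ) ^ (1 / (t : ℝ)) :=
      Real.rpow_le_rpow (by positivity) hW1 (by positivity)
    refine le_trans (le_of_eq ?_) h6
    rw [hu, ← Real.rpow_natCast, ← Real.rpow_mul hX0.le, ← Real.rpow_mul hX0.le]
    congr 1
    push_cast
    field_simp
    norm_num
  have hfl : u ≤ ((⌊(W : ℝ) ^ (1 / (t : ℝ))⌋₊ : ℕ) : ℝ) := by
    have h7 := Nat.lt_floor_add_one ((W : ℝ) ^ (1 / (t : ℝ)))
    nlinarith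
  calc (X : ℝ) = u ^ (4 * t) := hu4.symm
    _ ≤ _ := pow_le_pow_left₀ hu0.le hfl _

theorem log_one {n : ℕ} (hn : 3 ≤ n) : 1 ≤ Real.log n := by
  have h1 : Real.exp 1 ≤ n := by
    have h2 : (3 : ℝ) ≤ n := by exact_mod_cast hn
    linarith [Real.exp_one_lt_d9]
  rw [← Real.log_exp 1]
  exact Real.log_le_log (Real.exp_pos 1) h1

/-- the classes are admissible -/
theorem zok {r X : ℕ} {F : ℕ → Finset ℤ} {h0 : ℤ} (S : SysF r X F h0) {p : ℕ} (hp : p.Prime) :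
    (Z0 (OmF F) p).card ≤ r + 1 ∧ (Z0 (OmF F) p).card < p ∧ ∀ c ∈ Z0 (OmF F) p, c < p := by
  refine ⟨?_, ?_, ?_⟩
  · have := OmH_le (F p) p
    have h4 := S.card p hp
    have h5 := OmH_card (F p) hp.pos
    rw [card_Z0F F hp.pos]
    omega
  · rw [card_Z0F F hp.pos]
    exact S.loc p hp
  · intro x hx
    rw [Z0_OmF, mem_insert, mem_image] at hx
    rcases hx with rfl | ⟨y, _, rfl⟩
    · exact hp.pos
    · exact hr_lt y hp.pos

/-- the good primes avoid the classes -/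
theorem avoid {t X A B : ℕ} {F : ℕ → Finset ℤ} {h0 : ℤ} {n : ℕ} (hn : n ∈ GoodF t X A B F h0) {p : ℕ}
    (hp : p.Prime) (hpX : (p : ℝ) ≤ (X : ℝ) ^ (1 / (t : ℝ))) : n % p ∉ Z0 (OmF F) p := by
  classical
  intro hcon
  unfold GoodF at hn
  rw [mem_filter, mem_Ioc] at hn
  obtain ⟨-, n1, n2, -, n3⟩ := hn
  rw [Z0_OmF, mem_insert, mem_image] at hcon
  rcases hcon with h5 | ⟨y, hy, h5⟩
  · have h6 := (Nat.prime_dvd_prime_iff_eq hp n1).1 (Nat.dvd_of_mod_eq_zero h5)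
    rw [h6] at hpX
    linarith
  · have h6 : (p : ℤ) ∣ y - n := by
      have h7 : hr y p = hr (n : ℤ) p := by
        rw [Pool.Agent.Y843.CH.hr_nat n hp.pos]
        exact h5
      rw [hr_eq_iff _ _ hp.pos] at h7
      exact Int.modEq_iff_dvd.1 h7.symm
    exact n3 p hp hpX y hy h6

theorem floor_le {t X W : ℕ} (ht : 1 ≤ t) (hW : 1 ≤ W) (hWX : W ≤ X) :
    ⌊(W : ℝ) ^ (1 / (t : ℝ))⌋₊ ≤ X := by
  have ht0 : (0 : ℝ) < t := by exact_mod_cast ht
  have hXr : (1 : ℝ) ≤ W := by exact_mod_cast hW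
  have h2 : (W : ℝ) ^ (1 / (t : ℝ)) ≤ W := by
    have := Real.rpow_le_rpow_of_exponent_le hXr (show 1 / (t : ℝ) ≤ 1 by
      rw [div_le_one ht0]
      exact_mod_cast ht)
    rwa [Real.rpow_one] at this
  have := Nat.floor_le_floor h2
  rw [Nat.floor_natCast] at this
  exact this.trans hWX

/-- comparison of the sieve products -/
theorem V_cmp (r t : ℕ) (ht : 1 ≤ t) : ∃ c : ℝ, 0 < c ∧ ∀ θ : ℝ, 0 < θ → ∃ X₀ : ℕ, ∀ X : ℕ, X₀ ≤ X →
    ∀ (F : ℕ → Finset ℤ) (h0 : ℤ), SysF r X F h0 → ∀ W : ℕ, W ≤ X → θ * X ≤ W →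
      VF F X ≤ VV (Z0 (OmF F)) 0 ⌊(W : ℝ) ^ (1 / (t : ℝ))⌋₊ ∧
      c * VV (Z0 (OmF F)) 0 ⌊(W : ℝ) ^ (1 / (t : ℝ))⌋₊ ≤ VF F X := by
  obtain ⟨c, hc, R₀, hD⟩ := Pool.Agent.Y79.HS.den (r + 1) (4 * t)
  refine ⟨c, hc, fun θ hθ => ?_⟩
  obtain ⟨X₁, h1⟩ := scale t ht θ hθ
  refine ⟨max X₁ (R₀ ^ (4 * t) + 1), fun X hX F h0 S W hWX hW => ?_⟩
  have hX1 : X₁ ≤ X := (le_max_left _ _).trans hX
  have hX2 : R₀ ^ (4 * t) + 1 ≤ X := (le_max_right _ _).trans hX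
  have hXp : (0 : ℝ) < X := by
    have : 0 < X := by omega
    exact_mod_cast this
  have hWp : 1 ≤ W := by
    have h2 : (0 : ℝ) < W := lt_of_lt_of_le (by positivity) hW
    have : 0 < W := by exact_mod_cast h2
    omega
  obtain ⟨Y, hY⟩ : ∃ Y : ℕ, Y = ⌊(W : ℝ) ^ (1 / (t : ℝ))⌋₊ := ⟨_, rfl⟩
  have h2 := h1 X hX1 W hW
  have hYX : Y ≤ X := by
    rw [hY]
    exact floor_le ht hWp hWX
  rw [← hY] at h2 ⊢
  have h3 : X ≤ Y ^ (4 * t) := by exact_mod_cast h2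
  have h4 : R₀ ≤ Y := by
    by_contra hcon
    push Not at hcon
    have := Nat.pow_le_pow_left hcon.le (4 * t)
    omega
  have h5 : c ≤ VV (Z0 (OmF F)) Y X := by
    apply hD Y X h4 h3
    intro p hp
    have := zok S (Pr_prime hp)
    exact ⟨this.1, this.2.2⟩
  have h6 := VF_mono S.loc hYX
  have h7 : VV (Z0 (OmF F)) 0 Y * VV (Z0 (OmF F)) Y X = VF F X := by
    rw [VV_split (Z0 (OmF F)) (Nat.zero_le Y) hYX, VF_eq]
  have h8 : 0 ≤ VV (Z0 (OmF F)) 0 Y := by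
    rw [← VF_eq]
    exact (VF_mono S.loc le_rfl).2
  rw [VF_eq F Y] at h6
  refine ⟨h6.1, ?_⟩
  rw [← h7, mul_comm]
  exact mul_le_mul_of_nonneg_left h5 h8

theorem window {A B : ℕ} {x : ℝ} (hx : 0 < x) (h : x ≤ (B : ℝ) - A) :
    A ≤ B ∧ ((B - A : ℕ) : ℝ) = (B : ℝ) - A ∧ A + (B - A) = B := by
  have h1 : A ≤ B := by
    have : (A : ℝ) ≤ B := by linarith
    exact_mod_cast this
  exact ⟨h1, Nat.cast_sub h1, by omega⟩

/-- **The exact order of the number of the good primes, and of the number of the progressions.** -/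
theorem core (r : ℕ) : ∃ t : ℕ, 1 ≤ t ∧ ∃ c C : ℝ, 0 < c ∧ 0 < C ∧
    (∀ θ : ℝ, 0 < θ → ∃ X₀ : ℕ, ∀ X : ℕ, X₀ ≤ X → ∀ (F : ℕ → Finset ℤ) (h0 : ℤ), SysF r X F h0 →
      c / Real.log X ^ (r + 1) ≤ VF F X ∧
      ∀ A B : ℕ, B ≤ X → θ * X ≤ (B : ℝ) - A →
        c * (((B : ℝ) - A) * VF F X) ≤ ((GoodF t X A B F h0).card : ℝ) ∧
        ((GoodF t X A B F h0).card : ℝ) ≤ C * (((B : ℝ) - A) * VF F X)) ∧
    (∀ k : ℕ, 1 ≤ k → ∀ δ : ℝ, 0 < δ → ∃ c' C' : ℝ, 0 < c' ∧ 0 < C' ∧ ∃ b : ℕ, ∀ θ : ℝ, 0 < θ →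
      ∃ X₀ : ℕ, ∀ X : ℕ, X₀ ≤ X → ∀ (F : ℕ → Finset ℤ) (h0 : ℤ), SysF r X F h0 → ∀ A B : ℕ, B ≤ X →
      θ * X ≤ (B : ℝ) - A → ∀ D : ℕ, Real.log X ^ b ≤ D → (D : ℝ) ≤ (B : ℝ) - A →
      ∀ S : Finset ℕ, S ⊆ GoodF t X A B F h0 →
        ((APs k D S).card : ℝ) ≤ C' * (((B : ℝ) - A) * D * VF F X ^ k) ∧
        (δ * ((GoodF t X A B F h0).card : ℝ) ≤ S.card →
          c' * (((B : ℝ) - A) * D * VF F X ^ k) ≤ ((APs k D S).card : ℝ)) ∧
        (δ * (((B : ℝ) - A) * D * VF F X ^ k) ≤ ((APs k D S).card : ℝ) →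
          c' * ((GoodF t X A B F h0).card : ℝ) ≤ S.card)) := by
  classical
  obtain ⟨t, ht, c, hc, H1, -⟩ := genF r
  have ht0 : (0 : ℝ) < t := by exact_mod_cast ht
  have hκ : (0 : ℝ) < 1 / (t : ℝ) := by positivity
  obtain ⟨cV, hcV, hV⟩ := VF_low r
  obtain ⟨cD, hcD, hD⟩ := V_cmp r t ht
  obtain ⟨C1, hC1, B1, Y1, hU1⟩ := upa_all (r + 1) 1 (1 / (t : ℝ)) le_rfl hκ
  have hgrow : ∀ (θ : ℝ), 0 < θ → ∀ N : ℕ, ∃ X₀ : ℕ, ∀ X : ℕ, X₀ ≤ X → ∀ W : ℕ, θ * X ≤ W → N ≤ W := by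
    intro θ hθ N
    refine ⟨⌈(N : ℝ) / θ⌉₊, fun X hX W hW => ?_⟩
    have h1 : (N : ℝ) / θ ≤ X := (Nat.le_ceil _).trans (by exact_mod_cast hX)
    rw [div_le_iff₀ hθ] at h1
    have : (N : ℝ) ≤ W := by linarith
    exact_mod_cast this
  -- the basic upper bound
  have hup : ∀ θ : ℝ, 0 < θ → ∃ X₀ : ℕ, ∀ X : ℕ, X₀ ≤ X → ∀ (F : ℕ → Finset ℤ) (h0 : ℤ),
      SysF r X F h0 → ∀ A B : ℕ, B ≤ X → θ * X ≤ (B : ℝ) - A →
      ((GoodF t X A B F h0).card : ℝ) ≤ C1 / cD * (((B : ℝ) - A) * VF F X) := by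
    intro θ hθ
    obtain ⟨X₁, h1⟩ := hD θ hθ
    obtain ⟨X₂, h2⟩ := hgrow θ hθ (max Y1 3)
    refine ⟨max (max X₁ X₂) 1, fun X hX F h0 S A B hBX hAB => ?_⟩
    have hXp : (0 : ℝ) < X := by exact_mod_cast (show 0 < X from (le_max_right _ _).trans hX)
    obtain ⟨w1, w2, w3⟩ := window (by positivity) hAB
    obtain ⟨W, hWdef⟩ : ∃ W : ℕ, W = B - A := ⟨_, rfl⟩
    rw [← hWdef] at w2 w3
    rw [← w2] at hAB ⊢
    have hW := h2 X (le_trans (le_trans (le_max_right _ _) (le_max_left _ _)) hX) W hAB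
    have hWY : Y1 ≤ W := (le_max_left _ _).trans hW
    have hW3 : 3 ≤ W := (le_max_right _ _).trans hW
    have hWX : W ≤ X := by omega
    have hcmp := h1 X (le_trans (le_trans (le_max_left _ _) (le_max_left _ _)) hX) F h0 S W hWX hAB
    obtain ⟨D, hDdef⟩ : ∃ D : ℕ, D = max 1 ⌈Real.log W ^ B1⌉₊ := ⟨_, rfl⟩
    have hD1 : 1 ≤ D := by rw [hDdef]; exact le_max_left _ _
    have hDlog : Real.log W ^ B1 ≤ D := by
      rw [hDdef]
      exact (Nat.le_ceil _).trans (by exact_mod_cast le_max_right _ _)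
    have h3 := hU1 W A D hWY hDlog (Z0 (OmF F)) (fun p hp _ => zok S hp) (GoodF t X A B F h0) (by
        intro n hn
        unfold GoodF at hn
        rw [mem_filter] at hn
        rw [w3]
        exact hn.1) (by
        intro n hn p hp hpW
        refine avoid hn hp (hpW.trans ?_)
        exact Real.rpow_le_rpow (Nat.cast_nonneg _) (by exact_mod_cast hWX) hκ.le)
    rw [aps_one, pow_one] at h3
    push_cast at h3
    have hDr : (0 : ℝ) < D := by exact_mod_cast hD1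
    have h4 : ((GoodF t X A B F h0).card : ℝ) ≤ C1 * W * VV (Z0 (OmF F)) 0 ⌊(W : ℝ) ^ (1 / (t : ℝ))⌋₊ := by
      have h5 : ((GoodF t X A B F h0).card : ℝ) * D ≤
          (C1 * W * VV (Z0 (OmF F)) 0 ⌊(W : ℝ) ^ (1 / (t : ℝ))⌋₊) * D := by
        refine h3.trans (le_of_eq ?_)
        ring
      exact le_of_mul_le_mul_right h5 hDr
    refine h4.trans ?_
    have h6 : VV (Z0 (OmF F)) 0 ⌊(W : ℝ) ^ (1 / (t : ℝ))⌋₊ ≤ VF F X / cD := by
      rw [le_div_iff₀ hcD, mul_comm]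
      exact hcmp.2
    calc C1 * W * VV (Z0 (OmF F)) 0 ⌊(W : ℝ) ^ (1 / (t : ℝ))⌋₊ ≤ C1 * W * (VF F X / cD) :=
          mul_le_mul_of_nonneg_left h6 (by positivity)
      _ = C1 / cD * (W * VF F X) := by ring
  refine ⟨t, ht, min c cV, C1 / cD, by positivity, by positivity, ?_, ?_⟩
  · intro θ hθ
    obtain ⟨X₁, h1⟩ := H1 θ hθ
    obtain ⟨X₂, h2⟩ := hup θ hθ
    refine ⟨max (max X₁ X₂) 2, fun X hX F h0 S => ?_⟩
    have hX2 : 2 ≤ X := (le_max_right _ _).trans hX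
    have hlX : 0 < Real.log X := Real.log_pos (by exact_mod_cast (by omega : 1 < X))
    have hVl := hV X hX2 F S.card S.loc
    have hV0 : 0 ≤ VF F X := (VF_mono S.loc le_rfl).2
    refine ⟨?_, fun A B hBX hAB => ⟨?_, ?_⟩⟩
    · refine le_trans ?_ hVl
      exact div_le_div_of_nonneg_right (min_le_right _ _) (by positivity)
    · have h3 := h1 X (le_trans (le_trans (le_max_left _ _) (le_max_left _ _)) hX) F h0 S A B hBX hAB
      refine le_trans ?_ h3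
      have hBA : 0 ≤ (B : ℝ) - A := le_trans (by positivity) hAB
      rw [mul_assoc]
      exact mul_le_mul_of_nonneg_right (min_le_left _ _) (by positivity)
    · exact h2 X (le_trans (le_trans (le_max_right _ _) (le_max_left _ _)) hX) F h0 S A B hBX hAB
  · intro k hk δ hδ
    obtain ⟨Cu, hCu, Bu, Yu, hU⟩ := upa_all (r + 1) k (1 / (t : ℝ)) hk hκ
    obtain ⟨cl, hcl, Bl, Yl, hL⟩ := cnt_all (r + 1) k (1 / (t : ℝ)) (δ * (c * cD)) hk hκ (by positivity)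
    obtain ⟨cv, hcv, Bv, Yv, hVV⟩ := conv_all (r + 1) k (1 / (t : ℝ)) (δ * cD ^ k) hk hκ (by positivity)
    refine ⟨min cl (cv / (C1 / cD)), Cu / cD ^ k, by positivity, by positivity, max Bu (max Bl Bv), ?_⟩
    intro θ hθ
    obtain ⟨X₁, h1⟩ := hD θ hθ
    obtain ⟨X₂, h2⟩ := hgrow θ hθ (max (max Yu Yl) (max Yv 3))
    obtain ⟨X₃, h3⟩ := H1 θ hθ
    obtain ⟨X₄, h4⟩ := hup θ hθ
    refine ⟨max (max X₁ X₂) (max X₃ (max X₄ 3)), fun X hX F h0 S' A B hBX hAB D hD1 hD2 S hS => ?_⟩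
    have a1 : X₁ ≤ X := le_trans (le_trans (le_max_left _ _) (le_max_left _ _)) hX
    have a2 : X₂ ≤ X := le_trans (le_trans (le_max_right _ _) (le_max_left _ _)) hX
    have a3 : X₃ ≤ X := le_trans (le_trans (le_max_left _ _) (le_max_right _ _)) hX
    have a4 : X₄ ≤ X := le_trans (le_trans (le_trans (le_max_left _ _) (le_max_right _ _))
      (le_max_right _ _)) hX
    have a5 : 3 ≤ X := le_trans (le_trans (le_trans (le_max_right _ _) (le_max_right _ _))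
      (le_max_right _ _)) hX
    have hXp : (0 : ℝ) < X := by exact_mod_cast (by omega : 0 < X)
    obtain ⟨w1, w2, w3⟩ := window (by positivity) hAB
    have hlow := h3 X a3 F h0 S' A B hBX hAB
    have hhigh := h4 X a4 F h0 S' A B hBX hAB
    obtain ⟨W, hWdef⟩ : ∃ W : ℕ, W = B - A := ⟨_, rfl⟩
    rw [← hWdef] at w2 w3
    rw [← w2] at hAB hD2 hlow hhigh ⊢
    have hW := h2 X a2 W hAB
    have hWu : Yu ≤ W := le_trans (le_trans (le_max_left _ _) (le_max_left _ _)) hW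
    have hWl : Yl ≤ W := le_trans (le_trans (le_max_right _ _) (le_max_left _ _)) hW
    have hWv : Yv ≤ W := le_trans (le_trans (le_max_left _ _) (le_max_right _ _)) hW
    have hW3 : 3 ≤ W := le_trans (le_trans (le_max_right _ _) (le_max_right _ _)) hW
    have hWX : W ≤ X := by omega
    have hWp : (0 : ℝ) < W := by exact_mod_cast (by omega : 0 < W)
    obtain ⟨hc1, hc2⟩ := h1 X a1 F h0 S' W hWX hAB
    obtain ⟨v, hv⟩ : ∃ v : ℝ, v = VV (Z0 (OmF F)) 0 ⌊(W : ℝ) ^ (1 / (t : ℝ))⌋₊ := ⟨_, rfl⟩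
    have hV0 : 0 ≤ VF F X := (VF_mono S'.loc le_rfl).2
    have hv0 : 0 ≤ v := by
      rw [hv]
      exact hV0.trans hc1
    have hlW : 0 ≤ Real.log (W : ℝ) := Real.log_nonneg (by exact_mod_cast (by omega : 1 ≤ W))
    have hlWX : Real.log (W : ℝ) ≤ Real.log X := Real.log_le_log hWp (by exact_mod_cast hWX)
    have hlX : 1 ≤ Real.log (X : ℝ) := log_one a5
    have hlog : ∀ e : ℕ, e ≤ max Bu (max Bl Bv) → Real.log (W : ℝ) ^ e ≤ D := by
      intro e he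
      calc Real.log (W : ℝ) ^ e ≤ Real.log X ^ e := pow_le_pow_left₀ hlW hlWX e
        _ ≤ Real.log X ^ (max Bu (max Bl Bv)) := pow_le_pow_right₀ hlX he
        _ ≤ D := hD1
    have hD0 : (0 : ℝ) ≤ D := Nat.cast_nonneg _
    have hok : OK (r + 1) (1 / (t : ℝ)) W (Z0 (OmF F)) := fun p hp _ => zok S' hp
    have hSsub : S ⊆ Ioc A (A + W) := by
      intro n hn
      have := hS hn
      unfold GoodF at this
      rw [mem_filter] at this
      rw [w3]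
      exact this.1
    have hAv : ∀ n ∈ S, Av (1 / (t : ℝ)) W (Z0 (OmF F)) n := by
      intro n hn p hp hpW
      refine avoid (hS hn) hp (hpW.trans ?_)
      exact Real.rpow_le_rpow (Nat.cast_nonneg _) (by exact_mod_cast hWX) hκ.le
    have gU := hU W A D hWu (hlog Bu (le_max_left _ _)) (Z0 (OmF F)) hok S hSsub hAv
    have gL := hL W A D hWl (hlog Bl ((le_max_left _ _).trans (le_max_right _ _)))
      (by exact_mod_cast hD2) (Z0 (OmF F)) hok S hSsub hAv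
    have gV := hVV W A D hWv (hlog Bv ((le_max_right _ _).trans (le_max_right _ _)))
      (Z0 (OmF F)) hok S hSsub hAv
    rw [← hv] at gU gL gV hc1 hc2
    refine ⟨?_, ?_, ?_⟩
    · refine gU.trans ?_
      have h5 : v ^ k ≤ (VF F X / cD) ^ k := by
        apply pow_le_pow_left₀ hv0
        rw [le_div_iff₀ hcD, mul_comm]
        exact hc2
      calc Cu * W * D * v ^ k ≤ Cu * W * D * (VF F X / cD) ^ k :=
            mul_le_mul_of_nonneg_left h5 (by positivity)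
        _ = Cu / cD ^ k * (W * D * VF F X ^ k) := by
            rw [div_pow]
            ring
    · intro hSc
      have h5 : δ * (c * cD) * W * v ≤ (S.card : ℝ) := by
        refine le_trans ?_ hSc
        have h6 : c * W * (cD * v) ≤ c * W * VF F X := mul_le_mul_of_nonneg_left hc2 (by positivity)
        calc δ * (c * cD) * W * v = δ * (c * W * (cD * v)) := by ring
          _ ≤ δ * (c * W * VF F X) := mul_le_mul_of_nonneg_left h6 hδ.le
          _ ≤ δ * ((GoodF t X A B F h0).card : ℝ) := mul_le_mul_of_nonneg_left hlow hδ.le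
      refine le_trans ?_ (gL h5)
      have h6 : VF F X ^ k ≤ v ^ k := pow_le_pow_left₀ hV0 hc1 k
      calc min cl (cv / (C1 / cD)) * (W * D * VF F X ^ k) ≤ cl * (W * D * VF F X ^ k) :=
            mul_le_mul_of_nonneg_right (min_le_left _ _) (by positivity)
        _ ≤ cl * (W * D * v ^ k) := by
            apply mul_le_mul_of_nonneg_left _ hcl.le
            exact mul_le_mul_of_nonneg_left h6 (by positivity)
        _ = cl * W * D * v ^ k := by ring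
    · intro hSc
      have h5 : δ * cD ^ k * W * D * v ^ k ≤ ((APs k D S).card : ℝ) := by
        refine le_trans ?_ hSc
        have h6 : (cD * v) ^ k ≤ VF F X ^ k := pow_le_pow_left₀ (by positivity) hc2 k
        calc δ * cD ^ k * W * D * v ^ k = δ * (W * D * (cD * v) ^ k) := by
              rw [mul_pow]
              ring
          _ ≤ δ * (W * D * VF F X ^ k) := by
              apply mul_le_mul_of_nonneg_left _ hδ.le
              exact mul_le_mul_of_nonneg_left h6 (by positivity)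
      refine le_trans ?_ (gV h5)
      have h7 : cv * (W * VF F X) ≤ cv * W * v := by
        rw [mul_assoc]
        apply mul_le_mul_of_nonneg_left _ hcv.le
        exact mul_le_mul_of_nonneg_left hc1 hWp.le
      refine le_trans ?_ h7
      have h8 : (0 : ℝ) < C1 / cD := by positivity
      calc min cl (cv / (C1 / cD)) * ((GoodF t X A B F h0).card : ℝ)
          ≤ cv / (C1 / cD) * ((GoodF t X A B F h0).card : ℝ) :=
            mul_le_mul_of_nonneg_right (min_le_right _ _) (Nat.cast_nonneg _)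
        _ ≤ cv / (C1 / cD) * (C1 / cD * (W * VF F X)) :=
            mul_le_mul_of_nonneg_left hhigh (by positivity)
        _ = cv * (W * VF F X) := by
            field_simp

end Pool.Agent.V11316.CP
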