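import Pool.Agent.V11316.CP1

/-!
# Chen's theorem with the values of a polynomial at the primes
-/

set_option autoImplicit false

namespace Pool.Agent.V11316.CP

open Finset Filter
open Pool.Agent.Y840.CT (Rough SysF GoodF VF rho)
open Pool.Agent.Y843.AC (APs)

/-- the classes counted by `rho` -/
theorem rho_gen (H : Finset ℤ) {q : ℕ} (hq : 0 < q) : rho H q =
    ((range q).filter (fun x : ℕ => (q : ℤ) ∣ (x : ℤ) ∨ ∃ a ∈ H, (q : ℤ) ∣ a - x)).card := by
  classical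
  have hq0 : (0 : ℤ) < q := by exact_mod_cast hq
  unfold rho
  rw [← card_map (⟨((↑) : ℕ → ℤ), Nat.cast_injective⟩ : ℕ ↪ ℤ)]
  congr 1
  ext y
  rw [mem_image, Finset.mem_map]
  constructor
  · rintro ⟨h, hh, rfl⟩
    have h1 := Int.emod_nonneg h hq0.ne'
    have h2 := Int.emod_lt_of_pos h hq0
    have h3 : (((h % q).toNat : ℕ) : ℤ) = h % q := Int.toNat_of_nonneg h1
    refine ⟨(h % q).toNat, ?_, h3⟩
    rw [mem_filter, mem_range]
    refine ⟨?_, ?_⟩
    · zify
      rw [h3]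
      exact h2
    · rw [h3]
      rw [mem_insert] at hh
      rcases hh with rfl | hh
      · left
        simp
      · right
        exact ⟨h, hh, Int.dvd_self_sub_emod⟩
  · rintro ⟨x, hx, rfl⟩
    rw [mem_filter, mem_range] at hx
    obtain ⟨hx1, hx2⟩ := hx
    have hxm : (x : ℤ) % q = x := Int.emod_eq_of_lt (by positivity) (by exact_mod_cast hx1)
    show ∃ a ∈ insert 0 H, a % (q : ℤ) = (x : ℤ)
    rcases hx2 with h3 | ⟨a, ha, h3⟩
    · refine ⟨0, mem_insert_self _ _, ?_⟩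
      have := Int.emod_eq_zero_of_dvd h3
      rw [hxm] at this
      rw [this]
      simp
    · refine ⟨a, mem_insert_of_mem ha, ?_⟩
      have h4 := (Int.modEq_iff_dvd.2 h3 : (x : ℤ) ≡ a [ZMOD q])
      unfold Int.ModEq at h4
      rw [← h4, hxm]

/-- no local obstruction -/
theorem rho_lt {H : Finset ℤ} {q : ℕ} (hq : 0 < q) (y : ℤ) (h1 : ¬ (q : ℤ) ∣ y)
    (h2 : ∀ a ∈ H, ¬ (q : ℤ) ∣ a - y) : rho H q < q := by
  classical
  have hq0 : (0 : ℤ) < q := by exact_mod_cast hq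
  rw [rho_gen H hq]
  have e1 := Int.emod_nonneg y hq0.ne'
  have e2 := Int.emod_lt_of_pos y hq0
  have e3 : (((y % q).toNat : ℕ) : ℤ) = y % q := Int.toNat_of_nonneg e1
  have hmem : (y % q).toNat ∈ range q := by
    rw [mem_range]
    zify
    rw [e3]
    exact e2
  have hd : (q : ℤ) ∣ y - y % q := Int.dvd_self_sub_emod
  have hss : (range q).filter (fun x : ℕ => (q : ℤ) ∣ (x : ℤ) ∨ ∃ a ∈ H, (q : ℤ) ∣ a - x) ⊂ range q := by
    rw [filter_ssubset]
    refine ⟨_, hmem, ?_⟩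
    rw [e3]
    rintro (h | ⟨a, ha, h⟩)
    · apply h1
      have := dvd_add hd h
      simpa using this
    · apply h2 a ha
      have := dvd_sub h hd
      have e : a - y % q - (y - y % q) = a - y := by ring
      rwa [e] at this
  have := card_lt_card hss
  rwa [card_range] at this

/-- the number of the roots of a polynomial modulo `q` -/
theorem card_roots_le (f : Polynomial ℤ) {q : ℕ} (hq : q.Prime) (hf : ∃ x : ℤ, ¬ (q : ℤ) ∣ f.eval x) :
    ((range q).filter (fun x : ℕ => (q : ℤ) ∣ f.eval (x : ℤ))).card ≤ f.natDegree := by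
  classical
  haveI : Fact q.Prime := ⟨hq⟩
  obtain ⟨g, hg⟩ : ∃ g : Polynomial (ZMod q), g = f.map (Int.castRingHom (ZMod q)) := ⟨_, rfl⟩
  have hev : ∀ x : ℤ, g.eval ((x : ℤ) : ZMod q) = ((f.eval x : ℤ) : ZMod q) := by
    intro x
    rw [hg]
    have := Polynomial.eval_intCast_map (Int.castRingHom (ZMod q)) f x
    simpa using this
  have hg0 : g ≠ 0 := by
    obtain ⟨x, hx⟩ := hf
    intro h0
    apply hx
    have h1 := hev x
    rw [h0, Polynomial.eval_zero] at h1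
    exact (ZMod.intCast_zmod_eq_zero_iff_dvd _ _).1 h1.symm
  have hsub : ((range q).filter (fun x : ℕ => (q : ℤ) ∣ f.eval (x : ℤ))).image
      (fun x : ℕ => (x : ZMod q)) ⊆ g.roots.toFinset := by
    intro y hy
    rw [mem_image] at hy
    obtain ⟨x, hx, rfl⟩ := hy
    rw [mem_filter] at hx
    rw [Multiset.mem_toFinset, Polynomial.mem_roots hg0, Polynomial.IsRoot.def]
    have h1 := hev (x : ℤ)
    rw [Int.cast_natCast] at h1
    rw [h1]
    exact (ZMod.intCast_zmod_eq_zero_iff_dvd _ _).2 hx.2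
  have hinj : Set.InjOn (fun x : ℕ => (x : ZMod q))
      (((range q).filter (fun x : ℕ => (q : ℤ) ∣ f.eval (x : ℤ)) : Finset ℕ) : Set ℕ) := by
    intro a ha b hb hab
    rw [mem_coe, mem_filter, mem_range] at ha hb
    have := (ZMod.natCast_eq_natCast_iff' a b q).1 hab
    rwa [Nat.mod_eq_of_lt ha.1, Nat.mod_eq_of_lt hb.1] at this
  calc ((range q).filter (fun x : ℕ => (q : ℤ) ∣ f.eval (x : ℤ))).card =
        (((range q).filter (fun x : ℕ => (q : ℤ) ∣ f.eval (x : ℤ))).image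
          (fun x : ℕ => (x : ZMod q))).card := (card_image_of_injOn hinj).symm
    _ ≤ g.roots.toFinset.card := card_le_card hsub
    _ ≤ Multiset.card g.roots := Multiset.toFinset_card_le _
    _ ≤ g.natDegree := Polynomial.card_roots' g
    _ ≤ f.natDegree := by
        rw [hg]
        exact Polynomial.natDegree_map_le

/-- the size of the values -/
theorem eval_le {f : Polynomial ℤ} {r K X p : ℕ} (hd : f.natDegree ≤ r)
    (hc : ∀ i, |f.coeff i| ≤ (X : ℤ) ^ K) (hX : r + 1 ≤ X) (hp : p ≤ X) :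
    (f.eval (p : ℤ)).natAbs ≤ X ^ (K + r + 1) := by
  have hX1 : 1 ≤ X := by omega
  have h1 : |f.eval (p : ℤ)| ≤ ((X ^ (K + r + 1) : ℕ) : ℤ) := by
    rw [Polynomial.eval_eq_sum_range]
    calc |∑ i ∈ range (f.natDegree + 1), f.coeff i * (p : ℤ) ^ i|
        ≤ ∑ i ∈ range (f.natDegree + 1), |f.coeff i * (p : ℤ) ^ i| := abs_sum_le_sum_abs _ _
      _ ≤ ∑ _i ∈ range (f.natDegree + 1), (X : ℤ) ^ K * (X : ℤ) ^ r := by
          apply sum_le_sum
          intro i hi
          rw [mem_range] at hi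
          rw [abs_mul, abs_pow, Nat.abs_cast]
          apply mul_le_mul (hc i) _ (by positivity) (by positivity)
          calc (p : ℤ) ^ i ≤ (X : ℤ) ^ i := pow_le_pow_left₀ (by positivity) (by exact_mod_cast hp) i
            _ ≤ (X : ℤ) ^ r := pow_le_pow_right₀ (by exact_mod_cast hX1) (by omega)
      _ = ((f.natDegree + 1 : ℕ) : ℤ) * ((X : ℤ) ^ K * (X : ℤ) ^ r) := by
          rw [sum_const, card_range, nsmul_eq_mul]
      _ ≤ (X : ℤ) * ((X : ℤ) ^ K * (X : ℤ) ^ r) := by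
          apply mul_le_mul_of_nonneg_right _ (by positivity)
          exact_mod_cast (by omega : f.natDegree + 1 ≤ X)
      _ = ((X ^ (K + r + 1) : ℕ) : ℤ) := by
          push_cast
          ring
  rw [Int.abs_eq_natAbs] at h1
  exact_mod_cast h1

/-- the shifts for the modulus `q` -/
noncomputable def Fp (f : Polynomial ℤ) (h : ℤ) (q : ℕ) : Finset ℤ :=
  insert h (((range q).filter (fun x : ℕ => (q : ℤ) ∣ f.eval (x : ℤ))).image (fun x : ℕ => (x : ℤ)))

theorem mem_Fp (f : Polynomial ℤ) (h : ℤ) {q : ℕ} (hq : 0 < q) (y : ℤ) :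
    (∃ a ∈ Fp f h q, (q : ℤ) ∣ a - y) ↔ (q : ℤ) ∣ h - y ∨ (q : ℤ) ∣ f.eval y := by
  classical
  have hq0 : (0 : ℤ) < q := by exact_mod_cast hq
  unfold Fp
  constructor
  · rintro ⟨a, ha, hd⟩
    rw [mem_insert, mem_image] at ha
    rcases ha with rfl | ⟨x, hx, rfl⟩
    · left
      exact hd
    · right
      rw [mem_filter] at hx
      have h1 := Polynomial.sub_dvd_eval_sub (x : ℤ) y f
      have h2 := hd.trans h1
      have := dvd_sub hx.2 h2
      have e : f.eval (x : ℤ) - (f.eval (x : ℤ) - f.eval y) = f.eval y := by ring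
      rwa [e] at this
  · rintro (hd | hd)
    · exact ⟨h, mem_insert_self _ _, hd⟩
    · have e1 := Int.emod_nonneg y hq0.ne'
      have e2 := Int.emod_lt_of_pos y hq0
      have e3 : (((y % q).toNat : ℕ) : ℤ) = y % q := Int.toNat_of_nonneg e1
      have e4 : (q : ℤ) ∣ y - y % q := Int.dvd_self_sub_emod
      refine ⟨(((y % q).toNat : ℕ) : ℤ), ?_, ?_⟩
      · apply mem_insert_of_mem
        rw [mem_image]
        refine ⟨_, ?_, rfl⟩
        rw [mem_filter, mem_range]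
        refine ⟨?_, ?_⟩
        · zify
          rw [e3]
          exact e2
        · rw [e3]
          have h1 := Polynomial.sub_dvd_eval_sub y (y % q) f
          have h2 := e4.trans h1
          have := dvd_sub hd h2
          have e : f.eval y - (f.eval y - f.eval (y % q)) = f.eval (y % q) := by ring
          rwa [e] at this
      · rw [e3]
        have := (dvd_neg (a := (q : ℤ))).2 e4
        have e : -(y - y % q) = y % q - y := by ring
        rwa [e] at this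

/-- the number of the classes `x` modulo `q` with `x (h - x) f(x) ≡ 0` -/
noncomputable def rhoP (f : Polynomial ℤ) (h : ℤ) (q : ℕ) : ℕ :=
  ((range q).filter (fun x : ℕ => (q : ℤ) ∣ (x : ℤ) * (h - x) * f.eval (x : ℤ))).card

theorem rho_Fp (f : Polynomial ℤ) (h : ℤ) {q : ℕ} (hq : q.Prime) : rho (Fp f h q) q = rhoP f h q := by
  classical
  rw [rho_gen _ hq.pos]
  unfold rhoP
  congr 1
  apply filter_congr
  intro x _
  rw [mem_Fp f h hq.pos]
  have hpp := Nat.prime_iff_prime_int.1 hq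
  constructor
  · rintro (h1 | h1 | h1)
    · exact Dvd.dvd.mul_right (Dvd.dvd.mul_right h1 _) _
    · exact Dvd.dvd.mul_right (Dvd.dvd.mul_left h1 _) _
    · exact Dvd.dvd.mul_left h1 _
  · intro h1
    rcases hpp.dvd_or_dvd h1 with h2 | h2
    · rcases hpp.dvd_or_dvd h2 with h3 | h3
      · exact Or.inl h3
      · exact Or.inr (Or.inl h3)
    · exact Or.inr (Or.inr h2)

/-- degree at most `r`, coefficients at most `X ^ K`, shift at most `X`, no local obstruction -/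
structure Data (r K X : ℕ) (f : Polynomial ℤ) (h : ℤ) : Prop where
  deg : f.natDegree ≤ r
  coeff : ∀ i, |f.coeff i| ≤ (X : ℤ) ^ K
  ne : h ≠ 0
  size : |h| ≤ X
  loc : ∀ q : ℕ, q.Prime → ∃ x : ℤ, ¬ (q : ℤ) ∣ x * (h - x) * f.eval x

theorem Data.sys {r K X : ℕ} {f : Polynomial ℤ} {h : ℤ} (D : Data r K X f h) :
    SysF (r + 1) X (Fp f h) h := by
  classical
  refine ⟨?_, D.ne, D.size, ?_, ?_⟩
  · intro q hq
    obtain ⟨x, hx⟩ := D.loc q hq
    unfold Fp
    refine (card_insert_le _ _).trans ?_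
    have h1 := (card_image_le (s := (range q).filter (fun x : ℕ => (q : ℤ) ∣ f.eval (x : ℤ)))
      (f := fun x : ℕ => (x : ℤ))).trans (card_roots_le f hq ⟨x, fun h => hx (Dvd.dvd.mul_left h _)⟩)
    have := D.deg
    omega
  · intro q _
    exact mem_insert_self _ _
  · intro q hq
    obtain ⟨x, hx⟩ := D.loc q hq
    apply rho_lt hq.pos x
    · intro h1
      exact hx (Dvd.dvd.mul_right (Dvd.dvd.mul_right h1 _) _)
    · intro a ha h1
      rcases (mem_Fp f h hq.pos x).1 ⟨a, ha, h1⟩ with h2 | h2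
      · exact hx (Dvd.dvd.mul_right (Dvd.dvd.mul_left h2 _) _)
      · exact hx (Dvd.dvd.mul_left h2 _)

open Classical in
/-- the primes `p > X ^ (1/t)` of `(A, B]` for which `h - p` is a product of at most two primes, larger
than `X ^ (1/9)` and `X ^ (1/t)`, and `f(p)` is a product of at most `N` primes larger than `X ^ (1/t)` -/
noncomputable def G (t N X : ℕ) (f : Polynomial ℤ) (h : ℤ) (A B : ℕ) : Finset ℕ :=
  (Ioc A B).filter (fun p : ℕ => p.Prime ∧ (X : ℝ) ^ (1 / (t : ℝ)) < p ∧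
    Rough 2 (max ((X : ℝ) ^ (1 / 9 : ℝ)) ((X : ℝ) ^ (1 / (t : ℝ)))) (h - p) ∧
    Rough N ((X : ℝ) ^ (1 / (t : ℝ))) (f.eval (p : ℤ)))

theorem Good_eq {t r K X : ℕ} (ht : 1 ≤ t) {f : Polynomial ℤ} {h : ℤ} (hd : f.natDegree ≤ r)
    (hc : ∀ i, |f.coeff i| ≤ (X : ℤ) ^ K) (hX : 2 ≤ (X : ℝ) ^ (1 / (t : ℝ))) (hXr : r + 1 ≤ X)
    {A B : ℕ} (hB : B ≤ X) : GoodF t X A B (Fp f h) h = G t (t * (K + r + 1)) X f h A B := by
  classical
  have ht0 : (0 : ℝ) < t := by exact_mod_cast ht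
  have hX0 : (0 : ℝ) < X := by exact_mod_cast (by omega : 0 < X)
  obtain ⟨y, hy⟩ : ∃ y : ℝ, y = (X : ℝ) ^ (1 / (t : ℝ)) := ⟨_, rfl⟩
  rw [← hy] at hX
  have hyt : ((X ^ (K + r + 1) : ℕ) : ℝ) < y ^ (t * (K + r + 1) + 1) := by
    have h3 : y ^ t = X := by
      rw [hy, ← Real.rpow_natCast, ← Real.rpow_mul hX0.le, one_div, inv_mul_cancel₀ ht0.ne',
        Real.rpow_one]
    rw [pow_succ y, pow_mul, h3]
    push_cast
    have h4 : (0 : ℝ) < (X : ℝ) ^ (K + r + 1) := by positivity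
    nlinarith
  unfold G GoodF
  rw [← hy]
  apply filter_congr
  intro x hx
  rw [mem_Ioc] at hx
  constructor
  · rintro ⟨h1, h2, ⟨h3a, h3b, h3c⟩, h4⟩
    have hsm : ∀ q : ℕ, q.Prime → (q : ℤ) ∣ f.eval (x : ℤ) → y < q := by
      intro q hq hdv
      by_contra hcon
      push Not at hcon
      obtain ⟨a, ha, hd2⟩ := (mem_Fp f h hq.pos (x : ℤ)).2 (Or.inr hdv)
      exact h4 q hq hcon a ha hd2
    have hne : f.eval (x : ℤ) ≠ 0 := by
      intro h0
      have := hsm 2 Nat.prime_two (by rw [h0]; exact dvd_zero _)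
      push_cast at this
      linarith
    refine ⟨h1, h2, ⟨h3a, h3b, ?_⟩, hne, ?_, hsm⟩
    · intro q hq hdv
      apply max_lt (h3c q hq hdv)
      by_contra hcon
      push Not at hcon
      exact h4 q hq hcon h (mem_insert_self _ _) hdv
    · apply Pool.Agent.Y840.CT.length_le (Int.natAbs_ne_zero.2 hne) (by linarith) _ hyt
      · intro q hq hdv
        exact hsm q hq (Int.natCast_dvd.2 hdv)
      · exact_mod_cast eval_le hd hc hXr (hx.2.trans hB)
  · rintro ⟨h1, h2, ⟨h3a, h3b, h3c⟩, h4a, h4b, h4c⟩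
    refine ⟨h1, h2, ⟨h3a, h3b, ?_⟩, ?_⟩
    · intro q hq hdv
      exact lt_of_le_of_lt (le_max_left _ _) (h3c q hq hdv)
    · intro q hq hqy a ha hdv
      rcases (mem_Fp f h hq.pos (x : ℤ)).1 ⟨a, ha, hdv⟩ with h5 | h5
      · have := lt_of_le_of_lt (le_max_right _ _) (h3c q hq h5)
        linarith
      · have := h4c q hq h5
        linarith

/-- the sieve product -/
noncomputable def V (f : Polynomial ℤ) (h : ℤ) (X : ℕ) : ℝ :=
  ∏ q ∈ (Icc 1 X).filter Nat.Prime, (1 - (rhoP f h q : ℝ) / q)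

theorem V_eq (f : Polynomial ℤ) (h : ℤ) (X : ℕ) : VF (Fp f h) X = V f h X := by
  unfold VF V
  apply prod_congr rfl
  intro q hq
  rw [mem_filter] at hq
  rw [rho_Fp f h hq.2]

/-- **Chen's theorem with polynomial values: exact order, and the number of progressions.** -/
theorem poly (r : ℕ) : ∃ t : ℕ, 1 ≤ t ∧ ∃ c C : ℝ, 0 < c ∧ 0 < C ∧
    (∀ (K : ℕ) (θ : ℝ), 0 < θ → ∃ X₀ : ℕ, ∀ X : ℕ, X₀ ≤ X → ∀ (f : Polynomial ℤ) (h : ℤ),
      Data r K X f h → c / Real.log X ^ (r + 2) ≤ V f h X ∧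
      ∀ A B : ℕ, B ≤ X → θ * X ≤ (B : ℝ) - A →
        c * (((B : ℝ) - A) * V f h X) ≤ ((G t (t * (K + r + 1)) X f h A B).card : ℝ) ∧
        ((G t (t * (K + r + 1)) X f h A B).card : ℝ) ≤ C * (((B : ℝ) - A) * V f h X)) ∧
    (∀ k : ℕ, 1 ≤ k → ∀ δ : ℝ, 0 < δ → ∃ c' C' : ℝ, 0 < c' ∧ 0 < C' ∧ ∃ b : ℕ, ∀ (K : ℕ) (θ : ℝ),
      0 < θ → ∃ X₀ : ℕ, ∀ X : ℕ, X₀ ≤ X → ∀ (f : Polynomial ℤ) (h : ℤ), Data r K X f h →
      ∀ A B : ℕ, B ≤ X → θ * X ≤ (B : ℝ) - A → ∀ D : ℕ, Real.log X ^ b ≤ D → (D : ℝ) ≤ (B : ℝ) - A →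
      ∀ S : Finset ℕ, S ⊆ G t (t * (K + r + 1)) X f h A B →
        ((APs k D S).card : ℝ) ≤ C' * (((B : ℝ) - A) * D * V f h X ^ k) ∧
        (δ * ((G t (t * (K + r + 1)) X f h A B).card : ℝ) ≤ S.card →
          c' * (((B : ℝ) - A) * D * V f h X ^ k) ≤ ((APs k D S).card : ℝ)) ∧
        (δ * (((B : ℝ) - A) * D * V f h X ^ k) ≤ ((APs k D S).card : ℝ) →
          c' * ((G t (t * (K + r + 1)) X f h A B).card : ℝ) ≤ S.card)) := by
  classical
  obtain ⟨t, ht, c, C, hc, hC, H1, H2⟩ := core (r + 1)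
  have ht0 : (0 : ℝ) < t := by exact_mod_cast ht
  have hbig : ∃ X₁ : ℕ, ∀ X : ℕ, X₁ ≤ X → (2 : ℝ) ≤ (X : ℝ) ^ (1 / (t : ℝ)) := by
    have := ((tendsto_rpow_atTop (show (0 : ℝ) < 1 / t by positivity)).comp
      (tendsto_natCast_atTop_atTop (R := ℝ))).eventually (eventually_ge_atTop 2)
    exact eventually_atTop.1 this
  obtain ⟨X₁, hX₁⟩ := hbig
  refine ⟨t, ht, c, C, hc, hC, ?_, ?_⟩
  · intro K θ hθ
    obtain ⟨X₀, h1⟩ := H1 θ hθ
    refine ⟨max X₀ (max X₁ (r + 1)), fun X hX f h D => ?_⟩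
    have a1 : X₀ ≤ X := (le_max_left _ _).trans hX
    have a2 : X₁ ≤ X := le_trans (le_trans (le_max_left _ _) (le_max_right _ _)) hX
    have a3 : r + 1 ≤ X := le_trans (le_trans (le_max_right _ _) (le_max_right _ _)) hX
    obtain ⟨g1, g2⟩ := h1 X a1 (Fp f h) h D.sys
    rw [V_eq] at g1
    refine ⟨g1, fun A B hB hAB => ?_⟩
    have g3 := g2 A B hB hAB
    rw [V_eq, Good_eq ht D.deg D.coeff (hX₁ X a2) a3 hB] at g3
    exact g3
  · intro k hk δ hδ
    obtain ⟨c', C', hc', hC', b, h1⟩ := H2 k hk δ hδ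
    refine ⟨c', C', hc', hC', b, fun K θ hθ => ?_⟩
    obtain ⟨X₀, h2⟩ := h1 θ hθ
    refine ⟨max X₀ (max X₁ (r + 1)), fun X hX f h D A B hB hAB d hd1 hd2 S hS => ?_⟩
    have a1 : X₀ ≤ X := (le_max_left _ _).trans hX
    have a2 : X₁ ≤ X := le_trans (le_trans (le_max_left _ _) (le_max_right _ _)) hX
    have a3 : r + 1 ≤ X := le_trans (le_trans (le_max_right _ _) (le_max_right _ _)) hX
    have e := Good_eq (h := h) (A := A) ht D.deg D.coeff (hX₁ X a2) a3 hB
    have g3 := h2 X a1 (Fp f h) h D.sys A B hB hAB d hd1 hd2 S (by rw [e]; exact hS)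
    rw [V_eq, e] at g3
    exact g3

end Pool.Agent.V11316.CP
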