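import Pool.Agent.V11316.CP2

/-!
# Chen's theorem for the numbers `6 m - 1`, `6 m + 1`, with values of polynomials at `m`
-/

set_option autoImplicit false

namespace Pool.Agent.V11316.CP

open Finset Filter
open Pool.Agent.Y840.CT (Rough SysF GoodF VF rho)
open Pool.Agent.Y843.AC (APs)

/-- change of variables modulo `q` -/
theorem card_six {q : ℕ} (hq : q.Prime) (h5 : 5 ≤ q) (R : ℤ → Prop) [DecidablePred R]
    (hR : ∀ a b : ℤ, (q : ℤ) ∣ a - b → (R a ↔ R b)) :
    ((range q).filter (fun x : ℕ => R x)).card =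
      ((range q).filter (fun m : ℕ => R (6 * (m : ℤ) - 1))).card := by
  classical
  have hq0 : (0 : ℤ) < q := by exact_mod_cast hq.pos
  obtain ⟨φ, hφ⟩ : ∃ φ : ℕ → ℕ, ∀ m : ℕ, φ m = ((6 * (m : ℤ) - 1) % q).toNat := ⟨_, fun _ => rfl⟩
  have hc : ∀ m : ℕ, ((φ m : ℕ) : ℤ) = (6 * (m : ℤ) - 1) % q := by
    intro m
    rw [hφ]
    exact Int.toNat_of_nonneg (Int.emod_nonneg _ hq0.ne')
  have hlt : ∀ m : ℕ, φ m < q := by
    intro m
    have := Int.emod_lt_of_pos (6 * (m : ℤ) - 1) hq0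
    rw [← hc] at this
    exact_mod_cast this
  have hinj : Set.InjOn φ (range q : Set ℕ) := by
    intro a ha b hb hab
    rw [mem_coe, mem_range] at ha hb
    have h1 : (6 * (a : ℤ) - 1) % q = (6 * (b : ℤ) - 1) % q := by
      rw [← hc, ← hc, hab]
    have h2 : (q : ℤ) ∣ (6 * (b : ℤ) - 1) - (6 * (a : ℤ) - 1) := Int.modEq_iff_dvd.1 h1
    have h3 : (q : ℤ) ∣ 6 * ((b : ℤ) - a) := by
      have e : (6 * (b : ℤ) - 1) - (6 * (a : ℤ) - 1) = 6 * ((b : ℤ) - a) := by ring
      rwa [e] at h2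
    have h6 : ¬ (q : ℤ) ∣ 6 := by
      intro h
      have h7 : q ∣ 6 := by exact_mod_cast h
      have h8 := Nat.le_of_dvd (by norm_num) h7
      have h9 : q = 5 ∨ q = 6 := by omega
      rcases h9 with rfl | rfl
      · omega
      · exact absurd hq (by norm_num)
    have h4 : (q : ℤ) ∣ (b : ℤ) - a := by
      rcases (Nat.prime_iff_prime_int.1 hq).dvd_or_dvd h3 with h | h
      · exact absurd h h6
      · exact h
    have h5' : (a : ℤ) % q = (b : ℤ) % q := (Int.modEq_iff_dvd.2 h4)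
    rw [Int.emod_eq_of_lt (by positivity) (by exact_mod_cast ha),
      Int.emod_eq_of_lt (by positivity) (by exact_mod_cast hb)] at h5'
    exact_mod_cast h5'
  have himg : (range q).image φ = range q := by
    apply eq_of_subset_of_card_le
    · intro x hx
      rw [mem_image] at hx
      obtain ⟨m, _, rfl⟩ := hx
      exact mem_range.2 (hlt m)
    · rw [card_image_of_injOn hinj]
  have hkey : ∀ m : ℕ, R ((φ m : ℕ) : ℤ) ↔ R (6 * (m : ℤ) - 1) := by
    intro m
    apply hR
    rw [hc]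
    have := (dvd_neg (a := (q : ℤ))).2 (Int.dvd_self_sub_emod (x := 6 * (m : ℤ) - 1) (m := q))
    have e : -(6 * (m : ℤ) - 1 - (6 * (m : ℤ) - 1) % q) = (6 * (m : ℤ) - 1) % q - (6 * (m : ℤ) - 1) := by
      ring
    rwa [e] at this
  have heq : (range q).filter (fun x : ℕ => R x) =
      ((range q).filter (fun m : ℕ => R (6 * (m : ℤ) - 1))).image φ := by
    ext x
    rw [mem_filter, mem_image]
    constructor
    · rintro ⟨hx, hRx⟩
      rw [← himg, mem_image] at hx
      obtain ⟨m, hm, rfl⟩ := hx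
      exact ⟨m, mem_filter.2 ⟨hm, (hkey m).1 hRx⟩, rfl⟩
    · rintro ⟨m, hm, rfl⟩
      rw [mem_filter] at hm
      exact ⟨mem_range.2 (hlt m), (hkey m).2 hm.2⟩
  rw [heq, card_image_of_injOn]
  exact hinj.mono (by
    intro m hm
    rw [mem_coe, mem_filter] at hm
    exact hm.1)

/-- the shifts -/
noncomputable def Fm (P : Polynomial ℤ) (q : ℕ) : Finset ℤ :=
  if q ≤ 3 then {-2} else
    insert (-2) (((range q).filter (fun m : ℕ => (q : ℤ) ∣ P.eval (m : ℤ))).image
      (fun m : ℕ => 6 * (m : ℤ) - 1))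

theorem six_dvd {q : ℕ} (hq : q.Prime) (h5 : 3 < q) {x : ℤ} (h : (q : ℤ) ∣ 6 * x) : (q : ℤ) ∣ x := by
  rcases (Nat.prime_iff_prime_int.1 hq).dvd_or_dvd h with h | h
  · exfalso
    have h7 : q ∣ 6 := by exact_mod_cast h
    have h8 := Nat.le_of_dvd (by norm_num) h7
    have h9 : q = 4 ∨ q = 5 ∨ q = 6 := by omega
    rcases h9 with rfl | rfl | rfl
    · omega
    · omega
    · exact absurd hq (by norm_num)
  · exact h

theorem mem_Fm (P : Polynomial ℤ) {q : ℕ} (hq : q.Prime) (h5 : 3 < q) (m : ℤ) :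
    (∃ a ∈ Fm P q, (q : ℤ) ∣ a - (6 * m - 1)) ↔ (q : ℤ) ∣ 6 * m + 1 ∨ (q : ℤ) ∣ P.eval m := by
  classical
  have hq0 : (0 : ℤ) < q := by exact_mod_cast hq.pos
  unfold Fm
  rw [if_neg (by omega)]
  constructor
  · rintro ⟨a, ha, hd⟩
    rw [mem_insert, mem_image] at ha
    rcases ha with rfl | ⟨x, hx, rfl⟩
    · left
      have := (dvd_neg (a := (q : ℤ))).2 hd
      have e : -(-2 - (6 * m - 1)) = 6 * m + 1 := by ring
      rwa [e] at this
    · right
      rw [mem_filter] at hx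
      have h0 : (q : ℤ) ∣ (x : ℤ) - m := by
        apply six_dvd hq h5
        have e : 6 * ((x : ℤ) - m) = 6 * (x : ℤ) - 1 - (6 * m - 1) := by ring
        rwa [e]
      have h1 := Polynomial.sub_dvd_eval_sub (x : ℤ) m P
      have h2 := h0.trans h1
      have := dvd_sub hx.2 h2
      have e : P.eval (x : ℤ) - (P.eval (x : ℤ) - P.eval m) = P.eval m := by ring
      rwa [e] at this
  · rintro (hd | hd)
    · refine ⟨-2, mem_insert_self _ _, ?_⟩
      have := (dvd_neg (a := (q : ℤ))).2 hd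
      have e : -(6 * m + 1) = -2 - (6 * m - 1) := by ring
      rwa [e] at this
    · have e1 := Int.emod_nonneg m hq0.ne'
      have e2 := Int.emod_lt_of_pos m hq0
      have e3 : (((m % q).toNat : ℕ) : ℤ) = m % q := Int.toNat_of_nonneg e1
      have e4 : (q : ℤ) ∣ m - m % q := Int.dvd_self_sub_emod
      refine ⟨6 * (((m % q).toNat : ℕ) : ℤ) - 1, ?_, ?_⟩
      · apply mem_insert_of_mem
        rw [mem_image]
        refine ⟨_, ?_, rfl⟩
        rw [mem_filter, mem_range]
        refine ⟨?_, ?_⟩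
        · zify
          rw [e3]
          exact e2
        · rw [e3]
          have h1 := Polynomial.sub_dvd_eval_sub m (m % q) P
          have h2 := e4.trans h1
          have := dvd_sub hd h2
          have e : P.eval m - (P.eval m - P.eval (m % q)) = P.eval (m % q) := by ring
          rwa [e] at this
      · rw [e3]
        have := Dvd.dvd.mul_left ((dvd_neg (a := (q : ℤ))).2 e4) 6
        have e : 6 * -(m - m % q) = 6 * (m % q) - 1 - (6 * m - 1) := by ring
        rwa [e] at this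

/-- the number of the classes `m` modulo `q` with `(6 m - 1) (6 m + 1) P(m) ≡ 0` -/
noncomputable def rhoM (P : Polynomial ℤ) (q : ℕ) : ℕ :=
  ((range q).filter (fun m : ℕ =>
    (q : ℤ) ∣ (6 * (m : ℤ) - 1) * (6 * (m : ℤ) + 1) * P.eval (m : ℤ))).card

theorem rho_Fm (P : Polynomial ℤ) {q : ℕ} (hq : q.Prime) (h5 : 3 < q) :
    rho (Fm P q) q = rhoM P q := by
  classical
  have h5' : 5 ≤ q := by
    rcases Nat.lt_or_ge q 5 with h | h
    · have : q = 4 := by omega
      subst this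
      exact absurd hq (by norm_num)
    · exact h
  rw [rho_gen _ hq.pos, card_six hq h5' (fun y : ℤ => (q : ℤ) ∣ y ∨ ∃ a ∈ Fm P q, (q : ℤ) ∣ a - y)]
  · unfold rhoM
    congr 1
    apply filter_congr
    intro m _
    rw [mem_Fm P hq h5]
    have hpp := Nat.prime_iff_prime_int.1 hq
    constructor
    · rintro (h1 | h1 | h1)
      · exact Dvd.dvd.mul_right (Dvd.dvd.mul_right h1 _) _
      · exact Dvd.dvd.mul_right (Dvd.dvd.mul_left h1 _) _
      · exact Dvd.dvd.mul_left h1 _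
    · intro h1
      rcases hpp.dvd_or_dvd h1 with h2 | h2
      · rcases hpp.dvd_or_dvd h2 with h3 | h3
        · exact Or.inl h3
        · exact Or.inr (Or.inl h3)
      · exact Or.inr (Or.inr h2)
  · intro a b hab
    have hba : (q : ℤ) ∣ b - a := by
      have := (dvd_neg (a := (q : ℤ))).2 hab
      rwa [neg_sub] at this
    constructor
    · rintro (h | ⟨x, hx, h⟩)
      · left
        have := dvd_sub h hab
        have e : a - (a - b) = b := by ring
        rwa [e] at this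
      · right
        refine ⟨x, hx, ?_⟩
        have := dvd_add h hab
        have e : x - a + (a - b) = x - b := by ring
        rwa [e] at this
    · rintro (h | ⟨x, hx, h⟩)
      · left
        have := dvd_sub h hba
        have e : b - (b - a) = a := by ring
        rwa [e] at this
      · right
        refine ⟨x, hx, ?_⟩
        have := dvd_add h hba
        have e : x - b + (b - a) = x - a := by ring
        rwa [e] at this

/-- the values of `P` are prime to `6`, and there is no local obstruction -/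
structure DataM (r : ℕ) (P : Polynomial ℤ) : Prop where
  deg : P.natDegree ≤ r
  cop : ∀ m : ℤ, ¬ (2 : ℤ) ∣ P.eval m ∧ ¬ (3 : ℤ) ∣ P.eval m
  loc : ∀ q : ℕ, q.Prime → 3 < q → ∃ m : ℤ, ¬ (q : ℤ) ∣ (6 * m - 1) * (6 * m + 1) * P.eval m

theorem DataM.sys {r X : ℕ} {P : Polynomial ℤ} (D : DataM r P) (hX : 1 ≤ X) :
    SysF (r + 1) (6 * X) (Fm P) (-2) := by
  classical
  refine ⟨?_, by norm_num, ?_, ?_, ?_⟩
  · intro q hq
    unfold Fm
    split_ifs with h3
    · rw [card_singleton]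
      omega
    · obtain ⟨x, hx⟩ := D.loc q hq (by omega)
      refine (card_insert_le _ _).trans ?_
      have h1 := (card_image_le (s := (range q).filter (fun m : ℕ => (q : ℤ) ∣ P.eval (m : ℤ)))
        (f := fun m : ℕ => 6 * (m : ℤ) - 1)).trans
          (card_roots_le P hq ⟨x, fun h => hx (Dvd.dvd.mul_left h _)⟩)
      have := D.deg
      omega
  · push_cast
    rw [abs_of_nonpos (by norm_num)]
    have : (1 : ℤ) ≤ X := by exact_mod_cast hX
    linarith
  · intro q _
    unfold Fm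
    split_ifs
    · exact mem_singleton_self _
    · exact mem_insert_self _ _
  · intro q hq
    rcases Nat.lt_or_ge 3 q with h3 | h3
    · obtain ⟨m, hm⟩ := D.loc q hq h3
      apply rho_lt hq.pos (6 * m - 1)
      · intro h1
        exact hm (Dvd.dvd.mul_right (Dvd.dvd.mul_right h1 _) _)
      · intro a ha h1
        rcases (mem_Fm P hq h3 m).1 ⟨a, ha, h1⟩ with h2 | h2
        · exact hm (Dvd.dvd.mul_right (Dvd.dvd.mul_left h2 _) _)
        · exact hm (Dvd.dvd.mul_left h2 _)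
    · apply rho_lt hq.pos (-1)
      · intro h1
        have h2 := Int.le_of_dvd (by norm_num) ((dvd_neg (a := (q : ℤ))).2 h1)
        have h4 := hq.two_le
        push_cast at h2
        omega
      · intro a ha h1
        unfold Fm at ha
        rw [if_pos h3, mem_singleton] at ha
        subst ha
        have h2 := Int.le_of_dvd (by norm_num) ((dvd_neg (a := (q : ℤ))).2 h1)
        have h4 := hq.two_le
        push_cast at h2
        omega

open Classical in
/-- the `m` of `(A, B]` such that `6 m - 1` is a prime larger than `(6 X) ^ (1/t)`, `6 m + 1` is a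
product of at most two primes larger than `(6 X) ^ (1/9)` and `(6 X) ^ (1/t)`, and `P(m)` has no prime
factor up to `(6 X) ^ (1/t)` -/
noncomputable def M (t X : ℕ) (P : Polynomial ℤ) (A B : ℕ) : Finset ℕ :=
  (Ioc A B).filter (fun m : ℕ => (6 * m - 1).Prime ∧
    ((6 * X : ℕ) : ℝ) ^ (1 / (t : ℝ)) < ((6 * m - 1 : ℕ) : ℝ) ∧
    Rough 2 (max (((6 * X : ℕ) : ℝ) ^ (1 / 9 : ℝ)) (((6 * X : ℕ) : ℝ) ^ (1 / (t : ℝ)))) (6 * (m : ℤ) + 1) ∧
    ∀ q : ℕ, q.Prime → (q : ℤ) ∣ P.eval (m : ℤ) → ((6 * X : ℕ) : ℝ) ^ (1 / (t : ℝ)) < q)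

theorem Rough_neg {t : ℕ} {y : ℝ} {k : ℤ} (h : Rough t y k) : Rough t y (-k) := by
  obtain ⟨h1, h2, h3⟩ := h
  exact ⟨neg_ne_zero.2 h1, by rwa [Int.natAbs_neg], fun q hq hd => h3 q hq ((dvd_neg).1 hd)⟩

theorem six_inj : Function.Injective (fun m : ℕ => 6 * (m + 1) - 1) := by
  intro a b hab
  simp only at hab
  omega

theorem GoodM_eq {t X : ℕ} {P : Polynomial ℤ} {r : ℕ} (D : DataM r P)
    (hX : 3 ≤ ((6 * X : ℕ) : ℝ) ^ (1 / (t : ℝ))) {A B : ℕ} :
    GoodF t (6 * X) (6 * A) (6 * B) (Fm P) (-2) = (M t X P A B).image (fun m => 6 * m - 1) := by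
  classical
  obtain ⟨y, hy⟩ : ∃ y : ℝ, y = ((6 * X : ℕ) : ℝ) ^ (1 / (t : ℝ)) := ⟨_, rfl⟩
  unfold M GoodF
  rw [← hy] at hX ⊢
  ext p
  rw [mem_filter, mem_Ioc, mem_image]
  constructor
  · rintro ⟨⟨a1, a2⟩, h1, h2, ⟨h3a, h3b, h3c⟩, h4⟩
    have hp3 : 3 < p := by
      have : (3 : ℝ) < p := by linarith
      exact_mod_cast this
    have hp2 : p % 2 = 1 := by
      rcases h1.eq_two_or_odd with h | h
      · omega
      · exact h
    have hp30 : p % 3 ≠ 0 := by
      intro h
      have h5 := (Nat.prime_dvd_prime_iff_eq Nat.prime_three h1).1 (Nat.dvd_of_mod_eq_zero h)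
      omega
    have hp31 : p % 3 ≠ 1 := by
      intro h
      have h5 := h4 3 Nat.prime_three (by exact_mod_cast hX) (-2) (by
        unfold Fm
        rw [if_pos (le_refl 3)]
        exact mem_singleton_self _)
      apply h5
      push_cast
      omega
    obtain ⟨m, hm⟩ : ∃ m : ℕ, p = 6 * m - 1 ∧ 1 ≤ m := ⟨(p + 1) / 6, by omega, by omega⟩
    have hcast : (p : ℤ) = 6 * (m : ℤ) - 1 := by omega
    have e2 : (-2 : ℤ) - (p : ℤ) = -(6 * (m : ℤ) + 1) := by
      rw [hcast]
      ring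
    refine ⟨m, ?_, hm.1.symm⟩
    rw [mem_filter, mem_Ioc]
    refine ⟨by omega, by rw [← hm.1]; exact h1, by rw [← hm.1]; exact h2, ?_, ?_⟩
    · have hR : Rough 2 (max (((6 * X : ℕ) : ℝ) ^ (1 / 9 : ℝ)) y) (-2 - (p : ℤ)) := by
        refine ⟨h3a, h3b, fun q hq hdv => max_lt (h3c q hq hdv) ?_⟩
        by_contra hcon
        push Not at hcon
        refine h4 q hq hcon (-2) ?_ hdv
        unfold Fm
        split_ifs
        · exact mem_singleton_self _
        · exact mem_insert_self _ _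
      have := Rough_neg hR
      rw [e2, neg_neg] at this
      exact this
    · intro q hq hdv
      by_contra hcon
      push Not at hcon
      have hq3 : 3 < q := by
        by_contra h
        have h2' := hq.two_le
        have h5 : q = 2 ∨ q = 3 := by omega
        have h6 := D.cop (m : ℤ)
        rcases h5 with rfl | rfl
        · exact h6.1 (by exact_mod_cast hdv)
        · exact h6.2 (by exact_mod_cast hdv)
      obtain ⟨a, ha, hd2⟩ := (mem_Fm P hq hq3 (m : ℤ)).2 (Or.inr hdv)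
      rw [← hcast] at hd2
      exact h4 q hq hcon a ha hd2
  · rintro ⟨m, hm, rfl⟩
    rw [mem_filter, mem_Ioc] at hm
    obtain ⟨⟨a1, a2⟩, h1, h2, ⟨h3a, h3b, h3c⟩, h4⟩ := hm
    have hm1 : 1 ≤ m := by omega
    have hcast : ((6 * m - 1 : ℕ) : ℤ) = 6 * (m : ℤ) - 1 := by omega
    have e2 : (-2 : ℤ) - ((6 * m - 1 : ℕ) : ℤ) = -(6 * (m : ℤ) + 1) := by
      rw [hcast]
      ring
    refine ⟨by omega, h1, h2, ?_, ?_⟩
    · rw [e2]
      exact Rough_neg ⟨h3a, h3b, fun q hq hdv => lt_of_le_of_lt (le_max_left _ _) (h3c q hq hdv)⟩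
    · intro q hq hqy a ha hdv
      rcases Nat.lt_or_ge 3 q with h3 | h3
      · rw [hcast] at hdv
        rcases (mem_Fm P hq h3 (m : ℤ)).1 ⟨a, ha, hdv⟩ with h5 | h5
        · have := lt_of_le_of_lt (le_max_right _ _) (h3c q hq h5)
          linarith
        · have := h4 q hq h5
          linarith
      · unfold Fm at ha
        rw [if_pos h3, mem_singleton] at ha
        subst ha
        rw [e2] at hdv
        have := lt_of_le_of_lt (le_max_right _ _) (h3c q hq ((dvd_neg).1 hdv))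
        linarith

/-- the sieve product over the primes larger than `3` -/
noncomputable def VM (P : Polynomial ℤ) (X : ℕ) : ℝ :=
  ∏ q ∈ (Icc 5 (6 * X)).filter Nat.Prime, (1 - (rhoM P q : ℝ) / q)

theorem VM_eq (P : Polynomial ℤ) {X : ℕ} (hX : 1 ≤ X) : VF (Fm P) (6 * X) = 1 / 6 * VM P X := by
  classical
  unfold VF VM
  have hs : (Icc 1 (6 * X)).filter Nat.Prime =
      insert 2 (insert 3 ((Icc 5 (6 * X)).filter Nat.Prime)) := by
    ext q
    rw [mem_insert, mem_insert, mem_filter, mem_filter, mem_Icc, mem_Icc]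
    constructor
    · rintro ⟨⟨h1, h2⟩, h3⟩
      rcases Nat.lt_or_ge q 5 with h | h
      · interval_cases q
        · exact absurd h3 (by norm_num)
        · left; rfl
        · right; left; rfl
        · exact absurd h3 (by norm_num)
      · right; right
        exact ⟨⟨h, h2⟩, h3⟩
    · rintro (rfl | rfl | ⟨⟨h1, h2⟩, h3⟩)
      · exact ⟨⟨by norm_num, by omega⟩, Nat.prime_two⟩
      · exact ⟨⟨by norm_num, by omega⟩, Nat.prime_three⟩
      · exact ⟨⟨by omega, h2⟩, h3⟩
  rw [hs, prod_insert, prod_insert]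
  · have h2 : rho (Fm P 2) 2 = 1 := by
      unfold Fm rho
      rw [if_pos (by norm_num)]
      decide
    have h3 : rho (Fm P 3) 3 = 2 := by
      unfold Fm rho
      rw [if_pos (by norm_num)]
      decide
    rw [h2, h3]
    have h4 : ∏ q ∈ (Icc 5 (6 * X)).filter Nat.Prime, (1 - (rho (Fm P q) q : ℝ) / q) =
        ∏ q ∈ (Icc 5 (6 * X)).filter Nat.Prime, (1 - (rhoM P q : ℝ) / q) := by
      apply prod_congr rfl
      intro q hq
      rw [mem_filter, mem_Icc] at hq
      rw [rho_Fm P hq.2 (by omega)]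
    rw [h4]
    push_cast
    ring
  · rw [mem_filter, mem_Icc]
    omega
  · rw [mem_insert, mem_filter, mem_Icc]
    omega

/-- the progressions -/
theorem APs_six {k D : ℕ} (hk : 2 ≤ k) (S : Finset ℕ) (hS : ∀ m ∈ S, 1 ≤ m) :
    (APs k (6 * D) (S.image (fun m => 6 * m - 1))).card = (APs k D S).card := by
  classical
  have heq : APs k (6 * D) (S.image (fun m => 6 * m - 1)) =
      (APs k D S).image (fun q : ℕ × ℕ => (6 * q.1 - 1, 6 * q.2)) := by
    ext ⟨a, d⟩
    unfold APs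
    simp only [mem_filter, mem_product, mem_image, mem_Icc, Prod.mk.injEq, Prod.exists]
    constructor
    · rintro ⟨⟨⟨m, hm, rfl⟩, h1, h2⟩, h3⟩
      have hm1 := hS m hm
      obtain ⟨m', hm', h4⟩ := h3 1 (by omega)
      have hm1' := hS m' hm'
      rw [one_mul] at h4
      refine ⟨m, m' - m, ⟨⟨hm, by omega, by omega⟩, ?_⟩, rfl, by omega⟩
      intro j hj
      obtain ⟨m'', hm'', h5⟩ := h3 j hj
      have hm1'' := hS m'' hm''
      have e : d = 6 * (m' - m) := by omega
      rw [e] at h5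
      have e2 : j * (6 * (m' - m)) = 6 * (j * (m' - m)) := by ring
      rw [e2] at h5
      have e3 : m + j * (m' - m) = m'' := by omega
      rw [e3]
      exact hm''
    · rintro ⟨m, e, ⟨⟨hm, h1, h2⟩, h3⟩, rfl, rfl⟩
      refine ⟨⟨⟨m, hm, rfl⟩, by omega, by omega⟩, ?_⟩
      intro j hj
      refine ⟨m + j * e, h3 j hj, ?_⟩
      have hm1 := hS m hm
      have e2 : j * (6 * e) = 6 * (j * e) := by ring
      rw [e2]
      omega
  rw [heq, card_image_of_injOn]
  rintro ⟨a, d⟩ h1 ⟨a', d'⟩ h2 h3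
  simp only [Prod.mk.injEq] at h3
  unfold APs at h1 h2
  simp only [coe_filter, Set.mem_setOf_eq, mem_product] at h1 h2
  have g1 := hS a h1.1.1
  have g2 := hS a' h2.1.1
  rw [Prod.mk.injEq]
  omega

theorem card_M {t X A B : ℕ} {P : Polynomial ℤ} (S : Finset ℕ) (hS : S ⊆ M t X P A B) :
    (S.image (fun m => 6 * m - 1)).card = S.card := by
  classical
  apply card_image_of_injOn
  intro a ha b hb hab
  have h1 := hS ha
  have h2 := hS hb
  unfold M at h1 h2
  rw [mem_filter, mem_Ioc] at h1 h2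
  simp only at hab
  omega

/-- **Twins in the sense of Chen, with polynomial values.** -/
theorem twin (r : ℕ) : ∃ t : ℕ, 1 ≤ t ∧ ∃ c C : ℝ, 0 < c ∧ 0 < C ∧
    (∀ θ : ℝ, 0 < θ → ∃ X₀ : ℕ, ∀ X : ℕ, X₀ ≤ X → ∀ P : Polynomial ℤ, DataM r P →
      c / Real.log X ^ (r + 2) ≤ VM P X ∧
      ∀ A B : ℕ, B ≤ X → θ * X ≤ (B : ℝ) - A →
        c * (((B : ℝ) - A) * VM P X) ≤ ((M t X P A B).card : ℝ) ∧
        ((M t X P A B).card : ℝ) ≤ C * (((B : ℝ) - A) * VM P X)) ∧
    (∀ k : ℕ, 2 ≤ k → ∀ δ : ℝ, 0 < δ → ∃ c' C' : ℝ, 0 < c' ∧ 0 < C' ∧ ∃ b : ℕ, ∀ θ : ℝ, 0 < θ →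
      ∃ X₀ : ℕ, ∀ X : ℕ, X₀ ≤ X → ∀ P : Polynomial ℤ, DataM r P → ∀ A B : ℕ, B ≤ X →
      θ * X ≤ (B : ℝ) - A → ∀ D : ℕ, Real.log X ^ b ≤ D → (D : ℝ) ≤ (B : ℝ) - A →
      ∀ S : Finset ℕ, S ⊆ M t X P A B →
        ((APs k D S).card : ℝ) ≤ C' * (((B : ℝ) - A) * D * VM P X ^ k) ∧
        (δ * ((M t X P A B).card : ℝ) ≤ S.card →
          c' * (((B : ℝ) - A) * D * VM P X ^ k) ≤ ((APs k D S).card : ℝ)) ∧
        (δ * (((B : ℝ) - A) * D * VM P X ^ k) ≤ ((APs k D S).card : ℝ) →
          c' * ((M t X P A B).card : ℝ) ≤ S.card)) := by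
  classical
  obtain ⟨t, ht, c, C, hc, hC, H1, H2⟩ := core (r + 1)
  have ht0 : (0 : ℝ) < t := by exact_mod_cast ht
  have hbig : ∃ X₁ : ℕ, ∀ X : ℕ, X₁ ≤ X → (3 : ℝ) ≤ ((6 * X : ℕ) : ℝ) ^ (1 / (t : ℝ)) := by
    have := ((tendsto_rpow_atTop (show (0 : ℝ) < 1 / t by positivity)).comp
      (tendsto_natCast_atTop_atTop (R := ℝ))).eventually (eventually_ge_atTop 3)
    obtain ⟨X₁, h⟩ := eventually_atTop.1 this
    exact ⟨X₁, fun X hX => h (6 * X) (by omega)⟩
  obtain ⟨X₁, hX₁⟩ := hbig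
  have hlog : ∀ X : ℕ, 6 ≤ X → 0 < Real.log X ∧ Real.log ((6 * X : ℕ) : ℝ) ≤ 2 * Real.log X := by
    intro X hX
    have hXr : (6 : ℝ) ≤ X := by exact_mod_cast hX
    refine ⟨Real.log_pos (by linarith), ?_⟩
    push_cast
    have h1 := Real.log_le_log (by linarith : (0 : ℝ) < 6 * X) (by nlinarith : (6 : ℝ) * X ≤ X ^ 2)
    rwa [Real.log_pow, Nat.cast_ofNat] at h1
  refine ⟨t, ht, min c (6 * (c / 2 ^ (r + 2))), C, by positivity, hC, ?_, ?_⟩
  · intro θ hθ
    obtain ⟨X₀, h1⟩ := H1 θ hθ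
    refine ⟨max X₀ (max X₁ 6), fun X hX P D => ?_⟩
    have a1 : X₀ ≤ X := (le_max_left _ _).trans hX
    have a2 : X₁ ≤ X := le_trans (le_trans (le_max_left _ _) (le_max_right _ _)) hX
    have a3 : 6 ≤ X := le_trans (le_trans (le_max_right _ _) (le_max_right _ _)) hX
    obtain ⟨g1, g2⟩ := h1 (6 * X) (by omega) (Fm P) (-2) (D.sys (by omega))
    rw [VM_eq P (by omega)] at g1
    have hV0 : 0 ≤ VM P X := by
      have h2 := (Pool.Agent.Y840.CT.VF_mono (D.sys (X := X) (by omega)).loc (le_refl (6 * X))).2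
      rw [VM_eq P (by omega)] at h2
      linarith
    refine ⟨?_, fun A B hB hAB => ?_⟩
    · obtain ⟨l1, l2⟩ := hlog X a3
      have l3 : 0 < Real.log ((6 * X : ℕ) : ℝ) := Real.log_pos (by exact_mod_cast (by omega : 1 < 6 * X))
      have h3 : c / (2 * Real.log X) ^ (r + 2) ≤ c / Real.log ((6 * X : ℕ) : ℝ) ^ (r + 2) :=
        div_le_div_of_nonneg_left hc.le (by positivity) (pow_le_pow_left₀ l3.le l2 _)
      calc min c (6 * (c / 2 ^ (r + 2))) / Real.log X ^ (r + 2)
          ≤ (6 * (c / 2 ^ (r + 2))) / Real.log X ^ (r + 2) :=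
            div_le_div_of_nonneg_right (min_le_right _ _) (by positivity)
        _ = 6 * (c / (2 * Real.log X) ^ (r + 2)) := by
            rw [mul_pow]
            field_simp
        _ ≤ 6 * (1 / 6 * VM P X) := by
            apply mul_le_mul_of_nonneg_left (h3.trans g1) (by norm_num)
        _ = VM P X := by ring
    · have g3 := g2 (6 * A) (6 * B) (by omega) (by
        push_cast
        linarith)
      rw [VM_eq P (by omega), GoodM_eq D (hX₁ X a2), card_M _ (subset_refl _)] at g3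
      push_cast at g3
      have hBA : 0 ≤ (B : ℝ) - A := le_trans (by positivity) hAB
      have e : (6 * (B : ℝ) - 6 * A) * (1 / 6 * VM P X) = ((B : ℝ) - A) * VM P X := by ring
      rw [e] at g3
      refine ⟨le_trans ?_ g3.1, g3.2⟩
      exact mul_le_mul_of_nonneg_right (min_le_left _ _) (by positivity)
  · intro k hk δ hδ
    obtain ⟨c', C', hc', hC', b, h1⟩ := H2 k (by omega) (min δ (δ * (6 ^ k / 36))) (by positivity)
    refine ⟨min c' (c' * (36 / 6 ^ k)), C' * (36 / 6 ^ k), by positivity, by positivity, b + 1, ?_⟩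
    intro θ hθ
    obtain ⟨X₀, h2⟩ := h1 θ hθ
    obtain ⟨X₂, hX₂⟩ : ∃ X₂ : ℕ, ∀ X : ℕ, X₂ ≤ X → (2 : ℝ) ^ b ≤ Real.log X := by
      have := (Real.tendsto_log_atTop.comp (tendsto_natCast_atTop_atTop (R := ℝ))).eventually
        (eventually_ge_atTop ((2 : ℝ) ^ b))
      exact eventually_atTop.1 this
    refine ⟨max (max X₀ X₂) (max X₁ 6), fun X hX P D A B hB hAB d hd1 hd2 S hS => ?_⟩
    have a0 : X₀ ≤ X := le_trans (le_trans (le_max_left _ _) (le_max_left _ _)) hX
    have a1 : X₂ ≤ X := le_trans (le_trans (le_max_right _ _) (le_max_left _ _)) hX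
    have a2 : X₁ ≤ X := le_trans (le_trans (le_max_left _ _) (le_max_right _ _)) hX
    have a3 : 6 ≤ X := le_trans (le_trans (le_max_right _ _) (le_max_right _ _)) hX
    obtain ⟨l1, l2⟩ := hlog X a3
    have l3 : 0 < Real.log ((6 * X : ℕ) : ℝ) := Real.log_pos (by exact_mod_cast (by omega : 1 < 6 * X))
    have hd3 : Real.log ((6 * X : ℕ) : ℝ) ^ b ≤ ((6 * d : ℕ) : ℝ) := by
      calc Real.log ((6 * X : ℕ) : ℝ) ^ b ≤ (2 * Real.log X) ^ b := pow_le_pow_left₀ l3.le l2 b
        _ = 2 ^ b * Real.log X ^ b := mul_pow _ _ _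
        _ ≤ Real.log X * Real.log X ^ b := mul_le_mul_of_nonneg_right (hX₂ X a1) (by positivity)
        _ = Real.log X ^ (b + 1) := by ring
        _ ≤ d := hd1
        _ ≤ ((6 * d : ℕ) : ℝ) := by
            push_cast
            have : (0 : ℝ) ≤ d := Nat.cast_nonneg d
            linarith
    have hSi : S.image (fun m => 6 * m - 1) ⊆ GoodF t (6 * X) (6 * A) (6 * B) (Fm P) (-2) := by
      rw [GoodM_eq D (hX₁ X a2)]
      exact image_subset_image hS
    have hS1 : ∀ m ∈ S, 1 ≤ m := by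
      intro m hm
      have h3 := hS hm
      unfold M at h3
      rw [mem_filter, mem_Ioc] at h3
      omega
    have g := h2 (6 * X) (by omega) (Fm P) (-2) (D.sys (by omega)) (6 * A) (6 * B) (by omega) (by
      push_cast
      linarith) (6 * d) hd3 (by
      push_cast
      linarith) (S.image (fun m => 6 * m - 1)) hSi
    rw [GoodM_eq D (hX₁ X a2), card_M _ (subset_refl _), card_M _ hS, APs_six hk S hS1,
      VM_eq P (by omega)] at g
    push_cast at g
    have hV0 : 0 ≤ VM P X := by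
      have h2 := (Pool.Agent.Y840.CT.VF_mono (D.sys (X := X) (by omega)).loc (le_refl (6 * X))).2
      rw [VM_eq P (by omega)] at h2
      linarith
    have hBA : 0 ≤ (B : ℝ) - A := le_trans (by positivity) hAB
    have hd0 : (0 : ℝ) ≤ d := Nat.cast_nonneg d
    obtain ⟨E, hE⟩ : ∃ E : ℝ, E = ((B : ℝ) - A) * d * VM P X ^ k := ⟨_, rfl⟩
    have hE0 : 0 ≤ E := by
      rw [hE]
      positivity
    have e : (6 * (B : ℝ) - 6 * A) * (6 * d) * (1 / 6 * VM P X) ^ k = 36 / 6 ^ k * E := by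
      rw [hE, mul_pow, div_pow, one_pow]
      ring
    rw [e] at g
    rw [← hE]
    obtain ⟨g1, g2, g3⟩ := g
    have h6 : (0 : ℝ) < 6 ^ k := by positivity
    refine ⟨?_, ?_, ?_⟩
    · calc ((APs k d S).card : ℝ) ≤ C' * (36 / 6 ^ k * E) := g1
        _ = C' * (36 / 6 ^ k) * E := by ring
    · intro hh
      have h3 : min δ (δ * (6 ^ k / 36)) * ((M t X P A B).card : ℝ) ≤ S.card :=
        (mul_le_mul_of_nonneg_right (min_le_left _ _) (Nat.cast_nonneg _)).trans hh
      refine le_trans ?_ (g2 h3)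
      calc min c' (c' * (36 / 6 ^ k)) * E ≤ (c' * (36 / 6 ^ k)) * E :=
            mul_le_mul_of_nonneg_right (min_le_right _ _) hE0
        _ = c' * (36 / 6 ^ k * E) := by ring
    · intro hh
      have h3 : min δ (δ * (6 ^ k / 36)) * (36 / 6 ^ k * E) ≤ ((APs k d S).card : ℝ) := by
        refine le_trans ?_ hh
        calc min δ (δ * (6 ^ k / 36)) * (36 / 6 ^ k * E) ≤ (δ * (6 ^ k / 36)) * (36 / 6 ^ k * E) :=
              mul_le_mul_of_nonneg_right (min_le_right _ _) (by positivity)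
          _ = δ * E := by
              field_simp
      refine le_trans ?_ (g3 h3)
      exact mul_le_mul_of_nonneg_right (min_le_left _ _) (Nat.cast_nonneg _)

end Pool.Agent.V11316.CP
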