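import Pool.Agent.V11316.CP1
import Pool.Agent.V11316.CP2

/-!
# Chen's theorem for patterns, with no other numbers without small prime factors in the window
-/

set_option autoImplicit false

namespace Pool.Agent.V11316.CP

open Finset Filter
open Pool.Agent.Y843.HS (Pr VV Pr_mem Pr_prime)
open Pool.Agent.Y843.HG (V1 V1_bounds)
open Pool.Agent.Y840.CT (Rough SysF GoodF VF rho VF_mono)
open Pool.Agent.Y843.AC (APs)

theorem Rough_neg' {t : ℕ} {y : ℝ} {k : ℤ} (h : Rough t y k) : Rough t y (-k) := by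
  obtain ⟨h1, h2, h3⟩ := h
  exact ⟨neg_ne_zero.2 h1, by rwa [Int.natAbs_neg], fun q hq hd => h3 q hq ((dvd_neg).1 hd)⟩

/-- the shifts: minus the elements of `T` -/
def Ft (T : Finset ℤ) (_ : ℕ) : Finset ℤ := (T.erase 0).image (fun s => -s)

/-- no local obstruction -/
def AdmT (T : Finset ℤ) : Prop := ∀ q : ℕ, q.Prime → ∃ y : ℤ, ∀ s ∈ T, ¬ (q : ℤ) ∣ y + s

theorem mem_Ft {T : Finset ℤ} {q : ℕ} {a : ℤ} : a ∈ Ft T q ↔ ∃ s ∈ T, s ≠ 0 ∧ a = -s := by
  unfold Ft
  rw [mem_image]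
  constructor
  · rintro ⟨s, hs, rfl⟩
    rw [mem_erase] at hs
    exact ⟨s, hs.2, hs.1, rfl⟩
  · rintro ⟨s, h1, h2, rfl⟩
    exact ⟨s, mem_erase.2 ⟨h2, h1⟩, rfl⟩

theorem sysT {T : Finset ℤ} {L X : ℕ} (hadm : AdmT T) (h0 : (0 : ℤ) ∈ T) (hT : ∀ s ∈ T, |s| ≤ L)
    (hX : L ≤ X) {h : ℤ} (hh : h ∈ T) (hne : h ≠ 0) : SysF (T.card - 1) X (Ft T) (-h) := by
  classical
  refine ⟨?_, neg_ne_zero.2 hne, ?_, ?_, ?_⟩
  · intro q _
    unfold Ft
    refine card_image_le.trans ?_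
    rw [card_erase_of_mem h0]
  · rw [abs_neg]
    exact (hT h hh).trans (by exact_mod_cast hX)
  · intro q _
    exact mem_Ft.2 ⟨h, hh, hne, rfl⟩
  · intro q hq
    obtain ⟨y, hy⟩ := hadm q hq
    apply rho_lt hq.pos y
    · have := hy 0 h0
      rwa [add_zero] at this
    · intro a ha hd
      obtain ⟨s, hs, _, rfl⟩ := mem_Ft.1 ha
      apply hy s hs
      have := (dvd_neg (a := (q : ℤ))).2 hd
      have e : -(-s - y) = y + s := by ring
      rwa [e] at this

/-- the number of the classes for the large primes -/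
theorem rho_large {T : Finset ℤ} {L q : ℕ} (h0 : (0 : ℤ) ∈ T) (hT : ∀ s ∈ T, |s| ≤ L)
    (hq : 2 * L < q) : rho (Ft T q) q = T.card := by
  classical
  have hq0 : (0 : ℤ) < q := by exact_mod_cast (by omega : 0 < q)
  have e1 : insert 0 (Ft T q) = T.image (fun s => -s) := by
    ext a
    rw [mem_insert, mem_Ft, mem_image]
    constructor
    · rintro (rfl | ⟨s, h1, _, rfl⟩)
      · exact ⟨0, h0, by simp⟩
      · exact ⟨s, h1, rfl⟩
    · rintro ⟨s, h1, rfl⟩
      by_cases hs : s = 0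
      · left
        rw [hs, neg_zero]
      · right
        exact ⟨s, h1, hs, rfl⟩
  unfold rho
  rw [e1, image_image, card_image_of_injOn]
  intro a ha b hb hab
  simp only [Function.comp] at hab
  have h1 : (q : ℤ) ∣ -b - -a := Int.modEq_iff_dvd.1 hab
  have h2 := hT a ha
  have h3 := hT b hb
  rw [abs_le] at h2 h3
  obtain ⟨m, hm⟩ := h1
  have h4 : (2 * (L : ℤ)) < q := by exact_mod_cast hq
  rcases lt_trichotomy m 0 with h5 | h5 | h5
  · nlinarith
  · subst h5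
    linarith
  · nlinarith

/-- the sieve product from above -/
theorem VF_up (T : Finset ℤ) (L : ℕ) (h0 : (0 : ℤ) ∈ T) (hT : ∀ s ∈ T, |s| ≤ L) (hadm : AdmT T) :
    ∃ C : ℝ, 0 < C ∧ ∀ X : ℕ, 2 ≤ X → VF (Ft T) X ≤ C / Real.log X ^ T.card := by
  classical
  obtain ⟨c1, C1, hc1, hC1, hV⟩ := V1_bounds
  obtain ⟨k, hk⟩ : ∃ k : ℕ, k = T.card := ⟨_, rfl⟩
  refine ⟨2 ^ (k * (2 * L + 1)) * C1 ^ k, by positivity, fun X hX => ?_⟩
  have hlX : 0 < Real.log X := Real.log_pos (by exact_mod_cast (by omega : 1 < X))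
  have hloc : ∀ q : ℕ, q.Prime → rho (Ft T q) q < q := by
    intro q hq
    obtain ⟨y, hy⟩ := hadm q hq
    apply rho_lt hq.pos y
    · have := hy 0 h0
      rwa [add_zero] at this
    · intro a ha hd
      obtain ⟨s, hs, _, rfl⟩ := mem_Ft.1 ha
      apply hy s hs
      have := (dvd_neg (a := (q : ℤ))).2 hd
      have e : -(-s - y) = y + s := by ring
      rwa [e] at this
  have hV1 : V1 X = ∏ p ∈ (Icc 1 X).filter Nat.Prime, (1 - 1 / (p : ℝ)) := by
    unfold V1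
    apply prod_congr
    · ext q
      rw [Pr_mem, mem_filter, mem_Icc]
      constructor
      · rintro ⟨⟨a, b⟩, c⟩
        exact ⟨⟨c.pos, b⟩, c⟩
      · rintro ⟨⟨a, b⟩, c⟩
        exact ⟨⟨c.pos, b⟩, c⟩
    · intro q _
      rfl
  have hfac : ∀ q ∈ (Icc 1 X).filter Nat.Prime, 0 ≤ 1 - (rho (Ft T q) q : ℝ) / q ∧
      1 - (rho (Ft T q) q : ℝ) / q ≤ (1 - 1 / (q : ℝ)) ^ k * (if q ≤ 2 * L then 2 ^ k else 1) := by
    intro q hq
    rw [mem_filter] at hq
    have hqp := hq.2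
    have hq2 : (2 : ℝ) ≤ q := by exact_mod_cast hqp.two_le
    have hq0 : (0 : ℝ) < q := by linarith
    constructor
    · rw [sub_nonneg, div_le_one hq0]
      exact_mod_cast (hloc q hqp).le
    · split_ifs with h1
      · have h2 : (1 : ℝ) / 2 ≤ 1 - 1 / (q : ℝ) := by
          rw [le_sub_comm]
          rw [div_le_iff₀ hq0]
          linarith
        have h3 : (1 : ℝ) ≤ (1 - 1 / (q : ℝ)) ^ k * 2 ^ k := by
          rw [← mul_pow]
          apply one_le_pow₀
          linarith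
        refine le_trans ?_ h3
        have : (0 : ℝ) ≤ (rho (Ft T q) q : ℝ) / q := by positivity
        linarith
      · rw [mul_one, rho_large h0 hT (by omega), ← hk]
        have h2 : (-2 : ℝ) ≤ -(1 / (q : ℝ)) := by
          have : 1 / (q : ℝ) ≤ 1 := by
            rw [div_le_one hq0]
            linarith
          linarith
        have := one_add_mul_le_pow h2 k
        calc 1 - (k : ℝ) / q = 1 + (k : ℝ) * (-(1 / (q : ℝ))) := by ring
          _ ≤ (1 + -(1 / (q : ℝ))) ^ k := this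
          _ = _ := by rw [← sub_eq_add_neg]
  have hprod : VF (Ft T) X ≤ V1 X ^ k * 2 ^ (k * (2 * L + 1)) := by
    unfold VF
    refine (Finset.prod_le_prod (fun q hq => (hfac q hq).1) (fun q hq => (hfac q hq).2)).trans ?_
    rw [prod_mul_distrib, prod_pow, ← hV1]
    apply mul_le_mul_of_nonneg_left
    · rw [prod_ite, prod_const, prod_const, one_pow, mul_one, ← pow_mul]
      apply pow_le_pow_right₀ (by norm_num)
      apply Nat.mul_le_mul_left
      refine (card_le_card (t := range (2 * L + 1)) ?_).trans (by rw [card_range])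
      intro q hq
      rw [mem_filter] at hq
      exact mem_range.2 (by omega)
    · have := (hV X hX).1
      have h2 : 0 < c1 / Real.log X := by positivity
      exact pow_nonneg (by linarith) k
  refine hprod.trans ?_
  have h1 : V1 X ^ k ≤ (C1 / Real.log X) ^ k := by
    apply pow_le_pow_left₀ _ (hV X hX).2
    have := (hV X hX).1
    have h2 : 0 < c1 / Real.log X := by positivity
    linarith
  rw [← hk]
  calc V1 X ^ k * 2 ^ (k * (2 * L + 1)) ≤ (C1 / Real.log X) ^ k * 2 ^ (k * (2 * L + 1)) :=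
        mul_le_mul_of_nonneg_right h1 (by positivity)
    _ = 2 ^ (k * (2 * L + 1)) * C1 ^ k / Real.log X ^ k := by
        rw [div_pow]
        ring

/-- the upper bound sieve, for every level -/
theorem upper (r t : ℕ) (ht : 1 ≤ t) : ∃ C : ℝ, 0 < C ∧ ∀ θ : ℝ, 0 < θ → ∃ X₀ : ℕ, ∀ X : ℕ, X₀ ≤ X →
    ∀ (F : ℕ → Finset ℤ) (h0 : ℤ), SysF r X F h0 → ∀ A B : ℕ, B ≤ X → θ * X ≤ (B : ℝ) - A →
    ∀ S : Finset ℕ, S ⊆ Ioc A B → (∀ n ∈ S, ∀ p : ℕ, p.Prime → (p : ℝ) ≤ (X : ℝ) ^ (1 / (t : ℝ)) →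
      n % p ∉ Pool.Agent.Y843.HG.Z0 (Pool.Agent.Y840.CT.OmF F) p) →
      (S.card : ℝ) ≤ C * (((B : ℝ) - A) * VF F X) := by
  classical
  have ht0 : (0 : ℝ) < t := by exact_mod_cast ht
  have hκ : (0 : ℝ) < 1 / (t : ℝ) := by positivity
  obtain ⟨cD, hcD, hD⟩ := V_cmp r t ht
  obtain ⟨C1, hC1, B1, Y1, hU1⟩ := Pool.Agent.Y843.AC.upa_all (r + 1) 1 (1 / (t : ℝ)) le_rfl hκ
  refine ⟨C1 / cD, by positivity, fun θ hθ => ?_⟩
  obtain ⟨X₁, h1⟩ := hD θ hθ
  refine ⟨max (max X₁ ⌈((max Y1 3 : ℕ) : ℝ) / θ⌉₊) 1, fun X hX F h0 S A B hBX hAB S' hS1 hS2 => ?_⟩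
  have hXp : (0 : ℝ) < X := by exact_mod_cast (show 0 < X from (le_max_right _ _).trans hX)
  obtain ⟨w1, w2, w3⟩ := window (by positivity) hAB
  obtain ⟨W, hWdef⟩ : ∃ W : ℕ, W = B - A := ⟨_, rfl⟩
  rw [← hWdef] at w2 w3
  rw [← w2] at hAB ⊢
  have hW : max Y1 3 ≤ W := by
    have h2 : ((max Y1 3 : ℕ) : ℝ) / θ ≤ X := (Nat.le_ceil _).trans
      (by exact_mod_cast le_trans (le_trans (le_max_right _ _) (le_max_left _ _)) hX)
    rw [div_le_iff₀ hθ] at h2
    have : ((max Y1 3 : ℕ) : ℝ) ≤ W := by linarith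
    exact_mod_cast this
  have hWY : Y1 ≤ W := (le_max_left _ _).trans hW
  have hW3 : 3 ≤ W := (le_max_right _ _).trans hW
  have hWX : W ≤ X := by omega
  have hcmp := h1 X (le_trans (le_trans (le_max_left _ _) (le_max_left _ _)) hX) F h0 S W hWX hAB
  obtain ⟨D, hDdef⟩ : ∃ D : ℕ, D = max 1 ⌈Real.log W ^ B1⌉₊ := ⟨_, rfl⟩
  have hD1 : 1 ≤ D := by rw [hDdef]; exact le_max_left _ _
  have hDlog : Real.log W ^ B1 ≤ D := by
    rw [hDdef]
    exact (Nat.le_ceil _).trans (by exact_mod_cast le_max_right _ _)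
  have h3 := hU1 W A D hWY hDlog _ (fun p hp _ => zok S hp) S' (by rw [w3]; exact hS1) (by
      intro n hn p hp hpW
      refine hS2 n hn p hp (hpW.trans ?_)
      exact Real.rpow_le_rpow (Nat.cast_nonneg _) (by exact_mod_cast hWX) hκ.le)
  rw [Pool.Agent.Y843.AC.aps_one, pow_one] at h3
  push_cast at h3
  have hDr : (0 : ℝ) < D := by exact_mod_cast hD1
  have h4 : (S'.card : ℝ) ≤ C1 * W * VV (Pool.Agent.Y843.HG.Z0 (Pool.Agent.Y840.CT.OmF F)) 0
      ⌊(W : ℝ) ^ (1 / (t : ℝ))⌋₊ := by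
    have h5 : (S'.card : ℝ) * D ≤ (C1 * W * VV (Pool.Agent.Y843.HG.Z0 (Pool.Agent.Y840.CT.OmF F)) 0
        ⌊(W : ℝ) ^ (1 / (t : ℝ))⌋₊) * D := by
      refine h3.trans (le_of_eq ?_)
      ring
    exact le_of_mul_le_mul_right h5 hDr
  refine h4.trans ?_
  have h6 : VV (Pool.Agent.Y843.HG.Z0 (Pool.Agent.Y840.CT.OmF F)) 0 ⌊(W : ℝ) ^ (1 / (t : ℝ))⌋₊ ≤
      VF F X / cD := by
    rw [le_div_iff₀ hcD, mul_comm]
    exact hcmp.2
  calc C1 * W * VV (Pool.Agent.Y843.HG.Z0 (Pool.Agent.Y840.CT.OmF F)) 0 ⌊(W : ℝ) ^ (1 / (t : ℝ))⌋₊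
      ≤ C1 * W * (VF F X / cD) := mul_le_mul_of_nonneg_left h6 (by positivity)
    _ = C1 / cD * (W * VF F X) := by ring

open Classical in
/-- the good `n` for which all the other numbers `n + e`, `|e| ≤ L`, have a prime factor `≤ X ^ (1/t)` -/
noncomputable def I (t X : ℕ) (T : Finset ℤ) (h : ℤ) (L A B : ℕ) : Finset ℕ :=
  (GoodF t X A B (Ft T) (-h)).filter (fun n : ℕ => ∀ e : ℤ, |e| ≤ L → e ∉ T →
    ∃ q : ℕ, q.Prime ∧ (q : ℝ) ≤ (X : ℝ) ^ (1 / (t : ℝ)) ∧ (q : ℤ) ∣ n + e)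

/-- **Chen's theorem for exact patterns.** -/
theorem pattern (T : Finset ℤ) (h0 : (0 : ℤ) ∈ T) (hadm : AdmT T) (h : ℤ) (hh : h ∈ T) (hne : h ≠ 0)
    (L : ℕ) (hT : ∀ s ∈ T, |s| ≤ L) : ∃ t : ℕ, 1 ≤ t ∧ ∃ c C : ℝ, 0 < c ∧ 0 < C ∧
    (∀ θ : ℝ, 0 < θ → ∃ X₀ : ℕ, ∀ X : ℕ, X₀ ≤ X → ∀ A B : ℕ, B ≤ X → θ * X ≤ (B : ℝ) - A →
        c * (((B : ℝ) - A) / Real.log X ^ T.card) ≤ ((I t X T h L A B).card : ℝ) ∧
        ((I t X T h L A B).card : ℝ) ≤ C * (((B : ℝ) - A) / Real.log X ^ T.card)) ∧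
    (∀ k : ℕ, 1 ≤ k → ∀ δ : ℝ, 0 < δ → ∃ c' C' : ℝ, 0 < c' ∧ 0 < C' ∧ ∃ b : ℕ, ∀ θ : ℝ, 0 < θ →
      ∃ X₀ : ℕ, ∀ X : ℕ, X₀ ≤ X → ∀ A B : ℕ, B ≤ X →
      θ * X ≤ (B : ℝ) - A → ∀ D : ℕ, Real.log X ^ b ≤ D → (D : ℝ) ≤ (B : ℝ) - A →
      ∀ S : Finset ℕ, S ⊆ I t X T h L A B →
        ((APs k D S).card : ℝ) ≤ C' * (((B : ℝ) - A) * D / Real.log X ^ (k * T.card)) ∧
        (δ * ((I t X T h L A B).card : ℝ) ≤ S.card →
          c' * (((B : ℝ) - A) * D / Real.log X ^ (k * T.card)) ≤ ((APs k D S).card : ℝ)) ∧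
        (δ * (((B : ℝ) - A) * D / Real.log X ^ (k * T.card)) ≤ ((APs k D S).card : ℝ) →
          c' * ((I t X T h L A B).card : ℝ) ≤ S.card)) := by
  classical
  obtain ⟨t, ht, c, C, hc, hC, H1, H2⟩ := core (T.card - 1)
  have ht0 : (0 : ℝ) < t := by exact_mod_cast ht
  have hTc : T.card - 1 + 1 = T.card := by
    have : 0 < T.card := card_pos.2 ⟨0, h0⟩
    omega
  obtain ⟨Cu, hCu, hVu⟩ := VF_up T L h0 hT hadm
  -- the candidates
  obtain ⟨Es, hEs⟩ : ∃ Es : Finset ℤ, Es = (Icc (-(L : ℤ)) L).filter (fun e => e ∉ T) := ⟨_, rfl⟩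
  have hEs' : ∀ e : ℤ, e ∈ Es ↔ |e| ≤ L ∧ e ∉ T := by
    intro e
    rw [hEs, mem_filter, mem_Icc, abs_le]
  -- one candidate
  have hone : ∀ e ∈ Es, ∃ C2 : ℝ, 0 < C2 ∧ ∀ θ : ℝ, 0 < θ → ∃ X₀ : ℕ, ∀ X : ℕ, X₀ ≤ X →
      ∀ A B : ℕ, B ≤ X → θ * X ≤ (B : ℝ) - A →
      (((GoodF t X A B (Ft T) (-h)).filter (fun n : ℕ => ∀ q : ℕ, q.Prime →
        (q : ℝ) ≤ (X : ℝ) ^ (1 / (t : ℝ)) → ¬ (q : ℤ) ∣ n + e)).card : ℝ) ≤
          C2 * (((B : ℝ) - A) / Real.log X ^ (T.card + 1)) := by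
    intro e he
    obtain ⟨he1, he2⟩ := (hEs' e).1 he
    have he0 : e ≠ 0 := fun h => he2 (h ▸ h0)
    have hTe : ∀ s ∈ insert e T, |s| ≤ L := by
      intro s hs
      rw [mem_insert] at hs
      rcases hs with rfl | hs
      · exact he1
      · exact hT s hs
    by_cases had : AdmT (insert e T)
    · obtain ⟨C3, hC3, hV3⟩ := VF_up (insert e T) L (mem_insert_of_mem h0) hTe had
      obtain ⟨C4, hC4, hU⟩ := upper ((insert e T).card - 1) t ht
      refine ⟨C4 * C3, by positivity, fun θ hθ => ?_⟩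
      obtain ⟨X₀, h1⟩ := hU θ hθ
      refine ⟨max X₀ (max L 2), fun X hX A B hB hAB => ?_⟩
      have a1 : X₀ ≤ X := (le_max_left _ _).trans hX
      have a2 : L ≤ X := le_trans (le_trans (le_max_left _ _) (le_max_right _ _)) hX
      have a3 : 2 ≤ X := le_trans (le_trans (le_max_right _ _) (le_max_right _ _)) hX
      have hBA : 0 ≤ (B : ℝ) - A := le_trans (by positivity) hAB
      have h2 := h1 X a1 (Ft (insert e T)) (-h)
        (sysT had (mem_insert_of_mem h0) hTe a2 (mem_insert_of_mem hh) hne) A B hB hAB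
        ((GoodF t X A B (Ft T) (-h)).filter (fun n : ℕ => ∀ q : ℕ, q.Prime →
          (q : ℝ) ≤ (X : ℝ) ^ (1 / (t : ℝ)) → ¬ (q : ℤ) ∣ n + e)) (by
          intro n hn
          rw [mem_filter] at hn
          have := hn.1
          unfold GoodF at this
          rw [mem_filter] at this
          exact this.1) (by
          intro n hn p hp hpX
          rw [mem_filter] at hn
          have h3 : n ∈ GoodF t X A B (Ft (insert e T)) (-h) := by
            have h4 := hn.1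
            unfold GoodF at h4 ⊢
            rw [mem_filter] at h4 ⊢
            refine ⟨h4.1, h4.2.1, h4.2.2.1, h4.2.2.2.1, ?_⟩
            intro q hq hqX a ha hd
            obtain ⟨s, hs, hs0, rfl⟩ := mem_Ft.1 ha
            rw [mem_insert] at hs
            rcases hs with rfl | hs
            · apply hn.2 q hq hqX
              have := (dvd_neg (a := (q : ℤ))).2 hd
              have e' : -(-s - (n : ℤ)) = n + s := by ring
              rwa [e'] at this
            · exact h4.2.2.2.2 q hq hqX (-s) (mem_Ft.2 ⟨s, hs, hs0, rfl⟩) hd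
          exact avoid h3 hp hpX)
      refine h2.trans ?_
      have h5 := hV3 X a3
      rw [card_insert_of_notMem he2] at h5
      calc C4 * (((B : ℝ) - A) * VF (Ft (insert e T)) X)
          ≤ C4 * (((B : ℝ) - A) * (C3 / Real.log X ^ (T.card + 1))) := by
            apply mul_le_mul_of_nonneg_left _ hC4.le
            exact mul_le_mul_of_nonneg_left h5 hBA
        _ = C4 * C3 * (((B : ℝ) - A) / Real.log X ^ (T.card + 1)) := by ring
    · unfold AdmT at had
      push Not at had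
      obtain ⟨q, hq, hq2⟩ := had
      refine ⟨1, one_pos, fun θ hθ => ?_⟩
      have := ((tendsto_rpow_atTop (show (0 : ℝ) < 1 / t by positivity)).comp
        (tendsto_natCast_atTop_atTop (R := ℝ))).eventually (eventually_ge_atTop (q : ℝ))
      obtain ⟨X₁, hX₁⟩ := eventually_atTop.1 this
      refine ⟨max X₁ 2, fun X hX A B hB hAB => ?_⟩
      have a1 : (q : ℝ) ≤ (X : ℝ) ^ (1 / (t : ℝ)) := hX₁ X ((le_max_left _ _).trans hX)
      have a3 : 2 ≤ X := (le_max_right _ _).trans hX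
      have hlX : 0 < Real.log X := Real.log_pos (by exact_mod_cast (by omega : 1 < X))
      have hBA : 0 ≤ (B : ℝ) - A := le_trans (by positivity) hAB
      have hemp : (GoodF t X A B (Ft T) (-h)).filter (fun n : ℕ => ∀ q : ℕ, q.Prime →
          (q : ℝ) ≤ (X : ℝ) ^ (1 / (t : ℝ)) → ¬ (q : ℤ) ∣ n + e) = ∅ := by
        apply filter_eq_empty_iff.2
        intro n hn hcon
        unfold GoodF at hn
        rw [mem_filter] at hn
        obtain ⟨hn0, hn1, hn2, hn3, hn4⟩ := hn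
        obtain ⟨s, hs, hd⟩ := hq2 n
        rw [mem_insert] at hs
        rcases hs with rfl | hs
        · exact hcon q hq a1 hd
        · by_cases hs0 : s = 0
          · subst hs0
            rw [add_zero] at hd
            have h5 : q ∣ n := by exact_mod_cast hd
            have h6 := (Nat.prime_dvd_prime_iff_eq hq hn1).1 h5
            rw [h6] at a1
            linarith
          · apply hn4 q hq a1 (-s) (mem_Ft.2 ⟨s, hs, hs0, rfl⟩)
            have := (dvd_neg (a := (q : ℤ))).2 hd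
            have e' : -((n : ℤ) + s) = -s - n := by ring
            rwa [e'] at this
      rw [hemp, card_empty]
      push_cast
      positivity
  choose! C2 hC2 hone2 using hone
  obtain ⟨Ct, hCt⟩ : ∃ Ct : ℝ, Ct = ∑ e ∈ Es, C2 e := ⟨_, rfl⟩
  have hCt0 : 0 ≤ Ct := by
    rw [hCt]
    exact sum_nonneg fun e he => (hC2 e he).le
  -- all candidates
  have hall : ∀ θ : ℝ, 0 < θ → ∃ X₀ : ℕ, ∀ X : ℕ, X₀ ≤ X → ∀ A B : ℕ, B ≤ X → θ * X ≤ (B : ℝ) - A →
      ((GoodF t X A B (Ft T) (-h)).card : ℝ) ≤ ((I t X T h L A B).card : ℝ) +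
        Ct * (((B : ℝ) - A) / Real.log X ^ (T.card + 1)) := by
    intro θ hθ
    have : ∀ e ∈ Es, ∃ X₀ : ℕ, ∀ X : ℕ, X₀ ≤ X → ∀ A B : ℕ, B ≤ X → θ * X ≤ (B : ℝ) - A →
      (((GoodF t X A B (Ft T) (-h)).filter (fun n : ℕ => ∀ q : ℕ, q.Prime →
        (q : ℝ) ≤ (X : ℝ) ^ (1 / (t : ℝ)) → ¬ (q : ℤ) ∣ n + e)).card : ℝ) ≤
          C2 e * (((B : ℝ) - A) / Real.log X ^ (T.card + 1)) := fun e he => hone2 e he θ hθ
    choose! X₀ hX₀ using this
    refine ⟨Es.sup X₀, fun X hX A B hB hAB => ?_⟩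
    have hsub : GoodF t X A B (Ft T) (-h) ⊆ I t X T h L A B ∪
        Es.biUnion (fun e => (GoodF t X A B (Ft T) (-h)).filter (fun n : ℕ => ∀ q : ℕ, q.Prime →
          (q : ℝ) ≤ (X : ℝ) ^ (1 / (t : ℝ)) → ¬ (q : ℤ) ∣ n + e)) := by
      intro n hn
      rw [mem_union]
      by_cases hI : n ∈ I t X T h L A B
      · left
        exact hI
      · right
        unfold I at hI
        rw [mem_filter] at hI
        push Not at hI
        obtain ⟨e, he1, he2, he3⟩ := hI hn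
        rw [mem_biUnion]
        refine ⟨e, (hEs' e).2 ⟨he1, he2⟩, ?_⟩
        rw [mem_filter]
        exact ⟨hn, he3⟩
    have h1 := (card_le_card hsub).trans (card_union_le _ _)
    have h2 : ((Es.biUnion (fun e => (GoodF t X A B (Ft T) (-h)).filter (fun n : ℕ => ∀ q : ℕ, q.Prime →
          (q : ℝ) ≤ (X : ℝ) ^ (1 / (t : ℝ)) → ¬ (q : ℤ) ∣ n + e))).card : ℝ) ≤
        Ct * (((B : ℝ) - A) / Real.log X ^ (T.card + 1)) := by
      rw [hCt, sum_mul]
      have h3 : ((Es.biUnion (fun e => (GoodF t X A B (Ft T) (-h)).filter (fun n : ℕ => ∀ q : ℕ,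
          q.Prime → (q : ℝ) ≤ (X : ℝ) ^ (1 / (t : ℝ)) → ¬ (q : ℤ) ∣ n + e))).card : ℝ) ≤
          ((∑ e ∈ Es, ((GoodF t X A B (Ft T) (-h)).filter (fun n : ℕ => ∀ q : ℕ,
          q.Prime → (q : ℝ) ≤ (X : ℝ) ^ (1 / (t : ℝ)) → ¬ (q : ℤ) ∣ n + e)).card : ℕ) : ℝ) := by
        exact_mod_cast card_biUnion_le
      refine h3.trans ?_
      push_cast
      apply sum_le_sum
      intro e he
      exact hX₀ e he X ((le_sup he).trans hX) A B hB hAB
    have h4 : ((GoodF t X A B (Ft T) (-h)).card : ℝ) ≤ ((I t X T h L A B).card : ℝ) +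
        ((Es.biUnion (fun e => (GoodF t X A B (Ft T) (-h)).filter (fun n : ℕ => ∀ q : ℕ, q.Prime →
          (q : ℝ) ≤ (X : ℝ) ^ (1 / (t : ℝ)) → ¬ (q : ℤ) ∣ n + e))).card : ℝ) := by
      exact_mod_cast h1
    linarith
  have hIsub : ∀ X A B : ℕ, I t X T h L A B ⊆ GoodF t X A B (Ft T) (-h) := fun X A B => filter_subset _ _
  -- the lower bound
  have hlow : ∀ θ : ℝ, 0 < θ → ∃ X₀ : ℕ, ∀ X : ℕ, X₀ ≤ X → ∀ A B : ℕ, B ≤ X → θ * X ≤ (B : ℝ) - A →
      c ^ 2 / 2 * (((B : ℝ) - A) / Real.log X ^ T.card) ≤ ((I t X T h L A B).card : ℝ) := by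
    intro θ hθ
    obtain ⟨X₁, h1⟩ := H1 θ hθ
    obtain ⟨X₂, h2⟩ := hall θ hθ
    have := (Real.tendsto_log_atTop.comp (tendsto_natCast_atTop_atTop (R := ℝ))).eventually
        (eventually_ge_atTop (2 * Ct / c ^ 2 + 1))
    obtain ⟨X₃, h3⟩ := eventually_atTop.1 this
    refine ⟨max (max X₁ X₂) (max X₃ (max L 2)), fun X hX A B hB hAB => ?_⟩
    have a1 : X₁ ≤ X := le_trans (le_trans (le_max_left _ _) (le_max_left _ _)) hX
    have a2 : X₂ ≤ X := le_trans (le_trans (le_max_right _ _) (le_max_left _ _)) hX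
    have a3 : X₃ ≤ X := le_trans (le_trans (le_max_left _ _) (le_max_right _ _)) hX
    have a4 : L ≤ X := le_trans (le_trans (le_trans (le_max_left _ _) (le_max_right _ _))
      (le_max_right _ _)) hX
    have hBA : 0 ≤ (B : ℝ) - A := le_trans (by positivity) hAB
    obtain ⟨g1, g2⟩ := h1 X a1 (Ft T) (-h) (sysT hadm h0 hT a4 hh hne)
    have g3 := (g2 A B hB hAB).1
    have g4 := h2 X a2 A B hB hAB
    rw [hTc] at g1
    have hlog : 2 * Ct / c ^ 2 + 1 ≤ Real.log X := h3 X a3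
    have hl1 : 1 ≤ Real.log X := by
      have : 0 ≤ 2 * Ct / c ^ 2 := by positivity
      linarith
    have hl0 : 0 < Real.log X := by linarith
    obtain ⟨E, hE⟩ : ∃ E : ℝ, E = ((B : ℝ) - A) / Real.log X ^ T.card := ⟨_, rfl⟩
    have hE0 : 0 ≤ E := by
      rw [hE]
      positivity
    have g5 : c ^ 2 * E ≤ ((GoodF t X A B (Ft T) (-h)).card : ℝ) := by
      refine le_trans ?_ g3
      have : c * (((B : ℝ) - A) * (c / Real.log X ^ T.card)) ≤ c * (((B : ℝ) - A) * VF (Ft T) X) := by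
        apply mul_le_mul_of_nonneg_left _ hc.le
        exact mul_le_mul_of_nonneg_left g1 hBA
      refine le_trans (le_of_eq ?_) this
      rw [hE]
      ring
    have g6 : Ct * (((B : ℝ) - A) / Real.log X ^ (T.card + 1)) ≤ c ^ 2 / 2 * E := by
      have e1 : Ct * (((B : ℝ) - A) / Real.log X ^ (T.card + 1)) = Ct / Real.log X * E := by
        rw [hE, pow_succ]
        field_simp
      rw [e1]
      apply mul_le_mul_of_nonneg_right _ hE0
      rw [div_le_iff₀ hl0]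
      have h5 : 2 * Ct / c ^ 2 ≤ Real.log X := by linarith
      rw [div_le_iff₀ (by positivity)] at h5
      linarith
    rw [← hE]
    linarith
  refine ⟨t, ht, c ^ 2 / 2, C * Cu, by positivity, by positivity, ?_, ?_⟩
  · intro θ hθ
    obtain ⟨X₁, h1⟩ := hlow θ hθ
    obtain ⟨X₂, h2⟩ := H1 θ hθ
    refine ⟨max (max X₁ X₂) (max L 2), fun X hX A B hB hAB => ?_⟩
    have a1 : X₁ ≤ X := le_trans (le_trans (le_max_left _ _) (le_max_left _ _)) hX
    have a2 : X₂ ≤ X := le_trans (le_trans (le_max_right _ _) (le_max_left _ _)) hX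
    have a3 : L ≤ X := le_trans (le_trans (le_max_left _ _) (le_max_right _ _)) hX
    have a4 : 2 ≤ X := le_trans (le_trans (le_max_right _ _) (le_max_right _ _)) hX
    have hBA : 0 ≤ (B : ℝ) - A := le_trans (by positivity) hAB
    refine ⟨h1 X a1 A B hB hAB, ?_⟩
    obtain ⟨g1, g2⟩ := h2 X a2 (Ft T) (-h) (sysT hadm h0 hT a3 hh hne)
    have g3 := (g2 A B hB hAB).2
    have g4 : ((I t X T h L A B).card : ℝ) ≤ ((GoodF t X A B (Ft T) (-h)).card : ℝ) := by
      exact_mod_cast card_le_card (hIsub X A B)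
    refine g4.trans (g3.trans ?_)
    have g5 := hVu X a4
    calc C * (((B : ℝ) - A) * VF (Ft T) X) ≤ C * (((B : ℝ) - A) * (Cu / Real.log X ^ T.card)) := by
          apply mul_le_mul_of_nonneg_left _ hC.le
          exact mul_le_mul_of_nonneg_left g5 hBA
      _ = C * Cu * (((B : ℝ) - A) / Real.log X ^ T.card) := by ring
  · intro k hk δ hδ
    obtain ⟨c', C', hc', hC', b, h1⟩ := H2 k hk (min (δ * (c ^ 2 / 2) / (C * Cu)) (δ / Cu ^ k))
      (by positivity)
    refine ⟨min (c' * c ^ k) c', C' * Cu ^ k, by positivity, by positivity, b, fun θ hθ => ?_⟩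
    obtain ⟨X₁, g1⟩ := hlow θ hθ
    obtain ⟨X₂, g2⟩ := H1 θ hθ
    obtain ⟨X₃, g3⟩ := h1 θ hθ
    refine ⟨max (max X₁ X₂) (max X₃ (max L 2)), fun X hX A B hB hAB D hD1 hD2 S hS => ?_⟩
    have a1 : X₁ ≤ X := le_trans (le_trans (le_max_left _ _) (le_max_left _ _)) hX
    have a2 : X₂ ≤ X := le_trans (le_trans (le_max_right _ _) (le_max_left _ _)) hX
    have a3 : X₃ ≤ X := le_trans (le_trans (le_max_left _ _) (le_max_right _ _)) hX
    have a4 : L ≤ X := le_trans (le_trans (le_trans (le_max_left _ _) (le_max_right _ _))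
      (le_max_right _ _)) hX
    have a5 : 2 ≤ X := le_trans (le_trans (le_trans (le_max_right _ _) (le_max_right _ _))
      (le_max_right _ _)) hX
    have hBA : 0 ≤ (B : ℝ) - A := le_trans (by positivity) hAB
    have hl0 : 0 < Real.log X := Real.log_pos (by exact_mod_cast (by omega : 1 < X))
    have hsys := sysT hadm h0 hT a4 hh hne
    obtain ⟨f1, f2⟩ := g2 X a2 (Ft T) (-h) hsys
    have f3 := (f2 A B hB hAB).2
    have f4 := g1 X a1 A B hB hAB
    have f5 := hVu X a5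
    rw [hTc] at f1
    obtain ⟨e1, e2, e3⟩ := g3 X a3 (Ft T) (-h) hsys A B hB hAB D hD1 hD2 S (hS.trans (hIsub X A B))
    have hV0 : 0 ≤ VF (Ft T) X := (VF_mono hsys.loc le_rfl).2
    have hD0 : (0 : ℝ) ≤ D := Nat.cast_nonneg _
    obtain ⟨E, hE⟩ : ∃ E : ℝ, E = ((B : ℝ) - A) * D / Real.log X ^ (k * T.card) := ⟨_, rfl⟩
    have hE0 : 0 ≤ E := by
      rw [hE]
      positivity
    have hup : ((B : ℝ) - A) * D * VF (Ft T) X ^ k ≤ Cu ^ k * E := by
      have : VF (Ft T) X ^ k ≤ (Cu / Real.log X ^ T.card) ^ k := pow_le_pow_left₀ hV0 f5 k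
      calc ((B : ℝ) - A) * D * VF (Ft T) X ^ k ≤ ((B : ℝ) - A) * D * (Cu / Real.log X ^ T.card) ^ k :=
            mul_le_mul_of_nonneg_left this (by positivity)
        _ = Cu ^ k * E := by
            rw [hE, div_pow, ← pow_mul, mul_comm T.card k]
            ring
    have hdn : c ^ k * E ≤ ((B : ℝ) - A) * D * VF (Ft T) X ^ k := by
      have : (c / Real.log X ^ T.card) ^ k ≤ VF (Ft T) X ^ k := pow_le_pow_left₀ (by positivity) f1 k
      calc c ^ k * E = ((B : ℝ) - A) * D * (c / Real.log X ^ T.card) ^ k := by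
            rw [hE, div_pow, ← pow_mul, mul_comm T.card k]
            ring
        _ ≤ _ := mul_le_mul_of_nonneg_left this (by positivity)
    have hGI : ((GoodF t X A B (Ft T) (-h)).card : ℝ) ≤
        (C * Cu) / (c ^ 2 / 2) * ((I t X T h L A B).card : ℝ) := by
      have h5 : ((GoodF t X A B (Ft T) (-h)).card : ℝ) ≤ C * Cu * (((B : ℝ) - A) / Real.log X ^ T.card) := by
        refine f3.trans ?_
        calc C * (((B : ℝ) - A) * VF (Ft T) X) ≤ C * (((B : ℝ) - A) * (Cu / Real.log X ^ T.card)) := by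
              apply mul_le_mul_of_nonneg_left _ hC.le
              exact mul_le_mul_of_nonneg_left f5 hBA
          _ = _ := by ring
      refine h5.trans ?_
      rw [div_mul_eq_mul_div, le_div_iff₀ (by positivity)]
      calc C * Cu * (((B : ℝ) - A) / Real.log X ^ T.card) * (c ^ 2 / 2)
          = C * Cu * (c ^ 2 / 2 * (((B : ℝ) - A) / Real.log X ^ T.card)) := by ring
        _ ≤ C * Cu * ((I t X T h L A B).card : ℝ) := mul_le_mul_of_nonneg_left f4 (by positivity)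
    have hIG : ((I t X T h L A B).card : ℝ) ≤ ((GoodF t X A B (Ft T) (-h)).card : ℝ) := by
      exact_mod_cast card_le_card (hIsub X A B)
    rw [← hE]
    refine ⟨?_, ?_, ?_⟩
    · calc ((APs k D S).card : ℝ) ≤ C' * (((B : ℝ) - A) * D * VF (Ft T) X ^ k) := e1
        _ ≤ C' * (Cu ^ k * E) := mul_le_mul_of_nonneg_left hup hC'.le
        _ = C' * Cu ^ k * E := by ring
    · intro hh2
      have h5 : min (δ * (c ^ 2 / 2) / (C * Cu)) (δ / Cu ^ k) *
          ((GoodF t X A B (Ft T) (-h)).card : ℝ) ≤ S.card := by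
        refine le_trans ?_ hh2
        calc min (δ * (c ^ 2 / 2) / (C * Cu)) (δ / Cu ^ k) * ((GoodF t X A B (Ft T) (-h)).card : ℝ)
            ≤ (δ * (c ^ 2 / 2) / (C * Cu)) * ((GoodF t X A B (Ft T) (-h)).card : ℝ) :=
              mul_le_mul_of_nonneg_right (min_le_left _ _) (Nat.cast_nonneg _)
          _ ≤ (δ * (c ^ 2 / 2) / (C * Cu)) * ((C * Cu) / (c ^ 2 / 2) * ((I t X T h L A B).card : ℝ)) :=
              mul_le_mul_of_nonneg_left hGI (by positivity)
          _ = δ * ((I t X T h L A B).card : ℝ) := by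
              field_simp
      refine le_trans ?_ (e2 h5)
      calc min (c' * c ^ k) c' * E ≤ c' * c ^ k * E := mul_le_mul_of_nonneg_right (min_le_left _ _) hE0
        _ = c' * (c ^ k * E) := by ring
        _ ≤ _ := mul_le_mul_of_nonneg_left hdn hc'.le
    · intro hh2
      have h5 : min (δ * (c ^ 2 / 2) / (C * Cu)) (δ / Cu ^ k) *
          (((B : ℝ) - A) * D * VF (Ft T) X ^ k) ≤ ((APs k D S).card : ℝ) := by
        refine le_trans ?_ hh2
        have h6 : 0 ≤ ((B : ℝ) - A) * D * VF (Ft T) X ^ k := by positivity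
        calc min (δ * (c ^ 2 / 2) / (C * Cu)) (δ / Cu ^ k) * (((B : ℝ) - A) * D * VF (Ft T) X ^ k)
            ≤ δ / Cu ^ k * (((B : ℝ) - A) * D * VF (Ft T) X ^ k) :=
              mul_le_mul_of_nonneg_right (min_le_right _ _) h6
          _ ≤ δ / Cu ^ k * (Cu ^ k * E) := mul_le_mul_of_nonneg_left hup (by positivity)
          _ = δ * E := by field_simp
      refine le_trans ?_ (e3 h5)
      calc min (c' * c ^ k) c' * ((I t X T h L A B).card : ℝ)
          ≤ c' * ((I t X T h L A B).card : ℝ) :=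
            mul_le_mul_of_nonneg_right (min_le_right _ _) (Nat.cast_nonneg _)
        _ ≤ _ := mul_le_mul_of_nonneg_left hIG hc'.le

end Pool.Agent.V11316.CP
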