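import Mathlib

/-!
# The cubic transformation of the truncated series `∑ C(n,k)² t^k` modulo `p = 2 n + 1`
-/

set_option autoImplicit false

namespace Pool.Agent.V11316.CubT

open Polynomial Finset

variable {K : Type*} [Field K]

/-- the sum `∑_k C(n,k)² A^k B^(n-k)` -/
noncomputable def PS (n : ℕ) (A B : K[X]) : K[X] :=
  ∑ k ∈ range (n + 1), C ((n.choose k : K) ^ 2) * (A ^ k * B ^ (n - k))

theorem X_mul_der_pow (A : K[X]) (k : ℕ) :
    A * derivative (A ^ k) = (k : K[X]) * derivative A * A ^ k := by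
  rcases k with _ | k
  · simp
  · rw [derivative_pow]
    simp only [Nat.add_sub_cancel, map_natCast]
    rw [pow_succ]
    ring

/-- `A B T' = g T` for `T = A^k B^m`. -/
theorem der1 (A B : K[X]) (k m : ℕ) :
    A * B * derivative (A ^ k * B ^ m) =
      ((k : K[X]) * derivative A * B + (m : K[X]) * A * derivative B) * (A ^ k * B ^ m) := by
  rw [derivative_mul]
  have h1 := X_mul_der_pow A k
  have h2 := X_mul_der_pow B m
  linear_combination B * B ^ m * h1 + A * A ^ k * h2

theorem der2 (A B : K[X]) (k m : ℕ) (g : K[X])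
    (hg : g = (k : K[X]) * derivative A * B + (m : K[X]) * A * derivative B) :
    (A * B) ^ 2 * derivative (derivative (A ^ k * B ^ m)) =
      (g ^ 2 + A * B * derivative g - derivative (A * B) * g) * (A ^ k * B ^ m) := by
  have h1 := der1 A B k m
  rw [← hg] at h1
  have h2 := congrArg derivative h1
  rw [derivative_mul (f := A * B), derivative_mul (f := g)] at h2
  linear_combination (A * B) * h2 + (g - derivative (A * B)) * h1

theorem tele (n : ℕ) (A B : K[X]) :
    ∑ k ∈ range (n + 1), C ((n.choose k : K) ^ 2) *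
      ((((n - k : ℕ) : K[X]) ^ 2 * A - (k : K[X]) ^ 2 * B) * (A ^ k * B ^ (n - k))) = 0 := by
  have h1 : ∀ k ∈ range (n + 1), C ((n.choose k : K) ^ 2) *
      ((((n - k : ℕ) : K[X]) ^ 2 * A - (k : K[X]) ^ 2 * B) * (A ^ k * B ^ (n - k))) =
      ((n.choose k * (n - k) : ℕ) : K[X]) ^ 2 * (A ^ (k + 1) * B ^ (n - k)) -
      ((n.choose k * k : ℕ) : K[X]) ^ 2 * (A ^ k * B ^ (n + 1 - k)) := by
    intro k hk
    have hk' : k ≤ n := by simpa [Nat.lt_succ_iff] using hk
    have e : n + 1 - k = (n - k) + 1 := by omega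
    rw [e, map_pow, map_natCast]
    push_cast
    ring
  rw [Finset.sum_congr rfl h1, Finset.sum_sub_distrib]
  rw [Finset.sum_range_succ (fun k => ((n.choose k * (n - k) : ℕ) : K[X]) ^ 2 * (A ^ (k + 1) * B ^ (n - k)))]
  rw [Finset.sum_range_succ' (fun k => ((n.choose k * k : ℕ) : K[X]) ^ 2 * (A ^ k * B ^ (n + 1 - k)))]
  have h2 : ∀ k ∈ range n, ((n.choose k * (n - k) : ℕ) : K[X]) ^ 2 * (A ^ (k + 1) * B ^ (n - k)) =
      ((n.choose (k + 1) * (k + 1) : ℕ) : K[X]) ^ 2 * (A ^ (k + 1) * B ^ (n + 1 - (k + 1))) := by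
    intro k hk
    rw [← Nat.choose_succ_right_eq, Nat.add_sub_add_right]
  rw [Finset.sum_congr rfl h2]
  simp

/-- the differential operator -/
noncomputable def cc : K[X] := 8 * X ^ 3 + 12 * X ^ 2 - 2
noncomputable def aa : K[X] := X * (2 * X ^ 4 + 5 * X ^ 3 - 5 * X - 2)

theorem ode_of (n : ℕ) (A B S : K[X]) (hA : A ≠ 0) (hB : B ≠ 0)
    (h : ∀ k : ℕ, k ≤ n → ∀ g : K[X], g = (k : K[X]) * derivative A * B + ((n - k : ℕ) : K[X]) * A * derivative B →
      aa * (g ^ 2 + A * B * derivative g - derivative (A * B) * g) + derivative aa * (A * B) * g +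
        cc * (A * B) ^ 2 = S * (((n - k : ℕ) : K[X]) ^ 2 * A - (k : K[X]) ^ 2 * B)) :
    aa * derivative (derivative (PS n A B)) + derivative aa * derivative (PS n A B) + cc * PS n A B = 0 := by
  have hAB : (A * B) ^ 2 ≠ 0 := pow_ne_zero _ (mul_ne_zero hA hB)
  apply mul_left_cancel₀ hAB
  rw [mul_zero]
  have hd1 : derivative (PS n A B) =
      ∑ k ∈ range (n + 1), C ((n.choose k : K) ^ 2) * derivative (A ^ k * B ^ (n - k)) := by
    rw [PS, derivative_sum]
    exact Finset.sum_congr rfl fun k _ => by rw [derivative_C_mul]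
  have hd2 : derivative (derivative (PS n A B)) =
      ∑ k ∈ range (n + 1), C ((n.choose k : K) ^ 2) * derivative (derivative (A ^ k * B ^ (n - k))) := by
    rw [hd1, derivative_sum]
    exact Finset.sum_congr rfl fun k _ => by rw [derivative_C_mul]
  have key : (A * B) ^ 2 * (aa * derivative (derivative (PS n A B)) + derivative aa * derivative (PS n A B) +
      cc * PS n A B) = S * ∑ k ∈ range (n + 1), C ((n.choose k : K) ^ 2) *
      ((((n - k : ℕ) : K[X]) ^ 2 * A - (k : K[X]) ^ 2 * B) * (A ^ k * B ^ (n - k))) := by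
    rw [hd2, hd1, PS]
    simp only [Finset.mul_sum, ← Finset.sum_add_distrib]
    refine Finset.sum_congr rfl fun k hk => ?_
    have hk' : k ≤ n := by simpa [Nat.lt_succ_iff] using hk
    have e1 := der1 A B k (n - k)
    have e2 := der2 A B k (n - k) _ rfl
    have e3 := h k hk' _ rfl
    set g := (k : K[X]) * derivative A * B + ((n - k : ℕ) : K[X]) * A * derivative B with hg
    linear_combination C ((n.choose k : K) ^ 2) * aa * e2 +
      C ((n.choose k : K) ^ 2) * derivative aa * (A * B) * e1 +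
      C ((n.choose k : K) ^ 2) * (A ^ k * B ^ (n - k)) * e3
  rw [key, tele, mul_zero]

end Pool.Agent.V11316.CubT
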