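import Pool.Agent.V11316.CubT

set_option autoImplicit false

namespace Pool.Agent.V11316.CubT

open Polynomial Finset

variable {K : Type*} [Field K]

noncomputable def A1 : K[X] := X ^ 3 * (2 + X)
noncomputable def B1 : K[X] := 1 + 2 * X
noncomputable def A2 : K[X] := X * (2 + X) ^ 3
noncomputable def B2 : K[X] := (1 + 2 * X) ^ 3

theorem dA1 : derivative (A1 : K[X]) = 6 * X ^ 2 + 4 * X ^ 3 := by
  have e : (A1 : K[X]) = C 2 * X ^ 3 + X ^ 4 := by rw [A1]; simp only [map_ofNat]; ring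
  rw [e]
  simp only [derivative_add, derivative_sub, derivative_C_mul, derivative_X_pow, derivative_X, derivative_C]
  norm_num
  simp only [Nat.cast_ofNat, map_ofNat]
  ring

theorem dB1 : derivative (B1 : K[X]) = 2 := by
  have e : (B1 : K[X]) = C 1 + C 2 * X := by rw [B1]; simp only [map_ofNat, map_one]
  rw [e]
  simp only [derivative_add, derivative_sub, derivative_C_mul, derivative_X_pow, derivative_X, derivative_C]
  norm_num
  simp only [Nat.cast_ofNat, map_ofNat]

theorem dA2 : derivative (A2 : K[X]) = 8 + 24 * X + 18 * X ^ 2 + 4 * X ^ 3 := by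
  have e : (A2 : K[X]) = C 8 * X + C 12 * X ^ 2 + C 6 * X ^ 3 + X ^ 4 := by
    rw [A2]; simp only [map_ofNat]; ring
  rw [e]
  simp only [derivative_add, derivative_sub, derivative_C_mul, derivative_X_pow, derivative_X, derivative_C]
  norm_num
  simp only [Nat.cast_ofNat, map_ofNat]
  ring

theorem dB2 : derivative (B2 : K[X]) = 6 + 24 * X + 24 * X ^ 2 := by
  have e : (B2 : K[X]) = C 1 + C 6 * X + C 12 * X ^ 2 + C 8 * X ^ 3 := by
    rw [B2]; simp only [map_ofNat, map_one]; ring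
  rw [e]
  simp only [derivative_add, derivative_sub, derivative_C_mul, derivative_X_pow, derivative_X, derivative_C]
  norm_num
  simp only [Nat.cast_ofNat, map_ofNat]
  ring

theorem daa : derivative (aa : K[X]) = 10 * X ^ 4 + 20 * X ^ 3 - 10 * X - 2 := by
  have e : (aa : K[X]) = C 2 * X ^ 5 + C 5 * X ^ 4 - C 5 * X ^ 2 - C 2 * X := by
    rw [aa]; simp only [map_ofNat]; ring
  rw [e]
  simp only [derivative_add, derivative_sub, derivative_C_mul, derivative_X_pow, derivative_X, derivative_C]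
  norm_num
  simp only [Nat.cast_ofNat, map_ofNat]
  ring

theorem dg1 (kk mm : K[X]) (hk : derivative kk = 0) (hm : derivative mm = 0) :
    derivative (kk * derivative A1 * B1 + mm * A1 * derivative B1) =
      kk * ((12 * X + 12 * X ^ 2) * (1 + 2 * X) + (6 * X ^ 2 + 4 * X ^ 3) * 2) +
        mm * ((6 * X ^ 2 + 4 * X ^ 3) * 2) := by
  have d1 : derivative (6 * X ^ 2 + 4 * X ^ 3 : K[X]) = 12 * X + 12 * X ^ 2 := by
    have e : (6 * X ^ 2 + 4 * X ^ 3 : K[X]) = C 6 * X ^ 2 + C 4 * X ^ 3 := by simp only [map_ofNat]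
    rw [e]
    simp only [derivative_add, derivative_sub, derivative_C_mul, derivative_X_pow, derivative_X, derivative_C]
    norm_num
    simp only [Nat.cast_ofNat, map_ofNat]
    ring
  have d2 : derivative (2 : K[X]) = 0 := by
    have e : (2 : K[X]) = C 2 := by simp only [map_ofNat]
    rw [e, derivative_C]
  simp only [derivative_add, derivative_mul, hk, hm, dA1, dB1, d1, d2]
  rw [A1, B1]
  ring

theorem dg2 (kk mm : K[X]) (hk : derivative kk = 0) (hm : derivative mm = 0) :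
    derivative (kk * derivative A2 * B2 + mm * A2 * derivative B2) =
      kk * ((24 + 36 * X + 12 * X ^ 2) * (1 + 2 * X) ^ 3 + (8 + 24 * X + 18 * X ^ 2 + 4 * X ^ 3) * (6 + 24 * X + 24 * X ^ 2)) +
        mm * ((8 + 24 * X + 18 * X ^ 2 + 4 * X ^ 3) * (6 + 24 * X + 24 * X ^ 2) + X * (2 + X) ^ 3 * (24 + 48 * X)) := by
  have d1 : derivative (8 + 24 * X + 18 * X ^ 2 + 4 * X ^ 3 : K[X]) = 24 + 36 * X + 12 * X ^ 2 := by
    have e : (8 + 24 * X + 18 * X ^ 2 + 4 * X ^ 3 : K[X]) = C 8 + C 24 * X + C 18 * X ^ 2 + C 4 * X ^ 3 := by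
      simp only [map_ofNat]
    rw [e]
    simp only [derivative_add, derivative_sub, derivative_C_mul, derivative_X_pow, derivative_X, derivative_C]
    norm_num
    simp only [Nat.cast_ofNat, map_ofNat]
    ring
  have d2 : derivative (6 + 24 * X + 24 * X ^ 2 : K[X]) = 24 + 48 * X := by
    have e : (6 + 24 * X + 24 * X ^ 2 : K[X]) = C 6 + C 24 * X + C 24 * X ^ 2 := by
      simp only [map_ofNat]
    rw [e]
    simp only [derivative_add, derivative_sub, derivative_C_mul, derivative_X_pow, derivative_X, derivative_C]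
    norm_num
    simp only [Nat.cast_ofNat, map_ofNat]
    ring
  simp only [derivative_add, derivative_mul, hk, hm, dA2, dB2, d1, d2]
  rw [A2, B2]
  ring

theorem ode1 (n : ℕ) (hn : (2 * n + 1 : K) = 0) (h2 : (2 : K) ≠ 0) :
    aa * derivative (derivative (PS n (A1 : K[X]) B1)) + derivative aa * derivative (PS n A1 B1) + cc * PS n A1 B1 = 0 := by
  have hA : (A1 : K[X]) ≠ 0 := by
    intro h
    have := congrArg (fun q => coeff q 4) h
    have e : (A1 : K[X]) = C 2 * X ^ 3 + X ^ 4 := by rw [A1]; simp only [map_ofNat]; ring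
    rw [e] at this
    simp [coeff_X_pow, -map_ofNat] at this
  have hB : (B1 : K[X]) ≠ 0 := by
    intro h
    have := congrArg (fun q => coeff q 0) h
    simp [B1] at this
  have h1 : (2 * n + 1 : K[X]) = 0 := by
    have := congrArg (fun x : K => (C x : K[X])) hn
    simpa only [map_add, map_mul, map_ofNat, map_natCast, map_one, map_zero] using this
  refine ode_of n A1 B1 (72 * X ^ 5 + 324 * X ^ 6 + 504 * X ^ 7 + 324 * X ^ 8 + 72 * X ^ 9) hA hB ?_
  intro k hk g hg
  have hm : (n : K[X]) = (k : K[X]) + ((n - k : ℕ) : K[X]) := by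
    rw [← Nat.cast_add, Nat.add_sub_cancel' hk]
  have dk : derivative (k : K[X]) = 0 := derivative_natCast
  have dm : derivative ((n - k : ℕ) : K[X]) = 0 := derivative_natCast
  have hdg := dg1 (k : K[X]) ((n - k : ℕ) : K[X]) dk dm
  rw [← hg] at hdg
  rw [hm] at h1
  rw [hdg, derivative_mul, hg, daa, dA1, dB1]
  generalize (k : K[X]) = kk at h1 ⊢
  generalize ((n - k : ℕ) : K[X]) = mm at h1 ⊢
  rw [aa, cc, A1, B1]
  linear_combination (
    64*kk*X^13 + 416*kk*X^12 + 992*kk*X^11 + 984*kk*X^10 + 172*kk*X^9 - 380*kk*X^8 - 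
    256*kk*X^7 - 48*kk*X^6 - 32*mm*X^13 - 208*mm*X^12 - 520*mm*X^11 - 636*mm*X^10 - 404*mm*X^9 
    - 128*mm*X^8 - 16*mm*X^7 + 32*X^13 + 208*X^12 + 504*X^11 + 548*X^10 + 232*X^9 - 18*X^8 - 
    40*X^7 - 8*X^6 ) * h1

theorem ode2 (n : ℕ) (hn : (2 * n + 1 : K) = 0) (h2 : (2 : K) ≠ 0) :
    aa * derivative (derivative (PS n (A2 : K[X]) B2)) + derivative aa * derivative (PS n A2 B2) + cc * PS n A2 B2 = 0 := by
  have hA : (A2 : K[X]) ≠ 0 := by
    intro h
    have := congrArg (fun q => coeff q 4) h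
    have e : (A2 : K[X]) = C 8 * X + C 12 * X ^ 2 + C 6 * X ^ 3 + X ^ 4 := by
      rw [A2]; simp only [map_ofNat]; ring
    rw [e] at this
    simp [coeff_X_pow, coeff_X, -map_ofNat] at this
  have hB : (B2 : K[X]) ≠ 0 := by
    intro h
    have := congrArg (fun q => eval 0 q) h
    simp [B2] at this
  have h1 : (2 * n + 1 : K[X]) = 0 := by
    have := congrArg (fun x : K => (C x : K[X])) hn
    simpa only [map_add, map_mul, map_ofNat, map_natCast, map_one, map_zero] using this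
  refine ode_of n A2 B2 (4 * X * (X + 2) ^ 5 * (1 + 2 * X) ^ 5 * (X - 1) ^ 2) hA hB ?_
  intro k hk g hg
  have hm : (n : K[X]) = (k : K[X]) + ((n - k : ℕ) : K[X]) := by
    rw [← Nat.cast_add, Nat.add_sub_cancel' hk]
  have dk : derivative (k : K[X]) = 0 := derivative_natCast
  have dm : derivative ((n - k : ℕ) : K[X]) = 0 := derivative_natCast
  have hdg := dg2 (k : K[X]) ((n - k : ℕ) : K[X]) dk dm
  rw [← hg] at hdg
  rw [hm] at h1
  rw [hdg, derivative_mul, hg, daa, dA2, dB2]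
  generalize (k : K[X]) = kk at h1 ⊢
  generalize ((n - k : ℕ) : K[X]) = mm at h1 ⊢
  rw [aa, cc, A2, B2]
  linear_combination (
    1024*kk*X^17 + 15360*kk*X^16 + 101376*kk*X^15 + 385024*kk*X^14 + 918912*kk*X^13 + 
    1390464*kk*X^12 + 1197760*kk*X^11 + 178560*kk*X^10 - 963900*kk*X^9 - 1400020*kk*X^8 - 
    1075776*kk*X^7 - 532080*kk*X^6 - 174784*kk*X^5 - 37056*kk*X^4 - 4608*kk*X^3 - 256*kk*X^2 + 
    512*mm*X^17 + 8448*mm*X^16 + 61824*mm*X^15 + 262976*mm*X^14 + 712992*mm*X^13 + 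
    1257648*mm*X^12 + 1360520*mm*X^11 + 606780*mm*X^10 - 606780*mm*X^9 - 1360520*mm*X^8 - 
    1257648*mm*X^7 - 712992*mm*X^6 - 262976*mm*X^5 - 61824*mm*X^4 - 8448*mm*X^3 - 512*mm*X^2 + 
    512*X^17 + 8448*X^16 + 62592*X^15 + 274880*X^14 + 795360*X^13 + 1593552*X^12 + 
    2258840*X^11 + 2266740*X^10 + 1570680*X^9 + 692110*X^8 + 134472*X^7 - 40632*X^6 - 
    37568*X^5 - 12000*X^4 - 1920*X^3 - 128*X^2 ) * h1

end Pool.Agent.V11316.CubT
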