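import Pool.Agent.V11316.CubT2

set_option autoImplicit false

namespace Pool.Agent.V11316.CubT

open Polynomial Finset

variable {p : ℕ} [Fact p.Prime]

/-- a solution of the equation with lowest term `u^m`: `p ∣ m` -/
theorem lowest (hp2 : p ≠ 2) (D E : (ZMod p)[X]) (m : ℕ) (hD : D = X ^ (m + 1) * E) (hE : E.coeff 0 ≠ 0)
    (h : aa * derivative (derivative D) + derivative aa * derivative D + cc * D = 0) : p ∣ m + 1 := by
  set b : (ZMod p)[X] := 2 * X ^ 4 + 5 * X ^ 3 - 5 * X - 2 with hb
  have h1 : derivative (aa * derivative D) + cc * D = 0 := by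
    rw [derivative_mul]
    linear_combination h
  have h2 : derivative D = X ^ m * (((m + 1 : ℕ) : (ZMod p)[X]) * E + X * derivative E) := by
    rw [hD, derivative_mul, derivative_X_pow, Nat.add_sub_cancel, map_natCast]
    ring
  have h3 : aa * derivative D = X ^ (m + 1) * (b * (((m + 1 : ℕ) : (ZMod p)[X]) * E + X * derivative E)) := by
    rw [h2, aa]
    ring
  set G := b * (((m + 1 : ℕ) : (ZMod p)[X]) * E + X * derivative E) with hG
  have h4 : X ^ m * (((m + 1 : ℕ) : (ZMod p)[X]) * G + X * derivative G + X * (cc * E)) = 0 := by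
    rw [h3, hD, derivative_mul, derivative_X_pow, Nat.add_sub_cancel, map_natCast] at h1
    linear_combination h1
  have h5 : ((m + 1 : ℕ) : (ZMod p)[X]) * G + X * derivative G + X * (cc * E) = 0 := by
    rcases mul_eq_zero.1 h4 with h | h
    · exact absurd h (pow_ne_zero _ X_ne_zero)
    · exact h
  have h6 := congrArg (eval 0) h5
  have hb0 : eval 0 b = -2 := by rw [hb]; simp
  have hE0 : eval 0 E ≠ 0 := by rwa [← coeff_zero_eq_eval_zero]
  simp only [hG, eval_add, eval_mul, eval_X, eval_natCast, zero_mul, add_zero, hb0, eval_zero] at h6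
  have h20 : (2 : ZMod p) ≠ 0 := by
    intro h0
    have : ((2 : ℕ) : ZMod p) = 0 := by exact_mod_cast h0
    rw [ZMod.natCast_eq_zero_iff] at this
    exact hp2 ((Nat.prime_dvd_prime_iff_eq Fact.out Nat.prime_two).1 this)
  have h7 : ((m + 1 : ℕ) : ZMod p) = 0 := by
    by_contra hne
    apply (mul_ne_zero (mul_ne_zero hne hne) (mul_ne_zero h20 hE0))
    linear_combination -h6
  rwa [ZMod.natCast_eq_zero_iff] at h7

/-- the leading exponent is `-2` modulo `p` -/
theorem highest (hp2 : p ≠ 2) (D : (ZMod p)[X]) (M : ℕ) (hM : D.natDegree ≤ M) (hc : D.coeff M ≠ 0)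
    (h : aa * derivative (derivative D) + derivative aa * derivative D + cc * D = 0) : p ∣ M + 2 := by
  have h1 : derivative (aa * derivative D) + cc * D = 0 := by
    rw [derivative_mul]
    linear_combination h
  have hz : ∀ j, M < j → D.coeff j = 0 := fun j hj => coeff_eq_zero_of_natDegree_lt (by omega)
  -- coefficients of `aa * F` and `cc * F`
  have ha : ∀ (F : (ZMod p)[X]) (j : ℕ), (aa * F).coeff (j + 5) =
      2 * F.coeff j + 5 * F.coeff (j + 1) - 5 * F.coeff (j + 3) - 2 * F.coeff (j + 4) := by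
    intro F j
    have e : aa * F = C 2 * (X ^ 5 * F) + C 5 * (X ^ 4 * F) - C 5 * (X ^ 2 * F) - C 2 * (X ^ 1 * F) := by
      rw [aa]; simp only [map_ofNat]; ring
    rw [e]
    simp only [coeff_add, coeff_sub, coeff_C_mul]
    rw [show j + 5 = j + 5 from rfl, coeff_X_pow_mul]
    rw [show j + 5 = (j + 1) + 4 by ring, coeff_X_pow_mul]
    rw [show j + 1 + 4 = (j + 3) + 2 by ring, coeff_X_pow_mul]
    rw [show j + 3 + 2 = (j + 4) + 1 by ring, coeff_X_pow_mul]
  have hcc : ∀ (F : (ZMod p)[X]) (j : ℕ), (cc * F).coeff (j + 3) =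
      8 * F.coeff j + 12 * F.coeff (j + 1) - 2 * F.coeff (j + 3) := by
    intro F j
    have e : cc * F = C 8 * (X ^ 3 * F) + C 12 * (X ^ 2 * F) - C 2 * F := by
      rw [cc]; simp only [map_ofNat]; ring
    rw [e]
    simp only [coeff_add, coeff_sub, coeff_C_mul]
    rw [coeff_X_pow_mul]
    rw [show j + 3 = (j + 1) + 2 by ring, coeff_X_pow_mul]
  have h2 := congrArg (fun q => coeff q (M + 3)) h1
  simp only [coeff_add, coeff_zero] at h2
  rw [hcc, coeff_derivative] at h2
  rcases M with _ | M
  · -- D constant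
    exfalso
    have e : D = C (D.coeff 0) := eq_C_of_natDegree_le_zero hM
    rw [e] at h1
    rw [derivative_C, mul_zero, derivative_zero, zero_add] at h1
    have h3 := congrArg (fun q => coeff q 0) h1
    simp [cc] at h3
    rcases h3 with h3 | h3
    · have : ((2 : ℕ) : ZMod p) = 0 := by exact_mod_cast h3
      rw [ZMod.natCast_eq_zero_iff] at this
      exact hp2 ((Nat.prime_dvd_prime_iff_eq Fact.out Nat.prime_two).1 this)
    · exact hc h3
  · rw [show M + 1 + 3 + 1 = M + 5 by ring, ha] at h2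
    simp only [coeff_derivative] at h2
    rw [hz (M + 1 + 1) (by omega), hz (M + 3 + 1) (by omega), hz (M + 4 + 1) (by omega)] at h2
    push_cast at h2
    have h3 : (2 : ZMod p) * ((M + 1 + 2 : ℕ) : ZMod p) ^ 2 * D.coeff (M + 1) = 0 := by
      push_cast
      linear_combination h2
    have h20 : (2 : ZMod p) ≠ 0 := by
      intro h0
      have : ((2 : ℕ) : ZMod p) = 0 := by exact_mod_cast h0
      rw [ZMod.natCast_eq_zero_iff] at this
      exact hp2 ((Nat.prime_dvd_prime_iff_eq Fact.out Nat.prime_two).1 this)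
    have h4 : ((M + 1 + 2 : ℕ) : ZMod p) = 0 := by
      rcases mul_eq_zero.1 h3 with h | h
      · rcases mul_eq_zero.1 h with h | h
        · exact absurd h h20
        · exact pow_eq_zero_iff (by norm_num) |>.1 h
      · exact absurd h hc
    rwa [ZMod.natCast_eq_zero_iff] at h4

/-- the uniqueness -/
theorem unique (hp2 : p ≠ 2) (n : ℕ) (hn : p = 2 * n + 1) (D : (ZMod p)[X])
    (h : aa * derivative (derivative D) + derivative aa * derivative D + cc * D = 0)
    (h0 : D.coeff 0 = 0) (hd : D.natDegree ≤ 4 * n) (htop : D.coeff (4 * n) = 0) : D = 0 := by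
  have hp : 1 < p := (Fact.out : p.Prime).one_lt
  by_contra hD
  have hdeg : D.coeff D.natDegree ≠ 0 := by
    rw [coeff_natDegree]
    exact leadingCoeff_ne_zero.2 hD
  have hM := highest hp2 D D.natDegree le_rfl hdeg h
  have hlt : D.natDegree < 4 * n := by
    rcases lt_or_eq_of_le hd with h | h
    · exact h
    · rw [h] at hdeg
      exact absurd htop hdeg
  -- trailing degree
  obtain ⟨m, E, hE, hEc⟩ : ∃ m : ℕ, ∃ E : (ZMod p)[X], D = X ^ (m + 1) * E ∧ E.coeff 0 ≠ 0 := by
    have ht : D.coeff D.natTrailingDegree ≠ 0 := by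
      have := trailingCoeff_nonzero_iff_nonzero.2 hD
      exact this
    have hpos : D.natTrailingDegree ≠ 0 := by
      intro h1
      rw [h1] at ht
      exact ht h0
    obtain ⟨m, hm⟩ := Nat.exists_eq_succ_of_ne_zero hpos
    have hdv : X ^ (m + 1) ∣ D := by
      rw [X_pow_dvd_iff]
      intro d hd
      exact coeff_eq_zero_of_lt_natTrailingDegree (by omega)
    obtain ⟨E, hE⟩ := hdv
    refine ⟨m, E, hE, ?_⟩
    rw [hm] at ht
    rw [hE] at ht
    have := coeff_X_pow_mul E (m + 1) 0
    rw [zero_add] at this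
    rwa [Nat.succ_eq_add_one, this] at ht
  have hlow := lowest hp2 D E m hE hEc h
  have hm1 : p ≤ m + 1 := Nat.le_of_dvd (by omega) hlow
  have hmdeg : m + 1 ≤ D.natDegree := by
    by_contra hlt'
    have : D.coeff D.natDegree = 0 := by
      rw [hE]
      have hdv : X ^ (m + 1) ∣ X ^ (m + 1) * E := dvd_mul_right _ _
      rw [X_pow_dvd_iff] at hdv
      have h5 := hdv (X ^ (m + 1) * E).natDegree (by rw [← hE]; omega)
      exact h5
    exact hdeg this
  -- p ≤ natDegree < 2p - 2, p ∣ natDegree + 2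
  obtain ⟨c, hc⟩ := hM
  have h6 : p < p * c := by omega
  have h7 : p * c < p * 2 := by omega
  have h8 : 1 < c := by
    by_contra h9
    have : c ≤ 1 := by omega
    have := Nat.mul_le_mul_left p this
    omega
  have h9 : c < 2 := lt_of_mul_lt_mul_left h7 (by omega)
  omega

end Pool.Agent.V11316.CubT
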