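import Pool.Agent.V11316.CubT3

set_option autoImplicit false

namespace Pool.Agent.V11316.CubT

open Polynomial Finset

section
variable {K : Type*} [Field K]

theorem PS_eval (n : ℕ) (A B : K[X]) (x : K) :
    (PS n A B).eval x = ∑ k ∈ range (n + 1), (n.choose k : K) ^ 2 * ((A.eval x) ^ k * (B.eval x) ^ (n - k)) := by
  rw [PS, eval_finset_sum]
  refine Finset.sum_congr rfl fun k _ => ?_
  simp

theorem PS_natDegree (n : ℕ) (A B : K[X]) (hA : A.natDegree ≤ 4) (hB : B.natDegree ≤ 3) :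
    (PS n A B).natDegree ≤ 4 * n := by
  rw [PS]
  refine natDegree_sum_le_of_forall_le _ _ fun k hk => ?_
  have hk' : k ≤ n := by simpa [Nat.lt_succ_iff] using hk
  refine (natDegree_C_mul_le _ _).trans ?_
  refine natDegree_mul_le.trans ?_
  have h1 : (A ^ k).natDegree ≤ k * 4 := natDegree_pow_le_of_le k hA
  have h2 : (B ^ (n - k)).natDegree ≤ (n - k) * 3 := natDegree_pow_le_of_le _ hB
  omega

theorem PS_top (n : ℕ) (A B : K[X]) (hA : A.natDegree ≤ 4) (hA4 : A.coeff 4 = 1) (hB : B.natDegree ≤ 3) :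
    (PS n A B).coeff (4 * n) = 1 := by
  rw [PS, finset_sum_coeff, Finset.sum_eq_single n]
  · rw [coeff_C_mul, Nat.choose_self, Nat.sub_self, pow_zero, mul_one, Nat.cast_one, one_pow, one_mul,
      mul_comm 4 n, coeff_pow_of_natDegree_le hA, hA4, one_pow]
  · intro k hk hne
    have hk' : k ≤ n := by simpa [Nat.lt_succ_iff] using hk
    rw [coeff_C_mul, coeff_eq_zero_of_natDegree_lt, mul_zero]
    refine lt_of_le_of_lt natDegree_mul_le ?_
    have h1 : (A ^ k).natDegree ≤ k * 4 := natDegree_pow_le_of_le k hA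
    have h2 : (B ^ (n - k)).natDegree ≤ (n - k) * 3 := natDegree_pow_le_of_le _ hB
    omega
  · intro h
    simp at h

theorem deg_A1 : (A1 : K[X]).natDegree ≤ 4 := by
  rw [A1]; compute_degree
theorem deg_B1 : (B1 : K[X]).natDegree ≤ 3 := by
  rw [B1]; compute_degree!
theorem deg_A2 : (A2 : K[X]).natDegree ≤ 4 := by
  rw [A2]; compute_degree
theorem deg_B2 : (B2 : K[X]).natDegree ≤ 3 := by
  rw [B2]; compute_degree
theorem top_A1 : (A1 : K[X]).coeff 4 = 1 := by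
  have e : (A1 : K[X]) = C 2 * X ^ 3 + X ^ 4 := by rw [A1]; simp only [map_ofNat]; ring
  rw [e]
  simp [coeff_X_pow, -map_ofNat]
theorem top_A2 : (A2 : K[X]).coeff 4 = 1 := by
  have e : (A2 : K[X]) = C 8 * X + C 12 * X ^ 2 + C 6 * X ^ 3 + X ^ 4 := by
    rw [A2]; simp only [map_ofNat]; ring
  rw [e]
  simp [coeff_X_pow, coeff_X, -map_ofNat]

end

variable {p : ℕ} [Fact p.Prime]

/-- **the cubic transformation modulo `p`** -/
theorem PS_eq (hp2 : p ≠ 2) (n : ℕ) (hn : p = 2 * n + 1) : PS n (A1 : (ZMod p)[X]) B1 = PS n A2 B2 := by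
  have h20 : (2 : ZMod p) ≠ 0 := by
    intro h0
    have : ((2 : ℕ) : ZMod p) = 0 := by exact_mod_cast h0
    rw [ZMod.natCast_eq_zero_iff] at this
    exact hp2 ((Nat.prime_dvd_prime_iff_eq Fact.out Nat.prime_two).1 this)
  have hn1 : (2 * n + 1 : ZMod p) = 0 := by
    have h3 : ((2 * n + 1 : ℕ) : ZMod p) = 0 := by
      rw [ZMod.natCast_eq_zero_iff, ← hn]
    exact_mod_cast h3
  have o1 := ode1 (K := ZMod p) n hn1 h20
  have o2 := ode2 (K := ZMod p) n hn1 h20
  rw [← sub_eq_zero]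
  refine unique hp2 n hn _ ?_ ?_ ?_ ?_
  · rw [derivative_sub, derivative_sub]
    linear_combination o1 - o2
  · rw [coeff_zero_eq_eval_zero, eval_sub, PS_eval, PS_eval, sub_eq_zero]
    refine Finset.sum_congr rfl fun k _ => ?_
    simp [A1, B1, A2, B2]
  · refine (natDegree_sub_le _ _).trans (max_le ?_ ?_)
    · exact PS_natDegree n _ _ deg_A1 deg_B1
    · exact PS_natDegree n _ _ deg_A2 deg_B2
  · rw [coeff_sub, PS_top n _ _ deg_A1 top_A1 deg_B1, PS_top n _ _ deg_A2 top_A2 deg_B2, sub_self]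

/-- the truncated series -/
def H (n : ℕ) (t : ZMod p) : ZMod p := ∑ k ∈ range (n + 1), (n.choose k : ZMod p) ^ 2 * t ^ k

theorem PS_eval_H (n : ℕ) (A B : (ZMod p)[X]) (x : ZMod p) (hB : B.eval x ≠ 0) :
    (PS n A B).eval x = (B.eval x) ^ n * H n (A.eval x / B.eval x) := by
  rw [PS_eval, H, Finset.mul_sum]
  refine Finset.sum_congr rfl fun k hk => ?_
  have hk' : k ≤ n := by simpa [Nat.lt_succ_iff] using hk
  obtain ⟨m, rfl⟩ := Nat.exists_eq_add_of_le hk'
  rw [Nat.add_sub_cancel_left, div_pow, pow_add]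
  field_simp

/-- the transformation at a point -/
theorem H_eq (hp2 : p ≠ 2) (n : ℕ) (hn : p = 2 * n + 1) (x : ZMod p) (hx : 1 + 2 * x ≠ 0) :
    H n (x ^ 3 * (2 + x) / (1 + 2 * x)) = H n (x * (2 + x) ^ 3 / (1 + 2 * x) ^ 3) := by
  have h := congrArg (eval x) (PS_eq hp2 n hn)
  have hB1 : (B1 : (ZMod p)[X]).eval x = 1 + 2 * x := by simp [B1]
  have hB2 : (B2 : (ZMod p)[X]).eval x = (1 + 2 * x) ^ 3 := by simp [B2]
  have hA1 : (A1 : (ZMod p)[X]).eval x = x ^ 3 * (2 + x) := by simp [A1]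
  have hA2 : (A2 : (ZMod p)[X]).eval x = x * (2 + x) ^ 3 := by simp [A2]
  rw [PS_eval_H n _ _ _ (by rw [hB1]; exact hx), PS_eval_H n _ _ _ (by rw [hB2]; exact pow_ne_zero _ hx),
    hB1, hB2, hA1, hA2] at h
  have h1 : (1 + 2 * x) ^ (2 * n) = 1 := by
    have h3 := ZMod.pow_card_sub_one_eq_one hx
    have e : p - 1 = 2 * n := by omega
    rwa [e] at h3
  have h2 : ((1 + 2 * x) ^ 3) ^ n = (1 + 2 * x) ^ n := by
    calc ((1 + 2 * x) ^ 3) ^ n = (1 + 2 * x) ^ (2 * n) * (1 + 2 * x) ^ n := by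
            rw [← pow_mul, ← pow_add]; congr 1; omega
      _ = _ := by rw [h1, one_mul]
  rw [h2] at h
  exact mul_left_cancel₀ (pow_ne_zero _ hx) h

end Pool.Agent.V11316.CubT
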