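import Mathlib

/-!
Maps on `ℤ^ι` with vanishing fourth differences which are symmetric in the coordinates.
-/

open Finset

namespace V11316

/-- all `k`-th differences vanish -/
def PolD {M A : Type*} [AddCommGroup M] [AddCommGroup A] : ℕ → (M → A) → Prop
  | 0, f => ∀ c, f c = 0
  | (k + 1), f => ∀ v, PolD k (fun c => f (c + v) - f c)

variable {M A : Type*} [AddCommGroup M] [AddCommGroup A]

theorem PolD.congr {k : ℕ} {f g : M → A} (h : PolD k f) (hfg : ∀ c, f c = g c) : PolD k g := by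
  have : f = g := funext hfg
  rwa [← this]

theorem PolD.zero : ∀ {k : ℕ}, PolD k (fun _ : M => (0 : A))
  | 0 => fun _ => rfl
  | (k + 1) => fun v => (PolD.zero (k := k)).congr fun _ => by simp

theorem PolD.succ : ∀ {k : ℕ} {f : M → A}, PolD k f → PolD (k + 1) f
  | 0, f, h => fun v c => by
      have h1 : f (c + v) = 0 := h _
      have h2 : f c = 0 := h _
      show f (c + v) - f c = 0
      rw [h1, h2, sub_zero]
  | (k + 1), _, h => fun v => (h v).succ

theorem PolD.add : ∀ {k : ℕ} {f g : M → A}, PolD k f → PolD k g → PolD k (fun c => f c + g c)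
  | 0, f, g, hf, hg => fun c => by
      show f c + g c = 0
      rw [hf c, hg c, add_zero]
  | (k + 1), _, _, hf, hg => fun v => ((hf v).add (hg v)).congr fun c => by
      beta_reduce; abel

theorem PolD.neg : ∀ {k : ℕ} {f : M → A}, PolD k f → PolD k (fun c => - f c)
  | 0, f, hf => fun c => by
      show - f c = 0
      rw [hf c, neg_zero]
  | (k + 1), _, hf => fun v => (hf v).neg.congr fun c => by beta_reduce; abel

theorem PolD.sub {k : ℕ} {f g : M → A} (hf : PolD k f) (hg : PolD k g) :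
    PolD k (fun c => f c - g c) := (hf.add hg.neg).congr fun _ => by abel

theorem PolD.sum {k : ℕ} {κ : Type*} (s : Finset κ) {f : κ → M → A} (h : ∀ i ∈ s, PolD k (f i)) :
    PolD k (fun c => ∑ i ∈ s, f i c) := by
  classical
  induction s using Finset.induction_on with
  | empty => simpa using PolD.zero
  | insert a s ha ih =>
    have h1 := (h a (mem_insert_self _ _)).add (ih fun i hi => h i (mem_insert_of_mem hi))
    exact h1.congr fun c => by rw [sum_insert ha]

theorem PolD.shift : ∀ {k : ℕ} {f : M → A} (w : M), PolD k f → PolD k (fun c => f (c + w))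
  | 0, _, w, hf => fun c => hf (c + w)
  | (k + 1), f, w, hf => fun v => by
      refine (PolD.shift w (hf v)).congr fun c => ?_
      beta_reduce
      rw [add_right_comm]

/-- constants -/
theorem PolD.const (a : A) : PolD 1 (fun _ : M => a) := fun v c => sub_self a

/-- additive maps -/
theorem PolD.hom (l : M →+ A) : PolD 2 (fun c => l c) := fun v w c => by
  show l (c + w + v) - l (c + w) - (l (c + v) - l c) = 0
  rw [map_add, map_add, map_add]; abel

/-- products -/
theorem PolD.smul : ∀ {j k : ℕ} {f : M → ℤ} {g : M → A}, PolD (j + 1) f → PolD (k + 1) g →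
    PolD (j + k + 1) (fun c => f c • g c)
  | 0, 0, f, g, hf, hg => fun v c => by
      show f (c + v) • g (c + v) - f c • g c = 0
      have h1 : f (c + v) = f c := sub_eq_zero.1 (hf v c)
      have h2 : g (c + v) = g c := sub_eq_zero.1 (hg v c)
      rw [h1, h2, sub_self]
  | 0, (k + 1), f, g, hf, hg => fun v => by
      have h1 : ∀ c, f (c + v) = f c := fun c => sub_eq_zero.1 (hf v c)
      have h2 := PolD.smul (j := 0) (k := k) hf (hg v)
      rw [show 0 + (k + 1) = 0 + k + 1 by ring]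
      refine h2.congr fun c => ?_
      beta_reduce
      rw [h1, smul_sub]
  | (j + 1), 0, f, g, hf, hg => fun v => by
      have h1 : ∀ c, g (c + v) = g c := fun c => sub_eq_zero.1 (hg v c)
      have h2 := PolD.smul (j := j) (k := 0) (hf v) hg
      rw [show j + 1 + 0 = j + 0 + 1 by ring]
      refine h2.congr fun c => ?_
      beta_reduce
      rw [h1, sub_smul]
  | (j + 1), (k + 1), f, g, hf, hg => fun v => by
      have h1 := PolD.smul (j := j) (k := k + 1) (hf v) (hg.shift v)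
      have h2 := PolD.smul (j := j + 1) (k := k) hf (hg v)
      rw [show j + 1 + (k + 1) = j + (k + 1) + 1 by ring]
      rw [show j + 1 + k + 1 = j + (k + 1) + 1 by ring] at h2
      refine (h1.add h2).congr fun c => ?_
      beta_reduce
      rw [sub_smul, smul_sub]; abel

/-- uniqueness -/
theorem PolD.eq_zero {ι : Type*} [Fintype ι] [DecidableEq ι] :
    ∀ {k : ℕ} {H : (ι → ℤ) → A}, PolD (k + 1) H →
      (∀ s : List ι, s.length ≤ k → H ((s.map fun i => (Pi.single i 1 : ι → ℤ)).sum) = 0) →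
      ∀ c, H c = 0 := by
  intro k
  induction k with
  | zero =>
    intro H hH h c
    have h1 := h [] (le_refl _)
    simp only [List.map_nil, List.sum_nil] at h1
    have h2 := hH c 0
    simp only [zero_add] at h2
    rw [sub_eq_zero.1 h2, h1]
  | succ k ih =>
    intro H hH h c
    have h1 : ∀ i c, H (c + Pi.single i 1) = H c := by
      intro i c
      refine sub_eq_zero.1 (ih (hH (Pi.single i 1)) (fun s hs => ?_) c)
      beta_reduce
      have e1 := h s (by omega)
      have e2 := h (i :: s) (by simp; omega)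
      rw [List.map_cons, List.sum_cons, add_comm] at e2
      rw [e1, e2, sub_zero]
    let S : AddSubgroup (ι → ℤ) :=
      { carrier := {v | ∀ c, H (c + v) = H c}
        add_mem' := by
          intro a b ha hb c
          rw [← add_assoc, hb, ha]
        zero_mem' := by intro c; rw [add_zero]
        neg_mem' := by
          intro a ha c
          have := ha (c + -a)
          rw [add_assoc, neg_add_cancel, add_zero] at this
          exact this.symm }
    have h2 : ∀ v : ι → ℤ, v ∈ S := by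
      intro v
      have : v = ∑ i, v i • (Pi.single i 1 : ι → ℤ) := by
        funext j
        simp [Finset.sum_apply, Pi.single_apply]
      rw [this]
      refine sum_mem fun i _ => zsmul_mem ?_ _
      exact fun c => h1 i c
    have h3 : H (0 + c) = H 0 := h2 c 0
    have h4 := h [] (Nat.zero_le _)
    simp only [List.map_nil, List.sum_nil] at h4
    rw [zero_add] at h3
    rw [h3, h4]

/-! ### power sums -/

variable {ι : Type*} [Fintype ι] [DecidableEq ι]

def ps1 (c : ι → ℤ) : ℤ := ∑ i, c i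
def ps2 (c : ι → ℤ) : ℤ := ∑ i, c i ^ 2
def ps3 (c : ι → ℤ) : ℤ := ∑ i, c i ^ 3

omit [DecidableEq ι] in
theorem ps1_pol : PolD 2 (ps1 : (ι → ℤ) → ℤ) := by
  refine (PolD.sum univ (f := fun i c => c i) fun i _ =>
    PolD.hom (Pi.evalAddMonoidHom (fun _ : ι => ℤ) i)).congr fun c => rfl

omit [DecidableEq ι] in
theorem ps2_pol : PolD 3 (ps2 : (ι → ℤ) → ℤ) := by
  refine (PolD.sum univ (f := fun i c => c i ^ 2) fun i _ => ?_).congr fun c => rfl
  have h := PolD.hom (Pi.evalAddMonoidHom (fun _ : ι => ℤ) i)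
  exact (h.smul h).congr fun c => by simp [sq]

omit [DecidableEq ι] in
theorem ps3_pol : PolD 4 (ps3 : (ι → ℤ) → ℤ) := by
  refine (PolD.sum univ (f := fun i c => c i ^ 3) fun i _ => ?_).congr fun c => rfl
  have h := PolD.hom (Pi.evalAddMonoidHom (fun _ : ι => ℤ) i)
  exact (h.smul (h.smul h)).congr fun c => by
    simp only [Pi.evalAddMonoidHom_apply, smul_eq_mul]; ring

theorem ps1_add (c : ι → ℤ) (i : ι) : ps1 (c + Pi.single i 1) = ps1 c + 1 := by
  simp only [ps1, Pi.add_apply, sum_add_distrib]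
  simp

theorem sum_single_mul (f : ι → ℤ) (i : ι) : ∑ x, f x * (Pi.single i 1 : ι → ℤ) x = f i := by
  rw [sum_eq_single i]
  · simp
  · intro j _ hj; rw [Pi.single_eq_of_ne hj, mul_zero]
  · intro h; exact absurd (mem_univ i) h

theorem ps2_add (c : ι → ℤ) (i : ι) : ps2 (c + Pi.single i 1) = ps2 c + 2 * c i + 1 := by
  have h1 : ∀ x, (c + Pi.single i 1 : ι → ℤ) x ^ 2 =
      c x ^ 2 + (2 * c x + 1) * (Pi.single i 1 : ι → ℤ) x := by
    intro x
    rw [Pi.add_apply]
    by_cases h : x = i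
    · subst h; rw [Pi.single_eq_same]; ring
    · rw [Pi.single_eq_of_ne h]; ring
  rw [ps2, sum_congr rfl fun x _ => h1 x, sum_add_distrib, sum_single_mul (fun x => 2 * c x + 1), ps2]
  ring

theorem ps3_add (c : ι → ℤ) (i : ι) :
    ps3 (c + Pi.single i 1) = ps3 c + 3 * c i ^ 2 + 3 * c i + 1 := by
  have h1 : ∀ x, (c + Pi.single i 1 : ι → ℤ) x ^ 3 =
      c x ^ 3 + (3 * c x ^ 2 + 3 * c x + 1) * (Pi.single i 1 : ι → ℤ) x := by
    intro x
    rw [Pi.add_apply]
    by_cases h : x = i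
    · subst h; rw [Pi.single_eq_same]; ring
    · rw [Pi.single_eq_of_ne h]; ring
  rw [ps3, sum_congr rfl fun x _ => h1 x, sum_add_distrib,
    sum_single_mul (fun x => 3 * c x ^ 2 + 3 * c x + 1), ps3]
  ring

theorem ps_single (i : ι) : ps1 (Pi.single i 1 : ι → ℤ) = 1 ∧ ps2 (Pi.single i 1 : ι → ℤ) = 1 ∧
    ps3 (Pi.single i 1 : ι → ℤ) = 1 := by
  have h1 := ps1_add (0 : ι → ℤ) i
  have h2 := ps2_add (0 : ι → ℤ) i
  have h3 := ps3_add (0 : ι → ℤ) i
  rw [zero_add] at h1 h2 h3
  refine ⟨?_, ?_, ?_⟩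
  · rw [h1]; simp [ps1]
  · rw [h2]; simp [ps2]
  · rw [h3]; simp [ps3]

/-- the structure theorem for symmetric maps of degree at most three -/
theorem cubic_struct (G : (ι → ℤ) → A) (h4 : PolD 4 G)
    (hs : ∀ (σ : Equiv.Perm ι) c, G (c ∘ σ) = G c) {i0 i1 i2 : ι} (h01 : i0 ≠ i1) (h02 : i0 ≠ i2)
    (h12 : i1 ≠ i2) : ∃ ℓ b b' t t' t'' : A, ∀ c, (12 : ℤ) • (G c - G 0) =
      ps1 c • ℓ + ps2 c • b + (ps1 c) ^ 2 • b' + ps3 c • t + (ps1 c * ps2 c) • t' +
        (ps1 c) ^ 3 • t'' := by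
  have hsing : ∀ (σ : Equiv.Perm ι) (i : ι),
      (Pi.single (σ i) 1 : ι → ℤ) ∘ σ = Pi.single i 1 := by
    intro σ i
    funext x
    by_cases hx : x = i
    · subst hx; simp
    · simp [hx, Pi.single_apply]
  set g0 := G 0 with hg0
  set g1 := G (Pi.single i0 1) - g0 with hg1
  set g2 := G (Pi.single i0 1 + Pi.single i0 1) - g0 with hg2
  set g11 := G (Pi.single i0 1 + Pi.single i1 1) - g0 with hg11
  set g3 := G (Pi.single i0 1 + Pi.single i0 1 + Pi.single i0 1) - g0 with hg3
  set g21 := G (Pi.single i0 1 + Pi.single i0 1 + Pi.single i1 1) - g0 with hg21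
  set g111 := G (Pi.single i0 1 + Pi.single i1 1 + Pi.single i2 1) - g0 with hg111
  -- transitivity
  have sw2 : ∀ i j : ι, i ≠ j → ∃ σ : Equiv.Perm ι, σ i = i0 ∧ σ j = i1 := by
    intro i j h
    refine ⟨Equiv.swap (Equiv.swap i i0 j) i1 * Equiv.swap i i0, ?_, ?_⟩
    · rw [Equiv.Perm.mul_apply, Equiv.swap_apply_left]
      refine Equiv.swap_apply_of_ne_of_ne ?_ h01
      intro h2
      apply h
      have := congrArg (Equiv.swap i i0) h2
      rw [Equiv.swap_apply_right, Equiv.swap_apply_self] at this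
      exact this
    · rw [Equiv.Perm.mul_apply, Equiv.swap_apply_left]
  have sw3 : ∀ i j k : ι, i ≠ j → i ≠ k → j ≠ k →
      ∃ σ : Equiv.Perm ι, σ i = i0 ∧ σ j = i1 ∧ σ k = i2 := by
    intro i j k hij hik hjk
    obtain ⟨σ, e1, e2⟩ := sw2 i j hij
    refine ⟨Equiv.swap (σ k) i2 * σ, ?_, ?_, ?_⟩
    · rw [Equiv.Perm.mul_apply, e1]
      refine Equiv.swap_apply_of_ne_of_ne ?_ h02
      intro h; rw [← e1] at h; exact hik (σ.injective h)
    · rw [Equiv.Perm.mul_apply, e2]
      refine Equiv.swap_apply_of_ne_of_ne ?_ h12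
      intro h; rw [← e2] at h; exact hjk (σ.injective h)
    · rw [Equiv.Perm.mul_apply, Equiv.swap_apply_left]
  have v1 : ∀ i, G (Pi.single i 1) - g0 = g1 := by
    intro i
    have h := hs (Equiv.swap i i0) (Pi.single i0 1)
    have h2 := hsing (Equiv.swap i i0) i
    rw [Equiv.swap_apply_left] at h2
    rw [h2] at h
    rw [h]
  have v2 : ∀ i, G (Pi.single i 1 + Pi.single i 1) - g0 = g2 := by
    intro i
    have h := hs (Equiv.swap i i0) (Pi.single i0 1 + Pi.single i0 1)
    have h2 := hsing (Equiv.swap i i0) i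
    rw [Equiv.swap_apply_left] at h2
    rw [Pi.add_comp, h2] at h
    rw [h]
  have v3 : ∀ i, G (Pi.single i 1 + Pi.single i 1 + Pi.single i 1) - g0 = g3 := by
    intro i
    have h := hs (Equiv.swap i i0) (Pi.single i0 1 + Pi.single i0 1 + Pi.single i0 1)
    have h2 := hsing (Equiv.swap i i0) i
    rw [Equiv.swap_apply_left] at h2
    rw [Pi.add_comp, Pi.add_comp, h2] at h
    rw [h]
  have v11 : ∀ i j, i ≠ j → G (Pi.single i 1 + Pi.single j 1) - g0 = g11 := by
    intro i j hij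
    obtain ⟨σ, e1, e2⟩ := sw2 i j hij
    have h := hs σ (Pi.single i0 1 + Pi.single i1 1)
    rw [Pi.add_comp, ← e1, ← e2, hsing, hsing, e1, e2] at h
    rw [h]
  have v21 : ∀ i j, i ≠ j → G (Pi.single i 1 + Pi.single i 1 + Pi.single j 1) - g0 = g21 := by
    intro i j hij
    obtain ⟨σ, e1, e2⟩ := sw2 i j hij
    have h := hs σ (Pi.single i0 1 + Pi.single i0 1 + Pi.single i1 1)
    rw [Pi.add_comp, Pi.add_comp, ← e1, ← e2, hsing, hsing, e1, e2] at h
    rw [h]
  have v111 : ∀ i j k, i ≠ j → i ≠ k → j ≠ k →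
      G (Pi.single i 1 + Pi.single j 1 + Pi.single k 1) - g0 = g111 := by
    intro i j k hij hik hjk
    obtain ⟨σ, e1, e2, e3⟩ := sw3 i j k hij hik hjk
    have h := hs σ (Pi.single i0 1 + Pi.single i1 1 + Pi.single i2 1)
    rw [Pi.add_comp, Pi.add_comp, ← e1, ← e2, ← e3, hsing, hsing, hsing, e1, e2, e3] at h
    rw [h]
  -- the constants
  set ω := g3 - (3 : ℤ) • g2 + (3 : ℤ) • g1 with hω
  set ρ := g21 - (2 : ℤ) • g11 - g2 + (3 : ℤ) • g1 with hρ
  set τ := g111 - (3 : ℤ) • g11 + (3 : ℤ) • g1 with hτ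
  refine ⟨(24 : ℤ) • g1 - (6 : ℤ) • g2 + (4 : ℤ) • ω, (6 : ℤ) • (g2 - g11 - ω + ρ),
    (6 : ℤ) • (g11 - (2 : ℤ) • g1 - ρ), (2 : ℤ) • (ω - (3 : ℤ) • ρ + (2 : ℤ) • τ),
    (6 : ℤ) • (ρ - τ), (2 : ℤ) • τ, ?_⟩
  set ℓ := (24 : ℤ) • g1 - (6 : ℤ) • g2 + (4 : ℤ) • ω with hℓ
  set b := (6 : ℤ) • (g2 - g11 - ω + ρ) with hb
  set b' := (6 : ℤ) • (g11 - (2 : ℤ) • g1 - ρ) with hb'
  set t := (2 : ℤ) • (ω - (3 : ℤ) • ρ + (2 : ℤ) • τ) with ht
  set t' := (6 : ℤ) • (ρ - τ) with ht'
  set t'' := (2 : ℤ) • τ with ht''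
  have hk : ∀ a : A, PolD 1 (fun _ : ι → ℤ => a) := fun a => PolD.const a
  have hp1 := ps1_pol (ι := ι)
  have hp2 := ps2_pol (ι := ι)
  have hp3 := ps3_pol (ι := ι)
  have r1 : PolD 4 (fun c : ι → ℤ => ps1 c • ℓ) := ((hp1.smul (hk ℓ)).succ).succ
  have r2 : PolD 4 (fun c : ι → ℤ => ps2 c • b) := (hp2.smul (hk b)).succ
  have r3 : PolD 4 (fun c : ι → ℤ => (ps1 c) ^ 2 • b') :=
    ((hp1.smul (hp1.smul (hk b'))).succ).congr fun c => by rw [sq, mul_smul]
  have r4 : PolD 4 (fun c : ι → ℤ => ps3 c • t) := hp3.smul (hk t)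
  have r5 : PolD 4 (fun c : ι → ℤ => (ps1 c * ps2 c) • t') :=
    (hp1.smul (hp2.smul (hk t'))).congr fun c => by rw [mul_smul]
  have r6 : PolD 4 (fun c : ι → ℤ => (ps1 c) ^ 3 • t'') :=
    (hp1.smul (hp1.smul (hp1.smul (hk t'')))).congr fun c => by
      rw [show ps1 c ^ 3 = ps1 c * (ps1 c * ps1 c) by ring, mul_smul, mul_smul]
  have r0 : PolD 4 (fun c => (12 : ℤ) • (G c - g0)) :=
    (PolD.smul (j := 0) (k := 3) (PolD.const (12 : ℤ)) (h4.sub ((((hk g0).succ).succ).succ))).congr
      fun c => rfl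
  have hH := r0.sub (((((r1.add r2).add r3).add r4).add r5).add r6)
  have hz := PolD.eq_zero (k := 3) hH
  intro c
  refine sub_eq_zero.1 (hz ?_ c)
  intro s hs'
  beta_reduce
  have z1 : ps1 (0 : ι → ℤ) = 0 := by simp [ps1]
  have z2 : ps2 (0 : ι → ℤ) = 0 := by simp [ps2]
  have z3 : ps3 (0 : ι → ℤ) = 0 := by simp [ps3]
  match s, hs' with
  | [], _ =>
    simp only [List.map_nil, List.sum_nil, z1, z2, z3]
    rw [← hg0]; simp
  | [i], _ =>
    simp only [List.map_cons, List.map_nil, List.sum_cons, List.sum_nil, add_zero]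
    obtain ⟨a1, a2, a3⟩ := ps_single i
    rw [v1, a1, a2, a3, hℓ, hb, hb', ht, ht', ht'']
    module
  | [i, j], _ =>
    simp only [List.map_cons, List.map_nil, List.sum_cons, List.sum_nil, add_zero]
    obtain ⟨a1, a2, a3⟩ := ps_single i
    rw [ps1_add, ps2_add, ps3_add, a1, a2, a3]
    by_cases hij : j = i
    · subst hij
      rw [v2, Pi.single_eq_same, hℓ, hb, hb', ht, ht', ht'']
      module
    · rw [v11 _ _ (Ne.symm hij), Pi.single_eq_of_ne hij, hℓ, hb, hb', ht, ht', ht'']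
      module
  | [i, j, k], _ =>
    simp only [List.map_cons, List.map_nil, List.sum_cons, List.sum_nil, add_zero, ← add_assoc]
    obtain ⟨a1, a2, a3⟩ := ps_single i
    rw [ps1_add, ps2_add, ps3_add, ps1_add, ps2_add, ps3_add, a1, a2, a3, Pi.add_apply]
    by_cases hij : j = i
    · subst hij
      by_cases hk : k = j
      · subst hk
        rw [v3, Pi.single_eq_same, hℓ, hb, hb', ht, ht', ht'', hω, hρ, hτ]
        module
      · rw [v21 _ _ (Ne.symm hk), Pi.single_eq_same, Pi.single_eq_of_ne hk, hℓ, hb, hb', ht, ht',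
          ht'', hω, hρ, hτ]
        module
    · by_cases hk : k = i
      · subst hk
        have e1 : (Pi.single k 1 + Pi.single j 1 + Pi.single k 1 : ι → ℤ) =
            Pi.single k 1 + Pi.single k 1 + Pi.single j 1 := by abel
        rw [e1, v21 _ _ (Ne.symm hij), Pi.single_eq_same, Pi.single_eq_of_ne hij,
          Pi.single_eq_of_ne (Ne.symm hij), hℓ, hb, hb', ht, ht', ht'', hω, hρ, hτ]
        module
      · by_cases hkj : k = j
        · subst hkj
          have e1 : (Pi.single i 1 + Pi.single k 1 + Pi.single k 1 : ι → ℤ) =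
              Pi.single k 1 + Pi.single k 1 + Pi.single i 1 := by abel
          rw [e1, v21 _ _ hk, Pi.single_eq_same, Pi.single_eq_of_ne hk, hℓ, hb, hb',
            ht, ht', ht'', hω, hρ, hτ]
          module
        · rw [v111 _ _ _ (Ne.symm hij) (Ne.symm hk) (Ne.symm hkj), Pi.single_eq_of_ne hij,
            Pi.single_eq_of_ne hk, Pi.single_eq_of_ne hkj, hℓ, hb, hb', ht, ht', ht'', hω, hρ, hτ]
          module

end V11316
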