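import Pool.Agent.V11316.Van

/-!
Evaluation of the parameter contributions `Tk`, and the symmetric (standard) family.
-/

open Finset Polynomial

namespace V11316

open V11307.Q

noncomputable section

/-- terminating parameter -/
theorem Tk_term {a B x b bs : RatFunc ℚ} {N : ℕ} (hx : x ≠ 0) (hB0 : B ≠ 0)
    (hbx : b * x = (B ^ N)⁻¹) (hbb : b * bs = a * B) (k : ℕ) :
    Tk B x b bs k = poch B ((B ^ N)⁻¹) k / poch B (a * B ^ (N + 1)) k * (x⁻¹) ^ k := by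
  have h1 : bs * x⁻¹ = a * B ^ (N + 1) := by
    have hN : B ^ N ≠ 0 := pow_ne_zero _ hB0
    have h2 : b = (B ^ N)⁻¹ * x⁻¹ := by rw [← hbx]; field_simp
    have h3 : (B ^ N)⁻¹ * (bs * x⁻¹) = a * B := by rw [← hbb, h2]; ring
    have h4 : bs * x⁻¹ = B ^ N * (a * B) := by rw [← h3]; field_simp
    rw [h4, pow_succ]; ring
  rw [Tk, hbx, h1, inv_pow]
  field_simp

/-- a pair of parameters -/
theorem Tk_pair {a B x x' b bs b' bs' β β' : RatFunc ℚ} {e : ℕ} (hx : x ≠ 0) (hx' : x' ≠ 0)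
    (hB0 : B ≠ 0) (ha0 : a ≠ 0)
    (hb : b * x = β * B ^ e) (hb' : b' * x' = β' * B ^ e) (hββ : β * β' * B ^ e = a * B)
    (hbb : b * bs = a * B) (hbb' : b' * bs' = a * B)
    (h1 : ∀ k, poch B β k ≠ 0) (h2 : ∀ k, poch B β' k ≠ 0) (k : ℕ) :
    Tk B x b bs k * Tk B x' b' bs' k =
      (pairP B β β' e).eval (wy a B k) * (b * b' * (a * B)⁻¹) ^ k := by
  have haB : a * B ≠ 0 := mul_ne_zero ha0 hB0
  have hBe : B ^ e ≠ 0 := pow_ne_zero _ hB0
  have hβ : β ≠ 0 := by rintro rfl; apply haB; rw [← hββ]; ring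
  have hβ' : β' ≠ 0 := by rintro rfl; apply haB; rw [← hββ]; ring
  have hb0 : b ≠ 0 := by rintro rfl; apply haB; rw [← hbb]; ring
  have hb0' : b' ≠ 0 := by rintro rfl; apply haB; rw [← hbb']; ring
  have e1 : bs * x⁻¹ = β' := by
    have h3 : (b * x) * (bs * x⁻¹) = (β * B ^ e) * β' := by
      rw [show (b * x) * (bs * x⁻¹) = b * bs * (x * x⁻¹) by ring, mul_inv_cancel₀ hx, hbb, ← hββ]
      ring
    rw [hb] at h3
    exact mul_left_cancel₀ (mul_ne_zero hβ hBe) h3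
  have e2 : bs' * x'⁻¹ = β := by
    have h3 : (b' * x') * (bs' * x'⁻¹) = (β' * B ^ e) * β := by
      rw [show (b' * x') * (bs' * x'⁻¹) = b' * bs' * (x' * x'⁻¹) by ring, mul_inv_cancel₀ hx',
        hbb', ← hββ]
      ring
    rw [hb'] at h3
    exact mul_left_cancel₀ (mul_ne_zero hβ' hBe) h3
  rw [pairP_eval hB0 hββ h1 h2, Tk, Tk, hb, hb', e1, e2]
  have e3 : b * b' * (a * B)⁻¹ = B ^ e * (x * x')⁻¹ := by
    have h4 : b * b' * (x * x') = (a * B) * B ^ e := by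
      rw [← hββ]; linear_combination (b' * x') * hb + (β * B ^ e) * hb'
    field_simp
    linear_combination h4
  rw [e3, mul_pow, inv_pow (B ^ e), mul_inv]
  have h5 := h1 k
  have h6 := h2 k
  have h7 : (B ^ e) ^ k ≠ 0 := pow_ne_zero _ hBe
  rw [mul_pow, inv_pow, inv_pow]
  field_simp

/-- a single parameter of the form `b₀ B^M`, `b₀² = aB` -/
theorem Tk_single {a B x b bs b₀ : RatFunc ℚ} {e : ℕ} (hx : x ≠ 0)
    (hB0 : B ≠ 0) (ha0 : a ≠ 0) (hb₀ : b₀ * b₀ = a * B)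
    (hb : b * x = b₀ * B ^ e) (hbb : b * bs = a * B)
    (h1 : ∀ k, poch B b₀ k ≠ 0) (h2 : ∀ k, poch B (b₀ * (B ^ e)⁻¹) k ≠ 0) (k : ℕ) :
    Tk B x b bs k =
      (pairP B b₀ (b₀ * (B ^ e)⁻¹) e).eval (wy a B k) * (b * b₀⁻¹) ^ k := by
  have haB : a * B ≠ 0 := mul_ne_zero ha0 hB0
  have hBe : B ^ e ≠ 0 := pow_ne_zero _ hB0
  have hb00 : b₀ ≠ 0 := by rintro rfl; apply haB; rw [← hb₀]; ring
  have h3 : b₀ * (b₀ * (B ^ e)⁻¹) * B ^ e = a * B := by
    rw [← hb₀]; field_simp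
  have e1 : bs * x⁻¹ = b₀ * (B ^ e)⁻¹ := by
    have h4 : (b * x) * (bs * x⁻¹) = (b₀ * B ^ e) * (b₀ * (B ^ e)⁻¹) := by
      rw [show (b * x) * (bs * x⁻¹) = b * bs * (x * x⁻¹) by ring, mul_inv_cancel₀ hx, hbb, ← hb₀]
      field_simp
    rw [hb] at h4
    exact mul_left_cancel₀ (mul_ne_zero hb00 hBe) h4
  rw [pairP_eval hB0 h3 h1 h2, Tk, hb, e1]
  have e3 : b * b₀⁻¹ = B ^ e * x⁻¹ := by
    field_simp
    linear_combination hb
  rw [e3, mul_pow, inv_pow (B ^ e), inv_pow]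
  have h5 := h1 k
  have h6 := h2 k
  have h7 : (B ^ e) ^ k ≠ 0 := pow_ne_zero _ hBe
  have h8 : b₀ * (B ^ e)⁻¹ * B ^ e = b₀ := by field_simp
  rw [h8]
  field_simp

theorem Tk_one {B a : RatFunc ℚ} (k : ℕ) : Tk B 1 a B k = poch B a k / poch B B k := by
  rw [Tk]; simp

/-! ### the standard family -/

variable {ι : Type*} [Fintype ι] [DecidableEq ι]

/-- coordinates -/
def lS : Option ι → ((ι → ℤ) →+ ℤ)
  | none => 0
  | some i => Pi.evalAddMonoidHom (fun _ => ℤ) i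

@[simp] theorem lS_none (c : ι → ℤ) : lS none c = 0 := rfl
@[simp] theorem lS_some (i : ι) (c : ι → ℤ) : lS (some i) c = c i := rfl

/-- the standard family: all parameters equal to `a`, first one unperturbed -/
def GS (ι : Type*) [Fintype ι] (n L : ℕ) (a B Z : RatFunc ℚ) (c : ι → ℤ) :
    RatFunc ℚ :=
  Gn n L a B Z (fun _ : Option ι => a) (fun _ => B) lS c

theorem GS_symm {n L : ℕ} {a B Z : RatFunc ℚ} (σ : Equiv.Perm ι) (c : ι → ℤ) :
    GS ι n L a B Z (c ∘ σ) = GS ι n L a B Z c := by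
  rw [GS, GS, Gn, Gn]
  refine sum_congr rfl fun k _ => ?_
  rw [Un, Un]
  congr 1
  rw [Fintype.prod_option, Fintype.prod_option]
  congr 1
  exact Equiv.prod_comp σ (fun i => pf n L B a B (lS (some i)) k c)

theorem third_zero {M : Type*} [AddCommGroup M] {n : ℕ} {f : M → RatFunc ℚ} (h : AQ n 3 f) :
    ∀ c u v w, ((f (c + u + v + w) : RatFunc ℚ) : RatFunc ℚ ⧸ Isg n 3) - (f (c + u + v) : RatFunc ℚ)
      - (f (c + u + w) : RatFunc ℚ) - (f (c + v + w) : RatFunc ℚ) + (f (c + u) : RatFunc ℚ) +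
      (f (c + v) : RatFunc ℚ) + (f (c + w) : RatFunc ℚ) - (f c : RatFunc ℚ) = 0 := by
  intro c u v w
  obtain ⟨y, hy, h1⟩ := h.diff3 u v w c
  simp only [← QuotientAddGroup.mk_sub, ← QuotientAddGroup.mk_add]
  rw [QuotientAddGroup.eq_zero_iff, mem_Isg]
  exact ⟨y, hy, h1⟩

/-- symmetric function of the class, zero on three points of a line -/
theorem sym_zero {n : ℕ} {f : (ι → ℤ) → RatFunc ℚ} (h : AQ n 3 f)
    (hs : ∀ (σ : Equiv.Perm ι) c, f (c ∘ σ) = f c)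
    (w0 : ι → ℤ) (hw0 : ∑ i, w0 i = 0) {i0 j0 : ι} (hij : i0 ≠ j0)
    (h0 : f w0 = 0) (h1 : f (w0 + (Pi.single i0 1 - Pi.single j0 1)) = 0)
    (h2 : f (w0 - (Pi.single i0 1 - Pi.single j0 1)) = 0) : I n 3 (f 0) := by
  have h3 := quad_const (A := RatFunc ℚ ⧸ Isg n 3) (fun a z hz h => quot_tor a hz h)
    (fun c => ((f c : RatFunc ℚ) : RatFunc ℚ ⧸ Isg n 3)) (third_zero h)
    (fun σ c => by rw [hs]) w0 hw0 hij (by
      beta_reduce
      rw [h0, h1, h2]; simp)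
  beta_reduce at h3
  rw [h0] at h3
  rw [← mem_Isg, ← QuotientAddGroup.eq_zero_iff, ← h3]
  rfl

end

end V11316
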