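import Pool.Agent.V11316.Cubic
import Pool.Agent.V11316.TkL

/-!
Evaluation of a symmetric cubic map at `0` from its values at special points.
-/

open Finset

namespace V11316

/-- index type -/
abbrev I3 (m : ℕ) : Type := Fin 3 ⊕ (Fin m ⊕ Fin m)

/-- the special points -/
def w3 (m : ℕ) (σ u v : ℤ) : I3 m → ℤ :=
  Sum.elim ![-(m + 1 : ℤ), u, σ - u] (Sum.elim (fun _ => v) (fun _ => 1 - v))

theorem ps_w3 (m : ℕ) (σ u v : ℤ) : ps1 (w3 m σ u v) = σ - 1 ∧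
    ps2 (w3 m σ u v) = (m + 1) ^ 2 + u ^ 2 + (σ - u) ^ 2 + m * (v ^ 2 + (1 - v) ^ 2) ∧
    ps3 (w3 m σ u v) = -(m + 1) ^ 3 + u ^ 3 + (σ - u) ^ 3 + m * (v ^ 3 + (1 - v) ^ 3) := by
  refine ⟨?_, ?_, ?_⟩
  · simp only [ps1, Fintype.sum_sum_type, w3, Sum.elim_inl, Sum.elim_inr, Fin.sum_univ_three]
    simp
    ring
  · simp only [ps2, Fintype.sum_sum_type, w3, Sum.elim_inl, Sum.elim_inr, Fin.sum_univ_three]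
    simp
    ring
  · simp only [ps3, Fintype.sum_sum_type, w3, Sum.elim_inl, Sum.elim_inr, Fin.sum_univ_three]
    simp
    ring

theorem cubic_eval {A : Type*} [AddCommGroup A]
    (htor : ∀ (a : A) (z : ℤ), z ≠ 0 → z • a = 0 → a = 0) {m : ℕ} (hm : 0 < m)
    (G : (I3 m → ℤ) → A) (h4 : PolD 4 G) (hs : ∀ (σ : Equiv.Perm (I3 m)) c, G (c ∘ σ) = G c)
    (e1 : G (w3 m 1 0 0) = 0) (e2 : G (w3 m 1 (-1) 0) = 0)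
    (e3 : G (w3 m 0 0 (-1)) = G (w3 m 0 0 0)) :
    (6 : ℤ) • G 0 + (((m : ℤ) + 1) * (m + 2) * (2 * m + 3)) •
      (G (w3 m 0 1 0) - G (w3 m 0 0 0)) = 0 := by
  obtain ⟨ℓ, b, b', t, t', t'', h⟩ := cubic_struct G h4 hs (i0 := Sum.inl 0) (i1 := Sum.inl 1)
    (i2 := Sum.inl 2) (by simp) (by simp) (by simp)
  have f1 := h (w3 m 1 0 0)
  have f2 := h (w3 m 1 (-1) 0)
  have f3 := h (w3 m 0 0 0)
  have f4 := h (w3 m 0 1 0)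
  have f5 := h (w3 m 0 0 (-1))
  obtain ⟨a1, b1, c1⟩ := ps_w3 m 1 0 0
  obtain ⟨a2, b2, c2⟩ := ps_w3 m 1 (-1) 0
  obtain ⟨a3, b3, c3⟩ := ps_w3 m 0 0 0
  obtain ⟨a4, b4, c4⟩ := ps_w3 m 0 1 0
  obtain ⟨a5, b5, c5⟩ := ps_w3 m 0 0 (-1)
  rw [a1, b1, c1, e1] at f1
  rw [a2, b2, c2, e2] at f2
  rw [a3, b3, c3] at f3
  rw [a4, b4, c4] at f4
  rw [a5, b5, c5, e3] at f5
  set g0 := G 0
  set g3 := G (w3 m 0 0 0)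
  set g4 := G (w3 m 0 1 0)
  -- 2b + 3t = 0
  have k1 : (2 : ℤ) • b + (3 : ℤ) • t = 0 := by
    refine htor _ 2 two_ne_zero ?_
    have : (2 : ℤ) • ((2 : ℤ) • b + (3 : ℤ) • t) =
      (((1 : ℤ) - 1) • ℓ + (((m : ℤ) + 1) ^ 2 + (-1) ^ 2 + (1 - -1) ^ 2 +
        m * (0 ^ 2 + (1 - 0) ^ 2)) • b + ((1 : ℤ) - 1) ^ 2 • b' +
        (-((m : ℤ) + 1) ^ 3 + (-1) ^ 3 + (1 - -1) ^ 3 + m * (0 ^ 3 + (1 - 0) ^ 3)) • t +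
        (((1 : ℤ) - 1) * (((m : ℤ) + 1) ^ 2 + (-1) ^ 2 + (1 - -1) ^ 2 +
          m * (0 ^ 2 + (1 - 0) ^ 2))) • t' + ((1 : ℤ) - 1) ^ 3 • t'') -
      (((1 : ℤ) - 1) • ℓ + (((m : ℤ) + 1) ^ 2 + 0 ^ 2 + (1 - 0) ^ 2 +
        m * (0 ^ 2 + (1 - 0) ^ 2)) • b + ((1 : ℤ) - 1) ^ 2 • b' +
        (-((m : ℤ) + 1) ^ 3 + 0 ^ 3 + (1 - 0) ^ 3 + m * (0 ^ 3 + (1 - 0) ^ 3)) • t +
        (((1 : ℤ) - 1) * (((m : ℤ) + 1) ^ 2 + 0 ^ 2 + (1 - 0) ^ 2 +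
          m * (0 ^ 2 + (1 - 0) ^ 2))) • t' + ((1 : ℤ) - 1) ^ 3 • t'') := by
      module
    rw [this, ← f1, ← f2, sub_self]
  -- t' = 0
  have k2 : t' = 0 := by
    refine htor _ (4 * (m : ℤ)) (by positivity) ?_
    have : (4 * (m : ℤ)) • t' =
      (((0 : ℤ) - 1) • ℓ + (((m : ℤ) + 1) ^ 2 + 0 ^ 2 + (0 - 0) ^ 2 +
        m * (0 ^ 2 + (1 - 0) ^ 2)) • b + ((0 : ℤ) - 1) ^ 2 • b' +
        (-((m : ℤ) + 1) ^ 3 + 0 ^ 3 + (0 - 0) ^ 3 + m * (0 ^ 3 + (1 - 0) ^ 3)) • t +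
        (((0 : ℤ) - 1) * (((m : ℤ) + 1) ^ 2 + 0 ^ 2 + (0 - 0) ^ 2 +
          m * (0 ^ 2 + (1 - 0) ^ 2))) • t' + ((0 : ℤ) - 1) ^ 3 • t'') -
      (((0 : ℤ) - 1) • ℓ + (((m : ℤ) + 1) ^ 2 + 0 ^ 2 + (0 - 0) ^ 2 +
        m * ((-1) ^ 2 + (1 - -1) ^ 2)) • b + ((0 : ℤ) - 1) ^ 2 • b' +
        (-((m : ℤ) + 1) ^ 3 + 0 ^ 3 + (0 - 0) ^ 3 + m * ((-1) ^ 3 + (1 - -1) ^ 3)) • t +
        (((0 : ℤ) - 1) * (((m : ℤ) + 1) ^ 2 + 0 ^ 2 + (0 - 0) ^ 2 +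
          m * ((-1) ^ 2 + (1 - -1) ^ 2))) • t' + ((0 : ℤ) - 1) ^ 3 • t'') +
      (2 * (m : ℤ)) • ((2 : ℤ) • b + (3 : ℤ) • t) := by
      module
    rw [this, ← f3, ← f5, sub_self, k1, smul_zero, add_zero]
  -- 12 Δ = 2 b
  have k3 : (12 : ℤ) • (g4 - g3) = (2 : ℤ) • b := by
    have : (2 : ℤ) • b =
      (((0 : ℤ) - 1) • ℓ + (((m : ℤ) + 1) ^ 2 + 1 ^ 2 + (0 - 1) ^ 2 +
        m * (0 ^ 2 + (1 - 0) ^ 2)) • b + ((0 : ℤ) - 1) ^ 2 • b' +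
        (-((m : ℤ) + 1) ^ 3 + 1 ^ 3 + (0 - 1) ^ 3 + m * (0 ^ 3 + (1 - 0) ^ 3)) • t +
        (((0 : ℤ) - 1) * (((m : ℤ) + 1) ^ 2 + 1 ^ 2 + (0 - 1) ^ 2 +
          m * (0 ^ 2 + (1 - 0) ^ 2))) • t' + ((0 : ℤ) - 1) ^ 3 • t'') -
      (((0 : ℤ) - 1) • ℓ + (((m : ℤ) + 1) ^ 2 + 0 ^ 2 + (0 - 0) ^ 2 +
        m * (0 ^ 2 + (1 - 0) ^ 2)) • b + ((0 : ℤ) - 1) ^ 2 • b' +
        (-((m : ℤ) + 1) ^ 3 + 0 ^ 3 + (0 - 0) ^ 3 + m * (0 ^ 3 + (1 - 0) ^ 3)) • t +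
        (((0 : ℤ) - 1) * (((m : ℤ) + 1) ^ 2 + 0 ^ 2 + (0 - 0) ^ 2 +
          m * (0 ^ 2 + (1 - 0) ^ 2))) • t' + ((0 : ℤ) - 1) ^ 3 • t'') + (2 : ℤ) • t' := by
      module
    rw [this, ← f3, ← f4, k2]
    module
  refine htor _ 12 (by norm_num) ?_
  set Y : ℤ := ((m : ℤ) + 1) * (m + 2) * (2 * m + 3) with hY
  have k4 : (12 : ℤ) • ((6 : ℤ) • g0 + Y • (g4 - g3)) =
      (-6 : ℤ) • ((12 : ℤ) • (0 - g0)) + Y • ((12 : ℤ) • (g4 - g3)) := by module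
  rw [k4, f1, k3, hY]
  have k5 : (-6 : ℤ) • (((1 : ℤ) - 1) • ℓ + (((m : ℤ) + 1) ^ 2 + 0 ^ 2 + (1 - 0) ^ 2 +
        m * (0 ^ 2 + (1 - 0) ^ 2)) • b + ((1 : ℤ) - 1) ^ 2 • b' +
        (-((m : ℤ) + 1) ^ 3 + 0 ^ 3 + (1 - 0) ^ 3 + m * (0 ^ 3 + (1 - 0) ^ 3)) • t +
        (((1 : ℤ) - 1) * (((m : ℤ) + 1) ^ 2 + 0 ^ 2 + (1 - 0) ^ 2 +
          m * (0 ^ 2 + (1 - 0) ^ 2))) • t' + ((1 : ℤ) - 1) ^ 3 • t'') +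
      (((m : ℤ) + 1) * (m + 2) * (2 * m + 3)) • ((2 : ℤ) • b) =
      (2 * (((m : ℤ) + 1) ^ 3 - (m + 1))) • ((2 : ℤ) • b + (3 : ℤ) • t) := by
    module
  rw [k5, k1, smul_zero]

/-- from difference classes to vanishing differences in the quotient -/
theorem AQ_PolD {M : Type*} [AddCommGroup M] {n : ℕ} : ∀ {k j : ℕ} {f : M → RatFunc ℚ},
    AQ n k f → PolD k (fun c => ((cyc n ^ j * f c : RatFunc ℚ) : RatFunc ℚ ⧸ Isg n (k + j)))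
  | 0, j, f, h => fun c => by
      show ((cyc n ^ j * f c : RatFunc ℚ) : RatFunc ℚ ⧸ Isg n (0 + j)) = 0
      rw [QuotientAddGroup.eq_zero_iff, mem_Isg]
      exact ⟨f c, h c, by rw [zero_add]⟩
  | (k + 1), j, f, h => fun v => by
      obtain ⟨g, hg, h1⟩ := h.2 v
      have h2 := AQ_PolD (j := j + 1) hg
      have e : k + (j + 1) = k + 1 + j := by ring
      rw [e] at h2
      refine h2.congr fun c => ?_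
      rw [← QuotientAddGroup.mk_sub]
      congr 1
      have := h1 c
      rw [pow_succ]
      linear_combination (-(cyc n ^ j)) * this

end V11316
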