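import Pool.Agent.V11316.QAn
import Pool.Agent.V11316.Affine

/-!
Divisibility by `Φ_n(q)²` of
`∑_{k<n} ∏_j (q^{r_j};q^m)_k / (q^m;q^m)_k^d q^{mk}`, `∑ r_j = m`, `n ≡ -1 (mod m)`, `d ≥ 3`.
-/

open Finset Polynomial

namespace V11316

open V11307.Q

noncomputable section

/-- The polynomial `z ↦ (zB;B)_l / (B;B)_l`. -/
def polB {K : Type*} [Field K] (B : K) (l : ℕ) : K[X] :=
  C ((poch B B l)⁻¹) * ∏ i ∈ range l, (1 - C (B ^ (i + 1)) * X)

theorem polB_eval {K : Type*} [Field K] {B : K} (hB : ∀ k, poch B B k ≠ 0) (l k : ℕ) :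
    (polB B l).eval (B ^ k) = poch B (B ^ (l + 1)) k / poch B B k := by
  have h1 : poch B B (l + k) = poch B B l * poch B (B ^ (l + 1)) k := by
    rw [poch_add, pow_succ']
  have h2 : poch B B (k + l) = poch B B k * poch B (B * B ^ k) l := poch_add _ _ _ _
  have h3 : (polB B l).eval (B ^ k) = (poch B B l)⁻¹ * poch B (B * B ^ k) l := by
    rw [polB, eval_mul, eval_C, eval_prod, poch]
    congr 1
    refine prod_congr rfl fun i _ => ?_
    simp only [eval_sub, eval_one, eval_mul, eval_C, eval_X]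
    ring
  rw [h3, eq_div_iff (hB k), inv_mul_eq_div, div_mul_eq_mul_div, div_eq_iff (hB l)]
  rw [mul_comm _ (poch B B k), ← h2, add_comm k l, h1]
  ring

theorem polB_natDegree {K : Type*} [Field K] (B : K) (l : ℕ) : (polB B l).natDegree ≤ l := by
  refine (natDegree_C_mul_le _ _).trans ?_
  refine (natDegree_prod_le _ _).trans ?_
  refine (sum_le_sum (g := fun _ => 1) fun i _ => ?_).trans (by simp)
  refine (natDegree_sub_le _ _).trans ?_
  simp only [natDegree_one, Nat.zero_le, max_eq_right, zero_le]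
  simpa using natDegree_C_mul_X_pow_le (B ^ (i + 1)) 1

/-- the family -/
def FD {d : ℕ} (n m : ℕ) (r : Fin d → ℕ) (c : Fin d → ℤ) : RatFunc ℚ :=
  ∑ k ∈ range n, (∏ j, poch (q ^ m) (q ^ (r j) * (q ^ n) ^ (c j)) k) *
    ((poch (q ^ m) (q ^ m) k)⁻¹) ^ d * (q ^ m) ^ k

theorem FD_an {d n m : ℕ} (hn : 0 < n) (hc : n.Coprime m) (r : Fin d → ℕ) (l : ℕ) :
    AQ n l (FD n m r) := by
  refine An.sum (range n) fun k hk => ?_
  have hk' := mem_range.1 hk
  refine An.mul (An.mul (An.prod univ fun j _ => ?_) ?_) ?_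
  · refine AQ_poch (qpow_mem m) ?_ k
    refine An.smul (qpow_mem _) ?_
    exact AQ_Q hn (Pi.evalAddMonoidHom (fun _ : Fin d => ℤ) j)
  · exact An.const (pow_mem (poch_qm_inv hn hc hk') d)
  · exact An.const (pow_mem (qpow_mem m) k)

theorem q_zpow (a : ℕ) (b : ℤ) : (q ^ a : RatFunc ℚ) ^ b = q ^ ((a : ℤ) * b) := by
  rw [← zpow_natCast, ← zpow_mul]

/-- vanishing at the special points -/
theorem FD_zero {d n m h : ℕ} (hd : 3 ≤ d) (hm : 0 < m) (hn : n + 1 = m * h)
    (r : Fin d → ℕ) (hr0 : ∀ j, 0 < r j) (hr : ∑ j, r j = m) (i : Fin d) :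
    FD n m r ((fun j => (r j : ℤ)) - (m : ℤ) • Pi.single i 1) = 0 := by
  have hh : 0 < h := by
    rcases Nat.eq_zero_or_pos h with rfl | h0
    · simp at hn
    · exact h0
  set B : RatFunc ℚ := q ^ m with hBdef
  have hB0 : B ≠ 0 := pow_ne_zero _ q_ne
  have hB : ∀ k, poch B B k ≠ 0 := poch_qm_ne hm
  -- sum over `j ≠ i`
  have hsum : ∑ j ∈ univ.erase i, r j + r i = m := by
    rw [← hr]; exact sum_erase_add _ _ (mem_univ i)
  have hcard : (univ.erase i : Finset (Fin d)).card = d - 1 := by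
    rw [card_erase_of_mem (mem_univ i)]; simp
  have hlt : (d - 1) ≤ ∑ j ∈ univ.erase i, r j := by
    rw [← hcard, card_eq_sum_ones]
    exact sum_le_sum fun j _ => hr0 j
  set s := ∑ j ∈ univ.erase i, r j with hs
  obtain ⟨N, hN⟩ : ∃ N, N + 1 = h * s := ⟨h * s - 1, by
    have : 0 < h * s := Nat.mul_pos hh (by omega)
    omega⟩
  have hNn : n = N + h * r i := by
    have : m * h = h * s + h * r i := by rw [← hsum]; ring
    omega
  have hNn' : N + 1 ≤ n := by
    have : 0 < h * r i := Nat.mul_pos hh (hr0 i)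
    omega
  -- the polynomial
  set P : (RatFunc ℚ)[X] := ∏ j ∈ univ.erase i, polB B (h * r j - 1) with hP
  have hPdeg : P.natDegree + (d - 1) ≤ N + 1 := by
    have h1 : P.natDegree ≤ ∑ j ∈ univ.erase i, (h * r j - 1) :=
      (natDegree_prod_le _ _).trans (sum_le_sum fun j _ => polB_natDegree _ _)
    have h2 : ∑ j ∈ univ.erase i, (h * r j - 1) + (d - 1) = h * s := by
      rw [← hcard, card_eq_sum_ones, ← sum_add_distrib, hs, mul_sum]
      refine sum_congr rfl fun j _ => ?_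
      have : 0 < h * r j := Nat.mul_pos hh (hr0 j)
      omega
    omega
  have hPd : P.degree < N := by
    refine lt_of_le_of_lt degree_le_natDegree ?_
    norm_cast
    omega
  have horth := orthB hB0 hB N P hPd
  -- term identification
  have hterm : ∀ k, (∏ j, poch B (q ^ (r j) * (q ^ n) ^
        (((fun j => (r j : ℤ)) - (m : ℤ) • (Pi.single i 1 : Fin d → ℤ)) j)) k) *
        ((poch B B k)⁻¹) ^ d * B ^ k =
      poch B ((B ^ N)⁻¹) k / poch B B k * B ^ k * P.eval (B ^ k) := by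
    intro k
    rw [← mul_prod_erase univ _ (mem_univ i)]
    have hi : q ^ (r i) * (q ^ n) ^
        (((fun j => (r j : ℤ)) - (m : ℤ) • (Pi.single i 1 : Fin d → ℤ)) i) = (B ^ N)⁻¹ := by
      rw [hBdef, ← pow_mul, ← zpow_natCast, ← zpow_natCast q (m * N), ← zpow_neg, q_zpow,
        ← zpow_add₀ q_ne]
      congr 1
      simp only [Pi.sub_apply, Pi.smul_apply, Pi.single_eq_same, smul_eq_mul, mul_one]
      have h1 : (n : ℤ) + 1 = m * h := by exact_mod_cast hn
      have h2 : (n : ℤ) = N + h * r i := by exact_mod_cast hNn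
      push_cast
      linear_combination ((r i : ℤ)) * h1 - (m : ℤ) * h2
    have hj : ∀ j ∈ univ.erase i, poch B (q ^ (r j) * (q ^ n) ^
        (((fun j => (r j : ℤ)) - (m : ℤ) • (Pi.single i 1 : Fin d → ℤ)) j)) k =
        (polB B (h * r j - 1)).eval (B ^ k) * poch B B k := by
      intro j hj
      have hji : j ≠ i := (mem_erase.1 hj).1
      have hpos : 0 < h * r j := Nat.mul_pos hh (hr0 j)
      rw [polB_eval hB, div_mul_cancel₀ _ (hB k)]
      congr 1
      rw [show h * r j - 1 + 1 = h * r j by omega, hBdef, ← pow_mul, ← zpow_natCast,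
        ← zpow_natCast q (m * _), q_zpow, ← zpow_add₀ q_ne]
      congr 1
      simp only [Pi.sub_apply, Pi.smul_apply, Pi.single_eq_of_ne hji, smul_eq_mul, mul_zero,
        sub_zero]
      have h1 : (n : ℤ) + 1 = m * h := by exact_mod_cast hn
      push_cast
      linear_combination ((r j : ℤ)) * h1
    rw [hi, prod_congr rfl hj, prod_mul_distrib, prod_const, hcard, hP, eval_prod]
    have hpB := hB k
    obtain ⟨d', rfl⟩ : ∃ d', d = d' + 1 := ⟨d - 1, by omega⟩
    simp only [Nat.add_sub_cancel]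
    have : poch B B k ^ d' * (poch B B k)⁻¹ ^ (d' + 1) = (poch B B k)⁻¹ := by
      rw [pow_succ, ← mul_assoc, ← mul_pow, mul_inv_cancel₀ hpB, one_pow, one_mul]
    calc _ = poch B ((B ^ N)⁻¹) k * (∏ j ∈ univ.erase i, (polB B (h * r j - 1)).eval (B ^ k)) *
          (poch B B k ^ d' * (poch B B k)⁻¹ ^ (d' + 1)) * B ^ k := by ring
      _ = _ := by rw [this]; ring
  rw [FD]
  rw [sum_congr rfl fun k _ => hterm k]
  obtain ⟨t, rfl⟩ := Nat.exists_eq_add_of_le hNn'
  rw [sum_range_add, horth, zero_add]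
  refine sum_eq_zero fun k _ => ?_
  have : poch B ((B ^ N)⁻¹) (N + 1 + k) = 0 := by
    rw [poch_add, poch_succ, inv_mul_cancel₀ (pow_ne_zero _ hB0)]
    simp
  rw [this]; simp

/-- The main congruence. -/
theorem FD_cong {d n m : ℕ} (hd : 3 ≤ d) (hn0 : 0 < n) (hmn : m ∣ n + 1)
    (r : Fin d → ℕ) (hr0 : ∀ j, 0 < r j) (hr : ∑ j, r j = m) :
    I n 2 (∑ k ∈ range n, (∏ j, poch (q ^ m) (q ^ (r j)) k) *
      ((poch (q ^ m) (q ^ m) k)⁻¹) ^ d * (q ^ m) ^ k) := by
  obtain ⟨h, hn⟩ := hmn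
  have hm : 0 < m := by
    rcases Nat.eq_zero_or_pos m with rfl | h0
    · simp at hn
    · exact h0
  have hc : n.Coprime m := by
    have h1 : Nat.gcd n m ∣ 1 := by
      have h2 : Nat.gcd n m ∣ n + 1 := by rw [hn]; exact (Nat.gcd_dvd_right n m).mul_right h
      exact (Nat.dvd_add_right (Nat.gcd_dvd_left n m)).1 h2
    exact Nat.dvd_one.1 h1
  have han := FD_an (l := 2) hn0 hc r
  let G : (Fin d → ℤ) → (RatFunc ℚ ⧸ Isg n 2) := fun c => ((FD n m r c : RatFunc ℚ) : _ ⧸ Isg n 2)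
  have h2 : ∀ c u v, G (c + u + v) - G (c + u) - G (c + v) + G c = 0 := by
    intro c u v
    obtain ⟨y, hy, h⟩ := han.diff2 u v c
    show ((FD n m r (c + u + v) : RatFunc ℚ) : RatFunc ℚ ⧸ Isg n 2) - _ - _ + _ = 0
    rw [← QuotientAddGroup.mk_sub, ← QuotientAddGroup.mk_sub, ← QuotientAddGroup.mk_add,
      QuotientAddGroup.eq_zero_iff, mem_Isg]
    exact ⟨y, hy, h⟩
  have h3 := affine_zero (fun a z hz h => quot_tor a hz h) G h2 (fun j => (r j : ℤ))
    (m := (m : ℤ)) (by exact_mod_cast hm.ne') (by exact_mod_cast hr)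
    (fun i => by
      show ((FD n m r _ : RatFunc ℚ) : RatFunc ℚ ⧸ Isg n 2) = 0
      rw [FD_zero hd hm hn r hr0 hr i]
      rfl)
  have h4 : I n 2 (FD n m r 0) := by
    rw [← mem_Isg, ← QuotientAddGroup.eq_zero_iff]
    exact h3
  simpa [FD] using h4

end

end V11316
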