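import Pool.Agent.V11316.E6c

/-!
`q`-Delannoy numbers: symmetric forms.
-/

open Finset Polynomial

namespace V11316.Del

open V11307.Q V11316

noncomputable section

/-- the Gaussian binomial coefficient in base `x` -/
def gauss (x : RatFunc ℚ) (n k : ℕ) : RatFunc ℚ :=
  ∏ i ∈ range k, (1 - x ^ (n - i)) / (1 - x ^ (i + 1))

/-- the `q`-Delannoy number in base `x` -/
def Dq (x : RatFunc ℚ) (m n : ℕ) : RatFunc ℚ :=
  ∑ j ∈ range (n + 1), x ^ (j * (j - 1) / 2) * gauss x n j * gauss x (m + n - j) n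

/-- `x` is not a root of unity -/
def NR (x : RatFunc ℚ) : Prop := ∀ k : ℕ, (1 : RatFunc ℚ) - x ^ (k + 1) ≠ 0

theorem NR_q : NR q := fun k => one_sub_ne (Nat.succ_pos k)

theorem NR_qi : NR q⁻¹ := fun k h => by
  have h1 := NR_q k
  apply h1
  rw [inv_pow, sub_eq_zero, eq_comm] at h
  have h2 := inv_eq_iff_eq_inv.mp h
  rw [inv_one] at h2
  rw [h2, sub_self]

theorem gauss_zero_right (x : RatFunc ℚ) (n : ℕ) : gauss x n 0 = 1 := by simp [gauss]

theorem gauss_succ (x : RatFunc ℚ) (n k : ℕ) :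
    gauss x n (k + 1) = gauss x n k * ((1 - x ^ (n - k)) / (1 - x ^ (k + 1))) := by
  rw [gauss, prod_range_succ, gauss]

theorem gauss_gt {x : RatFunc ℚ} {n k : ℕ} (h : n < k) : gauss x n k = 0 := by
  rw [gauss, prod_eq_zero_iff]
  exact ⟨n, mem_range.2 h, by simp⟩

theorem gauss_succ_succ {x : RatFunc ℚ} (n k : ℕ) :
    gauss x (n + 1) (k + 1) = gauss x n k * ((1 - x ^ (n + 1)) / (1 - x ^ (k + 1))) := by
  rw [gauss, prod_div_distrib, prod_range_succ', gauss, prod_div_distrib, prod_range_succ]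
  rw [div_mul_div_comm]
  congr 1
  congr 1
  refine prod_congr rfl fun i _ => ?_
  rw [Nat.succ_sub_succ]

theorem pascal {x : RatFunc ℚ} (hx : NR x) {n k : ℕ} (h : k ≤ n) :
    gauss x (n + 1) (k + 1) = gauss x n (k + 1) + x ^ (n - k) * gauss x n k := by
  rw [gauss_succ_succ, gauss_succ]
  have h1 := hx k
  have h2 : x ^ (n + 1) = x ^ (n - k) * x ^ (k + 1) := by rw [← pow_add]; congr 1; omega
  rw [h2]
  field_simp
  ring

theorem gauss_fac {x : RatFunc ℚ} (hx : NR x) {n k : ℕ} (h : k ≤ n) :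
    gauss x n k * (poch x x k * poch x x (n - k)) = poch x x n := by
  induction k with
  | zero => simp [gauss_zero_right]
  | succ k ih =>
    have h1 := ih (by omega)
    rw [gauss_succ, poch_succ, ← h1]
    have h2 : n - k = (n - (k + 1)) + 1 := by omega
    rw [h2, poch_succ x x (n - (k + 1))]
    have h3 := hx k
    have e1 : x * x ^ (n - (k + 1)) = x ^ (n - (k + 1) + 1) := by rw [pow_succ']
    have e2 : x * x ^ k = x ^ (k + 1) := by rw [pow_succ']
    rw [e1, e2]
    field_simp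

theorem ff_ne {x : RatFunc ℚ} (hx : NR x) (k : ℕ) : poch x x k ≠ 0 := by
  rw [poch, prod_ne_zero_iff]
  intro i _
  rw [← pow_succ']
  exact hx i

theorem gauss_sym {x : RatFunc ℚ} (hx : NR x) {n k : ℕ} (h : k ≤ n) :
    gauss x n (n - k) = gauss x n k := by
  have h1 := gauss_fac hx h
  have h2 := gauss_fac hx (Nat.sub_le n k)
  rw [Nat.sub_sub_self h, ← h1, mul_comm (poch x x (n - k))] at h2
  exact mul_right_cancel₀ (mul_ne_zero (ff_ne hx k) (ff_ne hx (n - k))) h2

theorem gauss_swap {x : RatFunc ℚ} (hx : NR x) (m n j : ℕ) :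
    gauss x n j * gauss x (m + n - j) n = gauss x m j * gauss x (m + n - j) m := by
  by_cases hn : j ≤ n
  · by_cases hm : j ≤ m
    · have h1 := gauss_fac hx hn
      have h2 := gauss_fac hx hm
      have h3 := gauss_fac hx (show n ≤ m + n - j by omega)
      have h4 := gauss_fac hx (show m ≤ m + n - j by omega)
      rw [show m + n - j - n = m - j by omega] at h3
      rw [show m + n - j - m = n - j by omega] at h4
      have f1 := ff_ne hx n
      have f2 := ff_ne hx m
      have f3 := ff_ne hx j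
      have f4 := ff_ne hx (m - j)
      have f5 := ff_ne hx (n - j)
      have g1 : gauss x n j = poch x x n / (poch x x j * poch x x (n - j)) := by
        rw [eq_div_iff (mul_ne_zero f3 f5), h1]
      have g2 : gauss x m j = poch x x m / (poch x x j * poch x x (m - j)) := by
        rw [eq_div_iff (mul_ne_zero f3 f4), h2]
      have g3 : gauss x (m + n - j) n =
          poch x x (m + n - j) / (poch x x n * poch x x (m - j)) := by
        rw [eq_div_iff (mul_ne_zero f1 f4), h3]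
      have g4 : gauss x (m + n - j) m =
          poch x x (m + n - j) / (poch x x m * poch x x (n - j)) := by
        rw [eq_div_iff (mul_ne_zero f2 f5), h4]
      rw [g1, g2, g3, g4]
      field_simp
    · rw [gauss_gt (show m + n - j < n by omega), gauss_gt (show m < j by omega)]
      simp
  · rw [gauss_gt (show n < j by omega)]
    by_cases hm : j ≤ m
    · rw [gauss_gt (show m + n - j < m by omega)]; simp
    · rw [gauss_gt (show m < j by omega)]; simp

/-- symmetry of the Delannoy numbers -/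
theorem Dq_symm {x : RatFunc ℚ} (hx : NR x) (m n : ℕ) : Dq x m n = Dq x n m := by
  have h1 : ∀ m n : ℕ, Dq x m n = ∑ j ∈ range (m + n + 1),
      x ^ (j * (j - 1) / 2) * gauss x n j * gauss x (m + n - j) n := by
    intro m n
    rw [Dq, show m + n + 1 = (n + 1) + m by ring,
      sum_range_add (fun j => x ^ (j * (j - 1) / 2) * gauss x n j * gauss x (m + n - j) n) (n + 1) m]
    rw [show ∑ k ∈ range m, x ^ ((n + 1 + k) * (n + 1 + k - 1) / 2) * gauss x n (n + 1 + k) *
      gauss x (m + n - (n + 1 + k)) n = 0 from sum_eq_zero fun k _ => by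
        rw [gauss_gt (show n < n + 1 + k by omega)]; simp, add_zero]
  rw [h1, h1, show n + m + 1 = m + n + 1 by ring]
  refine sum_congr rfl fun j _ => ?_
  rw [mul_assoc, mul_assoc, gauss_swap hx, show n + m - j = m + n - j by omega]

/-- Gaussian binomials as quotients of shifted factorials -/
theorem gauss_poch {m n j : ℕ} (hj : j ≤ n) :
    gauss q (m + n - j) n = poch q (q ^ ((1 : ℤ) - j + m)) n / poch q q n := by
  by_cases hm : j ≤ m
  · rw [gauss, prod_div_distrib, poch, poch, ← prod_range_reflect]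
    congr 1
    · refine prod_congr rfl fun i hi => ?_
      have hi' := mem_range.1 hi
      have e1 : (q ^ ((1 : ℤ) - j + m) : RatFunc ℚ) * q ^ i = q ^ (m + n - j - (n - 1 - i)) := by
        rw [← zpow_natCast, ← zpow_natCast, ← zpow_add₀ q_ne]
        congr 1
        omega
      rw [e1]
    · exact prod_congr rfl fun i _ => by rw [pow_succ']
  · rw [gauss_gt (show m + n - j < n by omega)]
    have h0 : poch q (q ^ ((1 : ℤ) - j + m)) n = 0 := by
      rw [poch, prod_eq_zero_iff]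
      refine ⟨j - m - 1, mem_range.2 (by omega), ?_⟩
      rw [← zpow_natCast, ← zpow_add₀ q_ne]
      have : (1 : ℤ) - j + m + ((j - m - 1 : ℕ) : ℤ) = 0 := by omega
      rw [this, zpow_zero, sub_self]
    rw [h0, zero_div]

/-- the polynomial `A_N(y)` -/
def AA (N : ℕ) (y : RatFunc ℚ) : RatFunc ℚ :=
  ∑ i ∈ range (N + 1), q ^ (i * (i - 1) / 2) * gauss q N i *
    (poch q (q ^ ((1 : ℤ) - i) * y) N / poch q q N)

theorem Dq_AA (m n : ℕ) : Dq q m n = AA n (q ^ (m : ℤ)) := by
  rw [Dq, AA]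
  refine sum_congr rfl fun j hj => ?_
  have hj' : j ≤ n := Nat.lt_succ_iff.1 (mem_range.1 hj)
  rw [gauss_poch hj', ← zpow_add₀ q_ne]

/-- base `q⁻¹` -/
theorem gauss_inv {n k : ℕ} (h : k ≤ n) :
    gauss q⁻¹ n k = q ^ (-((k : ℤ) * (n - k))) * gauss q n k := by
  induction k with
  | zero => simp [gauss_zero_right]
  | succ k ih =>
    rw [gauss_succ, gauss_succ, ih (by omega)]
    have h1 := NR_q k
    have h2 := NR_qi k
    obtain ⟨t, rfl⟩ : ∃ t, n = k + t := ⟨n - k, by omega⟩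
    rw [show k + t - k = t by omega]
    have e1 : (1 - q⁻¹ ^ t : RatFunc ℚ) = -(q ^ (-(t : ℤ))) * (1 - q ^ t) := by
      rw [zpow_neg, zpow_natCast, inv_pow]
      have := pow_ne_zero t q_ne
      field_simp
      ring
    have e2 : (1 - q⁻¹ ^ (k + 1) : RatFunc ℚ) = -(q ^ (-((k + 1 : ℕ) : ℤ))) * (1 - q ^ (k + 1)) := by
      rw [zpow_neg, zpow_natCast, inv_pow]
      have := pow_ne_zero (k + 1) q_ne
      field_simp
      ring
    have e3 : (1 - q⁻¹ ^ t) / (1 - q⁻¹ ^ (k + 1)) =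
        q ^ (((k + 1 : ℕ) : ℤ) - t) * ((1 - q ^ t) / (1 - q ^ (k + 1))) := by
      rw [e1, e2, zpow_sub₀ q_ne, zpow_neg, zpow_neg]
      have h4 := qz_ne ((k + 1 : ℕ) : ℤ)
      have h5 := qz_ne (t : ℤ)
      field_simp
    rw [e3]
    have e4 : (q : RatFunc ℚ) ^ (-((k : ℤ) * (((k + t : ℕ) : ℤ) - k))) *
        q ^ (((k + 1 : ℕ) : ℤ) - t) = q ^ (-(((k + 1 : ℕ) : ℤ) * (((k + t : ℕ) : ℤ) - ((k + 1 : ℕ) : ℤ)))) := by
      rw [← zpow_add₀ q_ne]; congr 1; push_cast; ring
    rw [← e4]; ring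

theorem tri_int (k : ℕ) : 2 * (((k * (k - 1) / 2 : ℕ)) : ℤ) = k * (k - 1) := by
  rw [← Finset.sum_range_id]
  exact two_tri' k

/-- the numbers in base `q⁻¹` -/
theorem Dqi_AA (m n : ℕ) : Dq q⁻¹ m n = (-1) ^ n * q ^ (n : ℤ) * AA n (q ^ (-(m : ℤ) - 1)) := by
  rw [Dq, AA, mul_sum, ← sum_range_reflect (fun i => (-1) ^ n * q ^ (n : ℤ) *
    (q ^ (i * (i - 1) / 2) * gauss q n i *
      (poch q (q ^ ((1 : ℤ) - i) * q ^ (-(m : ℤ) - 1)) n / poch q q n)))]
  refine sum_congr rfl fun j hj => ?_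
  have hj' : j ≤ n := Nat.lt_succ_iff.1 (mem_range.1 hj)
  rw [show n + 1 - 1 - j = n - j by omega, gauss_sym NR_q hj', ← zpow_add₀ q_ne]
  have h1 := poch_rev 1 ((1 : ℤ) - ((n - j : ℕ) : ℤ) + (-(m : ℤ) - 1)) n
  have h2 : -((1 : ℤ) - ((n - j : ℕ) : ℤ) + (-(m : ℤ) - 1)) - 1 * ((n : ℤ) - 1) =
      (1 : ℤ) - j + m := by omega
  rw [h2, zpow_one] at h1
  rw [h1]
  have h3 : poch q (q ^ ((1 : ℤ) - j + m)) n / poch q q n = gauss q (m + n - j) n :=
    (gauss_poch hj').symm
  by_cases hm : j ≤ m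
  · rw [gauss_inv hj', gauss_inv (show n ≤ m + n - j by omega)]
    have e1 : (q⁻¹ : RatFunc ℚ) ^ (j * (j - 1) / 2) * q ^ (-((j : ℤ) * (n - j))) *
        q ^ (-((n : ℤ) * (((m + n - j : ℕ) : ℤ) - n))) =
        q ^ (n : ℤ) * q ^ ((n - j) * ((n - j) - 1) / 2) *
          q ^ (((1 : ℤ) - ((n - j : ℕ) : ℤ) + (-(m : ℤ) - 1)) * n +
            1 * ((∑ i ∈ range n, i : ℕ) : ℤ)) := by
      rw [inv_pow, ← zpow_natCast q (j * (j - 1) / 2), ← zpow_natCast q ((n - j) * ((n - j) - 1) / 2),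
        ← zpow_neg, ← zpow_add₀ q_ne, ← zpow_add₀ q_ne, ← zpow_add₀ q_ne, ← zpow_add₀ q_ne]
      congr 1
      have t1 := tri_int j
      have t2 := tri_int (n - j)
      have t3 := two_tri' n
      have c1 : ((n - j : ℕ) : ℤ) = n - j := by omega
      have c2 : ((m + n - j : ℕ) : ℤ) = m + n - j := by omega
      rw [c1] at t2 ⊢
      rw [c2]
      have key : 2 * (-((j * (j - 1) / 2 : ℕ) : ℤ) + -((j : ℤ) * (n - j)) +
          -((n : ℤ) * ((m : ℤ) + n - j - n))) =
          2 * ((n : ℤ) + (((n - j) * (n - j - 1) / 2 : ℕ) : ℤ) +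
            (((1 : ℤ) - ((n : ℤ) - j) + (-(m : ℤ) - 1)) * n + 1 * ((∑ i ∈ range n, i : ℕ) : ℤ))) := by
        linear_combination -t1 - t2 - t3
      linarith
    have e2 : ((-1 : RatFunc ℚ)) ^ n * (-1) ^ n = 1 := by
      rw [← mul_pow]; norm_num
    rw [← h3]
    linear_combination (gauss q n j * (poch q (q ^ ((1 : ℤ) - j + m)) n / poch q q n)) * e1 -
      (q ^ (n : ℤ) * q ^ ((n - j) * ((n - j) - 1) / 2) *
          q ^ (((1 : ℤ) - ((n - j : ℕ) : ℤ) + (-(m : ℤ) - 1)) * n +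
            1 * ((∑ i ∈ range n, i : ℕ) : ℤ)) * gauss q n j *
              (poch q (q ^ ((1 : ℤ) - j + m)) n / poch q q n)) * e2
  · have h4 : gauss q⁻¹ (m + n - j) n = 0 := gauss_gt (by omega)
    have h5 : gauss q (m + n - j) n = 0 := gauss_gt (by omega)
    rw [h4, mul_zero, mul_div_assoc, h3, h5]
    ring

/-- the `q`-binomial theorem -/
theorem qbinom (m : ℕ) (z : RatFunc ℚ) :
    ∑ i ∈ range (m + 1), q ^ (i * (i - 1) / 2) * gauss q m i * z ^ i = poch q (-z) m := by
  induction m with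
  | zero => simp [gauss_zero_right]
  | succ m ih =>
    rw [poch_succ, ← ih, sum_range_succ']
    have e00 : ∀ S : RatFunc ℚ, S * (1 - -z * q ^ m) = S + S * (z * q ^ m) := fun S => by ring
    rw [e00]
    have e0 : gauss q m (m + 1) = 0 := gauss_gt (Nat.lt_succ_self m)
    have h1 : ∀ k ∈ range (m + 1), (q : RatFunc ℚ) ^ ((k + 1) * (k + 1 - 1) / 2) *
        gauss q (m + 1) (k + 1) * z ^ (k + 1) =
        q ^ ((k + 1) * (k + 1 - 1) / 2) * gauss q m (k + 1) * z ^ (k + 1) +
          (q ^ (k * (k - 1) / 2) * gauss q m k * z ^ k) * (z * q ^ m) := by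
      intro k hk
      have hk' : k ≤ m := Nat.lt_succ_iff.1 (mem_range.1 hk)
      rw [pascal NR_q hk']
      have e1 : (k + 1) * (k + 1 - 1) / 2 = k * (k - 1) / 2 + k := by
        rw [← Finset.sum_range_id, ← Finset.sum_range_id, sum_range_succ]
      have e2 : (q ^ m : RatFunc ℚ) = q ^ (m - k) * q ^ k := by rw [← pow_add]; congr 1; omega
      rw [e1, e2, pow_add]
      ring
    rw [sum_congr rfl h1, sum_add_distrib, ← sum_mul, sum_range_succ _ m, e0, mul_zero, zero_mul,
      add_zero]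
    have h2 := sum_range_succ' (fun i => (q : RatFunc ℚ) ^ (i * (i - 1) / 2) * gauss q m i * z ^ i) m
    rw [h2]
    simp only [gauss_zero_right]
    ring

end

end V11316.Del
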