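import Pool.Agent.V11316.Van

/-!
`12 ∑_{0<e<n} q^e/(1-q^e)² ≡ -(n²-1) (mod Φ_n)`.
-/

open Finset Polynomial

namespace V11316

open V11307.Q

noncomputable section

/-- `∑_{0<e<n} q^{je}/(1-q^e)` -/
def s1 (n j : ℕ) : RatFunc ℚ := ∑ e ∈ Ico 1 n, q ^ (j * e) * (1 - q ^ e)⁻¹

/-- `∑_{0<e<n} q^{je}/(1-q^e)²` -/
def s2 (n j : ℕ) : RatFunc ℚ := ∑ e ∈ Ico 1 n, q ^ (j * e) * ((1 - q ^ e)⁻¹ * (1 - q ^ e)⁻¹)

theorem nd {n e : ℕ} (h1 : 1 ≤ e) (h2 : e < n) : ¬ n ∣ e := fun h => by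
  have := Nat.le_of_dvd h1 h
  omega

theorem ncast_mem {N : ℕ} (c : ℕ) : (c : RatFunc ℚ) ∈ R N := by
  induction c with
  | zero => simp
  | succ c ih => push_cast; exact add_mem ih (one_mem _)

theorem s1_step (n j : ℕ) : s1 n j - s1 n (j + 1) = ∑ e ∈ Ico 1 n, q ^ (j * e) := by
  rw [s1, s1, ← sum_sub_distrib]
  refine sum_congr rfl fun e he => ?_
  have h1 : (1 : RatFunc ℚ) - q ^ e ≠ 0 := one_sub_ne (mem_Ico.1 he).1
  rw [add_mul, one_mul, pow_add]
  field_simp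

theorem s2_step (n j : ℕ) : s2 n j - s2 n (j + 1) = s1 n j := by
  rw [s2, s2, s1, ← sum_sub_distrib]
  refine sum_congr rfl fun e he => ?_
  have h1 : (1 : RatFunc ℚ) - q ^ e ≠ 0 := one_sub_ne (mem_Ico.1 he).1
  rw [add_mul, one_mul, pow_add]
  field_simp

theorem I_one_sub_pow {n k : ℕ} (hn : 0 < n) (h : n ∣ k) : I n 1 (1 - q ^ k : RatFunc ℚ) := by
  have := I_one_sub (n := n) hn (e := (k : ℤ)) (by exact_mod_cast h)
  rwa [zpow_natCast] at this

/-- geometric sums -/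
theorem geo_zero {n j : ℕ} (hn : 0 < n) (hj : ¬ n ∣ j) :
    I n 1 (∑ e ∈ range n, (q ^ (j * e) : RatFunc ℚ)) := by
  have hj0 : 0 < j := Nat.pos_of_ne_zero (by rintro rfl; exact hj (dvd_zero _))
  have h1 : (1 : RatFunc ℚ) - q ^ j ≠ 0 := one_sub_ne hj0
  have h2 : (∑ e ∈ range n, (q ^ (j * e) : RatFunc ℚ)) = (1 - q ^ (j * n)) * (1 - q ^ j)⁻¹ := by
    rw [eq_mul_inv_iff_mul_eq₀ h1]
    have := geom_sum_mul_neg (q ^ j : RatFunc ℚ) n
    simp only [← pow_mul] at this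
    exact this
  rw [h2]
  exact (I_one_sub_pow hn (Dvd.intro_left _ rfl)).mul_R (inv_one_sub hn hj)

theorem s1_step_cong {n j : ℕ} (hn : 0 < n) (hj : ¬ n ∣ j) :
    I n 1 (s1 n (j + 1) - s1 n j - 1) := by
  have h := (geo_zero hn hj).neg
  refine (congrArg (I n 1) ?_).mp h
  have h1 := s1_step n j
  rw [Finset.range_eq_Ico, Finset.sum_eq_sum_Ico_succ_bot hn, mul_zero, pow_zero]
  simp only [zero_add]
  linear_combination h1

theorem s1_zero {n : ℕ} (hn : 0 < n) : I n 1 (2 * s1 n 0 - (n - 1 : RatFunc ℚ)) := by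
  have h1 : I n 1 (∑ e ∈ Ico 1 n, ((1 - q ^ e)⁻¹ + (1 - q ^ (n - e))⁻¹ - 1 : RatFunc ℚ)) := by
    refine I.sum fun e he => ?_
    obtain ⟨h1, h2⟩ := mem_Ico.1 he
    have e1 : (1 : RatFunc ℚ) - q ^ e ≠ 0 := one_sub_ne h1
    have e2 : (1 : RatFunc ℚ) - q ^ (n - e) ≠ 0 := one_sub_ne (by omega)
    have e3 : (q ^ n : RatFunc ℚ) = q ^ e * q ^ (n - e) := by rw [← pow_add]; congr 1; omega
    have e4 : ((1 - q ^ e)⁻¹ + (1 - q ^ (n - e))⁻¹ - 1 : RatFunc ℚ) =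
        (1 - q ^ n) * ((1 - q ^ e)⁻¹ * (1 - q ^ (n - e))⁻¹) := by
      rw [e3]; field_simp; ring
    rw [e4]
    exact (I_one_sub_pow hn dvd_rfl).mul_R (mul_mem (inv_one_sub hn (nd h1 h2))
      (inv_one_sub hn (nd (by omega) (by omega))))
  have h2 : ∑ e ∈ Ico 1 n, (1 - q ^ (n - e) : RatFunc ℚ)⁻¹ = ∑ e ∈ Ico 1 n, (1 - q ^ e)⁻¹ := by
    refine Finset.sum_bij' (fun e _ => n - e) (fun e _ => n - e) ?_ ?_ ?_ ?_ ?_
    · intro e he; simp only [mem_Ico] at he ⊢; omega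
    · intro e he; simp only [mem_Ico] at he ⊢; omega
    · intro e he; simp only [mem_Ico] at he ⊢; omega
    · intro e he; simp only [mem_Ico] at he ⊢; omega
    · intro e he; rfl
  rw [sum_sub_distrib, sum_add_distrib, h2, sum_const, Nat.card_Ico] at h1
  refine (congrArg (I n 1) ?_).mp h1
  rw [s1]
  simp only [zero_mul, pow_zero, one_mul, nsmul_eq_mul, mul_one]
  rw [Nat.cast_sub hn]
  push_cast
  ring

theorem s1_val {n : ℕ} (hn : 0 < n) (j : ℕ) (hj : j < n) :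
    I n 1 (2 * s1 n (j + 1) - (2 * (j + 1) - (n + 1) : RatFunc ℚ)) := by
  induction j with
  | zero =>
    have h1 := s1_zero hn
    refine (congrArg (I n 1) ?_).mp h1
    have h2 := s1_step n 0
    simp only [zero_mul, pow_zero, sum_const, Nat.card_Ico, nsmul_eq_mul, mul_one, zero_add] at h2
    rw [Nat.cast_sub hn] at h2
    push_cast at h2 ⊢
    linear_combination 2 * h2
  | succ j ih =>
    have h1 := ih (by omega)
    have h2 := s1_step_cong (j := j + 1) hn (nd (by omega) (by omega))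
    have h3 := h1.add (I.R_mul (ncast_mem (N := n) 2) h2)
    refine (congrArg (I n 1) ?_).mp h3
    push_cast
    ring

theorem s2_val {n : ℕ} (hn : 0 < n) (j : ℕ) (hj : j < n) :
    I n 1 (2 * s2 n (j + 1) - (2 * s2 n 1 - (j * (j - n) : RatFunc ℚ))) := by
  induction j with
  | zero => simpa using I.zero
  | succ j ih =>
    have h1 := ih (by omega)
    have h2 := s1_val hn j (by omega)
    have h3 := s2_step n (j + 1)
    have h4 := h1.sub h2
    refine (congrArg (I n 1) ?_).mp h4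
    push_cast
    linear_combination 2 * h3

theorem s2_sum {n : ℕ} (hn : 0 < n) : I n 1 (∑ j ∈ range n, s2 n (j + 1)) := by
  simp only [s2]
  rw [sum_comm]
  refine I.sum fun e he => ?_
  obtain ⟨h1, h2⟩ := mem_Ico.1 he
  rw [← sum_mul]
  have e1 : ∑ j ∈ range n, (q ^ ((j + 1) * e) : RatFunc ℚ) =
      q ^ e * ∑ j ∈ range n, q ^ (e * j) := by
    rw [mul_sum]
    refine sum_congr rfl fun j _ => ?_
    rw [← pow_add]; congr 1; ring
  rw [e1]
  have h3 := geo_zero hn (nd h1 h2)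
  have h4 := inv_one_sub hn (nd h1 h2)
  exact (I.R_mul (qpow_mem e) h3).mul_R (mul_mem h4 h4)

theorem nat_sums (n : ℕ) : 6 * ∑ j ∈ range n, ((j : RatFunc ℚ) * (j - n)) =
    -(n * (n ^ 2 - 1) : RatFunc ℚ) := by
  have h1 : ∀ k : ℕ, 2 * ∑ j ∈ range k, (j : RatFunc ℚ) = k * (k - 1) := by
    intro k
    induction k with
    | zero => simp
    | succ k ih => rw [sum_range_succ, mul_add, ih]; push_cast; ring
  have h2 : ∀ k : ℕ, 6 * ∑ j ∈ range k, ((j : RatFunc ℚ) ^ 2) = k * (k - 1) * (2 * k - 1) := by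
    intro k
    induction k with
    | zero => simp
    | succ k ih => rw [sum_range_succ, mul_add, ih]; push_cast; ring
  have h3 : ∑ j ∈ range n, ((j : RatFunc ℚ) * (j - n)) =
      ∑ j ∈ range n, ((j : RatFunc ℚ) ^ 2) - n * ∑ j ∈ range n, (j : RatFunc ℚ) := by
    rw [mul_sum, ← sum_sub_distrib]
    exact sum_congr rfl fun j _ => by ring
  rw [h3]
  linear_combination h2 n - 3 * (n : RatFunc ℚ) * h1 n

theorem sumsq {n : ℕ} (hn : 0 < n) :
    I n 1 (12 * ∑ e ∈ Ico 1 n, q ^ e * ((1 - q ^ e)⁻¹ * (1 - q ^ e)⁻¹) +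
      ((n : RatFunc ℚ) ^ 2 - 1)) := by
  have h1 : I n 1 (∑ j ∈ range n, (2 * s2 n (j + 1) - (2 * s2 n 1 - (j * (j - n) : RatFunc ℚ)))) :=
    I.sum fun j hj => s2_val hn j (mem_range.1 hj)
  have h2 := s2_sum hn
  have h3 := nat_sums n
  rw [sum_sub_distrib, sum_sub_distrib, ← mul_sum, sum_const, card_range, nsmul_eq_mul] at h1
  have h4 := (I.R_mul (ncast_mem (N := n) 2) h2).sub h1
  have h5 := I.R_mul (ncast_mem (N := n) 6) h4
  have hn0 : (n : RatFunc ℚ) ≠ 0 := by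
    have h := int_inv_mem (n := n) (z := (n : ℤ)) (by exact_mod_cast hn.ne')
    intro h0
    have : ((n : ℤ) : RatFunc ℚ) = 0 := by exact_mod_cast h0
    have hone : ((1 : ℕ) : RatFunc ℚ) = 1 := by norm_num
    have h6 : φ (Polynomial.C (n : ℚ)) = (n : RatFunc ℚ) := by
      rw [Polynomial.C_eq_natCast, map_natCast]
    rw [h0] at h6
    have h7 : (Polynomial.C (n : ℚ)) = 0 := φ_inj (by rw [h6, map_zero])
    have h8 : (n : ℚ) = 0 := by simpa using h7
    exact hn.ne' (by exact_mod_cast h8)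
  have hni : ((n : RatFunc ℚ))⁻¹ ∈ R n := by
    have := int_inv_mem (n := n) (z := (n : ℤ)) (by exact_mod_cast hn.ne')
    simpa using this
  have h6 := I.R_mul hni h5
  refine (congrArg (I n 1) ?_).mp h6
  have e1 : ∑ e ∈ Ico 1 n, q ^ e * ((1 - q ^ e)⁻¹ * (1 - q ^ e)⁻¹) = s2 n 1 := by
    rw [s2]; exact sum_congr rfl fun e _ => by rw [one_mul]
  rw [e1]
  field_simp
  push_cast
  linear_combination -h3

end

end V11316
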