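import Pool.Agent.V11316.P9
import Pool.Agent.V11316.SumSq

/-!
Evaluation of `Kc m 0 1 - Kc m 0 0` modulo `Φ_n⁵`, `n = m + 1`.
-/

open Finset Polynomial

namespace V11316.P9

open V11307.Q V11316

noncomputable section

theorem prod_cong {n : ℕ} (s : Finset ℕ) {f g : ℕ → RatFunc ℚ} (h : ∀ i ∈ s, I n 1 (f i - g i))
    (hf : ∀ i ∈ s, f i ∈ R n) (hg : ∀ i ∈ s, g i ∈ R n) :
    I n 1 (∏ i ∈ s, f i - ∏ i ∈ s, g i) := by
  classical
  induction s using Finset.induction_on with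
  | empty => simpa using I.zero
  | insert a s ha ih =>
    have h1 := h a (mem_insert_self _ _)
    have h2 := ih (fun i hi => h i (mem_insert_of_mem hi)) (fun i hi => hf i (mem_insert_of_mem hi))
      (fun i hi => hg i (mem_insert_of_mem hi))
    rw [prod_insert ha, prod_insert ha]
    have e : f a * ∏ i ∈ s, f i - g a * ∏ i ∈ s, g i =
        (f a - g a) * ∏ i ∈ s, f i + g a * (∏ i ∈ s, f i - ∏ i ∈ s, g i) := by ring
    rw [e]
    exact (h1.mul_R (prod_mem fun i hi => hf i (mem_insert_of_mem hi))).add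
      (I.R_mul (hg a (mem_insert_self _ _)) h2)

/-- `1 - q^e` depends on `e` modulo `n` only -/
theorem one_sub_cong {n : ℕ} (hn : 0 < n) {e e' : ℤ} (h : (n : ℤ) ∣ e - e') :
    I n 1 ((1 - q ^ e) - (1 - q ^ e') : RatFunc ℚ) := by
  have h1 := I_one_sub hn h
  have h2 := I.R_mul (qz_mem hn e') h1
  refine (congrArg (I n 1) ?_).mp h2
  have e1 : (q ^ e : RatFunc ℚ) = q ^ e' * q ^ (e - e') := by
    rw [← zpow_add₀ q_ne]; congr 1; ring
  rw [e1]; ring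

theorem prod_expand {n : ℕ} {δ : RatFunc ℚ} (hδ : I n 2 δ) (s : Finset ℕ) (x : ℕ → RatFunc ℚ)
    (hx : ∀ i ∈ s, x i ∈ R n) :
    I n 3 ((∏ i ∈ s, (1 - δ * x i)) - (1 - δ * ∑ i ∈ s, x i)) := by
  classical
  have hδ2 : I n 3 (δ * δ) := (hδ.mul hδ).mono (by norm_num)
  induction s using Finset.induction_on with
  | empty => simpa using I.zero
  | insert a s ha ih =>
    have h1 := ih fun i hi => hx i (mem_insert_of_mem hi)
    have ha' := hx a (mem_insert_self _ _)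
    have hs : ∑ i ∈ s, x i ∈ R n := sum_mem fun i hi => hx i (mem_insert_of_mem hi)
    rw [prod_insert ha, sum_insert ha]
    have e1 : (1 - δ * x a) * ∏ i ∈ s, (1 - δ * x i) - (1 - δ * (x a + ∑ i ∈ s, x i)) =
        (1 - δ * x a) * (∏ i ∈ s, (1 - δ * x i) - (1 - δ * ∑ i ∈ s, x i)) +
          (δ * δ) * (x a * ∑ i ∈ s, x i) := by ring
    rw [e1]
    exact (I.R_mul (sub_mem (one_mem _) (mul_mem hδ.mem ha')) h1).add (hδ2.mul_R (mul_mem ha' hs))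

theorem osub {a b : ℤ} (h : a = b) : (1 - q ^ a : RatFunc ℚ) = 1 - q ^ b := by rw [h]

/-- units -/
theorem unit_of {μ : ℕ} {e : ℤ} (h : ¬ ((μ + 2 : ℕ) : ℤ) ∣ e) :
    (1 - q ^ e : RatFunc ℚ) ≠ 0 ∧ (1 - q ^ e : RatFunc ℚ)⁻¹ ∈ R (μ + 2) := by
  refine ⟨?_, inv_one_sub_qz (by omega) h⟩
  rw [sub_ne_zero]
  exact (qz_ne_one (by rintro rfl; exact h (dvd_zero _))).symm

theorem ndv {μ i : ℕ} (hi : i < μ + 1) {e : ℤ} (t : ℤ) (h : e = (i + 1) + ((μ + 2 : ℕ) : ℤ) * t) :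
    ¬ ((μ + 2 : ℕ) : ℤ) ∣ e := by
  intro hd
  rw [h] at hd
  have h1 := (dvd_add_left (Dvd.intro t rfl)).1 hd
  have h2 := Int.le_of_dvd (by positivity) h1
  push_cast at h2
  omega

/-- the value of the difference, `n = μ + 2`, `d = μ + 3` -/
theorem Kc_diff (μ : ℕ) : I (μ + 2) 5 (Kc (μ + 1) 0 1 - Kc (μ + 1) 0 0 -
    q * (1 - q ^ ((μ + 2) * (μ + 2))) * (1 - q ^ (μ + 2)) ^ 3 *
      (((μ : RatFunc ℚ) + 2) ^ 2 - 1) * (12 * (1 - q))⁻¹) := by
  have hn : 0 < μ + 2 := by omega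
  set n : ℕ := μ + 2 with hndef
  -- notation
  set y : ℕ → RatFunc ℚ := fun i => q ^ (((μ : ℤ) + 3) * (i + 1)) with hy
  set Y : RatFunc ℚ := ∏ i ∈ range (μ + 1), (1 - y i) with hY
  set Y1 : RatFunc ℚ := ∏ i ∈ range (μ + 1), (1 - q ^ (((μ : ℤ) + 3) * (i + 1) - (μ + 2))) with hY1
  set Y2 : RatFunc ℚ := ∏ i ∈ range (μ + 1), (1 - q ^ (((μ : ℤ) + 3) * (i + 1) + (μ + 2))) with hY2
  set V1 : RatFunc ℚ := ∏ i ∈ range μ, (1 - q ^ (((μ : ℤ) + 3) * (i + 1) + 1)) with hV1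
  set V2 : RatFunc ℚ := ∏ i ∈ range μ, (1 - q ^ (((μ : ℤ) + 3) * (i + 1) + (μ + 2))) with hV2
  set Q : RatFunc ℚ := q ^ ((μ : ℤ) + 2) with hQ
  have hQ0 : Q ≠ 0 := qz_ne _
  have hnc : ((μ + 2 : ℕ) : ℤ) = (μ : ℤ) + 2 := by push_cast; ring
  have hQ1 : I n 1 (1 - Q) := by
    have := I_one_sub (n := n) hn (e := (μ : ℤ) + 2) (by rw [hndef, hnc])
    exact this
  have hQn : (q ^ n : RatFunc ℚ) = Q := by
    rw [hQ, hndef, ← zpow_natCast]; congr 1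
  have hQi : Q⁻¹ ∈ R n := qz_inv_mem hn _
  have hQR : Q ∈ R n := qz_mem hn _
  -- units
  have uy : ∀ i < μ + 1, (1 - y i) ≠ 0 ∧ (1 - y i)⁻¹ ∈ R n := fun i hi =>
    unit_of (ndv hi (i + 1) (by push_cast; ring))
  have uy1 : ∀ i < μ + 1, (1 - q ^ (((μ : ℤ) + 3) * (i + 1) - (μ + 2)) : RatFunc ℚ) ≠ 0 ∧
      (1 - q ^ (((μ : ℤ) + 3) * (i + 1) - (μ + 2)) : RatFunc ℚ)⁻¹ ∈ R n := fun i hi =>
    unit_of (ndv hi i (by push_cast; ring))
  have uy2 : ∀ i < μ + 1, (1 - q ^ (((μ : ℤ) + 3) * (i + 1) + (μ + 2)) : RatFunc ℚ) ≠ 0 ∧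
      (1 - q ^ (((μ : ℤ) + 3) * (i + 1) + (μ + 2)) : RatFunc ℚ)⁻¹ ∈ R n := fun i hi =>
    unit_of (ndv hi (i + 2) (by push_cast; ring))
  have hY0 : Y ≠ 0 := prod_ne_zero_iff.2 fun i hi => (uy i (mem_range.1 hi)).1
  have hY10 : Y1 ≠ 0 := prod_ne_zero_iff.2 fun i hi => (uy1 i (mem_range.1 hi)).1
  have hY20 : Y2 ≠ 0 := prod_ne_zero_iff.2 fun i hi => (uy2 i (mem_range.1 hi)).1
  have hYi : Y⁻¹ ∈ R n := by
    rw [hY, ← prod_inv_distrib]; exact prod_mem fun i hi => (uy i (mem_range.1 hi)).2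
  have hY1i : Y1⁻¹ ∈ R n := by
    rw [hY1, ← prod_inv_distrib]; exact prod_mem fun i hi => (uy1 i (mem_range.1 hi)).2
  have hY2i : Y2⁻¹ ∈ R n := by
    rw [hY2, ← prod_inv_distrib]; exact prod_mem fun i hi => (uy2 i (mem_range.1 hi)).2
  have m1 : ∀ e : ℤ, (1 - q ^ e : RatFunc ℚ) ∈ R n := fun e => sub_mem (one_mem _) (qz_mem hn e)
  have hYR : Y ∈ R n := prod_mem fun i _ => m1 _
  have hY1R : Y1 ∈ R n := prod_mem fun i _ => m1 _
  have hY2R : Y2 ∈ R n := prod_mem fun i _ => m1 _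
  have hV1R : V1 ∈ R n := prod_mem fun i _ => m1 _
  have hV2R : V2 ∈ R n := prod_mem fun i _ => m1 _
  have hyR : ∀ i, y i ∈ R n := fun i => qz_mem hn _
  -- shape of `Kc`
  have pf0 : ∀ (z : ℤ) (k : ℕ), poch (q ^ de (μ + 1)) (q ^ z) k =
      ∏ i ∈ range k, (1 - q ^ (z + ((μ : ℤ) + 3) * i) : RatFunc ℚ) := by
    intro z k
    rw [poch]
    refine prod_congr rfl fun i _ => ?_
    rw [qz_pow, ← zpow_add₀ q_ne]
    exact osub (by (try simp only [de]); push_cast; ring)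
  have hX1 : poch (q ^ de (μ + 1)) (q ^ (1 + de (μ + 1))) (μ + 1) =
      V1 * (1 - q ^ ((μ + 2) * (μ + 2))) := by
    rw [pf0, prod_range_succ, hV1]
    congr 1
    · exact prod_congr rfl fun i _ => osub (by (try simp only [de]); push_cast; ring)
    · rw [← zpow_natCast]; exact osub (by (try simp only [de]); push_cast; ring)
  have hX2 : poch (q ^ de (μ + 1)) (q ^ ((((μ + 1 : ℕ) : ℤ) + 1) * (1 - 0))) (μ + 1) =
      V2 * (1 - Q) := by
    rw [pf0, prod_range_succ', hV2]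
    congr 1
    · exact prod_congr rfl fun i _ => osub (by (try simp only [de]); push_cast; ring)
    · rw [hQ]; exact osub (by (try simp only [de]); push_cast; ring)
  have hD0 : poch (q ^ de (μ + 1)) (q ^ (de (μ + 1) - (((μ + 1 : ℕ) : ℤ) + 1) * 0)) (μ + 1) = Y := by
    rw [pf0, hY]
    refine prod_congr rfl fun i _ => ?_
    rw [hy]
    exact osub (by (try simp only [de]); push_cast; ring)
  have hD1 : poch (q ^ de (μ + 1)) (q ^ (de (μ + 1) - (((μ + 1 : ℕ) : ℤ) + 1) * 1)) (μ + 1) =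
      Y1 := by
    rw [pf0, hY1]
    exact prod_congr rfl fun i _ => osub (by (try simp only [de]); push_cast; ring)
  have hD2 : poch (q ^ de (μ + 1)) (q ^ (de (μ + 1) - (((μ + 1 : ℕ) : ℤ) + 1) * (0 - 1)))
      (μ + 1) = Y2 := by
    rw [pf0, hY2]
    exact prod_congr rfl fun i _ => osub (by (try simp only [de]); push_cast; ring)
  have hK : Kc (μ + 1) 0 1 - Kc (μ + 1) 0 0 =
      (1 - q) * (V1 * (1 - q ^ ((μ + 2) * (μ + 2)))) * (V2 * (1 - Q)) * (Y1 * Y2)⁻¹ *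
        (1 - Y1 * Y2 * (Y * Y)⁻¹) := by
    rw [Kc, Kc, hX1, hX2, hD1, hD2, show ((0 : ℤ) - 0) = 0 by ring, hD0, zpow_one]
    field_simp
  -- the ratio
  set x : ℕ → RatFunc ℚ := fun i => y i * ((1 - y i)⁻¹ * (1 - y i)⁻¹) with hx
  have hxR : ∀ i < μ + 1, x i ∈ R n := fun i hi => mul_mem (hyR i) (mul_mem (uy i hi).2 (uy i hi).2)
  set δ : RatFunc ℚ := (1 - Q) * (1 - Q) * Q⁻¹ with hδdef
  have hδ : I n 2 δ := (hQ1.mul hQ1).mul_R hQi
  have hr : Y1 * Y2 * (Y * Y)⁻¹ = ∏ i ∈ range (μ + 1), (1 - δ * x i) := by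
    rw [hY1, hY2, hY, mul_inv, ← prod_inv_distrib, ← prod_mul_distrib, ← prod_mul_distrib,
      ← prod_mul_distrib]
    refine prod_congr rfl fun i hi => ?_
    have h1 := (uy i (mem_range.1 hi)).1
    have e1 : (q ^ (((μ : ℤ) + 3) * (i + 1) - (μ + 2)) : RatFunc ℚ) = y i * Q⁻¹ := by
      rw [hy, hQ, ← zpow_neg, ← zpow_add₀ q_ne]; rfl
    have e2 : (q ^ (((μ : ℤ) + 3) * (i + 1) + (μ + 2)) : RatFunc ℚ) = y i * Q := by
      rw [hy, hQ, ← zpow_add₀ q_ne]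
    rw [e1, e2, hδdef, hx]
    beta_reduce
    generalize y i = z at h1
    field_simp
    ring
  have hexp := prod_expand hδ (range (μ + 1)) x fun i hi => hxR i (mem_range.1 hi)
  rw [← hr] at hexp
  -- the sum of the `x i`
  have hsum : I n 1 (12 * ∑ i ∈ range (μ + 1), x i + (((μ : RatFunc ℚ) + 2) ^ 2 - 1)) := by
    have h1 := sumsq (n := n) hn
    have h2 : ∑ e ∈ Ico 1 n, (q ^ e * ((1 - q ^ e)⁻¹ * (1 - q ^ e)⁻¹) : RatFunc ℚ) =
        ∑ i ∈ range (μ + 1), q ^ (i + 1) * ((1 - q ^ (i + 1))⁻¹ * (1 - q ^ (i + 1))⁻¹) := by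
      rw [sum_Ico_eq_sum_range, hndef, show μ + 2 - 1 = μ + 1 by omega]
      refine sum_congr rfl fun i _ => ?_
      rw [add_comm 1 i]
    have h3 : I n 1 (∑ i ∈ range (μ + 1), x i - ∑ i ∈ range (μ + 1),
        q ^ (i + 1) * ((1 - q ^ (i + 1))⁻¹ * (1 - q ^ (i + 1))⁻¹)) := by
      rw [← sum_sub_distrib]
      refine I.sum fun i hi => ?_
      have hi' := mem_range.1 hi
      have u1 := uy i hi'
      have u2 : (1 - q ^ (i + 1) : RatFunc ℚ) ≠ 0 ∧ (1 - q ^ (i + 1) : RatFunc ℚ)⁻¹ ∈ R n := by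
        have := unit_of (μ := μ) (e := ((i + 1 : ℕ) : ℤ)) (ndv hi' 0 (by push_cast; ring))
        rwa [zpow_natCast] at this
      have c1 : I n 1 (y i - q ^ (i + 1)) := by
        have := (one_sub_cong (n := n) hn (e := ((μ : ℤ) + 3) * (i + 1)) (e' := ((i + 1 : ℕ) : ℤ))
          ⟨i + 1, by rw [hndef]; push_cast; ring⟩).neg
        refine (congrArg (I n 1) ?_).mp this
        rw [hy, zpow_natCast]; ring
      have e1 : x i - q ^ (i + 1) * ((1 - q ^ (i + 1))⁻¹ * (1 - q ^ (i + 1))⁻¹) =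
          (y i - q ^ (i + 1)) * ((1 - y i * q ^ (i + 1)) * ((1 - y i)⁻¹ * (1 - y i)⁻¹ *
            ((1 - q ^ (i + 1))⁻¹ * (1 - q ^ (i + 1))⁻¹))) := by
        have h4 := u1.1
        have h5 := u2.1
        rw [hx]
        beta_reduce
        generalize y i = z at h4
        generalize (q : RatFunc ℚ) ^ (i + 1) = w at h5
        field_simp
        ring
      rw [e1]
      exact c1.mul_R (mul_mem (sub_mem (one_mem _) (mul_mem (hyR i) (qpow_mem _)))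
        (mul_mem (mul_mem u1.2 u1.2) (mul_mem u2.2 u2.2)))
    rw [h2] at h1
    have h4 := (I.R_mul (ncast_mem (N := n) 12) h3).add h1
    have hnr : (n : RatFunc ℚ) = μ + 2 := by rw [hndef]; push_cast; ring
    refine (congrArg (I n 1) ?_).mp h4
    rw [hnr]
    push_cast
    ring
  -- the products
  have hYY1 : I n 1 (Y1 * Y2 - Y * Y) := by
    have h1 : I n 1 (1 - Y1 * Y2 * (Y * Y)⁻¹) := by
      have h2 := hexp.mono (l := 1) (by norm_num)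
      have h3 : I n 1 (δ * ∑ i ∈ range (μ + 1), x i) :=
        (hδ.mono (by norm_num)).mul_R (sum_mem fun i hi => hxR i (mem_range.1 hi))
      have h4 := (h3.sub h2)
      refine (congrArg (I n 1) ?_).mp h4
      ring
    have h2 := I.R_mul (mul_mem hYR hYR) h1.neg
    refine (congrArg (I n 1) ?_).mp h2
    field_simp
    ring
  -- `Y² ≡ (1-q)(1-q^{n-1}) V`
  have hV : I n 1 ((1 - q) * (1 - q ^ (μ + 1)) * (V1 * V2) - Y * Y) := by
    set Z0 : RatFunc ℚ := ∏ i ∈ range (μ + 1), (1 - q ^ (((i : ℕ) : ℤ) + 1)) with hZ0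
    have a1 : I n 1 (Y - Z0) := by
      refine prod_cong _ (fun i _ => ?_) (fun i _ => m1 _) (fun i _ => m1 _)
      exact one_sub_cong hn ⟨i + 1, by rw [hndef]; push_cast; ring⟩
    have a2 : I n 1 (V1 - ∏ i ∈ range μ, (1 - q ^ (((i : ℕ) : ℤ) + 2))) := by
      refine prod_cong _ (fun i _ => ?_) (fun i _ => m1 _) (fun i _ => m1 _)
      exact one_sub_cong hn ⟨i + 1, by rw [hndef]; push_cast; ring⟩
    have a3 : I n 1 (V2 - ∏ i ∈ range μ, (1 - q ^ (((i : ℕ) : ℤ) + 1))) := by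
      refine prod_cong _ (fun i _ => ?_) (fun i _ => m1 _) (fun i _ => m1 _)
      exact one_sub_cong hn ⟨i + 2, by rw [hndef]; push_cast; ring⟩
    have b1 : Z0 = (∏ i ∈ range μ, (1 - q ^ (((i : ℕ) : ℤ) + 2))) * (1 - q) := by
      rw [hZ0, prod_range_succ']
      exact congrArg₂ (· * ·) (prod_congr rfl fun i _ => osub (by push_cast; ring)) (by simp)
    have b2 : Z0 = (∏ i ∈ range μ, (1 - q ^ (((i : ℕ) : ℤ) + 1))) * (1 - q ^ (μ + 1)) := by
      rw [hZ0, prod_range_succ]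
      congr 2
    set P1 : RatFunc ℚ := ∏ i ∈ range μ, (1 - q ^ (((i : ℕ) : ℤ) + 2)) with hP1
    set P2 : RatFunc ℚ := ∏ i ∈ range μ, (1 - q ^ (((i : ℕ) : ℤ) + 1)) with hP2
    have hP2R : P2 ∈ R n := prod_mem fun i _ => m1 _
    have hZR : Z0 ∈ R n := prod_mem fun i _ => m1 _
    have e1 : (1 - q) * (1 - q ^ (μ + 1)) * (V1 * V2) - Y * Y =
        (1 - q) * (1 - q ^ (μ + 1)) * ((V1 - P1) * V2 + P1 * (V2 - P2)) -
          ((Y - Z0) * Y + Z0 * (Y - Z0)) := by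
      have e2 : Z0 * Z0 = (1 - q) * (1 - q ^ (μ + 1)) * (P1 * P2) := by
        conv_lhs => lhs; rw [b1]
        rw [b2]; ring
      linear_combination -e2
    rw [e1]
    have hP1R : P1 ∈ R n := prod_mem fun i _ => m1 _
    have hq1 : (1 - q : RatFunc ℚ) * (1 - q ^ (μ + 1)) ∈ R n :=
      mul_mem (sub_mem (one_mem _) q_mem) (sub_mem (one_mem _) (qpow_mem _))
    exact (I.R_mul hq1 ((a2.mul_R hV2R).add (I.R_mul hP1R a3))).sub
      ((a1.mul_R hYR).add (I.R_mul hZR a1))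
  have hW : I n 1 ((1 - q) * (1 - q) * (V1 * V2) + q * (Y1 * Y2)) := by
    have e1 : (1 - q) * (1 - q) * (V1 * V2) + q * (Y1 * Y2) =
        (1 - Q) * ((1 - q) * (V1 * V2)) - q * ((1 - q) * (1 - q ^ (μ + 1)) * (V1 * V2) - Y * Y) +
          q * (Y1 * Y2 - Y * Y) := by
      have e2 : Q = q * q ^ (μ + 1) := by
        rw [← hQn, hndef]; ring
      rw [e2]; ring
    rw [e1]
    exact ((hQ1.mul_R (mul_mem (sub_mem (one_mem _) q_mem) (mul_mem hV1R hV2R))).sub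
      (I.R_mul q_mem hV)).add (I.R_mul q_mem hYY1)
  -- assemble
  have hq0 : (1 - q : RatFunc ℚ) ≠ 0 := by
    have := one_sub_ne (k := 1) one_pos
    rwa [pow_one] at this
  have hqi : (1 - q : RatFunc ℚ)⁻¹ ∈ R n := by
    have := unit_of (μ := μ) (e := 1) (ndv (i := 0) (by omega) 0 (by push_cast; ring))
    rw [zpow_one] at this
    exact this.2
  have hsx : ∑ i ∈ range (μ + 1), x i ∈ R n := sum_mem fun i hi => hxR i (mem_range.1 hi)
  have hA : I n 1 (1 - q ^ ((μ + 2) * (μ + 2)) : RatFunc ℚ) :=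
    I_one_sub_pow hn (Dvd.intro _ rfl)
  have h2A : I n 2 ((1 - q ^ ((μ + 2) * (μ + 2))) * (1 - Q)) := hA.mul hQ1
  -- step 1: replace `1 - r` by `(1-Q)² Σ x`
  set Sx : RatFunc ℚ := ∑ i ∈ range (μ + 1), x i with hSx
  have s1' : I n 3 ((1 - Y1 * Y2 * (Y * Y)⁻¹) - (1 - Q) * (1 - Q) * Sx) := by
    have h3 : I n 3 ((1 - Q) * (1 - Q) * (1 - Q) * (Q⁻¹ * Sx)) :=
      ((hQ1.mul hQ1).mul hQ1).mul_R (mul_mem hQi hsx)
    have h4 := h3.sub hexp
    refine (congrArg (I n 3) ?_).mp h4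
    rw [hδdef]
    field_simp
    ring
  -- step 2: replace `V (Y1 Y2)⁻¹` by `-q/(1-q)²`
  set C : RatFunc ℚ := ((μ : RatFunc ℚ) + 2) ^ 2 - 1 with hC
  have h12 : ((12 : RatFunc ℚ))⁻¹ ∈ R n := by
    have := int_inv_mem (n := n) (z := 12) (by norm_num)
    simpa using this
  have h120 : (12 : RatFunc ℚ) ≠ 0 := by
    intro h0
    have h6 : φ (Polynomial.C (12 : ℚ)) = (12 : RatFunc ℚ) := by
      rw [show (Polynomial.C (12 : ℚ)) = ((12 : ℕ) : ℚ[X]) by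
        rw [← Polynomial.C_eq_natCast]; norm_num, map_natCast]
      norm_num
    rw [h0] at h6
    have h7 : (Polynomial.C (12 : ℚ)) = 0 := φ_inj (by rw [h6, map_zero])
    have h8 : (12 : ℚ) = 0 := by simpa using h7
    norm_num at h8
  have f1 : I n 5 ((1 - q) * (V1 * V2) * (Y1 * Y2)⁻¹ *
      (((1 - q ^ ((μ + 2) * (μ + 2))) * (1 - Q)) *
        ((1 - Y1 * Y2 * (Y * Y)⁻¹) - (1 - Q) * (1 - Q) * Sx))) := by
    refine I.R_mul ?_ (h2A.mul s1')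
    rw [mul_inv]
    exact mul_mem (mul_mem (sub_mem (one_mem _) q_mem) (mul_mem hV1R hV2R)) (mul_mem hY1i hY2i)
  have f2 : I n 5 ((((1 - q ^ ((μ + 2) * (μ + 2))) * (1 - Q)) * ((1 - Q) * (1 - Q)) *
      ((1 - q) * (1 - q) * (V1 * V2) + q * (Y1 * Y2))) * ((Y1 * Y2)⁻¹ * (1 - q)⁻¹ * Sx)) := by
    refine I.mul_R ((h2A.mul (hQ1.mul hQ1)).mul hW) ?_
    rw [mul_inv]
    exact mul_mem (mul_mem (mul_mem hY1i hY2i) hqi) hsx
  have f3 : I n 5 ((((1 - q ^ ((μ + 2) * (μ + 2))) * (1 - Q)) * ((1 - Q) * (1 - Q)) *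
      (12 * Sx + C)) * (q * (1 - q)⁻¹ * (12)⁻¹)) := by
    refine I.mul_R ((h2A.mul (hQ1.mul hQ1)).mul hsum) ?_
    exact mul_mem (mul_mem q_mem hqi) h12
  have f4 := (f1.add f2).sub f3
  refine (congrArg (I n 5) ?_).mp f4
  rw [hK, hQn]
  field_simp
  ring

end

end V11316.P9
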