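import Pool.Agent.V11316.Del1
import Pool.Agent.V11316.SumSq
import Pool.Agent.V11316.P9b

/-!
`q`-Delannoy numbers: the sum as an antisymmetric Laurent polynomial in `q^j`.
-/

open Finset Polynomial

namespace V11316.Del

open V11307.Q V11316

noncomputable section

/-- the summand -/
def sm (m j : ℕ) : RatFunc ℚ :=
  (1 - q ^ (2 * j + 1)) * (1 - q)⁻¹ * (q ^ j)⁻¹ * Dq q m j * Dq q⁻¹ m j

/-- the sum -/
def SS (n m : ℕ) : RatFunc ℚ := ∑ j ∈ range n, sm m j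

/-- the coefficient of the expansion of `A_m` -/
def cf (m i : ℕ) : RatFunc ℚ := q ^ (i * (i - 1) / 2) * gauss q m i * (poch q q m)⁻¹

/-- `A_m` as a polynomial -/
def U (m : ℕ) : (RatFunc ℚ)[X] :=
  ∑ i ∈ range (m + 1), C (cf m i) * ∏ l ∈ range m, (1 - C (q ^ ((1 : ℤ) - i + l)) * X)

/-- `X^m A_m(1/(qX))` as a polynomial -/
def W (m : ℕ) : (RatFunc ℚ)[X] :=
  ∑ i ∈ range (m + 1), C (cf m i) * ∏ l ∈ range m, (X - C (q ^ ((l : ℤ) - i)))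

/-- the numerator of the antisymmetric Laurent polynomial -/
def FF (m : ℕ) : (RatFunc ℚ)[X] :=
  C ((-1) ^ m * q ^ (m : ℤ) * (1 - q)⁻¹) * ((1 - C q * X ^ 2) * (U m * W m))

theorem U_eval (m : ℕ) (x : RatFunc ℚ) : (U m).eval x = AA m x := by
  rw [U, AA, eval_finsetSum]
  refine sum_congr rfl fun i _ => ?_
  rw [eval_mul, eval_C, eval_prod, cf, div_eq_mul_inv]
  have h1 : ∏ l ∈ range m, eval x (1 - C (q ^ ((1 : ℤ) - i + l)) * X) =
      poch q (q ^ ((1 : ℤ) - i) * x) m := by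
    rw [poch]
    refine prod_congr rfl fun l _ => ?_
    simp only [eval_sub, eval_one, eval_mul, eval_C, eval_X]
    rw [zpow_add₀ q_ne, zpow_natCast]; ring
  rw [h1]; ring

theorem W_eval (m : ℕ) {x : RatFunc ℚ} (hx : x ≠ 0) :
    (W m).eval x = x ^ m * AA m (q⁻¹ * x⁻¹) := by
  rw [W, AA, eval_finsetSum, mul_sum]
  refine sum_congr rfl fun i _ => ?_
  rw [eval_mul, eval_C, eval_prod, cf, div_eq_mul_inv]
  have h1 : ∏ l ∈ range m, eval x (X - C (q ^ ((l : ℤ) - i))) =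
      x ^ m * poch q (q ^ ((1 : ℤ) - i) * (q⁻¹ * x⁻¹)) m := by
    rw [poch]
    have hc : x ^ m = ∏ _l ∈ range m, x := by rw [prod_const, card_range]
    rw [hc, ← prod_mul_distrib]
    refine prod_congr rfl fun l _ => ?_
    simp only [eval_sub, eval_C, eval_X]
    have e1 : (q : RatFunc ℚ) ^ ((l : ℤ) - i) = q ^ ((1 : ℤ) - i) * q⁻¹ * q ^ l := by
      rw [← zpow_natCast q l, ← zpow_neg_one q, ← zpow_add₀ q_ne, ← zpow_add₀ q_ne]
      congr 1; ring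
    rw [e1]
    field_simp
  rw [h1]; ring

theorem FF_eval (m : ℕ) {x : RatFunc ℚ} (hx : x ≠ 0) :
    (FF m).eval x = (-1) ^ m * q ^ (m : ℤ) * (1 - q)⁻¹ * (1 - q * x ^ 2) * x ^ m *
      (AA m x * AA m (q⁻¹ * x⁻¹)) := by
  rw [FF, eval_mul, eval_C, eval_mul, eval_mul, U_eval, W_eval m hx]
  simp only [eval_sub, eval_one, eval_mul, eval_C, eval_pow, eval_X]
  ring

/-- the value at `q^j` -/
theorem FF_pos (m j : ℕ) : (q ^ (j : ℤ)) ^ (-((m : ℤ) + 1)) * (FF m).eval (q ^ (j : ℤ)) = sm m j := by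
  rw [FF_eval m (qz_ne _), sm, Dq_symm NR_q m j, Dq_symm NR_qi m j, Dq_AA, Dqi_AA]
  have e1 : (q⁻¹ : RatFunc ℚ) * (q ^ (j : ℤ))⁻¹ = q ^ (-(j : ℤ) - 1) := by
    rw [← zpow_neg_one, ← zpow_neg, ← zpow_add₀ q_ne]; congr 1; ring
  have e2 : (q : RatFunc ℚ) * (q ^ (j : ℤ)) ^ 2 = q ^ (2 * j + 1) := by
    rw [zpow_natCast, ← pow_mul, ← pow_succ']; congr 1; ring
  have e3 : ((q : RatFunc ℚ) ^ (j : ℤ)) ^ (-((m : ℤ) + 1)) * (q ^ (j : ℤ)) ^ m = (q ^ j)⁻¹ := by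
    rw [← zpow_natCast (q ^ (j : ℤ)) m, ← zpow_add₀ (qz_ne _), ← zpow_mul, ← zpow_natCast q j,
      ← zpow_neg]
    congr 1; ring
  rw [e1, e2, ← e3]; ring

/-- the value at `q^{-1-j}` -/
theorem FF_neg (m j : ℕ) :
    (q ^ (-(j : ℤ) - 1)) ^ (-((m : ℤ) + 1)) * (FF m).eval (q ^ (-(j : ℤ) - 1)) = - sm m j := by
  rw [FF_eval m (qz_ne _), sm, Dq_symm NR_q m j, Dq_symm NR_qi m j, Dq_AA, Dqi_AA]
  have e1 : (q⁻¹ : RatFunc ℚ) * (q ^ (-(j : ℤ) - 1))⁻¹ = q ^ (j : ℤ) := by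
    rw [← zpow_neg_one, ← zpow_neg, ← zpow_add₀ q_ne]; congr 1; ring
  have e2 : (1 : RatFunc ℚ) - q * (q ^ (-(j : ℤ) - 1)) ^ 2 =
      -(q ^ (-(2 * j + 1 : ℤ))) * (1 - q ^ (2 * j + 1)) := by
    have h1 : (q : RatFunc ℚ) * (q ^ (-(j : ℤ) - 1)) ^ 2 = q ^ (-(2 * j + 1 : ℤ)) := by
      rw [qz_pow]
      nth_rw 1 [← zpow_one q]
      rw [← zpow_add₀ q_ne]; congr 1; push_cast; ring
    have h2 : (q : RatFunc ℚ) ^ (-(2 * j + 1 : ℤ)) * q ^ (2 * j + 1) = 1 := by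
      rw [← zpow_natCast q (2 * j + 1), ← zpow_add₀ q_ne]
      push_cast
      simp
    rw [h1]
    linear_combination -h2
  have e3 : ((q : RatFunc ℚ) ^ (-(j : ℤ) - 1)) ^ (-((m : ℤ) + 1)) * (q ^ (-(j : ℤ) - 1)) ^ m *
      q ^ (-(2 * j + 1 : ℤ)) = (q ^ j)⁻¹ := by
    rw [← zpow_natCast (q ^ (-(j : ℤ) - 1)) m, ← zpow_add₀ (qz_ne _), ← zpow_mul,
      ← zpow_natCast q j, ← zpow_neg, ← zpow_add₀ q_ne]
    congr 1; ring
  rw [e1, e2, ← e3]; ring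

/-- `h(r)` -/
def hh (n : ℕ) (r : ℤ) : RatFunc ℚ :=
  ∑ j ∈ range n, (q ^ ((j : ℤ) * r) - q ^ ((-(j : ℤ) - 1) * r))

theorem SS_expand (n m : ℕ) (hd : (FF m).natDegree < 2 * m + 3) :
    2 * SS n m = ∑ s ∈ range (2 * m + 3), (FF m).coeff s * hh n ((s : ℤ) - (m + 1)) := by
  have h1 : 2 * SS n m = ∑ j ∈ range n,
      ((q ^ (j : ℤ)) ^ (-((m : ℤ) + 1)) * (FF m).eval (q ^ (j : ℤ)) -
        (q ^ (-(j : ℤ) - 1)) ^ (-((m : ℤ) + 1)) * (FF m).eval (q ^ (-(j : ℤ) - 1))) := by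
    rw [SS, mul_sum]
    refine sum_congr rfl fun j _ => ?_
    rw [FF_pos, FF_neg]; ring
  rw [h1]
  simp only [hh, mul_sum]
  rw [sum_comm]
  refine sum_congr rfl fun j _ => ?_
  rw [eval_eq_sum_range' hd, eval_eq_sum_range' hd, mul_sum, mul_sum, ← sum_sub_distrib]
  refine sum_congr rfl fun s _ => ?_
  have e1 : ∀ z : ℤ, ((q : RatFunc ℚ) ^ z) ^ (-((m : ℤ) + 1)) * (q ^ z) ^ s =
      q ^ (z * ((s : ℤ) - (m + 1))) := by
    intro z
    rw [← zpow_natCast (q ^ z) s, ← zpow_add₀ (qz_ne _), ← zpow_mul,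
      show z * (-((m : ℤ) + 1) + (s : ℤ)) = z * ((s : ℤ) - (m + 1)) by ring]
  rw [← e1, ← e1]
  ring

theorem geomz {n : ℕ} {r : ℤ} (hr : r ≠ 0) :
    ∑ j ∈ range n, (q : RatFunc ℚ) ^ ((j : ℤ) * r) = (1 - q ^ ((n : ℤ) * r)) * (1 - q ^ r)⁻¹ := by
  have h1 : (1 : RatFunc ℚ) - q ^ r ≠ 0 := sub_ne_zero.2 (qz_ne_one hr).symm
  rw [eq_mul_inv_iff_mul_eq₀ h1]
  have h2 := geom_sum_mul_neg ((q : RatFunc ℚ) ^ r) n
  have h3 : ∀ j : ℕ, ((q : RatFunc ℚ) ^ r) ^ j = q ^ ((j : ℤ) * r) := by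
    intro j; rw [qz_pow, mul_comm]
  simp only [h3] at h2
  exact h2

theorem hh_eq {n : ℕ} {r : ℤ} (hr : r ≠ 0) :
    hh n r = (1 - q ^ ((n : ℤ) * r)) * (1 - q ^ (-((n : ℤ) * r))) * (1 - q ^ r)⁻¹ := by
  have h1 : (1 : RatFunc ℚ) - q ^ r ≠ 0 := sub_ne_zero.2 (qz_ne_one hr).symm
  have h1' : (1 : RatFunc ℚ) - q ^ (-r) ≠ 0 :=
    sub_ne_zero.2 (qz_ne_one (neg_ne_zero.2 hr)).symm
  have h2 : ∑ j ∈ range n, (q : RatFunc ℚ) ^ ((-(j : ℤ) - 1) * r) =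
      q ^ (-r) * ((1 - q ^ (-((n : ℤ) * r))) * (1 - q ^ (-r))⁻¹) := by
    have h3 := geomz (n := n) (neg_ne_zero.2 hr)
    rw [mul_neg] at h3
    rw [← h3, mul_sum]
    refine sum_congr rfl fun j _ => ?_
    rw [← zpow_add₀ q_ne]; congr 1; ring
  have h4 : (q : RatFunc ℚ) ^ (-r) * (1 - q ^ (-r))⁻¹ = -(1 - q ^ r)⁻¹ := by
    have h5 : (q : RatFunc ℚ) ^ (-r) * q ^ r = 1 := by rw [← zpow_add₀ q_ne]; simp
    field_simp
    linear_combination -h5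
  have h6 : (q : RatFunc ℚ) ^ ((n : ℤ) * r) * q ^ (-((n : ℤ) * r)) = 1 := by
    rw [← zpow_add₀ q_ne]; simp
  rw [hh, sum_sub_distrib, geomz hr, h2]
  linear_combination (-(1 - q ^ (-((n : ℤ) * r)))) * h4 - (1 - q ^ r)⁻¹ * h6

theorem hh_zero (n : ℕ) : hh n 0 = 0 := by simp [hh]

theorem hh_I {n : ℕ} (hn : 0 < n) {r : ℤ} (hr : |r| < n) : I n 2 (hh n r) := by
  by_cases h0 : r = 0
  · rw [h0, hh_zero]; exact I.zero
  · rw [hh_eq h0]
    refine I.mul_R ((I_one_sub hn (Dvd.intro _ rfl)).mul (I_one_sub hn ?_))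
      (inv_one_sub_qz hn fun h => h0 (Int.eq_zero_of_abs_lt_dvd h hr))
    rw [dvd_neg]; exact Dvd.intro _ rfl

/-! ### coefficients -/

theorem gauss_mem {n N k : ℕ} (hn : 0 < n) (hk : k < n) : gauss q N k ∈ R n := by
  rw [gauss]
  refine prod_mem fun i hi => ?_
  have hi' := mem_range.1 hi
  rw [div_eq_mul_inv]
  exact mul_mem (sub_mem (one_mem _) (qpow_mem _)) (inv_one_sub hn (nd (by omega) (by omega)))

theorem ff_inv {n k : ℕ} (hn : 0 < n) (hk : k < n) : (poch q q k)⁻¹ ∈ R n := by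
  refine poch_inv_mem fun i hi => ?_
  rw [← pow_succ']
  exact inv_one_sub hn (nd (by omega) (by omega))

theorem cf_mem {n m i : ℕ} (hn : 0 < n) (hm : m < n) (hi : i ≤ m) : cf m i ∈ R n :=
  mul_mem (mul_mem (qpow_mem _) (gauss_mem hn (lt_of_le_of_lt hi hm))) (ff_inv hn hm)

/-- polynomials with coefficients in the local ring -/
abbrev LR (n : ℕ) : Subsemiring (RatFunc ℚ)[X] := Polynomial.lifts (R n).subtype

theorem C_mem_LR {n : ℕ} {a : RatFunc ℚ} (h : a ∈ R n) : C a ∈ LR n :=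
  (Polynomial.lifts_iff_coeff_lifts _).2 fun k => by
    rw [coeff_C]
    split_ifs
    · exact ⟨⟨a, h⟩, rfl⟩
    · exact ⟨0, map_zero _⟩

theorem X_mem_LR (n : ℕ) : (X : (RatFunc ℚ)[X]) ∈ LR n := Polynomial.X_mem_lifts _

theorem neg_mem_LR {n : ℕ} {P : (RatFunc ℚ)[X]} (h : P ∈ LR n) : -P ∈ LR n := by
  have : -P = C (-1) * P := by simp
  rw [this]
  exact mul_mem (C_mem_LR (neg_mem (one_mem _))) h

theorem sub_mem_LR {n : ℕ} {P Q : (RatFunc ℚ)[X]} (h : P ∈ LR n) (h' : Q ∈ LR n) :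
    P - Q ∈ LR n := by
  rw [sub_eq_add_neg]; exact add_mem h (neg_mem_LR h')

theorem coeff_mem {n : ℕ} {P : (RatFunc ℚ)[X]} (h : P ∈ LR n) (k : ℕ) : P.coeff k ∈ R n := by
  obtain ⟨a, ha⟩ := (Polynomial.lifts_iff_coeff_lifts _).1 h k
  rw [← ha]; exact a.2

theorem U_mem {n m : ℕ} (hn : 0 < n) (hm : m < n) : U m ∈ LR n := by
  refine sum_mem fun i hi => mul_mem (C_mem_LR (cf_mem hn hm (Nat.lt_succ_iff.1 (mem_range.1 hi))))
    (prod_mem fun l _ => ?_)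
  exact sub_mem_LR (one_mem _) (mul_mem (C_mem_LR (qz_mem hn _)) (X_mem_LR n))

theorem W_mem {n m : ℕ} (hn : 0 < n) (hm : m < n) : W m ∈ LR n := by
  refine sum_mem fun i hi => mul_mem (C_mem_LR (cf_mem hn hm (Nat.lt_succ_iff.1 (mem_range.1 hi))))
    (prod_mem fun l _ => ?_)
  exact sub_mem_LR (X_mem_LR n) (C_mem_LR (qz_mem hn _))

theorem q1_inv {n : ℕ} (hn : 1 < n) : (1 - q : RatFunc ℚ)⁻¹ ∈ R n := by
  have := inv_one_sub (n := n) (k := 1) (by omega) (nd le_rfl hn)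
  rwa [pow_one] at this

theorem FF_mem {n m : ℕ} (hn : 1 < n) (hm : m < n) : FF m ∈ LR n := by
  refine mul_mem (C_mem_LR (mul_mem (mul_mem (pow_mem (neg_mem (one_mem _)) _)
    (qz_mem (by omega) _)) (q1_inv hn))) (mul_mem (sub_mem_LR (one_mem _)
      (mul_mem (C_mem_LR q_mem) (pow_mem (X_mem_LR n) 2)))
      (mul_mem (U_mem (by omega) hm) (W_mem (by omega) hm)))

theorem fac_deg1 (a : RatFunc ℚ) : (1 - C a * X : (RatFunc ℚ)[X]).natDegree ≤ 1 := by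
  refine (natDegree_sub_le _ _).trans ?_
  simp only [natDegree_one, zero_le, max_eq_right]
  simpa using natDegree_C_mul_X_pow_le a 1

theorem U_deg (m : ℕ) : (U m).natDegree ≤ m := by
  refine natDegree_sum_le_of_forall_le _ _ fun i _ => ?_
  refine (natDegree_C_mul_le _ _).trans ?_
  refine (natDegree_prod_le _ _).trans ?_
  refine (sum_le_sum (g := fun _ => 1) fun l _ => fac_deg1 _).trans ?_
  simp

theorem W_deg (m : ℕ) : (W m).natDegree ≤ m := by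
  refine natDegree_sum_le_of_forall_le _ _ fun i _ => ?_
  refine (natDegree_C_mul_le _ _).trans ?_
  refine (natDegree_prod_le _ _).trans ?_
  refine (sum_le_sum (g := fun _ => 1) fun l _ => (natDegree_X_sub_C _).le).trans ?_
  simp

theorem fac_deg2 : (1 - C q * X ^ 2 : (RatFunc ℚ)[X]).natDegree ≤ 2 := by
  refine (natDegree_sub_le _ _).trans ?_
  simp only [natDegree_one, zero_le, max_eq_right]
  exact natDegree_C_mul_X_pow_le q 2

theorem FF_deg (m : ℕ) : (FF m).natDegree ≤ 2 * m + 2 := by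
  refine (natDegree_C_mul_le _ _).trans ?_
  refine natDegree_mul_le.trans ?_
  have h1 := (natDegree_mul_le (p := U m) (q := W m)).trans (add_le_add (U_deg m) (W_deg m))
  have h2 := fac_deg2
  omega

/-- the case `m + 1 < n` -/
theorem SS_small {n m : ℕ} (hm : m + 1 < n) : I n 2 (SS n m) := by
  have hn : 0 < n := by omega
  have h1 := SS_expand n m (by have := FF_deg m; omega)
  have h2 : I n 2 (2 * SS n m) := by
    rw [h1]
    refine I.sum fun s hs => I.R_mul (coeff_mem (FF_mem (by omega) (by omega)) s) (hh_I hn ?_)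
    have hs' := mem_range.1 hs
    rw [abs_lt]
    constructor <;> omega
  have h3 := I.R_mul (half_mem (n := n)) h2
  rwa [← mul_assoc, inv_mul_cancel₀ two_ne_zero, one_mul] at h3

/-! ### the case `m + 1 = n` -/

theorem U_zero (m : ℕ) : (U m).coeff 0 = poch q (-1) m * (poch q q m)⁻¹ := by
  rw [coeff_zero_eq_eval_zero, U, eval_finsetSum]
  have h1 : ∀ i ∈ range (m + 1), eval 0 (C (cf m i) *
      ∏ l ∈ range m, (1 - C (q ^ ((1 : ℤ) - i + l)) * X)) =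
      q ^ (i * (i - 1) / 2) * gauss q m i * 1 ^ i * (poch q q m)⁻¹ := by
    intro i _
    rw [eval_mul, eval_C, eval_prod, cf]
    simp
  rw [sum_congr rfl h1, ← sum_mul, qbinom]

theorem prodA (m i : ℕ) : ∏ l ∈ range m, eval 0 (X - C ((q : RatFunc ℚ) ^ ((l : ℤ) - i))) =
    (-1) ^ m * q ^ (((∑ l ∈ range m, l : ℕ) : ℤ)) * (q ^ (-(m : ℤ))) ^ i := by
  induction m with
  | zero => simp
  | succ m ih =>
    rw [prod_range_succ, ih]
    simp only [eval_sub, eval_C, eval_X]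
    rw [sum_range_succ, pow_succ]
    have e1 : (q : RatFunc ℚ) ^ (((∑ l ∈ range m, l + m : ℕ)) : ℤ) * (q ^ (-((m + 1 : ℕ) : ℤ))) ^ i =
        q ^ (((∑ l ∈ range m, l : ℕ) : ℤ)) * (q ^ (-(m : ℤ))) ^ i * q ^ ((m : ℤ) - i) := by
      rw [qz_pow, qz_pow, ← zpow_add₀ q_ne, ← zpow_add₀ q_ne, ← zpow_add₀ q_ne]
      congr 1; push_cast; ring
    linear_combination ((-1 : RatFunc ℚ) ^ m) * e1

theorem prodB (m i : ℕ) : ∏ l ∈ range m, (-(q : RatFunc ℚ) ^ ((1 : ℤ) - i + l)) =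
    (-1) ^ m * q ^ ((m : ℤ) + ((∑ l ∈ range m, l : ℕ) : ℤ)) * (q ^ (-(m : ℤ))) ^ i := by
  induction m with
  | zero => simp
  | succ m ih =>
    rw [prod_range_succ, ih, sum_range_succ, pow_succ]
    have e1 : (q : RatFunc ℚ) ^ (((m + 1 : ℕ) : ℤ) + ((∑ l ∈ range m, l + m : ℕ) : ℤ)) *
        (q ^ (-((m + 1 : ℕ) : ℤ))) ^ i =
        q ^ ((m : ℤ) + ((∑ l ∈ range m, l : ℕ) : ℤ)) * (q ^ (-(m : ℤ))) ^ i *
          q ^ ((1 : ℤ) - i + m) := by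
      rw [qz_pow, qz_pow, ← zpow_add₀ q_ne, ← zpow_add₀ q_ne, ← zpow_add₀ q_ne]
      congr 1; push_cast; ring
    linear_combination ((-1 : RatFunc ℚ) ^ m) * e1

theorem prodC (m : ℕ) : poch q (-(q ^ (-(m : ℤ)))) m =
    q ^ (-(m : ℤ)) * q ^ (-(((∑ l ∈ range m, l : ℕ) : ℤ))) * poch q (-q) m := by
  have h5 : ∀ k : ℕ, ∏ l ∈ range k, (q : RatFunc ℚ) ^ (-((l : ℤ) + 1)) =
      q ^ (-(k : ℤ)) * q ^ (-(((∑ l ∈ range k, l : ℕ) : ℤ))) := by
    intro k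
    induction k with
    | zero => simp
    | succ k ih =>
      rw [prod_range_succ, ih, sum_range_succ, ← zpow_add₀ q_ne, ← zpow_add₀ q_ne,
        ← zpow_add₀ q_ne]
      congr 1; push_cast; ring
  rw [← h5, poch, ← prod_range_reflect, poch, ← prod_mul_distrib]
  refine prod_congr rfl fun l hl => ?_
  have hl' := mem_range.1 hl
  have e1 : -(q ^ (-(m : ℤ)) : RatFunc ℚ) * q ^ (m - 1 - l) = -(q ^ (-((l : ℤ) + 1))) := by
    rw [← zpow_natCast q (m - 1 - l), neg_mul, ← zpow_add₀ q_ne]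
    congr 2
    omega
  have e2 : (q : RatFunc ℚ) ^ (-((l : ℤ) + 1)) * (q * q ^ l) = 1 := by
    rw [← pow_succ', ← zpow_natCast q (l + 1), ← zpow_add₀ q_ne]; push_cast; simp
  rw [e1]
  linear_combination -e2

theorem W_zero (m : ℕ) : (W m).coeff 0 = (-1) ^ m * q ^ (-(m : ℤ)) * (poch q (-q) m *
    (poch q q m)⁻¹) := by
  rw [coeff_zero_eq_eval_zero, W, eval_finsetSum]
  have h1 : ∀ i ∈ range (m + 1), eval 0 (C (cf m i) *
      ∏ l ∈ range m, (X - C (q ^ ((l : ℤ) - i)))) =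
      (q ^ (i * (i - 1) / 2) * gauss q m i * (q ^ (-(m : ℤ))) ^ i) *
        ((poch q q m)⁻¹ * ((-1) ^ m * q ^ (((∑ l ∈ range m, l : ℕ) : ℤ)))) := by
    intro i _
    rw [eval_mul, eval_C, eval_prod, cf]
    rw [prodA]; ring
  rw [sum_congr rfl h1, ← sum_mul, qbinom]
  rw [prodC]
  have e3 : (q : RatFunc ℚ) ^ (-(((∑ l ∈ range m, l : ℕ) : ℤ))) * q ^ (((∑ l ∈ range m, l : ℕ) : ℤ)) =
      1 := by rw [← zpow_add₀ q_ne]; simp
  linear_combination ((-1) ^ m * q ^ (-(m : ℤ)) * (poch q (-q) m * (poch q q m)⁻¹)) * e3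

theorem U_top (m : ℕ) : (U m).coeff m = (-1) ^ m * (poch q (-q) m * (poch q q m)⁻¹) := by
  rw [U, finsetSum_coeff]
  have hprod : ∀ i : ℕ, (∏ l ∈ range m, (1 - C ((q : RatFunc ℚ) ^ ((1 : ℤ) - i + l)) * X)).coeff m =
      ∏ l ∈ range m, (-(q ^ ((1 : ℤ) - i + l))) := by
    intro i
    have h1 := Polynomial.coeff_prod_of_natDegree_le (s := range m)
      (fun l => (1 - C ((q : RatFunc ℚ) ^ ((1 : ℤ) - i + l)) * X)) 1 (fun l _ => fac_deg1 _)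
    rw [card_range, mul_one] at h1
    rw [h1]
    refine prod_congr rfl fun l _ => ?_
    rw [coeff_sub, coeff_C_mul, coeff_X_one, coeff_one]
    simp
  have h1 : ∀ i ∈ range (m + 1), (C (cf m i) *
      ∏ l ∈ range m, (1 - C ((q : RatFunc ℚ) ^ ((1 : ℤ) - i + l)) * X)).coeff m =
      (q ^ (i * (i - 1) / 2) * gauss q m i * (q ^ (-(m : ℤ))) ^ i) *
        ((poch q q m)⁻¹ * ((-1) ^ m * q ^ ((m : ℤ) + ((∑ l ∈ range m, l : ℕ) : ℤ)))) := by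
    intro i _
    rw [coeff_C_mul, hprod, cf]
    rw [prodB]; ring
  rw [sum_congr rfl h1, ← sum_mul, qbinom]
  rw [prodC]
  have e3 : (q : RatFunc ℚ) ^ (-(m : ℤ)) * q ^ (-(((∑ l ∈ range m, l : ℕ) : ℤ))) *
      q ^ ((m : ℤ) + ((∑ l ∈ range m, l : ℕ) : ℤ)) = 1 := by
    rw [← zpow_add₀ q_ne, ← zpow_add₀ q_ne]
    have : -(m : ℤ) + -((∑ l ∈ range m, l : ℕ) : ℤ) + ((m : ℤ) + ((∑ l ∈ range m, l : ℕ) : ℤ)) =
        0 := by ring
    rw [this, zpow_zero]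
  linear_combination ((-1) ^ m * (poch q (-q) m * (poch q q m)⁻¹)) * e3

theorem W_top (m : ℕ) : (W m).coeff m = poch q (-1) m * (poch q q m)⁻¹ := by
  rw [W, finsetSum_coeff]
  have h1 : ∀ i ∈ range (m + 1), (C (cf m i) *
      ∏ l ∈ range m, (X - C ((q : RatFunc ℚ) ^ ((l : ℤ) - i)))).coeff m =
      q ^ (i * (i - 1) / 2) * gauss q m i * 1 ^ i * (poch q q m)⁻¹ := by
    intro i _
    have h2 := Polynomial.coeff_prod_of_natDegree_le (s := range m)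
      (fun l => (X - C ((q : RatFunc ℚ) ^ ((l : ℤ) - i)))) 1 (fun l _ => (natDegree_X_sub_C _).le)
    rw [card_range, mul_one] at h2
    rw [coeff_C_mul, h2, cf]
    have h3 : ∏ l ∈ range m, (X - C ((q : RatFunc ℚ) ^ ((l : ℤ) - i))).coeff 1 = 1 :=
      prod_eq_one fun l _ => by rw [coeff_sub, coeff_X_one, coeff_C]; simp
    rw [h3]; simp
  rw [sum_congr rfl h1, ← sum_mul, qbinom]

/-- the extreme coefficients -/
theorem FF_zero (m : ℕ) : (FF m).coeff 0 =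
    (1 - q)⁻¹ * (poch q (-1) m * poch q (-q) m * ((poch q q m)⁻¹ * (poch q q m)⁻¹)) := by
  rw [FF, coeff_C_mul, mul_coeff_zero, mul_coeff_zero, U_zero, W_zero]
  have e1 : (1 - C q * X ^ 2 : (RatFunc ℚ)[X]).coeff 0 = 1 := by simp
  have e2 : (q : RatFunc ℚ) ^ (m : ℤ) * q ^ (-(m : ℤ)) = 1 := by rw [← zpow_add₀ q_ne]; simp
  have e3 : ((-1 : RatFunc ℚ)) ^ m * (-1) ^ m = 1 := by rw [← mul_pow]; norm_num
  rw [e1]
  linear_combination ((1 - q)⁻¹ * (poch q (-1) m * poch q (-q) m *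
    ((poch q q m)⁻¹ * (poch q q m)⁻¹)) * ((-1 : RatFunc ℚ)) ^ m * (-1) ^ m) * e2 +
    ((1 - q)⁻¹ * (poch q (-1) m * poch q (-q) m * ((poch q q m)⁻¹ * (poch q q m)⁻¹))) * e3

theorem FF_top (m : ℕ) : (FF m).coeff (2 * m + 2) = -(q ^ (m + 1)) * (FF m).coeff 0 := by
  rw [FF_zero, FF, coeff_C_mul, show 2 * m + 2 = 2 + (m + m) by ring,
    coeff_mul_add_eq_of_natDegree_le fac_deg2 (natDegree_mul_le.trans (add_le_add (U_deg m) (W_deg m))),
    coeff_mul_add_eq_of_natDegree_le (U_deg m) (W_deg m), U_top, W_top]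
  have e1 : (1 - C q * X ^ 2 : (RatFunc ℚ)[X]).coeff 2 = -q := by
    rw [coeff_sub, coeff_C_mul, coeff_X_pow, coeff_one]; simp
  have e3 : ((-1 : RatFunc ℚ)) ^ m * (-1) ^ m = 1 := by rw [← mul_pow]; norm_num
  rw [e1, zpow_natCast, pow_succ]
  linear_combination (-(q ^ m * q) * ((1 - q)⁻¹ * (poch q (-1) m * poch q (-q) m *
    ((poch q q m)⁻¹ * (poch q q m)⁻¹)))) * e3

end

end V11316.Del
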