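import Pool.Agent.V11316.Del2

/-!
`q`-Delannoy numbers: the case `m = n - 1` and the dependence on `m`.
-/

open Finset Polynomial

namespace V11316.Del

open V11307.Q V11316

noncomputable section

/-- `(qc; q)_{n-1} ≡ ∑_{i<n} c^i` modulo `Φ_n` -/
theorem fac_cong {n : ℕ} (hn : 1 < n) {c : RatFunc ℚ} (hc : c ∈ R n) :
    I n 1 (poch q (q * c) (n - 1) - ∑ i ∈ range n, c ^ i) := by
  have hn0 : 0 < n := by omega
  have hQ : I n 1 (1 - q ^ n : RatFunc ℚ) := I_one_sub_pow hn0 dvd_rfl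
  have h1 : ∀ i ≤ n - 1, I n 1 (q ^ (i * (i - 1) / 2) * gauss q (n - 1) i * (-(q * c)) ^ i - c ^ i) := by
    intro i
    induction i with
    | zero => intro _; simpa [gauss_zero_right] using I.zero
    | succ i ih =>
      intro hi
      have h2 := ih (by omega)
      have h3 : (1 - q ^ (i + 1) : RatFunc ℚ)⁻¹ ∈ R n := inv_one_sub hn0 (nd (by omega) (by omega))
      have h3' : (1 - q ^ (i + 1) : RatFunc ℚ) ≠ 0 := one_sub_ne (by omega)
      have e1 : (i + 1) * (i + 1 - 1) / 2 = i * (i - 1) / 2 + i := by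
        rw [← Finset.sum_range_id, ← Finset.sum_range_id, sum_range_succ]
      have e2 : (q ^ n : RatFunc ℚ) = q ^ (i + 1) * q ^ (n - 1 - i) := by
        rw [← pow_add]; congr 1; omega
      have e3 : q ^ ((i + 1) * (i + 1 - 1) / 2) * gauss q (n - 1) (i + 1) * (-(q * c)) ^ (i + 1) -
          c ^ (i + 1) =
          (q ^ (i * (i - 1) / 2) * gauss q (n - 1) i * (-(q * c)) ^ i - c ^ i) *
            (c * (1 - (1 - q ^ n) * (1 - q ^ (i + 1))⁻¹)) -
          (1 - q ^ n) * ((1 - q ^ (i + 1))⁻¹ * c ^ (i + 1)) := by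
        rw [e1, gauss_succ, e2]
        field_simp
        ring
      rw [e3]
      exact (h2.mul_R (mul_mem hc (sub_mem (one_mem _) (mul_mem hQ.mem h3)))).sub
        (hQ.mul_R (mul_mem h3 (pow_mem hc _)))
  have h2 := qbinom (n - 1) (-(q * c))
  rw [neg_neg] at h2
  rw [← h2, show n - 1 + 1 = n by omega, ← sum_sub_distrib]
  exact I.sum fun i hi => h1 i (by have := mem_range.1 hi; omega)

theorem fac_one {n : ℕ} (hn : 1 < n) : I n 1 (poch q q (n - 1) - n) := by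
  have h := fac_cong hn (c := 1) (one_mem _)
  simpa using h

theorem fac_neg {n : ℕ} (hn : 1 < n) (ho : n % 2 = 1) : I n 1 (poch q (-q) (n - 1) - 1) := by
  have h := fac_cong hn (c := -1) (neg_mem (one_mem _))
  have h1 : ∑ i ∈ range n, (-1 : RatFunc ℚ) ^ i = 1 := by
    obtain ⟨t, rfl⟩ : ∃ t, n = 2 * t + 1 := ⟨n / 2, by omega⟩
    clear h ho hn
    induction t with
    | zero => simp
    | succ t ih =>
      rw [show 2 * (t + 1) + 1 = 2 * t + 1 + 1 + 1 by ring, sum_range_succ, sum_range_succ, ih]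
      rw [pow_succ (-1 : RatFunc ℚ) (2 * t + 1)]
      ring
  rw [h1] at h
  simpa using h

/-- the value of the sum at `m = n - 1` -/
theorem SS_last {n : ℕ} (hn : 1 < n) (ho : n % 2 = 1) :
    I n 2 (SS n (n - 1) - q * (1 - q ^ (2 * n)) * (1 - q ^ 2)⁻¹) := by
  have hn0 : 0 < n := by omega
  obtain ⟨m, rfl⟩ : ∃ m, n = m + 1 := ⟨n - 1, by omega⟩
  rw [Nat.add_sub_cancel]
  set n := m + 1 with hnm
  have hm : m < n := by omega
  have hm1 : 1 ≤ m := by omega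
  have hQ : I n 1 (1 - q ^ n : RatFunc ℚ) := I_one_sub_pow hn0 dvd_rfl
  have hQ0 : (1 - q ^ n : RatFunc ℚ) ≠ 0 := one_sub_ne hn0
  have h1 := SS_expand n m (by have := FF_deg m; omega)
  have hF0 : (FF m).coeff 0 ∈ R n := coeff_mem (FF_mem (by omega) hm) 0
  -- the extreme values of `hh`
  set G : RatFunc ℚ := ∑ i ∈ range n, (q ^ n) ^ i with hG
  have hGn : (1 - q ^ n) * G = 1 - (q ^ n) ^ n := by
    rw [hG, mul_comm]; exact geom_sum_mul_neg _ _
  have hGc : I n 1 (G - n) := by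
    have : G - n = ∑ i ∈ range n, ((q ^ n) ^ i - 1) := by
      rw [sum_sub_distrib, hG]; simp
    rw [this]
    refine I.sum fun i _ => ?_
    have h2 : I n 1 (1 - q ^ (n * i) : RatFunc ℚ) := I_one_sub_pow hn0 (Dvd.intro _ rfl)
    rw [← pow_mul]
    refine (congrArg (I n 1) ?_).mp h2.neg
    ring
  have hhtop : hh n (n : ℤ) = -(q ^ (-((n : ℤ) * n))) * ((1 - q ^ n) * (G * G)) := by
    rw [hh_eq (by omega)]
    have e1 : (q : RatFunc ℚ) ^ ((n : ℤ) * n) = (q ^ n) ^ n := by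
      rw [← pow_mul, ← zpow_natCast q (n * n)]; push_cast; rfl
    have e2 : (q : RatFunc ℚ) ^ (-((n : ℤ) * n)) * (q ^ n) ^ n = 1 := by
      rw [← e1, ← zpow_add₀ q_ne]; simp
    rw [e1, zpow_natCast]
    field_simp
    linear_combination ((q : RatFunc ℚ) ^ (-((n : ℤ) * n)) * ((1 - q ^ n) * G + (1 - (q ^ n) ^ n))) * hGn -
      (1 - (q ^ n) ^ n) * e2
  have hhbot : hh n (-(n : ℤ)) = -(q ^ n) * hh n (n : ℤ) := by
    rw [hh_eq (by omega), hh_eq (by omega)]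
    have e1 : (1 - q ^ (-(n : ℤ)) : RatFunc ℚ)⁻¹ = -(q ^ n) * (1 - q ^ (n : ℤ))⁻¹ := by
      have e0 : (1 - q ^ (-(n : ℤ)) : RatFunc ℚ) ≠ 0 :=
        sub_ne_zero.2 (qz_ne_one (by omega)).symm
      have e3 : (q : RatFunc ℚ) ^ (-(n : ℤ)) * q ^ n = 1 := by
        rw [← zpow_natCast q n, ← zpow_add₀ q_ne]; simp
      rw [zpow_natCast]
      field_simp
      linear_combination -e3
    rw [e1, mul_neg, neg_neg]
    ring
  -- split off the extremes
  have h2 : 2 * SS n m = (FF m).coeff 0 * (-(2 * q ^ n) * hh n (n : ℤ)) +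
      ∑ s ∈ range (2 * m + 1), (FF m).coeff (s + 1) * hh n (((s + 1 : ℕ) : ℤ) - (m + 1)) := by
    rw [h1, show 2 * m + 3 = (2 * m + 1) + 1 + 1 by ring, sum_range_succ, sum_range_succ']
    have e1 : (((2 * m + 1 + 1 : ℕ)) : ℤ) - (m + 1) = (n : ℤ) := by rw [hnm]; push_cast; ring
    have e2 : ((0 : ℕ) : ℤ) - ((m : ℤ) + 1) = -(n : ℤ) := by rw [hnm]; push_cast; ring
    rw [e1, e2, show 2 * m + 1 + 1 = 2 * m + 2 by ring, FF_top, hhbot, ← hnm]
    ring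
  have h3 : I n 2 (∑ s ∈ range (2 * m + 1), (FF m).coeff (s + 1) *
      hh n (((s + 1 : ℕ) : ℤ) - (m + 1))) := by
    refine I.sum fun s hs => I.R_mul (coeff_mem (FF_mem (by omega) hm) _) (hh_I hn0 ?_)
    have hs' := mem_range.1 hs
    rw [abs_lt]
    constructor <;> omega
  -- `SS ≡ n² (1-Q) F_0`
  have h4 : I n 2 (SS n m - (1 - q ^ n) * ((n : RatFunc ℚ) * n * (FF m).coeff 0)) := by
    have e1 : SS n m = (2 : RatFunc ℚ)⁻¹ * (∑ s ∈ range (2 * m + 1), (FF m).coeff (s + 1) *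
        hh n (((s + 1 : ℕ) : ℤ) - (m + 1))) +
        (1 - q ^ n) * (q ^ n * q ^ (-((n : ℤ) * n)) * (G * G) * (FF m).coeff 0) := by
      have : SS n m = (2 : RatFunc ℚ)⁻¹ * (2 * SS n m) := by
        rw [← mul_assoc, inv_mul_cancel₀ two_ne_zero, one_mul]
      rw [this, h2, hhtop]
      ring
    have e2 : I n 1 (q ^ n * q ^ (-((n : ℤ) * n)) - 1 : RatFunc ℚ) := by
      rw [← zpow_natCast q n, ← zpow_add₀ q_ne]
      have h5 := I_one_sub hn0 (e := (n : ℤ) + -((n : ℤ) * n)) ⟨1 - n, by ring⟩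
      refine (congrArg (I n 1) ?_).mp h5.neg
      ring
    have hGm : G ∈ R n := sum_mem fun i _ => pow_mem (qpow_mem _) _
    have e3 : I n 1 (q ^ n * q ^ (-((n : ℤ) * n)) * (G * G) * (FF m).coeff 0 -
        (n : RatFunc ℚ) * n * (FF m).coeff 0) := by
      have e4 : q ^ n * q ^ (-((n : ℤ) * n)) * (G * G) * (FF m).coeff 0 -
        (n : RatFunc ℚ) * n * (FF m).coeff 0 =
        (q ^ n * q ^ (-((n : ℤ) * n)) - 1) * (G * G * (FF m).coeff 0) +
          (G - n) * ((G + n) * (FF m).coeff 0) := by ring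
      rw [e4]
      exact (e2.mul_R (mul_mem (mul_mem hGm hGm) hF0)).add
        (hGc.mul_R (mul_mem (add_mem hGm (ncast_mem n)) hF0))
    rw [e1]
    have e5 := (I.R_mul (half_mem (n := n)) h3).add (hQ.mul e3)
    refine (congrArg (I n 2) ?_).mp e5
    ring
  -- evaluation of `n² F_0`
  have hq1 := q1_inv (n := n) hn
  have hu : (1 + q ^ m : RatFunc ℚ)⁻¹ ∈ R n ∧ (1 + q ^ m : RatFunc ℚ) ≠ 0 := by
    have h5 : (1 - q ^ (2 * m) : RatFunc ℚ) ≠ 0 := one_sub_ne (by omega)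
    have h6 : (1 - q ^ m : RatFunc ℚ) ≠ 0 := one_sub_ne (by omega)
    have h7 : (1 - q ^ (2 * m) : RatFunc ℚ) = (1 - q ^ m) * (1 + q ^ m) := by
      rw [mul_comm 2 m, pow_mul]; ring
    have h8 : (1 + q ^ m : RatFunc ℚ) ≠ 0 := by
      intro h; rw [h7, h, mul_zero] at h5; exact h5 rfl
    refine ⟨?_, h8⟩
    have h9 : (1 + q ^ m : RatFunc ℚ)⁻¹ = (1 - q ^ (2 * m))⁻¹ * (1 - q ^ m) := by
      rw [h7]; field_simp
    rw [h9]
    refine mul_mem (inv_one_sub hn0 fun hd => ?_) (sub_mem (one_mem _) (qpow_mem _))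
    have h10 : n ∣ 2 * n - 2 * m := Nat.dvd_sub (Dvd.intro_left _ rfl) hd
    rw [show 2 * n - 2 * m = 2 by omega] at h10
    have := Nat.le_of_dvd (by norm_num) h10
    omega
  have hu1 : (1 + q : RatFunc ℚ)⁻¹ ∈ R n ∧ (1 + q : RatFunc ℚ) ≠ 0 := by
    have h5 : (1 - q ^ 2 : RatFunc ℚ) ≠ 0 := one_sub_ne (by omega)
    have h7 : (1 - q ^ 2 : RatFunc ℚ) = (1 - q) * (1 + q) := by ring
    have h8 : (1 + q : RatFunc ℚ) ≠ 0 := by
      intro h; rw [h7, h, mul_zero] at h5; exact h5 rfl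
    refine ⟨?_, h8⟩
    have h6 : (1 - q : RatFunc ℚ) ≠ 0 := by
      intro h; rw [h7, h, zero_mul] at h5; exact h5 rfl
    have h9 : (1 + q : RatFunc ℚ)⁻¹ = (1 - q ^ 2)⁻¹ * (1 - q) := by
      rw [h7]; field_simp
    rw [h9]
    exact mul_mem (inv_one_sub hn0 (nd (by omega) (by omega))) (sub_mem (one_mem _) q_mem)
  have hneg1 : poch q (-1) m = 2 * (poch q (-q) m * (1 + q ^ m)⁻¹) := by
    obtain ⟨k, rfl⟩ : ∃ k, m = k + 1 := ⟨m - 1, by omega⟩
    rw [poch_succ', poch_succ]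
    have h5 := hu.2
    have e1 : (1 - -q * q ^ k : RatFunc ℚ) = 1 + q ^ (k + 1) := by rw [pow_succ]; ring
    rw [e1, neg_one_mul]
    field_simp
    ring
  have hfi : (poch q q m)⁻¹ ∈ R n := ff_inv hn0 hm
  have hfm : poch q q m ∈ R n := by
    rw [poch]; exact prod_mem fun i _ => sub_mem (one_mem _) (mul_mem q_mem (qpow_mem _))
  have hfgm : poch q (-q) m ∈ R n := by
    rw [poch]; exact prod_mem fun i _ => sub_mem (one_mem _) (mul_mem (neg_mem q_mem) (qpow_mem _))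
  have hf0 : poch q q m ≠ 0 := ff_ne NR_q m
  have hf1 : I n 1 (poch q q m - n) := by
    have := fac_one hn; rwa [show n - 1 = m by omega] at this
  have hf2 : I n 1 (poch q (-q) m - 1) := by
    have := fac_neg hn ho; rwa [show n - 1 = m by omega] at this
  have hq11 : (1 - q : RatFunc ℚ) ≠ 0 := by
    have := NR_q 0; rwa [zero_add, pow_one] at this
  have h5 : I n 1 ((n : RatFunc ℚ) * n * (FF m).coeff 0 - 2 * q * ((1 - q)⁻¹ * (1 + q)⁻¹)) := by
    rw [FF_zero, hneg1]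
    -- n · (q;q)⁻¹ ≡ 1
    have e1 : I n 1 ((n : RatFunc ℚ) * (poch q q m)⁻¹ - 1) := by
      have : (n : RatFunc ℚ) * (poch q q m)⁻¹ - 1 = -((poch q q m - n) * (poch q q m)⁻¹) := by
        field_simp; ring
      rw [this]
      exact (hf1.mul_R hfi).neg
    have e2 : I n 1 ((1 + q ^ m)⁻¹ - q * (1 + q)⁻¹ : RatFunc ℚ) := by
      have : ((1 + q ^ m)⁻¹ - q * (1 + q)⁻¹ : RatFunc ℚ) =
          (1 - q ^ n) * ((1 + q ^ m)⁻¹ * (1 + q)⁻¹) := by
        have h6 := hu.2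
        have h7 := hu1.2
        rw [hnm, pow_succ]
        field_simp
        ring
      rw [this]
      exact hQ.mul_R (mul_mem hu.1 hu1.1)
    have e3 : (n : RatFunc ℚ) * n * ((1 - q)⁻¹ * (2 * (poch q (-q) m * (1 + q ^ m)⁻¹) *
        poch q (-q) m * ((poch q q m)⁻¹ * (poch q q m)⁻¹))) - 2 * q * ((1 - q)⁻¹ * (1 + q)⁻¹) =
        (1 - q)⁻¹ * 2 * (
          ((n : RatFunc ℚ) * (poch q q m)⁻¹ - 1) * (((n : RatFunc ℚ) * (poch q q m)⁻¹ + 1) *
            (poch q (-q) m * poch q (-q) m * (1 + q ^ m)⁻¹)) +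
          (poch q (-q) m - 1) * ((poch q (-q) m + 1) * (1 + q ^ m)⁻¹) +
          ((1 + q ^ m)⁻¹ - q * (1 + q)⁻¹)) := by ring
    rw [e3]
    refine I.R_mul (mul_mem hq1 (ncast_mem 2)) (((e1.mul_R ?_).add (hf2.mul_R ?_)).add e2)
    · exact mul_mem (add_mem (mul_mem (ncast_mem n) hfi) (one_mem _))
        (mul_mem (mul_mem hfgm hfgm) hu.1)
    · exact mul_mem (add_mem hfgm (one_mem _)) hu.1
  have h6 := h4.add (hQ.mul h5)
  have h7 : I n 2 ((1 - q ^ n) * (1 - q ^ n) * (q * ((1 - q)⁻¹ * (1 + q)⁻¹)) : RatFunc ℚ) :=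
    (hQ.mul hQ).mul_R (mul_mem q_mem (mul_mem hq1 hu1.1))
  refine (congrArg (I n 2) ?_).mp (h6.add h7)
  have h8 : (1 - q ^ 2 : RatFunc ℚ)⁻¹ = (1 - q)⁻¹ * (1 + q)⁻¹ := by
    rw [← mul_inv]; congr 1; ring
  rw [h8, show 2 * n = n + n by ring, pow_add]
  ring

/-! ### dependence on `m` -/

/-- the sum as a function of `z ∈ ℤ` -/
def SZ (n : ℕ) (z : ℤ) : RatFunc ℚ :=
  ∑ j ∈ range n, (1 - q ^ (2 * j + 1)) * (1 - q)⁻¹ * (q ^ j)⁻¹ * ((-1) ^ j * q ^ (j : ℤ)) *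
    (AA j (q ^ z) * AA j (q ^ (-z - 1)))

theorem SZ_nat (n m : ℕ) : SZ n (m : ℤ) = SS n m := by
  rw [SZ, SS]
  refine sum_congr rfl fun j _ => ?_
  rw [sm, Dq_AA, Dqi_AA]
  ring

theorem SZ_symm (n : ℕ) (z : ℤ) : SZ n (-1 - z) = SZ n z := by
  rw [SZ, SZ]
  refine sum_congr rfl fun j _ => ?_
  rw [show -(-1 - z) - 1 = z by ring, show -1 - z = -z - 1 by ring]
  ring

theorem AA_an {n : ℕ} (hn : 0 < n) {N : ℕ} (hN : N < n) (z : ℤ) (l : ℤ →+ ℤ) (k : ℕ) :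
    AQ n k (fun t : ℤ => AA N (q ^ z * (q ^ n) ^ (l t))) := by
  refine An.sum _ fun i hi => ?_
  have hi' : i ≤ N := Nat.lt_succ_iff.1 (mem_range.1 hi)
  refine (An.const (mul_mem (qpow_mem _) (gauss_mem hn (lt_of_le_of_lt hi' hN)))).mul ?_
  have h1 : AQ n k (fun t : ℤ => poch q (q ^ ((1 : ℤ) - i) * (q ^ z * (q ^ n) ^ (l t))) N *
      (poch q q N)⁻¹) := by
    refine An.mul (AQ_poch q_mem ?_ N) (An.const (ff_inv hn hN))
    exact An.smul (qz_mem hn _) (An.smul (qz_mem hn _) (AQ_Q hn l))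
  exact h1.congr fun t => by rw [div_eq_mul_inv]

theorem SZ_an {n : ℕ} (hn : 1 < n) (z : ℤ) (k : ℕ) :
    AQ n k (fun t : ℤ => SZ n (z + n * t)) := by
  have hn0 : 0 < n := by omega
  refine An.sum _ fun j hj => ?_
  have hj' := mem_range.1 hj
  refine (An.const ?_).mul (An.mul ?_ ?_)
  · refine mul_mem (mul_mem (mul_mem (sub_mem (one_mem _) (qpow_mem _)) (q1_inv hn)) ?_)
      (mul_mem (pow_mem (neg_mem (one_mem _)) _) (qz_mem hn0 _))
    rw [← zpow_natCast, ← zpow_neg]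
    exact qz_mem hn0 _
  · refine (AA_an hn0 hj' z (AddMonoidHom.id ℤ) k).congr fun t => ?_
    rw [AddMonoidHom.id_apply, ← zpow_natCast q n, ← zpow_mul, ← zpow_add₀ q_ne]
  · refine (AA_an hn0 hj' (-z - 1) (-(AddMonoidHom.id ℤ)) k).congr fun t => ?_
    rw [AddMonoidHom.neg_apply, AddMonoidHom.id_apply, ← zpow_natCast q n, ← zpow_mul,
      ← zpow_add₀ q_ne]
    congr 2; ring

/-- vanishing of an affine function modulo `Φ_n²` with zeros at `0` and `-1` -/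
theorem van_two {n : ℕ} {F : ℤ → RatFunc ℚ} (hF : AQ n 2 F) (h0 : I n 2 (F 0))
    (h1 : I n 2 (F (-1))) (t : ℤ) : I n 2 (F t) := by
  have h4 := affine_two (A := RatFunc ℚ ⧸ Isg n 2) (fun a z hz h => quot_tor a hz h)
    (fun y => ((F y : RatFunc ℚ) : RatFunc ℚ ⧸ Isg n 2))
    (by
      intro c u v
      obtain ⟨y, hy, h⟩ := hF.diff2 u v c
      beta_reduce
      rw [← QuotientAddGroup.mk_sub, ← QuotientAddGroup.mk_sub, ← QuotientAddGroup.mk_add,
        QuotientAddGroup.eq_zero_iff, mem_Isg]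
      exact ⟨y, hy, h⟩)
    (by
      beta_reduce
      rw [QuotientAddGroup.eq_zero_iff, mem_Isg]; exact h0)
    (r := -1) (by norm_num)
    (by
      beta_reduce
      rw [QuotientAddGroup.eq_zero_iff, mem_Isg]; exact h1) t
  beta_reduce at h4
  rwa [QuotientAddGroup.eq_zero_iff, mem_Isg] at h4

theorem case_mid {n m0 : ℕ} (h1 : 1 ≤ m0) (h2 : m0 + 1 < n) (t : ℤ) :
    I n 2 (SZ n (m0 + n * t)) := by
  refine van_two (SZ_an (n := n) (by omega) m0 2) ?_ ?_ t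
  · rw [mul_zero, add_zero, SZ_nat]
    exact SS_small h2
  · have e1 : (m0 : ℤ) + n * (-1) = -1 - ((n - 1 - m0 : ℕ) : ℤ) := by omega
    rw [e1, SZ_symm, SZ_nat]
    exact SS_small (by omega)

theorem q2_inv {n : ℕ} (hn : 2 < n) : (1 - q ^ 2 : RatFunc ℚ)⁻¹ ∈ R n :=
  inv_one_sub (by omega) (nd (by omega) hn)

theorem one_sub_an {n : ℕ} (hn : 0 < n) (a b : ℤ) (k : ℕ) :
    AQ n k (fun t : ℤ => (1 - q ^ (a + n * (b * t)) : RatFunc ℚ)) := by
  refine (An.const (one_mem _)).sub ?_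
  refine (An.smul (qz_mem hn a) (AQ_Q hn ((AddMonoidHom.mulLeft b : ℤ →+ ℤ)))).congr fun t => ?_
  rw [AddMonoidHom.coe_mulLeft, ← zpow_natCast q n, ← zpow_mul, ← zpow_add₀ q_ne]

theorem case_zero {n : ℕ} (hn : 2 < n) (ho : n % 2 = 1) (t : ℤ) :
    I n 2 (SZ n (0 + n * t) - q * (1 - q ^ (0 + n * (-2 * t))) * (1 - q ^ 2)⁻¹) := by
  have hF : AQ n 2 (fun t : ℤ => SZ n (0 + n * t) -
      q * (1 - q ^ (0 + n * (-2 * t))) * (1 - q ^ 2)⁻¹) :=
    (SZ_an (n := n) (by omega) 0 2).sub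
      (An.mul (An.smul q_mem (one_sub_an (n := n) (by omega) 0 (-2) 2)) (An.const (q2_inv hn)))
  refine van_two hF ?_ ?_ t
  · have h1 : SZ n (0 + n * 0) = SS n 0 := by rw [mul_zero, add_zero]; exact SZ_nat n 0
    rw [h1]
    simpa using SS_small (n := n) (m := 0) (by omega)
  · have e1 : (0 : ℤ) + n * (-1) = -1 - ((n - 1 : ℕ) : ℤ) := by omega
    have e2 : (0 : ℤ) + n * (-2 * -1) = ((2 * n : ℕ) : ℤ) := by push_cast; ring
    rw [e1, e2, SZ_symm, SZ_nat, zpow_natCast]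
    exact SS_last (n := n) (by omega) ho

theorem case_last {n : ℕ} (hn : 2 < n) (ho : n % 2 = 1) (t : ℤ) :
    I n 2 (SZ n (((n - 1 : ℕ) : ℤ) + n * t) -
      q * (1 - q ^ ((2 * n : ℕ) + n * (2 * t))) * (1 - q ^ 2)⁻¹) := by
  have hF : AQ n 2 (fun t : ℤ => SZ n (((n - 1 : ℕ) : ℤ) + n * t) -
      q * (1 - q ^ ((2 * n : ℕ) + n * (2 * t))) * (1 - q ^ 2)⁻¹) :=
    (SZ_an (n := n) (by omega) ((n - 1 : ℕ) : ℤ) 2).sub
      (An.mul (An.smul q_mem (one_sub_an (n := n) (by omega) ((2 * n : ℕ) : ℤ) 2 2))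
        (An.const (q2_inv hn)))
  refine van_two hF ?_ ?_ t
  · beta_reduce
    rw [mul_zero, add_zero, mul_zero, mul_zero, add_zero, SZ_nat, zpow_natCast]
    exact SS_last (n := n) (by omega) ho
  · beta_reduce
    have e1 : ((n - 1 : ℕ) : ℤ) + n * (-1) = -1 - ((0 : ℕ) : ℤ) := by omega
    have e2 : ((2 * n : ℕ) : ℤ) + n * (2 * -1) = 0 := by push_cast; ring
    rw [e1, e2, SZ_symm, SZ_nat, zpow_zero, sub_self, mul_zero, zero_mul, sub_zero]
    exact SS_small (by omega)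

end

end V11316.Del
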