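import Pool.Agent.V11316.Del3

/-!
`q`-Delannoy numbers: integrality, the ring `ℤ[q,q⁻¹]`.
-/

open Finset Polynomial

namespace V11316.Del

open V11307.Q V11316

noncomputable section

/-- `ℤ[q,q⁻¹]` -/
def LZ : Subring (RatFunc ℚ) where
  carrier := {x | ∃ (P : ℤ[X]) (k : ℕ), x * q ^ k = φ (P.map (Int.castRingHom ℚ))}
  mul_mem' := by
    rintro x y ⟨P, k, h⟩ ⟨P', k', h'⟩
    refine ⟨P * P', k + k', ?_⟩
    rw [Polynomial.map_mul, map_mul, ← h, ← h', pow_add]; ring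
  one_mem' := ⟨1, 0, by simp⟩
  add_mem' := by
    rintro x y ⟨P, k, h⟩ ⟨P', k', h'⟩
    refine ⟨P * X ^ k' + P' * X ^ k, k + k', ?_⟩
    simp only [Polynomial.map_add, Polynomial.map_mul, Polynomial.map_pow, Polynomial.map_X,
      map_add, map_mul, map_pow]
    rw [← h, ← h', φ_X, pow_add]; ring
  zero_mem' := ⟨0, 0, by simp⟩
  neg_mem' := by
    rintro x ⟨P, k, h⟩
    refine ⟨-P, k, ?_⟩
    rw [Polynomial.map_neg, map_neg, ← h]; ring

theorem q_LZ : (q : RatFunc ℚ) ∈ LZ := ⟨X, 0, by simp [φ_X]⟩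

theorem qi_LZ : (q⁻¹ : RatFunc ℚ) ∈ LZ := ⟨1, 1, by simp [inv_mul_cancel₀ q_ne]⟩

theorem qz_LZ (e : ℤ) : (q ^ e : RatFunc ℚ) ∈ LZ := by
  obtain ⟨k, rfl | rfl⟩ := e.eq_nat_or_neg
  · rw [zpow_natCast]; exact pow_mem q_LZ k
  · rw [zpow_neg, zpow_natCast, ← inv_pow]; exact pow_mem qi_LZ k

theorem gauss_LZ : ∀ n k : ℕ, gauss q n k ∈ LZ := by
  intro n
  induction n with
  | zero =>
    intro k
    cases k with
    | zero => rw [gauss_zero_right]; exact one_mem _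
    | succ k => rw [gauss_gt (Nat.succ_pos k)]; exact zero_mem _
  | succ n ih =>
    intro k
    cases k with
    | zero => rw [gauss_zero_right]; exact one_mem _
    | succ k =>
      by_cases hk : k ≤ n
      · rw [pascal NR_q hk]
        exact add_mem (ih _) (mul_mem (pow_mem q_LZ _) (ih _))
      · rw [gauss_gt (by omega)]; exact zero_mem _

theorem gaussi_LZ (n k : ℕ) : gauss q⁻¹ n k ∈ LZ := by
  by_cases hk : k ≤ n
  · rw [gauss_inv hk]
    exact mul_mem (qz_LZ _) (gauss_LZ n k)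
  · rw [gauss_gt (by omega)]; exact zero_mem _

theorem Dq_LZ (m n : ℕ) : Dq q m n ∈ LZ :=
  sum_mem fun _ _ => mul_mem (mul_mem (pow_mem q_LZ _) (gauss_LZ _ _)) (gauss_LZ _ _)

theorem Dqi_LZ (m n : ℕ) : Dq q⁻¹ m n ∈ LZ :=
  sum_mem fun _ _ => mul_mem (mul_mem (pow_mem qi_LZ _) (gaussi_LZ _ _)) (gaussi_LZ _ _)

theorem quo_LZ {d : ℕ} (hd : 0 < d) (k : ℕ) : (1 - q ^ (d * k)) * (1 - q ^ d : RatFunc ℚ)⁻¹ ∈ LZ := by
  have h1 : (1 - q ^ (d * k)) * (1 - q ^ d : RatFunc ℚ)⁻¹ = ∑ i ∈ range k, (q ^ d) ^ i := by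
    have h0 : (1 - q ^ d : RatFunc ℚ) ≠ 0 := one_sub_ne hd
    rw [mul_inv_eq_iff_eq_mul₀ h0, pow_mul]
    exact (geom_sum_mul_neg _ _).symm
  rw [h1]
  exact sum_mem fun _ _ => pow_mem (pow_mem q_LZ _) _

theorem sm_LZ (m j : ℕ) : sm m j ∈ LZ := by
  have h1 := quo_LZ one_pos (2 * j + 1)
  rw [one_mul, pow_one] at h1
  refine mul_mem (mul_mem (mul_mem h1 ?_) (Dq_LZ m j)) (Dqi_LZ m j)
  rw [← inv_pow]
  exact pow_mem qi_LZ _

theorem SS_LZ (n m : ℕ) : SS n m ∈ LZ := sum_mem fun _ _ => sm_LZ _ _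

/-- division by a power of `Φ_n` in `ℤ[q,q⁻¹]` -/
theorem dvd_LZ {n k : ℕ} (hn : 0 < n) {x : RatFunc ℚ} (hx : x ∈ LZ) (h : I n k x) :
    ∃ G ∈ LZ, x = φ (cyclotomic n ℚ) ^ k * G := by
  obtain ⟨P, e, hP⟩ := hx
  have h1 : I n k (φ (P.map (Int.castRingHom ℚ))) := by
    rw [← hP]; exact h.mul_R (qpow_mem _)
  have h2 := I.num_dvd hn h1
  rw [RatFunc.num_algebraMap] at h2
  have h3 : cyclotomic n ℤ ^ k ∣ P := by
    rw [← Polynomial.map_dvd_map (Int.castRingHom ℚ) (RingHom.injective_int _)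
      ((cyclotomic.monic n ℤ).pow k), Polynomial.map_pow, map_cyclotomic_int]
    exact h2
  obtain ⟨G, hG⟩ := h3
  refine ⟨φ (G.map (Int.castRingHom ℚ)) * (q ^ e)⁻¹, ⟨G, e, ?_⟩, ?_⟩
  · rw [inv_mul_cancel_right₀ (pow_ne_zero _ q_ne)]
  · have h4 : x = φ (P.map (Int.castRingHom ℚ)) * (q ^ e)⁻¹ := by
      rw [← hP, mul_inv_cancel_right₀ (pow_ne_zero _ q_ne)]
    rw [h4, hG, Polynomial.map_mul, Polynomial.map_pow, map_cyclotomic_int, map_mul, map_pow]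
    ring

/-- `ℤ[q,q⁻¹]` is generated by `q` and `q⁻¹` -/
theorem LZ_closure {x : RatFunc ℚ} (hx : x ∈ LZ) : x ∈ Subring.closure {(q : RatFunc ℚ), q⁻¹} := by
  obtain ⟨P, e, hP⟩ := hx
  have hq : (q : RatFunc ℚ) ∈ Subring.closure {(q : RatFunc ℚ), q⁻¹} :=
    Subring.subset_closure (by simp)
  have hqi : (q⁻¹ : RatFunc ℚ) ∈ Subring.closure {(q : RatFunc ℚ), q⁻¹} :=
    Subring.subset_closure (by simp)
  have h1 : x = φ (P.map (Int.castRingHom ℚ)) * q⁻¹ ^ e := by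
    rw [← hP, inv_pow, mul_inv_cancel_right₀ (pow_ne_zero _ q_ne)]
  rw [h1]
  refine mul_mem ?_ (pow_mem hqi _)
  clear h1 hP
  induction P using Polynomial.induction_on' with
  | add a b ha hb => rw [Polynomial.map_add, map_add]; exact add_mem ha hb
  | monomial k a =>
    rw [← C_mul_X_pow_eq_monomial, Polynomial.map_mul, Polynomial.map_pow, Polynomial.map_X, map_mul,
      map_pow, φ_X, Polynomial.map_C]
    refine mul_mem ?_ (pow_mem hq _)
    have : φ (C ((Int.castRingHom ℚ) a)) = ((a : ℤ) : RatFunc ℚ) := by simp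
    rw [this]
    exact intCast_mem _ _

theorem phi_prime {p : ℕ} (hp : p.Prime) :
    φ (cyclotomic p ℚ) = (1 - q ^ p) * (1 - q : RatFunc ℚ)⁻¹ := by
  have h0 : (1 - q : RatFunc ℚ) ≠ 0 := by
    have := NR_q 0; rwa [zero_add, pow_one] at this
  rw [eq_mul_inv_iff_mul_eq₀ h0]
  haveI := Fact.mk hp
  rw [cyclotomic_prime ℚ p]
  simp only [map_sum, map_pow, φ_X]
  exact geom_sum_mul_neg _ _

/-- the final form -/
theorem main {p : ℕ} (hp : p.Prime) (ho : p % 2 = 1) (m : ℕ) :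
    (p ∣ m → I p 2 (SS p m - q * (1 - q ^ (-(2 * (m : ℤ)))) * (1 - q ^ 2)⁻¹)) ∧
    (p ∣ m + 1 → I p 2 (SS p m - q * (1 - q ^ (2 * m + 2)) * (1 - q ^ 2)⁻¹)) ∧
    (¬ p ∣ m * (m + 1) → I p 2 (SS p m)) := by
  have hp2 : 2 < p := by
    have := hp.two_le
    omega
  refine ⟨?_, ?_, ?_⟩
  · rintro ⟨t, rfl⟩
    have h := case_zero hp2 ho (t : ℤ)
    have e1 : (0 : ℤ) + p * t = ((p * t : ℕ) : ℤ) := by push_cast; ring
    have e2 : (0 : ℤ) + p * (-2 * t) = -(2 * ((p * t : ℕ) : ℤ)) := by push_cast; ring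
    rwa [e1, e2, SZ_nat] at h
  · rintro ⟨s, hs⟩
    have hs1 : 1 ≤ s := by
      rcases Nat.eq_zero_or_pos s with rfl | h
      · simp at hs
      · exact h
    obtain ⟨t, rfl⟩ : ∃ t, s = t + 1 := ⟨s - 1, by omega⟩
    have h := case_last hp2 ho (t : ℤ)
    have e0 : m = p - 1 + p * t := by
      have : p * (t + 1) = p * t + p := by ring
      omega
    have e1 : ((p - 1 : ℕ) : ℤ) + p * t = ((m : ℕ) : ℤ) := by rw [e0]; push_cast; ring
    have e2 : ((2 * p : ℕ) : ℤ) + p * (2 * t) = ((2 * m + 2 : ℕ) : ℤ) := by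
      have : ((m : ℤ) + 1) = p * (t + 1) := by exact_mod_cast hs
      push_cast
      linear_combination -2 * this
    rwa [e1, e2, SZ_nat, zpow_natCast] at h
  · intro hnd
    have hm0 : m % p ≠ 0 := fun h => hnd ((Nat.dvd_of_mod_eq_zero h).mul_right _)
    have hm1 : m % p + 1 ≠ p := by
      intro h
      apply hnd
      refine Dvd.dvd.mul_left ?_ _
      have := Nat.div_add_mod m p
      refine ⟨m / p + 1, ?_⟩
      rw [mul_add, mul_one]
      omega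
    have hlt := Nat.mod_lt m hp.pos
    have h := case_mid (n := p) (m0 := m % p) (by omega) (by omega) ((m / p : ℕ) : ℤ)
    have e1 : ((m % p : ℕ) : ℤ) + p * ((m / p : ℕ) : ℤ) = (m : ℤ) := by
      exact_mod_cast Nat.mod_add_div m p
    rwa [e1, SZ_nat] at h

end

end V11316.Del
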