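import Pool.Agent.V11316.Quad

/-!
A variant of `quad_const`: a map on `ℤ^(1+κ)` with vanishing third differences, symmetric in the
coordinates of `κ`, with enough zeros on the lattice of vectors with zero sum.
-/

open Finset

namespace V11316

variable {A : Type*} [AddCommGroup A]

theorem quad_const2 {κ : Type*} [Fintype κ] [DecidableEq κ]
    (htor : ∀ (a : A) (z : ℤ), z ≠ 0 → z • a = 0 → a = 0)
    (G : (Option κ → ℤ) → A)
    (h3 : ∀ c u v w, G (c + u + v + w) - G (c + u + v) - G (c + u + w) - G (c + v + w)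
      + G (c + u) + G (c + v) + G (c + w) - G c = 0)
    (hs : ∀ (σ : Equiv.Perm κ) c, G (c ∘ (Equiv.optionCongr σ)) = G c)
    (w0 : Option κ → ℤ) (hw0 : ∑ i, w0 i = 0) {i0 j0 i1 : κ} (hij : i0 ≠ j0)
    (z0 : G w0 = 0)
    (z1 : G (w0 + (Pi.single (some i0) 1 - Pi.single (some j0) 1)) = 0)
    (z2 : G (w0 - (Pi.single (some i0) 1 - Pi.single (some j0) 1)) = 0)
    (z3 : G (w0 + (Pi.single (some i1) 1 - Pi.single none 1)) = 0)
    (z4 : G (w0 - (Pi.single (some i1) 1 - Pi.single none 1)) = 0) : G 0 = 0 := by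
  set B := polar G h3 with hB
  have hBa : ∀ u v, B u v = G (u + v) - G u - G v + G 0 := fun u v => rfl
  have hsd : ∀ v, G (w0 + v) = 0 → G (w0 - v) = 0 → B v v = 0 := by
    intro v e1 e2
    have := h3 0 (w0 - v) v v
    simp only [zero_add] at this
    rw [show w0 - v + v + v = w0 + v by abel, show w0 - v + v = w0 by abel, e1, e2, z0] at this
    rw [hBa, ← neg_eq_zero, ← this]; abel
  set f : κ → (Option κ → ℤ) := fun i => Pi.single (some i) 1 - Pi.single none 1 with hf
  have h1 : B (Pi.single (some i0) 1 - Pi.single (some j0) 1)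
      (Pi.single (some i0) 1 - Pi.single (some j0) 1) = 0 := hsd _ z1 z2
  have h2 : B (f i1) (f i1) = 0 := hsd _ z3 z4
  have hBs : ∀ (σ : Equiv.Perm κ) u v,
      B (u ∘ (Equiv.optionCongr σ)) (v ∘ (Equiv.optionCongr σ)) = B u v := by
    intro σ u v
    have e1 : (u ∘ (Equiv.optionCongr σ) + v ∘ (Equiv.optionCongr σ)) =
      (u + v) ∘ (Equiv.optionCongr σ) := rfl
    rw [hBa, hBa, e1, hs, hs, hs]
  have hsing : ∀ (σ : Equiv.Perm κ) (i : κ),
      (Pi.single (some (σ i)) 1 : Option κ → ℤ) ∘ (Equiv.optionCongr σ) = Pi.single (some i) 1 := by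
    intro σ i
    funext x
    rcases x with _ | x
    · simp
    · by_cases hx : x = i
      · subst hx; simp
      · simp [hx, Pi.single_apply]
  have hsingn : ∀ (σ : Equiv.Perm κ),
      (Pi.single none 1 : Option κ → ℤ) ∘ (Equiv.optionCongr σ) = Pi.single none 1 := by
    intro σ
    funext x
    rcases x with _ | x
    · simp
    · simp
  have hfs : ∀ (σ : Equiv.Perm κ) (i : κ), f (σ i) ∘ (Equiv.optionCongr σ) = f i := by
    intro σ i
    have : f (σ i) ∘ (Equiv.optionCongr σ) =
      (Pi.single (some (σ i)) 1 : Option κ → ℤ) ∘ (Equiv.optionCongr σ) -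
        (Pi.single none 1 : Option κ → ℤ) ∘ (Equiv.optionCongr σ) := rfl
    rw [this, hsing, hsingn]
  have hswap : ∀ i j : κ, i ≠ j → ∃ σ : Equiv.Perm κ, σ i = i0 ∧ σ j = j0 := by
    intro i j h
    refine ⟨Equiv.swap (Equiv.swap i i0 j) j0 * Equiv.swap i i0, ?_, ?_⟩
    · rw [Equiv.Perm.mul_apply, Equiv.swap_apply_left]
      refine Equiv.swap_apply_of_ne_of_ne ?_ hij
      intro h2
      apply h
      have := congrArg (Equiv.swap i i0) h2
      rw [Equiv.swap_apply_right, Equiv.swap_apply_self] at this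
      exact this
    · rw [Equiv.Perm.mul_apply, Equiv.swap_apply_left]
  have h4 : ∀ i j : κ, B (f i - f j) (f i - f j) = 0 := by
    intro i j
    by_cases h : i = j
    · subst h; simp
    · obtain ⟨σ, hi, hj⟩ := hswap i j h
      have e1 : f i - f j = (Pi.single (some i0) 1 - Pi.single (some j0) 1 : Option κ → ℤ) ∘
          (Equiv.optionCongr σ) := by
        have e2 : (Pi.single (some i0) 1 - Pi.single (some j0) 1 : Option κ → ℤ) =
            f i0 - f j0 := by simp only [hf]; abel
        rw [e2, ← hi, ← hj]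
        have e3 : (f (σ i) - f (σ j)) ∘ (Equiv.optionCongr σ) =
          f (σ i) ∘ (Equiv.optionCongr σ) - f (σ j) ∘ (Equiv.optionCongr σ) := rfl
        rw [e3, hfs, hfs]
      rw [e1, hBs, h1]
  have h4' : ∀ i : κ, B (f i) (f i) = 0 := by
    intro i
    have e1 : f i = f i1 ∘ (Equiv.optionCongr (Equiv.swap i i1)) := by
      have := hfs (Equiv.swap i i1) i
      rw [Equiv.swap_apply_left] at this
      exact this.symm
    rw [e1, hBs, h2]
  have hBc : ∀ u v, B u v = B v u := by
    intro u v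
    rw [hBa, hBa, add_comm u v]; abel
  have h5 : ∀ i j, B (f i) (f j) = 0 := by
    intro i j
    have e1 := h4 i j
    simp only [map_sub, AddMonoidHom.sub_apply] at e1
    rw [h4' i, h4' j, hBc (f j) (f i)] at e1
    refine htor _ 2 two_ne_zero ?_
    rw [two_zsmul, ← neg_eq_zero, ← e1]; abel
  -- the linear map
  let ℓ : (κ → ℤ) →+ (Option κ → ℤ) := AddMonoidHom.mk' (fun w => ∑ i, w i • f i) (by
    intro u v
    rw [← sum_add_distrib]
    exact sum_congr rfl fun i _ => by rw [Pi.add_apply, add_smul])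
  have hℓ : ∀ w, ℓ w = ∑ i, w i • f i := fun w => rfl
  have h6 : ∀ u v, B (ℓ u) (ℓ v) = 0 := by
    intro u v
    rw [hℓ v, map_sum]
    refine sum_eq_zero fun j _ => ?_
    rw [map_zsmul, hℓ u, map_sum, AddMonoidHom.finsetSum_apply]
    rw [sum_eq_zero, smul_zero]
    intro i _
    rw [map_zsmul, AddMonoidHom.zsmul_apply, h5, smul_zero]
  have h7 : ∀ u v, G (ℓ (u + v)) - G (ℓ u) - G (ℓ v) + G 0 = 0 := by
    intro u v
    rw [map_add, ← hBa, h6]
  let H : (κ → ℤ) →+ A := AddMonoidHom.mk' (fun w => G (ℓ w) - G 0) (by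
    intro u v
    rw [← sub_eq_zero, ← h7 u v]; abel)
  have hH : ∀ w, H w = G (ℓ w) - G 0 := fun w => rfl
  have hℓs : ∀ i, ℓ (Pi.single i 1) = f i := by
    intro i
    rw [hℓ, sum_eq_single i]
    · simp
    · intro j _ hj; rw [Pi.single_eq_of_ne hj, zero_smul]
    · intro h; exact absurd (mem_univ i) h
  have h8 : ∀ i, H (Pi.single i 1) = H (Pi.single i1 1) := by
    intro i
    rw [hH, hH, hℓs, hℓs]
    have := hfs (Equiv.swap i i1) i
    rw [Equiv.swap_apply_left] at this
    rw [← this, hs]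
  have h9 : ∀ w, H w = (∑ i, w i) • H (Pi.single i1 1) := by
    intro w
    have : w = ∑ i, w i • (Pi.single i 1 : κ → ℤ) := by
      funext j
      simp [Finset.sum_apply, Pi.single_apply]
    conv_lhs => rw [this]
    rw [map_sum, sum_smul]
    refine sum_congr rfl fun i _ => ?_
    rw [map_zsmul, h8]
  have h10 : ∀ w : Option κ → ℤ, ∑ i, w i = 0 → ℓ (fun i => w (some i)) = w := by
    intro w hw
    rw [hℓ]
    simp only [hf, smul_sub, sum_sub_distrib]
    rw [← sum_smul]
    rw [Fintype.sum_option] at hw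
    have e1 : ∑ i, w (some i) = - w none := by linarith
    rw [e1]
    funext j
    rcases j with _ | j
    · simp [Finset.sum_apply, Pi.single_apply]
    · simp [Finset.sum_apply, Pi.single_apply]
  have a1 := h9 (fun i => w0 (some i))
  rw [hH, h10 w0 hw0, z0] at a1
  set w1 : Option κ → ℤ := w0 + (Pi.single (some i1) 1 - Pi.single none 1) with hw1
  have hw1s : ∑ i, w1 i = 0 := by
    rw [hw1]
    simp only [Pi.add_apply, Pi.sub_apply, sum_add_distrib, sum_sub_distrib, hw0]
    simp [Pi.single_apply]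
  have a2 := h9 (fun i => w1 (some i))
  rw [hH, h10 w1 hw1s, z3] at a2
  have e2 : ∑ i, w1 (some i) = ∑ i, w0 (some i) + 1 := by
    rw [hw1]
    simp only [Pi.add_apply, Pi.sub_apply, sum_add_distrib, sum_sub_distrib]
    simp [Pi.single_apply]
  rw [e2, add_smul, ← a1, one_smul] at a2
  have e3 : H (Pi.single i1 1) = 0 := by
    have e4 : (0 - G 0) - (0 - G 0) = H (Pi.single i1 1) := by
      nth_rw 1 [a2]; abel
    rw [← e4]; abel
  rw [e3, smul_zero] at a1
  rw [← neg_eq_zero, ← a1]; abel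

end V11316
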