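import Pool.Agent.V11316.Std2
import Pool.Agent.V11316.Quad2

/-!
The sums with factor `[8k+α]`, `α = ±1`: five parameters `q^α` and one parameter `q²`, base `q⁴`.
-/

open Finset Polynomial

namespace V11316

open V11307.Q

noncomputable section

/-! ### factors `1 - q^e` with `n ∣ e` -/

theorem phi_div_mem {n : ℕ} (hn : 0 < n) {e : ℤ} (he : e ≠ 0) (hd : (n : ℤ) ∣ e) :
    cyc n * (1 - q ^ e)⁻¹ ∈ R n := by
  have hnat : ∀ k : ℕ, 0 < k → n ∣ k → cyc n * (1 - q ^ (k : ℤ))⁻¹ ∈ R n := by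
    intro k hk hd
    rw [zpow_natCast, one_sub_qpow]
    obtain ⟨ψ, hψ⟩ := (cyc_dvd_iff hn k).2 hd
    have hsf : Squarefree (X ^ k - 1 : ℚ[X]) := by
      have := (X_pow_sub_one_separable_iff (F := ℚ) (n := k)).2 (by exact_mod_cast hk.ne')
      exact this.squarefree
    have hψd : ¬ cyclotomic n ℚ ∣ ψ := by
      rintro ⟨χ, hχ⟩
      have h1 : cyclotomic n ℚ * cyclotomic n ℚ ∣ (X ^ k - 1 : ℚ[X]) := by
        rw [hψ, hχ, ← mul_assoc]; exact Dvd.intro _ rfl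
      exact (cyc_irr hn).not_isUnit (hsf _ h1)
    have e1 : (1 - X ^ k : ℚ[X]) = cyclotomic n ℚ * (-ψ) := by
      rw [mul_neg, ← hψ]; ring
    rw [e1, map_mul, mul_inv, ← mul_assoc, mul_inv_cancel₀ (cyc_ne n), one_mul]
    exact inv_mem hn (by rwa [dvd_neg])
  rcases lt_or_gt_of_ne he with h | h
  · have h1 := hnat (-e).toNat (by omega) (by
      have : (n : ℤ) ∣ ((-e).toNat : ℕ) := by
        rw [show (((-e).toNat : ℕ) : ℤ) = -e by omega, dvd_neg]; exact hd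
      exact_mod_cast this)
    rw [show (((-e).toNat : ℕ) : ℤ) = -e by omega] at h1
    have h2 : (1 - q ^ e : RatFunc ℚ)⁻¹ = -(q ^ (-e)) * (1 - q ^ (-e))⁻¹ := by
      have h3 : (1 : RatFunc ℚ) - q ^ (-e) ≠ 0 := sub_ne_zero.2 (qz_ne_one (by omega)).symm
      have h4 : (1 : RatFunc ℚ) - q ^ e ≠ 0 := sub_ne_zero.2 (qz_ne_one (by omega)).symm
      have h5 : (q ^ (-e) : RatFunc ℚ) * q ^ e = 1 := by
        rw [← zpow_add₀ q_ne]; simp
      field_simp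
      linear_combination -h5
    rw [h2]
    have h3 : cyc n * (-(q ^ (-e)) * (1 - q ^ (-e))⁻¹) =
        -(q ^ (-e)) * (cyc n * (1 - q ^ (-e))⁻¹) := by ring
    rw [h3]
    exact mul_mem (neg_mem (zpow_mem' hn _)) h1
  · have h1 := hnat e.toNat (by omega) (by
      have : (n : ℤ) ∣ (e.toNat : ℕ) := by
        rw [show ((e.toNat : ℕ) : ℤ) = e by omega]; exact hd
      exact_mod_cast this)
    rwa [show ((e.toNat : ℕ) : ℤ) = e by omega] at h1

/-- division by an element `y` with `Φ_n / y` integral -/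
theorem I_div {n k : ℕ} {x y : RatFunc ℚ} (h : I n (k + 1) x) (hy : cyc n * y ∈ R n) :
    I n k (x * y) := by
  obtain ⟨z, hz, rfl⟩ := h
  exact ⟨z * (cyc n * y), mul_mem hz hy, by rw [pow_succ]; ring⟩

/-- `(q^s;q^β)_k` with exactly one factor divisible by `Φ_n`, or none -/
theorem inv_poch_mem {n : ℕ} (hn : 0 < n) {β s : ℤ} (hc : IsCoprime (n : ℤ) β) {k : ℕ}
    (hk : k ≤ n) (hs : ∀ i : ℕ, s + β * i ≠ 0) :
    cyc n * (poch (q ^ β) (q ^ s) k)⁻¹ ∈ R n := by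
  have hf : ∀ i : ℕ, (1 : RatFunc ℚ) - q ^ s * (q ^ β) ^ i = 1 - q ^ (s + β * i) := by
    intro i; rw [qz_pow, ← zpow_add₀ q_ne]
  rw [poch, ← prod_inv_distrib]
  by_cases h : ∃ i0 < k, (n : ℤ) ∣ s + β * i0
  · obtain ⟨i0, hi0, hd⟩ := h
    rw [← mul_prod_erase _ _ (mem_range.2 hi0), ← mul_assoc]
    refine mul_mem ?_ (prod_mem fun i hi => ?_)
    · rw [hf]; exact phi_div_mem hn (hs i0) hd
    · rw [hf]
      refine inv_one_sub_qz hn fun hd' => ?_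
      have hi' := mem_range.1 (mem_of_mem_erase hi)
      have h1 : (n : ℤ) ∣ β * (i - i0) := by
        have := dvd_sub hd' hd
        have e : s + β * (i : ℤ) - (s + β * i0) = β * (i - i0) := by ring
        rwa [e] at this
      have h2 := hc.dvd_of_dvd_mul_left h1
      have h3 : |(i : ℤ) - i0| < n := by
        rw [abs_lt]; constructor <;> omega
      have h4 := Int.eq_zero_of_abs_lt_dvd h2 h3
      exact ne_of_mem_erase hi (by omega)
  · push Not at h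
    refine mul_mem (φ_mem _) (prod_mem fun i hi => ?_)
    rw [hf]
    exact inv_one_sub_qz hn (h i (mem_range.1 hi))

theorem poch_I {n : ℕ} (hn : 0 < n) {β s : ℤ} {k i0 : ℕ} (hi : i0 < k)
    (hd : (n : ℤ) ∣ s + β * i0) : I n 1 (poch (q ^ β) (q ^ s) k) := by
  rw [poch, ← mul_prod_erase _ _ (mem_range.2 hi)]
  refine I.mul_R ?_ (prod_mem fun i _ => ?_)
  · rw [qz_pow, ← zpow_add₀ q_ne]; exact I_one_sub hn hd
  · exact sub_mem (one_mem _) (mul_mem (qz_mem hn _) (pow_mem (qz_mem hn _) _))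

theorem poch_mem {n : ℕ} (hn : 0 < n) (β s : ℤ) (k : ℕ) : poch (q ^ β) (q ^ s) k ∈ R n :=
  prod_mem fun _ _ => sub_mem (one_mem _) (mul_mem (qz_mem hn _) (pow_mem (qz_mem hn _) _))

/-- solvability of `n ∣ s + β i`, `i < n` -/
theorem exists_dvd {n : ℕ} (hn : 0 < n) {β : ℤ} (hc : IsCoprime (n : ℤ) β) (s : ℤ) :
    ∃ i < n, (n : ℤ) ∣ s + β * (i : ℕ) := by
  obtain ⟨u, v, huv⟩ := hc
  refine ⟨((-s * v) % n).toNat, ?_, ?_⟩
  · have h1 := Int.emod_lt_of_pos (-s * v) (by exact_mod_cast hn : (0 : ℤ) < n)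
    have h2 := Int.emod_nonneg (-s * v) (by exact_mod_cast hn.ne' : (n : ℤ) ≠ 0)
    omega
  · have h2 := Int.emod_nonneg (-s * v) (by exact_mod_cast hn.ne' : (n : ℤ) ≠ 0)
    rw [Int.toNat_of_nonneg h2]
    have h3 := Int.emod_add_mul_ediv (-s * v) n
    refine ⟨s * u - β * ((-s * v) / n), ?_⟩
    linear_combination -s * huv + β * h3

/-- general pair -/
theorem gen_pair {n : ℕ} {α d b1 s1 b2 s2 c c' : ℤ} {e : ℕ} (hs1 : b1 + s1 = α + d)
    (hs2 : b2 + s2 = α + d) (hsum : b1 + b2 + n * (c + c') = α + d + d * e)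
    (h1 : ∀ i : ℕ, b1 + n * c - d * e + d * i ≠ 0)
    (h2 : ∀ i : ℕ, b2 + n * c' - d * e + d * i ≠ 0) (k : ℕ) :
    Tk (q ^ d) ((q ^ n) ^ c) (q ^ b1) (q ^ s1) k * Tk (q ^ d) ((q ^ n) ^ c') (q ^ b2) (q ^ s2) k =
      (pairP (q ^ d) (q ^ (b1 + n * c - d * e)) (q ^ (b2 + n * c' - d * e)) e).eval
        (wy (q ^ α) (q ^ d) k) * (q ^ (b1 + b2 - α - d)) ^ k := by
  have hx : ∀ c : ℤ, (q ^ n : RatFunc ℚ) ^ c ≠ 0 := fun c => zpow_ne_zero _ (pow_ne_zero _ q_ne)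
  rw [Tk_pair (a := q ^ α) (β := q ^ (b1 + n * c - d * e)) (β' := q ^ (b2 + n * c' - d * e))
    (e := e) (hx c) (hx c') (qz_ne _) (qz_ne _)]
  · congr 2
    rw [← zpow_add₀ q_ne, ← zpow_add₀ q_ne, ← zpow_neg, ← zpow_add₀ q_ne]
    congr 1; ring
  · rw [ax_eq, qd_pow, ← zpow_add₀ q_ne]; congr 1; ring
  · rw [ax_eq, qd_pow, ← zpow_add₀ q_ne]; congr 1; ring
  · rw [qd_pow, ← zpow_add₀ q_ne, ← zpow_add₀ q_ne, ← zpow_add₀ q_ne]; congr 1
    linear_combination hsum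
  · rw [← zpow_add₀ q_ne, ← zpow_add₀ q_ne, hs1]
  · rw [← zpow_add₀ q_ne, ← zpow_add₀ q_ne, hs2]
  · intro k; exact poch_qz_ne h1
  · intro k; exact poch_qz_ne h2

/-! ### the family -/

abbrev JE := Option (Option (Fin 4))

/-- numerator exponents -/
def eb (α : ℤ) : JE → ℤ
  | none => α
  | some none => 2
  | some (some _) => α

/-- denominator exponents -/
def es (α : ℤ) : JE → ℤ
  | none => 4
  | some none => 2 + α
  | some (some _) => 4

theorem eb_es (α : ℤ) (j : JE) : eb α j + es α j = α + 4 := by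
  rcases j with _ | _ | j <;> simp only [eb, es] <;> ring

/-- the family -/
def GE (n L : ℕ) (α : ℤ) (c : Option (Fin 4) → ℤ) : RatFunc ℚ :=
  Gn n L (q ^ α) (q ^ (4 : ℤ)) (q ^ (6 - 2 * α)) (fun j : JE => q ^ eb α j)
    (fun j => q ^ es α j) lS c

theorem GE_an {n m : ℕ} (hn : 0 < n) (L : ℕ) (α : ℤ) : AQ n m (GE n L α) :=
  Gn_an hn (qz_mem hn _) (qz_mem hn _) (qz_mem hn _) (fun _ => qz_mem hn _)
    (fun _ => qz_mem hn _) lS

theorem GE_symm {n L : ℕ} {α : ℤ} (σ : Equiv.Perm (Fin 4)) (c : Option (Fin 4) → ℤ) :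
    GE n L α (c ∘ (Equiv.optionCongr σ)) = GE n L α c := by
  rw [GE, GE, Gn, Gn]
  refine sum_congr rfl fun k _ => ?_
  rw [Un, Un]
  congr 1
  rw [Fintype.prod_option, Fintype.prod_option, Fintype.prod_option, Fintype.prod_option]
  congr 1
  congr 1
  exact Equiv.prod_comp σ (fun i => pf n L (q ^ (4 : ℤ)) (q ^ α) (q ^ (4 : ℤ)) (lS (some (some i))) k c)

theorem prod_neg_inv' (s β : ℤ) (N : ℕ) :
    ∏ i ∈ range N, (-((q : RatFunc ℚ) ^ s * (q ^ β) ^ i)⁻¹) =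
      (-1) ^ N * q ^ (-(s * N + β * ((∑ i ∈ range N, i : ℕ) : ℤ))) := by
  induction N with
  | zero => simp
  | succ N ih =>
    rw [prod_range_succ, ih, sum_range_succ, pow_succ]
    have e1 : -((q : RatFunc ℚ) ^ s * (q ^ β) ^ N)⁻¹ = -(q ^ (-(s + β * N))) := by
      rw [qz_pow, ← zpow_add₀ q_ne, ← zpow_neg]
    rw [e1]
    have e2 : (q : RatFunc ℚ) ^ (-(s * ((N + 1 : ℕ) : ℤ) +
        β * ((∑ i ∈ range N, i + N : ℕ) : ℤ))) =
        q ^ (-(s * N + β * ((∑ i ∈ range N, i : ℕ) : ℤ))) * q ^ (-(s + β * N)) := by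
      rw [← zpow_add₀ q_ne]; congr 1; push_cast; ring
    rw [e2]; ring

theorem two_tri' (N : ℕ) : 2 * ((∑ i ∈ range N, i : ℕ) : ℤ) = N * (N - 1) := by
  induction N with
  | zero => simp
  | succ N ih => rw [sum_range_succ]; push_cast at ih ⊢; linarith

/-- antisymmetry -/
theorem GE_anti {n L N m : ℕ} {α s : ℤ} (hα : α * α = 1) (hn : 0 < n) (hNL : N ≤ L)
    (hQ : α + 4 * N = n * s) :
    ∃ g : (Option (Fin 4) → ℤ) → RatFunc ℚ, AQ n m g ∧ ∀ c, GE n L α c = cyc n * g c := by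
  refine Gn_anti (N := N) (Qe := q ^ ((n : ℤ) * s)) hn hNL (qz_ne _) (qz_ne _) (qz_ne _)
    (fun _ => qz_ne _) (fun _ => qz_ne _) (qz_mem hn _) (qz_mem hn _) (qz_mem hn _)
    (fun _ => qz_mem hn _) (fun _ => qz_mem hn _) (qz_inv_mem hn _) (qz_inv_mem hn _)
    (fun _ => qz_inv_mem hn _) (fun _ => qz_inv_mem hn _) lS (fun j => ?_) ?_ ?_ ?_ ?_ none rfl rfl
  · rw [← zpow_add₀ q_ne, ← zpow_add₀ q_ne, eb_es]
  · rw [qz_pow, ← zpow_add₀ q_ne, hQ]
  · have := (I_one_sub hn (e := (n : ℤ) * s) (Dvd.intro _ rfl)).neg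
    rwa [neg_sub] at this
  · rw [Fintype.prod_option, Fintype.prod_option, Fin.prod_univ_four]
    simp only [eb, es, ← zpow_neg, ← zpow_add₀ q_ne, qz_pow]
    congr 1
    push_cast
    ring
  · have e1 : ∀ j : JE, ∏ i ∈ range N, (-((q : RatFunc ℚ) ^ es α j * (q ^ (4 : ℤ)) ^ i)⁻¹) =
        (-1) ^ N * q ^ (-(es α j * N + 4 * ((∑ i ∈ range N, i : ℕ) : ℤ))) :=
      fun j => prod_neg_inv' _ _ _
    rw [prod_congr rfl fun j _ => e1 j, prod_mul_distrib, prod_const, card_univ,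
      Fintype.prod_option, Fintype.prod_option, Fin.prod_univ_four]
    have e2 : ((-1 : RatFunc ℚ) ^ N) ^ Fintype.card JE = 1 := by
      rw [← pow_mul]
      have : Fintype.card JE = 6 := by simp [JE]
      rw [this, pow_mul', show ((-1 : RatFunc ℚ)) ^ 6 = 1 by norm_num, one_pow]
    rw [e2, one_mul, ← zpow_neg, qz_pow]
    simp only [es, ← zpow_add₀ q_ne]
    have e3 := two_tri' N
    set E : ℤ := -α + (6 - 2 * α) * N +
      (-(4 * (N : ℤ) + 4 * ((∑ i ∈ range N, i : ℕ) : ℤ)) +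
        (-((2 + α) * (N : ℤ) + 4 * ((∑ i ∈ range N, i : ℕ) : ℤ)) +
          (-(4 * (N : ℤ) + 4 * ((∑ i ∈ range N, i : ℕ) : ℤ)) +
            -(4 * (N : ℤ) + 4 * ((∑ i ∈ range N, i : ℕ) : ℤ)) +
            -(4 * (N : ℤ) + 4 * ((∑ i ∈ range N, i : ℕ) : ℤ)) +
            -(4 * (N : ℤ) + 4 * ((∑ i ∈ range N, i : ℕ) : ℤ))))) with hE
    have h2 : (n : ℤ) ∣ E := by
      refine ⟨-(s * (3 * N + 1)), ?_⟩
      rw [hE]
      linear_combination (-(3 * (N : ℤ) + 1)) * hQ - 12 * e3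
    have := (I_one_sub hn h2).neg
    rwa [neg_sub] at this

end

end V11316
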