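import Pool.Agent.V11316.E6

/-!
Exact zeros of the family `GE`, and the divisibility by `Φ_n⁴` of its value at `0`.
-/

open Finset Polynomial

namespace V11316

open V11307.Q

noncomputable section

/-- the special points -/
def wE (t u : ℤ) : Option (Fin 4) → ℤ
  | none => 3 - u
  | some i => ![1 + t, -t, -1 + u, -3] i

theorem wE_sum (t u : ℤ) : ∑ i, wE t u i = 0 := by
  rw [Fintype.sum_option, Fin.sum_univ_four]
  simp [wE]
  ring

theorem wE_t (t : ℤ) : wE t 0 = wE 0 0 + t • (Pi.single (some 0) 1 - Pi.single (some 1) 1) := by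
  funext i
  rcases i with _ | i
  · simp [wE]
  · fin_cases i <;> simp [wE, Pi.single_apply]

theorem wE_u (u : ℤ) : wE 0 u = wE 0 0 + u • (Pi.single (some 2) 1 - Pi.single none 1) := by
  funext i
  rcases i with _ | i
  · simp [wE]; ring
  · fin_cases i <;> simp [wE, Pi.single_apply]

theorem vanE {n N h' e : ℕ} {α t u : ℤ} (hα : α = 1 ∨ α = -1) (hn : (n : ℤ) + α = 4 * h' + 4)
    (hN : 4 * (N : ℤ) = 3 * n - α) (he : 2 * (e : ℤ) = n - 1)
    (ht1 : ∀ i : ℕ, α + n * (1 + t) - 4 * h' + 4 * i ≠ 0)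
    (ht2 : ∀ i : ℕ, α + n * (-t) - 4 * h' + 4 * i ≠ 0)
    (hu1 : ∀ i : ℕ, α + n * (-1 + u) - 4 * e + 4 * i ≠ 0)
    (hu2 : ∀ i : ℕ, 2 + n * (3 - u) - 4 * e + 4 * i ≠ 0)
    (hD : ∀ i : ℕ, n * (3 - u) - (2 + α + 4 * i) ≠ 0) :
    GE n N α (wE t u) = 0 := by
  have hα1 : α * α = 1 := by rcases hα with rfl | rfl <;> norm_num
  set a : RatFunc ℚ := q ^ α with ha
  set B : RatFunc ℚ := q ^ (4 : ℤ) with hB
  set Pt := pairP B (q ^ (α + n * (1 + t) - 4 * h')) (q ^ (α + n * (-t) - 4 * h')) h' with hPt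
  set Pu := pairP B (q ^ (α + n * (-1 + u) - 4 * e)) (q ^ (2 + n * (3 - u) - 4 * e)) e with hPu
  have hc : IsCoprime (n : ℤ) 4 := by
    rcases hα with rfl | rfl
    · exact ⟨-1, h' + 1, by linear_combination -hn⟩
    · exact ⟨1, -(h' + 1), by linear_combination hn⟩
  refine Gn_zero (N := N) le_rfl (fun j => ?_) (qz_ne _) (fun i => ?_) (fun i => ?_)
    (Pt * Pu) ?_ ?_
  · rw [prod_ne_zero_iff]
    intro i hi
    have hi' := mem_range.1 hi
    rw [df, qn_zpow, qz_pow, ← zpow_add₀ q_ne]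
    have key : (n : ℤ) * lS j (wE t u) - (es α j + 4 * i) ≠ 0 := by
      rcases j with _ | _ | j
      · simp only [lS_none, es]; omega
      · simp only [lS_some, es, wE]; exact hD i
      · simp only [lS_some, es]
        intro h0
        have h1 : (n : ℤ) ∣ 4 * (i + 1) := ⟨wE t u (some j), by linear_combination -h0⟩
        have h2 := hc.dvd_of_dvd_mul_left h1
        have h3 := Int.le_of_dvd (by positivity) h2
        rcases hα with rfl | rfl <;> omega
    intro h
    apply qz_ne_one key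
    rw [zpow_sub₀ q_ne, sub_eq_zero.1 h, div_self (qz_ne _)]
  · rw [qz_pow]
    refine qz_ne_one ?_
    push_cast
    positivity
  · rw [qz_pow, ← zpow_add₀ q_ne]
    refine qz_ne_one ?_
    push_cast
    rcases hα with rfl | rfl <;> omega
  · refine lt_of_le_of_lt degree_le_natDegree ?_
    have h1 : (Pt * Pu).natDegree ≤ h' + e :=
      natDegree_mul_le.trans (add_le_add (pairP_natDegree _ _ _ _) (pairP_natDegree _ _ _ _))
    have h2 : (Pt * Pu).natDegree < N := by
      refine lt_of_le_of_lt h1 ?_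
      rcases hα with rfl | rfl <;> omega
    exact_mod_cast h2
  · intro k _
    rw [Fintype.prod_option, Fintype.prod_option, Fin.prod_univ_four]
    simp only [lS_none, lS_some, zpow_zero, eb, es, Tk_one]
    have m0 : wE t u (some 0) = 1 + t := rfl
    have m1 : wE t u (some 1) = -t := rfl
    have m2 : wE t u (some 2) = -1 + u := rfl
    have m3 : wE t u (some 3) = -3 := rfl
    have m4 : wE t u none = 3 - u := rfl
    rw [m0, m1, m2, m3, m4]
    have p1 := std_term (n := n) (N := N) (α := α) (d := 4) (c := -3)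
      (by linear_combination hN) k
    have p2 := gen_pair (n := n) (α := α) (d := 4) (b1 := α) (s1 := 4) (b2 := α) (s2 := 4)
      (c := 1 + t) (c' := -t) (e := h') rfl rfl (by linear_combination hn) ht1 ht2 k
    have p3 := gen_pair (n := n) (α := α) (d := 4) (b1 := α) (s1 := 4) (b2 := 2) (s2 := 2 + α)
      (c := -1 + u) (c' := 3 - u) (e := e) rfl (by ring) (by linear_combination -2 * he) hu1 hu2 k
    rw [p1]
    have e1 : (q ^ (6 - 2 * α) : RatFunc ℚ) ^ k * (q ^ (α + 4 * (N : ℤ))) ^ k *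
        (q ^ (α + α - α - 4)) ^ k * (q ^ (α + 2 - α - 4)) ^ k = (B ^ N) ^ k := by
      simp only [hB, qz_pow, ← zpow_add₀ q_ne]
      congr 1
      ring
    rw [eval_mul, ← e1]
    linear_combination
      ((q ^ (6 - 2 * α)) ^ k * (poch B a k / poch B B k) *
        (poch B (B ^ N)⁻¹ k / poch B (a * B ^ (N + 1)) k * (q ^ (α + 4 * (N : ℤ))) ^ k) *
        (Tk B ((q ^ n) ^ (-1 + u)) a B k * Tk B ((q ^ n) ^ (3 - u)) (q ^ (2 : ℤ)) (q ^ (2 + α)) k))
        * p2 +
      ((q ^ (6 - 2 * α)) ^ k * (poch B a k / poch B B k) *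
        (poch B (B ^ N)⁻¹ k / poch B (a * B ^ (N + 1)) k * (q ^ (α + 4 * (N : ℤ))) ^ k) *
        (Pt.eval (wy a B k) * (q ^ (α + α - α - 4)) ^ k)) * p3

/-- the main congruence -/
theorem GE_four {n N : ℕ} {α : ℤ} (hα : α = 1 ∨ α = -1) (hn1 : 1 < n) (h4 : (4 : ℤ) ∣ n + α)
    (hN : 4 * (N : ℤ) = 3 * n - α) : I n 4 (GE n N α 0) := by
  have hα1 : α * α = 1 := by rcases hα with rfl | rfl <;> norm_num
  obtain ⟨h, hh⟩ := h4
  obtain ⟨h', rfl⟩ : ∃ h' : ℕ, h = h' + 1 := ⟨(h - 1).toNat, by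
    rcases hα with rfl | rfl <;> omega⟩
  have hn : (n : ℤ) + α = 4 * h' + 4 := by linear_combination hh
  obtain ⟨e, he⟩ : ∃ e : ℕ, 2 * (e : ℤ) = n - 1 := ⟨(n - 1) / 2, by
    rcases hα with rfl | rfl <;> omega⟩
  obtain ⟨g, hg, hG⟩ := GE_anti (n := n) (L := N) (N := N) (m := 3) (α := α) (s := 3) hα1
    (by omega) le_rfl (by linear_combination hN)
  have hz : ∀ t u : ℤ, ((t = 0 ∨ t = 1 ∨ t = -1) ∧ u = 0) ∨ (t = 0 ∧ (u = 1 ∨ u = -1)) →
      g (wE t u) = 0 := by
    intro t u htu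
    have h0 := vanE (n := n) (N := N) (h' := h') (e := e) (α := α) (t := t) (u := u) hα hn hN he
      (fun i => by
        rcases htu with ⟨rfl | rfl | rfl, rfl⟩ | ⟨rfl, rfl | rfl⟩ <;>
          rcases hα with rfl | rfl <;> omega)
      (fun i => by
        rcases htu with ⟨rfl | rfl | rfl, rfl⟩ | ⟨rfl, rfl | rfl⟩ <;>
          rcases hα with rfl | rfl <;> omega)
      (fun i => by
        rcases htu with ⟨rfl | rfl | rfl, rfl⟩ | ⟨rfl, rfl | rfl⟩ <;>
          rcases hα with rfl | rfl <;> omega)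
      (fun i => by
        rcases htu with ⟨rfl | rfl | rfl, rfl⟩ | ⟨rfl, rfl | rfl⟩ <;>
          rcases hα with rfl | rfl <;> omega)
      (fun i => by
        rcases htu with ⟨rfl | rfl | rfl, rfl⟩ | ⟨rfl, rfl | rfl⟩ <;>
          rcases hα with rfl | rfl <;> omega)
    rw [hG] at h0
    exact (mul_eq_zero.1 h0).resolve_left (cyc_ne _)
  have hgs : ∀ (σ : Equiv.Perm (Fin 4)) c, g (c ∘ (Equiv.optionCongr σ)) = g c := by
    intro σ c
    have := GE_symm (n := n) (L := N) (α := α) σ c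
    rw [hG, hG] at this
    exact mul_left_cancel₀ (cyc_ne _) this
  have hq : ∀ c, g c = 0 → ((g c : RatFunc ℚ) : RatFunc ℚ ⧸ Isg n 3) = 0 := by
    intro c hc; rw [hc]; rfl
  have h3 := quad_const2 (A := RatFunc ℚ ⧸ Isg n 3) (fun a z hz h => quot_tor a hz h)
    (fun c => ((g c : RatFunc ℚ) : RatFunc ℚ ⧸ Isg n 3)) (third_zero hg)
    (fun σ c => by rw [hgs]) (wE 0 0) (wE_sum 0 0) (i0 := 0) (j0 := 1) (i1 := 2) (by decide)
    (hq _ (hz 0 0 (by simp)))
    (hq _ (by
      have := hz 1 0 (by simp)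
      rwa [wE_t, one_smul] at this))
    (hq _ (by
      have := hz (-1) 0 (by simp)
      rwa [wE_t, neg_one_smul, ← sub_eq_add_neg] at this))
    (hq _ (by
      have := hz 0 1 (by simp)
      rwa [wE_u, one_smul] at this))
    (hq _ (by
      have := hz 0 (-1) (by simp)
      rwa [wE_u, neg_one_smul, ← sub_eq_add_neg] at this))
  have h5 : I n 3 (g 0) := by
    rw [← mem_Isg, ← QuotientAddGroup.eq_zero_iff]; exact h3
  rw [hG]
  exact I_of_cyc_mul h5

end

end V11316
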