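import Pool.Agent.V11316.E6b

/-!
Block sums: the parameters multiplied by a common power of `q^d`.
-/

open Finset Polynomial

namespace V11316

open V11307.Q

noncomputable section

/-- the sum over the common denominator, all parameters multiplied by `q^z` -/
def fE (N : ℕ) (α z : ℤ) : RatFunc ℚ :=
  ∑ k ∈ range (N + 1), (1 - q ^ (α + 2 * z + 8 * k)) * (q ^ (6 - 2 * α)) ^ k *
    ∏ j : JE, (poch (q ^ (4 : ℤ)) (q ^ (eb α j + z)) k *
      poch (q ^ (4 : ℤ)) (q ^ (es α j + z + 4 * k)) (N - k))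

theorem poch_rev (β s : ℤ) (k : ℕ) :
    poch (q ^ β : RatFunc ℚ) (q ^ s) k = (-1) ^ k * q ^ (s * k + β * ((∑ i ∈ range k, i : ℕ) : ℤ)) *
      poch (q ^ β) (q ^ (-s - β * (k - 1))) k := by
  have h1 : poch (q ^ β : RatFunc ℚ) (q ^ s) k =
      ∏ i ∈ range k, ((-1) * q ^ (s + β * i) * (1 - q ^ (-s - β * i))) := by
    rw [poch]
    refine prod_congr rfl fun i _ => ?_
    have e1 : (q ^ (s + β * i) : RatFunc ℚ) * q ^ (-s - β * i) = 1 := by
      rw [← zpow_add₀ q_ne]; simp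
    rw [qz_pow, ← zpow_add₀ q_ne]
    linear_combination -e1
  have h2 : ∏ i ∈ range k, (1 - q ^ (-s - β * (i : ℤ)) : RatFunc ℚ) =
      poch (q ^ β) (q ^ (-s - β * (k - 1))) k := by
    rw [poch, ← prod_range_reflect]
    refine prod_congr rfl fun i hi => ?_
    have hi' := mem_range.1 hi
    rw [qz_pow, ← zpow_add₀ q_ne]
    congr 2
    have : ((k - 1 - i : ℕ) : ℤ) = k - 1 - i := by omega
    rw [this]; ring
  have h3 : ∏ i ∈ range k, (q ^ (s + β * (i : ℤ)) : RatFunc ℚ) =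
      q ^ (s * k + β * ((∑ i ∈ range k, i : ℕ) : ℤ)) := by
    clear h1 h2
    induction k with
    | zero => simp
    | succ k ih =>
      rw [prod_range_succ, ih, ← zpow_add₀ q_ne, sum_range_succ]
      congr 1; push_cast; ring
  rw [h1, prod_mul_distrib, prod_mul_distrib, prod_const, card_range, h2, h3]

theorem fE_rev (N : ℕ) (α : ℤ) :
    fE N α (-(α + 4 * N)) =
      (-(q ^ (-α - 8 * N - (6 - 2 * α) * N + (12 * N - (5 * α + 2) * N - 12 * (N : ℤ) * N)))) *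
        fE N α 0 := by
  rw [fE, fE, mul_sum, ← sum_range_reflect]
  refine sum_congr rfl fun k hk => ?_
  have hk' : k ≤ N := Nat.lt_succ_iff.1 (mem_range.1 hk)
  obtain ⟨l, rfl⟩ := Nat.exists_eq_add_of_le hk'
  have e0 : k + l + 1 - 1 - k = l := by omega
  rw [e0]
  have e1 : k + l - k = l := by omega
  have e1' : k + l - l = k := by omega
  rw [e1, e1']
  have hj : ∀ j : JE, poch (q ^ (4 : ℤ)) (q ^ (eb α j + -(α + 4 * ((k + l : ℕ) : ℤ)))) l *
      poch (q ^ (4 : ℤ)) (q ^ (es α j + -(α + 4 * ((k + l : ℕ) : ℤ)) + 4 * l)) k =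
      ((-1) ^ (k + l) * q ^ ((eb α j - es α j) * l + 2 * (k + l) - eb α j * (k + l) -
        2 * ((k : ℤ) + l) * (k + l))) * (poch (q ^ (4 : ℤ)) (q ^ (eb α j + 0)) k *
      poch (q ^ (4 : ℤ)) (q ^ (es α j + 0 + 4 * k)) l) := by
    intro j
    rw [poch_rev 4 (eb α j + -(α + 4 * ((k + l : ℕ) : ℤ))) l,
      poch_rev 4 (es α j + -(α + 4 * ((k + l : ℕ) : ℤ)) + 4 * l) k]
    have hs := eb_es α j
    have f1 : -(eb α j + -(α + 4 * ((k + l : ℕ) : ℤ))) - 4 * ((l : ℤ) - 1) =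
        es α j + 0 + 4 * k := by push_cast; linear_combination -hs
    have f2 : -(es α j + -(α + 4 * ((k + l : ℕ) : ℤ)) + 4 * l) - 4 * ((k : ℤ) - 1) =
        eb α j + 0 := by push_cast; linear_combination -hs
    rw [f1, f2]
    have f3 : ((eb α j - es α j) * l + 2 * (k + l) - eb α j * (k + l) -
        2 * ((k : ℤ) + l) * (k + l)) =
        ((eb α j + -(α + 4 * ((k + l : ℕ) : ℤ))) * l + 4 * ((∑ i ∈ range l, i : ℕ) : ℤ)) +
        ((es α j + -(α + 4 * ((k + l : ℕ) : ℤ)) + 4 * l) * k +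
          4 * ((∑ i ∈ range k, i : ℕ) : ℤ)) := by
      have t1 := two_tri' l
      have t2 := two_tri' k
      push_cast at t1 t2 ⊢
      linear_combination -2 * t1 - 2 * t2 - ((k : ℤ) + l) * hs
    rw [f3, zpow_add₀ q_ne (_ * _ + _) (_ * _ + _), pow_add]
    ring
  rw [prod_congr rfl fun j _ => hj j, prod_mul_distrib, prod_mul_distrib, prod_const, card_univ]
  have e2 : ((-1 : RatFunc ℚ) ^ (k + l)) ^ Fintype.card JE = 1 := by
    rw [← pow_mul]
    have : Fintype.card JE = 6 := by simp [JE]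
    rw [this, pow_mul', show ((-1 : RatFunc ℚ)) ^ 6 = 1 by norm_num, one_pow]
  rw [e2, one_mul]
  have e3 : ∏ j : JE, (q : RatFunc ℚ) ^ ((eb α j - es α j) * l + 2 * (k + l) - eb α j * (k + l) -
        2 * ((k : ℤ) + l) * (k + l)) =
      q ^ ((4 * α - 20) * l + 12 * (k + l) - (5 * α + 2) * (k + l) -
        12 * ((k : ℤ) + l) * (k + l)) := by
    rw [Fintype.prod_option, Fintype.prod_option, Fin.prod_univ_four]
    simp only [eb, es, ← zpow_add₀ q_ne]
    congr 1; ring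
  rw [e3]
  have e4 : (1 : RatFunc ℚ) - q ^ (α + 2 * -(α + 4 * ((k + l : ℕ) : ℤ)) + 8 * (l : ℤ)) =
      (-(q ^ (-α - 8 * (k : ℤ)))) * (1 - q ^ (α + 2 * 0 + 8 * (k : ℤ))) := by
    have e5 : (q ^ (-α - 8 * (k : ℤ)) : RatFunc ℚ) * q ^ (α + 2 * 0 + 8 * (k : ℤ)) = 1 := by
      rw [← zpow_add₀ q_ne]; simp
    have e6 : (α + 2 * -(α + 4 * ((k + l : ℕ) : ℤ)) + 8 * (l : ℤ)) = -α - 8 * k := by
      push_cast; ring
    rw [e6]
    linear_combination -e5
  rw [e4]
  have e7 : (q : RatFunc ℚ) ^ (-α - 8 * (k : ℤ)) * (q ^ (6 - 2 * α)) ^ l *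
      q ^ ((4 * α - 20) * l + 12 * (k + l) - (5 * α + 2) * (k + l) -
        12 * ((k : ℤ) + l) * (k + l)) =
      q ^ (-α - 8 * ((k + l : ℕ) : ℤ) - (6 - 2 * α) * ((k + l : ℕ) : ℤ) +
        (12 * ((k + l : ℕ) : ℤ) - (5 * α + 2) * ((k + l : ℕ) : ℤ) -
          12 * ((k + l : ℕ) : ℤ) * ((k + l : ℕ) : ℤ))) * (q ^ (6 - 2 * α)) ^ k := by
    rw [qz_pow, qz_pow, ← zpow_add₀ q_ne, ← zpow_add₀ q_ne, ← zpow_add₀ q_ne]
    congr 1; push_cast; ring
  linear_combination (-(1 - q ^ (α + 2 * 0 + 8 * (k : ℤ))) *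
    ∏ j : JE, (poch (q ^ (4 : ℤ)) (q ^ (eb α j + 0)) k *
      poch (q ^ (4 : ℤ)) (q ^ (es α j + 0 + 4 * k)) l)) * e7

theorem fE_zero {n N : ℕ} (α : ℤ) : fE N α 0 = GE n N α 0 := by
  rw [fE, GE, Gn]
  refine sum_congr rfl fun k _ => ?_
  rw [Un]
  congr 1
  · congr 1
    congr 1
    rw [qz_pow, ← zpow_add₀ q_ne]; congr 1; push_cast; ring
  · refine prod_congr rfl fun j _ => ?_
    rw [pf, poch, poch, prod_Ico_eq_prod_range]
    congr 1
    · refine prod_congr rfl fun i _ => ?_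
      rw [nf, map_zero, zpow_zero, mul_one, add_zero]
    · refine prod_congr rfl fun i _ => ?_
      rw [df, map_zero, zpow_zero, qz_pow, qz_pow, ← zpow_add₀ q_ne, ← zpow_add₀ q_ne]
      congr 2; push_cast; ring

/-- the function `y ↦ fE N α (n y)` is in the difference class -/
theorem fE_an {n m : ℕ} (hn : 0 < n) (N : ℕ) (α : ℤ) :
    AQ n m (fun y : ℤ => fE N α (n * y)) := by
  have hQ : AQ n m (fun y : ℤ => (q ^ n : RatFunc ℚ) ^ y) := AQ_Q hn (AddMonoidHom.id ℤ)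
  have hs : ∀ s : ℤ, AQ n m (fun y : ℤ => (q ^ (s + n * y) : RatFunc ℚ)) := by
    intro s
    refine (An.smul (qz_mem hn s) hQ).congr fun y => ?_
    rw [qn_zpow, ← zpow_add₀ q_ne]
  refine An.sum _ fun k _ => An.mul (An.mul ((An.const (one_mem _)).sub ?_) (An.const ?_))
    (An.prod _ fun j _ => An.mul (AQ_poch (qz_mem hn _) ?_ k) (AQ_poch (qz_mem hn _) ?_ _))
  · refine ((hs 0).pow 2 |>.smul (qz_mem hn (α + 8 * k))).congr fun y => ?_
    rw [qz_pow, ← zpow_add₀ q_ne]; congr 1; push_cast; ring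
  · exact pow_mem (qz_mem hn _) _
  · exact hs _
  · refine (hs (es α j + 4 * k)).congr fun y => ?_
    congr 1; ring

/-- weak case -/
theorem fE_weak {n N : ℕ} {α : ℤ} (hα : α = 1 ∨ α = -1) (hn1 : 1 < n)
    (hN : 4 * (N : ℤ) = n - α) (y : ℤ) : I n 1 (fE N α (n * y)) := by
  have hα1 : α * α = 1 := by rcases hα with rfl | rfl <;> norm_num
  obtain ⟨g, hg, hG⟩ := GE_anti (n := n) (L := N) (N := N) (m := 0) (α := α) (s := 1) hα1
    (by omega) le_rfl (by linear_combination hN)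
  have h0 : I n 1 (fE N α (n * 0)) := by
    rw [mul_zero, fE_zero (n := n), hG]
    exact ⟨g 0, hg 0, by rw [pow_one]⟩
  obtain ⟨u, hu, hu1⟩ := (fE_an (n := n) (m := 1) (by omega) N α).2 y
  have h1 := hu1 0
  beta_reduce at h1
  rw [zero_add] at h1
  have h2 : fE N α (n * y) = fE N α (n * 0) + cyc n * u 0 := by linear_combination h1
  rw [h2]
  exact h0.add ⟨u 0, hu 0, by rw [pow_one]⟩

/-- a map on `ℤ` with vanishing second differences and two zeros vanishes -/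
theorem affine_two {A : Type*} [AddCommGroup A]
    (htor : ∀ (a : A) (z : ℤ), z ≠ 0 → z • a = 0 → a = 0)
    (G : ℤ → A) (h2 : ∀ c u v, G (c + u + v) - G (c + u) - G (c + v) + G c = 0)
    (h0 : G 0 = 0) {r : ℤ} (hr : r ≠ 0) (h1 : G r = 0) (y : ℤ) : G y = 0 := by
  let H : ℤ →+ A := AddMonoidHom.mk' G (by
    intro u v
    have := h2 0 u v
    simp only [zero_add, h0, add_zero] at this
    rw [← sub_eq_zero, ← this]; abel)
  have hH : ∀ y, H y = G y := fun y => rfl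
  have e1 : ∀ y, H y = y • H 1 := by
    intro y
    conv_lhs => rw [← mul_one y, ← smul_eq_mul, map_zsmul]
  have e2 : H 1 = 0 := by
    apply htor _ r hr
    rw [← e1, hH, h1]
  rw [← hH, e1, e2, smul_zero]

/-- strong case -/
theorem fE_strong {n N : ℕ} {α : ℤ} (hα : α = 1 ∨ α = -1) (hn1 : 1 < n) (h4 : (4 : ℤ) ∣ n + α)
    (hN : 4 * (N : ℤ) = 3 * n - α) (y : ℤ) : I n 2 (fE N α (n * y)) := by
  have hn0 : 0 < n := by omega
  have h0 : I n 2 (fE N α 0) := by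
    rw [fE_zero (n := n)]
    exact (GE_four hα hn1 h4 hN).mono (by norm_num)
  have h3 : I n 2 (fE N α (n * (-3))) := by
    have e1 : (n : ℤ) * (-3) = -(α + 4 * N) := by linear_combination hN
    rw [e1, fE_rev]
    exact I.R_mul (neg_mem (qz_mem hn0 _)) h0
  have han := fE_an (n := n) (m := 2) hn0 N α
  have h4 := affine_two (A := RatFunc ℚ ⧸ Isg n 2) (fun a z hz h => quot_tor a hz h)
    (fun y => ((fE N α (n * y) : RatFunc ℚ) : RatFunc ℚ ⧸ Isg n 2))
    (by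
      intro c u v
      obtain ⟨y, hy, h⟩ := han.diff2 u v c
      beta_reduce
      rw [← QuotientAddGroup.mk_sub, ← QuotientAddGroup.mk_sub, ← QuotientAddGroup.mk_add,
        QuotientAddGroup.eq_zero_iff, mem_Isg]
      exact ⟨y, hy, h⟩)
    (by
      beta_reduce
      rw [QuotientAddGroup.eq_zero_iff, mem_Isg, mul_zero]; exact h0)
    (r := -3) (by norm_num)
    (by
      beta_reduce
      rw [QuotientAddGroup.eq_zero_iff, mem_Isg]; exact h3) y
  beta_reduce at h4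
  rwa [QuotientAddGroup.eq_zero_iff, mem_Isg] at h4

end

end V11316
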