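import Pool.Agent.V11316.QAn

/-!
Divisibility of a numerator by `[n]` and `[n] Φ_n²`.
-/

open Finset Polynomial

namespace V11316

open V11307.Q

theorem cyc_pair_coprime {a b : ℕ} (h : a ≠ b) :
    IsCoprime (cyclotomic a ℚ) (cyclotomic b ℚ) := cyclotomic.isCoprime_rat h

/-- `[n]` divides the numerator if every `Φ_d`, `1 < d ∣ n`, does -/
theorem qint_dvd {n : ℕ} (hn : 0 < n) {x : RatFunc ℚ}
    (h : ∀ d, d ∣ n → 1 < d → I d 1 x) : (∑ i ∈ range n, X ^ i : ℚ[X]) ∣ x.num := by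
  rw [← prod_cyclotomic_eq_geom_sum hn ℚ]
  refine Finset.prod_dvd_of_coprime (fun a _ b _ hab => cyc_pair_coprime hab) fun d hd => ?_
  have hd1 := mem_erase.1 hd
  have hd2 := Nat.mem_divisors.1 hd1.2
  have hd0 : 0 < d := Nat.pos_of_dvd_of_pos hd2.1 hn
  have h1 := (h d hd2.1 (by omega)).num_dvd hd0
  rwa [pow_one] at h1

/-- `[n] Φ_n^k` divides the numerator -/
theorem qint_phi_dvd {n : ℕ} (hn : 1 < n) (k : ℕ) {x : RatFunc ℚ}
    (h : ∀ d, d ∣ n → 1 < d → I d 1 x) (h3 : I n (k + 1) x) :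
    (∑ i ∈ range n, X ^ i : ℚ[X]) * cyclotomic n ℚ ^ k ∣ x.num := by
  have hn0 : 0 < n := by omega
  rw [← prod_cyclotomic_eq_geom_sum hn0 ℚ]
  have hmem : n ∈ n.divisors.erase 1 :=
    mem_erase.2 ⟨by omega, Nat.mem_divisors.2 ⟨dvd_rfl, by omega⟩⟩
  rw [← prod_erase_mul _ _ hmem, mul_assoc, ← pow_succ']
  refine IsCoprime.mul_dvd ?_ ?_ ?_
  · refine IsCoprime.pow_right ?_
    refine IsCoprime.prod_left fun d hd => ?_
    exact cyc_pair_coprime (ne_of_mem_erase hd)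
  · refine Finset.prod_dvd_of_coprime (fun a _ b _ hab => cyc_pair_coprime hab) fun d hd => ?_
    have hd1 := mem_erase.1 (mem_of_mem_erase hd)
    have hd2 := Nat.mem_divisors.1 hd1.2
    have hd0 : 0 < d := Nat.pos_of_dvd_of_pos hd2.1 hn0
    have h1 := (h d hd2.1 (by omega)).num_dvd hd0
    rwa [pow_one] at h1
  · exact h3.num_dvd hn0

end V11316
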