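import Pool.Agent.V11316.E6c
import Pool.Agent.V11316.QInt

/-!
The sums `∑_{k<n} [8k+α] q^{(6-2α)k} (q^α;q⁴)_k^5 (q²;q⁴)_k / ((q⁴;q⁴)_k^5 (q^{2+α};q⁴)_k)`.
-/

open Finset Polynomial

namespace V11316

open V11307.Q

noncomputable section

/-- the term, all parameters multiplied by `q^{4x}` -/
def TE (α : ℤ) (x k : ℕ) : RatFunc ℚ :=
  (1 - q ^ (α + 2 * (4 * x : ℤ) + 8 * k)) * (q ^ (6 - 2 * α)) ^ k *
    ∏ j : JE, (poch (q ^ (4 : ℤ)) (q ^ (eb α j + 4 * x)) k /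
      poch (q ^ (4 : ℤ)) (q ^ (es α j + 4 * x)) k)

/-- the common factor of a block -/
def CE (α : ℤ) (x : ℕ) : RatFunc ℚ :=
  (q ^ (6 - 2 * α)) ^ x * ∏ j : JE, (poch (q ^ (4 : ℤ)) (q ^ eb α j) x /
      poch (q ^ (4 : ℤ)) (q ^ es α j) x)

theorem es_ne {α : ℤ} (hα : α = 1 ∨ α = -1) (j : JE) (x i : ℕ) :
    es α j + 4 * (x : ℤ) + 4 * i ≠ 0 := by
  rcases j with _ | _ | j <;> simp only [es] <;> rcases hα with rfl | rfl <;> omega

theorem es_ne' {α : ℤ} (hα : α = 1 ∨ α = -1) (j : JE) (i : ℕ) :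
    es α j + 4 * (i : ℤ) ≠ 0 := by
  rcases j with _ | _ | j <;> simp only [es] <;> rcases hα with rfl | rfl <;> omega

theorem TE_split {α : ℤ} (x k : ℕ) : TE α 0 (x + k) = CE α x * TE α x k := by
  have h1 : ∀ (s : ℤ), poch (q ^ (4 : ℤ) : RatFunc ℚ) (q ^ (s + 4 * ((0 : ℕ) : ℤ))) (x + k) =
      poch (q ^ (4 : ℤ)) (q ^ s) x * poch (q ^ (4 : ℤ)) (q ^ (s + 4 * x)) k := by
    intro s
    rw [poch_add, Nat.cast_zero, mul_zero, add_zero, qz_pow, ← zpow_add₀ q_ne]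
  rw [TE, TE, CE, prod_congr rfl fun j _ => by rw [h1, h1, mul_div_mul_comm], prod_mul_distrib,
    pow_add]
  have e1 : α + 2 * (4 * ((0 : ℕ) : ℤ)) + 8 * ((x + k : ℕ) : ℤ) =
      α + 2 * (4 * (x : ℤ)) + 8 * (k : ℤ) := by push_cast; ring
  rw [e1]
  ring

/-- the common factor is integral -/
theorem CE_mem {d : ℕ} (hd : 0 < d) (hc : IsCoprime (d : ℤ) 4) {α : ℤ} (hα : α = 1 ∨ α = -1)
    (i : ℕ) : CE α (d * i) ∈ R d := by
  rw [CE]
  refine mul_mem (pow_mem (qz_mem hd _) _) (prod_mem fun j _ => ?_)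
  have h := es_ne' hα j
  generalize es α j = s at h
  generalize eb α j = b
  induction i with
  | zero => simp
  | succ i ih =>
    rw [mul_add, mul_one, poch_add, poch_add, mul_div_mul_comm]
    refine mul_mem ih ?_
    rw [qz_pow, ← zpow_add₀ q_ne, ← zpow_add₀ q_ne]
    obtain ⟨i0, hi0, hd0⟩ := exists_dvd hd hc (b + 4 * ((d * i : ℕ) : ℤ))
    have h1 := poch_I hd hi0 hd0
    have h2 := inv_poch_mem hd (β := 4) (s := s + 4 * ((d * i : ℕ) : ℤ)) hc le_rfl (fun l => by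
      have := h (d * i + l)
      intro h0
      apply this
      push_cast at h0 ⊢
      linear_combination h0)
    rw [div_eq_mul_inv]
    exact (I_div h1 h2).mem

/-- denominators of the ordinary parameters -/
theorem unit4 {d : ℕ} (hd : 0 < d) (hc : IsCoprime (d : ℤ) 4) {x k : ℕ} (hx : d ∣ x) (hk : k < d) :
    (poch (q ^ (4 : ℤ) : RatFunc ℚ) (q ^ ((4 : ℤ) + 4 * x)) k)⁻¹ ∈ R d := by
  refine poch_inv_mem fun i hi => ?_
  rw [qz_pow, ← zpow_add₀ q_ne]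
  refine inv_one_sub_qz hd fun h => ?_
  have e1 : (4 : ℤ) + 4 * x + 4 * i = 4 * (x + (i + 1)) := by ring
  rw [e1] at h
  have h2 := hc.dvd_of_dvd_mul_left h
  have hx' : (d : ℤ) ∣ x := by exact_mod_cast hx
  have h3 := (dvd_add_right hx').1 h2
  have h4 := Int.le_of_dvd (by positivity) h3
  omega

theorem prod_JE (f : ℤ → ℤ → RatFunc ℚ) (α : ℤ) : ∏ j : JE, f (eb α j) (es α j) =
    f α 4 ^ 5 * f 2 (2 + α) := by
  rw [Fintype.prod_option, Fintype.prod_option, Fin.prod_univ_four]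
  simp only [eb, es]
  ring

/-- a term beyond `N` -/
theorem TE_tail {d N : ℕ} {α s : ℤ} (hα : α = 1 ∨ α = -1) (hd : 0 < d) (hc : IsCoprime (d : ℤ) 4)
    (hN : α + 4 * N = d * s) {x k : ℕ} (hx : d ∣ x) (hNk : N < k) (hk : k < d) :
    I d 4 (TE α x k) := by
  rw [TE]
  have h0 := prod_JE (fun b s => poch (q ^ (4 : ℤ)) (q ^ (b + 4 * (x : ℤ))) k /
      poch (q ^ (4 : ℤ)) (q ^ (s + 4 * (x : ℤ))) k) α
  beta_reduce at h0
  rw [h0]
  obtain ⟨x', rfl⟩ := hx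
  have h1 : I d 1 (poch (q ^ (4 : ℤ)) (q ^ (α + 4 * ((d * x' : ℕ) : ℤ))) k) := by
    refine poch_I hd hNk ⟨s + 4 * x', ?_⟩
    push_cast
    linear_combination hN
  have h2 := unit4 hd hc (x := d * x') (Dvd.intro _ rfl) hk
  have h3 := h1.mul_R h2
  have h4 : I d 5 ((poch (q ^ (4 : ℤ)) (q ^ (α + 4 * ((d * x' : ℕ) : ℤ))) k *
      (poch (q ^ (4 : ℤ)) (q ^ ((4 : ℤ) + 4 * ((d * x' : ℕ) : ℤ))) k)⁻¹) ^ 5) := by
    have := (((h3.mul h3).mul h3).mul h3).mul h3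
    refine (congrArg (I d 5) ?_).mp this
    ring
  have h5 := inv_poch_mem hd (β := 4) (s := 2 + α + 4 * ((d * x' : ℕ) : ℤ)) hc hk.le (fun i => by
    have := es_ne hα (some none) (d * x') i
    simpa [es] using this)
  have h6 := I_div h4 h5
  have h7 : (1 - q ^ (α + 2 * (4 * ((d * x' : ℕ) : ℤ)) + 8 * (k : ℤ)) : RatFunc ℚ) *
      (q ^ (6 - 2 * α)) ^ k * poch (q ^ (4 : ℤ)) (q ^ ((2 : ℤ) + 4 * ((d * x' : ℕ) : ℤ))) k ∈ R d :=
    mul_mem (mul_mem (sub_mem (one_mem _) (qz_mem hd _)) (pow_mem (qz_mem hd _) _))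
      (poch_mem hd _ _ _)
  refine (congrArg (I d 4) ?_).mp (I.R_mul h7 h6)
  rw [div_eq_mul_inv, div_eq_mul_inv]
  ring

/-- the common denominator -/
def DE (N : ℕ) (α : ℤ) (x : ℕ) : RatFunc ℚ :=
  ∏ j : JE, poch (q ^ (4 : ℤ)) (q ^ (es α j + 4 * x)) N

/-- the head of a block -/
theorem TE_head {N : ℕ} {α : ℤ} (hα : α = 1 ∨ α = -1) (x : ℕ) :
    ∑ k ∈ range (N + 1), TE α x k = fE N α (4 * x) * (DE N α x)⁻¹ := by
  rw [fE, sum_mul]
  refine sum_congr rfl fun k hk => ?_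
  have hk' : k ≤ N := Nat.lt_succ_iff.1 (mem_range.1 hk)
  obtain ⟨l, rfl⟩ := Nat.exists_eq_add_of_le hk'
  rw [TE, DE, mul_assoc _ (∏ j : JE, _) _, ← prod_inv_distrib, ← prod_mul_distrib,
    Nat.add_sub_cancel_left]
  congr 1
  refine prod_congr rfl fun j _ => ?_
  have h1 : poch (q ^ (4 : ℤ) : RatFunc ℚ) (q ^ (es α j + 4 * (x : ℤ))) (k + l) =
      poch (q ^ (4 : ℤ)) (q ^ (es α j + 4 * (x : ℤ))) k *
        poch (q ^ (4 : ℤ)) (q ^ (es α j + 4 * (x : ℤ) + 4 * k)) l := by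
    rw [poch_add, qz_pow, ← zpow_add₀ q_ne]
  have h2 : ∀ m, poch (q ^ (4 : ℤ) : RatFunc ℚ) (q ^ (es α j + 4 * (x : ℤ))) m ≠ 0 :=
    fun m => poch_qz_ne (es_ne hα j x)
  have h3 := h2 (k + l)
  rw [h1] at h3 ⊢
  have h5 := right_ne_zero_of_mul h3
  rw [← div_eq_mul_inv, mul_div_mul_right _ _ h5]

/-- the denominator in the weak case -/
theorem DE_weak {d N : ℕ} {α : ℤ} (hα : α = 1 ∨ α = -1) (hd : 1 < d) (hc : IsCoprime (d : ℤ) 4)
    (hN : 4 * (N : ℤ) = d - α) {x : ℕ} (hx : d ∣ x) : (DE N α x)⁻¹ ∈ R d := by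
  rw [DE, ← prod_inv_distrib]
  refine prod_mem fun j _ => ?_
  have hNd : N < d := by rcases hα with rfl | rfl <;> omega
  have hx' : (d : ℤ) ∣ 4 * x := by
    have : (d : ℤ) ∣ x := by exact_mod_cast hx
    exact this.mul_left 4
  have key : (poch (q ^ (4 : ℤ) : RatFunc ℚ) (q ^ (2 + α + 4 * (x : ℤ))) N)⁻¹ ∈ R d := by
    refine poch_inv_mem fun i hi => ?_
    rw [qz_pow, ← zpow_add₀ q_ne]
    refine inv_one_sub_qz (by omega) fun h => ?_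
    have h1 : (d : ℤ) ∣ 2 + α + 4 * i := by
      have := dvd_sub h hx'
      have e1 : 2 + α + 4 * (x : ℤ) + 4 * (i : ℤ) - 4 * x = 2 + α + 4 * i := by ring
      rwa [e1] at this
    have h2 := Int.le_of_dvd (by rcases hα with rfl | rfl <;> omega) h1
    rcases hα with rfl | rfl <;> omega
  rcases j with _ | _ | j
  · exact unit4 (by omega) hc hx hNd
  · exact key
  · exact unit4 (by omega) hc hx hNd

/-- the denominator in general -/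
theorem DE_strong {d N : ℕ} {α : ℤ} (hα : α = 1 ∨ α = -1) (hd : 0 < d) (hc : IsCoprime (d : ℤ) 4)
    (hNd : N < d) {x : ℕ} (hx : d ∣ x) : cyc d * (DE N α x)⁻¹ ∈ R d := by
  have h0 := prod_JE (fun _ s => poch (q ^ (4 : ℤ)) (q ^ (s + 4 * (x : ℤ))) N) α
  beta_reduce at h0
  rw [DE, h0, mul_inv, ← inv_pow]
  have h2 := unit4 hd hc hx hNd
  have h5 := inv_poch_mem hd (β := 4) (s := 2 + α + 4 * (x : ℤ)) hc hNd.le (fun i => by
    have := es_ne hα (some none) x i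
    simpa [es] using this)
  have e1 : cyc d * ((poch (q ^ (4 : ℤ)) (q ^ ((4 : ℤ) + 4 * (x : ℤ))) N)⁻¹ ^ 5 *
      (poch (q ^ (4 : ℤ)) (q ^ (2 + α + 4 * (x : ℤ))) N)⁻¹) =
      (poch (q ^ (4 : ℤ)) (q ^ ((4 : ℤ) + 4 * (x : ℤ))) N)⁻¹ ^ 5 *
        (cyc d * (poch (q ^ (4 : ℤ)) (q ^ (2 + α + 4 * (x : ℤ))) N)⁻¹) := by ring
  rw [e1]
  exact mul_mem (pow_mem h2 5) h5

theorem block_split {d N : ℕ} (hNd : N < d) {α : ℤ} (x : ℕ) :
    ∑ k ∈ range d, TE α x k = ∑ k ∈ range (N + 1), TE α x k + ∑ k ∈ Ico (N + 1) d, TE α x k :=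
  (sum_range_add_sum_Ico _ (by omega)).symm

/-- every block sum is divisible by `Φ_d` -/
theorem block_cong {d : ℕ} {α : ℤ} (hα : α = 1 ∨ α = -1) (hd : 1 < d) (ho : Odd d) {x : ℕ}
    (hx : d ∣ x) : I d 1 (∑ k ∈ range d, TE α x k) := by
  have hd0 : 0 < d := by omega
  obtain ⟨x', rfl⟩ := hx
  obtain ⟨t, ht⟩ := ho
  have hc : IsCoprime (d : ℤ) 4 := by
    have h2 : IsCoprime (d : ℤ) 2 := ⟨1, -t, by rw [ht]; push_cast; ring⟩
    have : (4 : ℤ) = 2 * 2 := by norm_num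
    rw [this]; exact h2.mul_right h2
  by_cases h4 : (4 : ℤ) ∣ d + α
  · -- strong
    obtain ⟨N, hN⟩ : ∃ N : ℕ, 4 * (N : ℤ) = 3 * d - α := ⟨(3 * (d : ℤ) - α).toNat / 4, by
      rcases hα with rfl | rfl <;> omega⟩
    have hNd : N < d := by rcases hα with rfl | rfl <;> omega
    rw [block_split hNd, TE_head hα]
    refine I.add ?_ (I.sum fun k hk => ?_)
    · have h1 := fE_strong hα hd h4 hN (4 * x')
      have e1 : (4 : ℤ) * ((d * x' : ℕ) : ℤ) = d * (4 * x') := by push_cast; ring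
      rw [e1]
      exact I_div h1 (DE_strong hα hd0 hc hNd (Dvd.intro _ rfl))
    · obtain ⟨h1, h2⟩ := mem_Ico.1 hk
      exact (TE_tail (s := 3) hα hd0 hc (by linear_combination hN) (Dvd.intro _ rfl) h1 h2).mono
        (by norm_num)
  · obtain ⟨N, hN⟩ : ∃ N : ℕ, 4 * (N : ℤ) = d - α := ⟨((d : ℤ) - α).toNat / 4, by
      rcases hα with rfl | rfl <;> omega⟩
    have hNd : N < d := by rcases hα with rfl | rfl <;> omega
    rw [block_split hNd, TE_head hα]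
    refine I.add ?_ (I.sum fun k hk => ?_)
    · have h1 := fE_weak hα hd hN (4 * x')
      have e1 : (4 : ℤ) * ((d * x' : ℕ) : ℤ) = d * (4 * x') := by push_cast; ring
      rw [e1]
      exact h1.mul_R (DE_weak hα hd hc hN (Dvd.intro _ rfl))
    · obtain ⟨h1, h2⟩ := mem_Ico.1 hk
      exact (TE_tail (s := 1) hα hd0 hc (by linear_combination hN) (Dvd.intro _ rfl) h1 h2).mono
        (by norm_num)

/-- the whole sum modulo `Φ_d`, `d ∣ n` -/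
theorem sum_cong {n d : ℕ} {α : ℤ} (hα : α = 1 ∨ α = -1) (hd : 1 < d) (ho : Odd n) (hdn : d ∣ n) :
    I d 1 (∑ k ∈ range n, TE α 0 k) := by
  obtain ⟨m, rfl⟩ := hdn
  have hod : Odd d := (Nat.odd_mul.1 ho).1
  have hd0 : 0 < d := by omega
  obtain ⟨t, ht⟩ := hod
  have hc : IsCoprime (d : ℤ) 4 := by
    have h2 : IsCoprime (d : ℤ) 2 := ⟨1, -t, by rw [ht]; push_cast; ring⟩
    have : (4 : ℤ) = 2 * 2 := by norm_num
    rw [this]; exact h2.mul_right h2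
  clear ho
  induction m with
  | zero => simpa using I.zero
  | succ m ih =>
    rw [mul_add, mul_one, sum_range_add]
    refine ih.add ?_
    have e1 : ∑ k ∈ range d, TE α 0 (d * m + k) =
        CE α (d * m) * ∑ k ∈ range d, TE α (d * m) k := by
      rw [mul_sum]; exact sum_congr rfl fun k _ => TE_split _ _
    rw [e1]
    exact I.R_mul (CE_mem hd0 hc hα m) (block_cong hα hd ⟨t, ht⟩ (Dvd.intro _ rfl))

/-- the whole sum modulo `Φ_n³` in the strong case -/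
theorem sum_cong3 {n : ℕ} {α : ℤ} (hα : α = 1 ∨ α = -1) (hn : 1 < n) (h4 : (4 : ℤ) ∣ n + α) :
    I n 3 (∑ k ∈ range n, TE α 0 k) := by
  have hn0 : 0 < n := by omega
  obtain ⟨N, hN⟩ : ∃ N : ℕ, 4 * (N : ℤ) = 3 * n - α := ⟨(3 * (n : ℤ) - α).toNat / 4, by
    rcases hα with rfl | rfl <;> omega⟩
  have hNd : N < n := by rcases hα with rfl | rfl <;> omega
  have hc : IsCoprime (n : ℤ) 4 := by
    obtain ⟨h, hh⟩ := h4
    rcases hα with rfl | rfl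
    · exact ⟨-1, h, by linear_combination -hh⟩
    · exact ⟨1, -h, by linear_combination hh⟩
  rw [block_split hNd, TE_head hα]
  refine I.add ?_ (I.sum fun k hk => ?_)
  · rw [Nat.cast_zero, mul_zero, fE_zero (n := n)]
    exact I_div (GE_four hα hn h4 hN) (DE_strong hα hn0 hc hNd (dvd_zero _))
  · obtain ⟨h1, h2⟩ := mem_Ico.1 hk
    exact (TE_tail (s := 3) hα hn0 hc (by linear_combination hN) (dvd_zero _) h1 h2).mono
      (by norm_num)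

theorem poch_double (a : RatFunc ℚ) (k : ℕ) :
    poch (q ^ 2) a (2 * k) = poch (q ^ 4) a k * poch (q ^ 4) (a * q ^ 2) k := by
  induction k with
  | zero => simp
  | succ k ih =>
    rw [show 2 * (k + 1) = 2 * k + 1 + 1 by ring, poch_succ, poch_succ, ih, poch_succ, poch_succ]
    have e1 : (q ^ 2 : RatFunc ℚ) ^ (2 * k) = (q ^ 4) ^ k := by rw [← pow_mul, ← pow_mul]; ring
    have e2 : (q ^ 2 : RatFunc ℚ) ^ (2 * k + 1) = q ^ 2 * (q ^ 4) ^ k := by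
      rw [pow_succ, e1]; ring
    rw [e1, e2]; ring

theorem q4_eq : (q ^ (4 : ℤ) : RatFunc ℚ) = q ^ 4 := by norm_cast

/-- the term of the first question -/
theorem TE_one (k : ℕ) : TE 1 0 k = (1 - q ^ (8 * k + 1)) * q ^ (4 * k) *
    (poch (q ^ 4) q k ^ 6 / poch (q ^ 4) (q ^ 4) k ^ 6 *
      (poch (q ^ 2) (q ^ 2) (2 * k) / poch (q ^ 2) q (2 * k))) := by
  have h0 := prod_JE (fun b s => poch (q ^ (4 : ℤ)) (q ^ (b + 4 * ((0 : ℕ) : ℤ))) k /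
      poch (q ^ (4 : ℤ)) (q ^ (s + 4 * ((0 : ℕ) : ℤ))) k) 1
  beta_reduce at h0
  rw [TE, h0, poch_double, poch_double, q4_eq]
  have e1 : (q ^ ((1 : ℤ) + 4 * ((0 : ℕ) : ℤ)) : RatFunc ℚ) = q := by norm_num
  have e2 : (q ^ ((4 : ℤ) + 4 * ((0 : ℕ) : ℤ)) : RatFunc ℚ) = q ^ 4 := by
    rw [Nat.cast_zero, mul_zero, add_zero]; norm_cast
  have e3 : (q ^ ((2 : ℤ) + 4 * ((0 : ℕ) : ℤ)) : RatFunc ℚ) = q ^ 2 := by
    rw [Nat.cast_zero, mul_zero, add_zero]; norm_cast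
  have e4 : (q ^ ((2 : ℤ) + 1 + 4 * ((0 : ℕ) : ℤ)) : RatFunc ℚ) = q * q ^ 2 := by
    rw [Nat.cast_zero, mul_zero, add_zero, zpow_add₀ q_ne]; norm_num; ring
  have e5 : (q ^ ((1 : ℤ) + 2 * (4 * ((0 : ℕ) : ℤ)) + 8 * k) : RatFunc ℚ) = q ^ (8 * k + 1) := by
    rw [← zpow_natCast]; congr 1; push_cast; ring
  have e6 : (q ^ ((6 : ℤ) - 2 * 1) : RatFunc ℚ) ^ k = q ^ (4 * k) := by
    rw [pow_mul]; norm_num
  have e7 : (q ^ 2 * q ^ 2 : RatFunc ℚ) = q ^ 4 := by ring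
  rw [e1, e2, e3, e4, e5, e6, e7]
  have n1 : poch (q ^ 4 : RatFunc ℚ) (q ^ 4) k ≠ 0 := poch_qm_ne (by norm_num) k
  have n2 : poch (q ^ 4 : RatFunc ℚ) q k ≠ 0 := by
    have := poch_qz_ne (β := 4) (z := 1) (k := k) (fun i => by omega)
    rwa [q4_eq, zpow_one] at this
  have n3 : poch (q ^ 4 : RatFunc ℚ) (q * q ^ 2) k ≠ 0 := by
    have := poch_qz_ne (β := 4) (z := 3) (k := k) (fun i => by omega)
    rwa [q4_eq, show (q ^ (3 : ℤ) : RatFunc ℚ) = q * q ^ 2 by norm_cast] at this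
  field_simp

/-- the term of the second question -/
theorem TE_neg (k : ℕ) : TE (-1) 0 k = (1 - q ^ (8 * (k : ℤ) - 1)) *
    (poch (q ^ 4) q⁻¹ k / poch (q ^ 4) (q ^ 4) k) ^ 6 *
      (poch (q ^ 2) (q ^ 2) (2 * k) / poch (q ^ 2) q⁻¹ (2 * k)) * q ^ (8 * k) := by
  have h0 := prod_JE (fun b s => poch (q ^ (4 : ℤ)) (q ^ (b + 4 * ((0 : ℕ) : ℤ))) k /
      poch (q ^ (4 : ℤ)) (q ^ (s + 4 * ((0 : ℕ) : ℤ))) k) (-1)
  beta_reduce at h0
  rw [TE, h0, poch_double, poch_double, q4_eq]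
  have e1 : (q ^ ((-1 : ℤ) + 4 * ((0 : ℕ) : ℤ)) : RatFunc ℚ) = q⁻¹ := by norm_num
  have e2 : (q ^ ((4 : ℤ) + 4 * ((0 : ℕ) : ℤ)) : RatFunc ℚ) = q ^ 4 := by
    rw [Nat.cast_zero, mul_zero, add_zero]; norm_cast
  have e3 : (q ^ ((2 : ℤ) + 4 * ((0 : ℕ) : ℤ)) : RatFunc ℚ) = q ^ 2 := by
    rw [Nat.cast_zero, mul_zero, add_zero]; norm_cast
  have e4 : (q ^ ((2 : ℤ) + -1 + 4 * ((0 : ℕ) : ℤ)) : RatFunc ℚ) = q := by norm_num
  have e5 : (q ^ ((-1 : ℤ) + 2 * (4 * ((0 : ℕ) : ℤ)) + 8 * k) : RatFunc ℚ) =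
      q ^ (8 * (k : ℤ) - 1) := by congr 1
  have e6 : (q ^ ((6 : ℤ) - 2 * -1) : RatFunc ℚ) ^ k = q ^ (8 * k) := by
    rw [pow_mul]; norm_num
  have e7 : (q ^ 2 * q ^ 2 : RatFunc ℚ) = q ^ 4 := by ring
  have e8 : (q⁻¹ * q ^ 2 : RatFunc ℚ) = q := by
    have := q_ne
    field_simp
  rw [e1, e2, e3, e4, e5, e6, e7, e8]
  have n1 : poch (q ^ 4 : RatFunc ℚ) (q ^ 4) k ≠ 0 := poch_qm_ne (by norm_num) k
  have n2 : poch (q ^ 4 : RatFunc ℚ) q⁻¹ k ≠ 0 := by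
    have := poch_qz_ne (β := 4) (z := -1) (k := k) (fun i => by omega)
    rwa [q4_eq, zpow_neg_one] at this
  have n3 : poch (q ^ 4 : RatFunc ℚ) q k ≠ 0 := by
    have := poch_qz_ne (β := 4) (z := 1) (k := k) (fun i => by omega)
    rwa [q4_eq, zpow_one] at this
  generalize poch (q ^ 4 : RatFunc ℚ) (q ^ 4) k = x1 at n1
  generalize poch (q ^ 4 : RatFunc ℚ) q⁻¹ k = x2 at n2
  generalize poch (q ^ 4 : RatFunc ℚ) q k = x3 at n3
  generalize poch (q ^ 4 : RatFunc ℚ) (q ^ 2) k = x4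
  field_simp

end

end V11316
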