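import Pool.Agent.V11316.Affine

/-!
A symmetric map on `ℤ^ι` with vanishing third differences, which is constant along one line in a
direction `e_i - e_j`, is constant on the lattice of vectors with zero sum.
-/

open Finset

namespace V11316

variable {A : Type*} [AddCommGroup A] {M : Type*} [AddCommGroup M]

/-- the polarization of a map with vanishing third differences -/
def polar (G : M → A)
    (h3 : ∀ c u v w, G (c + u + v + w) - G (c + u + v) - G (c + u + w) - G (c + v + w)
      + G (c + u) + G (c + v) + G (c + w) - G c = 0) : M →+ M →+ A :=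
  AddMonoidHom.mk' (fun u => AddMonoidHom.mk' (fun v => G (u + v) - G u - G v + G 0) (by
      intro v w
      have := h3 0 u v w
      simp only [zero_add] at this
      have e : G (u + (v + w)) = G (u + v) + G (u + w) + G (v + w) - G u - G v - G w + G 0 := by
        rw [← sub_eq_zero, ← this, ← add_assoc]; abel
      rw [e]; abel))
    (by
      intro u w
      ext v
      simp only [AddMonoidHom.mk'_apply, AddMonoidHom.add_apply]
      have := h3 0 u v w
      simp only [zero_add] at this
      have e : G (u + w + v) = G (u + v) + G (u + w) + G (v + w) - G u - G v - G w + G 0 := by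
        rw [← sub_eq_zero, ← this, add_right_comm]; abel
      rw [e, add_comm w v]; abel)

theorem polar_apply (G : M → A) (h3) (u v : M) :
    polar G h3 u v = G (u + v) - G u - G v + G 0 := rfl

theorem quad_const {ι : Type*} [Fintype ι] [DecidableEq ι]
    (htor : ∀ (a : A) (z : ℤ), z ≠ 0 → z • a = 0 → a = 0)
    (G : (ι → ℤ) → A)
    (h3 : ∀ c u v w, G (c + u + v + w) - G (c + u + v) - G (c + u + w) - G (c + v + w)
      + G (c + u) + G (c + v) + G (c + w) - G c = 0)
    (hs : ∀ (σ : Equiv.Perm ι) c, G (c ∘ σ) = G c)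
    (w0 : ι → ℤ) (hw0 : ∑ i, w0 i = 0) {i0 j0 : ι} (hij : i0 ≠ j0)
    (hV : G (w0 + (Pi.single i0 1 - Pi.single j0 1)) - G w0 - G w0
      + G (w0 - (Pi.single i0 1 - Pi.single j0 1)) = 0) : G w0 = G 0 := by
  set B := polar G h3 with hB
  have hBa : ∀ u v, B u v = G (u + v) - G u - G v + G 0 := fun u v => rfl
  -- second difference at `w0`
  have h1 : B (Pi.single i0 1 - Pi.single j0 1) (Pi.single i0 1 - Pi.single j0 1) = 0 := by
    set v : ι → ℤ := Pi.single i0 1 - Pi.single j0 1 with hv
    have := h3 0 (w0 - v) v v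
    simp only [zero_add] at this
    rw [show w0 - v + v + v = w0 + v by abel, show w0 - v + v = w0 by abel] at this
    rw [hBa, ← hV, eq_comm, ← sub_eq_zero, ← this]
    abel
  have hBs : ∀ (σ : Equiv.Perm ι) u v, B (u ∘ σ) (v ∘ σ) = B u v := by
    intro σ u v
    have e1 : (u ∘ σ + v ∘ σ) = (u + v) ∘ σ := rfl
    have e2 : G 0 = G 0 := rfl
    rw [hBa, hBa, e1, hs, hs, hs]
  have hsing : ∀ (σ : Equiv.Perm ι) (i : ι),
      (Pi.single (σ i) 1 : ι → ℤ) ∘ σ = Pi.single i 1 := by
    intro σ i
    funext x
    by_cases hx : x = i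
    · subst hx; simp
    · simp [hx, Pi.single_apply]
  have hswap : ∀ i j : ι, i ≠ j → ∃ σ : Equiv.Perm ι, σ i = i0 ∧ σ j = j0 := by
    intro i j h
    refine ⟨Equiv.swap (Equiv.swap i i0 j) j0 * Equiv.swap i i0, ?_, ?_⟩
    · rw [Equiv.Perm.mul_apply, Equiv.swap_apply_left]
      refine Equiv.swap_apply_of_ne_of_ne ?_ hij
      intro h2
      apply h
      have := congrArg (Equiv.swap i i0) h2
      rw [Equiv.swap_apply_right, Equiv.swap_apply_self] at this
      exact this
    · rw [Equiv.Perm.mul_apply, Equiv.swap_apply_left]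
  have h4 : ∀ i j : ι, B (Pi.single i 1 - Pi.single j 1) (Pi.single i 1 - Pi.single j 1) = 0 := by
    intro i j
    by_cases h : i = j
    · subst h; simp
    · obtain ⟨σ, hi, hj⟩ := hswap i j h
      have e1 : (Pi.single i 1 - Pi.single j 1 : ι → ℤ) =
          (Pi.single i0 1 - Pi.single j0 1 : ι → ℤ) ∘ σ := by
        rw [← hi, ← hj, ← hsing σ i, ← hsing σ j]
        rfl
      rw [e1, hBs, h1]
  have hBc : ∀ u v, B u v = B v u := by
    intro u v
    rw [hBa, hBa, add_comm u v]; abel
  set f : ι → (ι → ℤ) := fun i => Pi.single i 1 - Pi.single i0 1 with hf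
  have h5 : ∀ i j, B (f i) (f j) = 0 := by
    intro i j
    have e1 := h4 i j
    have e2 : (Pi.single i 1 - Pi.single j 1 : ι → ℤ) = f i - f j := by
      simp only [hf]; abel
    rw [e2] at e1
    simp only [map_sub, AddMonoidHom.sub_apply] at e1
    have e3 : B (f i) (f i) = 0 := h4 i i0
    have e4 : B (f j) (f j) = 0 := h4 j i0
    rw [e3, e4, hBc (f j) (f i)] at e1
    refine htor _ 2 two_ne_zero ?_
    rw [two_zsmul, ← neg_eq_zero, ← e1]; abel
  -- the linear map
  let ℓ : (ι → ℤ) →+ (ι → ℤ) := AddMonoidHom.mk' (fun w => ∑ i, w i • f i) (by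
    intro u v
    rw [← sum_add_distrib]
    exact sum_congr rfl fun i _ => by rw [Pi.add_apply, add_smul])
  have hℓ : ∀ w, ℓ w = ∑ i, w i • f i := fun w => rfl
  have h6 : ∀ u v, B (ℓ u) (ℓ v) = 0 := by
    intro u v
    rw [hℓ v, map_sum]
    refine sum_eq_zero fun j _ => ?_
    rw [map_zsmul, hℓ u, map_sum, AddMonoidHom.finsetSum_apply]
    rw [sum_eq_zero, smul_zero]
    intro i _
    rw [map_zsmul, AddMonoidHom.zsmul_apply, h5, smul_zero]
  have h7 : ∀ u v, G (ℓ (u + v)) - G (ℓ u) - G (ℓ v) + G 0 = 0 := by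
    intro u v
    rw [map_add, ← hBa, h6]
  let H : (ι → ℤ) →+ A := AddMonoidHom.mk' (fun w => G (ℓ w) - G 0) (by
    intro u v
    rw [← sub_eq_zero, ← h7 u v]; abel)
  have hH : ∀ w, H w = G (ℓ w) - G 0 := fun w => rfl
  have h8 : ∀ i, H (Pi.single i 1) = 0 := by
    intro i
    have e1 : ℓ (Pi.single i 1) = f i := by
      rw [hℓ, sum_eq_single i]
      · simp
      · intro j _ hj; rw [Pi.single_eq_of_ne hj, zero_smul]
      · intro h; exact absurd (mem_univ i) h
    have e2 : G (f i) = G (- f i) := by
      have : (f i) ∘ (Equiv.swap i i0) = - f i := by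
        funext x
        simp only [hf, Function.comp, Pi.sub_apply, Pi.neg_apply, Pi.single_apply]
        by_cases hx : x = i
        · subst hx
          by_cases h0 : x = i0
          · subst h0; simp
          · simp [h0, Ne.symm h0]
        · by_cases h0 : x = i0
          · subst h0
            simp [hx, Ne.symm hx]
          · rw [Equiv.swap_apply_of_ne_of_ne hx h0]
            simp [hx, h0]
      rw [← this, hs]
    have e3 : H (Pi.single i 1) = H (- Pi.single i 1) := by
      rw [hH, hH, map_neg, e1, e2]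
    rw [map_neg] at e3
    refine htor _ 2 two_ne_zero ?_
    rw [two_zsmul]
    nth_rw 2 [e3]
    abel
  have h9 : ∀ w, H w = 0 := by
    intro w
    have : w = ∑ i, w i • (Pi.single i 1 : ι → ℤ) := by
      funext j
      simp [Finset.sum_apply, Pi.single_apply]
    rw [this, map_sum]
    refine sum_eq_zero fun i _ => ?_
    rw [map_zsmul, h8, smul_zero]
  have h10 : ℓ w0 = w0 := by
    rw [hℓ]
    simp only [hf, smul_sub, sum_sub_distrib]
    rw [← sum_smul, hw0, zero_smul, sub_zero]
    funext j
    simp [Finset.sum_apply, Pi.single_apply]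
  have := h9 w0
  rw [hH, h10, sub_eq_zero] at this
  exact this

end V11316
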