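import Pool.Agent.V11316.Poch

/-!
Orthogonality for very-well-poised sums.
-/

open Finset Polynomial

namespace V11316

variable {K : Type*} [Field K]

/-- the node `B^{-k} + a B^k` -/
def wy (a B : K) (k : ℕ) : K := (B ^ k)⁻¹ + a * B ^ k

theorem prod_erase_split {N k : ℕ} (hk : k ≤ N) (f : ℕ → K) :
    ∏ j ∈ (range (N + 1)).erase k, f j =
      (∏ j ∈ range k, f j) * ∏ j ∈ range (N - k), f (k + 1 + j) := by
  have h1 : (range (N + 1)).erase k = range k ∪ Ico (k + 1) (N + 1) := by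
    ext x; simp only [mem_erase, mem_range, mem_union, mem_Ico]; omega
  have h2 : Disjoint (range k) (Ico (k + 1) (N + 1)) := by
    rw [Finset.disjoint_left]
    intro x hx hx'
    simp only [mem_range, mem_Ico] at hx hx'
    omega
  rw [h1, prod_union h2, prod_Ico_eq_prod_range]
  congr 1
  rw [show N + 1 - (k + 1) = N - k by omega]

theorem reflect_poch (B : K) (k : ℕ) : ∏ j ∈ range k, (1 - B ^ (k - j)) = poch B B k := by
  rw [poch, ← prod_range_reflect]
  refine prod_congr rfl fun j hj => ?_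
  have := mem_range.1 hj
  rw [← pow_succ']
  congr 2
  omega

theorem top_poch (B : K) {N k : ℕ} (hk : k ≤ N) :
    (∏ i ∈ range k, (1 - B ^ (N - i))) * poch B B (N - k) = poch B B N := by
  have h1 : poch B B N = poch B B (N - k) * poch B (B * B ^ (N - k)) k := by
    rw [← poch_add]; congr 1; omega
  rw [h1, mul_comm]
  congr 1
  rw [poch, ← prod_range_reflect]
  refine prod_congr rfl fun j hj => ?_
  have := mem_range.1 hj
  rw [← pow_succ', ← pow_add]
  congr 2
  omega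

theorem tri_prod {B : K} (k : ℕ) :
    (∏ i ∈ range k, B ^ i) * ∏ l ∈ range k, B ^ (l + 1) = (B ^ k) ^ k := by
  rw [← prod_range_reflect (fun l => B ^ (l + 1)), ← prod_mul_distrib]
  have : ∀ j ∈ range k, B ^ j * B ^ (k - 1 - j + 1) = B ^ k := by
    intro j hj
    have := mem_range.1 hj
    rw [← pow_add]; congr 1; omega
  rw [prod_congr rfl this, prod_const, card_range]

theorem wy_sub_lt {a B : K} (hB0 : B ≠ 0) {j k : ℕ} (h : j < k) :
    wy a B k - wy a B j = (B ^ k)⁻¹ * (1 - B ^ (k - j)) * (1 - a * B ^ k * B ^ j) := by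
  obtain ⟨t, rfl⟩ := Nat.exists_eq_add_of_lt h
  rw [wy, wy, show j + t + 1 - j = t + 1 by omega]
  rw [show j + t + 1 = j + (t + 1) by omega, pow_add B j (t + 1)]
  have h1 : B ^ j ≠ 0 := pow_ne_zero _ hB0
  have h2 : B ^ (t + 1) ≠ 0 := pow_ne_zero _ hB0
  field_simp
  ring

theorem wy_sub_gt {a B : K} (hB0 : B ≠ 0) (k j : ℕ) :
    wy a B k - wy a B (k + 1 + j) =
      (-(B ^ (k + 1 + j))⁻¹) * (1 - B * B ^ j) * (1 - a * B ^ (2 * k + 1) * B ^ j) := by
  rw [wy, wy]
  rw [show k + 1 + j = k + (j + 1) by omega, pow_add B k (j + 1), ← pow_succ',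
    show 2 * k + 1 = k + (k + 1) by omega, pow_add B k (k + 1), pow_succ B k, pow_succ B j]
  have h1 : B ^ j ≠ 0 := pow_ne_zero _ hB0
  have h2 : B ^ k ≠ 0 := pow_ne_zero _ hB0
  field_simp
  ring

/-- weight times nodal product is independent of `k` -/
theorem wp_weight {a B : K} (hB0 : B ≠ 0) (hB : ∀ k, poch B B k ≠ 0) {N k : ℕ} (hk : k ≤ N)
    (ha2 : poch B (a * B ^ (N + 1)) k ≠ 0) :
    ((1 - a * B ^ (2 * k)) * poch B a k * poch B ((B ^ N)⁻¹) k /
        (poch B B k * poch B (a * B ^ (N + 1)) k) * (B ^ N) ^ k) *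
      ∏ j ∈ (range (N + 1)).erase k, (wy a B k - wy a B j) =
    (-1) ^ N * (∏ l ∈ range N, (B ^ (l + 1))⁻¹) * poch B B N * poch B a (N + 1) := by
  rw [prod_erase_split hk]
  have p1 : ∏ j ∈ range k, (wy a B k - wy a B j) =
      ((B ^ k)⁻¹) ^ k * poch B B k * poch B (a * B ^ k) k := by
    rw [prod_congr rfl fun j hj => wy_sub_lt hB0 (mem_range.1 hj), prod_mul_distrib,
      prod_mul_distrib, prod_const, card_range, reflect_poch]
    rfl
  have p2 : ∏ j ∈ range (N - k), (wy a B k - wy a B (k + 1 + j)) =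
      (-1) ^ (N - k) * (∏ j ∈ range (N - k), (B ^ (k + 1 + j))⁻¹) * poch B B (N - k) *
        poch B (a * B ^ (2 * k + 1)) (N - k) := by
    rw [prod_congr rfl fun j _ => wy_sub_gt hB0 k j, prod_mul_distrib, prod_mul_distrib]
    congr 2
    rw [prod_congr rfl (fun j _ => (neg_one_mul _).symm), prod_mul_distrib, prod_const, card_range]
  have p3 : poch B ((B ^ N)⁻¹) k =
      (-1) ^ k * (∏ i ∈ range k, (B ^ (N - i))⁻¹) * ∏ i ∈ range k, (1 - B ^ (N - i)) := by
    rw [poch, ← card_range k, ← prod_const, card_range, ← prod_mul_distrib, ← prod_mul_distrib]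
    refine prod_congr rfl fun i hi => ?_
    have hi' := mem_range.1 hi
    have h1 : B ^ N = B ^ (N - i) * B ^ i := by rw [← pow_add]; congr 1; omega
    have h2 : B ^ (N - i) ≠ 0 := pow_ne_zero _ hB0
    have h3 : B ^ i ≠ 0 := pow_ne_zero _ hB0
    rw [h1]
    field_simp
    ring
  have p4 : poch B (a * B ^ k) k * ((1 - a * B ^ (2 * k)) * poch B (a * B ^ (2 * k + 1)) (N - k))
      = poch B (a * B ^ k) (N + 1) := by
    have e1 : poch B (a * B ^ k) (N + 1) =
        poch B (a * B ^ k) k * poch B (a * B ^ k * B ^ k) (N + 1 - k) := by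
      rw [← poch_add]; congr 1; omega
    rw [e1, show N + 1 - k = (N - k) + 1 by omega, poch_succ']
    rw [show a * B ^ k * B ^ k = a * B ^ (2 * k) by rw [two_mul, pow_add]; ring]
    rw [show a * B ^ (2 * k) * B = a * B ^ (2 * k + 1) by rw [pow_succ]; ring]
  have p5 : poch B a k * poch B (a * B ^ k) (N + 1) =
      poch B a (N + 1) * poch B (a * B ^ (N + 1)) k := by
    rw [← poch_add, ← poch_add, add_comm]
  have p6 : ((B ^ N) ^ k) * (∏ i ∈ range k, (B ^ (N - i))⁻¹) = ∏ i ∈ range k, B ^ i := by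
    rw [← card_range k, ← prod_const, card_range, ← prod_mul_distrib]
    refine prod_congr rfl fun i hi => ?_
    have hi' := mem_range.1 hi
    have h1 : B ^ N = B ^ (N - i) * B ^ i := by rw [← pow_add]; congr 1; omega
    have h2 : B ^ (N - i) ≠ 0 := pow_ne_zero _ hB0
    rw [h1]
    field_simp
  have p7 : (∏ i ∈ range k, B ^ i) * ((B ^ k)⁻¹) ^ k = ∏ l ∈ range k, (B ^ (l + 1))⁻¹ := by
    have := tri_prod (B := B) k
    have h1 : ∏ l ∈ range k, B ^ (l + 1) ≠ 0 := prod_ne_zero_iff.2 fun i _ => pow_ne_zero _ hB0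
    have h2 : (B ^ k) ^ k ≠ 0 := pow_ne_zero _ (pow_ne_zero _ hB0)
    rw [prod_inv_distrib, inv_pow, ← div_eq_mul_inv, div_eq_iff h2, ← this]
    field_simp
  have p8 : ∏ l ∈ range N, (B ^ (l + 1))⁻¹ = (∏ l ∈ range k, (B ^ (l + 1))⁻¹) *
      ∏ j ∈ range (N - k), (B ^ (k + 1 + j))⁻¹ := by
    obtain ⟨t, rfl⟩ := Nat.exists_eq_add_of_le hk
    rw [prod_range_add]
    congr 1
    rw [Nat.add_sub_cancel_left]
    exact prod_congr rfl fun j _ => by congr 2; omega
  have p9 := top_poch B hk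
  have p10 : (-1 : K) ^ k * (-1) ^ (N - k) = (-1) ^ N := by
    rw [← pow_add]; congr 1; omega
  rw [p1, p2, p3]
  have hk1 := hB k
  rw [div_mul_eq_mul_div, div_mul_eq_mul_div, div_eq_iff (mul_ne_zero hk1 ha2)]
  rw [p8, ← p7, ← p6, ← p9, ← p10]
  linear_combination (((-1) ^ k * (∏ i ∈ range k, (B ^ (N - i))⁻¹) *
    ∏ i ∈ range k, (1 - B ^ (N - i))) * (B ^ N) ^ k * ((B ^ k)⁻¹) ^ k * poch B B k *
      ((-1) ^ (N - k) * (∏ j ∈ range (N - k), (B ^ (k + 1 + j))⁻¹) * poch B B (N - k))) *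
        (poch B a k * p4 + p5)

/-- very-well-poised orthogonality -/
theorem orthWP {a B : K} (hB0 : B ≠ 0) (hB : ∀ i : ℕ, B ^ (i + 1) ≠ 1)
    (ha : ∀ i : ℕ, a * B ^ (i + 1) ≠ 1) (N : ℕ) (P : K[X]) (hP : P.degree < N) :
    ∑ k ∈ range (N + 1), ((1 - a * B ^ (2 * k)) * poch B a k * poch B ((B ^ N)⁻¹) k /
        (poch B B k * poch B (a * B ^ (N + 1)) k) * (B ^ N) ^ k) * P.eval (wy a B k) = 0 := by
  have hBp : ∀ k, poch B B k ≠ 0 := fun k => poch_ne_zero fun i _ => by
    rw [← pow_succ']; exact hB i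
  have hap : ∀ k, poch B (a * B ^ (N + 1)) k ≠ 0 := fun k => poch_ne_zero fun i _ => by
    rw [mul_assoc, ← pow_add, show N + 1 + i = (N + i) + 1 by omega]; exact ha _
  have hne : ∀ j k, j < k → wy a B k - wy a B j ≠ 0 := by
    intro j k h
    rw [wy_sub_lt hB0 h]
    refine mul_ne_zero (mul_ne_zero (inv_ne_zero (pow_ne_zero _ hB0)) ?_) ?_
    · rw [sub_ne_zero, show k - j = (k - j - 1) + 1 by omega]
      exact (hB _).symm
    · rw [sub_ne_zero, mul_assoc, ← pow_add, show k + j = (k + j - 1) + 1 by omega]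
      exact (ha _).symm
  have hinj : Set.InjOn (wy a B) (range (N + 1) : Set ℕ) := by
    intro j _ k _ h
    rcases lt_trichotomy j k with h1 | h1 | h1
    · exact absurd (sub_eq_zero.2 h.symm) (hne j k h1)
    · exact h1
    · exact absurd (sub_eq_zero.2 h) (hne k j h1)
  have hcard : (range (N + 1)).card = N + 1 := card_range _
  have hdeg : P.degree < (range (N + 1)).card := by
    rw [hcard]
    refine lt_of_lt_of_le hP ?_
    norm_cast
    omega
  have h1 := Lagrange.coeff_eq_sum hinj hdeg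
  rw [hcard, Nat.add_sub_cancel, coeff_eq_zero_of_degree_lt hP] at h1
  set C0 := (-1 : K) ^ N * (∏ l ∈ range N, (B ^ (l + 1))⁻¹) * poch B B N * poch B a (N + 1)
    with hC0
  have h2 : ∀ k ∈ range (N + 1), ((1 - a * B ^ (2 * k)) * poch B a k * poch B ((B ^ N)⁻¹) k /
        (poch B B k * poch B (a * B ^ (N + 1)) k) * (B ^ N) ^ k) * P.eval (wy a B k) =
      C0 * (P.eval (wy a B k) / ∏ j ∈ (range (N + 1)).erase k, (wy a B k - wy a B j)) := by
    intro k hk
    have hk' : k ≤ N := Nat.lt_succ_iff.1 (mem_range.1 hk)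
    have hD : ∏ j ∈ (range (N + 1)).erase k, (wy a B k - wy a B j) ≠ 0 := by
      rw [prod_ne_zero_iff]
      intro j hj
      have hjk := (mem_erase.1 hj).1
      rcases lt_or_gt_of_ne hjk with h | h
      · exact hne j k h
      · have := hne k j h
        rw [← neg_ne_zero, neg_sub]; exact this
    have h3 := wp_weight hB0 hBp hk' (hap k)
    rw [hC0, ← h3]
    field_simp
  rw [sum_congr rfl h2, ← mul_sum, ← h1, mul_zero]

/-- the polynomial of a pair of parameters `β B^e`, `β' B^e` with `β β' = a B^{1-e}` -/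
noncomputable def pairP (B β β' : K) (e : ℕ) : K[X] :=
  C ((poch B β e * poch B β' e)⁻¹) *
    ∏ l ∈ range e, (X - C (β * B ^ l + β' * B ^ (e - 1 - l)))

theorem pairP_natDegree (B β β' : K) (e : ℕ) : (pairP B β β' e).natDegree ≤ e := by
  refine (natDegree_C_mul_le _ _).trans ?_
  refine (natDegree_prod_le _ _).trans ?_
  refine (sum_le_sum fun i _ => (natDegree_X_sub_C _).le).trans ?_
  simp

theorem poch_shift {B β : K} {e k : ℕ} (h1 : poch B β k ≠ 0) (h2 : poch B β e ≠ 0) :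
    poch B (β * B ^ e) k / poch B β k = poch B (β * B ^ k) e / poch B β e := by
  rw [div_eq_div_iff h1 h2, mul_comm, ← poch_add, mul_comm, ← poch_add, add_comm]

theorem pairP_eval {a B β β' : K} {e : ℕ} (hB0 : B ≠ 0) (hββ : β * β' * B ^ e = a * B)
    (h1 : ∀ k, poch B β k ≠ 0) (h2 : ∀ k, poch B β' k ≠ 0) (k : ℕ) :
    (pairP B β β' e).eval (wy a B k) =
      poch B (β * B ^ e) k * poch B (β' * B ^ e) k / (poch B β k * poch B β' k) *
        ((B ^ e)⁻¹) ^ k := by
  have e1 : poch B (β * B ^ e) k * poch B (β' * B ^ e) k / (poch B β k * poch B β' k) =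
      (poch B (β * B ^ k) e / poch B β e) * (poch B (β' * B ^ k) e / poch B β' e) := by
    rw [← poch_shift (h1 k) (h1 e), ← poch_shift (h2 k) (h2 e), div_mul_div_comm]
  have e2 : poch B (β' * B ^ k) e = ∏ l ∈ range e, (1 - β' * B ^ k * B ^ (e - 1 - l)) := by
    rw [poch, ← prod_range_reflect]
  have e3 : poch B (β * B ^ k) e * poch B (β' * B ^ k) e =
      (B ^ k) ^ e * ∏ l ∈ range e, (wy a B k - (β * B ^ l + β' * B ^ (e - 1 - l))) := by
    rw [e2, poch, ← prod_mul_distrib]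
    conv_rhs => rw [← card_range e, ← prod_const, card_range, ← prod_mul_distrib]
    refine prod_congr rfl fun l hl => ?_
    have hl' := mem_range.1 hl
    have hk0 : B ^ k ≠ 0 := pow_ne_zero _ hB0
    have h3 : B * (B ^ l * B ^ (e - 1 - l)) = B ^ e := by
      rw [← pow_add, ← pow_succ']; congr 1; omega
    have h4 : β * β' * (B ^ l * B ^ (e - 1 - l)) = a := by
      apply mul_right_cancel₀ hB0
      rw [← hββ, ← h3]; ring
    rw [wy]
    have h5 : B ^ k * (B ^ k)⁻¹ = 1 := mul_inv_cancel₀ hk0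
    linear_combination (B ^ k * B ^ k) * h4 - h5
  rw [pairP, eval_mul, eval_C, eval_prod]
  simp only [eval_sub, eval_X, eval_C]
  rw [e1]
  have h3 := h1 e
  have h4 := h2 e
  have h5 : (B ^ e) ≠ 0 := pow_ne_zero _ hB0
  have h6 : (B ^ k) ^ e * ((B ^ e)⁻¹) ^ k = 1 := by
    rw [inv_pow, ← pow_mul, ← pow_mul, mul_comm e k]
    exact mul_inv_cancel₀ (pow_ne_zero _ hB0)
  rw [div_mul_div_comm, e3, mul_inv, div_eq_mul_inv, mul_inv]
  linear_combination (-(poch B β e)⁻¹ * (poch B β' e)⁻¹ *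
    ∏ l ∈ range e, (wy a B k - (β * B ^ l + β' * B ^ (e - 1 - l)))) * h6

end V11316
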