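import Pool.Agent.V11316.QAn
import Pool.Agent.V11316.WP
import Pool.Agent.V11316.Quad

/-!
The very-well-poised family with independent perturbations of the parameters by powers of
`Q = q^n`.
-/

open Finset Polynomial

namespace V11316

open V11307.Q

noncomputable section

variable {M : Type*} [AddCommGroup M]

/-! ### congruences modulo `ϖ · An` -/

/-- `f ≡ g` modulo `ϖ · An m` -/
def CA (n m : ℕ) (f g : M → RatFunc ℚ) : Prop :=
  ∃ h : M → RatFunc ℚ, AQ n m h ∧ ∀ c, f c - g c = cyc n * h c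

variable {n m : ℕ} {f g f' g' : M → RatFunc ℚ}

theorem CA.refl (f : M → RatFunc ℚ) : CA n m f f :=
  ⟨fun _ => 0, An.const (zero_mem _), fun c => by simp⟩

theorem CA.of_eq (h : ∀ c, f c = g c) : CA n m f g := by
  have : f = g := funext h
  rw [this]; exact CA.refl g

theorem CA.symm (h : CA n m f g) : CA n m g f := by
  obtain ⟨k, hk, h⟩ := h
  exact ⟨_, hk.neg, fun c => by linear_combination - h c⟩

theorem CA.trans {k : M → RatFunc ℚ} (h : CA n m f g) (h' : CA n m g k) : CA n m f k := by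
  obtain ⟨u, hu, h⟩ := h
  obtain ⟨v, hv, h'⟩ := h'
  exact ⟨_, hu.add hv, fun c => by linear_combination h c + h' c⟩

theorem CA.add (h : CA n m f g) (h' : CA n m f' g') :
    CA n m (fun c => f c + f' c) (fun c => g c + g' c) := by
  obtain ⟨u, hu, h⟩ := h
  obtain ⟨v, hv, h'⟩ := h'
  exact ⟨_, hu.add hv, fun c => by linear_combination h c + h' c⟩

theorem CA.mul (h : CA n m f g) (h' : CA n m f' g') (hf' : AQ n m f') (hg : AQ n m g) :
    CA n m (fun c => f c * f' c) (fun c => g c * g' c) := by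
  obtain ⟨u, hu, h⟩ := h
  obtain ⟨v, hv, h'⟩ := h'
  exact ⟨_, (hu.mul hf').add (hg.mul hv), fun c => by linear_combination f' c * h c + g c * h' c⟩

theorem CA.prod {ι : Type*} (s : Finset ι) {F G : ι → M → RatFunc ℚ}
    (h : ∀ i ∈ s, CA n m (F i) (G i)) (hF : ∀ i ∈ s, AQ n m (F i)) (hG : ∀ i ∈ s, AQ n m (G i)) :
    CA n m (fun c => ∏ i ∈ s, F i c) (fun c => ∏ i ∈ s, G i c) := by
  classical
  induction s using Finset.induction_on with
  | empty => simpa using CA.refl _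
  | insert a s ha ih =>
    have h1 := h a (mem_insert_self _ _)
    have h2 := ih (fun i hi => h i (mem_insert_of_mem hi)) (fun i hi => hF i (mem_insert_of_mem hi))
      (fun i hi => hG i (mem_insert_of_mem hi))
    have h3 := h1.mul h2 (An.prod s fun i hi => hF i (mem_insert_of_mem hi))
      (hG a (mem_insert_self _ _))
    refine (CA.of_eq fun c => ?_).trans (h3.trans (CA.of_eq fun c => ?_))
    · rw [prod_insert ha]
    · rw [prod_insert ha]

/-- a constant congruence -/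
theorem CA.const {x y : RatFunc ℚ} (h : I n 1 (x - y)) :
    CA n m (fun _ : M => x) (fun _ => y) := by
  obtain ⟨z, hz, h⟩ := h
  exact ⟨fun _ => z, An.const hz, fun _ => by rw [h, pow_one]⟩

theorem CA.const_mul {x y : RatFunc ℚ} (h : I n 1 (x - y)) (hf : AQ n m f) :
    CA n m (fun c => x * f c) (fun c => y * f c) := by
  obtain ⟨z, hz, h⟩ := h
  exact ⟨_, hf.smul hz, fun c => by
    have : x * f c - y * f c = (x - y) * f c := by ring
    rw [this, h, pow_one]; ring⟩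

/-! ### the family -/

/-- a numerator factor -/
def nf (n : ℕ) (b B : RatFunc ℚ) (l : M →+ ℤ) (i : ℕ) (c : M) : RatFunc ℚ :=
  1 - b * B ^ i * (q ^ n) ^ (l c)

/-- a denominator factor -/
def df (n : ℕ) (bs B : RatFunc ℚ) (l : M →+ ℤ) (i : ℕ) (c : M) : RatFunc ℚ :=
  (q ^ n) ^ (l c) - bs * B ^ i

theorem nf_an (hn : 0 < n) {b B : RatFunc ℚ} (hb : b ∈ R n) (hB : B ∈ R n) (l : M →+ ℤ) (i : ℕ) :
    AQ n m (nf n b B l i) :=
  (An.const (one_mem _)).sub (An.smul (mul_mem hb (pow_mem hB i)) (AQ_Q hn l))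

theorem df_an (hn : 0 < n) {b B : RatFunc ℚ} (hb : b ∈ R n) (hB : B ∈ R n) (l : M →+ ℤ) (i : ℕ) :
    AQ n m (df n b B l i) :=
  (AQ_Q hn l).sub (An.const (mul_mem hb (pow_mem hB i)))

variable {J : Type*} [Fintype J]

/-- one parameter's contribution to the `k`-th term, over the common denominator -/
def pf (n L : ℕ) (B b bs : RatFunc ℚ) (l : M →+ ℤ) (k : ℕ) (c : M) : RatFunc ℚ :=
  (∏ i ∈ range k, nf n b B l i c) * ∏ i ∈ Ico k L, df n bs B l i c

/-- the `k`-th term over the common denominator -/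
def Un (n L : ℕ) (a B Z : RatFunc ℚ) (b bs : J → RatFunc ℚ) (l : J → M →+ ℤ) (k : ℕ) (c : M) :
    RatFunc ℚ :=
  (1 - a * B ^ (2 * k)) * Z ^ k * ∏ j, pf n L B (b j) (bs j) (l j) k c

theorem pf_an (hn : 0 < n) {L : ℕ} {B b bs : RatFunc ℚ} (hB : B ∈ R n) (hb : b ∈ R n)
    (hbs : bs ∈ R n) (l : M →+ ℤ) (k : ℕ) : AQ n m (pf n L B b bs l k) :=
  (An.prod _ fun i _ => nf_an hn hb hB l i).mul (An.prod _ fun i _ => df_an hn hbs hB l i)

theorem Un_an (hn : 0 < n) {L : ℕ} {a B Z : RatFunc ℚ} {b bs : J → RatFunc ℚ}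
    (ha : a ∈ R n) (hB : B ∈ R n) (hZ : Z ∈ R n) (hb : ∀ j, b j ∈ R n) (hbs : ∀ j, bs j ∈ R n)
    (l : J → M →+ ℤ) (k : ℕ) : AQ n m (Un n L a B Z b bs l k) := by
  refine An.mul (An.const (mul_mem (sub_mem (one_mem _) (mul_mem ha (pow_mem hB _)))
    (pow_mem hZ k))) (An.prod _ fun j _ => pf_an hn hB (hb j) (hbs j) (l j) k)

/-- reversal of one numerator factor -/
theorem nf_rev (hn : 0 < n) {B b bs Qe : RatFunc ℚ} (hB0 : B ≠ 0) (hbs0 : bs ≠ 0)
    (hBi : B⁻¹ ∈ R n) (hbsi : bs⁻¹ ∈ R n) {i i' : ℕ} (l : M →+ ℤ)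
    (h : b * B ^ i' * (bs * B ^ i) = Qe) (hQe : I n 1 (Qe - 1)) :
    CA n m (nf n b B l i') (fun c => (-(bs * B ^ i)⁻¹) * df n bs B l i c) := by
  have h0 : bs * B ^ i ≠ 0 := mul_ne_zero hbs0 (pow_ne_zero _ hB0)
  have h1 : b * B ^ i' = Qe * (bs * B ^ i)⁻¹ := by rw [← h]; field_simp
  have hinv : (bs * B ^ i)⁻¹ ∈ R n := by
    rw [mul_inv, ← inv_pow]; exact mul_mem hbsi (pow_mem hBi i)
  have h2 : CA n m (fun c => Qe * (-(bs * B ^ i)⁻¹ * (q ^ n) ^ (l c)))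
      (fun c => 1 * (-(bs * B ^ i)⁻¹ * (q ^ n) ^ (l c))) :=
    CA.const_mul hQe (An.smul (neg_mem hinv) (AQ_Q hn l))
  refine (CA.of_eq fun c => ?_).trans ((h2.add (CA.refl (fun _ => 1))).trans (CA.of_eq fun c => ?_))
  · rw [nf, h1]; ring
  · rw [df]; field_simp; ring

/-- reversal of one denominator factor -/
theorem df_rev (hn : 0 < n) {B b bs Qe : RatFunc ℚ} (hB0 : B ≠ 0) (hb0 : b ≠ 0)
    (hBi : B⁻¹ ∈ R n) (hbi : b⁻¹ ∈ R n) {i i' : ℕ} (l : M →+ ℤ)
    (h : bs * B ^ i' * (b * B ^ i) = Qe) (hQe : I n 1 (Qe - 1)) :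
    CA n m (df n bs B l i') (fun c => (-(b * B ^ i)⁻¹) * nf n b B l i c) := by
  have h0 : b * B ^ i ≠ 0 := mul_ne_zero hb0 (pow_ne_zero _ hB0)
  have h1 : bs * B ^ i' = Qe * (b * B ^ i)⁻¹ := by rw [← h]; field_simp
  have hinv : (b * B ^ i)⁻¹ ∈ R n := by
    rw [mul_inv, ← inv_pow]; exact mul_mem hbi (pow_mem hBi i)
  have h2 : CA n m (fun _ : M => Qe * (-(b * B ^ i)⁻¹))
      (fun _ => 1 * (-(b * B ^ i)⁻¹)) :=
    CA.const_mul hQe (An.const (neg_mem hinv))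
  refine (CA.of_eq fun c => ?_).trans
    ((h2.add (CA.refl (fun c => (q ^ n) ^ (l c)))).trans (CA.of_eq fun c => ?_))
  · rw [df, h1]; ring
  · rw [nf]; field_simp; ring

theorem Ico_reflect (f : ℕ → RatFunc ℚ) {k N : ℕ} (hk : k ≤ N) :
    ∏ i ∈ range (N - k), f i = ∏ i ∈ Ico k N, f (N - 1 - i) := by
  rw [prod_Ico_eq_prod_range, ← prod_range_reflect]
  refine prod_congr rfl fun j hj => ?_
  have := mem_range.1 hj
  congr 1
  omega

theorem Ico_reflect' (f : ℕ → RatFunc ℚ) {k N : ℕ} (hk : k ≤ N) :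
    ∏ i ∈ Ico (N - k) N, f i = ∏ i ∈ range k, f (N - 1 - i) := by
  rw [prod_Ico_eq_prod_range, show N - (N - k) = k by omega, ← prod_range_reflect]
  refine prod_congr rfl fun j hj => ?_
  have := mem_range.1 hj
  congr 1
  omega

/-- reversal of one parameter -/
theorem pf_rev (hn : 0 < n) {L N k : ℕ} {B b bs Qe : RatFunc ℚ} (hk : k ≤ N) (hNL : N ≤ L)
    (hB0 : B ≠ 0) (hb0 : b ≠ 0) (hbs0 : bs ≠ 0) (hB : B ∈ R n) (hb : b ∈ R n) (hbs : bs ∈ R n)
    (hBi : B⁻¹ ∈ R n) (hbi : b⁻¹ ∈ R n) (hbsi : bs⁻¹ ∈ R n) (l : M →+ ℤ)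
    (h : ∀ i < N, b * B ^ (N - 1 - i) * (bs * B ^ i) = Qe) (hQe : I n 1 (Qe - 1)) :
    CA n m (pf n L B b bs l (N - k))
      (fun c => ((∏ i ∈ range N, (-(bs * B ^ i)⁻¹)) * (bs * b⁻¹) ^ k) * pf n L B b bs l k c) := by
  have hsplit : ∀ (j : ℕ), j ≤ N → ∀ c, pf n L B b bs l j c =
      ((∏ i ∈ range j, nf n b B l i c) * ∏ i ∈ Ico j N, df n bs B l i c) *
        ∏ i ∈ Ico N L, df n bs B l i c := by
    intro j hj c
    rw [pf, mul_assoc, prod_Ico_consecutive _ hj hNL]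
  have hnum : CA n m (fun c => ∏ i ∈ range (N - k), nf n b B l i c)
      (fun c => ∏ i ∈ Ico k N, ((-(bs * B ^ i)⁻¹) * df n bs B l i c)) := by
    refine (CA.of_eq fun c => Ico_reflect (fun i => nf n b B l i c) hk).trans ?_
    refine CA.prod (Ico k N) (F := fun i => nf n b B l (N - 1 - i)) (fun i hi => ?_)
      (fun i _ => nf_an hn hb hB l _) (fun i _ => ?_)
    · exact nf_rev hn hB0 hbs0 hBi hbsi l (h i (mem_Ico.1 hi).2) hQe
    · refine An.smul (neg_mem ?_) (df_an hn hbs hB l i)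
      rw [mul_inv, ← inv_pow]; exact mul_mem hbsi (pow_mem hBi i)
  have hden : CA n m (fun c => ∏ i ∈ Ico (N - k) N, df n bs B l i c)
      (fun c => ∏ i ∈ range k, ((-(b * B ^ i)⁻¹) * nf n b B l i c)) := by
    refine (CA.of_eq fun c => Ico_reflect' (fun i => df n bs B l i c) hk).trans ?_
    refine CA.prod (range k) (F := fun i => df n bs B l (N - 1 - i)) (fun i hi => ?_)
      (fun i _ => df_an hn hbs hB l _) (fun i _ => ?_)
    · refine df_rev hn hB0 hb0 hBi hbi l ?_ hQe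
      have hi' : i < N := lt_of_lt_of_le (mem_range.1 hi) hk
      have h2 := h (N - 1 - i) (by omega)
      rw [show N - 1 - (N - 1 - i) = i by omega] at h2
      rw [← h2]; ring
    · refine An.smul (neg_mem ?_) (nf_an hn hb hB l i)
      rw [mul_inv, ← inv_pow]; exact mul_mem hbi (pow_mem hBi i)
  have hA1 : AQ n m (fun c => ∏ i ∈ Ico (N - k) N, df n bs B l i c) :=
    An.prod _ fun i _ => df_an hn hbs hB l i
  have hA2 : AQ n m (fun c => ∏ i ∈ Ico k N, ((-(bs * B ^ i)⁻¹) * df n bs B l i c)) := by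
    refine An.prod _ fun i _ => An.smul (neg_mem ?_) (df_an hn hbs hB l i)
    rw [mul_inv, ← inv_pow]; exact mul_mem hbsi (pow_mem hBi i)
  have hA3 : AQ n m (fun c => ∏ i ∈ Ico N L, df n bs B l i c) :=
    An.prod _ fun i _ => df_an hn hbs hB l i
  have hA4 : AQ n m (fun c => ∏ i ∈ range k, ((-(b * B ^ i)⁻¹) * nf n b B l i c)) := by
    refine An.prod _ fun i _ => An.smul (neg_mem ?_) (nf_an hn hb hB l i)
    rw [mul_inv, ← inv_pow]; exact mul_mem hbi (pow_mem hBi i)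
  have hmain := (hnum.mul hden hA1 hA2).mul (CA.refl (fun c => ∏ i ∈ Ico N L, df n bs B l i c))
    hA3 (hA2.mul hA4)
  refine (CA.of_eq fun c => ?_).trans (hmain.trans (CA.of_eq fun c => ?_))
  · rw [hsplit (N - k) (Nat.sub_le _ _) c]
  · rw [hsplit k hk c, prod_mul_distrib, prod_mul_distrib]
    have e1 : (∏ i ∈ range N, (-(bs * B ^ i)⁻¹)) =
        (∏ i ∈ range k, (-(bs * B ^ i)⁻¹)) * ∏ i ∈ Ico k N, (-(bs * B ^ i)⁻¹) := by
      rw [prod_range_mul_prod_Ico _ hk]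
    have e2 : (∏ i ∈ range k, (-(bs * B ^ i)⁻¹)) * (bs * b⁻¹) ^ k =
        ∏ i ∈ range k, (-(b * B ^ i)⁻¹) := by
      conv_lhs => rw [← card_range k, ← prod_const, card_range, ← prod_mul_distrib]
      refine prod_congr rfl fun i _ => ?_
      have := pow_ne_zero i hB0
      field_simp
    rw [e1, ← e2]
    ring

/-- reversal of a term -/
theorem Un_rev (hn : 0 < n) {L N k : ℕ} {a B Z Qe : RatFunc ℚ} {b bs : J → RatFunc ℚ}
    (hk : k ≤ N) (hNL : N ≤ L)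
    (ha0 : a ≠ 0) (hB0 : B ≠ 0) (hZ0 : Z ≠ 0) (hb0 : ∀ j, b j ≠ 0) (hbs0 : ∀ j, bs j ≠ 0)
    (ha : a ∈ R n) (hB : B ∈ R n) (hZ : Z ∈ R n) (hb : ∀ j, b j ∈ R n) (hbs : ∀ j, bs j ∈ R n)
    (hai : a⁻¹ ∈ R n) (hBi : B⁻¹ ∈ R n) (hbi : ∀ j, (b j)⁻¹ ∈ R n)
    (hbsi : ∀ j, (bs j)⁻¹ ∈ R n) (l : J → M →+ ℤ)
    (hbb : ∀ j, b j * bs j = a * B) (hQ : a * B ^ N = Qe) (hQe : I n 1 (Qe - 1))
    (hZZ : ∏ j, (bs j * (b j)⁻¹) = (Z * B) ^ 2)
    (hκ : I n 1 (a⁻¹ * Z ^ N * (∏ j, ∏ i ∈ range N, (-(bs j * B ^ i)⁻¹)) - 1)) :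
    CA n m (Un n L a B Z b bs l (N - k)) (fun c => - Un n L a B Z b bs l k c) := by
  have h1 : ∀ j, ∀ i < N, b j * B ^ (N - 1 - i) * (bs j * B ^ i) = Qe := by
    intro j i hi
    rw [← hQ]
    have e1 : B ^ N = B * (B ^ (N - 1 - i) * B ^ i) := by
      rw [← pow_add, ← pow_succ']; congr 1; omega
    rw [e1]
    linear_combination (B ^ (N - 1 - i) * B ^ i) * hbb j
  have hQe' : Qe ∈ R n := by rw [← hQ]; exact mul_mem ha (pow_mem hB N)
  have h2 : I n 1 ((1 - a * B ^ (2 * (N - k))) - (-(a * B ^ (2 * k))⁻¹ * (1 - a * B ^ (2 * k)))) := by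
    have e1 : a * B ^ (2 * (N - k)) = Qe ^ 2 * (a * B ^ (2 * k))⁻¹ := by
      have e2 : B ^ (2 * (N - k)) * B ^ (2 * k) = B ^ N * B ^ N := by
        rw [← pow_add, ← pow_add]; congr 1; omega
      rw [← hQ, eq_mul_inv_iff_mul_eq₀ (mul_ne_zero ha0 (pow_ne_zero _ hB0))]
      linear_combination (a * a) * e2
    have e3 : (a * B ^ (2 * k))⁻¹ ∈ R n := by
      rw [mul_inv, ← inv_pow]; exact mul_mem hai (pow_mem hBi _)
    have e4 : (1 - a * B ^ (2 * (N - k))) - (-(a * B ^ (2 * k))⁻¹ * (1 - a * B ^ (2 * k))) =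
        -((Qe - 1) * ((Qe + 1) * (a * B ^ (2 * k))⁻¹)) := by
      rw [e1]
      have := mul_ne_zero ha0 (pow_ne_zero (2 * k) hB0)
      field_simp
      ring
    rw [e4]
    exact (hQe.mul_R (mul_mem (add_mem hQe' (one_mem _)) e3)).neg
  have h3 : CA n m (fun c : M => ∏ j, pf n L B (b j) (bs j) (l j) (N - k) c)
      (fun c => ∏ j, (((∏ i ∈ range N, (-(bs j * B ^ i)⁻¹)) * (bs j * (b j)⁻¹) ^ k) *
        pf n L B (b j) (bs j) (l j) k c)) := by
    refine CA.prod univ (F := fun j => pf n L B (b j) (bs j) (l j) (N - k)) (fun j _ => ?_)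
      (fun j _ => pf_an hn hB (hb j) (hbs j) (l j) _) (fun j _ => ?_)
    · exact pf_rev hn hk hNL hB0 (hb0 j) (hbs0 j) hB (hb j) (hbs j) hBi (hbi j) (hbsi j) (l j)
        (h1 j) hQe
    · refine An.smul (mul_mem (prod_mem fun i _ => neg_mem ?_)
        (pow_mem (mul_mem (hbs j) (hbi j)) k)) (pf_an hn hB (hb j) (hbs j) (l j) k)
      rw [mul_inv, ← inv_pow]; exact mul_mem (hbsi j) (pow_mem hBi i)
  have hP1 : AQ n m (fun c : M => ∏ j, pf n L B (b j) (bs j) (l j) (N - k) c) :=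
    An.prod _ fun j _ => pf_an hn hB (hb j) (hbs j) (l j) _
  have e3 : (a * B ^ (2 * k))⁻¹ ∈ R n := by
    rw [mul_inv, ← inv_pow]; exact mul_mem hai (pow_mem hBi _)
  have h4 := ((CA.const (M := M) (m := m) h2).mul
    (CA.refl (fun _ : M => Z ^ (N - k))) (An.const (pow_mem hZ _))
      (An.const (mul_mem (neg_mem e3) (sub_mem (one_mem _) (mul_mem ha (pow_mem hB _)))))).mul h3 hP1
      (An.const (mul_mem (mul_mem (neg_mem e3) (sub_mem (one_mem _) (mul_mem ha (pow_mem hB _))))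
        (pow_mem hZ _)))
  have h5 : CA n m (fun c => (a⁻¹ * Z ^ N * (∏ j, ∏ i ∈ range N, (-(bs j * B ^ i)⁻¹))) *
      (- Un n L a B Z b bs l k c)) (fun c => 1 * (- Un n L a B Z b bs l k c)) :=
    CA.const_mul hκ (Un_an hn ha hB hZ hb hbs l k).neg
  refine (CA.of_eq fun c => rfl).trans (h4.trans ((CA.of_eq fun c => ?_).trans
    (h5.trans (CA.of_eq fun c => by rw [one_mul]))))
  rw [prod_mul_distrib, prod_mul_distrib, prod_pow, hZZ, Un]
  have e5 : Z ^ N = Z ^ (N - k) * Z ^ k := by rw [← pow_add]; congr 1; omega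
  have e6 : (a * B ^ (2 * k))⁻¹ * ((Z * B) ^ 2) ^ k = a⁻¹ * (Z ^ k * Z ^ k) := by
    have h7 := pow_ne_zero (2 * k) hB0
    rw [← pow_mul, mul_pow, mul_inv, two_mul, pow_add Z k k]
    field_simp
  rw [e5]
  linear_combination (-(1 - a * B ^ (2 * k)) * Z ^ (N - k) *
    (∏ j, ∏ i ∈ range N, (-(bs j * B ^ i)⁻¹)) * ∏ j, pf n L B (b j) (bs j) (l j) k c) * e6

/-- the sum over the common denominator -/
def Gn (n L : ℕ) (a B Z : RatFunc ℚ) (b bs : J → RatFunc ℚ) (l : J → M →+ ℤ) (c : M) : RatFunc ℚ :=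
  ∑ k ∈ range (L + 1), Un n L a B Z b bs l k c

theorem Gn_an (hn : 0 < n) {L : ℕ} {a B Z : RatFunc ℚ} {b bs : J → RatFunc ℚ}
    (ha : a ∈ R n) (hB : B ∈ R n) (hZ : Z ∈ R n) (hb : ∀ j, b j ∈ R n) (hbs : ∀ j, bs j ∈ R n)
    (l : J → M →+ ℤ) : AQ n m (Gn n L a B Z b bs l) :=
  An.sum _ fun k _ => Un_an hn ha hB hZ hb hbs l k

theorem half_mem : ((2 : RatFunc ℚ))⁻¹ ∈ R n := by
  have := int_inv_mem (n := n) (z := 2) two_ne_zero
  simpa using this

/-- antisymmetry: the whole sum is divisible by `Φ_n` in the strong sense -/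
theorem Gn_anti (hn : 0 < n) {L N : ℕ} {a B Z Qe : RatFunc ℚ} {b bs : J → RatFunc ℚ}
    (hNL : N ≤ L)
    (ha0 : a ≠ 0) (hB0 : B ≠ 0) (hZ0 : Z ≠ 0) (hb0 : ∀ j, b j ≠ 0) (hbs0 : ∀ j, bs j ≠ 0)
    (ha : a ∈ R n) (hB : B ∈ R n) (hZ : Z ∈ R n) (hb : ∀ j, b j ∈ R n) (hbs : ∀ j, bs j ∈ R n)
    (hai : a⁻¹ ∈ R n) (hBi : B⁻¹ ∈ R n) (hbi : ∀ j, (b j)⁻¹ ∈ R n)
    (hbsi : ∀ j, (bs j)⁻¹ ∈ R n) (l : J → M →+ ℤ)
    (hbb : ∀ j, b j * bs j = a * B) (hQ : a * B ^ N = Qe) (hQe : I n 1 (Qe - 1))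
    (hZZ : ∏ j, (bs j * (b j)⁻¹) = (Z * B) ^ 2)
    (hκ : I n 1 (a⁻¹ * Z ^ N * (∏ j, ∏ i ∈ range N, (-(bs j * B ^ i)⁻¹)) - 1))
    (j0 : J) (hj0 : b j0 = a) (hl0 : l j0 = 0) :
    ∃ g : M → RatFunc ℚ, AQ n m g ∧ ∀ c, Gn n L a B Z b bs l c = cyc n * g c := by
  classical
  have hU : ∀ k, AQ n m (Un n L a B Z b bs l k) := fun k => Un_an hn ha hB hZ hb hbs l k
  -- head
  have h1 : CA n m (fun c : M => ∑ k ∈ range (N + 1), Un n L a B Z b bs l k c) (fun _ => 0) := by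
    have h2 : ∀ s : Finset ℕ, s ⊆ range (N + 1) →
        CA n m (fun c : M => ∑ k ∈ s, (Un n L a B Z b bs l k c + Un n L a B Z b bs l (N - k) c))
          (fun _ => 0) := by
      intro s
      induction s using Finset.induction_on with
      | empty => intro _; simpa using CA.refl _
      | insert x s hx ih =>
        intro hs
        have hx' : x ≤ N := Nat.lt_succ_iff.1 (mem_range.1 (hs (mem_insert_self _ _)))
        have e1 := ih fun y hy => hs (mem_insert_of_mem hy)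
        have e2 := Un_rev (m := m) hn hx' hNL ha0 hB0 hZ0 hb0 hbs0 ha hB hZ hb hbs hai hBi hbi hbsi
          l hbb hQ hQe hZZ hκ
        have e3 := ((CA.refl (Un n L a B Z b bs l x)).add e2).add e1
        refine (CA.of_eq fun c => ?_).trans (e3.trans (CA.of_eq fun c => ?_))
        · rw [sum_insert hx]
        · ring
    obtain ⟨g, hg, h3⟩ := h2 _ (Finset.Subset.refl _)
    refine ⟨_, hg.smul half_mem, fun c => ?_⟩
    have h4 := h3 c
    beta_reduce at h4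
    rw [sum_add_distrib, ← sum_range_reflect (fun k => Un n L a B Z b bs l (N - k) c) (N + 1)] at h4
    have h5 : ∑ j ∈ range (N + 1), Un n L a B Z b bs l (N - (N + 1 - 1 - j)) c =
        ∑ j ∈ range (N + 1), Un n L a B Z b bs l j c := by
      refine sum_congr rfl fun j hj => ?_
      have := mem_range.1 hj
      congr 1
      omega
    rw [h5] at h4
    have h6 : (2 : RatFunc ℚ) ≠ 0 := two_ne_zero
    field_simp
    linear_combination h4
  -- tail
  have h2 : ∀ k, N < k → CA n m (Un n L a B Z b bs l k) (fun _ => 0) := by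
    intro k hk
    obtain ⟨y, hy, hy1⟩ := hQe
    have hN : N ∈ range k := mem_range.2 hk
    have e1 : ∀ c, pf n L B (b j0) (bs j0) (l j0) k c =
        cyc n * (-y * ((∏ i ∈ (range k).erase N, nf n (b j0) B (l j0) i c) *
          ∏ i ∈ Ico k L, df n (bs j0) B (l j0) i c)) := by
      intro c
      rw [pf, ← mul_prod_erase _ _ hN]
      have e2 : nf n (b j0) B (l j0) N c = cyc n * (-y) := by
        rw [nf, hj0, hl0, hQ]
        rw [pow_one] at hy1
        simp only [AddMonoidHom.zero_apply, zpow_zero, mul_one]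
        linear_combination -hy1
      rw [e2]; ring
    have e3 : AQ n m (fun c : M => (-y * ((∏ i ∈ (range k).erase N, nf n (b j0) B (l j0) i c) *
          ∏ i ∈ Ico k L, df n (bs j0) B (l j0) i c))) :=
      An.smul (neg_mem hy) ((An.prod _ fun i _ => nf_an hn (hb j0) hB (l j0) i).mul
        (An.prod _ fun i _ => df_an hn (hbs j0) hB (l j0) i))
    have e4 : AQ n m (fun c : M => (1 - a * B ^ (2 * k)) * Z ^ k *
        ∏ j ∈ univ.erase j0, pf n L B (b j) (bs j) (l j) k c) :=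
      An.mul (An.const (mul_mem (sub_mem (one_mem _) (mul_mem ha (pow_mem hB _)))
        (pow_mem hZ k))) (An.prod _ fun j _ => pf_an hn hB (hb j) (hbs j) (l j) k)
    refine ⟨_, e4.mul e3, fun c => ?_⟩
    rw [Un, ← mul_prod_erase univ _ (mem_univ j0), e1 c]
    ring
  obtain ⟨t, rfl⟩ := Nat.exists_eq_add_of_le hNL
  have h3 : ∀ s : ℕ, CA n m (fun c : M => ∑ k ∈ range s, Un n (N + t) a B Z b bs l (N + 1 + k) c)
      (fun _ => 0) := by
    intro s
    induction s with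
    | zero => simpa using CA.refl _
    | succ s ih =>
      have := ih.add (h2 (N + 1 + s) (by omega))
      refine (CA.of_eq fun c => ?_).trans (this.trans (CA.of_eq fun c => by ring))
      rw [sum_range_succ]
  obtain ⟨g, hg, h4⟩ := h1.add (h3 t)
  refine ⟨g, hg, fun c => ?_⟩
  rw [← h4 c, Gn, show N + t + 1 = N + 1 + t by omega, sum_range_add]
  ring

end

end V11316
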