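import Pool.Agent.V11316.Del4

/-!
The `(8k+1)`-sum: the shift `C → C q^6` and vanishing modulo `Φ_d` for `gcd(d,6) = 1`.
-/

open Finset Polynomial

namespace V11316.G8

open V11307.Q V11316 V11316.Del

noncomputable section

/-- `h_n(C)` with `C = q^{6j}` -/
def hG (j n : ℕ) : RatFunc ℚ :=
  poch (q ^ 2) q n ^ 2 * poch (q ^ 2) (q ^ (6 * j + 1)) (2 * n) * q ^ (2 * n ^ 2) /
    (poch (q ^ 6) (q ^ (6 * j + 6)) n ^ 2 * poch (q ^ 2) (q ^ 2) (2 * n))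

theorem den_ne (j n : ℕ) : poch (q ^ 6) (q ^ (6 * j + 6) : RatFunc ℚ) n ≠ 0 := by
  refine poch_ne_zero fun i _ h => ?_
  have h1 : (1 : RatFunc ℚ) - q ^ (6 * j + 6 + 6 * i) ≠ 0 := one_sub_ne (by omega)
  apply h1
  rw [pow_add, pow_mul q 6 i, h, sub_self]

theorem hG_zero (j : ℕ) : hG j 0 = 1 := by simp [hG]

theorem hG_succ (j n : ℕ) : hG j (n + 1) = hG j n *
    (q ^ 2 * (q ^ n) ^ 4 * (1 - q * (q ^ n) ^ 2) ^ 2 * (1 - q ^ (6 * j) * q * (q ^ n) ^ 4) *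
      (1 - q ^ (6 * j) * q ^ 3 * (q ^ n) ^ 4) /
      ((1 - q ^ (6 * j) * q ^ 6 * (q ^ n) ^ 6) ^ 2 * (1 - q ^ 2 * (q ^ n) ^ 4) *
        (1 - q ^ 4 * (q ^ n) ^ 4))) := by
  rw [hG, hG, poch_succ, poch_succ, show 2 * (n + 1) = 2 * n + 1 + 1 by ring, poch_succ, poch_succ,
    poch_succ, poch_succ]
  have e1 : (q * (q ^ 2) ^ n : RatFunc ℚ) = q * (q ^ n) ^ 2 := by rw [pow_right_comm]
  have e2 : (q ^ (6 * j + 1) * (q ^ 2) ^ (2 * n) : RatFunc ℚ) = q ^ (6 * j) * q * (q ^ n) ^ 4 := by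
    rw [← pow_mul, ← pow_mul, ← pow_add, ← pow_succ, ← pow_add]; congr 1; ring
  have e3 : (q ^ (6 * j + 1) * (q ^ 2) ^ (2 * n + 1) : RatFunc ℚ) =
      q ^ (6 * j) * q ^ 3 * (q ^ n) ^ 4 := by
    rw [← pow_mul, ← pow_mul, ← pow_add, ← pow_add, ← pow_add]; congr 1; ring
  have e4 : (q ^ (6 * j + 6) * (q ^ 6) ^ n : RatFunc ℚ) = q ^ (6 * j) * q ^ 6 * (q ^ n) ^ 6 := by
    rw [← pow_mul, ← pow_mul, ← pow_add, ← pow_add, ← pow_add]; congr 1; ring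
  have e5 : (q ^ 2 * (q ^ 2) ^ (2 * n) : RatFunc ℚ) = q ^ 2 * (q ^ n) ^ 4 := by
    rw [← pow_mul, ← pow_mul]; congr 2; ring
  have e6 : (q ^ 2 * (q ^ 2) ^ (2 * n + 1) : RatFunc ℚ) = q ^ 4 * (q ^ n) ^ 4 := by
    rw [← pow_mul, ← pow_mul, ← pow_add, ← pow_add]; congr 1; ring
  have e7 : (q ^ (2 * (n + 1) ^ 2) : RatFunc ℚ) = q ^ (2 * n ^ 2) * (q ^ 2 * (q ^ n) ^ 4) := by
    rw [← pow_mul, ← pow_add, ← pow_add]; congr 1; ring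
  rw [e1, e2, e3, e4, e5, e6, e7, mul_pow, mul_pow]
  rw [div_mul_div_comm]
  congr 1 <;> ring

/-- `f_n(C)` -/
def fG (j n : ℕ) : RatFunc ℚ := (1 - q ^ (6 * j) * q * (q ^ n) ^ 8) * hG j n

/-- the certificate -/
def gG (j n : ℕ) : RatFunc ℚ :=
  q ^ (6 * j) * q ^ 3 * hG j n * (1 - (q ^ 2)⁻¹ * (q ^ n) ^ 4) * (1 - (q ^ n) ^ 4)

theorem gG_zero (j : ℕ) : gG j 0 = 0 := by simp [gG]

theorem poch_shift3 (a : RatFunc ℚ) (N : ℕ) :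
    (1 - a) * (1 - a * q ^ 2) * (1 - a * q ^ 4) * poch (q ^ 2) (a * q ^ 6) N =
      poch (q ^ 2) a N * ((1 - a * (q ^ 2) ^ N) * (1 - a * (q ^ 2) ^ (N + 1)) *
        (1 - a * (q ^ 2) ^ (N + 2))) := by
  have h1 : poch (q ^ 2) a (N + 3) = (1 - a) * (1 - a * q ^ 2) * (1 - a * q ^ 4) *
      poch (q ^ 2) (a * q ^ 6) N := by
    rw [show N + 3 = N + 2 + 1 by ring, poch_succ', show N + 2 = N + 1 + 1 by ring, poch_succ',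
      poch_succ']
    rw [show a * q ^ 2 * q ^ 2 = a * q ^ 4 by ring, show a * q ^ 4 * q ^ 2 = a * q ^ 6 by ring]
    ring
  rw [← h1, show N + 3 = N + 2 + 1 by ring, poch_succ, poch_succ, poch_succ]
  ring

theorem poch_shift1 (a b : RatFunc ℚ) (N : ℕ) :
    (1 - a) * poch b (a * b) N = poch b a N * (1 - a * b ^ N) := by
  rw [← poch_succ, poch_succ']

/-- relation between `h_n(Cq^6)` and `h_n(C)` -/
theorem hG_shift (j n : ℕ) :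
    (1 - q ^ (6 * j) * q) * (1 - q ^ (6 * j) * q ^ 3) * (1 - q ^ (6 * j) * q ^ 5) *
      (1 - q ^ (6 * j) * q ^ 6 * (q ^ n) ^ 6) ^ 2 * hG (j + 1) n =
      (1 - q ^ (6 * j) * q ^ 6) ^ 2 * ((1 - q ^ (6 * j) * q * (q ^ n) ^ 4) *
        (1 - q ^ (6 * j) * q ^ 3 * (q ^ n) ^ 4) * (1 - q ^ (6 * j) * q ^ 5 * (q ^ n) ^ 4)) *
          hG j n := by
  have h1 := poch_shift3 (q ^ (6 * j + 1)) (2 * n)
  have h2 := poch_shift1 (q ^ (6 * j + 6)) (q ^ 6) n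
  have d1 := den_ne j n
  have d2 := den_ne (j + 1) n
  have d3 : poch (q ^ 2) (q ^ 2 : RatFunc ℚ) (2 * n) ≠ 0 := poch_qm_ne two_pos _
  have a1 : (q ^ (6 * (j + 1) + 1) : RatFunc ℚ) = q ^ (6 * j + 1) * q ^ 6 := by
    rw [← pow_add]; congr 1
  have a2 : (q ^ (6 * (j + 1) + 6) : RatFunc ℚ) = q ^ (6 * j + 6) * q ^ 6 := by
    rw [← pow_add]; congr 1
  have b1 : (q ^ (6 * j) * q : RatFunc ℚ) = q ^ (6 * j + 1) := by rw [pow_succ]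
  have b2 : (q ^ (6 * j) * q ^ 3 : RatFunc ℚ) = q ^ (6 * j + 1) * q ^ 2 := by rw [pow_succ]; ring
  have b3 : (q ^ (6 * j) * q ^ 5 : RatFunc ℚ) = q ^ (6 * j + 1) * q ^ 4 := by rw [pow_succ]; ring
  have b4 : (q ^ (6 * j) * q ^ 6 : RatFunc ℚ) = q ^ (6 * j + 6) := by rw [pow_add]
  have c1 : ((q ^ n) ^ 6 : RatFunc ℚ) = (q ^ 6) ^ n := by rw [pow_right_comm]
  have c2 : (q ^ (6 * j + 1) * (q ^ n) ^ 4 : RatFunc ℚ) = q ^ (6 * j + 1) * (q ^ 2) ^ (2 * n) := by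
    rw [← pow_mul, ← pow_mul]; congr 2; ring
  have c3 : (q ^ (6 * j + 1) * q ^ 2 * (q ^ n) ^ 4 : RatFunc ℚ) =
      q ^ (6 * j + 1) * (q ^ 2) ^ (2 * n + 1) := by
    rw [mul_assoc, ← pow_mul, ← pow_mul, ← pow_add]; congr 2; ring
  have c4 : (q ^ (6 * j + 1) * q ^ 4 * (q ^ n) ^ 4 : RatFunc ℚ) =
      q ^ (6 * j + 1) * (q ^ 2) ^ (2 * n + 2) := by
    rw [mul_assoc, ← pow_mul, ← pow_mul, ← pow_add]; congr 2; ring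
  rw [b1, b2, b3, b4, c1, c2, c3, c4, hG, hG, a1, a2]
  rw [a2] at d2
  set A := poch (q ^ 2) (q ^ (6 * j + 1) * q ^ 6 : RatFunc ℚ) (2 * n)
  set B := poch (q ^ 2) (q ^ (6 * j + 1) : RatFunc ℚ) (2 * n)
  set D := poch (q ^ 6) (q ^ (6 * j + 6) * q ^ 6 : RatFunc ℚ) n
  set E := poch (q ^ 6) (q ^ (6 * j + 6) : RatFunc ℚ) n
  set W := poch (q ^ 2) (q ^ 2 : RatFunc ℚ) (2 * n)
  set Z := poch (q ^ 2) (q : RatFunc ℚ) n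
  set u := (q ^ (6 * j + 6) : RatFunc ℚ)
  set t := (q ^ (6 * j + 1) : RatFunc ℚ)
  have e1 : (1 - t) * (1 - t * q ^ 2) * (1 - t * q ^ 4) * (1 - u * (q ^ 6) ^ n) ^ 2 *
      (Z ^ 2 * A * q ^ (2 * n ^ 2) / (D ^ 2 * W)) =
      ((1 - t) * (1 - t * q ^ 2) * (1 - t * q ^ 4) * A) * ((1 - u * (q ^ 6) ^ n) ^ 2 *
      (Z ^ 2 * q ^ (2 * n ^ 2) / (D ^ 2 * W))) := by ring
  rw [e1, h1]
  have e2 : (1 - u * (q ^ 6) ^ n) ^ 2 * E ^ 2 = (1 - u) ^ 2 * D ^ 2 := by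
    rw [← mul_pow, ← mul_pow, h2]; ring
  have e3 : (1 - u * (q ^ 6) ^ n) ^ 2 / D ^ 2 = (1 - u) ^ 2 / E ^ 2 := by
    rw [div_eq_div_iff (pow_ne_zero 2 d2) (pow_ne_zero 2 d1)]
    exact e2
  linear_combination (B * ((1 - t * (q ^ 2) ^ (2 * n)) * (1 - t * (q ^ 2) ^ (2 * n + 1)) *
    (1 - t * (q ^ 2) ^ (2 * n + 2))) * Z ^ 2 * q ^ (2 * n ^ 2) * W⁻¹) * e3

/-- the telescoping relation -/
theorem tele (j n : ℕ) :
    (1 - q ^ (6 * j) * q ^ 3) * fG j n -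
      (1 - q ^ (6 * j) * q) * (1 - q ^ (6 * j) * q ^ 3) * (1 - q ^ (6 * j) * q ^ 5) /
        (1 - q ^ (6 * j) * q ^ 6) ^ 2 * fG (j + 1) n = gG j (n + 1) - gG j n := by
  have hs := hG_shift j n
  have n1 : (1 - q ^ (6 * j) * q ^ 6 : RatFunc ℚ) ≠ 0 := by
    rw [← pow_add]; exact one_sub_ne (by omega)
  have n2 : (1 - q ^ (6 * j) * q ^ 6 * (q ^ n) ^ 6 : RatFunc ℚ) ≠ 0 := by
    rw [← pow_mul, ← pow_add, ← pow_add]; exact one_sub_ne (by omega)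
  have n3 : (1 - q ^ 2 * (q ^ n) ^ 4 : RatFunc ℚ) ≠ 0 := by
    rw [← pow_mul, ← pow_add]; exact one_sub_ne (by omega)
  have n4 : (1 - q ^ 4 * (q ^ n) ^ 4 : RatFunc ℚ) ≠ 0 := by
    rw [← pow_mul, ← pow_add]; exact one_sub_ne (by omega)
  have n5 : (q : RatFunc ℚ) ≠ 0 := q_ne
  have hs' : (1 - q ^ (6 * j) * q) * (1 - q ^ (6 * j) * q ^ 3) * (1 - q ^ (6 * j) * q ^ 5) /
        (1 - q ^ (6 * j) * q ^ 6) ^ 2 * fG (j + 1) n =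
      (1 - q ^ (6 * j) * q ^ 7 * (q ^ n) ^ 8) * ((1 - q ^ (6 * j) * q * (q ^ n) ^ 4) *
        (1 - q ^ (6 * j) * q ^ 3 * (q ^ n) ^ 4) * (1 - q ^ (6 * j) * q ^ 5 * (q ^ n) ^ 4)) /
          (1 - q ^ (6 * j) * q ^ 6 * (q ^ n) ^ 6) ^ 2 * hG j n := by
    rw [fG]
    have e1 : (q ^ (6 * (j + 1)) * q * (q ^ n) ^ 8 : RatFunc ℚ) =
        q ^ (6 * j) * q ^ 7 * (q ^ n) ^ 8 := by
      rw [show 6 * (j + 1) = 6 * j + 6 by ring, pow_add]; ring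
    rw [e1, div_mul_eq_mul_div, div_mul_eq_mul_div, div_eq_div_iff (pow_ne_zero 2 n1)
      (pow_ne_zero 2 n2)]
    linear_combination (1 - q ^ (6 * j) * q ^ 7 * (q ^ n) ^ 8) * hs
  rw [hs', fG, gG, gG, hG_succ, pow_succ q n]
  set C := (q ^ (6 * j) : RatFunc ℚ)
  set x := (q ^ n : RatFunc ℚ)
  set H := hG j n
  field_simp
  ring

end

end V11316.G8
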