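import Pool.Agent.V11316.G8a

/-!
The `(8k+1)`-sum: the vanishing of one block, and all blocks.
-/

open Finset Polynomial

namespace V11316.G8

open V11307.Q V11316 V11316.Del

noncomputable section

theorem cop_six {d m : ℕ} (hd : d.Coprime 6) (h : ¬ d ∣ m) : ¬ d ∣ 6 * m := fun h' =>
  h (hd.dvd_of_dvd_mul_left h')

theorem cop_odd {d : ℕ} (hd : d.Coprime 6) : d % 2 = 1 := by
  rcases Nat.mod_two_eq_zero_or_one d with h | h
  · exfalso
    have h1 : 2 ∣ d.gcd 6 := Nat.dvd_gcd (Nat.dvd_of_mod_eq_zero h) (by norm_num)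
    rw [hd] at h1
    omega
  · exact h

theorem cop_three {d : ℕ} (hd : d.Coprime 6) : ¬ 3 ∣ d := fun h => by
  have h1 : 3 ∣ d.gcd 6 := Nat.dvd_gcd h (by norm_num)
  rw [hd] at h1
  omega

theorem cop_two {d m : ℕ} (hd : d % 2 = 1) (h : ¬ d ∣ m) : ¬ d ∣ 2 * m := fun h' => by
  have h2 : Nat.Coprime d 2 := by
    rw [Nat.coprime_two_right, Nat.odd_iff]; exact hd
  exact h (h2.dvd_of_dvd_mul_left h')

theorem ndb {d m : ℕ} (h0 : 0 < m) (h1 : m < d) : ¬ d ∣ m := fun h => by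
  have := Nat.le_of_dvd h0 h
  omega

/-- `h_n(q^{6j})` is integral -/
theorem hG_mem {d : ℕ} (hd : d.Coprime 6) (hd1 : 1 < d) {j n : ℕ} (hj : 6 * j ≤ d + 5)
    (hn : 2 * n + 1 ≤ d) : hG j n ∈ R d := by
  have hd0 : 0 < d := by omega
  rw [hG, div_eq_mul_inv, mul_inv, ← inv_pow]
  refine mul_mem (mul_mem (mul_mem (pow_mem ?_ 2) ?_) (qpow_mem _)) (mul_mem (pow_mem ?_ 2) ?_)
  · rw [poch]
    exact prod_mem fun i _ => sub_mem (one_mem _) (mul_mem q_mem (pow_mem (qpow_mem 2) _))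
  · rw [poch]
    exact prod_mem fun i _ => sub_mem (one_mem _) (mul_mem (qpow_mem _) (pow_mem (qpow_mem 2) _))
  · refine poch_inv_mem fun i hi => ?_
    rw [← pow_mul, ← pow_add, show 6 * j + 6 + 6 * i = 6 * (j + 1 + i) by ring]
    exact inv_one_sub hd0 (cop_six hd (ndb (by omega) (by omega)))
  · refine poch_inv_mem fun i hi => ?_
    rw [← pow_mul, ← pow_add, show 2 + 2 * i = 2 * (i + 1) by ring]
    exact inv_one_sub hd0 (cop_two (cop_odd hd) (ndb (by omega) (by omega)))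

theorem fG_mem {d : ℕ} (hd : d.Coprime 6) (hd1 : 1 < d) {j n : ℕ} (hj : 6 * j ≤ d + 5)
    (hn : 2 * n + 1 ≤ d) : fG j n ∈ R d :=
  mul_mem (sub_mem (one_mem _) (mul_mem (mul_mem (qpow_mem _) q_mem) (pow_mem (qpow_mem _) _)))
    (hG_mem hd hd1 hj hn)

/-- the sum over a full block -/
def SG (M j : ℕ) : RatFunc ℚ := ∑ n ∈ range (M + 1), fG j n

theorem SG_mem {d M : ℕ} (hd : d.Coprime 6) (hd1 : 1 < d) (hM : 2 * M + 1 = d) {j : ℕ}
    (hj : 6 * j ≤ d + 5) : SG M j ∈ R d :=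
  sum_mem fun n hn => fG_mem hd hd1 hj (by have := mem_range.1 hn; omega)

theorem gG_I {d M : ℕ} (hd : d.Coprime 6) (hd1 : 1 < d) (hM : 2 * M + 1 = d) {j : ℕ}
    (hj : 6 * j < d) : I d 1 (gG j (M + 1)) := by
  have hd0 : 0 < d := by omega
  have n3 : (1 - q ^ 2 * (q ^ M) ^ 4 : RatFunc ℚ) ≠ 0 := by
    rw [← pow_mul, ← pow_add]; exact one_sub_ne (by omega)
  have n4 : (1 - q ^ 4 * (q ^ M) ^ 4 : RatFunc ℚ) ≠ 0 := by
    rw [← pow_mul, ← pow_add]; exact one_sub_ne (by omega)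
  have n5 : (q : RatFunc ℚ) ≠ 0 := q_ne
  have e1 : gG j (M + 1) = (1 - q * (q ^ M) ^ 2) * ((1 - q * (q ^ M) ^ 2) *
      (q ^ (6 * j) * q ^ 3 * hG j M * (q ^ 2 * (q ^ M) ^ 4 *
        (1 - q ^ (6 * j) * q * (q ^ M) ^ 4) * (1 - q ^ (6 * j) * q ^ 3 * (q ^ M) ^ 4)) *
          ((1 - q ^ (6 * j) * q ^ 6 * (q ^ M) ^ 6)⁻¹) ^ 2)) := by
    rw [gG, hG_succ, pow_succ q M]
    have n2 : (1 - q ^ (6 * j) * q ^ 6 * (q ^ M) ^ 6 : RatFunc ℚ) ≠ 0 := by
      rw [← pow_mul, ← pow_add, ← pow_add]; exact one_sub_ne (by omega)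
    field_simp
  have e2 : (1 - q * (q ^ M) ^ 2 : RatFunc ℚ) = 1 - q ^ d := by
    rw [← hM, ← pow_mul, ← pow_succ']; congr 2; ring
  rw [e1, e2]
  have hm : ∀ a : ℕ, (q ^ M : RatFunc ℚ) ^ a ∈ R d := fun a => pow_mem (qpow_mem _) _
  refine (I_one_sub_pow hd0 dvd_rfl).mul_R (mul_mem (sub_mem (one_mem _) (qpow_mem _))
    (mul_mem (mul_mem (mul_mem (mul_mem (qpow_mem _) (qpow_mem _)) (hG_mem hd hd1 (by omega)
      (by omega))) (mul_mem (mul_mem (mul_mem (qpow_mem _) (hm _)) (sub_mem (one_mem _)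
        (mul_mem (mul_mem (qpow_mem _) q_mem) (hm _)))) (sub_mem (one_mem _)
          (mul_mem (mul_mem (qpow_mem _) (qpow_mem _)) (hm _))))) (pow_mem ?_ 2)))
  rw [← pow_mul, ← pow_add, ← pow_add, show 6 * j + 6 + M * 6 = 6 * (j + 1 + M) by ring]
  exact inv_one_sub hd0 (cop_six hd (ndb (by omega) (by omega)))

theorem tele_sum (M j : ℕ) :
    (1 - q ^ (6 * j + 3)) * SG M j =
      (1 - q ^ (6 * j + 1)) * ((1 - q ^ (6 * j + 5)) * ((1 - q ^ (6 * j + 3)) *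
        ((1 - q ^ (6 * (j + 1)))⁻¹) ^ 2 * SG M (j + 1))) + gG j (M + 1) := by
  have h1 : ∑ n ∈ range (M + 1), (gG j (n + 1) - gG j n) = gG j (M + 1) := by
    rw [sum_range_sub, gG_zero, sub_zero]
  rw [← h1, SG, SG, mul_sum, mul_sum, mul_sum, mul_sum, ← sum_add_distrib]
  refine sum_congr rfl fun n _ => ?_
  rw [← tele]
  have b1 : (q ^ (6 * j) * q : RatFunc ℚ) = q ^ (6 * j + 1) := by rw [pow_succ]
  have b2 : (q ^ (6 * j) * q ^ 3 : RatFunc ℚ) = q ^ (6 * j + 3) := by rw [pow_add]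
  have b3 : (q ^ (6 * j) * q ^ 5 : RatFunc ℚ) = q ^ (6 * j + 5) := by rw [pow_add]
  have b4 : (q ^ (6 * j) * q ^ 6 : RatFunc ℚ) = q ^ (6 * (j + 1)) := by
    rw [← pow_add]; congr 1
  rw [b1, b2, b3, b4, div_eq_mul_inv, inv_pow]
  ring

/-- the block sums vanish modulo `Φ_d` -/
theorem SG_I {d M : ℕ} (hd : d.Coprime 6) (hd1 : 1 < d) (hM : 2 * M + 1 = d) :
    I d 1 (SG M 0) := by
  have hd0 : 0 < d := by omega
  have ho := cop_odd hd
  have h3 := cop_three hd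
  obtain ⟨J, hJ⟩ : ∃ J, d = 6 * J + 1 ∨ d = 6 * J + 5 := ⟨d / 6, by omega⟩
  have key : ∀ j, j ≤ J → I d 1 (SG M (j + 1)) ∨ j = J → I d 1 (SG M j) := by
    intro j hj h
    have hu : (1 - q ^ (6 * j + 3) : RatFunc ℚ)⁻¹ ∈ R d := by
      refine inv_one_sub hd0 fun hdv => ?_
      by_cases hlt : 6 * j + 3 < d
      · exact ndb (by omega) hlt hdv
      · have h5 : d = 6 * J + 1 ∧ j = J := by omega
        have h6 := (Nat.dvd_sub hdv (dvd_refl d))
        have h7 : 6 * j + 3 - d = 2 := by omega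
        rw [h7] at h6
        have := Nat.le_of_dvd (by norm_num) h6
        omega
    have hu0 : (1 - q ^ (6 * j + 3) : RatFunc ℚ) ≠ 0 := one_sub_ne (by omega)
    have hv : (1 - q ^ (6 * (j + 1)) : RatFunc ℚ)⁻¹ ∈ R d :=
      inv_one_sub hd0 (cop_six hd (ndb (by omega) (by omega)))
    have hSm := SG_mem hd hd1 hM (j := j + 1) (by omega)
    have o : ∀ a : ℕ, (1 - q ^ a : RatFunc ℚ) ∈ R d := fun a => sub_mem (one_mem _) (qpow_mem _)
    have h1 : I d 1 ((1 - q ^ (6 * j + 1)) * ((1 - q ^ (6 * j + 5)) * ((1 - q ^ (6 * j + 3)) *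
        ((1 - q ^ (6 * (j + 1)))⁻¹) ^ 2 * SG M (j + 1)))) := by
      rcases h with h | rfl
      · exact I.R_mul (o _) (I.R_mul (o _) (I.R_mul (mul_mem (o _) (pow_mem hv 2)) h))
      · rcases hJ with hJ | hJ
        · exact (I_one_sub_pow hd0 (by rw [hJ])).mul_R (mul_mem (o _) (mul_mem (mul_mem (o _)
            (pow_mem hv 2)) hSm))
        · exact I.R_mul (o _) ((I_one_sub_pow hd0 (by rw [hJ])).mul_R (mul_mem (mul_mem (o _)
            (pow_mem hv 2)) hSm))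
    have h2 := h1.add (gG_I hd hd1 hM (j := j) (by omega))
    rw [← tele_sum] at h2
    have h4 := I.R_mul hu h2
    rwa [← mul_assoc, inv_mul_cancel₀ hu0, one_mul] at h4
  have h5 : ∀ t, t ≤ J → I d 1 (SG M (J - t)) := by
    intro t
    induction t with
    | zero => intro _; exact key J le_rfl (Or.inr rfl)
    | succ t ih =>
      intro ht
      refine key (J - (t + 1)) (by omega) (Or.inl ?_)
      rw [show J - (t + 1) + 1 = J - t by omega]
      exact ih (by omega)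
  have h6 := h5 J le_rfl
  rwa [Nat.sub_self] at h6

/-! ### the ratios -/

/-- numerator of the ratio -/
def NN (k : ℕ) : RatFunc ℚ := (1 - q ^ (2 * k + 1)) * (1 - q ^ (4 * k + 1)) * (1 - q ^ (4 * k + 3))

/-- inverse of the denominator of the ratio -/
def DI (k : ℕ) : RatFunc ℚ :=
  (1 + q ^ (2 * k + 1))⁻¹ * (1 - q ^ (4 * (k + 1)))⁻¹ * ((1 - q ^ (6 * (k + 1)))⁻¹) ^ 2

/-- the ratio -/
def rr (k : ℕ) : RatFunc ℚ := NN k * DI k

/-- the basic product -/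
def w (k : ℕ) : RatFunc ℚ := ∏ i ∈ range k, rr i

theorem one_add_ne (m : ℕ) : (1 + q ^ m : RatFunc ℚ) ≠ 0 := by
  rcases Nat.eq_zero_or_pos m with rfl | hm
  · norm_num
  · intro h
    have h5 : (1 - q ^ (2 * m) : RatFunc ℚ) ≠ 0 := one_sub_ne (by omega)
    have h7 : (1 - q ^ (2 * m) : RatFunc ℚ) = (1 - q ^ m) * (1 + q ^ m) := by
      rw [mul_comm 2 m, pow_mul]; ring
    rw [h7, h, mul_zero] at h5
    exact h5 rfl

theorem one_add_inv {d : ℕ} (hd : 0 < d) (ho : d % 2 = 1) (m : ℕ) :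
    (1 + q ^ m : RatFunc ℚ)⁻¹ ∈ R d := by
  have e1 : (1 + q ^ m : RatFunc ℚ) = φ (1 + X ^ m) := by
    rw [map_add, map_one, map_pow, φ_X]
  rw [e1]
  refine inv_mem hd fun h => ?_
  have h1 : cyclotomic d ℚ ∣ (X ^ (2 * m) - 1 : ℚ[X]) := by
    have : (X ^ (2 * m) - 1 : ℚ[X]) = (1 + X ^ m) * (X ^ m - 1) := by ring
    rw [this]; exact h.mul_right _
  rw [cyc_dvd_iff hd] at h1
  have h2 : d ∣ m := by
    by_contra hc
    exact cop_two ho hc h1
  rw [← cyc_dvd_iff hd] at h2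
  have h3 : cyclotomic d ℚ ∣ (C 2 : ℚ[X]) := by
    have : (C 2 : ℚ[X]) = (1 + X ^ m) - (X ^ m - 1) := by
      rw [show (C 2 : ℚ[X]) = 2 from rfl]; ring
    rw [this]; exact dvd_sub h h2
  exact (cyc_irr hd).not_isUnit (isUnit_of_dvd_unit h3 (isUnit_C.2 (by norm_num)))

theorem hG_w (n : ℕ) : hG 0 n = q ^ (2 * n ^ 2) * w n := by
  induction n with
  | zero => simp [hG_zero, w]
  | succ n ih =>
    rw [hG_succ, ih, w, w, prod_range_succ, rr, NN, DI]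
    have n3 : (1 + q ^ (2 * n + 1) : RatFunc ℚ) ≠ 0 := one_add_ne _
    have n3' : (1 - q ^ (2 * n + 1) : RatFunc ℚ) ≠ 0 := one_sub_ne (by omega)
    have n4 : (1 - q ^ (4 * (n + 1)) : RatFunc ℚ) ≠ 0 := one_sub_ne (by omega)
    have n5 : (1 - q ^ (6 * (n + 1)) : RatFunc ℚ) ≠ 0 := one_sub_ne (by omega)
    have e1 : (q * (q ^ n) ^ 2 : RatFunc ℚ) = q ^ (2 * n + 1) := by
      rw [← pow_mul, ← pow_succ']; congr 1; ring
    have e2 : (q ^ (6 * 0) * q * (q ^ n) ^ 4 : RatFunc ℚ) = q ^ (4 * n + 1) := by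
      rw [mul_zero, pow_zero, one_mul, ← pow_mul, ← pow_succ']; congr 1; ring
    have e3 : (q ^ (6 * 0) * q ^ 3 * (q ^ n) ^ 4 : RatFunc ℚ) = q ^ (4 * n + 3) := by
      rw [mul_zero, pow_zero, one_mul, ← pow_mul, ← pow_add]; congr 1; ring
    have e4 : (q ^ (6 * 0) * q ^ 6 * (q ^ n) ^ 6 : RatFunc ℚ) = q ^ (6 * (n + 1)) := by
      rw [mul_zero, pow_zero, one_mul, ← pow_mul, ← pow_add]; congr 1; ring
    have e5 : (q ^ 2 * (q ^ n) ^ 4 : RatFunc ℚ) = (q ^ (2 * n + 1)) ^ 2 := by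
      rw [← pow_mul, ← pow_mul, ← pow_add]; congr 1; ring
    have e6 : (q ^ 4 * (q ^ n) ^ 4 : RatFunc ℚ) = q ^ (4 * (n + 1)) := by
      rw [← pow_mul, ← pow_add]; congr 1; ring
    have e7 : (q ^ (2 * (n + 1) ^ 2) : RatFunc ℚ) = q ^ (2 * n ^ 2) * (q ^ (2 * n + 1)) ^ 2 := by
      rw [← pow_mul, ← pow_add]; congr 1; ring
    rw [e1, e2, e3, e4, e5, e6, e7]
    have e8 : (1 - (q ^ (2 * n + 1)) ^ 2 : RatFunc ℚ) = (1 - q ^ (2 * n + 1)) * (1 + q ^ (2 * n + 1)) := by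
      ring
    rw [e8]
    field_simp

/-- powers of `q` modulo `Φ_d` -/
theorem qcong {d : ℕ} (hd : 0 < d) {a b : ℕ} (h : a % d = b % d) : I d 1 (q ^ a - q ^ b : RatFunc ℚ) := by
  have key : ∀ a : ℕ, I d 1 (q ^ a - q ^ (a % d) : RatFunc ℚ) := by
    intro a
    have h1 := I.R_mul (qpow_mem (n := d) (a % d)) (I_one_sub_pow hd (Dvd.intro (a / d) rfl)).neg
    refine (congrArg (I d 1) ?_).mp h1
    have : (q ^ a : RatFunc ℚ) = q ^ (a % d) * q ^ (d * (a / d)) := by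
      rw [← pow_add, Nat.mod_add_div]
    rw [this]; ring
  have h1 := (key a).sub (key b)
  rw [h] at h1
  refine (congrArg (I d 1) ?_).mp h1
  ring

theorem DI_mem {d : ℕ} (hd : d.Coprime 6) (hd1 : 1 < d) {k : ℕ} (hk : ¬ d ∣ k + 1) : DI k ∈ R d := by
  have hd0 : 0 < d := by omega
  refine mul_mem (mul_mem (one_add_inv hd0 (cop_odd hd) _) ?_) (pow_mem ?_ 2)
  · rw [show 4 * (k + 1) = 2 * (2 * (k + 1)) by ring]
    exact inv_one_sub hd0 (cop_two (cop_odd hd) (cop_two (cop_odd hd) hk))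
  · exact inv_one_sub hd0 (cop_six hd hk)

theorem NN_mem {d : ℕ} (k : ℕ) : NN k ∈ R d :=
  mul_mem (mul_mem (sub_mem (one_mem _) (qpow_mem _)) (sub_mem (one_mem _) (qpow_mem _)))
    (sub_mem (one_mem _) (qpow_mem _))

theorem rr_mem {d : ℕ} (hd : d.Coprime 6) (hd1 : 1 < d) {k : ℕ} (hk : ¬ d ∣ k + 1) : rr k ∈ R d :=
  mul_mem (NN_mem k) (DI_mem hd hd1 hk)

/-- congruence of inverses -/
theorem inv_cong {d : ℕ} {x y : RatFunc ℚ} (hx : x ≠ 0) (hy : y ≠ 0) (hxi : x⁻¹ ∈ R d)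
    (hyi : y⁻¹ ∈ R d) (h : I d 1 (x - y)) : I d 1 (x⁻¹ - y⁻¹) := by
  have h1 := (h.mul_R (mul_mem hxi hyi)).neg
  refine (congrArg (I d 1) ?_).mp h1
  field_simp
  ring

theorem rr_cong {d : ℕ} (hd : d.Coprime 6) (hd1 : 1 < d) {k k' : ℕ} (hk : ¬ d ∣ k + 1)
    (hk' : ¬ d ∣ k' + 1) (h : k % d = k' % d) : I d 1 (rr k - rr k') := by
  have hd0 : 0 < d := by omega
  have ho := cop_odd hd
  have hm : ∀ a b : ℕ, (a * k + b) % d = (a * k' + b) % d := by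
    intro a b
    have : a * k + b ≡ a * k' + b [MOD d] := Nat.ModEq.add_right b (Nat.ModEq.mul_left a h)
    exact this
  have hs : ∀ a b : ℕ, I d 1 ((1 - q ^ (a * k + b)) - (1 - q ^ (a * k' + b)) : RatFunc ℚ) := by
    intro a b
    refine (congrArg (I d 1) ?_).mp (qcong hd0 (hm a b)).neg
    ring
  have hN : I d 1 (NN k - NN k') := by
    refine I.mul_congr (I.mul_congr (hs 2 1) (hs 4 1) ?_ ?_) (hs 4 3) ?_ ?_
    all_goals first
      | exact sub_mem (one_mem _) (qpow_mem _)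
      | exact mul_mem (sub_mem (one_mem _) (qpow_mem _)) (sub_mem (one_mem _) (qpow_mem _))
  have c1 : I d 1 ((1 + q ^ (2 * k + 1))⁻¹ - (1 + q ^ (2 * k' + 1))⁻¹ : RatFunc ℚ) := by
    refine inv_cong (one_add_ne _) (one_add_ne _) (one_add_inv hd0 ho _) (one_add_inv hd0 ho _) ?_
    refine (congrArg (I d 1) ?_).mp (qcong hd0 (hm 2 1))
    ring
  have u4 : ∀ k : ℕ, ¬ d ∣ k + 1 → (1 - q ^ (4 * (k + 1)) : RatFunc ℚ)⁻¹ ∈ R d := by
    intro k hk
    rw [show 4 * (k + 1) = 2 * (2 * (k + 1)) by ring]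
    exact inv_one_sub hd0 (cop_two ho (cop_two ho hk))
  have u6 : ∀ k : ℕ, ¬ d ∣ k + 1 → (1 - q ^ (6 * (k + 1)) : RatFunc ℚ)⁻¹ ∈ R d :=
    fun k hk => inv_one_sub hd0 (cop_six hd hk)
  have c2 : I d 1 ((1 - q ^ (4 * (k + 1)))⁻¹ - (1 - q ^ (4 * (k' + 1)))⁻¹ : RatFunc ℚ) :=
    inv_cong (one_sub_ne (by omega)) (one_sub_ne (by omega)) (u4 k hk) (u4 k' hk') (hs 4 4)
  have c3 : I d 1 ((1 - q ^ (6 * (k + 1)))⁻¹ - (1 - q ^ (6 * (k' + 1)))⁻¹ : RatFunc ℚ) :=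
    inv_cong (one_sub_ne (by omega)) (one_sub_ne (by omega)) (u6 k hk) (u6 k' hk') (hs 6 6)
  have hD : I d 1 (DI k - DI k') := by
    have a1 := one_add_inv hd0 ho (2 * k + 1)
    have a2 := one_add_inv hd0 ho (2 * k' + 1)
    have h1 := I.mul_congr c1 c2 (by first | exact a1 | exact a2 | exact u4 k hk | exact u4 k' hk')
      (by first | exact a1 | exact a2 | exact u4 k hk | exact u4 k' hk')
    have h2 := I.mul_congr c3 c3 (by first | exact u6 k hk | exact u6 k' hk')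
      (by first | exact u6 k hk | exact u6 k' hk')
    rw [DI, DI, pow_two, pow_two]
    refine I.mul_congr h1 h2 ?_ ?_
    all_goals first
      | exact mul_mem a1 (u4 k hk)
      | exact mul_mem a2 (u4 k' hk')
      | exact mul_mem (u6 k hk) (u6 k hk)
      | exact mul_mem (u6 k' hk') (u6 k' hk')
  refine I.mul_congr hN hD ?_ ?_
  all_goals first
    | exact NN_mem k
    | exact NN_mem k'
    | exact DI_mem hd hd1 hk
    | exact DI_mem hd hd1 hk'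

theorem w_mem {d : ℕ} (hd : d.Coprime 6) (hd1 : 1 < d) {s : ℕ} (hs : s < d) : w s ∈ R d :=
  prod_mem fun i hi => rr_mem hd hd1 (by
    have := mem_range.1 hi
    exact ndb (by omega) (by omega))

theorem w_I {d : ℕ} (hd : d.Coprime 6) (hd1 : 1 < d) {s : ℕ} (hs : s < d) (h4 : d / 4 < s) :
    I d 1 (w s) := by
  have hd0 : 0 < d := by omega
  have ho := cop_odd hd
  rw [w, ← mul_prod_erase (range s) _ (mem_range.2 h4)]
  refine I.mul_R ?_ (prod_mem fun i hi => rr_mem hd hd1 (by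
    have := mem_range.1 (mem_of_mem_erase hi)
    exact ndb (by omega) (by omega)))
  have hDI : DI (d / 4) ∈ R d := DI_mem hd hd1 (ndb (by omega) (by omega))
  have o : ∀ a : ℕ, (1 - q ^ a : RatFunc ℚ) ∈ R d := fun a => sub_mem (one_mem _) (qpow_mem _)
  refine I.mul_R ?_ hDI
  rw [NN]
  rcases (show d % 4 = 1 ∨ d % 4 = 3 by omega) with h | h
  · have e : 4 * (d / 4) + 1 = d := by omega
    exact (I.R_mul (o _) (I_one_sub_pow hd0 (by rw [e]))).mul_R (o _)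
  · have e : 4 * (d / 4) + 3 = d := by omega
    exact I.R_mul (mul_mem (o _) (o _)) (I_one_sub_pow hd0 (by rw [e]))

/-- the truncated block sums vanish modulo `Φ_d` as soon as they reach `d/4` -/
theorem block_I {d : ℕ} (hd : d.Coprime 6) (hd1 : 1 < d) {L : ℕ} (h1 : d / 4 < L) (h2 : L ≤ d) :
    I d 1 (∑ s ∈ range L, (1 - q ^ (8 * s + 1)) * q ^ (2 * s ^ 2) * w s) := by
  have ho := cop_odd hd
  obtain ⟨M, hM⟩ : ∃ M, 2 * M + 1 = d := ⟨d / 2, by omega⟩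
  have h3 : SG M 0 = ∑ s ∈ range (M + 1), (1 - q ^ (8 * s + 1)) * q ^ (2 * s ^ 2) * w s := by
    rw [SG]
    refine sum_congr rfl fun s _ => ?_
    rw [fG, hG_w]
    have : (q ^ (6 * 0) * q * (q ^ s) ^ 8 : RatFunc ℚ) = q ^ (8 * s + 1) := by
      rw [mul_zero, pow_zero, one_mul, ← pow_mul, ← pow_succ']; congr 1; ring
    rw [this]; ring
  have h4 := SG_I hd hd1 hM
  rw [h3] at h4
  have o : ∀ a : ℕ, (1 - q ^ a : RatFunc ℚ) ∈ R d := fun a => sub_mem (one_mem _) (qpow_mem _)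
  have hterm : ∀ s, d / 4 < s → s < d → I d 1 ((1 - q ^ (8 * s + 1)) * q ^ (2 * s ^ 2) * w s) :=
    fun s h5 h6 => I.R_mul (mul_mem (o _) (qpow_mem _)) (w_I hd hd1 h6 h5)
  have hcut : ∀ L', d / 4 < L' → L' ≤ d →
      I d 1 (∑ s ∈ range L', (1 - q ^ (8 * s + 1)) * q ^ (2 * s ^ 2) * w s -
        ∑ s ∈ range (d / 4 + 1), (1 - q ^ (8 * s + 1)) * q ^ (2 * s ^ 2) * w s) := by
    intro L' h5 h6
    rw [← sum_Ico_eq_sub _ (show d / 4 + 1 ≤ L' by omega)]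
    exact I.sum fun s hs => hterm s (by have := mem_Ico.1 hs; omega) (by
      have := mem_Ico.1 hs; omega)
  have h5 := hcut L h1 h2
  have h6 := hcut (M + 1) (by omega) (by omega)
  have h7 := (h5.sub h6).add h4
  refine (congrArg (I d 1) ?_).mp h7
  ring

end

end V11316.G8
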