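import Pool.Agent.V11316.G8b

/-!
The sum `F_n(q)`: divisibility by `Φ_d` whenever `3 (n mod d) ≥ d`.
-/

open Finset Polynomial

namespace V11316.G8

open V11307.Q V11316 V11316.Del

noncomputable section

/-- `∏_{a < j ≤ b} (1 + q^j)` -/
def P1 (a b : ℕ) : RatFunc ℚ := ∏ i ∈ Ico a b, (1 + q ^ (i + 1))

/-- `∏_{a < j ≤ b} (1 + q^{2j} + q^{4j})` -/
def P3 (a b : ℕ) : RatFunc ℚ := ∏ i ∈ Ico a b, (1 + q ^ (2 * (i + 1)) + q ^ (4 * (i + 1)))

/-- `[2m, m]` -/
def cb (m : ℕ) : RatFunc ℚ := gauss q (2 * m) m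

/-- the `k`-th coefficient -/
def v (n k : ℕ) : RatFunc ℚ :=
  cb (2 * k) * cb k ^ 2 * (P1 k n ^ 4 * P1 (2 * k) (2 * n) ^ 2 * P3 k n ^ 2)

theorem cb_succ (m : ℕ) : cb (m + 1) = cb m *
    ((1 - q ^ (2 * m + 1)) * (1 - q ^ (2 * m + 2)) * ((1 - q ^ (m + 1))⁻¹) ^ 2) := by
  have h1 := gauss_fac NR_q (show m + 1 ≤ 2 * (m + 1) by omega)
  have h2 := gauss_fac NR_q (show m ≤ 2 * m by omega)
  rw [show 2 * (m + 1) - (m + 1) = m + 1 by omega, show 2 * (m + 1) = 2 * m + 1 + 1 by ring,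
    poch_succ, poch_succ, poch_succ] at h1
  rw [show 2 * m - m = m by omega] at h2
  rw [cb, cb, show 2 * (m + 1) = 2 * m + 1 + 1 by ring]
  have n1 : (1 - q ^ (m + 1) : RatFunc ℚ) ≠ 0 := one_sub_ne (by omega)
  have n2 : poch q q m ≠ (0 : RatFunc ℚ) := ff_ne NR_q m
  have e1 : (q * q ^ m : RatFunc ℚ) = q ^ (m + 1) := by rw [← pow_succ']
  have e2 : (q * q ^ (2 * m) : RatFunc ℚ) = q ^ (2 * m + 1) := by rw [← pow_succ']
  have e3 : (q * q ^ (2 * m + 1) : RatFunc ℚ) = q ^ (2 * m + 2) := by rw [← pow_succ']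
  rw [e1, e2, e3, ← h2] at h1
  have h3 : gauss q (2 * m + 1 + 1) (m + 1) * ((poch q q m * (1 - q ^ (m + 1))) *
      (poch q q m * (1 - q ^ (m + 1)))) =
      (gauss q (2 * m) m * ((1 - q ^ (2 * m + 1)) * (1 - q ^ (2 * m + 2)) *
        ((1 - q ^ (m + 1))⁻¹) ^ 2)) * ((poch q q m * (1 - q ^ (m + 1))) *
      (poch q q m * (1 - q ^ (m + 1)))) := by
    rw [h1]
    field_simp
  exact mul_right_cancel₀ (mul_ne_zero (mul_ne_zero n2 n1) (mul_ne_zero n2 n1)) h3

theorem P1_succ {a b : ℕ} (h : a < b) : P1 a b = (1 + q ^ (a + 1)) * P1 (a + 1) b := by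
  rw [P1, P1, prod_eq_prod_Ico_succ_bot h]

theorem P3_succ {a b : ℕ} (h : a < b) :
    P3 a b = (1 + q ^ (2 * (a + 1)) + q ^ (4 * (a + 1))) * P3 (a + 1) b := by
  rw [P3, P3, prod_eq_prod_Ico_succ_bot h]

theorem v_succ {n k : ℕ} (h : k < n) : v n (k + 1) = v n k * rr k := by
  rw [v, v, P1_succ h, P1_succ (show 2 * k < 2 * n by omega),
    P1_succ (show 2 * k + 1 < 2 * n by omega), P3_succ h, show 2 * (k + 1) = 2 * k + 1 + 1 by ring,
    cb_succ, cb_succ, cb_succ, rr, NN, DI]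
  have n1 : (1 - q ^ (k + 1) : RatFunc ℚ) ≠ 0 := one_sub_ne (by omega)
  have n2 : (1 + q ^ (k + 1) : RatFunc ℚ) ≠ 0 := one_add_ne _
  have n3 : (1 - q ^ (2 * k + 1) : RatFunc ℚ) ≠ 0 := one_sub_ne (by omega)
  have n4 : (1 + q ^ (2 * k + 1) : RatFunc ℚ) ≠ 0 := one_add_ne _
  have n5 : (1 + q ^ (2 * k + 2) : RatFunc ℚ) ≠ 0 := one_add_ne _
  have n6 : (1 - q ^ (6 * (k + 1)) : RatFunc ℚ) ≠ 0 := one_sub_ne (by omega)
  have n7 : (1 - q ^ (4 * (k + 1)) : RatFunc ℚ) ≠ 0 := one_sub_ne (by omega)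
  have n8 : (1 - q ^ (2 * k + 2) : RatFunc ℚ) ≠ 0 := one_sub_ne (by omega)
  have e1 : (1 - q ^ (2 * k + 2) : RatFunc ℚ) = (1 - q ^ (k + 1)) * (1 + q ^ (k + 1)) := by
    rw [show 2 * k + 2 = (k + 1) + (k + 1) by ring, pow_add]; ring
  have e2 : (1 - q ^ (4 * (k + 1)) : RatFunc ℚ) = (1 - q ^ (2 * k + 2)) * (1 + q ^ (2 * k + 2)) := by
    rw [show 4 * (k + 1) = (2 * k + 2) + (2 * k + 2) by ring, pow_add]; ring
  have e3 : (1 - q ^ (6 * (k + 1)) : RatFunc ℚ) = (1 - q ^ (2 * k + 2)) *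
      (1 + q ^ (2 * (k + 1)) + q ^ (4 * (k + 1))) := by
    rw [show 6 * (k + 1) = (2 * k + 2) + ((2 * k + 2) + (2 * k + 2)) by ring,
      show 4 * (k + 1) = (2 * k + 2) + (2 * k + 2) by ring,
      show 2 * (k + 1) = 2 * k + 2 by ring, pow_add, pow_add]
    ring
  have n9 : (1 + q ^ (2 * (k + 1)) + q ^ (4 * (k + 1)) : RatFunc ℚ) ≠ 0 := by
    intro h0; rw [e3, h0, mul_zero] at n6; exact n6 rfl
  have f1 : (1 - q ^ (2 * (2 * k) + 2) : RatFunc ℚ) =
      (1 - q ^ (2 * k + 1)) * (1 + q ^ (2 * k + 1)) := by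
    rw [show 2 * (2 * k) + 2 = (2 * k + 1) + (2 * k + 1) by ring, pow_add]; ring
  have f2 : (1 - q ^ (2 * (2 * k + 1) + 2) : RatFunc ℚ) = (1 - q ^ (2 * k + 2)) * (1 + q ^ (2 * k + 2)) := by
    rw [show 2 * (2 * k + 1) + 2 = (2 * k + 2) + (2 * k + 2) by ring, pow_add]; ring
  have f3 : (1 - q ^ (2 * (2 * k) + 1) : RatFunc ℚ) = 1 - q ^ (4 * k + 1) := by congr 2; ring
  have f4 : (1 - q ^ (2 * (2 * k + 1) + 1) : RatFunc ℚ) = 1 - q ^ (4 * k + 3) := by congr 2; ring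
  have f5 : (1 - q ^ (2 * k + 1 + 1) : RatFunc ℚ) = 1 - q ^ (2 * k + 2) := rfl
  have f6 : (1 + q ^ (2 * k + 1 + 1) : RatFunc ℚ) = 1 + q ^ (2 * k + 2) := rfl
  rw [f1, f2, f3, f4, f5, f6, e3, e2, e1]
  rw [e1] at n8
  have f7 : (1 + q ^ (2 * k + 2) + q ^ (4 * (k + 1)) : RatFunc ℚ) =
      1 + q ^ (2 * (k + 1)) + q ^ (4 * (k + 1)) := rfl
  field_simp
  rw [f7]

theorem v_w {n k : ℕ} (h : k ≤ n) : v n k = v n 0 * w k := by
  induction k with
  | zero => simp [w]
  | succ k ih =>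
    rw [v_succ (by omega), ih (by omega), w, w, prod_range_succ]; ring

theorem LZ_R {d : ℕ} (hd : 0 < d) {x : RatFunc ℚ} (h : x ∈ LZ) : x ∈ R d := by
  obtain ⟨P, k, hP⟩ := h
  have h1 : x = φ (P.map (Int.castRingHom ℚ)) * (q ^ (-(k : ℤ))) := by
    rw [← hP, zpow_neg, zpow_natCast, mul_inv_cancel_right₀ (pow_ne_zero _ q_ne)]
  rw [h1]
  exact mul_mem (φ_mem _) (qz_mem hd _)

theorem g_mem {d : ℕ} (hd : 0 < d) (N K : ℕ) : gauss q N K ∈ R d := LZ_R hd (gauss_LZ N K)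

theorem P1_mem {d : ℕ} (a b : ℕ) : P1 a b ∈ R d :=
  prod_mem fun _ _ => add_mem (one_mem _) (qpow_mem _)

theorem P3_mem {d : ℕ} (a b : ℕ) : P3 a b ∈ R d :=
  prod_mem fun _ _ => add_mem (add_mem (one_mem _) (qpow_mem _)) (qpow_mem _)

theorem v_mem {d : ℕ} (hd : 0 < d) (n k : ℕ) : v n k ∈ R d :=
  mul_mem (mul_mem (g_mem hd _ _) (pow_mem (g_mem hd _ _) 2))
    (mul_mem (mul_mem (pow_mem (P1_mem _ _) 4) (pow_mem (P1_mem _ _) 2)) (pow_mem (P3_mem _ _) 2))

/-- `F_n` up to the factor `(1-q)` -/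
def FG (n : ℕ) : RatFunc ℚ := ∑ k ∈ range (n + 1), (1 - q ^ (8 * k + 1)) * q ^ (2 * k ^ 2) * v n k

theorem blk_cong {d : ℕ} (hd : d.Coprime 6) (hd1 : 1 < d) {n b s : ℕ} (hs : s < d)
    (h : b * d + s ≤ n) : I d 1 (v n (b * d + s) - v n (b * d) * w s) := by
  have hd0 : 0 < d := by omega
  induction s with
  | zero => simpa [w] using I.zero
  | succ s ih =>
    have h1 := ih (by omega) (by omega)
    rw [← add_assoc, v_succ (by omega), w, prod_range_succ, ← w, ← mul_assoc]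
    have k1 : ¬ d ∣ b * d + s + 1 := by
      rw [add_assoc, Nat.dvd_add_right (Dvd.intro_left _ rfl)]
      exact ndb (by omega) hs
    have k2 : ¬ d ∣ s + 1 := ndb (by omega) hs
    have k3 : (b * d + s) % d = s % d := by
      rw [Nat.add_comm, Nat.add_mul_mod_self_right]
    exact I.mul_congr h1 (rr_cong hd hd1 k1 k2 k3)
      (mul_mem (v_mem hd0 _ _) (w_mem hd hd1 (by omega))) (rr_mem hd hd1 k1)

theorem term_cong {d : ℕ} (hd : d.Coprime 6) (hd1 : 1 < d) {n b s : ℕ} (hs : s < d)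
    (h : b * d + s ≤ n) :
    I d 1 ((1 - q ^ (8 * (b * d + s) + 1)) * q ^ (2 * (b * d + s) ^ 2) * v n (b * d + s) -
      v n (b * d) * ((1 - q ^ (8 * s + 1)) * q ^ (2 * s ^ 2) * w s)) := by
  have hd0 : 0 < d := by omega
  have h1 := blk_cong hd hd1 hs h
  have e0 : (b * d + s) % d = s % d := by rw [Nat.add_comm, Nat.add_mul_mod_self_right]
  have h0 : b * d + s ≡ s [MOD d] := e0
  have h2 : I d 1 ((1 - q ^ (8 * (b * d + s) + 1)) - (1 - q ^ (8 * s + 1)) : RatFunc ℚ) := by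
    have : (8 * (b * d + s) + 1) % d = (8 * s + 1) % d := Nat.ModEq.add_right 1 (Nat.ModEq.mul_left 8 h0)
    refine (congrArg (I d 1) ?_).mp (qcong hd0 this).neg
    ring
  have h3 : I d 1 (q ^ (2 * (b * d + s) ^ 2) - q ^ (2 * s ^ 2) : RatFunc ℚ) :=
    qcong hd0 (Nat.ModEq.mul_left 2 (h0.pow 2))
  have o : ∀ a : ℕ, (1 - q ^ a : RatFunc ℚ) ∈ R d := fun a => sub_mem (one_mem _) (qpow_mem _)
  have h4 := I.mul_congr (I.mul_congr h2 h3 (o _) (qpow_mem _)) h1 (mul_mem (o _) (qpow_mem _))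
    (v_mem hd0 _ _)
  refine (congrArg (I d 1) ?_).mp h4
  ring

theorem part_I {d : ℕ} (hd : d.Coprime 6) (hd1 : 1 < d) {n b L : ℕ} (h1 : d / 4 < L) (h2 : L ≤ d)
    (h : b * d + L ≤ n + 1) :
    I d 1 (∑ s ∈ range L, (1 - q ^ (8 * (b * d + s) + 1)) * q ^ (2 * (b * d + s) ^ 2) *
      v n (b * d + s)) := by
  have hd0 : 0 < d := by omega
  have h3 := I.R_mul (v_mem (d := d) hd0 n (b * d)) (block_I hd hd1 h1 h2)
  have h4 : I d 1 (∑ s ∈ range L, ((1 - q ^ (8 * (b * d + s) + 1)) * q ^ (2 * (b * d + s) ^ 2) *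
      v n (b * d + s) - v n (b * d) * ((1 - q ^ (8 * s + 1)) * q ^ (2 * s ^ 2) * w s))) :=
    I.sum fun s hs => by
      have := mem_range.1 hs
      exact term_cong hd hd1 (by omega) (by omega)
  rw [sum_sub_distrib, ← mul_sum] at h4
  have h5 := h4.add h3
  refine (congrArg (I d 1) ?_).mp h5
  ring

theorem full_I {d : ℕ} (hd : d.Coprime 6) (hd1 : 1 < d) {n : ℕ} (a : ℕ) (h : a * d ≤ n + 1) :
    I d 1 (∑ k ∈ range (a * d), (1 - q ^ (8 * k + 1)) * q ^ (2 * k ^ 2) * v n k) := by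
  induction a with
  | zero => simpa using I.zero
  | succ a ih =>
    have h1 := ih (by rw [add_mul] at h; omega)
    have h2 := part_I hd hd1 (n := n) (b := a) (L := d) (Nat.div_lt_self (by omega) (by norm_num))
      le_rfl (by rw [add_mul, one_mul] at h; exact h)
    rw [add_mul, one_mul, sum_range_add (fun k => (1 - q ^ (8 * k + 1)) * q ^ (2 * k ^ 2) * v n k)
      (a * d) d]
    exact h1.add h2

/-- Gaussian binomials divisible by `Φ_d` -/
theorem gauss_I {d N K : ℕ} (hd : 0 < d) (h : N % d < K % d) : I d 1 (gauss q N K) := by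
  have key : ∀ A B r t : ℕ, r + 1 + t < d → I d 1 (gauss q (A * d + r) (B * d + (r + 1 + t))) := by
    intro A B r t
    induction t with
    | zero =>
      intro ht
      rw [show B * d + (r + 1 + 0) = B * d + r + 1 by ring, gauss_succ, div_eq_mul_inv]
      have hu : (1 - q ^ (B * d + r + 1) : RatFunc ℚ)⁻¹ ∈ R d := inv_one_sub hd fun hdv => by
        rw [add_assoc, Nat.dvd_add_right (Dvd.intro_left _ rfl)] at hdv
        exact ndb (by omega) (by omega) hdv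
      refine I.R_mul (g_mem hd _ _) (I.mul_R (I_one_sub_pow hd ?_) hu)
      rw [Nat.add_sub_add_right, ← Nat.sub_mul]
      exact Dvd.intro_left _ rfl
    | succ t ih =>
      intro ht
      rw [show B * d + (r + 1 + (t + 1)) = B * d + (r + 1 + t) + 1 by ring, gauss_succ,
        div_eq_mul_inv]
      have hu : (1 - q ^ (B * d + (r + 1 + t) + 1) : RatFunc ℚ)⁻¹ ∈ R d := inv_one_sub hd fun hdv => by
        rw [add_assoc, Nat.dvd_add_right (Dvd.intro_left _ rfl)] at hdv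
        exact ndb (by omega) (by omega) hdv
      exact (ih (by omega)).mul_R (mul_mem (sub_mem (one_mem _) (qpow_mem _)) hu)
  have h1 := key (N / d) (K / d) (N % d) (K % d - N % d - 1) (by
    have := Nat.mod_lt K hd
    omega)
  rw [show N % d + 1 + (K % d - N % d - 1) = K % d by omega, Nat.div_add_mod', Nat.div_add_mod'] at h1
  exact h1

theorem P1_I {d a b j : ℕ} (hd : 0 < d) (h1 : a < j) (h2 : j ≤ b) (h3 : d ∣ 2 * j) (h4 : ¬ d ∣ j) :
    I d 1 (P1 a b) := by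
  rw [P1, ← mul_prod_erase (Ico a b) _ (a := j - 1) (mem_Ico.2 ⟨by omega, by omega⟩),
    show j - 1 + 1 = j by omega]
  refine I.mul_R ?_ (prod_mem fun _ _ => add_mem (one_mem _) (qpow_mem _))
  have hj0 : 0 < j := by omega
  have h5 : (1 - q ^ j : RatFunc ℚ) ≠ 0 := one_sub_ne hj0
  have h6 : (1 + q ^ j : RatFunc ℚ) = (1 - q ^ (2 * j)) * (1 - q ^ j)⁻¹ := by
    rw [eq_mul_inv_iff_mul_eq₀ h5, show 2 * j = j + j by ring, pow_add]; ring
  rw [h6]
  exact (I_one_sub_pow hd h3).mul_R (inv_one_sub hd h4)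

theorem P3_I {d a b j : ℕ} (hd : 0 < d) (h1 : a < j) (h2 : j ≤ b) (h3 : d ∣ 6 * j)
    (h4 : ¬ d ∣ 2 * j) : I d 1 (P3 a b) := by
  rw [P3, ← mul_prod_erase (Ico a b) _ (a := j - 1) (mem_Ico.2 ⟨by omega, by omega⟩),
    show j - 1 + 1 = j by omega]
  refine I.mul_R ?_ (prod_mem fun _ _ => add_mem (add_mem (one_mem _) (qpow_mem _)) (qpow_mem _))
  have hj0 : 0 < j := by omega
  have h5 : (1 - q ^ (2 * j) : RatFunc ℚ) ≠ 0 := one_sub_ne (by omega)
  have h6 : (1 + q ^ (2 * j) + q ^ (4 * j) : RatFunc ℚ) = (1 - q ^ (6 * j)) * (1 - q ^ (2 * j))⁻¹ := by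
    rw [eq_mul_inv_iff_mul_eq₀ h5, show 6 * j = 2 * j + 4 * j by ring,
      show 4 * j = 2 * j + 2 * j by ring, pow_add, pow_add]; ring
  rw [h6]
  exact (I_one_sub_pow hd h3).mul_R (inv_one_sub hd h4)

/-- the terms are divisible by `Φ_d` when `gcd(d, 6) ≠ 1` -/
theorem v_triv {d : ℕ} (hd1 : 1 < d) (hd : d % 2 = 0 ∨ d % 3 = 0) {n k : ℕ} (hk : k ≤ n)
    (h3 : d ≤ 3 * (n % d)) : I d 1 (v n k) := by
  have hd0 : 0 < d := by omega
  have hdiv := Nat.div_add_mod n d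
  have kdiv := Nat.div_add_mod k d
  have hlt := Nat.mod_lt k hd0
  have hlt' := Nat.mod_lt n hd0
  set s := k % d with hs
  set r := n % d with hr
  have hab : k / d ≤ n / d := Nat.div_le_div_right hk
  set b := k / d
  set a := n / d
  have hR1 : P1 k n ^ 4 * P1 (2 * k) (2 * n) ^ 2 * P3 k n ^ 2 ∈ R d :=
    mul_mem (mul_mem (pow_mem (P1_mem _ _) 4) (pow_mem (P1_mem _ _) 2)) (pow_mem (P3_mem _ _) 2)
  by_cases c1 : d ≤ 2 * s
  · -- `[2k, k]`
    have h5 : I d 1 (cb k) := by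
      refine gauss_I hd0 ?_
      have h6 : (2 * k) % d = 2 * s - d := by
        have : 2 * k = 2 * s - d + d * (2 * b + 1) := by
          have : d * (2 * b + 1) = 2 * (d * b) + d := by ring
          omega
        rw [this, Nat.add_mul_mod_self_left, Nat.mod_eq_of_lt (by omega)]
      rw [h6, ← hs]; omega
    rw [v, pow_two (cb k)]
    exact (I.R_mul (g_mem hd0 _ _) (h5.mul_R (g_mem hd0 _ _))).mul_R hR1
  · by_cases c2 : d ≤ 4 * s
    · have h5 : I d 1 (cb (2 * k)) := by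
        refine gauss_I hd0 ?_
        have h6 : (2 * k) % d = 2 * s := by
          have : 2 * k = 2 * s + d * (2 * b) := by
            have : d * (2 * b) = 2 * (d * b) := by ring
            omega
          rw [this, Nat.add_mul_mod_self_left, Nat.mod_eq_of_lt (by omega)]
        have h7 : (2 * (2 * k)) % d = 4 * s - d := by
          have : 2 * (2 * k) = 4 * s - d + d * (4 * b + 1) := by
            have : d * (4 * b + 1) = 4 * (d * b) + d := by ring
            omega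
          rw [this, Nat.add_mul_mod_self_left, Nat.mod_eq_of_lt (by omega)]
        rw [h6, h7]; omega
      rw [v]
      exact (h5.mul_R (pow_mem (g_mem hd0 _ _) 2)).mul_R hR1
    · have hcb : cb (2 * k) * cb k ^ 2 ∈ R d := mul_mem (g_mem hd0 _ _) (pow_mem (g_mem hd0 _ _) 2)
      rcases Nat.mod_two_eq_zero_or_one d with h2 | h2
      · -- `d` even
        obtain ⟨e, he⟩ : ∃ e, d = 2 * e := ⟨d / 2, by omega⟩
        have h5 : I d 1 (P1 (2 * k) (2 * n)) := by
          refine P1_I (j := d * (2 * b) + e) hd0 ?_ ?_ ?_ ?_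
          · have : d * (2 * b) = 2 * (d * b) := by ring
            omega
          · have : d * (2 * b) = 2 * (d * b) := by ring
            have : d * b ≤ d * a := Nat.mul_le_mul_left d hab
            omega
          · refine ⟨4 * b + 1, ?_⟩
            have : d * (4 * b + 1) = 2 * (d * (2 * b)) + d := by ring
            omega
          · rw [Nat.dvd_add_right (Dvd.intro _ rfl)]
            exact ndb (by omega) (by omega)
        rw [v, pow_two (P1 (2 * k) (2 * n))]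
        exact I.R_mul hcb (((I.R_mul (pow_mem (P1_mem _ _) 4) (h5.mul_R (P1_mem _ _)))).mul_R
          (pow_mem (P3_mem _ _) 2))
      · -- `d` odd, divisible by 3
        obtain ⟨e, he⟩ : ∃ e, d = 3 * e := ⟨d / 3, by omega⟩
        have h5 : I d 1 (P3 k n) := by
          refine P3_I (j := d * b + e) hd0 ?_ ?_ ?_ ?_
          · omega
          · rcases Nat.lt_or_ge b a with hba | hba
            · have : d * (b + 1) ≤ d * a := Nat.mul_le_mul_left d hba
              rw [mul_add, mul_one] at this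
              omega
            · have : b = a := le_antisymm hab hba
              rw [this]; omega
          · refine ⟨6 * b + 2, ?_⟩
            have : d * (6 * b + 2) = 6 * (d * b) + 2 * d := by ring
            omega
          · refine cop_two h2 ?_
            rw [Nat.dvd_add_right (Dvd.intro _ rfl)]
            exact ndb (by omega) (by omega)
        rw [v, pow_two (P3 k n)]
        exact I.R_mul hcb (I.R_mul (mul_mem (pow_mem (P1_mem _ _) 4) (pow_mem (P1_mem _ _) 2))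
          (h5.mul_R (P3_mem _ _)))

/-- `Φ_d` divides `F_n` whenever `3 (n mod d) ≥ d` -/
theorem FG_I {d n : ℕ} (hd1 : 1 < d) (h3 : d ≤ 3 * (n % d)) : I d 1 (FG n) := by
  have hd0 : 0 < d := by omega
  by_cases hc : d.Coprime 6
  · have hdiv := Nat.div_add_mod' n d
    have hlt := Nat.mod_lt n hd0
    have h1 := full_I hc hd1 (n := n) (n / d) (by omega)
    have h2 := part_I hc hd1 (n := n) (b := n / d) (L := n % d + 1) (by omega) (by omega) (by omega)
    rw [FG]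
    have h4 : n + 1 = n / d * d + (n % d + 1) := by omega
    rw [h4, sum_range_add (fun k => (1 - q ^ (8 * k + 1)) * q ^ (2 * k ^ 2) * v n k)]
    exact h1.add h2
  · refine I.sum fun k hk => I.R_mul (mul_mem (sub_mem (one_mem _) (qpow_mem _)) (qpow_mem _))
      (v_triv hd1 ?_ (Nat.lt_succ_iff.1 (mem_range.1 hk)) h3)
    by_contra hcon
    push Not at hcon
    apply hc
    have h2 : Nat.Coprime d 2 := (Nat.Prime.coprime_iff_not_dvd Nat.prime_two).2 (by omega) |>.symm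
    have h3 : Nat.Coprime d 3 := (Nat.Prime.coprime_iff_not_dvd Nat.prime_three).2 (by omega) |>.symm
    exact Nat.Coprime.mul_right h2 h3

end

end V11316.G8
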