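import Pool.Agent.V11316.G8c
import Pool.Agent.V11316.QInt

/-!
Gaussian binomial coefficients as products of cyclotomic polynomials, and divisibility in `ℤ[q]`.
-/

open Finset Polynomial

namespace V11316.G8

open V11307.Q V11316 V11316.Del

noncomputable section

/-- carries -/
theorem div_split {N K d : ℕ} (hd : 0 < d) (h : K ≤ N) :
    N / d = K / d + (N - K) / d + if N % d < K % d then 1 else 0 := by
  have h1 := Nat.div_add_mod N d
  have h2 := Nat.div_add_mod K d
  have h3 := Nat.div_add_mod (N - K) d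
  have l1 := Nat.mod_lt N hd
  have l2 := Nat.mod_lt K hd
  have l3 := Nat.mod_lt (N - K) hd
  set A := N / d
  set B := K / d
  set E := (N - K) / d
  have h4 : d * A + N % d = d * (B + E) + (K % d + (N - K) % d) := by
    rw [mul_add]; omega
  split_ifs with hc
  · have h5 : A = B + E + 1 := by
      have h6 : d * A < d * (B + E + 2) := by
        have : d * (B + E + 2) = d * (B + E) + 2 * d := by ring
        omega
      have h7 : d * (B + E) < d * A := by
        by_contra hcon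
        push Not at hcon
        omega
      have h8 := Nat.lt_of_mul_lt_mul_left h6
      have h9 := Nat.lt_of_mul_lt_mul_left h7
      omega
    exact h5
  · have h5 : A = B + E := by
      have h6 : d * A < d * (B + E + 1) := by
        by_contra hcon
        push Not at hcon
        have e1 : d * (B + E + 1) = d * (B + E) + d := by ring
        have : N % d < K % d := by omega
        exact hc this
      have h7 : d * (B + E) < d * (A + 1) := by
        have e1 : d * (A + 1) = d * A + d := by ring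
        omega
      have h8 := Nat.lt_of_mul_lt_mul_left h6
      have h9 := Nat.lt_of_mul_lt_mul_left h7
      omega
    rw [h5, add_zero]

/-- `∏_{i=1}^m (X^i - 1)` as a product of cyclotomic polynomials -/
theorem fac_cyc {M m : ℕ} (h : m ≤ M) :
    ∏ i ∈ range m, (X ^ (i + 1) - 1 : ℚ[X]) = ∏ d ∈ Icc 1 M, cyclotomic d ℚ ^ (m / d) := by
  induction m with
  | zero => simp
  | succ m ih =>
    rw [prod_range_succ, ih (by omega), ← prod_cyclotomic_eq_X_pow_sub_one (Nat.succ_pos m) ℚ]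
    have h1 : ∏ i ∈ (m + 1).divisors, cyclotomic i ℚ =
        ∏ d ∈ Icc 1 M, if d ∣ m + 1 then cyclotomic d ℚ else 1 := by
      rw [← prod_filter]
      refine prod_congr ?_ fun _ _ => rfl
      ext d
      simp only [Nat.mem_divisors, mem_filter, mem_Icc]
      constructor
      · rintro ⟨h2, _⟩
        exact ⟨⟨Nat.pos_of_dvd_of_pos h2 (Nat.succ_pos m),
          (Nat.le_of_dvd (Nat.succ_pos m) h2).trans h⟩, h2⟩
      · rintro ⟨_, h2⟩
        exact ⟨h2, by omega⟩
    rw [h1, ← prod_mul_distrib]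
    refine prod_congr rfl fun d _ => ?_
    rw [Nat.succ_div]
    split_ifs with h2
    · rw [pow_succ]
    · rw [mul_one, add_zero]

/-- the cyclotomic factors of the Gaussian binomial coefficient -/
def gset (N K : ℕ) : Finset ℕ := (Icc 1 N).filter fun d => N % d < K % d

/-- the Gaussian binomial coefficient as a polynomial -/
def gp (N K : ℕ) : ℤ[X] := ∏ d ∈ gset N K, cyclotomic d ℤ

theorem gp_monic (N K : ℕ) : (gp N K).Monic := monic_prod_of_monic _ _ fun d _ => cyclotomic.monic d ℤ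

theorem poch_cyc {M m : ℕ} (h : m ≤ M) :
    poch q q m = (-1) ^ m * φ (∏ d ∈ Icc 1 M, cyclotomic d ℚ ^ (m / d)) := by
  rw [← fac_cyc h, map_prod, poch]
  have h1 : ((-1 : RatFunc ℚ)) ^ m = ∏ _i ∈ range m, (-1) := by rw [prod_const, card_range]
  rw [h1, ← prod_mul_distrib]
  refine prod_congr rfl fun i _ => ?_
  rw [map_sub, map_pow, φ_X, map_one, ← pow_succ']
  ring

theorem gp_eq {N K : ℕ} (h : K ≤ N) : φ ((gp N K).map (Int.castRingHom ℚ)) = gauss q N K := by
  have h1 := gauss_fac NR_q h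
  have h2 : ∏ d ∈ Icc 1 N, cyclotomic d ℚ ^ (N / d) =
      (gp N K).map (Int.castRingHom ℚ) * ((∏ d ∈ Icc 1 N, cyclotomic d ℚ ^ (K / d)) *
        ∏ d ∈ Icc 1 N, cyclotomic d ℚ ^ ((N - K) / d)) := by
    rw [gp, Polynomial.map_prod, gset, prod_filter, ← prod_mul_distrib, ← prod_mul_distrib]
    refine prod_congr rfl fun d hd => ?_
    rw [div_split (mem_Icc.1 hd).1 h, pow_add, pow_add, map_cyclotomic_int]
    split_ifs <;> ring
  rw [poch_cyc h, poch_cyc (Nat.sub_le N K), poch_cyc (le_refl N), h2, map_mul, map_mul] at h1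
  have h3 : ((-1 : RatFunc ℚ)) ^ N = (-1) ^ K * (-1) ^ (N - K) := by
    rw [← pow_add]; congr 1; omega
  have n1 : ∀ m : ℕ, φ (∏ d ∈ Icc 1 N, cyclotomic d ℚ ^ m.div d) ≠ 0 := fun m =>
    φ_ne (prod_ne_zero_iff.2 fun d _ => pow_ne_zero _ (cyclotomic_ne_zero d ℚ))
  have n2 := n1 K
  have n3 := n1 (N - K)
  have n4 : ((-1 : RatFunc ℚ)) ^ K * (-1) ^ (N - K) ≠ 0 :=
    mul_ne_zero (pow_ne_zero _ (by norm_num)) (pow_ne_zero _ (by norm_num))
  have h4 : gauss q N K * (((-1) ^ K * (-1) ^ (N - K)) *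
      (φ (∏ d ∈ Icc 1 N, cyclotomic d ℚ ^ (K / d)) *
        φ (∏ d ∈ Icc 1 N, cyclotomic d ℚ ^ ((N - K) / d)))) =
      φ ((gp N K).map (Int.castRingHom ℚ)) * (((-1) ^ K * (-1) ^ (N - K)) *
      (φ (∏ d ∈ Icc 1 N, cyclotomic d ℚ ^ (K / d)) *
        φ (∏ d ∈ Icc 1 N, cyclotomic d ℚ ^ ((N - K) / d)))) := by
    rw [h3] at h1
    linear_combination h1
  exact (mul_right_cancel₀ (mul_ne_zero n4 (mul_ne_zero n2 n3)) h4).symm

/-- divisibility of an integral polynomial value by a Gaussian binomial -/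
theorem gp_dvd {N K : ℕ} (P : ℤ[X])
    (h : ∀ d, 0 < d → N % d < K % d → I d 1 (φ (P.map (Int.castRingHom ℚ)))) : gp N K ∣ P := by
  rw [← Polynomial.map_dvd_map (Int.castRingHom ℚ) (RingHom.injective_int _) (gp_monic N K), gp,
    Polynomial.map_prod]
  refine Finset.prod_dvd_of_coprime ?_ ?_
  · intro a _ b _ hab
    rw [Function.onFun, map_cyclotomic_int, map_cyclotomic_int]
    exact cyc_pair_coprime hab
  · intro d hd
    obtain ⟨h1, h2⟩ := mem_filter.1 hd
    have h3 := I.num_dvd (mem_Icc.1 h1).1 (h d (mem_Icc.1 h1).1 h2)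
    rw [RatFunc.num_algebraMap, pow_one] at h3
    rw [map_cyclotomic_int]
    exact h3

/-- `ℤ[q]` -/
def PZ : Subring (RatFunc ℚ) where
  carrier := {x | ∃ P : ℤ[X], x = φ (P.map (Int.castRingHom ℚ))}
  mul_mem' := by
    rintro x y ⟨P, rfl⟩ ⟨P', rfl⟩
    exact ⟨P * P', by rw [Polynomial.map_mul, map_mul]⟩
  one_mem' := ⟨1, by simp⟩
  add_mem' := by
    rintro x y ⟨P, rfl⟩ ⟨P', rfl⟩
    exact ⟨P + P', by rw [Polynomial.map_add, map_add]⟩
  zero_mem' := ⟨0, by simp⟩
  neg_mem' := by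
    rintro x ⟨P, rfl⟩
    exact ⟨-P, by rw [Polynomial.map_neg, map_neg]⟩

theorem q_PZ : (q : RatFunc ℚ) ∈ PZ := ⟨X, by simp [φ_X]⟩

theorem gauss_PZ : ∀ n k : ℕ, gauss q n k ∈ PZ := by
  intro n
  induction n with
  | zero =>
    intro k
    cases k with
    | zero => rw [gauss_zero_right]; exact one_mem _
    | succ k => rw [gauss_gt (Nat.succ_pos k)]; exact zero_mem _
  | succ n ih =>
    intro k
    cases k with
    | zero => rw [gauss_zero_right]; exact one_mem _
    | succ k =>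
      by_cases hk : k ≤ n
      · rw [pascal NR_q hk]
        exact add_mem (ih _) (mul_mem (pow_mem q_PZ _) (ih _))
      · rw [gauss_gt (by omega)]; exact zero_mem _

theorem qint_PZ (k : ℕ) : (1 - q ^ k) * (1 - q : RatFunc ℚ)⁻¹ ∈ PZ := by
  have h1 : (1 - q ^ k) * (1 - q : RatFunc ℚ)⁻¹ = ∑ i ∈ range k, q ^ i := by
    have h0 : (1 - q : RatFunc ℚ) ≠ 0 := by
      have := NR_q 0; rwa [zero_add, pow_one] at this
    rw [mul_inv_eq_iff_eq_mul₀ h0]
    exact (geom_sum_mul_neg _ _).symm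
  rw [h1]
  exact sum_mem fun _ _ => pow_mem q_PZ _

theorem v_PZ (n k : ℕ) : v n k ∈ PZ := by
  have p1 : ∀ a b : ℕ, P1 a b ∈ PZ := fun a b =>
    prod_mem fun _ _ => add_mem (one_mem _) (pow_mem q_PZ _)
  have p3 : ∀ a b : ℕ, P3 a b ∈ PZ := fun a b =>
    prod_mem fun _ _ => add_mem (add_mem (one_mem _) (pow_mem q_PZ _)) (pow_mem q_PZ _)
  exact mul_mem (mul_mem (gauss_PZ _ _) (pow_mem (gauss_PZ _ _) 2))
    (mul_mem (mul_mem (pow_mem (p1 _ _) 4) (pow_mem (p1 _ _) 2)) (pow_mem (p3 _ _) 2))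

/-- `F_n(q)` -/
def FN (n : ℕ) : RatFunc ℚ :=
  ∑ k ∈ range (n + 1), (1 - q ^ (8 * k + 1)) * (1 - q)⁻¹ * q ^ (2 * k ^ 2) * v n k

theorem FN_PZ (n : ℕ) : FN n ∈ PZ :=
  sum_mem fun _ _ => mul_mem (mul_mem (qint_PZ _) (pow_mem q_PZ _)) (v_PZ _ _)

theorem FN_eq (n : ℕ) : FN n = (1 - q)⁻¹ * FG n := by
  rw [FN, FG, mul_sum]
  exact sum_congr rfl fun _ _ => by ring

/-- the general divisibility -/
theorem FN_dvd {n N : ℕ} (hnN : n ≤ N) (h : ∀ d, 0 < d → N % d < n % d → d ≤ 3 * (n % d)) :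
    ∃ G ∈ PZ, FN n = gauss q N n * G := by
  obtain ⟨P, hP⟩ := FN_PZ n
  have h1 : gp N n ∣ P := by
    refine gp_dvd P fun d hd hlt => ?_
    have hd1 : 1 < d := by
      rcases Nat.lt_or_ge 1 d with h1 | h1
      · exact h1
      · have : d = 1 := by omega
        subst this
        simp [Nat.mod_one] at hlt
    rw [← hP, FN_eq]
    exact I.R_mul (q1_inv hd1) (FG_I hd1 (h d hd hlt))
  obtain ⟨G, hG⟩ := h1
  refine ⟨φ (G.map (Int.castRingHom ℚ)), ⟨G, rfl⟩, ?_⟩
  rw [hP, hG, Polynomial.map_mul, map_mul, gp_eq hnN]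

theorem FN_two (n : ℕ) : ∃ G ∈ PZ, FN n = gauss q (2 * n) n * G := by
  refine FN_dvd (by omega) fun d hd hlt => ?_
  by_contra hc
  push Not at hc
  have h1 := Nat.mod_lt n hd
  have h2 : (2 * n) % d = 2 * (n % d) := by
    have : 2 * n = 2 * (n % d) + d * (2 * (n / d)) := by
      have := Nat.div_add_mod n d
      have : d * (2 * (n / d)) = 2 * (d * (n / d)) := by ring
      omega
    rw [this, Nat.add_mul_mod_self_left, Nat.mod_eq_of_lt (by omega)]
  omega

theorem FN_three (n : ℕ) : ∃ G ∈ PZ, FN n = gauss q (3 * n) n * G := by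
  refine FN_dvd (by omega) fun d hd hlt => ?_
  by_contra hc
  push Not at hc
  have h1 := Nat.mod_lt n hd
  have h2 : (3 * n) % d = 3 * (n % d) := by
    have : 3 * n = 3 * (n % d) + d * (3 * (n / d)) := by
      have := Nat.div_add_mod n d
      have : d * (3 * (n / d)) = 3 * (d * (n / d)) := by ring
      omega
    rw [this, Nat.add_mul_mod_self_left, Nat.mod_eq_of_lt (by omega)]
  omega

/-- `ℤ[q]` is generated by `q` -/
theorem PZ_closure {x : RatFunc ℚ} (hx : x ∈ PZ) : x ∈ Subring.closure {(q : RatFunc ℚ)} := by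
  obtain ⟨P, rfl⟩ := hx
  have hq : (q : RatFunc ℚ) ∈ Subring.closure {(q : RatFunc ℚ)} := Subring.subset_closure (by simp)
  induction P using Polynomial.induction_on' with
  | add a b ha hb => rw [Polynomial.map_add, map_add]; exact add_mem ha hb
  | monomial k a =>
    rw [← C_mul_X_pow_eq_monomial, Polynomial.map_mul, Polynomial.map_pow, Polynomial.map_X, map_mul,
      map_pow, φ_X, Polynomial.map_C]
    refine mul_mem ?_ (pow_mem hq _)
    have : φ (C ((Int.castRingHom ℚ) a)) = ((a : ℤ) : RatFunc ℚ) := by simp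
    rw [this]
    exact intCast_mem _ _

/-- the factor `R_{n,k}` in terms of shifted factorials -/
theorem R_form {n k : ℕ} (h : k ≤ n) :
    (poch q (-q) n / poch q (-q) k) ^ 4 * (poch q (-q) (2 * n) / poch q (-q) (2 * k)) ^ 2 *
      (poch (q ^ 2) (q ^ 2) k * poch (q ^ 6) (q ^ 6) n /
        (poch (q ^ 2) (q ^ 2) n * poch (q ^ 6) (q ^ 6) k)) ^ 2 =
      P1 k n ^ 4 * P1 (2 * k) (2 * n) ^ 2 * P3 k n ^ 2 := by
  have h1 : ∀ a b : ℕ, a ≤ b → poch q (-q) b / poch q (-q) a = P1 a b := by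
    intro a b hab
    have h2 := prod_range_mul_prod_Ico (fun i => (1 + q ^ (i + 1) : RatFunc ℚ)) hab
    have h3 : ∀ c : ℕ, poch q (-q) c = ∏ i ∈ range c, (1 + q ^ (i + 1) : RatFunc ℚ) := fun c =>
      prod_congr rfl fun i _ => by rw [pow_succ']; ring
    have h4 : poch q (-q) a ≠ (0 : RatFunc ℚ) := by
      rw [h3]; exact prod_ne_zero_iff.2 fun i _ => one_add_ne _
    rw [div_eq_iff h4, h3, h3, ← h2, P1, mul_comm]
  have h5 : poch (q ^ 2) (q ^ 2) k * poch (q ^ 6) (q ^ 6) n /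
        (poch (q ^ 2) (q ^ 2) n * poch (q ^ 6) (q ^ 6) k) = P3 k n := by
    have n2 := poch_qm_ne two_pos n
    have n6 := poch_qm_ne (show 0 < 6 by norm_num) k
    rw [div_eq_iff (mul_ne_zero n2 n6)]
    clear h1 n2 n6
    induction n, h using Nat.le_induction with
    | base => rw [P3, Ico_self, prod_empty]; ring
    | succ m hm ih =>
      rw [poch_succ, poch_succ, P3, prod_Ico_succ_top hm, ← P3]
      have e1 : (q ^ 6 * (q ^ 6) ^ m : RatFunc ℚ) = (q ^ 2 * (q ^ 2) ^ m) ^ 3 := by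
        rw [← pow_mul, ← pow_mul, ← pow_add, ← pow_add, ← pow_mul]; congr 1; ring
      have e2 : (q ^ (2 * (m + 1)) : RatFunc ℚ) = q ^ 2 * (q ^ 2) ^ m := by
        rw [← pow_mul, ← pow_add]; congr 1; ring
      have e3 : (q ^ (4 * (m + 1)) : RatFunc ℚ) = (q ^ 2 * (q ^ 2) ^ m) ^ 2 := by
        rw [← pow_mul, ← pow_add, ← pow_mul]; congr 1; ring
      rw [e1, e2, e3]
      linear_combination (1 - (q ^ 2 * (q ^ 2) ^ m) ^ 3) * ih
  rw [h1 k n h, h1 (2 * k) (2 * n) (by omega), h5]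

end

end V11316.G8
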