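import Pool.Agent.V11316.Del4

/-!
`L_n(q)` by interpolation.
-/

open Finset Polynomial

namespace V11316.H

open V11307.Q V11316 V11316.Del

noncomputable section

/-- `f_n(Y) = ∑_{k<n} (Y;q²)_k/(q;q)_k q^k` -/
def fL (n : ℕ) (Y : RatFunc ℚ) : RatFunc ℚ :=
  ∑ k ∈ range n, poch (q ^ 2) Y k * (poch q q k)⁻¹ * q ^ k

theorem fL_rec (N : ℕ) (Y : RatFunc ℚ) :
    fL (N + 1) (Y * (q ^ 2)⁻¹) + Y * q⁻¹ * fL (N + 1) Y =
      poch (q ^ 2) Y N * (poch q q N)⁻¹ * (1 + Y * q ^ N * q⁻¹) := by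
  induction N with
  | zero => simp [fL]
  | succ N ih =>
    have h1 : ∀ Y, fL (N + 1 + 1) Y = fL (N + 1) Y +
        poch (q ^ 2) Y (N + 1) * (poch q q (N + 1))⁻¹ * q ^ (N + 1) := fun Y => by
      rw [fL, sum_range_succ, ← fL]
    have n1 : (poch q q N : RatFunc ℚ) ≠ 0 := ff_ne NR_q N
    have n2 : (1 - q ^ (N + 1) : RatFunc ℚ) ≠ 0 := one_sub_ne (by omega)
    have n3 : (q : RatFunc ℚ) ≠ 0 := q_ne
    have e1 : poch (q ^ 2) (Y * (q ^ 2)⁻¹) (N + 1) = (1 - Y * (q ^ 2)⁻¹) * poch (q ^ 2) Y N := by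
      rw [poch_succ', mul_assoc, inv_mul_cancel₀ (pow_ne_zero 2 n3), mul_one]
    have e2 : poch q q (N + 1) = poch q q N * (1 - q ^ (N + 1)) := by
      rw [poch_succ, ← pow_succ']
    have e3 : poch (q ^ 2) Y (N + 1) = poch (q ^ 2) Y N * (1 - Y * (q ^ N) ^ 2) := by
      rw [poch_succ, ← pow_mul, ← pow_mul, mul_comm 2 N]
    have e4 : fL (N + 1 + 1) (Y * (q ^ 2)⁻¹) + Y * q⁻¹ * fL (N + 1 + 1) Y =
        (fL (N + 1) (Y * (q ^ 2)⁻¹) + Y * q⁻¹ * fL (N + 1) Y) +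
          (poch (q ^ 2) (Y * (q ^ 2)⁻¹) (N + 1) * (poch q q (N + 1))⁻¹ * q ^ (N + 1) +
            Y * q⁻¹ * (poch (q ^ 2) Y (N + 1) * (poch q q (N + 1))⁻¹ * q ^ (N + 1))) := by
      rw [h1, h1]; ring
    have e5 : (q ^ (N + 1) : RatFunc ℚ) = q * q ^ N := pow_succ' _ _
    rw [e4, ih, e1, e2, e3, e5]
    rw [e5] at n2
    field_simp
    ring

theorem fL_one (N : ℕ) : fL (N + 1) 1 = 1 := by
  rw [fL, sum_range_succ']
  have h1 : ∀ k : ℕ, poch (q ^ 2) (1 : RatFunc ℚ) (k + 1) = 0 := fun k => by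
    rw [poch_succ', sub_self, zero_mul]
  simp [h1]

/-- the values of `f_n` -/
theorem fL_val (N : ℕ) : ∀ x ≤ N, fL (N + 1) (q ^ (-(2 * (x : ℤ)))) = (-1) ^ x * q ^ (-((x : ℤ) ^ 2)) := by
  intro x
  induction x with
  | zero => intro _; simpa using fL_one N
  | succ x ih =>
    intro hx
    have h1 := ih (by omega)
    have h2 := fL_rec N (q ^ (-(2 * (x : ℤ))))
    have h3 : poch (q ^ 2) (q ^ (-(2 * (x : ℤ)))) N = 0 := by
      rw [poch, prod_eq_zero_iff]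
      refine ⟨x, mem_range.2 (by omega), ?_⟩
      rw [← pow_mul, ← zpow_natCast, ← zpow_add₀ q_ne]
      have : -(2 * (x : ℤ)) + ((2 * x : ℕ) : ℤ) = 0 := by push_cast; ring
      rw [this, zpow_zero, sub_self]
    have e1 : (q : RatFunc ℚ) ^ (-(2 * (x : ℤ))) * (q ^ 2)⁻¹ = q ^ (-(2 * ((x + 1 : ℕ) : ℤ))) := by
      rw [← zpow_natCast q 2, ← zpow_neg, ← zpow_add₀ q_ne]; congr 1; push_cast; ring
    rw [h3, e1, h1, zero_mul, zero_mul] at h2
    have e2 : (q : RatFunc ℚ) ^ (-(2 * (x : ℤ))) * q⁻¹ * q ^ (-((x : ℤ) ^ 2)) =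
        q ^ (-(((x + 1 : ℕ) : ℤ) ^ 2)) := by
      rw [← zpow_neg_one, ← zpow_add₀ q_ne, ← zpow_add₀ q_ne]; congr 1; push_cast; ring
    rw [pow_succ, ← e2]
    linear_combination h2

/-- `τ_j = q^{2j} + q^{-2j}` -/
def tau (j : ℕ) : RatFunc ℚ := q ^ (2 * (j : ℤ)) + q ^ (-(2 * (j : ℤ)))

theorem tau_sub (i j : ℕ) : tau i - tau j =
    -(q ^ (-(2 * (j : ℤ)))) * (1 - q ^ (2 * ((j : ℤ) - i))) * (1 - q ^ (2 * ((j : ℤ) + i))) := by
  have h : ∀ a b : ℤ, (q : RatFunc ℚ) ^ a * q ^ b = q ^ (a + b) := fun a b => (zpow_add₀ q_ne a b).symm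
  have e1 := h (-(2 * (j : ℤ))) (2 * ((j : ℤ) - i))
  have e2 := h (-(2 * (j : ℤ))) (2 * ((j : ℤ) + i))
  have e3 := h (-(2 * (j : ℤ)) + 2 * ((j : ℤ) - i)) (2 * ((j : ℤ) + i))
  rw [show -(2 * (j : ℤ)) + 2 * ((j : ℤ) - i) + 2 * ((j : ℤ) + i) = 2 * j by ring] at e3
  rw [show -(2 * (j : ℤ)) + 2 * ((j : ℤ) + i) = 2 * i by ring] at e2
  have e4 : -(2 * (j : ℤ)) + 2 * ((j : ℤ) - i) = -(2 * (i : ℤ)) := by ring
  rw [e4] at e1 e3
  rw [tau, tau]
  linear_combination -e2 - e1 + q ^ (2 * ((j : ℤ) + i)) * e1 + e3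

theorem tau_ne {i j : ℕ} (h : i ≠ j) : tau i - tau j ≠ 0 := by
  rw [tau_sub]
  refine mul_ne_zero (mul_ne_zero (neg_ne_zero.2 (qz_ne _)) ?_) ?_
  · exact sub_ne_zero.2 (qz_ne_one (by omega)).symm
  · exact sub_ne_zero.2 (qz_ne_one (by omega)).symm

/-- the symmetric values -/
def FT (s i : ℕ) : RatFunc ℚ := (-1) ^ (s + i) * q ^ (-((s : ℤ) ^ 2) - (i : ℤ) ^ 2)

/-- the interpolation products -/
def ZZ (s i : ℕ) (x : RatFunc ℚ) : RatFunc ℚ :=
  ∏ j ∈ range (s + 1), if j = i then 1 else (tau i - tau j)⁻¹ * (x ^ 2 + 1 - tau j * x)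

/-- the interpolating polynomial -/
def WP (s : ℕ) : (RatFunc ℚ)[X] :=
  ∑ i ∈ range (s + 1), C (FT s i) * ∏ j ∈ range (s + 1),
    if j = i then 1 else C ((tau i - tau j)⁻¹) * (X ^ 2 + 1 - C (tau j) * X)

/-- `f_n(q^{-2s} X)` as a polynomial -/
def UP (s : ℕ) : (RatFunc ℚ)[X] :=
  ∑ k ∈ range (2 * s + 1), C ((poch q q k)⁻¹ * q ^ k) *
    ∏ l ∈ range k, (1 - C (q ^ (-(2 * (s : ℤ))) * (q ^ 2) ^ l) * X)

theorem WP_eval (s : ℕ) (x : RatFunc ℚ) :
    (WP s).eval x = ∑ i ∈ range (s + 1), FT s i * ZZ s i x := by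
  rw [WP, eval_finsetSum]
  refine sum_congr rfl fun i _ => ?_
  rw [eval_mul, eval_C, eval_prod, ZZ]
  congr 1
  refine prod_congr rfl fun j _ => ?_
  split_ifs <;> simp

theorem UP_eval (s : ℕ) (x : RatFunc ℚ) :
    (UP s).eval x = fL (2 * s + 1) (q ^ (-(2 * (s : ℤ))) * x) := by
  rw [UP, fL, eval_finsetSum]
  refine sum_congr rfl fun k _ => ?_
  rw [eval_mul, eval_C, eval_prod]
  have h1 : ∏ l ∈ range k, eval x (1 - C (q ^ (-(2 * (s : ℤ))) * (q ^ 2) ^ l) * X) =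
      poch (q ^ 2) (q ^ (-(2 * (s : ℤ))) * x) k := by
    rw [poch]
    refine prod_congr rfl fun l _ => ?_
    simp only [eval_sub, eval_one, eval_mul, eval_C, eval_X]
    ring
  rw [h1]
  ring

theorem UP_deg (s : ℕ) : (UP s).natDegree ≤ 2 * s := by
  refine natDegree_sum_le_of_forall_le _ _ fun k hk => ?_
  have hk' := mem_range.1 hk
  refine (natDegree_C_mul_le _ _).trans ?_
  refine (natDegree_prod_le _ _).trans ?_
  refine (sum_le_sum (g := fun _ => 1) fun l _ => fac_deg1 _).trans ?_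
  simp
  omega

theorem WP_deg (s : ℕ) : (WP s).natDegree ≤ 2 * s := by
  refine natDegree_sum_le_of_forall_le _ _ fun i hi => ?_
  refine (natDegree_C_mul_le _ _).trans ?_
  refine (natDegree_prod_le _ _).trans ?_
  refine (sum_le_sum (g := fun j => if j = i then 0 else 2) fun j _ => ?_).trans ?_
  · split_ifs
    · simp
    · refine (natDegree_C_mul_le _ _).trans ?_
      refine (natDegree_sub_le _ _).trans (max_le ?_ ?_)
      · refine (natDegree_add_le _ _).trans (max_le (by simp) (by simp))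
      · exact (natDegree_C_mul_le _ _).trans (by simp)
  · rw [sum_ite, sum_const_zero, sum_const, zero_add, smul_eq_mul, filter_ne', card_erase_of_mem hi,
      card_range]
    omega

/-- the nodes -/
def nd' (s x : ℕ) : RatFunc ℚ := q ^ (2 * (s : ℤ) - 2 * (x : ℤ))

theorem ZZ_node {s i : ℕ} (hi : i ≤ s) {v : RatFunc ℚ} (hv : v ≠ 0) {i' : ℕ} (hi' : i' ≤ s)
    (h : v + v⁻¹ = tau i') : ZZ s i v = if i = i' then v ^ s else 0 := by
  have hf : ∀ j, v ^ 2 + 1 - tau j * v = v * (tau i' - tau j) := by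
    intro j
    rw [← h]
    field_simp
  split_ifs with hii
  · subst hii
    rw [ZZ]
    have h1 : ∀ j ∈ range (s + 1), (if j = i then (1 : RatFunc ℚ) else
        (tau i - tau j)⁻¹ * (v ^ 2 + 1 - tau j * v)) = if j = i then 1 else v := by
      intro j _
      split_ifs with hj
      · rfl
      · rw [hf]
        have := tau_ne (Ne.symm hj)
        field_simp
    rw [prod_congr rfl h1, prod_ite, prod_const_one, prod_const, one_mul, filter_ne',
      card_erase_of_mem (mem_range.2 (by omega)), card_range, Nat.add_sub_cancel]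
  · rw [ZZ, prod_eq_zero_iff]
    refine ⟨i', mem_range.2 (by omega), ?_⟩
    rw [if_neg (Ne.symm hii), hf, sub_self, mul_zero, mul_zero]

/-- exact evaluation by interpolation -/
theorem UP_eq (s : ℕ) : UP s = WP s := by
  have hinj : Set.InjOn (nd' s) (range (2 * s + 1) : Set ℕ) := by
    intro a _ b _ hab
    by_contra hne
    have h1 : (q : RatFunc ℚ) ^ (2 * (a : ℤ) - 2 * b) = 1 := by
      have h2 : (q : RatFunc ℚ) ^ (2 * (a : ℤ) - 2 * b) = nd' s b * (nd' s a)⁻¹ := by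
        rw [nd', nd', ← zpow_neg, ← zpow_add₀ q_ne]; congr 1; ring
      rw [h2, hab]
      exact mul_inv_cancel₀ (qz_ne _)
    exact qz_ne_one (by omega) h1
  refine eq_of_degrees_lt_of_eval_index_eq (range (2 * s + 1)) hinj ?_ ?_ ?_
  · rw [card_range]
    refine lt_of_le_of_lt degree_le_natDegree ?_
    exact_mod_cast Nat.lt_succ_of_le (UP_deg s)
  · rw [card_range]
    refine lt_of_le_of_lt degree_le_natDegree ?_
    exact_mod_cast Nat.lt_succ_of_le (WP_deg s)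
  · intro x hx
    have hx' : x ≤ 2 * s := Nat.lt_succ_iff.1 (mem_range.1 hx)
    rw [UP_eval, WP_eval, nd', ← zpow_add₀ q_ne]
    have e0 : -(2 * (s : ℤ)) + (2 * s - 2 * x) = -(2 * (x : ℤ)) := by ring
    rw [e0, fL_val (2 * s) x hx']
    -- the index
    obtain ⟨i, hi, hsgn, hcase⟩ : ∃ i ≤ s, (s + i) % 2 = x % 2 ∧
        (x = s + i ∨ x + i = s) := by
      rcases Nat.le_total s x with h | h
      · exact ⟨x - s, by omega, by omega, Or.inl (by omega)⟩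
      · exact ⟨s - x, by omega, by omega, Or.inr (by omega)⟩
    have htau : (q ^ (2 * (s : ℤ) - 2 * (x : ℤ)) : RatFunc ℚ) + (q ^ (2 * (s : ℤ) - 2 * (x : ℤ)))⁻¹ =
        tau i := by
      rw [tau, ← zpow_neg]
      rcases hcase with h | h
      · rw [h, add_comm]
        congr 2
        · push_cast; ring
        · push_cast; ring
      · congr 2
        · rw [← h]; push_cast; ring
        · rw [← h]; push_cast; ring
    have h1 : ∀ j ∈ range (s + 1), FT s j * ZZ s j (q ^ (2 * (s : ℤ) - 2 * (x : ℤ))) =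
        if j = i then FT s j * (q ^ (2 * (s : ℤ) - 2 * (x : ℤ))) ^ s else 0 := by
      intro j hj
      rw [ZZ_node (Nat.lt_succ_iff.1 (mem_range.1 hj)) (qz_ne _) hi htau]
      split_ifs <;> ring
    rw [sum_congr rfl h1, sum_ite_eq' (range (s + 1)) i, if_pos (mem_range.2 (by omega)), FT,
      qz_pow, mul_assoc, ← zpow_add₀ q_ne]
    have hs1 : ((-1 : RatFunc ℚ)) ^ (s + i) = (-1) ^ x := by
      rw [neg_one_pow_eq_pow_mod_two, hsgn, ← neg_one_pow_eq_pow_mod_two]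
    rw [hs1]
    congr 2
    rcases hcase with h | h
    · rw [h]; push_cast; ring
    · have : (s : ℤ) = x + i := by exact_mod_cast h.symm
      rw [this]; ring

/-- `L_n` by interpolation -/
theorem L_interp (s : ℕ) :
    fL (2 * s + 1) q = ∑ i ∈ range (s + 1), FT s i * ZZ s i (q ^ (2 * s + 1)) := by
  have h1 := UP_eval s (q ^ (2 * s + 1))
  rw [UP_eq, WP_eval] at h1
  have e1 : (q : RatFunc ℚ) ^ (-(2 * (s : ℤ))) * q ^ (2 * s + 1) = q := by
    rw [← zpow_natCast, ← zpow_add₀ q_ne]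
    have : -(2 * (s : ℤ)) + ((2 * s + 1 : ℕ) : ℤ) = 1 := by push_cast; ring
    rw [this, zpow_one]
  rw [e1] at h1
  exact h1.symm

end

end V11316.H
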