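import Pool.Agent.V11316.H1
import Pool.Agent.V11316.SumSq
import Pool.Agent.V11316.G8b
import Pool.Agent.V11316.P9b

/-!
`L_n(q)` modulo `Φ_n³`.
-/

open Finset Polynomial

namespace V11316.H

open V11307.Q V11316 V11316.Del

noncomputable section

/-- products of factors `U + δ y` -/
theorem prod_exp {n : ℕ} {U δ : RatFunc ℚ} (hU : I n 1 (U - 1)) (hδ : I n 2 δ) {y : ℕ → RatFunc ℚ}
    (s : ℕ) (hy : ∀ j < s, y j ∈ R n) :
    I n 3 (∏ j ∈ range s, (U + δ * y j) - (U ^ s + δ * ∑ j ∈ range s, y j)) := by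
  have hUm : U ∈ R n := by
    have := add_mem hU.mem (one_mem (R n)); simpa using this
  induction s with
  | zero => simpa using I.zero
  | succ s ih =>
    have h1 := ih fun j hj => hy j (by omega)
    have hys := hy s (by omega)
    have hsum : ∑ j ∈ range s, y j ∈ R n := sum_mem fun j hj => hy j (by
      have := mem_range.1 hj; omega)
    have hUs : I n 1 (U ^ s - 1) := by
      have : U ^ s - 1 = (U - 1) * ∑ i ∈ range s, U ^ i := by rw [mul_comm]; exact (geom_sum_mul U s).symm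
      rw [this]
      exact hU.mul_R (sum_mem fun i _ => pow_mem hUm i)
    rw [prod_range_succ, sum_range_succ]
    have e : (∏ j ∈ range s, (U + δ * y j)) * (U + δ * y s) -
        (U ^ (s + 1) + δ * (∑ j ∈ range s, y j + y s)) =
        (∏ j ∈ range s, (U + δ * y j) - (U ^ s + δ * ∑ j ∈ range s, y j)) * (U + δ * y s) +
          δ * (U - 1) * (∑ j ∈ range s, y j) + δ * (U ^ s - 1) * y s +
          δ * δ * (y s * ∑ j ∈ range s, y j) := by ring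
    rw [e]
    have d2 : I n 3 (δ * δ) := (hδ.mul hδ).mono (by norm_num)
    exact (((h1.mul_R (add_mem hUm (mul_mem hδ.mem hys))).add ((hδ.mul hU).mul_R hsum)).add
      ((hδ.mul hUs).mul_R hys)).add (d2.mul_R (mul_mem hys hsum))

theorem ndz {n : ℕ} {z : ℤ} (h0 : z ≠ 0) (h : |z| < n) : ¬ (n : ℤ) ∣ z := fun hd =>
  h0 (Int.eq_zero_of_abs_lt_dvd hd h)

theorem ndz2 {n : ℕ} (ho : n % 2 = 1) {z : ℤ} (h : ¬ (n : ℤ) ∣ z) : ¬ (n : ℤ) ∣ 2 * z := by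
  intro hd
  have h2 : IsCoprime (n : ℤ) 2 := by
    rw [Int.isCoprime_iff_gcd_eq_one]
    have : Nat.Coprime n 2 := by rw [Nat.coprime_two_right, Nat.odd_iff]; exact ho
    exact_mod_cast this
  exact h (h2.dvd_of_dvd_mul_left hd)

/-- the differences `τ_i - τ_j` are units -/
theorem tau_inv {n s i j : ℕ} (hn : n = 2 * s + 1) (hi : i ≤ s) (hj : j ≤ s) (h : i ≠ j) :
    (tau i - tau j)⁻¹ ∈ R n := by
  have hn0 : 0 < n := by omega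
  rw [tau_sub, mul_inv, mul_inv]
  have h1 : (-(q ^ (-(2 * (j : ℤ)))) : RatFunc ℚ)⁻¹ ∈ R n := by
    rw [inv_neg, ← zpow_neg]
    exact neg_mem (qz_mem hn0 _)
  refine mul_mem (mul_mem h1 ?_) ?_
  · exact inv_one_sub_qz hn0 (ndz2 (by omega) (ndz (by omega) (by rw [abs_lt]; constructor <;> omega)))
  · exact inv_one_sub_qz hn0 (ndz2 (by omega) (ndz (by omega) (by rw [abs_lt]; constructor <;> omega)))

theorem tau_mem {n : ℕ} (hn : 0 < n) (j : ℕ) : tau j ∈ R n := add_mem (qz_mem hn _) (qz_mem hn _)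

theorem tau_zero : tau 0 = 2 := by rw [tau]; norm_num

/-- `∑ 1/((1-q^{2j})(1-q^{-2j}))` -/
def hS (s : ℕ) : RatFunc ℚ := ∑ j ∈ range s, (tau 0 - tau (j + 1))⁻¹

/-- the leading term -/
theorem ZZ_zero {n s : ℕ} (hn : n = 2 * s + 1) :
    I n 3 (ZZ s 0 (q ^ n) - ((q ^ n) ^ s + (1 - q ^ n) ^ 2 * hS s)) := by
  have hn0 : 0 < n := by omega
  have hQ : I n 1 (1 - q ^ n : RatFunc ℚ) := I_one_sub_pow hn0 dvd_rfl
  have h1 : ZZ s 0 (q ^ n) =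
      ∏ j ∈ range s, (q ^ n + (1 - q ^ n) ^ 2 * (tau 0 - tau (j + 1))⁻¹) := by
    rw [ZZ, prod_range_succ', if_pos rfl, mul_one]
    refine prod_congr rfl fun j _ => ?_
    rw [if_neg (Nat.succ_ne_zero j)]
    have h2 : tau 0 - tau (j + 1) ≠ 0 := tau_ne (Nat.succ_ne_zero j).symm
    have h3 := tau_zero
    field_simp
    rw [h3]
    ring
  rw [h1, hS]
  refine prod_exp ?_ ?_ s fun j hj => tau_inv hn (by omega) (by omega) (by omega)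
  · refine (congrArg (I n 1) ?_).mp hQ.neg
    ring
  · have := hQ.mul hQ
    rwa [← pow_two] at this

/-- the products for `i ≥ 1` -/
def AP (s i' : ℕ) : RatFunc ℚ :=
  ∏ j ∈ range s, if j = i' then 1 else
    (tau (i' + 1) - tau (j + 1))⁻¹ * (tau 0 - tau (j + 1))

/-- the single factor -/
theorem fac_one' {i j : ℕ} (h : i ≠ j) (hj : 0 < j) : (tau i - tau j)⁻¹ * (tau 0 - tau j) =
    (1 - q ^ (2 * (j : ℤ))) ^ 2 * ((1 - q ^ (2 * ((j : ℤ) - i))) * (1 - q ^ (2 * ((j : ℤ) + i))))⁻¹ := by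
  rw [tau_sub, tau_sub]
  have n1 := qz_ne (-(2 * (j : ℤ)))
  have n2 : (1 - q ^ (2 * ((j : ℤ) - i)) : RatFunc ℚ) ≠ 0 :=
    sub_ne_zero.2 (qz_ne_one (by omega)).symm
  have n3 : (1 - q ^ (2 * ((j : ℤ) + i)) : RatFunc ℚ) ≠ 0 :=
    sub_ne_zero.2 (qz_ne_one (by omega)).symm
  rw [show (2 * ((j : ℤ) - ((0 : ℕ) : ℤ))) = 2 * j by push_cast; ring,
    show (2 * ((j : ℤ) + ((0 : ℕ) : ℤ))) = 2 * j by push_cast; ring]
  field_simp

/-- `(q²;q²)_k` -/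
abbrev P2 (k : ℕ) : RatFunc ℚ := poch (q ^ 2) (q ^ 2) k

theorem P2_ne (k : ℕ) : P2 k ≠ 0 := poch_qm_ne two_pos k

theorem P2_succ (k : ℕ) : P2 (k + 1) = P2 k * (1 - q ^ (2 * ((k : ℤ) + 1))) := by
  have h : (q ^ 2 * (q ^ 2) ^ k : RatFunc ℚ) = q ^ (2 * ((k : ℤ) + 1)) := by
    rw [← pow_succ', ← pow_mul, ← zpow_natCast]; congr 1
  rw [P2, poch_succ, h]

theorem AP_low (i' : ℕ) : ∀ s ≤ i', AP s i' * (P2 (i' + 1 + s) * P2 i') =
    (-1) ^ s * q ^ (2 * (i' + 1 : ℤ) * s - s * (s + 1)) * (P2 s ^ 2 * P2 (i' + 1) * P2 (i' - s)) := by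
  intro s
  induction s with
  | zero =>
    intro _
    have h0 : P2 0 = 1 := poch_zero _ _
    rw [AP, prod_range_zero, h0]
    simp
  | succ s ih =>
    intro hs
    have h1 := ih (by omega)
    rw [AP, prod_range_succ, ← AP, if_neg (by omega), fac_one' (by omega) (by omega)]
    obtain ⟨r, hr⟩ : ∃ r, i' = s + 1 + r := ⟨i' - (s + 1), by omega⟩
    rw [show i' - s = r + 1 by omega] at h1
    rw [show i' - (s + 1) = r by omega, show i' + 1 + (s + 1) = (i' + 1 + s) + 1 by ring,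
      P2_succ (i' + 1 + s), P2_succ s]
    rw [P2_succ r] at h1
    have n3 : (1 - q ^ (2 * (((i' + 1 + s : ℕ) : ℤ) + 1)) : RatFunc ℚ) ≠ 0 :=
      sub_ne_zero.2 (qz_ne_one (by omega)).symm
    have n2 : (1 - q ^ (2 * (((s + 1 : ℕ) : ℤ) - ((i' + 1 : ℕ) : ℤ))) : RatFunc ℚ) ≠ 0 :=
      sub_ne_zero.2 (qz_ne_one (by omega)).symm
    have n4 : (1 - q ^ (2 * ((r : ℤ) + 1)) : RatFunc ℚ) ≠ 0 :=
      sub_ne_zero.2 (qz_ne_one (by omega)).symm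
    have e1 : (2 * (((s + 1 : ℕ) : ℤ) + ((i' + 1 : ℕ) : ℤ))) = 2 * (((i' + 1 + s : ℕ) : ℤ) + 1) := by
      push_cast; ring
    have e2 : (2 * (((s + 1 : ℕ) : ℤ) - ((i' + 1 : ℕ) : ℤ))) = -(2 * ((r : ℤ) + 1)) := by
      rw [hr]; push_cast; ring
    have e3 : (1 - q ^ (-(2 * ((r : ℤ) + 1))) : RatFunc ℚ) =
        -(q ^ (-(2 * ((r : ℤ) + 1)))) * (1 - q ^ (2 * ((r : ℤ) + 1))) := by
      have : (q : RatFunc ℚ) ^ (-(2 * ((r : ℤ) + 1))) * q ^ (2 * ((r : ℤ) + 1)) = 1 := by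
        rw [← zpow_add₀ q_ne]; simp
      linear_combination -this
    have e4 : (q : RatFunc ℚ) ^ (2 * ((i' : ℤ) + 1) * ((s + 1 : ℕ) : ℤ) -
        ((s + 1 : ℕ) : ℤ) * (((s + 1 : ℕ) : ℤ) + 1)) =
        q ^ (2 * ((i' : ℤ) + 1) * (s : ℤ) - (s : ℤ) * ((s : ℤ) + 1)) * q ^ (2 * ((r : ℤ) + 1)) := by
      rw [← zpow_add₀ q_ne]; congr 1; rw [hr]; push_cast; ring
    have e5 : (q : RatFunc ℚ) ^ (-(2 * ((r : ℤ) + 1))) * q ^ (2 * ((r : ℤ) + 1)) = 1 := by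
      rw [← zpow_add₀ q_ne]; simp
    rw [e2] at n2
    have n5 := qz_ne (-(2 * ((r : ℤ) + 1)))
    rw [e1, e2, e3, e4]
    have e6 : (q : RatFunc ℚ) ^ (2 * ((r : ℤ) + 1)) = (q ^ (-(2 * ((r : ℤ) + 1))))⁻¹ := by
      rw [← zpow_neg, neg_neg]
    set u := (q : RatFunc ℚ) ^ (-(2 * ((r : ℤ) + 1))) with hu
    set w := (q : RatFunc ℚ) ^ (2 * ((r : ℤ) + 1)) with hw
    set E := (q : RatFunc ℚ) ^ (2 * ((i' : ℤ) + 1) * (s : ℤ) - (s : ℤ) * ((s : ℤ) + 1)) with hE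
    have e7 : ((((s + 1 : ℕ)) : ℤ)) = (s : ℤ) + 1 := by push_cast; ring
    rw [e7]
    set z := (q : RatFunc ℚ) ^ (2 * ((s : ℤ) + 1)) with hz
    set y := (q : RatFunc ℚ) ^ (2 * (((i' + 1 + s : ℕ) : ℤ) + 1)) with hy
    have e8 : w = u⁻¹ := e6
    have key : AP s i' * ((1 - z) ^ 2 * ((-u * (1 - w)) * (1 - y))⁻¹) *
        (P2 (i' + 1 + s) * (1 - y) * P2 i') =
        (AP s i' * (P2 (i' + 1 + s) * P2 i')) * ((1 - z) ^ 2 * (-u * (1 - w))⁻¹) := by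
      field_simp
    rw [key, h1]
    have key2 : (-u * (1 - w))⁻¹ * (1 - w) = -w := by
      rw [e8] at n4 ⊢
      have n6 : (1 - u⁻¹ : RatFunc ℚ) ≠ 0 := n4
      have n7 : u - 1 ≠ 0 := fun h => n2 (by linear_combination -h)
      field_simp
    linear_combination ((-1) ^ s * E * (P2 s ^ 2 * P2 (i' + 1) * P2 r) * (1 - z) ^ 2) * key2

theorem AP_high (i' : ℕ) : ∀ r : ℕ, AP (i' + 1 + r) i' * (P2 r * P2 (i' + 1 + r + (i' + 1))) =
    (-1) ^ i' * q ^ (((i' : ℤ) + 1) * i') * (1 + q ^ (2 * ((i' : ℤ) + 1))) * P2 (i' + 1 + r) ^ 2 := by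
  intro r
  induction r with
  | zero =>
    have h1 := AP_low i' i' le_rfl
    rw [add_zero, AP, prod_range_succ, ← AP, if_pos rfl, mul_one]
    rw [Nat.sub_self, show i' + 1 + i' = 2 * i' + 1 by ring] at h1
    rw [show i' + 1 + (i' + 1) = 2 * i' + 1 + 1 by ring, P2_succ (2 * i' + 1), P2_succ i']
    rw [P2_succ i'] at h1
    have n1 := P2_ne i'
    have e1 : (q : RatFunc ℚ) ^ (2 * (((2 * i' + 1 : ℕ) : ℤ) + 1)) = (q ^ (2 * ((i' : ℤ) + 1))) ^ 2 := by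
      rw [qz_pow]; congr 1; push_cast; ring
    have e2 : (2 * ((i' : ℤ) + 1) * (i' : ℤ) - (i' : ℤ) * ((i' : ℤ) + 1)) = ((i' : ℤ) + 1) * i' := by
      ring
    rw [e2] at h1
    have e3 : (P2 0 : RatFunc ℚ) = 1 := poch_zero _ _
    rw [e1, e3]
    rw [e3] at h1
    have h2 : AP i' i' * P2 (2 * i' + 1) * P2 i' =
        ((-1) ^ i' * q ^ (((i' : ℤ) + 1) * i') * (P2 i' ^ 2 * (1 - q ^ (2 * ((i' : ℤ) + 1))))) * P2 i' := by
      linear_combination h1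
    have h3 := mul_right_cancel₀ n1 h2
    linear_combination (1 - (q ^ (2 * ((i' : ℤ) + 1))) ^ 2) * h3
  | succ r ih =>
    rw [show i' + 1 + (r + 1) = (i' + 1 + r) + 1 by ring, AP, prod_range_succ, ← AP,
      if_neg (by omega), fac_one' (by omega) (by omega),
      show i' + 1 + r + 1 + (i' + 1) = (i' + 1 + r + (i' + 1)) + 1 by ring,
      P2_succ (i' + 1 + r + (i' + 1)), P2_succ (i' + 1 + r), P2_succ r]
    have n2 : (1 - q ^ (2 * (((i' + 1 + r + 1 : ℕ) : ℤ) - ((i' + 1 : ℕ) : ℤ))) : RatFunc ℚ) ≠ 0 :=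
      sub_ne_zero.2 (qz_ne_one (by omega)).symm
    have n3 : (1 - q ^ (2 * (((i' + 1 + r + 1 : ℕ) : ℤ) + ((i' + 1 : ℕ) : ℤ))) : RatFunc ℚ) ≠ 0 :=
      sub_ne_zero.2 (qz_ne_one (by omega)).symm
    have e1 : 2 * (((i' + 1 + r + 1 : ℕ) : ℤ) - ((i' + 1 : ℕ) : ℤ)) = 2 * ((r : ℤ) + 1) := by
      push_cast; ring
    have e2 : 2 * (((i' + 1 + r + 1 : ℕ) : ℤ) + ((i' + 1 : ℕ) : ℤ)) =
        2 * (((i' + 1 + r + (i' + 1) : ℕ) : ℤ) + 1) := by push_cast; ring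
    have e3 : 2 * ((i' + 1 + r + 1 : ℕ) : ℤ) = 2 * (((i' + 1 + r : ℕ) : ℤ) + 1) := by
      push_cast; ring
    rw [e1] at n2
    rw [e2] at n3
    rw [e1, e2, e3]
    have key : AP (i' + 1 + r) i' * ((1 - q ^ (2 * (((i' + 1 + r : ℕ) : ℤ) + 1))) ^ 2 *
        ((1 - q ^ (2 * ((r : ℤ) + 1))) * (1 - q ^ (2 * (((i' + 1 + r + (i' + 1) : ℕ) : ℤ) + 1))))⁻¹) *
        (P2 r * (1 - q ^ (2 * ((r : ℤ) + 1))) * (P2 (i' + 1 + r + (i' + 1)) *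
          (1 - q ^ (2 * (((i' + 1 + r + (i' + 1) : ℕ) : ℤ) + 1))))) =
        (AP (i' + 1 + r) i' * (P2 r * P2 (i' + 1 + r + (i' + 1)))) *
          (1 - q ^ (2 * (((i' + 1 + r : ℕ) : ℤ) + 1))) ^ 2 := by
      field_simp
    rw [key, ih]
    ring

/-- `(q²;q²)_k` is a unit for `k < n`, `n` odd -/
theorem P2_inv {n k : ℕ} (ho : n % 2 = 1) (hk : k < n) : (P2 k)⁻¹ ∈ R n :=
  poch_qm_inv (by omega) (by rw [Nat.coprime_two_right, Nat.odd_iff]; exact ho) hk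

theorem P2_mem {n : ℕ} (k : ℕ) : P2 k ∈ R n := by
  rw [P2, poch]
  exact prod_mem fun i _ => sub_mem (one_mem _) (mul_mem (qpow_mem 2) (pow_mem (qpow_mem 2) _))

/-- `q^e` depends on `e mod n` only -/
theorem qz_cong {n : ℕ} (hn : 0 < n) {e e' : ℤ} (h : (n : ℤ) ∣ e - e') :
    I n 1 (q ^ e - q ^ e' : RatFunc ℚ) := by
  have h2 := (I.R_mul (qz_mem hn e') (I_one_sub hn h)).neg
  refine (congrArg (I n 1) ?_).mp h2
  have : (q ^ e : RatFunc ℚ) = q ^ e' * q ^ (e - e') := by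
    rw [← zpow_add₀ q_ne]; congr 1; ring
  rw [this]; ring

/-- `(q²;q²)_s² ≡ (-1)^i q^{-i²} (q²;q²)_{s-i} (q²;q²)_{s+i}` -/
theorem rho {n s : ℕ} (hn : n = 2 * s + 1) : ∀ i ≤ s,
    I n 1 (P2 s ^ 2 - (-1) ^ i * q ^ (-((i : ℤ) ^ 2)) * (P2 (s - i) * P2 (s + i))) := by
  have hn0 : 0 < n := by omega
  intro i
  induction i with
  | zero =>
    intro _
    refine (congrArg (I n 1) ?_).mp I.zero
    simp
    ring
  | succ i ih =>
    intro hi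
    have h1 := ih (by omega)
    obtain ⟨r, hr⟩ : ∃ r, s = i + 1 + r := ⟨s - (i + 1), by omega⟩
    rw [show s - i = r + 1 by omega, P2_succ r] at h1
    rw [show s - (i + 1) = r by omega, ← add_assoc, P2_succ (s + i)]
    have hrm := P2_mem (n := n) r
    have hsm := P2_mem (n := n) (s + i)
    have c1 : I n 1 (q ^ (2 * ((r : ℤ) + 1)) - q ^ (-(2 * (i : ℤ) + 1)) : RatFunc ℚ) :=
      qz_cong hn0 ⟨1, by rw [hn, hr]; push_cast; ring⟩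
    have c2 : I n 1 (q ^ (2 * (((s + i : ℕ) : ℤ) + 1)) - q ^ (2 * (i : ℤ) + 1) : RatFunc ℚ) :=
      qz_cong hn0 ⟨1, by rw [hn]; push_cast; ring⟩
    have e1 : (q : RatFunc ℚ) ^ (-(((i + 1 : ℕ) : ℤ) ^ 2)) =
        q ^ (-((i : ℤ) ^ 2)) * q ^ (-(2 * (i : ℤ) + 1)) := by
      rw [← zpow_add₀ q_ne]; congr 1; push_cast; ring
    have e2 : (q : RatFunc ℚ) ^ (-(2 * (i : ℤ) + 1)) * q ^ (2 * (i : ℤ) + 1) = 1 := by
      rw [← zpow_add₀ q_ne]; simp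
    have hsg : ((-1 : RatFunc ℚ)) ^ i ∈ R n := pow_mem (neg_mem (one_mem _)) _
    have hA := mul_mem (mul_mem hsg (qz_mem hn0 (-((i : ℤ) ^ 2)))) (mul_mem hrm hsm)
    have h3 := (h1.sub (c1.mul_R hA)).sub
      (c2.mul_R (mul_mem hA (qz_mem hn0 (-(2 * (i : ℤ) + 1)))))
    refine (congrArg (I n 1) ?_).mp h3
    rw [e1, pow_succ]
    linear_combination ((-1) ^ i * q ^ (-((i : ℤ) ^ 2)) * (P2 r * P2 (s + i))) * e2

theorem AP_cong {n s : ℕ} (hn : n = 2 * s + 1) {i' : ℕ} (hi : i' < s) :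
    I n 1 (AP s i' + q ^ (-((i' : ℤ) + 1)) * (1 + q ^ (2 * ((i' : ℤ) + 1)))) := by
  have hn0 : 0 < n := by omega
  obtain ⟨r, hr⟩ : ∃ r, s = i' + 1 + r := ⟨s - (i' + 1), by omega⟩
  have h1 := AP_high i' r
  rw [← hr] at h1
  have h2 := rho hn (i' + 1) (by omega)
  rw [show s - (i' + 1) = r by omega] at h2
  have u1 := P2_inv (n := n) (k := r) (by omega) (by omega)
  have u2 := P2_inv (n := n) (k := s + (i' + 1)) (by omega) (by omega)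
  have n1 := P2_ne r
  have n2 := P2_ne (s + (i' + 1))
  have hsg : ((-1 : RatFunc ℚ)) ^ i' ∈ R n := pow_mem (neg_mem (one_mem _)) _
  have hq1 := add_mem (one_mem (R n)) (qz_mem hn0 (2 * ((i' : ℤ) + 1)))
  have h3 := h2.mul_R (mul_mem (mul_mem (mul_mem hsg (qz_mem hn0 (((i' : ℤ) + 1) * i'))) hq1)
    (mul_mem u1 u2))
  refine (congrArg (I n 1) ?_).mp h3
  have e1 : AP s i' = (-1) ^ i' * q ^ (((i' : ℤ) + 1) * i') * (1 + q ^ (2 * ((i' : ℤ) + 1))) *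
      P2 s ^ 2 * ((P2 r)⁻¹ * (P2 (s + (i' + 1)))⁻¹) := by
    rw [← h1]; field_simp
  have e2 : (q : RatFunc ℚ) ^ (-(((i' + 1 : ℕ) : ℤ) ^ 2)) * q ^ (((i' : ℤ) + 1) * i') =
      q ^ (-((i' : ℤ) + 1)) := by
    rw [← zpow_add₀ q_ne]; congr 1; push_cast; ring
  have e3 : ((-1 : RatFunc ℚ)) ^ i' * (-1) ^ i' = 1 := by rw [← mul_pow]; norm_num
  have e4 : P2 r * (P2 r)⁻¹ = 1 := mul_inv_cancel₀ n1
  have e5 : P2 (s + (i' + 1)) * (P2 (s + (i' + 1)))⁻¹ = 1 := mul_inv_cancel₀ n2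
  rw [e1, ← e2]
  set A := (q : RatFunc ℚ) ^ (-(((i' + 1 : ℕ) : ℤ) ^ 2))
  set B := (q : RatFunc ℚ) ^ (((i' : ℤ) + 1) * i')
  set D := (1 + q ^ (2 * ((i' : ℤ) + 1)) : RatFunc ℚ)
  rw [pow_succ (-1 : RatFunc ℚ) i']
  have h6 : (P2 s ^ 2 - (-1) ^ i' * -1 * A * (P2 r * P2 (s + (i' + 1)))) *
      ((-1) ^ i' * B * D * ((P2 r)⁻¹ * (P2 (s + (i' + 1)))⁻¹)) =
      (-1) ^ i' * B * D * P2 s ^ 2 * ((P2 r)⁻¹ * (P2 (s + (i' + 1)))⁻¹) +
        A * B * D * ((-1) ^ i' * (-1) ^ i') * ((P2 r * (P2 r)⁻¹) *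
          (P2 (s + (i' + 1)) * (P2 (s + (i' + 1)))⁻¹)) := by ring
  rw [h6, e3, e4, e5]
  ring

/-- `(τ_i - 2)⁻¹` -/
theorem tau_two {i : ℕ} (hi : 0 < i) : (tau i - tau 0)⁻¹ =
    q ^ (2 * (i : ℤ)) * ((1 - q ^ (2 * (i : ℤ)))⁻¹) ^ 2 := by
  have h1 := tau_sub i 0
  have e1 : (2 * (((0 : ℕ) : ℤ) - (i : ℤ))) = -(2 * (i : ℤ)) := by push_cast; ring
  have e2 : (2 * (((0 : ℕ) : ℤ) + (i : ℤ))) = 2 * (i : ℤ) := by push_cast; ring
  have e3 : -(2 * ((0 : ℕ) : ℤ)) = 0 := by norm_num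
  rw [e1, e2, e3, zpow_zero] at h1
  have n1 : (1 - q ^ (2 * (i : ℤ)) : RatFunc ℚ) ≠ 0 := sub_ne_zero.2 (qz_ne_one (by omega)).symm
  have e4 : (1 - q ^ (-(2 * (i : ℤ))) : RatFunc ℚ) = -(q ^ (2 * (i : ℤ)))⁻¹ * (1 - q ^ (2 * (i : ℤ))) := by
    have n2 := qz_ne (2 * (i : ℤ))
    rw [zpow_neg]
    field_simp
    ring
  rw [h1, e4]
  have n2 := qz_ne (2 * (i : ℤ))
  field_simp

theorem ZZ_pos {n s : ℕ} (hn : n = 2 * s + 1) {i' : ℕ} (hi : i' < s) :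
    I n 3 (ZZ s (i' + 1) (q ^ n) + (1 - q ^ n) ^ 2 * (q ^ ((i' : ℤ) + 1) *
      (1 + q ^ (2 * ((i' : ℤ) + 1))) * ((1 - q ^ (2 * ((i' : ℤ) + 1)))⁻¹) ^ 2)) := by
  have hn0 : 0 < n := by omega
  have hQ : I n 1 (1 - q ^ n : RatFunc ℚ) := I_one_sub_pow hn0 dvd_rfl
  set B : RatFunc ℚ := ∏ j ∈ range s, if j = i' then 1 else
    (tau (i' + 1) - tau (j + 1))⁻¹ * ((q ^ n) ^ 2 + 1 - tau (j + 1) * q ^ n) with hB
  have h1 : ZZ s (i' + 1) (q ^ n) = (1 - q ^ n) ^ 2 * ((tau (i' + 1) - tau 0)⁻¹ * B) := by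
    rw [ZZ, prod_range_succ', if_neg (Nat.succ_ne_zero i').symm, tau_zero, hB]
    have h2 : ∀ j ∈ range s, (if j + 1 = i' + 1 then (1 : RatFunc ℚ) else
        (tau (i' + 1) - tau (j + 1))⁻¹ * ((q ^ n) ^ 2 + 1 - tau (j + 1) * q ^ n)) =
        if j = i' then 1 else
        (tau (i' + 1) - tau (j + 1))⁻¹ * ((q ^ n) ^ 2 + 1 - tau (j + 1) * q ^ n) := by
      intro j _
      simp
    rw [prod_congr rfl h2]
    ring
  have h3 : I n 1 (B - AP s i') := by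
    refine P9.prod_cong _ (fun j hj => ?_) (fun j hj => ?_) (fun j hj => ?_)
    · have hj' := mem_range.1 hj
      split_ifs with hji
      · rw [sub_self]; exact I.zero
      · have hu := tau_inv hn (show i' + 1 ≤ s by omega) (show j + 1 ≤ s by omega) (by omega)
        have e1 : (tau (i' + 1) - tau (j + 1))⁻¹ * ((q ^ n) ^ 2 + 1 - tau (j + 1) * q ^ n) -
            (tau (i' + 1) - tau (j + 1))⁻¹ * (tau 0 - tau (j + 1)) =
            (1 - q ^ n) * ((tau (i' + 1) - tau (j + 1))⁻¹ * (tau (j + 1) - (1 + q ^ n))) := by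
          rw [tau_zero]; ring
        rw [e1]
        exact hQ.mul_R (mul_mem hu (sub_mem (tau_mem hn0 _) (add_mem (one_mem _) (qpow_mem _))))
    · have hj' := mem_range.1 hj
      split_ifs with hji
      · exact one_mem _
      · have hu := tau_inv hn (show i' + 1 ≤ s by omega) (show j + 1 ≤ s by omega) (by omega)
        exact mul_mem hu (sub_mem (add_mem (pow_mem (qpow_mem _) _) (one_mem _))
          (mul_mem (tau_mem hn0 _) (qpow_mem _)))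
    · have hj' := mem_range.1 hj
      split_ifs with hji
      · exact one_mem _
      · have hu := tau_inv hn (show i' + 1 ≤ s by omega) (show j + 1 ≤ s by omega) (by omega)
        exact mul_mem hu (sub_mem (tau_mem hn0 _) (tau_mem hn0 _))
  have h4 := AP_cong hn hi
  have hu : (tau (i' + 1) - tau 0)⁻¹ ∈ R n :=
    tau_inv hn (show i' + 1 ≤ s by omega) (Nat.zero_le s) (by omega)
  have h5 := (hQ.mul hQ).mul ((I.R_mul hu (h3.add h4)))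
  refine (congrArg (I n 3) ?_).mp h5
  rw [h1, tau_two (Nat.succ_pos i')]
  have e7 : ((((i' + 1 : ℕ)) : ℤ)) = (i' : ℤ) + 1 := by push_cast; ring
  rw [e7]
  have e8 : (q : RatFunc ℚ) ^ (2 * ((i' : ℤ) + 1)) * q ^ (-((i' : ℤ) + 1)) = q ^ ((i' : ℤ) + 1) := by
    rw [← zpow_add₀ q_ne]; congr 1; ring
  linear_combination ((1 - q ^ n) ^ 2 * ((1 - q ^ (2 * ((i' : ℤ) + 1)))⁻¹) ^ 2 *
    (1 + q ^ (2 * ((i' : ℤ) + 1)))) * e8

/-- the sum `Σ_g` -/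
def SGm (s : ℕ) : RatFunc ℚ := ∑ i ∈ range s, (-1) ^ i * q ^ (((i : ℤ) + 1) - ((i : ℤ) + 1) ^ 2) *
  (1 + q ^ (2 * ((i : ℤ) + 1))) * ((1 - q ^ (2 * ((i : ℤ) + 1)))⁻¹) ^ 2

theorem u2 {n s : ℕ} (hn : n = 2 * s + 1) {i : ℕ} (hi : i < s) :
    (1 - q ^ (2 * ((i : ℤ) + 1)) : RatFunc ℚ)⁻¹ ∈ R n :=
  inv_one_sub_qz (by omega) (ndz2 (by omega) (ndz (by omega) (by rw [abs_lt]; constructor <;> omega)))

theorem SGm_mem {n s : ℕ} (hn : n = 2 * s + 1) : SGm s ∈ R n :=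
  sum_mem fun i hi => mul_mem (mul_mem (mul_mem (pow_mem (neg_mem (one_mem _)) _)
    (qz_mem (by omega) _)) (add_mem (one_mem _) (qz_mem (by omega) _)))
      (pow_mem (u2 hn (mem_range.1 hi)) 2)

theorem FT_mem {n : ℕ} (hn : 0 < n) (s i : ℕ) : FT s i ∈ R n :=
  mul_mem (pow_mem (neg_mem (one_mem _)) _) (qz_mem hn _)

/-- `L_n` modulo `Φ_n³` -/
theorem L_cong {n s : ℕ} (hn : n = 2 * s + 1) :
    I n 3 (fL n q - FT s 0 * ((q ^ n) ^ s + (1 - q ^ n) ^ 2 * (hS s + SGm s))) := by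
  have hn0 : 0 < n := by omega
  have h0 := L_interp s
  rw [← hn] at h0
  rw [h0, sum_range_succ']
  have h1 := I.R_mul (FT_mem hn0 s 0) (ZZ_zero hn)
  have h2 : I n 3 (∑ i ∈ range s, FT s (i + 1) * (ZZ s (i + 1) (q ^ n) +
      (1 - q ^ n) ^ 2 * (q ^ ((i : ℤ) + 1) *
      (1 + q ^ (2 * ((i : ℤ) + 1))) * ((1 - q ^ (2 * ((i : ℤ) + 1)))⁻¹) ^ 2))) :=
    I.sum fun i hi => I.R_mul (FT_mem hn0 s (i + 1)) (ZZ_pos hn (mem_range.1 hi))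
  have h3 : ∑ i ∈ range s, FT s (i + 1) * ((1 - q ^ n) ^ 2 * (q ^ ((i : ℤ) + 1) *
      (1 + q ^ (2 * ((i : ℤ) + 1))) * ((1 - q ^ (2 * ((i : ℤ) + 1)))⁻¹) ^ 2)) =
      -(FT s 0 * (1 - q ^ n) ^ 2 * SGm s) := by
    rw [SGm, mul_sum, ← sum_neg_distrib]
    refine sum_congr rfl fun i _ => ?_
    have e1 : (q : RatFunc ℚ) ^ (-((s : ℤ) ^ 2) - ((i + 1 : ℕ) : ℤ) ^ 2) * q ^ ((i : ℤ) + 1) =
        q ^ (-((s : ℤ) ^ 2) - ((0 : ℕ) : ℤ) ^ 2) * q ^ (((i : ℤ) + 1) - ((i : ℤ) + 1) ^ 2) := by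
      rw [← zpow_add₀ q_ne, ← zpow_add₀ q_ne]; congr 1; push_cast; ring
    have e2 : ((-1 : RatFunc ℚ)) ^ (s + (i + 1)) = -((-1) ^ (s + 0) * (-1) ^ i) := by
      rw [← add_assoc, pow_succ, pow_add, add_zero]; ring
    rw [FT, FT, e2]
    linear_combination (-((-1) ^ (s + 0) * (-1) ^ i) * (1 - q ^ n) ^ 2 *
      (1 + q ^ (2 * ((i : ℤ) + 1))) * ((1 - q ^ (2 * ((i : ℤ) + 1)))⁻¹) ^ 2) * e1
  simp only [mul_add (FT s _) (ZZ s _ _)] at h2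
  rw [sum_add_distrib, h3] at h2
  refine (congrArg (I n 3) ?_).mp (h2.add h1)
  ring

end

end V11316.H
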