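import Pool.Agent.V11316.H2

/-!
`R_n(q)` modulo `Φ_n³` by telescoping.
-/

open Finset Polynomial

namespace V11316.H

open V11307.Q V11316 V11316.Del

noncomputable section

/-- `∑_{k<n} (Y;q²)_k (Y';q²)_k/(q²;q²)_k² q^{2k}` -/
def gR (n : ℕ) (Y Y' : RatFunc ℚ) : RatFunc ℚ :=
  ∑ k ∈ range n, poch (q ^ 2) Y k * poch (q ^ 2) Y' k * ((P2 k)⁻¹) ^ 2 * (q ^ 2) ^ k

/-- the recurrence -/
theorem gR_rec (N : ℕ) {Z : RatFunc ℚ} (hZ : Z ≠ 0) :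
    gR (N + 1) (Z⁻¹ * (q ^ 2)⁻¹) (Z * q ^ 2 * q ^ 2) + Z * q ^ 2 * gR (N + 1) Z⁻¹ (Z * q ^ 2) =
      (1 + Z * q ^ 2) * (poch (q ^ 2) Z⁻¹ N * poch (q ^ 2) (Z * q ^ 2 * q ^ 2) N * ((P2 N)⁻¹) ^ 2) := by
  induction N with
  | zero => simp [gR]
  | succ N ih =>
    have h1 : ∀ Y Y', gR (N + 1 + 1) Y Y' = gR (N + 1) Y Y' +
        poch (q ^ 2) Y (N + 1) * poch (q ^ 2) Y' (N + 1) * ((P2 (N + 1))⁻¹) ^ 2 *
          (q ^ 2) ^ (N + 1) := fun Y Y' => by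
      rw [gR, sum_range_succ, ← gR]
    have n0 : (q : RatFunc ℚ) ≠ 0 := q_ne
    have n1 := P2_ne N
    have n2 : (1 - q ^ 2 * (q ^ 2) ^ N : RatFunc ℚ) ≠ 0 := by
      rw [← pow_mul, ← pow_add]; exact one_sub_ne (by omega)
    have e1 : poch (q ^ 2) (Z⁻¹ * (q ^ 2)⁻¹) (N + 1) = (1 - Z⁻¹ * (q ^ 2)⁻¹) * poch (q ^ 2) Z⁻¹ N := by
      rw [poch_succ', mul_assoc, inv_mul_cancel₀ (pow_ne_zero 2 n0), mul_one]
    have e2 : P2 (N + 1) = P2 N * (1 - q ^ 2 * (q ^ 2) ^ N) := poch_succ _ _ _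
    have e3 : poch (q ^ 2) Z⁻¹ (N + 1) = poch (q ^ 2) Z⁻¹ N * (1 - Z⁻¹ * (q ^ 2) ^ N) :=
      poch_succ _ _ _
    have e4 : poch (q ^ 2) (Z * q ^ 2) (N + 1) = (1 - Z * q ^ 2) * poch (q ^ 2) (Z * q ^ 2 * q ^ 2) N :=
      poch_succ' _ _ _
    have e5 : poch (q ^ 2) (Z * q ^ 2 * q ^ 2) (N + 1) = poch (q ^ 2) (Z * q ^ 2 * q ^ 2) N *
        (1 - Z * q ^ 2 * q ^ 2 * (q ^ 2) ^ N) := poch_succ _ _ _
    have e6 : ((q ^ 2) ^ (N + 1) : RatFunc ℚ) = q ^ 2 * (q ^ 2) ^ N := pow_succ' _ _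
    have e7 : gR (N + 1 + 1) (Z⁻¹ * (q ^ 2)⁻¹) (Z * q ^ 2 * q ^ 2) +
        Z * q ^ 2 * gR (N + 1 + 1) Z⁻¹ (Z * q ^ 2) =
        (gR (N + 1) (Z⁻¹ * (q ^ 2)⁻¹) (Z * q ^ 2 * q ^ 2) + Z * q ^ 2 * gR (N + 1) Z⁻¹ (Z * q ^ 2)) +
        (poch (q ^ 2) (Z⁻¹ * (q ^ 2)⁻¹) (N + 1) * poch (q ^ 2) (Z * q ^ 2 * q ^ 2) (N + 1) *
          ((P2 (N + 1))⁻¹) ^ 2 * (q ^ 2) ^ (N + 1) +
        Z * q ^ 2 * (poch (q ^ 2) Z⁻¹ (N + 1) * poch (q ^ 2) (Z * q ^ 2) (N + 1) *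
          ((P2 (N + 1))⁻¹) ^ 2 * (q ^ 2) ^ (N + 1))) := by
      rw [h1, h1]; ring
    rw [e7, ih, e1, e5, e3, e4, e6, e2]
    set x := ((q ^ 2) ^ N : RatFunc ℚ)
    set p := (q ^ 2 : RatFunc ℚ)
    have np : p ≠ 0 := pow_ne_zero 2 n0
    set A := poch p Z⁻¹ N
    set B := poch p (Z * p * p) N
    field_simp
    ring

/-- `g(x)` -/
def gx (N : ℕ) (x : ℕ) : RatFunc ℚ := gR (N + 1) (q ^ (-(2 * (x : ℤ)))) (q ^ (2 * (x : ℤ) + 2))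

/-- the inhomogeneity -/
def DD (N x : ℕ) : RatFunc ℚ :=
  (1 + q ^ (2 * (x : ℤ) + 2)) * (poch (q ^ 2) (q ^ (-(2 * (x : ℤ)))) N *
    poch (q ^ 2) (q ^ (2 * (x : ℤ) + 4)) N * ((P2 N)⁻¹) ^ 2)

theorem gx_rec (N x : ℕ) : gx N (x + 1) + q ^ (2 * (x : ℤ) + 2) * gx N x = DD N x := by
  have h := gR_rec N (qz_ne (2 * (x : ℤ)))
  have e1 : ((q : RatFunc ℚ) ^ (2 * (x : ℤ)))⁻¹ * (q ^ 2)⁻¹ = q ^ (-(2 * ((x + 1 : ℕ) : ℤ))) := by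
    rw [← zpow_natCast q 2, ← zpow_neg, ← zpow_neg, ← zpow_add₀ q_ne]; congr 1; push_cast; ring
  have e2 : (q : RatFunc ℚ) ^ (2 * (x : ℤ)) * q ^ 2 * q ^ 2 = q ^ (2 * (x : ℤ) + 4) := by
    rw [← zpow_natCast q 2, ← zpow_add₀ q_ne, ← zpow_add₀ q_ne]; congr 1 <;> omega
  have e3 : (q : RatFunc ℚ) ^ (2 * (x : ℤ)) * q ^ 2 = q ^ (2 * (x : ℤ) + 2) := by
    rw [← zpow_natCast q 2, ← zpow_add₀ q_ne]; congr 1
  have e4 : ((q : RatFunc ℚ) ^ (2 * (x : ℤ)))⁻¹ = q ^ (-(2 * (x : ℤ))) := by rw [zpow_neg]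
  rw [e2, e1, e3, e4] at h
  rw [gx, gx, DD]
  have e5 : 2 * ((x + 1 : ℕ) : ℤ) + 2 = 2 * (x : ℤ) + 4 := by push_cast; ring
  rw [e5]
  exact h

theorem gx_zero (N : ℕ) : gx N 0 = 1 := by
  rw [gx, gR, sum_range_succ']
  have h1 : ∀ k : ℕ, poch (q ^ 2) (q ^ (-(2 * ((0 : ℕ) : ℤ))) : RatFunc ℚ) (k + 1) = 0 := fun k => by
    rw [poch_succ']; simp
  simp only [h1, zero_mul, sum_const_zero, zero_add]
  simp

/-- the values of `g` below `n` -/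
theorem gx_val (N : ℕ) : ∀ x ≤ N, gx N x = (-1) ^ x * q ^ ((x : ℤ) * (x + 1)) := by
  intro x
  induction x with
  | zero => intro _; rw [gx_zero]; simp
  | succ x ih =>
    intro hx
    have h1 := ih (by omega)
    have h2 := gx_rec N x
    have h3 : DD N x = 0 := by
      have : poch (q ^ 2) (q ^ (-(2 * (x : ℤ)))) N = (0 : RatFunc ℚ) := by
        rw [poch, prod_eq_zero_iff]
        refine ⟨x, mem_range.2 (by omega), ?_⟩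
        rw [← pow_mul, ← zpow_natCast, ← zpow_add₀ q_ne]
        have : -(2 * (x : ℤ)) + ((2 * x : ℕ) : ℤ) = 0 := by push_cast; ring
        rw [this, zpow_zero, sub_self]
      rw [DD, this]; ring
    rw [h3, h1] at h2
    have e2 : (q : RatFunc ℚ) ^ (2 * (x : ℤ) + 2) * q ^ ((x : ℤ) * (x + 1)) =
        q ^ (((x + 1 : ℕ) : ℤ) * (((x + 1 : ℕ) : ℤ) + 1)) := by
      rw [← zpow_add₀ q_ne]; congr 1; push_cast; ring
    rw [pow_succ, ← e2]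
    linear_combination h2

/-- beyond `n` -/
theorem gx_far (N : ℕ) : ∀ i : ℕ, gx N (N + i) = (-1) ^ (N + i) *
    q ^ (((N : ℤ) + i) * ((N : ℤ) + i + 1)) * (1 + ∑ m ∈ range i, (-1) ^ (N + m + 1) *
      q ^ (-(((N : ℤ) + m + 1) * ((N : ℤ) + m + 2))) * DD N (N + m)) := by
  intro i
  induction i with
  | zero =>
    rw [add_zero, gx_val N N le_rfl]
    simp
  | succ i ih =>
    have h2 := gx_rec N (N + i)
    rw [ih] at h2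
    rw [sum_range_succ, ← add_assoc]
    have c1 : ((N + i : ℕ) : ℤ) = (N : ℤ) + i := by push_cast; ring
    have c2 : ((i + 1 : ℕ) : ℤ) = (i : ℤ) + 1 := by push_cast; ring
    rw [c1] at h2
    rw [c2]
    set S := ∑ m ∈ range i, (-1) ^ (N + m + 1) *
      q ^ (-(((N : ℤ) + m + 1) * ((N : ℤ) + m + 2))) * DD N (N + m)
    have e2 : (q : RatFunc ℚ) ^ (2 * ((N : ℤ) + i) + 2) * q ^ (((N : ℤ) + i) * ((N : ℤ) + i + 1)) =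
        q ^ (((N : ℤ) + (i + 1)) * ((N : ℤ) + (i + 1) + 1)) := by
      rw [← zpow_add₀ q_ne]; congr 1; ring
    have e3 : (q : RatFunc ℚ) ^ (((N : ℤ) + (i + 1)) * ((N : ℤ) + (i + 1) + 1)) *
        q ^ (-(((N : ℤ) + i + 1) * ((N : ℤ) + i + 2))) = 1 := by
      rw [← zpow_add₀ q_ne]
      have : ((N : ℤ) + (i + 1)) * ((N : ℤ) + (i + 1) + 1) + -(((N : ℤ) + i + 1) * ((N : ℤ) + i + 2)) = 0 := by
        ring
      rw [this, zpow_zero]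
    have e4 : ((-1 : RatFunc ℚ)) ^ (N + i + 1) * (-1) ^ (N + i + 1) = 1 := by
      rw [← mul_pow]; norm_num
    have e5 : ((-1 : RatFunc ℚ)) ^ (N + i + 1) = -(-1) ^ (N + i) := by rw [pow_succ]; ring
    have h3 : gx N (N + i + 1) = DD N (N + i) - q ^ (2 * ((N : ℤ) + i) + 2) * ((-1) ^ (N + i) *
      q ^ (((N : ℤ) + i) * ((N : ℤ) + i + 1)) * (1 + S)) := by linear_combination h2
    rw [h3]
    have e6 : q ^ (2 * ((N : ℤ) + i) + 2) * ((-1) ^ (N + i) *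
        q ^ (((N : ℤ) + i) * ((N : ℤ) + i + 1)) * (1 + S)) = (-1) ^ (N + i) *
        (q ^ (((N : ℤ) + (i + 1)) * ((N : ℤ) + (i + 1) + 1))) * (1 + S) := by
      rw [← e2]; ring
    rw [e6]
    have e7 : (-1) ^ (N + i + 1) * q ^ (((N : ℤ) + (i + 1)) * ((N : ℤ) + (i + 1) + 1)) *
        (1 + (S + (-1) ^ (N + i + 1) * q ^ (-(((N : ℤ) + i + 1) * ((N : ℤ) + i + 2))) *
          DD N (N + i))) =
        (-1) ^ (N + i + 1) * q ^ (((N : ℤ) + (i + 1)) * ((N : ℤ) + (i + 1) + 1)) * (1 + S) +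
        ((-1) ^ (N + i + 1) * (-1) ^ (N + i + 1)) *
          (q ^ (((N : ℤ) + (i + 1)) * ((N : ℤ) + (i + 1) + 1)) *
            q ^ (-(((N : ℤ) + i + 1) * ((N : ℤ) + i + 2)))) * DD N (N + i) := by ring
    rw [e7, e3, e4, e5]
    ring

/-- `P(e) = ∏_{l<N} (1 - q^{2(e+1+l)})` -/
def PP (N e : ℕ) : RatFunc ℚ := poch (q ^ 2) (q ^ (2 * ((e : ℤ) + 1))) N

theorem PP_zero (N : ℕ) : PP N 0 = P2 N := by
  rw [PP, P2]; congr 1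

theorem PP_succ (N e : ℕ) : (1 - q ^ (2 * ((e : ℤ) + 1))) * PP N (e + 1) =
    PP N e * (1 - q ^ (2 * ((e : ℤ) + 1 + N))) := by
  have h := poch_succ (q ^ 2 : RatFunc ℚ) (q ^ (2 * ((e : ℤ) + 1))) N
  rw [poch_succ'] at h
  have e1 : (q : RatFunc ℚ) ^ (2 * ((e : ℤ) + 1)) * q ^ 2 = q ^ (2 * (((e + 1 : ℕ) : ℤ) + 1)) := by
    rw [← zpow_natCast q 2, ← zpow_add₀ q_ne]; congr 1 <;> omega
  have e2 : (q : RatFunc ℚ) ^ (2 * ((e : ℤ) + 1)) * (q ^ 2) ^ N = q ^ (2 * ((e : ℤ) + 1 + N)) := by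
    rw [← pow_mul, ← zpow_natCast, ← zpow_add₀ q_ne]; congr 1; push_cast; ring
  rw [e1, e2] at h
  exact h

theorem DD_PP (s m : ℕ) : DD (2 * s) (2 * s + m) =
    (1 + q ^ (2 * ((2 * s + 1 : ℤ) + m))) * (q ^ (-(2 * (s : ℤ) * (2 * m + (2 * s + 1)))) *
      (PP (2 * s) m * (P2 (2 * s))⁻¹) * (PP (2 * s) (2 * s + 1 + m) * (P2 (2 * s))⁻¹)) := by
  have h1 := poch_rev 2 (-(2 * ((2 * s + m : ℕ) : ℤ))) (2 * s)
  have e0 : (q : RatFunc ℚ) ^ (2 : ℤ) = q ^ 2 := by norm_cast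
  have e1 : -(-(2 * ((2 * s + m : ℕ) : ℤ))) - 2 * (((2 * s : ℕ) : ℤ) - 1) = 2 * ((m : ℤ) + 1) := by
    push_cast; ring
  rw [e1, e0] at h1
  have h2 := two_tri' (2 * s)
  have e2 : -(2 * ((2 * s + m : ℕ) : ℤ)) * ((2 * s : ℕ) : ℤ) +
      2 * ((∑ i ∈ range (2 * s), i : ℕ) : ℤ) = -(2 * (s : ℤ) * (2 * m + (2 * s + 1))) := by
    rw [h2]; push_cast; ring
  have e3 : ((-1 : RatFunc ℚ)) ^ (2 * s) = 1 := by rw [pow_mul]; norm_num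
  rw [e2, e3, one_mul] at h1
  rw [DD, h1, PP, PP]
  have e4 : 2 * ((2 * s + m : ℕ) : ℤ) + 2 = 2 * ((2 * s + 1 : ℤ) + m) := by push_cast; ring
  have e5 : 2 * ((2 * s + m : ℕ) : ℤ) + 4 = 2 * (((2 * s + 1 + m : ℕ) : ℤ) + 1) := by push_cast; ring
  rw [e4, e5]
  ring

/-- the quotients `P(i)/P(0)` for `1 ≤ i` -/
theorem PP_low {n s : ℕ} (hn : n = 2 * s + 1) : ∀ i < s,
    I n 2 (PP (2 * s) (i + 1) * (P2 (2 * s))⁻¹ -
      (1 - (q ^ n) ^ 2) * (1 - q ^ (2 * ((i : ℤ) + 1)))⁻¹) := by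
  have hn0 : 0 < n := by omega
  have hQ2 : I n 1 (1 - (q ^ n) ^ 2 : RatFunc ℚ) := by
    rw [← pow_mul]; exact I_one_sub_pow hn0 (Dvd.intro _ rfl)
  have n0 := P2_ne (2 * s)
  intro i
  induction i with
  | zero =>
    intro hs
    have h1 := PP_succ (2 * s) 0
    rw [PP_zero] at h1
    have n1 : (1 - q ^ (2 * (((0 : ℕ) : ℤ) + 1)) : RatFunc ℚ) ≠ 0 :=
      sub_ne_zero.2 (qz_ne_one (by norm_num)).symm
    have e1 : (q : RatFunc ℚ) ^ (2 * (((0 : ℕ) : ℤ) + 1 + ((2 * s : ℕ) : ℤ))) = (q ^ n) ^ 2 := by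
      rw [← pow_mul, ← zpow_natCast, hn]; congr 1; push_cast; ring
    rw [e1] at h1
    refine (congrArg (I n 2) ?_).mp I.zero
    have h2 : PP (2 * s) (0 + 1) = P2 (2 * s) * (1 - (q ^ n) ^ 2) *
        (1 - q ^ (2 * (((0 : ℕ) : ℤ) + 1)))⁻¹ := by
      rw [← h1]; field_simp
    rw [h2]
    field_simp
    ring
  | succ i ih =>
    intro hs
    have h0 := ih (by omega)
    have h1 := PP_succ (2 * s) (i + 1)
    have n1 : (1 - q ^ (2 * (((i + 1 : ℕ) : ℤ) + 1)) : RatFunc ℚ) ≠ 0 :=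
      sub_ne_zero.2 (qz_ne_one (by omega)).symm
    have n2 : (1 - q ^ (2 * ((i : ℤ) + 1)) : RatFunc ℚ) ≠ 0 :=
      sub_ne_zero.2 (qz_ne_one (by omega)).symm
    have u1 := V11316.H.u2 hn (i := i + 1) hs
    have u1' := V11316.H.u2 hn (i := i) (by omega)
    -- `1 - q^{2(i+1+1+2s)} = 1 - Q² q^{2(i+1)}`
    have e1 : (q : RatFunc ℚ) ^ (2 * (((i + 1 : ℕ) : ℤ) + 1 + ((2 * s : ℕ) : ℤ))) =
        (q ^ n) ^ 2 * q ^ (2 * ((i : ℤ) + 1)) := by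
      rw [← pow_mul, ← zpow_natCast q (n * 2), ← zpow_add₀ q_ne, hn]; congr 1; push_cast; ring
    rw [e1] at h1
    have h2 : PP (2 * s) (i + 1 + 1) * (P2 (2 * s))⁻¹ = (PP (2 * s) (i + 1) * (P2 (2 * s))⁻¹) *
        (1 - (q ^ n) ^ 2 * q ^ (2 * ((i : ℤ) + 1))) *
        (1 - q ^ (2 * (((i + 1 : ℕ) : ℤ) + 1)))⁻¹ := by
      rw [eq_mul_inv_iff_mul_eq₀ n1]
      linear_combination (P2 (2 * s))⁻¹ * h1
    rw [h2]
    set a := PP (2 * s) (i + 1) * (P2 (2 * s))⁻¹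
    set u := (1 - q ^ (2 * (((i + 1 : ℕ) : ℤ) + 1)) : RatFunc ℚ)⁻¹
    set z := (q : RatFunc ℚ) ^ (2 * ((i : ℤ) + 1))
    have hz : z ∈ R n := qz_mem hn0 _
    have e3 : a * (1 - (q ^ n) ^ 2 * z) * u - (1 - (q ^ n) ^ 2) * u =
        (a - (1 - (q ^ n) ^ 2) * (1 - z)⁻¹) * ((1 - (q ^ n) ^ 2 * z) * u) +
          (1 - (q ^ n) ^ 2) * (1 - (q ^ n) ^ 2) * ((1 - z)⁻¹ * z * u) := by
      have n2' : (1 - z) ≠ 0 := n2
      field_simp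
      ring
    rw [e3]
    have hQm : (q ^ n : RatFunc ℚ) ^ 2 ∈ R n := pow_mem (qpow_mem _) _
    exact (h0.mul_R (mul_mem (sub_mem (one_mem _) (mul_mem hQm hz)) u1)).add
      ((hQ2.mul hQ2).mul_R (mul_mem (mul_mem u1' hz) u1))

/-- `V = P(n)/P(0)` -/
def VV (s : ℕ) : RatFunc ℚ := PP (2 * s) (2 * s + 1) * (P2 (2 * s))⁻¹

theorem PP_high {n s : ℕ} (hn : n = 2 * s + 1) (hV : I n 1 (VV s - 1)) : ∀ i < s,
    I n 2 (PP (2 * s) (2 * s + 1 + (i + 1)) * (P2 (2 * s))⁻¹ -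
      (1 - (q ^ n) ^ 4) * (1 - q ^ (2 * ((i : ℤ) + 1)))⁻¹) := by
  have hn0 : 0 < n := by omega
  have hQ2 : I n 1 (1 - (q ^ n) ^ 2 : RatFunc ℚ) := by
    rw [← pow_mul]; exact I_one_sub_pow hn0 (Dvd.intro _ rfl)
  have hQ4 : I n 1 (1 - (q ^ n) ^ 4 : RatFunc ℚ) := by
    rw [← pow_mul]; exact I_one_sub_pow hn0 (Dvd.intro _ rfl)
  have n0 := P2_ne (2 * s)
  have hQm : ∀ a : ℕ, (q ^ n : RatFunc ℚ) ^ a ∈ R n := fun a => pow_mem (qpow_mem _) _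
  intro i
  induction i with
  | zero =>
    intro hs
    have h1 := PP_succ (2 * s) (2 * s + 1)
    have e1 : (q : RatFunc ℚ) ^ (2 * (((2 * s + 1 : ℕ) : ℤ) + 1 + ((2 * s : ℕ) : ℤ))) = (q ^ n) ^ 4 := by
      rw [← pow_mul, ← zpow_natCast, hn]; congr 1; push_cast; ring
    have e2 : (q : RatFunc ℚ) ^ (2 * (((2 * s + 1 : ℕ) : ℤ) + 1)) = (q ^ n) ^ 2 * q ^ (2 * (((0 : ℕ) : ℤ) + 1)) := by
      rw [← pow_mul, ← zpow_natCast q (n * 2), ← zpow_add₀ q_ne, hn]; congr 1; push_cast; ring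
    rw [e1, e2] at h1
    set z := (q : RatFunc ℚ) ^ (2 * (((0 : ℕ) : ℤ) + 1)) with hz
    have hzm : z ∈ R n := qz_mem hn0 _
    have u1' := V11316.H.u2 hn (i := 0) (by omega)
    have n2 : (1 - z : RatFunc ℚ) ≠ 0 := sub_ne_zero.2 (qz_ne_one (by norm_num)).symm
    -- `(1 - Q² z) b = V (1 - Q⁴)`
    set b := PP (2 * s) (2 * s + 1 + (0 + 1)) * (P2 (2 * s))⁻¹ with hb
    have h3 : (1 - (q ^ n) ^ 2 * z) * b = VV s * (1 - (q ^ n) ^ 4) := by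
      rw [hb, VV, zero_add]; linear_combination (P2 (2 * s))⁻¹ * h1
    have n3 : (1 - (q ^ n) ^ 2 * z : RatFunc ℚ) ≠ 0 := by
      rw [← e2]; exact sub_ne_zero.2 (qz_ne_one (by omega)).symm
    have u3 : (1 - (q ^ n) ^ 2 * z : RatFunc ℚ)⁻¹ ∈ R n := by
      rw [← e2]
      refine inv_one_sub_qz hn0 (ndz2 (by omega) fun hd => ?_)
      have : (((2 * s + 1 : ℕ) : ℤ) + 1) = n + 1 := by rw [hn]
      rw [this] at hd
      have h5 := (Int.dvd_add_right (dvd_refl (n : ℤ))).1 hd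
      have h6 := Int.le_of_dvd one_pos h5
      omega
    have hbm : b = (1 - (q ^ n) ^ 4) * (VV s * (1 - (q ^ n) ^ 2 * z)⁻¹) := by
      rw [mul_comm (VV s), ← mul_assoc, mul_comm _ (VV s), ← mul_assoc, ← h3]
      field_simp
    have hVm : VV s ∈ R n := by
      have := add_mem hV.mem (one_mem (R n)); simpa using this
    have e4 : b - (1 - (q ^ n) ^ 4) * (1 - z)⁻¹ = (1 - (q ^ n) ^ 4) *
        ((VV s - 1) * (1 - (q ^ n) ^ 2 * z)⁻¹ -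
          (1 - (q ^ n) ^ 2) * (z * (1 - (q ^ n) ^ 2 * z)⁻¹ * (1 - z)⁻¹)) := by
      rw [hbm]
      field_simp
      ring
    rw [e4]
    exact hQ4.mul ((hV.mul_R u3).sub (hQ2.mul_R (mul_mem (mul_mem hzm u3) u1')))
  | succ i ih =>
    intro hs
    have h0 := ih (by omega)
    have h1 := PP_succ (2 * s) (2 * s + 1 + (i + 1))
    have e1 : (q : RatFunc ℚ) ^ (2 * (((2 * s + 1 + (i + 1) : ℕ) : ℤ) + 1 + ((2 * s : ℕ) : ℤ))) =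
        (q ^ n) ^ 4 * q ^ (2 * ((i : ℤ) + 1)) := by
      rw [← pow_mul, ← zpow_natCast q (n * 4), ← zpow_add₀ q_ne, hn]; congr 1; push_cast; ring
    have e2 : (q : RatFunc ℚ) ^ (2 * (((2 * s + 1 + (i + 1) : ℕ) : ℤ) + 1)) =
        (q ^ n) ^ 2 * q ^ (2 * (((i + 1 : ℕ) : ℤ) + 1)) := by
      rw [← pow_mul, ← zpow_natCast q (n * 2), ← zpow_add₀ q_ne, hn]; congr 1; push_cast; ring
    have u1 := V11316.H.u2 hn (i := i + 1) hs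
    have u1' := V11316.H.u2 hn (i := i) (by omega)
    have n2 : (1 - q ^ (2 * ((i : ℤ) + 1)) : RatFunc ℚ) ≠ 0 :=
      sub_ne_zero.2 (qz_ne_one (by omega)).symm
    have n4 : (1 - q ^ (2 * (((i + 1 : ℕ) : ℤ) + 1)) : RatFunc ℚ) ≠ 0 :=
      sub_ne_zero.2 (qz_ne_one (by omega)).symm
    have n3 : (1 - (q ^ n) ^ 2 * q ^ (2 * (((i + 1 : ℕ) : ℤ) + 1)) : RatFunc ℚ) ≠ 0 := by
      rw [← e2]; exact sub_ne_zero.2 (qz_ne_one (by omega)).symm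
    have u3 : (1 - (q ^ n) ^ 2 * q ^ (2 * (((i + 1 : ℕ) : ℤ) + 1)) : RatFunc ℚ)⁻¹ ∈ R n := by
      rw [← e2]
      refine inv_one_sub_qz hn0 (ndz2 (by omega) fun hd => ?_)
      have : (((2 * s + 1 + (i + 1) : ℕ) : ℤ) + 1) = n + (i + 2) := by rw [hn]; push_cast; ring
      rw [this] at hd
      have h5 := (Int.dvd_add_right (dvd_refl (n : ℤ))).1 hd
      have h6 := Int.le_of_dvd (by positivity) h5
      omega
    rw [e1, e2] at h1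
    have h2 : PP (2 * s) (2 * s + 1 + (i + 1 + 1)) * (P2 (2 * s))⁻¹ =
        (PP (2 * s) (2 * s + 1 + (i + 1)) * (P2 (2 * s))⁻¹) *
        (1 - (q ^ n) ^ 4 * q ^ (2 * ((i : ℤ) + 1))) *
        (1 - (q ^ n) ^ 2 * q ^ (2 * (((i + 1 : ℕ) : ℤ) + 1)))⁻¹ := by
      rw [eq_mul_inv_iff_mul_eq₀ n3, ← add_assoc (2 * s + 1) (i + 1) 1]
      linear_combination (P2 (2 * s))⁻¹ * h1
    rw [h2]
    set a := PP (2 * s) (2 * s + 1 + (i + 1)) * (P2 (2 * s))⁻¹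
    set z' := (q : RatFunc ℚ) ^ (2 * (((i + 1 : ℕ) : ℤ) + 1))
    set z := (q : RatFunc ℚ) ^ (2 * ((i : ℤ) + 1))
    have hz : z ∈ R n := qz_mem hn0 _
    have hz' : z' ∈ R n := qz_mem hn0 _
    have e3 : a * (1 - (q ^ n) ^ 4 * z) * (1 - (q ^ n) ^ 2 * z')⁻¹ - (1 - (q ^ n) ^ 4) * (1 - z')⁻¹ =
        (a - (1 - (q ^ n) ^ 4) * (1 - z)⁻¹) * ((1 - (q ^ n) ^ 4 * z) * (1 - (q ^ n) ^ 2 * z')⁻¹) +
          (1 - (q ^ n) ^ 4) * ((1 - (q ^ n) ^ 4) * ((1 - z)⁻¹ * z * (1 - (q ^ n) ^ 2 * z')⁻¹) -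
            (1 - (q ^ n) ^ 2) * (z' * (1 - (q ^ n) ^ 2 * z')⁻¹ * (1 - z')⁻¹)) := by
      have n2' : (1 - z) ≠ 0 := n2
      have n4' : (1 - z') ≠ 0 := n4
      field_simp
      ring
    rw [e3]
    exact (h0.mul_R (mul_mem (sub_mem (one_mem _) (mul_mem (hQm 4) hz)) u3)).add
      (hQ4.mul ((hQ4.mul_R (mul_mem (mul_mem u1' hz) u3)).sub
        (hQ2.mul_R (mul_mem (mul_mem hz' u3) u1))))

end

end V11316.H
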