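import Pool.Agent.V11316.H3

/-!
`L_n(q) ≡ R_n(q)` modulo `Φ_n³`.
-/

open Finset Polynomial

namespace V11316.H

open V11307.Q V11316 V11316.Del

noncomputable section

theorem prod_pair (s : ℕ) (f : ℕ → RatFunc ℚ) :
    ∏ l ∈ range (2 * s), f l = ∏ l ∈ range s, (f l * f (2 * s - 1 - l)) := by
  rw [two_mul, prod_range_add, prod_mul_distrib]
  congr 1
  rw [← prod_range_reflect]
  refine prod_congr rfl fun l hl => ?_
  have := mem_range.1 hl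
  congr 1
  omega

theorem tau_fac (i : ℕ) : tau 0 - tau i = (1 - q ^ (2 * (i : ℤ))) * (1 - q ^ (-(2 * (i : ℤ)))) := by
  have h : (q : RatFunc ℚ) ^ (2 * (i : ℤ)) * q ^ (-(2 * (i : ℤ))) = 1 := by
    rw [← zpow_add₀ q_ne]; simp
  rw [tau_zero, tau]
  linear_combination -h

/-- `V` modulo `Φ_n³` -/
theorem V_cong {n s : ℕ} (hn : n = 2 * s + 1) :
    I n 3 (VV s - (((q ^ n) ^ 2) ^ s + (1 - (q ^ n) ^ 2) * (1 - (q ^ n) ^ 4) * hS s)) := by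
  have hn0 : 0 < n := by omega
  have hQ2 : I n 1 (1 - (q ^ n) ^ 2 : RatFunc ℚ) := by
    rw [← pow_mul]; exact I_one_sub_pow hn0 (Dvd.intro _ rfl)
  have hQ4 : I n 1 (1 - (q ^ n) ^ 4 : RatFunc ℚ) := by
    rw [← pow_mul]; exact I_one_sub_pow hn0 (Dvd.intro _ rfl)
  set Q2 : RatFunc ℚ := (q ^ n) ^ 2 with hQ2d
  set δ : RatFunc ℚ := (1 - (q ^ n) ^ 2) * (1 - (q ^ n) ^ 4) with hδ
  set y : ℕ → RatFunc ℚ := fun l => (1 - q ^ (2 * ((l : ℤ) + 1)))⁻¹ *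
    (1 - (q ^ n) ^ 2 * q ^ (-(2 * ((l : ℤ) + 1))))⁻¹ with hy
  have hexp : ∀ l : ℕ, l < s → (q ^ n : RatFunc ℚ) ^ 2 * q ^ (-(2 * ((l : ℤ) + 1))) =
      q ^ (2 * ((2 * s - l : ℤ))) := by
    intro l hl
    rw [← pow_mul, ← zpow_natCast, ← zpow_add₀ q_ne, hn]; congr 1; push_cast; ring
  have hyu : ∀ l < s, y l ∈ R n ∧ (1 - (q ^ n) ^ 2 * q ^ (-(2 * ((l : ℤ) + 1))) : RatFunc ℚ) ≠ 0 ∧
      (1 - (q ^ n) ^ 2 * q ^ (-(2 * ((l : ℤ) + 1))) : RatFunc ℚ)⁻¹ ∈ R n := by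
    intro l hl
    have h1 : (1 - (q ^ n) ^ 2 * q ^ (-(2 * ((l : ℤ) + 1))) : RatFunc ℚ)⁻¹ ∈ R n := by
      rw [hexp l hl]
      exact inv_one_sub_qz hn0 (ndz2 (by omega) (ndz (by omega) (by rw [abs_lt]; constructor <;> omega)))
    refine ⟨mul_mem (u2 hn hl) h1, ?_, h1⟩
    rw [hexp l hl]
    exact sub_ne_zero.2 (qz_ne_one (by omega)).symm
  have h1 : VV s = ∏ l ∈ range s, (Q2 + δ * y l) := by
    have h2 : VV s = ∏ l ∈ range (2 * s), ((1 - Q2 * q ^ (2 * ((l : ℤ) + 1))) *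
        (1 - q ^ (2 * ((l : ℤ) + 1)))⁻¹) := by
      rw [VV, PP, P2, poch, poch, ← prod_inv_distrib, ← prod_mul_distrib]
      refine prod_congr rfl fun l _ => ?_
      have e1 : (q : RatFunc ℚ) ^ (2 * (((2 * s + 1 : ℕ) : ℤ) + 1)) * (q ^ 2) ^ l =
          Q2 * q ^ (2 * ((l : ℤ) + 1)) := by
        rw [hQ2d, ← pow_mul, ← pow_mul, ← zpow_natCast q (2 * l), ← zpow_natCast q (n * 2),
          ← zpow_add₀ q_ne, ← zpow_add₀ q_ne, hn]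
        congr 1; push_cast; ring
      have e2 : (q : RatFunc ℚ) ^ 2 * (q ^ 2) ^ l = q ^ (2 * ((l : ℤ) + 1)) := by
        rw [← pow_succ', ← pow_mul, ← zpow_natCast]; congr 1
      rw [e1, e2]
    rw [h2, prod_pair]
    refine prod_congr rfl fun l hl => ?_
    have hl' := mem_range.1 hl
    obtain ⟨_, n1, _⟩ := hyu l hl'
    have e3 : (q : RatFunc ℚ) ^ (2 * (((2 * s - 1 - l : ℕ) : ℤ) + 1)) =
        Q2 * q ^ (-(2 * ((l : ℤ) + 1))) := by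
      rw [hQ2d, hexp l hl']; congr 1; omega
    rw [e3, hy, hδ]
    have n2 : (1 - q ^ (2 * ((l : ℤ) + 1)) : RatFunc ℚ) ≠ 0 :=
      sub_ne_zero.2 (qz_ne_one (by omega)).symm
    have e4 : (q : RatFunc ℚ) ^ (2 * ((l : ℤ) + 1)) * q ^ (-(2 * ((l : ℤ) + 1))) = 1 := by
      rw [← zpow_add₀ q_ne]; simp
    beta_reduce
    rw [← hQ2d] at n1 ⊢
    have e5 : (q ^ n : RatFunc ℚ) ^ 4 = Q2 ^ 2 := by rw [hQ2d]; ring
    rw [e5]
    set z := (q : RatFunc ℚ) ^ (2 * ((l : ℤ) + 1))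
    set z' := (q : RatFunc ℚ) ^ (-(2 * ((l : ℤ) + 1)))
    have e6 : (1 - Q2 * z) * (1 - Q2 * (Q2 * z')) = Q2 * ((1 - z) * (1 - Q2 * z')) +
        (1 - Q2) * (1 - Q2 ^ 2) := by
      linear_combination (Q2 ^ 3 - Q2 ^ 2) * e4
    have e7 : (1 - Q2 * z) * (1 - z)⁻¹ * ((1 - Q2 * (Q2 * z')) * (1 - Q2 * z')⁻¹) =
        ((1 - Q2 * z) * (1 - Q2 * (Q2 * z'))) * ((1 - z)⁻¹ * (1 - Q2 * z')⁻¹) := by ring
    rw [e7, e6]
    field_simp
  have hU : I n 1 (Q2 - 1) := by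
    refine (congrArg (I n 1) ?_).mp hQ2.neg
    ring
  have h3 := prod_exp hU (hQ2.mul hQ4) s fun j hj => (hyu j hj).1
  rw [← hδ] at h3
  have h4 : I n 1 (∑ j ∈ range s, y j - hS s) := by
    rw [hS, ← sum_sub_distrib]
    refine I.sum fun l hl => ?_
    have hl' := mem_range.1 hl
    obtain ⟨_, n1, u1⟩ := hyu l hl'
    have n2 : (1 - q ^ (2 * ((l : ℤ) + 1)) : RatFunc ℚ) ≠ 0 :=
      sub_ne_zero.2 (qz_ne_one (by omega)).symm
    have n3 : (1 - q ^ (-(2 * ((l : ℤ) + 1))) : RatFunc ℚ) ≠ 0 :=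
      sub_ne_zero.2 (qz_ne_one (by omega)).symm
    have hu := tau_inv hn (show 0 ≤ s by omega) (show l + 1 ≤ s by omega) (by omega)
    have e7 : ((l + 1 : ℕ) : ℤ) = (l : ℤ) + 1 := by push_cast; ring
    have ht := tau_fac (l + 1)
    rw [e7] at ht
    have e8 : y l - (tau 0 - tau (l + 1))⁻¹ = (1 - Q2) * (-(q ^ (-(2 * ((l : ℤ) + 1)))) *
        ((1 - (q ^ n) ^ 2 * q ^ (-(2 * ((l : ℤ) + 1))))⁻¹ * (tau 0 - tau (l + 1))⁻¹)) := by
      rw [ht, hy]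
      beta_reduce
      rw [← hQ2d] at n1 ⊢
      field_simp
      ring
    rw [e8]
    exact hQ2.mul_R (mul_mem (neg_mem (qz_mem hn0 _)) (mul_mem u1 hu))
  have h5 := h3.add ((hQ2.mul hQ4).mul h4)
  rw [h1]
  refine (congrArg (I n 3) ?_).mp h5
  ring

theorem hS_mem {n s : ℕ} (hn : n = 2 * s + 1) : hS s ∈ R n :=
  sum_mem fun j hj => tau_inv hn (show 0 ≤ s by omega) (show j + 1 ≤ s by
    have := mem_range.1 hj; omega) (by omega)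

theorem V_one {n s : ℕ} (hn : n = 2 * s + 1) : I n 1 (VV s - 1) := by
  have hn0 : 0 < n := by omega
  have hQ2 : I n 1 (1 - (q ^ n) ^ 2 : RatFunc ℚ) := by
    rw [← pow_mul]; exact I_one_sub_pow hn0 (Dvd.intro _ rfl)
  have hQ4 : I n 1 (1 - (q ^ n) ^ 4 : RatFunc ℚ) := by
    rw [← pow_mul]; exact I_one_sub_pow hn0 (Dvd.intro _ rfl)
  have h1 := (V_cong hn).mono (show 1 ≤ 3 by norm_num)
  have h2 : I n 1 (1 - ((q ^ n) ^ 2) ^ s : RatFunc ℚ) := by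
    rw [← pow_mul, ← pow_mul]; exact I_one_sub_pow hn0 (Dvd.intro _ rfl)
  have h3 : I n 1 ((1 - (q ^ n) ^ 2) * (1 - (q ^ n) ^ 4) * hS s : RatFunc ℚ) :=
    (hQ2.mul_R hQ4.mem).mul_R (hS_mem hn)
  refine (congrArg (I n 1) ?_).mp ((h1.sub h2).add h3)
  ring

/-- `c = (-1)^s q^{s(s+1)}` -/
def cc (s : ℕ) : RatFunc ℚ := (-1) ^ s * q ^ ((s : ℤ) * (s + 1))

/-- `g(n + s)` modulo `Φ_n³` -/
theorem E_cong {n s : ℕ} (hn : n = 2 * s + 1) :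
    I n 3 (gx (2 * s) (2 * s + (s + 1)) + cc s * ((q ^ n) ^ (2 * n) - (1 + (q ^ n) ^ 2) * VV s +
      (q ^ n) ^ (2 * n) * ((1 - (q ^ n) ^ 2) * (1 - (q ^ n) ^ 4)) * SGm s)) := by
  have hn0 : 0 < n := by omega
  have hQ2 : I n 1 (1 - (q ^ n) ^ 2 : RatFunc ℚ) := by
    rw [← pow_mul]; exact I_one_sub_pow hn0 (Dvd.intro _ rfl)
  have hQ4 : I n 1 (1 - (q ^ n) ^ 4 : RatFunc ℚ) := by
    rw [← pow_mul]; exact I_one_sub_pow hn0 (Dvd.intro _ rfl)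
  have h0 := gx_far (2 * s) (s + 1)
  rw [sum_range_succ'] at h0
  -- the term `m = 0`
  have hz : (-1) ^ (2 * s + 0 + 1) * q ^ (-((((2 * s : ℕ) : ℤ) + ((0 : ℕ) : ℤ) + 1) *
      (((2 * s : ℕ) : ℤ) + ((0 : ℕ) : ℤ) + 2))) * DD (2 * s) (2 * s + 0) =
      -(q ^ (-(2 * (n : ℤ) * n)) * ((1 + (q ^ n) ^ 2) * VV s)) := by
    rw [DD_PP, PP_zero, mul_inv_cancel₀ (P2_ne (2 * s)), mul_one, add_zero, ← VV]
    have e1 : ((-1 : RatFunc ℚ)) ^ (2 * s + 0 + 1) = -1 := by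
      rw [add_zero, pow_succ, pow_mul]; norm_num
    have e2 : (q : RatFunc ℚ) ^ (2 * ((2 * (s : ℤ) + 1) + ((0 : ℕ) : ℤ))) = (q ^ n) ^ 2 := by
      rw [← pow_mul, ← zpow_natCast, hn]; congr 1; push_cast; ring
    have e3 : (q : RatFunc ℚ) ^ (-((((2 * s : ℕ) : ℤ) + ((0 : ℕ) : ℤ) + 1) *
      (((2 * s : ℕ) : ℤ) + ((0 : ℕ) : ℤ) + 2))) *
        q ^ (-(2 * (s : ℤ) * (2 * ((0 : ℕ) : ℤ) + (2 * (s : ℤ) + 1)))) =
        q ^ (-(2 * (n : ℤ) * n)) := by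
      rw [← zpow_add₀ q_ne, hn]; congr 1; push_cast; ring
    rw [e1, e2, ← e3]
    ring
  -- the other terms
  have ht : ∀ i ∈ range s, I n 3 ((-1) ^ (2 * s + (i + 1) + 1) * q ^ (-((((2 * s : ℕ) : ℤ) +
      ((i + 1 : ℕ) : ℤ) + 1) * (((2 * s : ℕ) : ℤ) + ((i + 1 : ℕ) : ℤ) + 2))) *
        DD (2 * s) (2 * s + (i + 1)) - (1 - (q ^ n) ^ 2) * (1 - (q ^ n) ^ 4) *
          ((-1) ^ i * q ^ (((i : ℤ) + 1) - ((i : ℤ) + 1) ^ 2) *
  (1 + q ^ (2 * ((i : ℤ) + 1))) * ((1 - q ^ (2 * ((i : ℤ) + 1)))⁻¹) ^ 2)) := by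
    intro i hi
    have hi' := mem_range.1 hi
    have hl := PP_low hn i hi'
    have hh := PP_high hn (V_one hn) i hi'
    rw [DD_PP]
    set a := PP (2 * s) (i + 1) * (P2 (2 * s))⁻¹
    set b := PP (2 * s) (2 * s + 1 + (i + 1)) * (P2 (2 * s))⁻¹
    set u := (1 - q ^ (2 * ((i : ℤ) + 1)) : RatFunc ℚ)⁻¹
    have hu : u ∈ R n := u2 hn hi'
    have hb1 : I n 1 b := by
      have h1 := (hh.mono (show 1 ≤ 2 by norm_num)).add (hQ4.mul_R hu)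
      refine (congrArg (I n 1) ?_).mp h1
      ring
    have hab : I n 3 (a * b - (1 - (q ^ n) ^ 2) * (1 - (q ^ n) ^ 4) * u ^ 2) := by
      have h1 := (hl.mul hb1).add ((hQ2.mul hh).mul_R hu)
      refine (congrArg (I n 3) ?_).mp h1
      ring
    have hab2 : I n 2 (a * b) := by
      have h1 := (hab.mono (show 2 ≤ 3 by norm_num)).add
        ((hQ2.mul hQ4).mul_R (mul_mem hu hu))
      refine (congrArg (I n 2) ?_).mp h1
      ring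
    have e1 : ((-1 : RatFunc ℚ)) ^ (2 * s + (i + 1) + 1) = (-1) ^ i := by
      rw [show 2 * s + (i + 1) + 1 = 2 * (s + 1) + i by ring, pow_add, pow_mul]; norm_num
    have e2 : (q : RatFunc ℚ) ^ (2 * ((2 * (s : ℤ) + 1) + ((i + 1 : ℕ) : ℤ))) =
        (q ^ n) ^ 2 * q ^ (2 * ((i : ℤ) + 1)) := by
      rw [← pow_mul, ← zpow_natCast q (n * 2), ← zpow_add₀ q_ne, hn]; congr 1; push_cast; ring
    set X1 : RatFunc ℚ := q ^ (-((((2 * s : ℕ) : ℤ) + ((i + 1 : ℕ) : ℤ) + 1) *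
      (((2 * s : ℕ) : ℤ) + ((i + 1 : ℕ) : ℤ) + 2))) *
        q ^ (-(2 * (s : ℤ) * (2 * ((i + 1 : ℕ) : ℤ) + (2 * (s : ℤ) + 1)))) with hX1
    have hX : I n 1 (X1 - q ^ (((i : ℤ) + 1) - ((i : ℤ) + 1) ^ 2)) := by
      rw [hX1, ← zpow_add₀ q_ne]
      refine qz_cong hn0 ⟨-(2 * (2 * s + 1) + 4 * (i + 1)), ?_⟩
      rw [hn]; push_cast; ring
    have hsg : ((-1 : RatFunc ℚ)) ^ i ∈ R n := pow_mem (neg_mem (one_mem _)) _
    have hq1 := qz_mem (n := n) hn0 (2 * ((i : ℤ) + 1))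
    have hX1m : X1 ∈ R n := by rw [hX1, ← zpow_add₀ q_ne]; exact qz_mem hn0 _
    have hq2 := add_mem (one_mem (R n)) hq1
    have h2 := ((hX.mul hab2).mul_R (mul_mem hsg hq2)).add
      ((I.R_mul (mul_mem (mul_mem hsg (qz_mem hn0 (((i : ℤ) + 1) - ((i : ℤ) + 1) ^ 2))) hq2) hab))
    have h3 := (h2.sub ((hQ2.mul hab2).mul_R (mul_mem (mul_mem hsg hX1m) hq1)))
    refine (congrArg (I n 3) ?_).mp h3
    rw [e1, e2, hX1]
    ring
  have hsum := I.sum ht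
  rw [sum_sub_distrib, ← mul_sum, ← SGm] at hsum
  set T := ∑ i ∈ range s, (-1) ^ (2 * s + (i + 1) + 1) * q ^ (-((((2 * s : ℕ) : ℤ) +
      ((i + 1 : ℕ) : ℤ) + 1) * (((2 * s : ℕ) : ℤ) + ((i + 1 : ℕ) : ℤ) + 2))) *
        DD (2 * s) (2 * s + (i + 1))
  rw [hz] at h0
  have hpre : (-1) ^ (2 * s + (s + 1)) * q ^ ((((2 * s : ℕ) : ℤ) + ((s + 1 : ℕ) : ℤ)) *
      (((2 * s : ℕ) : ℤ) + ((s + 1 : ℕ) : ℤ) + 1)) = -(cc s * (q ^ n) ^ (2 * n)) := by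
    have e1 : ((-1 : RatFunc ℚ)) ^ (2 * s + (s + 1)) = -(-1) ^ s := by
      rw [pow_add, pow_mul]; norm_num
      rw [pow_succ]; ring
    rw [e1, cc, ← pow_mul, ← zpow_natCast q (n * (2 * n)), mul_assoc ((-1) ^ s), ← zpow_add₀ q_ne,
      neg_mul]
    congr 3
    rw [hn]; push_cast; ring
  rw [hpre] at h0
  have hinv : (q ^ n : RatFunc ℚ) ^ (2 * n) * q ^ (-(2 * (n : ℤ) * n)) = 1 := by
    rw [← pow_mul, ← zpow_natCast, ← zpow_add₀ q_ne]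
    have : ((n * (2 * n) : ℕ) : ℤ) + -(2 * (n : ℤ) * n) = 0 := by push_cast; ring
    rw [this, zpow_zero]
  have hcm : cc s * (q ^ n) ^ (2 * n) ∈ R n :=
    mul_mem (mul_mem (pow_mem (neg_mem (one_mem _)) _) (qz_mem hn0 _)) (pow_mem (qpow_mem _) _)
  have h4 := (I.R_mul hcm hsum).neg
  refine (congrArg (I n 3) ?_).mp h4
  rw [h0]
  linear_combination (-(cc s * (1 + (q ^ n) ^ 2) * VV s)) * hinv

/-- the function of `u` -/
def Gu (n : ℕ) (u : ℤ) : RatFunc ℚ := gR n (q * (q ^ n) ^ (-u)) (q * (q ^ n) ^ u)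

theorem Gu_an {n : ℕ} (hn : 0 < n) (ho : n % 2 = 1) (k : ℕ) : AQ n k (Gu n) := by
  change AQ n k (fun u : ℤ => ∑ j ∈ range n, poch (q ^ 2) (q * (q ^ n) ^ (-u)) j *
    poch (q ^ 2) (q * (q ^ n) ^ u) j * ((P2 j)⁻¹) ^ 2 * (q ^ 2) ^ j)
  refine An.sum _ fun j hj => ?_
  have hj' := mem_range.1 hj
  refine ((An.mul (AQ_poch (qpow_mem 2) ?_ j) (AQ_poch (qpow_mem 2) ?_ j)).mul
    (An.const (pow_mem (P2_inv ho hj') 2))).mul (An.const (pow_mem (qpow_mem 2) j))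
  · exact (An.smul q_mem (AQ_Q hn (-(AddMonoidHom.id ℤ)))).congr fun t => rfl
  · exact (An.smul q_mem (AQ_Q hn (AddMonoidHom.id ℤ))).congr fun t => rfl

theorem Gu_neg (n : ℕ) (u : ℤ) : Gu n (-u) = Gu n u := by
  rw [Gu, Gu, gR, gR, neg_neg]
  exact sum_congr rfl fun _ _ => by ring

theorem Gu_zero (n : ℕ) : Gu n 0 = gR n q q := by rw [Gu]; simp

theorem Gu_one {n s : ℕ} (hn : n = 2 * s + 1) : Gu n 1 = cc s := by
  have h := gx_val (2 * s) s (by omega)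
  rw [gx, ← hn] at h
  rw [cc, ← h, Gu]
  congr 1
  · rw [zpow_neg_one, ← zpow_natCast, ← zpow_neg, ← zpow_one_add₀ q_ne, hn]; congr 1
    push_cast; ring
  · rw [zpow_one, ← pow_succ', ← zpow_natCast, hn]; congr 1

theorem Gu_three {n s : ℕ} (hn : n = 2 * s + 1) : Gu n 3 = gx (2 * s) (2 * s + (s + 1)) := by
  rw [gx, ← hn, Gu]
  congr 1
  · rw [← zpow_natCast, ← zpow_mul, ← zpow_one_add₀ q_ne, hn]; congr 1
    push_cast; ring
  · rw [← zpow_natCast, ← zpow_mul, ← zpow_one_add₀ q_ne, hn]; congr 1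
    push_cast; ring

theorem Gu_rel {n s : ℕ} (hn : n = 2 * s + 1) :
    I n 3 (8 * gR n q q - 9 * cc s + gx (2 * s) (2 * s + (s + 1))) := by
  have han := Gu_an (n := n) (by omega) (by omega) 3
  obtain ⟨y1, hy1, h1⟩ := han.diff3 1 1 1 (-1)
  obtain ⟨y2, hy2, h2⟩ := han.diff3 1 1 1 0
  have e1 : Gu n (-1) = Gu n 1 := Gu_neg n 1
  norm_num at h1 h2
  rw [e1] at h1
  have h3 : I n 3 (Gu n 2 - 3 * Gu n 1 + 3 * Gu n 0 - Gu n 1) :=
    ⟨y1, hy1, by rw [← h1]; ring⟩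
  have h4 : I n 3 (Gu n 3 - 3 * Gu n 2 + 3 * Gu n 1 - Gu n 0) :=
    ⟨y2, hy2, by rw [← h2]; ring⟩
  have h5 := h4.add (I.R_mul (ncast_mem (N := n) 3) h3)
  rw [← Gu_three hn, ← Gu_zero, ← Gu_one hn]
  refine (congrArg (I n 3) ?_).mp h5
  push_cast
  ring

/-- `h(e) = q^e/(1-q^e)²` -/
def hq (e : ℕ) : RatFunc ℚ := q ^ e * ((1 - q ^ e)⁻¹ * (1 - q ^ e)⁻¹)

theorem hq_refl {n m : ℕ} (h1 : 0 < m) (h2 : m < n) : I n 1 (hq (n - m) - hq m) := by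
  have hn0 : 0 < n := by omega
  have hQ : I n 1 (1 - q ^ n : RatFunc ℚ) := I_one_sub_pow hn0 dvd_rfl
  have u1 := inv_one_sub hn0 (nd h1 h2)
  have u2 := inv_one_sub hn0 (nd (show 1 ≤ n - m by omega) (by omega))
  have n1 : (1 - q ^ m : RatFunc ℚ) ≠ 0 := one_sub_ne h1
  have n2 : (1 - q ^ (n - m) : RatFunc ℚ) ≠ 0 := one_sub_ne (by omega)
  have e1 : (q ^ n : RatFunc ℚ) = q ^ (n - m) * q ^ m := by rw [← pow_add]; congr 1; omega
  have e2 : hq (n - m) - hq m = (1 - q ^ n) * ((q ^ (n - m) - q ^ m) *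
      ((1 - q ^ (n - m))⁻¹ * (1 - q ^ (n - m))⁻¹ * ((1 - q ^ m)⁻¹ * (1 - q ^ m)⁻¹))) := by
    rw [hq, hq, e1]
    field_simp
    ring
  rw [e2]
  exact hQ.mul_R (mul_mem (sub_mem (qpow_mem _) (qpow_mem _))
    (mul_mem (mul_mem u2 u2) (mul_mem u1 u1)))

theorem sum_parity (h : ℕ → RatFunc ℚ) (s : ℕ) : ∑ j ∈ range (2 * s), h (j + 1) =
    ∑ j ∈ range s, h (2 * j + 2) + ∑ j ∈ range s, h (2 * j + 1) := by
  induction s with
  | zero => simp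
  | succ s ih =>
    rw [show 2 * (s + 1) = 2 * s + 1 + 1 by ring, sum_range_succ, sum_range_succ, ih,
      sum_range_succ, sum_range_succ]
    ring

theorem hS_val {n s : ℕ} (hn : n = 2 * s + 1) : I n 1 (24 * hS s - ((n : RatFunc ℚ) ^ 2 - 1)) := by
  have hn0 : 0 < n := by omega
  have h1 := sumsq hn0
  have h2 : ∑ e ∈ Ico 1 n, q ^ e * ((1 - q ^ e)⁻¹ * (1 - q ^ e)⁻¹) =
      ∑ j ∈ range (2 * s), hq (j + 1) := by
    rw [hn, sum_Ico_eq_sum_range]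
    refine sum_congr rfl fun j _ => ?_
    rw [hq, add_comm 1 j]
  rw [h2, sum_parity] at h1
  have h3 : ∑ j ∈ range s, hq (2 * j + 1) = ∑ j ∈ range s, hq (n - (2 * j + 2)) := by
    rw [← sum_range_reflect]
    refine sum_congr rfl fun j hj => ?_
    have := mem_range.1 hj
    congr 1
    omega
  have h4 : I n 1 (∑ j ∈ range s, (hq (n - (2 * j + 2)) - hq (2 * j + 2))) :=
    I.sum fun j hj => by
      have := mem_range.1 hj
      exact hq_refl (by omega) (by omega)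
  rw [sum_sub_distrib] at h4
  rw [h3] at h1
  have h5 : hS s = -∑ j ∈ range s, hq (2 * j + 2) := by
    rw [hS, ← sum_neg_distrib]
    refine sum_congr rfl fun j _ => ?_
    have h6 := tau_two (Nat.succ_pos j)
    have e1 : (tau 0 - tau (j + 1))⁻¹ = -(tau (j + 1) - tau 0)⁻¹ := by
      rw [← inv_neg, neg_sub]
    have e2 : (q : RatFunc ℚ) ^ (2 * ((j + 1 : ℕ) : ℤ)) = q ^ (2 * j + 2) := by
      rw [← zpow_natCast]; congr 1
    rw [Nat.succ_eq_add_one, e2] at h6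
    rw [e1, h6, hq]
    ring
  rw [h5]
  have h6 := h1.sub (I.R_mul (ncast_mem (N := n) 12) h4)
  refine (congrArg (I n 1) ?_).mp h6.neg
  push_cast
  ring

/-- `1 - Q^k ≡ k (1 - Q)` -/
theorem one_sub_Qk {n : ℕ} (hn : 0 < n) (k : ℕ) :
    I n 2 ((1 - (q ^ n) ^ k : RatFunc ℚ) - k * (1 - q ^ n)) := by
  have hQ : I n 1 (1 - q ^ n : RatFunc ℚ) := I_one_sub_pow hn dvd_rfl
  have h1 : (1 - (q ^ n) ^ k : RatFunc ℚ) = (1 - q ^ n) * ∑ i ∈ range k, (q ^ n) ^ i := by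
    rw [mul_comm]; exact (geom_sum_mul_neg _ _).symm
  have h2 : I n 1 (∑ i ∈ range k, (1 - (q ^ n) ^ i : RatFunc ℚ)) := I.sum fun i _ => by
    rw [← pow_mul]; exact I_one_sub_pow hn (Dvd.intro _ rfl)
  rw [sum_sub_distrib] at h2
  simp only [sum_const, card_range, nsmul_eq_mul, mul_one] at h2
  rw [h1]
  refine (congrArg (I n 2) ?_).mp (hQ.mul h2).neg
  ring

/-- the main congruence -/
theorem main_cong {n s : ℕ} (hn : n = 2 * s + 1) : I n 3 (fL n q - gR n q q) := by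
  have hn0 : 0 < n := by omega
  have hQ : I n 1 (1 - q ^ n : RatFunc ℚ) := I_one_sub_pow hn0 dvd_rfl
  have hQ2 : I n 1 (1 - (q ^ n) ^ 2 : RatFunc ℚ) := by
    rw [← pow_mul]; exact I_one_sub_pow hn0 (Dvd.intro _ rfl)
  have hQ4 : I n 1 (1 - (q ^ n) ^ 4 : RatFunc ℚ) := by
    rw [← pow_mul]; exact I_one_sub_pow hn0 (Dvd.intro _ rfl)
  have hL := L_cong hn
  have hG := Gu_rel hn
  have hE := E_cong hn
  have hV := V_cong hn
  have hh := hS_val hn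
  have hcF : cc s = FT s 0 * (q ^ n) ^ s := by
    rw [cc, FT, add_zero, mul_assoc, ← pow_mul, ← zpow_natCast q (n * s), ← zpow_add₀ q_ne]
    congr 2
    rw [hn]; push_cast; ring
  set Q : RatFunc ℚ := q ^ n with hQd
  set F0 := FT s 0
  have hF0 : F0 ∈ R n := FT_mem hn0 s 0
  have hQm : Q ∈ R n := qpow_mem _
  have hSm := hS_mem hn
  have hGm := SGm_mem hn
  -- `δ ≡ 8 (1-Q)²`
  have hδ : I n 3 ((1 - Q ^ 2) * (1 - Q ^ 4) - 8 * (1 - Q) ^ 2) := by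
    have h1 := (hQ.mul hQ).mul hQ
    have h2 := h1.mul_R (neg_mem (add_mem (add_mem (add_mem (pow_mem hQm 3)
      (mul_mem (ncast_mem (N := n) 3) (pow_mem hQm 2))) (mul_mem (ncast_mem (N := n) 5) hQm))
        (ncast_mem (N := n) 7)))
    refine (congrArg (I n 3) ?_).mp h2
    push_cast
    ring
  -- `(1 - Q^{2s})(1 - Q^{2s+2}) ≡ (n²-1)(1-Q)²`
  have hprod : I n 3 ((1 - Q ^ (2 * s)) * (1 - Q ^ (2 * s + 2)) -
      ((n : RatFunc ℚ) ^ 2 - 1) * (1 - Q) ^ 2) := by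
    have h1 := one_sub_Qk hn0 (2 * s)
    have h2 := one_sub_Qk hn0 (2 * s + 2)
    have h3 : I n 1 (1 - Q ^ (2 * s + 2)) := by
      rw [hQd, ← pow_mul]; exact I_one_sub_pow hn0 (Dvd.intro _ rfl)
    rw [← hQd] at h1 h2
    have h4 := (h1.mul h3).add (I.R_mul (ncast_mem (N := n) (2 * s)) (hQ.mul h2))
    have hnc : (n : RatFunc ℚ) = 2 * s + 1 := by rw [hn]; push_cast; ring
    refine (congrArg (I n 3) ?_).mp h4
    rw [hnc]
    push_cast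
    ring
  -- collect
  have hQs : I n 1 (1 - Q ^ s) := by
    rw [hQd, ← pow_mul]; exact I_one_sub_pow hn0 (Dvd.intro _ rfl)
  have hQ2n : I n 1 (1 - Q ^ (2 * n)) := by
    rw [hQd, ← pow_mul]; exact I_one_sub_pow hn0 (Dvd.intro _ rfl)
  have hQQ := hQ.mul hQ
  -- A1: 8 L - 8 F0 (...)
  have a1 := I.R_mul (ncast_mem (N := n) 8) hL
  -- A2: E-part with V replaced
  have hc : F0 * Q ^ s ∈ R n := mul_mem hF0 (pow_mem hQm s)
  have a2 := hE.add (I.R_mul (mul_mem hc (add_mem (one_mem _) (pow_mem hQm 2))) hV)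
  have a3 := I.R_mul (mul_mem hF0 hSm) hδ
  have a4 := I.R_mul (mul_mem hF0 hGm) hδ
  have a5 := (hQQ.mul hh).mul_R hF0
  have a6 := I.R_mul hF0 hprod
  -- error terms from replacing Q^s, Q^{2n}, 1+Q² by 1, 1, 2
  have hδ2 := hQ2.mul hQ4
  have b1 : I n 3 ((1 - Q ^ 2) * (1 - Q ^ 4) * (Q ^ s * (1 + Q ^ 2) - 2) * (F0 * hS s)) := by
    have h1 : I n 1 (Q ^ s * (1 + Q ^ 2) - 2) := by
      refine (congrArg (I n 1) ?_).mp ((hQs.mul_R (add_mem (one_mem _) (pow_mem hQm 2))).add hQ2).neg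
      ring
    exact (hδ2.mul h1).mul_R (mul_mem hF0 hSm)
  have b2 : I n 3 ((1 - Q ^ 2) * (1 - Q ^ 4) * (Q ^ s * Q ^ (2 * n) - 1) * (F0 * SGm s)) := by
    have h1 : I n 1 (Q ^ s * Q ^ (2 * n) - 1) := by
      refine (congrArg (I n 1) ?_).mp ((hQs.mul_R (pow_mem hQm (2 * n))).add hQ2n).neg
      ring
    exact (hδ2.mul h1).mul_R (mul_mem hF0 hGm)
  have b3 : I n 3 ((1 - Q ^ (2 * s)) * (1 - Q ^ (2 * s + 2)) * (1 - Q ^ s) * F0) := by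
    have h1 : I n 1 (1 - Q ^ (2 * s)) := by
      rw [hQd, ← pow_mul]; exact I_one_sub_pow hn0 (Dvd.intro _ rfl)
    have h2 : I n 1 (1 - Q ^ (2 * s + 2)) := by
      rw [hQd, ← pow_mul]; exact I_one_sub_pow hn0 (Dvd.intro _ rfl)
    exact ((h1.mul h2).mul hQs).mul_R hF0
  have key : I n 3 (8 * (fL n q - gR n q q)) := by
    rw [hcF] at hG a2
    have h9 := ((((((((a1.sub hG).add a2).add (I.R_mul (ncast_mem (N := n) 2) a3)).sub a4).add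
      a5).sub a6).add b1).sub b2).add b3
    refine (congrArg (I n 3) ?_).mp h9
    have hn2 : 2 * n = 2 * s + (2 * s + 2) := by omega
    rw [hn2]
    push_cast
    ring
  have k1 := I.R_mul (half_mem (n := n)) (I.R_mul (half_mem (n := n)) (I.R_mul (half_mem (n := n)) key))
  refine (congrArg (I n 3) ?_).mp k1
  field_simp
  norm_num

end

end V11316.H
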