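import Pool.Agent.V11316.Fam

/-!
Exact zeros of the well-poised family, and the passage back to the original sum.
-/

open Finset Polynomial

namespace V11316

open V11307.Q

noncomputable section

/-! ### integer powers of `q` -/

theorem qz_ne_one {z : ℤ} (hz : z ≠ 0) : (q ^ z : RatFunc ℚ) ≠ 1 := by
  have hnat : ∀ k : ℕ, 0 < k → (q ^ (k : ℤ) : RatFunc ℚ) ≠ 1 := by
    intro k hk h
    rw [zpow_natCast] at h
    exact one_sub_ne hk (by rw [h, sub_self])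
  rcases lt_or_gt_of_ne hz with h | h
  · intro h1
    have h2 : (q ^ (-z) : RatFunc ℚ) = 1 := by rw [zpow_neg, h1, inv_one]
    have h3 := hnat (-z).toNat (by omega)
    rw [show (((-z).toNat : ℕ) : ℤ) = -z by omega] at h3
    exact h3 h2
  · have h3 := hnat z.toNat (by omega)
    rwa [show ((z.toNat : ℕ) : ℤ) = z by omega] at h3

theorem qz_ne (z : ℤ) : (q ^ z : RatFunc ℚ) ≠ 0 := zpow_ne_zero _ q_ne

theorem inv_one_sub_qz {n : ℕ} (hn : 0 < n) {z : ℤ} (h : ¬ (n : ℤ) ∣ z) :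
    (1 - q ^ z : RatFunc ℚ)⁻¹ ∈ R n := by
  have hnat : ∀ k : ℕ, ¬ (n : ℤ) ∣ (k : ℤ) → (1 - q ^ (k : ℤ) : RatFunc ℚ)⁻¹ ∈ R n := by
    intro k hk
    rw [zpow_natCast]
    exact inv_one_sub hn (fun h => hk (by exact_mod_cast h))
  rcases le_or_gt 0 z with hz | hz
  · have := hnat z.toNat (by rwa [show ((z.toNat : ℕ) : ℤ) = z by omega])
    rwa [show ((z.toNat : ℕ) : ℤ) = z by omega] at this
  · have h1 := hnat (-z).toNat (by
      rw [show (((-z).toNat : ℕ) : ℤ) = -z by omega, dvd_neg]; exact h)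
    rw [show (((-z).toNat : ℕ) : ℤ) = -z by omega] at h1
    have h2 : (1 - q ^ z : RatFunc ℚ)⁻¹ = -(q ^ (-z)) * (1 - q ^ (-z))⁻¹ := by
      have h3 : (1 : RatFunc ℚ) - q ^ (-z) ≠ 0 := sub_ne_zero.2 (qz_ne_one (by omega)).symm
      have h4 : (1 : RatFunc ℚ) - q ^ z ≠ 0 := sub_ne_zero.2 (qz_ne_one (by omega)).symm
      have h5 : (q ^ (-z) : RatFunc ℚ) * q ^ z = 1 := by
        rw [← zpow_add₀ q_ne]; simp
      field_simp
      linear_combination -h5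
    rw [h2]
    exact mul_mem (neg_mem (zpow_mem' hn _)) h1

theorem qz_mem {n : ℕ} (hn : 0 < n) (z : ℤ) : (q ^ z : RatFunc ℚ) ∈ R n := zpow_mem' hn z

theorem qz_inv_mem {n : ℕ} (hn : 0 < n) (z : ℤ) : (q ^ z : RatFunc ℚ)⁻¹ ∈ R n := by
  rw [← zpow_neg]; exact zpow_mem' hn _

theorem qz_pow (z : ℤ) (k : ℕ) : (q ^ z : RatFunc ℚ) ^ k = q ^ (z * k) := by
  rw [← zpow_natCast, ← zpow_mul]

theorem poch_qz_ne {β z : ℤ} {k : ℕ} (h : ∀ i : ℕ, z + β * i ≠ 0) :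
    poch (q ^ β : RatFunc ℚ) (q ^ z) k ≠ 0 := by
  refine poch_ne_zero fun i _ => ?_
  rw [qz_pow, ← zpow_add₀ q_ne]
  exact qz_ne_one (h i)

/-! ### exact zeros -/

variable {M : Type*} [AddCommGroup M] {J : Type*} [Fintype J]

/-- contribution of one parameter to the genuine term -/
def Tk (B x b bs : RatFunc ℚ) (k : ℕ) : RatFunc ℚ :=
  poch B (b * x) k / (x ^ k * poch B (bs * x⁻¹) k)

theorem prod_df {n : ℕ} {bs B : RatFunc ℚ} {l : M →+ ℤ} (c : M) (k : ℕ) :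
    ∏ i ∈ range k, df n bs B l i c =
      ((q ^ n) ^ (l c)) ^ k * poch B (bs * ((q ^ n) ^ (l c))⁻¹) k := by
  rw [poch, ← card_range k, ← prod_const, card_range, ← prod_mul_distrib]
  refine prod_congr rfl fun i _ => ?_
  have : (q ^ n : RatFunc ℚ) ^ (l c) ≠ 0 := zpow_ne_zero _ (pow_ne_zero _ q_ne)
  rw [df]
  field_simp

theorem prod_nf {n : ℕ} {b B : RatFunc ℚ} {l : M →+ ℤ} (c : M) (k : ℕ) :
    ∏ i ∈ range k, nf n b B l i c = poch B (b * (q ^ n) ^ (l c)) k := by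
  rw [poch]
  refine prod_congr rfl fun i _ => ?_
  rw [nf]; ring

theorem Un_eq {n L : ℕ} {a B Z : RatFunc ℚ} {b bs : J → RatFunc ℚ} {l : J → M →+ ℤ} {c : M}
    (hd : ∀ j, ∏ i ∈ range L, df n (bs j) B (l j) i c ≠ 0) {k : ℕ} (hk : k ≤ L) :
    Un n L a B Z b bs l k c =
      ((1 - a * B ^ (2 * k)) * Z ^ k * ∏ j, Tk B ((q ^ n) ^ (l j c)) (b j) (bs j) k) *
        ∏ j, ∏ i ∈ range L, df n (bs j) B (l j) i c := by
  rw [Un, mul_assoc _ _ (∏ j, ∏ i ∈ range L, df n (bs j) B (l j) i c), ← prod_mul_distrib]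
  congr 1
  refine prod_congr rfl fun j _ => ?_
  have h1 : ∏ i ∈ range L, df n (bs j) B (l j) i c =
      (∏ i ∈ range k, df n (bs j) B (l j) i c) * ∏ i ∈ Ico k L, df n (bs j) B (l j) i c :=
    (prod_range_mul_prod_Ico _ hk).symm
  have h2 : ∏ i ∈ range k, df n (bs j) B (l j) i c ≠ 0 := by
    intro h0
    apply hd j
    rw [h1, h0, zero_mul]
  rw [pf, h1, Tk, ← prod_df, ← prod_nf]
  field_simp

/-- exact vanishing -/
theorem Gn_zero {n L N : ℕ} {a B Z : RatFunc ℚ} {b bs : J → RatFunc ℚ} {l : J → M →+ ℤ} {c : M}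
    (hNL : N ≤ L)
    (hd : ∀ j, ∏ i ∈ range L, df n (bs j) B (l j) i c ≠ 0)
    (hB0 : B ≠ 0) (hB : ∀ i : ℕ, B ^ (i + 1) ≠ 1) (ha : ∀ i : ℕ, a * B ^ (i + 1) ≠ 1)
    (P : (RatFunc ℚ)[X]) (hP : P.degree < N)
    (h : ∀ k ≤ L, Z ^ k * ∏ j, Tk B ((q ^ n) ^ (l j c)) (b j) (bs j) k =
      (poch B a k * poch B ((B ^ N)⁻¹) k /
        (poch B B k * poch B (a * B ^ (N + 1)) k) * (B ^ N) ^ k) * P.eval (wy a B k)) :
    Gn n L a B Z b bs l c = 0 := by
  rw [Gn]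
  have h1 : ∀ k ∈ range (L + 1), Un n L a B Z b bs l k c =
      (((1 - a * B ^ (2 * k)) * poch B a k * poch B ((B ^ N)⁻¹) k /
        (poch B B k * poch B (a * B ^ (N + 1)) k) * (B ^ N) ^ k) * P.eval (wy a B k)) *
        ∏ j, ∏ i ∈ range L, df n (bs j) B (l j) i c := by
    intro k hk
    have hk' : k ≤ L := Nat.lt_succ_iff.1 (mem_range.1 hk)
    rw [Un_eq hd hk']
    have := h k hk'
    congr 1
    rw [mul_assoc, this]
    ring
  rw [sum_congr rfl h1, ← sum_mul]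
  obtain ⟨t, rfl⟩ := Nat.exists_eq_add_of_le hNL
  have h2 : ∑ k ∈ range (N + t + 1), (((1 - a * B ^ (2 * k)) * poch B a k * poch B ((B ^ N)⁻¹) k /
        (poch B B k * poch B (a * B ^ (N + 1)) k) * (B ^ N) ^ k) * P.eval (wy a B k)) = 0 := by
    rw [show N + t + 1 = N + 1 + t by omega, sum_range_add, orthWP hB0 hB ha N P hP, zero_add]
    refine sum_eq_zero fun k _ => ?_
    have : poch B ((B ^ N)⁻¹) (N + 1 + k) = 0 := by
      rw [poch_add, poch_succ, inv_mul_cancel₀ (pow_ne_zero _ hB0)]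
      simp
    rw [this]; simp
  rw [h2, zero_mul]

/-- back to the original sum -/
theorem sum_of_Gn {n L s : ℕ} {a B Z : RatFunc ℚ} {b bs : J → RatFunc ℚ}
    {l : J → M →+ ℤ}
    (hd : ∀ j, ∀ i < L, (1 - bs j * B ^ i) ≠ 0 ∧ (1 - bs j * B ^ i)⁻¹ ∈ R n)
    (h : I n s (Gn n L a B Z b bs l 0)) :
    I n s (∑ k ∈ range (L + 1), (1 - a * B ^ (2 * k)) * Z ^ k *
      ∏ j, (poch B (b j) k / poch B (bs j) k)) := by
  have hdf : ∀ j i, df n (bs j) B (l j) i (0 : M) = 1 - bs j * B ^ i := by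
    intro j i; rw [df, map_zero, zpow_zero]
  have hd' : ∀ j, ∏ i ∈ range L, df n (bs j) B (l j) i (0 : M) ≠ 0 := by
    intro j
    rw [prod_ne_zero_iff]
    intro i hi
    rw [hdf]; exact (hd j i (mem_range.1 hi)).1
  have h1 : ∀ k ∈ range (L + 1), (1 - a * B ^ (2 * k)) * Z ^ k *
      ∏ j, (poch B (b j) k / poch B (bs j) k) =
      (∏ j, ∏ i ∈ range L, df n (bs j) B (l j) i (0 : M))⁻¹ * Un n L a B Z b bs l k 0 := by
    intro k hk
    have hD : ∏ j, ∏ i ∈ range L, df n (bs j) B (l j) i (0 : M) ≠ 0 :=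
      prod_ne_zero_iff.2 fun j _ => hd' j
    rw [Un_eq hd' (Nat.lt_succ_iff.1 (mem_range.1 hk)), inv_mul_eq_div, mul_div_assoc,
      div_self hD, mul_one]
    congr 1
    refine prod_congr rfl fun j _ => ?_
    rw [Tk, map_zero, zpow_zero]
    simp
  rw [sum_congr rfl h1, ← mul_sum]
  refine I.R_mul ?_ h
  rw [← prod_inv_distrib]
  refine prod_mem fun j _ => ?_
  rw [← prod_inv_distrib]
  refine prod_mem fun i hi => ?_
  rw [hdf]
  exact (hd j i (mem_range.1 hi)).2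

end

end V11316
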