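import Pool.Agent.V11307.QApply
import Pool.Agent.V11316.Van

/-!
Tools for sums over several periods: the abstract vanishing lemma, reversal of a quotient of
`q`-shifted factorials, and products over a full period.
-/

open Finset Polynomial

namespace V11316.Per

open V11307.Q V11316

noncomputable section

/-! ### the abstract lemma -/

variable {n : ℕ}

theorem R_two_inv : ((2 : RatFunc ℚ))⁻¹ ∈ R n := by
  have := int_inv_mem (n := n) (z := 2) (by norm_num)
  exact_mod_cast this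

theorem AQ.step {M : Type*} [AddCommGroup M] {G : M → RatFunc ℚ} (hG : AQ n 2 G) (c v : M) :
    I n 1 (G (c + v) - G c) := by
  obtain ⟨g, hg, h⟩ := hG.2 v
  exact ⟨g c, hg.mem c, by rw [h c, pow_one]⟩

theorem AQ.second {M : Type*} [AddCommGroup M] {G : M → RatFunc ℚ} (hG : AQ n 2 G) (c u v : M) :
    I n 2 (G (c + u + v) - G (c + u) - G (c + v) + G c) := by
  obtain ⟨y, hy, h⟩ := An.diff2 hG u v c
  exact ⟨y, hy, h⟩

theorem additive_zsmul (f : ℤ → RatFunc ℚ) (hf : ∀ a b, I n 2 (f (a + b) - f a - f b)) (hf0 : f 0 = 0) :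
    ∀ (m : ℕ) (a : ℤ), I n 2 (f (m * a) - m * f a) := by
  intro m a
  induction m with
  | zero => simpa [hf0] using I.zero
  | succ m ih =>
    have h1 := hf (m * a) a
    have h2 := h1.add ih
    refine (congrArg (I n 2) ?_).mp h2
    rw [show ((m + 1 : ℕ) : ℤ) * a = m * a + a by push_cast; ring]
    push_cast
    ring

theorem I_natCast_cancel {m k : ℕ} (hm : m ≠ 0) {x : RatFunc ℚ} (h : I n k (m * x)) : I n k x := by
  have h1 := Isg_tor (n := n) (k := k) (x := x) (z := (m : ℤ)) (by exact_mod_cast hm)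
  apply h1
  rw [zsmul_eq_mul]
  exact_mod_cast h

/-- **the abstract vanishing lemma** -/
theorem vanish {G : ℤ × ℤ → RatFunc ℚ} (hG : AQ n 2 G) (σ : ℕ) (hσ : σ ≠ 0) (τ : ℕ)
    (H1 : ∀ t : ℤ, ∃ u, I n 1 (u + 1) ∧ I n 2 (G (0, t) - u * G (0, -τ - t)))
    (H2 : ∃ c, I n 1 (c + 1) ∧ G (1, 0) + c * G (1, σ) = 0) : ∀ t : ℤ, I n 2 (G (0, t)) := by
  -- everything is divisible by `Φ`
  have hmem : ∀ c, G c ∈ R n := fun c => hG.mem c
  have hstep : ∀ c d, I n 1 (G c - G d) := by
    intro c d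
    have := AQ.step hG d (c - d)
    rwa [add_sub_cancel] at this
  have h0 : I n 1 (G (0, 0)) := by
    obtain ⟨u, hu, h⟩ := H1 0
    have h1 := hstep (0, 0) (0, -τ - 0)
    have h2 : I n 1 (2 * G (0, 0)) := by
      have e : 2 * G (0, 0) = (G (0, 0) - u * G (0, -τ - 0)) + (u + 1) * G (0, -τ - 0) +
        (G (0, 0) - G (0, -τ - 0)) := by ring
      rw [e]
      exact ((h.mono (by norm_num)).add (hu.mul_R (hmem _))).add h1
    have := I.R_mul (R_two_inv (n := n)) h2
    rwa [← mul_assoc, inv_mul_cancel₀ two_ne_zero, one_mul] at this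
  have hall : ∀ c, I n 1 (G c) := by
    intro c
    have := (hstep c (0, 0)).add h0
    rwa [sub_add_cancel] at this
  -- the additive function
  set f : ℤ → RatFunc ℚ := fun t => G (0, t) - G (0, 0) with hf
  have hf0 : f 0 = 0 := by simp [hf]
  have hadd : ∀ a b, I n 2 (f (a + b) - f a - f b) := by
    intro a b
    have h := AQ.second hG (0, 0) ((0 : ℤ), a) ((0 : ℤ), b)
    refine (congrArg (I n 2) ?_).mp h
    simp only [hf, Prod.mk_add_mk, zero_add, add_zero]
    ring
  have hrev : ∀ t : ℤ, I n 2 (G (0, t) + G (0, -τ - t)) := by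
    intro t
    obtain ⟨u, hu, h⟩ := H1 t
    have h1 : I n 2 ((u + 1) * G (0, -τ - t)) := hu.mul (hall _)
    have h2 := h.add h1
    refine (congrArg (I n 2) ?_).mp h2
    ring
  have hτ : I n 2 (f (τ : ℕ) - 2 * G (0, 0)) := by
    have h1 := hadd (-τ) τ
    have h2 := hrev 0
    have h3 : I n 2 (-(f (-τ + τ) - f (-τ) - f τ) - (G (0, 0) + G (0, -τ - 0))) := (h1.neg).sub h2
    refine (congrArg (I n 2) ?_).mp h3
    rw [neg_add_cancel, hf0]
    simp only [hf, sub_zero]
    ring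
  have hσ' : I n 2 (f (σ : ℕ)) := by
    obtain ⟨c, hc, h⟩ := H2
    have h1 : I n 2 ((c + 1) * G (1, σ)) := hc.mul (hall _)
    have h2 : I n 2 (G (1, σ) - G (1, 0)) := by
      refine (congrArg (I n 2) ?_).mp h1
      linear_combination h
    have h3 := AQ.second hG (0, 0) ((1 : ℤ), (0 : ℤ)) ((0 : ℤ), (σ : ℤ))
    have h4 := h2.sub h3
    refine (congrArg (I n 2) ?_).mp h4
    simp only [hf, Prod.mk_add_mk, zero_add, add_zero]
    ring
  have hfτ : I n 2 (f (τ : ℕ)) := by
    apply I_natCast_cancel hσ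
    have h1 := additive_zsmul f hadd hf0 σ τ
    have h2 := additive_zsmul f hadd hf0 τ σ
    have h3 : I n 2 ((τ : RatFunc ℚ) * f σ) := I.R_mul (natCast_mem _ _) hσ'
    have h4 := (h2.add h3).sub h1
    refine (congrArg (I n 2) ?_).mp h4
    rw [mul_comm (τ : ℤ) (σ : ℤ)]
    ring
  have h00 : I n 2 (G (0, 0)) := by
    have h1 := hfτ.sub hτ
    have h2 : I n 2 (2 * G (0, 0)) := by
      refine (congrArg (I n 2) ?_).mp h1
      ring
    have := I.R_mul (R_two_inv (n := n)) h2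
    rwa [← mul_assoc, inv_mul_cancel₀ two_ne_zero, one_mul] at this
  -- all values
  intro t
  have hft : I n 2 (f t) := by
    apply I_natCast_cancel hσ
    have h1 := additive_zsmul f hadd hf0 σ t
    rcases Int.eq_nat_or_neg t with ⟨k, rfl | rfl⟩
    · have h2 := additive_zsmul f hadd hf0 k σ
      have h3 : I n 2 ((k : RatFunc ℚ) * f σ) := I.R_mul (natCast_mem _ _) hσ'
      have h4 := (h2.add h3).sub h1
      refine (congrArg (I n 2) ?_).mp h4
      rw [mul_comm (k : ℤ) (σ : ℤ)]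
      ring
    · have h2 := additive_zsmul f hadd hf0 k σ
      have h3 : I n 2 ((k : RatFunc ℚ) * f σ) := I.R_mul (natCast_mem _ _) hσ'
      have h5 := hadd (σ * k) (σ * -k)
      have h4 := (h2.add h3).add h1
      have h6 := h4.add h5
      rw [show (σ : ℤ) * k + σ * -k = 0 by ring, hf0] at h6
      refine (congrArg (I n 2) ?_).mp h6.neg
      rw [mul_comm (k : ℤ) (σ : ℤ)]
      ring
  have := hft.add h00
  refine (congrArg (I n 2) ?_).mp this
  simp only [hf]
  ring

/-! ### reversal -/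

theorem poch_rev {K : Type*} [Field K] (B u v' : K) (h : ℕ) :
    ∀ k : ℕ, k ≤ h → v' * u * B ^ (h - 1) = 1 → B ≠ 0 →
      poch B u h = poch B u (h - k) * u ^ k * (∏ i ∈ range k, (-B ^ (h - 1 - i))) * poch B v' k := by
  intro k
  induction k with
  | zero => intro _ _ _; simp
  | succ k ih =>
    intro hk h1 hB
    rw [ih (by omega) h1 hB]
    have e1 : h - k = (h - (k + 1)) + 1 := by omega
    rw [e1, poch_succ, prod_range_succ, poch_succ, pow_succ]
    have e2 : h - 1 - k = h - (k + 1) := by omega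
    rw [e2]
    have e3 : B ^ (h - 1) = B ^ (h - (k + 1)) * B ^ k := by
      rw [← pow_add]; congr 1; omega
    rw [e3] at h1
    have key : (1 - u * B ^ (h - (k + 1))) = u * (-B ^ (h - (k + 1))) * (1 - v' * B ^ k) := by
      linear_combination (-1 : K) * h1
    rw [key]
    ring

/-! ### a full period -/

/-- the product of `1 - q^r` over the nonzero residues -/
def Nn (n : ℕ) : RatFunc ℚ := ∏ r ∈ (range n).erase 0, (1 - q ^ r)

theorem Nn_U (hn : 0 < n) : IsU n (Nn n) := by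
  refine IsU.prod fun r hr => one_sub_U hn fun hd => ?_
  rw [mem_erase, mem_range] at hr
  have := Nat.le_of_dvd (by omega) hd
  omega

theorem qz_congr (hn : 0 < n) {e e' : ℤ} (h : (n : ℤ) ∣ e - e') : I n 1 (q ^ e - q ^ e') := by
  have h1 : q ^ e - q ^ e' = -(q ^ e' * (1 - q ^ (e - e'))) := by
    rw [mul_sub, ← zpow_add₀ q_ne]
    simp
  rw [h1]
  exact (I.R_mul (qz_mem hn _) (I_one_sub hn h)).neg

theorem period (hn : 0 < n) (e : ℕ → ℤ) {j : ℕ} (hj : j < n)
    (hinj : ∀ i < n, ∀ k < n, (n : ℤ) ∣ e i - e k → i = k) (h0 : (n : ℤ) ∣ e j) :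
    I n 1 (∏ i ∈ (range n).erase j, (1 - q ^ (e i)) - Nn n) := by
  have hnz : (n : ℤ) ≠ 0 := by exact_mod_cast hn.ne'
  have hnp : (0 : ℤ) < n := by exact_mod_cast hn
  set r : ℕ → ℕ := fun i => (e i % n).toNat with hr
  have hr1 : ∀ i, ((r i : ℕ) : ℤ) = e i % n := fun i => Int.toNat_of_nonneg (Int.emod_nonneg _ hnz)
  have hrinj : Set.InjOn r ((range n).erase j : Finset ℕ) := by
    intro a ha b hb hab
    have ha' := mem_range.1 (mem_of_mem_erase (Finset.mem_coe.1 ha))
    have hb' := mem_range.1 (mem_of_mem_erase (Finset.mem_coe.1 hb))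
    apply hinj a ha' b hb'
    have h1 : e a % n = e b % n := by rw [← hr1, ← hr1, hab]
    exact Int.ModEq.dvd (show e b ≡ e a [ZMOD n] from h1.symm)
  have himg : ((range n).erase j).image r = (range n).erase 0 := by
    apply Finset.eq_of_subset_of_card_le
    · intro x hx
      obtain ⟨i, hi, rfl⟩ := Finset.mem_image.1 hx
      rw [mem_erase, mem_range] at hi ⊢
      constructor
      · intro h1
        have h2 := hr1 i
        rw [h1] at h2
        have h3 : (n : ℤ) ∣ e i := Int.dvd_of_emod_eq_zero h2.symm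
        exact hi.1 (hinj i hi.2 j hj (dvd_sub h3 h0))
      · have := Int.emod_lt_of_pos (e i) hnp
        rw [← hr1] at this
        exact_mod_cast this
    · rw [Finset.card_image_of_injOn hrinj, card_erase_of_mem (mem_range.2 hj),
        card_erase_of_mem (mem_range.2 hn)]
  have h1 : Nn n = ∏ i ∈ (range n).erase j, (1 - q ^ (r i)) := by
    rw [Nn, ← himg, Finset.prod_image hrinj]
  rw [h1]
  refine I.prod_congr (fun i _ => ?_) (fun i _ => sub_mem (one_mem _) (qz_mem hn _))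
    (fun i _ => sub_mem (one_mem _) (pow_mem q_mem _))
  have h2 : I n 1 (q ^ (e i) - q ^ ((r i : ℕ) : ℤ)) := by
    apply qz_congr hn
    rw [hr1]
    exact Int.dvd_self_sub_emod
  rw [zpow_natCast] at h2
  have h3 := h2.neg
  refine (congrArg (I n 1) ?_).mp h3
  ring

theorem geom_cong_int (hn : 0 < n) (e : ℤ) : I n 1 ((1 - q ^ (e * n)) / (1 - q ^ n) - e) := by
  rcases le_or_gt 0 e with h0 | h0
  · obtain ⟨k, rfl⟩ := Int.eq_ofNat_of_zero_le h0
    have := geom_cong hn k
    rw [← zpow_natCast q (k * n)] at this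
    push_cast at this ⊢
    exact this
  · obtain ⟨k, hk⟩ := Int.eq_ofNat_of_zero_le (by omega : 0 ≤ -e)
    have hke : e = -(k : ℤ) := by omega
    have h1 : (1 - q ^ (e * n)) / (1 - q ^ n) =
        -(q ^ (e * n) * ((1 - q ^ (k * n)) / (1 - q ^ n))) := by
      have : q ^ (e * n) * q ^ (k * n) = 1 := by
        rw [hke, ← zpow_natCast q (k * n), ← zpow_add₀ q_ne]
        push_cast
        rw [neg_mul, neg_add_cancel, zpow_zero]
      rw [mul_div_assoc', ← neg_div]
      congr 1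
      linear_combination -this
    have h2 := geom_cong hn k
    have h3 : I n 1 (1 - q ^ (e * n)) := I_one_sub hn (Dvd.intro_left _ rfl)
    have h4 : I n 1 (q ^ (e * n) * ((1 - q ^ (k * n)) / (1 - q ^ n) - k)) := I.R_mul (qz_mem hn _) h2
    have h5 : I n 1 ((1 - q ^ (e * n)) * k) := h3.mul_R (natCast_mem _ _)
    have h6 := (h5.sub h4)
    refine (congrArg (I n 1) ?_).mp h6
    rw [h1]
    have : ((e : ℤ) : RatFunc ℚ) = -(k : RatFunc ℚ) := by
      rw [hke]; push_cast; ring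
    rw [this]
    ring

theorem intCast_U (hn : 0 < n) {e : ℤ} (he : e ≠ 0) : IsU n (e : RatFunc ℚ) :=
  (geom_U hn he).congr hn (I.symm (geom_cong_int hn e))

/-- the quotient of two products over a full period -/
theorem cyc_ratio (hn : 0 < n) {β : ℕ} {a d e0 e1 : ℤ} {j j' : ℕ} (hj : j < n) (hj' : j' < n)
    (ha : a + β * j = n * e0) (hd : d + β * j' = n * e1) (hc : IsCoprime (n : ℤ) β) (h1 : e1 ≠ 0) :
    poch (q ^ (β : ℤ)) (q ^ a) n / poch (q ^ (β : ℤ)) (q ^ d) n ∈ R n ∧
    I n 1 (poch (q ^ (β : ℤ)) (q ^ a) n / poch (q ^ (β : ℤ)) (q ^ d) n - e0 / e1) := by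
  have hsplit : ∀ (x : ℤ) (k : ℕ), k < n → poch (q ^ (β : ℤ)) (q ^ x) n =
      (1 - q ^ (x + β * k)) * ∏ i ∈ (range n).erase k, (1 - q ^ (x + β * i)) := by
    intro x k hk
    rw [poch]
    rw [← Finset.mul_prod_erase (range n) _ (mem_range.2 hk)]
    congr 1
    · rw [qz_pow, ← zpow_add₀ q_ne]
    · refine prod_congr rfl fun i _ => ?_
      rw [qz_pow, ← zpow_add₀ q_ne]
  have hper : ∀ (x : ℤ) (k : ℕ), k < n → (n : ℤ) ∣ x + β * k →
      I n 1 (∏ i ∈ (range n).erase k, (1 - q ^ (x + β * i)) - Nn n) := by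
    intro x k hk hx
    refine period hn (fun i => x + β * i) hk (fun i hi l hl h => ?_) hx
    have h2 : (n : ℤ) ∣ β * ((i : ℤ) - l) := by
      have : x + β * i - (x + β * l) = β * ((i : ℤ) - l) := by ring
      rwa [this] at h
    have h3 := hc.dvd_of_dvd_mul_left h2
    obtain ⟨w, hw⟩ := h3
    have hn1 : (0 : ℤ) < n := by exact_mod_cast hn
    have hw0 : w = 0 := by
      by_contra hne
      rcases lt_or_gt_of_ne hne with h4 | h4
      · have : (n : ℤ) * w ≤ n * (-1) := by apply mul_le_mul_of_nonneg_left (by omega) hn1.le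
        omega
      · have : (n : ℤ) * 1 ≤ n * w := by apply mul_le_mul_of_nonneg_left (by omega) hn1.le
        omega
    rw [hw0, mul_zero] at hw
    omega
  rw [hsplit a j hj, hsplit d j' hj', ha, hd]
  have p1 := hper a j hj (by rw [ha]; exact dvd_mul_right _ _)
  have p2 := hper d j' hj' (by rw [hd]; exact dvd_mul_right _ _)
  set P1 := ∏ i ∈ (range n).erase j, (1 - q ^ (a + β * i)) with hP1
  set P2 := ∏ i ∈ (range n).erase j', (1 - q ^ (d + β * i)) with hP2
  have u1 : IsU n P1 := (Nn_U hn).congr hn p1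
  have u2 : IsU n P2 := (Nn_U hn).congr hn p2
  have g1 := geom_U hn h1
  have hq0 : (1 : RatFunc ℚ) - q ^ n ≠ 0 := one_sub_ne hn
  have hden : (1 : RatFunc ℚ) - q ^ ((n : ℤ) * e1) ≠ 0 := by
    have h2 := g1.1
    intro h3
    apply h2
    rw [mul_comm e1 (n : ℤ), h3, zero_div]
  have e : (1 - q ^ ((n : ℤ) * e0)) * P1 / ((1 - q ^ ((n : ℤ) * e1)) * P2) =
      (((1 - q ^ (e0 * (n : ℤ))) / (1 - q ^ n)) * P1) / (((1 - q ^ (e1 * (n : ℤ))) / (1 - q ^ n)) * P2) := by
    rw [mul_comm e0 (n : ℤ), mul_comm e1 (n : ℤ)]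
    have := u2.1
    field_simp
  rw [e]
  have m0 : (1 - q ^ (e0 * (n : ℤ))) / (1 - q ^ n) ∈ R n := by
    by_cases h : e0 = 0
    · rw [h]; simp
    · exact (geom_U hn h).2.1
  refine ⟨?_, ?_⟩
  · rw [div_eq_mul_inv]
    exact mul_mem (mul_mem m0 u1.2.1) (g1.mul u2).2.2
  · have c1 : I n 1 (((1 - q ^ (e0 * (n : ℤ))) / (1 - q ^ n)) * P1 - e0 * Nn n) :=
      I.mul_congr (geom_cong_int hn e0) p1 (intCast_mem _ _) u1.2.1
    have c2 : I n 1 (((1 - q ^ (e1 * (n : ℤ))) / (1 - q ^ n)) * P2 - e1 * Nn n) :=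
      I.mul_congr (geom_cong_int hn e1) p2 (intCast_mem _ _) u2.2.1
    have uN := Nn_U hn
    have ue := (intCast_U hn h1)
    have c3 := I.div_congr c1 (mul_mem (intCast_mem _ _) uN.2.1) (g1.mul u2) (ue.mul uN) c2
    have e2 : (e0 : RatFunc ℚ) * Nn n / (e1 * Nn n) = e0 / e1 := by
      rw [mul_div_mul_right _ _ uN.1]
    rwa [e2] at c3

end

end V11316.Per
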