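import Pool.Agent.V11316.I1

/-!
The sum with `q^k (1+q^{4k+1}) (q^2;q^4)_k^3 / (q^4;q^4)_k^3`.
-/

open Finset Polynomial

namespace V11316.Per

open V11307.Q V11316

noncomputable section

variable {n : ℕ}

/-- the linear form `x c₁ + y c₂` -/
def lf (x y : ℤ) : ℤ × ℤ →+ ℤ where
  toFun c := x * c.1 + y * c.2
  map_zero' := by simp
  map_add' a b := by simp only [Prod.fst_add, Prod.snd_add]; ring

theorem AQ_exp (hn : 0 < n) {m : ℕ} (a x y : ℤ) :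
    AQ n m (fun c : ℤ × ℤ => q ^ (a + n * (x * c.1 + y * c.2))) := by
  have h := (An.const (m := m) (qz_mem hn a)).mul (AQ_Q (n := n) (m := m) hn (lf x y))
  refine h.congr fun c => ?_
  rw [← zpow_natCast q n, ← zpow_mul, ← zpow_add₀ q_ne]
  rfl

/-- a quotient of `q`-shifted factorials with unit denominator -/
theorem AQ_pinv (hn : 0 < n) {m β : ℕ} {a x y : ℤ} {k : ℕ}
    (h : ∀ i < k, ¬ (n : ℤ) ∣ a + β * i) :
    AQ n m (fun c : ℤ × ℤ => (poch (q ^ (β : ℤ)) (q ^ (a + n * (x * c.1 + y * c.2))) k)⁻¹) := by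
  have hu : ∀ c : ℤ × ℤ, IsU n (poch (q ^ (β : ℤ)) (q ^ (a + n * (x * c.1 + y * c.2))) k) := by
    intro c
    rw [poch]
    refine IsU.prod fun i hi => ?_
    rw [qz_pow, ← zpow_add₀ q_ne]
    refine one_sub_U_int hn fun hd => ?_
    apply h i (mem_range.1 hi)
    have h2 : (n : ℤ) ∣ n * (x * c.1 + y * c.2) := dvd_mul_right _ _
    have h3 := dvd_sub hd h2
    have e : a + n * (x * c.1 + y * c.2) + β * i - n * (x * c.1 + y * c.2) = a + β * i := by ring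
    rwa [e] at h3
  exact An.inv (AQ_poch (qz_mem hn _) (AQ_exp hn a x y) k) (fun c => (hu c).1) fun c => (hu c).2.2

theorem poch_unit (hn : 0 < n) {β : ℕ} {a z : ℤ} {k : ℕ}
    (h : ∀ i < k, ¬ (n : ℤ) ∣ a + β * i) : IsU n (poch (q ^ (β : ℤ)) (q ^ (a + n * z)) k) := by
  rw [poch]
  refine IsU.prod fun i hi => ?_
  rw [qz_pow, ← zpow_add₀ q_ne]
  refine one_sub_U_int hn fun hd => ?_
  apply h i (mem_range.1 hi)
  have h2 : (n : ℤ) ∣ n * z := dvd_mul_right _ _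
  have h3 := dvd_sub hd h2
  have e : a + n * z + β * i - n * z = a + β * i := by ring
  rwa [e] at h3

theorem poch_mem (hn : 0 < n) (b a : ℤ) (k : ℕ) : poch (q ^ b) (q ^ a) k ∈ R n := by
  rw [poch]
  exact prod_mem fun i _ => sub_mem (one_mem _) (mul_mem (qz_mem hn _) (pow_mem (qz_mem hn _) _))

/-- a vanishing factor -/
theorem poch_I (hn : 0 < n) {b a : ℤ} {k i : ℕ} (hi : i < k) (h : (n : ℤ) ∣ a + b * i) :
    I n 1 (poch (q ^ b) (q ^ a) k) := by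
  rw [poch, ← Finset.mul_prod_erase (range k) _ (mem_range.2 hi), qz_pow, ← zpow_add₀ q_ne]
  exact (I_one_sub hn h).mul_R (prod_mem fun i _ =>
    sub_mem (one_mem _) (mul_mem (qz_mem hn _) (pow_mem (qz_mem hn _) _)))

/-- the polynomial `∏_{i=1}^{h} (1 - B^i Y)` -/
def PP (B : RatFunc ℚ) (h : ℕ) : (RatFunc ℚ)[X] := ∏ i ∈ range h, (1 - C (B ^ (i + 1)) * X)

theorem PP_eval (B : RatFunc ℚ) (h : ℕ) (y : RatFunc ℚ) : (PP B h).eval y = poch B (B * y) h := by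
  rw [PP, eval_prod, poch]
  refine prod_congr rfl fun i _ => ?_
  rw [eval_sub, eval_mul, eval_C, eval_X, eval_one, pow_succ]
  ring

theorem PP_natDegree (B : RatFunc ℚ) (h : ℕ) : (PP B h).natDegree ≤ h := by
  rw [PP]
  refine (natDegree_prod_le _ _).trans ?_
  refine (Finset.sum_le_card_nsmul _ _ 1 fun i _ => ?_).trans (by simp)
  compute_degree

/-- `(B^{h+1};B)_k/(B;B)_k` as a polynomial in `B^k` -/
theorem ratio_poly {B : RatFunc ℚ} (hB : ∀ k, poch B B k ≠ 0) (h k : ℕ) :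
    poch B (B * B ^ h) k / poch B B k = (PP B h).eval (B ^ k) / poch B B h := by
  rw [PP_eval, div_eq_div_iff (hB k) (hB h)]
  have h1 := poch_add B B h k
  have h2 := poch_add B B k h
  rw [add_comm h k, h2] at h1
  linear_combination -h1

end

end V11316.Per

namespace V11316.M846

open V11307.Q V11316 V11316.Per

noncomputable section

/-- the family -/
def T (n : ℕ) (c : ℤ × ℤ) (k : ℕ) : RatFunc ℚ :=
  (q ^ (1 + n * (1 * c.1 + 0 * c.2) : ℤ)) ^ k * (1 + q ^ ((4 * k + 1 : ℤ) + n * (0 * c.1 + 1 * c.2))) *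
    (poch (q ^ ((4 : ℕ) : ℤ)) (q ^ (2 + n * (-6 * c.1 + 1 * c.2) : ℤ)) k *
      poch (q ^ ((4 : ℕ) : ℤ)) (q ^ (2 + n * (2 * c.1 + 1 * c.2) : ℤ)) k ^ 2) *
      (poch (q ^ ((4 : ℕ) : ℤ)) (q ^ (4 + n * (0 * c.1 + 1 * c.2) : ℤ)) k)⁻¹ ^ 3

def G (n : ℕ) (c : ℤ × ℤ) : RatFunc ℚ := ∑ k ∈ range n, T n c k

variable {m n h : ℕ}

theorem cop4 (hn : n = 4 * m + 3) : IsCoprime (n : ℤ) ((4 : ℕ) : ℤ) :=
  ⟨-1, m + 1, by rw [hn]; push_cast; ring⟩

theorem nd4 (hn : n = 4 * m + 3) {i : ℕ} (hi : i + 1 < n) : ¬ (n : ℤ) ∣ 4 + ((4 : ℕ) : ℤ) * i := by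
  intro hd
  have e : (4 : ℤ) + ((4 : ℕ) : ℤ) * i = ((4 : ℕ) : ℤ) * (i + 1) := by push_cast; ring
  rw [e] at hd
  have h2 := (cop4 hn).dvd_of_dvd_mul_left hd
  have h3 := Int.le_of_dvd (by positivity) h2
  omega

theorem T_AQ (hn : n = 4 * m + 3) {k : ℕ} (hk : k < n) {l : ℕ} : AQ n l (fun c => T n c k) := by
  have hn0 : 0 < n := by omega
  have h1 : AQ n l (fun c : ℤ × ℤ => (q ^ (1 + n * (1 * c.1 + 0 * c.2) : ℤ)) ^ k) :=
    An.pow (AQ_exp hn0 1 1 0) k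
  have h2 : AQ n l (fun c : ℤ × ℤ => 1 + q ^ ((4 * k + 1 : ℤ) + n * (0 * c.1 + 1 * c.2))) :=
    (An.const (one_mem _)).add (AQ_exp hn0 (4 * k + 1) 0 1)
  have h3 : AQ n l (fun c : ℤ × ℤ => poch (q ^ ((4 : ℕ) : ℤ)) (q ^ (2 + n * (-6 * c.1 + 1 * c.2) : ℤ)) k) :=
    AQ_poch (qz_mem hn0 _) (AQ_exp hn0 2 (-6) 1) k
  have h4 : AQ n l (fun c : ℤ × ℤ => poch (q ^ ((4 : ℕ) : ℤ)) (q ^ (2 + n * (2 * c.1 + 1 * c.2) : ℤ)) k ^ 2) :=
    An.pow (AQ_poch (qz_mem hn0 _) (AQ_exp hn0 2 2 1) k) 2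
  have h5 : AQ n l (fun c : ℤ × ℤ => (poch (q ^ ((4 : ℕ) : ℤ)) (q ^ (4 + n * (0 * c.1 + 1 * c.2) : ℤ)) k)⁻¹ ^ 3) :=
    An.pow (AQ_pinv hn0 fun i hi => nd4 hn (by omega)) 3
  exact ((h1.mul h2).mul (h3.mul h4)).mul h5

theorem G_AQ (hn : n = 4 * m + 3) {l : ℕ} : AQ n l (G n) :=
  An.sum (range n) fun k hk => T_AQ hn (mem_range.1 hk)

/-- the quotient of the factorials -/
def W (n : ℕ) (t : ℤ) (k : ℕ) : RatFunc ℚ :=
  poch (q ^ ((4 : ℕ) : ℤ)) (q ^ (2 + n * t : ℤ)) k / poch (q ^ ((4 : ℕ) : ℤ)) (q ^ (4 + n * t : ℤ)) k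

theorem T_zero (t : ℤ) (k : ℕ) : T n (0, t) k = q ^ k * (1 + q ^ ((4 * k + 1 : ℤ) + n * t)) * W n t k ^ 3 := by
  simp only [T, W, mul_zero, zero_mul, add_zero, zero_add, one_mul, zpow_one, div_eq_mul_inv, mul_pow]
  ring

theorem den_U (hn : n = 4 * m + 3) (t : ℤ) {k : ℕ} (hk : k < n) :
    IsU n (poch (q ^ ((4 : ℕ) : ℤ)) (q ^ (4 + n * t : ℤ)) k) :=
  poch_unit (by omega) fun i hi => nd4 hn (by omega)

theorem W_mem (hn : n = 4 * m + 3) (t : ℤ) {k : ℕ} (hk : k < n) : W n t k ∈ R n := by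
  rw [W, div_eq_mul_inv]
  exact mul_mem (poch_mem (by omega) _ _ _) (den_U hn t hk).2.2

theorem T0_mem (hn : n = 4 * m + 3) (t : ℤ) {k : ℕ} (hk : k < n) : T n (0, t) k ∈ R n :=
  (T_AQ (l := 0) hn hk) (0, t)

/-- the terms beyond `h` -/
theorem T0_small (hn : n = 4 * m + 3) (hh : n = 2 * h + 1) (t : ℤ) {k : ℕ} (hk : k < n) (hk' : h < k) :
    I n 2 (T n (0, t) k) := by
  have hn0 : 0 < n := by omega
  rw [T_zero]
  have h1 : I n 1 (W n t k) := by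
    rw [W, div_eq_mul_inv]
    refine I.mul_R (poch_I hn0 hk' ?_) (den_U hn t hk).2.2
    refine ⟨t + 2, ?_⟩
    have : (n : ℤ) = 2 * h + 1 := by exact_mod_cast hh
    push_cast
    linear_combination -2 * this
  have h2 : I n 2 (W n t k ^ 3) := by
    have e : W n t k ^ 3 = W n t k * W n t k * W n t k := by ring
    rw [e]
    exact (h1.mul h1).mul_R h1.mem
  exact I.R_mul (mul_mem (pow_mem q_mem _) (add_mem (one_mem _) (qz_mem hn0 _))) h2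

def Gh (n h : ℕ) (t : ℤ) : RatFunc ℚ := ∑ k ∈ range (h + 1), T n (0, t) k

theorem G_Gh (hn : n = 4 * m + 3) (hh : n = 2 * h + 1) (t : ℤ) : I n 2 (G n (0, t) - Gh n h t) := by
  have e : G n (0, t) - Gh n h t = ∑ k ∈ Ico (h + 1) n, T n (0, t) k := by
    rw [G, Gh, Finset.sum_Ico_eq_sub _ (by omega)]
  rw [e]
  refine I.sum fun k hk => ?_
  rw [mem_Ico] at hk
  exact T0_small hn hh t hk.2 (by omega)

/-- reversal of the quotient -/
theorem W_rev (hn : n = 4 * m + 3) (hh : n = 2 * h + 1) (t : ℤ) {k : ℕ} (hk : k ≤ h) :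
    W n t (h - k) = W n t h * q ^ (2 * k) * W n (-2 - t) k := by
  have hn0 : 0 < n := by omega
  have hhz : (n : ℤ) = 2 * h + 1 := by exact_mod_cast hh
  have hh1 : 1 ≤ h := by omega
  have e1 : ((h - 1 : ℕ) : ℤ) = h - 1 := by rw [Nat.cast_sub hh1]; simp
  set B : RatFunc ℚ := q ^ ((4 : ℕ) : ℤ) with hB
  have p1 := poch_rev B (q ^ (2 + n * t : ℤ)) (q ^ (4 + n * (-2 - t) : ℤ)) h k hk
    (by
      rw [hB, qz_pow, ← zpow_add₀ q_ne, ← zpow_add₀ q_ne]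
      have : (4 + (n : ℤ) * (-2 - t) + (2 + n * t) + ((4 : ℕ) : ℤ) * ((h - 1 : ℕ) : ℤ)) = 0 := by
        rw [e1, hhz]; push_cast; ring
      rw [this, zpow_zero])
    (qz_ne _)
  have p2 := poch_rev B (q ^ (4 + n * t : ℤ)) (q ^ (2 + n * (-2 - t) : ℤ)) h k hk
    (by
      rw [hB, qz_pow, ← zpow_add₀ q_ne, ← zpow_add₀ q_ne]
      have : (2 + (n : ℤ) * (-2 - t) + (4 + n * t) + ((4 : ℕ) : ℤ) * ((h - 1 : ℕ) : ℤ)) = 0 := by
        rw [e1, hhz]; push_cast; ring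
      rw [this, zpow_zero])
    (qz_ne _)
  have d1 := (den_U hn t (show h < n by omega)).1
  have d2 := (den_U hn t (show h - k < n by omega)).1
  have d3 := (den_U hn (-2 - t) (show k < n by omega)).1
  have eu : (q ^ (4 + n * t : ℤ) : RatFunc ℚ) = q ^ (2 + n * t : ℤ) * q ^ 2 := by
    rw [show (q : RatFunc ℚ) ^ 2 = q ^ (2 : ℤ) by norm_cast, ← zpow_add₀ q_ne]
    congr 1; ring
  have hu0 : (q ^ (2 + n * t : ℤ) : RatFunc ℚ) ≠ 0 := qz_ne _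
  have hP : ∏ i ∈ range k, (-B ^ (h - 1 - i)) ≠ 0 := by
    rw [prod_ne_zero_iff]
    intro i _
    exact neg_ne_zero.2 (pow_ne_zero _ (qz_ne _))
  rw [W, W, W, ← hB, p1, p2]
  rw [← hB] at d1 d2 d3
  rw [p2] at d1
  have d4 : poch B (q ^ (2 + n * (-2 - t) : ℤ)) k ≠ 0 := by
    intro h0
    apply d1
    rw [h0, mul_zero]
  have d5 := d2
  have d6 : (q : RatFunc ℚ) ^ 2 ≠ 0 := pow_ne_zero _ q_ne
  have ek : (q ^ (4 + n * t : ℤ) : RatFunc ℚ) ^ k = (q ^ (2 + n * t : ℤ)) ^ k * q ^ (2 * k) := by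
    rw [eu, mul_pow, ← pow_mul]
  rw [ek]
  generalize poch B (q ^ (4 + n * (-2 - t) : ℤ)) k = X1 at *
  generalize poch B (q ^ (2 + n * (-2 - t) : ℤ)) k = X2 at *
  generalize poch B (q ^ (4 + n * t : ℤ)) (h - k) = X3 at *
  generalize poch B (q ^ (2 + n * t : ℤ)) (h - k) = X4 at *
  generalize (∏ i ∈ range k, (-B ^ (h - 1 - i))) = X5 at *
  have d7 : (q ^ (2 + n * t : ℤ) : RatFunc ℚ) ^ k ≠ 0 := pow_ne_zero _ hu0
  generalize (q ^ (2 + n * t : ℤ) : RatFunc ℚ) ^ k = X6 at *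
  have d8 : (q : RatFunc ℚ) ^ (2 * k) ≠ 0 := pow_ne_zero _ q_ne
  generalize (q : RatFunc ℚ) ^ (2 * k) = X7 at *
  field_simp

/-- the factor of the reversal -/
def cr (n h : ℕ) (t : ℤ) : RatFunc ℚ := q ^ ((h : ℤ) - 1 + n * (t + 2)) * W n t h ^ 3

theorem T_rev (hn : n = 4 * m + 3) (hh : n = 2 * h + 1) (t : ℤ) {k : ℕ} (hk : k ≤ h) :
    T n (0, t) (h - k) = cr n h t * T n (0, -2 - t) k := by
  have hhz : (n : ℤ) = 2 * h + 1 := by exact_mod_cast hh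
  rw [T_zero, T_zero, W_rev hn hh t hk, cr]
  have e1 : ((h - k : ℕ) : ℤ) = h - k := by rw [Nat.cast_sub hk]
  have e2 : (1 : RatFunc ℚ) + q ^ ((4 * ((h - k : ℕ) : ℤ) + 1 : ℤ) + n * t) =
      q ^ ((-4 * k - 1 : ℤ) + n * (t + 2)) * (1 + q ^ ((4 * k + 1 : ℤ) + n * (-2 - t))) := by
    rw [mul_add, mul_one, ← zpow_add₀ q_ne]
    have e3 : ((-4 * k - 1 : ℤ) + n * (t + 2)) + ((4 * k + 1 : ℤ) + n * (-2 - t)) = 0 := by ring
    rw [e3, zpow_zero, add_comm]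
    congr 2
    rw [e1, hhz]; ring
  rw [e2]
  have e4 : (q : RatFunc ℚ) ^ (h - k) = q ^ ((h : ℤ) - k) := by rw [← e1, zpow_natCast]
  have e5 : (q : RatFunc ℚ) ^ (2 * k) = q ^ (2 * (k : ℤ)) := by
    rw [← zpow_natCast]; push_cast; rfl
  have e6 : (q : RatFunc ℚ) ^ k = q ^ (k : ℤ) := by rw [zpow_natCast]
  rw [e4, e5, e6]
  have e7 : (q : RatFunc ℚ) ^ ((h : ℤ) - k) * q ^ ((-4 * k - 1 : ℤ) + n * (t + 2)) * (q ^ (2 * (k : ℤ))) ^ 3 =
      q ^ ((h : ℤ) - 1 + n * (t + 2)) * q ^ (k : ℤ) := by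
    rw [qz_pow, ← zpow_add₀ q_ne, ← zpow_add₀ q_ne, ← zpow_add₀ q_ne]
    congr 1
    push_cast
    ring
  linear_combination (1 + q ^ ((4 * k + 1 : ℤ) + n * (-2 - t))) * W n t h ^ 3 * W n (-2 - t) k ^ 3 * e7

theorem Gh_rev (hn : n = 4 * m + 3) (hh : n = 2 * h + 1) (t : ℤ) :
    Gh n h t = cr n h t * Gh n h (-2 - t) := by
  rw [Gh, Gh, ← sum_range_reflect, mul_sum]
  refine sum_congr rfl fun k hk => ?_
  have hk' : k ≤ h := Nat.lt_succ_iff.1 (mem_range.1 hk)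
  rw [show h + 1 - 1 - k = h - k by omega]
  exact T_rev hn hh t hk'

theorem cr_cong (hn : n = 4 * m + 3) (hh : n = 2 * h + 1) (t : ℤ) : I n 1 (cr n h t + 1) := by
  have hn0 : 0 < n := by omega
  have hhz : (n : ℤ) = 2 * h + 1 := by exact_mod_cast hh
  have hh1 : 1 ≤ h := by omega
  have hodd : Odd h := ⟨m, by omega⟩
  have e1 : ((h - 1 : ℕ) : ℤ) = h - 1 := by rw [Nat.cast_sub hh1]; simp
  -- the quotient
  have hW : I n 1 (W n t h + q ^ (2 * h ^ 2)) := by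
    set B : RatFunc ℚ := q ^ ((4 : ℕ) : ℤ) with hB
    have p1 := poch_rev B (q ^ (2 + n * t : ℤ)) (q ^ (4 + n * (-2 - t) : ℤ)) h h le_rfl
      (by
        rw [hB, qz_pow, ← zpow_add₀ q_ne, ← zpow_add₀ q_ne]
        have : (4 + (n : ℤ) * (-2 - t) + (2 + n * t) + ((4 : ℕ) : ℤ) * ((h - 1 : ℕ) : ℤ)) = 0 := by
          rw [e1, hhz]; push_cast; ring
        rw [this, zpow_zero])
      (qz_ne _)
    rw [Nat.sub_self, poch_zero, one_mul] at p1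
    have hprod : ∏ i ∈ range h, (-B ^ (h - 1 - i)) = -q ^ ((2 * h * (h - 1) : ℕ) : ℤ) := by
      rw [Finset.prod_neg, card_range, hodd.neg_one_pow, prod_pow_eq_pow_sum]
      rw [Finset.sum_range_reflect (fun i => i) h]
      rw [hB, qz_pow, neg_one_mul]
      congr 2
      have := Finset.sum_range_id_mul_two h
      push_cast
      have h2 : ((∑ i ∈ range h, i : ℕ) : ℤ) * 2 = h * ((h - 1 : ℕ) : ℤ) := by exact_mod_cast this
      push_cast at h2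
      linear_combination 2 * h2
    rw [hprod, qz_pow] at p1
    have hcong : I n 1 (poch B (q ^ (4 + n * (-2 - t) : ℤ)) h - poch B (q ^ (4 + n * t : ℤ)) h) := by
      rw [poch, poch]
      refine I.prod_congr (fun i _ => ?_) (fun i _ => ?_) (fun i _ => ?_)
      · have : I n 1 ((q : RatFunc ℚ) ^ (4 + n * t : ℤ) - q ^ (4 + n * (-2 - t) : ℤ)) :=
          qz_congr hn0 ⟨2 * t + 2, by ring⟩
        have := this.mul_R (pow_mem (qz_mem hn0 ((4 : ℕ) : ℤ)) i)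
        refine (congrArg (I n 1) ?_).mp this
        rw [hB]; ring
      · exact sub_mem (one_mem _) (mul_mem (qz_mem hn0 _) (pow_mem (qz_mem hn0 _) _))
      · exact sub_mem (one_mem _) (mul_mem (qz_mem hn0 _) (pow_mem (qz_mem hn0 _) _))
    have d1 := den_U hn t (show h < n by omega)
    rw [← hB] at d1
    have h3 := hcong.mul_R d1.2.2
    have h4 : I n 1 (-(q ^ ((2 + n * t) * h + ((2 * h * (h - 1) : ℕ) : ℤ)) : RatFunc ℚ) + q ^ (2 * h ^ 2)) := by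
      have e8 : (q : RatFunc ℚ) ^ (2 * h ^ 2) = q ^ ((2 * h ^ 2 : ℕ) : ℤ) := by rw [zpow_natCast]
      rw [e8]
      have : I n 1 ((q : RatFunc ℚ) ^ ((2 * h ^ 2 : ℕ) : ℤ) - q ^ ((2 + n * t) * h + ((2 * h * (h - 1) : ℕ) : ℤ))) := by
        apply qz_congr hn0
        refine ⟨-(t * h), ?_⟩
        push_cast [Nat.cast_sub hh1]
        ring
      refine (congrArg (I n 1) ?_).mp this
      ring
    have h5 : W n t h = -(q ^ ((2 + n * t) * h + ((2 * h * (h - 1) : ℕ) : ℤ))) *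
        (poch B (q ^ (4 + n * (-2 - t) : ℤ)) h * (poch B (q ^ (4 + n * t : ℤ)) h)⁻¹) := by
      have e10 := zpow_add₀ (q_ne) ((2 + n * t) * h) ((2 * h * (h - 1) : ℕ) : ℤ)
      rw [W, ← hB, p1, e10, div_eq_mul_inv]
      generalize (q : RatFunc ℚ) ^ ((2 + (n : ℤ) * t) * h) = Y1
      generalize (q : RatFunc ℚ) ^ ((2 * h * (h - 1) : ℕ) : ℤ) = Y2
      generalize poch B (q ^ (4 + n * (-2 - t) : ℤ)) h = Y3
      generalize (poch B (q ^ (4 + n * t : ℤ)) h)⁻¹ = Y4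
      ring
    have h6 : I n 1 (poch B (q ^ (4 + n * (-2 - t) : ℤ)) h * (poch B (q ^ (4 + n * t : ℤ)) h)⁻¹ - 1) := by
      refine (congrArg (I n 1) ?_).mp h3
      rw [sub_mul, mul_inv_cancel₀ d1.1]
    have h7 := I.R_mul (neg_mem (qz_mem hn0 ((2 + n * t) * h + ((2 * h * (h - 1) : ℕ) : ℤ)))) h6
    have h8 := h7.add h4
    refine (congrArg (I n 1) ?_).mp h8
    rw [h5]
    ring
  have hWm : W n t h ∈ R n := W_mem hn t (by omega)
  have hqm : (q : RatFunc ℚ) ^ (2 * h ^ 2) ∈ R n := pow_mem q_mem _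
  have h9 : I n 1 (W n t h ^ 3 + q ^ (6 * h ^ 2)) := by
    have e9 : W n t h ^ 3 + q ^ (6 * h ^ 2) =
        (W n t h + q ^ (2 * h ^ 2)) * (W n t h ^ 2 - W n t h * q ^ (2 * h ^ 2) + (q ^ (2 * h ^ 2)) ^ 2) := by
      have : (q : RatFunc ℚ) ^ (6 * h ^ 2) = (q ^ (2 * h ^ 2)) ^ 3 := by rw [← pow_mul]; congr 1; ring
      rw [this]; ring
    rw [e9]
    exact hW.mul_R (add_mem (sub_mem (pow_mem hWm _) (mul_mem hWm hqm)) (pow_mem hqm _))
  have h10 := I.R_mul (qz_mem hn0 ((h : ℤ) - 1 + n * (t + 2))) h9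
  have h11 : I n 1 ((q : RatFunc ℚ) ^ ((h : ℤ) - 1 + n * (t + 2) + ((6 * h ^ 2 : ℕ) : ℤ)) - q ^ (0 : ℤ)) := by
    apply qz_congr hn0
    refine ⟨(t + 2) + 3 * h - 1, ?_⟩
    push_cast
    linear_combination (-(3 * (h : ℤ) - 1)) * hhz
  rw [zpow_zero, zpow_add₀ q_ne, zpow_natCast] at h11
  have h12 := h10.sub h11
  refine (congrArg (I n 1) ?_).mp h12
  rw [cr]
  ring

end

end V11316.M846
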