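import Pool.Agent.V11316.I2

/-!
The sum with `q^k (1+q^{4k+1}) (q^2;q^4)_k^3 / (q^4;q^4)_k^3`: orthogonality over two periods and
the final result.
-/

open Finset Polynomial

namespace V11316.M846

open V11307.Q V11316 V11316.Per

noncomputable section

variable {m n h : ℕ}

theorem Bk_ne (k : ℕ) : poch (q ^ ((4 : ℕ) : ℤ) : RatFunc ℚ) (q ^ ((4 : ℕ) : ℤ)) k ≠ 0 := by
  refine poch_qz_ne fun i => ?_
  push_cast
  positivity

/-- the exact relation between two blocks -/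
theorem T_shift (c : ℤ × ℤ) (k : ℕ) : T n c (n + k) =
    ((q ^ (1 + n * (1 * c.1 + 0 * c.2) : ℤ)) ^ n *
      (poch (q ^ ((4 : ℕ) : ℤ)) (q ^ (2 + n * (-6 * c.1 + 1 * c.2) : ℤ)) n *
        poch (q ^ ((4 : ℕ) : ℤ)) (q ^ (2 + n * (2 * c.1 + 1 * c.2) : ℤ)) n ^ 2) *
      (poch (q ^ ((4 : ℕ) : ℤ)) (q ^ (4 + n * (0 * c.1 + 1 * c.2) : ℤ)) n)⁻¹ ^ 3) * T n (c.1, c.2 + 4) k := by
  have hB : ∀ a : ℤ, (q ^ a : RatFunc ℚ) * (q ^ ((4 : ℕ) : ℤ)) ^ n = q ^ (a + 4 * n) := by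
    intro a
    rw [qz_pow, ← zpow_add₀ q_ne]
    push_cast
    rfl
  rw [T, T, poch_add, poch_add, poch_add, hB, hB, hB, pow_add]
  have e1 : (2 : ℤ) + n * (-6 * c.1 + 1 * c.2) + 4 * n = 2 + n * (-6 * c.1 + 1 * (c.2 + 4)) := by ring
  have e2 : (2 : ℤ) + n * (2 * c.1 + 1 * c.2) + 4 * n = 2 + n * (2 * c.1 + 1 * (c.2 + 4)) := by ring
  have e3 : (4 : ℤ) + n * (0 * c.1 + 1 * c.2) + 4 * n = 4 + n * (0 * c.1 + 1 * (c.2 + 4)) := by ring
  have e4 : (4 * ((n + k : ℕ) : ℤ) + 1 : ℤ) + n * (0 * c.1 + 1 * c.2) =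
      (4 * k + 1 : ℤ) + n * (0 * c.1 + 1 * (c.2 + 4)) := by push_cast; ring
  have e5 : (1 : ℤ) + n * (1 * c.1 + 0 * c.2) = 1 + n * (1 * c.1 + 0 * (c.2 + 4)) := by ring
  simp only [e1, e2, e3, e4]
  rw [mul_inv]
  simp only [← e5]
  ring

/-- the constant -/
def C0 (n : ℕ) : RatFunc ℚ :=
  (q ^ (1 + n * (1 * 1 + 0 * 0) : ℤ)) ^ n *
      (poch (q ^ ((4 : ℕ) : ℤ)) (q ^ (2 + n * (-6 * 1 + 1 * 0) : ℤ)) n *
        poch (q ^ ((4 : ℕ) : ℤ)) (q ^ (2 + n * (2 * 1 + 1 * 0) : ℤ)) n ^ 2) *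
      (poch (q ^ ((4 : ℕ) : ℤ)) (q ^ (4 + n * (0 * 1 + 1 * 0) : ℤ)) n)⁻¹ ^ 3

theorem C0_cong (hn : n = 4 * m + 3) (hh : n = 2 * h + 1) : I n 1 (C0 n + 1) := by
  have hn0 : 0 < n := by omega
  have hhz : (n : ℤ) = 2 * h + 1 := by exact_mod_cast hh
  have hh1 : 1 ≤ h := by omega
  have en : ((n - 1 : ℕ) : ℤ) = n - 1 := by rw [Nat.cast_sub hn0]; simp
  have r1 := cyc_ratio hn0 (β := 4) (a := 2 + n * (-6 * 1 + 1 * 0)) (d := 4 + n * (0 * 1 + 1 * 0))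
    (e0 := -4) (e1 := 4) (j := h) (j' := n - 1) (by omega) (by omega)
    (by push_cast; linear_combination -2 * hhz) (by rw [en]; push_cast; ring) (cop4 hn) (by norm_num)
  have r2 := cyc_ratio hn0 (β := 4) (a := 2 + n * (2 * 1 + 1 * 0)) (d := 4 + n * (0 * 1 + 1 * 0))
    (e0 := 4) (e1 := 4) (j := h) (j' := n - 1) (by omega) (by omega)
    (by push_cast; linear_combination -2 * hhz) (by rw [en]; push_cast; ring) (cop4 hn) (by norm_num)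
  have e : C0 n = (q ^ (1 + n * (1 * 1 + 0 * 0) : ℤ)) ^ n *
      ((poch (q ^ ((4 : ℕ) : ℤ)) (q ^ (2 + n * (-6 * 1 + 1 * 0) : ℤ)) n /
        poch (q ^ ((4 : ℕ) : ℤ)) (q ^ (4 + n * (0 * 1 + 1 * 0) : ℤ)) n) *
      ((poch (q ^ ((4 : ℕ) : ℤ)) (q ^ (2 + n * (2 * 1 + 1 * 0) : ℤ)) n /
        poch (q ^ ((4 : ℕ) : ℤ)) (q ^ (4 + n * (0 * 1 + 1 * 0) : ℤ)) n) *
      (poch (q ^ ((4 : ℕ) : ℤ)) (q ^ (2 + n * (2 * 1 + 1 * 0) : ℤ)) n /
        poch (q ^ ((4 : ℕ) : ℤ)) (q ^ (4 + n * (0 * 1 + 1 * 0) : ℤ)) n))) := by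
    rw [C0]
    simp only [div_eq_mul_inv]
    ring
  obtain ⟨m1, c1⟩ := r1
  obtain ⟨m2, c2⟩ := r2
  rw [e]
  set x1 := poch (q ^ ((4 : ℕ) : ℤ)) (q ^ (2 + n * (-6 * 1 + 1 * 0) : ℤ)) n /
        poch (q ^ ((4 : ℕ) : ℤ)) (q ^ (4 + n * (0 * 1 + 1 * 0) : ℤ)) n
  set x2 := poch (q ^ ((4 : ℕ) : ℤ)) (q ^ (2 + n * (2 * 1 + 1 * 0) : ℤ)) n /
        poch (q ^ ((4 : ℕ) : ℤ)) (q ^ (4 + n * (0 * 1 + 1 * 0) : ℤ)) n
  have hc1 : (((-4 : ℤ) : RatFunc ℚ) / ((4 : ℤ) : RatFunc ℚ)) = -1 := by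
    push_cast
    rw [neg_div, div_self (by norm_num)]
  have hc2 : (((4 : ℤ) : RatFunc ℚ) / ((4 : ℤ) : RatFunc ℚ)) = 1 := by
    rw [div_self]
    exact_mod_cast (by norm_num : (4 : RatFunc ℚ) ≠ 0)
  rw [hc1] at c1
  rw [hc2] at c2
  have c22 : I n 1 (x2 * x2 - 1 * 1) := I.mul_congr c2 c2 (one_mem _) m2
  have c3 : I n 1 (x1 * (x2 * x2) - (-1) * (1 * 1)) :=
    I.mul_congr c1 c22 (neg_mem (one_mem _)) (mul_mem m2 m2)
  have hq : I n 1 ((q ^ (1 + n * (1 * 1 + 0 * 0) : ℤ)) ^ n - 1) := by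
    rw [qz_pow]
    have := (I_one_sub hn0 (e := (1 + n * (1 * 1 + 0 * 0) : ℤ) * n) (dvd_mul_left _ _)).neg
    refine (congrArg (I n 1) ?_).mp this
    ring
  have c4 : I n 1 ((q ^ (1 + n * (1 * 1 + 0 * 0) : ℤ)) ^ n * (x1 * (x2 * x2)) - 1 * ((-1) * (1 * 1))) :=
    I.mul_congr hq c3 (one_mem _) (mul_mem m1 (mul_mem m2 m2))
  refine (congrArg (I n 1) ?_).mp c4
  ring

/-- orthogonality -/
theorem orth (hn : n = 4 * m + 3) (hh : n = 2 * h + 1) :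
    ∑ k ∈ range (n + (h + 1)), T n (1, 0) k = 0 := by
  have hn0 : 0 < n := by omega
  set B : RatFunc ℚ := q ^ ((4 : ℕ) : ℤ) with hB
  have hB0 : B ≠ 0 := qz_ne _
  set P : (RatFunc ℚ)[X] := C ((poch B B h)⁻¹ ^ 2) * (X ^ m * (1 + C q * X) * (PP B h * PP B h)) with hP
  have hdeg : P.degree < ((3 * h + 1 : ℕ) : WithBot ℕ) := by
    refine lt_of_le_of_lt degree_le_natDegree ?_
    have h1 : P.natDegree ≤ m + 1 + (h + h) := by
      rw [hP]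
      refine (natDegree_C_mul_le _ _).trans ?_
      refine natDegree_mul_le.trans ?_
      have a1 : (X ^ m * (1 + C q * X) : (RatFunc ℚ)[X]).natDegree ≤ m + 1 := by compute_degree
      have a2 : (PP B h * PP B h).natDegree ≤ h + h :=
        natDegree_mul_le.trans (Nat.add_le_add (PP_natDegree B h) (PP_natDegree B h))
      exact Nat.add_le_add a1 a2
    exact_mod_cast (lt_of_le_of_lt h1 (by omega))
  have key := orthB hB0 Bk_ne (3 * h + 1) P hdeg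
  rw [show n + (h + 1) = 3 * h + 1 + 1 by omega, ← key]
  refine sum_congr rfl fun k _ => ?_
  have hmz : (n : ℤ) = 4 * m + 3 := by exact_mod_cast hn
  have hhz : (n : ℤ) = 2 * h + 1 := by exact_mod_cast hh
  have e1 : (q ^ (1 + n * (1 * (1, (0 : ℤ)).1 + 0 * (1, (0 : ℤ)).2) : ℤ) : RatFunc ℚ) ^ k = B ^ k * (B ^ k) ^ m := by
    rw [hB]
    simp only [qz_pow, ← zpow_add₀ q_ne]
    congr 1
    push_cast
    linear_combination (k : ℤ) * hmz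
  have e2 : (q ^ (2 + n * (-6 * (1, (0 : ℤ)).1 + 1 * (1, (0 : ℤ)).2) : ℤ) : RatFunc ℚ) = (B ^ (3 * h + 1))⁻¹ := by
    rw [hB, qz_pow, ← zpow_neg]
    congr 1
    push_cast
    linear_combination (-6) * hhz
  have e3 : (q ^ (2 + n * (2 * (1, (0 : ℤ)).1 + 1 * (1, (0 : ℤ)).2) : ℤ) : RatFunc ℚ) = B * B ^ h := by
    rw [← pow_succ', hB, qz_pow]
    congr 1
    push_cast
    linear_combination 2 * hhz
  have e4 : (q ^ (4 + n * (0 * (1, (0 : ℤ)).1 + 1 * (1, (0 : ℤ)).2) : ℤ) : RatFunc ℚ) = B := by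
    rw [hB]
    congr 1
  have e5 : (q : RatFunc ℚ) ^ ((4 * k + 1 : ℤ) + n * (0 * (1, (0 : ℤ)).1 + 1 * (1, (0 : ℤ)).2)) = q * B ^ k := by
    rw [hB, qz_pow]
    have : (q : RatFunc ℚ) * q ^ (((4 : ℕ) : ℤ) * k) = q ^ (1 + ((4 : ℕ) : ℤ) * k) := by
      rw [zpow_add₀ q_ne, zpow_one]
    rw [this]
    congr 1
    push_cast
    ring
  rw [T, e1, e2, e3, e4, e5]
  have e6 := ratio_poly Bk_ne h k
  rw [← hB] at e6
  have e7 : P.eval (B ^ k) = (B ^ k) ^ m * (1 + q * B ^ k) *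
      (poch B (B * B ^ h) k / poch B B k * (poch B (B * B ^ h) k / poch B B k)) := by
    rw [e6, hP]
    simp only [eval_mul, eval_C, eval_pow, eval_X, eval_add, eval_one]
    rw [div_eq_mul_inv]
    ring
  rw [e7]
  simp only [div_eq_mul_inv]
  ring

theorem H2 (hn : n = 4 * m + 3) (hh : n = 2 * h + 1) :
    ∃ c, I n 1 (c + 1) ∧ G n (1, 0) + c * G n (1, ((4 : ℕ) : ℤ)) = 0 := by
  refine ⟨C0 n, C0_cong hn hh, ?_⟩
  have h1 := orth hn hh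
  rw [sum_range_add] at h1
  have hhz : (n : ℤ) = 2 * h + 1 := by exact_mod_cast hh
  have h2 : G n (1, ((4 : ℕ) : ℤ)) = ∑ k ∈ range (h + 1), T n (1, ((4 : ℕ) : ℤ)) k := by
    rw [G]
    have e : n = (h + 1) + h := by omega
    rw [← Finset.sum_range_add_sum_Ico _ (show h + 1 ≤ n by omega)]
    rw [Finset.sum_eq_zero (s := Ico (h + 1) n), add_zero]
    intro k hk
    rw [mem_Ico] at hk
    have : poch (q ^ ((4 : ℕ) : ℤ)) (q ^ (2 + n * (-6 * (1, ((4 : ℕ) : ℤ)).1 + 1 * (1, ((4 : ℕ) : ℤ)).2) : ℤ) : RatFunc ℚ) k = 0 := by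
      rw [poch, prod_eq_zero (i := h) (mem_range.2 (by omega))]
      rw [qz_pow, ← zpow_add₀ q_ne]
      have : (2 + (n : ℤ) * (-6 * (1, ((4 : ℕ) : ℤ)).1 + 1 * (1, ((4 : ℕ) : ℤ)).2) + ((4 : ℕ) : ℤ) * h) = 0 := by
        push_cast
        linear_combination (-2) * hhz
      rw [this, zpow_zero, sub_self]
    rw [T, this]
    simp
  have h3 : ∑ k ∈ range (h + 1), T n (1, 0) (n + k) = C0 n * G n (1, ((4 : ℕ) : ℤ)) := by
    rw [h2, mul_sum]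
    refine sum_congr rfl fun k _ => ?_
    rw [T_shift, C0]
    rfl
  rw [h3] at h1
  exact h1

theorem G_van (hn : n = 4 * m + 3) (hh : n = 2 * h + 1) (t : ℤ) : I n 2 (G n (0, t)) := by
  refine vanish (G_AQ hn) 4 (by norm_num) 2 (fun t => ⟨cr n h t, cr_cong hn hh t, ?_⟩) (H2 hn hh) t
  have h1 := G_Gh hn hh t
  have h2 := G_Gh hn hh (-2 - t)
  have hc : cr n h t ∈ R n := by
    have := sub_mem (cr_cong hn hh t).mem (one_mem (R n))
    rwa [add_sub_cancel_right] at this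
  have h3 := I.R_mul hc h2
  have h4 := h1.sub h3
  refine (congrArg (I n 2) ?_).mp h4
  rw [Gh_rev hn hh t]
  push_cast
  ring

theorem Gh_van (hn : n = 4 * m + 3) (hh : n = 2 * h + 1) (t : ℤ) : I n 2 (Gh n h t) := by
  have h1 := (G_van hn hh t).sub (G_Gh hn hh t)
  rwa [sub_sub_cancel] at h1

/-! ### the sum itself -/

/-- the term -/
def tt (k : ℕ) : RatFunc ℚ :=
  q ^ k * ((1 + q ^ (4 * k + 1)) * (∏ i ∈ range k, (1 - q ^ 2 * (q ^ 4) ^ i)) ^ 3) /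
    ((1 + q) * (∏ i ∈ range k, (1 - q ^ 4 * (q ^ 4) ^ i)) ^ 3)

def pre (n j : ℕ) : RatFunc ℚ :=
  q ^ (j * n) * (poch (q ^ ((4 : ℕ) : ℤ)) (q ^ (2 : ℤ)) (j * n) / poch (q ^ ((4 : ℕ) : ℤ)) (q ^ (4 : ℤ)) (j * n)) ^ 3

theorem pre_mem (hn : n = 4 * m + 3) (hh : n = 2 * h + 1) (j : ℕ) : pre n j ∈ R n := by
  have hn0 : 0 < n := by omega
  have hhz : (n : ℤ) = 2 * h + 1 := by exact_mod_cast hh
  have en : ((n - 1 : ℕ) : ℤ) = n - 1 := by rw [Nat.cast_sub hn0]; simp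
  have key : poch (q ^ ((4 : ℕ) : ℤ)) (q ^ (2 : ℤ)) (j * n) / poch (q ^ ((4 : ℕ) : ℤ)) (q ^ (4 : ℤ)) (j * n) ∈ R n := by
    induction j with
    | zero => simp
    | succ j ih =>
      have hB : ∀ a : ℤ, (q ^ a : RatFunc ℚ) * (q ^ ((4 : ℕ) : ℤ)) ^ (j * n) = q ^ (a + 4 * (j * n)) := by
        intro a
        rw [qz_pow, ← zpow_add₀ q_ne]
        push_cast
        rfl
      rw [show (j + 1) * n = j * n + n by ring, poch_add, poch_add, hB, hB, mul_div_mul_comm]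
      refine mul_mem ih ?_
      exact (cyc_ratio hn0 (β := 4) (a := 2 + 4 * (j * n)) (d := 4 + 4 * (j * n))
        (e0 := 4 * j + 2) (e1 := 4 * j + 4) (j := h) (j' := n - 1) (by omega) (by omega)
        (by push_cast; linear_combination -2 * hhz) (by rw [en]; push_cast; ring) (cop4 hn) (by omega)).1
  exact mul_mem (pow_mem q_mem _) (pow_mem key 3)

theorem tt_block (j k : ℕ) : tt (j * n + k) = (1 + q)⁻¹ * pre n j * T n (0, 4 * j) k := by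
  have hnat : ∀ (b a : ℕ) (l : ℕ), ∏ i ∈ range l, ((1 : RatFunc ℚ) - q ^ a * (q ^ b) ^ i) =
      poch (q ^ ((b : ℕ) : ℤ)) (q ^ ((a : ℕ) : ℤ)) l := by
    intro b a l
    rw [poch, zpow_natCast, zpow_natCast]
  rw [tt, hnat, hnat, T_zero, W, pre]
  have hB : ∀ a : ℤ, (q ^ a : RatFunc ℚ) * (q ^ ((4 : ℕ) : ℤ)) ^ (j * n) = q ^ (a + n * (4 * j)) := by
    intro a
    rw [qz_pow, ← zpow_add₀ q_ne]
    congr 1
    push_cast
    ring
  rw [poch_add, poch_add, hB, hB]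
  have e1 : (q : RatFunc ℚ) ^ (4 * (j * n + k) + 1) = q ^ ((4 * k + 1 : ℤ) + n * (4 * j)) := by
    rw [← zpow_natCast]
    congr 1
    push_cast
    ring
  rw [e1, pow_add]
  simp only [Nat.cast_ofNat, div_eq_mul_inv, mul_inv, mul_pow, inv_pow]
  ring

theorem one_add_q_inv (hn : n = 4 * m + 3) : ((1 : RatFunc ℚ) + q)⁻¹ ∈ R n := by
  have h1 : ((1 : RatFunc ℚ) + q)⁻¹ = (1 - q) * (1 - q ^ 2)⁻¹ := by
    have h2 : (1 : RatFunc ℚ) - q ^ 2 ≠ 0 := one_sub_ne (by norm_num)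
    have h3 : (1 : RatFunc ℚ) + q ≠ 0 := by
      intro h0
      apply h2
      linear_combination (1 - q) * h0
    field_simp
    ring
  rw [h1]
  refine mul_mem (sub_mem (one_mem _) q_mem) (inv_one_sub (by omega) fun hd => ?_)
  have := Nat.le_of_dvd (by norm_num) hd
  omega

theorem sum_full (hn : n = 4 * m + 3) (hh : n = 2 * h + 1) (r : ℕ) :
    I n 2 (∑ k ∈ range (r * n), tt k) := by
  induction r with
  | zero => simpa using I.zero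
  | succ r ih =>
    rw [show (r + 1) * n = r * n + n by ring, sum_range_add]
    refine ih.add ?_
    have e : ∑ k ∈ range n, tt (r * n + k) = (1 + q)⁻¹ * pre n r * G n (0, 4 * r) := by
      rw [G, mul_sum]
      exact sum_congr rfl fun k _ => tt_block r k
    rw [e]
    exact I.R_mul (mul_mem (one_add_q_inv hn) (pre_mem hn hh r)) (G_van hn hh _)

theorem sum_half (hn : n = 4 * m + 3) (hh : n = 2 * h + 1) (r : ℕ) :
    I n 2 (∑ k ∈ range (r * n + (h + 1)), tt k) := by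
  rw [sum_range_add]
  refine (sum_full hn hh r).add ?_
  have e : ∑ k ∈ range (h + 1), tt (r * n + k) = (1 + q)⁻¹ * pre n r * Gh n h (4 * r) := by
    rw [Gh, mul_sum]
    exact sum_congr rfl fun k _ => tt_block r k
  rw [e]
  exact I.R_mul (mul_mem (one_add_q_inv hn) (pre_mem hn hh r)) (Gh_van hn hh _)

end

end V11316.M846
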