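import Pool.Agent.V11316.I2

/-!
The quotient `(q^{a+nx};q^{2a})_k/(q^{2a+nx};q^{2a})_k`: reversal and its value modulo `Φ_n`.
-/

open Finset Polynomial

namespace V11316.Per

open V11307.Q V11316

noncomputable section

variable {n h a : ℕ}

/-- the quotient of the factorials -/
def WW (n a : ℕ) (x : ℤ) (k : ℕ) : RatFunc ℚ :=
  poch (q ^ ((2 * a : ℕ) : ℤ)) (q ^ (a + n * x : ℤ)) k / poch (q ^ ((2 * a : ℕ) : ℤ)) (q ^ (2 * a + n * x : ℤ)) k

/-- `gcd(n, 2a) = 1` -/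
def Cop (n a : ℕ) : Prop := IsCoprime (n : ℤ) ((2 * a : ℕ) : ℤ)

theorem nd_of (hc : Cop n a) {i : ℕ} (hi : i + 1 < n) : ¬ (n : ℤ) ∣ 2 * a + ((2 * a : ℕ) : ℤ) * i := by
  intro hd
  have e : (2 * a : ℤ) + ((2 * a : ℕ) : ℤ) * i = ((2 * a : ℕ) : ℤ) * (i + 1) := by push_cast; ring
  rw [e] at hd
  have h2 := hc.dvd_of_dvd_mul_left hd
  have h3 := Int.le_of_dvd (by positivity) h2
  omega

theorem WWden_U (hn : 0 < n) (hc : Cop n a) (x : ℤ) {k : ℕ} (hk : k < n) :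
    IsU n (poch (q ^ ((2 * a : ℕ) : ℤ)) (q ^ (2 * a + n * x : ℤ)) k) :=
  poch_unit hn fun i hi => nd_of hc (by omega)

theorem WW_mem (hn : 0 < n) (hc : Cop n a) (x : ℤ) {k : ℕ} (hk : k < n) : WW n a x k ∈ R n := by
  rw [WW, div_eq_mul_inv]
  exact mul_mem (poch_mem hn _ _ _) (WWden_U hn hc x hk).2.2

/-- beyond `h` the quotient is divisible by `Φ` -/
theorem WW_small (hn : 0 < n) (hc : Cop n a) (hh : n = 2 * h + 1) (x : ℤ) {k : ℕ} (hk : k < n) (hk' : h < k) :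
    I n 1 (WW n a x k) := by
  rw [WW, div_eq_mul_inv]
  refine I.mul_R (poch_I hn hk' ?_) (WWden_U hn hc x hk).2.2
  refine ⟨x + a, ?_⟩
  have : (n : ℤ) = 2 * h + 1 := by exact_mod_cast hh
  push_cast
  linear_combination -(a : ℤ) * this

theorem WW_rev (hn : 0 < n) (hc : Cop n a) (hh : n = 2 * h + 1) (hh1 : 1 ≤ h) (x : ℤ) {k : ℕ} (hk : k ≤ h) :
    WW n a x (h - k) = WW n a x h * q ^ (a * k) * WW n a (-a - x) k := by
  have hhz : (n : ℤ) = 2 * h + 1 := by exact_mod_cast hh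
  have e1 : ((h - 1 : ℕ) : ℤ) = h - 1 := by rw [Nat.cast_sub hh1]; simp
  set B : RatFunc ℚ := q ^ ((2 * a : ℕ) : ℤ) with hB
  have p1 := poch_rev B (q ^ (a + n * x : ℤ)) (q ^ (2 * a + n * (-a - x) : ℤ)) h k hk
    (by
      rw [hB, qz_pow, ← zpow_add₀ q_ne, ← zpow_add₀ q_ne]
      have : (2 * a + (n : ℤ) * (-a - x) + (a + n * x) + ((2 * a : ℕ) : ℤ) * ((h - 1 : ℕ) : ℤ)) = 0 := by
        rw [e1, hhz]; push_cast; ring
      rw [this, zpow_zero])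
    (qz_ne _)
  have p2 := poch_rev B (q ^ (2 * a + n * x : ℤ)) (q ^ (a + n * (-a - x) : ℤ)) h k hk
    (by
      rw [hB, qz_pow, ← zpow_add₀ q_ne, ← zpow_add₀ q_ne]
      have : (a + (n : ℤ) * (-a - x) + (2 * a + n * x) + ((2 * a : ℕ) : ℤ) * ((h - 1 : ℕ) : ℤ)) = 0 := by
        rw [e1, hhz]; push_cast; ring
      rw [this, zpow_zero])
    (qz_ne _)
  have d1 := (WWden_U hn hc x (show h < n by omega)).1
  have d2 := (WWden_U hn hc x (show h - k < n by omega)).1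
  have d3 := (WWden_U hn hc (-a - x) (show k < n by omega)).1
  have eu : (q ^ (2 * a + n * x : ℤ) : RatFunc ℚ) = q ^ (a + n * x : ℤ) * q ^ a := by
    rw [← zpow_natCast q a, ← zpow_add₀ q_ne]
    congr 1; ring
  have hu0 : (q ^ (a + n * x : ℤ) : RatFunc ℚ) ≠ 0 := qz_ne _
  rw [WW, WW, WW, ← hB, p1, p2]
  rw [← hB] at d1 d2 d3
  rw [p2] at d1
  have d4 : poch B (q ^ (a + n * (-a - x) : ℤ)) k ≠ 0 := by
    intro h0
    apply d1
    rw [h0, mul_zero]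
  have ek : (q ^ (2 * a + n * x : ℤ) : RatFunc ℚ) ^ k = (q ^ (a + n * x : ℤ)) ^ k * q ^ (a * k) := by
    rw [eu, mul_pow, ← pow_mul]
  have hP : ∏ i ∈ range k, (-B ^ (h - 1 - i)) ≠ 0 := by
    rw [prod_ne_zero_iff]
    intro i _
    exact neg_ne_zero.2 (pow_ne_zero _ (qz_ne _))
  rw [ek]
  generalize poch B (q ^ (2 * a + n * (-a - x) : ℤ)) k = X1 at *
  generalize poch B (q ^ (a + n * (-a - x) : ℤ)) k = X2 at *
  generalize poch B (q ^ (2 * a + n * x : ℤ)) (h - k) = X3 at *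
  generalize poch B (q ^ (a + n * x : ℤ)) (h - k) = X4 at *
  generalize (∏ i ∈ range k, (-B ^ (h - 1 - i))) = X5 at *
  have d7 : (q ^ (a + n * x : ℤ) : RatFunc ℚ) ^ k ≠ 0 := pow_ne_zero _ hu0
  generalize (q ^ (a + n * x : ℤ) : RatFunc ℚ) ^ k = X6 at *
  have d8 : (q : RatFunc ℚ) ^ (a * k) ≠ 0 := pow_ne_zero _ q_ne
  generalize (q : RatFunc ℚ) ^ (a * k) = X7 at *
  field_simp

/-- the value modulo `Φ` -/
theorem WW_cong (hn : 0 < n) (hc : Cop n a) (hh : n = 2 * h + 1) (hh1 : 1 ≤ h) (x : ℤ) :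
    I n 1 (WW n a x h - (-1) ^ h * q ^ (a * h ^ 2)) := by
  have hhz : (n : ℤ) = 2 * h + 1 := by exact_mod_cast hh
  have e1 : ((h - 1 : ℕ) : ℤ) = h - 1 := by rw [Nat.cast_sub hh1]; simp
  set B : RatFunc ℚ := q ^ ((2 * a : ℕ) : ℤ) with hB
  have p1 := poch_rev B (q ^ (a + n * x : ℤ)) (q ^ (2 * a + n * (-a - x) : ℤ)) h h le_rfl
    (by
      rw [hB, qz_pow, ← zpow_add₀ q_ne, ← zpow_add₀ q_ne]
      have : (2 * a + (n : ℤ) * (-a - x) + (a + n * x) + ((2 * a : ℕ) : ℤ) * ((h - 1 : ℕ) : ℤ)) = 0 := by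
        rw [e1, hhz]; push_cast; ring
      rw [this, zpow_zero])
    (qz_ne _)
  rw [Nat.sub_self, poch_zero, one_mul] at p1
  have hprod : ∏ i ∈ range h, (-B ^ (h - 1 - i)) = (-1) ^ h * q ^ ((a * h * (h - 1) : ℕ) : ℤ) := by
    rw [Finset.prod_neg, card_range, prod_pow_eq_pow_sum]
    rw [Finset.sum_range_reflect (fun i => i) h]
    rw [hB, qz_pow]
    congr 2
    have := Finset.sum_range_id_mul_two h
    push_cast
    have h2 : ((∑ i ∈ range h, i : ℕ) : ℤ) * 2 = h * ((h - 1 : ℕ) : ℤ) := by exact_mod_cast this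
    push_cast at h2
    linear_combination (a : ℤ) * h2
  rw [hprod, qz_pow] at p1
  have hcong : I n 1 (poch B (q ^ (2 * a + n * (-a - x) : ℤ)) h - poch B (q ^ (2 * a + n * x : ℤ)) h) := by
    rw [poch, poch]
    refine I.prod_congr (fun i _ => ?_) (fun i _ => ?_) (fun i _ => ?_)
    · have : I n 1 ((q : RatFunc ℚ) ^ (2 * a + n * x : ℤ) - q ^ (2 * a + n * (-a - x) : ℤ)) :=
        qz_congr hn ⟨2 * x + a, by ring⟩
      have := this.mul_R (pow_mem (qz_mem hn ((2 * a : ℕ) : ℤ)) i)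
      refine (congrArg (I n 1) ?_).mp this
      rw [hB]; ring
    · exact sub_mem (one_mem _) (mul_mem (qz_mem hn _) (pow_mem (qz_mem hn _) _))
    · exact sub_mem (one_mem _) (mul_mem (qz_mem hn _) (pow_mem (qz_mem hn _) _))
  have d1 := WWden_U hn hc x (show h < n by omega)
  rw [← hB] at d1
  have h3 := hcong.mul_R d1.2.2
  have h4 : I n 1 ((-1) ^ h * (q ^ ((a + n * x) * h + ((a * h * (h - 1) : ℕ) : ℤ)) : RatFunc ℚ) -
      (-1) ^ h * q ^ (a * h ^ 2)) := by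
    have e8 : (q : RatFunc ℚ) ^ (a * h ^ 2) = q ^ ((a * h ^ 2 : ℕ) : ℤ) := by rw [zpow_natCast]
    rw [e8, ← mul_sub]
    refine I.R_mul (pow_mem (neg_mem (one_mem _)) _) ?_
    apply qz_congr hn
    refine ⟨x * h, ?_⟩
    push_cast [Nat.cast_sub hh1]
    ring
  have h5 : WW n a x h = ((-1) ^ h * q ^ ((a + n * x) * h + ((a * h * (h - 1) : ℕ) : ℤ))) *
      (poch B (q ^ (2 * a + n * (-a - x) : ℤ)) h * (poch B (q ^ (2 * a + n * x : ℤ)) h)⁻¹) := by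
    have e10 := zpow_add₀ (q_ne) ((a + n * x) * h) ((a * h * (h - 1) : ℕ) : ℤ)
    rw [WW, ← hB, p1, e10, div_eq_mul_inv]
    generalize (q : RatFunc ℚ) ^ ((a + (n : ℤ) * x) * h) = Y1
    generalize (q : RatFunc ℚ) ^ ((a * h * (h - 1) : ℕ) : ℤ) = Y2
    generalize poch B (q ^ (2 * a + n * (-a - x) : ℤ)) h = Y3
    generalize (poch B (q ^ (2 * a + n * x : ℤ)) h)⁻¹ = Y4
    ring
  have h6 : I n 1 (poch B (q ^ (2 * a + n * (-a - x) : ℤ)) h * (poch B (q ^ (2 * a + n * x : ℤ)) h)⁻¹ - 1) := by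
    refine (congrArg (I n 1) ?_).mp h3
    rw [sub_mul, mul_inv_cancel₀ d1.1]
  have h7 := I.R_mul (mul_mem (pow_mem (neg_mem (one_mem (R n))) h)
    (qz_mem hn ((a + n * x) * h + ((a * h * (h - 1) : ℕ) : ℤ)))) h6
  have h8 := h7.add h4
  refine (congrArg (I n 1) ?_).mp h8
  rw [h5]
  ring

end

end V11316.Per
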