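import Pool.Agent.V11316.J0

/-!
The sum with `q^{2k} (q;q^2)_k^2 (q^2;q^4)_k / ((q^2;q^2)_k^2 (q^4;q^4)_k)`.
-/

open Finset Polynomial

namespace V11316.M5ca

open V11307.Q V11316 V11316.Per

noncomputable section

/-- the family -/
def T (n : ℕ) (c : ℤ × ℤ) (k : ℕ) : RatFunc ℚ :=
  (q ^ 2) ^ k *
    (poch (q ^ ((2 * 1 : ℕ) : ℤ)) (q ^ (1 + n * (-3 * c.1 + 1 * c.2) : ℤ)) k *
      poch (q ^ ((2 * 1 : ℕ) : ℤ)) (q ^ (1 + n * (1 * c.1 + 1 * c.2) : ℤ)) k *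
      poch (q ^ ((2 * 2 : ℕ) : ℤ)) (q ^ (2 + n * (2 * c.1 + 2 * c.2) : ℤ)) k) *
      ((poch (q ^ ((2 * 1 : ℕ) : ℤ)) (q ^ (2 + n * (0 * c.1 + 1 * c.2) : ℤ)) k)⁻¹ ^ 2 *
        (poch (q ^ ((2 * 2 : ℕ) : ℤ)) (q ^ (4 + n * (0 * c.1 + 2 * c.2) : ℤ)) k)⁻¹)

def G (n : ℕ) (c : ℤ × ℤ) : RatFunc ℚ := ∑ k ∈ range n, T n c k

variable {m n h : ℕ}

theorem cop1 (hn : n = 4 * m + 3) : Cop n 1 := ⟨1, -(2 * m + 1), by rw [hn]; push_cast; ring⟩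
theorem cop2 (hn : n = 4 * m + 3) : Cop n 2 := ⟨-1, m + 1, by rw [hn]; push_cast; ring⟩

theorem nd2 (hn : n = 4 * m + 3) {i : ℕ} (hi : i + 1 < n) : ¬ (n : ℤ) ∣ 2 + ((2 * 1 : ℕ) : ℤ) * i := by
  have := nd_of (cop1 hn) hi
  simpa using this

theorem nd4 (hn : n = 4 * m + 3) {i : ℕ} (hi : i + 1 < n) : ¬ (n : ℤ) ∣ 4 + ((2 * 2 : ℕ) : ℤ) * i := by
  have := nd_of (cop2 hn) hi
  have e : (2 : ℤ) * ((2 : ℕ) : ℤ) = 4 := by norm_num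
  rwa [e] at this

theorem T_AQ (hn : n = 4 * m + 3) {k : ℕ} (hk : k < n) {l : ℕ} : AQ n l (fun c => T n c k) := by
  have hn0 : 0 < n := by omega
  have h1 : AQ n l (fun _ : ℤ × ℤ => ((q : RatFunc ℚ) ^ 2) ^ k) := An.const (pow_mem (pow_mem q_mem _) _)
  have h3 : AQ n l (fun c : ℤ × ℤ => poch (q ^ ((2 * 1 : ℕ) : ℤ)) (q ^ (1 + n * (-3 * c.1 + 1 * c.2) : ℤ)) k) :=
    AQ_poch (qz_mem hn0 _) (AQ_exp hn0 1 (-3) 1) k
  have h4 : AQ n l (fun c : ℤ × ℤ => poch (q ^ ((2 * 1 : ℕ) : ℤ)) (q ^ (1 + n * (1 * c.1 + 1 * c.2) : ℤ)) k) :=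
    AQ_poch (qz_mem hn0 _) (AQ_exp hn0 1 1 1) k
  have h5 : AQ n l (fun c : ℤ × ℤ => poch (q ^ ((2 * 2 : ℕ) : ℤ)) (q ^ (2 + n * (2 * c.1 + 2 * c.2) : ℤ)) k) :=
    AQ_poch (qz_mem hn0 _) (AQ_exp hn0 2 2 2) k
  have h6 : AQ n l (fun c : ℤ × ℤ => (poch (q ^ ((2 * 1 : ℕ) : ℤ)) (q ^ (2 + n * (0 * c.1 + 1 * c.2) : ℤ)) k)⁻¹ ^ 2) :=
    An.pow (AQ_pinv hn0 fun i hi => nd2 hn (by omega)) 2
  have h7 : AQ n l (fun c : ℤ × ℤ => (poch (q ^ ((2 * 2 : ℕ) : ℤ)) (q ^ (4 + n * (0 * c.1 + 2 * c.2) : ℤ)) k)⁻¹) :=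
    AQ_pinv hn0 fun i hi => nd4 hn (by omega)
  exact (h1.mul ((h3.mul h4).mul h5)).mul (h6.mul h7)

theorem G_AQ (hn : n = 4 * m + 3) {l : ℕ} : AQ n l (G n) :=
  An.sum (range n) fun k hk => T_AQ hn (mem_range.1 hk)

theorem T_zero (t : ℤ) (k : ℕ) : T n (0, t) k = (q ^ 2) ^ k * (WW n 1 t k ^ 2 * WW n 2 (2 * t) k) := by
  have e1 : (((1 : ℕ) : ℤ) + n * t : ℤ) = 1 + n * t := by push_cast; ring
  have e2 : (2 * ((1 : ℕ) : ℤ) + n * t : ℤ) = 2 + n * t := by push_cast; ring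
  have e3 : (((2 : ℕ) : ℤ) + n * (2 * t) : ℤ) = 2 + n * (2 * t) := by push_cast; ring
  have e4 : (2 * ((2 : ℕ) : ℤ) + n * (2 * t) : ℤ) = 4 + n * (2 * t) := by push_cast; ring
  rw [T, WW, WW, e1, e2, e3, e4]
  simp only [mul_zero, zero_mul, zero_add, one_mul, div_eq_mul_inv, mul_pow]
  ring

theorem T0_small (hn : n = 4 * m + 3) (hh : n = 2 * h + 1) (t : ℤ) {k : ℕ} (hk : k < n) (hk' : h < k) :
    I n 2 (T n (0, t) k) := by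
  have hn0 : 0 < n := by omega
  rw [T_zero]
  have h1 := WW_small hn0 (cop1 hn) hh t hk hk'
  have h2 : I n 2 (WW n 1 t k ^ 2) := by
    have e : WW n 1 t k ^ 2 = WW n 1 t k * WW n 1 t k := by ring
    rw [e]
    exact h1.mul h1
  exact I.R_mul (pow_mem (pow_mem q_mem _) _) (h2.mul_R (WW_mem hn0 (cop2 hn) _ hk))

def Gh (n h : ℕ) (t : ℤ) : RatFunc ℚ := ∑ k ∈ range (h + 1), T n (0, t) k

theorem G_Gh (hn : n = 4 * m + 3) (hh : n = 2 * h + 1) (t : ℤ) : I n 2 (G n (0, t) - Gh n h t) := by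
  have e : G n (0, t) - Gh n h t = ∑ k ∈ Ico (h + 1) n, T n (0, t) k := by
    rw [G, Gh, Finset.sum_Ico_eq_sub _ (by omega)]
  rw [e]
  refine I.sum fun k hk => ?_
  rw [mem_Ico] at hk
  exact T0_small hn hh t hk.2 (by omega)

/-- the factor of the reversal -/
def cr (n h : ℕ) (t : ℤ) : RatFunc ℚ := (q ^ 2) ^ h * (WW n 1 t h ^ 2 * WW n 2 (2 * t) h)

theorem T_rev (hn : n = 4 * m + 3) (hh : n = 2 * h + 1) (t : ℤ) {k : ℕ} (hk : k ≤ h) :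
    T n (0, t) (h - k) = cr n h t * T n (0, -1 - t) k := by
  have hn0 : 0 < n := by omega
  rw [T_zero, T_zero, WW_rev hn0 (cop1 hn) hh (by omega) t hk,
    WW_rev hn0 (cop2 hn) hh (by omega) (2 * t) hk, cr]
  have e1 : (-((1 : ℕ) : ℤ) - t) = -1 - t := by push_cast; ring
  have e2 : (-((2 : ℕ) : ℤ) - 2 * t) = 2 * (-1 - t) := by push_cast; ring
  rw [e1, e2]
  have e3 : ((q : RatFunc ℚ) ^ 2) ^ h = (q ^ 2) ^ (h - k) * (q ^ 2) ^ k := by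
    rw [← pow_add, Nat.sub_add_cancel hk]
  rw [e3]
  have e4 : (q : RatFunc ℚ) ^ (1 * k) = q ^ k := by rw [one_mul]
  have e5 : (q : RatFunc ℚ) ^ (2 * k) = (q ^ 2) ^ k := by rw [pow_mul]
  have e6 : ((q : RatFunc ℚ) ^ 2) ^ k = q ^ k * q ^ k := by rw [← pow_mul, ← pow_add]; congr 1; ring
  rw [e4, e5, e6]
  ring

theorem Gh_rev (hn : n = 4 * m + 3) (hh : n = 2 * h + 1) (t : ℤ) :
    Gh n h t = cr n h t * Gh n h (-1 - t) := by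
  rw [Gh, Gh, ← sum_range_reflect, mul_sum]
  refine sum_congr rfl fun k hk => ?_
  have hk' : k ≤ h := Nat.lt_succ_iff.1 (mem_range.1 hk)
  rw [show h + 1 - 1 - k = h - k by omega]
  exact T_rev hn hh t hk'

theorem cr_cong (hn : n = 4 * m + 3) (hh : n = 2 * h + 1) (t : ℤ) : I n 1 (cr n h t + 1) := by
  have hn0 : 0 < n := by omega
  have hhz : (n : ℤ) = 2 * h + 1 := by exact_mod_cast hh
  have hh1 : 1 ≤ h := by omega
  have hodd : Odd h := ⟨m, by omega⟩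
  have c1 := WW_cong hn0 (cop1 hn) hh hh1 t
  have c2 := WW_cong hn0 (cop2 hn) hh hh1 (2 * t)
  have m1 := WW_mem hn0 (cop1 hn) t (show h < n by omega)
  have m2 := WW_mem hn0 (cop2 hn) (2 * t) (show h < n by omega)
  have s1 : (-1 : RatFunc ℚ) ^ h * q ^ (1 * h ^ 2) ∈ R n :=
    mul_mem (pow_mem (neg_mem (one_mem _)) _) (pow_mem q_mem _)
  have s2 : (-1 : RatFunc ℚ) ^ h * q ^ (2 * h ^ 2) ∈ R n :=
    mul_mem (pow_mem (neg_mem (one_mem _)) _) (pow_mem q_mem _)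
  have c11 := I.mul_congr c1 c1 s1 m1
  have c3 := I.mul_congr c11 c2 (mul_mem s1 s1) m2
  have c4 := I.R_mul (pow_mem (pow_mem q_mem 2) h : ((q : RatFunc ℚ) ^ 2) ^ h ∈ R n) c3
  have c5 : I n 1 ((q : RatFunc ℚ) ^ ((2 * h + 4 * h ^ 2 : ℕ) : ℤ) - q ^ (0 : ℤ)) := by
    apply qz_congr hn0
    refine ⟨2 * h, ?_⟩
    push_cast
    linear_combination (-(2 * (h : ℤ))) * hhz
  rw [zpow_zero, zpow_natCast] at c5
  have c6 := c4.sub c5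
  refine (congrArg (I n 1) ?_).mp c6
  rw [cr, hodd.neg_one_pow]
  have e1 : (q : RatFunc ℚ) ^ (2 * h + 4 * h ^ 2) = (q ^ 2) ^ h * (q ^ (1 * h ^ 2) * q ^ (1 * h ^ 2) * q ^ (2 * h ^ 2)) := by
    rw [← pow_mul, ← pow_add, ← pow_add, ← pow_add]; congr 1; ring
  rw [e1]
  ring

/-- the exact relation between two blocks -/
theorem T_shift (c : ℤ × ℤ) (k : ℕ) : T n c (n + k) =
    ((q ^ 2) ^ n *
    (poch (q ^ ((2 * 1 : ℕ) : ℤ)) (q ^ (1 + n * (-3 * c.1 + 1 * c.2) : ℤ)) n *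
      poch (q ^ ((2 * 1 : ℕ) : ℤ)) (q ^ (1 + n * (1 * c.1 + 1 * c.2) : ℤ)) n *
      poch (q ^ ((2 * 2 : ℕ) : ℤ)) (q ^ (2 + n * (2 * c.1 + 2 * c.2) : ℤ)) n) *
      ((poch (q ^ ((2 * 1 : ℕ) : ℤ)) (q ^ (2 + n * (0 * c.1 + 1 * c.2) : ℤ)) n)⁻¹ ^ 2 *
        (poch (q ^ ((2 * 2 : ℕ) : ℤ)) (q ^ (4 + n * (0 * c.1 + 2 * c.2) : ℤ)) n)⁻¹)) *
      T n (c.1, c.2 + 2) k := by
  have hB2 : ∀ a : ℤ, (q ^ a : RatFunc ℚ) * (q ^ ((2 * 1 : ℕ) : ℤ)) ^ n = q ^ (a + 2 * n) := by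
    intro a
    rw [qz_pow, ← zpow_add₀ q_ne]
    push_cast
    rfl
  have hB4 : ∀ a : ℤ, (q ^ a : RatFunc ℚ) * (q ^ ((2 * 2 : ℕ) : ℤ)) ^ n = q ^ (a + 4 * n) := by
    intro a
    rw [qz_pow, ← zpow_add₀ q_ne]
    congr 1
  rw [T, T]
  simp only [poch_add, hB2, hB4, pow_add]
  have e1 : (1 : ℤ) + n * (-3 * c.1 + 1 * c.2) + 2 * n = 1 + n * (-3 * c.1 + 1 * (c.2 + 2)) := by ring
  have e2 : (1 : ℤ) + n * (1 * c.1 + 1 * c.2) + 2 * n = 1 + n * (1 * c.1 + 1 * (c.2 + 2)) := by ring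
  have e3 : (2 : ℤ) + n * (2 * c.1 + 2 * c.2) + 4 * n = 2 + n * (2 * c.1 + 2 * (c.2 + 2)) := by ring
  have e4 : (2 : ℤ) + n * (0 * c.1 + 1 * c.2) + 2 * n = 2 + n * (0 * c.1 + 1 * (c.2 + 2)) := by ring
  have e5 : (4 : ℤ) + n * (0 * c.1 + 2 * c.2) + 4 * n = 4 + n * (0 * c.1 + 2 * (c.2 + 2)) := by ring
  rw [e1, e2, e3, e4, e5]
  simp only [mul_inv]
  ring

/-- the constant -/
def C0 (n : ℕ) : RatFunc ℚ :=
  (q ^ 2) ^ n *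
    (poch (q ^ ((2 * 1 : ℕ) : ℤ)) (q ^ (1 + n * (-3 * 1 + 1 * 0) : ℤ)) n *
      poch (q ^ ((2 * 1 : ℕ) : ℤ)) (q ^ (1 + n * (1 * 1 + 1 * 0) : ℤ)) n *
      poch (q ^ ((2 * 2 : ℕ) : ℤ)) (q ^ (2 + n * (2 * 1 + 2 * 0) : ℤ)) n) *
      ((poch (q ^ ((2 * 1 : ℕ) : ℤ)) (q ^ (2 + n * (0 * 1 + 1 * 0) : ℤ)) n)⁻¹ ^ 2 *
        (poch (q ^ ((2 * 2 : ℕ) : ℤ)) (q ^ (4 + n * (0 * 1 + 2 * 0) : ℤ)) n)⁻¹)

theorem C0_cong (hn : n = 4 * m + 3) (hh : n = 2 * h + 1) : I n 1 (C0 n + 1) := by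
  have hn0 : 0 < n := by omega
  have hhz : (n : ℤ) = 2 * h + 1 := by exact_mod_cast hh
  have hh1 : 1 ≤ h := by omega
  have en : ((n - 1 : ℕ) : ℤ) = n - 1 := by rw [Nat.cast_sub hn0]; simp
  have r1 := cyc_ratio hn0 (β := 2 * 1) (a := 1 + n * (-3 * 1 + 1 * 0)) (d := 2 + n * (0 * 1 + 1 * 0))
    (e0 := -2) (e1 := 2) (j := h) (j' := n - 1) (by omega) (by omega)
    (by push_cast; linear_combination -1 * hhz) (by rw [en]; push_cast; ring) (cop1 hn) (by norm_num)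
  have r2 := cyc_ratio hn0 (β := 2 * 1) (a := 1 + n * (1 * 1 + 1 * 0)) (d := 2 + n * (0 * 1 + 1 * 0))
    (e0 := 2) (e1 := 2) (j := h) (j' := n - 1) (by omega) (by omega)
    (by push_cast; linear_combination -1 * hhz) (by rw [en]; push_cast; ring) (cop1 hn) (by norm_num)
  have r3 := cyc_ratio hn0 (β := 2 * 2) (a := 2 + n * (2 * 1 + 2 * 0)) (d := 4 + n * (0 * 1 + 2 * 0))
    (e0 := 4) (e1 := 4) (j := h) (j' := n - 1) (by omega) (by omega)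
    (by push_cast; linear_combination -2 * hhz) (by rw [en]; push_cast; ring) (cop2 hn) (by norm_num)
  have e : C0 n = (q ^ 2) ^ n *
      ((poch (q ^ ((2 * 1 : ℕ) : ℤ)) (q ^ (1 + n * (-3 * 1 + 1 * 0) : ℤ)) n /
        poch (q ^ ((2 * 1 : ℕ) : ℤ)) (q ^ (2 + n * (0 * 1 + 1 * 0) : ℤ)) n) *
      ((poch (q ^ ((2 * 1 : ℕ) : ℤ)) (q ^ (1 + n * (1 * 1 + 1 * 0) : ℤ)) n /
        poch (q ^ ((2 * 1 : ℕ) : ℤ)) (q ^ (2 + n * (0 * 1 + 1 * 0) : ℤ)) n) *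
      (poch (q ^ ((2 * 2 : ℕ) : ℤ)) (q ^ (2 + n * (2 * 1 + 2 * 0) : ℤ)) n /
        poch (q ^ ((2 * 2 : ℕ) : ℤ)) (q ^ (4 + n * (0 * 1 + 2 * 0) : ℤ)) n))) := by
    rw [C0]
    simp only [div_eq_mul_inv]
    ring
  obtain ⟨m1, c1⟩ := r1
  obtain ⟨m2, c2⟩ := r2
  obtain ⟨m3, c3⟩ := r3
  rw [e]
  set x1 := poch (q ^ ((2 * 1 : ℕ) : ℤ)) (q ^ (1 + n * (-3 * 1 + 1 * 0) : ℤ)) n /
        poch (q ^ ((2 * 1 : ℕ) : ℤ)) (q ^ (2 + n * (0 * 1 + 1 * 0) : ℤ)) n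
  set x2 := poch (q ^ ((2 * 1 : ℕ) : ℤ)) (q ^ (1 + n * (1 * 1 + 1 * 0) : ℤ)) n /
        poch (q ^ ((2 * 1 : ℕ) : ℤ)) (q ^ (2 + n * (0 * 1 + 1 * 0) : ℤ)) n
  set x3 := poch (q ^ ((2 * 2 : ℕ) : ℤ)) (q ^ (2 + n * (2 * 1 + 2 * 0) : ℤ)) n /
        poch (q ^ ((2 * 2 : ℕ) : ℤ)) (q ^ (4 + n * (0 * 1 + 2 * 0) : ℤ)) n
  have hc1 : (((-2 : ℤ) : RatFunc ℚ) / ((2 : ℤ) : RatFunc ℚ)) = -1 := by
    push_cast
    rw [neg_div, div_self (by norm_num)]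
  have hc2 : (((2 : ℤ) : RatFunc ℚ) / ((2 : ℤ) : RatFunc ℚ)) = 1 := by
    rw [div_self]
    exact_mod_cast (by norm_num : (2 : RatFunc ℚ) ≠ 0)
  have hc3 : (((4 : ℤ) : RatFunc ℚ) / ((4 : ℤ) : RatFunc ℚ)) = 1 := by
    rw [div_self]
    exact_mod_cast (by norm_num : (4 : RatFunc ℚ) ≠ 0)
  rw [hc1] at c1
  rw [hc2] at c2
  rw [hc3] at c3
  have c23 : I n 1 (x2 * x3 - 1 * 1) := I.mul_congr c2 c3 (one_mem _) m3
  have c4 : I n 1 (x1 * (x2 * x3) - (-1) * (1 * 1)) :=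
    I.mul_congr c1 c23 (neg_mem (one_mem _)) (mul_mem m2 m3)
  have hq : I n 1 (((q : RatFunc ℚ) ^ 2) ^ n - 1) := by
    have := (I_one_sub_nat hn0 (e := 2 * n) (dvd_mul_left _ _)).neg
    refine (congrArg (I n 1) ?_).mp this
    rw [pow_mul]
    ring
  have c5 : I n 1 ((q ^ 2) ^ n * (x1 * (x2 * x3)) - 1 * ((-1) * (1 * 1))) :=
    I.mul_congr hq c4 (one_mem _) (mul_mem m1 (mul_mem m2 m3))
  refine (congrArg (I n 1) ?_).mp c5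
  ring

theorem Bk_ne {b : ℕ} (hb : 0 < b) (k : ℕ) : poch (q ^ (b : ℤ) : RatFunc ℚ) (q ^ (b : ℤ)) k ≠ 0 := by
  refine poch_qz_ne fun i => ?_
  positivity

/-- orthogonality -/
theorem orth (hh : n = 2 * h + 1) :
    ∑ k ∈ range (n + (h + 1)), T n (1, 0) k = 0 := by
  have hn0 : 0 < n := by omega
  set B : RatFunc ℚ := q ^ ((2 * 1 : ℕ) : ℤ) with hB
  set B' : RatFunc ℚ := q ^ ((2 * 2 : ℕ) : ℤ) with hB'
  have hB0 : B ≠ 0 := qz_ne _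
  have hBB : B' = B ^ 2 := by rw [hB, hB', qz_pow]; norm_num
  set P : (RatFunc ℚ)[X] := C ((poch B B h)⁻¹ * (poch B' B' h)⁻¹) * (PP B h * (PP B' h).comp (X ^ 2)) with hP
  have hdeg : P.degree < ((3 * h + 1 : ℕ) : WithBot ℕ) := by
    refine lt_of_le_of_lt degree_le_natDegree ?_
    have h1 : P.natDegree ≤ h + h * 2 := by
      rw [hP]
      refine (natDegree_C_mul_le _ _).trans ?_
      refine natDegree_mul_le.trans ?_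
      refine Nat.add_le_add (PP_natDegree B h) ?_
      refine natDegree_comp_le.trans ?_
      rw [natDegree_X_pow]
      exact Nat.mul_le_mul_right _ (PP_natDegree B' h)
    exact_mod_cast (lt_of_le_of_lt h1 (by omega))
  have key := orthB hB0 (Bk_ne (by norm_num)) (3 * h + 1) P hdeg
  rw [show n + (h + 1) = 3 * h + 1 + 1 by omega, ← key]
  refine sum_congr rfl fun k _ => ?_
  have hhz : (n : ℤ) = 2 * h + 1 := by exact_mod_cast hh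
  have e1 : ((q : RatFunc ℚ) ^ 2) ^ k = B ^ k := by
    rw [hB]; norm_cast
  have e2 : (q ^ (1 + n * (-3 * (1, (0 : ℤ)).1 + 1 * (1, (0 : ℤ)).2) : ℤ) : RatFunc ℚ) = (B ^ (3 * h + 1))⁻¹ := by
    rw [hB, qz_pow, ← zpow_neg]
    congr 1
    push_cast
    linear_combination (-3) * hhz
  have e3 : (q ^ (1 + n * (1 * (1, (0 : ℤ)).1 + 1 * (1, (0 : ℤ)).2) : ℤ) : RatFunc ℚ) = B * B ^ h := by
    rw [← pow_succ', hB, qz_pow]
    congr 1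
    push_cast
    linear_combination hhz
  have e4 : (q ^ (2 + n * (2 * (1, (0 : ℤ)).1 + 2 * (1, (0 : ℤ)).2) : ℤ) : RatFunc ℚ) = B' * B' ^ h := by
    rw [← pow_succ', hB', qz_pow]
    congr 1
    push_cast
    linear_combination 2 * hhz
  have e5 : (q ^ (2 + n * (0 * (1, (0 : ℤ)).1 + 1 * (1, (0 : ℤ)).2) : ℤ) : RatFunc ℚ) = B := by
    rw [hB]
    congr 1
  have e6 : (q ^ (4 + n * (0 * (1, (0 : ℤ)).1 + 2 * (1, (0 : ℤ)).2) : ℤ) : RatFunc ℚ) = B' := by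
    rw [hB']
    congr 1
  rw [T, e1, e2, e3, e4, e5, e6]
  have f1 := ratio_poly (Bk_ne (b := 2 * 1) (by norm_num)) h k
  have f2 := ratio_poly (Bk_ne (b := 2 * 2) (by norm_num)) h k
  rw [← hB] at f1
  rw [← hB'] at f2
  have f3 : P.eval (B ^ k) = (poch B (B * B ^ h) k / poch B B k) * (poch B' (B' * B' ^ h) k / poch B' B' k) := by
    have e8 : B' ^ k = (B ^ k) ^ 2 := by rw [hBB, ← pow_mul, ← pow_mul, mul_comm]
    rw [f1, f2, hP, e8]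
    simp only [eval_mul, eval_C, eval_pow, eval_X, eval_comp]
    rw [div_eq_mul_inv, div_eq_mul_inv]
    ring
  rw [f3]
  simp only [div_eq_mul_inv, ← hB, ← hB']
  ring

theorem H2 (hn : n = 4 * m + 3) (hh : n = 2 * h + 1) :
    ∃ c, I n 1 (c + 1) ∧ G n (1, 0) + c * G n (1, ((2 : ℕ) : ℤ)) = 0 := by
  refine ⟨C0 n, C0_cong hn hh, ?_⟩
  have h1 := orth hh
  rw [sum_range_add] at h1
  have hhz : (n : ℤ) = 2 * h + 1 := by exact_mod_cast hh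
  have h2 : G n (1, ((2 : ℕ) : ℤ)) = ∑ k ∈ range (h + 1), T n (1, ((2 : ℕ) : ℤ)) k := by
    rw [G]
    rw [← Finset.sum_range_add_sum_Ico _ (show h + 1 ≤ n by omega)]
    rw [Finset.sum_eq_zero (s := Ico (h + 1) n), add_zero]
    intro k hk
    rw [mem_Ico] at hk
    have : poch (q ^ ((2 * 1 : ℕ) : ℤ)) (q ^ (1 + n * (-3 * (1, ((2 : ℕ) : ℤ)).1 + 1 * (1, ((2 : ℕ) : ℤ)).2) : ℤ) : RatFunc ℚ) k = 0 := by
      rw [poch, prod_eq_zero (i := h) (mem_range.2 (by omega))]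
      rw [qz_pow, ← zpow_add₀ q_ne]
      have : (1 + (n : ℤ) * (-3 * (1, ((2 : ℕ) : ℤ)).1 + 1 * (1, ((2 : ℕ) : ℤ)).2) + ((2 * 1 : ℕ) : ℤ) * h) = 0 := by
        push_cast
        linear_combination (-1) * hhz
      rw [this, zpow_zero, sub_self]
    rw [T, this]
    simp
  have h3 : ∑ k ∈ range (h + 1), T n (1, 0) (n + k) = C0 n * G n (1, ((2 : ℕ) : ℤ)) := by
    rw [h2, mul_sum]
    refine sum_congr rfl fun k _ => ?_
    rw [T_shift, C0]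
    rfl
  rw [h3] at h1
  exact h1

theorem G_van (hn : n = 4 * m + 3) (hh : n = 2 * h + 1) (t : ℤ) : I n 2 (G n (0, t)) := by
  refine vanish (G_AQ hn) 2 (by norm_num) 1 (fun t => ⟨cr n h t, cr_cong hn hh t, ?_⟩) (H2 hn hh) t
  have h1 := G_Gh hn hh t
  have h2 := G_Gh hn hh (-1 - t)
  have hc : cr n h t ∈ R n := by
    have := sub_mem (cr_cong hn hh t).mem (one_mem (R n))
    rwa [add_sub_cancel_right] at this
  have h3 := I.R_mul hc h2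
  have h4 := h1.sub h3
  refine (congrArg (I n 2) ?_).mp h4
  rw [Gh_rev hn hh t]
  push_cast
  ring

theorem Gh_van (hn : n = 4 * m + 3) (hh : n = 2 * h + 1) (t : ℤ) : I n 2 (Gh n h t) := by
  have h1 := (G_van hn hh t).sub (G_Gh hn hh t)
  rwa [sub_sub_cancel] at h1

/-! ### the sum itself -/

/-- the term -/
def tt (k : ℕ) : RatFunc ℚ :=
  ((∏ i ∈ range k, (1 - q * (q ^ 2) ^ i)) / (∏ i ∈ range k, (1 - q ^ 2 * (q ^ 2) ^ i))) ^ 2 *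
    ((∏ i ∈ range k, (1 - q ^ 2 * (q ^ 4) ^ i)) / (∏ i ∈ range k, (1 - q ^ 4 * (q ^ 4) ^ i))) * q ^ (2 * k)

def pre (n j : ℕ) : RatFunc ℚ :=
  (q ^ 2) ^ (j * n) *
    ((poch (q ^ ((2 * 1 : ℕ) : ℤ)) (q ^ (1 : ℤ)) (j * n) / poch (q ^ ((2 * 1 : ℕ) : ℤ)) (q ^ (2 : ℤ)) (j * n)) ^ 2 *
     (poch (q ^ ((2 * 2 : ℕ) : ℤ)) (q ^ (2 : ℤ)) (j * n) / poch (q ^ ((2 * 2 : ℕ) : ℤ)) (q ^ (4 : ℤ)) (j * n)))

theorem key_mem {b a : ℕ} {u : ℤ} (hn0 : 0 < n) (hcop : IsCoprime (n : ℤ) (b : ℤ))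
    (hu : 0 < u) (hb : (a : ℤ) + b * h = n * u) (hbp : 0 < b) (hh : n = 2 * h + 1) (j : ℕ) :
    poch (q ^ (b : ℤ)) (q ^ (a : ℤ)) (j * n) / poch (q ^ (b : ℤ)) (q ^ (b : ℤ)) (j * n) ∈ R n := by
  have hhz : (n : ℤ) = 2 * h + 1 := by exact_mod_cast hh
  have en : ((n - 1 : ℕ) : ℤ) = n - 1 := by rw [Nat.cast_sub hn0]; simp
  induction j with
  | zero => simp
  | succ j ih =>
    have hB : ∀ a : ℤ, (q ^ a : RatFunc ℚ) * (q ^ (b : ℤ)) ^ (j * n) = q ^ (a + b * (j * n)) := by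
      intro a
      rw [qz_pow, ← zpow_add₀ q_ne]
      push_cast
      rfl
    rw [show (j + 1) * n = j * n + n by ring, poch_add, poch_add, hB, hB, mul_div_mul_comm]
    refine mul_mem ih ?_
    exact (cyc_ratio hn0 (β := b) (a := a + b * (j * n)) (d := b + b * (j * n))
      (e0 := b * j + u) (e1 := b * j + b) (j := h) (j' := n - 1) (by omega) (by omega)
      (by linear_combination hb) (by rw [en]; ring) hcop (by positivity)).1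

theorem pre_mem (hn : n = 4 * m + 3) (hh : n = 2 * h + 1) (j : ℕ) : pre n j ∈ R n := by
  have hn0 : 0 < n := by omega
  have hhz : (n : ℤ) = 2 * h + 1 := by exact_mod_cast hh
  have k1 := key_mem (b := 2 * 1) (a := 1) (u := 1) hn0 (cop1 hn) (by norm_num)
    (by push_cast; linear_combination -hhz) (by norm_num) hh j
  have k2 := key_mem (b := 2 * 2) (a := 2) (u := 2) hn0 (cop2 hn) (by norm_num)
    (by push_cast; linear_combination -2 * hhz) (by norm_num) hh j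
  exact mul_mem (pow_mem (pow_mem q_mem _) _) (mul_mem (pow_mem k1 2) k2)

theorem tt_block (j k : ℕ) : tt (j * n + k) = pre n j * T n (0, 2 * j) k := by
  have hnat : ∀ (b a : ℕ) (l : ℕ), ∏ i ∈ range l, ((1 : RatFunc ℚ) - q ^ a * (q ^ b) ^ i) =
      poch (q ^ ((b : ℕ) : ℤ)) (q ^ ((a : ℕ) : ℤ)) l := by
    intro b a l
    rw [poch, zpow_natCast, zpow_natCast]
  have hnat1 : ∀ (b : ℕ) (l : ℕ), ∏ i ∈ range l, ((1 : RatFunc ℚ) - q * (q ^ b) ^ i) =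
      poch (q ^ ((b : ℕ) : ℤ)) (q ^ (1 : ℤ)) l := by
    intro b l
    rw [poch, zpow_natCast, zpow_one]
  rw [tt, hnat, hnat, hnat, hnat1, T, pre]
  have hB2 : ∀ a : ℤ, (q ^ a : RatFunc ℚ) * (q ^ ((2 * 1 : ℕ) : ℤ)) ^ (j * n) = q ^ (a + n * (2 * j)) := by
    intro a
    rw [qz_pow, ← zpow_add₀ q_ne]
    congr 1
    push_cast
    ring
  have hB4 : ∀ a : ℤ, (q ^ a : RatFunc ℚ) * (q ^ ((2 * 2 : ℕ) : ℤ)) ^ (j * n) = q ^ (a + n * (2 * (2 * j))) := by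
    intro a
    rw [qz_pow, ← zpow_add₀ q_ne]
    congr 1
    push_cast
    ring
  have c2 : ((2 : ℕ) : ℤ) = ((2 * 1 : ℕ) : ℤ) := by norm_num
  have c4 : ((4 : ℕ) : ℤ) = ((2 * 2 : ℕ) : ℤ) := by norm_num
  rw [show (q : RatFunc ℚ) ^ ((2 : ℕ) : ℤ) = q ^ (2 : ℤ) from rfl,
    show (q : RatFunc ℚ) ^ ((4 : ℕ) : ℤ) = q ^ (4 : ℤ) from rfl]
  have d2 : (q : RatFunc ℚ) ^ ((2 * 1 : ℕ) : ℤ) = q ^ (2 : ℤ) := rfl
  have d4 : (q : RatFunc ℚ) ^ ((2 * 2 : ℕ) : ℤ) = q ^ (4 : ℤ) := rfl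
  rw [d2] at hB2
  rw [d4] at hB4
  simp only [d2, d4, poch_add, hB2, hB4]
  simp only [mul_zero, zero_add, one_mul, zero_mul]
  have e0 : (q : RatFunc ℚ) ^ (2 * (j * n + k)) = (q ^ 2) ^ (j * n) * (q ^ 2) ^ k := by
    rw [pow_mul, pow_add]
  rw [e0]
  simp only [div_eq_mul_inv, mul_inv, mul_pow, inv_pow]
  ring

theorem sum_full (hn : n = 4 * m + 3) (hh : n = 2 * h + 1) (r : ℕ) :
    I n 2 (∑ k ∈ range (r * n), tt k) := by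
  induction r with
  | zero => simpa using I.zero
  | succ r ih =>
    rw [show (r + 1) * n = r * n + n by ring, sum_range_add]
    refine ih.add ?_
    have e : ∑ k ∈ range n, tt (r * n + k) = pre n r * G n (0, 2 * r) := by
      rw [G, mul_sum]
      exact sum_congr rfl fun k _ => tt_block r k
    rw [e]
    exact I.R_mul (pre_mem hn hh r) (G_van hn hh _)

theorem sum_half (hn : n = 4 * m + 3) (hh : n = 2 * h + 1) (r : ℕ) :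
    I n 2 (∑ k ∈ range (r * n + (h + 1)), tt k) := by
  rw [sum_range_add]
  refine (sum_full hn hh r).add ?_
  have e : ∑ k ∈ range (h + 1), tt (r * n + k) = pre n r * Gh n h (2 * r) := by
    rw [Gh, mul_sum]
    exact sum_congr rfl fun k _ => tt_block r k
  rw [e]
  exact I.R_mul (pre_mem hn hh r) (Gh_van hn hh _)

end

end V11316.M5ca
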