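import Pool.Agent.V11316.OddD

/-!
`n + α = d h`: divisibility by `Φ_n³`.
-/

open Finset Polynomial

namespace V11316

open V11307.Q

noncomputable section

/-- index type: four special coordinates and two blocks of size `e` -/
abbrev I1 (e : ℕ) : Type := Fin 4 ⊕ (Fin e ⊕ Fin e)

/-- the special points -/
def w1 (e : ℕ) (t : ℤ) : I1 e → ℤ :=
  Sum.elim ![-(2 * e + 4 : ℤ), (e + 3 : ℤ), 1 + t, -t] (Sum.elim (fun _ => 1) (fun _ => 0))

theorem w1_sum (e : ℕ) : ∑ i, w1 e 0 i = 0 := by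
  simp only [Fintype.sum_sum_type, w1, Sum.elim_inl, Sum.elim_inr, Fin.sum_univ_four]
  simp
  ring

theorem w1_add (e : ℕ) : w1 e 0 + (Pi.single (Sum.inl 2) 1 - Pi.single (Sum.inl 3) 1) = w1 e 1 := by
  funext i
  rcases i with i | i | i
  · fin_cases i <;> simp [w1, Pi.single_apply]
  · simp [w1, Pi.single_apply]
  · simp [w1, Pi.single_apply]

theorem w1_sub (e : ℕ) :
    w1 e 0 - (Pi.single (Sum.inl 2) 1 - Pi.single (Sum.inl 3) 1) = w1 e (-1) := by
  funext i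
  rcases i with i | i | i
  · fin_cases i <;> simp [w1, Pi.single_apply]
  · simp [w1, Pi.single_apply]
  · simp [w1, Pi.single_apply]

theorem lS_zero {ι : Type*} [DecidableEq ι] (c : ι → ℤ) (n : ℕ) :
    (q ^ n : RatFunc ℚ) ^ (lS (none : Option ι) c) = 1 := by simp

/-- exact zeros, first type -/
theorem van1 {e n L h M : ℕ} {d α β0 ζ : ℤ} (t : ℤ) (hd : d = 2 * e + 5)
    (hβ : 2 * β0 = α + d) (hn : (n : ℤ) + α = d * h) (hh : 0 < h)
    (hM : α + n * (e + 3) = β0 + d * M)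
    (hζ : 2 * ζ = d * (d - α - 2))
    {N : ℕ} (hN : (N : ℤ) = n - h) (hNL : N ≤ L)
    (hL : ∀ i : ℕ, i < L → ¬ (n : ℤ) ∣ d * (i + 1))
    (hdeg : (e + 1) * (h - 1) + M < N)
    (hα : ∀ i : ℤ, α + d * i ≠ 0) (hβ0 : ∀ i : ℤ, β0 + d * i ≠ 0)
    (ht1 : ∀ i : ℕ, α + n * (1 + t) - d * ((h - 1 : ℕ) : ℤ) + d * i ≠ 0)
    (ht2 : ∀ i : ℕ, α + n * (-t) - d * ((h - 1 : ℕ) : ℤ) + d * i ≠ 0)
    (h01 : ∀ i : ℕ, α + n * 1 - d * ((h - 1 : ℕ) : ℤ) + d * i ≠ 0)
    (h02 : ∀ i : ℕ, α + n * 0 - d * ((h - 1 : ℕ) : ℤ) + d * i ≠ 0) :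
    GS (I1 e) n L (q ^ α) (q ^ d) (q ^ ζ) (w1 e t) = 0 := by
  obtain ⟨h', rfl⟩ : ∃ h', h = h' + 1 := ⟨h - 1, by omega⟩
  simp only [Nat.add_sub_cancel] at *
  set a : RatFunc ℚ := q ^ α with ha
  set B : RatFunc ℚ := q ^ d with hB
  set Ps := pairP B (q ^ β0) (q ^ (β0 - d * M)) M with hPs
  set Pt := pairP B (q ^ (α + n * (1 + t) - d * h')) (q ^ (α + n * (-t) - d * h')) h' with hPt
  set P0 := pairP B (q ^ (α + n * 1 - d * h')) (q ^ (α + n * 0 - d * h')) h' with hP0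
  have hdpos : 0 < d := by omega
  refine Gn_zero (N := N) hNL (fun j => std_df_ne hL _ j) (qz_ne _) (fun i => ?_) (fun i => ?_)
    (Ps * (Pt * P0 ^ e)) ?_ ?_
  · rw [hB, qd_pow]
    refine qz_ne_one ?_
    push_cast
    positivity
  · rw [ha, hB, qd_pow, ← zpow_add₀ q_ne]
    refine qz_ne_one ?_
    push_cast
    exact hα _
  · refine lt_of_le_of_lt degree_le_natDegree ?_
    have h1 : (Ps * (Pt * P0 ^ e)).natDegree ≤ M + (h' + e * h') := by
      refine natDegree_mul_le.trans (add_le_add (pairP_natDegree _ _ _ _) ?_)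
      refine natDegree_mul_le.trans (add_le_add (pairP_natDegree _ _ _ _) ?_)
      refine natDegree_pow_le.trans (Nat.mul_le_mul_left _ (pairP_natDegree _ _ _ _))
    have h2 : (Ps * (Pt * P0 ^ e)).natDegree < N := by
      refine lt_of_le_of_lt h1 ?_
      nlinarith
    exact_mod_cast h2
  · intro k _
    rw [Fintype.prod_option, Fintype.prod_sum_type, Fintype.prod_sum_type, Fin.prod_univ_four]
    simp only [lS_none, lS_some, w1, Sum.elim_inl, Sum.elim_inr, prod_const, card_univ,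
      Fintype.card_fin, zpow_zero, Tk_one]
    have m0 : (![-(2 * e + 4 : ℤ), (e + 3 : ℤ), 1 + t, -t] : Fin 4 → ℤ) 0 = -(2 * e + 4 : ℤ) := rfl
    have m1 : (![-(2 * e + 4 : ℤ), (e + 3 : ℤ), 1 + t, -t] : Fin 4 → ℤ) 1 = (e + 3 : ℤ) := rfl
    have m2 : (![-(2 * e + 4 : ℤ), (e + 3 : ℤ), 1 + t, -t] : Fin 4 → ℤ) 2 = 1 + t := rfl
    have m3 : (![-(2 * e + 4 : ℤ), (e + 3 : ℤ), 1 + t, -t] : Fin 4 → ℤ) 3 = -t := rfl
    rw [m0, m1, m2, m3]
    push_cast at hn
    have p1 := std_term (n := n) (N := N) (α := α) (d := d) (c := -(2 * e + 4 : ℤ)) (by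
      rw [hN]; push_cast
      linear_combination hn + (n : ℤ) * hd) k
    have p2 := std_single (n := n) (α := α) (d := d) (c := (e + 3 : ℤ)) (e := M) hβ hM hβ0 k
    have p3 := std_pair (n := n) (α := α) (d := d) (c := 1 + t) (c' := -t) (e := h')
      (by linear_combination hn) ht1 ht2 k
    have p4 := std_pair (n := n) (α := α) (d := d) (c := 1) (c' := 0) (e := h')
      (by linear_combination hn) h01 h02 k
    have p5 : Tk B ((q ^ n) ^ (1 : ℤ)) a B k ^ e * (poch B a k / poch B B k) ^ e =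
        P0.eval (wy a B k) ^ e * ((q ^ (α - d)) ^ k) ^ e := by
      rw [← mul_pow, ← mul_pow]
      congr 1
      rw [← p4, zpow_zero, Tk_one]
    rw [p1, p2]
    have e1 : (q ^ ζ : RatFunc ℚ) ^ k * (q ^ (α + d * N)) ^ k * (q ^ (α - β0)) ^ k *
        (q ^ (α - d)) ^ k * ((q ^ (α - d)) ^ k) ^ e = (B ^ N) ^ k := by
      have h2 : 2 * (ζ + (α + d * N) + (α - β0) + (α - d) + (α - d) * e) = 2 * (d * N) := by
        rw [hd] at hζ hβ ⊢
        linear_combination hζ - hβ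
      have h3 : ζ + (α + d * N) + (α - β0) + (α - d) + (α - d) * e = d * N := by linarith
      simp only [hB, qz_pow, ← zpow_add₀ q_ne]
      congr 1
      linear_combination (k : ℤ) * h3
    rw [eval_mul, eval_mul, eval_pow, ← e1]
    have hpB : poch B B k ≠ 0 := by
      rw [hB]; refine poch_qz_ne fun i => ?_
      positivity
    linear_combination
      ((q ^ ζ) ^ k * (poch B a k / poch B B k) *
        (poch B (B ^ N)⁻¹ k / poch B (a * B ^ (N + 1)) k * (q ^ (α + d * N)) ^ k) *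
        (Ps.eval (wy a B k) * (q ^ (α - β0)) ^ k) *
        (Tk B ((q ^ n) ^ (1 : ℤ)) a B k ^ e * (poch B a k / poch B B k) ^ e)) * p3 +
      ((q ^ ζ) ^ k * (poch B a k / poch B B k) *
        (poch B (B ^ N)⁻¹ k / poch B (a * B ^ (N + 1)) k * (q ^ (α + d * N)) ^ k) *
        (Ps.eval (wy a B k) * (q ^ (α - β0)) ^ k) *
        (Pt.eval (wy a B k) * (q ^ (α - d)) ^ k)) * p5

end

end V11316
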