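import Pool.Agent.V11316.Odd1

/-!
The congruence modulo `Φ_n³` for `n ≡ -α (mod d)`.
-/

open Finset Polynomial

namespace V11316

open V11307.Q

noncomputable section

theorem add_mul_ne {d r : ℤ} (h1 : r ≠ 0) (h2 : |r| < d) (i : ℤ) : r + d * i ≠ 0 := by
  intro h
  have h3 : d ∣ r := ⟨-i, by linarith⟩
  exact h1 (Int.eq_zero_of_abs_lt_dvd h3 h2)

theorem not_dvd_of_cop {n : ℕ} {d : ℤ} (hn : 0 < n) (hc : IsCoprime (n : ℤ) d) (i : ℕ)
    (hi : i < n - 1) : ¬ (n : ℤ) ∣ d * (i + 1) := by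
  intro h
  have h1 := hc.dvd_of_dvd_mul_left h
  have h2 := Int.le_of_dvd (by positivity) h1
  omega

/-- the standard sum -/
def sumS (n d : ℕ) (α ζ : ℤ) : RatFunc ℚ :=
  ∑ k ∈ range n, (1 - q ^ (α + 2 * d * k)) * (q ^ ζ) ^ k *
    (poch (q ^ (d : ℤ)) (q ^ α) k / poch (q ^ (d : ℤ)) (q ^ (d : ℤ)) k) ^ d

theorem sumS_of_GS {ι : Type*} [Fintype ι] [DecidableEq ι] {n s d : ℕ} (hn : 0 < n)
    {α ζ : ℤ} (hcard : Fintype.card ι + 1 = d) (hc : IsCoprime (n : ℤ) (d : ℤ))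
    (h : I n s (GS ι n (n - 1) (q ^ α) (q ^ (d : ℤ)) (q ^ ζ) 0)) : I n s (sumS n d α ζ) := by
  have h1 := sum_of_Gn (J := Option ι) (b := fun _ => q ^ α) (bs := fun _ => q ^ (d : ℤ))
    (l := lS) (fun _ i hi => std_unit hn (not_dvd_of_cop hn hc) i hi) h
  rw [show n - 1 + 1 = n by omega] at h1
  rw [sumS]
  refine (congrArg (I n s) (sum_congr rfl fun k _ => ?_)).mp h1
  rw [prod_const, card_univ, Fintype.card_option, hcard]
  congr 3
  rw [qz_pow, ← zpow_add₀ q_ne]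
  congr 1
  push_cast
  ring

theorem GS_an {ι : Type*} [Fintype ι] [DecidableEq ι] {n L m : ℕ} (hn : 0 < n) (α d ζ : ℤ) :
    AQ n m (GS ι n L (q ^ α) (q ^ d) (q ^ ζ)) :=
  Gn_an hn (qz_mem hn _) (qz_mem hn _) (qz_mem hn _) (fun _ => qz_mem hn _)
    (fun _ => qz_mem hn _) lS

theorem cong1 {e n h : ℕ} {α ζ : ℤ} (hα : α = 1 ∨ α = -1) (hn1 : 1 < n)
    (hn : (n : ℤ) + α = (2 * e + 5 : ℕ) * h)
    (hζ : 2 * ζ = (2 * e + 5 : ℕ) * ((2 * e + 5 : ℕ) - α - 2)) :
    I n 3 (sumS n (2 * e + 5) α ζ) := by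
  have hn0 : 0 < n := by omega
  have hα1 : α * α = 1 := by rcases hα with rfl | rfl <;> norm_num
  have hh : 0 < h := by
    rcases Nat.eq_zero_or_pos h with rfl | h0
    · simp only [Nat.cast_zero, mul_zero] at hn
      rcases hα with rfl | rfl <;> omega
    · exact h0
  have hc : IsCoprime (n : ℤ) ((2 * e + 5 : ℕ) : ℤ) :=
    ⟨-α, α * h, by linear_combination -α * hn + hα1⟩
  refine sumS_of_GS (ι := I1 e) hn0 (by simp; omega) hc ?_
  set d : ℤ := ((2 * e + 5 : ℕ) : ℤ) with hd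
  have hd' : d = 2 * e + 5 := by rw [hd]; push_cast; ring
  have hdpos : 5 ≤ d := by rw [hd']; omega
  have hαd : ∀ i : ℤ, α + d * i ≠ 0 := by
    intro i
    refine add_mul_ne (by rintro rfl; simp at hα1) ?_ i
    rcases hα with rfl | rfl <;> simp <;> omega
  have hαd' : ∀ i : ℤ, -α + d * i ≠ 0 := by
    intro i h
    apply hαd (-i)
    linarith
  have h2αd : ∀ i : ℤ, 2 * α + d * i ≠ 0 := by
    intro i
    refine add_mul_ne (by rintro h; rcases hα with rfl | rfl <;> simp at h) ?_ i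
    rcases hα with rfl | rfl <;> simp <;> omega
  -- the constants
  obtain ⟨M, β0, hβ, hM, hβ1, hβ2, hMd⟩ : ∃ (M : ℕ) (β0 : ℤ), 2 * β0 = α + d ∧
      α + n * ((e : ℤ) + 3) = β0 + d * M ∧ 0 < β0 ∧ β0 < d ∧
      (((e + 1) * (h - 1) + M : ℕ) : ℤ) < n - h := by
    obtain ⟨h', rfl⟩ : ∃ h', h = h' + 1 := ⟨h - 1, by omega⟩
    rcases hα with rfl | rfl
    · refine ⟨(h' + 1) * (e + 3) - 1, e + 3, by rw [hd']; ring, ?_, by positivity, by omega, ?_⟩
      · have : (((h' + 1) * (e + 3) - 1 : ℕ) : ℤ) = (h' + 1) * (e + 3) - 1 := by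
          rw [Nat.cast_sub (by nlinarith)]; push_cast; ring
        rw [this]
        push_cast at hn
        have hn' : (n : ℤ) = d * (h' + 1) - 1 := by linarith
        rw [hn', hd']; ring
      · have : (((h' + 1) * (e + 3) - 1 : ℕ) : ℤ) = (h' + 1) * (e + 3) - 1 := by
          rw [Nat.cast_sub (by nlinarith)]; push_cast; ring
        rw [Nat.add_sub_cancel]
        push_cast at hn
        rw [Nat.cast_add, this]
        push_cast
        have hn' : (n : ℤ) = d * (h' + 1) - 1 := by linarith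
        rw [hn', hd']
        nlinarith
    · refine ⟨(h' + 1) * (e + 3), e + 2, by rw [hd']; ring, ?_, by positivity, by omega, ?_⟩
      · push_cast at hn ⊢
        have hn' : (n : ℤ) = d * (h' + 1) + 1 := by linarith
        rw [hn', hd']; ring
      · rw [Nat.add_sub_cancel]
        push_cast at hn ⊢
        have hn' : (n : ℤ) = d * (h' + 1) + 1 := by linarith
        rw [hn', hd']
        nlinarith
  have hβd : ∀ i : ℤ, β0 + d * i ≠ 0 := by
    intro i
    refine add_mul_ne hβ1.ne' ?_ i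
    rw [abs_of_pos hβ1]; exact hβ2
  obtain ⟨N, hN⟩ : ∃ N : ℕ, (N : ℤ) = n - h := by
    refine ⟨((n : ℤ) - h).toNat, Int.toNat_of_nonneg ?_⟩
    have : (0 : ℤ) ≤ (((e + 1) * (h - 1) + M : ℕ) : ℤ) := by positivity
    linarith
  have hNL : N ≤ n - 1 := by omega
  have hdeg : (e + 1) * (h - 1) + M < N := by
    have : (((e + 1) * (h - 1) + M : ℕ) : ℤ) < N := by rw [hN]; exact hMd
    exact_mod_cast this
  have hh' : ((h - 1 : ℕ) : ℤ) = h - 1 := by omega
  have h01 : ∀ i : ℕ, α + n * 1 - d * ((h - 1 : ℕ) : ℤ) + d * i ≠ 0 := by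
    intro i
    rw [hh']
    have : α + n * 1 - d * ((h : ℤ) - 1) + d * i = d * (1 + i) := by linear_combination hn
    rw [this]; positivity
  have h02 : ∀ i : ℕ, α + n * 0 - d * ((h - 1 : ℕ) : ℤ) + d * i ≠ 0 := by
    intro i h1
    apply hαd (i - ((h - 1 : ℕ) : ℤ))
    rw [← h1]; ring
  refine sym_zero (GS_an hn0 α d ζ) GS_symm (w1 e 0) (w1_sum e) (i0 := Sum.inl 2)
    (j0 := Sum.inl 3) (by simp) ?_ ?_ ?_
  · exact van1 0 hd' hβ hn hh hM hζ hN hNL (not_dvd_of_cop hn0 hc) hdeg hαd hβd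
      (by simpa using h01) (by simpa using h02) h01 h02
  · rw [w1_add]
    refine van1 1 hd' hβ hn hh hM hζ hN hNL (not_dvd_of_cop hn0 hc) hdeg hαd hβd ?_ ?_ h01 h02
    · intro i h1
      apply hαd' (2 * h - ((h - 1 : ℕ) : ℤ) + i)
      rw [← h1]; linear_combination (-2) * hn
    · intro i h1
      apply h2αd (-h - ((h - 1 : ℕ) : ℤ) + i)
      rw [← h1]; linear_combination hn
  · rw [w1_sub]
    refine van1 (-1) hd' hβ hn hh hM hζ hN hNL (not_dvd_of_cop hn0 hc) hdeg hαd hβd ?_ ?_ h01 h02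
    · simpa using h02
    · simpa using h01

end

end V11316
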