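import Pool.Agent.V11316.Odd1c

/-!
`2n + α = d g`: divisibility by `Φ_n⁴`.
-/

open Finset Polynomial

namespace V11316

open V11307.Q

noncomputable section

/-- `1 + q^E` is divisible by `Φ_n` when `n ∣ 2E` and `n ∤ E`. -/
theorem I_one_add {n : ℕ} (hn : 0 < n) {E : ℤ} (h2 : (n : ℤ) ∣ 2 * E) (h1 : ¬ (n : ℤ) ∣ E) :
    I n 1 (1 + q ^ E) := by
  have h3 := I_one_sub hn h2
  have h4 : (1 : RatFunc ℚ) - q ^ E ≠ 0 :=
    sub_ne_zero.2 (qz_ne_one (by rintro rfl; exact h1 (dvd_zero _))).symm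
  have h5 : (1 : RatFunc ℚ) + q ^ E = (1 - q ^ (2 * E)) * (1 - q ^ E)⁻¹ := by
    rw [two_mul, zpow_add₀ q_ne, eq_mul_inv_iff_mul_eq₀ h4]; ring
  rw [h5]
  exact h3.mul_R (inv_one_sub_qz hn h1)

theorem prod_neg_inv (d : ℤ) (N : ℕ) :
    ∏ i ∈ range N, (-((q : RatFunc ℚ) ^ d * (q ^ d) ^ i)⁻¹) =
      (-1) ^ N * q ^ (-(d * ((∑ i ∈ range N, (i + 1) : ℕ) : ℤ))) := by
  induction N with
  | zero => simp
  | succ N ih =>
    rw [prod_range_succ, ih, sum_range_succ, pow_succ]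
    have e1 : -((q : RatFunc ℚ) ^ d * (q ^ d) ^ N)⁻¹ = -(q ^ (-(d * (N + 1)))) := by
      rw [qz_pow, ← zpow_add₀ q_ne, ← zpow_neg]; congr 2; ring
    rw [e1]
    have e2 : (q : RatFunc ℚ) ^ (-(d * ((∑ i ∈ range N, (i + 1) + (N + 1) : ℕ) : ℤ))) =
        q ^ (-(d * ((∑ i ∈ range N, (i + 1) : ℕ) : ℤ))) * q ^ (-(d * (N + 1))) := by
      rw [← zpow_add₀ q_ne]; congr 1; push_cast; ring
    rw [e2]; ring

theorem two_tri (N : ℕ) : 2 * ((∑ i ∈ range N, (i + 1) : ℕ) : ℤ) = N * (N + 1) := by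
  induction N with
  | zero => simp
  | succ N ih => rw [sum_range_succ]; push_cast at ih ⊢; linarith

/-- antisymmetry in the standard family -/
theorem GS_anti {ι : Type*} [Fintype ι] [DecidableEq ι] {n L N D : ℕ} {α ζ s : ℤ} {m : ℕ}
    (hn : 0 < n) (hNL : N ≤ L) (hcard : Fintype.card ι + 1 = D)
    (hQ : α + D * N = n * s) (hζ : 2 * ζ = D * (D - α - 2))
    (hE : ∀ E : ℤ, 2 * E = -(n * s * (2 + D * N)) →
      (Even (N * D) ∧ (n : ℤ) ∣ E) ∨ (Odd (N * D) ∧ ¬ (n : ℤ) ∣ E)) :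
    ∃ g : (ι → ℤ) → RatFunc ℚ, AQ n m g ∧
      ∀ c, GS ι n L (q ^ α) (q ^ (D : ℤ)) (q ^ ζ) c = cyc n * g c := by
  refine Gn_anti (N := N) (Qe := q ^ ((n : ℤ) * s)) hn hNL (qz_ne _) (qz_ne _) (qz_ne _)
    (fun _ => qz_ne _) (fun _ => qz_ne _) (qz_mem hn _) (qz_mem hn _) (qz_mem hn _)
    (fun _ => qz_mem hn _) (fun _ => qz_mem hn _) (qz_inv_mem hn _) (qz_inv_mem hn _)
    (fun _ => qz_inv_mem hn _) (fun _ => qz_inv_mem hn _) lS (fun _ => rfl) ?_ ?_ ?_ ?_ none rfl rfl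
  · rw [qz_pow, ← zpow_add₀ q_ne, hQ]
  · have := (I_one_sub hn (e := (n : ℤ) * s) (Dvd.intro _ rfl)).neg
    rwa [neg_sub] at this
  · rw [prod_const, card_univ, Fintype.card_option, hcard, ← zpow_neg, ← zpow_add₀ q_ne,
      ← zpow_add₀ q_ne, qz_pow, qz_pow]
    congr 1
    push_cast
    linear_combination -hζ
  · rw [prod_const, card_univ, Fintype.card_option, hcard, prod_neg_inv, mul_pow, ← pow_mul,
      qz_pow, qz_pow, ← zpow_neg]
    set E : ℤ := -α + ζ * N + -(D * ((∑ i ∈ range N, (i + 1) : ℕ) : ℤ)) * D with hEdef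
    have e1 : (q : RatFunc ℚ) ^ (-α) * q ^ (ζ * N) * ((-1) ^ (N * D) *
        q ^ (-(D * ((∑ i ∈ range N, (i + 1) : ℕ) : ℤ)) * D)) = (-1) ^ (N * D) * q ^ E := by
      rw [hEdef, zpow_add₀ q_ne, zpow_add₀ q_ne]; ring
    rw [e1]
    have h2E : 2 * E = -(n * s * (2 + D * N)) := by
      rw [← hQ, hEdef]
      have := two_tri N
      linear_combination (N : ℤ) * hζ - (D : ℤ) * D * this
    rcases hE E h2E with ⟨h1, h2⟩ | ⟨h1, h2⟩
    · rw [h1.neg_one_pow, one_mul]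
      have := (I_one_sub hn h2).neg
      rwa [neg_sub] at this
    · rw [h1.neg_one_pow]
      have h3 : (n : ℤ) ∣ 2 * E := ⟨-(s * (2 + D * N)), by rw [h2E]; ring⟩
      have := (I_one_add hn h3 h2).neg
      have h4 : (-1 : RatFunc ℚ) * q ^ E - 1 = -(1 + q ^ E) := by ring
      rw [h4]; exact this

/-- index type for the second case -/
abbrev I2 (e : ℕ) : Type := Fin 3 ⊕ Fin (2 * e + 1)

/-- the special points -/
def w2 (e : ℕ) (t : ℤ) : I2 e → ℤ :=
  Sum.elim ![-(2 * e + 3 : ℤ), 1 + t, 1 - t] (fun _ => 1)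

theorem w2_sum (e : ℕ) : ∑ i, w2 e 0 i = 0 := by
  simp only [Fintype.sum_sum_type, w2, Sum.elim_inl, Sum.elim_inr, Fin.sum_univ_three]
  simp
  ring

theorem w2_add (e : ℕ) : w2 e 0 + (Pi.single (Sum.inl 1) 1 - Pi.single (Sum.inl 2) 1) = w2 e 1 := by
  funext i
  rcases i with i | i
  · fin_cases i <;> simp [w2, Pi.single_apply]
  · simp [w2, Pi.single_apply]

theorem w2_sub (e : ℕ) :
    w2 e 0 - (Pi.single (Sum.inl 1) 1 - Pi.single (Sum.inl 2) 1) = w2 e (-1) := by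
  funext i
  rcases i with i | i
  · fin_cases i <;> simp [w2, Pi.single_apply]
  · simp [w2, Pi.single_apply]

/-- exact zeros, second type -/
theorem van2 {e n L g M : ℕ} {d α β0 ζ : ℤ} (t : ℤ) (hd : d = 2 * e + 5)
    (hβ : 2 * β0 = α + d) (hn : 2 * (n : ℤ) + α = d * g)
    (hg : g = 2 * M + 1)
    (hζ : 2 * ζ = d * (d - α - 2))
    {N : ℕ} (hN : (N : ℤ) = n - g) (hNL : N ≤ L)
    (hL : ∀ i : ℕ, i < L → ¬ (n : ℤ) ∣ d * (i + 1))
    (hdeg : (2 * e + 3) * M < N)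
    (hα : ∀ i : ℤ, α + d * i ≠ 0) (hβ0 : ∀ i : ℤ, β0 + d * i ≠ 0)
    (ht1 : ∀ i : ℕ, α + n * (1 + t) - d * ((2 * M : ℕ) : ℤ) + d * i ≠ 0)
    (ht2 : ∀ i : ℕ, α + n * (1 - t) - d * ((2 * M : ℕ) : ℤ) + d * i ≠ 0) :
    GS (I2 e) n L (q ^ α) (q ^ d) (q ^ ζ) (w2 e t) = 0 := by
  subst hg
  set a : RatFunc ℚ := q ^ α with ha
  set B : RatFunc ℚ := q ^ d with hB
  set Ps := pairP B (q ^ β0) (q ^ (β0 - d * M)) M with hPs
  set Pt := pairP B (q ^ (α + n * (1 + t) - d * ((2 * M : ℕ) : ℤ)))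
    (q ^ (α + n * (1 - t) - d * ((2 * M : ℕ) : ℤ))) (2 * M) with hPt
  have hdpos : 0 < d := by omega
  refine Gn_zero (N := N) hNL (fun j => std_df_ne hL _ j) (qz_ne _) (fun i => ?_) (fun i => ?_)
    (Pt * Ps ^ (2 * e + 1)) ?_ ?_
  · rw [hB, qd_pow]
    refine qz_ne_one ?_
    push_cast
    positivity
  · rw [ha, hB, qd_pow, ← zpow_add₀ q_ne]
    refine qz_ne_one ?_
    push_cast
    exact hα _
  · refine lt_of_le_of_lt degree_le_natDegree ?_
    have h1 : (Pt * Ps ^ (2 * e + 1)).natDegree ≤ 2 * M + (2 * e + 1) * M := by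
      refine natDegree_mul_le.trans (add_le_add (pairP_natDegree _ _ _ _) ?_)
      refine natDegree_pow_le.trans (Nat.mul_le_mul_left _ (pairP_natDegree _ _ _ _))
    have h2 : (Pt * Ps ^ (2 * e + 1)).natDegree < N := by
      refine lt_of_le_of_lt h1 ?_
      nlinarith
    exact_mod_cast h2
  · intro k _
    rw [Fintype.prod_option, Fintype.prod_sum_type, Fin.prod_univ_three]
    simp only [lS_none, lS_some, w2, Sum.elim_inl, Sum.elim_inr, prod_const, card_univ,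
      Fintype.card_fin, zpow_zero, Tk_one]
    have m0 : (![-(2 * e + 3 : ℤ), 1 + t, 1 - t] : Fin 3 → ℤ) 0 = -(2 * e + 3 : ℤ) := rfl
    have m1 : (![-(2 * e + 3 : ℤ), 1 + t, 1 - t] : Fin 3 → ℤ) 1 = 1 + t := rfl
    have m2 : (![-(2 * e + 3 : ℤ), 1 + t, 1 - t] : Fin 3 → ℤ) 2 = 1 - t := rfl
    rw [m0, m1, m2]
    push_cast at hn hN
    have p1 := std_term (n := n) (N := N) (α := α) (d := d) (c := -(2 * e + 3 : ℤ)) (by
      rw [hN]
      linear_combination hn + (n : ℤ) * hd) k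
    have p2 := std_single (n := n) (α := α) (d := d) (c := 1) (e := M) hβ
      (by linarith) hβ0 k
    have p3 := std_pair (n := n) (α := α) (d := d) (c := 1 + t) (c' := 1 - t) (e := 2 * M)
      (by push_cast; linear_combination hn) ht1 ht2 k
    rw [p1, p2]
    have e1 : (q ^ ζ : RatFunc ℚ) ^ k * (q ^ (α + d * N)) ^ k *
        (q ^ (α - d)) ^ k * ((q ^ (α - β0)) ^ k) ^ (2 * e + 1) = (B ^ N) ^ k := by
      have h2 : 2 * (ζ + (α + d * N) + (α - d) + (α - β0) * (2 * e + 1)) = 2 * (d * N) := by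
        rw [hd] at hζ hβ ⊢
        linear_combination hζ - (2 * e + 1) * hβ
      have h3 : ζ + (α + d * N) + (α - d) + (α - β0) * (2 * e + 1) = d * N := by linarith
      simp only [hB, qz_pow, ← zpow_add₀ q_ne]
      congr 1
      push_cast
      linear_combination (k : ℤ) * h3
    rw [eval_mul, eval_pow, ← e1, mul_pow]
    linear_combination
      ((q ^ ζ) ^ k * (poch B a k / poch B B k) *
        (poch B (B ^ N)⁻¹ k / poch B (a * B ^ (N + 1)) k * (q ^ (α + d * N)) ^ k) *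
        (Ps.eval (wy a B k) ^ (2 * e + 1) * ((q ^ (α - β0)) ^ k) ^ (2 * e + 1))) * p3

theorem cong2 {e n g : ℕ} {α ζ : ℤ} (hα : α = 1 ∨ α = -1) (hn1 : 1 < n)
    (hn : 2 * (n : ℤ) + α = (2 * e + 5 : ℕ) * g)
    (hζ : 2 * ζ = (2 * e + 5 : ℕ) * ((2 * e + 5 : ℕ) - α - 2)) :
    I n 4 (sumS n (2 * e + 5) α ζ) := by
  have hn0 : 0 < n := by omega
  have hα1 : α * α = 1 := by rcases hα with rfl | rfl <;> norm_num
  have hc : IsCoprime (n : ℤ) ((2 * e + 5 : ℕ) : ℤ) :=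
    ⟨-2 * α, α * g, by linear_combination -α * hn + hα1⟩
  refine sumS_of_GS (ι := I2 e) hn0 (by simp; omega) hc ?_
  set d : ℤ := ((2 * e + 5 : ℕ) : ℤ) with hd
  have hd' : d = 2 * e + 5 := by rw [hd]; push_cast; ring
  have hdpos : 5 ≤ d := by rw [hd']; omega
  have hαd : ∀ i : ℤ, α + d * i ≠ 0 := by
    intro i
    refine add_mul_ne (by rintro rfl; simp at hα1) ?_ i
    rcases hα with rfl | rfl <;> simp <;> omega
  -- `g` is odd
  obtain ⟨M, hM⟩ : ∃ M : ℕ, g = 2 * M + 1 := by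
    have h1 : Odd ((2 * (n : ℤ) + α)) := by
      rcases hα with rfl | rfl
      · exact ⟨n, rfl⟩
      · exact ⟨n - 1, by ring⟩
    rw [hn] at h1
    have h2 : Odd (g : ℤ) := (Int.odd_mul.1 h1).2
    have h3 : Odd g := by exact_mod_cast h2
    exact h3
  obtain ⟨β0, hβ, hβ1, hβ2⟩ : ∃ (β0 : ℤ), 2 * β0 = α + d ∧ 0 < β0 ∧ β0 < d := by
    rcases hα with rfl | rfl
    · exact ⟨e + 3, by rw [hd']; ring, by positivity, by omega⟩
    · exact ⟨e + 2, by rw [hd']; ring, by positivity, by omega⟩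
  have hβd : ∀ i : ℤ, β0 + d * i ≠ 0 := by
    intro i
    refine add_mul_ne hβ1.ne' ?_ i
    rw [abs_of_pos hβ1]; exact hβ2
  have hMn : ((2 * e + 3 : ℕ) : ℤ) * M < n - g := by
    rw [hM] at hn ⊢
    rw [hd'] at hn
    push_cast at hn ⊢
    rcases hα with rfl | rfl <;> nlinarith
  obtain ⟨N, hN⟩ : ∃ N : ℕ, (N : ℤ) = n - g := by
    refine ⟨((n : ℤ) - g).toNat, Int.toNat_of_nonneg ?_⟩
    have : (0 : ℤ) ≤ ((2 * e + 3 : ℕ) : ℤ) * M := by positivity
    linarith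
  have hNL : N ≤ n - 1 := by omega
  have hdeg : (2 * e + 3) * M < N := by
    have : (((2 * e + 3) * M : ℕ) : ℤ) < N := by rw [hN]; push_cast; push_cast at hMn; exact hMn
    exact_mod_cast this
  -- antisymmetry
  obtain ⟨f, hf, hGf⟩ := GS_anti (ι := I2 e) (n := n) (L := n - 1) (N := N) (D := 2 * e + 5)
    (α := α) (ζ := ζ) (s := d - 2) (m := 3) hn0 hNL (by simp; omega)
    (by rw [hN]; linear_combination hn) hζ (by
      intro E hE
      rcases Nat.even_or_odd N with hNe | hNo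
      · left
        refine ⟨hNe.mul_right _, ?_⟩
        obtain ⟨N', hN'⟩ := hNe
        refine ⟨-((d - 2) * (1 + d * N')), ?_⟩
        have h2 : (N : ℤ) = 2 * N' := by rw [hN']; push_cast; ring
        have h3 : 2 * E = 2 * (n * -((d - 2) * (1 + d * N'))) := by
          rw [hE, h2, ← hd]; ring
        linarith
      · right
        refine ⟨hNo.mul ⟨e + 2, by ring⟩, ?_⟩
        rintro ⟨s, hs⟩
        have h3 : 2 * s = -((d - 2) * (2 + d * N)) := by
          have hn00 : (n : ℤ) ≠ 0 := by omega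
          apply mul_left_cancel₀ hn00
          rw [hs, ← hd] at hE
          linear_combination hE
        have h4 : Odd ((d - 2) * (2 + d * N)) := by
          refine Int.odd_mul.2 ⟨⟨e + 1, by rw [hd']; ring⟩, ?_⟩
          have hNo' : Odd (N : ℤ) := by exact_mod_cast hNo
          have hdo : Odd d := ⟨e + 2, by rw [hd']; ring⟩
          exact (even_two (α := ℤ)).add_odd (hdo.mul hNo')
        have h5 : Even ((d - 2) * (2 + d * N)) := ⟨-s, by linarith⟩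
        exact (Int.not_even_iff_odd.2 h4) h5)
  have hcyc := cyc_ne n
  have h01 : ∀ i : ℕ, α + n * (1 + 1) - d * ((2 * M : ℕ) : ℤ) + d * i ≠ 0 := by
    intro i
    have : α + n * (1 + 1) - d * ((2 * M : ℕ) : ℤ) + d * i = d * (1 + i) := by
      rw [hM] at hn; push_cast at hn ⊢; linear_combination hn
    rw [this]; positivity
  have h02 : ∀ i : ℕ, α + n * 0 - d * ((2 * M : ℕ) : ℤ) + d * i ≠ 0 := by
    intro i h1
    apply hαd (i - ((2 * M : ℕ) : ℤ))
    rw [← h1]; ring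
  have h03 : ∀ i : ℕ, α + n * 1 - d * ((2 * M : ℕ) : ℤ) + d * i ≠ 0 := by
    intro i h1
    apply hαd (g - 2 * ((2 * M : ℕ) : ℤ) + 2 * i)
    linear_combination 2 * h1 - hn
  have hz : ∀ t : ℤ, (∀ i : ℕ, α + n * (1 + t) - d * ((2 * M : ℕ) : ℤ) + d * i ≠ 0) →
      (∀ i : ℕ, α + n * (1 - t) - d * ((2 * M : ℕ) : ℤ) + d * i ≠ 0) → f (w2 e t) = 0 := by
    intro t ht1 ht2
    have := van2 (L := n - 1) t hd' hβ hn hM hζ hN hNL (not_dvd_of_cop hn0 hc) hdeg hαd hβd ht1 ht2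
    rw [hGf] at this
    exact (mul_eq_zero.1 this).resolve_left hcyc
  have hI : I n 3 (f 0) := by
    refine sym_zero hf ?_ (w2 e 0) (w2_sum e) (i0 := Sum.inl 1) (j0 := Sum.inl 2) (by simp) ?_ ?_ ?_
    · intro σ c
      have h1 := hGf (c ∘ σ)
      rw [GS_symm, hGf] at h1
      exact (mul_left_cancel₀ hcyc h1).symm
    · exact hz 0 (by simpa using h03) (by simpa using h03)
    · rw [w2_add]
      exact hz 1 h01 (by simpa using h02)
    · rw [w2_sub]
      exact hz (-1) (by simpa using h02) (by simpa [sub_neg_eq_add] using h01)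
  rw [hGf]
  exact I_of_cyc_mul hI

end

end V11316
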