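import Pool.Agent.V11316.Odd2

/-!
Conversion to the sums with `[2dk+α]`.
-/

open Finset Polynomial

namespace V11316

open V11307.Q

noncomputable section

theorem oneq_inv {n : ℕ} (hn : 1 < n) : (1 - q : RatFunc ℚ)⁻¹ ∈ R n := by
  have := inv_one_sub (n := n) (by omega) (k := 1) (by
    intro h; have := Nat.le_of_dvd one_pos h; omega)
  simpa using this

/-- `S_d(n)` with `[2dk+1]` -/
theorem plus_sum {n s e : ℕ} (hn : 1 < n)
    (h : I n s (sumS n (2 * e + 5) 1 (((2 * e + 5) * (e + 1) : ℕ) : ℤ))) :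
    I n s (∑ k ∈ range n, ((1 - q ^ (2 * (2 * e + 5) * k + 1)) / (1 - q)) *
      ((∏ i ∈ range k, (1 - q * (q ^ (2 * e + 5)) ^ i)) /
        (∏ i ∈ range k, (1 - q ^ (2 * e + 5) * (q ^ (2 * e + 5)) ^ i))) ^ (2 * e + 5) *
          q ^ ((2 * e + 5) * (e + 1) * k)) := by
  have h1 := I.R_mul (oneq_inv hn) h
  rw [sumS, mul_sum] at h1
  refine (congrArg (I n s) (sum_congr rfl fun k _ => ?_)).mp h1
  rw [zpow_one, zpow_natCast, zpow_natCast]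
  have e1 : (q : RatFunc ℚ) ^ (1 + 2 * ((2 * e + 5 : ℕ) : ℤ) * (k : ℤ)) =
      q ^ (2 * (2 * e + 5) * k + 1) := by
    rw [← zpow_natCast]; congr 1; push_cast; ring
  rw [e1, ← pow_mul, poch, poch]
  ring

/-- `S_{d,n}(q)` with `[2dk-1]` -/
theorem minus_sum {n s e : ℕ} (hn : 1 < n)
    (h : I n s (sumS n (2 * e + 5) (-1) (((2 * e + 5) * (e + 2) : ℕ) : ℤ))) :
    I n s (∑ k ∈ range n, q ^ ((2 * e + 5) * (e + 2) * k) *
      ((1 - q ^ (2 * ((2 * e + 5 : ℕ) : ℤ) * (k : ℤ) - 1)) / (1 - q)) *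
      ((∏ i ∈ range k, (1 - q⁻¹ * (q ^ (2 * e + 5)) ^ i)) /
        (∏ i ∈ range k, (1 - q ^ (2 * e + 5) * (q ^ (2 * e + 5)) ^ i))) ^ (2 * e + 5)) := by
  have h1 := I.R_mul (oneq_inv hn) h
  rw [sumS, mul_sum] at h1
  refine (congrArg (I n s) (sum_congr rfl fun k _ => ?_)).mp h1
  rw [zpow_neg_one, zpow_natCast, zpow_natCast]
  have e1 : (q : RatFunc ℚ) ^ (-1 + 2 * ((2 * e + 5 : ℕ) : ℤ) * (k : ℤ)) =
      q ^ (2 * ((2 * e + 5 : ℕ) : ℤ) * (k : ℤ) - 1) := by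
    rw [show (-1 + 2 * ((2 * e + 5 : ℕ) : ℤ) * (k : ℤ)) = 2 * ((2 * e + 5 : ℕ) : ℤ) * (k : ℤ) - 1
      by ring]
  rw [e1, ← pow_mul, poch, poch]
  ring

end

end V11316
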