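import Pool.Agent.V11316.TkL

/-!
The case of an odd exponent `d ≥ 5`:
`∑_{k<n} (1 - q^{α+2dk}) q^{d(d-α-2)k/2} ((q^α;q^d)_k/(q^d;q^d)_k)^d`, `α = ±1`.
-/

open Finset Polynomial

namespace V11316

open V11307.Q

noncomputable section

theorem ax_eq (n : ℕ) (α c : ℤ) : (q ^ α : RatFunc ℚ) * (q ^ n) ^ c = q ^ (α + n * c) := by
  rw [q_zpow', ← zpow_add₀ q_ne]
where
  q_zpow' : (q ^ n : RatFunc ℚ) ^ c = q ^ ((n : ℤ) * c) := by
    rw [← zpow_natCast, ← zpow_mul]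

theorem qn_zpow (n : ℕ) (c : ℤ) : (q ^ n : RatFunc ℚ) ^ c = q ^ ((n : ℤ) * c) := by
  rw [← zpow_natCast, ← zpow_mul]

theorem qd_pow (d : ℤ) (e : ℕ) : (q ^ d : RatFunc ℚ) ^ e = q ^ (d * e) := qz_pow d e

/-- pair evaluation in the standard family -/
theorem std_pair {n : ℕ} {α d c c' : ℤ} {e : ℕ}
    (hsum : 2 * α + n * (c + c') = α + d + d * e)
    (h1 : ∀ i : ℕ, α + n * c - d * e + d * i ≠ 0)
    (h2 : ∀ i : ℕ, α + n * c' - d * e + d * i ≠ 0) (k : ℕ) :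
    Tk (q ^ d) ((q ^ n) ^ c) (q ^ α) (q ^ d) k * Tk (q ^ d) ((q ^ n) ^ c') (q ^ α) (q ^ d) k =
      (pairP (q ^ d) (q ^ (α + n * c - d * e)) (q ^ (α + n * c' - d * e)) e).eval
        (wy (q ^ α) (q ^ d) k) * (q ^ (α - d)) ^ k := by
  have hx : ∀ c : ℤ, (q ^ n : RatFunc ℚ) ^ c ≠ 0 := fun c => zpow_ne_zero _ (pow_ne_zero _ q_ne)
  rw [Tk_pair (a := q ^ α) (β := q ^ (α + n * c - d * e)) (β' := q ^ (α + n * c' - d * e)) (e := e)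
    (hx c) (hx c') (qz_ne _) (qz_ne _)]
  · congr 2
    rw [← zpow_add₀ q_ne, ← zpow_add₀ q_ne, ← zpow_neg, ← zpow_add₀ q_ne]
    congr 1; ring
  · rw [ax_eq, qd_pow, ← zpow_add₀ q_ne]; congr 1; ring
  · rw [ax_eq, qd_pow, ← zpow_add₀ q_ne]; congr 1; ring
  · rw [qd_pow, ← zpow_add₀ q_ne, ← zpow_add₀ q_ne, ← zpow_add₀ q_ne]; congr 1
    linear_combination hsum
  · rfl
  · rfl
  · intro k; exact poch_qz_ne h1
  · intro k; exact poch_qz_ne h2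

/-- single parameter evaluation in the standard family -/
theorem std_single {n : ℕ} {α d c β0 : ℤ} {e : ℕ} (hβ : 2 * β0 = α + d)
    (hc : α + n * c = β0 + d * e) (h1 : ∀ i : ℤ, β0 + d * i ≠ 0) (k : ℕ) :
    Tk (q ^ d) ((q ^ n) ^ c) (q ^ α) (q ^ d) k =
      (pairP (q ^ d) (q ^ β0) (q ^ (β0 - d * e)) e).eval
        (wy (q ^ α) (q ^ d) k) * (q ^ (α - β0)) ^ k := by
  have hx : ∀ c : ℤ, (q ^ n : RatFunc ℚ) ^ c ≠ 0 := fun c => zpow_ne_zero _ (pow_ne_zero _ q_ne)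
  have e1 : (q ^ β0 : RatFunc ℚ) * ((q ^ d) ^ e)⁻¹ = q ^ (β0 - d * e) := by
    rw [qd_pow, ← zpow_neg, ← zpow_add₀ q_ne]; congr 1
  rw [Tk_single (a := q ^ α) (b₀ := q ^ β0) (e := e) (hx c) (qz_ne _) (qz_ne _), e1]
  · congr 2
    rw [← zpow_neg, ← zpow_add₀ q_ne]; congr 1
  · rw [← zpow_add₀ q_ne, ← zpow_add₀ q_ne]; congr 1; linarith
  · rw [ax_eq, qd_pow, ← zpow_add₀ q_ne]; congr 1
  · rfl
  · intro k; refine poch_qz_ne fun i => ?_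
    exact h1 i
  · intro k; rw [e1]; refine poch_qz_ne fun i => ?_
    have := h1 ((i : ℤ) - e)
    intro h; apply this; rw [← h]; ring

/-- terminating parameter in the standard family -/
theorem std_term {n N : ℕ} {α d c : ℤ} (hc : α + n * c = - (d * N)) (k : ℕ) :
    Tk (q ^ d) ((q ^ n) ^ c) (q ^ α) (q ^ d) k =
      poch (q ^ d) (((q ^ d) ^ N)⁻¹) k / poch (q ^ d) (q ^ α * (q ^ d) ^ (N + 1)) k *
        (q ^ (α + d * N)) ^ k := by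
  have hx : ∀ c : ℤ, (q ^ n : RatFunc ℚ) ^ c ≠ 0 := fun c => zpow_ne_zero _ (pow_ne_zero _ q_ne)
  rw [Tk_term (a := q ^ α) (N := N) (hx c) (qz_ne _)]
  · congr 2
    rw [qn_zpow, ← zpow_neg]; congr 1; linarith
  · rw [ax_eq, qd_pow, ← zpow_neg, hc]
  · rfl

/-- nonvanishing of the denominators -/
theorem std_df_ne {ι : Type*} {n L : ℕ} {d : ℤ} (hd : ∀ i : ℕ, i < L → ¬ (n : ℤ) ∣ d * (i + 1))
    (c : ι → ℤ) (j : Option ι) : ∏ i ∈ range L, df n (q ^ d) (q ^ d) (lS j) i c ≠ 0 := by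
  rw [prod_ne_zero_iff]
  intro i hi
  have hi' := mem_range.1 hi
  rw [df, qn_zpow, qd_pow, ← zpow_add₀ q_ne]
  intro h
  have h1 : (q : RatFunc ℚ) ^ ((n : ℤ) * lS j c - (d + d * i)) = 1 := by
    rw [zpow_sub₀ q_ne, sub_eq_zero.1 h, div_self (qz_ne _)]
  by_cases h2 : (n : ℤ) * lS j c - (d + d * i) = 0
  · exact hd i hi' ⟨lS j c, by linarith⟩
  · exact qz_ne_one h2 h1

/-- units in the denominators -/
theorem std_unit {n L : ℕ} (hn : 0 < n) {d : ℤ}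
    (hd : ∀ i : ℕ, i < L → ¬ (n : ℤ) ∣ d * (i + 1)) (i : ℕ) (hi : i < L) :
    (1 - (q ^ d : RatFunc ℚ) * (q ^ d) ^ i) ≠ 0 ∧ (1 - (q ^ d : RatFunc ℚ) * (q ^ d) ^ i)⁻¹ ∈ R n := by
  have e1 : (q ^ d : RatFunc ℚ) * (q ^ d) ^ i = q ^ (d * (i + 1)) := by
    rw [qd_pow, ← zpow_add₀ q_ne]; congr 1; ring
  rw [e1]
  refine ⟨?_, inv_one_sub_qz hn (hd i hi)⟩
  rw [sub_ne_zero]
  refine (qz_ne_one ?_).symm
  intro h
  exact hd i hi (by rw [h]; exact dvd_zero _)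

end

end V11316
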