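import Pool.Agent.V11316.Std2
import Pool.Agent.V11316.Cubic2
import Pool.Agent.V11307.QWZ

/-!
The sum with `2(n+1)` parameters `q` in base `q^{n+1}` modulo `Φ_n⁵`, `n = m + 1`.
-/

open Finset Polynomial

namespace V11316.P9

open V11307.Q V11316

noncomputable section

/-- the exponent of `Z` -/
abbrev ze (m : ℕ) : ℤ := m * (m + 2)

/-- the base exponent -/
abbrev de (m : ℕ) : ℤ := m + 2

/-- the perturbed sum -/
def F (m : ℕ) (c : I3 m → ℤ) : RatFunc ℚ :=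
  ∑ k ∈ range (m + 1), (1 - q ^ (1 : ℤ) * (q ^ de m) ^ (2 * k)) * (q ^ ze m) ^ k *
    ∏ j : Option (I3 m), Tk (q ^ de m) ((q ^ (m + 1)) ^ (lS j c)) (q ^ (1 : ℤ)) (q ^ de m) k

/-- the common denominator -/
def D (m : ℕ) (c : I3 m → ℤ) : RatFunc ℚ :=
  ∏ j : Option (I3 m), ∏ i ∈ range m, df (m + 1) (q ^ de m) (q ^ de m) (lS j) i c

theorem not_dvd (m : ℕ) (i : ℕ) (hi : i < m) : ¬ ((m + 1 : ℕ) : ℤ) ∣ de m * (i + 1) := by
  intro h
  have hc : IsCoprime ((m + 1 : ℕ) : ℤ) (de m) := ⟨-1, 1, by push_cast; ring⟩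
  have h1 := hc.dvd_of_dvd_mul_left h
  have h2 := Int.le_of_dvd (by positivity) h1
  push_cast at h2
  omega

theorem D_ne (m : ℕ) (c : I3 m → ℤ) : D m c ≠ 0 :=
  prod_ne_zero_iff.2 fun j _ => std_df_ne (not_dvd m) c j

theorem D_inv (m : ℕ) (c : I3 m → ℤ) : (D m c)⁻¹ ∈ R (m + 1) := by
  rw [D, ← prod_inv_distrib]
  refine prod_mem fun j _ => ?_
  rw [← prod_inv_distrib]
  refine prod_mem fun i hi => ?_
  have hi' := mem_range.1 hi
  rw [df, qn_zpow, qd_pow, ← zpow_add₀ q_ne]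
  set z : ℤ := ((m + 1 : ℕ) : ℤ) * lS j c with hz
  have e1 : (q ^ z : RatFunc ℚ) - q ^ (de m + de m * i) =
      q ^ z * (1 - q ^ (de m * (i + 1) - z)) := by
    rw [mul_sub, mul_one, ← zpow_add₀ q_ne]; congr 2; ring
  rw [e1, mul_inv]
  refine mul_mem (qz_inv_mem (by omega) _) (inv_one_sub_qz (by omega) fun h => ?_)
  apply not_dvd m i hi'
  have := dvd_add h (Dvd.intro (lS j c) rfl : ((m + 1 : ℕ) : ℤ) ∣ z)
  rwa [sub_add_cancel] at this

theorem D_an (m k : ℕ) : AQ (m + 1) k (D m) :=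
  An.prod _ fun j _ => An.prod _ fun i _ => df_an (by omega) (qz_mem (by omega) _)
    (qz_mem (by omega) _) (lS j) i

theorem F_D (m : ℕ) (c : I3 m → ℤ) :
    GS (I3 m) (m + 1) m (q ^ (1 : ℤ)) (q ^ de m) (q ^ ze m) c = F m c * D m c := by
  rw [GS, Gn, F, D, sum_mul]
  refine sum_congr rfl fun k hk => ?_
  exact Un_eq (fun j => std_df_ne (not_dvd m) c j) (Nat.lt_succ_iff.1 (mem_range.1 hk))

theorem F_symm (m : ℕ) (σ : Equiv.Perm (I3 m)) (c : I3 m → ℤ) : F m (c ∘ σ) = F m c := by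
  rw [F, F]
  refine sum_congr rfl fun k _ => ?_
  congr 1
  rw [Fintype.prod_option, Fintype.prod_option]
  congr 1
  exact Equiv.prod_comp σ (fun i => Tk (q ^ de m) ((q ^ (m + 1)) ^ (lS (some i) c)) (q ^ (1 : ℤ))
    (q ^ de m) k)

/-- divisibility by `Φ_n` in the strong sense -/
theorem F_anti (m k : ℕ) : ∃ f : (I3 m → ℤ) → RatFunc ℚ, AQ (m + 1) k f ∧
    ∀ c, F m c = cyc (m + 1) * f c := by
  obtain ⟨g, hg, h⟩ := GS_anti2 (ι := I3 m) (n := m + 1) (L := m) (N := m) (r := 2 * m + 4)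
    (α := 1) (β := de m) (ζ := ze m) (s := m + 1) (m := k) (by omega) le_rfl
    (by simp; omega) (by push_cast; ring) (by push_cast; ring)
    (by
      intro E hE
      left
      refine ⟨⟨m * (m + 2), by ring⟩, ⟨-((m + 1) * (1 + m * (m + 2))), ?_⟩⟩
      push_cast at hE ⊢
      linarith)
  refine ⟨fun c => g c * (D m c)⁻¹, hg.mul ((D_an m k).inv (D_ne m) (D_inv m)), fun c => ?_⟩
  have h1 := F_D m c
  rw [h] at h1
  have h2 := D_ne m c
  field_simp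
  exact h1.symm

/-! ### the special values -/

theorem pair_zero {n : ℕ} {α d c c' : ℤ} (hsum : 2 * α + n * (c + c') = α + d)
    (h1 : ∀ i : ℕ, α + n * c + d * i ≠ 0) (h2 : ∀ i : ℕ, α + n * c' + d * i ≠ 0) (k : ℕ) :
    Tk (q ^ d) ((q ^ n) ^ c) (q ^ α) (q ^ d) k * Tk (q ^ d) ((q ^ n) ^ c') (q ^ α) (q ^ d) k =
      (q ^ (α - d)) ^ k := by
  have h := std_pair (n := n) (α := α) (d := d) (c := c) (c' := c') (e := 0)
    (by rw [Nat.cast_zero, mul_zero, add_zero]; exact hsum)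
    (by intro i; have := h1 i; simpa using this) (by intro i; have := h2 i; simpa using this) k
  rw [h, pairP]
  simp

theorem wz_poch (a Q : RatFunc ℚ) (k : ℕ) : V11307.WZ.poch a Q k = poch Q a k := rfl

theorem pd_eq {x Q : RatFunc ℚ} (hx : x ≠ 0) (k : ℕ) :
    V11307.WZ.pd x⁻¹ Q k = (x⁻¹) ^ k * poch Q x k := by
  rw [V11307.WZ.pd, poch, ← card_range k, ← prod_const, card_range, ← prod_mul_distrib]
  refine prod_congr rfl fun i _ => ?_
  field_simp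

/-- closed form -/
def Kc (m : ℕ) (σ u : ℤ) : RatFunc ℚ :=
  (1 - q ^ (1 : ℤ)) * poch (q ^ de m) (q ^ (1 + de m)) m *
    poch (q ^ de m) (q ^ ((m + 1) * (1 - σ) : ℤ)) m /
    (poch (q ^ de m) (q ^ (de m - (m + 1) * u)) m *
      poch (q ^ de m) (q ^ (de m - (m + 1) * (σ - u))) m)

theorem F_special {m : ℕ} {σ u v : ℤ}
    (hv1 : ∀ i : ℕ, 1 + ((m : ℤ) + 1) * v + (m + 2) * i ≠ 0)
    (hv2 : ∀ i : ℕ, 1 + ((m : ℤ) + 1) * (1 - v) + (m + 2) * i ≠ 0)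
    (hu1 : ∀ j : ℕ, 1 ≤ j → ((m : ℤ) + 2) * j ≠ (m + 1) * u)
    (hu2 : ∀ j : ℕ, 1 ≤ j → ((m : ℤ) + 2) * j ≠ (m + 1) * (σ - u)) :
    F m (w3 m σ u v) = Kc m σ u := by
  set B : RatFunc ℚ := q ^ de m with hB
  set b : RatFunc ℚ := q ^ (1 + ((m : ℤ) + 1) * u) with hb
  set x : RatFunc ℚ := q ^ (1 + ((m : ℤ) + 1) * (σ - u)) with hx
  have hb0 : b ≠ 0 := qz_ne _
  have hx0 : x ≠ 0 := qz_ne _
  have hdB : ∀ j : ℕ, B ^ j = q ^ (de m * j) := fun j => by rw [hB, qz_pow]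
  have key := V11307.WZ.sum65 (Q := B) (A := q ^ (1 : ℤ)) (b := b) (D := x⁻¹) (qz_ne _) hb0
    (by
      intro j hj
      rw [hdB]
      refine qz_ne_one ?_
      have : (0 : ℤ) < de m * j := by
        have : (0 : ℤ) < j := by exact_mod_cast hj
        positivity
      omega)
    (by
      intro j hj
      rw [hdB, hb, ← zpow_add₀ q_ne]
      intro h
      have h2 : (q : RatFunc ℚ) ^ (1 + de m * (j : ℤ) - (1 + ((m : ℤ) + 1) * u)) = 1 := by
        rw [zpow_sub₀ q_ne, h, div_self (qz_ne _)]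
      refine qz_ne_one (fun h3 => hu1 j hj ?_) h2
      linear_combination h3)
    (by
      intro j hj
      rw [hdB, ← zpow_add₀ q_ne]
      refine qz_ne_one ?_
      positivity)
    (by
      intro j hj
      rw [hdB, hx, ← zpow_neg, ← zpow_add₀ q_ne, ← zpow_add₀ q_ne]
      refine qz_ne_one (fun h3 => hu2 j hj ?_)
      linear_combination h3) m
  have hr : V11307.WZ.r65 B (q ^ (1 : ℤ)) b x⁻¹ m = Kc m σ u := by
    rw [V11307.WZ.r65, Kc]
    simp only [wz_poch]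
    rw [hb, hx, hB, ← zpow_add₀ q_ne, ← zpow_neg, ← zpow_add₀ q_ne, div_eq_mul_inv _
      (q ^ (1 + ((m : ℤ) + 1) * u)), div_eq_mul_inv _ (q ^ (1 + ((m : ℤ) + 1) * u)), ← zpow_neg,
      ← zpow_add₀ q_ne, ← zpow_add₀ q_ne]
    have z1 : (1 : ℤ) + de m + -(1 + ((m : ℤ) + 1) * (σ - u)) + -(1 + ((m : ℤ) + 1) * u) =
        (m + 1) * (1 - σ) := by ring
    have z2 : (1 : ℤ) + de m + -(1 + ((m : ℤ) + 1) * u) = de m - (m + 1) * u := by ring
    have z3 : (1 : ℤ) + de m + -(1 + ((m : ℤ) + 1) * (σ - u)) = de m - (m + 1) * (σ - u) := by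
      ring
    rw [z1, z2, z3]
  rw [← hr, ← key, F]
  refine sum_congr rfl fun k hk => ?_
  rw [Fintype.prod_option, Fintype.prod_sum_type, Fintype.prod_sum_type, Fin.prod_univ_three]
  simp only [lS_none, lS_some, w3, Sum.elim_inl, Sum.elim_inr, prod_const, card_univ,
      Fintype.card_fin, zpow_zero, Tk_one]
  have m0 : (![-(m + 1 : ℤ), u, σ - u] : Fin 3 → ℤ) 0 = -(m + 1 : ℤ) := rfl
  have m1 : (![-(m + 1 : ℤ), u, σ - u] : Fin 3 → ℤ) 1 = u := rfl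
  have m2 : (![-(m + 1 : ℤ), u, σ - u] : Fin 3 → ℤ) 2 = σ - u := rfl
  rw [m0, m1, m2]
  have p1 := std_term (n := m + 1) (N := m) (α := 1) (d := de m) (c := -(m + 1 : ℤ))
    (by push_cast; ring) k
  have p2 := pair_zero (n := m + 1) (α := 1) (d := de m) (c := v) (c' := 1 - v)
    (by push_cast; ring) (by push_cast; exact hv1) (by push_cast; exact hv2) k
  have p3 : Tk (q ^ de m) ((q ^ (m + 1)) ^ v) (q ^ (1 : ℤ)) (q ^ de m) k ^ m *
      Tk (q ^ de m) ((q ^ (m + 1)) ^ (1 - v)) (q ^ (1 : ℤ)) (q ^ de m) k ^ m =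
      ((q ^ ((1 : ℤ) - de m)) ^ k) ^ m := by rw [← mul_pow, p2]
  have p4 : Tk (q ^ de m) ((q ^ (m + 1)) ^ u) (q ^ (1 : ℤ)) (q ^ de m) k =
      poch B b k / ((q ^ (((m : ℤ) + 1) * u)) ^ k * poch B (q ^ (de m - (m + 1) * u)) k) := by
    rw [Tk, qn_zpow, ← zpow_add₀ q_ne, ← zpow_neg, ← zpow_add₀ q_ne]
    push_cast
    rfl
  have p5 : Tk (q ^ de m) ((q ^ (m + 1)) ^ (σ - u)) (q ^ (1 : ℤ)) (q ^ de m) k =
      poch B x k / ((q ^ (((m : ℤ) + 1) * (σ - u))) ^ k *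
        poch B (q ^ (de m - (m + 1) * (σ - u))) k) := by
    rw [Tk, qn_zpow, ← zpow_add₀ q_ne, ← zpow_neg, ← zpow_add₀ q_ne]
    push_cast
    rfl
  rw [p3, p1, p4, p5, V11307.WZ.t65, pd_eq hx0]
  simp only [wz_poch]
  have z2 : q ^ (1 : ℤ) * B / b = q ^ (de m - (m + 1) * u) := by
    rw [hB, hb, ← zpow_add₀ q_ne, div_eq_mul_inv, ← zpow_neg, ← zpow_add₀ q_ne]
    congr 1; ring
  have z3 : q ^ (1 : ℤ) * B * x⁻¹ = q ^ (de m - (m + 1) * (σ - u)) := by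
    rw [hB, hx, ← zpow_add₀ q_ne, ← zpow_neg, ← zpow_add₀ q_ne]
    congr 1; ring
  rw [z2, z3]
  have hz : (q ^ ze m : RatFunc ℚ) ^ k * (q ^ ((1 : ℤ) + de m * m)) ^ k *
      ((q ^ ((1 : ℤ) - de m)) ^ k) ^ m * ((q ^ (((m : ℤ) + 1) * u)) ^ k)⁻¹ *
      ((q ^ (((m : ℤ) + 1) * (σ - u))) ^ k)⁻¹ =
      (x⁻¹) ^ k * (q ^ (1 : ℤ) * B ^ (m + 1) / b) ^ k := by
    rw [hdB, hx, hb, ← zpow_add₀ q_ne, div_eq_mul_inv, ← zpow_neg, ← zpow_neg, ← zpow_add₀ q_ne]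
    simp only [qz_pow, ← zpow_neg, ← zpow_add₀ q_ne]
    congr 1
    push_cast
    ring
  simp only [div_eq_mul_inv, mul_inv] at hz ⊢
  linear_combination ((1 - q ^ (1 : ℤ) * B ^ (2 * k)) * poch B (q ^ (1 : ℤ)) k * (poch B B k)⁻¹ *
    poch B (B ^ m)⁻¹ k * (poch B (q ^ (1 : ℤ) * B ^ (m + 1)) k)⁻¹ * poch B b k *
    (poch B (q ^ (de m - (m + 1) * u)) k)⁻¹ * poch B x k *
    (poch B (q ^ (de m - (m + 1) * (σ - u))) k)⁻¹) * hz

theorem Kc_one {m : ℕ} (hm : 0 < m) (u : ℤ) : Kc m 1 u = 0 := by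
  have : poch (q ^ de m : RatFunc ℚ) (q ^ (((m : ℤ) + 1) * (1 - 1))) m = 0 := by
    rw [poch, prod_eq_zero_iff]
    exact ⟨0, mem_range.2 hm, by simp⟩
  rw [Kc, this]; simp

/-- the expansion at the origin -/
theorem F_five {m : ℕ} (hm : 0 < m) : I (m + 1) 5 (6 * F m 0 +
    (((m : RatFunc ℚ) + 1) * (m + 2) * (2 * m + 3)) * (Kc m 0 1 - Kc m 0 0)) := by
  obtain ⟨f, hf, hF⟩ := F_anti m 4
  have hfs : ∀ (σ : Equiv.Perm (I3 m)) c, f (c ∘ σ) = f c := by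
    intro σ c
    have := F_symm m σ c
    rw [hF, hF] at this
    exact mul_left_cancel₀ (cyc_ne _) this
  have hp := AQ_PolD (j := 0) hf
  have hp' : PolD 4 (fun c => ((f c : RatFunc ℚ) : RatFunc ℚ ⧸ Isg (m + 1) 4)) :=
    hp.congr fun c => by rw [pow_zero, one_mul]
  have hval : ∀ σ u v : ℤ, (σ = 0 ∨ σ = 1) → (u = 0 ∨ u = 1 ∨ u = -1) → (σ = 0 ∨ u ≤ 0) →
      (v = 0 ∨ v = -1) → F m (w3 m σ u v) = Kc m σ u := by
    intro σ u v hσ hu hσu hv
    have hm' : (1 : ℤ) ≤ m := by exact_mod_cast hm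
    refine F_special ?_ ?_ ?_ ?_
    · intro i
      rcases hv with rfl | rfl
      · have : (0 : ℤ) ≤ (m + 2) * i := by positivity
        omega
      · rcases Nat.eq_zero_or_pos i with rfl | hi
        · simp; omega
        · have h1 : (1 : ℤ) ≤ i := by exact_mod_cast hi
          nlinarith
    · intro i
      have h0 : (0 : ℤ) ≤ (m + 2) * i := by positivity
      rcases hv with rfl | rfl <;> nlinarith
    · intro j hj
      have h1 : (1 : ℤ) ≤ j := by exact_mod_cast hj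
      rcases hu with rfl | rfl | rfl <;> nlinarith
    · intro j hj
      have h1 : (1 : ℤ) ≤ j := by exact_mod_cast hj
      rcases hσ with rfl | rfl
      · rcases hu with rfl | rfl | rfl <;> nlinarith
      · rcases hu with rfl | rfl | rfl
        · nlinarith
        · omega
        · -- `(m+2) j = 2 (m+1)`
          intro h
          have h2 : ((m : ℤ) + 2) * (j - 2) = -2 := by linear_combination h
          have h3 : (j : ℤ) - 2 < 0 := by nlinarith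
          have h4 : (j : ℤ) = 1 := by omega
          rw [h4] at h2
          have h5 : (m : ℤ) = 0 := by linarith
          omega
  have hq : ∀ c, f c = 0 → ((f c : RatFunc ℚ) : RatFunc ℚ ⧸ Isg (m + 1) 4) = 0 := by
    intro c hc; rw [hc]; rfl
  have hzero : ∀ u v, (u = 0 ∨ u = -1) → v = 0 → f (w3 m 1 u v) = 0 := by
    intro u v hu hv
    have h := hval 1 u v (Or.inr rfl) (by tauto) (Or.inr (by omega)) (Or.inl hv)
    rw [Kc_one hm, hF] at h
    exact (mul_eq_zero.1 h).resolve_left (cyc_ne _)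
  have h := cubic_eval (A := RatFunc ℚ ⧸ Isg (m + 1) 4) (fun a z hz h => quot_tor a hz h) hm
    (fun c => ((f c : RatFunc ℚ) : RatFunc ℚ ⧸ Isg (m + 1) 4)) hp'
    (fun σ c => by rw [hfs]) (hq _ (hzero 0 0 (Or.inl rfl) rfl))
    (hq _ (hzero (-1) 0 (Or.inr rfl) rfl))
    (by
      have h1 := hval 0 0 (-1) (Or.inl rfl) (Or.inl rfl) (Or.inl rfl) (Or.inr rfl)
      have h2 := hval 0 0 0 (Or.inl rfl) (Or.inl rfl) (Or.inl rfl) (Or.inl rfl)
      rw [← h2, hF, hF] at h1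
      beta_reduce
      rw [mul_left_cancel₀ (cyc_ne _) h1])
  beta_reduce at h
  have h1 : I (m + 1) 4 ((6 : ℤ) • f 0 + (((m : ℤ) + 1) * (m + 2) * (2 * m + 3)) •
      (f (w3 m 0 1 0) - f (w3 m 0 0 0))) := by
    rw [← mem_Isg, ← QuotientAddGroup.eq_zero_iff]
    exact h
  have h2 := I_of_cyc_mul h1
  refine (congrArg (I (m + 1) 5) ?_).mp h2
  have a1 := hval 0 1 0 (Or.inl rfl) (by tauto) (Or.inl rfl) (Or.inl rfl)
  have a2 := hval 0 0 0 (Or.inl rfl) (Or.inl rfl) (Or.inl rfl) (Or.inl rfl)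
  rw [← a1, ← a2, hF, hF, hF]
  simp only [zsmul_eq_mul]
  push_cast
  ring

end

end V11316.P9
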