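import Pool.Agent.V11316.P9b

/-!
The congruence for the original sum.
-/

open Finset Polynomial

namespace V11316.P9

open V11307.Q V11316

noncomputable section

/-- the original sum, `n = m + 1`, multiplied by `1 - q` -/
def S0 (m : ℕ) : RatFunc ℚ :=
  ∑ k ∈ range (m + 1), (1 - q ^ (2 * (m + 2) * k + 1)) *
    (poch (q ^ (m + 2)) q k / poch (q ^ (m + 2)) (q ^ (m + 2)) k) ^ (2 * (m + 2)) *
      q ^ (((m + 1) ^ 2 - 1) * k)

theorem de_eq (m : ℕ) : (q ^ de m : RatFunc ℚ) = q ^ (m + 2) := by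
  rw [← zpow_natCast]; congr 1

theorem ze_eq (m : ℕ) : (q ^ ze m : RatFunc ℚ) = q ^ ((m + 1) ^ 2 - 1) := by
  rw [← zpow_natCast]; congr 1
  have : (m + 1) ^ 2 - 1 = m * (m + 2) := by
    have : (m + 1) ^ 2 = m * (m + 2) + 1 := by ring
    omega
  rw [this]; push_cast; ring

theorem card_I3 (m : ℕ) : Fintype.card (Option (I3 m)) = 2 * (m + 2) := by
  simp; omega

theorem F_zero (m : ℕ) : F m 0 = S0 m := by
  rw [F, S0]
  refine sum_congr rfl fun k _ => ?_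
  simp only [map_zero, zpow_zero, Tk_one, prod_const, card_univ, card_I3]
  rw [zpow_one, de_eq, ze_eq]
  have e1 : (q : RatFunc ℚ) * (q ^ (m + 2)) ^ (2 * k) = q ^ (2 * (m + 2) * k + 1) := by
    rw [← pow_mul, ← pow_succ']; congr 1; ring
  rw [e1, ← pow_mul]
  ring

/-- the congruence modulo `Φ_n⁵`, `n = μ + 2` -/
theorem S0_five (μ : ℕ) : I (μ + 2) 5 (S0 (μ + 1) +
    ((μ : RatFunc ℚ) + 2) * (μ + 3) * (2 * μ + 5) * (((μ : RatFunc ℚ) + 2) ^ 2 - 1) * (72)⁻¹ *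
      (q * (1 - q ^ ((μ + 2) * (μ + 2))) * (1 - q ^ (μ + 2)) ^ 3 * (1 - q)⁻¹)) := by
  have h1 := F_five (m := μ + 1) (by omega)
  have h2 := Kc_diff μ
  rw [F_zero] at h1
  set Kd := Kc (μ + 1) 0 1 - Kc (μ + 1) 0 0 with hKd
  have hR : (((μ + 1 : ℕ) : RatFunc ℚ) + 1) * (((μ + 1 : ℕ) : RatFunc ℚ) + 2) *
      (2 * ((μ + 1 : ℕ) : RatFunc ℚ) + 3) ∈ R (μ + 2) := by
    have h := ncast_mem (N := μ + 2) ((μ + 1 + 1) * (μ + 1 + 2) * (2 * (μ + 1) + 3))
    push_cast at h ⊢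
    exact h
  have h3 := h1.sub (I.R_mul hR h2)
  have h6 : ((6 : RatFunc ℚ))⁻¹ ∈ R (μ + 2) := by
    have := int_inv_mem (n := μ + 2) (z := 6) (by norm_num)
    simpa using this
  have h4 := I.R_mul h6 h3
  refine (congrArg (I (μ + 2) 5) ?_).mp h4
  have hc : ∀ c : ℕ, 0 < c → (c : RatFunc ℚ) ≠ 0 := by
    intro c hc h0
    have h6 : φ (Polynomial.C (c : ℚ)) = (c : RatFunc ℚ) := by
      rw [Polynomial.C_eq_natCast, map_natCast]
    rw [h0] at h6
    have h7 : (Polynomial.C (c : ℚ)) = 0 := φ_inj (by rw [h6, map_zero])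
    have h8 : (c : ℚ) = 0 := by simpa using h7
    exact hc.ne' (by exact_mod_cast h8)
  have c6 : (6 : RatFunc ℚ) ≠ 0 := by exact_mod_cast hc 6 (by norm_num)
  have c12 : (12 : RatFunc ℚ) ≠ 0 := by exact_mod_cast hc 12 (by norm_num)
  have c72 : (72 : RatFunc ℚ) ≠ 0 := by exact_mod_cast hc 72 (by norm_num)
  have hq0 : (1 - q : RatFunc ℚ) ≠ 0 := by
    have := one_sub_ne (k := 1) one_pos
    rwa [pow_one] at this
  push_cast
  field_simp
  ring

/-- divisibility by `Φ_{n²}` -/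
theorem S0_sq {m : ℕ} (hm : 0 < m) : I ((m + 1) ^ 2) 1 (S0 m) := by
  have hN : 0 < (m + 1) ^ 2 := by positivity
  obtain ⟨g, hg, h⟩ := GS_anti2 (ι := I3 m) (n := (m + 1) ^ 2) (L := m) (N := m) (r := 2 * m + 4)
    (α := 1) (β := de m) (ζ := ze m) (s := 1) (m := 0) hN le_rfl
    (by simp; omega) (by push_cast; ring) (by push_cast; ring)
    (by
      intro E hE
      left
      refine ⟨⟨m * (m + 2), by ring⟩, ⟨-(1 + m * (m + 2)), ?_⟩⟩
      push_cast at hE ⊢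
      linarith)
  have h1 : I ((m + 1) ^ 2) 1 (GS (I3 m) ((m + 1) ^ 2) m (q ^ (1 : ℤ)) (q ^ de m) (q ^ ze m) 0) := by
    rw [h]; exact ⟨g 0, hg 0, by rw [pow_one]⟩
  have h2 : ∀ i : ℕ, i < m → ¬ (((m + 1) ^ 2 : ℕ) : ℤ) ∣ de m * (i + 1) := by
    intro i hi hd
    apply not_dvd m i hi
    refine dvd_trans ?_ hd
    push_cast
    exact Dvd.intro_left _ (by ring : ((m : ℤ) + 1) * (m + 1) = (m + 1) ^ 2)
  have h3 := sum_of_Gn (J := Option (I3 m)) (b := fun _ => q ^ (1 : ℤ)) (bs := fun _ => q ^ de m)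
    (l := lS) (fun _ i hi => std_unit hN h2 i hi) h1
  refine (congrArg (I ((m + 1) ^ 2) 1) ?_).mp h3
  rw [S0]
  refine sum_congr rfl fun k _ => ?_
  rw [prod_const, card_univ, card_I3, zpow_one, de_eq, ze_eq]
  have e1 : (q : RatFunc ℚ) * (q ^ (m + 2)) ^ (2 * k) = q ^ (2 * (m + 2) * k + 1) := by
    rw [← pow_mul, ← pow_succ']; congr 1; ring
  rw [e1, ← pow_mul]
  ring

/-- for a prime `p`: the congruence modulo `Φ_p⁵ Φ_{p²}` -/
theorem final {p : ℕ} (hp : p.Prime) :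
    (cyclotomic (p ^ 2) ℚ * (∑ i ∈ range p, X ^ i : ℚ[X]) ^ 5) ∣
      ((1 - q)⁻¹ * S0 (p - 1) - (-(φ (C (((p : ℚ) * (p - 1) * (p + 1) ^ 2 * (2 * p + 1)) / 72)) * q *
        (1 - q) ^ 2 * ((1 - q ^ p) / (1 - q)) ^ 4 * φ (cyclotomic (p ^ 2) ℚ)))).num := by
  obtain ⟨μ, rfl⟩ : ∃ μ, p = μ + 2 := ⟨p - 2, by have := hp.two_le; omega⟩
  set p := μ + 2 with hpd
  have hp0 : 0 < p := by omega
  have hcy : cyclotomic p ℚ = ∑ i ∈ range p, X ^ i := by
    haveI := Fact.mk hp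
    exact cyclotomic_prime ℚ p
  have hq0 : (1 - q : RatFunc ℚ) ≠ 0 := by
    have := one_sub_ne (k := 1) one_pos
    rwa [pow_one] at this
  -- `1 - q^p = (1-q) Φ_p`
  have f1 : (1 - q ^ p : RatFunc ℚ) = (1 - q) * φ (cyclotomic p ℚ) := by
    rw [hcy, one_sub_qpow, show (1 - q : RatFunc ℚ) = φ (1 - X) by
      rw [map_sub, map_one, φ_X], ← map_mul]
    congr 1
    have := mul_neg_geom_sum (X : ℚ[X]) p
    exact this.symm
  have f2 : (1 - q ^ (p * p) : RatFunc ℚ) =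
      (1 - q) * φ (cyclotomic p ℚ) * φ (cyclotomic (p ^ 2) ℚ) := by
    rw [← f1, one_sub_qpow, one_sub_qpow, ← map_mul]
    congr 1
    have h1 : cyclotomic (p ^ 2) ℚ * (X ^ p ^ 1 - 1) = X ^ p ^ (1 + 1) - 1 := by
      haveI := Fact.mk hp
      exact cyclotomic_prime_pow_mul_X_pow_sub_one ℚ p 1
    rw [pow_one] at h1
    have h2 : (X : ℚ[X]) ^ (p * p) = X ^ p ^ (1 + 1) := by congr 1; ring
    rw [h2]
    linear_combination h1
  have hunit : ∀ n : ℕ, 1 < n → (1 - q : RatFunc ℚ)⁻¹ ∈ R n := by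
    intro n hn
    have := inv_one_sub (n := n) (k := 1) (by omega) (by
      intro h
      have := Nat.le_of_dvd one_pos h
      omega)
    rwa [pow_one] at this
  have hc72 : φ (C (((p : ℚ) * (p - 1) * (p + 1) ^ 2 * (2 * p + 1)) / 72)) =
      ((p : RatFunc ℚ) * (p - 1) * (p + 1) ^ 2 * (2 * p + 1)) * (72)⁻¹ := by
    have h72 : φ (C (72 : ℚ)) = (72 : RatFunc ℚ) := by
      rw [show (Polynomial.C (72 : ℚ)) = ((72 : ℕ) : ℚ[X]) by
        rw [← Polynomial.C_eq_natCast]; norm_num, map_natCast]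
      norm_num
    have h72' : (72 : RatFunc ℚ) ≠ 0 := by
      rw [← h72]; exact φ_ne (by simp)
    rw [eq_mul_inv_iff_mul_eq₀ h72', ← h72, ← map_mul, ← C_mul, div_mul_cancel₀ _ (by norm_num)]
    have e1 : φ (C (p : ℚ)) = (p : RatFunc ℚ) := by rw [Polynomial.C_eq_natCast, map_natCast]
    simp only [C_mul, C_sub, C_add, C_pow, map_mul, map_sub, map_add, map_pow, e1, C_1, map_one]
    have e2 : φ (C (2 : ℚ)) = (2 : RatFunc ℚ) := by
      rw [show (Polynomial.C (2 : ℚ)) = ((2 : ℕ) : ℚ[X]) by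
        rw [← Polynomial.C_eq_natCast]; norm_num, map_natCast]
      norm_num
    rw [e2]
  set x : RatFunc ℚ := (1 - q)⁻¹ * S0 (p - 1) -
    (-(φ (C (((p : ℚ) * (p - 1) * (p + 1) ^ 2 * (2 * p + 1)) / 72)) * q *
        (1 - q) ^ 2 * ((1 - q ^ p) / (1 - q)) ^ 4 * φ (cyclotomic (p ^ 2) ℚ))) with hx
  have hpr : (p : RatFunc ℚ) = μ + 2 := by rw [hpd]; push_cast; ring
  have x5 : I p 5 x := by
    have h1 := I.R_mul (hunit p (by omega)) (S0_five μ)
    refine (congrArg (I p 5) ?_).mp h1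
    rw [← hpd, f1, f2, hx, hc72, f1, hpr, show p - 1 = μ + 1 by omega]
    field_simp
    ring
  have x1 : I (p ^ 2) 1 x := by
    have h1 := I.R_mul (hunit (p ^ 2) (by nlinarith)) (S0_sq (m := μ + 1) (by omega))
    rw [hx, show p - 1 = μ + 1 by omega]
    refine h1.sub (I.neg ?_)
    refine I.R_mul ?_ ⟨1, one_mem _, by rw [pow_one, mul_one]⟩
    have h2 : (1 - q ^ p) / (1 - q) ∈ R (p ^ 2) := by
      rw [div_eq_mul_inv]
      exact mul_mem (sub_mem (one_mem _) (qpow_mem _)) (hunit _ (by nlinarith))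
    exact mul_mem (mul_mem (mul_mem (φ_mem _) q_mem) (pow_mem (sub_mem (one_mem _) q_mem) 2))
      (pow_mem h2 4)
  have d5 := x5.num_dvd hp0
  have d1 := x1.num_dvd (by positivity)
  rw [pow_one] at d1
  rw [← hcy]
  refine IsCoprime.mul_dvd ?_ d1 d5
  refine IsCoprime.pow_right ?_
  exact cyclotomic.isCoprime_rat (by nlinarith)

end

end V11316.P9
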