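import Mathlib

/-!
`q`-shifted factorials in a field and the orthogonality relation
`∑_k (B^{-N};B)_k / (B;B)_k · B^k P(B^k) = 0` for `deg P < N`.
-/

open Finset Polynomial

namespace V11316

variable {K : Type*} [Field K]

/-- `(a; B)_k` -/
def poch (B a : K) (k : ℕ) : K := ∏ i ∈ range k, (1 - a * B ^ i)

@[simp] theorem poch_zero (B a : K) : poch B a 0 = 1 := by simp [poch]

theorem poch_succ (B a : K) (k : ℕ) : poch B a (k + 1) = poch B a k * (1 - a * B ^ k) := by
  rw [poch, prod_range_succ, poch]

theorem poch_succ' (B a : K) (k : ℕ) : poch B a (k + 1) = (1 - a) * poch B (a * B) k := by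
  rw [poch, prod_range_succ', poch]
  simp only [pow_zero, mul_one, pow_succ']
  rw [mul_comm]
  congr 1
  exact prod_congr rfl fun i _ => by ring

theorem poch_add (B a : K) (k l : ℕ) : poch B a (k + l) = poch B a k * poch B (a * B ^ k) l := by
  rw [poch, prod_range_add, poch, poch]
  congr 1
  exact prod_congr rfl fun i _ => by rw [pow_add]; ring

theorem poch_ne_zero {B a : K} {k : ℕ} (h : ∀ i < k, a * B ^ i ≠ 1) : poch B a k ≠ 0 := by
  rw [poch, prod_ne_zero_iff]
  intro i hi
  exact sub_ne_zero.2 (h i (mem_range.1 hi)).symm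

/-- summation by parts -/
theorem sum_by_parts (u U P : ℕ → K) (h0 : U 0 = u 0) (h : ∀ k, U (k + 1) = U k + u (k + 1))
    (n : ℕ) : ∑ k ∈ range (n + 1), u k * P k =
      U n * P n - ∑ k ∈ range n, U k * (P (k + 1) - P k) := by
  induction n with
  | zero => simp [h0]
  | succ n ih =>
    rw [sum_range_succ, ih, sum_range_succ _ n, h n]
    ring

/-- `∑_{i ≤ k} (b)_i/(B)_i B^i = (bB)_k/(B)_k`, in incremental form. -/
theorem partial_step {B b : K} {k : ℕ} (hB : poch B B (k + 1) ≠ 0) :
    poch B (b * B) (k + 1) / poch B B (k + 1) =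
      poch B (b * B) k / poch B B k + poch B b (k + 1) / poch B B (k + 1) * B ^ (k + 1) := by
  rw [poch_succ B B] at hB ⊢
  have h1 : poch B B k ≠ 0 := left_ne_zero_of_mul hB
  have h2 : (1 - B * B ^ k) ≠ 0 := right_ne_zero_of_mul hB
  rw [poch_succ' B b, poch_succ B (b * B)]
  field_simp
  ring

/-- The orthogonality relation. -/
theorem orthB {B : K} (hB0 : B ≠ 0) (hB : ∀ k, poch B B k ≠ 0) :
    ∀ (N : ℕ) (P : K[X]), P.degree < N →
      ∑ k ∈ range (N + 1), poch B ((B ^ N)⁻¹) k / poch B B k * B ^ k * P.eval (B ^ k) = 0 := by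
  intro N
  induction N with
  | zero =>
    intro P hP
    have : P = 0 := by
      by_contra h
      have h1 := Polynomial.zero_le_degree_iff.2 h
      exact absurd hP (not_lt.2 (by simpa using h1))
    simp [this]
  | succ N ih =>
    intro P hP
    set b : K := (B ^ (N + 1))⁻¹ with hb
    have hbB : b * B = (B ^ N)⁻¹ := by
      rw [hb, pow_succ]; field_simp
    set D : K[X] := P.comp (C B * X) - P with hD
    have hDe : ∀ z, D.eval z = P.eval (B * z) - P.eval z := by
      intro z; simp [hD, eval_comp]
    have hD0 : D.coeff 0 = 0 := by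
      rw [coeff_zero_eq_eval_zero, hDe]; simp
    have hDX : D.divX * X = D := by
      have := divX_mul_X_add D
      rw [hD0] at this
      simpa using this
    have hDd : D.degree < (N + 1 : ℕ) := by
      refine lt_of_le_of_lt (degree_sub_le _ _) (max_lt ?_ hP)
      refine lt_of_le_of_lt ?_ hP
      by_cases hP0 : P = 0
      · simp [hP0]
      · rw [degree_eq_natDegree hP0]
        refine degree_le_of_natDegree_le ?_
        refine natDegree_comp_le.trans ?_
        have : (C B * X : K[X]).natDegree ≤ 1 := by
          simpa using natDegree_C_mul_X_pow_le B 1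
        nlinarith
    have hDx : D.divX.degree < N := by
      by_cases h0 : D = 0
      · rw [h0]; simp
      · have h1 := degree_divX_lt h0
        have h2 : D.degree ≤ N := by
          rw [degree_eq_natDegree h0] at hDd ⊢
          norm_cast at hDd ⊢
          omega
        exact lt_of_lt_of_le h1 h2
    have key := sum_by_parts (fun k => poch B b k / poch B B k * B ^ k)
      (fun k => poch B (b * B) k / poch B B k) (fun k => P.eval (B ^ k)) (by simp)
      (fun k => partial_step (hB (k + 1))) (N + 1)
    rw [key]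
    have hz : poch B (b * B) (N + 1) = 0 := by
      rw [poch_succ, hbB]
      have : (B ^ N)⁻¹ * B ^ N = 1 := inv_mul_cancel₀ (pow_ne_zero _ hB0)
      rw [this]; simp
    have h3 := ih D.divX hDx
    have h4 : ∑ k ∈ range (N + 1), poch B (b * B) k / poch B B k *
        (P.eval (B ^ (k + 1)) - P.eval (B ^ k)) =
        ∑ k ∈ range (N + 1), poch B ((B ^ N)⁻¹) k / poch B B k * B ^ k *
          D.divX.eval (B ^ k) := by
      refine sum_congr rfl fun k _ => ?_
      rw [hbB, pow_succ' B k, ← hDe]
      conv_lhs => rw [← hDX]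
      rw [eval_mul, eval_X]
      ring
    rw [h4, h3, hz]
    simp

end V11316
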