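import Pool.Agent.V11307.QLoc
import Pool.Agent.V11316.An
import Pool.Agent.V11316.Poch

/-!
Linking the local ring `R n ⊆ ℚ(q)` at `Φ_n` with the difference classes `An`.
-/

open Finset Polynomial

namespace V11316

open V11307.Q

noncomputable section

/-- the uniformiser `Φ_n` -/
abbrev cyc (n : ℕ) : RatFunc ℚ := φ (cyclotomic n ℚ)

theorem cyc_ne (n : ℕ) : cyc n ≠ 0 := φ_ne (cyclotomic_ne_zero n ℚ)

/-- the class `An` at `Φ_n` -/
abbrev AQ {M : Type*} [AddCommGroup M] (n m : ℕ) (f : M → RatFunc ℚ) : Prop :=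
  An (R n) (cyc n) m f

variable {M : Type*} [AddCommGroup M] {n m : ℕ}

theorem AQ_Q (hn : 0 < n) (l : M →+ ℤ) : AQ n m (fun c => (q ^ n : RatFunc ℚ) ^ (l c)) := by
  refine An.zpow _ (pow_ne_zero _ q_ne) (fun e => ?_) (fun e => ?_) l m
  · rw [← zpow_natCast, ← zpow_mul]; exact zpow_mem' hn _
  · obtain ⟨y, hy, h⟩ := I_one_sub hn (e := (n : ℤ) * e) (Dvd.intro _ rfl)
    refine ⟨-y, neg_mem hy, ?_⟩
    rw [← zpow_natCast, ← zpow_mul]
    rw [pow_one] at h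
    linear_combination -h

theorem qpow_mem (k : ℕ) : (q ^ k : RatFunc ℚ) ∈ R n := pow_mem q_mem k

theorem AQ_poch {B : RatFunc ℚ} (hB : B ∈ R n) {a : M → RatFunc ℚ} (ha : AQ n m a) (k : ℕ) :
    AQ n m (fun c => poch B (a c) k) := by
  refine An.prod (range k) fun i _ => ?_
  exact (An.const (one_mem _)).sub (ha.mul (An.const (pow_mem hB i)))

/-- `x ∈ Φ_n^k R` as an additive subgroup -/
def Isg (n k : ℕ) : AddSubgroup (RatFunc ℚ) where
  carrier := {x | I n k x}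
  add_mem' := fun h1 h2 => I.add h1 h2
  zero_mem' := I.zero
  neg_mem' := fun h => I.neg h

theorem mem_Isg {k : ℕ} {x : RatFunc ℚ} : x ∈ Isg n k ↔ I n k x := Iff.rfl

theorem int_inv_mem {z : ℤ} (hz : z ≠ 0) : ((z : RatFunc ℚ))⁻¹ ∈ R n := by
  have h : φ (Polynomial.C (z : ℚ)) = (z : RatFunc ℚ) := by
    have : (Polynomial.C (z : ℚ)) = ((z : ℤ) : ℚ[X]) := by simp
    rw [this, map_intCast]
  have h2 : φ (Polynomial.C ((z : ℚ)⁻¹)) * (z : RatFunc ℚ) = 1 := by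
    rw [← h, ← map_mul, ← Polynomial.C_mul, inv_mul_cancel₀ (by exact_mod_cast hz)]
    simp
  rw [← eq_inv_of_mul_eq_one_left h2]
  exact φ_mem _

theorem Isg_tor {k : ℕ} {x : RatFunc ℚ} {z : ℤ} (hz : z ≠ 0) (h : I n k (z • x)) : I n k x := by
  have h0 : (z : RatFunc ℚ) ≠ 0 := by
    intro h0
    have h : φ (Polynomial.C (z : ℚ)) = (z : RatFunc ℚ) := by
      have : (Polynomial.C (z : ℚ)) = ((z : ℤ) : ℚ[X]) := by simp
      rw [this, map_intCast]
    rw [← h] at h0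
    have h1 : (Polynomial.C (z : ℚ)) = 0 := φ_inj (by rw [h0, map_zero])
    have h2 : (z : ℚ) = 0 := by simpa using h1
    exact hz (by exact_mod_cast h2)
  have h1 : x = (z : RatFunc ℚ)⁻¹ * (z • x) := by
    rw [zsmul_eq_mul]; field_simp
  rw [h1]
  exact I.R_mul (int_inv_mem hz) h

/-- the quotient `ℚ(q) / Φ_n^k R` (as a group) has no torsion -/
theorem quot_tor {k : ℕ} (a : RatFunc ℚ ⧸ Isg n k) {z : ℤ} (hz : z ≠ 0) (h : z • a = 0) :
    a = 0 := by
  induction a using QuotientAddGroup.induction_on with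
  | H x =>
    rw [← QuotientAddGroup.mk_zsmul, QuotientAddGroup.eq_zero_iff, mem_Isg] at h
    rw [QuotientAddGroup.eq_zero_iff, mem_Isg]
    exact Isg_tor hz h

theorem I_iff_cyc {k : ℕ} {x : RatFunc ℚ} : I n k x ↔ ∃ y ∈ R n, x = cyc n ^ k * y := Iff.rfl

theorem I_of_cyc_mul {k : ℕ} {x : RatFunc ℚ} (h : I n k x) : I n (k + 1) (cyc n * x) := by
  obtain ⟨y, hy, rfl⟩ := h
  exact ⟨y, hy, by rw [pow_succ]; ring⟩

theorem one_sub_unit (hn : 0 < n) {k : ℕ} (h : ¬ n ∣ k) : (1 - q ^ k)⁻¹ ∈ R n :=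
  inv_one_sub hn h

/-- `(q^m; q^m)_k` is nonzero -/
theorem poch_qm_ne {m : ℕ} (hm : 0 < m) (k : ℕ) :
    poch (q ^ m : RatFunc ℚ) (q ^ m) k ≠ 0 := by
  refine poch_ne_zero fun i _ h => ?_
  have : (1 : RatFunc ℚ) - q ^ (m * (i + 1)) ≠ 0 := one_sub_ne (by positivity)
  apply this
  rw [pow_mul, pow_succ', h, sub_self]

theorem poch_inv_mem {B a : RatFunc ℚ} {k : ℕ} (h : ∀ i < k, (1 - a * B ^ i)⁻¹ ∈ R n) :
    (poch B a k)⁻¹ ∈ R n := by
  rw [poch, ← prod_inv_distrib]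
  exact prod_mem fun i hi => h i (mem_range.1 hi)

/-- `(q^m; q^m)_k` is a unit at `Φ_n` for `k < n` when `gcd(n,m)=1` -/
theorem poch_qm_inv (hn : 0 < n) {m k : ℕ} (hc : n.Coprime m) (hk : k < n) :
    (poch (q ^ m : RatFunc ℚ) (q ^ m) k)⁻¹ ∈ R n := by
  refine poch_inv_mem fun i hi => ?_
  rw [← pow_succ', ← pow_mul]
  refine one_sub_unit hn fun hd => ?_
  have h1 := hc.dvd_of_dvd_mul_left hd
  have := Nat.le_of_dvd (Nat.succ_pos _) h1
  omega

/-- integral form of the divisibility -/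
theorem I.int {k : ℕ} {x : RatFunc ℚ} (hn : 0 < n) (h : I n k x) :
    ∃ A B : ℤ[X], ¬ cyclotomic n ℤ ∣ B ∧ cyclotomic n ℤ ^ k ∣ A ∧
      x * φ (B.map (Int.castRingHom ℚ)) = φ (A.map (Int.castRingHom ℚ)) := by
  obtain ⟨y, ⟨a, b, hb, hb0, hy⟩, rfl⟩ := h
  obtain ⟨d, hdm, hd⟩ := IsLocalization.integerNormalization_spec (nonZeroDivisors ℤ) a
  obtain ⟨e, hem, he⟩ := IsLocalization.integerNormalization_spec (nonZeroDivisors ℤ) b
  set a' := IsLocalization.integerNormalization (nonZeroDivisors ℤ) a with ha'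
  set b' := IsLocalization.integerNormalization (nonZeroDivisors ℤ) b with hb'
  have hd' : a'.map (Int.castRingHom ℚ) = C ((d : ℤ) : ℚ) * a := by
    have h1 : a'.map (Int.castRingHom ℚ) = d • a := hd
    rw [h1, zsmul_eq_mul, map_intCast]
  have he' : b'.map (Int.castRingHom ℚ) = C ((e : ℤ) : ℚ) * b := by
    have h1 : b'.map (Int.castRingHom ℚ) = e • b := he
    rw [h1, zsmul_eq_mul, map_intCast]
  have hd0 : ((d : ℤ) : ℚ) ≠ 0 := by exact_mod_cast nonZeroDivisors.ne_zero hdm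
  have he0 : ((e : ℤ) : ℚ) ≠ 0 := by exact_mod_cast nonZeroDivisors.ne_zero hem
  refine ⟨cyclotomic n ℤ ^ k * (C (e : ℤ) * a'), C (d : ℤ) * b', ?_, Dvd.intro _ rfl, ?_⟩
  · intro hdvd
    have h1 := Polynomial.map_dvd (Int.castRingHom ℚ) hdvd
    rw [map_cyclotomic_int, Polynomial.map_mul, he', Polynomial.map_C] at h1
    have hirr := cyc_irr hn
    have hp : Prime (cyclotomic n ℚ) := hirr.prime
    have hu : IsUnit (C ((d : ℤ) : ℚ)) := by
      rw [isUnit_C]; exact isUnit_iff_ne_zero.2 hd0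
    have hu' : IsUnit (C ((e : ℤ) : ℚ)) := by
      rw [isUnit_C]; exact isUnit_iff_ne_zero.2 he0
    have h2 : cyclotomic n ℚ ∣ b := by
      have h3 : cyclotomic n ℚ ∣ C ((d : ℤ) : ℚ) * (C ((e : ℤ) : ℚ) * b) := by simpa using h1
      rw [hu.dvd_mul_left, hu'.dvd_mul_left] at h3
      exact h3
    exact hirr.not_isUnit (hb.isUnit_of_dvd' h2 dvd_rfl)
  · rw [Polynomial.map_mul, Polynomial.map_mul, Polynomial.map_mul, Polynomial.map_pow,
      map_cyclotomic_int, hd', he', Polynomial.map_C, Polynomial.map_C]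
    simp only [map_mul, map_pow]
    rw [← hy]
    simp only [eq_intCast]
    ring

end

end V11316
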