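import Pool.Agent.V11316.Van

/-!
Ratios of `q`-Pochhammer products at `n^t`, `n ≡ 1 (mod 4)`.
-/

open Finset Polynomial

namespace V11316.R748

open V11307.Q V11316

noncomputable section

/-- `(n^t - 1)/4` -/
def Mt (n t : ℕ) : ℕ := (n ^ t - 1) / 4

theorem Mt_spec (h t : ℕ) : 4 * Mt (4 * h + 1) t + 1 = (4 * h + 1) ^ t := by
  have h1 : 4 ∣ (4 * h + 1) ^ t - 1 := by
    have := Nat.sub_dvd_pow_sub_pow (4 * h + 1) 1 t
    rw [one_pow, Nat.add_sub_cancel] at this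
    exact (Dvd.intro _ rfl).trans this
  have h2 : 0 < (4 * h + 1) ^ t := by positivity
  rw [Mt, Nat.mul_div_cancel' h1]
  omega

theorem Mt_succ (h t : ℕ) : Mt (4 * h + 1) (t + 1) = (4 * h + 1) * Mt (4 * h + 1) t + h := by
  have h1 := Mt_spec h t
  have h2 := Mt_spec h (t + 1)
  rw [pow_succ, ← h1] at h2
  have h3 : (4 * Mt (4 * h + 1) t + 1) * (4 * h + 1) =
      4 * ((4 * h + 1) * Mt (4 * h + 1) t + h) + 1 := by ring
  omega

theorem Mt_zero (h : ℕ) : Mt (4 * h + 1) 0 = 0 := by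
  have := Mt_spec h 0
  rw [pow_zero] at this
  omega

/-- `f(j) = (1 - q^j)/(1 - q^{W-j})` -/
def ff (W j : ℕ) : RatFunc ℚ := (1 - q ^ j) / (1 - q ^ (W - j))

/-- reflection of a product -/
theorem refl_prod {a b W : ℕ} (hab : a ≤ b) (c : ℕ) (hW : c * (2 * (a + b) + 1) = W) :
    ∏ i ∈ Ico a b, ((1 - q ^ (c * (2 * i + 1))) / (1 - q ^ (c * (2 * i + 2))) : RatFunc ℚ) =
      ∏ i ∈ Ico a b, ff W (c * (2 * i + 1)) := by
  obtain ⟨m, rfl⟩ := Nat.exists_eq_add_of_le hab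
  rw [prod_div_distrib]
  simp only [ff]
  rw [prod_div_distrib]
  congr 1
  rw [prod_Ico_eq_prod_range, prod_Ico_eq_prod_range, ← prod_range_reflect]
  refine prod_congr rfl fun j hj => ?_
  have hj' : j < m := by simpa using hj
  congr 2
  have e1 : a + m - a = m := by omega
  rw [e1]
  have h1 : c * (2 * (a + j) + 1) + c * (2 * (a + (m - 1 - j)) + 2) = W := by
    rw [← hW, ← mul_add]
    congr 1
    omega
  omega

/-- the product with the multiples of `n` left out -/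
def PP (n a b W : ℕ) : RatFunc ℚ :=
  ∏ i ∈ Ico a b, if n ∣ 2 * i + 1 then 1 else ff W (2 * i + 1)

theorem filter_eq {h a b a' b' : ℕ} (hh : 0 < h) (ha : a = (4 * h + 1) * a' + h)
    (hb : b = (4 * h + 1) * b' + h) :
    (Ico a b).filter (fun i => (4 * h + 1) ∣ 2 * i + 1) =
      (Ico a' b').image (fun i => (4 * h + 1) * i + 2 * h) := by
  ext i
  simp only [mem_filter, mem_Ico, mem_image]
  constructor
  · rintro ⟨⟨h2, h3⟩, ⟨c, hc⟩⟩
    have hodd : c % 2 = 1 := by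
      rcases Nat.mod_two_eq_zero_or_one c with h4 | h4
      · exfalso
        obtain ⟨c', rfl⟩ : ∃ c', c = 2 * c' := ⟨c / 2, by omega⟩
        have : (4 * h + 1) * (2 * c') = 2 * ((4 * h + 1) * c') := by ring
        omega
      · exact h4
    obtain ⟨c', rfl⟩ : ∃ c', c = 2 * c' + 1 := ⟨c / 2, by omega⟩
    have h5 : i = (4 * h + 1) * c' + 2 * h := by
      have : (4 * h + 1) * (2 * c' + 1) = 2 * ((4 * h + 1) * c' + 2 * h) + 1 := by ring
      omega
    refine ⟨c', ⟨?_, ?_⟩, h5.symm⟩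
    · by_contra h6
      have h7 : c' + 1 ≤ a' := by omega
      have := Nat.mul_le_mul_left (4 * h + 1) h7
      rw [mul_add] at this
      omega
    · by_contra h6
      have h7 : b' ≤ c' := by omega
      have := Nat.mul_le_mul_left (4 * h + 1) h7
      omega
  · rintro ⟨i', ⟨h1, h2⟩, rfl⟩
    refine ⟨⟨?_, ?_⟩, ⟨2 * i' + 1, by ring⟩⟩
    · rw [ha]
      have := Nat.mul_le_mul_left (4 * h + 1) h1
      omega
    · rw [hb]
      have h2 : i' + 1 ≤ b' := h2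
      have := Nat.mul_le_mul_left (4 * h + 1) h2
      rw [mul_add] at this
      omega

theorem inj_map (h : ℕ) : Function.Injective (fun i => (4 * h + 1) * i + 2 * h) := by
  intro i j hij
  have : (4 * h + 1) * i = (4 * h + 1) * j := by
    have := hij
    simp only at this
    omega
  exact Nat.eq_of_mul_eq_mul_left (by omega) this

theorem PP_eq {h a b a' b' W : ℕ} (hh : 0 < h) (ha : a = (4 * h + 1) * a' + h)
    (hb : b = (4 * h + 1) * b' + h) :
    (∏ i ∈ Ico a b, ff W (2 * i + 1)) =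
      (∏ i ∈ Ico a' b', ff W ((4 * h + 1) * (2 * i + 1))) * PP (4 * h + 1) a b W := by
  have h1 : ∏ i ∈ Ico a b, ff W (2 * i + 1) =
      (∏ i ∈ Ico a b, if (4 * h + 1) ∣ 2 * i + 1 then ff W (2 * i + 1) else 1) *
        PP (4 * h + 1) a b W := by
    rw [PP, ← prod_mul_distrib]
    refine prod_congr rfl fun i _ => ?_
    split_ifs <;> simp
  rw [h1]
  congr 1
  rw [← prod_filter, filter_eq hh ha hb, prod_image (inj_map h).injOn]
  refine prod_congr rfl fun i _ => ?_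
  congr 1
  ring

theorem sum_odd (a b : ℕ) (hab : a ≤ b) : ∑ i ∈ Ico a b, (2 * i + 1) + a * a = b * b := by
  induction b, hab using Nat.le_induction with
  | base => simp
  | succ b hb ih =>
    rw [Finset.sum_Ico_succ_top hb]
    linear_combination ih

/-- cardinality and sum of the index set -/
theorem card_sum {h a b a' b' W : ℕ} (hh : 0 < h) (hab : a' ≤ b')
    (ha : a = (4 * h + 1) * a' + h) (hb : b = (4 * h + 1) * b' + h)
    (hW : 2 * (a + b) + 1 = W) :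
    ((Ico a b).filter (fun i => ¬ (4 * h + 1) ∣ 2 * i + 1)).card = 2 * (2 * h * (b' - a')) ∧
    ∑ i ∈ (Ico a b).filter (fun i => ¬ (4 * h + 1) ∣ 2 * i + 1), (2 * i + 1) =
      W * (2 * h * (b' - a')) := by
  obtain ⟨m, rfl⟩ := Nat.exists_eq_add_of_le hab
  have hab' : a ≤ b := by
    rw [ha, hb]
    have := Nat.mul_le_mul_left (4 * h + 1) hab
    omega
  have c1 : ((Ico a b).filter (fun i => (4 * h + 1) ∣ 2 * i + 1)).card = m := by
    rw [filter_eq hh ha hb, card_image_of_injective _ (inj_map h)]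
    simp
  have c2 := Finset.card_filter_add_card_filter_not (s := Ico a b)
    (fun i => (4 * h + 1) ∣ 2 * i + 1)
  have c3 : (Ico a b).card = (4 * h + 1) * m := by
    rw [Nat.card_Ico, hb, ha, mul_add]
    omega
  have s1 : ∑ i ∈ (Ico a b).filter (fun i => (4 * h + 1) ∣ 2 * i + 1), (2 * i + 1) =
      (4 * h + 1) * ∑ i ∈ Ico a' (a' + m), (2 * i + 1) := by
    rw [filter_eq hh ha hb, sum_image (inj_map h).injOn, mul_sum]
    exact sum_congr rfl fun i _ => by ring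
  have s2 := Finset.sum_filter_add_sum_filter_not (Ico a b)
    (fun i => (4 * h + 1) ∣ 2 * i + 1) (fun i => 2 * i + 1)
  have s3 := sum_odd a b hab'
  have s4 := sum_odd a' (a' + m) (Nat.le_add_right _ _)
  rw [Nat.add_sub_cancel_left]
  constructor
  · have : (4 * h + 1) * m = m + 2 * (2 * h * m) := by ring
    omega
  · rw [s1] at s2
    clear c1 c2 c3 s1 hab hab'
    subst hW
    subst ha
    subst hb
    zify at s2 s3 s4 ⊢
    linear_combination s2 + s3 - (4 * (h : ℤ) + 1) * s4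

/-! ### the local computation -/

/-- `2/(1-q^j) - 1 = (1+q^j)/(1-q^j)` -/
def χ (j : ℕ) : RatFunc ℚ := 2 * (1 - q ^ j)⁻¹ - 1

theorem inv_sub_inv {N : ℕ} {x y : RatFunc ℚ} (hx0 : x ≠ 0) (hy0 : y ≠ 0) (hx : x⁻¹ ∈ R N)
    (hy : y⁻¹ ∈ R N) {k : ℕ} (h : I N k (x - y)) : I N k (x⁻¹ - y⁻¹) := by
  have : x⁻¹ - y⁻¹ = (x - y) * (-(x⁻¹ * y⁻¹)) := by field_simp; ring
  rw [this]
  exact h.mul_R (neg_mem (mul_mem hx hy))

theorem χ_add {N j : ℕ} (hN : 0 < N) (hj : ¬ N ∣ j) (m : ℕ) : I N 1 (χ (j + N * m) - χ j) := by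
  have hj0 : 0 < j := Nat.pos_of_ne_zero (by rintro rfl; exact hj (dvd_zero _))
  have hj' : ¬ N ∣ j + N * m := by
    intro h; exact hj ((Nat.dvd_add_left (Dvd.intro _ rfl)).1 h)
  have h1 : I N 1 ((1 - q ^ (j + N * m)) - (1 - q ^ j) : RatFunc ℚ) := by
    have h2 := I_one_sub (n := N) hN (e := ((N * m : ℕ) : ℤ)) (by push_cast; exact Dvd.intro _ rfl)
    rw [zpow_natCast] at h2
    have h3 := I.R_mul (qpow_mem (n := N) j) h2
    refine (congrArg (I N 1) ?_).mp h3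
    rw [pow_add]; ring
  have h2 := inv_sub_inv (one_sub_ne (by omega)) (one_sub_ne hj0) (inv_one_sub hN hj')
    (inv_one_sub hN hj) h1
  have h3 : χ (j + N * m) - χ j = 2 * ((1 - q ^ (j + N * m))⁻¹ - (1 - q ^ j)⁻¹) := by
    rw [χ, χ]; ring
  rw [h3]
  exact I.R_mul (by
    have : (2 : RatFunc ℚ) = 1 + 1 := by norm_num
    rw [this]; exact add_mem (one_mem _) (one_mem _)) h2

theorem χ_neg {N j j' m : ℕ} (hN : 0 < N) (hj : ¬ N ∣ j) (h : j + j' = N * m) :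
    I N 1 (χ j + χ j') := by
  have hj0 : 0 < j := Nat.pos_of_ne_zero (by rintro rfl; exact hj (dvd_zero _))
  have hj' : ¬ N ∣ j' := by
    intro h1
    apply hj
    have : N ∣ j + j' := by rw [h]; exact Dvd.intro _ rfl
    exact (Nat.dvd_add_left h1).1 this
  have hj0' : 0 < j' := Nat.pos_of_ne_zero (by rintro rfl; exact hj' (dvd_zero _))
  have h2 := I_one_sub (n := N) hN (e := ((N * m : ℕ) : ℤ)) (by push_cast; exact Dvd.intro _ rfl)
  rw [zpow_natCast, ← h] at h2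
  have e1 : χ j + χ j' = (1 - q ^ (j + j')) * (2 * ((1 - q ^ j)⁻¹ * (1 - q ^ j')⁻¹)) := by
    have h3 : (1 - q ^ j : RatFunc ℚ) ≠ 0 := one_sub_ne hj0
    have h4 : (1 - q ^ j' : RatFunc ℚ) ≠ 0 := one_sub_ne hj0'
    rw [χ, χ, pow_add]
    field_simp
    ring
  rw [e1]
  refine h2.mul_R (mul_mem ?_ (mul_mem (inv_one_sub hN hj) (inv_one_sub hN hj')))
  have : (2 : RatFunc ℚ) = 1 + 1 := by norm_num
  rw [this]; exact add_mem (one_mem _) (one_mem _)

/-- the summand -/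
def G (n i : ℕ) : RatFunc ℚ := if n ∣ 2 * i + 1 then 0 else χ (2 * i + 1)

theorem window {n N : ℕ} (hN : 0 < N) (hnN : n ∣ N) (a : ℕ) :
    I N 1 (∑ i ∈ Ico a (a + N), G n i) := by
  have hper : ∀ i, I N 1 (G n (i + N) - G n i) := by
    intro i
    have e1 : 2 * (i + N) + 1 = (2 * i + 1) + N * 2 := by ring
    have e2 : n ∣ 2 * (i + N) + 1 ↔ n ∣ 2 * i + 1 := by
      rw [e1]; exact Nat.dvd_add_left (hnN.mul_right 2)
    rw [G, G]
    by_cases h : n ∣ 2 * i + 1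
    · rw [if_pos h, if_pos (e2.2 h)]; simpa using I.zero
    · rw [if_neg h, if_neg (fun h1 => h (e2.1 h1)), e1]
      exact χ_add hN (fun h1 => h (hnN.trans h1)) 2
  induction a with
  | zero =>
    rw [zero_add, ← Finset.range_eq_Ico]
    have h1 : I N 1 (∑ i ∈ range N, (G n i + G n (N - 1 - i))) := by
      refine I.sum fun i hi => ?_
      have hi' := mem_range.1 hi
      have e1 : (2 * i + 1) + (2 * (N - 1 - i) + 1) = N * 2 := by omega
      have e2 : n ∣ 2 * (N - 1 - i) + 1 ↔ n ∣ 2 * i + 1 := by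
        have h2 : n ∣ (2 * i + 1) + (2 * (N - 1 - i) + 1) := by rw [e1]; exact hnN.mul_right 2
        constructor
        · intro h3; exact (Nat.dvd_add_left h3).1 h2
        · intro h3; exact (Nat.dvd_add_right h3).1 h2
      rw [G, G]
      by_cases h : n ∣ 2 * i + 1
      · rw [if_pos h, if_pos (e2.2 h)]; simpa using I.zero
      · rw [if_neg h, if_neg (fun h1 => h (e2.1 h1))]
        exact χ_neg hN (fun h1 => h (hnN.trans h1)) e1
    rw [sum_add_distrib, sum_range_reflect (fun i => G n i)] at h1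
    have h2 := I.R_mul (half_mem (n := N)) h1
    rw [← two_mul, ← mul_assoc, inv_mul_cancel₀ two_ne_zero, one_mul] at h2
    exact h2
  | succ a ih =>
    have h1 := ih.add (hper a)
    have e1 : ∑ i ∈ Ico (a + 1) (a + 1 + N), G n i =
        ∑ i ∈ Ico a (a + N), G n i + (G n (a + N) - G n a) := by
      have h2 : ∑ i ∈ Ico a (a + N + 1), G n i = ∑ i ∈ Ico a (a + N), G n i + G n (a + N) :=
        Finset.sum_Ico_succ_top (by omega) _
      have h3 : ∑ i ∈ Ico a (a + N + 1), G n i = G n a + ∑ i ∈ Ico (a + 1) (a + N + 1), G n i :=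
        Finset.sum_eq_sum_Ico_succ_bot (by omega) _
      rw [show a + 1 + N = a + N + 1 by ring]
      linear_combination h2 - h3
    rw [e1]; exact h1

theorem windows {n N : ℕ} (hN : 0 < N) (hnN : n ∣ N) (a Y : ℕ) :
    I N 1 (∑ i ∈ Ico a (a + N * Y), G n i) := by
  induction Y with
  | zero => simpa using I.zero
  | succ Y ih =>
    have h1 := ih.add (window hN hnN (a + N * Y))
    rw [Finset.sum_Ico_consecutive _ (by omega) (by omega)] at h1
    rw [show a + N * (Y + 1) = a + N * Y + N by ring]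
    exact h1

/-- expansion of a product of `1 + δ y_i` -/
theorem prod_one_add {N : ℕ} {δ : RatFunc ℚ} (hδ : I N 1 δ) (s : Finset ℕ) (y : ℕ → RatFunc ℚ)
    (hy : ∀ i ∈ s, y i ∈ R N) :
    I N 2 ((∏ i ∈ s, (1 - δ * y i)) - (1 - δ * ∑ i ∈ s, y i)) := by
  classical
  have hδ2 : I N 2 (δ * δ) := hδ.mul hδ
  induction s using Finset.induction_on with
  | empty => simpa using I.zero
  | insert a s ha ih =>
    have h1 := ih fun i hi => hy i (mem_insert_of_mem hi)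
    have ha' := hy a (mem_insert_self _ _)
    have hs : ∑ i ∈ s, y i ∈ R N := sum_mem fun i hi => hy i (mem_insert_of_mem hi)
    rw [prod_insert ha, sum_insert ha]
    have e1 : (1 - δ * y a) * ∏ i ∈ s, (1 - δ * y i) - (1 - δ * (y a + ∑ i ∈ s, y i)) =
        (1 - δ * y a) * (∏ i ∈ s, (1 - δ * y i) - (1 - δ * ∑ i ∈ s, y i)) +
          (δ * δ) * (y a * ∑ i ∈ s, y i) := by ring
    rw [e1]
    exact (I.R_mul (sub_mem (one_mem _) (mul_mem hδ.mem ha')) h1).add (hδ2.mul_R (mul_mem ha' hs))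

/-- one factor -/
theorem ff_eq {N W j : ℕ} (hN : 0 < N) (hNW : N ∣ W) (hj : ¬ N ∣ j) (hjW : j < W) :
    ∃ y ∈ R N, ff W j = (-(q ^ j)) * (1 - (q ^ W - 1) * y) ∧
      I N 1 (y - (1 - q ^ j)⁻¹) := by
  have hj0 : 0 < j := Nat.pos_of_ne_zero (by rintro rfl; exact hj (dvd_zero _))
  have hj' : ¬ N ∣ W - j := by
    intro h1
    apply hj
    have : N ∣ (W - j) + j := by rw [Nat.sub_add_cancel hjW.le]; exact hNW
    exact (Nat.dvd_add_right h1).1 this
  have h1 : (1 - q ^ j : RatFunc ℚ) ≠ 0 := one_sub_ne hj0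
  have h2 : (1 - q ^ (W - j) : RatFunc ℚ) ≠ 0 := one_sub_ne (by omega)
  have hq : (q ^ j : RatFunc ℚ) ≠ 0 := pow_ne_zero _ q_ne
  have hW : (q ^ W : RatFunc ℚ) = q ^ j * q ^ (W - j) := by rw [← pow_add]; congr 1; omega
  have hδ : I N 1 (q ^ W - 1 : RatFunc ℚ) := by
    have h3 := (I_one_sub (n := N) hN (e := (W : ℤ)) (by exact_mod_cast hNW)).neg
    rw [neg_sub, zpow_natCast] at h3
    exact h3
  have hqi : (q ^ j : RatFunc ℚ)⁻¹ ∈ R N := by
    rw [← inv_pow]; exact pow_mem (qinv_mem hN) j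
  refine ⟨-((q ^ j)⁻¹ * (1 - q ^ (W - j))⁻¹), ?_, ?_, ?_⟩
  · exact neg_mem (mul_mem hqi (inv_one_sub hN hj'))
  · rw [ff, hW]
    field_simp
    ring
  · have e1 : -((q ^ j : RatFunc ℚ)⁻¹ * (1 - q ^ (W - j))⁻¹) - (1 - q ^ j)⁻¹ =
        (q ^ W - 1) * ((q ^ j)⁻¹ * ((1 - q ^ (W - j))⁻¹ * (1 - q ^ j)⁻¹)) := by
      rw [hW]
      field_simp
      ring
    rw [e1]
    exact hδ.mul_R (mul_mem hqi (mul_mem (inv_one_sub hN hj') (inv_one_sub hN hj)))

theorem nat_mem {N : ℕ} (c : ℕ) : (c : RatFunc ℚ) ∈ R N := by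
  induction c with
  | zero => simp
  | succ c ih => push_cast; exact add_mem ih (one_mem _)

/-- `(1+δ)^c ≡ 1 + cδ` -/
theorem pow_one_add {N : ℕ} {δ : RatFunc ℚ} (hδ : I N 1 δ) (c : ℕ) :
    I N 2 ((1 + δ) ^ c - (1 + δ * c)) := by
  induction c with
  | zero => simpa using I.zero
  | succ c ih =>
    have e1 : (1 + δ) ^ (c + 1) - (1 + δ * ((c + 1 : ℕ) : RatFunc ℚ)) =
        (1 + δ) * ((1 + δ) ^ c - (1 + δ * c)) + (δ * δ) * c := by push_cast; ring
    rw [e1]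
    exact (I.R_mul (add_mem (one_mem _) hδ.mem) ih).add ((hδ.mul hδ).mul_R (nat_mem c))

/-- the key congruence -/
theorem PP_cong {h a b a' b' W N Y : ℕ} (hh : 0 < h) (hab : a' ≤ b')
    (ha : a = (4 * h + 1) * a' + h) (hb : b = (4 * h + 1) * b' + h)
    (hW : 2 * (a + b) + 1 = W) (hN : 0 < N) (hnN : (4 * h + 1) ∣ N) (hNW : N ∣ W)
    (hY : b = a + N * Y) : I N 2 (PP (4 * h + 1) a b W - 1) := by
  set n := 4 * h + 1 with hn
  set S := (Ico a b).filter (fun i => ¬ n ∣ 2 * i + 1) with hS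
  obtain ⟨hc1, hc2⟩ := card_sum hh hab ha hb hW
  rw [← hn, ← hS] at hc1 hc2
  set c := 2 * h * (b' - a') with hc
  have hSm : ∀ i ∈ S, ¬ N ∣ 2 * i + 1 ∧ 2 * i + 1 < W := by
    intro i hi
    obtain ⟨h1, h2⟩ := mem_filter.1 hi
    have h3 := mem_Ico.1 h1
    exact ⟨fun h4 => h2 (hnN.trans h4), by omega⟩
  -- choose the expansions
  have hex : ∀ i, ∃ y : RatFunc ℚ, i ∈ S → y ∈ R N ∧
      ff W (2 * i + 1) = (-(q ^ (2 * i + 1))) * (1 - (q ^ W - 1) * y) ∧
      I N 1 (y - (1 - q ^ (2 * i + 1))⁻¹) := by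
    intro i
    by_cases hi : i ∈ S
    · obtain ⟨y, hy⟩ := ff_eq hN hNW (hSm i hi).1 (hSm i hi).2
      exact ⟨y, fun _ => ⟨hy.1, hy.2.1, hy.2.2⟩⟩
    · exact ⟨0, fun h => absurd h hi⟩
  choose y hy using hex
  have hδ : I N 1 (q ^ W - 1 : RatFunc ℚ) := by
    have h3 := (I_one_sub (n := N) hN (e := (W : ℤ)) (by exact_mod_cast hNW)).neg
    rw [neg_sub, zpow_natCast] at h3
    exact h3
  set δ : RatFunc ℚ := q ^ W - 1 with hδd
  have hPP : PP n a b W = (1 + δ) ^ c * ∏ i ∈ S, (1 - δ * y i) := by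
    rw [PP]
    have e1 : ∏ i ∈ Ico a b, (if n ∣ 2 * i + 1 then (1 : RatFunc ℚ) else ff W (2 * i + 1)) =
        ∏ i ∈ S, ff W (2 * i + 1) := by
      rw [hS, prod_filter]
      refine prod_congr rfl fun i _ => ?_
      by_cases h1 : n ∣ 2 * i + 1 <;> simp [h1]
    rw [e1, prod_congr rfl fun i hi => (hy i hi).2.1, prod_mul_distrib]
    congr 1
    have e2 : ∀ i ∈ S, (-(q ^ (2 * i + 1)) : RatFunc ℚ) = (-1) * q ^ (2 * i + 1) :=
      fun i _ => by ring
    rw [prod_congr rfl e2, prod_mul_distrib, prod_const, hc1, pow_mul, neg_one_sq, one_pow, one_mul,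
      prod_pow_eq_pow_sum, hc2, pow_mul, hδd]
    congr 1
    ring
  have h1 := prod_one_add hδ S y fun i hi => (hy i hi).1
  have h2 := pow_one_add hδ c
  -- the sum of the `y i`
  have h3 : I N 1 (∑ i ∈ S, y i - c) := by
    have e1 : I N 1 (∑ i ∈ S, (y i - (1 - q ^ (2 * i + 1))⁻¹)) := I.sum fun i hi => (hy i hi).2.2
    have e2 : I N 1 (∑ i ∈ Ico a b, G n i) := by
      rw [hY]; exact windows hN hnN a Y
    have e3 : ∑ i ∈ Ico a b, G n i = ∑ i ∈ S, χ (2 * i + 1) := by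
      rw [hS, sum_filter]
      refine sum_congr rfl fun i _ => ?_
      rw [G]
      by_cases h1 : n ∣ 2 * i + 1 <;> simp [h1]
    rw [e3] at e2
    have e4 : ∑ i ∈ S, χ (2 * i + 1) = 2 * ∑ i ∈ S, (1 - q ^ (2 * i + 1))⁻¹ - 2 * c := by
      simp only [χ]
      rw [sum_sub_distrib, ← mul_sum, sum_const, hc1]
      simp
    rw [e4] at e2
    have e5 := e1.add (I.R_mul (half_mem (n := N)) e2)
    refine (congrArg (I N 1) ?_).mp e5
    rw [sum_sub_distrib]
    have : (2 : RatFunc ℚ) ≠ 0 := two_ne_zero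
    field_simp
    ring
  have hmS : ∏ i ∈ S, (1 - δ * y i) ∈ R N :=
    prod_mem fun i hi => sub_mem (one_mem _) (mul_mem hδ.mem (hy i hi).1)
  have hsS : ∑ i ∈ S, y i ∈ R N := sum_mem fun i hi => (hy i hi).1
  rw [hPP]
  have e6 : (1 + δ) ^ c * ∏ i ∈ S, (1 - δ * y i) - 1 =
      ((1 + δ) ^ c - (1 + δ * c)) * ∏ i ∈ S, (1 - δ * y i) +
      (1 + δ * c) * ((∏ i ∈ S, (1 - δ * y i)) - (1 - δ * ∑ i ∈ S, y i)) -
      δ * (∑ i ∈ S, y i - c) - (δ * δ) * (c * ∑ i ∈ S, y i) := by ring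
  rw [e6]
  refine ((((h2.mul_R hmS).add (I.R_mul ?_ h1)).sub ?_).sub ?_)
  · exact add_mem (one_mem _) (mul_mem hδ.mem (nat_mem c))
  · exact hδ.mul h3
  · exact (hδ.mul hδ).mul_R (mul_mem (nat_mem c) hsS)

/-! ### the ratios -/

/-- `∏_{i<m} (1-q^{c(2i+1)})/(1-q^{c(2i+2)})` -/
def P1 (c m : ℕ) : RatFunc ℚ :=
  ∏ i ∈ range m, ((1 - q ^ (c * (2 * i + 1))) / (1 - q ^ (c * (2 * i + 2))) : RatFunc ℚ)

theorem P1_ne {c : ℕ} (hc : 0 < c) (m : ℕ) : P1 c m ≠ 0 := by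
  rw [P1]
  refine prod_ne_zero_iff.2 fun i _ => ?_
  exact div_ne_zero (one_sub_ne (by positivity)) (one_sub_ne (by positivity))

theorem P1_split (c : ℕ) {a b : ℕ} (hab : a ≤ b) :
    P1 c b = P1 c a * ∏ i ∈ Ico a b,
      ((1 - q ^ (c * (2 * i + 1))) / (1 - q ^ (c * (2 * i + 2))) : RatFunc ℚ) := by
  rw [P1, P1, Finset.prod_range_mul_prod_Ico _ hab]

/-- `R_t` -/
def Rt (n t : ℕ) : RatFunc ℚ := P1 1 (Mt n t) / P1 n (Mt n (t - 1))

theorem Mt_mono (h t : ℕ) : Mt (4 * h + 1) t ≤ Mt (4 * h + 1) (t + 1) := by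
  rw [Mt_succ]
  have : 1 * Mt (4 * h + 1) t ≤ (4 * h + 1) * Mt (4 * h + 1) t :=
    Nat.mul_le_mul_right _ (by omega)
  omega

theorem W_spec (h t : ℕ) :
    2 * (Mt (4 * h + 1) t + Mt (4 * h + 1) (t + 1)) + 1 = (4 * h + 1) ^ t * (2 * h + 1) := by
  have h1 := Mt_spec h t
  rw [Mt_succ, ← h1]
  ring

theorem Rt_succ {h : ℕ} (hh : 0 < h) (t : ℕ) (ht : 0 < t) :
    Rt (4 * h + 1) (t + 1) = Rt (4 * h + 1) t *
      PP (4 * h + 1) (Mt (4 * h + 1) t) (Mt (4 * h + 1) (t + 1))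
        ((4 * h + 1) ^ t * (2 * h + 1)) := by
  obtain ⟨u, rfl⟩ : ∃ u, t = u + 1 := ⟨t - 1, by omega⟩
  set n := 4 * h + 1 with hn
  have e1 := P1_split 1 (Mt_mono h (u + 1))
  have e2 := P1_split n (Mt_mono h u)
  have hW1 : 1 * (2 * (Mt n (u + 1) + Mt n (u + 1 + 1)) + 1) = n ^ (u + 1) * (2 * h + 1) := by
    rw [one_mul]; exact W_spec h (u + 1)
  have hW2 : n * (2 * (Mt n u + Mt n (u + 1)) + 1) = n ^ (u + 1) * (2 * h + 1) := by
    rw [W_spec h u, ← mul_assoc, ← pow_succ']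
  rw [refl_prod (Mt_mono h (u + 1)) 1 hW1] at e1
  rw [refl_prod (Mt_mono h u) n hW2] at e2
  have e3 := PP_eq (W := n ^ (u + 1) * (2 * h + 1)) hh (Mt_succ h u) (Mt_succ h (u + 1))
  rw [← hn] at e1 e2 e3
  have n1 : P1 n (Mt n u) ≠ 0 := P1_ne (by omega) _
  have n2 : P1 n (Mt n (u + 1)) ≠ 0 := P1_ne (by omega) _
  have n3 := n2
  rw [e2] at n3
  have n4 := right_ne_zero_of_mul n3
  rw [Rt, Rt, Nat.add_sub_cancel, Nat.add_sub_cancel, e1, e2]
  simp only [one_mul]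
  rw [e3]
  field_simp

theorem Rt_mem {h s : ℕ} (_hh : 0 < h) (hs : 0 < s) : Rt (4 * h + 1) s ∈ R ((4 * h + 1) ^ s) := by
  obtain ⟨u, rfl⟩ : ∃ u, s = u + 1 := ⟨s - 1, by omega⟩
  set n := 4 * h + 1 with hn
  have hN : 0 < n ^ (u + 1) := by positivity
  have m1 := Mt_spec h (u + 1)
  have m2 := Mt_spec h u
  rw [← hn] at m1 m2
  rw [Rt, Nat.add_sub_cancel, div_eq_mul_inv]
  refine mul_mem ?_ ?_
  · rw [P1]
    refine prod_mem fun i hi => ?_
    have hi' := mem_range.1 hi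
    rw [div_eq_mul_inv]
    refine mul_mem (sub_mem (one_mem _) (qpow_mem _)) (inv_one_sub hN ?_)
    intro h1
    have := Nat.le_of_dvd (by positivity) h1
    omega
  · rw [P1, ← prod_inv_distrib]
    refine prod_mem fun i hi => ?_
    have hi' := mem_range.1 hi
    rw [inv_div, div_eq_mul_inv]
    refine mul_mem (sub_mem (one_mem _) (qpow_mem _)) (inv_one_sub hN ?_)
    intro h1
    have h2 := Nat.le_of_dvd (by positivity) h1
    rw [pow_succ', ← m2] at h2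
    have h3 := Nat.le_of_mul_le_mul_left h2 (by omega)
    omega

theorem main {h : ℕ} (hh : 0 < h) {s : ℕ} (hs : 0 < s) (d : ℕ) :
    I ((4 * h + 1) ^ s) 2 (Rt (4 * h + 1) (s + d) - Rt (4 * h + 1) s) := by
  have hN : 0 < (4 * h + 1) ^ s := by positivity
  induction d with
  | zero => simpa using I.zero
  | succ d ih =>
    have h1 : Rt (4 * h + 1) (s + d) ∈ R ((4 * h + 1) ^ s) := by
      have := add_mem ih.mem (Rt_mem hh hs)
      rwa [sub_add_cancel] at this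
    have h2 := PP_cong (h := h) (a := Mt (4 * h + 1) (s + d)) (b := Mt (4 * h + 1) (s + d + 1))
      (a' := Mt (4 * h + 1) (s + d - 1)) (b' := Mt (4 * h + 1) (s + d))
      (W := (4 * h + 1) ^ (s + d) * (2 * h + 1)) (N := (4 * h + 1) ^ s)
      (Y := (4 * h + 1) ^ d * h) hh
      (by
        obtain ⟨u, hu⟩ : ∃ u, s + d = u + 1 := ⟨s + d - 1, by omega⟩
        rw [hu, Nat.add_sub_cancel]; exact Mt_mono h u)
      (by
        obtain ⟨u, hu⟩ : ∃ u, s + d = u + 1 := ⟨s + d - 1, by omega⟩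
        rw [hu, Nat.add_sub_cancel]; exact Mt_succ h u)
      (Mt_succ h (s + d)) (W_spec h (s + d)) hN
      (dvd_pow_self _ hs.ne') (by rw [pow_add, mul_assoc]; exact Dvd.intro _ rfl)
      (by
        rw [Mt_succ, ← mul_assoc, ← pow_add, ← Mt_spec h (s + d)]
        ring)
    rw [← add_assoc, Rt_succ hh (s + d) (by omega)]
    have e1 : Rt (4 * h + 1) (s + d) * PP (4 * h + 1) (Mt (4 * h + 1) (s + d))
        (Mt (4 * h + 1) (s + d + 1)) ((4 * h + 1) ^ (s + d) * (2 * h + 1)) - Rt (4 * h + 1) s =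
        Rt (4 * h + 1) (s + d) * (PP (4 * h + 1) (Mt (4 * h + 1) (s + d))
        (Mt (4 * h + 1) (s + d + 1)) ((4 * h + 1) ^ (s + d) * (2 * h + 1)) - 1) +
        (Rt (4 * h + 1) (s + d) - Rt (4 * h + 1) s) := by ring
    rw [e1]
    exact (I.R_mul h1 h2).add ih

end

end V11316.R748
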