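import Pool.Agent.V11316.Odd2

/-!
The standard family with base exponent `β` different from the number of parameters.
-/

open Finset Polynomial

namespace V11316

open V11307.Q

noncomputable section

variable {J : Type*} [Fintype J]

theorem kappa_std {n N r : ℕ} {α β ζ s : ℤ} (hn : 0 < n) (hcard : Fintype.card J = r)
    (hQ : α + β * N = n * s) (hζ : 2 * ζ = r * (β - α) - 2 * β)
    (hE : ∀ E : ℤ, 2 * E = -(n * s * (2 + r * N)) →
      (Even (N * r) ∧ (n : ℤ) ∣ E) ∨ (Odd (N * r) ∧ ¬ (n : ℤ) ∣ E)) :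
    I n 1 ((q ^ α : RatFunc ℚ)⁻¹ * (q ^ ζ) ^ N *
      (∏ _j : J, ∏ i ∈ range N, (-(q ^ β * (q ^ β) ^ i)⁻¹)) - 1) := by
  rw [prod_const, card_univ, hcard, prod_neg_inv, mul_pow, ← pow_mul,
      qz_pow, qz_pow, ← zpow_neg]
  set E : ℤ := -α + ζ * N + -(β * ((∑ i ∈ range N, (i + 1) : ℕ) : ℤ)) * r with hEdef
  have e1 : (q : RatFunc ℚ) ^ (-α) * q ^ (ζ * N) * ((-1) ^ (N * r) *
      q ^ (-(β * ((∑ i ∈ range N, (i + 1) : ℕ) : ℤ)) * r)) = (-1) ^ (N * r) * q ^ E := by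
    rw [hEdef, zpow_add₀ q_ne, zpow_add₀ q_ne]; ring
  rw [e1]
  have h2E : 2 * E = -(n * s * (2 + r * N)) := by
    rw [← hQ, hEdef]
    have := two_tri N
    linear_combination (N : ℤ) * hζ - β * r * this
  rcases hE E h2E with ⟨h1, h2⟩ | ⟨h1, h2⟩
  · rw [h1.neg_one_pow, one_mul]
    have := (I_one_sub hn h2).neg
    rwa [neg_sub] at this
  · rw [h1.neg_one_pow]
    have h3 : (n : ℤ) ∣ 2 * E := ⟨-(s * (2 + r * N)), by rw [h2E]; ring⟩
    have := (I_one_add hn h3 h2).neg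
    have h4 : (-1 : RatFunc ℚ) * q ^ E - 1 = -(1 + q ^ E) := by ring
    rw [h4]; exact this

theorem ZZ_std {r : ℕ} {α β ζ : ℤ} (hcard : Fintype.card J = r)
    (hζ : 2 * ζ = r * (β - α) - 2 * β) :
    ∏ _j : J, ((q : RatFunc ℚ) ^ β * (q ^ α)⁻¹) = (q ^ ζ * q ^ β) ^ 2 := by
  rw [prod_const, card_univ, hcard, ← zpow_neg, ← zpow_add₀ q_ne,
      ← zpow_add₀ q_ne, qz_pow, qz_pow]
  congr 1
  push_cast
  linear_combination -hζ

variable {ι : Type*} [Fintype ι] [DecidableEq ι]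

theorem GS_anti2 {n L N r : ℕ} {α β ζ s : ℤ} {m : ℕ}
    (hn : 0 < n) (hNL : N ≤ L) (hcard : Fintype.card ι + 1 = r)
    (hQ : α + β * N = n * s) (hζ : 2 * ζ = r * (β - α) - 2 * β)
    (hE : ∀ E : ℤ, 2 * E = -(n * s * (2 + r * N)) →
      (Even (N * r) ∧ (n : ℤ) ∣ E) ∨ (Odd (N * r) ∧ ¬ (n : ℤ) ∣ E)) :
    ∃ g : (ι → ℤ) → RatFunc ℚ, AQ n m g ∧
      ∀ c, GS ι n L (q ^ α) (q ^ β) (q ^ ζ) c = cyc n * g c := by
  have hc : Fintype.card (Option ι) = r := by rw [Fintype.card_option, hcard]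
  refine Gn_anti (N := N) (Qe := q ^ ((n : ℤ) * s)) hn hNL (qz_ne _) (qz_ne _) (qz_ne _)
    (fun _ => qz_ne _) (fun _ => qz_ne _) (qz_mem hn _) (qz_mem hn _) (qz_mem hn _)
    (fun _ => qz_mem hn _) (fun _ => qz_mem hn _) (qz_inv_mem hn _) (qz_inv_mem hn _)
    (fun _ => qz_inv_mem hn _) (fun _ => qz_inv_mem hn _) lS (fun _ => rfl) ?_ ?_ ?_ ?_ none rfl rfl
  · rw [qz_pow, ← zpow_add₀ q_ne, hQ]
  · have := (I_one_sub hn (e := (n : ℤ) * s) (Dvd.intro _ rfl)).neg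
    rwa [neg_sub] at this
  · exact ZZ_std hc hζ
  · exact kappa_std hn hc hQ hζ hE

theorem GS_rev2 {n L N k r : ℕ} {α β ζ s : ℤ}
    (hn : 0 < n) (hk : k ≤ N) (hNL : N ≤ L) (hcard : Fintype.card ι + 1 = r)
    (hQ : α + β * N = n * s) (hζ : 2 * ζ = r * (β - α) - 2 * β)
    (hE : ∀ E : ℤ, 2 * E = -(n * s * (2 + r * N)) →
      (Even (N * r) ∧ (n : ℤ) ∣ E) ∨ (Odd (N * r) ∧ ¬ (n : ℤ) ∣ E)) :
    I n 1 (Un n L (q ^ α) (q ^ β) (q ^ ζ) (fun _ : Option ι => q ^ α) (fun _ => q ^ β) lS (N - k) 0 +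
      Un n L (q ^ α) (q ^ β) (q ^ ζ) (fun _ : Option ι => q ^ α) (fun _ => q ^ β) lS k 0) := by
  have hc : Fintype.card (Option ι) = r := by rw [Fintype.card_option, hcard]
  obtain ⟨h, hh, h1⟩ := Un_rev (m := 0) (N := N) (k := k) (L := L) (Qe := q ^ ((n : ℤ) * s)) hn hk hNL
    (qz_ne α) (qz_ne β) (qz_ne ζ)
    (fun _ : Option ι => qz_ne α) (fun _ => qz_ne β) (qz_mem hn _) (qz_mem hn _) (qz_mem hn _)
    (fun _ => qz_mem hn _) (fun _ => qz_mem hn _) (qz_inv_mem hn _) (qz_inv_mem hn _)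
    (fun _ => qz_inv_mem hn _) (fun _ => qz_inv_mem hn _) lS (fun _ => rfl)
    (by rw [qz_pow, ← zpow_add₀ q_ne, hQ])
    (by
      have := (I_one_sub hn (e := (n : ℤ) * s) (Dvd.intro _ rfl)).neg
      rwa [neg_sub] at this)
    (ZZ_std hc hζ) (kappa_std hn hc hQ hζ hE)
  have h2 := h1 0
  rw [sub_neg_eq_add] at h2
  rw [h2]
  exact ⟨h 0, hh.mem 0, by rw [pow_one]⟩

/-! ### the substitution `q ↦ q²` -/

/-- the composite `ℚ[X] → ℚ[X] → ℚ(X)` with `X ↦ X²` -/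
def sq0 : ℚ[X] →+* RatFunc ℚ := φ.comp (Polynomial.expand ℚ 2 : ℚ[X] →ₐ[ℚ] ℚ[X]).toRingHom

theorem sq0_apply (p : ℚ[X]) : sq0 p = φ (expand ℚ 2 p) := rfl

theorem sq0_le : nonZeroDivisors ℚ[X] ≤ (nonZeroDivisors (RatFunc ℚ)).comap sq0 := by
  intro p hp
  rw [Submonoid.mem_comap]
  refine mem_nonZeroDivisors_of_ne_zero ?_
  have h0 : p ≠ 0 := nonZeroDivisors.ne_zero hp
  rw [sq0_apply]
  exact φ_ne ((Polynomial.expand_ne_zero two_pos).2 h0)

/-- the substitution `q ↦ q²` on rational functions -/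
def sq : RatFunc ℚ →+* RatFunc ℚ := RatFunc.liftRingHom sq0 sq0_le

theorem sq_φ (p : ℚ[X]) : sq (φ p) = φ (expand ℚ 2 p) := by
  rw [sq, RatFunc.liftRingHom_algebraMap, sq0_apply]

theorem sq_q : sq q = q ^ 2 := by
  rw [← φ_X, sq_φ, expand_X, map_pow]

/-- `Φ_n(q) ∣ A(q²)` implies `Φ_n(q) ∣ A(q)` for odd `n` -/
theorem cyc_dvd_of_expand {n : ℕ} (hn : 0 < n) (ho : Odd n) {A : ℚ[X]}
    (h : cyclotomic n ℚ ∣ expand ℚ 2 A) : cyclotomic n ℚ ∣ A := by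
  have hz := Complex.isPrimitiveRoot_exp n hn.ne'
  set z := Complex.exp (2 * Real.pi * Complex.I / n) with hzdef
  -- a square root of `z` among the `n`-th roots of unity
  obtain ⟨t, ht⟩ := ho
  set w := z ^ (t + 1) with hw
  have hw2 : w ^ 2 = z := by
    rw [hw, ← pow_mul, show (t + 1) * 2 = n + 1 by omega, pow_succ, hz.pow_eq_one, one_mul]
  have hwp : IsPrimitiveRoot w n := by
    refine hz.pow_of_coprime (t + 1) ?_
    rw [Nat.coprime_iff_gcd_eq_one]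
    have h1 : Nat.gcd (t + 1) n ∣ 1 := by
      have h2 : Nat.gcd (t + 1) n ∣ (t + 1) * 2 := (Nat.gcd_dvd_left _ _).mul_right 2
      rw [show (t + 1) * 2 = n + 1 by omega] at h2
      exact (Nat.dvd_add_right (Nat.gcd_dvd_right (t + 1) n)).1 h2
    exact Nat.dvd_one.1 h1
  have hroot : aeval w (expand ℚ 2 A) = 0 := by
    obtain ⟨c, hc⟩ := h
    have h1 : aeval w (cyclotomic n ℚ) = 0 := by
      have := hwp.isRoot_cyclotomic hn
      rw [← map_cyclotomic n (algebraMap ℚ ℂ)] at this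
      rw [aeval_def, eval₂_eq_eval_map]; exact this
    rw [hc, map_mul, h1, zero_mul]
  rw [expand_aeval, hw2] at hroot
  rw [cyclotomic_eq_minpoly_rat hz hn]
  exact minpoly.dvd ℚ z hroot

theorem cyc_pow_dvd_of_expand {n : ℕ} (hn : 0 < n) (ho : Odd n) :
    ∀ (k : ℕ) {A : ℚ[X]}, cyclotomic n ℚ ^ k ∣ expand ℚ 2 A → cyclotomic n ℚ ^ k ∣ A := by
  intro k
  induction k with
  | zero => intro A _; simp
  | succ k ih =>
    intro A h
    have h1 : cyclotomic n ℚ ∣ expand ℚ 2 A := (dvd_pow_self _ (Nat.succ_ne_zero k)).trans h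
    obtain ⟨A', rfl⟩ := cyc_dvd_of_expand hn ho h1
    have h2 : ¬ 2 ∣ n := by
      intro hd; exact (Nat.not_even_iff_odd.2 ho) (even_iff_two_dvd.2 hd)
    rw [map_mul, cyclotomic_expand_eq_cyclotomic_mul Nat.prime_two h2, pow_succ] at h
    have h3 : cyclotomic n ℚ ^ k * cyclotomic n ℚ ∣
        cyclotomic n ℚ * (cyclotomic (n * 2) ℚ * expand ℚ 2 A') := by
      rw [show cyclotomic n ℚ * (cyclotomic (n * 2) ℚ * expand ℚ 2 A') =
        cyclotomic (n * 2) ℚ * cyclotomic n ℚ * expand ℚ 2 A' by ring]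
      exact h
    rw [mul_comm (cyclotomic n ℚ ^ k)] at h3
    have h4 := (mul_dvd_mul_iff_left (cyclotomic_ne_zero n ℚ)).1 h3
    have h5 : IsCoprime (cyclotomic n ℚ ^ k) (cyclotomic (n * 2) ℚ) := by
      refine IsCoprime.pow_left ?_
      exact cyclotomic.isCoprime_rat (by omega)
    have h6 := ih (h5.dvd_of_dvd_mul_left h4)
    rw [pow_succ, mul_comm]
    exact mul_dvd_mul_left _ h6

/-- transfer of divisibility along `q ↦ q²` for odd `n` -/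
theorem I_of_sq {n k : ℕ} (hn : 0 < n) (ho : Odd n) (hk : 0 < k) {x : RatFunc ℚ}
    (h : I n k (sq x)) : I n k x := by
  refine I_of_num_dvd hn hk (cyc_pow_dvd_of_expand hn ho k ?_)
  obtain ⟨y, ⟨a, b, hb, hb0, hy⟩, hxy⟩ := h
  have hx : φ x.num = x * φ x.denom := by
    have := RatFunc.num_div_denom x
    rw [div_eq_iff (φ_ne x.denom_ne_zero)] at this
    exact this
  have h1 : φ (expand ℚ 2 x.num) = sq x * φ (expand ℚ 2 x.denom) := by
    rw [← sq_φ, hx, map_mul, sq_φ]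
  have h2 : expand ℚ 2 x.num * b = cyclotomic n ℚ ^ k * (a * expand ℚ 2 x.denom) := by
    apply φ_inj
    rw [map_mul, h1, hxy, map_mul, map_mul, map_pow, ← hy]
    ring
  exact (hb.pow_right (n := k)).symm.dvd_of_dvd_mul_right ⟨_, h2⟩

end

end V11316
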