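import Pool.Agent.Y851.PT.P12

/-! Patterns in multiplication tables, for functions with small cut norm and bounded second moment. -/

set_option autoImplicit false

namespace Pool.Agent.V11316.TB
open Finset Filter
open Pool.Agent.Y851.PS
open Pool.Agent.Y851.PT

/-- the condition at an entry: a large value, or no large value -/
def Gd (δ : ℝ) (b : Bool) (w : ℝ) : Prop := if b then 1 - δ < w else w < 1 + δ

/-- the weight of an entry -/
noncomputable def wt (δ L : ℝ) (b : Bool) (w : ℝ) : ℝ :=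
  if b then min (max (w - (1 - δ)) 0) L else max (1 + δ - w) 0

lemma wt_nonneg {δ L : ℝ} (hL : 0 ≤ L) (b : Bool) (w : ℝ) : 0 ≤ wt δ L b w := by
  unfold wt
  split_ifs
  · exact le_min (le_max_right _ _) hL
  · exact le_max_right _ _

lemma wt_le {δ L : ℝ} (hL : 2 ≤ L) (hδ1 : δ ≤ 1) (b : Bool) {w : ℝ} (hw : 0 ≤ w) : wt δ L b w ≤ L := by
  unfold wt
  split_ifs
  · exact min_le_right _ _
  · exact max_le (by linarith only [hL, hδ1, hw]) (by linarith only [hL])

lemma wt_pos {δ L : ℝ} (b : Bool) {w : ℝ} (h : 0 < wt δ L b w) : Gd δ b w := by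
  unfold wt at h
  unfold Gd
  split_ifs at h ⊢ with hb
  · rcases lt_max_iff.1 (lt_min_iff.1 h).1 with h1 | h1
    · linarith only [h1]
    · exact absurd h1 (lt_irrefl _)
  · rcases lt_max_iff.1 h with h1 | h1
    · linarith only [h1]
    · exact absurd h1 (lt_irrefl _)

/-- the sign -/
def sgn (b : Bool) : ℝ := if b then 1 else -1

lemma wt_ge {δ L : ℝ} (hL : 0 < L) (hδ1 : δ ≤ 1) (b : Bool) {w : ℝ} (hw : 0 ≤ w) :
    sgn b * (w - 1) + δ - w ^ 2 / L ≤ wt δ L b w := by
  have h0 : 0 ≤ w ^ 2 / L := by positivity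
  unfold wt sgn
  split_ifs with hb
  · by_cases h1 : w ≤ L
    · have h2 : max (w - (1 - δ)) 0 ≤ L := max_le (by linarith only [h1, hδ1]) hL.le
      rw [min_eq_left h2]
      have h3 := le_max_left (w - (1 - δ)) 0
      linarith only [h3, h0]
    · push Not at h1
      have h2 : w ≤ w ^ 2 / L := by
        rw [le_div_iff₀ hL]
        have h3 : w * L ≤ w * w := mul_le_mul_of_nonneg_left h1.le hw
        have h4 : w ^ 2 = w * w := by ring
        rw [h4]; exact h3
      have h5 : 0 ≤ min (max (w - (1 - δ)) 0) L := le_min (le_max_right _ _) hL.le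
      linarith only [h2, h5, hδ1]
  · have h3 := le_max_left (1 + δ - w) 0
    linarith only [h3, h0]

/-- the counting of a set of tuples, coordinate by coordinate -/
lemma card_cons {β : Type} (C : Finset β) (n : ℕ) (P : (Fin (n + 1) → β) → Prop) [DecidablePred P] :
    (((Fintype.piFinset (fun _ : Fin (n + 1) => C)).filter P).card : ℝ) =
      ∑ y ∈ Fintype.piFinset (fun _ : Fin n => C), ((C.filter (fun c => P (Fin.cons c y))).card : ℝ) := by
  classical
  have h1 : (((Fintype.piFinset (fun _ : Fin (n + 1) => C)).filter P).card : ℝ) =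
      ∑ y ∈ Fintype.piFinset (fun _ : Fin (n + 1) => C), (if P y then (1 : ℝ) else 0) := by
    rw [card_filter]; push_cast; rfl
  rw [h1, Pool.Agent.Y851.PS.sum_cons]
  apply sum_congr rfl
  intro y _
  rw [card_filter]; push_cast; rfl

open Classical in
/-- **Stars with an arbitrary pattern.** -/
theorem star (α β : Type) (n : ℕ) : ∀ M δ η : ℝ, 1 ≤ M → 0 < δ → δ ≤ 1 → 0 < η → ∃ Λ δ₂ : ℝ, 1 ≤ Λ ∧ 0 < δ₂ ∧
    ∀ (ι : Type) (σ : Fin n → Bool × ι) (A : Finset α) (C : Finset β) (W : ι → α → β → ℝ), (∀ i, ∀ a ∈ A, ∀ c ∈ C, 0 ≤ W i a c) →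
    (∀ i, Cut A C (W i) δ₂) → (∀ i, ∑ a ∈ A, ∑ c ∈ C, W i a c ^ 2 ≤ M * (A.card * C.card)) →
    ∃ u : (Fin n → β) → α → ℝ, (∀ y ∈ Fintype.piFinset (fun _ : Fin n => C), ∀ a ∈ A,
      0 ≤ u y a ∧ u y a ≤ Λ ∧ (0 < u y a → ∀ j, Gd δ (σ j).1 (W (σ j).2 a (y j)))) ∧
    (((Fintype.piFinset (fun _ : Fin n => C)).filter (fun y => ∑ a ∈ A, u y a < (δ / 2) ^ n * A.card)).card : ℝ) ≤
      η * (C.card : ℝ) ^ n := by
  induction n with
  | zero =>
    intro M δ η hM hδ hδ1 hη
    refine ⟨1, 1, le_rfl, one_pos, fun ι σ A C W hW hcut hM2 => ⟨fun _ _ => 1, fun y _ a _ => ⟨zero_le_one, le_rfl, fun _ j => j.elim0⟩, ?_⟩⟩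
    rw [filter_false_of_mem]
    · simp only [card_empty, Nat.cast_zero]
      positivity
    · intro y _
      simp
  | succ n ih =>
    intro M δ η hM hδ hδ1 hη
    obtain ⟨Λ, δ₂, hΛ, hδ₂, h⟩ := ih M δ (η / 3) hM hδ hδ1 (by positivity)
    have hΛ0 : 0 < Λ := by linarith only [hΛ]
    have hM0 : 0 < M := by linarith only [hM]
    obtain ⟨ρ, hρ⟩ : ∃ ρ, ρ = (δ / 2) ^ (n + 1) / 2 := ⟨_, rfl⟩
    have hρ0 : 0 < ρ := by rw [hρ]; positivity
    obtain ⟨L, hL⟩ : ∃ L, L = 3 * Λ * M / (η * ρ) + 2 := ⟨_, rfl⟩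
    have hL2 : 2 ≤ L := by
      have : 0 ≤ 3 * Λ * M / (η * ρ) := by positivity
      linarith only [hL, this]
    have hL0 : 0 < L := by linarith only [hL2]
    have hLM : Λ * M / (L * ρ) ≤ η / 3 := by
      rw [div_le_iff₀ (by positivity), hL]
      have e : η / 3 * ((3 * Λ * M / (η * ρ) + 2) * ρ) = Λ * M + η / 3 * (2 * ρ) := by
        field_simp
      rw [e]
      have : 0 ≤ η / 3 * (2 * ρ) := by positivity
      linarith only [this]
    refine ⟨Λ * L, min δ₂ (η * ρ / (6 * Λ)), ?_, lt_min hδ₂ (by positivity), fun ι σ A C W hW hcut hM2 => ?_⟩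
    · calc (1 : ℝ) = 1 * 1 := by norm_num
        _ ≤ Λ * L := mul_le_mul hΛ (by linarith only [hL2]) zero_le_one hΛ0.le
    have hAC : (0 : ℝ) ≤ (A.card : ℝ) * C.card := mul_nonneg (Nat.cast_nonneg _) (Nat.cast_nonneg _)
    have hcut2 : ∀ i, Cut A C (W i) δ₂ := fun i A' hA' C' hC' => (hcut i A' hA' C' hC').trans (mul_le_mul_of_nonneg_right (min_le_left _ _) hAC)
    have hcut3 : ∀ i, Cut A C (W i) (η * ρ / (6 * Λ)) := fun i A' hA' C' hC' => (hcut i A' hA' C' hC').trans (mul_le_mul_of_nonneg_right (min_le_right _ _) hAC)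
    obtain ⟨u, hu1, hu2⟩ := h ι (fun j => σ j.succ) A C W hW hcut2 hM2
    refine ⟨fun y a => u (Fin.tail y) a * wt δ L (σ 0).1 (W (σ 0).2 a (y 0)), ?_, ?_⟩
    · intro y hy a ha
      rw [Fintype.mem_piFinset] at hy
      have hty : Fin.tail y ∈ Fintype.piFinset (fun _ : Fin n => C) := by
        rw [Fintype.mem_piFinset]; intro j; exact hy j.succ
      obtain ⟨g1, g2, g3⟩ := hu1 _ hty a ha
      have hm0 : 0 ≤ wt δ L (σ 0).1 (W (σ 0).2 a (y 0)) := wt_nonneg hL0.le _ _
      refine ⟨mul_nonneg g1 hm0, mul_le_mul g2 (wt_le hL2 hδ1 _ (hW _ a ha _ (hy 0))) hm0 hΛ0.le, fun hpos j => ?_⟩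
      change 0 < u (Fin.tail y) a * wt δ L (σ 0).1 (W (σ 0).2 a (y 0)) at hpos
      have hup : 0 < u (Fin.tail y) a := by
        rcases g1.lt_or_eq with h1 | h1
        · exact h1
        · rw [← h1, zero_mul] at hpos
          exact absurd hpos (lt_irrefl _)
      have hmp : 0 < wt δ L (σ 0).1 (W (σ 0).2 a (y 0)) := by
        rcases hm0.lt_or_eq with h1 | h1
        · exact h1
        · rw [← h1, mul_zero] at hpos
          exact absurd hpos (lt_irrefl _)
      refine Fin.cases ?_ ?_ j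
      · exact wt_pos _ hmp
      · intro i; exact g3 hup i
    · by_cases hA : A.card = 0
      · have hA' : A = ∅ := card_eq_zero.1 hA
        subst hA'
        rw [filter_false_of_mem]
        · simp only [card_empty, Nat.cast_zero]
          positivity
        · intro y _
          simp
      have hA0 : (0 : ℝ) < A.card := by exact_mod_cast Nat.pos_of_ne_zero hA
      rw [card_cons]
      have key : ∀ y ∈ Fintype.piFinset (fun _ : Fin n => C),
          ((C.filter (fun c => ∑ a ∈ A, u (Fin.tail (Fin.cons c y : Fin (n + 1) → β)) a *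
            wt δ L (σ 0).1 (W (σ 0).2 a ((Fin.cons c y : Fin (n + 1) → β) 0)) < (δ / 2) ^ (n + 1) * A.card)).card : ℝ) ≤
          (if ∑ a ∈ A, u y a < (δ / 2) ^ n * A.card then (C.card : ℝ) else 0) + η / 3 * C.card + η / 3 * C.card := by
        intro y hy
        simp only [Fin.tail_cons, Fin.cons_zero]
        by_cases hbad : ∑ a ∈ A, u y a < (δ / 2) ^ n * A.card
        · rw [if_pos hbad]
          have h1 : (((C.filter (fun c => ∑ a ∈ A, u y a * wt δ L (σ 0).1 (W (σ 0).2 a c) < (δ / 2) ^ (n + 1) * A.card)).card : ℝ)) ≤ C.card :=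
            Nat.cast_le.2 (card_le_card (filter_subset _ _))
          have h2 : 0 ≤ η / 3 * (C.card : ℝ) := by positivity
          linarith only [h1, h2]
        rw [if_neg hbad, zero_add]
        push Not at hbad
        have hsub : C.filter (fun c => ∑ a ∈ A, u y a * wt δ L (σ 0).1 (W (σ 0).2 a c) < (δ / 2) ^ (n + 1) * A.card) ⊆
            C.filter (fun c => ρ * A.card < |∑ a ∈ A, u y a * (W (σ 0).2 a c - 1)|) ∪
            C.filter (fun c => ρ * A.card < ∑ a ∈ A, Λ * (W (σ 0).2 a c ^ 2 / L)) := by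
          intro c hc
          rw [mem_filter] at hc
          obtain ⟨hcC, hc2⟩ := hc
          rw [mem_union, mem_filter, mem_filter]
          by_contra hcon
          push Not at hcon
          have h1 := hcon.1 hcC
          have h2 := hcon.2 hcC
          have h3 : ∑ a ∈ A, u y a * (sgn (σ 0).1 * (W (σ 0).2 a c - 1) + δ - W (σ 0).2 a c ^ 2 / L) ≤ ∑ a ∈ A, u y a * wt δ L (σ 0).1 (W (σ 0).2 a c) :=
            sum_le_sum fun a ha => mul_le_mul_of_nonneg_left (wt_ge hL0 hδ1 _ (hW _ a ha c hcC)) (hu1 y hy a ha).1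
          have e1 : ∑ a ∈ A, u y a * (sgn (σ 0).1 * (W (σ 0).2 a c - 1) + δ - W (σ 0).2 a c ^ 2 / L) =
              sgn (σ 0).1 * ∑ a ∈ A, u y a * (W (σ 0).2 a c - 1) + δ * ∑ a ∈ A, u y a - ∑ a ∈ A, u y a * (W (σ 0).2 a c ^ 2 / L) := by
            rw [mul_sum, mul_sum, ← sum_add_distrib, ← sum_sub_distrib]
            exact sum_congr rfl fun a _ => by ring
          have h4 : ∑ a ∈ A, u y a * (W (σ 0).2 a c ^ 2 / L) ≤ ∑ a ∈ A, Λ * (W (σ 0).2 a c ^ 2 / L) :=
            sum_le_sum fun a ha => mul_le_mul_of_nonneg_right (hu1 y hy a ha).2.1 (by positivity)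
          have h5 : -(ρ * A.card) ≤ sgn (σ 0).1 * ∑ a ∈ A, u y a * (W (σ 0).2 a c - 1) := by
            have h6 := abs_le.1 h1
            unfold sgn
            split_ifs
            · linarith only [h6.1]
            · linarith only [h6.2]
          have h6 : δ * ((δ / 2) ^ n * A.card) ≤ δ * ∑ a ∈ A, u y a := mul_le_mul_of_nonneg_left hbad hδ.le
          have e2 : δ * ((δ / 2) ^ n * A.card) = 2 * ((δ / 2) ^ (n + 1) * A.card) := by rw [pow_succ]; ring
          have e3 : ρ * A.card = (δ / 2) ^ (n + 1) * A.card / 2 := by rw [hρ]; ring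
          rw [e1] at h3
          linarith only [h3, h4, h5, h6, e2, e3, hc2, h2]
        have h1 : ((C.filter (fun c => ρ * A.card < |∑ a ∈ A, u y a * (W (σ 0).2 a c - 1)|)).card : ℝ) ≤ η / 3 * C.card := by
          have h2 := cut_abs (hcut3 (σ 0).2) (u y) Λ hΛ0.le (fun a ha => (hu1 y hy a ha).1) (fun a ha => (hu1 y hy a ha).2.1)
          refine (markov C (fun c => |∑ a ∈ A, u y a * (W (σ 0).2 a c - 1)|) (fun _ _ => abs_nonneg _) _ (ρ * A.card) (by positivity) h2 _
            (fun c _ hc => hc.le)).trans (le_of_eq ?_)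
          rw [div_eq_iff (by positivity)]
          field_simp
          ring
        have h2 : ((C.filter (fun c => ρ * A.card < ∑ a ∈ A, Λ * (W (σ 0).2 a c ^ 2 / L))).card : ℝ) ≤ η / 3 * C.card := by
          have h3 : ∑ c ∈ C, ∑ a ∈ A, Λ * (W (σ 0).2 a c ^ 2 / L) ≤ Λ / L * (M * (A.card * C.card)) := by
            rw [sum_comm]
            have h4 : ∑ a ∈ A, ∑ c ∈ C, Λ * (W (σ 0).2 a c ^ 2 / L) = Λ / L * ∑ a ∈ A, ∑ c ∈ C, W (σ 0).2 a c ^ 2 := by
              rw [mul_sum]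
              apply sum_congr rfl
              intro a _
              rw [mul_sum]
              apply sum_congr rfl
              intro c _
              ring
            rw [h4]
            exact mul_le_mul_of_nonneg_left (hM2 _) (by positivity)
          refine (markov C (fun c => ∑ a ∈ A, Λ * (W (σ 0).2 a c ^ 2 / L)) (fun c _ => sum_nonneg fun a _ => by positivity) _ (ρ * A.card)
            (by positivity) h3 _ (fun c _ hc => hc.le)).trans ?_
          have e : Λ / L * (M * ((A.card : ℝ) * C.card)) / (ρ * A.card) = Λ * M / (L * ρ) * C.card := by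
            field_simp
          rw [e]
          exact mul_le_mul_of_nonneg_right hLM (Nat.cast_nonneg _)
        have h3 : ((C.filter (fun c => ∑ a ∈ A, u y a * wt δ L (σ 0).1 (W (σ 0).2 a c) < (δ / 2) ^ (n + 1) * A.card)).card : ℝ) ≤
            ((C.filter (fun c => ρ * A.card < |∑ a ∈ A, u y a * (W (σ 0).2 a c - 1)|)).card : ℝ) +
            ((C.filter (fun c => ρ * A.card < ∑ a ∈ A, Λ * (W (σ 0).2 a c ^ 2 / L))).card : ℝ) := by
          exact_mod_cast (card_le_card hsub).trans (card_union_le _ _)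
        linarith only [h1, h2, h3]
      refine (sum_le_sum key).trans ?_
      rw [sum_add_distrib, sum_add_distrib, sum_const, nsmul_eq_mul, Fintype.card_piFinset, prod_const, Finset.card_univ,
        Fintype.card_fin]
      have h1 : ∑ y ∈ Fintype.piFinset (fun _ : Fin n => C), (if ∑ a ∈ A, u y a < (δ / 2) ^ n * A.card then (C.card : ℝ) else 0) =
          (((Fintype.piFinset (fun _ : Fin n => C)).filter (fun y => ∑ a ∈ A, u y a < (δ / 2) ^ n * A.card)).card : ℝ) * C.card := by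
        rw [← sum_filter, sum_const, nsmul_eq_mul]
      rw [h1]
      have h2 := mul_le_mul_of_nonneg_right hu2 (Nat.cast_nonneg (α := ℝ) C.card)
      push_cast
      have e1 : η / 3 * (C.card : ℝ) ^ n * C.card = η / 3 * (C.card : ℝ) ^ (n + 1) := by rw [pow_succ]; ring
      have e2 : (C.card : ℝ) ^ n * (η / 3 * C.card) = η / 3 * (C.card : ℝ) ^ (n + 1) := by rw [pow_succ]; ring
      rw [e1] at h2
      rw [e2]
      linarith only [h2]

open Classical in
/-- stars with an arbitrary pattern, for almost all tuples -/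
theorem star_good (α β : Type) (n : ℕ) (M δ η : ℝ) (hM : 1 ≤ M) (hδ : 0 < δ) (hδ1 : δ ≤ 1) (hη : 0 < η) : ∃ κ δ₂ : ℝ, 0 < κ ∧ κ ≤ 1 ∧ 0 < δ₂ ∧
    ∀ (ι : Type) (σ : Fin n → Bool × ι) (A : Finset α) (C : Finset β) (W : ι → α → β → ℝ), (∀ i, ∀ a ∈ A, ∀ c ∈ C, 0 ≤ W i a c) →
    (∀ i, Cut A C (W i) δ₂) → (∀ i, ∑ a ∈ A, ∑ c ∈ C, W i a c ^ 2 ≤ M * (A.card * C.card)) →
    (((Fintype.piFinset (fun _ : Fin n => C)).filter (fun y => ¬
      (κ * A.card ≤ ((A.filter (fun a => ∀ j, Gd δ (σ j).1 (W (σ j).2 a (y j)))).card : ℝ)))).card : ℝ) ≤ η * (C.card : ℝ) ^ n := by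
  obtain ⟨Λ, δ₂, hΛ, hδ₂, h⟩ := star α β n M δ η hM hδ hδ1 hη
  have hΛ0 : 0 < Λ := by linarith only [hΛ]
  have hp1 : (δ / 2) ^ n ≤ 1 := pow_le_one₀ (by positivity) (by linarith only [hδ1])
  refine ⟨(δ / 2) ^ n / Λ, δ₂, by positivity, ?_, hδ₂, fun ι σ A C W hW hcut hM2 => ?_⟩
  · rw [div_le_one hΛ0]; exact hp1.trans hΛ
  obtain ⟨u, hu1, hu2⟩ := h ι σ A C W hW hcut hM2
  refine le_trans (Nat.cast_le.2 (card_le_card ?_)) hu2
  intro y hy
  rw [mem_filter] at hy ⊢
  refine ⟨hy.1, ?_⟩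
  by_contra hcon
  push Not at hcon
  apply hy.2
  have h2 : ∑ a ∈ A, u y a ≤ Λ * ((A.filter (fun a => ∀ j, Gd δ (σ j).1 (W (σ j).2 a (y j)))).card : ℝ) := by
    calc ∑ a ∈ A, u y a ≤ ∑ a ∈ A, (if (∀ j, Gd δ (σ j).1 (W (σ j).2 a (y j))) then Λ else 0) := by
          apply sum_le_sum
          intro a ha
          obtain ⟨g1, g2, g3⟩ := hu1 y hy.1 a ha
          split_ifs with hc
          · exact g2
          · rcases g1.lt_or_eq with h3 | h3
            · exact absurd (g3 h3) hc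
            · rw [← h3]
      _ = _ := by rw [← sum_filter, sum_const, nsmul_eq_mul, mul_comm]
  rw [div_mul_eq_mul_div, div_le_iff₀ hΛ0]
  linarith only [hcon, h2]

/-- restriction to a large part -/
lemma cut_restrict {α β : Type} {A : Finset α} {C C' : Finset β} {W : α → β → ℝ} {δ₂ κ : ℝ} (hκ : 0 < κ) (hδ₂ : 0 ≤ δ₂)
    (h : Cut A C W (δ₂ * κ)) (hC : C' ⊆ C) (hc : κ * C.card ≤ (C'.card : ℝ)) : Cut A C' W δ₂ := by
  intro A'' hA'' C'' hC''
  refine (h A'' hA'' C'' (hC''.trans hC)).trans ?_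
  have : δ₂ * κ * ((A.card : ℝ) * C.card) = δ₂ * (A.card * (κ * C.card)) := by ring
  rw [this]
  exact mul_le_mul_of_nonneg_left (mul_le_mul_of_nonneg_left hc (Nat.cast_nonneg _)) hδ₂

lemma sq_restrict {α β : Type} {A : Finset α} {C C' : Finset β} {W : α → β → ℝ} {M κ : ℝ} (hκ : 0 < κ) (hM : 0 ≤ M)
    (h : ∑ a ∈ A, ∑ c ∈ C, W a c ^ 2 ≤ M * (A.card * C.card)) (hC : C' ⊆ C) (hc : κ * C.card ≤ (C'.card : ℝ)) :
    ∑ a ∈ A, ∑ c ∈ C', W a c ^ 2 ≤ M / κ * (A.card * C'.card) := by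
  have h1 : ∑ a ∈ A, ∑ c ∈ C', W a c ^ 2 ≤ ∑ a ∈ A, ∑ c ∈ C, W a c ^ 2 :=
    sum_le_sum fun a _ => sum_le_sum_of_subset_of_nonneg hC fun c _ _ => sq_nonneg _
  refine (h1.trans h).trans ?_
  have : M * ((A.card : ℝ) * C.card) = M / κ * (A.card * (κ * C.card)) := by field_simp
  rw [this]
  exact mul_le_mul_of_nonneg_left (mul_le_mul_of_nonneg_left hc (Nat.cast_nonneg _)) (div_nonneg hM hκ.le)

end Pool.Agent.V11316.TB
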