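import Pool.Agent.V11316.TB2

/-! The application to primes. -/

set_option autoImplicit false

namespace Pool.Agent.V11316.TB
open Finset Filter
open Pool.Agent.Y851.PS
open Pool.Agent.Y851.PT

/-- a set which is spread at a scale is spread at all larger scales -/
lemma SpH_up {B H₀ H θ X : ℝ} {C : Finset ℝ} (h : SpH B H₀ θ X C) (hX : 1 < X) (hH₀ : 0 < H₀) (hB : 0 ≤ B) (hH : H₀ ≤ H) :
    SpH (2 * B) H θ X C := by
  have hX0 : 0 < X := by linarith only [hX]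
  refine ⟨h.pos, h.le, fun u => ?_⟩
  have h1 := h.long hX hH₀ hB u (H / X ^ θ) (div_le_div_of_nonneg_right hH (by positivity))
  refine h1.trans (le_of_eq ?_)
  rw [Real.rpow_sub hX0, Real.rpow_one]
  field_simp

open Classical in
theorem primes_table (r s k l : ℕ) (θ lam ϱ d B β δ η : ℝ) (hθ : 0 < θ) (hlam : 0 < lam) (hϱ : 0 < ϱ) (hd : 0 < d) (hB : 1 ≤ B)
    (hβ : 0 < β) (hδ : 0 < δ) (hδ1 : δ ≤ 1) (hη : 0 < η) :
    ∃ κ : ℝ, 0 < κ ∧ ∀ᶠ X : ℝ in atTop, ∀ H₀ : ℝ, lam * Real.log X ≤ H₀ →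
    ∀ (A : Finset ℕ) (C : Finset ℝ), Adm d θ X A → (∀ a ∈ A, β * X ^ θ ≤ (a : ℝ)) → SpH B H₀ θ X C →
    ∀ (σ : Fin r → Fin l → Bool × ℝ) (τ : Fin k → Fin s → Bool × ℝ) (υ : Fin k → Fin l → Bool × ℝ),
    (∀ i j, H₀ ≤ (σ i j).2 ∧ (σ i j).2 ≤ X ^ (1 - ϱ)) → (∀ i j, H₀ ≤ (τ i j).2 ∧ (τ i j).2 ≤ X ^ (1 - ϱ)) →
    (∀ i j, H₀ ≤ (υ i j).2 ∧ (υ i j).2 ≤ X ^ (1 - ϱ)) →
    (((Fintype.piFinset (fun _ : Fin r => A) ×ˢ Fintype.piFinset (fun _ : Fin s => C)).filter (fun z => ¬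
      (κ * ((A.card : ℝ) ^ k * (C.card : ℝ) ^ l) ≤
        ((Comp δ σ τ υ A C (fun H (a : ℕ) (c : ℝ) => ZH H (a * c)) z.1 z.2).card : ℝ)))).card : ℝ) ≤
      η * ((A.card : ℝ) ^ r * (C.card : ℝ) ^ s) := by
  obtain ⟨M, hM, hb⟩ := base2 θ lam ϱ d (2 * B) β hθ hlam hϱ hd (by linarith only [hB]) hβ
  obtain ⟨κ, δ₂, hκ, hδ₂, ht⟩ := table ℕ ℝ r s k l M δ η hM hδ hδ1 hη
  refine ⟨κ, hκ, ?_⟩
  filter_upwards [hb δ₂ hδ₂, eventually_gt_atTop 1] with X hX hX1 H₀ hH₀ A C hA hAβ hC σ τ υ hσ hτ hυ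
  have hH₀0 : 0 < H₀ := lt_of_lt_of_le (mul_pos hlam (Real.log_pos hX1)) hH₀
  have hfam : ∀ H : {H : ℝ // H₀ ≤ H ∧ H ≤ X ^ (1 - ϱ)}, 0 < H.1 ∧ Cut A C (fun (a : ℕ) (c : ℝ) => ZH H.1 (a * c)) δ₂ ∧
      ∑ a ∈ A, ∑ c ∈ C, ZH H.1 (a * c) ^ 2 ≤ M * (A.card * C.card) := fun H =>
    hX H.1 (hH₀.trans H.2.1) H.2.2 A C hA hAβ (SpH_up hC hX1 hH₀0 (by linarith only [hB]) H.2.1)
  exact ht {H : ℝ // H₀ ≤ H ∧ H ≤ X ^ (1 - ϱ)} (fun i j => ((σ i j).1, ⟨(σ i j).2, hσ i j⟩)) (fun i j => ((τ i j).1, ⟨(τ i j).2, hτ i j⟩))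
    (fun i j => ((υ i j).1, ⟨(υ i j).2, hυ i j⟩)) A C (fun H (a : ℕ) (c : ℝ) => ZH H.1 (a * c)) (fun H a _ c _ => ZH_nonneg (hfam H).1.le _)
    (fun H => (hfam H).2.1) (fun H => (hfam H).2.2)

/-- windows of logarithmic length -/
lemma short_window {lam H X x : ℝ} (hlam : 0 < lam) (hlam1 : lam < 1) (hX : 1 < X) (hH : 0 < H) (hHl : H ≤ lam * Real.log X)
    (hx : (1 + lam) / 2 * Real.log X ≤ Real.log x) (hx0 : 0 < x) (b : Bool)
    (h : Gd (min 1 ((1 / lam - 1) / 2)) b (ZH H x)) :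
    (∃ p : ℕ, p.Prime ∧ x - H < p ∧ (p : ℝ) < x) ↔ b = true := by
  have hlog : 0 < Real.log X := Real.log_pos hX
  have hmin : min 1 ((1 / lam - 1) / 2) ≤ 1 := min_le_left _ _
  constructor
  · rintro ⟨p, hp, h1, h2⟩
    by_contra hb
    unfold Gd at h
    rw [if_neg hb] at h
    have hmem : p ∈ PH H x := by
      rw [mem_PH hx0.le]
      exact ⟨hp, h1, h2⟩
    have hc : (1 : ℝ) ≤ ((PH H x).card : ℝ) := by
      exact_mod_cast card_pos.2 ⟨p, hmem⟩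
    have hlx : 0 < Real.log x := lt_of_lt_of_le (by positivity) hx
    have h3 : Real.log x / H ≤ ZH H x := by
      unfold ZH
      apply div_le_div_of_nonneg_right _ hH.le
      calc Real.log x = 1 * Real.log x := (one_mul _).symm
        _ ≤ _ := mul_le_mul_of_nonneg_right hc hlx.le
    have h4 : (1 + lam) / 2 / lam ≤ Real.log x / H := by
      rw [div_le_div_iff₀ hlam hH]
      calc (1 + lam) / 2 * H ≤ (1 + lam) / 2 * (lam * Real.log X) := mul_le_mul_of_nonneg_left hHl (by positivity)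
        _ = ((1 + lam) / 2 * Real.log X) * lam := by ring
        _ ≤ Real.log x * lam := mul_le_mul_of_nonneg_right hx hlam.le
    have h5 := min_le_right (1 : ℝ) ((1 / lam - 1) / 2)
    have e : (1 + lam) / 2 / lam = 1 + (1 / lam - 1) / 2 := by field_simp; ring
    linarith only [h, h3, h4, h5, e]
  · intro hb
    unfold Gd at h
    rw [if_pos hb] at h
    have h0 : 0 < ZH H x := by linarith only [h, hmin]
    exact (ZH_pos_iff hH x).1 h0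

/-- the size of the entries -/
lemma entry_log (lam β : ℝ) (hβ : 0 < β) (hlam1 : lam < 1) : ∀ᶠ X : ℝ in atTop, ∀ (θ a c : ℝ), β * X ^ θ ≤ a →
    β * X ^ (1 - θ) ≤ c → 0 < a * c ∧ (1 + lam) / 2 * Real.log X ≤ Real.log (a * c) := by
  have h1 : Tendsto Real.log atTop atTop := Real.tendsto_log_atTop
  have h2 : 0 < (1 - lam) / 2 := by linarith only [hlam1]
  filter_upwards [(h1.const_mul_atTop h2).eventually_ge_atTop (-(2 * Real.log β)), eventually_gt_atTop 0] with X hX hX0 θ a c ha hc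
  have p1 : 0 < β * X ^ θ := by positivity
  have p2 : 0 < β * X ^ (1 - θ) := by positivity
  have ha0 : 0 < a := lt_of_lt_of_le p1 ha
  have hc0 : 0 < c := lt_of_lt_of_le p2 hc
  refine ⟨mul_pos ha0 hc0, ?_⟩
  have h3 : β * X ^ θ * (β * X ^ (1 - θ)) ≤ a * c := mul_le_mul ha hc p2.le ha0.le
  have h4 : β * X ^ θ * (β * X ^ (1 - θ)) = β ^ 2 * X := by
    have : X ^ θ * X ^ (1 - θ) = X := by
      rw [← Real.rpow_add hX0]; simp
    calc β * X ^ θ * (β * X ^ (1 - θ)) = β ^ 2 * (X ^ θ * X ^ (1 - θ)) := by ring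
      _ = _ := by rw [this]
  rw [h4] at h3
  have h5 : Real.log (β ^ 2 * X) ≤ Real.log (a * c) := Real.log_le_log (by positivity) h3
  rw [Real.log_mul (by positivity) hX0.ne', Real.log_pow] at h5
  push_cast at h5
  have e : (1 + lam) / 2 * Real.log X = Real.log X - (1 - lam) / 2 * Real.log X := by ring
  linarith only [h5, hX, e]

end Pool.Agent.V11316.TB
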