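import Pool.Agent.V11316.TB2

/-! Correlations in multiplication tables, for functions with small cut norm and bounded moments of the rows. -/

set_option autoImplicit false

namespace Pool.Agent.V11316.TB
open Finset Filter
open Pool.Agent.Y851.PS
open Pool.Agent.Y851.PT

/-- moments of the rows, up to the order `m₀` -/
def Mom {α β : Type} (m₀ : ℕ) (A : Finset α) (C : Finset β) (W : α → β → ℝ) (M : ℝ) : Prop :=
  ∀ m : ℕ, m ≤ m₀ → ∀ a ∈ A, ∑ c ∈ C, W a c ^ m ≤ M * C.card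

/-- a family of functions with small cut norm and bounded moments of the rows -/
structure Fam {α β ι : Type} (m₀ : ℕ) (A : Finset α) (C : Finset β) (W : ι → α → β → ℝ) (M δ : ℝ) : Prop where
  nn : ∀ i, ∀ a ∈ A, ∀ c ∈ C, 0 ≤ W i a c
  cut : ∀ i, Cut A C (W i) δ
  mom : ∀ i, Mom m₀ A C (W i) M

lemma Fam.weaken {α β ι : Type} {m₀ : ℕ} {A : Finset α} {C : Finset β} {W : ι → α → β → ℝ} {M δ δ' : ℝ}
    (h : Fam m₀ A C W M δ) (hδ : δ ≤ δ') : Fam m₀ A C W M δ' :=
  ⟨h.nn, fun i A' hA' C' hC' => (h.cut i A' hA' C' hC').trans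
    (mul_le_mul_of_nonneg_right hδ (mul_nonneg (Nat.cast_nonneg _) (Nat.cast_nonneg _))), h.mom⟩

lemma prod_le_sum_pow {m : ℕ} (t : Fin m → ℝ) (ht : ∀ i, 0 ≤ t i) : ∏ i, t i ≤ 1 + ∑ i, t i ^ m := by
  rcases Nat.eq_zero_or_pos m with h | h
  · subst h; simp
  · haveI : Nonempty (Fin m) := ⟨⟨0, h⟩⟩
    obtain ⟨i₀, hi₀⟩ := Finite.exists_max t
    have h1 : ∏ i, t i ≤ t i₀ ^ m := by
      calc ∏ i, t i ≤ ∏ _i : Fin m, t i₀ := prod_le_prod (fun i _ => ht i) fun i _ => hi₀ i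
        _ = t i₀ ^ m := by rw [prod_const, Finset.card_univ, Fintype.card_fin]
    have h2 : t i₀ ^ m ≤ ∑ i, t i ^ m := single_le_sum (f := fun i => t i ^ m) (fun i _ => pow_nonneg (ht i) m) (mem_univ i₀)
    linarith only [h1, h2]

lemma row_prod {α β ι : Type} {m₀ : ℕ} {A : Finset α} {C : Finset β} {W : ι → α → β → ℝ} {M δ : ℝ}
    (hF : Fam m₀ A C W M δ) {n : ℕ} (e : Fin n → ι) (p : ℕ) (hp : p * n ≤ m₀) (x : Fin n → α) (hx : ∀ i, x i ∈ A) :
    ∑ c ∈ C, (∏ i, W (e i) (x i) c) ^ p ≤ (1 + n * M) * C.card := by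
  have h1 : ∀ c ∈ C, (∏ i, W (e i) (x i) c) ^ p ≤ 1 + ∑ i, W (e i) (x i) c ^ (p * n) := by
    intro c hc
    rw [← prod_pow]
    refine (prod_le_sum_pow (fun i => W (e i) (x i) c ^ p) (fun i => pow_nonneg (hF.nn _ _ (hx i) c hc) p)).trans (le_of_eq ?_)
    simp_rw [← pow_mul]
  refine (sum_le_sum h1).trans ?_
  rw [sum_add_distrib, sum_comm, sum_const, nsmul_eq_mul, mul_one]
  have h2 : ∑ i : Fin n, ∑ c ∈ C, W (e i) (x i) c ^ (p * n) ≤ ∑ _i : Fin n, M * C.card := sum_le_sum fun i _ => hF.mom _ _ hp _ (hx i)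
  rw [sum_const, nsmul_eq_mul, Finset.card_univ, Fintype.card_fin] at h2
  linarith only [h2]

/-- **Columns**: sums over the columns, for most rows -/
theorem colstar (α β : Type) (m₀ n : ℕ) : ∀ M δ : ℝ, 1 ≤ M → 0 < δ → 4 * n + 2 ≤ m₀ → ∃ δ₂ : ℝ, 0 < δ₂ ∧
    ∀ (ι : Type) (e : Fin n → ι) (A : Finset α) (C : Finset β) (W : ι → α → β → ℝ), Fam m₀ A C W M δ₂ →
    ∑ x ∈ Fintype.piFinset (fun _ : Fin n => A), |∑ c ∈ C, ∏ i, W (e i) (x i) c - C.card| ≤ δ * ((A.card : ℝ) ^ n * C.card) := by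
  induction n with
  | zero =>
    intro M δ hM hδ _
    refine ⟨1, one_pos, fun ι e A C W _ => ?_⟩
    simp only [univ_eq_empty, prod_empty, sum_const, nsmul_eq_mul, mul_one, sub_self, abs_zero, mul_zero, pow_zero, one_mul]
    positivity
  | succ n ih =>
    intro M δ hM hδ hm₀
    obtain ⟨δ₁, hδ₁, h⟩ := ih M (δ / 2) hM (half_pos hδ) (by omega)
    have hM0 : 0 < M := by linarith only [hM]
    obtain ⟨K, hK⟩ : ∃ K, K = (1 + n * M) + M + (1 + n * M) := ⟨_, rfl⟩
    have hK0 : 0 < K := by rw [hK]; positivity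
    obtain ⟨Λ, hΛ⟩ : ∃ Λ, Λ = 4 * K / δ := ⟨_, rfl⟩
    have hΛ0 : 0 < Λ := by rw [hΛ]; positivity
    refine ⟨min δ₁ (δ / (8 * Λ)), by positivity, fun ι e A C W hF => ?_⟩
    have hAC : (0 : ℝ) ≤ (A.card : ℝ) * C.card := mul_nonneg (Nat.cast_nonneg _) (Nat.cast_nonneg _)
    have hF1 : Fam m₀ A C W M δ₁ := hF.weaken (min_le_left _ _)
    have hF2 : Fam m₀ A C W M (δ / (8 * Λ)) := hF.weaken (min_le_right _ _)
    have hih := h ι (fun i => e i.succ) A C W hF1
    rw [Pool.Agent.Y851.PS.sum_cons]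
    have key : ∀ x ∈ Fintype.piFinset (fun _ : Fin n => A),
        ∑ a ∈ A, |∑ c ∈ C, ∏ i, W (e i) ((Fin.cons a x : Fin (n + 1) → α) i) c - C.card| ≤
          δ / 2 * (A.card * C.card) + A.card * |∑ c ∈ C, ∏ i, W (e i.succ) (x i) c - C.card| := by
      intro x hx
      rw [Fintype.mem_piFinset] at hx
      obtain ⟨G, hG⟩ : ∃ G : β → ℝ, G = fun c => ∏ i, W (e i.succ) (x i) c := ⟨_, rfl⟩
      have hGc : ∀ c, ∏ i, W (e i.succ) (x i) c = G c := fun c => by rw [hG]
      have hG0 : ∀ c ∈ C, 0 ≤ G c := fun c hc => by rw [hG]; exact prod_nonneg fun i _ => hF.nn _ _ (hx i) c hc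
      simp_rw [Fin.prod_univ_succ, Fin.cons_zero, Fin.cons_succ, hGc]
      have e0 : ∀ a ∈ A, |∑ c ∈ C, W (e 0) a c * G c - C.card| ≤ |∑ c ∈ C, min (G c) Λ * (W (e 0) a c - 1)| +
          ∑ c ∈ C, (G c ^ 2 / Λ) * (W (e 0) a c + 1) + |∑ c ∈ C, G c - C.card| := by
        intro a ha
        have e1 : ∑ c ∈ C, W (e 0) a c * G c - C.card = ∑ c ∈ C, min (G c) Λ * (W (e 0) a c - 1) + ∑ c ∈ C, (G c - min (G c) Λ) * (W (e 0) a c - 1) +
            (∑ c ∈ C, G c - C.card) := by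
          have : ∑ c ∈ C, W (e 0) a c * G c = ∑ c ∈ C, min (G c) Λ * (W (e 0) a c - 1) + ∑ c ∈ C, (G c - min (G c) Λ) * (W (e 0) a c - 1) + ∑ c ∈ C, G c := by
            rw [← sum_add_distrib, ← sum_add_distrib]
            exact sum_congr rfl fun c _ => by ring
          linarith only [this]
        have e2 : |∑ c ∈ C, (G c - min (G c) Λ) * (W (e 0) a c - 1)| ≤ ∑ c ∈ C, (G c ^ 2 / Λ) * (W (e 0) a c + 1) := by
          refine (abs_sum_le_sum_abs _ _).trans (sum_le_sum fun c hc => ?_)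
          have hw := hF.nn (e 0) a ha c hc
          have hg := hG0 c hc
          rw [abs_mul]
          have h1 : |W (e 0) a c - 1| ≤ W (e 0) a c + 1 := by rw [abs_le]; constructor <;> linarith only [hw]
          have h2 : |G c - min (G c) Λ| ≤ G c ^ 2 / Λ := by
            rw [abs_of_nonneg (sub_nonneg.2 (min_le_left _ _))]
            by_cases hc1 : G c ≤ Λ
            · rw [min_eq_left hc1, sub_self]; positivity
            · push Not at hc1
              rw [min_eq_right hc1.le, le_div_iff₀ hΛ0]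
              nlinarith only [hc1, hΛ0]
          exact mul_le_mul h2 h1 (abs_nonneg _) (by positivity)
        rw [e1]
        refine (abs_add_le _ _).trans (add_le_add ((abs_add_le _ _).trans (add_le_add le_rfl e2)) le_rfl)
      refine (sum_le_sum e0).trans ?_
      rw [sum_add_distrib, sum_add_distrib, sum_const, nsmul_eq_mul]
      have h1 := cut_abs (hF2.cut (e 0)).swap (fun c => min (G c) Λ) Λ hΛ0.le (fun c hc => le_min (hG0 c hc) hΛ0.le) (fun c _ => min_le_right _ _)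
      have h2 : ∑ a ∈ A, ∑ c ∈ C, (G c ^ 2 / Λ) * (W (e 0) a c + 1) ≤ δ / 4 * (A.card * C.card) := by
        have h3 : ∀ a ∈ A, ∑ c ∈ C, (G c ^ 2 / Λ) * (W (e 0) a c + 1) ≤ K * C.card / Λ := by
          intro a ha
          have h4 : ∀ c ∈ C, (G c ^ 2 / Λ) * (W (e 0) a c + 1) ≤ (G c ^ 4 + W (e 0) a c ^ 2 + G c ^ 2) / Λ := by
            intro c hc
            rw [div_mul_eq_mul_div]
            apply div_le_div_of_nonneg_right _ hΛ0.le
            nlinarith only [sq_nonneg (G c ^ 2 - W (e 0) a c), sq_nonneg (G c ^ 2), sq_nonneg (W (e 0) a c)]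
          refine (sum_le_sum h4).trans ?_
          rw [← sum_div]
          apply div_le_div_of_nonneg_right _ hΛ0.le
          rw [sum_add_distrib, sum_add_distrib]
          have h5 := row_prod hF (fun i => e i.succ) 4 (by omega) x hx
          have h6 := row_prod hF (fun i => e i.succ) 2 (by omega) x hx
          have h7 := hF.mom (e 0) 2 (by omega) a ha
          simp_rw [hGc] at h5 h6
          rw [hK]
          linarith only [h5, h6, h7]
        refine (sum_le_sum h3).trans (le_of_eq ?_)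
        rw [sum_const, nsmul_eq_mul, hΛ]
        first | (field_simp; done) | (field_simp; ring)
      have h3 : 2 * Λ * (δ / (8 * Λ) * ((C.card : ℝ) * A.card)) = δ / 4 * (A.card * C.card) := by
        first | (field_simp; done) | (field_simp; ring) | (field_simp; norm_num)
      rw [h3] at h1
      linarith only [h1, h2]
    refine (sum_le_sum key).trans ?_
    rw [sum_add_distrib, sum_const, nsmul_eq_mul, ← mul_sum, card_pow_fin]
    have h4 : (A.card : ℝ) * ∑ x ∈ Fintype.piFinset (fun _ : Fin n => A), |∑ c ∈ C, ∏ i, W (e i.succ) (x i) c - C.card| ≤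
        A.card * (δ / 2 * ((A.card : ℝ) ^ n * C.card)) := mul_le_mul_of_nonneg_left hih (Nat.cast_nonneg _)
    have h5 : (A.card : ℝ) ^ n * (δ / 2 * (A.card * C.card)) + A.card * (δ / 2 * ((A.card : ℝ) ^ n * C.card)) =
        δ * ((A.card : ℝ) ^ (n + 1) * C.card) := by ring
    linarith only [h4, h5]

/-- moments of products along rows -/
lemma row_pow {α β ι : Type} {m₀ : ℕ} {A : Finset α} {C : Finset β} {W : ι → α → β → ℝ} {M δ : ℝ} (hM0 : 0 ≤ M)
    (hF : Fam m₀ A C W M δ) (n p : ℕ) (e : Fin n → ι) (hp : p ≤ m₀) :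
    ∑ y ∈ Fintype.piFinset (fun _ : Fin n => C), ∑ a ∈ A, (∏ j, W (e j) a (y j)) ^ p ≤ A.card * (M ^ n * (C.card : ℝ) ^ n) := by
  rw [sum_comm]
  have h1 : ∀ a ∈ A, ∑ y ∈ Fintype.piFinset (fun _ : Fin n => C), (∏ j, W (e j) a (y j)) ^ p ≤ M ^ n * (C.card : ℝ) ^ n := by
    intro a ha
    simp_rw [← prod_pow]
    rw [sum_prod_piFinset C (fun j c => W (e j) a c ^ p)]
    have h2 : ∏ j : Fin n, ∑ c ∈ C, W (e j) a c ^ p ≤ ∏ _j : Fin n, (M * C.card) :=
      prod_le_prod (fun j _ => sum_nonneg fun c hc => pow_nonneg (hF.nn _ a ha c hc) p) fun j _ => hF.mom _ p hp a ha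
    rw [prod_const, Finset.card_univ, Fintype.card_fin, mul_pow] at h2
    exact h2
  refine (sum_le_sum h1).trans (le_of_eq ?_)
  rw [sum_const, nsmul_eq_mul]

/-- **Rows**: sums over the rows, for most columns -/
theorem rowstar (α β : Type) (m₀ n : ℕ) : ∀ M δ : ℝ, 1 ≤ M → 0 < δ → 2 ≤ m₀ → ∃ δ₂ : ℝ, 0 < δ₂ ∧
    ∀ (ι : Type) (e : Fin n → ι) (A : Finset α) (C : Finset β) (W : ι → α → β → ℝ), Fam m₀ A C W M δ₂ →
    ∑ y ∈ Fintype.piFinset (fun _ : Fin n => C), |∑ a ∈ A, ∏ j, W (e j) a (y j) - A.card| ≤ δ * (A.card * (C.card : ℝ) ^ n) := by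
  induction n with
  | zero =>
    intro M δ hM hδ _
    refine ⟨1, one_pos, fun ι e A C W _ => ?_⟩
    simp only [univ_eq_empty, prod_empty, sum_const, nsmul_eq_mul, mul_one, sub_self, abs_zero, mul_zero, pow_zero]
    positivity
  | succ n ih =>
    intro M δ hM hδ hm₀
    obtain ⟨δ₁, hδ₁, h⟩ := ih M (δ / 2) hM (half_pos hδ) hm₀
    have hM0 : 0 < M := by linarith only [hM]
    obtain ⟨K, hK⟩ : ∃ K, K = (M + 1) * M ^ n := ⟨_, rfl⟩
    have hK0 : 0 < K := by rw [hK]; positivity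
    obtain ⟨Λ, hΛ⟩ : ∃ Λ, Λ = 4 * K / δ := ⟨_, rfl⟩
    have hΛ0 : 0 < Λ := by rw [hΛ]; positivity
    refine ⟨min δ₁ (δ / (8 * Λ)), by positivity, fun ι e A C W hF => ?_⟩
    have hAC : (0 : ℝ) ≤ (A.card : ℝ) * C.card := mul_nonneg (Nat.cast_nonneg _) (Nat.cast_nonneg _)
    have hF1 : Fam m₀ A C W M δ₁ := hF.weaken (min_le_left _ _)
    have hF2 : Fam m₀ A C W M (δ / (8 * Λ)) := hF.weaken (min_le_right _ _)
    have hih := h ι (fun i => e i.succ) A C W hF1
    rw [Pool.Agent.Y851.PS.sum_cons]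
    have key : ∀ y ∈ Fintype.piFinset (fun _ : Fin n => C),
        ∑ c ∈ C, |∑ a ∈ A, ∏ j, W (e j) a ((Fin.cons c y : Fin (n + 1) → β) j) - A.card| ≤
          δ / 4 * (A.card * C.card) + (M + 1) * C.card / Λ * ∑ a ∈ A, (∏ j, W (e j.succ) a (y j)) ^ 2 +
          C.card * |∑ a ∈ A, ∏ j, W (e j.succ) a (y j) - A.card| := by
      intro y hy
      rw [Fintype.mem_piFinset] at hy
      obtain ⟨G, hG⟩ : ∃ G : α → ℝ, G = fun a => ∏ j, W (e j.succ) a (y j) := ⟨_, rfl⟩
      have hGc : ∀ a, ∏ j, W (e j.succ) a (y j) = G a := fun a => by rw [hG]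
      have hG0 : ∀ a ∈ A, 0 ≤ G a := fun a ha => by rw [hG]; exact prod_nonneg fun j _ => hF.nn _ a ha _ (hy j)
      simp_rw [Fin.prod_univ_succ, Fin.cons_zero, Fin.cons_succ, hGc]
      have e0 : ∀ c ∈ C, |∑ a ∈ A, W (e 0) a c * G a - A.card| ≤ |∑ a ∈ A, min (G a) Λ * (W (e 0) a c - 1)| +
          ∑ a ∈ A, (G a ^ 2 / Λ) * (W (e 0) a c + 1) + |∑ a ∈ A, G a - A.card| := by
        intro c hc
        have e1 : ∑ a ∈ A, W (e 0) a c * G a - A.card = ∑ a ∈ A, min (G a) Λ * (W (e 0) a c - 1) + ∑ a ∈ A, (G a - min (G a) Λ) * (W (e 0) a c - 1) +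
            (∑ a ∈ A, G a - A.card) := by
          have : ∑ a ∈ A, W (e 0) a c * G a = ∑ a ∈ A, min (G a) Λ * (W (e 0) a c - 1) + ∑ a ∈ A, (G a - min (G a) Λ) * (W (e 0) a c - 1) + ∑ a ∈ A, G a := by
            rw [← sum_add_distrib, ← sum_add_distrib]
            exact sum_congr rfl fun a _ => by ring
          linarith only [this]
        have e2 : |∑ a ∈ A, (G a - min (G a) Λ) * (W (e 0) a c - 1)| ≤ ∑ a ∈ A, (G a ^ 2 / Λ) * (W (e 0) a c + 1) := by
          refine (abs_sum_le_sum_abs _ _).trans (sum_le_sum fun a ha => ?_)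
          have hw := hF.nn (e 0) a ha c hc
          have hg := hG0 a ha
          rw [abs_mul]
          have h1 : |W (e 0) a c - 1| ≤ W (e 0) a c + 1 := by rw [abs_le]; constructor <;> linarith only [hw]
          have h2 : |G a - min (G a) Λ| ≤ G a ^ 2 / Λ := by
            rw [abs_of_nonneg (sub_nonneg.2 (min_le_left _ _))]
            by_cases hc1 : G a ≤ Λ
            · rw [min_eq_left hc1, sub_self]; positivity
            · push Not at hc1
              rw [min_eq_right hc1.le, le_div_iff₀ hΛ0]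
              nlinarith only [hc1, hΛ0]
          exact mul_le_mul h2 h1 (abs_nonneg _) (by positivity)
        rw [e1]
        refine (abs_add_le _ _).trans (add_le_add ((abs_add_le _ _).trans (add_le_add le_rfl e2)) le_rfl)
      refine (sum_le_sum e0).trans ?_
      rw [sum_add_distrib, sum_add_distrib, sum_const, nsmul_eq_mul]
      have h1 := cut_abs (hF2.cut (e 0)) (fun a => min (G a) Λ) Λ hΛ0.le (fun a ha => le_min (hG0 a ha) hΛ0.le) (fun a _ => min_le_right _ _)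
      have h2 : ∑ c ∈ C, ∑ a ∈ A, (G a ^ 2 / Λ) * (W (e 0) a c + 1) ≤ (M + 1) * C.card / Λ * ∑ a ∈ A, G a ^ 2 := by
        rw [sum_comm, mul_sum]
        apply sum_le_sum
        intro a ha
        rw [← mul_sum, sum_add_distrib, sum_const, nsmul_eq_mul, mul_one]
        have h3 := hF.mom (e 0) 1 (by omega) a ha
        simp only [pow_one] at h3
        have h4 : G a ^ 2 / Λ * (∑ c ∈ C, W (e 0) a c + C.card) ≤ G a ^ 2 / Λ * ((M + 1) * C.card) :=
          mul_le_mul_of_nonneg_left (by linarith only [h3]) (by positivity)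
        refine h4.trans (le_of_eq (by ring))
      have h3 : 2 * Λ * (δ / (8 * Λ) * ((A.card : ℝ) * C.card)) = δ / 4 * (A.card * C.card) := by
        first | (field_simp; done) | (field_simp; ring) | (field_simp; norm_num)
      rw [h3] at h1
      linarith only [h1, h2]
    refine (sum_le_sum key).trans ?_
    rw [sum_add_distrib, sum_add_distrib, sum_const, nsmul_eq_mul, ← mul_sum, ← mul_sum, card_pow_fin]
    have h2 := row_pow hM0.le hF n 2 (fun i => e i.succ) hm₀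
    have h3 : (M + 1) * C.card / Λ * ∑ y ∈ Fintype.piFinset (fun _ : Fin n => C), ∑ a ∈ A, (∏ j, W (e j.succ) a (y j)) ^ 2 ≤
        δ / 4 * (A.card * (C.card : ℝ) ^ (n + 1)) := by
      refine (mul_le_mul_of_nonneg_left h2 (by positivity)).trans (le_of_eq ?_)
      rw [hΛ, hK]
      first | (field_simp; done) | (field_simp; ring)
    have h4 : (C.card : ℝ) * ∑ y ∈ Fintype.piFinset (fun _ : Fin n => C), |∑ a ∈ A, ∏ j, W (e j.succ) a (y j) - A.card| ≤
        C.card * (δ / 2 * (A.card * (C.card : ℝ) ^ n)) := mul_le_mul_of_nonneg_left hih (Nat.cast_nonneg _)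
    have h5 : (C.card : ℝ) ^ n * (δ / 4 * (A.card * C.card)) + δ / 4 * (A.card * (C.card : ℝ) ^ (n + 1)) +
        C.card * (δ / 2 * (A.card * (C.card : ℝ) ^ n)) = δ * (A.card * (C.card : ℝ) ^ (n + 1)) := by ring
    linarith only [h3, h4, h5]

end Pool.Agent.V11316.TB
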