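import Pool.Agent.V11316.TM2
import Pool.Agent.V11316.TM3
import Pool.Agent.V11316.TB3

/-! The asymptotic formula for the primes. -/

set_option autoImplicit false

namespace Pool.Agent.V11316.TB
open Finset Filter
open Pool.Agent.Y851.PS
open Pool.Agent.Y851.PT

/-- all moments up to `m₀` -/
theorem row_moms (m₀ : ℕ) (lam β B : ℝ) (hlam : 0 < lam) (hβ : 0 < β) (hB : 1 ≤ B) : ∃ M : ℝ, 1 ≤ M ∧ ∀ᶠ X : ℝ in atTop,
    ∀ H θ : ℝ, lam * Real.log X ≤ H → H ≤ X → ∀ C : Finset ℝ, SpH B H θ X C →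
    ∀ A : Finset ℕ, (∀ a ∈ A, 1 ≤ a ∧ β * X ^ θ ≤ (a : ℝ) ∧ (a : ℝ) ≤ X ^ θ) → Mom m₀ A C (fun (a : ℕ) (c : ℝ) => ZH H (a * c)) M := by
  choose M hM hev using row_mom1 lam β B hlam hβ hB
  have hsum : 0 ≤ ∑ m ∈ range m₀, M m := sum_nonneg fun m _ => zero_le_one.trans (hM m)
  refine ⟨1 + ∑ m ∈ range m₀, M m, by linarith only [hsum], ?_⟩
  have hall := (eventually_all_finset (range m₀)).2 fun m _ => hev m
  filter_upwards [hall] with X hX H θ hH1 hH2 C hC A hA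
  intro m hm a ha
  obtain ⟨h1, h2, h3⟩ := hA a ha
  have hCc : (0 : ℝ) ≤ C.card := Nat.cast_nonneg _
  rcases m with _ | m
  · simp only [pow_zero, sum_const, nsmul_eq_mul, mul_one]
    have := mul_nonneg hsum hCc
    linarith only [this]
  · refine (hX m (mem_range.2 (by omega)) H θ hH1 hH2 C hC a h1 h2 h3).trans ?_
    apply mul_le_mul_of_nonneg_right _ hCc
    have := single_le_sum (f := M) (fun i _ => zero_le_one.trans (hM i)) (mem_range.2 (show m < m₀ by omega))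
    linarith only [this]

/-- the weight of a cell: the density of a window of length `H`, or `1` -/
noncomputable def wH (o : Option ℝ) (a : ℕ) (c : ℝ) : ℝ := match o with
  | none => 1
  | some H => ZH H (a * c)

open Classical in
/-- **the asymptotic formula for the primes** -/
theorem primes_asym (r s k l : ℕ) (θ lam ϱ d B β δ : ℝ) (hθ : 0 < θ) (hlam : 0 < lam) (hϱ : 0 < ϱ) (hd : 0 < d) (hB : 1 ≤ B)
    (hβ : 0 < β) (hδ : 0 < δ) :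
    ∀ᶠ X : ℝ in atTop, ∀ H₀ : ℝ, lam * Real.log X ≤ H₀ →
    ∀ (A : Finset ℕ) (C : Finset ℝ), Adm d θ X A → (∀ a ∈ A, β * X ^ θ ≤ (a : ℝ)) → SpH B H₀ θ X C →
    ∀ (σ : Fin r → Fin l → Option ℝ) (τ : Fin k → Fin s → Option ℝ) (υ : Fin k → Fin l → Option ℝ),
    (∀ i j, ∀ H ∈ σ i j, H₀ ≤ H ∧ H ≤ X ^ (1 - ϱ)) → (∀ i j, ∀ H ∈ τ i j, H₀ ≤ H ∧ H ≤ X ^ (1 - ϱ)) →
    (∀ i j, ∀ H ∈ υ i j, H₀ ≤ H ∧ H ≤ X ^ (1 - ϱ)) →
    (((Fintype.piFinset (fun _ : Fin r => A) ×ˢ Fintype.piFinset (fun _ : Fin s => C)).filter (fun z =>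
      δ * ((A.card : ℝ) ^ k * (C.card : ℝ) ^ l) <
      |∑ a' ∈ Fintype.piFinset (fun _ : Fin k => A), ∑ c' ∈ Fintype.piFinset (fun _ : Fin l => C), cells wH σ τ υ z.1 z.2 a' c' -
        (A.card : ℝ) ^ k * (C.card : ℝ) ^ l|)).card : ℝ) ≤
      δ * ((A.card : ℝ) ^ r * (C.card : ℝ) ^ s) := by
  obtain ⟨M₁, hM₁, hb⟩ := base2 θ lam ϱ d (2 * B) β hθ hlam hϱ hd (by linarith only [hB]) hβ
  obtain ⟨M, hM, hm⟩ := row_moms (4 * (r + k) + 3) lam β (2 * B) hlam hβ (by linarith only [hB])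
  obtain ⟨δ₂, hδ₂, ht⟩ := asym_good ℕ ℝ r s k l M δ hM hδ
  filter_upwards [hb δ₂ hδ₂, hm, eventually_gt_atTop 1] with X hX hXm hX1 H₀ hH₀ A C hA hAβ hC σ τ υ hσ hτ hυ
  have hH₀0 : 0 < H₀ := lt_of_lt_of_le (mul_pos hlam (Real.log_pos hX1)) hH₀
  have hXX : X ^ (1 - ϱ) ≤ X := by
    calc X ^ (1 - ϱ) ≤ X ^ (1 : ℝ) := Real.rpow_le_rpow_of_exponent_le hX1.le (by linarith only [hϱ])
      _ = X := Real.rpow_one X
  have hfam : ∀ H : {H : ℝ // H₀ ≤ H ∧ H ≤ X ^ (1 - ϱ)}, 0 < H.1 ∧ Cut A C (fun (a : ℕ) (c : ℝ) => ZH H.1 (a * c)) δ₂ ∧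
      Mom (4 * (r + k) + 3) A C (fun (a : ℕ) (c : ℝ) => ZH H.1 (a * c)) M := fun H => by
    have hsp := SpH_up hC hX1 hH₀0 (by linarith only [hB]) H.2.1
    obtain ⟨h1, h2, _⟩ := hX H.1 (hH₀.trans H.2.1) H.2.2 A C hA hAβ hsp
    exact ⟨h1, h2, hXm H.1 θ (hH₀.trans H.2.1) (H.2.2.trans hXX) C hsp A fun a ha => ⟨(hA.1 a ha).1, hAβ a ha, (hA.1 a ha).2⟩⟩
  have hcard : (0 : ℝ) ≤ C.card := Nat.cast_nonneg _
  have hFam : Fam (4 * (r + k) + 3) A C (fun (o : {o : Option ℝ // ∀ H ∈ o, H₀ ≤ H ∧ H ≤ X ^ (1 - ϱ)}) => wH o.1) M δ₂ := by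
    refine ⟨?_, ?_, ?_⟩
    · rintro ⟨o, ho⟩ a _ c _
      rcases o with _ | H
      · exact zero_le_one
      · exact ZH_nonneg (hfam ⟨H, ho H rfl⟩).1.le _
    · rintro ⟨o, ho⟩
      rcases o with _ | H
      · intro A' _ C' _
        simp only [wH, sub_self, sum_const_zero, abs_zero]
        positivity
      · exact (hfam ⟨H, ho H rfl⟩).2.1
    · rintro ⟨o, ho⟩
      rcases o with _ | H
      · intro m _ a _
        simp only [wH, one_pow, sum_const, nsmul_eq_mul, mul_one]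
        calc (C.card : ℝ) = 1 * C.card := (one_mul _).symm
          _ ≤ M * C.card := mul_le_mul_of_nonneg_right hM hcard
      · exact (hfam ⟨H, ho H rfl⟩).2.2
  exact ht {o : Option ℝ // ∀ H ∈ o, H₀ ≤ H ∧ H ≤ X ^ (1 - ϱ)} (fun i j => ⟨σ i j, hσ i j⟩) (fun i j => ⟨τ i j, hτ i j⟩)
    (fun i j => ⟨υ i j, hυ i j⟩) A C (fun o => wH o.1) hFam

end Pool.Agent.V11316.TB
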