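import Mathlib

/-!
Rational numbers whose denominator is prime to `p`, and the expansion of `(1 + c y) ^ M`
with `M c = 2`.
-/

namespace V11316
namespace WPS

/-- the subring of `ℚ` of rationals with denominator prime to `p` -/
def Zp (p : ℕ) (hp : p.Prime) : Subring ℚ where
  carrier := {x | ¬ p ∣ x.den}
  mul_mem' := by
    intro a b ha hb h
    have h1 : p ∣ a.den * b.den := h.trans (Rat.mul_den_dvd a b)
    rcases (hp.dvd_mul).1 h1 with h2 | h2
    · exact ha h2
    · exact hb h2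
  one_mem' := by
    simp [hp.ne_one]
  add_mem' := by
    intro a b ha hb h
    have h1 : p ∣ a.den * b.den := h.trans (Rat.add_den_dvd a b)
    rcases (hp.dvd_mul).1 h1 with h2 | h2
    · exact ha h2
    · exact hb h2
  zero_mem' := by
    simp [hp.ne_one]
  neg_mem' := by
    intro a ha
    simpa using ha

lemma mem_Zp {p : ℕ} {hp : p.Prime} {x : ℚ} : x ∈ Zp p hp ↔ ¬ p ∣ x.den := Iff.rfl

lemma natCast_mem' {p : ℕ} (hp : p.Prime) (n : ℕ) : (n : ℚ) ∈ Zp p hp := natCast_mem _ n

lemma intCast_mem' {p : ℕ} (hp : p.Prime) (n : ℤ) : (n : ℚ) ∈ Zp p hp := intCast_mem _ n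

lemma div_mem' {p : ℕ} (hp : p.Prime) (a b : ℤ) (hb : ¬ (p : ℤ) ∣ b) : (a : ℚ) / b ∈ Zp p hp := by
  rw [mem_Zp]
  intro h
  apply hb
  have h1 : (((a : ℚ) / b).den : ℤ) ∣ b := by
    have := Rat.den_dvd a b
    rwa [Rat.divInt_eq_div] at this
  exact (Int.natCast_dvd_natCast.2 h).trans h1

lemma inv_mem' {p : ℕ} (hp : p.Prime) (b : ℤ) (hb : ¬ (p : ℤ) ∣ b) : (1 : ℚ) / b ∈ Zp p hp := by
  have := div_mem' hp 1 b hb
  simpa using this

/-- `p ^ (r-1) / k` is `p`-integral for `0 < k < p ^ r` -/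
lemma div_mem_of_lt {p : ℕ} (hp : p.Prime) (r k : ℕ) (hk : 0 < k) (hkr : k < p ^ (r + 1)) :
    ((p : ℚ) ^ r) / k ∈ Zp p hp := by
  obtain ⟨e, m, hm, hkm⟩ := Nat.exists_eq_pow_mul_and_not_dvd hk.ne' p hp.ne_one
  have he : e ≤ r := by
    by_contra hcon
    push Not at hcon
    have h1 : p ^ (r + 1) ∣ k := by
      rw [hkm]
      exact Dvd.dvd.mul_right (pow_dvd_pow p (by omega)) m
    have := Nat.le_of_dvd hk h1
    omega
  have hp0 : (p : ℚ) ≠ 0 := by exact_mod_cast hp.ne_zero
  have hm0 : (m : ℚ) ≠ 0 := by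
    have : m ≠ 0 := by
      rintro rfl
      simp at hm
    exact_mod_cast this
  have h2 : ((p : ℚ) ^ r) / k = ((p ^ (r - e) : ℕ) : ℚ) * (1 / ((m : ℤ) : ℚ)) := by
    rw [hkm]
    push_cast
    have : (p : ℚ) ^ r = (p : ℚ) ^ e * (p : ℚ) ^ (r - e) := by
      rw [← pow_add]
      congr 1
      omega
    rw [this]
    field_simp
  rw [h2]
  apply mul_mem (natCast_mem' hp _)
  apply inv_mem'
  exact_mod_cast hm

/-- `p ^ i / (i+4)!` is `p`-integral for `p ≥ 5` -/
lemma pow_div_factorial_mem {p : ℕ} (hp : p.Prime) (h5 : 5 ≤ p) (i : ℕ) :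
    ((p : ℚ) ^ i) / ((i + 4).factorial : ℕ) ∈ Zp p hp := by
  haveI : Fact p.Prime := ⟨hp⟩
  have h1 := sub_one_mul_padicValNat_factorial (p := p) (i + 4)
  have hv : padicValNat p (i + 4).factorial ≤ i := by
    have hdig : 0 < (p.digits (i + 4)).sum := by
      rw [Nat.pos_iff_ne_zero]
      intro h0
      have h2 : (p.digits (i + 4)) ≠ [] := Nat.digits_ne_nil_iff_ne_zero.2 (by omega)
      have h3 := Nat.getLast_digit_ne_zero p (m := i + 4) (by omega)
      have h4 : (p.digits (i + 4)).getLast h2 ∈ p.digits (i + 4) := List.getLast_mem h2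
      have h5 := List.single_le_sum (by simp) _ h4
      omega
    have h6 : 4 * padicValNat p (i + 4).factorial ≤ (p - 1) * padicValNat p (i + 4).factorial :=
      Nat.mul_le_mul_right _ (by omega)
    omega
  obtain ⟨m, hm⟩ : p ^ padicValNat p (i + 4).factorial ∣ (i + 4).factorial := pow_padicValNat_dvd
  have hm1 : ¬ p ∣ m := by
    intro hd
    have h7 : p ^ (padicValNat p (i + 4).factorial + 1) ∣ (i + 4).factorial := by
      rw [pow_succ]
      obtain ⟨m', rfl⟩ := hd
      exact ⟨m', by rw [mul_assoc]; exact hm⟩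
    have := (padicValNat_dvd_iff_le (Nat.factorial_ne_zero _)).1 h7
    omega
  have hp0 : (p : ℚ) ≠ 0 := by exact_mod_cast hp.ne_zero
  have hm0 : (m : ℚ) ≠ 0 := by
    have : m ≠ 0 := by
      rintro rfl
      simp at hm1
    exact_mod_cast this
  have h8 : ((p : ℚ) ^ i) / ((i + 4).factorial : ℕ)
      = ((p ^ (i - padicValNat p (i + 4).factorial) : ℕ) : ℚ) * (1 / ((m : ℤ) : ℚ)) := by
    set v := padicValNat p (i + 4).factorial with hvdef
    rw [hm]
    push_cast
    have : (p : ℚ) ^ i = (p : ℚ) ^ v * (p : ℚ) ^ (i - v) := by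
      rw [← pow_add]
      congr 1
      omega
    rw [this]
    field_simp
  rw [h8]
  apply mul_mem (natCast_mem' hp _)
  apply inv_mem'
  exact_mod_cast hm1

section expansion

variable {p : ℕ} (hp : p.Prime) (h5 : 5 ≤ p) (M : ℕ) (c : ℚ) (hMc : (M : ℚ) * c = 2)
  (hc : c ∈ Zp p hp)

include hMc in
lemma choose_term (y : ℚ) (i : ℕ) :
    (M.choose i : ℚ) * (c * y) ^ i
      = (∏ s ∈ Finset.range i, (2 - s * c)) * (y ^ i / (i.factorial : ℕ)) := by
  have h1 : (M.choose i : ℚ) * (i.factorial : ℕ) = ∏ s ∈ Finset.range i, ((M : ℚ) - s) := by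
    have h2 : M.choose i * i.factorial = M.descFactorial i := by
      rw [Nat.descFactorial_eq_factorial_mul_choose, mul_comm]
    have h3 : ((M.descFactorial i : ℕ) : ℚ) = ∏ s ∈ Finset.range i, ((M : ℚ) - s) := by
      induction i with
      | zero => simp
      | succ n ih =>
        rw [Nat.descFactorial_succ, Finset.prod_range_succ]
        push_cast
        have ih' := ih (by rw [Nat.descFactorial_eq_factorial_mul_choose, mul_comm])
        rw [ih']
        by_cases hn : n ≤ M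
        · rw [Nat.cast_sub hn]
          ring
        · push Not at hn
          have h4 : M - n = 0 := by omega
          have h5 : ∏ s ∈ Finset.range n, ((M : ℚ) - s) = 0 :=
            Finset.prod_eq_zero (Finset.mem_range.2 hn) (by simp)
          rw [h4, h5]
          simp
    rw [← h3, ← h2]
    push_cast
    ring
  have h6 : (∏ s ∈ Finset.range i, (2 - (s : ℚ) * c))
      = (∏ s ∈ Finset.range i, ((M : ℚ) - s)) * c ^ i := by
    rw [← Finset.card_range i, ← Finset.prod_const, Finset.card_range, ← Finset.prod_mul_distrib]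
    apply Finset.prod_congr rfl
    intro s _
    rw [← hMc]
    ring
  rw [h6, ← h1]
  have h7 : ((i.factorial : ℕ) : ℚ) ≠ 0 := by exact_mod_cast Nat.factorial_ne_zero i
  field_simp
  ring

include hMc in
lemma expand_sum (y : ℚ) :
    (1 + c * y) ^ M = ∑ i ∈ Finset.range (M + 5),
      (∏ s ∈ Finset.range i, (2 - (s : ℚ) * c)) * (y ^ i / (i.factorial : ℕ)) := by
  rw [add_comm (1 : ℚ), add_pow]
  have h1 : ∀ i ∈ Finset.range (M + 1), (c * y) ^ i * 1 ^ (M - i) * ((M.choose i : ℕ) : ℚ)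
      = (∏ s ∈ Finset.range i, (2 - (s : ℚ) * c)) * (y ^ i / (i.factorial : ℕ)) := by
    intro i _
    rw [← choose_term M c hMc y i]
    ring
  rw [Finset.sum_congr rfl h1]
  symm
  rw [show M + 5 = (M + 1) + 4 by ring, Finset.sum_range_add]
  have h2 : ∑ x ∈ Finset.range 4, (∏ s ∈ Finset.range (M + 1 + x), (2 - (s : ℚ) * c)) *
      (y ^ (M + 1 + x) / ((M + 1 + x).factorial : ℕ)) = 0 := by
    apply Finset.sum_eq_zero
    intro x _
    have : ∏ s ∈ Finset.range (M + 1 + x), (2 - (s : ℚ) * c) = 0 := by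
      apply Finset.prod_eq_zero (i := M) (Finset.mem_range.2 (by omega))
      rw [← hMc]
      ring
    rw [this, zero_mul]
  rw [h2, add_zero]

include hMc hc h5 in
/-- the main expansion -/
lemma expand (y y' : ℚ) (hy : y = p * y') (hy' : y' ∈ Zp p hp) :
    ∃ z ∈ Zp p hp, (1 + c * y) ^ M
      = 1 + 2 * y + (1 + (1 - c)) * y ^ 2 + (2 / 3) * (1 + (1 - c)) * (1 - c) * y ^ 3
        + (1 - c) * p ^ 2 * y ^ 2 * z := by
  have h2m : (2 : ℚ) ∈ Zp p hp := by exact_mod_cast natCast_mem' hp 2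
  have hterm : ∀ i : ℕ, ∃ z ∈ Zp p hp,
      (∏ s ∈ Finset.range (4 + i), (2 - (s : ℚ) * c)) * (y ^ (4 + i) / ((4 + i).factorial : ℕ))
        = (1 - c) * p ^ 2 * y ^ 2 * z := by
    intro i
    refine ⟨4 * (2 - c) * (∏ s ∈ Finset.range (i + 1), (2 - ((s + 3 : ℕ) : ℚ) * c)) *
      (y' ^ (i + 2) * (p ^ i / ((i + 4).factorial : ℕ))), ?_, ?_⟩
    · refine mul_mem (mul_mem (mul_mem (by exact_mod_cast natCast_mem' hp 4) (sub_mem h2m hc)) ?_) ?_
      · apply prod_mem
        intro s _
        exact sub_mem h2m (mul_mem (natCast_mem' hp _) hc)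
      · exact mul_mem (pow_mem hy' _) (pow_div_factorial_mem hp h5 i)
    · have h3 : ∏ s ∈ Finset.range (4 + i), (2 - (s : ℚ) * c)
          = 2 * (2 - c) * (2 - 2 * c) * ∏ s ∈ Finset.range (i + 1), (2 - ((s + 3 : ℕ) : ℚ) * c) := by
        rw [show 4 + i = 3 + (i + 1) by ring, Finset.prod_range_add]
        congr 1
        · simp [Finset.prod_range_succ]
        · apply Finset.prod_congr rfl
          intro s _
          push_cast
          ring
      rw [h3, show 4 + i = i + 4 by ring]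
      have h4 : y ^ (i + 4) = y ^ 2 * (p ^ 2 * p ^ i * y' ^ (i + 2)) := by
        rw [show i + 4 = 2 + (i + 2) by ring, pow_add]
        congr 1
        rw [hy, mul_pow, pow_add]
        ring
      rw [h4]
      ring
  choose z hz hz' using hterm
  refine ⟨∑ i ∈ Finset.range (M + 1), z i, sum_mem (fun i _ => hz i), ?_⟩
  rw [expand_sum M c hMc y, show M + 5 = 4 + (M + 1) by ring, Finset.sum_range_add]
  rw [Finset.sum_congr rfl (fun i _ => hz' i), ← Finset.mul_sum]
  congr 1
  simp [Finset.sum_range_succ, Finset.prod_range_succ, Nat.factorial]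
  ring

end expansion

end WPS
end V11316
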