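import Pool.Agent.V11316.W1

/-!
The well-poised sum `∑_{k<P} (2k+1-cP) ∏_{j≤k} (1 - cP/j)^M`, `M c = 2`, `P = p^r`.
-/

namespace V11316
namespace WPS

section main

variable {p : ℕ} (hp : p.Prime) (h5 : 5 ≤ p) (r : ℕ) (M : ℕ) (c : ℚ) (hMc : (M : ℚ) * c = 2)
  (hc : c ∈ Zp p hp)

/-- `P / k` -/
def xx (P : ℚ) (k : ℕ) : ℚ := P / k

/-- `(1 - c P / k)^M` -/
def UU (P c : ℚ) (M k : ℕ) : ℚ := (1 - c * xx P k) ^ M

/-- `∏_{j ≤ k} (1 - c P / j)^M` -/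
def tt (P c : ℚ) (M k : ℕ) : ℚ := ∏ j ∈ Finset.range k, UU P c M (j + 1)

/-- the summand after telescoping -/
def bb (P c : ℚ) (M k : ℕ) : ℚ :=
  k * (k + (1 - c) * P) * UU P c M k - (k - c * P) * (k - P)

lemma tt_succ (P c : ℚ) (M k : ℕ) : tt P c M (k + 1) = tt P c M k * UU P c M (k + 1) := by
  unfold tt
  rw [Finset.prod_range_succ]

lemma telescope (P c : ℚ) (M n : ℕ) :
    ∑ k ∈ Finset.range n, tt P c M k * bb P c M (k + 1)
      = (P - 1) * ∑ k ∈ Finset.range n, (2 * (k : ℚ) + 1 - c * P) * tt P c M k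
        + n * (n - c * P + P) * tt P c M n := by
  induction n with
  | zero => simp
  | succ n ih =>
    rw [Finset.sum_range_succ, Finset.sum_range_succ, ih, tt_succ]
    unfold bb
    push_cast
    ring

/-- telescoped form of the full sum -/
lemma telescope_full (c : ℚ) (M n : ℕ) :
    ∑ k ∈ Finset.range n, tt ((n : ℚ) + 1) c M k * bb ((n : ℚ) + 1) c M (k + 1)
      = n * ∑ k ∈ Finset.range (n + 1), (2 * (k : ℚ) + 1 - c * (n + 1)) * tt ((n : ℚ) + 1) c M k := by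
  rw [telescope, Finset.sum_range_succ]
  ring

include h5 in
lemma half_mem : (1 / 2 : ℚ) ∈ Zp p hp := by
  have := inv_mem' hp 2 (by
    intro h
    have := Int.le_of_dvd (by norm_num) h
    omega)
  simpa using this

include h5 in
lemma third_mem : (1 / 3 : ℚ) ∈ Zp p hp := by
  have := inv_mem' hp 3 (by
    intro h
    have := Int.le_of_dvd (by norm_num) h
    omega)
  simpa using this

/-- `x_k = p * x'` -/
lemma xx_eq (k : ℕ) : xx ((p : ℚ) ^ (r + 1)) k = p * (((p : ℚ) ^ r) / k) := by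
  unfold xx
  rw [pow_succ]
  ring

lemma xx'_mem (k : ℕ) (hk : 0 < k) (hkr : k < p ^ (r + 1)) :
    ((p : ℚ) ^ r) / k ∈ Zp p hp := div_mem_of_lt hp r k hk hkr

lemma xx_mem (k : ℕ) (hk : 0 < k) (hkr : k < p ^ (r + 1)) :
    xx ((p : ℚ) ^ (r + 1)) k ∈ Zp p hp := by
  rw [xx_eq]
  exact mul_mem (natCast_mem' hp _) (xx'_mem hp r k hk hkr)

include h5 hMc hc in
/-- expansion of `U_k` -/
lemma UU_expand (k : ℕ) (hk : 0 < k) (hkr : k < p ^ (r + 1)) :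
    ∃ z ∈ Zp p hp, UU ((p : ℚ) ^ (r + 1)) c M k
      = 1 - 2 * xx ((p : ℚ) ^ (r + 1)) k + (1 + (1 - c)) * xx ((p : ℚ) ^ (r + 1)) k ^ 2
        - (2 / 3) * (1 + (1 - c)) * (1 - c) * xx ((p : ℚ) ^ (r + 1)) k ^ 3
        + (1 - c) * p ^ 2 * xx ((p : ℚ) ^ (r + 1)) k ^ 2 * z := by
  obtain ⟨z, hz, h⟩ := expand hp h5 M c hMc hc (- xx ((p : ℚ) ^ (r + 1)) k) (-(((p : ℚ) ^ r) / k))
    (by rw [xx_eq]; ring) (neg_mem (xx'_mem hp r k hk hkr))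
  refine ⟨z, hz, ?_⟩
  unfold UU
  rw [show 1 - c * xx ((p : ℚ) ^ (r + 1)) k = 1 + c * (- xx ((p : ℚ) ^ (r + 1)) k) by ring, h]
  ring

include h5 hMc hc in
/-- `U_k = 1 + p z` -/
lemma UU_one (k : ℕ) (hk : 0 < k) (hkr : k < p ^ (r + 1)) :
    ∃ z ∈ Zp p hp, UU ((p : ℚ) ^ (r + 1)) c M k = 1 + p * z := by
  obtain ⟨z, hz, h⟩ := UU_expand hp h5 r M c hMc hc k hk hkr
  have hx' := xx'_mem hp r k hk hkr
  have hxm := xx_mem hp r k hk hkr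
  have h2 : (2 : ℚ) ∈ Zp p hp := by exact_mod_cast natCast_mem' hp 2
  have hpm : (p : ℚ) ∈ Zp p hp := natCast_mem' hp p
  have h1m : (1 : ℚ) ∈ Zp p hp := one_mem _
  have hd : 1 - c ∈ Zp p hp := sub_mem h1m hc
  have hd1 : 1 + (1 - c) ∈ Zp p hp := add_mem h1m hd
  refine ⟨((p : ℚ) ^ r / k) * (-2 + (1 + (1 - c)) * xx ((p : ℚ) ^ (r + 1)) k
    - 2 * (1 / 3) * (1 + (1 - c)) * (1 - c) * xx ((p : ℚ) ^ (r + 1)) k ^ 2
    + (1 - c) * p ^ 2 * xx ((p : ℚ) ^ (r + 1)) k * z), ?_, ?_⟩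
  · refine mul_mem hx' (add_mem (sub_mem (add_mem (neg_mem h2) (mul_mem hd1 hxm)) ?_) ?_)
    · exact mul_mem (mul_mem (mul_mem (mul_mem h2 (third_mem hp h5)) hd1) hd) (pow_mem hxm _)
    · exact mul_mem (mul_mem (mul_mem hd (pow_mem hpm _)) hxm) hz
  · rw [h]
    have hx := xx_eq (p := p) r k
    set X := xx ((p : ℚ) ^ (r + 1)) k with hX
    set X' := (p : ℚ) ^ r / k with hX'
    have : (p : ℚ) * (X' * (-2 + (1 + (1 - c)) * X - 2 * (1 / 3) * (1 + (1 - c)) * (1 - c) * X ^ 2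
        + (1 - c) * p ^ 2 * X * z))
        = (p * X') * (-2 + (1 + (1 - c)) * X - 2 * (1 / 3) * (1 + (1 - c)) * (1 - c) * X ^ 2
        + (1 - c) * p ^ 2 * X * z) := by ring
    rw [this, ← hx]
    ring

/-- inverse of a `1`-unit -/
lemma inv_one_unit (z : ℚ) (hz : z ∈ Zp p hp) : (1 + p * z)⁻¹ ∈ Zp p hp := by
  rw [mem_Zp] at hz
  have hden : (z.den : ℚ) ≠ 0 := by exact_mod_cast z.den_nz
  have h1 : (1 + p * z) = ((z.den : ℤ) + p * z.num : ℤ) / ((z.den : ℤ) : ℚ) := by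
    push_cast
    have h2 : z * z.den = z.num := Rat.mul_den_eq_num z
    field_simp
    linear_combination (p : ℚ) * h2
  rw [h1, inv_div]
  have := div_mem' hp (z.den : ℤ) ((z.den : ℤ) + p * z.num) (by
    intro h
    have h2 : (p : ℤ) ∣ (z.den : ℤ) := (Int.dvd_add_left (Dvd.intro _ rfl)).1 h
    exact hz (by exact_mod_cast h2))
  exact_mod_cast this

include h5 hMc hc in
lemma UU_inv_mem (k : ℕ) (hk : 0 < k) (hkr : k < p ^ (r + 1)) :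
    (UU ((p : ℚ) ^ (r + 1)) c M k)⁻¹ ∈ Zp p hp ∧ UU ((p : ℚ) ^ (r + 1)) c M k ≠ 0 := by
  obtain ⟨z, hz, h⟩ := UU_one hp h5 r M c hMc hc k hk hkr
  rw [h]
  refine ⟨inv_one_unit hp z hz, ?_⟩
  intro h0
  have hpz : z = -(1 / (p : ℚ)) := by
    have hp0 : (p : ℚ) ≠ 0 := by exact_mod_cast hp.ne_zero
    field_simp
    linarith
  rw [mem_Zp, hpz] at hz
  apply hz
  rw [Rat.neg_den, one_div, Rat.inv_natCast_den]
  simp [hp.ne_zero]

include h5 hMc hc in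
/-- `t_k = 1 + p z` -/
lemma tt_one (k : ℕ) (hkr : k < p ^ (r + 1)) :
    ∃ z ∈ Zp p hp, tt ((p : ℚ) ^ (r + 1)) c M k = 1 + p * z := by
  induction k with
  | zero => exact ⟨0, zero_mem _, by simp [tt]⟩
  | succ k ih =>
    obtain ⟨z, hz, h⟩ := ih (by omega)
    obtain ⟨w, hw, h'⟩ := UU_one hp h5 r M c hMc hc (k + 1) (by omega) hkr
    refine ⟨z + w + p * z * w, ?_, ?_⟩
    · exact add_mem (add_mem hz hw) (mul_mem (mul_mem (natCast_mem' hp _) hz) hw)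
    · rw [tt_succ, h, h']
      ring

include h5 hMc hc in
lemma tt_mem (k : ℕ) (hkr : k < p ^ (r + 1)) : tt ((p : ℚ) ^ (r + 1)) c M k ∈ Zp p hp := by
  obtain ⟨z, hz, h⟩ := tt_one hp h5 r M c hMc hc k hkr
  rw [h]
  exact add_mem (one_mem _) (mul_mem (natCast_mem' hp _) hz)

/-- reflection: `w = 1 - x_{P-k}` satisfies `w (1 - x_k) = 1` -/
lemma refl_w (P : ℕ) (k : ℕ) (hk : 0 < k) (hkP : k < P) :
    (1 - xx P (P - k)) * (1 - xx P k) = 1 := by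
  unfold xx
  rw [Nat.cast_sub hkP.le]
  have h1 : (k : ℚ) ≠ 0 := by exact_mod_cast hk.ne'
  have h2 : (P : ℚ) - k ≠ 0 := by
    have : (k : ℚ) < P := by exact_mod_cast hkP
    linarith
  field_simp
  ring

include h5 hMc hc in
/-- `U_k U_{P-k}` -/
lemma UU_mul (k : ℕ) (hk : 0 < k) (hkr : k < p ^ (r + 1)) (w : ℚ)
    (hw : w = 1 - xx ((p : ℚ) ^ (r + 1)) (p ^ (r + 1) - k)) :
    ∃ z ∈ Zp p hp,
      UU ((p : ℚ) ^ (r + 1)) c M k * UU ((p : ℚ) ^ (r + 1)) c M (p ^ (r + 1) - k)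
      = 1 + 2 * ((1 - c) * xx ((p : ℚ) ^ (r + 1)) k ^ 2 * w)
        + (1 + (1 - c)) * ((1 - c) * xx ((p : ℚ) ^ (r + 1)) k ^ 2 * w) ^ 2
        + (2 / 3) * (1 + (1 - c)) * (1 - c) * ((1 - c) * xx ((p : ℚ) ^ (r + 1)) k ^ 2 * w) ^ 3
        + (1 - c) * p ^ 2 * ((1 - c) * xx ((p : ℚ) ^ (r + 1)) k ^ 2 * w) ^ 2 * z := by
  have hx' := xx'_mem hp r k hk hkr
  have hx := xx_eq (p := p) r k
  have h1m : (1 : ℚ) ∈ Zp p hp := one_mem _
  have hpm : (p : ℚ) ∈ Zp p hp := natCast_mem' hp p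
  have hwm : w ∈ Zp p hp := by
    rw [hw]
    exact sub_mem h1m (xx_mem hp r _ (by omega) (by omega))
  obtain ⟨z, hz, h⟩ := expand hp h5 M c hMc hc ((1 - c) * xx ((p : ℚ) ^ (r + 1)) k ^ 2 * w)
    ((1 - c) * (p * (((p : ℚ) ^ r) / k) ^ 2) * w) (by rw [hx]; ring)
    (mul_mem (mul_mem (sub_mem h1m hc) (mul_mem hpm (pow_mem hx' _))) hwm)
  refine ⟨z, hz, ?_⟩
  rw [← h]
  unfold UU
  rw [← mul_pow]
  congr 1
  have hwx := refl_w (p ^ (r + 1)) k hk hkr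
  push_cast at hwx
  rw [← hw] at hwx
  have hx2 : xx ((p : ℚ) ^ (r + 1)) (p ^ (r + 1) - k) = 1 - w := by
    rw [hw]
    ring
  rw [hx2]
  set X := xx ((p : ℚ) ^ (r + 1)) k with hX
  linear_combination (c * (1 + (1 - c) * X)) * hwx

end main

end WPS
end V11316
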