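import Pool.Agent.V11316.W2

/-!
Pair sums and the reflection `k ↦ P - k`.
-/

namespace V11316
namespace WPS

section main

variable {p : ℕ} (hp : p.Prime) (h5 : 5 ≤ p) (r : ℕ) (M : ℕ) (c : ℚ) (hMc : (M : ℚ) * c = 2)
  (hc : c ∈ Zp p hp)

include h5 hMc hc in
lemma bb_small (k : ℕ) (hk : 0 < k) (hkr : k < p ^ (r + 1)) :
    ∃ z ∈ Zp p hp, bb ((p : ℚ) ^ (r + 1)) c M k = ((p : ℚ) ^ (r + 1)) ^ 2 * (1 - c) * p * z := by
  obtain ⟨z, hz, h⟩ := UU_expand hp h5 r M c hMc hc k hk hkr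
  have hx' := xx'_mem hp r k hk hkr
  have hxm := xx_mem hp r k hk hkr
  have hx := xx_eq (p := p) r k
  have h2 : (2 : ℚ) ∈ Zp p hp := by exact_mod_cast natCast_mem' hp 2
  have hpm : (p : ℚ) ∈ Zp p hp := natCast_mem' hp p
  have h1m : (1 : ℚ) ∈ Zp p hp := one_mem _
  have hd : 1 - c ∈ Zp p hp := sub_mem h1m hc
  have hd1 : 1 + (1 - c) ∈ Zp p hp := add_mem h1m hd
  have hk0 : (k : ℚ) ≠ 0 := by exact_mod_cast hk.ne'
  have hP : ((p : ℚ) ^ (r + 1)) = k * xx ((p : ℚ) ^ (r + 1)) k := by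
    unfold xx
    field_simp
  refine ⟨(1 + (1 - c)) * (((p : ℚ) ^ r) / k) + (1 + (1 - c) * xx ((p : ℚ) ^ (r + 1)) k) *
    (- (2 * (1 / 3) * (1 + (1 - c)) * (((p : ℚ) ^ r) / k)) + p * z), ?_, ?_⟩
  · refine add_mem (mul_mem hd1 hx') (mul_mem (add_mem h1m (mul_mem hd hxm)) (add_mem (neg_mem ?_)
      (mul_mem hpm hz)))
    exact mul_mem (mul_mem (mul_mem h2 (third_mem hp h5)) hd1) hx'
  · unfold bb
    rw [h]
    set X := xx ((p : ℚ) ^ (r + 1)) k with hX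
    set X' := (p : ℚ) ^ r / k with hX'
    have e1 : (k : ℚ) * (k + (1 - c) * (p : ℚ) ^ (r + 1)) = k ^ 2 * (1 + (1 - c) * X) := by
      rw [hP]; ring
    have e2 : ((k : ℚ) - c * (p : ℚ) ^ (r + 1)) * (k - (p : ℚ) ^ (r + 1))
        = k ^ 2 * ((1 - c * X) * (1 - X)) := by
      rw [hP]; ring
    have e3 : ((p : ℚ) ^ (r + 1)) ^ 2 = k ^ 2 * X ^ 2 := by
      rw [hP]; ring
    rw [e1, e2, e3]
    have e4 : (k : ℚ) ^ 2 * X ^ 2 * (1 - c) * p * ((1 + (1 - c)) * X' + (1 + (1 - c) * X) *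
        (-(2 * (1 / 3) * (1 + (1 - c)) * X') + p * z))
        = (k : ℚ) ^ 2 * X ^ 2 * (1 - c) * ((1 + (1 - c)) * (p * X') + (1 + (1 - c) * X) *
        (-(2 * (1 / 3) * (1 + (1 - c)) * (p * X')) + p ^ 2 * z)) := by ring
    rw [e4, ← hx]
    ring

include h5 hMc hc in
/-- the pair sum -/
lemma pair_sum (k : ℕ) (hk : 0 < k) (hkr : k < p ^ (r + 1)) :
    ∃ z ∈ Zp p hp, bb ((p : ℚ) ^ (r + 1)) c M k
        + UU ((p : ℚ) ^ (r + 1)) c M k * bb ((p : ℚ) ^ (r + 1)) c M (p ^ (r + 1) - k)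
      = ((p : ℚ) ^ (r + 1)) ^ 2 * (1 - c) ^ 2 *
        (- (1 / 3) * (1 + (1 - c)) * xx ((p : ℚ) ^ (r + 1)) k ^ 2 + p ^ 3 * z) := by
  obtain ⟨z, hz, h⟩ := UU_expand hp h5 r M c hMc hc k hk hkr
  obtain ⟨u, hu, hUU⟩ := UU_mul hp h5 r M c hMc hc k hk hkr _ rfl
  have hx' := xx'_mem hp r k hk hkr
  have hxm := xx_mem hp r k hk hkr
  have hx := xx_eq (p := p) r k
  have h2 : (2 : ℚ) ∈ Zp p hp := by exact_mod_cast natCast_mem' hp 2
  have hpm : (p : ℚ) ∈ Zp p hp := natCast_mem' hp p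
  have h1m : (1 : ℚ) ∈ Zp p hp := one_mem _
  have hd : 1 - c ∈ Zp p hp := sub_mem h1m hc
  have hd1 : 1 + (1 - c) ∈ Zp p hp := add_mem h1m hd
  have h3m := third_mem hp h5
  have hk0 : (k : ℚ) ≠ 0 := by exact_mod_cast hk.ne'
  have hP : ((p : ℚ) ^ (r + 1)) = k * xx ((p : ℚ) ^ (r + 1)) k := by
    unfold xx
    field_simp
  have hwx := refl_w (p ^ (r + 1)) k hk hkr
  push_cast at hwx
  set w := 1 - xx ((p : ℚ) ^ (r + 1)) (p ^ (r + 1) - k) with hw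
  have hwm : w ∈ Zp p hp := sub_mem h1m (xx_mem hp r _ (by omega) (by omega))
  set X := xx ((p : ℚ) ^ (r + 1)) k with hX
  set X' := (p : ℚ) ^ r / k with hX'
  set U := UU ((p : ℚ) ^ (r + 1)) c M k with hU
  set U' := UU ((p : ℚ) ^ (r + 1)) c M (p ^ (r + 1) - k) with hU'
  have hPk : ((p ^ (r + 1) - k : ℕ) : ℚ) = k * X - k := by
    rw [Nat.cast_sub hkr.le]
    push_cast
    rw [← hP]
  have e0 : bb ((p : ℚ) ^ (r + 1)) c M k
      = k ^ 2 * ((1 + (1 - c) * X) * U - (1 - c * X) * (1 - X)) := by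
    unfold bb
    rw [← hU, hP]
    ring
  have e1 : bb ((p : ℚ) ^ (r + 1)) c M (p ^ (r + 1) - k)
      = k ^ 2 * ((1 - X) * (1 - (1 + (1 - c)) * X) * U' - (1 - (1 - c) * X)) := by
    unfold bb
    rw [← hU', hPk, hP]
    ring
  have e3 : ((p : ℚ) ^ (r + 1)) ^ 2 = k ^ 2 * X ^ 2 := by
    rw [hP]; ring
  -- the correction
  refine ⟨- ((1 + (1 - c)) * (1 - c) * X' ^ 3 * w) + 2 * X' * z
    + (1 - (1 + (1 - c)) * X) * (2 * (1 / 3) * (1 + (1 - c)) * (1 - c) ^ 2 * X * X' ^ 3 * w ^ 2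
      + p * (1 - c) * X' ^ 2 * w * u), ?_, ?_⟩
  · refine add_mem (add_mem (neg_mem ?_) ?_) (mul_mem (sub_mem h1m (mul_mem hd1 hxm)) (add_mem ?_ ?_))
    · exact mul_mem (mul_mem (mul_mem hd1 hd) (pow_mem hx' _)) hwm
    · exact mul_mem (mul_mem h2 hx') hz
    · exact mul_mem (mul_mem (mul_mem (mul_mem (mul_mem (mul_mem h2 h3m) hd1) (pow_mem hd _)) hxm)
        (pow_mem hx' _)) (pow_mem hwm _)
    · exact mul_mem (mul_mem (mul_mem (mul_mem hpm hd) (pow_mem hx' _)) hwm) hu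
  · rw [e0, e1, e3]
    -- multiply out using hUU
    have e5 : (k : ℚ) ^ 2 * ((1 + (1 - c) * X) * U - (1 - c * X) * (1 - X))
        + U * (k ^ 2 * ((1 - X) * (1 - (1 + (1 - c)) * X) * U' - (1 - (1 - c) * X)))
        = k ^ 2 * (2 * (1 - c) * X * U - (1 - c * X) * (1 - X)
          + (1 - X) * (1 - (1 + (1 - c)) * X) * (U * U')) := by ring
    rw [e5, hUU, h]
    have e7 : (p : ℚ) ^ 3 * (-((1 + (1 - c)) * (1 - c) * X' ^ 3 * w) + 2 * X' * z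
        + (1 - (1 + (1 - c)) * X) * (2 * (1 / 3) * (1 + (1 - c)) * (1 - c) ^ 2 * X * X' ^ 3 * w ^ 2
      + p * (1 - c) * X' ^ 2 * w * u))
        = -((1 + (1 - c)) * (1 - c) * (p * X') ^ 3 * w) + 2 * p ^ 2 * (p * X') * z
        + (1 - (1 + (1 - c)) * X) * (2 * (1 / 3) * (1 + (1 - c)) * (1 - c) ^ 2 * X * (p * X') ^ 3
          * w ^ 2 + p ^ 2 * (1 - c) * (p * X') ^ 2 * w * u) := by ring
    rw [e7, ← hx]
    linear_combination (k ^ 2 * (2 * (1 - c) * X ^ 2 * (1 - (1 + (1 - c)) * X)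
      + (1 - (1 + (1 - c)) * X) * (1 + (1 - c)) * (1 - c) ^ 2 * X ^ 4 * w
      + (2 / 3) * (1 - (1 + (1 - c)) * X) * (1 + (1 - c)) * (1 - c) ^ 4 * X ^ 6 * w ^ 2
      + (1 - (1 + (1 - c)) * X) * (1 - c) ^ 3 * p ^ 2 * X ^ 4 * w * u
      + (1 + (1 - c)) * (1 - c) ^ 2 * X ^ 4)) * hwx

end main

end WPS
end V11316
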