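import Pool.Agent.V11316.W3

/-!
The final divisibility `p^{2R+3} (1-c)^2` of the well-poised sum (`P = p^R`).
-/

namespace V11316
namespace WPS

section main

variable {p : ℕ} (hp : p.Prime) (h5 : 5 ≤ p) (r : ℕ) (M : ℕ) (c : ℚ) (hMc : (M : ℚ) * c = 2)
  (hc : c ∈ Zp p hp)

include h5 hMc hc in
lemma VV (k : ℕ) (hk : 0 < k) (hkr : k < p ^ (r + 1)) :
    ∃ z ∈ Zp p hp,
      UU ((p : ℚ) ^ (r + 1)) c M k * UU ((p : ℚ) ^ (r + 1)) c M (p ^ (r + 1) - k)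
      = 1 + (1 - c) * p ^ 2 * z := by
  obtain ⟨u, hu, hUU⟩ := UU_mul hp h5 r M c hMc hc k hk hkr _ rfl
  have hx' := xx'_mem hp r k hk hkr
  have hxm := xx_mem hp r k hk hkr
  have hx := xx_eq (p := p) r k
  have h2 : (2 : ℚ) ∈ Zp p hp := by exact_mod_cast natCast_mem' hp 2
  have h1m : (1 : ℚ) ∈ Zp p hp := one_mem _
  have hd : 1 - c ∈ Zp p hp := sub_mem h1m hc
  have hd1 : 1 + (1 - c) ∈ Zp p hp := add_mem h1m hd
  have h3m := third_mem hp h5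
  set w := 1 - xx ((p : ℚ) ^ (r + 1)) (p ^ (r + 1) - k) with hw
  have hwm : w ∈ Zp p hp := sub_mem h1m (xx_mem hp r _ (by omega) (by omega))
  refine ⟨2 * (((p : ℚ) ^ r) / k) ^ 2 * w
    + (1 + (1 - c)) * (1 - c) * (((p : ℚ) ^ r) / k) ^ 2 * xx ((p : ℚ) ^ (r + 1)) k ^ 2 * w ^ 2
    + 2 * (1 / 3) * (1 + (1 - c)) * (1 - c) ^ 3 * (((p : ℚ) ^ r) / k) ^ 2
      * xx ((p : ℚ) ^ (r + 1)) k ^ 4 * w ^ 3
    + (1 - c) ^ 2 * xx ((p : ℚ) ^ (r + 1)) k ^ 4 * w ^ 2 * u, ?_, ?_⟩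
  · refine add_mem (add_mem (add_mem ?_ ?_) ?_) ?_
    · exact mul_mem (mul_mem h2 (pow_mem hx' _)) hwm
    · exact mul_mem (mul_mem (mul_mem (mul_mem hd1 hd) (pow_mem hx' _)) (pow_mem hxm _))
        (pow_mem hwm _)
    · exact mul_mem (mul_mem (mul_mem (mul_mem (mul_mem (mul_mem h2 h3m) hd1) (pow_mem hd _))
        (pow_mem hx' _)) (pow_mem hxm _)) (pow_mem hwm _)
    · exact mul_mem (mul_mem (mul_mem (pow_mem hd _) (pow_mem hxm _)) (pow_mem hwm _)) hu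
  · rw [hUU]
    set X := xx ((p : ℚ) ^ (r + 1)) k with hX
    set X' := (p : ℚ) ^ r / k with hX'
    have e : (1 - c) * (p : ℚ) ^ 2 * (2 * X' ^ 2 * w
      + (1 + (1 - c)) * (1 - c) * X' ^ 2 * X ^ 2 * w ^ 2
      + 2 * (1 / 3) * (1 + (1 - c)) * (1 - c) ^ 3 * X' ^ 2 * X ^ 4 * w ^ 3
      + (1 - c) ^ 2 * X ^ 4 * w ^ 2 * u) =
      (1 - c) * (2 * (p * X') ^ 2 * w
      + (1 + (1 - c)) * (1 - c) * (p * X') ^ 2 * X ^ 2 * w ^ 2
      + 2 * (1 / 3) * (1 + (1 - c)) * (1 - c) ^ 3 * (p * X') ^ 2 * X ^ 4 * w ^ 3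
      + (1 - c) ^ 2 * p ^ 2 * X ^ 4 * w ^ 2 * u) := by ring
    rw [e, ← hx]
    ring

include h5 hMc hc in
lemma sym_aux (m : ℕ) (hm : p ^ (r + 1) = 2 * m + 1) (i : ℕ) (hi : i ≤ m) :
    ∃ z ∈ Zp p hp, tt ((p : ℚ) ^ (r + 1)) c M (m + i) - tt ((p : ℚ) ^ (r + 1)) c M (m - i)
      = (1 - c) * p ^ 2 * z := by
  induction i with
  | zero => exact ⟨0, zero_mem _, by simp⟩
  | succ i ih =>
    obtain ⟨z, hz, h⟩ := ih (by omega)
    have hk : 0 < m - i := by omega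
    have hkr : m - i < p ^ (r + 1) := by omega
    obtain ⟨v, hv, h'⟩ := VV hp h5 r M c hMc hc (m - i) hk hkr
    obtain ⟨hinv, hne⟩ := UU_inv_mem hp h5 r M c hMc hc (m - i) hk hkr
    have ht := tt_mem hp h5 r M c hMc hc (m + i) (by omega)
    have e1 : p ^ (r + 1) - (m - i) = m + i + 1 := by omega
    rw [e1] at h'
    have e2 : tt ((p : ℚ) ^ (r + 1)) c M (m - i)
        = tt ((p : ℚ) ^ (r + 1)) c M (m - (i + 1)) * UU ((p : ℚ) ^ (r + 1)) c M (m - i) := by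
      have := tt_succ ((p : ℚ) ^ (r + 1)) c M (m - (i + 1))
      rw [show m - (i + 1) + 1 = m - i by omega] at this
      exact this
    have e3 : tt ((p : ℚ) ^ (r + 1)) c M (m + (i + 1))
        = tt ((p : ℚ) ^ (r + 1)) c M (m + i) * UU ((p : ℚ) ^ (r + 1)) c M (m + i + 1) :=
      tt_succ _ _ _ _
    refine ⟨(UU ((p : ℚ) ^ (r + 1)) c M (m - i))⁻¹ *
      (z + tt ((p : ℚ) ^ (r + 1)) c M (m + i) * v), ?_, ?_⟩
    · exact mul_mem hinv (add_mem hz (mul_mem ht hv))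
    · apply mul_left_cancel₀ hne
      rw [e3]
      have e4 : UU ((p : ℚ) ^ (r + 1)) c M (m - i) * ((1 - c) * p ^ 2 *
          ((UU ((p : ℚ) ^ (r + 1)) c M (m - i))⁻¹ * (z + tt ((p : ℚ) ^ (r + 1)) c M (m + i) * v)))
          = (1 - c) * p ^ 2 * z + tt ((p : ℚ) ^ (r + 1)) c M (m + i) * ((1 - c) * p ^ 2 * v) := by
        field_simp
      rw [e4, ← h]
      have e5 : (1 - c) * (p : ℚ) ^ 2 * v = UU ((p : ℚ) ^ (r + 1)) c M (m - i) *
          UU ((p : ℚ) ^ (r + 1)) c M (m + i + 1) - 1 := by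
        rw [h']; ring
      rw [e5, e2]
      ring

include h5 hMc hc in
lemma sym (m : ℕ) (hm : p ^ (r + 1) = 2 * m + 1) (k : ℕ) (hk : k < 2 * m) :
    ∃ z ∈ Zp p hp, tt ((p : ℚ) ^ (r + 1)) c M (2 * m - 1 - k) - tt ((p : ℚ) ^ (r + 1)) c M (k + 1)
      = (1 - c) * p ^ 2 * z := by
  by_cases h : k + 1 ≤ m
  · obtain ⟨z, hz, hz'⟩ := sym_aux hp h5 r M c hMc hc m hm (m - (k + 1)) (by omega)
    refine ⟨z, hz, ?_⟩
    rw [show m + (m - (k + 1)) = 2 * m - 1 - k by omega, show m - (m - (k + 1)) = k + 1 by omega]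
      at hz'
    exact hz'
  · obtain ⟨z, hz, hz'⟩ := sym_aux hp h5 r M c hMc hc m hm (k + 1 - m) (by omega)
    refine ⟨-z, neg_mem hz, ?_⟩
    rw [show m + (k + 1 - m) = k + 1 by omega, show m - (k + 1 - m) = 2 * m - 1 - k by omega]
      at hz'
    linarith

lemma sum_pairs (f : ℕ → ℚ) (m : ℕ) :
    ∑ k ∈ Finset.range (2 * m), f (k + 1)
      = ∑ i ∈ Finset.range m, (f (2 * i + 1) + f (2 * (i + 1))) := by
  induction m with
  | zero => simp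
  | succ m ih =>
    rw [show 2 * (m + 1) = 2 * m + 1 + 1 by ring, Finset.sum_range_succ, Finset.sum_range_succ, ih,
      Finset.sum_range_succ]
    rw [show 2 * (m + 1) = 2 * m + 1 + 1 by ring]
    ring

include h5 in
lemma sum_sq (m : ℕ) (hm : p ^ (r + 1) = 2 * m + 1) :
    ∃ z ∈ Zp p hp, ∑ k ∈ Finset.range (2 * m), xx ((p : ℚ) ^ (r + 1)) (k + 1) ^ 2 = p ^ 3 * z := by
  have h1m : (1 : ℚ) ∈ Zp p hp := one_mem _
  have h2m : (2 : ℚ) ∈ Zp p hp := by exact_mod_cast natCast_mem' hp 2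
  have hhalf := half_mem hp h5
  have hPq : ((p : ℚ) ^ (r + 1)) = 2 * m + 1 := by exact_mod_cast hm
  -- odd terms
  have hodd : ∀ i : ℕ, i < m → ∃ z ∈ Zp p hp, xx ((p : ℚ) ^ (r + 1)) (2 * i + 1) ^ 2
      = (1 / 4) * xx ((p : ℚ) ^ (r + 1)) (m + i + 1) ^ 2 + p ^ 3 * z := by
    intro i hi
    have hu := xx_mem hp r (2 * i + 1) (by omega) (by omega)
    have hu' := xx'_mem hp r (2 * i + 1) (by omega) (by omega)
    have hx' := xx'_mem hp r (m + i + 1) (by omega) (by omega)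
    have hx := xx_eq (p := p) r (m + i + 1)
    have hue := xx_eq (p := p) r (2 * i + 1)
    have hrel : xx ((p : ℚ) ^ (r + 1)) (2 * i + 1)
        = xx ((p : ℚ) ^ (r + 1)) (m + i + 1) * (1 + xx ((p : ℚ) ^ (r + 1)) (2 * i + 1)) / 2 := by
      unfold xx
      rw [hPq]
      have h1 : ((2 * i + 1 : ℕ) : ℚ) ≠ 0 := by positivity
      have h2 : ((m + i + 1 : ℕ) : ℚ) ≠ 0 := by positivity
      field_simp
      push_cast
      ring
    set u := xx ((p : ℚ) ^ (r + 1)) (2 * i + 1) with hudef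
    set X := xx ((p : ℚ) ^ (r + 1)) (m + i + 1) with hX
    set u' := (p : ℚ) ^ r / ((2 * i + 1 : ℕ) : ℚ) with hu'def
    set X' := (p : ℚ) ^ r / ((m + i + 1 : ℕ) : ℚ) with hX'
    refine ⟨(1 / 2) * (1 / 2) * X' ^ 2 * u' * (2 + u), ?_, ?_⟩
    · exact mul_mem (mul_mem (mul_mem (mul_mem hhalf hhalf) (pow_mem hx' _)) hu') (add_mem h2m hu)
    · have e : (p : ℚ) ^ 3 * ((1 / 2) * (1 / 2) * X' ^ 2 * u' * (2 + u))
          = (1 / 4) * (p * X') ^ 2 * (p * u') * (2 + u) := by ring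
      rw [e, ← hx, ← hue]
      have : u ^ 2 = (X * (1 + u) / 2) ^ 2 := by rw [← hrel]
      rw [this]
      ring
  have heven : ∀ i : ℕ, xx ((p : ℚ) ^ (r + 1)) (2 * (i + 1)) ^ 2
      = (1 / 4) * xx ((p : ℚ) ^ (r + 1)) (i + 1) ^ 2 := by
    intro i
    unfold xx
    push_cast
    have h2 : ((i : ℚ) + 1) ≠ 0 := by positivity
    field_simp
    ring
  have hodd' : ∀ i : ℕ, ∃ z ∈ Zp p hp, i < m → xx ((p : ℚ) ^ (r + 1)) (2 * i + 1) ^ 2
      = (1 / 4) * xx ((p : ℚ) ^ (r + 1)) (m + i + 1) ^ 2 + p ^ 3 * z := by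
    intro i
    by_cases hi : i < m
    · obtain ⟨z, hz, h⟩ := hodd i hi
      exact ⟨z, hz, fun _ => h⟩
    · exact ⟨0, zero_mem _, fun h => absurd h hi⟩
  choose z hz hz' using hodd'
  have hsum : ∑ k ∈ Finset.range (2 * m), xx ((p : ℚ) ^ (r + 1)) (k + 1) ^ 2
      = (1 / 4) * ∑ k ∈ Finset.range (2 * m), xx ((p : ℚ) ^ (r + 1)) (k + 1) ^ 2
        + p ^ 3 * ∑ i ∈ Finset.range m, z i := by
    have h1 := sum_pairs (fun k => xx ((p : ℚ) ^ (r + 1)) k ^ 2) m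
    have h2 : ∑ k ∈ Finset.range (2 * m), xx ((p : ℚ) ^ (r + 1)) (k + 1) ^ 2
        = ∑ k ∈ Finset.range m, xx ((p : ℚ) ^ (r + 1)) (k + 1) ^ 2
          + ∑ k ∈ Finset.range m, xx ((p : ℚ) ^ (r + 1)) (m + k + 1) ^ 2 := by
      rw [two_mul, Finset.sum_range_add]
    calc ∑ k ∈ Finset.range (2 * m), xx ((p : ℚ) ^ (r + 1)) (k + 1) ^ 2
        = ∑ i ∈ Finset.range m, (xx ((p : ℚ) ^ (r + 1)) (2 * i + 1) ^ 2
            + xx ((p : ℚ) ^ (r + 1)) (2 * (i + 1)) ^ 2) := h1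
      _ = ∑ i ∈ Finset.range m, (((1 / 4) * xx ((p : ℚ) ^ (r + 1)) (m + i + 1) ^ 2 + p ^ 3 * z i)
            + (1 / 4) * xx ((p : ℚ) ^ (r + 1)) (i + 1) ^ 2) := by
          apply Finset.sum_congr rfl
          intro i hi
          rw [hz' i (Finset.mem_range.1 hi), heven]
      _ = _ := by
          rw [h2, Finset.sum_add_distrib, Finset.sum_add_distrib, ← Finset.mul_sum,
            ← Finset.mul_sum, ← Finset.mul_sum]
          ring
  refine ⟨4 * (1 / 3) * ∑ i ∈ Finset.range m, z i, ?_, ?_⟩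
  · exact mul_mem (mul_mem (by exact_mod_cast natCast_mem' hp 4) (third_mem hp h5))
      (sum_mem (fun i _ => hz i))
  · linarith

include h5 hMc hc in
/-- main theorem, in telescoped form -/
lemma twoT (m : ℕ) (hm : p ^ (r + 1) = 2 * m + 1) :
    ∃ z ∈ Zp p hp,
      2 * ∑ k ∈ Finset.range (2 * m), tt ((p : ℚ) ^ (r + 1)) c M k * bb ((p : ℚ) ^ (r + 1)) c M (k + 1)
      = ((p : ℚ) ^ (r + 1)) ^ 2 * (1 - c) ^ 2 * p ^ 3 * z := by
  have h1m : (1 : ℚ) ∈ Zp p hp := one_mem _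
  have hpm : (p : ℚ) ∈ Zp p hp := natCast_mem' hp p
  have hd : 1 - c ∈ Zp p hp := sub_mem h1m hc
  have hd1 : 1 + (1 - c) ∈ Zp p hp := add_mem h1m hd
  have h3m := third_mem hp h5
  have hterm : ∀ k : ℕ, ∃ z ∈ Zp p hp, k < 2 * m →
      tt ((p : ℚ) ^ (r + 1)) c M k * bb ((p : ℚ) ^ (r + 1)) c M (k + 1)
        + tt ((p : ℚ) ^ (r + 1)) c M (2 * m - 1 - k) * bb ((p : ℚ) ^ (r + 1)) c M (2 * m - 1 - k + 1)
      = ((p : ℚ) ^ (r + 1)) ^ 2 * (1 - c) ^ 2 *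
        (- (1 / 3) * (1 + (1 - c)) * xx ((p : ℚ) ^ (r + 1)) (k + 1) ^ 2 + p ^ 3 * z) := by
    intro k
    by_cases hk : k < 2 * m
    · obtain ⟨z1, hz1, e1⟩ := pair_sum hp h5 r M c hMc hc (k + 1) (by omega) (by omega)
      obtain ⟨z2, hz2, e2⟩ := sym hp h5 r M c hMc hc m hm k hk
      obtain ⟨z3, hz3, e3⟩ := bb_small hp h5 r M c hMc hc (p ^ (r + 1) - (k + 1)) (by omega)
        (by omega)
      obtain ⟨s, hs, e4⟩ := tt_one hp h5 r M c hMc hc k (by omega)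
      have ht := tt_mem hp h5 r M c hMc hc k (by omega)
      have hx' := xx'_mem hp r (k + 1) (by omega) (by omega)
      have hx := xx_eq (p := p) r (k + 1)
      have e5 : 2 * m - 1 - k + 1 = p ^ (r + 1) - (k + 1) := by omega
      refine ⟨- (1 / 3) * (1 + (1 - c)) * s * (((p : ℚ) ^ r) / ((k + 1 : ℕ) : ℚ)) ^ 2
        + tt ((p : ℚ) ^ (r + 1)) c M k * z1 + z2 * z3, ?_, fun _ => ?_⟩
      · refine add_mem (add_mem ?_ (mul_mem ht hz1)) (mul_mem hz2 hz3)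
        exact mul_mem (mul_mem (mul_mem (neg_mem h3m) hd1) hs) (pow_mem hx' _)
      · rw [e5]
        have e6 : tt ((p : ℚ) ^ (r + 1)) c M k * bb ((p : ℚ) ^ (r + 1)) c M (k + 1)
            + tt ((p : ℚ) ^ (r + 1)) c M (2 * m - 1 - k)
              * bb ((p : ℚ) ^ (r + 1)) c M (p ^ (r + 1) - (k + 1))
            = tt ((p : ℚ) ^ (r + 1)) c M k * (bb ((p : ℚ) ^ (r + 1)) c M (k + 1)
              + UU ((p : ℚ) ^ (r + 1)) c M (k + 1) * bb ((p : ℚ) ^ (r + 1)) c M (p ^ (r + 1) - (k + 1)))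
            + (tt ((p : ℚ) ^ (r + 1)) c M (2 * m - 1 - k) - tt ((p : ℚ) ^ (r + 1)) c M (k + 1))
              * bb ((p : ℚ) ^ (r + 1)) c M (p ^ (r + 1) - (k + 1)) := by
          rw [tt_succ]
          ring
        rw [e6, e1, e2, e3]
        set X := xx ((p : ℚ) ^ (r + 1)) (k + 1) with hX
        set X' := (p : ℚ) ^ r / ((k + 1 : ℕ) : ℚ) with hX'
        set T := tt ((p : ℚ) ^ (r + 1)) c M k with hT
        have e7 : (p : ℚ) ^ 3 * (-(1 / 3) * (1 + (1 - c)) * s * X' ^ 2 + T * z1 + z2 * z3)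
            = -(1 / 3) * (1 + (1 - c)) * (p * s) * (p * X') ^ 2 + p ^ 3 * (T * z1 + z2 * z3) := by
          ring
        rw [e7, ← hx, show (p : ℚ) * s = T - 1 by rw [e4]; ring]
        ring
    · exact ⟨0, zero_mem _, fun h => absurd h hk⟩
  choose z hz hz' using hterm
  obtain ⟨q, hq, hq'⟩ := sum_sq hp h5 r m hm
  refine ⟨- (1 / 3) * (1 + (1 - c)) * q + ∑ k ∈ Finset.range (2 * m), z k, ?_, ?_⟩
  · exact add_mem (mul_mem (mul_mem (neg_mem h3m) hd1) hq) (sum_mem (fun i _ => hz i))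
  · rw [two_mul]
    nth_rw 2 [← Finset.sum_range_reflect]
    rw [← Finset.sum_add_distrib, Finset.sum_congr rfl (fun k hk => hz' k (Finset.mem_range.1 hk)),
      ← Finset.mul_sum, Finset.sum_add_distrib, ← Finset.mul_sum, ← Finset.mul_sum, hq']
    ring

include h5 hMc hc in
/-- **main theorem** -/
theorem main_sum :
    ∃ z ∈ Zp p hp,
      ∑ k ∈ Finset.range (p ^ (r + 1)), (2 * (k : ℚ) + 1 - c * (p : ℚ) ^ (r + 1)) *
        tt ((p : ℚ) ^ (r + 1)) c M k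
      = (p : ℚ) ^ (2 * (r + 1) + 3) * (1 - c) ^ 2 * z := by
  have hodd : Odd (p ^ (r + 1)) := (hp.odd_of_ne_two (by omega)).pow
  obtain ⟨m, hm⟩ := hodd
  obtain ⟨z, hz, h⟩ := twoT hp h5 r M c hMc hc m hm
  have hPq : ((p : ℚ) ^ (r + 1)) = 2 * m + 1 := by exact_mod_cast hm
  have htel := telescope_full c M (2 * m)
  push_cast at htel
  rw [← hPq] at htel
  rw [htel] at h
  rw [hm]
  have hm0 : (m : ℚ) ≠ 0 := by
    have : m ≠ 0 := by
      rintro rfl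
      have : 1 < p ^ (r + 1) := Nat.one_lt_pow (by omega) hp.one_lt
      omega
    exact_mod_cast this
  refine ⟨z * (1 / ((4 * m : ℤ) : ℚ)), ?_, ?_⟩
  · apply mul_mem hz
    apply inv_mem'
    intro hd
    have hd1 : (p : ℤ) ∣ (2 * m + 1 : ℤ) := by
      have : (p : ℤ) ∣ ((p ^ (r + 1) : ℕ) : ℤ) := by
        exact_mod_cast dvd_pow_self p (by omega)
      rw [hm] at this
      push_cast at this
      exact this
    have hd2 : (p : ℤ) ∣ 2 := by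
      have : (2 : ℤ) = 2 * (2 * m + 1) - 4 * m := by ring
      rw [this]
      exact dvd_sub (Dvd.dvd.mul_left hd1 2) hd
    have := Int.le_of_dvd (by norm_num) hd2
    omega
  · have e : ∑ k ∈ Finset.range (2 * m + 1), (2 * (k : ℚ) + 1 - c * (p : ℚ) ^ (r + 1)) *
        tt ((p : ℚ) ^ (r + 1)) c M k
        = (((p : ℚ) ^ (r + 1)) ^ 2 * (1 - c) ^ 2 * p ^ 3 * z) * (1 / (4 * m)) := by
      rw [← h]
      field_simp
      ring
    rw [e]
    push_cast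
    ring

end main

end WPS
end V11316
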