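import Pool.Agent.V11316.W4

namespace V11316
namespace WPS

/-- rising factorial in product form -/
lemma poch_tt (P c : ℚ) (M k : ℕ) :
    ((∏ i ∈ Finset.range k, ((1 - c * P) + (i : ℚ))) / (k.factorial : ℕ)) ^ M = tt P c M k := by
  unfold tt UU xx
  rw [Finset.prod_pow]
  congr 1
  induction k with
  | zero => simp
  | succ k ih =>
    rw [Finset.prod_range_succ, Finset.prod_range_succ, ← ih, Nat.factorial_succ]
    push_cast
    have h1 : ((k : ℚ) + 1) ≠ 0 := by positivity
    have h2 : ((k.factorial : ℕ) : ℚ) ≠ 0 := by exact_mod_cast Nat.factorial_ne_zero k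
    field_simp
    ring

lemma den_of_mem {p : ℕ} (hp : p.Prime) (x : ℚ) (n : ℕ) (z : ℚ) (hz : z ∈ Zp p hp)
    (h : x = (p : ℚ) ^ n * z) : ¬ p ∣ (x / (p : ℚ) ^ n).den := by
  have hp0 : (p : ℚ) ≠ 0 := by exact_mod_cast hp.ne_zero
  have : x / (p : ℚ) ^ n = z := by
    rw [h]
    field_simp
  rw [this]
  exact hz

end WPS
end V11316
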